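import Pool.Agent.H30.LamB

set_option autoImplicit false

namespace Pool.Agent.H30.Add

open Set Filter Topology Function Pool.Agent.H30.Spl
open Cardinal hiding univ

abbrev C : Type := ℕ → Bool

def cone (s : C) (m : ℕ) (A : C) : Set C := {x | (∀ i < m, x i = s i) ∧ ∀ i, m ≤ i → x i → A i}

def cut (x : C) (k : ℕ) : C := fun i => if i < k then x i else false

lemma nhds_cut {W : Set C} (h : IsOpen W) {x : C} (hx : x ∈ W) :
    ∃ k, ∀ y : C, (∀ i < k, y i = x i) → y ∈ W := by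
  obtain ⟨I, u, h4, h5⟩ := isOpen_pi_iff.1 h _ hx
  exact ⟨I.sup id + 1, fun y hy => h5 fun i hi => by
    rw [hy i (Nat.lt_succ_of_le (Finset.le_sup (f := id) hi))]; exact (h4 i hi).2⟩

lemma op_cone (s : C) (m : ℕ) {W : Set C} (h : IsOpen W) : IsOpen {A | (cone s m A ∩ W).Nonempty} := by
  refine isOpen_iff_mem_nhds.2 fun A ⟨x, h1, h2⟩ => ?_
  obtain ⟨k, hk⟩ := nhds_cut h h2
  have : ∀ᶠ B in 𝓝 A, ∀ i ∈ Iio (k + m), B i = A i := (eventually_all_finite (finite_Iio _)).2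
    fun i _ => (continuous_apply i).continuousAt.eventually (isOpen_discrete {A i} |>.mem_nhds rfl)
  refine this.mono fun B hB => ⟨cut x (k + m), ⟨fun i hi => ?_, fun i hi h3 => ?_⟩,
    hk _ fun i hi => if_pos (by omega)⟩
  · rw [cut, if_pos (by omega), h1.1 i hi]
  · by_cases h4 : i < k + m
    · rw [cut, if_pos h4] at h3
      rw [hB i h4]; exact h1.2 i hi h3
    · simp [cut, h4] at h3

def Pos (𝒲 : Set (Set C)) (A : C) : Prop := ∀ W ∈ 𝒲, ∀ s m, (cone s m A ∩ W).Nonempty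

lemma Pos.pick {𝒲 : Set (Set C)} {A : C} (h : Pos 𝒲 A) (h1 : 𝒲.Countable) (h2 : ∀ W ∈ 𝒲, IsOpen W)
    (s : C) (m : ℕ) : ∃ x ∈ cone s m A, ∀ W ∈ 𝒲, x ∈ W := by
  have hc : IsClosed (cone s m A) := by
    simp only [cone, setOf_and, setOf_forall]
    exact (isClosed_iInter fun i => isClosed_iInter fun _ => isClosed_eq (continuous_apply i)
      continuous_const).inter (isClosed_iInter fun i => isClosed_iInter fun _ =>
        IsClosed.preimage (f := fun x : C => x i) (continuous_apply i)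
          (isClosed_discrete {b : Bool | b → A i}))
  have := isCompact_iff_compactSpace.1 hc.isCompact
  have h3 : Dense (⋂₀ ((fun W => (Subtype.val ⁻¹' W : Set (cone s m A))) '' 𝒲)) :=
    dense_sInter_of_isOpen (forall_mem_image.2 fun W hW => (h2 W hW).preimage continuous_subtype_val)
      (h1.image _) (forall_mem_image.2 fun W hW => dense_iff_inter_open.2 fun U hU ⟨x, hx⟩ => by
        obtain ⟨V, h4, rfl⟩ := isOpen_induced_iff.1 hU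
        obtain ⟨k, hk⟩ := nhds_cut h4 hx
        obtain ⟨y, h5, h6⟩ := h W hW x.1 (k + m)
        refine ⟨⟨y, fun i hi => (h5.1 i (by omega)).trans (x.2.1 i hi), fun i hi h7 => ?_⟩,
          hk y fun i hi => h5.1 i (by omega), h6⟩
        rcases lt_or_ge i (k + m) with h8 | h8
        exacts [x.2.2 i hi (h5.1 i h8 ▸ h7), h5.2 i h8 h7])
  have : Nonempty (cone s m A) := ⟨⟨cut s m, fun i hi => if_pos hi, fun i hi h => by
    simp [cut, hi.not_gt] at h⟩⟩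
  obtain ⟨x, hx⟩ := h3.nonempty
  exact ⟨x, x.2, fun W hW => hx _ ⟨W, hW, rfl⟩⟩

def Bd (F : Set (Set ℕ)) : Prop := ∀ k, ∃ l, ∀ a ∈ F, ∃ n ∈ a, k ≤ n ∧ n < l

lemma bd_split {R : Set (Set (Set ℕ))} (h1 : R.Countable) : ∃ B : Set ℕ, ∀ F ∈ R, Bd F → ∀ a ∈ F,
    (a ∩ B).Infinite ∧ (a ∩ Bᶜ).Infinite := by
  obtain ⟨F, hF⟩ := ((h1.mono (sep_subset R Bd)).insert ∅).exists_eq_range (insert_nonempty _ _)
  have h2 : ∀ j, Bd (F j) := fun j => by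
    rcases hF.symm.subset ⟨j, rfl⟩ with h | h
    exacts [h ▸ fun k => ⟨0, by simp⟩, h.2]
  choose l hl using h2
  let p : ℕ → ℕ := fun i => Nat.rec 0 (fun i q => q + 1 + (Finset.range (i + 1)).sup fun j => l j q) i
  have p1 : ∀ i, p (i + 1) = p i + 1 + (Finset.range (i + 1)).sup fun j => l j (p i) := fun _ => rfl
  clear_value p
  have p2 : StrictMono p := strictMono_nat_of_lt_succ fun i => by rw [p1]; omega
  refine ⟨⋃ i, Ico (p (2 * i)) (p (2 * i + 1)), fun G h3 h4 a ha => ?_⟩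
  obtain ⟨j, rfl⟩ := hF.subset (mem_insert_of_mem _ ⟨h3, h4⟩)
  have H : ∀ i, j ≤ i → ∃ n ∈ a, p i ≤ n ∧ n < p (i + 1) := fun i hi => by
    obtain ⟨n, e1, e2, e3⟩ := hl j (p i) a ha
    have := Finset.le_sup (f := fun j => l j (p i)) (Finset.mem_range.2 (Nat.lt_succ_of_le hi))
    exact ⟨n, e1, e2, p1 i ▸ (e3.trans_le this).trans_le (Nat.le_add_left _ _)⟩
  refine ⟨infinite_of_forall_exists_gt fun N => ?_, infinite_of_forall_exists_gt fun N => ?_⟩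
  · obtain ⟨n, e1, e2⟩ := H (2 * (j + N + 1)) (by omega)
    exact ⟨n, ⟨e1, mem_iUnion.2 ⟨_, e2⟩⟩, by have := p2.le_apply.trans e2.1; omega⟩
  · obtain ⟨n, e1, e2, e3⟩ := H (2 * (j + N) + 1) (by omega)
    refine ⟨n, ⟨e1, fun h => ?_⟩, by have := p2.le_apply.trans e2; omega⟩
    obtain ⟨i, e4, e5⟩ := mem_iUnion.1 h
    have := p2.lt_iff_lt.1 (e4.trans_lt e3)
    have := p2.lt_iff_lt.1 (e2.trans_lt e5)
    omega

def tl (U : ℕ → Set C) (B : Set ℕ) (k : ℕ) : Set C := ⋃ n ∈ B ∩ Ici k, U n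

lemma step {𝒲 𝒴 : Set (Set C)} (h1 : 𝒴.Countable) (h2 : ∀ W ∈ 𝒴, IsOpen W)
    (h : ∀ A, Pos 𝒲 A ∨ Pos 𝒴 Aᶜ) {U : ℕ → Set C} (hU : ∀ n, IsOpen (U n))
    (h3 : ∀ A, Pos 𝒲 A → ∀ s m, {n | (cone s m A ∩ U n).Nonempty}.Infinite) {P : Set C}
    (hP : P.Countable) : ∃ B : Set ℕ, (∀ x ∈ P, {n | x ∈ U n}.Infinite →
      ({n | x ∈ U n} ∩ B).Infinite ∧ ({n | x ∈ U n} ∩ Bᶜ).Infinite) ∧
      ∀ A, Pos (𝒲 ∪ (range (tl U B) ∪ range (tl U Bᶜ))) A ∨ Pos 𝒴 Aᶜ := by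
  have := h1.to_subtype
  let e : List Bool → C := fun l i => l.getD i false
  have he : ∀ (s : C) m A, cone (e (List.ofFn fun i : Fin m => s i)) m A = cone s m A := fun s m A => by
    ext x; simp +contextual [cone, e]
  let Z : List Bool × ℕ → C → Set ℕ := fun p A => {n | (cone (e p.1) p.2 A ∩ U n).Nonempty}
  let K : 𝒴 × List Bool × ℕ → Set C := fun p => {A | ¬ (cone (e p.2.1) p.2.2 Aᶜ ∩ p.1.1).Nonempty}
  obtain ⟨B, hB⟩ := bd_split ((hP.image fun x => {{n | x ∈ U n}}).union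
    (countable_range fun p : (List Bool × ℕ) × 𝒴 × List Bool × ℕ => Z p.1 '' K p.2))
  refine ⟨B, fun x hx h4 => hB _ (Or.inl ⟨x, hx, rfl⟩) (fun k => ?_) _ rfl, fun A => ?_⟩
  · obtain ⟨n, h5, h6⟩ := h4.exists_gt k
    exact ⟨n + 1, by rintro _ rfl; exact ⟨n, h5, h6.le, n.lt_succ_self⟩⟩
  refine or_iff_not_imp_right.2 fun h4 W hW s m => ?_
  refine hW.elim (fun h5 => (h A).resolve_right h4 W h5 s m) fun hW => ?_
  simp only [Pos, not_forall] at h4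
  obtain ⟨V, hV, s', m', h4⟩ := h4
  rw [← he] at h4 ⊢
  have h5 := hB _ (Or.inr ⟨((_, m), ⟨V, hV⟩, _, m'), rfl⟩) (fun k => by
    have hK : IsCompact (K (⟨V, hV⟩, List.ofFn fun i : Fin m' => s' i, m')) :=
      (((op_cone _ _ (h2 V hV)).preimage (f := fun A : C => Aᶜ) (continuous_pi fun i =>
        (continuous_of_discreteTopology (f := fun b : Bool => bᶜ)).comp
          (continuous_apply i))).isClosed_compl).isCompact
    obtain ⟨t, ht⟩ := hK.elim_finite_subcover (fun n => {A | (cone (e (List.ofFn fun i : Fin m => s i))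
      m A ∩ U (k + n)).Nonempty}) (fun n => op_cone _ _ (hU _)) fun A hA => by
        obtain ⟨n, e1, e2⟩ := (h3 A ((h A).resolve_right fun h => hA (h V hV _ _)) _ m).exists_gt k
        exact mem_iUnion.2 ⟨n - k, by rwa [show k + (n - k) = n by omega]⟩
    refine ⟨k + t.sup id + 1, forall_mem_image.2 fun A hA => ?_⟩
    obtain ⟨n, e1, e2⟩ := mem_iUnion₂.1 (ht hA)
    have : n ≤ t.sup id := Finset.le_sup (f := id) e1
    exact ⟨k + n, e2, by omega, by omega⟩) _ ⟨A, h4, rfl⟩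
  rcases hW with ⟨k, rfl⟩ | ⟨k, rfl⟩
  · obtain ⟨n, ⟨e1, e2⟩, e3⟩ := h5.1.exists_gt k
    exact e1.mono (inter_subset_inter_right _ (subset_biUnion_of_mem (u := U) (show n ∈ _ ∩ Ici k from ⟨e2, e3.le⟩)))
  · obtain ⟨n, ⟨e1, e2⟩, e3⟩ := h5.2.exists_gt k
    exact e1.mono (inter_subset_inter_right _ (subset_biUnion_of_mem (u := U) (show n ∈ _ ∩ Ici k from ⟨e2, e3.le⟩)))

def base : Set (Set C) := range (tl (fun n => {x | x n}) univ)

lemma tl_op {U : ℕ → Set C} (hU : ∀ n, IsOpen (U n)) (B : Set ℕ) (k : ℕ) : IsOpen (tl U B k) :=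
  isOpen_biUnion fun n _ => hU n

lemma co_op (n : ℕ) : IsOpen {x : C | x n} := 
  IsOpen.preimage (f := fun x : C => x n) (continuous_apply n) (isOpen_discrete {true})

lemma pos_base (A : C) : Pos base A ∨ Pos base Aᶜ := by
  have H : ∀ A : C, {n | A n}.Infinite → Pos base A := fun A h => forall_mem_range.2 fun k s m => by
    obtain ⟨n, h1, h2⟩ := h.exists_gt (k + m)
    refine ⟨fun i => if i < m then s i else A i, ⟨fun i hi => if_pos hi, fun i hi => by simp [hi.not_gt]⟩,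
      mem_biUnion (x := n) ⟨trivial, show k ≤ n by omega⟩ ?_⟩
    simpa [show ¬ n < m by omega] using h1
  refine (Set.finite_or_infinite {n | A n}).symm.imp (H A) fun h => H _ (h.infinite_compl.mono fun n hn => ?_)
  simpa using hn

def Inv (𝒲 : Bool → Set (Set C)) : Prop := ∀ t A, Pos (𝒲 t) A ∨ Pos (𝒲 !t) Aᶜ

lemma stage {𝒲 : Bool → Set (Set C)} (h1 : ∀ t, (𝒲 t).Countable ∧ ∀ W ∈ 𝒲 t, IsOpen W) (h : Inv 𝒲)
    (t : Bool) {U : ℕ → Set C} (hU : ∀ n, IsOpen (U n)) (A : C) {P : Set C} (hP : P.Countable) :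
    ∃ q : (Bool → Set C) × (Bool → Set (Set C)),
      (∀ r, (q.1 r).Countable ∧ (q.2 r).Countable ∧ ∀ W ∈ q.2 r, IsOpen W) ∧
      Inv (fun r => 𝒲 r ∪ q.2 r) ∧ (∀ r, ∀ x ∈ q.1 r, ∀ W ∈ 𝒲 r ∪ q.2 r, x ∈ W) ∧
      ((∃ x ∈ q.1 t, {n | x ∈ U n}.Finite) ∨ ∃ B : Set ℕ, (∀ x ∈ P, {n | x ∈ U n}.Infinite →
        ({n | x ∈ U n} ∩ B).Infinite ∧ ({n | x ∈ U n} ∩ Bᶜ).Infinite) ∧
          range (tl U B) ∪ range (tl U Bᶜ) ⊆ q.2 t) ∧
      ∃ r, ∃ x ∈ q.1 r, x ≤ A ∨ x ≤ Aᶜ := by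
  classical
  have H : ∀ 𝒲 : Bool → Set (Set C), (∀ t, (𝒲 t).Countable ∧ ∀ W ∈ 𝒲 t, IsOpen W) → Inv 𝒲 →
      ∃ r x, (∀ W ∈ 𝒲 r, x ∈ W) ∧ (x ≤ A ∨ x ≤ Aᶜ) := fun 𝒲 h1 h => by
    rcases h true A with h2 | h2
    · obtain ⟨x, h3, h4⟩ := h2.pick (h1 _).1 (h1 _).2 A 0
      exact ⟨_, x, h4, Or.inl fun i => h3.2 i i.zero_le⟩
    · obtain ⟨x, h3, h4⟩ := h2.pick (h1 _).1 (h1 _).2 A 0
      exact ⟨_, x, h4, Or.inr fun i => h3.2 i i.zero_le⟩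
  by_cases h3 : ∀ A, Pos (𝒲 t) A → ∀ s m, {n | (cone s m A ∩ U n).Nonempty}.Infinite
  · obtain ⟨B, h4, h5⟩ := step (h1 _).1 (h1 _).2 (h t) hU h3 hP
    let N : Bool → Set (Set C) := fun r => if r = t then range (tl U B) ∪ range (tl U Bᶜ) else ∅
    have N1 : ∀ r, (N r).Countable ∧ ∀ W ∈ N r, IsOpen W := fun r => by
      simp only [N]
      split_ifs
      · exact ⟨(countable_range _).union (countable_range _), by
          rintro _ (⟨k, rfl⟩ | ⟨k, rfl⟩) <;> exact tl_op hU _ _⟩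
      · simp
    have N2 : Inv fun r => 𝒲 r ∪ N r := fun r A => by
      by_cases e : r = t
      · simpa [N, e] using h5 A
      · obtain rfl : r = !t := Bool.eq_not_iff.2 e
        simpa [N] using (h5 Aᶜ).symm
    obtain ⟨r, x, h6, h7⟩ := H _ (fun r => ⟨(h1 r).1.union (N1 r).1, fun W hW =>
      hW.elim ((h1 r).2 W) ((N1 r).2 W)⟩) N2
    refine ⟨(fun r' => {y | r' = r ∧ y = x}, N), fun r' => ⟨(countable_singleton x).mono fun _ h => h.2,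
      N1 r'⟩, N2, ?_, Or.inr ⟨B, h4, by simp [N]⟩, r, x, ⟨rfl, rfl⟩, h7⟩
    rintro _ _ ⟨rfl, rfl⟩
    exact h6
  · simp only [not_forall, not_infinite] at h3
    obtain ⟨A', h3, s, m, h4⟩ := h3
    obtain ⟨z, h5, h6⟩ := h3.pick (h1 _).1 (h1 _).2 s m
    obtain ⟨r, x, h7, h8⟩ := H _ h1 h
    refine ⟨(fun r' => {y | (r' = r ∧ y = x) ∨ r' = t ∧ y = z}, fun _ => ∅), fun r' =>
      ⟨(toFinite {x, z}).countable.mono fun _ h => h.imp And.right And.right, by simp⟩,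
      by simpa using h, ?_, Or.inl ⟨z, Or.inr ⟨rfl, rfl⟩, h4.subset fun n hn => ⟨z, h5, hn⟩⟩,
      r, x, Or.inl ⟨rfl, rfl⟩, h8⟩
    rintro _ _ (⟨rfl, rfl⟩ | ⟨rfl, rfl⟩)
    exacts [by simpa using h7, by simpa using h6]

theorem exists_pair (hc : (𝔠 : Cardinal.{0}) = ℵ₁) : ∃ X : Bool → Set C,
    (∀ t, ∀ U : ℕ → Set C, (∀ n, IsOpen (U n)) → (∀ x ∈ X t, {n | x ∈ U n}.Infinite) →
      ∃ B : Set ℕ, ∀ x ∈ X t, ({n | x ∈ U n} ∩ B).Infinite ∧ ({n | x ∈ U n} ∩ Bᶜ).Infinite) ∧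
    (∀ t, ∀ x ∈ X t, {n | x n}.Infinite) ∧ ∀ A : C, ∃ t, ∃ x ∈ X t, x ≤ A ∨ x ≤ Aᶜ := by
  obtain ⟨b, b1, -, b2⟩ := TopologicalSpace.exists_countable_basis C
  have := b1.to_subtype
  obtain ⟨e, he⟩ := enum (S := (univ : Set (Bool × (ℕ → Set b) × C))) (T := W1) (P := univ) (by
    have : (2 : Cardinal.{0}) ^ #b ≤ 𝔠 := by
      rw [← two_power_aleph0]; exact power_le_power_left two_ne_zero mk_le_aleph0
    have h2 : ((2 : Cardinal.{0}) ^ #b) ^ ℵ₀ ≤ 𝔠 := (power_le_power_right this).trans_eq continuum_power_aleph0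
    simpa [mk_W1, ← hc] using (mul_le_mul_right ((mul_le_mul_left h2 𝔠).trans_eq continuum_mul_self) 2))
  let U : W1 → ℕ → Set C := fun α n => ⋃₀ (Subtype.val '' (e α).2.1 n)
  have hU : ∀ α n, IsOpen (U α n) := fun α n => isOpen_sUnion (forall_mem_image.2 fun V _ => b2.isOpen V.2)
  let pw : W1 → (W1 → (Bool → Set C) × (Bool → Set (Set C))) → Bool → Set (Set C) :=
    fun α F r => base ∪ ⋃ β ∈ Iio α, (F β).2 r
  obtain ⟨F, hF⟩ := wf_rec (T := W1) (β := (Bool → Set C) × (Bool → Set (Set C))) (fun α F q =>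
    (∀ β < α, ∀ r, ((F β).1 r).Countable ∧ ((F β).2 r).Countable ∧ ∀ W ∈ (F β).2 r, IsOpen W) →
    Inv (pw α F) → (∀ r, (q.1 r).Countable ∧ (q.2 r).Countable ∧ ∀ W ∈ q.2 r, IsOpen W) ∧
      Inv (fun r => pw α F r ∪ q.2 r) ∧ (∀ r, ∀ x ∈ q.1 r, ∀ W ∈ pw α F r ∪ q.2 r, x ∈ W) ∧
      ((∃ x ∈ q.1 (e α).1, {n | x ∈ U α n}.Finite) ∨ ∃ B : Set ℕ,
        (∀ x ∈ ⋃ β ∈ Iio α, (F β).1 (e α).1, {n | x ∈ U α n}.Infinite →
        ({n | x ∈ U α n} ∩ B).Infinite ∧ ({n | x ∈ U α n} ∩ Bᶜ).Infinite) ∧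
          range (tl (U α) B) ∪ range (tl (U α) Bᶜ) ⊆ q.2 (e α).1) ∧
      ∃ r, ∃ x ∈ q.1 r, x ≤ (e α).2.2 ∨ x ≤ (e α).2.2ᶜ) (fun α F => by
      by_cases h1 : ∀ β < α, ∀ r, ((F β).1 r).Countable ∧ ((F β).2 r).Countable ∧
          ∀ W ∈ (F β).2 r, IsOpen W
      swap
      · exact ⟨F α, fun h => absurd h h1⟩
      by_cases h2 : Inv (pw α F)
      swap
      · exact ⟨F α, fun _ h => absurd h h2⟩
      obtain ⟨q, hq⟩ := stage (fun r => ⟨(countable_range _).union ((W1_Iio α).biUnion fun β hβ =>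
        (h1 β hβ r).2.1), fun W hW => hW.elim (fun ⟨k, hk⟩ => hk ▸ tl_op co_op _ _) fun h =>
          let ⟨β, h3, h4⟩ := mem_iUnion₂.1 h; (h1 β h3 r).2.2 W h4⟩) h2 (e α).1 (hU α) (e α).2.2
        ((W1_Iio α).biUnion fun β hβ => (h1 β hβ (e α).1).1)
      exact ⟨q, fun _ _ => hq⟩) fun α f g q e' h => by
      have e1 : pw α g = pw α f := funext fun r => congrArg (base ∪ ·)
        (iUnion₂_congr (s := fun β (_ : β ∈ Iio α) => (g β).2 r) fun β hβ => by rw [e' β hβ])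
      rw [e1, iUnion₂_congr (t := fun β _ => (f β).1 (e α).1) fun β hβ => by rw [e' β hβ]]
      exact fun h1 => h fun β hβ => e' β hβ ▸ h1 β hβ
  have key : ∀ α, (∀ β < α, ∀ r, ((F β).1 r).Countable ∧ ((F β).2 r).Countable ∧
      ∀ W ∈ (F β).2 r, IsOpen W) ∧ Inv (pw α F) := fun α => by
    induction α using WellFoundedLT.induction with
    | ind α ih =>
      refine ⟨fun β hβ => (hF β (ih β hβ).1 (ih β hβ).2).1, fun t A => by_contra fun hn => ?_⟩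
      simp only [Pos, not_or, not_forall] at hn
      obtain ⟨⟨V, h1, s, m, h2⟩, W, h3, s', m', h4⟩ := hn
      have H : ∀ γ < α, V ∈ pw γ F t ∪ (F γ).2 t → W ∈ pw γ F (!t) ∪ (F γ).2 (!t) → False :=
        fun γ hγ h5 h6 => ((hF γ (ih γ hγ).1 (ih γ hγ).2).2.1 t A).elim (fun h => h2 (h V h5 s m))
          fun h => h4 (h W h6 s' m')
      have H2 : ∀ β γ, β ≤ γ → ∀ r, (F β).2 r ⊆ pw γ F r ∪ (F γ).2 r := fun β γ h r x hx =>
        h.eq_or_lt.elim (fun h => Or.inr (h ▸ hx)) fun h => Or.inl (Or.inr (mem_biUnion h hx))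
      rcases h1 with h1 | h1 <;> rcases h3 with h3 | h3
      · exact (pos_base A).elim (fun h => h2 (h V h1 s m)) fun h => h4 (h W h3 s' m')
      · obtain ⟨γ, h5, h6⟩ := mem_iUnion₂.1 h3
        exact H γ h5 (Or.inl (Or.inl h1)) (Or.inr h6)
      · obtain ⟨γ, h5, h6⟩ := mem_iUnion₂.1 h1
        exact H γ h5 (Or.inr h6) (Or.inl (Or.inl h3))
      · obtain ⟨β, h5, h6⟩ := mem_iUnion₂.1 h1
        obtain ⟨γ, h7, h8⟩ := mem_iUnion₂.1 h3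
        exact H (max β γ) (max_lt h5 h7) (H2 _ _ (le_max_left _ _) _ h6) (H2 _ _ (le_max_right _ _) _ h8)
  replace hF := fun α => hF α (key α).1 (key α).2
  have inf : ∀ {U : ℕ → Set C} {B : Set ℕ} {x : C}, (∀ k, x ∈ tl U B k) →
      ({n | x ∈ U n} ∩ B).Infinite := fun h => infinite_of_forall_exists_gt fun N =>
    let ⟨n, h6, h7⟩ := mem_iUnion₂.1 (h (N + 1)); ⟨n, ⟨h7, h6.1⟩, h6.2⟩
  refine ⟨fun r => ⋃ α, (F α).1 r, fun t V h1 h2 => ?_, fun t x hx => ?_, fun A => ?_⟩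
  · obtain ⟨α, -, hα⟩ := he (mem_univ (t, fun n => {W | W.1 ⊆ V n}, fun _ => true))
    have e1 : U α = V := funext fun n => by
      simp only [U, hα]
      refine (sUnion_subset (forall_mem_image.2 fun W hW => hW)).antisymm fun x hx => ?_
      obtain ⟨W, h3, h4, h5⟩ := b2.exists_subset_of_mem_open hx (h1 n)
      exact ⟨W, ⟨⟨W, h3⟩, h5, rfl⟩, h4⟩
    have h3 := (hF α).2.2.2.1
    rw [e1, show (e α).1 = t from congrArg Prod.fst hα] at h3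
    obtain ⟨B, h4, h5⟩ := h3.resolve_left fun ⟨x, h4, h5⟩ => h2 x (mem_iUnion.2 ⟨α, h4⟩) h5
    refine ⟨B, fun x hx => ?_⟩
    obtain ⟨β, hβ⟩ := mem_iUnion.1 hx
    rcases lt_or_ge β α with h | h
    · exact h4 x (mem_biUnion h hβ) (h2 x hx)
    have h6 : ∀ W ∈ (F α).2 t, x ∈ W := fun W hW => (hF β).2.2.1 t x hβ W
      (h.eq_or_lt.elim (fun h => Or.inr (h ▸ hW)) fun h => Or.inl (Or.inr (mem_biUnion h hW)))
    exact ⟨inf fun k => h6 _ (h5 (Or.inl ⟨k, rfl⟩)), inf fun k => h6 _ (h5 (Or.inr ⟨k, rfl⟩))⟩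
  · obtain ⟨β, hβ⟩ := mem_iUnion.1 hx
    exact (inf fun k => (hF β).2.2.1 t x hβ _ (Or.inl (Or.inl ⟨k, rfl⟩))).mono inter_subset_left
  · obtain ⟨α, -, hα⟩ := he (mem_univ (true, fun _ => ∅, A))
    obtain ⟨r, x, h1, h2⟩ := (hF α).2.2.2.2
    exact ⟨r, x, mem_iUnion.2 ⟨α, h1⟩, by simpa only [hα] using h2⟩

def RSplit (X : Set ℝ) : Prop := ∀ U : ℕ → Set ℝ, (∀ n, IsOpen (U n)) →
  (∀ x ∈ X, {n | x ∈ U n}.Infinite) →
    ∃ B : Set ℕ, ∀ x ∈ X, ({n | x ∈ U n} ∩ B).Infinite ∧ ({n | x ∈ U n} ∩ Bᶜ).Infinite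

theorem exists_real (hc : (𝔠 : Cardinal.{0}) = ℵ₁) : ∃ (X Y : Set ℝ) (V : ℕ → Set ℝ), RSplit X ∧
    RSplit Y ∧ Injective V ∧ (∀ n, IsOpen (V n)) ∧ (∀ x ∈ X ∪ Y, {n | x ∈ V n}.Infinite) ∧
      ∀ B : Set ℕ, ∃ x ∈ X ∪ Y, {n | x ∈ V n} ⊆ B ∨ {n | x ∈ V n} ⊆ Bᶜ := by
  classical
  obtain ⟨X, h1, h2, h3⟩ := exists_pair hc
  let e : C → ℝ := fun x => cantorSetHomeomorphNatToBool.symm x
  have he : IsInducing e := IsInducing.subtypeVal.comp cantorSetHomeomorphNatToBool.symm.isInducing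
  choose V V1 V2 using fun n => he.isOpen_iff.1 (co_op n)
  have V3 : ∀ x n, e x ∈ V n ↔ x n := fun x n => (Set.ext_iff.1 (V2 n) x :)
  have h4 : ∀ t, RSplit (e '' X t) := fun t U h4 h5 =>
    let ⟨B, hB⟩ := h1 t _ (fun n => (h4 n).preimage he.continuous) fun x hx => h5 _ ⟨x, hx, rfl⟩
    ⟨B, forall_mem_image.2 hB⟩
  refine ⟨_, _, V, h4 true, h4 false, fun m n h => ?_, V1, ?_, fun B => ?_⟩
  · simpa using (V3 (fun i => decide (i = n)) m).1 (h ▸ (V3 _ n).2 (by simp))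
  · rintro _ (⟨x, hx, rfl⟩ | ⟨x, hx, rfl⟩) <;> simpa only [V3] using h2 _ x hx
  · obtain ⟨t, x, h5, h6⟩ := h3 fun n => decide (n ∈ B)
    refine ⟨e x, by cases t; exacts [Or.inr ⟨x, h5, rfl⟩, Or.inl ⟨x, h5, rfl⟩], h6.imp ?_ ?_⟩ <;>
      exact fun h n hn => by simpa using h n ((V3 x n).1 hn)

lemma RSplit.isplit {X : Set ℝ} (h : RSplit X) : Lam.ISplit X := fun U h1 h2 => by
  choose V V1 V2 using fun n => isOpen_induced_iff.1 (h1 n)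
  obtain ⟨B, hB⟩ := h V V1 fun x hx => by have := h2 ⟨x, hx⟩; simp only [← V2] at this; exact this
  exact ⟨B, fun z => by simp only [← V2]; exact hB z z.2⟩

lemma RSplit.fam {X : Set ℝ} (h : RSplit X) (𝒰 : Set (Set ℝ)) (h1 : ∀ U ∈ 𝒰, IsOpen U)
    (h3 : ∀ x ∈ X, {U : Set ℝ | U ∈ 𝒰 ∧ x ∈ U}.Infinite) :
    ∃ 𝒱 : Set (Set ℝ), ∃ 𝒲 : Set (Set ℝ), 𝒱 ⊆ 𝒰 ∧ 𝒲 ⊆ 𝒰 ∧ Disjoint 𝒱 𝒲 ∧
      (∀ x ∈ X, {U : Set ℝ | U ∈ 𝒱 ∧ x ∈ U}.Infinite) ∧
      (∀ x ∈ X, {U : Set ℝ | U ∈ 𝒲 ∧ x ∈ U}.Infinite) := by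
  rcases X.eq_empty_or_nonempty with rfl | ⟨z0, hz⟩
  · exact ⟨∅, ∅, by simp⟩
  have H : ∀ e : Set (Set ℝ), ∃ T, T.Countable ∧ T ⊆ 𝒰 \ e ∧ ⋃₀ T = ⋃₀ (𝒰 \ e) := fun e =>
    TopologicalSpace.isOpen_sUnion_countable _ fun U hU => h1 U hU.1
  choose T T1 T2 T3 using H
  obtain ⟨b, -, b1, b2, b3⟩ := Sk.close 𝒰 T (fun e _ => T1 e) (fun e => (T2 e).trans diff_subset)
    countable_empty (empty_subset _)
  have h4 : ∀ z ∈ X, {U ∈ b | z ∈ U}.Infinite := fun z hz hf => by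
    obtain ⟨U, h5, h6⟩ := (h3 z hz).exists_notMem_finite hf
    obtain ⟨V, h7, h8⟩ := (T3 {U ∈ b | z ∈ U}).symm.subset ⟨U, ⟨h5.1, h6⟩, h5.2⟩
    exact (T2 _ h7).2 ⟨b3 _ (sep_subset _ _) hf h7, h8⟩
  have := b1.to_subtype
  have := ((h4 z0 hz).mono (sep_subset _ _)).to_subtype
  obtain ⟨e⟩ := nonempty_equiv_of_countable (α := ℕ) (β := b)
  have hi : Injective fun n => (e n).1 := Subtype.val_injective.comp e.injective
  obtain ⟨A, hA⟩ := h (fun n => (e n).1) (fun n => h1 _ (b2 (e n).2)) fun z hz =>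
    Infinite.of_image (fun n => (e n).1) ((h4 z hz).mono fun U hU =>
      ⟨e.symm ⟨U, hU.1⟩, by simpa using hU.2, by simp⟩)
  refine ⟨(fun n => (e n).1) '' A, (fun n => (e n).1) '' Aᶜ, image_subset_iff.2 fun n _ => b2 (e n).2,
    image_subset_iff.2 fun n _ => b2 (e n).2,
    (disjoint_image_iff hi).2 (disjoint_compl_right (a := A)), fun z hz =>
    ((hA z hz).1.image hi.injOn).mono ?_, fun z hz => ((hA z hz).2.image hi.injOn).mono ?_⟩ <;>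
  · rintro _ ⟨n, h5, rfl⟩
    exact ⟨⟨n, h5.2, rfl⟩, h5.1⟩

end Pool.Agent.H30.Add
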