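import Mathlib

set_option autoImplicit false

namespace Pool.Agent.H30.Bern

open Set Filter Topology Cardinal TopologicalSpace

lemma inj_choice {I X : Type} (A : I → Set X) (h : ∀ i, #I ≤ #(A i)) :
    ∃ f : I → X, Function.Injective f ∧ ∀ i, f i ∈ A i := by
  obtain ⟨_, _, hw⟩ := exists_ord_eq_type_lt I
  have : ∀ i (g : ∀ j, j < i → X), ∃ x ∈ A i, ∀ j hj, g j hj ≠ x := fun i g => by
    by_contra! k
    refine (mk_Iio_lt i hw).not_ge ((h i).trans ((mk_le_mk_of_subset fun x hx => ?_).trans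
      (mk_range_le (f := fun j : Iio i => g j j.2))))
    obtain ⟨j, hj, e⟩ := k x hx
    exact ⟨⟨j, hj⟩, e⟩
  choose F F1 F2 using this
  let f := (wellFounded_lt (α := I)).fix F
  have e : ∀ i, f i = F i fun j _ => f j := fun i => WellFounded.fix_eq _ _ _
  have k : ∀ i j, i < j → f i ≠ f j := fun i j h => by
    rw [e j]; exact F2 j (fun j _ => f j) i h
  refine ⟨f, fun i j h => ?_, fun i => e i ▸ F1 _ _⟩
  rcases lt_trichotomy i j with c | c | c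
  exacts [(k i j c h).elim, c, (k j i c h.symm).elim]

lemma card_closed : #{C : Set ℝ // IsClosed C} ≤ 𝔠 := by
  have := (countable_countableBasis ℝ).to_subtype
  refine (mk_le_of_injective (f := fun C => {b : countableBasis ℝ | b.1 ⊆ C.1ᶜ}) fun C D e => ?_).trans
    (by rw [mk_set]; exact power_le_power_left two_ne_zero mk_le_aleph0)
  have k : ∀ C D : {C : Set ℝ // IsClosed C}, {b : countableBasis ℝ | b.1 ⊆ C.1ᶜ} =
      {b : countableBasis ℝ | b.1 ⊆ D.1ᶜ} → C.1ᶜ ⊆ D.1ᶜ := fun C D e x hx => by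
    obtain ⟨b, h1, h2, h3⟩ := (isBasis_countableBasis ℝ).exists_subset_of_mem_open hx C.2.isOpen_compl
    exact (e.subset (show (⟨b, h1⟩ : countableBasis ℝ) ∈ _ from h3)) h2
  exact Subtype.ext (compl_injective ((k C D e).antisymm (k D C e.symm)))

lemma bern (T : Type) (hT : #T ≤ 𝔠) : ∃ b : T → ℝ, Function.Injective b ∧
    ∀ C, IsClosed C → C ⊆ range b → C.Countable := by
  have hc : #({C : Set ℝ // IsClosed C ∧ ¬ C.Countable} ⊕ T) ≤ 𝔠 := by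
    have := (mk_subtype_le_of_subset (p := fun C : Set ℝ => IsClosed C ∧ ¬ C.Countable)
      fun _ h => h.1).trans card_closed
    simpa using add_le_add this hT
  obtain ⟨f, h1, h2⟩ := inj_choice (I := {C : Set ℝ // IsClosed C ∧ ¬ C.Countable} ⊕ T)
    (Sum.elim Subtype.val fun _ => univ) (by
      rintro (C | t)
      · obtain ⟨g, g1, -, g3⟩ := C.2.1.exists_nat_bool_injection_of_not_countable C.2.2
        refine hc.trans (le_trans ?_ (mk_le_mk_of_subset g1))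
        simp [mk_range_eq _ g3]
      · simpa [mk_real] using hc)
  refine ⟨f ∘ Sum.inr, h1.comp Sum.inr_injective, fun C c1 c2 => by_contra fun c3 => ?_⟩
  obtain ⟨t, ht⟩ := c2 (h2 (Sum.inl ⟨C, c1, c3⟩))
  cases h1 ht

abbrev κ := ℕ → Bool
abbrev J := Σ n : ℕ, (Fin n → Bool) → Bool
abbrev T := Finset (κ × Bool)

noncomputable def b : T → ℝ := (bern T (by simp)).choose

def ok (p : κ → Bool) (F : Finset κ) (m : ℕ) (j : J) (t : T) : Prop :=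
  m ≤ j.1 ∧ (∀ ξ ∈ F, j.2 (fun i => ξ i) = p ξ ∧ (ξ, p ξ) ∈ t) ∧ ∀ a ∈ t, p a.1 = a.2

def X : Type := (J × ℝ) ⊕ (κ → Bool)

instance : TopologicalSpace X where
  IsOpen U := (∀ j x, x ∉ range b → Sum.inl (j, x) ∈ U → {y | Sum.inl (j, y) ∈ U} ∈ 𝓝 x) ∧
    ∀ p, Sum.inr p ∈ U → ∃ F m, ∀ j t, ok p F m j t → Sum.inl (j, b t) ∈ U
  isOpen_univ := ⟨fun _ _ _ _ => univ_mem, fun _ _ => ⟨∅, 0, fun _ _ _ => trivial⟩⟩
  isOpen_inter U V hU hV := ⟨fun j x h k => inter_mem (hU.1 j x h k.1) (hV.1 j x h k.2), fun p k => by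
    classical
    obtain ⟨F, m, h⟩ := hU.2 p k.1
    obtain ⟨G, n, g⟩ := hV.2 p k.2
    exact ⟨F ∪ G, max m n, fun j t o => ⟨h j t ⟨le_of_max_le_left o.1, fun ξ c => o.2.1 ξ
      (Finset.mem_union_left _ c), o.2.2⟩, g j t ⟨le_of_max_le_right o.1, fun ξ c => o.2.1 ξ
      (Finset.mem_union_right _ c), o.2.2⟩⟩⟩⟩
  isOpen_sUnion s h := ⟨fun j x k ⟨U, h1, h2⟩ => mem_of_superset ((h U h1).1 j x k h2)
    fun _ hy => ⟨U, h1, hy⟩, fun p ⟨U, h1, h2⟩ => ((h U h1).2 p h2).imp fun _ =>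
      Exists.imp fun _ k j t o => ⟨U, h1, k j t o⟩⟩

def box (j : J) (V : Set ℝ) : Set X := (fun y => Sum.inl (j, y)) '' V

def N (p : κ → Bool) (F : Finset κ) (m : ℕ) : Set X :=
  {z | z = Sum.inr p ∨ ∃ j t, ok p F m j t ∧ z = Sum.inl (j, b t)}

lemma box_open (j : J) {V : Set ℝ} (h : IsOpen V) : IsOpen (box j V) := by
  refine ⟨?_, ?_⟩
  · rintro _ _ _ ⟨y, hy, ⟨⟩⟩
    exact mem_of_superset (h.mem_nhds hy) fun z hz => ⟨z, hz, rfl⟩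
  · rintro _ ⟨y, hy, ⟨⟩⟩

lemma N_open (p : κ → Bool) (F : Finset κ) (m : ℕ) : IsOpen (N p F m) := by
  refine ⟨?_, ?_⟩
  · rintro _ _ h (⟨⟨⟩⟩ | ⟨j, t, -, ⟨⟩⟩)
    exact (h ⟨t, rfl⟩).elim
  · rintro _ (⟨⟨⟩⟩ | ⟨j, t, -, ⟨⟩⟩)
    exact ⟨F, m, fun j t o => Or.inr ⟨j, t, o, rfl⟩⟩

lemma ok_ex (p : κ → Bool) (F : Finset κ) (m : ℕ) : ∃ j t, ok p F m j t := by
  classical
  have e1 : ∀ᶠ n in atTop, ∀ ξ ∈ F, ∀ η ∈ F,
      (fun i : Fin n => ξ i) = (fun i : Fin n => η i) → ξ = η := by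
    simp only [Finset.eventually_all]
    intro ξ _ η _
    by_cases c : ξ = η
    · exact Eventually.of_forall fun _ _ => c
    obtain ⟨m, hm⟩ := Function.ne_iff.1 c
    exact (eventually_gt_atTop m).mono fun k hk e => (hm (congrFun e ⟨m, hk⟩)).elim
  obtain ⟨n, h1, h2⟩ := (e1.and (eventually_ge_atTop m)).exists
  refine ⟨⟨n, fun s => decide (∃ ξ ∈ F, (fun i : Fin n => ξ i) = s ∧ p ξ = true)⟩,
    F.image fun ξ => (ξ, p ξ), h2, fun ξ hξ => ⟨Bool.eq_iff_iff.2 ?_, Finset.mem_image_of_mem _ hξ⟩,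
    by simp⟩
  simp only [decide_eq_true_eq]
  exact ⟨fun ⟨η, k1, k2, k3⟩ => h1 η k1 ξ hξ k2 ▸ k3, fun k => ⟨ξ, hξ, rfl, k⟩⟩

lemma dense (U : Set X) (h : IsOpen U) (hn : U.Nonempty) : (range Sum.inl ∩ U).Nonempty := by
  obtain ⟨z | p, hz⟩ := hn
  · exact ⟨_, ⟨z, rfl⟩, hz⟩
  obtain ⟨F, m, k⟩ := h.2 p hz
  obtain ⟨j, t, o⟩ := ok_ex p F m
  exact ⟨_, ⟨_, rfl⟩, k j t o⟩

lemma lind : IsLindelof (X := X) (range Sum.inl) := by
  refine isLindelof_of_countable_subcover fun {ι} U hU hc => ?_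
  choose i hi using fun z => mem_iUnion.1 (hc (mem_range_self z))
  have : ∀ j, ∃ A : Set ℝ, A.Countable ∧ ∀ y, ∃ x ∈ A, Sum.inl (j, y) ∈ U (i (j, x)) := fun j => by
    obtain ⟨S, -, s2, s3⟩ := isOpen_biUnion_countable (range b)ᶜ
      (fun x => interior {y | Sum.inl (j, y) ∈ U (i (j, x))}) fun _ _ => isOpen_interior
    refine ⟨S ∪ _, s2.union ((bern T (by simp)).choose_spec.2
      (⋃ x ∈ S, interior {y | Sum.inl (j, y) ∈ U (i (j, x))})ᶜ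
      (isOpen_biUnion fun _ _ => isOpen_interior).isClosed_compl fun y hy => by_contra fun k =>
        hy (s3 ▸ mem_biUnion k (mem_interior_iff_mem_nhds.2 ((hU _).1 j y k (hi _))))), fun y => ?_⟩
    by_cases c : y ∈ ⋃ x ∈ S, interior {y | Sum.inl (j, y) ∈ U (i (j, x))}
    · obtain ⟨x, h1, h2⟩ := mem_iUnion₂.1 c
      exact ⟨x, Or.inl h1, interior_subset (s := {y | Sum.inl (j, y) ∈ U (i (j, x))}) h2⟩
    · exact ⟨y, Or.inr c, hi _⟩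
  choose A A1 A2 using this
  refine ⟨⋃ j, (fun x => i (j, x)) '' A j, countable_iUnion fun j => (A1 j).image _, ?_⟩
  rintro _ ⟨⟨j, y⟩, rfl⟩
  obtain ⟨x, h1, h2⟩ := A2 j y
  exact mem_biUnion (mem_iUnion.2 ⟨j, x, h1, rfl⟩) h2

def W (n : ℕ) : Set (X × X) := (⋃ j, ⋃ c, box j (Metric.ball c (1 / (n + 1))) ×ˢ
  box j (Metric.ball c (1 / (n + 1)))) ∪ ⋃ p, N p ∅ n ×ˢ N p ∅ n

lemma W_open (n : ℕ) : IsOpen (W n) := (isOpen_iUnion fun j => isOpen_iUnion fun _ =>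
  (box_open j Metric.isOpen_ball).prod (box_open j Metric.isOpen_ball)).union
  (isOpen_iUnion fun p => (N_open p _ _).prod (N_open p _ _))

lemma W_diag (n : ℕ) : diagonal X ⊆ W n := by
  rintro ⟨⟨j, x⟩ | p, _⟩ ⟨⟩
  · have : x ∈ Metric.ball x (1 / (n + 1)) := Metric.mem_ball_self (by positivity)
    exact Or.inl (mem_iUnion₂.2 ⟨j, x, ⟨x, this, rfl⟩, x, this, rfl⟩)
  · exact Or.inr (mem_iUnion.2 ⟨p, Or.inl rfl, Or.inl rfl⟩)

lemma W_sep (z w : X) (h : z ≠ w) : ∃ n, (z, w) ∉ closure (W n) := by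
  have key : ∀ z w (n : ℕ) (A B : Set X), IsOpen A → IsOpen B → z ∈ A → w ∈ B → (∀ a ∈ A, ∀ a' ∈ B,
      (∀ j c, a ∈ box j (Metric.ball c (1 / (n + 1))) → a' ∉ box j (Metric.ball c (1 / (n + 1)))) ∧
      ∀ p, a ∈ N p ∅ n → a' ∉ N p ∅ n) → (z, w) ∉ closure (W n) ∧ (w, z) ∉ closure (W n) := by
    intro z w n A B h1 h2 h3 h4 h5
    constructor <;> intro k
    · obtain ⟨a, ha, hw⟩ := mem_closure_iff.1 k _ (h1.prod h2) ⟨h3, h4⟩
      simp only [W, mem_union, mem_iUnion, mem_prod] at hw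
      exact hw.elim (fun ⟨j, c, e⟩ => (h5 _ ha.1 _ ha.2).1 j c e.1 e.2)
        fun ⟨p, e⟩ => (h5 _ ha.1 _ ha.2).2 p e.1 e.2
    · obtain ⟨a, ha, hw⟩ := mem_closure_iff.1 k _ (h2.prod h1) ⟨h4, h3⟩
      simp only [W, mem_union, mem_iUnion, mem_prod] at hw
      exact hw.elim (fun ⟨j, c, e⟩ => (h5 _ ha.2 _ ha.1).1 j c e.2 e.1)
        fun ⟨p, e⟩ => (h5 _ ha.2 _ ha.1).2 p e.2 e.1
  have nb : ∀ p F n j y, Sum.inl (j, y) ∈ N p F n → ∃ t, ok p F n j t ∧ y = b t := by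
    rintro p F n j y (⟨⟨⟩⟩ | ⟨j, t, o, ⟨⟩⟩)
    exact ⟨t, o, rfl⟩
  have mix := fun p (j : J) x => key (.inr p) (.inl (j, x)) (j.1 + 1) _ _ (N_open p ∅ (j.1 + 1))
    (box_open j isOpen_univ) (Or.inl rfl) ⟨x, trivial, rfl⟩ (by
      rintro a ha _ ⟨y, -, rfl⟩
      refine ⟨?_, fun q _ k => (nb _ _ _ _ _ k).elim fun t o => by simpa using o.1.1⟩
      rintro _ c ⟨u, -, rfl⟩ ⟨v, -, ⟨⟩⟩
      exact (nb _ _ _ _ _ ha).elim fun t o => by simpa using o.1.1)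
  rcases z with ⟨j, x⟩ | p <;> rcases w with ⟨k, y⟩ | q
  · obtain ⟨n, h1, h2⟩ : ∃ n : ℕ, j.1 < n ∧ (x ≠ y → 1 / ((n : ℝ) + 1) < dist x y / 4) := by
      by_cases c : x = y
      · exact ⟨_, Nat.lt_succ_self _, fun e => (e c).elim⟩
      · exact ((eventually_gt_atTop j.1).and ((tendsto_one_div_add_atTop_nhds_zero_nat.eventually
          (gt_mem_nhds (by have := dist_pos.2 c; positivity))).mono fun _ h _ => h)).exists
    have : ∀ x : ℝ, x ∈ Metric.ball x (1 / (n + 1)) := fun x => Metric.mem_ball_self (by positivity)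
    refine ⟨n, (key _ _ n _ _ (box_open j Metric.isOpen_ball) (box_open k Metric.isOpen_ball)
      ⟨x, this x, rfl⟩ ⟨y, this y, rfl⟩ ?_).1⟩
    rintro _ ⟨u, hu, rfl⟩ _ ⟨v, hv, rfl⟩
    refine ⟨?_, fun q k _ => (nb _ _ _ _ _ k).elim fun t o => h1.not_ge o.1.1⟩
    rintro _ c ⟨_, h3, ⟨⟩⟩ ⟨_, h4, ⟨⟩⟩
    have := h2 fun e => h (by rw [e])
    simp only [Metric.mem_ball, Real.dist_eq, abs_lt] at *
    rcases abs_cases (x - y) <;> linarith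
  · exact ⟨_, (mix q j x).2⟩
  · exact ⟨_, (mix p k y).1⟩
  obtain ⟨ξ, hξ⟩ := Function.ne_iff.1 fun e : p = q => h (by rw [e])
  have nn : ∀ p r a, a ∈ N p {ξ} 0 → a ∈ N r ∅ 0 → r ξ = p ξ := by
    rintro p r a (rfl | ⟨j, t, o, rfl⟩) k
    · rcases k with ⟨⟨⟩⟩ | ⟨j, t, o, ⟨⟩⟩; rfl
    · obtain ⟨t', o', e⟩ := nb _ _ _ _ _ k
      exact o'.2.2 _ ((bern T (by simp)).choose_spec.1 e ▸ (o.2.1 ξ (by simp)).2)
  refine ⟨0, (key _ _ 0 _ _ (N_open p {ξ} 0) (N_open q {ξ} 0) (Or.inl rfl) (Or.inl rfl)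
    fun a ha a' ha' => ⟨?_, fun r h1 h2 => hξ ((nn _ _ _ ha h1).symm.trans (nn _ _ _ ha' h2))⟩).1⟩
  rintro j c ⟨u, -, rfl⟩ ⟨v, -, rfl⟩
  obtain ⟨t, o, -⟩ := nb _ _ _ _ _ ha
  obtain ⟨t', o', -⟩ := nb _ _ _ _ _ ha'
  exact hξ ((o.2.1 ξ (by simp)).1.symm.trans (o'.2.1 ξ (by simp)).1)

lemma big : 𝔠 < #X := (cantor 𝔠).trans_le (le_trans (by simp)
  (mk_le_of_injective (Sum.inr_injective (α := J × ℝ) (β := κ → Bool)) : #(κ → Bool) ≤ #X))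

end Pool.Agent.H30.Bern
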