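import Mathlib

set_option autoImplicit false

namespace Pool.Agent.H30.Box

open Set MeasureTheory Filter Topology Metric
open scoped Pointwise RealInnerProductSpace

abbrev E := EuclideanSpace ℝ (Fin 3)
abbrev OB := OrthonormalBasis (Fin 3) ℝ E

lemma exb {u : E} (hu : ‖u‖ = 1) : ∃ b : OB, b 0 = u :=
  let ⟨b, hb⟩ := Orthonormal.exists_orthonormalBasis_extension_of_card_eq (𝕜 := ℝ) (E := E) (ι := Fin 3)
    (by simp) (v := fun _ => u) (s := {0}) ⟨fun _ => hu, Subsingleton.pairwise⟩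
  ⟨b, hb 0 rfl⟩

lemma mp (b : OB) : MeasurePreserving (fun y : Fin 3 → ℝ => b.repr.symm (WithLp.toLp 2 y)) :=
  b.measurePreserving_repr_symm.comp (PiLp.volume_preserving_toLp (Fin 3))

def Bx (b : OB) (a c : Fin 3 → ℝ) : Set E := {x | ∀ i, ⟪b i, x⟫ ∈ Icc (a i) (c i)}

lemma Bx_closed (b : OB) (a c : Fin 3 → ℝ) : IsClosed (Bx b a c) := by
  simp only [Bx, setOf_forall]
  exact isClosed_iInter fun i => isClosed_Icc.preimage (by fun_prop)

lemma Bx_vol (b : OB) (a c : Fin 3 → ℝ) : volume (Bx b a c) = volume (Icc a c) := by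
  rw [← (mp b).measure_preimage (Bx_closed b a c).measurableSet.nullMeasurableSet]
  congr 1
  ext y
  simp [Bx, ← b.repr_apply_apply, Pi.le_def, forall_and]

lemma Bx_ne (b : OB) (a c : Fin 3 → ℝ) : volume (Bx b a c) ≠ ⊤ :=
  Bx_vol b a c ▸ isCompact_Icc.measure_ne_top

lemma Bx_real (b : OB) {a c : Fin 3 → ℝ} (h : a ≤ c) :
    volume.real (Bx b a c) = (c 0 - a 0) * (c 1 - a 1) * (c 2 - a 2) := by
  rw [Measure.real, Bx_vol, Real.volume_Icc_pi_toReal h, Fin.prod_univ_three]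

lemma fub {u : E} (hu : ‖u‖ = 1) : ∃ g : (Fin 2 → ℝ) → E, (∀ y, ⟪u, g y⟫ = 0) ∧ ∀ T : Set E,
    MeasurableSet T → (Measurable fun y => volume {t : ℝ | g y + t • u ∈ T}) ∧
      volume T = ∫⁻ y, volume {t : ℝ | g y + t • u ∈ T} := by
  obtain ⟨b, rfl⟩ := exb hu
  refine ⟨fun y => y 0 • b 1 + y 1 • b 2, fun y => by
    simp [inner_add_right, inner_smul_right, b.inner_eq_ite], fun T hT => ?_⟩
  have h := (mp b).comp (volume_preserving_piFinSuccAbove (fun _ : Fin 3 => ℝ) 0).symm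
  have e : ∀ (t : ℝ) (y : Fin 2 → ℝ), b.repr.symm (WithLp.toLp 2
      ((MeasurableEquiv.piFinSuccAbove (fun _ : Fin 3 => ℝ) 0).symm (t, y))) =
      y 0 • b 1 + y 1 • b 2 + t • b 0 := fun t y => by
    rw [← b.sum_repr_symm, Fin.sum_univ_three]
    simp [MeasurableEquiv.piFinSuccAbove, Fin.insertNthEquiv]
    abel
  have h1 := h.measurable hT
  refine ⟨?_, ?_⟩
  · convert measurable_measure_prodMk_right (μ := (volume : Measure ℝ)) h1 using 3
    ext t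
    simp only [mem_setOf_eq, mem_preimage, Function.comp_apply, e]
  · rw [← h.measure_preimage hT.nullMeasurableSet, Measure.volume_eq_prod, Measure.prod_apply_symm h1]
    congr 1
    ext y
    congr 1
    ext t
    simp only [mem_setOf_eq, mem_preimage, Function.comp_apply, e]

def Sg (u : E) (a c : ℝ) : Set E := (fun r : ℝ => r • u) '' Icc a c

noncomputable def pr (u x : E) : E := x - ⟪u, x⟫ • u

lemma Sg_cpt (u : E) (a c : ℝ) : IsCompact (Sg u a c) := isCompact_Icc.image (by fun_prop)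

lemma Sg_cvx (u : E) (a c : ℝ) : Convex ℝ (Sg u a c) :=
  (convex_Icc a c).is_linear_image ⟨fun x y => add_smul x y u, fun x y => mul_smul x y u⟩

lemma pr_cpt (u : E) {K : Set E} (h : IsCompact K) : IsCompact (pr u '' K) :=
  h.image (by unfold pr; fun_prop)

lemma pr_cvx (u : E) {K : Set E} (h : Convex ℝ K) : Convex ℝ (pr u '' K) :=
  h.is_linear_image ⟨fun x y => by simp only [pr, inner_add_right, add_smul]; abel,
    fun c x => by simp only [pr, inner_smul_right, smul_sub, mul_smul]⟩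

lemma mem_Sg {K : Set E} {u x : E} {a c : ℝ} : x ∈ K + Sg u a c ↔ ∃ r ∈ Icc a c, x - r • u ∈ K :=
  ⟨fun ⟨k, h, _, ⟨r, e, e1⟩, e2⟩ => ⟨r, e, by rw [← e2, ← e1]; simpa using h⟩,
    fun ⟨r, e, h⟩ => ⟨_, h, _, ⟨r, e, rfl⟩, sub_add_cancel _ _⟩⟩

noncomputable def sh (u : E) (K : Set E) : ℝ := volume.real (pr u '' K + Sg u 0 1)

lemma fib {u : E} (hu : ‖u‖ = 1) {K : Set E} (h1 : IsCompact K) (h2 : Convex ℝ K) {a c : ℝ} (h : a ≤ c) :
    volume.real (K + Sg u a c) = volume.real K + (c - a) * sh u K := by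
  obtain ⟨g, g1, g2⟩ := fub hu
  have uu : ⟪u, u⟫ = 1 := by simp [hu]
  have c1 := h1.add (Sg_cpt u a c)
  have c2 := (pr_cpt u h1).add (Sg_cpt u 0 1)
  have key : ∀ z : E, ⟪u, z⟫ = 0 → volume {t : ℝ | z + t • u ∈ K + Sg u a c} =
      volume {t : ℝ | z + t • u ∈ K} + ENNReal.ofReal (c - a) *
        volume {t : ℝ | z + t • u ∈ pr u '' K + Sg u 0 1} := fun z hz => by
    have e0 : ∀ t r : ℝ, z + t • u - r • u = z + (t - r) • u := fun t r => by rw [sub_smul]; abel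
    rcases {t : ℝ | z + t • u ∈ K}.eq_empty_or_nonempty with e | e
    · have e1 : ∀ t : ℝ, z + t • u ∉ K := fun t ht => e.subset ht
      rw [e, eq_empty_of_forall_notMem (s := {t : ℝ | z + t • u ∈ K + _}) fun t ht =>
        let ⟨r, _, h⟩ := mem_Sg.1 ht; e1 _ (e0 t r ▸ h),
        eq_empty_of_forall_notMem (s := {t : ℝ | z + t • u ∈ pr u '' K + _}) fun t ht =>
        let ⟨r, _, k, h, e2⟩ := mem_Sg.1 ht; e1 (t - r + ⟪u, k⟫) (by
          rw [add_smul, ← add_assoc, ← e0, ← e2, pr, sub_add_cancel]; exact h)]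
      simp
    have e1 : IsCompact {t : ℝ | z + t • u ∈ K} := by
      obtain ⟨R, hR⟩ := h1.isBounded.exists_norm_le
      refine (isCompact_Icc (a := -R) (b := R)).of_isClosed_subset
        (h1.isClosed.preimage (by fun_prop)) fun t ht => abs_le.1 ?_
      simpa [inner_add_right, inner_smul_right, hz, uu, hu] using
        (abs_real_inner_le_norm u (z + t • u)).trans (by simpa [hu] using hR _ ht)
    have e2 : Convex ℝ {t : ℝ | z + t • u ∈ K} := fun s hs t ht p q hp hq hpq => by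
      have := h2 hs ht hp hq hpq
      rwa [show p • (z + s • u) + q • (z + t • u) = z + (p • s + q • t) • u by
        rw [smul_add, smul_add, add_add_add_comm, ← add_smul, hpq, one_smul]
        simp [add_smul, mul_smul]] at this
    obtain ⟨p, q, e3⟩ : ∃ p q, {t : ℝ | z + t • u ∈ K} = Icc p q :=
      ⟨_, _, eq_Icc_of_connected_compact (e2.isConnected e) e1⟩
    have e4 : p ≤ q := nonempty_Icc.1 (e3 ▸ e)
    have e5 : ∀ t, z + t • u ∈ K ↔ t ∈ Icc p q := Set.ext_iff.1 e3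
    have e6 : {t : ℝ | z + t • u ∈ K + Sg u a c} = Icc (p + a) (q + c) := Set.ext fun t => by
      simp only [mem_setOf_eq, mem_Sg, e0, e5, mem_Icc]
      exact ⟨fun ⟨r, h1, h2⟩ => ⟨by linarith, by linarith⟩, fun h1 => ⟨max a (t - q), ⟨le_max_left _ _,
        max_le h (by linarith)⟩, le_sub_comm.1 (max_le (by linarith) (by linarith)),
        by linarith [le_max_right a (t - q)]⟩⟩
    have e7 : {t : ℝ | z + t • u ∈ pr u '' K + Sg u 0 1} = Icc 0 1 := Set.ext fun t => by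
      refine ⟨fun ht => ?_, fun ht => mem_Sg.2 ⟨t, ht, _, (e5 p).2 ⟨le_rfl, e4⟩, by
        simp [pr, inner_add_right, inner_smul_right, hz, hu]⟩⟩
      obtain ⟨r, h3, k, -, h4⟩ := mem_Sg.1 ht
      have := congrArg (⟪u, ·⟫) h4
      simp only [pr, inner_sub_right, inner_add_right, inner_smul_right, hz, uu] at this
      rwa [show t = r by linarith]
    rw [e6, e7, e3, Real.volume_Icc, Real.volume_Icc, Real.volume_Icc, sub_zero, ENNReal.ofReal_one, mul_one,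
      ← ENNReal.ofReal_add (sub_nonneg.2 e4) (sub_nonneg.2 h)]
    congr 1
    ring
  rw [sh, Measure.real, (g2 _ c1.measurableSet).2, lintegral_congr fun y => key _ (g1 y),
    lintegral_add_left (g2 _ h1.measurableSet).1, lintegral_const_mul _ (g2 _ c2.measurableSet).1,
    ← (g2 _ h1.measurableSet).2, ← (g2 _ c2.measurableSet).2, ENNReal.toReal_add h1.measure_ne_top
      (ENNReal.mul_ne_top ENNReal.ofReal_ne_top c2.measure_ne_top), ENNReal.toReal_mul,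
    ENNReal.toReal_ofReal (sub_nonneg.2 h)]
  rfl

lemma nrm (b : OB) (x : E) : x = ⟪b 0, x⟫ • b 0 + ⟪b 1, x⟫ • b 1 + ⟪b 2, x⟫ • b 2 := by
  conv_lhs => rw [← b.sum_repr' x, Fin.sum_univ_three]

lemma co (b : OB) (i : Fin 3) (x : E) : |⟪b i, x⟫| ≤ ‖x‖ := by
  simpa [b.norm_eq_one] using abs_real_inner_le_norm (b i) x

section
variable {K : Set E} (h1 : IsCompact K) (h2 : Convex ℝ K) (h3 : ∀ x ∈ K, ‖x‖ ≤ 2) (b : OB)
include h1 h2 h3

lemma cyl {t : ℝ} (ht : 0 ≤ t) : volume.real (pr (b 0) '' K + Sg (b 0) (-t) t) = 2 * t * sh (b 0) K := by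
  have e : volume.real (pr (b 0) '' K) = 0 := le_antisymm ((measureReal_mono (s₂ := Bx b ![0, -2, -2] ![0, 2, 2])
    (by
      rintro _ ⟨k, hk, rfl⟩ i
      have := fun i => abs_le.1 ((co b i k).trans (h3 k hk))
      fin_cases i <;> simp [pr, inner_sub_right, inner_smul_right, b.inner_eq_ite, this])
    (Bx_ne _ _ _)).trans_eq (by rw [Bx_real _ (fun i => by fin_cases i <;> norm_num)]; simp))
    measureReal_nonneg
  rw [fib (b.norm_eq_one 0) (pr_cpt _ h1) (pr_cvx _ h2) (by linarith), e, sh, image_image, sh]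
  have : (fun x => pr (b 0) (pr (b 0) x)) = pr (b 0) := funext fun x => by
    simp [pr, inner_sub_right, inner_smul_right, b.norm_eq_one]
  rw [this]
  ring

lemma area : volume.real K ≤ 4 * sh (b 0) K := by
  refine (measureReal_mono (s₂ := pr (b 0) '' K + Sg (b 0) (-2) 2) (fun k hk => mem_Sg.2 ⟨_, abs_le.1 ((co b 0 k).trans (h3 k hk)), k, hk, rfl⟩)
    ((pr_cpt _ h1).add (Sg_cpt _ _ _)).measure_ne_top).trans_eq ((cyl h1 h2 h3 b zero_le_two).trans ?_)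
  ring

lemma upper {t : ℝ} (ht : 0 ≤ t) (ht1 : t ≤ 1) :
    volume.real (pr (b 0) '' K + closedBall (0 : E) t) ≤ 2 * t * sh (b 0) K + 40 * t ^ 2 := by
  have c0 := (pr_cpt (b 0) h1).add (Sg_cpt (b 0) (-t) t)
  have v0 := (pr_cvx (b 0) h2).add (Sg_cvx (b 0) (-t) t)
  have c1 := c0.add (Sg_cpt (b 1) (-t) t)
  have v1 := v0.add (Sg_cvx (b 1) (-t) t)
  have e : -t ≤ t := by linarith
  have s1 : sh (b 1) (pr (b 0) '' K + Sg (b 0) (-t) t) ≤ 8 * t :=
    (measureReal_mono (s₂ := Bx b ![-t, 0, -2] ![t, 1, 2]) (by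
      rintro _ ⟨_, ⟨_, ⟨_, ⟨k, hk, rfl⟩, _, ⟨r, hr, rfl⟩, rfl⟩, rfl⟩, _, ⟨s, hs, rfl⟩, rfl⟩ i
      have := fun i => abs_le.1 ((co b i k).trans (h3 k hk))
      fin_cases i <;> simp [pr, inner_sub_right, inner_add_right, inner_smul_right, b.inner_eq_ite, this,
        hr.1, hr.2, hs.1, hs.2]) (Bx_ne _ _ _)).trans_eq (by
      rw [Bx_real _ (fun i => by fin_cases i <;> simp [ht])]; simp; ring)
  have s2 : sh (b 2) (pr (b 0) '' K + Sg (b 0) (-t) t + Sg (b 1) (-t) t) ≤ 12 * t :=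
    (measureReal_mono (s₂ := Bx b ![-t, -3, 0] ![t, 3, 1]) (by
      rintro _ ⟨_, ⟨_, ⟨_, ⟨_, ⟨k, hk, rfl⟩, _, ⟨r, hr, rfl⟩, rfl⟩, _, ⟨q, hq, rfl⟩, rfl⟩, rfl⟩, _,
        ⟨s, hs, rfl⟩, rfl⟩ i
      have := abs_le.1 ((co b 1 k).trans (h3 k hk))
      fin_cases i <;> simp [pr, inner_sub_right, inner_add_right, inner_smul_right, b.inner_eq_ite,
        hr.1, hr.2, hs.1, hs.2]
      constructor <;> linarith [hq.1, hq.2]) (Bx_ne _ _ _)).trans_eq (by
      rw [Bx_real _ (fun i => by fin_cases i <;> simp [ht])]; simp; ring)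
  refine (measureReal_mono (s₂ := pr (b 0) '' K + Sg (b 0) (-t) t + Sg (b 1) (-t) t + Sg (b 2) (-t) t) ?_
    (c1.add (Sg_cpt _ _ _)).measure_ne_top).trans ?_
  · rintro _ ⟨p, hp, z, hz, rfl⟩
    have := fun i => abs_le.1 ((co b i z).trans (mem_closedBall_zero_iff.1 hz))
    refine ⟨_, ⟨_, ⟨p, hp, _, ⟨_, this 0, rfl⟩, rfl⟩, _, ⟨_, this 1, rfl⟩, rfl⟩, _, ⟨_, this 2, rfl⟩, ?_⟩
    conv_rhs => rw [nrm b z]
    simp only [add_assoc]
  · rw [fib (b.norm_eq_one 2) c1 v1 e, fib (b.norm_eq_one 1) c0 v0 e, cyl h1 h2 h3 b ht]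
    nlinarith

lemma lower {r t : ℝ} (hr : 0 ≤ r) (h4 : closedBall (0 : E) r ⊆ K) (ht : 0 ≤ t) :
    2 * t * sh (b 0) K + r * t ^ 2 ≤ volume.real (pr (b 0) '' K + closedBall (0 : E) t) := by
  have c0 := fun s => (pr_cpt (b 0) h1).add (Sg_cpt (b 0) (-s) s)
  have v0 := (pr_cvx (b 0) h2).add (Sg_cvx (b 0) (-(t / 2)) (t / 2))
  have c1 := (c0 (t / 2)).add (Sg_cpt (b 1) 0 (t / 2))
  have s1 : t * (2 * r) ≤ sh (b 1) (pr (b 0) '' K + Sg (b 0) (-(t / 2)) (t / 2)) :=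
    le_trans (by rw [Bx_real _ (fun i => by fin_cases i <;> simp <;> linarith)]; simp; ring_nf; rfl)
      (measureReal_mono (s₁ := Bx b ![-(t / 2), 0, -r] ![t / 2, 1, r]) (fun x hx =>
        ⟨_, ⟨_, ⟨_, ⟨⟪b 2, x⟫ • b 2, h4 (by simpa [norm_smul, b.norm_eq_one] using abs_le.2 (hx 2)), rfl⟩, _,
          ⟨_, hx 0, rfl⟩, rfl⟩, rfl⟩, _, ⟨_, hx 1, rfl⟩, by
          conv_rhs => rw [nrm b x]
          simp [pr, inner_add_right, inner_smul_right, b.inner_eq_ite]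
          abel⟩) ((pr_cpt _ (c0 _)).add (Sg_cpt _ _ _)).measure_ne_top)
  have e1 := measureReal_union_add_inter (μ := volume) c1.measurableSet (c0 t).measure_ne_top c1.measure_ne_top
  have e2 : volume.real ((pr (b 0) '' K + Sg (b 0) (-t) t) ∩ (pr (b 0) '' K + Sg (b 0) (-(t / 2)) (t / 2) +
      Sg (b 1) 0 (t / 2))) ≤ volume.real (pr (b 0) '' K + Sg (b 0) (-(t / 2)) (t / 2)) := by
    refine measureReal_mono ?_ (c0 _).measure_ne_top
    rintro _ ⟨⟨_, ⟨k, hk, rfl⟩, _, ⟨s, -, rfl⟩, rfl⟩, _, ⟨_, ⟨l, -, rfl⟩, _, ⟨q, hq, rfl⟩, rfl⟩, _,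
      ⟨p, -, rfl⟩, e⟩
    have := congrArg (⟪b 0, ·⟫) e
    simp [pr, inner_sub_right, inner_add_right, inner_smul_right, b.inner_eq_ite] at this
    exact ⟨_, ⟨k, hk, rfl⟩, _, ⟨s, this ▸ hq, rfl⟩, rfl⟩
  have e3 : volume.real ((pr (b 0) '' K + Sg (b 0) (-t) t) ∪ (pr (b 0) '' K + Sg (b 0) (-(t / 2)) (t / 2) +
      Sg (b 1) 0 (t / 2))) ≤ volume.real (pr (b 0) '' K + closedBall (0 : E) t) := by
    refine measureReal_mono ?_ ((pr_cpt _ h1).add (isCompact_closedBall _ _)).measure_ne_top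
    rintro _ (⟨p, hp, _, ⟨s, hs, rfl⟩, rfl⟩ | ⟨_, ⟨p, hp, _, ⟨s, hs, rfl⟩, rfl⟩, _, ⟨q, hq, rfl⟩, rfl⟩)
    · exact ⟨p, hp, _, by simpa [norm_smul, b.norm_eq_one] using abs_le.2 hs, rfl⟩
    · refine ⟨p, hp, s • b 0 + q • b 1, mem_closedBall_zero_iff.2 ((norm_add_le _ _).trans ?_),
        (add_assoc _ _ _).symm⟩
      simp only [norm_smul, b.norm_eq_one, mul_one, Real.norm_eq_abs, abs_of_nonneg hq.1]
      linarith [abs_le.2 hs, hq.2]
  rw [fib (b.norm_eq_one 1) (c0 _) v0 (by linarith), cyl h1 h2 h3 b ht] at e1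
  nlinarith

end

end Pool.Agent.H30.Box
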