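import Mathlib

set_option autoImplicit false

namespace Pool.Agent.H30.DL

open Set Filter Topology Cardinal

/-- Discretely Lindelof spaces. -/
def DL (X : Type) [TopologicalSpace X] : Prop :=
  ∀ D : Set X, DiscreteTopology D → IsLindelof (closure D)

/-- Weakly Lindelof spaces. -/
def WL (X : Type) [TopologicalSpace X] : Prop :=
  ∀ 𝒰 : Set (Set X), (∀ U ∈ 𝒰, IsOpen U) → ⋃₀ 𝒰 = Set.univ →
    ∃ 𝒱 ⊆ 𝒰, 𝒱.Countable ∧ Dense (⋃₀ 𝒱)

lemma coinit {ι κ : Type} [Countable κ] (G : Set ι) (v : ι → κ → Ordinal.{0}) :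
    ∃ M ⊆ G, #M ≤ 𝔠 ∧ ∀ e ∈ G, ∃ m ∈ M, v m ≤ v e := by
  rcases G.eq_empty_or_nonempty with rfl | ⟨g0, hg0⟩
  · exact ⟨∅, subset_rfl, by simp, by simp⟩
  have hop : ∀ (S : Set κ) (f : S → ι), ∃ g ∈ G,
      (∃ e ∈ G, ∀ n : S, v e n < v (f n) n) → ∀ n : S, v g n < v (f n) n := fun S f => by
    by_cases h : ∃ e ∈ G, ∀ n : S, v e n < v (f n) n
    · obtain ⟨e, he, h'⟩ := h; exact ⟨e, he, fun _ => h'⟩
    · exact ⟨g0, hg0, fun h' => absurd h' h⟩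
  choose op h1 h2 using hop
  let ev : WType (fun S : Set κ => S) → ι := WType.elim ι fun p => op p.1 p.2
  refine ⟨range ev, ?_, mk_range_le.trans (WType.cardinalMk_le_of_le ?_), fun e he => ?_⟩
  · rintro _ ⟨⟨S, f⟩, rfl⟩; exact h1 _ _
  · refine (sum_le_sum _ (fun _ => 𝔠) fun S => ?_).trans ?_
    · exact (power_le_power_left continuum_ne_zero mk_le_aleph0).trans_eq continuum_power_aleph0
    · rw [sum_const', mk_set]
      exact (mul_le_mul_left ((power_le_power_left two_ne_zero mk_le_aleph0).trans_eq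
        two_power_aleph0) _).trans_eq continuum_mul_self
  · by_contra! hc
    have : ∀ w, ∃ n, v e n < v (ev w) n := fun w => by
      have := hc _ (mem_range_self w)
      rwa [Pi.le_def, not_forall, exists_congr fun _ => not_le] at this
    choose ν hν using this
    have : ∀ n : range ν, ∃ w, ν w = n ∧ ∀ w', ν w' = n → v (ev w) n ≤ v (ev w') n := fun n => by
      obtain ⟨w, hw, h⟩ := (InvImage.wf (fun w => v (ev w) n) wellFounded_lt).has_min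
        {w | ν w = n} n.2
      exact ⟨w, hw, fun w' h' => not_lt.1 (h w' h')⟩
    choose m hm1 hm2 using this
    have := h2 (range ν) (fun n => ev (m n)) ⟨e, he, fun n => by
      have := hν (m n); rwa [hm1] at this⟩ ⟨ν (WType.mk _ m), mem_range_self _⟩
    exact absurd (hm2 _ (WType.mk _ m) rfl) (not_le.2 this)

lemma le_of_cover {α ι : Type} (A : ι → Set α) {c : Cardinal} (hc : ℵ₀ ≤ c) (hι : #ι ≤ c)
    (h : ∀ i, #(A i) ≤ c) : #(⋃ i, A i) ≤ c :=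
  (mk_iUnion_le _).trans ((mul_le_mul' hι (ciSup_le' h)).trans_eq (mul_eq_self hc))

lemma few {ι κ : Type} [Countable κ] (G : Set ι) (v : ι → κ → Ordinal.{0})
    (h : ∀ d ∈ G, #{e | e ∈ G ∧ v d ≤ v e} ≤ 𝔠) : #G ≤ 𝔠 := by
  obtain ⟨M, h1, h2, h3⟩ := coinit G v
  refine (mk_le_mk_of_subset fun e he => ?_).trans
    (le_of_cover (fun m : M => {e | e ∈ G ∧ v m ≤ v e}) aleph0_le_continuum h2 fun m => h m (h1 m.2))
  obtain ⟨m, hm, h⟩ := h3 e he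
  exact mem_iUnion.2 ⟨⟨m, hm⟩, he, h⟩

lemma lind {Z κ : Type} [TopologicalSpace Z] [Countable κ] {s : Set Z} (A : κ → Set Z)
    (h : ∀ z ∈ s, ∃ t ∈ s, ∀ U, IsOpen U → t ∈ U →
      ∃ k, z ∈ A k ∧ ∃ R ⊆ s, IsLindelof R ∧ s ∩ A k ⊆ U ∪ R) : IsLindelof s := by
  refine isLindelof_of_countable_subcover fun {ι} U hU hs => ?_
  have : ∀ k : {k // ∃ i, ∃ R ⊆ s, IsLindelof R ∧ s ∩ A k ⊆ U i ∪ R},
      ∃ c : Set ι, c.Countable ∧ s ∩ A k ⊆ ⋃ i ∈ c, U i := fun ⟨k, i, R, h1, h2, h3⟩ => by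
    obtain ⟨c, hc, h4⟩ := h2.elim_countable_subcover U hU (h1.trans hs)
    refine ⟨insert i c, hc.insert i, h3.trans ?_⟩
    rw [biUnion_insert]; exact union_subset_union_right _ h4
  choose c h1 h2 using this
  refine ⟨⋃ k, c k, countable_iUnion h1, fun z hz => ?_⟩
  obtain ⟨t, ht, h3⟩ := h z hz
  obtain ⟨i, hi⟩ := mem_iUnion.1 (hs ht)
  obtain ⟨k, hk, R, h4⟩ := h3 _ (hU i) hi
  obtain ⟨j, hj, h5⟩ := mem_iUnion₂.1 (h2 ⟨k, i, R, h4⟩ ⟨hz, hk⟩)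
  exact mem_iUnion₂.2 ⟨j, mem_iUnion.2 ⟨_, hj⟩, h5⟩

noncomputable def mu : ℕ → Cardinal.{0}
  | 0 => 𝔠
  | n + 1 => Order.succ (mu n)

lemma mu_mono : Monotone mu := monotone_nat_of_le_succ fun _ => Order.le_succ _

lemma c_le (n : ℕ) : 𝔠 ≤ mu n := mu_mono (Nat.zero_le n)

lemma al (n : ℕ) : ℵ₀ ≤ mu n := aleph0_le_continuum.trans (c_le n)

abbrev T (n : ℕ) := (mu (n + 1)).ord.ToType

lemma bdd (n : ℕ) (S : Set (T n)) (h : #S ≤ mu n) : ∃ b, ∀ a ∈ S, a < b := by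
  by_contra! hc
  have : #(Set.univ : Set (T n)) ≤ mu n := by
    refine (mk_le_mk_of_subset fun b _ => ?_).trans
      (le_of_cover (fun a : S => insert a.1 (Iio a.1)) (al n) h fun a => ?_)
    · obtain ⟨a, ha, h⟩ := hc b
      exact mem_iUnion.2 ⟨⟨a, ha⟩, h.eq_or_lt⟩
    · exact mk_insert_le.trans (add_le_of_le (al n) (Order.lt_succ_iff.1 (mk_Iio_toType_ord_lt _))
        (one_le_aleph0.trans (al n)))
  rw [mk_univ, mk_ord_toType] at this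
  exact absurd this (not_le.2 (Order.lt_succ _))

instance (n : ℕ) : Nonempty (T n) := ⟨(bdd n ∅ (by simp)).choose⟩

noncomputable instance (n : ℕ) : OrderBot (T n) := WellFoundedLT.toOrderBot _

abbrev V := ∀ n, WithTop (T n)

def Fn (x : V) : Prop := ∀ᶠ n in hyperfilter ℕ, x n ≠ ⊤

def Le (x y : V) : Prop := ∀ᶠ n in hyperfilter ℕ, x n ≤ y n

noncomputable def rk (x : V) : Ordinal.{0} :=
  sInf {o | ∃ b, Fn b ∧ Ordinal.typein WellOrderingRel b = o ∧ Le x b}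

lemma rk_spec {x : V} (hx : Fn x) : ∃ b, Fn b ∧ Ordinal.typein WellOrderingRel b = rk x ∧ Le x b :=
  csInf_mem (s := {o | ∃ b, Fn b ∧ Ordinal.typein WellOrderingRel b = o ∧ Le x b})
    ⟨_, x, hx, rfl, Eventually.of_forall fun _ => le_rfl⟩

lemma Le.trans {x y z : V} (h : Le x y) (h' : Le y z) : Le x z :=
  (h.and h').mono fun _ h => h.1.trans h.2

lemma rk_mono {x y : V} (hy : Fn y) (h : Le x y) : rk x ≤ rk y := by
  obtain ⟨b, h1, h2, h3⟩ := rk_spec hy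
  exact csInf_le' ⟨b, h1, h2, h.trans h3⟩

lemma top {x : V} (hx : Fn x) : ∃ b, Fn b ∧ rk b = rk x ∧ ∀ y, Fn y → rk y ≤ rk x → Le y b := by
  obtain ⟨b, h1, h2, h3⟩ := rk_spec hx
  refine ⟨b, h1, le_antisymm (csInf_le' ⟨b, h1, h2, Eventually.of_forall fun _ => le_rfl⟩)
    (rk_mono h1 h3), fun y hy h => ?_⟩
  obtain ⟨c, k1, k2, k3⟩ := rk_spec hy
  rcases h.eq_or_lt with h | h
  · rwa [← (Ordinal.typein WellOrderingRel).injective (k2.trans (h.trans h2.symm))]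
  · have : ¬ Le x c := fun h' => absurd (show rk x ≤ rk y from csInf_le' ⟨c, k1, k2, h'⟩) (not_le.2 h)
    have : Le c x := (Ultrafilter.eventually_not.2 this).mono fun _ h => (not_le.1 h).le
    exact (k3.trans this).trans h3

structure P where
  x : V
  g : V
  t : Bool
  hg : g ≤ x
  hx : Fn x

def L (q : P) : Set P := {p | rk p.x ≤ rk q.x}

def sub : Set (Set P) := {U | (∃ (n : ℕ) (a : T n), U = {p : P | p.x n ≤ (a : WithTop (T n))}) ∨ (∃ f : V, U = {p : P | f ≤ p.g}) ∨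
  (∃ q, U = (L q)ᶜ) ∨ ∃ q, U = {q}ᶜ}

instance : TopologicalSpace P := TopologicalSpace.generateFrom sub

lemma op {U : Set P} (h : U ∈ sub) : IsOpen U := TopologicalSpace.GenerateOpen.basic U h

instance : T1Space P := ⟨fun q => ⟨op (Or.inr (Or.inr (Or.inr ⟨q, rfl⟩)))⟩⟩

lemma closed_L (q : P) : IsClosed (L q) := ⟨op (Or.inr (Or.inr (Or.inl ⟨q, rfl⟩)))⟩

lemma nb {U : Set P} (hU : IsOpen U) {p : P} (hp : p ∈ U) : ∃ (F : Finset ℕ) (E J : Set P),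
    E.Finite ∧ J.Finite ∧ p ∉ E ∧ (∀ q ∈ J, rk q.x < rk p.x) ∧
    ∀ e : P, (∀ n ∈ F, e.x n ≤ p.x n) → p.g ≤ e.g → e ∉ E → (∀ q ∈ J, e ∉ L q) → e ∈ U := by
  induction hU with
  | basic U h =>
    rcases h with ⟨n, a, rfl⟩ | ⟨f, rfl⟩ | ⟨q, rfl⟩ | ⟨q, rfl⟩
    · exact ⟨{n}, ∅, ∅, by simp, by simp, by simp, by simp, fun e h _ _ _ =>
        (h n (by simp)).trans hp⟩
    · exact ⟨∅, ∅, ∅, by simp, by simp, by simp, by simp, fun e _ h _ _ => le_trans hp h⟩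
    · exact ⟨∅, ∅, {q}, by simp, by simp, by simp, by simpa [L] using hp, fun e _ _ _ h => h q rfl⟩
    · exact ⟨∅, {q}, ∅, by simp, by simp, hp, by simp, fun e _ _ h _ => h⟩
  | univ => exact ⟨∅, ∅, ∅, by simp, by simp, by simp, by simp, fun _ _ _ _ _ => trivial⟩
  | inter s t _ _ h1 h2 =>
    obtain ⟨F, E, J, a1, a2, a3, a4, a5⟩ := h1 hp.1
    obtain ⟨F', E', J', b1, b2, b3, b4, b5⟩ := h2 hp.2
    exact ⟨F ∪ F', E ∪ E', J ∪ J', a1.union b1, a2.union b2, fun h => h.elim a3 b3,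
      fun q h => h.elim (a4 q) (b4 q), fun e c1 c2 c3 c4 =>
      ⟨a5 e (fun n h => c1 n (Finset.mem_union_left _ h)) c2 (fun h => c3 (Or.inl h))
        fun q h => c4 q (Or.inl h),
      b5 e (fun n h => c1 n (Finset.mem_union_right _ h)) c2 (fun h => c3 (Or.inr h))
        fun q h => c4 q (Or.inr h)⟩⟩
  | sUnion S _ h =>
    obtain ⟨s, hs, hp⟩ := hp
    obtain ⟨F, E, J, a1, a2, a3, a4, a5⟩ := h s hs hp
    exact ⟨F, E, J, a1, a2, a3, a4, fun e c1 c2 c3 c4 => ⟨s, hs, a5 e c1 c2 c3 c4⟩⟩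

def A (b : V) (G : Finset ℕ) : Set P := {e | ∀ n ∈ G, e.x n ≤ b n}

lemma tops (q : P) : ∃ b : V, ∀ z ∈ L q, ∀ β, ∃ t ∈ L q, t.t = β ∧ ∀ U, IsOpen U → t ∈ U →
    ∃ (G : Finset ℕ) (E J : Set P), E.Finite ∧ J.Finite ∧ (∀ j ∈ J, rk j.x < rk q.x) ∧ z ∈ A b G ∧
      ∀ e ∈ A b G, e ∉ E → (∀ j ∈ J, e ∉ L j) → e ∈ U := by
  classical
  obtain ⟨b, h1, h2, h3⟩ := top q.hx
  refine ⟨b, fun z hz β => ?_⟩
  have hN : Le z.x b := h3 _ z.hx hz
  let y : V := fun n => if z.x n ≤ b n then b n else ⊤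
  have e : rk y ≤ rk q.x := h2 ▸ rk_mono h1 (hN.mono fun n h => by simp [y, h])
  refine ⟨⟨y, ⊥, β, bot_le, (hN.and h1).mono fun n h => by simp [y, h.1, h.2]⟩, e, rfl,
    fun U hU hp => ?_⟩
  obtain ⟨F, E, J, a1, a2, -, a4, a5⟩ := nb hU hp
  refine ⟨F.filter fun n => z.x n ≤ b n, E, J, a1, a2, fun j hj => (a4 j hj).trans_le e,
    fun n hn => (Finset.mem_filter.1 hn).2, fun e he c1 c2 => a5 e (fun n hn => ?_) bot_le c1 c2⟩
  by_cases h : z.x n ≤ b n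
  · simpa [y, h] using he n (Finset.mem_filter.2 ⟨hn, h⟩)
  · simp [y, h]

lemma lind1 (c q : P) : IsLindelof (L q \ {c}) := by
  induction q using (InvImage.wf (fun q : P => rk q.x) wellFounded_lt).induction with | _ q ih
  obtain ⟨b, hb⟩ := tops q
  refine lind (A b) fun z hz => ?_
  obtain ⟨t, h1, h2, h3⟩ := hb z hz.1 (!c.t)
  refine ⟨t, ⟨h1, fun h => by rw [show t = c from h] at h2; simp at h2⟩, fun U hU ht => ?_⟩
  obtain ⟨G, E, J, a1, a2, a3, a4, a5⟩ := h3 U hU ht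
  refine ⟨G, a4, (E ∩ (L q \ {c})) ∪ ⋃ j ∈ J, L j \ {c}, union_subset inter_subset_right
    (iUnion₂_subset fun j hj e he => ⟨le_trans he.1 (a3 j hj).le, he.2⟩),
    (a1.inter_of_left _).isLindelof.union (a2.isLindelof_biUnion fun j hj => ih j (a3 j hj)),
    fun e he => ?_⟩
  by_contra hc
  simp only [mem_union, not_or, mem_iUnion, not_exists] at hc
  exact hc.1 (a5 e he.2 (fun h => hc.2.1 ⟨h, he.1⟩) fun j hj h => hc.2.2 j hj ⟨h, he.1.2⟩)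

lemma lind0 (q : P) : IsLindelof (L q) := by
  have := (lind1 q q).union (isLindelof_singleton (x := q))
  rwa [diff_union_of_subset (singleton_subset_iff.2 (show q ∈ L q from le_refl (rk q.x)))] at this

def B (q q' : P) : Set (P × P) := {p | p.1 ∈ L q ∧ p.2 ∈ L q' ∧ p.1 ≠ p.2}

lemma lind2 (q q' : P) : IsLindelof (B q q') := by
  induction q using (InvImage.wf (fun q : P => rk q.x) wellFounded_lt).induction generalizing q'
    with | _ q ih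
  induction q' using (InvImage.wf (fun q : P => rk q.x) wellFounded_lt).induction with | _ q' ih'
  obtain ⟨b, hb⟩ := tops q
  obtain ⟨b', hb'⟩ := tops q'
  refine lind (fun k : Finset ℕ × Finset ℕ => A b k.1 ×ˢ A b' k.2) fun z hz => ?_
  obtain ⟨t, h1, h2, h3⟩ := hb _ hz.1 true
  obtain ⟨t', h1', h2', h3'⟩ := hb' _ hz.2.1 false
  refine ⟨(t, t'), ⟨h1, h1', fun h => by rw [show t = t' from h, h2'] at h2; simp at h2⟩,
    fun U hU ht => ?_⟩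
  obtain ⟨u, w, hu, hw, k1, k2, k3⟩ := isOpen_prod_iff.1 hU t t' ht
  obtain ⟨G, E, J, a1, a2, a3, a4, a5⟩ := h3 u hu k1
  obtain ⟨G', E', J', b1, b2, b3, b4, b5⟩ := h3' w hw k2
  refine ⟨(G, G'), ⟨a4, b4⟩, ((⋃ e ∈ E ∩ L q, Prod.mk e '' (L q' \ {e})) ∪
    ⋃ e ∈ E' ∩ L q', (fun a => (a, e)) '' (L q \ {e})) ∪ ((⋃ j ∈ J, B j q') ∪ ⋃ j ∈ J', B q j),
    union_subset (union_subset (iUnion₂_subset ?_) (iUnion₂_subset ?_)) (union_subset
      (iUnion₂_subset fun j hj e he => ⟨le_trans he.1 (a3 j hj).le, he.2⟩)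
      (iUnion₂_subset fun j hj e he => ⟨he.1, le_trans he.2.1 (b3 j hj).le, he.2.2⟩)),
    (((a1.inter_of_left _).isLindelof_biUnion fun e _ => (lind1 e q').image (by fun_prop)).union
      ((b1.inter_of_left _).isLindelof_biUnion fun e _ => (lind1 e q).image (by fun_prop))).union
      ((a2.isLindelof_biUnion fun j hj => ih j (a3 j hj) q').union
        (b2.isLindelof_biUnion fun j hj => ih' j (b3 j hj))), fun e he => ?_⟩
  · rintro e he _ ⟨a, ha, rfl⟩; exact ⟨he.2, ha.1, Ne.symm ha.2⟩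
  · rintro e he _ ⟨a, ha, rfl⟩; exact ⟨ha.1, he.2, ha.2⟩
  by_contra hc
  simp only [mem_union, not_or, mem_iUnion, not_exists] at hc
  obtain ⟨⟨c1, c2, c3⟩, c4, c5⟩ := he
  exact hc.1 (k3 ⟨a5 _ c4 (fun h => hc.2.1.1 _ ⟨h, c1⟩ ⟨e.2, ⟨c2, Ne.symm c3⟩, rfl⟩)
    fun j hj h => hc.2.2.1 j hj ⟨h, c2, c3⟩, b5 _ c5
    (fun h => hc.2.1.2 _ ⟨h, c2⟩ ⟨e.1, ⟨c1, c3⟩, rfl⟩) fun j hj h => hc.2.2.2 j hj ⟨c1, h, c3⟩⟩)

noncomputable def v (p : P) : Option ℕ → Ordinal.{0}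
  | none => rk p.x
  | some n => Ordinal.typein (α := WithTop (T n)) (· < ·) (p.g n)

lemma v_le {d e : P} (h : v d ≤ v e) : d.g ≤ e.g ∧ rk d.x ≤ rk e.x :=
  ⟨fun n => not_lt.1 ((Ordinal.typein_le_typein _).1 (h (some n))), h none⟩

lemma fiber (G : Set (P × P)) (E E' : P × P → Set P)
    (h : ∀ d ∈ G, (E d).Finite ∧ (E' d).Finite ∧ d.1 ∉ E d ∧ d.2 ∉ E' d ∧ ∀ e ∈ G,
      v d.1 ≤ v e.1 → v d.2 ≤ v e.2 → e.1 ∉ E d → e.2 ∉ E' d → e = d) : #G ≤ 𝔠 := by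
  have fin : ∀ {s : Set (P × P)}, s.Finite → #s ≤ 𝔠 := fun h =>
    h.lt_aleph0.le.trans aleph0_le_continuum
  have l1 : ∀ a, #{e | e ∈ G ∧ e.1 = a} ≤ 𝔠 := fun a => few _ (fun e => v e.2) fun d hd => by
    obtain ⟨-, h2, h3, -, h5⟩ := h d hd.1
    refine fin (((h2.image (Prod.mk a)).insert d).subset fun e he => ?_)
    by_cases k : e.2 ∈ E' d
    · exact Or.inr ⟨_, k, by rw [← he.1.2]⟩
    · have : e.1 = d.1 := he.1.2.trans hd.2.symm
      exact Or.inl (h5 e he.1.1 (by rw [this]) he.2 (by rwa [this]) k)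
  have l2 : ∀ a, #{e | e ∈ G ∧ e.2 = a} ≤ 𝔠 := fun a => few _ (fun e => v e.1) fun d hd => by
    obtain ⟨h2, -, -, h3, h5⟩ := h d hd.1
    refine fin (((h2.image fun b => (b, a)).insert d).subset fun e he => ?_)
    by_cases k : e.1 ∈ E d
    · exact Or.inr ⟨_, k, by rw [← he.1.2]⟩
    · have : e.2 = d.2 := he.1.2.trans hd.2.symm
      exact Or.inl (h5 e he.1.1 he.2 (by rw [this]) k (by rwa [this]))
  refine few G (fun e => Sum.elim (v e.1) (v e.2)) fun d hd => ?_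
  obtain ⟨h1, h2, -, -, h5⟩ := h d hd
  have c := aleph0_le_continuum
  refine (mk_le_mk_of_subset (t := {d} ∪ ((⋃ a : E d, {e | e ∈ G ∧ e.1 = a}) ∪
    ⋃ a : E' d, {e | e ∈ G ∧ e.2 = a})) fun e he => ?_).trans ((mk_union_le _ _).trans
      (add_le_of_le c (fin (finite_singleton d)) ((mk_union_le _ _).trans (add_le_of_le c
        (le_of_cover _ c (h1.lt_aleph0.le.trans c) fun a => l1 a)
        (le_of_cover _ c (h2.lt_aleph0.le.trans c) fun a => l2 a)))))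
  by_cases k : e.1 ∈ E d
  · exact Or.inr (Or.inl (mem_iUnion.2 ⟨⟨_, k⟩, he.1, rfl⟩))
  by_cases k' : e.2 ∈ E' d
  · exact Or.inr (Or.inr (mem_iUnion.2 ⟨⟨_, k'⟩, he.1, rfl⟩))
  exact Or.inl (h5 e he.1 (fun n => he.2 (Sum.inl n)) (fun n => he.2 (Sum.inr n)) k k')

lemma mk_pi_le (k : ℕ) : #(∀ n : Fin k, WithTop (T n)) ≤ mu k := by
  rw [mk_pi]
  refine (prod_le_prod _ (fun _ => mu k) fun n => ?_).trans ?_
  · refine (mk_option (α := T n)).trans_le (add_le_of_le (al k) ?_ (one_le_aleph0.trans (al k)))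
    rw [mk_ord_toType]; exact mu_mono n.2
  · rw [prod_const', mk_fin, power_natCast]; exact power_nat_le (al k)

lemma bound (D : Set (P × P)) (h : ∀ d ∈ D, ∃ U, IsOpen U ∧ U ∩ D = {d}) :
    ∃ q, ∀ d ∈ D, d.1 ∈ L q ∧ d.2 ∈ L q := by
  have : ∀ d : P × P, ∃ (k : ℕ) (E E' : Set P), d ∈ D → E.Finite ∧ E'.Finite ∧ d.1 ∉ E ∧ d.2 ∉ E' ∧
      ∀ e ∈ D, (∀ n < k, e.1.x n = d.1.x n ∧ e.2.x n = d.2.x n) →
        v d.1 ≤ v e.1 → v d.2 ≤ v e.2 → e.1 ∉ E → e.2 ∉ E' → e = d := fun d => by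
    by_cases hd : d ∈ D
    · obtain ⟨U, hU, e⟩ := h d hd
      obtain ⟨u, w, hu, hw, k1, k2, k3⟩ := isOpen_prod_iff.1 hU d.1 d.2 (e.ge rfl).1
      obtain ⟨F, E, J, a1, -, a3, a4, a5⟩ := nb hu k1
      obtain ⟨F', E', J', b1, -, b3, b4, b5⟩ := nb hw k2
      obtain ⟨k, hk⟩ := (F ∪ F').exists_nat_subset_range
      refine ⟨k, E, E', fun _ => ⟨a1, b1, a3, b3, fun p hp c1 c2 c3 c4 c5 => e.le ⟨k3 ⟨a5 _
        (fun n hn => (c1 n (Finset.mem_range.1 (hk (Finset.mem_union_left _ hn)))).1.le)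
        (v_le c2).1 c4 fun j hj => not_le.2 ((a4 j hj).trans_le (v_le c2).2), b5 _
        (fun n hn => (c1 n (Finset.mem_range.1 (hk (Finset.mem_union_right _ hn)))).2.le)
        (v_le c3).1 c5 fun j hj => not_le.2 ((b4 j hj).trans_le (v_le c3).2)⟩, hp⟩⟩⟩
    · exact ⟨0, ∅, ∅, fun h => absurd h hd⟩
  choose k E E' hk using this
  have hD : ∀ m, #{d | d ∈ D ∧ k d ≤ m} ≤ mu m := fun m => by
    refine (mk_le_mk_of_subset fun d hd => ?_).trans (le_of_cover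
      (fun s : (∀ n : Fin m, WithTop (T n)) × ∀ n : Fin m, WithTop (T n) =>
        {d | (d ∈ D ∧ k d ≤ m) ∧ ∀ n : Fin m, d.1.x n = s.1 n ∧ d.2.x n = s.2 n}) (al m) ?_
      fun s => (fiber _ E E' fun d hd => ?_).trans (c_le m))
    · exact mem_iUnion.2 ⟨(fun n => d.1.x n, fun n => d.2.x n), hd, fun _ => ⟨rfl, rfl⟩⟩
    · rw [mk_prod, lift_id]
      exact (mul_le_mul' (mk_pi_le m) (mk_pi_le m)).trans_eq (mul_eq_self (al m))
    · obtain ⟨h1, h2, h3, h4, h5⟩ := hk d hd.1.1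
      exact ⟨h1, h2, h3, h4, fun e he => h5 e he.1.1 fun n hn =>
        ⟨(he.2 ⟨n, hn.trans_le hd.1.2⟩).1.trans (hd.2 ⟨n, _⟩).1.symm,
        (he.2 ⟨n, hn.trans_le hd.1.2⟩).2.trans (hd.2 ⟨n, _⟩).2.symm⟩⟩
  have hb : ∀ n, ∃ b : T n, ∀ a ∈ WithTop.some ⁻¹' ((fun d : P × P => d.1.x n) '' {d | d ∈ D ∧ k d ≤ n} ∪
      (fun d : P × P => d.2.x n) '' {d | d ∈ D ∧ k d ≤ n}), a < b := fun n => bdd n _
    ((mk_preimage_of_injective _ _ WithTop.coe_injective).trans ((mk_union_le _ _).trans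
      (add_le_of_le (al n) (mk_image_le.trans (hD n)) (mk_image_le.trans (hD n)))))
  choose b hb using hb
  have fb : Fn fun n => (b n : WithTop (T n)) := Eventually.of_forall fun _ => WithTop.coe_ne_top
  refine ⟨⟨fun n => b n, ⊥, true, bot_le, fb⟩, fun d hd => ?_⟩
  have ev : ∀ᶠ n in hyperfilter ℕ, k d ≤ n :=
    Nat.hyperfilter_le_atTop (eventually_ge_atTop _)
  refine ⟨rk_mono fb ((ev.and d.1.hx).mono fun n hn => ?_), rk_mono fb ((ev.and d.2.hx).mono fun n hn => ?_)⟩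
  · obtain ⟨a, ha⟩ := WithTop.ne_top_iff_exists.1 hn.2
    rw [← ha]; exact WithTop.coe_le_coe.2 (hb n a (Or.inl ⟨d, ⟨hd, hn.1⟩, ha.symm⟩)).le
  · obtain ⟨a, ha⟩ := WithTop.ne_top_iff_exists.1 hn.2
    rw [← ha]; exact WithTop.coe_le_coe.2 (hb n a (Or.inr ⟨d, ⟨hd, hn.1⟩, ha.symm⟩)).le

lemma iso {Z : Type} [TopologicalSpace Z] {D : Set Z} (h : DiscreteTopology D) :
    ∀ d ∈ D, ∃ U, IsOpen U ∧ U ∩ D = {d} := fun d hd => by
  obtain ⟨U, hU, e⟩ := isOpen_induced_iff.1 (isOpen_discrete ({⟨d, hd⟩} : Set D))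
  refine ⟨U, hU, subset_antisymm (fun z hz => ?_) ?_⟩
  · exact congrArg Subtype.val (e.le (show (⟨z, hz.2⟩ : D) ∈ Subtype.val ⁻¹' U from hz.1))
  · rintro _ rfl; exact ⟨e.ge rfl, hd⟩

noncomputable def p0 : P := ⟨⊥, ⊥, true, le_rfl, Eventually.of_forall fun _ => bot_ne_top⟩

lemma dl : DL P := fun D hD => by
  obtain ⟨q, hq⟩ := bound (D ×ˢ {p0}) fun d hd => by
    obtain ⟨U, hU, e⟩ := iso hD d.1 hd.1
    exact ⟨U ×ˢ Set.univ, hU.prod isOpen_univ, by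
      rw [prod_inter_prod, e, univ_inter, singleton_prod_singleton, ← show d.2 = p0 from hd.2]⟩
  exact (lind0 q).of_isClosed_subset isClosed_closure
    (closure_minimal (fun d hd => (hq (d, p0) ⟨hd, rfl⟩).1) (closed_L q))

lemma dl2 : DL {p : P × P | p.1 ≠ p.2} := fun D hD => by
  obtain ⟨q, hq⟩ := bound (Subtype.val '' D) (by
    rintro _ ⟨d, hd, rfl⟩
    obtain ⟨_, ⟨U, hU, rfl⟩, e⟩ := iso hD d hd
    exact ⟨U, hU, by rw [← image_preimage_inter, e, image_singleton]⟩)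
  refine IsLindelof.of_isClosed_subset (s := Subtype.val ⁻¹' (L q ×ˢ L q)) ?_ isClosed_closure
    (closure_minimal (fun d hd => hq _ ⟨d, hd, rfl⟩)
      (((closed_L q).prod (closed_L q)).preimage continuous_subtype_val))
  rw [Subtype.isLindelof_iff]
  convert lind2 q q using 1
  ext p; simp [B]; tauto

lemma not_wl : ¬ WL P := fun h => by
  obtain ⟨𝒱, h1, h2, h3⟩ := h (range fun s : Σ n, T n => {p : P | p.x s.1 ≤ (s.2 : WithTop (T s.1))})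
    (by rintro _ ⟨s, rfl⟩; exact op (Or.inl ⟨_, _, rfl⟩)) (eq_univ_of_forall fun p => by
      obtain ⟨n, hn⟩ := p.hx.exists
      obtain ⟨a, ha⟩ := WithTop.ne_top_iff_exists.1 hn
      exact ⟨_, ⟨⟨n, a⟩, rfl⟩, ha.ge⟩)
  choose! s hs using fun U (hU : U ∈ 𝒱) => h1 hU
  choose z hz using fun n => bdd n (Sigma.mk n ⁻¹' (s '' 𝒱))
    ((le_aleph0_iff_set_countable.2 ((h2.image s).preimage sigma_mk_injective)).trans (al n))
  obtain ⟨p, ⟨U, hU, hp⟩, hp'⟩ := h3.exists_mem_open (op (Or.inr (Or.inl ⟨fun n => z n, rfl⟩)))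
    ⟨⟨fun n => z n, fun n => z n, true, le_rfl, Eventually.of_forall fun _ => WithTop.coe_ne_top⟩,
      le_refl (fun n => (z n : WithTop (T n)))⟩
  rw [← hs U hU] at hp
  exact absurd (WithTop.coe_le_coe.1 (((hp' _).trans (p.hg _)).trans hp))
    (not_le.2 (hz _ _ ⟨U, hU, rfl⟩))

lemma not_lind : ¬ LindelofSpace P := fun h => not_wl fun 𝒰 h1 h2 => by
  obtain ⟨c, hc, h3⟩ := isLindelof_univ.elim_countable_subcover (fun U : 𝒰 => U.1)
    (fun U => h1 _ U.2) (by rw [← sUnion_eq_iUnion, h2])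
  refine ⟨Subtype.val '' c, by simp, hc.image _, fun p => subset_closure ?_⟩
  obtain ⟨U, hU, hp⟩ := mem_iUnion₂.1 (h3 (mem_univ p))
  exact ⟨U, ⟨U, hU, rfl⟩, hp⟩

end Pool.Agent.H30.DL
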