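import Mathlib

set_option autoImplicit false

namespace Pool.Agent.H30.Cen

open Set Filter Topology TopologicalSpace

lemma delta {I J : Type} (x : I → J → Bool) (N : ℕ) : ∀ (S : Set I) (F : I → Finset J),
    ¬ S.Countable → (∀ a ∈ S, (F a).card ≤ N) → ∃ g : ℕ → I, (∀ n, g n ∈ S) ∧
      ∀ m n, m < n → g m ≠ g n ∧ ∀ j ∈ F (g m), j ∈ F (g n) → x (g m) j = x (g n) j := by
  classical
  have c2 : ∀ (S : Set I) (F : I → Finset J), ¬ S.Countable →
      (∀ j, {a | a ∈ S ∧ j ∈ F a}.Countable) → ∃ g : ℕ → I, (∀ n, g n ∈ S) ∧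
      ∀ m n, m < n → g m ≠ g n ∧ ∀ j ∈ F (g m), j ∈ F (g n) → x (g m) j = x (g n) j :=
    fun S F h1 h2 => exists_seq_of_forall_finset_exists (· ∈ S)
      (fun a b => a ≠ b ∧ ∀ j ∈ F a, j ∈ F b → x a j = x b j) fun s _ => by
      by_contra! h
      refine h1 ((s.countable_toSet.union (s.countable_toSet.biUnion fun a _ =>
        (F a).countable_toSet.biUnion fun j _ => h2 j)).mono fun y hy => ?_)
      obtain ⟨a, h3, h4⟩ := h y hy
      by_cases e : a = y
      · exact Or.inl (e ▸ h3)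
      · obtain ⟨j, k1, k2, _⟩ := h4 e
        exact Or.inr (mem_biUnion h3 (mem_biUnion k1 ⟨hy, k2⟩))
  induction N with
  | zero =>
    exact fun S F h1 h2 => c2 S F h1 fun j => countable_empty.mono fun a ha => by
      have := ha.2
      simp [Finset.card_eq_zero.1 (Nat.le_zero.1 (h2 a ha.1))] at this
  | succ N ih =>
    intro S F h1 h2
    by_cases h : ∀ j, {a | a ∈ S ∧ j ∈ F a}.Countable
    · exact c2 S F h1 h
    obtain ⟨j, hj⟩ := not_forall.1 h
    obtain ⟨b, hb⟩ : ∃ b, ¬ {a | (a ∈ S ∧ j ∈ F a) ∧ x a j = b}.Countable := by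
      by_contra! k
      exact hj ((countable_iUnion k).mono fun a ha => mem_iUnion.2 ⟨x a j, And.intro ha rfl⟩)
    obtain ⟨g, k1, k2⟩ := ih _ (fun a => (F a).erase j) hb fun a ha => by
      have := h2 a ha.1.1
      rw [Finset.card_erase_of_mem ha.1.2]; omega
    refine ⟨g, fun n => (k1 n).1.1, fun m n h => ⟨(k2 m n h).1, fun i c1 c2 => ?_⟩⟩
    by_cases e : i = j
    · rw [e, (k1 m).2, (k1 n).2]
    · exact (k2 m n h).2 i (Finset.mem_erase.2 ⟨e, c1⟩) (Finset.mem_erase.2 ⟨e, c2⟩)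

noncomputable def u : StoneCech ℕ → Ultrafilter ℕ :=
  stoneCechExtend (g := pure) continuous_of_discreteTopology

lemma u_cont : Continuous u := continuous_stoneCechExtend _

lemma u_unit (n : ℕ) : u (stoneCechUnit n) = pure n := stoneCechExtend_stoneCechUnit _ n

lemma u_inj : Function.Injective u := Function.LeftInverse.injective
  (g := Ultrafilter.extend stoneCechUnit) (congrFun (stoneCech_hom_ext
    ((continuous_ultrafilter_extend _).comp u_cont) continuous_id (funext fun n => by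
      simp [u_unit])))

lemma u_surj : Function.Surjective u := Function.RightInverse.surjective
  (g := Ultrafilter.extend stoneCechUnit) (congrFun (denseRange_pure.equalizer
    (u_cont.comp (continuous_ultrafilter_extend _)) continuous_id (funext fun n => by
      simp [u_unit])))

abbrev R : Set (StoneCech ℕ) := (range (stoneCechUnit : ℕ → StoneCech ℕ))ᶜ

lemma mem_R {x : StoneCech ℕ} : x ∈ R ↔ ∀ n, {n} ∉ u x :=
  ⟨fun h n k => by
    obtain ⟨m, -, e⟩ := Ultrafilter.eq_pure_of_finite_mem (finite_singleton n) k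
    exact h ⟨m, u_inj ((u_unit m).trans e.symm)⟩,
    fun h ⟨n, e⟩ => h n (by rw [← e, u_unit]; rfl)⟩

lemma fin {A : Set ℕ} (h : A.Finite) (x : R) : A ∉ u x := fun k => by
  obtain ⟨n, -, e⟩ := Ultrafilter.eq_pure_of_finite_mem h k
  exact mem_R.1 x.2 n (by rw [e]; rfl)

lemma inf {A : Set ℕ} (h : A.Infinite) : ∃ x : R, A ∈ u x := by
  have := cofinite_inf_principal_neBot_iff.2 h
  obtain ⟨x, hx⟩ := u_surj (Ultrafilter.of (cofinite ⊓ 𝓟 A))
  have := Ultrafilter.of_le (cofinite ⊓ 𝓟 A)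
  refine ⟨⟨x, mem_R.2 fun n => hx ▸ Ultrafilter.compl_mem_iff_notMem.1 (this ?_)⟩,
    hx ▸ this (mem_inf_of_right (mem_principal_self A))⟩
  exact mem_inf_of_left (finite_singleton n).compl_mem_cofinite

def hat (A : Set ℕ) : Clopens R := ⟨{x | A ∈ u x},
  ((ultrafilter_isClosed_basic A).preimage u_cont).preimage continuous_subtype_val,
  ((ultrafilter_isOpen_basic A).preimage u_cont).preimage continuous_subtype_val⟩

instance : CompactSpace R := isCompact_iff_compactSpace.1 (IsClosed.isCompact (by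
  have : R = ⋂ n, {x | {n}ᶜ ∈ u x} := by
    ext x; simp only [mem_R, mem_iInter, mem_setOf_eq, Ultrafilter.compl_mem_iff_notMem]
  rw [this]
  exact isClosed_iInter fun n => (ultrafilter_isClosed_basic _).preimage u_cont))

lemma rep {C : Set R} (h : IsClopen C) : ∃ A, C = hat A := by
  have hb := ultrafilterBasis_is_basis.isInducing ((u_cont.comp continuous_subtype_val).isClosedEmbedding
    (X := R) (u_inj.comp Subtype.val_injective)).isInducing
  have : ∀ x : C, ∃ A, x.1 ∈ hat A ∧ ↑(hat A) ⊆ C := fun x => by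
    obtain ⟨_, ⟨_, ⟨A, rfl⟩, rfl⟩, h1, h2⟩ := hb.exists_subset_of_mem_open x.2 h.2
    exact ⟨A, h1, h2⟩
  choose A h1 h2 using this
  obtain ⟨t, ht⟩ := h.1.isCompact.elim_finite_subcover (fun x => ↑(hat (A x)))
    (fun x => (hat _).isOpen) fun x hx => mem_iUnion.2 ⟨⟨x, hx⟩, h1 _⟩
  refine ⟨⋃ x ∈ (t : Set C), A x, Set.ext fun y => ?_⟩
  refine Iff.trans ?_ (Ultrafilter.finite_biUnion_mem_iff t.finite_toSet).symm
  exact ⟨fun k => let ⟨x, a, b⟩ := mem_iUnion₂.1 (ht k); ⟨x, a, b⟩, fun ⟨x, _, k⟩ => h2 x k⟩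

lemma split (C : ℕ → Set R) (h : ∀ n, IsClopen (C n)) (hd : ∀ m n, m < n → Disjoint (C m) (C n)) :
    ∃ A, ∀ n, ∀ x ∈ C n, (A ∈ u x ↔ Even n) := by
  choose A hA using fun n => rep (h n)
  refine ⟨{k | ∃ n, Even n ∧ k ∈ A n ∧ ∀ m ∈ Iio n, k ∉ A m}, fun n x hx => ?_⟩
  have h1 : {k | k ∈ A n ∧ ∀ m ∈ Iio n, k ∉ A m} ∈ u x := Filter.inter_mem
    (show x ∈ (hat (A n) : Set R) from hA n ▸ hx)
    ((eventually_all_finite (finite_Iio n)).2 fun m hm => Ultrafilter.compl_mem_iff_notMem.2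
      fun k => disjoint_left.1 (hd m n hm) (by rw [hA m]; exact k) hx)
  refine ⟨fun k => ?_, fun k => mem_of_superset h1 fun i hi => ⟨n, k, hi⟩⟩
  obtain ⟨i, ⟨m, a1, a2, a3⟩, a4, a5⟩ := Ultrafilter.nonempty_of_mem (Filter.inter_mem k h1)
  rcases lt_trichotomy m n with c | rfl | c
  · exact absurd a2 (a5 m c)
  · exact a1
  · exact absurd a4 (a3 n c)

abbrev C : Set (Clopens R → Bool) :=
  {f | ∀ F : Finset (Clopens R), (∀ U ∈ F, f U = true) → (⋂ U ∈ F, (U : Set R)).Nonempty}

def Φ (p : C) : Prop := ∃ (x : (ℕ → Bool) → C) (W : (ℕ → Bool) → Set C), (∀ a, IsOpen (W a)) ∧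
  (∀ a, x a ∈ W a) ∧ (∀ a b, a ≠ b → Disjoint (W a) (W b)) ∧ Tendsto x cofinite (𝓝 p)

lemma Φ.map {p : C} (h : Φ p) (e : C ≃ₜ C) : Φ (e p) := by
  obtain ⟨x, W, h1, h2, h3, h4⟩ := h
  exact ⟨e ∘ x, fun a => e.symm ⁻¹' W a, fun a => (h1 a).preimage e.symm.continuous,
    fun a => by simpa using h2 a, fun a b h => (h3 a b h).preimage _, (e.continuous.tendsto p).comp h4⟩

lemma opn (U : Clopens R) : IsOpen {x : C | x.1 U = true} :=
  ((isOpen_discrete {true}).preimage (f := fun x : Clopens R → Bool => x U) (by fun_prop)).preimage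
    continuous_subtype_val

noncomputable def pt : R := (inf infinite_univ).choose

def zero : C := ⟨fun _ => false, fun _ h => ⟨pt, mem_iInter₂.2 fun U hU => absurd (h U hU) (by simp)⟩⟩

open Classical in
noncomputable def top : C := ⟨fun U => decide (pt ∈ U), fun _ h => ⟨pt, mem_iInter₂.2 fun U hU =>
  by simpa using h U hU⟩⟩

lemma meet (x : C) {U V : Clopens R} (h1 : x.1 U = true) (h2 : x.1 V = true) :
    ((U : Set R) ∩ V).Nonempty := by
  classical
  simpa using x.2 {U, V} (by simp [h1, h2])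

lemma Φ_zero : Φ zero := by
  classical
  let e : (ℕ → Bool) → ℕ → ℕ := fun s n => Encodable.encode (List.ofFn fun i : Fin n => s i)
  have he : ∀ s t n m, e s n = e t m → n = m ∧ ∀ i < n, s i = t i := fun s t n m h => by
    have h := Encodable.encode_injective h
    obtain rfl : n = m := by simpa using congrArg List.length h
    exact ⟨rfl, fun i hi => congrFun (List.ofFn_injective h) ⟨i, hi⟩⟩
  choose q hq using fun s => inf (infinite_range_of_injective (f := e s) fun n m h => (he s s n m h).1)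
  have hd : ∀ s t, s ≠ t → ∀ x : R, range (e s) ∈ u x → range (e t) ∉ u x := fun s t h x h1 h2 => by
    obtain ⟨k, hk⟩ := Function.ne_iff.1 h
    refine fin (((finite_Iic k).image (e s)).subset ?_) x (Filter.inter_mem h1 h2)
    rintro _ ⟨⟨n, rfl⟩, m, h⟩
    exact ⟨n, not_lt.1 fun c => hk ((he s t n m h.symm).2 k c), rfl⟩
  refine ⟨fun s => ⟨fun U => decide (U = hat (range (e s))), fun F h => ⟨q s, mem_iInter₂.2
    fun U hU => by rw [of_decide_eq_true (h U hU)]; exact hq s⟩⟩,
    fun s => {x | x.1 (hat (range (e s))) = true}, fun s => opn _, fun s => by simp,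
    fun s t h => disjoint_left.2 fun x h1 h2 => ?_, ?_⟩
  · obtain ⟨y, k1, k2⟩ := meet x h1 h2
    exact hd s t h y k1 k2
  · refine tendsto_subtype_rng.2 (tendsto_pi_nhds.2 fun U => tendsto_const_nhds.congr' ?_)
    refine eventually_cofinite.2 (Set.Subsingleton.finite fun s hs t ht => ?_)
    simp only [zero, mem_setOf_eq, false_eq_decide_iff, not_not] at hs ht
    by_contra h
    exact hd s t h (q s) (hq s) (show q s ∈ hat _ from (hs.symm.trans ht) ▸ hq s)

lemma Φ_top : ¬ Φ top := by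
  classical
  rintro ⟨x, W, h1, h2, h3, h4⟩
  have : ∀ a, ∃ F : Finset (Clopens R), ∀ y : C, (∀ U ∈ F, y.1 U = (x a).1 U) → y ∈ W a := fun a => by
    obtain ⟨W', hW', e⟩ := isOpen_induced_iff.1 (h1 a)
    obtain ⟨F, v, k1, k2⟩ := isOpen_pi_iff.1 hW' (x a).1 (e.ge (h2 a))
    exact ⟨F, fun y h => e.le (k2 fun U hU => (h U hU).symm ▸ (k1 U hU).2)⟩
  choose F hF using this
  have : Uncountable (ℕ → Bool) := by
    rw [← Cardinal.aleph0_lt_mk_iff]; simp [Cardinal.aleph0_lt_continuum]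
  obtain ⟨N, hN⟩ : ∃ N, ¬ {a | (F a).card ≤ N}.Countable := by
    by_contra! k
    exact not_countable_univ ((countable_iUnion k).mono fun a _ => mem_iUnion.2 ⟨(F a).card, le_refl (F a).card⟩)
  obtain ⟨g, -, hg⟩ := delta (fun a => (x a).1) N _ F hN fun _ h => h
  let D : ℕ → Set R := fun n => ⋂ U ∈ (F (g n)).filter fun U => (x (g n)).1 U = true, (U : Set R)
  obtain ⟨A, hA⟩ := split D (fun n => isClopen_biInter_finset fun U _ => U.isClopen) fun m n h =>
    disjoint_left.2 fun r r1 r2 => by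
      let y : C := ⟨fun U => if U ∈ F (g m) then (x (g m)).1 U else
        if U ∈ F (g n) then (x (g n)).1 U else false, fun G hG => ⟨r, mem_iInter₂.2 fun U hU => by
          have := hG U hU
          beta_reduce at this
          split_ifs at this with c1 c2
          · exact mem_iInter₂.1 r1 U (Finset.mem_filter.2 ⟨c1, this⟩)
          · exact mem_iInter₂.1 r2 U (Finset.mem_filter.2 ⟨c2, this⟩)⟩⟩
      refine disjoint_left.1 (h3 _ _ (hg m n h).1) (hF _ y fun U hU => if_pos hU)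
        (hF _ y fun U hU => ?_)
      simp only [y, hU, if_true]
      split_ifs with c
      · exact (hg m n h).2 U c hU
      · rfl
  have hi : Function.Injective g := Function.Injective.of_lt_imp_ne fun m n h => (hg m n h).1
  have key : ∀ U : Clopens R, pt ∈ U → ∀ᶠ n in atTop, ∃ r ∈ D n, r ∈ U := fun U hU => by
    have := (h4.comp hi.tendsto_cofinite).eventually ((opn U).mem_nhds (by simpa [top] using hU))
    rw [Nat.cofinite_eq_atTop] at this
    refine this.mono fun n hn => ?_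
    obtain ⟨r, hr⟩ := (x (g n)).2 (insert U ((F (g n)).filter fun U => (x (g n)).1 U = true))
      fun V hV => (Finset.mem_insert.1 hV).elim (fun e => e ▸ hn) fun k => (Finset.mem_filter.1 k).2
    rw [Finset.set_biInter_insert] at hr
    exact ⟨r, hr.2, hr.1⟩
  rcases (u pt).mem_or_compl_mem A with k | k
  · obtain ⟨n, hn⟩ := eventually_atTop.1 (key (hat A) k)
    obtain ⟨r, r1, r2⟩ := hn (2 * n + 1) (by omega)
    exact absurd ((hA _ r r1).1 r2) (by simp)
  · obtain ⟨n, hn⟩ := eventually_atTop.1 (key (hat Aᶜ) k)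
    obtain ⟨r, r1, r2⟩ := hn (2 * n) (by omega)
    exact Ultrafilter.compl_mem_iff_notMem.1 r2 ((hA _ r r1).2 (by simp))

end Pool.Agent.H30.Cen
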