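import Pool.Agent.H30.DiaB
import Pool.Agent.Lead.Gro1

set_option autoImplicit false

open Set Filter Topology Cardinal

namespace Pool.Agent.H30.Dia

open Pool.Agent.H30.Spl

variable {sp : Prop} {t : Lv}

lemma Tr.free (h : Tr False t) (Q : ℕ → Finset Nd → Finset Nd → Prop)
    (hQ : ∀ n (F u : Finset Nd), ∃ d, Q n F d ∧ ∀ x ∈ u, ∃ y ∈ d, Le t x y) :
    ∃ F d : ℕ → Finset Nd, (∀ n, Q n (F n) (d n)) ∧
      ∀ y, ∀ᶠ n in atTop, y ∈ F n ∨ ∃ x ∈ d n, Le t x y := by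
  classical
  choose δ hδ using fun (n : ℕ) (F : Finset Nd) => h.G {d | Q n F d} fun u _ => hQ n F u
  let c : Finset W1 → Set W1 := fun s =>
    ⋃ F ∈ {u : Finset Nd | (u : Set Nd) ⊆ Prod.fst ⁻¹' (s : Set W1)}, range fun n => δ n F
  have hc : ∀ s, (c s).Countable := fun s => by
    have h1 : (Prod.fst ⁻¹' (s : Set W1) : Set Nd).Countable :=
      (s.countable_toSet.prod (countable_univ (α := ℕ))).mono fun x hx => mk_mem_prod hx (mem_univ x.2)
    exact (cnt_finsets h1).biUnion fun u _ => countable_range _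
  obtain ⟨b, hb1, hb2⟩ := club isRegular_aleph_one aleph0_lt_aleph_one mk_W1.ge
    (fun i => (Cardinal.countable_iff_lt_aleph_one _).1 (W1_Iio i))
    (fun s => (Cardinal.countable_iff_lt_aleph_one _).1 (hc s)) (Classical.arbitrary W1)
  have key : ∀ n (F : Finset Nd), (∀ x ∈ F, x.1 < b) → δ n F < b := by
    intro n F hF
    refine hb2 (F.image Prod.fst) (fun x hx => ?_) (mem_biUnion (x := F) (fun x hx => ?_) ⟨n, rfl⟩)
    · obtain ⟨y, hy, rfl⟩ := Finset.mem_image.1 hx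
      exact hF y hy
    · exact Finset.mem_coe.2 (Finset.mem_image_of_mem _ hx)
  obtain ⟨a, ha⟩ := (cnt_below b).exists_eq_range ⟨(_, 0), hb1⟩
  have h1 : ∀ n, ∀ x ∈ (Finset.range n).image a, x.1 < b := fun n x hx => by
    obtain ⟨i, -, rfl⟩ := Finset.mem_image.1 hx
    exact (ha.ge (mem_range_self i) : a i ∈ {x : Nd | x.1 < b})
  have h2 : ∀ n, ∃ d, Q n ((Finset.range n).image a) d ∧ ∀ i < n, ∃ x ∈ d, Le t x (b, i) := by
    intro n
    obtain ⟨d, h2, -, h3⟩ := hδ n ((Finset.range n).image a) ((Finset.range n).image fun i => (b, i))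
      False.elim fun y hy => by
        obtain ⟨i, -, rfl⟩ := Finset.mem_image.1 hy
        exact (key n _ (h1 n)).le
    exact ⟨d, h2, fun i hi => h3 _ (Finset.mem_image_of_mem _ (Finset.mem_range.2 hi))⟩
  choose d hd1 hd2 using h2
  refine ⟨_, d, hd1, fun y => ?_⟩
  rcases lt_or_ge y.1 b with h3 | h3
  · obtain ⟨i, rfl⟩ := ha.le (show y ∈ {x : Nd | x.1 < b} from h3)
    filter_upwards [eventually_gt_atTop i] with n hn
    exact Or.inl (Finset.mem_image_of_mem _ (Finset.mem_range.2 hn))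
  · obtain ⟨l, hl⟩ := h.R y b h3
    filter_upwards [eventually_gt_atTop l] with n hn
    obtain ⟨x, hx, h4⟩ := hd2 n l hn
    exact Or.inr ⟨x, hx, h4.trans hl⟩

theorem Tr.gamma (h : Tr False t) (𝒰 : Set (Set (Sp t))) (h1 : ∀ U ∈ 𝒰, IsOpen U)
    (h2 : Set.univ ∉ 𝒰) (h3 : ∀ F : Finset (Sp t), ∃ U ∈ 𝒰, ↑F ⊆ U) :
    ∃ 𝒱 ⊆ 𝒰, 𝒱.Infinite ∧ ⋃₀ 𝒱 = Set.univ ∧ ∀ x, {V ∈ 𝒱 | x ∉ V}.Finite := by
  classical
  obtain ⟨F, d, h4, h5⟩ := h.free
    (fun _ F d => ∃ U ∈ 𝒰, (∀ y ∈ F, pt t y ∈ U) ∧ ∀ x ∈ d, cone t x ⊆ U) (by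
      intro _ F u
      obtain ⟨U, hU, h4⟩ := h3 ((F ∪ u).image (pt t))
      have h5 : ∀ y ∈ F ∪ u, pt t y ∈ U := fun y hy => h4 (Finset.mem_image_of_mem _ hy)
      have h6 : ∀ x, ∃ y, x ∈ u → Le t x y ∧ cone t y ⊆ U := fun x => by
        by_cases hx : x ∈ u
        · obtain ⟨y, a, -, b⟩ := h.pi x ((h1 U hU).mem_nhds (h5 x (Finset.mem_union_right _ hx)))
          exact ⟨y, fun _ => ⟨a, b⟩⟩
        · exact ⟨x, fun h => absurd h hx⟩
      choose w hw using h6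
      refine ⟨u.image w, ⟨U, hU, fun y hy => h5 y (Finset.mem_union_left _ hy), fun y hy => ?_⟩,
        fun x hx => ⟨w x, Finset.mem_image_of_mem _ hx, (hw x hx).1⟩⟩
      obtain ⟨x, hx, rfl⟩ := Finset.mem_image.1 hy
      exact (hw x hx).2)
  choose U hU1 hU2 hU3 using h4
  have h6 : ∀ z, ∀ᶠ n in atTop, z ∈ U n := fun z => by
    obtain ⟨y, rfl⟩ := pt_surj z
    filter_upwards [h5 y] with n hn
    rcases hn with hn | ⟨x, hx, hn⟩
    · exact hU2 n y hn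
    · exact hU3 n x hx (mem_cone.2 hn)
  refine ⟨range U, range_subset_iff.2 hU1, fun hf => ?_, eq_univ_of_forall fun z => ?_, fun z => ?_⟩
  · have := hf.to_subtype
    obtain ⟨V, hV⟩ := Finite.exists_infinite_fiber fun n => (⟨U n, mem_range_self n⟩ : range U)
    obtain ⟨_, m, rfl⟩ := V
    refine h2 (eq_univ_of_forall (fun z => ?_) ▸ hU1 m)
    obtain ⟨N, hN⟩ := eventually_atTop.1 (h6 z)
    obtain ⟨n, hn, hn'⟩ := (infinite_coe_iff.1 hV).exists_gt N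
    have e : U n = U m := congrArg Subtype.val hn
    exact e ▸ hN n hn'.le
  · obtain ⟨n, hn⟩ := (h6 z).exists
    exact ⟨_, mem_range_self n, hn⟩
  · obtain ⟨N, hN⟩ := eventually_atTop.1 (h6 z)
    refine ((finite_Iio N).image U).subset ?_
    rintro _ ⟨⟨n, rfl⟩, hn⟩
    exact ⟨n, not_le.1 fun h => hn (hN n h), rfl⟩

lemma near {P : Type} {A : Set (P → ℝ)} {g : P → ℝ} (hg : g ∈ closure A) {E : Set P} (hE : E.Finite)
    {ε : ℝ} (hε : 0 < ε) : ∃ f ∈ A, ∀ z ∈ E, |f z - g z| < ε := by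
  have ho : IsOpen {a : P → ℝ | ∀ z ∈ E, |a z - g z| < ε} := by
    simp only [Set.ofPred_forall]
    exact hE.isOpen_biInter fun i _ =>
      isOpen_lt ((continuous_apply _).sub continuous_const).abs continuous_const
  obtain ⟨a, h2, h3⟩ := mem_closure_iff.1 hg _ ho (fun i _ => by simpa using hε)
  exact ⟨a, h3, h2⟩

lemma Tr.fu (h : Tr False t) {P : Type} (j : P → Sp t) (hj : Function.Injective j) {A : Set (P → ℝ)}
    {g : P → ℝ} (hg : g ∈ closure A) (hA : ∀ ε > 0, ∀ x, ∃ E : Set P, E.Finite ∧ ∀ f ∈ A,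
      (∀ z ∈ E, |f z - g z| < ε) → ∃ x', Le t x x' ∧ ∀ w, j w ∈ cone t x' → |f w - g w| < 4 * ε) :
    ∃ f : ℕ → P → ℝ, (∀ n, f n ∈ A) ∧ Tendsto f atTop (𝓝 g) := by
  classical
  obtain ⟨F, d, h4, h5⟩ := h.free (fun n F d => ∃ f ∈ A,
      (∀ z, (∃ y ∈ F, pt t y = j z) → |f z - g z| < 4 * (1 / ((n : ℝ) + 1))) ∧
      ∀ x ∈ d, ∀ w, j w ∈ cone t x → |f w - g w| < 4 * (1 / ((n : ℝ) + 1))) (by
    intro n F u
    have hε : (0 : ℝ) < 1 / ((n : ℝ) + 1) := Nat.one_div_pos_of_nat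
    choose E hE1 hE2 using hA _ hε
    obtain ⟨f, hf, h1⟩ := near hg (E := (⋃ x ∈ u, E x) ∪ j ⁻¹' (pt t '' F))
      ((u.finite_toSet.biUnion fun x _ => hE1 x).union
        ((F.finite_toSet.image _).preimage hj.injOn)) hε
    have h2 : ∀ x, ∃ x', x ∈ u → Le t x x' ∧
        ∀ w, j w ∈ cone t x' → |f w - g w| < 4 * (1 / ((n : ℝ) + 1)) := fun x => by
      by_cases hx : x ∈ u
      · obtain ⟨x', h2⟩ := hE2 x f hf fun z hz => h1 z (Or.inl (mem_biUnion hx hz))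
        exact ⟨x', fun _ => h2⟩
      · exact ⟨x, fun h => absurd h hx⟩
    choose w hw using h2
    refine ⟨u.image w, ⟨f, hf, fun z hz => (h1 z (Or.inr hz)).trans (by linarith), fun y hy => ?_⟩,
      fun x hx => ⟨w x, Finset.mem_image_of_mem _ hx, (hw x hx).1⟩⟩
    obtain ⟨x, hx, rfl⟩ := Finset.mem_image.1 hy
    exact (hw x hx).2)
  choose f hf1 hf2 hf3 using h4
  refine ⟨f, hf1, tendsto_pi_nhds.2 fun z => Metric.tendsto_nhds.2 fun ε hε => ?_⟩
  obtain ⟨y, hy⟩ := pt_surj (j z)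
  filter_upwards [h5 y, tendsto_one_div_add_atTop_nhds_zero_nat.eventually_lt_const
    (show (0 : ℝ) < ε / 4 by positivity)] with n hn h6
  rw [Real.dist_eq]
  rcases hn with hn | ⟨x, hx, hn⟩
  · linarith [hf2 n z ⟨y, hn, hy⟩]
  · linarith [hf3 n x hx z (hy ▸ mem_cone.2 hn)]

/-- quasicontinuity -/
def QC {X : Type} [TopologicalSpace X] (f : X → ℝ) : Prop :=
  ∀ x (U : Set X) (V : Set ℝ), IsOpen U → x ∈ U → IsOpen V → f x ∈ V →
    ∃ W : Set X, IsOpen W ∧ W.Nonempty ∧ W ⊆ U ∧ f '' W ⊆ V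

lemma Tr.qc (h : Tr sp t) {f : Sp t → ℝ} (hf : QC f) (x : Nd) {ε : ℝ} (hε : 0 < ε) :
    ∃ x', Le t x x' ∧ ∀ w ∈ cone t x', |f w - f (pt t x)| < ε := by
  obtain ⟨W, h1, h2, h3, h4⟩ := hf (pt t x) _ (Metric.ball (f (pt t x)) ε) (cone_clopen t x).isOpen
    (pt_mem t x) Metric.isOpen_ball (Metric.mem_ball_self hε)
  obtain ⟨x', hx'⟩ := h.pi' h1 h2
  exact ⟨x', mem_cone.1 (h3 (hx' (pt_mem t x'))), fun w hw => h4 (mem_image_of_mem _ (hx' hw))⟩

theorem Tr.qp (h : Tr False t) : FrechetUrysohnSpace {f : Sp t → ℝ // QC f} := by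
  refine ⟨fun A g hg => ?_⟩
  have h1 : g.1 ∈ closure (Subtype.val '' A) :=
    image_closure_subset_closure_image continuous_subtype_val (mem_image_of_mem _ hg)
  obtain ⟨f, hf1, hf2⟩ := h.fu id Function.injective_id h1 fun ε hε x => by
    obtain ⟨x1, h2, h3⟩ := h.qc g.2 x hε
    refine ⟨{pt t x1}, finite_singleton _, ?_⟩
    rintro _ ⟨f, -, rfl⟩ h4
    obtain ⟨x2, h5, h6⟩ := h.qc f.2 x1 hε
    refine ⟨x2, h2.trans h5, fun w hw => ?_⟩
    have a1 := abs_lt.1 (h6 w hw)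
    have a2 := abs_lt.1 (h4 _ rfl)
    have a3 := abs_lt.1 (h3 _ (pt_mem t x1))
    have a4 := abs_lt.1 (h3 w (cone_mono h5 hw))
    rw [abs_lt]
    constructor <;> linarith [a1.1, a1.2, a2.1, a2.2, a3.1, a3.2, a4.1, a4.2]
  choose f' hf3 hf4 using hf1
  exact ⟨f', hf3, tendsto_subtype_rng.2 (by simpa only [hf4] using hf2)⟩

theorem Tr.groth (h : Tr False t) (Y : Set (Sp t)) : Lead.Gro.Groth Y := by
  have := h.firstCountable
  refine Lead.Gro.groth_iff.2 fun W hW A hA hR g hg => ?_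
  have h1 : Continuous g := by
    refine continuous_iff_seqContinuous.2 fun e y he => ?_
    obtain ⟨g', hg', h2⟩ := Lead.Gro.agree hR hg fun n => Nat.casesOn n y e
    have h3 : g ∘ e = g' ∘ e := funext fun n => (h2 (n + 1)).symm
    rw [h3, show g y = g' y from (h2 0).symm]
    exact ((hW hg' : Continuous g').tendsto y).comp he
  obtain ⟨f, hf1, hf2⟩ := h.fu (Subtype.val : Y → Sp t) Subtype.val_injective hg fun ε hε x => by
    by_cases h2 : ∃ z : Y, z.1 ∈ cone t x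
    swap
    · exact ⟨∅, finite_empty, fun f _ _ => ⟨x, Le.refl _ _, fun w hw => absurd ⟨w, hw⟩ h2⟩⟩
    obtain ⟨z, hz⟩ := h2
    refine ⟨{z}, finite_singleton _, fun f hf h3 => ?_⟩
    have h4 : IsOpen {w : Y | |f w - g w| < ε} :=
      isOpen_lt ((hW (hA hf) : Continuous f).sub h1).abs continuous_const
    obtain ⟨U, hU, h5⟩ := isOpen_induced_iff.1 h4
    have h6 : z.1 ∈ U := (h5.ge (h3 z rfl) : z ∈ Subtype.val ⁻¹' U)
    obtain ⟨y, hy⟩ := pt_surj z.1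
    rw [← hy] at h6 hz
    obtain ⟨x', h7, -, h8⟩ := h.pi y (hU.mem_nhds h6)
    refine ⟨x', (mem_cone.1 hz).trans h7, fun w hw => ?_⟩
    have h9 : |f w - g w| < ε := (h5.le (h8 hw) : w ∈ {w : Y | |f w - g w| < ε})
    linarith
  obtain ⟨g', hg', h2⟩ := hR f hf1
  have h3 : g' = g := eq_of_nhds_neBot (h2.clusterPt.mono hf2)
  exact h3 ▸ hg'

theorem Tr.whyburn (h : Tr sp t) (A : Set (Sp t)) (hA : IsOpen A) (z : Sp t) (hz : z ∈ closure A \ A) :
    ∃ B, IsOpen B ∧ B ⊆ A ∧ closure B \ A = {z} := by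
  obtain ⟨B, h1, h2, h3, h4⟩ := h.base z
  have h5 : ∀ n, ∃ x, cone t x ⊆ B n ∩ A := fun n =>
    h.pi' ((h2 n).isOpen.inter hA) (mem_closure_iff.1 hz.1 _ (h2 n).isOpen (h3 n))
  choose x hx using h5
  refine ⟨⋃ n, cone t (x n), isOpen_iUnion fun n => (cone_clopen _ _).isOpen,
    iUnion_subset fun n => (hx n).trans inter_subset_right, ?_⟩
  refine eq_singleton_iff_unique_mem.2 ⟨⟨mem_closure_iff_nhds.2 fun U hU => ?_, hz.2⟩, fun w hw => ?_⟩
  · obtain ⟨n, hn⟩ := h4 U hU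
    exact ⟨_, hn (hx n (pt_mem t _)).1, mem_iUnion.2 ⟨n, pt_mem t _⟩⟩
  · by_contra h5
    obtain ⟨n, hn⟩ := h4 {w}ᶜ (isOpen_compl_singleton.mem_nhds (Ne.symm h5))
    have h6 : IsClosed (B n ∪ ⋃ i ∈ Iio n, cone t (x i)) :=
      (h2 n).isClosed.union ((finite_Iio n).isClosed_biUnion fun i _ => (cone_clopen _ _).isClosed)
    have h7 : (⋃ n, cone t (x n)) ⊆ B n ∪ ⋃ i ∈ Iio n, cone t (x i) := iUnion_subset fun i => by
      rcases lt_or_ge i n with h7 | h7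
      · exact fun w hw => Or.inr (mem_biUnion (mem_Iio.2 h7) hw)
      · exact (((hx i).trans inter_subset_left).trans (h1 h7)).trans subset_union_left
    rcases closure_minimal h7 h6 hw.1 with h8 | h8
    · exact hn h8 rfl
    · obtain ⟨i, -, h9⟩ := mem_iUnion₂.1 h8
      exact hw.2 (hx i h9).2

theorem Tr.semireg (h : Tr sp t) :
    TopologicalSpace.IsTopologicalBasis {U : Set (Sp t) | U = interior (closure U)} := by
  refine TopologicalSpace.isTopologicalBasis_of_isOpen_of_nhds (fun U hU => hU ▸ isOpen_interior)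
    fun z U hz hU => ?_
  obtain ⟨B, -, h2, h3, h4⟩ := h.base z
  obtain ⟨n, hn⟩ := h4 U (hU.mem_nhds hz)
  refine ⟨B n, ?_, h3 n, hn⟩
  show B n = interior (closure (B n))
  rw [(h2 n).isClosed.closure_eq, (h2 n).isOpen.interior_eq]

end Pool.Agent.H30.Dia
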