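import Pool.Agent.H30.MooD
import Pool.Agent.H30.DiaC

set_option autoImplicit false

open Set Filter Topology Cardinal

namespace Pool.Agent.H30.Ch

open Pool.Agent.H30.Spl Pool.Agent.H30.Dia Pool.Agent.H30.Moo

abbrev K : Type := W1 → Bool

lemma nb1 {y : K} {U : Set K} (h : U ∈ 𝓝 y) : ∃ s : Finset W1, {z | ∀ ξ ∈ s, z ξ = y ξ} ⊆ U := by
  rw [nhds_pi, Filter.mem_pi] at h
  obtain ⟨I, hI, s, hs, hsV⟩ := h
  refine ⟨hI.toFinset, fun z hz => hsV fun ξ hξ => ?_⟩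
  rw [hz ξ (hI.mem_toFinset.2 hξ)]
  exact mem_of_mem_nhds (hs ξ)

lemma open1 (s : Finset W1) (y : K) : IsOpen {z : K | ∀ ξ ∈ s, z ξ = y ξ} := by
  simp only [Set.ofPred_forall]
  exact isOpen_biInter_finset fun ξ _ =>
    (isOpen_discrete {y ξ}).preimage (f := fun w : K => w ξ) (continuous_apply ξ)

instance : TopologicalSpace.SeparableSpace K := by
  classical
  refine ⟨range (px ⊥ ⊥), countable_range _, dense_iff_inter_open.2 fun U hU ⟨y, hy⟩ => ?_⟩
  obtain ⟨I, hI⟩ := nb1 (hU.mem_nhds hy)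
  obtain ⟨j, -, hj⟩ := priv (a := (Subtype.val : I → W1)) Subtype.val_injective 0
  refine ⟨_, hI fun ξ hξ => ?_, (Finset.univ.filter fun i : I => y i = true).image j, rfl⟩
  simp only [px, if_neg not_lt_bot]
  rw [Bool.eq_iff_iff, decide_eq_true_iff]
  constructor
  · rintro ⟨_, h4, h5⟩
    obtain ⟨i, hi, rfl⟩ := Finset.mem_image.1 h4
    rw [(hj i ⟨ξ, hξ⟩).1 h5] at hi
    exact (Finset.mem_filter.1 hi).2
  · exact fun h4 => ⟨_, Finset.mem_image_of_mem _ (Finset.mem_filter.2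
      ⟨Finset.mem_univ (⟨ξ, hξ⟩ : I), h4⟩), (hj ⟨ξ, hξ⟩ ⟨ξ, hξ⟩).2 rfl⟩

abbrev Bx (n : ℕ) : Type := Finset W1 × (Fin n → Finset W1)

open Classical in
def bx {n : ℕ} (p : Bx n) : Set (Fin n → K) := {y | ∀ i, ∀ ξ ∈ p.1, y i ξ = decide (ξ ∈ p.2 i)}

open Classical in
lemma bx_open {n : ℕ} (p : Bx n) : IsOpen (bx p) := by
  have : bx p = ⋂ i, (fun y => y i) ⁻¹' {z : K | ∀ ξ ∈ p.1, z ξ = decide (ξ ∈ p.2 i)} := by
    ext y
    simp [bx]
  rw [this]
  exact isOpen_iInter_of_finite fun i => (open1 _ _).preimage (continuous_apply i)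

lemma bx_nb {n : ℕ} {y : Fin n → K} {U : Set (Fin n → K)} (h : U ∈ 𝓝 y) : ∃ p, y ∈ bx p ∧ bx p ⊆ U := by
  classical
  rw [nhds_pi, Filter.mem_pi] at h
  obtain ⟨I, -, t, ht, htU⟩ := h
  choose s hs using fun i => nb1 (ht i)
  let S := Finset.univ.biUnion s
  have h1 : y ∈ bx (S, fun i => S.filter fun ξ => y i ξ = true) := fun i ξ hξ => by
    simp [show ξ ∈ S from hξ]
  refine ⟨_, h1, fun z hz => htU fun i _ => hs i fun ξ hξ => ?_⟩
  have h2 : ξ ∈ S := Finset.mem_biUnion.2 ⟨i, Finset.mem_univ _, hξ⟩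
  exact (hz i ξ h2).trans (h1 i ξ h2).symm

lemma cnt_box {n : ℕ} {G : Set (Fin n → K)} (h1 : IsOpen G) (h2 : Dense G) :
    ∃ V : ℕ → Bx n, (∀ k, bx (V k) ⊆ G) ∧ Dense (⋃ k, bx (V k)) := by
  obtain ⟨d, hd⟩ := TopologicalSpace.exists_dense_seq (Fin n → K)
  obtain ⟨y, hy⟩ := h2.nonempty
  have h3 : ∀ k, ∃ p, bx p ⊆ G ∧ (d k ∈ G → d k ∈ bx p) := fun k => by
    by_cases h : d k ∈ G
    · obtain ⟨p, a, b⟩ := bx_nb (h1.mem_nhds h)
      exact ⟨p, b, fun _ => a⟩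
    · obtain ⟨p, -, b⟩ := bx_nb (h1.mem_nhds hy)
      exact ⟨p, b, fun h' => absurd h' h⟩
  choose V h3 h4 using h3
  refine ⟨V, h3, (Dense.inter_of_isOpen_right hd h2 h1).mono ?_⟩
  rintro _ ⟨⟨k, rfl⟩, h⟩
  exact mem_iUnion.2 ⟨k, h4 k h⟩

structure Gen (x : W1 → K) : Prop where
  d1 : ∀ β, x β β = true
  d2 : ∀ β ξ, β < ξ → x β ξ = false
  den : ∀ U : Set K, IsOpen U → U.Nonempty → ∀ ε, ∃ β, ε < β ∧ x β ∈ U
  lus : ∀ (n : ℕ) (G : Set (Fin n → K)), IsOpen G → Dense G →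
    ∃ δ, ∀ b : Fin n → W1, Function.Injective b → (∀ i, δ ≤ b i) → x ∘ b ∈ G

lemma inf_W1 : Infinite W1 := by
  rw [infinite_iff, mk_W1]
  exact aleph0_lt_aleph_one.le

lemma surj_W1 {T : Type} [Nonempty T] (h : #T ≤ ℵ₁) : ∃ e : W1 → T, ∀ t ε, ∃ β, ε < β ∧ e β = t := by
  obtain ⟨e, he⟩ := enum (α := T × W1) (T := W1) (S := Set.univ) (P := Set.univ) (by
    simp only [mk_univ, mk_prod, lift_id, mk_W1]
    exact mul_le_of_le aleph0_lt_aleph_one.le h le_rfl)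
  refine ⟨fun β => (e β).1, fun t ε => by_contra fun h1 => ?_⟩
  obtain ⟨i, hi⟩ := W1_bdd ((W1_Iic ε).image fun β => (e β).2)
  obtain ⟨β, -, hβ⟩ := he (mem_univ (t, i))
  have h2 : β ≤ ε := not_lt.1 fun h2 => h1 ⟨β, h2, by simp only [hβ]⟩
  exact lt_irrefl i (hi i ⟨β, h2, by simp only [hβ]⟩)

theorem exists_gen (hc : (𝔠 : Cardinal.{0}) = ℵ₁) : ∃ x, Gen x := by
  classical
  have := inf_W1
  have c1 : #(Finset W1) = ℵ₁ := by rw [mk_finset_of_infinite, mk_W1]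
  obtain ⟨e1, he1⟩ := surj_W1 (T := Σ n : ℕ, ℕ → Bx (n + 1)) (by
    rw [mk_sigma]
    refine (sum_le_lift_mk_mul_iSup _).trans ?_
    simp only [mk_nat, lift_aleph0]
    refine mul_le_of_le aleph0_lt_aleph_one.le aleph0_lt_aleph_one.le (ciSup_le' fun n => ?_)
    simp only [mk_pi, prod_const, mk_prod, lift_id, c1, mk_nat, mk_fin]
    rw [← hc, power_natCast, power_nat_eq aleph0_le_continuum (by omega)]
    simp)
  obtain ⟨e2, he2⟩ := surj_W1 (T := Finset W1 × Finset W1) (by simp [c1])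
  let O : ∀ η : W1, (W1 → K) → Fin ((e1 η).1 + 1) × (Fin (e1 η).1 → W1) → Set K := fun η f p =>
    {y | Fin.insertNth (α := fun _ => K) p.1 y (f ∘ p.2) ∈ ⋃ k, bx ((e1 η).2 k)}
  obtain ⟨x, hx⟩ := wf_rec (T := W1) (β := K) (fun β f b => (b β = true ∧ ∀ ξ, β < ξ → b ξ = false) ∧
      (∀ ξ ∈ (e2 β).1, ξ < β → b ξ = decide (ξ ∈ (e2 β).2)) ∧
      ∀ η < β, ∀ p, (∀ j, p.2 j < β) → Dense (O η f p) →
        (∀ y z : K, (∀ ξ < β, y ξ = z ξ) → y ∈ O η f p → z ∈ O η f p) → b ∈ O η f p) (by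
      intro β f
      have h1 : Dense (⋂₀ {S | Dense S ∧ ∃ η < β, ∃ p, (∀ j, p.2 j < β) ∧ S = O η f p}) := by
        refine dense_sInter_of_isOpen ?_ ?_ fun S hS => hS.1
        · rintro _ ⟨-, η, -, p, -, rfl⟩
          exact (isOpen_iUnion fun k => bx_open _).preimage
            (Continuous.finInsertNth _ continuous_id continuous_const)
        · refine ((W1_Iio β).biUnion fun η _ => ((countable_univ.prod
            (countable_univ_pi fun _ => W1_Iio β)).image (O η f))).mono ?_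
          rintro _ ⟨-, η, h1, p, h2, rfl⟩
          exact mem_biUnion h1 ⟨p, ⟨mem_univ _, fun j _ => h2 j⟩, rfl⟩
      obtain ⟨y, h2, h3⟩ := h1.inter_open_nonempty _ (open1 (e2 β).1 fun ξ => decide (ξ ∈ (e2 β).2))
        ⟨fun ξ => decide (ξ ∈ (e2 β).2), fun _ _ => rfl⟩
      refine ⟨fun ξ => if ξ < β then y ξ else decide (ξ = β), ⟨by simp, fun ξ hξ => ?_⟩,
        fun ξ h4 h5 => ?_, fun η h4 p h5 h6 h7 => h7 y _ (fun ξ hξ => ?_) (h3 _ ⟨h6, η, h4, p, h5, rfl⟩)⟩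
      · simp [hξ.ne', not_lt.2 hξ.le]
      · simp only [if_pos h5]
        exact h2 ξ h4
      · simp only [if_pos hξ]) (by
      intro β f g b e h
      refine ⟨h.1, h.2.1, fun η h1 p h2 => ?_⟩
      have h3 : O η g p = O η f p := by
        simp only [O, show g ∘ p.2 = f ∘ p.2 from funext fun j => (e _ (h2 j)).symm]
      rw [h3]
      exact h.2.2 η h1 p h2)
  refine ⟨x, fun β => (hx β).1.1, fun β => (hx β).1.2, fun U hU ⟨y, hy⟩ ε => ?_, fun n => ?_⟩
  · obtain ⟨s, hs⟩ := nb1 (hU.mem_nhds hy)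
    obtain ⟨i, hi⟩ := W1_bdd (s.countable_toSet.insert ε)
    obtain ⟨β, h1, h2⟩ := he2 (s, s.filter fun ξ => y ξ = true) i
    refine ⟨β, (hi _ (mem_insert _ _)).trans h1, hs fun ξ hξ => ?_⟩
    have h3 := (hx β).2.1
    rw [h2] at h3
    rw [h3 ξ hξ ((hi _ (mem_insert_of_mem _ hξ)).trans h1)]
    simp [hξ]
  induction n with
  | zero =>
    intro G _ hG
    obtain ⟨y, hy⟩ := hG.nonempty
    exact ⟨⊥, fun b _ _ => by rwa [Subsingleton.elim (x ∘ b) y]⟩
  | succ n ih =>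
    intro G h1 h2
    obtain ⟨V, h3, h4⟩ := cnt_box h1 h2
    obtain ⟨γ, hγ⟩ := W1_bdd (countable_iUnion fun k => (V k).1.countable_toSet)
    obtain ⟨η, -, hη⟩ := he1 ⟨n, V⟩ ⊥
    have h5 : ∀ q : Fin (n + 1) × Finset W1 × Finset W1, ∃ δ, ∀ b : Fin n → W1, Function.Injective b →
        (∀ i, δ ≤ b i) → ∃ y : K, (∀ ξ ∈ q.2.1, y ξ = decide (ξ ∈ q.2.2)) ∧
          Fin.insertNth (α := fun _ => K) q.1 y (x ∘ b) ∈ ⋃ k, bx (V k) := by
      intro q
      refine ih {w | ∃ y : K, (∀ ξ ∈ q.2.1, y ξ = decide (ξ ∈ q.2.2)) ∧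
          Fin.insertNth (α := fun _ => K) q.1 y w ∈ ⋃ k, bx (V k)} ?_
        (dense_iff_inter_open.2 fun U hU ⟨w, hw⟩ => ?_)
      · refine isOpen_iff_mem_nhds.2 fun w ⟨y, a, b⟩ => mem_of_superset
          (((isOpen_iUnion fun k => bx_open (V k)).preimage (f := fun w : Fin n → K =>
            Fin.insertNth (α := fun _ => K) q.1 y w)
            (Continuous.finInsertNth _ continuous_const continuous_id)).mem_nhds b) fun w' hw' => ⟨y, a, hw'⟩
      · obtain ⟨z, ⟨a, b⟩, c⟩ := h4.inter_open_nonempty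
          ((fun z => z q.1) ⁻¹' {y : K | ∀ ξ ∈ q.2.1, y ξ = decide (ξ ∈ q.2.2)} ∩
            (fun z j => z (q.1.succAbove j)) ⁻¹' U)
          (((open1 _ _).preimage (continuous_apply _)).inter (hU.preimage (by fun_prop)))
          ⟨Fin.insertNth (α := fun _ => K) q.1 (fun ξ => decide (ξ ∈ q.2.2)) w, by simp, by simpa using hw⟩
        exact ⟨_, b, z q.1, a, (Fin.insertNth_self_removeNth q.1 z).symm ▸ c⟩
    choose δ hδ using h5
    obtain ⟨ε, hε⟩ := W1_bdd ((((countable_univ.prod ((cnt_finsets (W1_Iio γ)).prod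
      (cnt_finsets (W1_Iio γ)))).image δ).insert γ).insert η)
    refine ⟨ε, fun b hb h5 => iUnion_subset h3 ?_⟩
    obtain ⟨i, -, hi⟩ := Finset.univ.exists_max_image b Finset.univ_nonempty
    have h6 : ∀ y z : K, (∀ ξ < γ, y ξ = z ξ) →
        Fin.insertNth (α := fun _ => K) i y (x ∘ i.removeNth b) ∈ ⋃ k, bx (V k) →
        Fin.insertNth (α := fun _ => K) i z (x ∘ i.removeNth b) ∈ ⋃ k, bx (V k) := by
      intro y z e h
      obtain ⟨k, hk⟩ := mem_iUnion.1 h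
      refine mem_iUnion.2 ⟨k, fun j ξ hξ => ?_⟩
      rw [← hk j ξ hξ]
      refine i.succAboveCases ?_ (fun j => ?_) j
      · simp only [Fin.insertNth_apply_same]
        exact (e ξ (hγ _ (mem_iUnion.2 ⟨k, hξ⟩))).symm
      · simp only [Fin.insertNth_apply_succAbove]
    have h7 := (hx (b i)).2.2 η ((hε _ (mem_insert _ _)).trans_le (h5 i))
    simp only [O] at h7
    rw [hη] at h7
    have h8 := h7 (i, i.removeNth b) (fun j => lt_of_le_of_ne (hi _ (Finset.mem_univ _))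
      (hb.ne (i.succAbove_ne j))) (dense_iff_inter_open.2 fun U hU ⟨y, hy⟩ => ?_) fun y z e =>
        h6 y z fun ξ hξ => e ξ ((hξ.trans (hε _ (Or.inr (Or.inl rfl)))).trans_le (h5 i))
    · rwa [mem_setOf_eq, show x ∘ i.removeNth b = i.removeNth (x ∘ b) from rfl,
        show x (b i) = (x ∘ b) i from rfl, Fin.insertNth_self_removeNth] at h8
    obtain ⟨s, hs⟩ := nb1 (hU.mem_nhds hy)
    let s' := s.filter (· < γ)
    have h9 : (s' : Set W1) ⊆ Iio γ := fun ξ hξ => (Finset.mem_filter.1 hξ).2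
    obtain ⟨z, a, c⟩ := hδ (i, s', s'.filter fun ξ => y ξ = true) (i.removeNth b)
      (hb.comp i.succAbove_right_injective) fun j => (hε _ (Or.inr (Or.inr
        ⟨(i, s', s'.filter fun ξ => y ξ = true), ⟨mem_univ _, h9,
        (Finset.coe_subset.2 (Finset.filter_subset _ _)).trans h9⟩, rfl⟩))).le.trans (h5 _)
    refine ⟨fun ξ => if ξ < γ then z ξ else y ξ, hs fun ξ hξ => ?_,
      h6 z _ (fun ξ hξ => by simp only [if_pos hξ]) c⟩
    by_cases h : ξ < γ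
    · have h10 : ξ ∈ s' := Finset.mem_filter.2 ⟨hξ, h⟩
      simp only [if_pos h]
      rw [a ξ h10]
      simp [h10]
    · simp only [if_neg h]

lemma Gen.cov {x : W1 → K} (h : Gen x) (n : ℕ) : ∀ {ι : Type} (V : ι → Set (Fin n → K)),
    (∀ a, IsOpen (V a)) → ∃ t : Set ι, t.Countable ∧
      ∀ b : Fin n → W1, x ∘ b ∈ ⋃ a, V a → x ∘ b ∈ ⋃ a ∈ t, V a := by
  have key : ∀ {m : ℕ} {ι : Type} (V : ι → Set (Fin m → K)), (∀ a, IsOpen (V a)) →
      ∃ t : Set ι, t.Countable ∧ (⋃ a, V a) ⊆ closure (⋃ a ∈ t, V a) := by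
    intro m ι V hV
    obtain ⟨d, hd⟩ := TopologicalSpace.exists_dense_seq (Fin m → K)
    have h1 : ∀ k, ∃ t : Set ι, t.Countable ∧ (d k ∈ ⋃ a, V a → d k ∈ ⋃ a ∈ t, V a) := fun k => by
      by_cases h1 : d k ∈ ⋃ a, V a
      · obtain ⟨a, ha⟩ := mem_iUnion.1 h1
        exact ⟨{a}, countable_singleton _, fun _ => by simpa using ha⟩
      · exact ⟨∅, countable_empty, fun h => absurd h h1⟩
    choose t h1 h2 using h1
    refine ⟨⋃ k, t k, countable_iUnion h1,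
      (Dense.open_subset_closure_inter hd (isOpen_iUnion hV)).trans (closure_mono ?_)⟩
    rintro _ ⟨h3, k, rfl⟩
    exact biUnion_subset_biUnion_left (subset_iUnion t k) (h2 k h3)
  induction n with
  | zero =>
    intro ι V hV
    obtain ⟨t, h1, h2⟩ := key V hV
    exact ⟨t, h1, fun b hb => by simpa using h2 hb⟩
  | succ n ih =>
    intro ι V hV
    obtain ⟨t, h1, h2⟩ := key V hV
    obtain ⟨δ, hδ⟩ := h.lus _ ((⋃ a ∈ t, V a) ∪ (closure (⋃ a, V a))ᶜ)
      ((isOpen_biUnion fun a _ => hV a).union isClosed_closure.isOpen_compl) (fun z => by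
        by_cases hz : z ∈ closure (⋃ a, V a)
        · exact closure_mono subset_union_left (closure_minimal h2 isClosed_closure hz)
        · exact subset_closure (Or.inr hz))
    choose t1 a1 a2 using fun p : Fin (n + 1) × W1 => ih
      (fun a => (fun w : Fin n → K => Fin.insertNth (α := fun _ => K) p.1 (x p.2) w) ⁻¹' V a)
      fun a => (hV a).preimage (Continuous.finInsertNth _ continuous_const continuous_id)
    choose t2 b1 b2 using fun p : Fin (n + 1) × Fin n => ih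
      (fun a => (fun w : Fin n → K => Fin.insertNth (α := fun _ => K) p.1 (w p.2) w) ⁻¹' V a)
      fun a => (hV a).preimage (Continuous.finInsertNth p.1 (continuous_apply p.2) continuous_id)
    refine ⟨t ∪ ((⋃ p ∈ Set.univ ×ˢ Iio δ, t1 p) ∪ ⋃ p, t2 p), h1.union
      (((countable_univ.prod (W1_Iio δ)).biUnion fun p _ => a1 p).union (countable_iUnion b1)),
      fun b hb => ?_⟩
    have e : ∀ i : Fin (n + 1),
        Fin.insertNth (α := fun _ => K) i (x (b i)) (x ∘ i.removeNth b) = x ∘ b := fun i =>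
      Fin.insertNth_self_removeNth i (x ∘ b)
    by_cases c1 : ∃ i, b i < δ
    · obtain ⟨i, hi⟩ := c1
      obtain ⟨a, h3, h4⟩ := mem_iUnion₂.1 (a2 (i, b i) (i.removeNth b) (by
        rwa [← preimage_iUnion, mem_preimage, e]))
      rw [mem_preimage, e] at h4
      exact mem_biUnion (Or.inr (Or.inl (mem_biUnion (x := (i, b i)) ⟨mem_univ _, hi⟩ h3))) h4
    by_cases c2 : Function.Injective b
    · rcases hδ b c2 (fun i => not_lt.1 fun h => c1 ⟨i, h⟩) with h3 | h3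
      · exact biUnion_subset_biUnion_left subset_union_left h3
      · exact absurd (subset_closure hb) h3
    · simp only [Function.Injective, not_forall] at c2
      obtain ⟨i, i', h3, h4⟩ := c2
      obtain ⟨j, rfl⟩ := Fin.exists_succAbove_eq (Ne.symm h4)
      have e' : Fin.insertNth (α := fun _ => K) i ((x ∘ i.removeNth b) j) (x ∘ i.removeNth b) =
          x ∘ b := by
        rw [← e i, h3]
        rfl
      obtain ⟨a, h5, h6⟩ := mem_iUnion₂.1 (b2 (i, j) (i.removeNth b) (by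
        rwa [← preimage_iUnion, mem_preimage, e']))
      rw [mem_preimage, e'] at h6
      exact mem_biUnion (Or.inr (Or.inr (mem_iUnion.2 ⟨_, h5⟩))) h6

theorem Gen.hl {x : W1 → K} (h : Gen x) (n : ℕ) : HereditarilyLindelofSpace (Fin n → range x) := by
  refine ⟨fun s _ => isLindelof_of_countable_subcover fun {ι} U hU hs => ?_⟩
  have h1 : IsInducing (Pi.map fun (_ : Fin n) (z : range x) => z.1) :=
    IsInducing.piMap fun _ => IsInducing.subtypeVal
  choose V h2 h3 using fun a => h1.isOpen_iff.1 (hU a)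
  obtain ⟨t, h4, h5⟩ := h.cov n V h2
  refine ⟨t, h4, fun z hz => ?_⟩
  choose b hb using fun i => (z i).2
  have e : x ∘ b = Pi.map (fun (_ : Fin n) (z : range x) => z.1) z := funext hb
  obtain ⟨a, ha⟩ := mem_iUnion.1 (hs hz)
  obtain ⟨a', h6, h7⟩ := mem_iUnion₂.1 (h5 b (mem_iUnion.2 ⟨a, by rwa [e, ← mem_preimage, h3]⟩))
  exact mem_biUnion h6 (by rwa [e, ← mem_preimage, h3] at h7)

end Pool.Agent.H30.Ch
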