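import Pool.Agent.H30.ChA

set_option autoImplicit false

open Set Filter Topology Cardinal

namespace Pool.Agent.H30.Ch

open Pool.Agent.H30.Spl Pool.Agent.H30.Dia Pool.Agent.H30.Moo

section Zenor

variable {A C μ : Type} [TopologicalSpace A] [TopologicalSpace C] [Fintype μ] {φ : C → μ → A → ℝ}

def Rel (φ : C → μ → A → ℝ) (p : Σ n : ℕ, μ → Fin n → ℚ × ℚ) (a : Fin p.1 → A) (c : C) : Prop :=
  ∀ j i, φ c j (a i) ∈ Ioo ((p.2 j i).1 : ℝ) (p.2 j i).2

omit [TopologicalSpace A] in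
lemma rel_nb (h : IsInducing φ) {c : C} {U : Set C} (hU : U ∈ 𝓝 c) :
    ∃ p a, Rel φ p a c ∧ {c' | Rel φ p a c'} ⊆ U := by
  classical
  obtain ⟨V, hV, hVU⟩ := (mem_comap.1 (h.nhds_eq_comap c ▸ hU))
  rw [nhds_pi, Filter.mem_pi] at hV
  obtain ⟨I, -, t, ht, htV⟩ := hV
  simp only [nhds_pi, Filter.mem_pi] at ht
  choose s hs u hu hut using ht
  let S : Finset A := Finset.univ.biUnion fun j => (hs j).toFinset
  have h1 : ∀ j a, ∃ q : ℚ × ℚ, φ c j a ∈ Ioo (q.1 : ℝ) q.2 ∧ Ioo (q.1 : ℝ) q.2 ⊆ u j a := by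
    intro j a
    obtain ⟨l, r, h1, h2⟩ := mem_nhds_iff_exists_Ioo_subset.1 (hu j a)
    obtain ⟨q1, a1, a2⟩ := exists_rat_btwn h1.1
    obtain ⟨q2, b1, b2⟩ := exists_rat_btwn h1.2
    exact ⟨(q1, q2), ⟨a2, b1⟩, (Ioo_subset_Ioo a1.le b2.le).trans h2⟩
  choose q h1 h2 using h1
  refine ⟨⟨S.card, fun j i => q j (S.equivFin.symm i)⟩, fun i => S.equivFin.symm i, fun j i => h1 _ _,
    fun c' hc => hVU (htV fun j _ => hut j fun a ha => ?_)⟩
  have h3 : a ∈ S := Finset.mem_biUnion.2 ⟨j, Finset.mem_univ _, (hs j).mem_toFinset.2 ha⟩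
  have h4 := hc j (S.equivFin ⟨a, h3⟩)
  simp only [Equiv.symm_apply_apply] at h4
  exact h2 j a h4

omit [TopologicalSpace C] in
lemma rel_open (h : ∀ c j, Continuous (φ c j)) (p : Σ n : ℕ, μ → Fin n → ℚ × ℚ) (c : C) :
    IsOpen {a | Rel φ p a c} := by
  simp only [Rel, Set.ofPred_forall]
  exact isOpen_iInter_of_finite fun j => isOpen_iInter_of_finite fun i =>
    isOpen_Ioo.preimage ((h c j).comp (continuous_apply i))

theorem zenor1 (h : IsInducing φ) (h' : ∀ c j, Continuous (φ c j))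
    (hA : ∀ n, HereditarilyLindelofSpace (Fin n → A)) (E : Set C) :
    ∃ D ⊆ E, D.Countable ∧ E ⊆ closure D := by
  have h1 : ∀ p : Σ n : ℕ, μ → Fin n → ℚ × ℚ, ∃ D ⊆ E, D.Countable ∧
      ∀ a, ∀ c ∈ E, Rel φ p a c → ∃ c' ∈ D, Rel φ p a c' := by
    intro p
    have := hA p.1
    obtain ⟨t, h1, h2⟩ := (HereditarilyLindelofSpace.isLindelof (⋃ c : E, {a | Rel φ p a c.1})).elim_countable_subcover
      (fun c : E => {a | Rel φ p a c.1}) (fun c => rel_open h' p c) Subset.rfl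
    refine ⟨Subtype.val '' t, Subtype.coe_image_subset _ _, h1.image _, fun a c hc h3 => ?_⟩
    obtain ⟨c', h4, h5⟩ := mem_iUnion₂.1 (h2 (mem_iUnion.2 ⟨⟨c, hc⟩, h3⟩))
    exact ⟨c', mem_image_of_mem _ h4, h5⟩
  choose D h1 h2 h3 using h1
  refine ⟨⋃ p, D p, iUnion_subset h1, countable_iUnion h2, fun c hc => mem_closure_iff_nhds.2
    fun U hU => ?_⟩
  obtain ⟨p, a, h4, h5⟩ := rel_nb h hU
  obtain ⟨c', h6, h7⟩ := h3 p a c hc h4
  exact ⟨c', h5 h7, mem_iUnion.2 ⟨p, h6⟩⟩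

theorem zenor2 (h : IsInducing φ) (h' : ∀ c j, Continuous (φ c j))
    (hA : ∀ n (E : Set (Fin n → A)), ∃ D ⊆ E, D.Countable ∧ E ⊆ closure D) :
    HereditarilyLindelofSpace C := by
  refine ⟨fun s _ => isLindelof_of_countable_subcover fun {ι} U hU hs => ?_⟩
  choose D h1 h2 h3 using fun p : Σ n : ℕ, μ → Fin n → ℚ × ℚ =>
    hA p.1 {a | ∃ i, {c | Rel φ p a c} ⊆ U i}
  have h4 : ∀ p (a : D p), ∃ i, {c | Rel φ p a.1 c} ⊆ U i := fun p a => h1 p a.2
  choose f hf using h4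
  refine ⟨⋃ p, range (f p), countable_iUnion fun p => ?_, fun c hc => ?_⟩
  · have := (h2 p).to_subtype
    exact countable_range _
  · obtain ⟨i, hi⟩ := mem_iUnion.1 (hs hc)
    obtain ⟨p, a, h4, h5⟩ := rel_nb h ((hU i).mem_nhds hi)
    obtain ⟨a', h6, h7⟩ := mem_closure_iff.1 (h3 p ⟨i, h5⟩) _ (rel_open h' p c) h4
    exact mem_biUnion (mem_iUnion.2 ⟨p, ⟨a', h7⟩, rfl⟩) (hf p ⟨a', h7⟩ h6)

end Zenor

theorem cp_hs {A : Type} [TopologicalSpace A] (hA : ∀ n, HereditarilyLindelofSpace (Fin n → A))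
    (E : Set {f : A → ℝ // Continuous f}) : ∃ D ⊆ E, D.Countable ∧ E ⊆ closure D :=
  zenor1 (φ := fun c (_ : Unit) => c.1) (IsInducing.of_comp (g := fun f => f ()) (by fun_prop)
    (by fun_prop) IsInducing.subtypeVal) (fun c _ => c.2) hA E

noncomputable def ev (ξ : W1) (y : K) : ℝ := if y ξ then 1 else 0

lemma ev_cont (ξ : W1) : Continuous (ev ξ) :=
  (continuous_of_discreteTopology (f := fun b : Bool => if b then (1 : ℝ) else 0)).comp
    (continuous_apply ξ)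

theorem Gen.not_seq {x : W1 → K} (h : Gen x) {D : Set (range x → ℝ)} (hD : D.Countable)
    (hc : ∀ f ∈ D, Continuous f) : ∃ g : range x → ℝ, Continuous g ∧
      ∀ u : ℕ → range x → ℝ, (∀ n, u n ∈ D) → ¬ Tendsto u atTop (𝓝 g) := by
  classical
  have h1 : ∀ f ∈ D, ∃ γ, ∀ β, ∃ (s : Finset W1) (y : K), (∀ ξ ∈ s, ξ < γ ∧ x β ξ = y ξ) ∧
      ∀ β', (∀ ξ ∈ s, x β' ξ = y ξ) → |f ⟨_, β', rfl⟩ - f ⟨_, β, rfl⟩| < 1 / 3 := by
    intro f hf
    have h1 : ∀ β, ∃ s : Finset W1, ∀ β', (∀ ξ ∈ s, x β' ξ = x β ξ) →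
        |f ⟨_, β', rfl⟩ - f ⟨_, β, rfl⟩| < 1 / 6 := by
      intro β
      obtain ⟨V, a, b⟩ := (mem_nhds_induced _ _ _).1 ((isOpen_lt ((hc f hf).sub continuous_const).abs
        continuous_const).mem_nhds (show |f ⟨_, β, rfl⟩ - f ⟨_, β, rfl⟩| < 1 / 6 by norm_num))
      obtain ⟨s, hs⟩ := nb1 a
      exact ⟨s, fun β' h => b (a := ⟨_, β', rfl⟩) (hs h)⟩
    choose s hs using h1
    obtain ⟨t, a, b⟩ := h.cov 1 (fun β => (fun w => w 0) ⁻¹' {z : K | ∀ ξ ∈ s β, z ξ = x β ξ})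
      fun β => (open1 _ _).preimage (continuous_apply 0)
    obtain ⟨γ, hγ⟩ := W1_bdd (a.biUnion fun β _ => (s β).countable_toSet)
    refine ⟨γ, fun β => ?_⟩
    obtain ⟨β0, c, d⟩ := mem_iUnion₂.1 (b (fun _ => β) (mem_iUnion.2 ⟨β, fun _ _ => rfl⟩))
    refine ⟨s β0, x β0, fun ξ hξ => ⟨hγ _ (mem_biUnion c hξ), d ξ hξ⟩, fun β' e => ?_⟩
    have e1 := abs_lt.1 (hs β0 β' e)
    have e2 := abs_lt.1 (hs β0 β d)
    rw [abs_lt]
    constructor <;> linarith [e1.1, e1.2, e2.1, e2.2]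
  choose! γ hγ using h1
  obtain ⟨ξ, hξ⟩ := W1_bdd (hD.image γ)
  refine ⟨fun z => ev ξ z.1, (ev_cont ξ).comp continuous_subtype_val, fun u hu ht => ?_⟩
  have h2 : ∀ β, ∀ᶠ n in atTop, |u n ⟨_, β, rfl⟩ - ev ξ (x β)| < 1 / 3 := fun β =>
    Metric.tendsto_nhds.1 (tendsto_pi_nhds.1 ht ⟨_, β, rfl⟩) _ (by norm_num)
  let A : ℕ × Bool → Set W1 := fun p =>
    {β | x β ξ = p.2 ∧ ∀ n, p.1 ≤ n → |u n ⟨_, β, rfl⟩ - ev ξ (x β)| < 1 / 3}
  have h3 : ∃ p, (interior (closure (x '' A p))).Nonempty := by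
    by_contra h3
    have h4 : ∀ p, ∃ δ, ∀ β, δ ≤ β → β ∉ A p := fun p => by
      obtain ⟨δ, hδ⟩ := h.lus 1 ((fun w => w 0) ⁻¹' (closure (x '' A p))ᶜ)
        (isClosed_closure.isOpen_compl.preimage (continuous_apply 0))
        ((interior_eq_empty_iff_dense_compl.1 (not_nonempty_iff_eq_empty.1 fun h => h3 ⟨p, h⟩)).preimage
          (isOpenMap_eval 0))
      exact ⟨δ, fun β a b => hδ (fun _ => β) (Function.injective_of_subsingleton _) (fun _ => a)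
        (subset_closure (mem_image_of_mem _ b))⟩
    choose δ hδ using h4
    obtain ⟨β, hβ⟩ := W1_bdd (countable_range δ)
    obtain ⟨m, hm⟩ := eventually_atTop.1 (h2 β)
    exact hδ (m, x β ξ) β (hβ _ ⟨_, rfl⟩).le ⟨rfl, hm⟩
  obtain ⟨⟨m, b⟩, y, hy⟩ := h3
  have h4 : Continuous fun z : K => Function.update z ξ b := continuous_id.update ξ continuous_const
  have h5 : y ξ = b := closure_minimal (t := {z : K | z ξ = b}) (image_subset_iff.2 fun β hβ => hβ.1)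
    (isClosed_eq (continuous_apply ξ) continuous_const) (interior_subset hy)
  obtain ⟨β, -, h6, h7⟩ := h.den ((fun z : K => Function.update z ξ b) ⁻¹'
    interior (closure (x '' A (m, b))) ∩ {z | ∀ η ∈ ({ξ} : Finset W1), z η = (fun _ => !b) η})
    ((isOpen_interior.preimage h4).inter (open1 _ _))
    ⟨Function.update y ξ (!b), by simpa [← h5] using hy, by simp⟩ ⊥
  have h8 : x β ξ = !b := h7 ξ (by simp)
  obtain ⟨n, h9, h10⟩ := ((h2 β).and (eventually_ge_atTop m)).exists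
  obtain ⟨s, w, h11, h12⟩ := hγ _ (hu n) β
  obtain ⟨_, ⟨h13, -⟩, α, h14, rfl⟩ := mem_closure_iff.1 (interior_subset h6) _
    ((open1 s w).inter isOpen_univ) ⟨fun η hη => by
      exact (Function.update_of_ne ((h11 η hη).1.trans (hξ _ (mem_image_of_mem _ (hu n)))).ne _ _).trans
        (h11 η hη).2, mem_univ _⟩
  have a1 := abs_lt.1 (h12 α h13)
  have a2 := abs_lt.1 (h14.2 n h10)
  have a3 := abs_lt.1 h9
  have a4 : x α ξ = b := h14.1
  simp only [ev, h8, a4] at a2 a3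
  cases b <;> simp at a2 a3 <;> linarith [a1.1, a1.2, a2.1, a2.2, a3.1, a3.2]

lemma closed_ev {S : Type} [TopologicalSpace S] {ρ : S → ℝ} (h1 : Continuous ρ)
    (h2 : Function.Injective ρ) :
    IsClosed (range fun (s : S) (f : {f : S → ℝ // Continuous f}) => f.1 s) := by
  refine isClosed_of_closure_subset fun z hz => ?_
  have key : ∀ (f : S → ℝ) (hf : Continuous f) (g : {f : S → ℝ // Continuous f}) (c : ℝ), 0 < c →
      (∀ s, 0 < f s) → (∀ s, |g.1 s - z g| < c → f s ≤ |ρ s - z ⟨ρ, h1⟩|) → False := by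
    intro f hf g c hc h3 h4
    let F : {f : S → ℝ // Continuous f} := ⟨fun s => (f s)⁻¹, hf.inv₀ fun s => (h3 s).ne'⟩
    have h5 : 0 < |z F| + 1 := by positivity
    obtain ⟨_, ⟨s, rfl⟩, h6⟩ := near hz (E := {F, g, ⟨ρ, h1⟩}) (toFinite _)
      (lt_min (lt_min hc one_pos) (inv_pos.2 h5))
    have a1 := abs_lt.1 ((h6 F (by simp)).trans_le ((min_le_left _ _).trans (min_le_right _ _)))
    have a2 := h4 s ((h6 g (by simp)).trans_le ((min_le_left _ _).trans (min_le_left _ _)))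
    have a3 := a2.trans_lt ((h6 ⟨ρ, h1⟩ (by simp)).trans_le (min_le_right _ _))
    have a4 : |z F| + 1 < (f s)⁻¹ := (lt_inv_comm₀ h5 (h3 s)).2 a3
    have a5 : (f s)⁻¹ - z F < 1 := a1.2
    linarith [le_abs_self (z F)]
  obtain ⟨s0, hs⟩ : ∃ s0, ρ s0 = z ⟨ρ, h1⟩ := by
    by_contra h3
    exact key (fun s => |ρ s - z ⟨ρ, h1⟩|) (by fun_prop) ⟨ρ, h1⟩ 1 one_pos
      (fun s => abs_pos.2 (sub_ne_zero.2 fun h => h3 ⟨s, h⟩)) fun _ _ => le_rfl
  refine ⟨s0, funext fun g => by_contra fun h3 => ?_⟩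
  have h4 : 0 < |g.1 s0 - z g| / 2 := half_pos (abs_pos.2 (sub_ne_zero.2 h3))
  have h5 := g.2
  refine key (fun s => |ρ s - z ⟨ρ, h1⟩| + max 0 (|g.1 s0 - z g| / 2 - |g.1 s - g.1 s0|)) (by fun_prop)
    g _ h4 (fun s => ?_) fun s h6 => ?_
  · by_cases h6 : s = s0
    · subst h6
      exact add_pos_of_nonneg_of_pos (abs_nonneg _) (lt_max_of_lt_right (by simpa using h4))
    · exact add_pos_of_pos_of_nonneg (abs_pos.2 (sub_ne_zero.2 fun h => h6 (h2 (h.trans hs.symm))))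
        (le_max_left _ _)
  · have h7 := abs_sub_le (g.1 s0) (g.1 s) (z g)
    rw [abs_sub_comm (g.1 s0) (g.1 s)] at h7
    rw [max_eq_left (by linarith), add_zero]

theorem Gen.no_lind {x : W1 → K} (h : Gen x) : ∃ (X : Type) (_ : TopologicalSpace X), T35Space X ∧
    (∀ n : ℕ, HereditarilyLindelofSpace (Fin n → X)) ∧
    ∀ Z : Set (X → ℝ), {f : X → ℝ | Continuous f} ⊆ Z → ¬ IsLindelof Z := by
  obtain ⟨r⟩ : Nonempty (W1 ↪ ℝ) := by
    rw [← Cardinal.le_def, mk_W1, mk_real]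
    exact aleph_one_le_continuum
  let ψ : W1 → Bool → range x → ℝ := fun ξ b z => if b then ev ξ z.1 else r ξ
  have h1 : ∀ ξ b, Continuous (ψ ξ b) := fun ξ b => by
    cases b
    · exact continuous_const
    · exact (ev_cont ξ).comp continuous_subtype_val
  have h0 : ∀ b z, Continuous fun s : range ψ => s.1 b z := fun b z =>
    (continuous_apply z).comp ((continuous_apply b).comp continuous_subtype_val)
  have h2 : ∀ n (E : Set (Fin n → range ψ)), ∃ D ⊆ E, D.Countable ∧ E ⊆ closure D := fun n =>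
    zenor1 (φ := fun c (p : Fin n × Bool) => (c p.1).1 p.2)
      (IsInducing.of_comp (g := fun (f : Fin n × Bool → range x → ℝ) (i : Fin n) (b : Bool) => f (i, b))
        (continuous_pi fun p => continuous_pi fun z => (h0 p.2 z).comp (continuous_apply p.1))
        (by fun_prop)
        (IsInducing.piMap (f := fun (_ : Fin n) (z : range ψ) => z.1) fun _ => IsInducing.subtypeVal))
      (fun c p => by
        obtain ⟨ξ, hξ⟩ := (c p.1).2
        rw [← hξ]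
        exact h1 _ _) h.hl
  refine ⟨{f : range ψ → ℝ // Continuous f}, inferInstance, inferInstance, fun n =>
    zenor2 (φ := fun c (j : Fin n) => (c j).1)
      (IsInducing.piMap (f := fun (_ : Fin n) (z : {f : range ψ → ℝ // Continuous f}) => z.1)
        fun _ => IsInducing.subtypeVal) (fun c j => (c j).2) h2, fun Z hZ hL => ?_⟩
  have h3 := hL.of_isClosed_subset (closed_ev (ρ := fun s : range ψ => s.1 false ⟨_, ⊥, rfl⟩) (h0 _ _) (by
    rintro ⟨_, a, rfl⟩ ⟨_, b, rfl⟩ e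
    obtain rfl : a = b := r.injective e
    rfl)) (range_subset_iff.2 fun s => hZ ((continuous_apply s).comp continuous_subtype_val))
  let g : W1 → {f : range ψ → ℝ // Continuous f} := fun β => ⟨fun s => s.1 true ⟨_, β, rfl⟩, h0 _ _⟩
  obtain ⟨t, h4, h5⟩ := h3.elim_countable_subcover (fun β => {F | 0 < F (g β)})
    (fun β => isOpen_lt continuous_const (continuous_apply _)) (by
      rintro _ ⟨⟨_, ξ, rfl⟩, rfl⟩
      exact mem_iUnion.2 ⟨ξ, show 0 < ev ξ (x ξ) by simp [ev, h.d1]⟩)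
  obtain ⟨ξ, hξ⟩ := W1_bdd h4
  obtain ⟨β, h6, h7⟩ := mem_iUnion₂.1 (h5 ⟨⟨_, ξ, rfl⟩, rfl⟩)
  have h8 : 0 < ev ξ (x β) := h7
  simp [ev, h.d2 β ξ (hξ β h6)] at h8

end Pool.Agent.H30.Ch
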