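import Mathlib

set_option autoImplicit false

namespace Pool.Agent.H30

open Set Metric RealInnerProductSpace

variable {E : Type} [NormedAddCommGroup E] [InnerProductSpace ℝ E]

/-- Every nonempty set of diameter at most one lies in a set of constant width one. -/
lemma completion [ProperSpace E] {S : Set E} (hS : ∀ x ∈ S, ∀ y ∈ S, dist x y ≤ 1)
    (hne : S.Nonempty) : ∃ K : Set E, S ⊆ K ∧ IsCompact K ∧ Convex ℝ K ∧
      (∀ x ∈ K, ∀ y ∈ K, dist x y ≤ 1) ∧
      ∀ u : E, ‖u‖ = 1 → sSup ((fun x => ⟪u, x⟫) '' K) - sInf ((fun x => ⟪u, x⟫) '' K) = 1 := by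
  obtain ⟨K, hK, hm⟩ := zorn_subset_nonempty {K : Set E | ∀ x ∈ K, ∀ y ∈ K, dist x y ≤ 1}
    (fun c hc hch _ => ⟨⋃₀ c, by
      rintro x ⟨A, hA, hx⟩ y ⟨B, hB, hy⟩
      rcases hch.total hA hB with h | h
      · exact hc hB x (h hx) y hy
      · exact hc hA x hx y (h hy), fun s hs => subset_sUnion_of_mem hs⟩) S hS
  have h1 : ∀ z, (∀ x ∈ K, dist z x ≤ 1) → z ∈ K := fun z hz => hm.mem_of_prop_insert (by
    rintro x (rfl | hx) y (rfl | hy)
    · simp
    · exact hz y hy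
    · exact dist_comm x y ▸ hz x hx
    · exact hm.prop x hx y hy)
  have h2 : K = ⋂ x ∈ K, closedBall x 1 :=
    Subset.antisymm (subset_iInter₂ fun x hx y hy => hm.prop y hy x hx)
      fun z hz => h1 z fun x hx => mem_iInter₂.1 hz x hx
  obtain ⟨a, ha⟩ := hne
  have hc : IsCompact K := (isCompact_closedBall a 1).of_isClosed_subset
    (h2 ▸ isClosed_biInter fun _ _ => isClosed_closedBall) fun y hy => hm.prop y hy a (hK ha)
  refine ⟨K, hK, hc, h2 ▸ convex_iInter₂ fun x _ => convex_closedBall x 1, hm.prop, fun u hu => ?_⟩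
  obtain ⟨p, hp, hp'⟩ := hc.exists_isMaxOn ⟨a, hK ha⟩ (f := fun x => ⟪u, x⟫) (by fun_prop)
  have h3 : p - u ∈ K := h1 _ fun y hy => by
    obtain ⟨v, rfl⟩ : ∃ v, y = p + v := ⟨y - p, by abel⟩
    have hv : ‖v‖ ≤ 1 := by simpa using hm.prop _ hy p hp
    have h4 : ∀ s ∈ Ioo (0:ℝ) 1, 2 * ⟪u, v⟫ + (1 - s) * ‖v‖ ^ 2 ≤ 0 := fun s hs => by
      have h5 : 0 ≤ s * (1 - s) * ‖v‖ ^ 2 := mul_nonneg (mul_pos hs.1 (sub_pos.2 hs.2)).le (sq_nonneg _)
      have h6 : s * (1 - s) * ‖v‖ ^ 2 ≤ 1 :=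
        mul_le_one₀ (by nlinarith [hs.1, hs.2]) (sq_nonneg _) (pow_le_one₀ (norm_nonneg _) hv)
      have h7 := hp' (h1 (p + s • v + (s * (1 - s) * ‖v‖ ^ 2 / 2) • u) fun x hx => by
        have a1 : ‖p - x‖ ^ 2 ≤ 1 := pow_le_one₀ (norm_nonneg _) (dist_eq_norm p x ▸ hm.prop p hp x hx)
        have a2 : ‖p - x + v‖ ^ 2 ≤ 1 := pow_le_one₀ (norm_nonneg _) (by
          have := hm.prop _ hy x hx
          rwa [dist_eq_norm, add_sub_right_comm] at this)
        have a3 : ‖p - x + s • v‖ ≤ 1 - s * (1 - s) * ‖v‖ ^ 2 / 2 := by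
          refine abs_le_of_sq_le_sq' ?_ (by linarith) |>.2
          rw [norm_add_sq_real] at a2 ⊢
          rw [norm_smul, inner_smul_right, Real.norm_eq_abs, abs_of_pos hs.1]
          nlinarith [hs.1, hs.2, sq_nonneg (s * (1 - s) * ‖v‖ ^ 2 / 2)]
        rw [dist_eq_norm, add_sub_right_comm, add_sub_right_comm]
        refine (norm_add_le _ _).trans ?_
        rw [norm_smul, hu, Real.norm_eq_abs, abs_of_nonneg (by linarith)]
        linarith)
      simp only [mem_ofPred_eq, inner_add_right, inner_smul_right, real_inner_self_eq_norm_sq,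
        hu] at h7
      nlinarith [hs.1]
    have h5 : 2 * ⟪u, v⟫ + ‖v‖ ^ 2 ≤ 0 := by
      have := closure_minimal (t := {s : ℝ | 2 * ⟪u, v⟫ + (1 - s) * ‖v‖ ^ 2 ≤ 0}) h4
        (isClosed_le (by fun_prop) continuous_const) (a := 0) (by rw [closure_Ioo zero_ne_one]; simp)
      simpa using this
    rw [dist_comm, dist_eq_norm, show p + v - (p - u) = u + v by abel]
    refine abs_le_of_sq_le_sq' ?_ zero_le_one |>.2
    rw [norm_add_sq_real, hu]
    linarith
  rw [IsGreatest.csSup_eq ⟨mem_image_of_mem _ hp, forall_mem_image.2 fun _ h => hp' h⟩,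
    IsLeast.csInf_eq ⟨mem_image_of_mem _ h3, forall_mem_image.2 fun y hy => ?_⟩]
  · simp [inner_sub_right, hu]
  · have := real_inner_le_norm u (p - y)
    rw [hu, one_mul, inner_sub_right, ← dist_eq_norm] at this
    simp only [inner_sub_right, real_inner_self_eq_norm_sq, hu]
    linarith [hm.prop p hp y hy]

/-- A set of constant width one has diameter at most one. -/
lemma dist_le_of_width {K : Set E} (hc : IsCompact K)
    (h : ∀ u : E, ‖u‖ = 1 → sSup ((fun x => ⟪u, x⟫) '' K) - sInf ((fun x => ⟪u, x⟫) '' K) = 1)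
    {x y : E} (hx : x ∈ K) (hy : y ∈ K) : dist x y ≤ 1 := by
  rcases eq_or_ne x y with rfl | hne
  · simp
  have h0 : ‖x - y‖ ≠ 0 := norm_ne_zero_iff.2 (sub_ne_zero.2 hne)
  have h1 := h (‖x - y‖⁻¹ • (x - y)) (norm_smul_inv_norm (𝕜 := ℝ) (sub_ne_zero.2 hne))
  have h2 := hc.image (f := fun z => ⟪‖x - y‖⁻¹ • (x - y), z⟫) (by fun_prop)
  have h3 := le_csSup h2.bddAbove (mem_image_of_mem _ hx)
  have h4 := csInf_le h2.bddBelow (mem_image_of_mem _ hy)
  have h5 : ⟪‖x - y‖⁻¹ • (x - y), x⟫ - ⟪‖x - y‖⁻¹ • (x - y), y⟫ = ‖x - y‖ := by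
    rw [← inner_sub_right, inner_smul_left, real_inner_self_eq_norm_sq]
    simp [sq, h0]
  rw [dist_eq_norm]
  linarith

end Pool.Agent.H30
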