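import Mathlib

set_option autoImplicit false

namespace Pool.Agent.H30

open Set Filter Topology

lemma exists_clopen_of_disjoint {Z : Type*} [TopologicalSpace Z] [T2Space Z] [CompactSpace Z]
    (x : Z) {B : Set Z} (hB : IsClosed B) (h : Disjoint (connectedComponent x) B) :
    ∃ U : Set Z, IsClopen U ∧ x ∈ U ∧ Disjoint U B := by
  rw [connectedComponent_eq_iInter_isClopen] at h
  obtain ⟨t, ht⟩ := hB.isCompact.elim_finite_subfamily_closed
    (fun s : {s : Set Z // IsClopen s ∧ x ∈ s} => (s : Set Z)) (fun s => s.2.1.1)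
    h.symm.inter_eq
  exact ⟨⋂ i ∈ t, i, isClopen_biInter_finset fun i _ => i.2.1, mem_iInter₂.2 fun i _ => i.2.2,
    (disjoint_iff_inter_eq_empty.2 ht).symm⟩

lemma isCompact_componentIn {X : Type*} [TopologicalSpace X] {Z : Set X} (hZ : IsCompact Z)
    (x : X) : IsCompact (connectedComponentIn Z x) := by
  by_cases hx : x ∈ Z
  · rw [connectedComponentIn_eq_image hx]
    have : CompactSpace Z := isCompact_iff_compactSpace.1 hZ
    exact isClosed_connectedComponent.isCompact.image continuous_subtype_val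
  · rw [connectedComponentIn_eq_empty hx]; exact isCompact_empty

/-- Boundary bumping. -/
lemma bump {X : Type*} [TopologicalSpace X] [T2Space X] {K : Set X} (hK : IsCompact K)
    (hc : IsPreconnected K) {φ : X → ℝ} (hφ : Continuous φ) {δ : ℝ} {x y : X} (hx : x ∈ K)
    (hy : y ∈ K) (h1 : δ ≤ φ x) (h2 : φ y ≤ δ) :
    ∃ z ∈ connectedComponentIn (K ∩ {w | δ ≤ φ w}) x, φ z = δ := by
  set Z := K ∩ {w | δ ≤ φ w} with hZ
  have hZc : IsCompact Z := hK.inter_right (isClosed_le continuous_const hφ)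
  have : CompactSpace Z := isCompact_iff_compactSpace.1 hZc
  have hxZ : x ∈ Z := ⟨hx, h1⟩
  by_contra hn
  push Not at hn
  obtain ⟨U, hU, hxU, hd⟩ := exists_clopen_of_disjoint (⟨x, hxZ⟩ : Z)
    (B := {z : Z | φ z = δ}) (isClosed_eq (hφ.comp continuous_subtype_val) continuous_const) (by
      refine disjoint_left.2 fun z hz hz' => hn z ?_ hz'
      rw [connectedComponentIn_eq_image hxZ]
      exact mem_image_of_mem _ hz)
  obtain ⟨V, hV, hVU⟩ := isOpen_induced_iff.1 hU.2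
  have hcl : IsClosed ((↑) '' U : Set X) :=
    (hU.1.isCompact.image continuous_subtype_val).isClosed
  rcases isPreconnected_iff_subset_of_disjoint.1 hc (V ∩ {w | δ < φ w}) _
    (hV.inter (isOpen_lt continuous_const hφ)) hcl.isOpen_compl (fun w _ => by
      by_cases h : w ∈ ((↑) '' U : Set X)
      · obtain ⟨z, hz, rfl⟩ := h
        exact Or.inl ⟨show z ∈ Subtype.val ⁻¹' V from hVU ▸ hz,
          lt_of_le_of_ne z.2.2 fun e => disjoint_left.1 hd hz e.symm⟩
      · exact Or.inr h) (eq_empty_of_forall_notMem fun w hw => hw.2.2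
        ⟨⟨w, hw.1, show δ ≤ φ w from le_of_lt hw.2.1.2⟩, hVU.subset hw.2.1.1, rfl⟩)
    with h | h
  · exact absurd (h hy).2 (not_lt.2 h2)
  · exact h hx ⟨_, hxU, rfl⟩

/-- Sierpinski's theorem. -/
lemma sierp {X : Type*} [TopologicalSpace X] [T2Space X] [NormalSpace X] {A : ℕ → Set X}
    (hA : ∀ n, IsClosed (A n)) (hd : ∀ i j, i ≠ j → Disjoint (A i) (A j)) {K : Set X}
    (hK : IsCompact K) (hc : IsPreconnected K) (hs : K ⊆ ⋃ n, A n) {i j : ℕ} {x y : X}
    (hx : x ∈ K) (hy : y ∈ K) (hi : x ∈ A i) (hj : y ∈ A j) : i = j := by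
  by_contra hne
  let Q : Set X → Prop := fun L => IsCompact L ∧ IsPreconnected L ∧ L ⊆ K ∧
    ∃ i j, i ≠ j ∧ (L ∩ A i).Nonempty ∧ (L ∩ A j).Nonempty
  have step : ∀ n, ∀ L, Q L → ∃ L', Q L' ∧ L' ⊆ L ∧ Disjoint L' (A n) := by
    rintro n L ⟨h1, h2, h3, i, j, hij, hi, hj⟩
    by_cases hn : Disjoint L (A n)
    · exact ⟨L, ⟨h1, h2, h3, i, j, hij, hi, hj⟩, subset_rfl, hn⟩
    obtain ⟨y, hyL, hyn⟩ := not_disjoint_iff.1 hn
    obtain ⟨m, hm, x, hxL, hxm⟩ : ∃ m, n ≠ m ∧ (L ∩ A m).Nonempty := by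
      by_cases h : n = i
      · exact ⟨j, h ▸ hij, hj⟩
      · exact ⟨i, h, hi⟩
    obtain ⟨φ, h0, h1', -⟩ := exists_continuous_zero_one_of_isClosed (hA n) (hA m) (hd n m hm)
    have e0 : φ y = 0 := h0 hyn
    have e1 : φ x = 1 := h1' hxm
    obtain ⟨z, hz, hz'⟩ := bump h1 h2 φ.continuous (δ := 1 / 2) hxL hyL (by rw [e1]; norm_num)
      (by rw [e0]; norm_num)
    have hsub := connectedComponentIn_subset (L ∩ {w | 1 / 2 ≤ φ w}) x
    obtain ⟨l, hl⟩ := mem_iUnion.1 (hs (h3 (hsub hz).1))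
    refine ⟨_, ⟨isCompact_componentIn (h1.inter_right (isClosed_le continuous_const φ.continuous))
      x, isPreconnected_connectedComponentIn, fun w hw => h3 (hsub hw).1, m, l, ?_,
      ⟨x, mem_connectedComponentIn ⟨hxL, show 1 / 2 ≤ φ x by rw [e1]; norm_num⟩, hxm⟩, z, hz, hl⟩,
      fun w hw => (hsub hw).1, disjoint_left.2 fun w hw hwn => ?_⟩
    · rintro rfl
      have : φ z = 1 := h1' hl
      rw [hz'] at this
      norm_num at this
    · have h4 : 1 / 2 ≤ φ w := (hsub hw).2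
      have : φ w = 0 := h0 hwn
      rw [this] at h4
      norm_num at h4
  choose! g hg using step
  let L : ℕ → Set X := fun n => Nat.rec K (fun m M => g m M) n
  have hQ : ∀ n, Q (L n) := by
    intro n
    induction n with
    | zero => exact ⟨hK, hc, subset_rfl, i, j, hne, ⟨x, hx, hi⟩, ⟨y, hy, hj⟩⟩
    | succ n ih => exact (hg n _ ih).1
  obtain ⟨w, hw⟩ := IsCompact.nonempty_iInter_of_sequence_nonempty_isCompact_isClosed L
    (fun n => (hg n _ (hQ n)).2.1)
    (fun n => by obtain ⟨_, _, _, _, _, _, ⟨a, ha, _⟩, _⟩ := hQ n; exact ⟨a, ha⟩) hK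
    (fun n => (hQ n).1.isClosed)
  obtain ⟨n, hn⟩ := mem_iUnion.1 (hs (mem_iInter.1 hw 0))
  exact disjoint_left.1 (hg n _ (hQ n)).2.2 (mem_iInter.1 hw (n + 1)) hn

end Pool.Agent.H30
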