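import Mathlib

set_option autoImplicit false

namespace Pool.Agent.H30.CpG

open Set Filter Topology

/-- The group of continuous maps `X → G`, as a subgroup of the product `G^X`. -/
def Cp (X G : Type) [TopologicalSpace X] [Group G] [TopologicalSpace G] [IsTopologicalGroup G] :
    Subgroup (X → G) where
  carrier := {f | Continuous f}
  mul_mem' := fun ha hb => Continuous.mul ha hb
  one_mem' := continuous_const
  inv_mem' := fun ha => Continuous.inv ha

/-- Selectively sequentially pseudocompact spaces. -/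
def SSP (X : Type) [TopologicalSpace X] : Prop :=
  ∀ U : ℕ → Set X, (∀ n, IsOpen (U n)) → (∀ n, (U n).Nonempty) →
    ∃ x : ℕ → X, (∀ n, x n ∈ U n) ∧ ∃ (φ : ℕ → ℕ) (p : X), StrictMono φ ∧ Tendsto (x ∘ φ) atTop (𝓝 p)

/-- Selectively pseudocompact spaces. -/
def SP (X : Type) [TopologicalSpace X] : Prop :=
  ∀ U : ℕ → Set X, (∀ n, IsOpen (U n)) → (∀ n, (U n).Nonempty) →
    (∀ m n, m ≠ n → Disjoint (U m) (U n)) →
    ∃ x : ℕ → X, (∀ n, x n ∈ U n) ∧ ¬ IsClosed (range x)

abbrev G := ℕ → Multiplicative ℝ

noncomputable def iso : Cp Unit G ≃ₜ* Cp ℕ G where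
  toFun f := ⟨fun m n => f.1 () (Nat.pair m n), continuous_of_discreteTopology⟩
  invFun g := ⟨fun _ k => g.1 k.unpair.1 k.unpair.2, continuous_of_discreteTopology⟩
  left_inv f := by ext u k; simp
  right_inv g := by ext m n; simp
  map_mul' f g := rfl
  continuous_toFun := by
    have : Continuous fun (f : Unit → G) (m n : ℕ) => f () (Nat.pair m n) := by fun_prop
    exact continuous_induced_rng.2 (this.comp continuous_subtype_val)
  continuous_invFun := by
    have : Continuous fun (g : ℕ → G) (_ : Unit) (k : ℕ) => g k.unpair.1 k.unpair.2 := by fun_prop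
    exact continuous_induced_rng.2 (this.comp continuous_subtype_val)

lemma dense (X : Type) [TopologicalSpace X] [DiscreteTopology X] : Dense (Cp X G : Set (X → G)) := by
  have : (Cp X G : Set (X → G)) = univ := eq_univ_of_forall fun f => continuous_of_discreteTopology
  rw [this]; exact dense_univ

lemma ssp_unit : SSP Unit := fun U _ h => ⟨fun _ => (), fun n => by
  obtain ⟨x, hx⟩ := h n; exact hx, id, (), strictMono_id, tendsto_const_nhds⟩

lemma sp_unit : SP Unit := fun U _ h hd => by
  obtain ⟨x, hx⟩ := h 0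
  obtain ⟨y, hy⟩ := h 1
  exact absurd hy (disjoint_left.1 (hd 0 1 zero_ne_one) hx)

lemma not_ssp : ¬ SSP ℕ := fun h => by
  obtain ⟨x, hx, φ, p, hφ, ht⟩ := h (fun n => {n}) (fun _ => isOpen_discrete _) fun n => singleton_nonempty n
  have e : x = id := funext hx
  rw [e, nhds_discrete, tendsto_pure, eventually_atTop] at ht
  obtain ⟨a, ha⟩ := ht
  exact (hφ (Nat.lt_succ_self a)).ne ((ha a le_rfl).trans (ha (a + 1) (Nat.le_succ a)).symm)

lemma not_sp : ¬ SP ℕ := fun h => by
  obtain ⟨x, -, hx⟩ := h (fun n => {n}) (fun _ => isOpen_discrete _) (fun n => singleton_nonempty n)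
    fun m n hmn => disjoint_singleton.2 hmn
  exact hx (isClosed_discrete _)

end Pool.Agent.H30.CpG
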