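import Mathlib

set_option autoImplicit false

namespace Pool.Agent.H30.D2

open Set Filter Topology Cardinal PiNat

abbrev C := ℕ → Bool

def A (n : ℕ) (r s : C) : Prop := ∀ m < n, r m = s m

lemma A.refl (n : ℕ) (r : C) : A n r r := fun _ _ => rfl
lemma A.symm {n : ℕ} {r s : C} (h : A n r s) : A n s r := fun m k => (h m k).symm
lemma A.trans {n : ℕ} {r s t : C} (h : A n r s) (g : A n s t) : A n r t :=
  fun m k => (h m k).trans (g m k)
lemma A.mono {n k : ℕ} {r s : C} (h : A n r s) (g : k ≤ n) : A k r s := fun m c => h m (c.trans_le g)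

lemma A_ne {r s : C} (h : r ≠ s) : ∀ᶠ n in atTop, ¬ A n r s := by
  obtain ⟨m, hm⟩ := Function.ne_iff.1 h
  exact (eventually_gt_atTop m).mono fun n k a => hm (a m k)

lemma near (t : C) (n : ℕ) : ∃ r, r ≠ t ∧ A n r t :=
  ⟨Function.update t n (!t n), fun e => by simpa using congrFun e n,
    fun m k => Function.update_of_ne k.ne _ _⟩

def Q : Type := {σ : C → Fin 3 // ∀ᶠ n in atTop, ∀ r s, A n r s → σ r = σ s}

instance : Countable Q := by
  refine (Set.countable_range fun p : Σ n : ℕ, (Fin n → Bool) → Fin 3 =>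
    fun r : C => p.2 fun i => r i).mono (s₁ := {σ | ∀ᶠ n in atTop, ∀ r s, A n r s → σ r = σ s}) ?_
  intro σ h
  obtain ⟨n, h⟩ := h.exists
  exact ⟨⟨n, fun v => σ fun i => if c : i < n then v ⟨i, c⟩ else false⟩,
    funext fun r => h _ _ fun m k => by simp [k]⟩

open Classical in
noncomputable def md (σ : Q) (t : C) (n : ℕ) (j : Fin 3) : Q :=
  ⟨fun r => if A n r t then j else σ.1 r, (σ.2.and (eventually_ge_atTop n)).mono fun k h r s a => by
    have : A n r t ↔ A n s t := ⟨(a.mono h.2).symm.trans, (a.mono h.2).trans⟩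
    simp only [this, h.1 r s a]⟩

lemma md_in {σ : Q} {t r : C} {n : ℕ} {j : Fin 3} (h : A n r t) : (md σ t n j).1 r = j := if_pos h
lemma md_out {σ : Q} {t r : C} {n : ℕ} {j : Fin 3} (h : ¬ A n r t) : (md σ t n j).1 r = σ.1 r :=
  if_neg h

def cst (j : Fin 3) : Q := ⟨fun _ => j, Eventually.of_forall fun _ _ _ _ => rfl⟩

instance : Nonempty Q := ⟨cst 0⟩

abbrev Dt := Q × Fin 3 × ℕ

def Cont (g : Q → Bool) (e : ℕ → C) (l : Q → ℕ) : Prop :=
  ∀ σ τ : Q, (∀ m < l σ, τ.1 (e m) = σ.1 (e m)) → g τ = g σ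

def Good (g : Q → Bool) (t : C) (d : Dt) : Prop :=
  d.2.1 ≠ d.1.1 t ∧ ∀ᶠ n in atTop, g (md d.1 t n d.2.1) = g d.1

lemma good_ex {g : Q → Bool} {e : ℕ → C} {l : Q → ℕ} (h : Cont g e l) (t : C) :
    ∃ d, Good g t d := by
  have k : ∀ σ : Q, ∀ᶠ n in atTop, ∀ τ : Q, τ.1 t = σ.1 t → (∀ r, ¬ A n r t → τ.1 r = σ.1 r) →
      g τ = g σ := fun σ => by
    have : ∀ᶠ n in atTop, ∀ m ∈ Finset.range (l σ), e m ≠ t → ¬ A n (e m) t :=
      (eventually_all_finset _).2 fun m _ => by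
        by_cases c : e m = t
        · exact Eventually.of_forall fun _ k => (k c).elim
        · exact (A_ne c).mono fun _ k _ => k
    refine this.mono fun n k τ h1 h2 => h σ τ fun m hm => ?_
    by_cases c : e m = t
    · rwa [c]
    · exact h2 _ (k m (Finset.mem_range.2 hm) c)
  obtain ⟨a, ha⟩ := (k (cst 0)).exists
  obtain ⟨b, hb, ab⟩ := ((k (md (cst 0) t a 1)).and (eventually_ge_atTop a)).exists
  obtain ⟨c, hc, bc⟩ := ((k (md (md (cst 0) t a 1) t b 2)).and (eventually_ge_atTop b)).exists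
  set s := md (md (cst 0) t a 1) t b 2 with hs
  have : ∃ γ : Fin 3 → Bool, ∀ (i : Fin 3) (τ : Q), τ.1 t = i → (∀ r, ¬ A c r t → τ.1 r = s.1 r) →
      g τ = γ i := by
    refine ⟨![g (cst 0), g (md (cst 0) t a 1), g s], fun i τ h1 h2 => ?_⟩
    fin_cases i
    · refine ha τ h1 fun r k => ?_
      rw [h2 r fun x => k (x.mono (ab.trans bc)), hs, md_out fun x => k (x.mono ab), md_out k]
    · refine hb τ (by rw [md_in (A.refl _ _)]; exact h1) fun r k => ?_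
      rw [h2 r fun x => k (x.mono bc), hs, md_out k]
    · exact hc τ (by rw [hs, md_in (A.refl _ _)]; exact h1) h2
  obtain ⟨γ, hγ⟩ := this
  obtain ⟨i, j, ij, e⟩ := Fintype.exists_ne_map_eq_of_card_lt γ (by simp)
  refine ⟨(md s t c i, j, 0), by simpa [md_in (A.refl _ _)] using ij.symm,
    (eventually_ge_atTop c).mono fun n hn => ?_⟩
  rw [hγ j _ (md_in (A.refl _ _)) fun r k => by rw [md_out fun x => k (x.mono hn), md_out k],
    hγ i _ (md_in (A.refl _ _)) fun r k => md_out k, e]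

lemma brec {I D : Type} (hI : #I ≤ 𝔠) (T : I → Set (Set C × D)) (hc : ∀ i, ∀ p ∈ T i, p.1.Countable)
    (h : ∀ i (R : Set C), #R < 𝔠 → ∃ p ∈ T i, Disjoint p.1 R) :
    ∃ p : I → Set C × D, (∀ i, p i ∈ T i) ∧ Pairwise fun i j => Disjoint (p i).1 (p j).1 := by
  obtain ⟨_, _, hw⟩ := exists_ord_eq_type_lt I
  have : ∀ i (g : ∀ j, j < i → {p : Set C × D // p.1.Countable}), ∃ x : {p : Set C × D // p.1.Countable},
      x.1 ∈ T i ∧ ∀ j hj, Disjoint x.1.1 (g j hj).1.1 := fun i g => by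
    obtain ⟨p, h1, h2⟩ := h i (⋃ j : Iio i, (g j j.2).1.1) ((mk_iUnion_le _).trans_lt
      (mul_lt_of_lt aleph0_le_continuum ((mk_Iio_lt i hw).trans_le hI)
        ((ciSup_le' fun j : Iio i => (g j j.2).2.le_aleph0).trans_lt aleph0_lt_continuum)))
    exact ⟨⟨p, hc i p h1⟩, h1, fun j hj => h2.mono_right (subset_iUnion
      (fun j : Iio i => (g j j.2).1.1) ⟨j, hj⟩)⟩
  choose F F1 F2 using this
  let f := (wellFounded_lt (α := I)).fix F
  have e : ∀ i, f i = F i fun j _ => f j := fun i => WellFounded.fix_eq _ _ _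
  have k : ∀ i j, i < j → Disjoint (f j).1.1 (f i).1.1 := fun i j h => by
    rw [e j]; exact F2 j (fun j _ => f j) i h
  refine ⟨fun i => (f i).1, fun i => (e i ▸ F1 _ _ : (f i).1 ∈ T i), fun i j h => ?_⟩
  rcases lt_or_gt_of_ne h with c | c
  exacts [(k i j c).symm, k j i c]

instance : Uncountable C := aleph0_lt_mk_iff.1 (by simpa using aleph0_lt_continuum)

lemma cone (a : C) (L : ℕ) (R : Set C) (h : #R < 𝔠) : ∃ t, A L t a ∧ t ∉ R := by
  by_contra! k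
  refine h.not_ge (le_trans (by simp) (mk_le_of_injective
    (f := fun u : C => (⟨fun m => if m < L then a m else u (m - L), k _ fun m c => if_pos c⟩ : R))
      fun u v e => funext fun m => ?_))
  simpa using congrFun (congrArg Subtype.val e) (m + L)

abbrev ι := Q ⊕ (ℕ × ℕ) ⊕ ℕ

def Br (Ψ : List Bool → ι → Bool) (w : ι → Bool) : Prop :=
  (∃ b : C, ∀ i, ∀ᶠ n in atTop, Ψ (res b n) i = w i) ∧
    ∀ m k, w (.inr (.inr m)) = true → w (.inr (.inr k)) = false →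
      (fun i => w (.inr (.inl (m, i)))) ≠ fun i => w (.inr (.inl (k, i)))

def fr (w : ι → Bool) : Set C := (fun m i => w (.inr (.inl (m, i)))) '' {m | w (.inr (.inr m)) = true}

theorem data : ∃ d : C → Dt, (∀ t, (d t).2.1 ≠ (d t).1.1 t) ∧
    (∀ Ψ, (∀ R : Set C, #R < 𝔠 → ∃ w, Br Ψ w ∧ Disjoint (fr w) R ∧
      ∃ e l, Cont (fun σ => w (.inl σ)) e l) →
        ∃ w, Br Ψ w ∧ ∀ t ∈ fr w, Good (fun σ => w (.inl σ)) t (d t)) ∧
    ∀ (z : Dt) a L, (∀ u, A L u a → z.2.1 ≠ z.1.1 u) → ¬ {t | A L t a ∧ d t = z}.Countable := by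
  classical
  let T : (List Bool → ι → Bool) ⊕ (Dt × C × ℕ × C) → Set (Set C × (C → Dt)) := Sum.elim
    (fun Ψ => {p | ∃ w, Br Ψ w ∧ p.1 = fr w ∧ ∀ t ∈ fr w, Good (fun σ => w (.inl σ)) t (p.2 t)})
    fun z => {p | ∃ t, p = ({t}, fun _ => z.1) ∧ A z.2.2.1 t z.2.1 ∧ z.1.2.1 ≠ z.1.1.1 t}
  obtain ⟨p, p1, p2⟩ := brec (I := {i // ∀ R : Set C, #R < 𝔠 → ∃ p ∈ T i, Disjoint p.1 R})
    ((mk_subtype_le _).trans (by simp)) (fun i => T i) (by
      rintro ⟨Ψ | z, _⟩ p ⟨w, h1, h2⟩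
      · exact h2.1 ▸ (to_countable _).image _
      · exact h1 ▸ countable_singleton _) fun i => i.2
  let d : C → Dt := fun t => if h : ∃ i, t ∈ (p i).1 then (p h.choose).2 t else (cst 0, 1, 0)
  have hd : ∀ i, ∀ t ∈ (p i).1, d t = (p i).2 t := fun i t h => by
    have c : ∃ i, t ∈ (p i).1 := ⟨i, h⟩
    have : c.choose = i := by_contra fun k => disjoint_left.1 (p2 k) c.choose_spec h
    simp only [d, dif_pos c, this]
  refine ⟨d, fun t => ?_, fun Ψ h => ?_, fun z a L h c => ?_⟩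
  · by_cases c : ∃ i, t ∈ (p i).1
    · obtain ⟨⟨Ψ | z, hi⟩, h⟩ := c
      · obtain ⟨w, -, h2, h3⟩ := p1 ⟨_, hi⟩
        rw [hd _ t h]; exact (h3 t (h2 ▸ h)).1
      · obtain ⟨w, h1, -, h3⟩ := p1 ⟨_, hi⟩
        rw [hd _ t h]; rw [h1] at h ⊢; cases h; exact h3
    · rw [show d t = (cst 0, 1, 0) from dif_neg c]; simp [cst]
  · obtain ⟨w, h1, h2, h3⟩ := p1 ⟨.inl Ψ, fun R hR => by
      obtain ⟨w, h1, h2, e, l, h3⟩ := h R hR
      choose δ hδ using good_ex h3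
      exact ⟨(fr w, δ), ⟨w, h1, rfl, fun t _ => hδ t⟩, h2⟩⟩
    exact ⟨w, h1, fun t ht => hd _ t (h2 ▸ ht) ▸ h3 t ht⟩
  · have hz : ∀ ξ (R : Set C), #R < 𝔠 → ∃ p ∈ T (.inr (z, a, L, ξ)), Disjoint p.1 R := fun ξ R hR =>
      let ⟨t, h1, h2⟩ := cone a L R hR
      ⟨_, ⟨t, rfl, h1, h t h1⟩, disjoint_singleton_left.2 h2⟩
    choose t t1 t2 _ using fun ξ => p1 ⟨_, hz ξ⟩
    have : Function.Injective t := fun ξ η e => by_contra fun k => by
      have := p2 (i := ⟨_, hz ξ⟩) (j := ⟨_, hz η⟩) (by simpa using k)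
      simp [t1, e] at this
    refine not_countable_univ ((c.preimage_of_injOn this.injOn).mono fun ξ _ =>
      And.intro (t2 ξ) ?_)
    rw [hd ⟨_, hz ξ⟩ _ (by simp [t1]), t1]

end Pool.Agent.H30.D2
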