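import Pool.Agent.H30.D2a

set_option autoImplicit false

namespace Pool.Agent.H30.D2

open Set Filter Topology Cardinal PiNat

variable {Ω : Type} (l : Filter Ω) [CountableInterFilter l] (e : Ω → ℕ → C)

lemma rfn {V : Type} [Countable V] (h : Ω → V) {P : Set Ω} (hP : ∃ᶠ ω in l, ω ∈ P) :
    ∃ c, ∃ᶠ ω in l, ω ∈ P ∧ h ω = c := by
  by_contra! k
  obtain ⟨ω, h1, h2⟩ := (hP.and_eventually (eventually_countable_forall.2 k)).exists
  exact h2 _ h1 rfl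

def Free (P : Set Ω) (m : ℕ) : Prop := ∀ y, ∀ᶠ ω in l, ω ∈ P → e ω m ≠ y

lemma split {P : Set Ω} (hP : ∃ᶠ ω in l, ω ∈ P) (n : ℕ) : ∃ (N : ℕ) (P' : Bool → Set Ω),
    (∀ i, P' i ⊆ P ∧ ∃ᶠ ω in l, ω ∈ P' i) ∧ ∀ m < n, Free l e P m → ∀ ω ∈ P' false, ∀ ω' ∈ P' true,
      ¬ A N (e ω m) (e ω' m) := by
  obtain ⟨a, ha⟩ : ∃ a : ℕ → C, ∀ N, ∃ᶠ ω in l, ω ∈ P ∧ ∀ m < n, A N (e ω m) (a m) := by
    by_contra! k
    let S : (Σ N, Fin n → Fin N → Bool) → Set Ω := fun v => {ω | ω ∈ P ∧ ∀ (m : Fin n) (i : Fin v.1), e ω m i = v.2 m i}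
    have : ∀ v, ∀ᶠ ω in l, (∀ᶠ ω in l, ω ∉ S v) → ω ∉ S v := fun v => by
      by_cases c : ∀ᶠ ω in l, ω ∉ S v
      exacts [c.mono fun _ h _ => h, Eventually.of_forall fun _ h => (c h).elim]
    obtain ⟨ω, h1, h2⟩ := (hP.and_eventually (eventually_countable_forall.2 this)).exists
    obtain ⟨N, hN⟩ := k (e ω)
    refine h2 ⟨N, fun m i => e ω m i⟩ (hN.mono fun ω' h h' => ?_) ⟨h1, fun _ _ => rfl⟩
    obtain ⟨m, h3, h4⟩ := h h'.1
    exact h4 fun i c => h'.2 ⟨m, h3⟩ ⟨i, c⟩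
  obtain ⟨N, hN⟩ : ∃ N, ∃ᶠ ω in l, ω ∈ P ∧ ∀ m < n, Free l e P m → ¬ A N (e ω m) (a m) := by
    by_contra! k
    have : ∀ m, ∀ᶠ ω in l, Free l e P m → ω ∈ P → e ω m ≠ a m := fun m => by
      by_cases c : Free l e P m
      exacts [(c _).mono fun _ h _ => h, Eventually.of_forall fun _ h => (c h).elim]
    obtain ⟨ω, h1, h2, h3⟩ := (hP.and_eventually ((eventually_countable_forall.2 this).and
      (eventually_countable_forall.2 k))).exists
    have : ∀ᶠ N in atTop, ∀ m ∈ Finset.range n, Free l e P m → ¬ A N (e ω m) (a m) :=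
      (eventually_all_finset _).2 fun m _ => by
        by_cases c : Free l e P m
        exacts [(A_ne (h2 m c h1)).mono fun _ h _ => h, Eventually.of_forall fun _ h => (c h).elim]
    obtain ⟨N, hN⟩ := this.exists
    obtain ⟨m, h4, h5, h6⟩ := h3 N h1
    exact hN m (Finset.mem_range.2 h4) h5 h6
  exact ⟨N, fun i => Bool.rec {ω | ω ∈ P ∧ ∀ m < n, Free l e P m → ¬ A N (e ω m) (a m)}
    {ω | ω ∈ P ∧ ∀ m < n, A N (e ω m) (a m)} i, by
      rintro (_ | _)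
      exacts [⟨fun _ h => h.1, hN⟩, ⟨fun _ h => h.1, ha N⟩],
    fun m h1 h2 ω h3 ω' h4 h5 => h3.2 m h1 h2 (h5.trans (h4.2 m h1))⟩

lemma tree [l.NeBot] {V : Type} [Countable V] (o : ℕ → Ω → V) : ∃ P : List Bool → Set Ω,
    (∀ s, ∃ᶠ ω in l, ω ∈ P s) ∧ ∀ s, (∀ i, P (i :: s) ⊆ P s ∧ (∃ c, ∀ ω ∈ P (i :: s), o s.length ω = c) ∧
      ((∃ y, ∀ ω ∈ P (i :: s), e ω s.length = y) ∨ Free l e (P (i :: s)) s.length)) ∧
      ∃ N, ∀ m < s.length, Free l e (P s) m → ∀ ω ∈ P (false :: s), ∀ ω' ∈ P (true :: s),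
        ¬ A N (e ω m) (e ω' m) := by
  have st : ∀ n (P : {P : Set Ω // ∃ᶠ ω in l, ω ∈ P}), ∃ R : Bool → {P : Set Ω // ∃ᶠ ω in l, ω ∈ P},
      (∀ i, (R i).1 ⊆ P.1 ∧ (∃ c, ∀ ω ∈ (R i).1, o n ω = c) ∧
      ((∃ y, ∀ ω ∈ (R i).1, e ω n = y) ∨ Free l e (R i).1 n)) ∧
      ∃ N, ∀ m < n, Free l e P.1 m → ∀ ω ∈ (R false).1, ∀ ω' ∈ (R true).1,
        ¬ A N (e ω m) (e ω' m) := fun n P => by
    obtain ⟨N, R, h1, h2⟩ := split l e P.2 n
    have : ∀ i, ∃ S : {P : Set Ω // ∃ᶠ ω in l, ω ∈ P}, S.1 ⊆ R i ∧ (∃ c, ∀ ω ∈ S.1, o n ω = c) ∧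
        ((∃ y, ∀ ω ∈ S.1, e ω n = y) ∨ Free l e S.1 n) := fun i => by
      obtain ⟨c, hc⟩ := rfn l (o n) (h1 i).2
      by_cases k : Free l e {ω | ω ∈ R i ∧ o n ω = c} n
      · exact ⟨⟨_, hc⟩, fun _ h => h.1, ⟨c, fun _ h => h.2⟩, Or.inr k⟩
      · simp only [Free, not_forall, not_eventually, not_not] at k
        obtain ⟨y, hy⟩ := k
        exact ⟨⟨{ω | (ω ∈ R i ∧ o n ω = c) ∧ e ω n = y}, hy.mono fun _ h => ⟨h.1, h.2⟩⟩,
          fun _ h => h.1.1, ⟨c, fun _ h => h.1.2⟩, Or.inl ⟨y, fun _ h => h.2⟩⟩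
    choose S s1 s2 using this
    exact ⟨S, fun i => ⟨(s1 i).trans (h1 i).1, s2 i⟩, N, fun m a b ω c ω' d =>
      h2 m a b ω (s1 _ c) ω' (s1 _ d)⟩
  choose F hF using st
  let P : List Bool → {P : Set Ω // ∃ᶠ ω in l, ω ∈ P} := fun s =>
    List.rec ⟨univ, Frequently.of_forall fun _ => trivial⟩ (fun i s p => F s.length p i) s
  exact ⟨fun s => (P s).1, fun s => (P s).2, fun s => hF s.length (P s)⟩

theorem core [l.NeBot] (d : C → Dt)
    (hd : ∀ Ψ, (∀ R : Set C, #R < 𝔠 → ∃ w, Br Ψ w ∧ Disjoint (fr w) R ∧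
      ∃ e l, Cont (fun σ => w (.inl σ)) e l) →
        ∃ w, Br Ψ w ∧ ∀ t ∈ fr w, Good (fun σ => w (.inl σ)) t (d t))
    (g : Ω → Q → Bool) (ln : Ω → Q → ℕ) (v : Ω → ℕ → ℕ → Bool) (hc : ∀ ω, Cont (g ω) (e ω) (ln ω)) :
    ∃ (𝒢 : Filter Ω) (G : Q → Bool) (E : ℕ → C) (L : Q → ℕ) (Λ : Set ℕ), 𝒢.NeBot ∧ 𝒢 ≤ l ∧
      (∀ σ, ∀ᶠ ω in 𝒢, g ω σ = G σ ∧ ln ω σ = L σ) ∧ (∀ m N, ∀ᶠ ω in 𝒢, A N (e ω m) (E m)) ∧
      (∀ m k, ∃ c, ∀ᶠ ω in 𝒢, v ω m k = c) ∧ (∀ m ∉ Λ, ∀ᶠ ω in 𝒢, e ω m = E m) ∧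
      ∀ m ∈ Λ, (∀ y, ∀ᶠ ω in 𝒢, e ω m ≠ y) ∧ Good G (E m) (d (E m)) ∧ ∀ k ∉ Λ, E m ≠ E k := by
  classical
  obtain ⟨en, hen⟩ := exists_surjective_nat (Q × ℕ × ℕ)
  obtain ⟨P, p1, p2⟩ := tree l e fun n ω => (ln ω (en n).1, g ω (en n).1,
    e ω (en n).2.1 (en n).2.2, v ω (en n).2.1 (en n).2.2)
  choose ω hω using fun s => (p1 s).exists
  have an : ∀ b : C, Antitone fun n => P (res b n) := fun b =>
    antitone_nat_of_succ_le fun n => ((p2 _).1 _).1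
  have fm : ∀ {P R : Set Ω} {m}, R ⊆ P → Free l e P m → Free l e R m := fun h k y =>
    (k y).mono fun _ a b => a (h b)
  let 𝒢 : C → Filter Ω := fun b => ⨅ n, l ⊓ 𝓟 (P (res b n))
  have nb : ∀ b, (𝒢 b).NeBot := fun b => iInf_neBot_of_directed' (Antitone.directed_ge
    fun _ _ h => inf_le_inf_left _ (principal_mono.2 (an b h))) fun n => frequently_mem_iff_neBot.1 (p1 _)
  have gl : ∀ b, 𝒢 b ≤ l := fun b => (iInf_le _ 0).trans inf_le_left
  have gp : ∀ b n, ∀ᶠ ω in 𝒢 b, ω ∈ P (res b n) := fun b n =>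
    le_principal_iff.1 ((iInf_le _ n).trans inf_le_right)
  let Ψ : List Bool → ι → Bool := fun s => Sum.elim (g (ω s))
    (Sum.elim (fun z => e (ω s) z.1 z.2) fun m => decide (Free l e (P s) m))
  have ob : ∀ (b : C) σ m k, ∃ (c : ℕ × Bool × Bool × Bool) (n : ℕ), ∀ ω ∈ P (res b n),
      (ln ω σ, g ω σ, e ω m k, v ω m k) = c := fun b σ m k => by
    obtain ⟨n, hn⟩ := hen (σ, m, k)
    obtain ⟨c, h⟩ := ((p2 (res b n)).1 (b n)).2.1
    exact ⟨c, n + 1, fun ω k => by simpa [hn] using h ω k⟩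
  have ev : ∀ (b : C) n, ∀ᶠ k in atTop, ω (res b k) ∈ P (res b n) := fun b n =>
    (eventually_ge_atTop n).mono fun k h => an b h (hω _)
  have fa : ∀ (b : C) (w : ι → Bool), (∀ i, ∀ᶠ n in atTop, Ψ (res b n) i = w i) → ∃ L : Q → ℕ,
      (∀ σ, ∀ᶠ ω in 𝒢 b, g ω σ = w (.inl σ) ∧ ln ω σ = L σ) ∧
      (∀ m N, ∀ᶠ ω in 𝒢 b, A N (e ω m) fun i => w (.inr (.inl (m, i)))) ∧
      (∀ m, w (.inr (.inr m)) = false → ∃ n, ∀ ω ∈ P (res b n), e ω m = fun i => w (.inr (.inl (m, i)))) ∧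
      ∀ m, w (.inr (.inr m)) = true → ∃ n, m < n ∧ Free l e (P (res b n)) m := fun b w h => by
    choose c n hc using ob b
    refine ⟨fun σ => (c σ 0 0).1, fun σ => (gp b (n σ 0 0)).mono fun x k => ?_, fun m N => ?_,
      fun m k => ?_, fun m k => ?_⟩
    · obtain ⟨a, h1, h2⟩ := ((h (.inl σ)).and (ev b (n σ 0 0))).exists
      exact ⟨(congrArg (·.2.1) ((hc _ _ _ _ k).trans (hc _ _ _ _ h2).symm)).trans h1,
        congrArg (·.1) (hc _ _ _ _ k)⟩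
    · refine ((eventually_all_finset (Finset.range N)).2 fun i _ => (gp b (n (cst 0) m i)).mono
        fun x k => ?_).mono fun x k i c => k i (Finset.mem_range.2 c)
      obtain ⟨a, h1, h2⟩ := ((h (.inr (.inl (m, i)))).and (ev b (n (cst 0) m i))).exists
      exact (congrArg (·.2.2.1) ((hc _ _ _ _ k).trans (hc _ _ _ _ h2).symm)).trans h1
    · rcases ((p2 (res b m)).1 (b m)).2.2 with ⟨y, hy⟩ | hy <;> rw [res_length] at hy
      · refine ⟨m + 1, fun x hx => funext fun i => ?_⟩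
        obtain ⟨a, h1, h2⟩ := ((h (.inr (.inl (m, i)))).and (ev b (m + 1))).exists
        rw [← h1, hy x hx, ← hy _ h2]; rfl
      · obtain ⟨a, h1, h2⟩ := ((h (.inr (.inr m))).and (eventually_ge_atTop (m + 1))).exists
        have := fm (an b h2) hy
        simp [Ψ, this, k] at h1
    · obtain ⟨a, h1, h2⟩ := ((h (.inr (.inr m))).and (eventually_gt_atTop m)).exists
      exact ⟨a, h2, by simpa [Ψ, k] using h1⟩
  obtain ⟨w, ⟨⟨b, hb⟩, w2⟩, w3⟩ := hd Ψ fun R hR => by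
    have : ∀ (b : C) i, ∃ c, ∀ᶠ n in atTop, Ψ (res b n) i = c := by
      rintro b (σ | ⟨m, k⟩ | m)
      · obtain ⟨c, n, h⟩ := ob b σ 0 0
        exact ⟨_, (ev b n).mono fun k x => congrArg (·.2.1) (h _ x)⟩
      · obtain ⟨c, n, h⟩ := ob b (cst 0) m k
        exact ⟨_, (ev b n).mono fun k x => congrArg (·.2.2.1) (h _ x)⟩
      · by_cases c : ∃ n, Free l e (P (res b n)) m
        · exact ⟨true, (eventually_ge_atTop c.choose).mono fun k h => by
            simpa [Ψ] using fm (an b h) c.choose_spec⟩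
        · exact ⟨false, Eventually.of_forall fun k => by simpa [Ψ] using fun h => c ⟨k, h⟩⟩
    choose w hw using this
    choose L l1 l2 l3 l4 using fun b => fa b (w b) (hw b)
    obtain ⟨b, hb⟩ : ∃ b, Disjoint (fr (w b)) (R ∪ range fun z : List Bool × ℕ => e (ω z.1) z.2) := by
      by_contra! k
      choose y y1 y2 using fun b => not_disjoint_iff.1 (k b)
      choose m m1 m2 using y1
      choose n n1 n2 using fun b => l4 b _ (m1 b)
      refine (mk_le_of_injective (f := fun b => ((⟨y b, y2 b⟩, m b, res b (n b)) :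
        ↥(R ∪ range fun z : List Bool × ℕ => e (ω z.1) z.2) × ℕ × List Bool)) fun b b' h =>
          by_contra fun c => ?_).not_gt ?_
      · simp only [Prod.mk.injEq, Subtype.mk.injEq] at h
        have e1 : n b = n b' := by simpa using congrArg List.length h.2.2
        have c := Function.ne_iff.1 c
        have e2 : res b (Nat.find c) = res b' (Nat.find c) :=
          res_eq_res.2 fun _ k => not_not.1 (Nat.find_min c k)
        have e3 : n b ≤ Nat.find c := not_lt.1 fun k => Nat.find_spec c (res_eq_res.1 (e1 ▸ h.2.2) k)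
        obtain ⟨N, hN⟩ := (p2 (res b (Nat.find c))).2
        have := hN (m b) (by rw [res_length]; exact (n1 b).trans_le e3) (fm (an b e3) (n2 b))
        obtain ⟨x, x1, x2⟩ := ((gp b (Nat.find c + 1)).and (l2 b (m b) N)).exists
        obtain ⟨x', x3, x4⟩ := ((gp b' (Nat.find c + 1)).and (l2 b' (m b') N)).exists
        have x5 : A N (e x (m b)) (e x' (m b)) := by
          have := m2 b; have := m2 b'
          simp_all only
          exact x2.trans x4.symm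
        rw [res_succ] at x1 x3
        rw [← e2] at x3
        have k := Nat.find_spec c
        cases h1 : b (Nat.find c) <;> cases h2 : b' (Nat.find c) <;> rw [h1] at x1 k <;>
          rw [h2] at x3 k
        exacts [k rfl, this _ x1 _ x3 x5, this _ x3 _ x1 x5.symm, k rfl]
      · simp only [mk_prod, lift_id, mk_pi, prod_const, mk_fintype, Fintype.card_bool, mk_nat]
        refine lt_of_lt_of_le (mul_lt_of_lt aleph0_le_continuum ((mk_union_le _ _).trans_lt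
          (add_lt_of_lt aleph0_le_continuum hR ((countable_range _).le_aleph0.trans_lt
            aleph0_lt_continuum))) (by simpa using aleph0_lt_continuum)) (by simp)
    refine ⟨w b, ⟨⟨b, hw b⟩, fun m k h1 h2 h3 => ?_⟩, hb.mono_right subset_union_left,
      fun m i => w b (.inr (.inl (m, i))), L b, fun σ τ h => ?_⟩
    · obtain ⟨n, hn⟩ := l3 b k h2
      exact disjoint_left.1 hb ⟨m, h1, rfl⟩ (Or.inr ⟨(res b n, k), (hn _ (hω _)).trans h3.symm⟩)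
    · obtain ⟨N, n1, n2⟩ := (σ.2.and τ.2).exists
      obtain ⟨x, x1, x2, x3⟩ := ((l1 b σ).and ((l1 b τ).and ((eventually_all_finset
        (Finset.range (L b σ))).2 fun m _ => l2 b m N))).exists
      simp only [← x1.1, ← x2.1]
      refine hc x σ τ fun m hm => ?_
      rw [x1.2] at hm
      rw [n1 _ _ (x3 m (Finset.mem_range.2 hm)), n2 _ _ (x3 m (Finset.mem_range.2 hm)), h m hm]
  obtain ⟨L, l1, l2, l3, l4⟩ := fa b w hb
  refine ⟨𝒢 b, _, _, L, {m | w (.inr (.inr m)) = true}, nb b, gl b, l1, l2, fun m k => ?_,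
    fun m h => ?_, fun m h => ⟨fun y => ?_, w3 _ ⟨m, h, rfl⟩, fun k c => w2 m k h (by simpa using c)⟩⟩
  · obtain ⟨c, n, h⟩ := ob b (cst 0) m k
    exact ⟨_, (gp b n).mono fun x k => congrArg (·.2.2.2) (h x k)⟩
  · obtain ⟨n, hn⟩ := l3 m (by simpa using h)
    exact (gp b n).mono hn
  · obtain ⟨n, -, hn⟩ := l4 m h
    exact ((hn y).filter_mono (gl b)).mp (gp b n |>.mono fun _ a b => b a)

end Pool.Agent.H30.D2
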