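import Pool.Agent.H30.D2c

set_option autoImplicit false

namespace Pool.Agent.H30.D2

open Set Filter Topology Cardinal PiNat TopologicalSpace

lemma free (W : ℕ → Set C) (hW : ∀ k, ¬ (W k).Countable) (T : ℕ → C → Finset C) :
    ∃ r : ℕ → C, (∀ k, r k ∈ W k) ∧ ∀ k l, k ≠ l → r k ∉ T l (r l) := by
  have st : ∀ k (V : {V : ℕ → Set C // ∀ k, ¬ (V k).Countable}), ∃ t ∈ V.1 k,
      ∀ l, ¬ {r | r ∈ V.1 l ∧ t ∉ T l r ∧ r ∉ T k t}.Countable := fun k V => by
    by_contra! h
    refine V.2 k ((countable_iUnion fun l => (?_ : {t | {r | r ∈ V.1 l ∧ t ∉ T l r}.Countable}.Finite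
      ).countable).mono fun t ht => ?_)
    · by_contra c
      obtain ⟨B, b1, b2, b3⟩ :=
        (show ∃ B ⊆ {t | {r | r ∈ V.1 l ∧ t ∉ T l r}.Countable}, B.Infinite ∧ B.Countable from
          ⟨range fun n => (Set.Infinite.natEmbedding _ c n).1, range_subset_iff.2 fun n =>
            (Set.Infinite.natEmbedding _ c n).2, infinite_range_of_injective (Subtype.val_injective.comp
              (Set.Infinite.natEmbedding _ c).injective), countable_range _⟩)
      refine V.2 l ((b3.biUnion b1).mono fun r hr => ?_)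
      obtain ⟨t, h1, h2⟩ := b2.exists_notMem_finset (T l r)
      exact mem_biUnion h1 ⟨hr, h2⟩
    · obtain ⟨l, hl⟩ := h t ht
      exact mem_iUnion.2 ⟨l, (hl.union (T k t).countable_toSet).mono fun r a =>
        (em (r ∈ T k t)).elim Or.inr fun b => Or.inl ⟨a.1, a.2, b⟩⟩
  choose t t1 t2 using st
  let V : ℕ → {V : ℕ → Set C // ∀ k, ¬ (V k).Countable} := fun k =>
    Nat.rec ⟨W, hW⟩ (fun k V => ⟨_, t2 k V⟩) k
  have an : ∀ l, Antitone fun k => (V k).1 l := fun l => antitone_nat_of_succ_le fun _ _ h => h.1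
  have : ∀ k l, k < l → t k (V k) ∉ T l (t l (V l)) ∧ t l (V l) ∉ T k (t k (V k)) := fun k l h =>
    (an l (Nat.succ_le_of_lt h) (t1 l (V l))).2
  refine ⟨fun k => t k (V k), fun k => an k (Nat.zero_le k) (t1 k _), fun k l h => ?_⟩
  rcases lt_or_gt_of_ne h with c | c
  exacts [(this k l c).1, (this l k c).2]

def col (k : ℕ) : Fin 3 := if Even k then 0 else 1

lemma col_ne (k : ℕ) : col (k + 1) ≠ col k := by
  by_cases h : Even k <;> simp [col, Nat.even_add_one, h]

theorem star (S : ℕ → C → Finset X) : ∃ (g : X → Fin 3) (r : ℕ → C), Continuous g ∧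
    StrictMono (fun k => (d (r k)).2.2) ∧ (d (r 0)).2.2 = 0 ∧ ∀ k, ∀ x ∈ S k (r k), g x = ev x (r k) := by
  classical
  have : ∀ k r, ∃ N, ∀ x ∈ S k r, (∀ n, x ≠ .inr (r, n)) → ∀ u, A N u r → ev x u = ev x r :=
    fun k r => ((eventually_all_finset _).2 fun x _ => by
      by_cases c : ∀ n, x ≠ .inr (r, n)
      exacts [(ev_loc x r c).mono fun _ a _ => a, Eventually.of_forall fun _ a => (c a).elim]).exists
  choose δ hδ using this
  have st : ∀ k (s : {s : Q × C × ℕ // ∀ u, A s.2.2 u s.2.1 → s.1.1 u = col k}),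
      ∃ s' : {s : Q × C × ℕ // ∀ u, A s.2.2 u s.2.1 → s.1.1 u = col (k + 1)},
        s.1.2.2 < s'.1.2.2 ∧ A s.1.2.2 s'.1.2.1 s.1.2.1 ∧
        s'.1.1 = md s.1.1 s'.1.2.1 s'.1.2.2 (col (k + 1)) ∧ ¬ {t | A s'.1.2.2 t s'.1.2.1 ∧
          d t = (s.1.1, col (k + 1), s.1.2.2) ∧ δ k t ≤ s'.1.2.2}.Countable := by
    rintro k ⟨⟨σ, a, L⟩, h⟩
    have := data.choose_spec.2.2 (σ, col (k + 1), L) a L fun u b => h u b ▸ col_ne k
    by_contra! c
    refine this ((countable_iUnion fun s : List Bool => (?_ : {t | (A L t a ∧ d t = (σ, col (k + 1), L)) ∧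
      res t (L + 1 + δ k t) = s}.Countable)).mono fun t ht => mem_iUnion.2 ⟨_, And.intro ht rfl⟩)
    rcases eq_empty_or_nonempty {t | (A L t a ∧ d t = (σ, col (k + 1), L)) ∧
      res t (L + 1 + δ k t) = s} with e | ⟨b, b1, rfl⟩
    · simp [e]
    refine (c ⟨(md σ b (L + 1 + δ k b) (col (k + 1)), b, L + 1 + δ k b), fun u => md_in⟩ (by dsimp only; omega) b1.1 rfl).mono
      fun t ht => ?_
    have e : δ k t = δ k b := by simpa using congrArg List.length ht.2
    exact ⟨fun m i => res_eq_res.1 (e ▸ ht.2) i, ht.1.2, by dsimp only; omega⟩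
  choose F f1 f2 f3 f4 using st
  let s : ∀ k, {s : Q × C × ℕ // ∀ u, A s.2.2 u s.2.1 → s.1.1 u = col k} := fun k =>
    Nat.rec ⟨(cst 0, fun _ => true, 0), fun _ _ => rfl⟩ F k
  obtain ⟨r, r1, r2⟩ := free _ (fun k => f4 k (s k)) fun k r => (S k r).image
    (Sum.elim (fun _ => r) Prod.fst)
  have mo : StrictMono fun k => (s k).1.2.2 := strictMono_nat_of_lt_succ fun k => f1 k (s k)
  have ag : ∀ k l, k ≤ l → A (s k).1.2.2 (s l).1.2.1 (s k).1.2.1 := fun k l h => by
    induction h with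
    | refl => exact A.refl _ _
    | step h ih => exact ((f2 _ (s _)).mono (mo.monotone h)).trans ih
  let ρ : C := fun m => (s (m + 1)).1.2.1 m
  have ρ1 : ∀ k, A (s k).1.2.2 ρ (s k).1.2.1 := fun k m h =>
    (ag _ _ (le_max_left (m + 1) k) m (mo.le_apply (x := m + 1))).symm.trans
      (ag _ _ (le_max_right _ _) m h)
  have ρ2 : ∀ k, A (s (k + 1)).1.2.2 ρ (r k) := fun k => (ρ1 (k + 1)).trans (r1 k).1.symm
  have dr : ∀ k, d (r k) = ((s k).1.1, col (k + 1), (s k).1.2.2) := fun k => (r1 k).2.1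
  refine ⟨Sum.elim (fun σ => σ.1 ρ) fun z => if ∃ k, z.1 = r k ∧ .inr z ∈ S k (r k) then
    ev (.inr z) z.1 else ev (.inr z) ρ, r, (cont_iff _).2 fun σ => ?_, by simpa only [dr] using mo,
      by rw [dr]; rfl, ?_⟩
  · obtain ⟨N, hN⟩ := σ.2.exists
    obtain ⟨l, l1, l2⟩ : ∃ l, N ≤ l ∧ col l ≠ σ.1 ρ := by
      by_cases c : col N = σ.1 ρ
      exacts [⟨N + 1, by omega, c ▸ col_ne N⟩, ⟨N, le_rfl, c⟩]
    obtain ⟨u, u1, u2⟩ : ∃ u, A (s l).1.2.2 u ρ ∧ ¬ A (s (l + 1)).1.2.2 u ρ :=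
      ⟨Function.update ρ _ (!ρ (s l).1.2.2), fun m k => Function.update_of_ne k.ne _ _,
        fun h => by simpa using h _ (f1 l (s l))⟩
    have u3 : ∀ k, l ≤ k → (s k).1.1.1 u = col l := fun k h => by
      induction h with
      | refl => exact (s l).2 u (u1.trans (ρ1 l))
      | @step m h ih =>
        refine (congrArg (·.1 u) (f3 _ (s _))).trans ((md_out fun c => u2 ?_).trans ih)
        exact (c.trans (ρ1 (m + 1)).symm).mono (mo.monotone (Nat.succ_le_succ h))
    obtain ⟨G, hG⟩ := fin_sep σ (E := ⋃ k ∈ Iic l, Sum.inr ⁻¹' (S k (r k) : Set X))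
      ((finite_Iic l).biUnion fun k _ => (S k (r k)).finite_toSet.preimage Sum.inr_injective.injOn)
    refine ⟨insert u (insert ρ G), ?_⟩
    simp only [Finset.forall_mem_insert]
    rintro (τ | ⟨t, n⟩) h
    · exact h.2.1
    refine (if_neg ?_).trans h.2.1
    rintro ⟨k, rfl, c⟩
    by_cases a : k ≤ l
    · exact hG _ (mem_biUnion a c) h.2.2
    have b : ¬ A (s k).1.2.2 u (r k) := fun b => u2 ((b.trans ((ρ2 k).symm.mono
      (mo.monotone k.le_succ))).mono (mo.monotone (not_le.1 a)))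
    refine l2 ?_
    rw [← hN u ρ (u1.mono (l1.trans mo.le_apply)), ← h.1, ev_ne n fun e : u = r k => b (e ▸ A.refl _ _), tie, dr,
      md_out fun c => b (c.mono (Nat.le_add_left _ _)), u3 k (not_le.1 a).le]
  · rintro k (σ | ⟨t, n⟩) h
    · exact hδ k _ _ h (fun _ e => by cases e) ρ ((ρ2 k).mono (r1 k).2.2)
    by_cases c : t = r k
    · exact (if_pos ⟨k, c, h⟩).trans (by rw [c])
    refine (if_neg ?_).trans (hδ k _ _ h (fun _ e => by cases e; exact c rfl) ρ
      ((ρ2 k).mono (r1 k).2.2))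
    rintro ⟨l, rfl, -⟩
    exact r2 l k (fun e => c (by rw [e])) (Finset.mem_image.2 ⟨_, h, rfl⟩)

abbrev Z := {f : X → Bool // Continuous f}

def pr (g : X → Fin 3) (h : Continuous g) : Z × Z :=
  (⟨fun x => decide (g x = 1), (continuous_of_discreteTopology (f := fun i => decide (i = 1))).comp h⟩,
    ⟨fun x => decide (g x = 2), (continuous_of_discreteTopology (f := fun i => decide (i = 2))).comp h⟩)

noncomputable def p (r : C) : Z × Z := pr _ (ev_cont r)

def B (z : Z × Z) (S : Finset X) : Set (Z × Z) := {y | ∀ x ∈ S, y.1.1 x = z.1.1 x ∧ y.2.1 x = z.2.1 x}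

lemma B_nhds (z : Z × Z) (S : Finset X) : B z S ∈ 𝓝 z := (eventually_all_finset S).2 fun x _ =>
  (((continuous_apply x).comp (continuous_subtype_val.comp continuous_fst)).continuousAt.eventually
    ((isOpen_discrete {z.1.1 x}).mem_nhds rfl)).and
  (((continuous_apply x).comp (continuous_subtype_val.comp continuous_snd)).continuousAt.eventually
    ((isOpen_discrete {z.2.1 x}).mem_nhds rfl))

lemma B_sub {z : Z × Z} {U : Set (Z × Z)} (h : U ∈ 𝓝 z) : ∃ S, B z S ⊆ U := by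
  by_contra! k
  choose y y1 y2 using fun S => not_subset.1 (k S)
  have e : ∀ x, ∀ᶠ S : Finset X in atTop, x ∈ S := fun x =>
    (eventually_ge_atTop {x}).mono fun _ => Finset.singleton_subset_iff.1
  have : Tendsto y atTop (𝓝 z) := (Prod.tendsto_iff _ _).2
    ⟨tendsto_subtype_rng.2 (tendsto_pi_nhds.2 fun x => tendsto_const_nhds.congr'
      ((e x).mono fun S a => (y1 S x a).1.symm)), tendsto_subtype_rng.2 (tendsto_pi_nhds.2 fun x =>
        tendsto_const_nhds.congr' ((e x).mono fun S a => (y1 S x a).2.symm))⟩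
  exact (this.eventually h).exists.elim y2

lemma star' (U : ℕ → C → Set (Z × Z)) (h : ∀ k r, U k r ∈ 𝓝 (p r)) : ∃ (z : Z × Z) (r : ℕ → C),
    StrictMono (fun k => (d (r k)).2.2) ∧ (d (r 0)).2.2 = 0 ∧ ∀ k, z ∈ U k (r k) := by
  choose S hS using fun k r => B_sub (h k r)
  obtain ⟨g, r, h1, h2, h3, h4⟩ := star S
  exact ⟨pr g h1, r, h2, h3, fun k => hS _ _ fun x a => by simp [pr, p, h4 k x a]⟩

lemma disc (z : Z × Z) : ∃ t, ∀ᶠ y in 𝓝 z, ∀ r, y = p r → r = t := by
  classical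
  have inj : ∀ i j : Fin 3, decide (i = 1) = decide (j = 1) → decide (i = 2) = decide (j = 2) →
    i = j := by decide
  let β : ℕ → Q := fun m => ⟨fun r => if r m then 1 else 0, (eventually_gt_atTop m).mono
    fun n h r s a => by simp only [a m h]⟩
  let t : C := fun m => z.1.1 (.inl (β m))
  refine ⟨t, ?_⟩
  by_cases c : ∀ σ, z.1.1 (.inl σ) = (p t).1.1 (.inl σ) ∧ z.2.1 (.inl σ) = (p t).2.1 (.inl σ)
  · obtain ⟨F, hF⟩ := (cont_iff _).1 (z.1.2.prodMk z.2.2) (d t).1
    obtain ⟨n, hn⟩ : ∃ n, ∀ r ∈ F, ev (.inr (t, n)) r = (d t).1.1 r :=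
      ((eventually_all_finset F (l := atTop)).2 fun r _ => by
        by_cases a : r = t
        · exact Eventually.of_forall fun n => a ▸ ev_eq _ n
        · exact ((tendsto_add_atTop_nat (d t).2.2).eventually (A_ne a)).mono fun n k => by
            rw [ev_ne n a, tie, md_out k]).exists
    refine mem_of_superset (B_nhds z {.inr (t, n), .inl (tie t n)}) ?_
    rintro _ h r rfl
    simp only [B, mem_ofPred_eq, Finset.forall_mem_insert, Finset.mem_singleton, forall_eq] at h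
    have e := Prod.ext_iff.1 (hF _ hn)
    simp only [c] at e h
    by_contra a
    have e1 : ev (.inr (t, n)) r = (d t).1.1 t := inj _ _ (h.1.1.trans e.1) (h.1.2.trans e.2)
    have e2 : (tie t n).1 r = (tie t n).1 t := inj _ _ h.2.1 h.2.2
    rw [ev_ne n a, e2, tie, md_in (A.refl _ _)] at e1
    exact data.choose_spec.1 t e1
  · obtain ⟨σ, c⟩ := not_forall.1 c
    obtain ⟨N, hN⟩ := σ.2.exists
    refine mem_of_superset (B_nhds z (insert (.inl σ) ((Finset.range N).image fun m => .inl (β m)))) ?_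
    rintro _ h r rfl
    have : σ.1 r = σ.1 t := hN r t fun m a => by
      have := (h _ (Finset.mem_insert_of_mem (Finset.mem_image_of_mem _ (Finset.mem_range.2 a)))).1
      rw [show t m = _ from this.symm]
      cases e : r m <;> simp [p, pr, ev, β, e]
    have e := h _ (Finset.mem_insert_self _ _)
    exact (c (by rw [← e.1, ← e.2]; simp [p, pr, ev, this])).elim

lemma p_inj : Function.Injective p := fun r s e => by
  obtain ⟨t, h⟩ := disc (p r)
  exact (h.self_of_nhds r rfl).trans (h.self_of_nhds s e).symm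

lemma p_closed (H : Set C) : IsClosed (p '' H) := by
  refine isOpen_compl_iff.1 (isOpen_iff_mem_nhds.2 fun z hz => ?_)
  obtain ⟨t, h⟩ := disc z
  by_cases c : t ∈ H
  · refine mem_of_superset (inter_mem h (isOpen_ne.mem_nhds fun e : z = p t => hz ⟨t, c, e.symm⟩)) ?_
    rintro _ k ⟨r, -, rfl⟩
    exact k.2 (by rw [k.1 r rfl])
  · refine mem_of_superset h ?_
    rintro _ k ⟨r, a, rfl⟩
    exact c (k r rfl ▸ a)

theorem not_normal : ¬ NormalSpace (Z × Z) := fun h => by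
  classical
  obtain ⟨U, V, h1, h2, h3, h4, h5⟩ := h.normal _ _ (p_closed {r | (d r).2.2 = 0})
    (p_closed {r | (d r).2.2 = 0}ᶜ) ((disjoint_image_iff p_inj).2 disjoint_compl_right)
  obtain ⟨z, r, r1, r2, r3⟩ := star' (fun _ r => if (d r).2.2 = 0 then U else V) fun _ r => by
    split_ifs with c
    exacts [h1.mem_nhds (h3 ⟨r, c, rfl⟩), h2.mem_nhds (h4 ⟨r, c, rfl⟩)]
  have a := r3 0
  have b := r3 1
  rw [if_pos r2] at a
  rw [if_neg (show (d (r 1)).2.2 ≠ 0 from (r1 Nat.one_pos).ne_bot)] at b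
  exact disjoint_left.1 h5 a b

lemma cover (z : Z × Z) : ∃ t, z ∈ (p '' {t}ᶜ)ᶜ :=
  (disc z).imp fun _ h ⟨r, a, b⟩ => a (h.self_of_nhds r b.symm)

lemma cover' {r t : C} (h : p r ∈ (p '' {t}ᶜ)ᶜ) : r = t := by_contra fun c => h ⟨r, c, rfl⟩

end Pool.Agent.H30.D2
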