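import Mathlib

set_option autoImplicit false

namespace Pool.Agent.H30.ND

open Set Filter Topology

lemma cf {X : Type} {s : Set X} (hs : s.Countable) : {F : Finset X | ↑F ⊆ s}.Countable :=
  ((countable_ofPred_finite_subset hs).preimage_of_injOn (f := fun F : Finset X => (F : Set X))
    Finset.coe_injective.injOn).mono fun F hF => And.intro F.finite_toSet hF

lemma hull {X : Type} (Φ : Finset X → Finset X → Set X) (h : ∀ F E, (Φ F E).Countable) :
    ∃ M : Set X, M.Countable ∧ ∀ F E : Finset X, ↑F ⊆ M → ↑E ⊆ M → Φ F E ⊆ M := by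
  let M : ℕ → Set X := fun n => Nat.rec ∅
    (fun _ s => s ∪ ⋃ F ∈ {F : Finset X | ↑F ⊆ s}, ⋃ E ∈ {F : Finset X | ↑F ⊆ s}, Φ F E) n
  have hm : Monotone M := monotone_nat_of_le_succ fun _ => subset_union_left
  have hc : ∀ n, (M n).Countable := fun n => by
    induction n with
    | zero => exact countable_empty
    | succ n ih => exact ih.union ((cf ih).biUnion fun F _ => (cf ih).biUnion fun E _ => h F E)
  refine ⟨⋃ n, M n, countable_iUnion hc, fun F E hF hE => ?_⟩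
  obtain ⟨a, ha⟩ := hm.directed_le.exists_mem_subset_of_finset_subset_biUnion hF
  obtain ⟨b, hb⟩ := hm.directed_le.exists_mem_subset_of_finset_subset_biUnion hE
  refine subset_iUnion_of_subset (max a b + 1) (subset_union_of_subset_right ?_ _)
  exact subset_iUnion₂_of_subset F (ha.trans (hm (le_max_left _ _)))
    (subset_iUnion₂_of_subset E (hb.trans (hm (le_max_right _ _))) subset_rfl)

abbrev W := WType fun S : Set ℕ => S

def A : W → Set W
  | ⟨_, f⟩ => {x | x ∈ range f ∧ ∀ i, ∃ F : Finset W, Disjoint ↑F (A (f i)) ∧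
      (f '' {j | Disjoint ↑F (A (f j))}).Finite}

def Disc (D : Set W) : Prop :=
  ∀ d ∈ D, ∃ F : Finset W, Disjoint ↑F (A d) ∧ {e | e ∈ D ∧ Disjoint ↑F (A e)}.Finite

lemma A_disc : ∀ y, Disc (A y)
  | ⟨_, f⟩ => by
    rintro _ ⟨⟨i, rfl⟩, h⟩
    obtain ⟨F, h1, h2⟩ := h i
    refine ⟨F, h1, h2.subset ?_⟩
    rintro _ ⟨⟨⟨j, rfl⟩, -⟩, k⟩
    exact ⟨j, k, rfl⟩

lemma A_count : ∀ y, (A y).Countable
  | ⟨_, f⟩ => (countable_range f).mono fun _ h => h.1

lemma wf (y : W) : ∀ S f, y = ⟨S, f⟩ → y ∉ range f := by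
  induction y with | mk S f ih
  rintro T g h ⟨i, hi⟩
  cases h
  exact ih i S f hi ⟨i, rfl⟩

lemma A_not : ∀ y, y ∉ A y
  | ⟨S, f⟩ => fun h => wf _ S f rfl h.1

lemma A_ex {D : Set W} (hc : D.Countable) (h : Disc D) : ∃ y, A y = D := by
  obtain ⟨S, f, rfl⟩ : ∃ (S : Set ℕ) (f : S → W), range f = D := by
    rcases D.eq_empty_or_nonempty with rfl | hn
    · exact ⟨∅, fun i => i.2.elim, range_eq_empty _⟩
    · obtain ⟨g, rfl⟩ := hc.exists_eq_range hn
      exact ⟨univ, fun i => g i, by ext; simp⟩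
  refine ⟨⟨S, f⟩, subset_antisymm (fun _ h => h.1) fun x hx => ⟨hx, fun i => ?_⟩⟩
  obtain ⟨F, h1, h2⟩ := h _ ⟨i, rfl⟩
  refine ⟨F, h1, h2.subset ?_⟩
  rintro _ ⟨j, k, rfl⟩
  exact ⟨⟨j, rfl⟩, k⟩

lemma big (N : ℕ) : ∀ (I : Type) (s : I → Finset W), (∀ a, (s a).card ≤ N) →
    (∀ M : Set W, M.Countable → ∃ a, Disjoint ↑(s a) M) →
    ∃ J : Set I, J.Countable ∧ ∀ D, Disc D → ∃ a ∈ J, Disjoint ↑(s a) D := by
  classical
  induction N with
  | zero =>
    intro I s h1 h2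
    obtain ⟨a, -⟩ := h2 ∅ countable_empty
    exact ⟨{a}, countable_singleton a, fun D _ => ⟨a, rfl, by
      simp [Finset.card_eq_zero.1 (Nat.le_zero.1 (h1 a))]⟩⟩
  | succ N ih =>
    intro I s h1 h2
    have : ∀ F E : Finset W, ∃ (J : Set (I × W)) (M : Set W), J.Countable ∧ M.Countable ∧
        (∀ p ∈ J, Disjoint ↑F (A p.2) ∧ p.2 ∉ E) ∧
        ((∀ D, Disc D → ∃ p ∈ J, Disjoint ↑((s p.1).erase p.2) D) ∨ ∀ a, ∀ x ∈ s a,
          Disjoint ↑F (A x) → x ∉ E → ¬ Disjoint ↑((s a).erase x) M) := fun F E => by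
      by_cases h : ∃ M : Set W, M.Countable ∧ ∀ a, ∀ x ∈ s a,
          Disjoint ↑F (A x) → x ∉ E → ¬ Disjoint ↑((s a).erase x) M
      · obtain ⟨M, k1, k2⟩ := h
        exact ⟨∅, M, countable_empty, k1, by simp, Or.inr k2⟩
      · push Not at h
        obtain ⟨J, k1, k2⟩ := ih {p : I × W // p.2 ∈ s p.1 ∧ Disjoint ↑F (A p.2) ∧ p.2 ∉ E}
          (fun p => (s p.1.1).erase p.1.2) (fun p => by
            have := h1 p.1.1
            rw [Finset.card_erase_of_mem p.2.1]; omega) fun M hM => by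
            obtain ⟨a, x, c1, c2, c3, c4⟩ := h M hM
            exact ⟨⟨(a, x), c1, c2, c3⟩, c4⟩
        refine ⟨Subtype.val '' J, ∅, k1.image _, countable_empty, ?_, Or.inl fun D hD => ?_⟩
        · rintro _ ⟨p, -, rfl⟩; exact p.2.2
        · obtain ⟨p, hp, k⟩ := k2 D hD
          exact ⟨_, ⟨p, hp, rfl⟩, k⟩
    choose J M' c1 c2 c3 c4 using this
    obtain ⟨M, hM, hc⟩ := hull
      (fun F E => M' F E ∪ (Prod.snd '' J F E ∪ (⋃ p ∈ J F E, A p.2))) fun F E =>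
      (c2 F E).union (((c1 F E).image _).union ((c1 F E).biUnion fun p _ => A_count _))
    obtain ⟨a, ha⟩ := h2 M hM
    have cf := cf hM
    refine ⟨insert a (⋃ F ∈ {F : Finset W | ↑F ⊆ M}, ⋃ E ∈ {F : Finset W | ↑F ⊆ M},
      Prod.fst '' J F E), (cf.biUnion fun F _ => cf.biUnion fun E _ => (c1 F E).image _).insert a,
      fun D hD => ?_⟩
    by_cases k : Disjoint ↑(s a) D
    · exact ⟨a, mem_insert _ _, k⟩
    obtain ⟨x, hx, hx'⟩ := not_disjoint_iff.1 k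
    obtain ⟨F, k1, k2⟩ := hD x hx'
    have hF : ↑(F.filter (· ∈ M)) ⊆ M := fun z hz => (Finset.mem_filter.1 hz).2
    have hE : ↑(k2.toFinset.filter (· ∈ M)) ⊆ M := fun z hz => (Finset.mem_filter.1 hz).2
    have hs := hc _ _ hF hE
    rcases c4 (F.filter (· ∈ M)) (k2.toFinset.filter (· ∈ M)) with h | h
    · obtain ⟨p, hp, k3⟩ := h D hD
      refine ⟨p.1, Or.inr (mem_iUnion₂.2 ⟨_, hF, mem_iUnion₂.2 ⟨_, hE, p, hp, rfl⟩⟩),
        disjoint_left.2 fun z hz hz' => ?_⟩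
      by_cases e : z = p.2
      · refine (c3 _ _ p hp).2 (Finset.mem_filter.2 ⟨k2.mem_toFinset.2 ⟨e ▸ hz', disjoint_left.2
          fun w hw hw' => ?_⟩, hs (Or.inr (Or.inl ⟨p, hp, rfl⟩))⟩)
        exact disjoint_left.1 (c3 _ _ p hp).1 (Finset.mem_filter.2 ⟨hw,
          hs (Or.inr (Or.inr (mem_biUnion hp hw')))⟩) hw'
      · exact disjoint_left.1 k3 (Finset.mem_erase.2 ⟨e, hz⟩) hz'
    · exact absurd (ha.mono (Finset.coe_subset.2 (Finset.erase_subset x _)) fun z hz => hs (Or.inl hz)) (h a x hx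
        (k1.mono_left (Finset.coe_subset.2 (Finset.filter_subset _ _))) fun h' => disjoint_left.1 ha hx (hE h'))

lemma red (N : ℕ) : ∀ (I : Type) (s : I → Finset W), (∀ a, (s a).card ≤ N) →
    ∃ J : Set I, J.Countable ∧ ∀ y a, Disjoint ↑(s a) (A y) → ∃ b ∈ J, Disjoint ↑(s b) (A y) := by
  classical
  induction N with
  | zero =>
    intro I s h1
    rcases isEmpty_or_nonempty I with h | ⟨⟨a⟩⟩
    · exact ⟨∅, countable_empty, fun _ a => h.elim a⟩
    · exact ⟨{a}, countable_singleton a, fun _ _ _ => ⟨a, rfl, by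
        simp [Finset.card_eq_zero.1 (Nat.le_zero.1 (h1 a))]⟩⟩
  | succ N ih =>
    intro I s h1
    by_cases h : ∀ M : Set W, M.Countable → ∃ a, Disjoint ↑(s a) M
    · obtain ⟨J, k1, k2⟩ := big _ I s h1 h
      exact ⟨J, k1, fun y _ _ => k2 _ (A_disc y)⟩
    push Not at h
    obtain ⟨M, hM, h⟩ := h
    choose J k1 k2 using fun z => ih {a // z ∈ s a} (fun a => (s a).erase z) fun a => by
      have := h1 a
      rw [Finset.card_erase_of_mem a.2]; omega
    refine ⟨⋃ z ∈ M, Subtype.val '' J z, hM.biUnion fun z _ => (k1 z).image _, fun y a ha => ?_⟩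
    obtain ⟨z, hz, hz'⟩ := not_disjoint_iff.1 (h a)
    obtain ⟨b, hb, k⟩ := k2 z y ⟨a, hz⟩ (ha.mono_left (by simp [Finset.erase_subset]))
    refine ⟨b, mem_biUnion hz' ⟨b, hb, rfl⟩, disjoint_left.2 fun w hw hw' => ?_⟩
    by_cases e : w = z
    · exact disjoint_left.1 ha hz (e ▸ hw')
    · exact disjoint_left.1 k (Finset.mem_erase.2 ⟨e, hw⟩) hw'

def sub : Set (Set W) := {U | (∃ x, U = {y | x ∉ A y}) ∨ ∃ q, U = {q}ᶜ}

instance : TopologicalSpace W := TopologicalSpace.generateFrom sub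

lemma op {U : Set W} (h : U ∈ sub) : IsOpen U := TopologicalSpace.GenerateOpen.basic U h

instance : T1Space W := ⟨fun q => ⟨op (Or.inr ⟨q, rfl⟩)⟩⟩

lemma nb {U : Set W} (hU : IsOpen U) {p : W} (hp : p ∈ U) : ∃ (F : Finset W) (E : Set W),
    E.Finite ∧ Disjoint ↑F (A p) ∧ ∀ e, Disjoint ↑F (A e) → e ∉ E → e ∈ U := by
  classical
  induction hU with
  | basic U h =>
    rcases h with ⟨x, rfl⟩ | ⟨q, rfl⟩
    · exact ⟨{x}, ∅, by simp, by simpa using hp, by simp⟩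
    · exact ⟨∅, {q}, by simp, by simp, fun e _ h => h⟩
  | univ => exact ⟨∅, ∅, by simp, by simp, fun _ _ _ => trivial⟩
  | inter s t _ _ h1 h2 =>
    obtain ⟨F, E, a1, a2, a3⟩ := h1 hp.1
    obtain ⟨F', E', b1, b2, b3⟩ := h2 hp.2
    refine ⟨F ∪ F', E ∪ E', a1.union b1, by simp [a2, b2], fun e c1 c2 => ?_⟩
    rw [Finset.coe_union, disjoint_union_left] at c1
    exact ⟨a3 e c1.1 fun h => c2 (Or.inl h), b3 e c1.2 fun h => c2 (Or.inr h)⟩
  | sUnion S _ h =>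
    obtain ⟨s, hs, hp⟩ := hp
    obtain ⟨F, E, a1, a2, a3⟩ := h s hs hp
    exact ⟨F, E, a1, a2, fun e c1 c2 => ⟨s, hs, a3 e c1 c2⟩⟩

instance : HereditarilyLindelofSpace W := ⟨fun s _ => by
  refine isLindelof_of_countable_subcover fun {ι} U hU hs => ?_
  choose i hi using fun y : s => mem_iUnion.1 (hs y.2)
  choose F E h1 h2 h3 using fun y : s => nb (hU (i y)) (hi y)
  choose J k1 k2 using fun N => red N {y : s // (F y).card ≤ N} (fun y => F y) fun y => y.2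
  let K : Set s := ⋃ N, Subtype.val '' J N
  have hK : K.Countable := countable_iUnion fun N => (k1 N).image _
  refine ⟨i '' (K ∪ Subtype.val ⁻¹' ⋃ y ∈ K, E y), (hK.union ((hK.biUnion fun y _ =>
    (h1 y).countable).preimage Subtype.val_injective)).image _, fun y hy => ?_⟩
  obtain ⟨b, hb, k⟩ := k2 _ y ⟨⟨y, hy⟩, le_rfl⟩ (h2 ⟨y, hy⟩)
  have : b.1 ∈ K := mem_iUnion.2 ⟨_, b, hb, rfl⟩
  by_cases e : y ∈ E b
  · exact mem_biUnion (x := i ⟨y, hy⟩) ⟨_, Or.inr (mem_biUnion this e), rfl⟩ (hi ⟨y, hy⟩)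
  · exact mem_biUnion (x := i b) ⟨_, Or.inl this, rfl⟩ (h3 _ y k e)⟩

lemma main {D : Set W} (h : DiscreteTopology D) : (⋃ x ∈ D, {y | x ∉ A y}) ≠ univ := fun e => by
  obtain ⟨y, rfl⟩ := A_ex (D := D) ((HereditarilyLindelofSpace.isLindelof D).countable h) fun d hd => by
    obtain ⟨U, hU, e⟩ := isOpen_induced_iff.1 (isOpen_discrete ({⟨d, hd⟩} : Set D))
    obtain ⟨F, E, h1, h2, h3⟩ := nb hU (p := d) (e.ge rfl)
    refine ⟨F, h2, (h1.insert d).subset fun z hz => ?_⟩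
    by_cases k : z ∈ E
    · exact Or.inr k
    · exact Or.inl (congrArg Subtype.val (e.le (show (⟨z, hz.1⟩ : D) ∈ Subtype.val ⁻¹' U from
        h3 z hz.2 k)))
  obtain ⟨x, h1, h2⟩ := mem_iUnion₂.1 (e.ge (mem_univ y))
  exact h2 h1

end Pool.Agent.H30.ND
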