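import Mathlib

set_option autoImplicit false

namespace Pool.Agent.H30.Sigma

open Set Filter Topology

abbrev I := Set ℕ × ℝ
abbrev K := I → Bool

def D : Set K := {x | {i | x i = true}.Countable}

lemma free {C : Set I} (hC : C.Countable) : ∃ t : ℝ, ∀ A, (A, t) ∉ C := by
  have : (Prod.snd '' C)ᶜ.Nonempty := by
    rw [nonempty_compl]
    intro e
    exact Cardinal.not_countable_real (e ▸ hC.image _)
  obtain ⟨t, ht⟩ := this
  exact ⟨t, fun A h => ht ⟨_, h, rfl⟩⟩

lemma box {J : Type*} {U : Set (J → Bool)} (hU : IsOpen U) {y : J → Bool} (hy : y ∈ U) :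
    ∃ F : Finset J, ∀ x : J → Bool, (∀ i ∈ F, x i = y i) → x ∈ U := by
  obtain ⟨F, u, h1, h2⟩ := isOpen_pi_iff.1 hU y hy
  exact ⟨F, fun x hx => h2 fun i hi => hx i hi ▸ (h1 i hi).2⟩

lemma shd (U : ℕ → Set K) (hU : ∀ n, IsOpen (U n) ∧ (U n).Nonempty) :
    ∃ x : ℕ → K, (∀ n, x n ∈ U n) ∧
    ∀ φ : ℕ → ℕ, StrictMono φ → ∀ p : K, ¬ Tendsto (x ∘ φ) atTop (𝓝 p) := by
  classical
  choose y hy using fun n => (hU n).2
  choose F hF using fun n => box (hU n).1 (hy n)
  obtain ⟨t, ht⟩ := free (C := ⋃ n, (F n : Set I)) (countable_iUnion fun n => (F n).countable_toSet)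
  refine ⟨fun n i => if i.2 = t then decide (n ∈ i.1) else y n i, fun n => hF n _ fun i hi => ?_,
    fun φ hφ p hp => ?_⟩
  · refine if_neg fun e => ht i.1 (mem_iUnion.2 ⟨n, ?_⟩)
    rw [← e]; exact hi
  · have h1 := ((continuous_apply (range fun k => φ (2 * k), t)).tendsto p).comp hp
    rw [nhds_discrete, tendsto_pure, eventually_atTop] at h1
    obtain ⟨N, hN⟩ := h1
    have a := hN (2 * N) (by omega)
    have b := hN (2 * N + 1) (by omega)
    rw [← b] at a
    simp only [Function.comp, if_true, mem_range, decide_eq_decide] at a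
    obtain ⟨k, hk⟩ := a.1 ⟨N, rfl⟩
    have := hφ.injective hk
    omega

lemma dense_cnt {J : Type*} : Dense {x : J → Bool | {i | x i = true}.Countable} := by
  classical
  rw [dense_iff_inter_open]
  rintro U hU ⟨y, hy⟩
  obtain ⟨F, hF⟩ := box hU hy
  refine ⟨fun i => if i ∈ F then y i else false, hF _ fun i hi => if_pos hi, ?_⟩
  refine F.countable_toSet.mono fun i hi => ?_
  by_contra hh
  have : ¬ i ∈ F := hh
  simp [this] at hi

lemma seq (x : ℕ → D) : ∃ φ : ℕ → ℕ, StrictMono φ ∧ ∃ p : D, Tendsto (x ∘ φ) atTop (𝓝 p) := by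
  classical
  let S : Set I := ⋃ n, {i | (x n).1 i = true}
  have hS : S.Countable := countable_iUnion fun n => (x n).2
  haveI := hS.to_subtype
  obtain ⟨a, φ, hφ, ha⟩ := CompactSpace.tendsto_subseq (fun n => fun i : S => (x n).1 i)
  refine ⟨φ, hφ, ⟨fun i => if h : i ∈ S then a ⟨i, h⟩ else false, hS.mono fun i hi => ?_⟩, ?_⟩
  · by_contra hh
    simp [hh] at hi
  · rw [tendsto_subtype_rng, tendsto_pi_nhds]
    intro i
    by_cases h : i ∈ S
    · simpa [h] using tendsto_pi_nhds.1 ha ⟨i, h⟩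
    · have : ∀ n, (x n).1 i = false := fun n => by
        by_contra hh
        exact h (mem_iUnion.2 ⟨n, by simpa using hh⟩)
      simp [h, this]

lemma ne_univ : D ≠ univ := by
  intro e
  have : (fun _ => true : K) ∈ D := e ▸ mem_univ _
  obtain ⟨t, ht⟩ := free this
  exact ht ∅ rfl

end Pool.Agent.H30.Sigma
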