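import Mathlib
import Pool.Agent.H30.DL
import Pool.Agent.H30.ND
import Pool.Agent.H30.Sigma

set_option autoImplicit false

namespace Pool.Agent.H30.DS

open Set Filter Topology Cardinal Pool.Agent.H30.DL Pool.Agent.H30.Sigma

lemma hulls {α J : Type} {ν : Cardinal} (h0 : ℵ₀ ≤ ν) (hν : ν ^ #J ≤ ν) (k : α)
    (Φ : (J → α) → Set α) (h : ∀ f, #(Φ f) ≤ ν) :
    ∃ M : Set α, #M ≤ ν ∧ k ∈ M ∧ ∀ f, (∀ j, f j ∈ M) → Φ f ⊆ M := by
  have : ∀ f, ∃ g : ν.out → α, Φ f ⊆ range g := fun f => by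
    obtain ⟨e⟩ := (Cardinal.le_def _ _).1 ((h f).trans_eq (mk_out ν).symm)
    exact ⟨Function.extend e Subtype.val fun _ => k, fun x hx =>
      ⟨e ⟨x, hx⟩, e.injective.extend_apply _ _ _⟩⟩
  choose op hop using this
  let ev : WType (fun o : Option ν.out => {_j : J // o ≠ none}) → α := WType.elim α fun p =>
    match p with
    | ⟨none, _⟩ => k
    | ⟨some q, g⟩ => op (fun j => g ⟨j, by simp⟩) q
  refine ⟨range ev, mk_range_le.trans (WType.cardinalMk_le_of_le ?_),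
    ⟨⟨none, fun j => absurd rfl j.2⟩, rfl⟩, fun f hf x hx => ?_⟩
  · refine (sum_le_sum _ (fun _ => ν) fun o => ?_).trans ?_
    · exact (power_le_power_left (aleph0_pos.trans_le h0).ne' (mk_subtype_le _)).trans hν
    · rw [sum_const', mk_option, mk_out, add_one_eq h0, mul_eq_self h0]
  · choose w hw using hf
    obtain ⟨q, rfl⟩ := hop f hx
    exact ⟨⟨some q, fun j => w j⟩, by rw [← funext hw]; rfl⟩

lemma tv {K ι : Type} (hι : ℵ₀ ≤ #ι) (k : K) (A : ι → Set (K → Bool))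
    (hA : ∀ i, (2 : Cardinal) ^ (2 : Cardinal) ^ (2 : Cardinal) ^ #ι < #(A i)) :
    ∃ d : ι → K → Bool, (∀ i, d i ∈ A i) ∧ DiscreteTopology (range d) := by
  classical
  set ν : Cardinal := (2 : Cardinal) ^ (2 : Cardinal) ^ (2 : Cardinal) ^ #ι
  have l1 := cantor #ι
  have l2 := cantor (2 ^ #ι)
  have l3 : (2 : Cardinal) ^ (2 : Cardinal) ^ #ι < ν := cantor _
  have hν : #ι ≤ ν := (l1.trans (l2.trans l3)).le
  have h0 := hι.trans hν
  have hp : ν ^ #(ι × Bool) ≤ ν := by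
    rw [← power_mul, mul_eq_left (hι.trans (l1.trans l2).le) _ (mk_ne_zero_iff.2 _)]
    · simpa using (mul_le_mul' le_rfl (ofNat_le_aleph0.trans hι)).trans
        ((mul_eq_self hι).trans_le (l1.trans l2).le)
    · obtain ⟨i⟩ := mk_ne_zero_iff.1 (aleph0_pos.trans_le hι).ne'
      exact ⟨(i, true)⟩
  let B : ι → (ι × Bool → K) → Set (K → Bool) := fun i f =>
    {d | d ∈ A i ∧ ∀ j, d (f (j, true)) = d (f (j, false))}
  have : ∀ i f, ∃ T ⊆ B i f, #T ≤ ν ∧ (T = B i f ∨ #T = ν) := fun i f => by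
    by_cases h : #(B i f) ≤ ν
    · exact ⟨_, subset_rfl, h, Or.inl rfl⟩
    · obtain ⟨T, h1, h2⟩ := le_mk_iff_exists_subset.1 (not_le.1 h).le
      exact ⟨T, h1, h2.le, Or.inr h2⟩
  choose T t1 t2 t3 using this
  have : ∀ d e : K → Bool, ∃ ξ, d ≠ e → d ξ ≠ e ξ := fun d e => by
    by_contra! h
    exact (h k).1 (funext fun ξ => (h ξ).2)
  choose sep hsep using this
  obtain ⟨M, m1, m2, m3⟩ := hulls h0 hp k (fun f => ⋃ i, image2 sep (T i f) (T i f)) fun f =>
    le_of_cover _ h0 hν fun i => mk_image2_le.trans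
      ((mul_le_mul' (t2 i f) (t2 i f)).trans_eq (mul_eq_self h0))
  have : ∀ i, ∃ a ∈ A i, ∀ f : ι × Bool → M, a ∉ T i fun j => f j := fun i => by
    by_contra! h
    refine absurd ((mk_le_mk_of_subset fun a ha => mem_iUnion.2 (h a ha)).trans
      (le_of_cover _ h0 ?_ fun f => t2 _ _)) (not_le.2 (hA i))
    rw [mk_arrow, lift_id, lift_id]
    exact (power_le_power_right m1).trans hp
  choose a a1 a2 using this
  let Q : (K → Bool) × K × K → Prop := fun c => c.2.1 ∈ M ∧ c.2.2 ∈ M ∧ ∀ j, a j c.2.1 = a j c.2.2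
  have step : ∀ (i) (g : ι → (K → Bool) × K × K), ∃ c, (∀ j, Q (g j)) → Q c ∧ c.1 ∈ A i ∧
      (∀ j, c.1 (g j).2.1 = c.1 (g j).2.2) ∧ (∀ j, (g j).1 c.2.1 = (g j).1 c.2.2) ∧
      c.1 c.2.1 ≠ c.1 c.2.2 := fun i g => by
    by_cases hg : ∀ j, Q (g j)
    swap
    · exact ⟨g i, fun h => absurd h hg⟩
    let f : ι × Bool → M := fun j => if j.2 then ⟨_, (hg j.1).1⟩ else ⟨_, (hg j.1).2.1⟩
    have hT : #(T i fun j => f j) = ν := (t3 _ _).resolve_left fun e =>
      a2 i f (e ▸ ⟨a1 i, fun j => (hg j).2.2 i⟩)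
    let ψ : K → ι × Bool → Bool := fun ξ j => if j.2 then a j.1 ξ else (g j.1).1 ξ
    by_contra! h
    have hf : ∀ d ∈ T i fun j => f j, ∀ ξ ∈ M, ∀ η ∈ M, ψ ξ = ψ η → d ξ = d η :=
      fun d hd ξ h1 η h2 e => (h (d, ξ, η)).2 ⟨h1, h2, fun j => congrFun e (j, true)⟩
        (t1 _ _ hd).1 (t1 _ _ hd).2 fun j => congrFun e (j, false)
    have := mk_le_of_injective (f := fun (d : T i fun j => f j) (p : ι × Bool → Bool) =>
      decide (∃ ξ ∈ M, ψ ξ = p ∧ d.1 ξ = true)) fun d e hde => Subtype.ext (by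
        by_contra hn
        have hs : sep d e ∈ M := m3 _ (fun j => (f j).2) (mem_iUnion.2 ⟨i, d, d.2, e, e.2, rfl⟩)
        have := decide_eq_decide.1 (congrFun hde (ψ (sep d e)))
        refine hsep _ _ hn (Bool.eq_iff_iff.2 ⟨fun h => ?_, fun h => ?_⟩)
        · obtain ⟨ξ, h1, h2, h3⟩ := this.1 ⟨_, hs, rfl, h⟩
          rwa [← hf _ e.2 ξ h1 _ hs h2]
        · obtain ⟨ξ, h1, h2, h3⟩ := this.2 ⟨_, hs, rfl, h⟩
          rwa [← hf _ d.2 ξ h1 _ hs h2])
    rw [hT] at this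
    simp only [mk_pi, prod_const, lift_id, mk_bool, mk_prod, Cardinal.mul_eq_left hι
      (ofNat_le_aleph0.trans hι) two_ne_zero] at this
    exact absurd this (not_le.2 l3)
  choose st hst using step
  have wf : WellFounded (WellOrderingRel (α := ι)) := IsWellFounded.wf
  let G : ι → (K → Bool) × K × K := wf.fix fun i prev =>
    st i fun j => if h : WellOrderingRel j i then prev j h else (a i, k, k)
  have hG : ∀ i, G i = st i fun j => if WellOrderingRel j i then G j else (a i, k, k) := fun i => by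
    rw [show G i = _ from wf.fix_eq _ i]; rfl
  have q0 : ∀ i, (∀ j, WellOrderingRel j i → Q (G j)) →
      ∀ j, Q (if WellOrderingRel j i then G j else (a i, k, k)) := fun i ih j => by
    split_ifs with h
    · exact ih j h
    · exact ⟨m2, m2, fun _ => rfl⟩
  have q1 : ∀ i, Q (G i) := fun i => wf.induction i fun i ih => hG i ▸ (hst i _ (q0 i ih)).1
  have q2 := fun i => (hst i _ (q0 i fun j _ => q1 j)).2
  simp only [← hG] at q2
  refine ⟨fun i => (G i).1, fun i => (q2 i).1, discreteTopology_iff_isOpen_singleton.2 ?_⟩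
  rintro ⟨_, i, rfl⟩
  refine isOpen_induced_iff.2 ⟨{x | x (G i).2.1 ≠ x (G i).2.2}, isOpen_ne_fun (by fun_prop)
    (by fun_prop), ?_⟩
  ext ⟨_, j, rfl⟩
  refine ⟨fun h => ?_, fun h => ?_⟩
  · rcases trichotomous_of WellOrderingRel i j with k | rfl | k
    · exact absurd (by simpa [k] using (q2 j).2.1 i) h
    · rfl
    · exact absurd (by simpa [k] using (q2 i).2.2.1 j) h
  · rw [mem_preimage, show (⟨(G j).1, _⟩ : range _) = _ from h]
    exact (q2 i).2.2.2

noncomputable def b : ℕ → Cardinal.{0}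
  | 0 => ℵ₀
  | n + 1 => 2 ^ b n

lemma b_mono : Monotone b := monotone_nat_of_le_succ fun _ => (cantor _).le

lemma b0 (n : ℕ) : ℵ₀ ≤ b n := b_mono (Nat.zero_le n)

abbrev K := Σ n, (b n).out

lemma b_lt (n : ℕ) : b n < #K := (cantor _).trans_le ((mk_out (b (n + 1))).symm.trans_le
  (mk_le_of_injective (sigma_mk_injective (β := fun n => (b n).out))))

instance : Infinite K := infinite_iff.2 (b_lt 0).le

lemma large {D : Set (K → Bool)} (hD : Dense D) (F : Finset K) (y : K → Bool) (n : ℕ) :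
    b n < #{x | x ∈ D ∧ ∀ i ∈ F, x i = y i} := by
  classical
  by_contra! h
  have : ¬ InjOn (fun (ξ : K) (x : {x | x ∈ D ∧ ∀ i ∈ F, x i = y i}) => x.1 ξ) (↑F)ᶜ := fun k => by
    have := mk_le_of_injective k.injective
    rw [mk_compl_finset_of_infinite] at this
    · simp only [mk_pi, prod_const, lift_id, mk_bool] at this
      exact absurd (this.trans (power_le_power_left two_ne_zero h)) (not_le.2 (b_lt (n + 1)))
  simp only [InjOn, not_forall] at this
  obtain ⟨ξ, h1, η, h2, h3, h4⟩ := this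
  obtain ⟨x, k1, k2, k3⟩ := hD.exists_mem_open ((isOpen_set_pi F.finite_toSet
    (s := fun i => {y i}) fun _ _ => isOpen_discrete _).inter (isOpen_ne_fun (continuous_apply ξ)
    (continuous_apply η))) ⟨fun i => if i ∈ F then y i else decide (i = ξ), fun i hi => by
      simp [show i ∈ F from hi], by simp [show ξ ∉ F from h1, show η ∉ F from h2, Ne.symm h4]⟩
  exact k3 (congrFun h3 ⟨x, k1, k2⟩)

lemma dsep (D : ℕ → Set (K → Bool)) (hD : ∀ n, Dense (D n)) : ∃ F : ℕ → Set (K → Bool),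
    (∀ n, F n ⊆ D n ∧ DiscreteTopology (F n)) ∧ Dense (⋃ n, F n) := by
  classical
  have hL : ∀ n, #{x : K | x.1 ≤ n} ≤ b n := fun n => by
    refine (mk_le_mk_of_subset fun x hx => ?_).trans (le_of_cover (fun m : Fin (n + 1) =>
      range (Sigma.mk (β := fun n => (b n).out) m)) (b0 n) (mk_le_aleph0.trans (b0 n)) fun m =>
      mk_range_le.trans ((mk_out _).trans_le (b_mono (Nat.lt_succ_iff.1 m.2))))
    exact mem_iUnion.2 ⟨⟨x.1, Nat.lt_succ_iff.2 hx⟩, x.2, rfl⟩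
  have : ∀ n, ∃ d : ℕ × List {x : K | x.1 ≤ n} × List {x : K | x.1 ≤ n} → K → Bool,
      (∀ i, d i ∈ D n ∧ ∀ j ∈ (i.2.1.map Subtype.val).toFinset,
        d i j = decide (j ∈ i.2.2.map Subtype.val)) ∧ DiscreteTopology (range d) := fun n => by
    refine tv (aleph0_le_mk _) (Classical.arbitrary K)
      (fun i : ℕ × List {x : K | x.1 ≤ n} × List {x : K | x.1 ≤ n} => {x | x ∈ D n ∧
        ∀ j ∈ (i.2.1.map Subtype.val).toFinset, x j = decide (j ∈ i.2.2.map Subtype.val)}) fun i => lt_of_le_of_lt ?_ (large (hD n) _ _ (n + 3))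
    have := (mk_list_le_max _).trans (max_le (b0 n) (hL n))
    refine power_le_power_left two_ne_zero (power_le_power_left two_ne_zero
      (power_le_power_left two_ne_zero ?_))
    simp only [mk_prod, lift_id, mk_nat]
    exact mul_le_of_le (b0 n) (b0 n) (mul_le_of_le (b0 n) this this)
  choose d h1 h2 using this
  refine ⟨fun n => range (d n), fun n => ⟨range_subset_iff.2 fun i => (h1 n i).1, h2 n⟩,
    dense_iff_inter_open.2 ?_⟩
  rintro U hU ⟨y, hy⟩
  obtain ⟨F, hF⟩ := box hU hy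
  obtain ⟨n, hn⟩ := (F.image Sigma.fst).bddAbove
  have e : ∀ E ⊆ F, ∃ l : List {x : K | x.1 ≤ n}, ∀ j, j ∈ l.map Subtype.val ↔ j ∈ E := fun E hE =>
    ⟨E.toList.attach.map fun x => ⟨x.1, hn (Finset.mem_image_of_mem _
      (hE (Finset.mem_toList.1 x.2)))⟩, fun j => by simp⟩
  obtain ⟨l, hl⟩ := e F subset_rfl
  obtain ⟨l', hl'⟩ := e _ (F.filter_subset (y · = true))
  refine ⟨d n (0, l, l'), hF _ fun j hj => ?_, mem_iUnion.2 ⟨n, _, rfl⟩⟩
  rw [(h1 n _).2 j (List.mem_toFinset.2 ((hl j).2 hj))]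
  simp only [hl']
  simp [hj]

lemma ccc {J : Type} {C : Set (Set (J → Bool))} (h : C.PairwiseDisjoint id)
    (h' : ∀ U ∈ C, IsOpen U ∧ U.Nonempty) : C.Countable := by
  classical
  choose! y hy using fun U hU => (h' U hU).2
  choose! F hF using fun U hU => box (h' U hU).1 (hy U hU)
  have : ∀ G E : Finset J, ∃ U, (∃ U ∈ C, ∀ j ∈ F U, j ∈ G → y U j = decide (j ∈ E)) →
      U ∈ C ∧ ∀ j ∈ F U, j ∈ G → y U j = decide (j ∈ E) := fun G E => by
    by_cases k : ∃ U ∈ C, ∀ j ∈ F U, j ∈ G → y U j = decide (j ∈ E)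
    · obtain ⟨U, k⟩ := k; exact ⟨U, fun _ => k⟩
    · exact ⟨∅, fun h => absurd h k⟩
  choose W hW using this
  obtain ⟨M, hM, hc⟩ := ND.hull (fun G E => ↑(F (W G E))) fun _ _ => Finset.countable_toSet _
  refine ((ND.cf hM).image2 (ND.cf hM) W).mono fun U hU => ?_
  have h1 : ↑((F U).filter (· ∈ M)) ⊆ M := fun x hx => (Finset.mem_filter.1 hx).2
  have h2 : ↑((F U).filter fun j => j ∈ M ∧ y U j = true) ⊆ M := fun x hx =>
    (Finset.mem_filter.1 hx).2.1
  obtain ⟨h3, h4⟩ := hW ((F U).filter (· ∈ M)) ((F U).filter fun j => j ∈ M ∧ y U j = true)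
    ⟨U, hU, fun j hj k => by simp [hj, (Finset.mem_filter.1 k).2]⟩
  refine ⟨_, h1, _, h2, h.elim_set h3 hU (fun j => if j ∈ F U then y U j else
    y (W ((F U).filter (· ∈ M)) ((F U).filter fun j => j ∈ M ∧ y U j = true)) j)
    (hF _ h3 _ fun j hj => ?_) (hF _ hU _ fun j hj => if_pos hj)⟩
  split_ifs with k
  · rw [h4 j hj (Finset.mem_filter.2 ⟨k, hc _ _ h1 h2 hj⟩)]
    simp [k, hc _ _ h1 h2 hj]
  · rfl

lemma nopi {ι : Type} [Countable ι] (C : ι → Set (Set (K → Bool)))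
    (h : ∀ i, (C i).PairwiseDisjoint id) (h' : ∀ i, ∀ U ∈ C i, IsOpen U ∧ U.Nonempty)
    (h2 : ∀ V, IsOpen V → V.Nonempty → ∃ i, ∃ U ∈ C i, U ⊆ V) : False := by
  classical
  have hc := countable_iUnion fun i => ccc (h i) (h' i)
  have k : ∀ U ∈ ⋃ i, C i, IsOpen U ∧ U.Nonempty := fun U hU => by
    obtain ⟨i, hi⟩ := mem_iUnion.1 hU; exact h' i U hi
  choose! y hy using fun U hU => (k U hU).2
  choose! F hF using fun U hU => box (k U hU).1 (hy U hU)
  have : (⋃ U ∈ ⋃ i, C i, (F U : Set K))ᶜ.Nonempty := nonempty_compl.2 fun e => by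
    have := le_aleph0_iff_set_countable.2 (hc.biUnion fun U _ => (F U).countable_toSet)
    rw [e, mk_univ] at this
    exact absurd this (not_le.2 (b_lt 0))
  obtain ⟨ξ, hξ⟩ := this
  obtain ⟨i, U, h3, h4⟩ := h2 {x | x ξ = true} ((isOpen_discrete {true}).preimage (f := fun x : K → Bool => x ξ) (by fun_prop)) ⟨fun _ => true, rfl⟩
  have h5 := mem_iUnion.2 ⟨i, h3⟩
  have := h4 (hF U h5 (Function.update (y U) ξ false) fun j hj => Function.update_of_ne
    (fun e : j = ξ => hξ (mem_biUnion h5 (e ▸ hj))) _ _)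
  simp at this

end Pool.Agent.H30.DS
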