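import Pool.Agent.H30.DiaDefs

set_option autoImplicit false

open Set Filter Topology Cardinal

namespace Pool.Agent.H30.Dia

open Pool.Agent.H30.Spl

abbrev Lv : Type := W1 → ℕ → W1 → ℕ

abbrev Nd : Type := W1 × ℕ

def Le (t : Lv) (x y : Nd) : Prop := x.1 ≤ y.1 ∧ ∀ ξ ≤ x.1, t x.1 x.2 ξ = t y.1 y.2 ξ

lemma Le.refl (t : Lv) (x : Nd) : Le t x x := ⟨le_rfl, fun _ _ => rfl⟩

lemma Le.trans {t : Lv} {x y z : Nd} (h : Le t x y) (h' : Le t y z) : Le t x z :=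
  ⟨h.1.trans h'.1, fun ξ hξ => (h.2 ξ hξ).trans (h'.2 ξ (hξ.trans h.1))⟩

lemma Le.congr {t t' : Lv} {x y : Nd} (h : Le t x y) (h1 : t x.1 = t' x.1) (h2 : t y.1 = t' y.1) :
    Le t' x y := ⟨h.1, fun ξ hξ => by rw [← h1, ← h2]; exact h.2 ξ hξ⟩

def DenseB (sp : Prop) (G : Set (Finset Nd)) (t : Lv) (α : W1) : Prop :=
  ∀ u : Finset Nd, (sp → u.card ≤ 1) → (∀ x ∈ u, x.1 < α) →
    ∃ d ∈ G, (∀ x ∈ d, x.1 < α) ∧ ∀ x ∈ u, ∃ y ∈ d, Le t x y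

structure Inv (sp : Prop) (G : W1 → Set (Finset Nd)) (t : Lv) (α : W1) : Prop where
  R : ∀ k, ∀ β ≤ α, ∃ l, Le t (β, l) (α, k)
  S : ∀ k v, ∃ l, (∀ ξ < α, t α l ξ = t α k ξ) ∧ t α l α = v
  P : ∀ β ≤ α, ∀ k (l : ℕ → ℕ) (n N : ℕ), ∃ l' : ℕ → ℕ, (∀ i < n, Le t (β, l i) (α, l' i)) ∧
    (sp → ∀ ξ, β < ξ → ξ ≤ α → (∀ i < n, t α k ξ ≤ N → N < t α (l' i) ξ) ∧
      ∀ i < n, ∀ j < n, i ≠ j → t α (l' i) ξ ≤ N → N < t α (l' j) ξ)
  F : sp → ∀ k l N, {ξ | ξ ≤ α ∧ (∃ η < ξ, t α k η ≠ t α l η) ∧ t α k ξ ≤ N ∧ t α l ξ ≤ N}.Finite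
  Seal : (∃ β, β < α) → DenseB sp (G α) t α → ∀ I : Finset ℕ, (sp → I.card ≤ 1) →
    ∃ d ∈ G α, (∀ x ∈ d, x.1 < α) ∧ ∀ k ∈ I, ∃ x ∈ d, Le t x (α, k)

lemma Inv.congr {sp : Prop} {G : W1 → Set (Finset Nd)} {t t' : Lv} {α : W1} (h : Inv sp G t α)
    (e : ∀ β ≤ α, t β = t' β) : Inv sp G t' α := by
  have e0 := e α le_rfl
  refine ⟨fun k β hβ => ?_, ?_, fun β hβ k l n N => ?_, ?_, fun h0 hd I hI => ?_⟩
  · obtain ⟨l, hl⟩ := h.R k β hβ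
    exact ⟨l, hl.congr (e β hβ) e0⟩
  · rw [← e0]; exact h.S
  · obtain ⟨l', h1, h2⟩ := h.P β hβ k l n N
    exact ⟨l', fun i hi => (h1 i hi).congr (e β hβ) e0, by rw [← e0]; exact h2⟩
  · rw [← e0]; exact h.F
  · obtain ⟨d, hd1, hd2, hd3⟩ := h.Seal h0 (fun u hu hu' => by
      obtain ⟨d, hd1, hd2, hd3⟩ := hd u hu hu'
      refine ⟨d, hd1, hd2, fun x hx => ?_⟩
      obtain ⟨y, hy, h3⟩ := hd3 x hx
      exact ⟨y, hy, h3.congr (e _ (hu' x hx).le).symm (e _ (hd2 y hy).le).symm⟩) I hI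
    refine ⟨d, hd1, hd2, fun k hk => ?_⟩
    obtain ⟨x, hx, h3⟩ := hd3 k hk
    exact ⟨x, hx, h3.congr (e _ (hd2 x hx).le) e0⟩

structure Cd where
  γ : W1
  s : ℕ → ℕ
  n : ℕ
  N : ℕ

def Ext (sp : Prop) (t : Lv) (p q : Cd) : Prop :=
  p.γ ≤ q.γ ∧ p.n ≤ q.n ∧ p.N ≤ q.N ∧ (∀ i < p.n, Le t (p.γ, p.s i) (q.γ, q.s i)) ∧
    (sp → ∀ ξ, p.γ < ξ → ξ ≤ q.γ → ∀ i < p.n, ∀ j < p.n, i ≠ j →
      t q.γ (q.s i) ξ ≤ p.N → p.N < t q.γ (q.s j) ξ)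

lemma Ext.refl (sp : Prop) (t : Lv) (p : Cd) : Ext sp t p p :=
  ⟨le_rfl, le_rfl, le_rfl, fun _ _ => Le.refl _ _, fun _ _ h1 h2 => absurd h1 (not_lt.2 h2)⟩

lemma Ext.trans {sp : Prop} {t : Lv} {p q r : Cd} (h : Ext sp t p q) (h' : Ext sp t q r) :
    Ext sp t p r := by
  obtain ⟨a1, a2, a3, a4, a5⟩ := h
  obtain ⟨b1, b2, b3, b4, b5⟩ := h'
  refine ⟨a1.trans b1, a2.trans b2, a3.trans b3, fun i hi => (a4 i hi).trans (b4 i (hi.trans_le a2)),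
    fun hs ξ h1 h2 i hi j hj hij h3 => ?_⟩
  rcases le_or_gt ξ q.γ with h4 | h4
  · have e1 := (b4 i (hi.trans_le a2)).2 ξ h4
    have e2 := (b4 j (hj.trans_le a2)).2 ξ h4
    simp only at e1 e2
    rw [← e2]
    rw [← e1] at h3
    exact a5 hs ξ h1 h4 i hi j hj hij h3
  · exact a3.trans_lt (b5 hs ξ h4 h2 i (hi.trans_le a2) j (hj.trans_le a2) hij (h3.trans a3))

variable {sp : Prop} {G : W1 → Set (Finset Nd)} {t : Lv} {α : W1}

lemma raise (H : ∀ β < α, Inv sp G t β) (p : Cd) (hp : p.γ < α) {β : W1} (hβ : β < α) (m : ℕ) :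
    ∃ q : Cd, q.γ < α ∧ Ext sp t p q ∧ β ≤ q.γ ∧ m ≤ q.n ∧ m ≤ q.N := by
  have h0 : max p.γ β < α := max_lt hp hβ
  obtain ⟨l', h1, h2⟩ := (H _ h0).P p.γ (le_max_left _ _) 0 p.s p.n p.N
  exact ⟨⟨max p.γ β, l', max p.n m, max p.N m⟩, h0, ⟨le_max_left _ _, le_max_left _ _,
    le_max_left _ _, h1, fun hs ξ a b => (h2 hs ξ a b).2⟩, le_max_right _ _, le_max_right _ _,
    le_max_right _ _⟩

def Prom (sp : Prop) (t : Lv) (k : ℕ) (β : W1) (l : List ℕ) (N : ℕ) (q : Cd) : Prop :=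
  k < q.n ∧ β ≤ q.γ ∧ N ≤ q.N ∧ ∃ j : ℕ → ℕ, (∀ i < l.length, j i < q.n ∧ j i ≠ k) ∧
    Function.Injective j ∧ (∀ i < l.length, Le t (β, l.getD i 0) (q.γ, q.s (j i))) ∧
    (sp → ∀ ξ, β < ξ → ξ ≤ q.γ → (∀ i < l.length, t q.γ (q.s k) ξ ≤ N → N < t q.γ (q.s (j i)) ξ) ∧
      ∀ i < l.length, ∀ i' < l.length, i ≠ i' → t q.γ (q.s (j i)) ξ ≤ N → N < t q.γ (q.s (j i')) ξ)

lemma prom (H : ∀ β < α, Inv sp G t β) (p : Cd) (hp : p.γ < α) (k : ℕ) {β : W1} (hβ : β < α)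
    (l : List ℕ) (N : ℕ) : ∃ q : Cd, q.γ < α ∧ Ext sp t p q ∧ Prom sp t k β l N q := by
  obtain ⟨q, h1, h2, h3, h4, h5⟩ := raise H p hp hβ (max (k + 1) N)
  have hk : k < q.n := (le_max_left _ _).trans h4
  obtain ⟨l', h6, h7⟩ := (H _ h1).P β h3 (q.s k) (fun i => l.getD i 0) l.length N
  let s' : ℕ → ℕ := fun r => if r < q.n then q.s r else l' (r - q.n)
  have e1 : ∀ r < q.n, s' r = q.s r := fun r hr => if_pos hr
  have e2 : ∀ i, s' (q.n + i) = l' i := fun i => by simp [s']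
  refine ⟨⟨q.γ, s', q.n + l.length, q.N⟩, h1, h2.trans ⟨le_rfl, Nat.le_add_right _ _, le_rfl,
    fun i hi => ?_, fun _ ξ a b => absurd a (not_lt.2 b)⟩, by simp only; omega, h3,
    (le_max_right _ _).trans h5, fun i => q.n + i, fun i hi => ⟨by simp only; omega, by simp only; omega⟩,
    fun a b hab => by simpa using hab, fun i hi => ?_, fun hs ξ a b => ?_⟩
  · simp only [e1 i hi]
    exact Le.refl _ _
  · simp only [e2]
    exact h6 i hi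
  · simp only [e2, e1 k hk]
    exact h7 hs ξ a b

def Sl (sp : Prop) (G : Set (Finset Nd)) (t : Lv) (α : W1) (I : Finset ℕ) (q : Cd) : Prop :=
  DenseB sp G t α → (sp → I.card ≤ 1) → (∀ i ∈ I, i < q.n) ∧
    ∃ d ∈ G, (∀ x ∈ d, x.1 < α) ∧ ∀ k ∈ I, ∃ x ∈ d, Le t x (q.γ, q.s k)

lemma sealing (H : ∀ β < α, Inv sp G t β) (p : Cd) (hp : p.γ < α) (I : Finset ℕ) :
    ∃ q : Cd, q.γ < α ∧ Ext sp t p q ∧ Sl sp (G α) t α I q := by
  classical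
  by_cases h0 : DenseB sp (G α) t α ∧ (sp → I.card ≤ 1)
  swap
  · exact ⟨p, hp, Ext.refl _ _ _, fun a b => absurd ⟨a, b⟩ h0⟩
  obtain ⟨q, h1, h2, -, h4, -⟩ := raise H p hp hp (I.sup id + 1)
  have hI : ∀ i ∈ I, i < q.n := fun i hi =>
    Nat.lt_of_lt_of_le (Nat.lt_succ_of_le (Finset.le_sup (f := id) hi)) h4
  obtain ⟨d, hd1, hd2, hd3⟩ := h0.1 (I.image fun i => (q.γ, q.s i))
    (fun hs => Finset.card_image_le.trans (h0.2 hs)) (fun x hx => by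
      obtain ⟨i, -, rfl⟩ := Finset.mem_image.1 hx
      exact h1)
  obtain ⟨z, hz1, hz2⟩ := (insert (q.γ, 0) d).exists_max_image Prod.fst (Finset.insert_nonempty _ _)
  have hz : z.1 < α := by
    rcases Finset.mem_insert.1 hz1 with rfl | h
    · exact h1
    · exact hd2 z h
  have hq : q.γ ≤ z.1 := hz2 _ (Finset.mem_insert_self _ _)
  have h5 : ∀ i, ∃ e, i ∈ I → Le t (q.γ, q.s i) (z.1, e) ∧ ∃ x ∈ d, Le t x (z.1, e) := by
    intro i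
    by_cases hi : i ∈ I
    swap
    · exact ⟨0, fun h => absurd h hi⟩
    obtain ⟨y, hy1, hy2⟩ := hd3 _ (Finset.mem_image_of_mem _ hi)
    obtain ⟨l', h6, -⟩ := (H _ hz).P y.1 (hz2 y (Finset.mem_insert_of_mem hy1)) 0 (fun _ => y.2) 1 0
    exact ⟨l' 0, fun _ => ⟨hy2.trans (h6 0 one_pos), y, hy1, h6 0 one_pos⟩⟩
  choose e he using h5
  obtain ⟨i0, hi0⟩ : ∃ i0, sp → ∀ i ∈ I, i = i0 := by
    rcases I.eq_empty_or_nonempty with rfl | ⟨i0, hi0⟩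
    · exact ⟨0, fun _ i hi => absurd hi (Finset.notMem_empty _)⟩
    · exact ⟨i0, fun hs i hi => Finset.card_le_one.1 (h0.2 hs) i hi i0 hi0⟩
  obtain ⟨l', h6, h7⟩ := (H _ hz).P q.γ hq (e i0) q.s q.n q.N
  let s' : ℕ → ℕ := fun r => if r ∈ I then e r else l' r
  have e1 : ∀ r ∈ I, s' r = e r := fun r hr => if_pos hr
  have e2 : ∀ r, r ∉ I → s' r = l' r := fun r hr => if_neg hr
  refine ⟨⟨z.1, s', q.n, q.N⟩, hz, h2.trans ⟨hq, le_rfl, le_rfl, fun i hi => ?_,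
    fun hs ξ a b i hi j hj hij h8 => ?_⟩, fun _ _ => ⟨hI, d, hd1, hd2, fun k hk => ?_⟩⟩
  · by_cases h : i ∈ I
    · simp only [e1 i h]
      exact (he i h).1
    · simp only [e2 i h]
      exact h6 i hi
  · simp only at h8 ⊢
    obtain ⟨h9, h10⟩ := h7 hs ξ a b
    by_cases h : i ∈ I
    · have h' : j ∉ I := fun h' => hij ((hi0 hs i h).trans (hi0 hs j h').symm)
      rw [e1 i h, hi0 hs i h] at h8
      rw [e2 j h']
      exact h9 j hj h8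
    · rw [e2 i h] at h8
      by_cases h' : j ∈ I
      · rw [e1 j h', hi0 hs j h']
        by_contra h11
        exact absurd (h9 i hi (not_lt.1 h11)) (not_lt.2 h8)
      · rw [e2 j h']
        exact h10 i hi j hj hij h8
  · simp only [e1 k hk]
    exact (he k hk).2

lemma generic {C T : Type} [Countable T] [Nonempty T] (E : C → C → Prop) (hr : ∀ p, E p p)
    (ht : ∀ p q r, E p q → E q r → E p r) (ok : C → Prop) (p0 : C) (h0 : ok p0) (D : T → C → Prop)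
    (hD : ∀ τ p, ok p → ∃ q, ok q ∧ E p q ∧ D τ q) :
    ∃ p : ℕ → C, (∀ m, ok (p m)) ∧ (∀ m m', m ≤ m' → E (p m) (p m')) ∧ ∀ τ, ∃ m, D τ (p m) := by
  obtain ⟨en, hen⟩ := exists_surjective_nat T
  choose! f hf1 hf2 hf3 using hD
  let p : ℕ → C := fun m => Nat.rec p0 (fun m q => f (en m) q) m
  have h1 : ∀ m, ok (p m) := fun m => by
    induction m with
    | zero => exact h0
    | succ m ih => exact hf1 _ _ ih
  refine ⟨p, h1, fun m m' h => ?_, fun τ => ?_⟩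
  · induction h with
    | refl => exact hr _
    | step _ ih => exact ht _ _ _ ih (hf2 _ _ (h1 _))
  · obtain ⟨m, rfl⟩ := hen τ
    exact ⟨m + 1, hf3 _ _ (h1 m)⟩

lemma stage (H : ∀ β < α, Inv sp G t β) : ∃ L, Inv sp G (Function.update t α L) α := by
  classical
  suffices h : ∃ b : ℕ → W1 → ℕ, (∀ i, ∀ β < α, ∃ l, ∀ ξ ≤ β, t β l ξ = b i ξ) ∧
      (∀ β < α, ∀ (k : ℕ) (l : ℕ → ℕ) (n N : ℕ), ∃ j : ℕ → ℕ,
        (∀ i < n, ∀ ξ ≤ β, t β (l i) ξ = b (j i) ξ) ∧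
        (sp → ∀ ξ, β < ξ → ξ < α → (∀ i < n, b k ξ ≤ N → N < b (j i) ξ) ∧
          ∀ i < n, ∀ i' < n, i ≠ i' → b (j i) ξ ≤ N → N < b (j i') ξ)) ∧
      (sp → ∀ k l N, {ξ | ξ < α ∧ (∃ η < ξ, b k η ≠ b l η) ∧ b k ξ ≤ N ∧ b l ξ ≤ N}.Finite) ∧
      ((∃ β, β < α) → DenseB sp (G α) t α → ∀ I : Finset ℕ, (sp → I.card ≤ 1) →
        ∃ d ∈ G α, (∀ x ∈ d, x.1 < α) ∧ ∀ k ∈ I, ∃ x ∈ d, ∀ ξ ≤ x.1, t x.1 x.2 ξ = b k ξ) by
    obtain ⟨b, b1, b2, b3, b4⟩ := h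
    let L : ℕ → W1 → ℕ := fun k ξ => if ξ = α then k.unpair.2 else b k.unpair.1 ξ
    have e1 : ∀ k, ∀ ξ < α, L k ξ = b k.unpair.1 ξ := fun k ξ h => if_neg h.ne
    have e2 : ∀ k, L k α = k.unpair.2 := fun k => if_pos rfl
    have e3 : ∀ β < α, Function.update t α L β = t β := fun β h => Function.update_of_ne h.ne _ _
    have e4 : Function.update t α L α = L := Function.update_self _ _ _
    have e5 : ∀ β < α, ∀ l k, (∀ ξ ≤ β, t β l ξ = b k.unpair.1 ξ) →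
        Le (Function.update t α L) (β, l) (α, k) := fun β hβ l k h =>
      ⟨hβ.le, fun ξ hξ => by
        simp only [e3 β hβ, e4]
        rw [e1 k ξ (lt_of_le_of_lt hξ hβ)]
        exact h ξ hξ⟩
    refine ⟨L, fun k β hβ => ?_, fun k v => ?_, fun β hβ k l n N => ?_, fun hs k l N => ?_,
      fun h0 hd I hI => ?_⟩
    · rcases hβ.eq_or_lt with rfl | hβ
      · exact ⟨k, Le.refl _ _⟩
      · obtain ⟨l, hl⟩ := b1 k.unpair.1 β hβ
        exact ⟨l, e5 β hβ l k hl⟩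
    · refine ⟨Nat.pair k.unpair.1 v, fun ξ hξ => ?_, ?_⟩
      · rw [e4, e1 _ ξ hξ, e1 _ ξ hξ, Nat.unpair_pair]
      · rw [e4, e2, Nat.unpair_pair]
    · rcases hβ.eq_or_lt with rfl | hβ
      · exact ⟨l, fun i _ => Le.refl _ _, fun _ ξ a b => absurd a (not_lt.2 b)⟩
      · obtain ⟨j, h1, h2⟩ := b2 β hβ k.unpair.1 l n N
        refine ⟨fun i => Nat.pair (j i) (N + 1), fun i hi => e5 β hβ _ _ (by
          simpa only [Nat.unpair_pair] using h1 i hi), fun hs ξ a c => ?_⟩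
        rw [e4]
        rcases c.eq_or_lt with rfl | c
        · simp only [e2, Nat.unpair_pair]
          exact ⟨fun _ _ _ => Nat.lt_succ_self _, fun _ _ _ _ _ _ => Nat.lt_succ_self _⟩
        · simp only [e1 _ ξ c, Nat.unpair_pair]
          exact h2 hs ξ a c
    · rw [e4]
      refine ((b3 hs k.unpair.1 l.unpair.1 N).insert α).subset ?_
      rintro ξ ⟨h1, ⟨η, h2, h3⟩, h4, h5⟩
      rcases h1.eq_or_lt with rfl | h1
      · exact mem_insert _ _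
      · rw [e1 _ η (h2.trans h1), e1 _ η (h2.trans h1)] at h3
        rw [e1 _ ξ h1] at h4 h5
        exact mem_insert_of_mem _ ⟨h1, ⟨η, h2, h3⟩, h4, h5⟩
    · obtain ⟨d, hd1, hd2, hd3⟩ := b4 h0 (fun u hu hu' => by
        obtain ⟨d, hd1, hd2, hd3⟩ := hd u hu hu'
        refine ⟨d, hd1, hd2, fun x hx => ?_⟩
        obtain ⟨y, hy, h3⟩ := hd3 x hx
        exact ⟨y, hy, h3.congr (e3 _ (hu' x hx)) (e3 _ (hd2 y hy))⟩)
        (I.image fun k => k.unpair.1) (fun hs => Finset.card_image_le.trans (hI hs))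
      refine ⟨d, hd1, hd2, fun k hk => ?_⟩
      obtain ⟨x, hx, h3⟩ := hd3 _ (Finset.mem_image_of_mem _ hk)
      exact ⟨x, hx, e5 x.1 (hd2 x hx) x.2 k h3⟩
  by_cases h0 : ∃ β, β < α
  swap
  · have h1 : ∀ β, ¬ β < α := fun β h => h0 ⟨β, h⟩
    exact ⟨fun _ _ => 0, fun _ β h => absurd h (h1 β), fun β h => absurd h (h1 β),
      fun _ _ _ _ => finite_empty.subset fun ξ h => h1 ξ h.1, fun h => absurd h h0⟩
  obtain ⟨β0, hβ0⟩ := h0
  have := (W1_Iio α).to_subtype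
  have : Nonempty (Iio α) := ⟨⟨β0, hβ0⟩⟩
  obtain ⟨p, p1, p2, p3⟩ := generic (T := (ℕ × Iio α × List ℕ × ℕ) ⊕ Finset ℕ) (Ext sp t)
    (Ext.refl sp t) (fun _ _ _ => Ext.trans) (fun p => p.γ < α) ⟨β0, fun _ => 0, 0, 0⟩ hβ0
    (Sum.elim (fun τ => Prom sp t τ.1 τ.2.1 τ.2.2.1 τ.2.2.2) (Sl sp (G α) t α)) (by
      rintro (τ | I) p hp
      · exact prom H p hp τ.1 τ.2.1.2 _ _
      · exact sealing H p hp I)
  have p4 : ∀ i, ∀ ξ < α, ∀ N m0, ∃ m, m0 ≤ m ∧ i < (p m).n ∧ ξ ≤ (p m).γ ∧ N ≤ (p m).N := by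
    intro i ξ hξ N m0
    obtain ⟨m, h1, h2, h3, -⟩ := p3 (Sum.inl (i, ⟨ξ, hξ⟩, [], N))
    obtain ⟨a1, a2, a3, -⟩ := p2 m (max m m0) (le_max_left _ _)
    exact ⟨max m m0, le_max_right _ _, lt_of_lt_of_le h1 a2, le_trans h2 a1, le_trans h3 a3⟩
  have p5 : ∀ i ξ, ∃ v, ξ < α → ∀ m, i < (p m).n → ξ ≤ (p m).γ → t (p m).γ ((p m).s i) ξ = v := by
    intro i ξ
    by_cases hξ : ξ < α
    swap
    · exact ⟨0, fun h => absurd h hξ⟩
    obtain ⟨m0, -, h1, h2, -⟩ := p4 i ξ hξ 0 0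
    refine ⟨t (p m0).γ ((p m0).s i) ξ, fun _ m h3 h4 => ?_⟩
    rcases le_total m m0 with h | h
    · exact ((p2 m m0 h).2.2.2.1 i h3).2 ξ h4
    · exact (((p2 m0 m h).2.2.2.1 i h1).2 ξ h2).symm
  choose b hb using p5
  have hb' : ∀ m, ∀ i < (p m).n, ∀ ξ ≤ (p m).γ, t (p m).γ ((p m).s i) ξ = b i ξ :=
    fun m i hi ξ hξ => hb i ξ (lt_of_le_of_lt hξ (p1 m)) m hi hξ
  have low : sp → ∀ m, ∀ ξ < α, (p m).γ < ξ → ∀ i < (p m).n, ∀ j < (p m).n, i ≠ j →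
      b i ξ ≤ (p m).N → (p m).N < b j ξ := by
    intro hs m ξ hξ h1 i hi j hj hij h2
    obtain ⟨m', h3, -, h4, -⟩ := p4 0 ξ hξ 0 m
    obtain ⟨-, a2, -, -, a5⟩ := p2 m m' h3
    rw [← hb' m' i (hi.trans_le a2) ξ h4] at h2
    rw [← hb' m' j (hj.trans_le a2) ξ h4]
    exact a5 hs ξ h1 h4 i hi j hj hij h2
  have low' : sp → ∀ m, ∀ N ≤ (p m).N, ∀ ξ < α, (p m).γ < ξ → ∀ i < (p m).n, ∀ j < (p m).n, i ≠ j →
      b i ξ ≤ N → N < b j ξ := fun hs m N hN ξ hξ h1 i hi j hj hij h2 =>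
    hN.trans_lt (low hs m ξ hξ h1 i hi j hj hij (h2.trans hN))
  refine ⟨b, fun i β hβ => ?_, fun β hβ k l n N => ?_, fun hs k l N => ?_, fun _ hd I hI => ?_⟩
  · obtain ⟨m, -, h1, h2, -⟩ := p4 i β hβ 0 0
    obtain ⟨l, hl⟩ := (H _ (p1 m)).R ((p m).s i) β h2
    exact ⟨l, fun ξ hξ => (hl.2 ξ hξ).trans (hb' m i h1 ξ (hξ.trans h2))⟩
  · obtain ⟨m, h1, h2, h3, j, h4, h5, h6, h7⟩ := p3 (Sum.inl (k, ⟨β, hβ⟩, (List.range n).map l, N))
    simp only [List.length_map, List.length_range] at h1 h2 h3 h4 h6 h7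
    refine ⟨j, fun i hi ξ hξ => ?_, fun hs ξ a c => ?_⟩
    · have e := (h6 i hi).2 ξ hξ
      have e' : ((List.range n).map l).getD i 0 = l i := by simp [hi]
      simp only [e'] at e
      exact e.trans (hb' m _ (h4 i hi).1 ξ (hξ.trans h2))
    · rcases le_or_gt ξ (p m).γ with h | h
      · obtain ⟨h8, h9⟩ := h7 hs ξ a h
        refine ⟨fun i hi => ?_, fun i hi i' hi' hii => ?_⟩
        · rw [← hb' m _ h1 ξ h, ← hb' m _ (h4 i hi).1 ξ h]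
          exact h8 i hi
        · rw [← hb' m _ (h4 i hi).1 ξ h, ← hb' m _ (h4 i' hi').1 ξ h]
          exact h9 i hi i' hi' hii
      · exact ⟨fun i hi => low' hs m N h3 ξ c h k h1 _ (h4 i hi).1 (h4 i hi).2.symm,
          fun i hi i' hi' hii => low' hs m N h3 ξ c h _ (h4 i hi).1 _ (h4 i' hi').1
            fun e => hii (h5 e)⟩
  · by_cases hkl : k = l
    · subst hkl
      exact finite_empty.subset fun ξ ⟨_, ⟨η, _, h⟩, _⟩ => h rfl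
    obtain ⟨m, -, h1, -, h2⟩ := p4 (max k l) β0 hβ0 N 0
    have hk : k < (p m).n := (le_max_left _ _).trans_lt h1
    have hl : l < (p m).n := (le_max_right _ _).trans_lt h1
    refine ((H _ (p1 m)).F hs ((p m).s k) ((p m).s l) N).subset ?_
    rintro ξ ⟨h3, ⟨η, h4, h5⟩, h6, h7⟩
    rcases le_or_gt ξ (p m).γ with h | h
    · refine ⟨h, ⟨η, h4, ?_⟩, ?_, ?_⟩
      · rwa [hb' m k hk η (h4.le.trans h), hb' m l hl η (h4.le.trans h)]
      · rwa [hb' m k hk ξ h]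
      · rwa [hb' m l hl ξ h]
    · exact absurd (low' hs m N h2 ξ h3 h k hk l hl hkl h6) (not_lt.2 h7)
  · obtain ⟨m, hm⟩ := p3 (Sum.inr I)
    obtain ⟨h1, d, h2, h3, h4⟩ := hm hd hI
    refine ⟨d, h2, h3, fun k hk => ?_⟩
    obtain ⟨x, hx, h5⟩ := h4 k hk
    exact ⟨x, hx, fun ξ hξ => (h5.2 ξ hξ).trans (hb' m k (h1 k hk) ξ (hξ.trans h5.1))⟩

lemma exists_inv (sp : Prop) (G : W1 → Set (Finset Nd)) : ∃ t : Lv, ∀ α, Inv sp G t α := by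
  classical
  obtain ⟨t, ht⟩ := wf_rec (T := W1) (β := ℕ → W1 → ℕ)
    (fun α f L => (∀ β < α, Inv sp G f β) → Inv sp G (Function.update f α L) α) (by
      intro α f
      by_cases h : ∀ β < α, Inv sp G f β
      · obtain ⟨L, hL⟩ := stage h
        exact ⟨L, fun _ => hL⟩
      · exact ⟨fun _ _ => 0, fun h' => absurd h' h⟩) (by
      intro α f g L e h h'
      refine (h fun β hβ => (h' β hβ).congr fun γ hγ => (e γ (hγ.trans_lt hβ)).symm).congr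
        fun β hβ => ?_
      rcases hβ.eq_or_lt with rfl | hβ
      · simp
      · rw [Function.update_of_ne hβ.ne, Function.update_of_ne hβ.ne, e β hβ])
  refine ⟨t, fun α => ?_⟩
  induction α using WellFoundedLT.induction with
  | ind α ih => simpa using ht α ih

/-- The tree obtained from the diamond principle. -/
structure Tr (sp : Prop) (t : Lv) : Prop where
  R : ∀ y : Nd, ∀ β ≤ y.1, ∃ l, Le t (β, l) y
  S : ∀ α k v, ∃ l, (∀ ξ < α, t α l ξ = t α k ξ) ∧ t α l α = v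
  E : ∀ x : Nd, ∀ β, x.1 ≤ β → ∃ l, Le t x (β, l)
  F : sp → ∀ α k l N,
    {ξ | ξ ≤ α ∧ (∃ η < ξ, t α k η ≠ t α l η) ∧ t α k ξ ≤ N ∧ t α l ξ ≤ N}.Finite
  G : ∀ D : Set (Finset Nd), (∀ u : Finset Nd, (sp → u.card ≤ 1) → ∃ d ∈ D, ∀ x ∈ u, ∃ y ∈ d, Le t x y) →
    ∃ δ, ∀ Y : Finset Nd, (sp → Y.card ≤ 1) → (∀ y ∈ Y, δ ≤ y.1) →
      ∃ d ∈ D, (∀ x ∈ d, x.1 < δ) ∧ ∀ y ∈ Y, ∃ x ∈ d, Le t x y

lemma cnt_below (δ : W1) : {x : Nd | x.1 < δ}.Countable :=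
  ((W1_Iio δ).prod (countable_univ (α := ℕ))).mono fun x hx => mk_mem_prod hx (mem_univ x.2)

theorem exists_tr (h : Diamond) (sp : Prop) : ∃ t, Tr sp t := by
  classical
  obtain ⟨A, -, hA⟩ := h
  obtain ⟨φ⟩ : Nonempty (Finset Nd ↪ W1) := by
    rw [← Cardinal.le_def]
    have : Infinite W1 := by
      rw [infinite_iff, mk_W1]
      exact aleph0_lt_aleph_one.le
    rw [mk_finset_of_infinite, mk_prod, mk_W1]
    simp
  obtain ⟨t, ht⟩ := exists_inv sp fun α => φ ⁻¹' A α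
  refine ⟨t, fun y β hβ => (ht y.1).R y.2 β hβ, fun α => (ht α).S, fun x β hβ => ?_,
    fun hs α => (ht α).F hs, fun D hD => ?_⟩
  · obtain ⟨l', h1, -⟩ := (ht β).P x.1 hβ 0 (fun _ => x.2) 1 0
    exact ⟨l' 0, h1 0 one_pos⟩
  choose! w hw1 hw2 using hD
  let c : Finset W1 → Set W1 := fun s => ⋃ u ∈ {u : Finset Nd | (u : Set Nd) ⊆ Prod.fst ⁻¹' (s : Set W1)},
    insert (φ u) (Prod.fst '' (w u : Set Nd))
  have hc : ∀ s, (c s).Countable := fun s => by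
    have h1 : (Prod.fst ⁻¹' (s : Set W1) : Set Nd).Countable :=
      (s.countable_toSet.prod (countable_univ (α := ℕ))).mono fun x hx => mk_mem_prod hx (mem_univ x.2)
    exact (cnt_finsets h1).biUnion fun u _ => ((w u).countable_toSet.image _).insert _
  obtain ⟨δ, ⟨hδ0, hδ⟩, hS⟩ := hA (φ '' D)
    {δ | (∃ a, a < δ) ∧ ∀ s : Finset W1, ↑s ⊆ Iio δ → c s ⊆ Iio δ} (by
      refine ⟨fun a => ?_, fun δ h1 h2 => ⟨h1, fun s hs => ?_⟩⟩
      · obtain ⟨b, h1, h2⟩ := club isRegular_aleph_one aleph0_lt_aleph_one mk_W1.ge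
          (fun i => (Cardinal.countable_iff_lt_aleph_one _).1 (W1_Iio i))
          (fun s => (Cardinal.countable_iff_lt_aleph_one _).1 (hc s)) a
        exact ⟨b, ⟨⟨a, h1⟩, h2⟩, h1⟩
      · obtain ⟨a, ha⟩ := h1
        obtain ⟨z, hz1, hz2⟩ := (insert a s).exists_max_image id (Finset.insert_nonempty _ _)
        have hz : z < δ := by
          rcases Finset.mem_insert.1 hz1 with rfl | h
          · exact ha
          · exact hs h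
        obtain ⟨e, he, h3, h4⟩ := h2 z hz
        exact (he.2 s fun x hx => lt_of_le_of_lt (hz2 x (Finset.mem_insert_of_mem hx)) h3).trans
          (Iio_subset_Iio h4.le))
  have key : ∀ u : Finset Nd, (∀ x ∈ u, x.1 < δ) → φ u < δ ∧ ∀ x ∈ w u, x.1 < δ := by
    intro u hu
    have h1 : insert (φ u) (Prod.fst '' (w u : Set Nd)) ⊆ Iio δ := by
      refine Subset.trans ?_ (hδ (u.image Prod.fst) fun x hx => ?_)
      · intro z hz
        refine mem_biUnion (x := u) (fun x hx => ?_) hz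
        exact Finset.mem_coe.2 (Finset.mem_image_of_mem _ hx)
      · obtain ⟨y, hy, rfl⟩ := Finset.mem_image.1 hx
        exact hu y hy
    exact ⟨h1 (mem_insert _ _), fun x hx => h1 (mem_insert_of_mem _ ⟨x, hx, rfl⟩)⟩
  refine ⟨δ, fun Y hY hY' => ?_⟩
  have h1 : ∀ y : Nd, ∃ l, δ ≤ y.1 → Le t (δ, l) y := fun y => by
    by_cases h : δ ≤ y.1
    · obtain ⟨l, hl⟩ := (ht y.1).R y.2 δ h
      exact ⟨l, fun _ => hl⟩
    · exact ⟨0, fun h' => absurd h' h⟩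
  choose r hr using h1
  obtain ⟨d, hd1, hd2, hd3⟩ := (ht δ).Seal hδ0 (fun u hu hu' => by
    refine ⟨w u, ?_, (key u hu').2, hw2 u hu⟩
    show φ (w u) ∈ A δ
    rw [← hS]
    exact ⟨mem_image_of_mem _ (hw1 u hu), (key _ (key u hu').2).1⟩) (Y.image r)
    (fun hs => Finset.card_image_le.trans (hY hs))
  refine ⟨d, ?_, hd2, fun y hy => ?_⟩
  · have h2 : φ d ∈ A δ := hd1
    rw [← hS] at h2
    obtain ⟨d', h3, h4⟩ := h2.1
    exact φ.injective h4 ▸ h3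
  · obtain ⟨x, hx, h2⟩ := hd3 _ (Finset.mem_image_of_mem _ hy)
    exact ⟨x, hx, h2.trans (hr y (hY' y hy))⟩

end Pool.Agent.H30.Dia
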