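import Pool.Agent.H30.DiaA

set_option autoImplicit false

open Set Filter Topology Cardinal

namespace Pool.Agent.H30.Dia

open Pool.Agent.H30.Spl

lemma exists_sc (a : W1) : ∃ b, a < b ∧ ∀ c, a < c → b ≤ c := by
  obtain ⟨i, hi⟩ := W1_bdd (countable_singleton a)
  obtain ⟨b, hb, hmin⟩ := (wellFounded_lt (α := W1)).has_min {c | a < c} ⟨i, hi a rfl⟩
  exact ⟨b, hb, fun c hc => not_lt.1 (hmin c hc)⟩

noncomputable def sc (a : W1) : W1 := (exists_sc a).choose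

lemma lt_sc (a : W1) : a < sc a := (exists_sc a).choose_spec.1

lemma sc_le {a c : W1} (h : a < c) : sc a ≤ c := (exists_sc a).choose_spec.2 c h

open Classical in
noncomputable def emb (t : Lv) (y : Nd) : Nd → Bool := fun x => decide (Le t x y)

def Sp (t : Lv) : Type := range (emb t)

noncomputable instance (t : Lv) : TopologicalSpace (Sp t) :=
  inferInstanceAs (TopologicalSpace (range (emb t)))

instance (t : Lv) : T35Space (Sp t) := inferInstanceAs (T35Space (range (emb t)))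

noncomputable def pt (t : Lv) (y : Nd) : Sp t := ⟨emb t y, y, rfl⟩

lemma pt_surj {t : Lv} (z : Sp t) : ∃ y, pt t y = z := by
  obtain ⟨_, y, rfl⟩ := z
  exact ⟨y, rfl⟩

def cone (t : Lv) (x : Nd) : Set (Sp t) := {z | z.1 x = true}

lemma mem_cone {t : Lv} {x y : Nd} : pt t y ∈ cone t x ↔ Le t x y := by
  simp [cone, pt, emb]

lemma cone_clopen (t : Lv) (x : Nd) : IsClopen (cone t x) :=
  (isClopen_discrete {true}).preimage ((continuous_apply x).comp continuous_subtype_val)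

lemma cone_mono {t : Lv} {x y : Nd} (h : Le t x y) : cone t y ⊆ cone t x := fun z hz => by
  obtain ⟨y', rfl⟩ := pt_surj z
  exact mem_cone.2 (h.trans (mem_cone.1 hz))

lemma pt_mem (t : Lv) (x : Nd) : pt t x ∈ cone t x := mem_cone.2 (Le.refl _ _)

lemma Le.of_le {t : Lv} {x y z : Nd} (h1 : Le t x z) (h2 : Le t y z) (h : x.1 ≤ y.1) : Le t x y :=
  ⟨h, fun ξ hξ => (h1.2 ξ hξ).trans (h2.2 ξ (hξ.trans h)).symm⟩

lemma pt_eq {t : Lv} {x y : Nd} (h1 : Le t x y) (h2 : Le t y x) : pt t x = pt t y := by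
  refine Subtype.ext (funext fun z => ?_)
  simp only [pt, emb, decide_eq_decide]
  exact ⟨fun h => h.trans h1, fun h => h.trans h2⟩

variable {sp : Prop} {t : Lv}

lemma Tr.rep (h : Tr sp t) (y : Nd) (v : ℕ) :
    ∃ x : Nd, x.1 = sc y.1 ∧ Le t y x ∧ t x.1 x.2 x.1 = v := by
  obtain ⟨l, hl⟩ := h.E y (sc y.1) (lt_sc _).le
  obtain ⟨l', h1, h2⟩ := h.S (sc y.1) l v
  exact ⟨(sc y.1, l'), rfl, ⟨hl.1, fun ξ hξ =>
    (hl.2 ξ hξ).trans (h1 ξ (hξ.trans_lt (lt_sc _))).symm⟩, h2⟩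

lemma Tr.basis (h : Tr sp t) (y : Nd) : ∃ r : ℕ → Nd, (∀ v, Le t y (r v)) ∧ (∀ v, y.1 < (r v).1) ∧
    (∀ v w, v ≠ w → Disjoint (cone t (r v)) (cone t (r w))) ∧
    ∀ U ∈ 𝓝 (pt t y), ∃ N, cone t y ∩ ⋂ v ∈ Iio N, (cone t (r v))ᶜ ⊆ U := by
  choose r r1 r2 r3 using h.rep y
  refine ⟨r, r2, fun v => by rw [r1]; exact lt_sc _, fun v w hvw => disjoint_left.2 fun z a b => ?_,
    fun U hU => ?_⟩
  · obtain ⟨y', rfl⟩ := pt_surj z
    have e1 := (mem_cone.1 a).2 _ le_rfl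
    have e2 := (mem_cone.1 b).2 _ le_rfl
    rw [r3, r1] at e1 e2
    exact hvw (e1.trans e2.symm)
  · obtain ⟨V, hV, hU'⟩ := (mem_nhds_induced _ _ _).1 hU
    rw [nhds_pi, Filter.mem_pi] at hV
    obtain ⟨I, hI, s, hs, hsV⟩ := hV
    obtain ⟨N, hN⟩ := (hI.image fun x => t x.1 x.2 (sc y.1)).bddAbove
    refine ⟨N + 1, fun z hz => hU' (hsV fun x hx => ?_)⟩
    obtain ⟨y', rfl⟩ := pt_surj z
    have h1 : Le t y y' := mem_cone.1 hz.1
    have h2 : (pt t y').1 x = (pt t y).1 x := by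
      simp only [pt, emb, decide_eq_decide]
      refine ⟨fun h3 => ?_, fun h3 => h3.trans h1⟩
      rcases le_or_gt x.1 y.1 with h4 | h4
      · exact h3.of_le h1 h4
      · exfalso
        have h5 := sc_le h4
        refine mem_iInter₂.1 hz.2 (t x.1 x.2 (sc y.1))
          (Nat.lt_succ_of_le (hN (mem_image_of_mem _ hx))) (mem_cone.2 ⟨?_, fun ξ hξ => ?_⟩)
        · rw [r1]
          exact h5.trans h3.1
        · rcases hξ.eq_or_lt with rfl | hξ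
          · rw [r3, r1]
            exact h3.2 _ h5
          · rw [r1] at hξ
            have h6 : ξ ≤ y.1 := not_lt.1 fun h6 => absurd (sc_le h6) (not_le.2 hξ)
            exact ((r2 _).2 ξ h6).symm.trans (h1.2 ξ h6)
    rw [h2]
    exact mem_of_mem_nhds (hs x)

lemma Tr.pi (h : Tr sp t) (y : Nd) {U : Set (Sp t)} (hU : U ∈ 𝓝 (pt t y)) :
    ∃ x, Le t y x ∧ y.1 < x.1 ∧ cone t x ⊆ U := by
  obtain ⟨r, r1, r2, r3, r4⟩ := h.basis y
  obtain ⟨N, hN⟩ := r4 U hU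
  refine ⟨r N, r1 N, r2 N, fun z hz => hN ⟨cone_mono (r1 N) hz, mem_iInter₂.2 fun v hv hz' => ?_⟩⟩
  exact disjoint_left.1 (r3 v N (ne_of_lt hv)) hz' hz

lemma Tr.pi' (h : Tr sp t) {U : Set (Sp t)} (hU : IsOpen U) (hn : U.Nonempty) :
    ∃ x, cone t x ⊆ U := by
  obtain ⟨z, hz⟩ := hn
  obtain ⟨y, rfl⟩ := pt_surj z
  obtain ⟨x, -, -, hx⟩ := h.pi y (hU.mem_nhds hz)
  exact ⟨x, hx⟩

lemma Tr.base (h : Tr sp t) (z : Sp t) : ∃ B : ℕ → Set (Sp t), Antitone B ∧ (∀ n, IsClopen (B n)) ∧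
    (∀ n, z ∈ B n) ∧ ∀ U ∈ 𝓝 z, ∃ n, B n ⊆ U := by
  obtain ⟨y, rfl⟩ := pt_surj z
  obtain ⟨r, r1, r2, r3, r4⟩ := h.basis y
  refine ⟨fun N => cone t y ∩ ⋂ v ∈ Iio N, (cone t (r v))ᶜ, fun a b hab =>
    inter_subset_inter_right _ (biInter_subset_biInter_left (Iio_subset_Iio hab)),
    fun n => (cone_clopen _ _).inter ((finite_Iio n).isClopen_biInter fun v _ => (cone_clopen _ _).compl),
    fun n => ⟨pt_mem _ _, mem_iInter₂.2 fun v _ hv => ?_⟩, r4⟩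
  exact absurd (mem_cone.1 hv).1 (not_le.2 (r2 v))

lemma Tr.firstCountable (h : Tr sp t) : FirstCountableTopology (Sp t) := by
  refine ⟨fun z => ?_⟩
  obtain ⟨B, -, h2, h3, h4⟩ := h.base z
  have : (𝓝 z).HasBasis (fun _ => True) B := ⟨fun U => ⟨fun hU => by simpa using h4 U hU,
    fun ⟨n, _, hn⟩ => mem_of_superset ((h2 n).isOpen.mem_nhds (h3 n)) hn⟩⟩
  exact this.isCountablyGenerated

lemma Tr.sus (h : Tr sp t) (D : Set Nd) (hD : ∀ x, ∃ y ∈ D, Le t x y) :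
    ∃ δ, ∀ y : Nd, δ ≤ y.1 → ∃ x ∈ D, x.1 < δ ∧ Le t x y := by
  classical
  choose w w1 w2 using hD
  obtain ⟨δ, hδ⟩ := h.G {d | ↑d ⊆ D} fun u _ => ⟨u.image w, fun x hx => by
    obtain ⟨y, -, rfl⟩ := Finset.mem_image.1 hx
    exact w1 y, fun x hx => ⟨w x, Finset.mem_image_of_mem _ hx, w2 x⟩⟩
  refine ⟨δ, fun y hy => ?_⟩
  obtain ⟨d, h1, h2, h3⟩ := hδ {y} (fun _ => by simp) (by simpa using hy)
  obtain ⟨x, hx, h4⟩ := h3 y (by simp)
  exact ⟨x, h1 hx, h2 x hx, h4⟩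

lemma Tr.hl (h : Tr sp t) : HereditarilyLindelofSpace (Sp t) := by
  refine ⟨fun s _ => isLindelof_of_countable_subcover fun {ι} U hU hs => ?_⟩
  obtain ⟨δ, hδ⟩ := h.sus {x | (∃ i, cone t x ⊆ U i) ∨ Disjoint (cone t x) (⋃ i, U i)} fun x => by
    by_cases h1 : Disjoint (cone t x) (⋃ i, U i)
    · exact ⟨x, Or.inr h1, Le.refl _ _⟩
    · obtain ⟨z, hz1, hz2⟩ := not_disjoint_iff.1 h1
      obtain ⟨i, hi⟩ := mem_iUnion.1 hz2
      obtain ⟨y, rfl⟩ := pt_surj z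
      obtain ⟨x', h2, -, h3⟩ := h.pi y ((hU i).mem_nhds hi)
      exact ⟨x', Or.inl ⟨i, h3⟩, (mem_cone.1 hz1).trans h2⟩
  rcases isEmpty_or_nonempty ι with hι | hι
  · exact ⟨univ, countable_univ, by simpa using hs⟩
  have h1 : ∀ x : Nd, ∃ i, (∃ i, cone t x ⊆ U i) → cone t x ⊆ U i := fun x => by
    by_cases h1 : ∃ i, cone t x ⊆ U i
    · exact ⟨h1.choose, fun _ => h1.choose_spec⟩
    · exact ⟨Classical.arbitrary _, fun h => absurd h h1⟩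
  have h2 : ∀ x : Nd, ∃ i, pt t x ∈ s → pt t x ∈ U i := fun x => by
    by_cases h2 : pt t x ∈ s
    · obtain ⟨i, hi⟩ := mem_iUnion.1 (hs h2)
      exact ⟨i, fun _ => hi⟩
    · exact ⟨Classical.arbitrary _, fun h => absurd h h2⟩
  choose i1 hi1 using h1
  choose i2 hi2 using h2
  refine ⟨i1 '' {x | x.1 < δ} ∪ i2 '' {x | x.1 < δ},
    ((cnt_below δ).image _).union ((cnt_below δ).image _), fun z hz => ?_⟩
  obtain ⟨y, rfl⟩ := pt_surj z
  rcases lt_or_ge y.1 δ with h3 | h3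
  · exact mem_biUnion (Or.inr (mem_image_of_mem _ h3)) (hi2 y hz)
  · obtain ⟨x, hx, h4, h5⟩ := hδ y h3
    rcases hx with hx | hx
    · exact mem_biUnion (Or.inl (mem_image_of_mem _ h4)) (hi1 x hx (mem_cone.2 h5))
    · exact absurd (hs hz) (disjoint_left.1 hx (mem_cone.2 h5))

lemma cone_far {S : Set (Sp t)} (hS : S.Countable) : ∃ x, Disjoint S (cone t x) := by
  choose y hy using pt_surj (t := t)
  obtain ⟨β, hβ⟩ := W1_bdd (hS.image fun z => (y z).1)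
  refine ⟨(β, 0), disjoint_left.2 fun z hz h => ?_⟩
  rw [← hy z] at h
  exact absurd (mem_cone.1 h).1 (not_le.2 (hβ _ (mem_image_of_mem _ hz)))

lemma not_sep (t : Lv) : ¬ TopologicalSpace.SeparableSpace (Sp t) := fun ⟨S, h1, h2⟩ => by
  obtain ⟨x, hx⟩ := cone_far h1
  obtain ⟨z, h3, h4⟩ := h2.inter_open_nonempty _ (cone_clopen t x).isOpen ⟨_, pt_mem t x⟩
  exact disjoint_left.1 hx h4 h3

lemma unc (t : Lv) : Uncountable (Sp t) := by
  rw [← not_countable_iff]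
  intro h
  obtain ⟨x, hx⟩ := cone_far (t := t) countable_univ
  exact disjoint_left.1 hx (mem_univ _) (pt_mem t x)

lemma Tr.lusin (h : Tr sp t) {s : Set (Sp t)} (hs : IsNowhereDense s) : s.Countable := by
  obtain ⟨δ, hδ⟩ := h.sus {x | Disjoint (cone t x) s} fun x => by
    have h1 : (cone t x ∩ (closure s)ᶜ).Nonempty := by
      by_contra h1
      rw [not_nonempty_iff_eq_empty, ← disjoint_iff_inter_eq_empty,
        disjoint_compl_right_iff_subset] at h1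
      have h2 := interior_maximal h1 (cone_clopen t x).isOpen (pt_mem t x)
      rw [hs] at h2
      exact h2
    obtain ⟨x', hx'⟩ := h.pi' ((cone_clopen t x).isOpen.inter isClosed_closure.isOpen_compl) h1
    exact ⟨x', disjoint_left.2 fun z a b => (hx' a).2 (subset_closure b),
      mem_cone.1 (hx' (pt_mem t x')).1⟩
  refine ((cnt_below δ).image (pt t)).mono fun z hz => ?_
  obtain ⟨y, rfl⟩ := pt_surj z
  rcases lt_or_ge y.1 δ with h3 | h3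
  · exact mem_image_of_mem _ h3
  · obtain ⟨x, hx, -, h5⟩ := hδ y h3
    exact absurd hz (disjoint_left.1 hx (mem_cone.2 h5))

lemma Tr.no_iso (h : Tr sp t) (z : Sp t) : ¬ IsOpen ({z} : Set (Sp t)) := fun hz => by
  obtain ⟨y, rfl⟩ := pt_surj z
  obtain ⟨x, -, h1, h2⟩ := h.pi y (hz.mem_nhds rfl)
  have h3 : pt t x = pt t y := h2 (pt_mem t x)
  have h4 := pt_mem t x
  rw [h3] at h4
  exact absurd (mem_cone.1 h4).1 (not_le.2 h1)

theorem Tr.dsep (h : Tr True t) (D : ℕ → Set (Sp t × Sp t)) (hD : ∀ n, Dense (D n)) :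
    ∃ F : ℕ → Set (Sp t × Sp t), (∀ n, F n ⊆ D n ∧ DiscreteTopology (F n)) ∧ Dense (⋃ n, F n) := by
  classical
  let lw : W1 × ℕ × ℕ → ℕ → Set W1 := fun p N => {ξ | ξ ≤ p.1 ∧
    (∃ η < ξ, t p.1 p.2.1 η ≠ t p.1 p.2.2 η) ∧ t p.1 p.2.1 ξ ≤ N ∧ t p.1 p.2.2 ξ ≤ N}
  let mx : W1 × ℕ × ℕ → ℕ := fun p => max (t p.1 p.2.1 p.1) (t p.1 p.2.2 p.1)
  let col : W1 × ℕ × ℕ → ℕ := fun p => Nat.pair (mx p) (lw p (mx p)).ncard
  let box : W1 × ℕ × ℕ → Set (Sp t × Sp t) := fun p => cone t (p.1, p.2.1) ×ˢ cone t (p.1, p.2.2)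
  let P : Set (W1 × ℕ × ℕ) := {p | ∃ η < p.1, t p.1 p.2.1 η ≠ t p.1 p.2.2 η}
  have b1 : ∀ p, IsOpen (box p) := fun p => (cone_clopen _ _).isOpen.prod (cone_clopen _ _).isOpen
  have b2 : ∀ p, (box p).Nonempty := fun p => ⟨(_, _), pt_mem _ _, pt_mem _ _⟩
  have key : ∀ p q, q ∈ P → col p = col q → p.1 ≤ q.1 → ∀ z ∈ box p, z ∈ box q → box p = box q := by
    rintro p q hq hc hl ⟨z1, z2⟩ ⟨a1, a2⟩ ⟨c1, c2⟩
    obtain ⟨y1, rfl⟩ := pt_surj z1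
    obtain ⟨y2, rfl⟩ := pt_surj z2
    have l1 := (mem_cone.1 a1).of_le (mem_cone.1 c1) hl
    have l2 := (mem_cone.1 a2).of_le (mem_cone.1 c2) hl
    obtain ⟨e1, e2⟩ := Nat.pair_eq_pair.1 hc
    rcases hl.eq_or_lt with hl | hl
    · have l3 := (mem_cone.1 c1).of_le (mem_cone.1 a1) hl.ge
      have l4 := (mem_cone.1 c2).of_le (mem_cone.1 a2) hl.ge
      exact congrArg₂ (· ×ˢ ·) ((cone_mono l3).antisymm (cone_mono l1)) ((cone_mono l4).antisymm (cone_mono l2))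
    · exfalso
      have h1 : lw p (mx p) ⊂ lw q (mx q) := by
        refine ⟨fun ξ ⟨h1, ⟨η, h2, h3⟩, h4, h5⟩ => ⟨h1.trans hl.le, ⟨η, h2, ?_⟩, ?_, ?_⟩, fun h1 => ?_⟩
        · rwa [← l1.2 η (h2.le.trans h1), ← l2.2 η (h2.le.trans h1)]
        · rwa [← l1.2 ξ h1, ← e1]
        · rwa [← l2.2 ξ h1, ← e1]
        · exact absurd (h1 ⟨le_rfl, hq, le_max_left _ _, le_max_right _ _⟩).1 (not_le.2 hl)
      exact (ncard_lt_ncard h1 (h.F trivial _ _ _ _)).ne e2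
  have key' : ∀ p ∈ P, ∀ q ∈ P, col p = col q → ∀ z ∈ box p, z ∈ box q → box p = box q := by
    intro p hp q hq hc z h1 h2
    rcases le_total p.1 q.1 with h3 | h3
    · exact key p q hq hc h3 z h1 h2
    · exact (key q p hp hc.symm h3 z h2 h1).symm
  have h1 : ∀ n (B : Set (Sp t × Sp t)), ∃ z, IsOpen B → B.Nonempty → z ∈ B ∧ z ∈ D n := by
    intro n B
    by_cases h1 : IsOpen B ∧ B.Nonempty
    · obtain ⟨z, hz⟩ := (hD n).inter_open_nonempty B h1.1 h1.2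
      exact ⟨z, fun _ _ => hz⟩
    · exact ⟨(b2 (Classical.arbitrary _)).choose, fun a b => absurd ⟨a, b⟩ h1⟩
  choose ch hch using h1
  have c1 : ∀ n p, ch n (box p) ∈ box p ∧ ch n (box p) ∈ D n := fun n p => hch n _ (b1 p) (b2 p)
  refine ⟨fun n => (fun p => ch n (box p)) '' {p ∈ P | col p = n}, fun n => ⟨?_, ?_⟩, ?_⟩
  · rintro _ ⟨p, -, rfl⟩
    exact (c1 n p).2
  · refine discreteTopology_iff_isOpen_singleton.2 ?_
    rintro ⟨_, p, hp, rfl⟩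
    refine isOpen_induced_iff.2 ⟨box p, b1 p, ?_⟩
    ext ⟨_, q, hq, rfl⟩
    refine ⟨fun h2 => Subtype.ext ?_, fun h2 => ?_⟩
    · simp only
      rw [key' q hq.1 p hp.1 (hq.2.trans hp.2.symm) _ (c1 n q).1 h2]
    · rw [mem_singleton_iff.1 h2]
      exact (c1 n p).1
  · refine dense_iff_inter_open.2 fun W hW ⟨⟨a, b⟩, hab⟩ => ?_
    obtain ⟨U, V, hU, hV, ha, hb, hUV⟩ := isOpen_prod_iff.1 hW a b hab
    obtain ⟨x1, hx1⟩ := h.pi' hU ⟨a, ha⟩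
    obtain ⟨x2, hx2⟩ := h.pi' hV ⟨b, hb⟩
    let β := sc (max x1.1 x2.1)
    have hβ1 : x1.1 < β := (le_max_left _ _).trans_lt (lt_sc _)
    have hβ2 : x2.1 < β := (le_max_right _ _).trans_lt (lt_sc _)
    obtain ⟨k1, hk1⟩ := h.E x1 β hβ1.le
    obtain ⟨k2, hk2⟩ := h.E x2 β hβ2.le
    obtain ⟨l1, e1, e2⟩ := h.S β k1 0
    obtain ⟨l2, e3, e4⟩ := h.S β k2 1
    obtain ⟨m1, hm1⟩ := h.E (β, l1) (sc β) (lt_sc _).le
    obtain ⟨m2, hm2⟩ := h.E (β, l2) (sc β) (lt_sc _).le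
    have f1 : Le t x1 (β, l1) := ⟨hβ1.le, fun ξ hξ => (hk1.2 ξ hξ).trans (e1 ξ (hξ.trans_lt hβ1)).symm⟩
    have f2 : Le t x2 (β, l2) := ⟨hβ2.le, fun ξ hξ => (hk2.2 ξ hξ).trans (e3 ξ (hξ.trans_lt hβ2)).symm⟩
    have hp : (sc β, m1, m2) ∈ P := by
      refine ⟨β, lt_sc _, ?_⟩
      have g1 := hm1.2 β le_rfl
      have g2 := hm2.2 β le_rfl
      simp only at g1 g2 ⊢
      rw [← g1, ← g2, e2, e4]
      exact zero_ne_one
    have h2 := (c1 (col (sc β, m1, m2)) (sc β, m1, m2)).1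
    exact ⟨_, hUV ⟨hx1 (cone_mono (f1.trans hm1) h2.1), hx2 (cone_mono (f2.trans hm2) h2.2)⟩,
      mem_iUnion.2 ⟨_, _, ⟨hp, rfl⟩, rfl⟩⟩

end Pool.Agent.H30.Dia
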