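import Pool.Agent.H30.SplC

set_option autoImplicit false

open Set

namespace Pool.Agent.H30.Dia

open Pool.Agent.H30.Spl

/-- `C` is closed and unbounded in `ω₁` (`W1` is the well-ordered type of order type `ω₁`). -/
def Club (C : Set W1) : Prop :=
  (∀ a, ∃ c ∈ C, a < c) ∧ ∀ δ, (∃ a, a < δ) → (∀ a < δ, ∃ c ∈ C, a < c ∧ c < δ) → δ ∈ C

/-- Jensen's diamond principle: sets `A δ ⊆ δ` such that for each `S ⊆ ω₁` the set of all `δ` with
`S ∩ δ = A δ` meets every closed unbounded set. -/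
def Diamond : Prop :=
  ∃ A : W1 → Set W1, (∀ δ, A δ ⊆ Iio δ) ∧ ∀ S C : Set W1, Club C → ∃ δ ∈ C, S ∩ Iio δ = A δ

end Pool.Agent.H30.Dia
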