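import Mathlib

set_option autoImplicit false

namespace Pool.Agent.H30.Do

open Set Filter Topology

variable {X : Type*} [TopologicalSpace X]

/-- The collection `𝒟`: families of open sets with dense union. -/
def DD (𝒰 : Set (Set X)) : Prop := (∀ U ∈ 𝒰, IsOpen U) ∧ Dense (⋃₀ 𝒰)

/-- The collection `𝒟_Ω`. -/
def DO (𝒰 : Set (Set X)) : Prop :=
  DD 𝒰 ∧ (∀ U ∈ 𝒰, ¬ univ ⊆ closure U) ∧
    ∀ F : Set (Set X), F.Finite → (∀ V ∈ F, IsOpen V ∧ V.Nonempty) →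
      ∃ U ∈ 𝒰, ∀ V ∈ F, (U ∩ V).Nonempty

/-- `S₁(𝒟_Ω, 𝒟_Ω)`. -/
def S1 (X : Type*) [TopologicalSpace X] : Prop :=
  ∀ 𝒰 : ℕ → Set (Set X), (∀ n, DO (𝒰 n)) → ∃ U : ℕ → Set X, (∀ n, U n ∈ 𝒰 n) ∧ DO (range U)

/-- `S_fin(𝒟_Ω, 𝒟_Ω)`. -/
def Sfin (X : Type*) [TopologicalSpace X] : Prop :=
  ∀ 𝒰 : ℕ → Set (Set X), (∀ n, DO (𝒰 n)) →
    ∃ F : ℕ → Set (Set X), (∀ n, (F n).Finite ∧ F n ⊆ 𝒰 n) ∧ DO (⋃ n, F n)

/-- The countable chain condition. -/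
def Ccc (X : Type*) [TopologicalSpace X] : Prop :=
  ∀ 𝒜 : Set (Set X), (∀ U ∈ 𝒜, IsOpen U ∧ U.Nonempty) → 𝒜.PairwiseDisjoint id → 𝒜.Countable

def Mt (𝒰 : Set (Set X)) : Prop :=
  ∀ F : Set (Set X), F.Finite → (∀ V ∈ F, IsOpen V ∧ V.Nonempty) → ∃ U ∈ 𝒰, ∀ V ∈ F, (U ∩ V).Nonempty

def Sm {β : Type*} (b : Prop) (F : Set β) : Prop := F.Finite ∧ (b → F.Subsingleton)

lemma Sm.image {β γ : Type*} {b : Prop} {F : Set β} (h : Sm b F) (f : β → γ) : Sm b (f '' F) :=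
  ⟨h.1.image f, fun hb => (h.2 hb).image f⟩

lemma Sm.mono {β : Type*} {b : Prop} {F G : Set β} (h : Sm b F) (hG : G ⊆ F) : Sm b G :=
  ⟨h.1.subset hG, fun hb => (h.2 hb).anti hG⟩

lemma sm_empty {β : Type*} {b : Prop} : Sm b (∅ : Set β) := ⟨finite_empty, fun _ => subsingleton_empty⟩

lemma Mt.mono {𝒰 𝒱 : Set (Set X)} (h : Mt 𝒰) (h' : ∀ U ∈ 𝒰, ∃ V ∈ 𝒱, U ⊆ V) : Mt 𝒱 :=
  fun F h1 h2 => by
    obtain ⟨U, h3, h4⟩ := h F h1 h2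
    obtain ⟨V, h5, h6⟩ := h' U h3
    exact ⟨V, h5, fun W hW => (h4 W hW).mono (inter_subset_inter_left _ h6)⟩

lemma do_of {𝒰 : Set (Set X)} (h1 : ∀ U ∈ 𝒰, IsOpen U) (h2 : ∀ U ∈ 𝒰, ¬ univ ⊆ closure U)
    (h : Mt 𝒰) : DO 𝒰 := by
  refine ⟨⟨h1, dense_iff_inter_open.2 fun V hV hn => ?_⟩, h2, h⟩
  obtain ⟨U, h3, h4⟩ := h {V} (finite_singleton V) (by simp [hV, hn])
  obtain ⟨x, h5, h6⟩ := h4 V rfl
  exact ⟨x, h6, U, h3, h5⟩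

def Sel (b : Prop) (X : Type*) [TopologicalSpace X] : Prop :=
  ∀ 𝒰 : ℕ → Set (Set X), (∀ n, DO (𝒰 n)) →
    ∃ F : ℕ → Set (Set X), (∀ n, Sm b (F n) ∧ F n ⊆ 𝒰 n) ∧ Mt (⋃ n, F n)

lemma sfin_iff : Sfin X ↔ Sel False X := by
  refine forall₂_congr fun 𝒰 h => exists_congr fun F => ⟨fun ⟨h1, h2⟩ =>
    ⟨fun n => ⟨⟨(h1 n).1, False.elim⟩, (h1 n).2⟩, h2.2.2⟩, fun ⟨h1, h2⟩ =>
    ⟨fun n => ⟨(h1 n).1.1, (h1 n).2⟩, do_of (fun U hU => ?_) (fun U hU => ?_) h2⟩⟩ <;>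
    obtain ⟨n, hn⟩ := mem_iUnion.1 hU
  exacts [(h n).1.1 U ((h1 n).2 hn), (h n).2.1 U ((h1 n).2 hn)]

lemma s1_iff : S1 X ↔ Sel True X := by
  refine forall₂_congr fun 𝒰 h => ⟨fun ⟨U, h1, h2⟩ => ⟨fun n => {U n}, fun n =>
    ⟨⟨finite_singleton _, fun _ => subsingleton_singleton⟩, singleton_subset_iff.2 (h1 n)⟩,
    by rw [iUnion_singleton_eq_range]; exact h2.2.2⟩, fun ⟨F, h1, h2⟩ => ?_⟩
  have H : ∀ n, ∃ U ∈ 𝒰 n, ∀ V ∈ F n, V = U := fun n => by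
    rcases (F n).eq_empty_or_nonempty with e | ⟨U, hU⟩
    · obtain ⟨U, hU, -⟩ := (h n).2.2 ∅ finite_empty (by simp)
      exact ⟨U, hU, by simp [e]⟩
    · exact ⟨U, (h1 n).2 hU, fun V hV => (h1 n).1.2 trivial hV hU⟩
  choose U h3 h4 using H
  refine ⟨U, h3, do_of ?_ ?_ (h2.mono fun V hV => ?_)⟩
  · rintro _ ⟨n, rfl⟩; exact (h n).1.1 _ (h3 n)
  · rintro _ ⟨n, rfl⟩; exact (h n).2.1 _ (h3 n)
  · obtain ⟨n, hn⟩ := mem_iUnion.1 hV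
    exact ⟨_, ⟨n, rfl⟩, (h4 n V hn).subset⟩

lemma maximal_disj (R : Set X → Prop) : ∃ 𝒜 : Set (Set X),
    (∀ U ∈ 𝒜, IsOpen U ∧ U.Nonempty ∧ R U) ∧ 𝒜.PairwiseDisjoint id ∧
      ∀ W, IsOpen W → W.Nonempty → R W → ∃ U ∈ 𝒜, (U ∩ W).Nonempty := by
  obtain ⟨𝒜, h⟩ := zorn_subset
    {𝒜 : Set (Set X) | (∀ U ∈ 𝒜, IsOpen U ∧ U.Nonempty ∧ R U) ∧ 𝒜.PairwiseDisjoint id}
    fun c hc hch => ⟨⋃₀ c, ⟨fun U ⟨A, hA, hU⟩ => (hc hA).1 U hU,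
      (pairwiseDisjoint_sUnion hch.directedOn).2 fun A hA => (hc hA).2⟩,
      fun _ => subset_sUnion_of_mem⟩
  refine ⟨𝒜, h.1.1, h.1.2, fun W h1 h2 h3 => by_contra fun hc => ?_⟩
  push Not at hc
  have hW : W ∈ 𝒜 := h.2 (y := insert W 𝒜) ⟨by
      rintro U (rfl | hU)
      exacts [⟨h1, h2, h3⟩, h.1.1 U hU],
    h.1.2.insert fun U hU _ => (disjoint_iff_inter_eq_empty.2 (hc U hU)).symm⟩
    (subset_insert _ _) (mem_insert _ _)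
  exact h2.ne_empty (by simpa using hc W hW)

lemma Sel.ccc {b : Prop} (h : Sel b X) : Ccc X := by
  intro 𝒜 h1 h2
  by_contra hc
  obtain ⟨ℬ, h3, h4, h5⟩ := maximal_disj (X := X) fun W => ∀ U ∈ 𝒜, Disjoint U W
  let 𝒞 := 𝒜 ∪ ℬ
  have c1 : ∀ U ∈ 𝒞, IsOpen U ∧ U.Nonempty := by
    rintro U (hU | hU)
    exacts [h1 U hU, ⟨(h3 U hU).1, (h3 U hU).2.1⟩]
  have c2 : ∀ W, IsOpen W → W.Nonempty → ∃ U ∈ 𝒞, (U ∩ W).Nonempty := fun W a1 a2 => by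
    by_cases h6 : ∀ U ∈ 𝒜, Disjoint U W
    · obtain ⟨U, h7, h8⟩ := h5 W a1 a2 h6
      exact ⟨U, Or.inr h7, h8⟩
    · push Not at h6
      obtain ⟨U, h7, h8⟩ := h6
      exact ⟨U, Or.inl h7, not_disjoint_iff_nonempty_inter.1 h8⟩
  have c3 : ∀ s ⊆ 𝒞, s.Countable → ∃ U ∈ 𝒜, Disjoint (⋃₀ s) U := fun s hs hsc => by
    obtain ⟨U, h6, h7⟩ := not_subset.1 (mt hsc.mono hc)
    refine ⟨U, h6, disjoint_sUnion_left.2 fun V hV => ?_⟩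
    rcases hs hV with h8 | h8
    exacts [h2 h8 h6 fun e => h7 (e ▸ hV), ((h3 V h8).2.2 U h6).symm]
  obtain ⟨F, f1, f2⟩ := h (fun _ => sUnion '' {s | s ⊆ 𝒞 ∧ s.Finite}) fun _ => do_of (by
      rintro _ ⟨s, hs, rfl⟩
      exact isOpen_sUnion fun U hU => (c1 U (hs.1 hU)).1) (by
      rintro _ ⟨s, hs, rfl⟩ h6
      obtain ⟨U, h7, h8⟩ := c3 s hs.1 hs.2.countable
      obtain ⟨x, hx⟩ := (h1 U h7).2
      exact disjoint_left.1 (h8.closure_left (h1 U h7).1) (h6 trivial) hx) fun G g1 g2 => by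
      choose! f f1 f2 using fun V (hV : V ∈ G) => c2 V (g2 V hV).1 (g2 V hV).2
      exact ⟨_, ⟨f '' G, ⟨image_subset_iff.2 f1, g1.image f⟩, rfl⟩, fun V hV => (f2 V hV).mono
        (inter_subset_inter_left _ (subset_sUnion_of_mem (mem_image_of_mem f hV)))⟩
  choose! s s1 s2 using fun V (hV : V ∈ ⋃ n, F n) =>
    (let ⟨n, hn⟩ := mem_iUnion.1 hV; (f1 n).2 hn : V ∈ sUnion '' {s | s ⊆ 𝒞 ∧ s.Finite})
  obtain ⟨U, h7, h8⟩ := c3 (⋃ V ∈ ⋃ n, F n, s V) (iUnion₂_subset fun V hV => (s1 V hV).1)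
    ((countable_iUnion fun n => (f1 n).1.1.countable).biUnion fun V hV => (s1 V hV).2.countable)
  obtain ⟨V, h9, h10⟩ := f2 {U} (finite_singleton U) (by simpa using h1 U h7)
  obtain ⟨x, h11, h12⟩ := h10 U rfl
  rw [← s2 V h9] at h11
  exact disjoint_left.1 h8 (sUnion_subset_sUnion (subset_biUnion_of_mem (u := s) h9) h11) h12

lemma meet_all {C S : Type*} (E : C → C → Prop) (hr : ∀ p, E p p)
    (ht : ∀ p q r, E p q → E q r → E p r) (ok : C → Prop) (R : S → C → Prop) {T : Set S}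
    (hT : T.Finite) (hd : ∀ s ∈ T, ∀ p, ok p → ∃ q, ok q ∧ E p q ∧ R s q)
    (hm : ∀ s p q, R s p → E p q → R s q) (p : C) (hp : ok p) :
    ∃ q, ok q ∧ E p q ∧ ∀ s ∈ T, R s q := by
  induction T, hT using Set.Finite.induction_on with
  | empty => exact ⟨p, hp, hr p, by simp⟩
  | @insert s T _ _ ih =>
    obtain ⟨q, h1, h2, h3⟩ := ih fun s hs => hd s (mem_insert_of_mem _ hs)
    obtain ⟨r, h4, h5, h6⟩ := hd s (mem_insert _ _) q h1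
    refine ⟨r, h4, ht _ _ _ h2 h5, ?_⟩
    rintro s' (rfl | h)
    exacts [h6, hm _ _ _ (h3 s' h) h5]

def Spl (W : Set X) : Prop := IsOpen W ∧ W.Nonempty ∧ ∀ G ⊆ W, IsOpen G → G.Nonempty →
  ∃ A B, A ⊆ G ∧ B ⊆ G ∧ IsOpen A ∧ IsOpen B ∧ A.Nonempty ∧ B.Nonempty ∧ Disjoint A B

def Sel' (b : Prop) (X : Type*) [TopologicalSpace X] : Prop :=
  ∀ 𝒰 : ℕ → Set (Set X), (∀ n, (∀ U ∈ 𝒰 n, IsOpen U) ∧ Mt (𝒰 n)) →
    ∃ F : ℕ → Set (Set X), (∀ n, Sm b (F n) ∧ F n ⊆ 𝒰 n) ∧ Mt (⋃ n, F n)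

lemma Spl.avoid {W : Set X} (h : Spl W) {F : Set (Set X)} (hF : F.Finite)
    (hF' : ∀ V ∈ F, IsOpen V ∧ V.Nonempty) :
    ∃ W', IsOpen W' ∧ W'.Nonempty ∧ ∀ V ∈ F, (V ∩ (closure W')ᶜ).Nonempty := by
  obtain ⟨W', h1, -, h2⟩ := meet_all (fun p q : Set X => q ⊆ p) (fun _ => Subset.rfl)
    (fun _ _ _ h h' => h'.trans h) (fun p => p ⊆ W ∧ IsOpen p ∧ p.Nonempty)
    (fun V p => (V ∩ (closure p)ᶜ).Nonempty) hF (fun V hV p hp => by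
      by_cases h1 : (V ∩ p).Nonempty
      · obtain ⟨A, B, a1, a2, a3, a4, ⟨x, hx⟩, a6, a7⟩ := h.2.2 _ (inter_subset_right.trans hp.1)
          ((hF' V hV).1.inter hp.2.1) h1
        exact ⟨B, ⟨(a2.trans inter_subset_right).trans hp.1, a4, a6⟩, a2.trans inter_subset_right,
          x, (a1 hx).1, disjoint_left.1 (a7.closure_right a3) hx⟩
      · obtain ⟨x, hx⟩ := (hF' V hV).2
        exact ⟨p, hp, Subset.rfl, x, hx, disjoint_left.1 (Disjoint.closure_right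
          (not_not.1 (mt not_disjoint_iff_nonempty_inter.1 h1)) (hF' V hV).1) hx⟩)
    (fun V p q h1 h2 => h1.mono (inter_subset_inter_right _ (compl_subset_compl.2 (closure_mono h2))))
    W ⟨Subset.rfl, h.1, h.2.1⟩
  exact ⟨W', h1.2.1, h1.2.2, h2⟩

lemma Sel.sel' {b : Prop} (h : Sel b X) {W : Set X} (hW : Spl W) : Sel' b X := by
  intro 𝒰 h𝒰
  obtain ⟨F, f1, f2⟩ := h (fun n => {V | IsOpen V ∧ ¬ univ ⊆ closure V ∧ ∃ U ∈ 𝒰 n, V ⊆ U})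
    fun n => do_of (fun _ h => h.1) (fun _ h => h.2.1) fun G g1 g2 => by
      obtain ⟨U, h1, h2⟩ := (h𝒰 n).2 G g1 g2
      have h0 := (h𝒰 n).1 U h1
      obtain ⟨W', h3, ⟨x, hx⟩, h4⟩ := hW.avoid (g1.image fun V => U ∩ V) (by
        rintro _ ⟨V, hV, rfl⟩
        exact ⟨h0.inter (g2 V hV).1, h2 V hV⟩)
      refine ⟨U ∩ (closure W')ᶜ, ⟨h0.inter isClosed_closure.isOpen_compl, fun h5 => ?_, U, h1,
        inter_subset_left⟩, fun V hV => ?_⟩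
      · obtain ⟨y, h6, h7⟩ := mem_closure_iff.1 (h5 (mem_univ x)) W' h3 hx
        exact h7.2 (subset_closure h6)
      · obtain ⟨y, h6, h7⟩ := h4 _ ⟨V, hV, rfl⟩
        exact ⟨y, ⟨h6.1, h7⟩, h6.2⟩
  choose! u u1 u2 using fun n V (hV : V ∈ F n) => ((f1 n).2 hV).2.2
  refine ⟨fun n => u n '' F n, fun n => ⟨(f1 n).1.image _, image_subset_iff.2 (u1 n)⟩,
    f2.mono fun V hV => ?_⟩
  obtain ⟨n, hn⟩ := mem_iUnion.1 hV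
  exact ⟨_, mem_iUnion.2 ⟨n, mem_image_of_mem _ hn⟩, u2 n V hn⟩

end Pool.Agent.H30.Do
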