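import Pool.Agent.H30.DoA

set_option autoImplicit false

namespace Pool.Agent.H30.Do

open Set Filter Topology Function

variable {X : Type*} [TopologicalSpace X] {ι β : Type*} {b : Prop}

lemma reindex (T : Type*) [Countable T] (𝒜 : ℕ → Set β) (Q : Set β → Prop)
    (H : ∀ e : T → ℕ, ∃ F : T → Set β, (∀ τ, Sm b (F τ) ∧ F τ ⊆ 𝒜 (e τ)) ∧ Q (⋃ τ, F τ)) :
    ∃ F : ℕ → Set β, (∀ n, Sm b (F n) ∧ F n ⊆ 𝒜 n) ∧ Q (⋃ n, F n) := by
  obtain ⟨e, he⟩ := exists_injective_nat T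
  obtain ⟨F, h1, h2⟩ := H e
  refine ⟨fun n => ⋃ τ, ⋃ (_ : e τ = n), F τ, fun n => ⟨?_, iUnion₂_subset fun τ h => h ▸ (h1 τ).2⟩, ?_⟩
  · by_cases h : ∃ τ, e τ = n
    · obtain ⟨τ, rfl⟩ := h
      exact (h1 τ).1.mono (iUnion₂_subset fun τ' h => by rw [he h])
    · exact sm_empty.mono (iUnion₂_subset fun τ h' => absurd ⟨τ, h'⟩ h)
  · rwa [iUnion_comm, iUnion_congr fun τ => iUnion_iUnion_eq_right]

def Pd (c : ι → Set X) (bx : β → ι → Set X) (𝒜 : Set β) : Prop :=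
  ∀ p : ι → Set X, (∀ i, IsOpen (p i) ∧ (p i).Nonempty ∧ p i ⊆ c i) →
    ∃ a ∈ 𝒜, ∀ i, (bx a i ∩ p i).Nonempty

lemma sel_disj [Finite ι] (hS : Nonempty ι → Sel' b X) {c : ι → Set X} (hc : ∀ i, IsOpen (c i))
    (hd : Pairwise (Disjoint on c)) {bx : β → ι → Set X} {𝒜 : ℕ → Set β}
    (hb : ∀ n, ∀ a ∈ 𝒜 n, ∀ i, IsOpen (bx a i)) (h : ∀ n, Pd c bx (𝒜 n)) :
    ∃ F : ℕ → Set β, (∀ n, Sm b (F n) ∧ F n ⊆ 𝒜 n) ∧ Pd c bx (⋃ n, F n) := by
  rcases isEmpty_or_nonempty ι with hι | hι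
  · choose a h1 h2 using fun n => h n (fun i => isEmptyElim i) fun i => isEmptyElim i
    exact ⟨fun n => {a n}, fun n => ⟨⟨finite_singleton _, fun _ => subsingleton_singleton⟩,
      singleton_subset_iff.2 (h1 n)⟩, fun p _ => ⟨a 0, mem_iUnion.2 ⟨0, rfl⟩, fun i => isEmptyElim i⟩⟩
  rcases isEmpty_or_nonempty β with hβ | hβ
  · exact ⟨fun _ => ∅, fun _ => ⟨sm_empty, empty_subset _⟩, fun p hp =>
      let ⟨a, _⟩ := h 0 p hp; isEmptyElim a⟩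
  refine reindex (ℕ × (ι → ℕ)) 𝒜 _ fun e => ?_
  obtain ⟨F, f1, f2⟩ := hS hι (fun n => {V | ∃ G : ℕ → Set X, (∀ l, IsOpen (G l)) ∧ V = ⋃ l, G l ∧
      ∀ s : ι → ℕ, (∀ i, (G (s i) ∩ c i).Nonempty) → ∃ a ∈ 𝒜 (e (n, s)), ∀ i, G (s i) ⊆ bx a i})
    fun n => ⟨by rintro _ ⟨G, h1, rfl, -⟩; exact isOpen_iUnion h1, fun W w1 w2 => by
      obtain ⟨m, f, -, rfl⟩ := w1.fin_param
      have H : ∀ l : ℕ, ∃ G : Set X, IsOpen G ∧ (∀ hl : l < m, G.Nonempty ∧ G ⊆ f ⟨l, hl⟩) ∧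
          (¬ l < m → G = ∅) ∧ ∀ i, (G ∩ c i).Nonempty → G ⊆ c i := fun l => by
        by_cases hl : l < m
        swap
        · exact ⟨∅, isOpen_empty, fun h => absurd h hl, fun _ => rfl, fun _ _ => empty_subset _⟩
        obtain ⟨h1, h2⟩ := w2 _ ⟨⟨l, hl⟩, rfl⟩
        by_cases h3 : ∃ i, (f ⟨l, hl⟩ ∩ c i).Nonempty
        · obtain ⟨i, hi⟩ := h3
          refine ⟨_, h1.inter (hc i), fun _ => ⟨hi, inter_subset_left⟩, fun h => absurd hl h,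
            fun j ⟨x, h4, h5⟩ => ?_⟩
          obtain rfl : i = j := by_contra fun h => disjoint_left.1 (hd h) h4.2 h5
          exact inter_subset_right
        · exact ⟨_, h1, fun _ => ⟨h2, Subset.rfl⟩, fun h => absurd hl h, fun i h => absurd ⟨i, h⟩ h3⟩
      choose G0 g1 g2 g3 g4 using H
      obtain ⟨G, ⟨h1, h2, -⟩, h3, h4⟩ := meet_all (fun p q : ℕ → Set X => ∀ l, q l ⊆ p l)
        (fun _ _ => Subset.rfl) (fun _ _ _ h h' l => (h' l).trans (h l))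
        (fun G => (∀ l, IsOpen (G l)) ∧ (∀ l < m, (G l).Nonempty) ∧
          ∀ l i, (G l ∩ c i).Nonempty → G l ⊆ c i)
        (fun (s : ι → ℕ) G => (∀ i, (G (s i) ∩ c i).Nonempty) →
          ∃ a ∈ 𝒜 (e (n, s)), ∀ i, G (s i) ⊆ bx a i)
        (Set.Finite.pi' fun _ : ι => finite_lt_nat m) (fun s hs G ⟨h1, h2, h3⟩ => by
          by_cases h4 : ∀ i, (G (s i) ∩ c i).Nonempty
          swap
          · exact ⟨G, ⟨h1, h2, h3⟩, fun _ => Subset.rfl, fun h => absurd h h4⟩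
          obtain ⟨a, h5, h6⟩ := h (e (n, s)) (fun i => G (s i))
            fun i => ⟨h1 _, h2 _ (hs i), h3 _ _ (h4 i)⟩
          refine ⟨fun l => G l ∩ ⋂ i ∈ {i | s i = l}, bx a i, ⟨fun l => (h1 l).inter
            ((toFinite _).isOpen_biInter fun i _ => hb _ a h5 i), fun l hl => ?_, fun l i h7 =>
            inter_subset_left.trans (h3 l i (h7.mono (inter_subset_inter_left _ inter_subset_left)))⟩,
            fun _ => inter_subset_left, fun _ => ⟨a, h5, fun i =>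
              inter_subset_right.trans (biInter_subset_of_mem (s := {j | s j = s i}) rfl)⟩⟩
          by_cases h7 : ∃ i, s i = l
          · obtain ⟨i, rfl⟩ := h7
            obtain ⟨x, h8, h9⟩ := h6 i
            refine ⟨x, h9, mem_iInter₂.2 fun j (hj : s j = s i) => ?_⟩
            obtain rfl : i = j := by_contra fun h' => disjoint_left.1 (hd h') (h3 _ _ (h4 i) h9)
              (h3 _ _ (h4 j) (hj ▸ h9))
            exact h8
          · obtain ⟨x, hx⟩ := h2 l hl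
            exact ⟨x, hx, mem_iInter₂.2 fun j hj => absurd ⟨j, hj⟩ h7⟩)
        (fun s p q h1 h2 h3 => by
          obtain ⟨a, h4, h5⟩ := h1 fun i => (h3 i).mono (inter_subset_inter_left _ (h2 _))
          exact ⟨a, h4, fun i => (h2 _).trans (h5 i)⟩)
        G0 ⟨g1, fun l hl => (g2 l hl).1, g4⟩
      refine ⟨_, ⟨G, h1, rfl, fun s hs => h4 s (fun i => by_contra fun h5 => ?_) hs⟩, ?_⟩
      · obtain ⟨x, h6, -⟩ := hs i
        exact (g3 _ h5).subset (h3 _ h6)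
      · rintro _ ⟨l, rfl⟩
        obtain ⟨x, hx⟩ := h2 l l.2
        exact ⟨x, mem_iUnion.2 ⟨l, hx⟩, (g2 l l.2).2 (h3 _ hx)⟩⟩
  choose! G g1 g2 g3 using fun n V (hV : V ∈ F n) => (f1 n).2 hV
  choose! a a1 a2 using g3
  refine ⟨fun τ => (fun V => a τ.1 V τ.2) '' {V ∈ F τ.1 | ∀ i, (G τ.1 V (τ.2 i) ∩ c i).Nonempty},
    fun τ => ⟨((f1 _).1.mono (sep_subset _ _)).image _, ?_⟩, fun p hp => ?_⟩
  · rintro _ ⟨V, hV, rfl⟩
    exact a1 _ _ hV.1 _ hV.2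
  obtain ⟨V, h1, h2⟩ := f2 (range p) (finite_range p) (by
    rintro _ ⟨i, rfl⟩; exact ⟨(hp i).1, (hp i).2.1⟩)
  obtain ⟨n, hn⟩ := mem_iUnion.1 h1
  have H : ∀ i, ∃ l, (G n V l ∩ p i).Nonempty := fun i => by
    obtain ⟨x, h3, h4⟩ := h2 _ ⟨i, rfl⟩
    rw [g2 n V hn] at h3
    obtain ⟨l, hl⟩ := mem_iUnion.1 h3
    exact ⟨l, x, hl, h4⟩
  choose s hs using H
  have h3 : ∀ i, (G n V (s i) ∩ c i).Nonempty := fun i =>
    (hs i).mono (inter_subset_inter_right _ (hp i).2.2)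
  exact ⟨_, mem_iUnion.2 ⟨(n, s), V, ⟨hn, h3⟩, rfl⟩, fun i =>
    (hs i).mono (inter_subset_inter_left _ (a2 n V hn s h3 i))⟩

lemma exists_box [Finite ι] {W : Set (ι → X)} (hW : IsOpen W) (hn : W.Nonempty) :
    ∃ p : ι → Set X, (∀ i, IsOpen (p i) ∧ (p i).Nonempty) ∧ pi univ p ⊆ W := by
  obtain ⟨x, hx⟩ := hn
  obtain ⟨u, h1, h2⟩ := isOpen_pi_iff'.1 hW x hx
  exact ⟨u, fun i => ⟨(h1 i).1, _, (h1 i).2⟩, h2⟩

lemma box_open [Finite ι] {p : ι → Set X} (h : ∀ i, IsOpen (p i)) : IsOpen (pi univ p) :=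
  isOpen_set_pi finite_univ fun i _ => h i

lemma box_meet {p q : ι → Set X} : (pi univ p ∩ pi univ q).Nonempty ↔ ∀ i, (p i ∩ q i).Nonempty := by
  rw [← pi_inter_distrib, univ_pi_nonempty_iff]

lemma Ccc.cnt [Finite ι] (h : Ccc (ι → X)) {bx : β → ι → Set X} {𝒜 : Set β}
    (hb : ∀ a ∈ 𝒜, ∀ i, IsOpen (bx a i)) (hp : Pd (fun _ => univ) bx 𝒜) :
    ∃ 𝒜' ⊆ 𝒜, 𝒜'.Countable ∧ Pd (fun _ => univ) bx 𝒜' := by
  obtain ⟨ℬ, h1, h2, h3⟩ := maximal_disj (X := ι → X) fun W => ∃ a ∈ 𝒜, W ⊆ pi univ (bx a)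
  have := (h ℬ (fun U hU => ⟨(h1 U hU).1, (h1 U hU).2.1⟩) h2).to_subtype
  choose a a1 a2 using fun U : ℬ => (h1 U U.2).2.2
  refine ⟨range a, range_subset_iff.2 a1, countable_range a, fun p hp' => ?_⟩
  obtain ⟨a', h4, h5⟩ := hp p hp'
  obtain ⟨U, h6, x, h7, h8⟩ := h3 _ ((box_open (hb a' h4)).inter (box_open fun i => (hp' i).1))
    (box_meet.2 h5) ⟨a', h4, inter_subset_left⟩
  exact ⟨_, ⟨⟨U, h6⟩, rfl⟩, box_meet.1 ⟨x, a2 ⟨U, h6⟩ h7, h8.2⟩⟩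

def Atm (B : ℕ → Set X) (G : Set X) : Prop := IsOpen G ∧ G.Nonempty ∧
  ∀ j, ∀ G' ⊆ G, IsOpen G' → G'.Nonempty → (B j ∩ G).Nonempty → (B j ∩ G').Nonempty

lemma Ccc.atoms (h : Ccc X) (B : ℕ → Set X) : ∃ g : ℕ → Set X, ∀ G, Atm B G →
    ∃ n, Atm B (g n) ∧ ∀ j, (B j ∩ g n).Nonempty → (B j ∩ G).Nonempty := by
  obtain ⟨𝒜, h1, h2, h3⟩ := maximal_disj (Atm B)
  obtain ⟨g, hg⟩ := ((h 𝒜 (fun U hU => ⟨(h1 U hU).1, (h1 U hU).2.1⟩) h2).insert ∅).exists_eq_range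
    (insert_nonempty _ _)
  refine ⟨g, fun G hG => ?_⟩
  obtain ⟨U, h4, h5⟩ := h3 G hG.1 hG.2.1 hG
  obtain ⟨n, rfl⟩ := hg.subset (mem_insert_of_mem _ h4)
  exact ⟨n, (h1 _ h4).2.2, fun j hj => ((h1 _ h4).2.2.2.2 j _ inter_subset_left
    ((h1 _ h4).1.inter hG.1) h5 hj).mono (inter_subset_inter_right _ inter_subset_right)⟩

def side (B : ℕ → Set X) (x : ℕ × Bool) : Set X := bif x.2 then B x.1 else (closure (B x.1))ᶜ

lemma side_open {B : ℕ → Set X} (hB : ∀ j, IsOpen (B j)) (x : ℕ × Bool) : IsOpen (side B x) := by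
  obtain ⟨j, _ | _⟩ := x
  exacts [isClosed_closure.isOpen_compl, hB j]

lemma side_disj (B : ℕ → Set X) (j : ℕ) : Disjoint (side B (j, true)) (side B (j, false)) :=
  disjoint_left.2 fun _ h h' => h' (subset_closure h)

lemma split {B : ℕ → Set X} {G : Set X} (h1 : IsOpen G) (h2 : G.Nonempty) (h : ¬ Atm B G) :
    ∃ j, (G ∩ side B (j, true)).Nonempty ∧ (G ∩ side B (j, false)).Nonempty := by
  simp only [Atm, h1, h2, true_and, not_forall] at h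
  obtain ⟨j, G', a1, a2, ⟨x, hx⟩, a3, a4⟩ := h
  exact ⟨j, inter_comm G _ ▸ a3, x, a1 hx, disjoint_right.1 (Disjoint.closure_left
    (not_not.1 (mt not_disjoint_iff_nonempty_inter.1 a4)) a2) hx⟩

lemma sel_box [Finite ι] (hS : Sel b X) (hc : Ccc (ι → X)) {bx : β → ι → Set X} {𝒜 : ℕ → Set β}
    (hb : ∀ n, ∀ a ∈ 𝒜 n, ∀ i, IsOpen (bx a i)) (h : ∀ n, Pd (fun _ => univ) bx (𝒜 n)) :
    ∃ F : ℕ → Set β, (∀ n, Sm b (F n) ∧ F n ⊆ 𝒜 n) ∧ Pd (fun _ => univ) bx (⋃ n, F n) := by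
  classical
  choose 𝒜' a1 a2 a3 using fun n => hc.cnt (hb n) (h n)
  obtain ⟨B, hB⟩ := ((countable_iUnion fun n => (a2 n).biUnion
    fun a _ => countable_range (bx a)).insert ∅).exists_eq_range (insert_nonempty _ _)
  have hB1 : ∀ j, IsOpen (B j) := fun j => by
    rcases hB.symm.subset ⟨j, rfl⟩ with h | h
    · rw [h]; exact isOpen_empty
    · simp only [mem_iUnion] at h
      obtain ⟨n, a, ha, i, e⟩ := h
      exact e ▸ hb n a (a1 n ha) i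
  have hB2 : ∀ n, ∀ a ∈ 𝒜' n, ∀ i, ∃ j, B j = bx a i := fun n a ha i =>
    hB.subset (mem_insert_of_mem _ (mem_iUnion.2 ⟨n, mem_biUnion ha ⟨i, rfl⟩⟩))
  obtain ⟨g, hg⟩ := hS.ccc.atoms B
  let c : (ι → Finset (ℕ × Bool)) → ι → Set X := fun π i => ⋂ x ∈ π i, side B x
  have hc' : ∀ π i, IsOpen (c π i) := fun π i => isOpen_biInter_finset fun x _ => side_open hB1 x
  refine reindex ((Set ι × (ι → ℕ) × (ι → Finset (ℕ × Bool))) × ℕ) 𝒜 _ fun e => ?_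
  have H : ∀ τ : Set ι × (ι → ℕ) × (ι → Finset (ℕ × Bool)), ∃ F : ℕ → Set β,
      (∀ n, Sm b (F n) ∧ F n ⊆ {a ∈ 𝒜' (e (τ, n)) | ∀ i ∉ τ.1, (bx a i ∩ g (τ.2.1 i)).Nonempty}) ∧
      ((Nonempty τ.1 → Sel' b X) ∧ Pairwise (Disjoint on fun i : τ.1 => c τ.2.2 i) ∧
        (∀ i ∉ τ.1, Atm B (g (τ.2.1 i))) →
        Pd (fun i : τ.1 => c τ.2.2 i) (fun a i => bx a i) (⋃ n, F n)) := fun ⟨S, t, π⟩ => by
    by_cases h0 : (Nonempty S → Sel' b X) ∧ Pairwise (Disjoint on fun i : S => c π i) ∧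
        (∀ i ∉ S, Atm B (g (t i)))
    swap
    · exact ⟨fun _ => ∅, fun _ => ⟨sm_empty, empty_subset _⟩, fun h => absurd h h0⟩
    obtain ⟨F, h1, h2⟩ := sel_disj h0.1 (fun i => hc' π i) h0.2.1 (bx := fun a i => bx a i)
      (𝒜 := fun n => {a ∈ 𝒜' (e ((S, t, π), n)) | ∀ i ∉ S, (bx a i ∩ g (t i)).Nonempty})
      (fun n a ha i => hb _ a (a1 _ ha.1) i) fun n p hp => by
        obtain ⟨a, h1, h2⟩ := a3 (e ((S, t, π), n))
          (fun i => if hi : i ∈ S then p ⟨i, hi⟩ else g (t i)) fun i => by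
            by_cases hi : i ∈ S
            · simp only [dif_pos hi]
              exact ⟨(hp _).1, (hp _).2.1, subset_univ _⟩
            · simp only [dif_neg hi]
              exact ⟨(h0.2.2 i hi).1, (h0.2.2 i hi).2.1, subset_univ _⟩
        exact ⟨a, ⟨h1, fun i hi => by simpa only [dif_neg hi] using h2 i⟩,
          fun i => by simpa only [dif_pos i.2] using h2 i⟩
    exact ⟨F, h1, fun _ => h2⟩
  choose F f1 f2 using H
  refine ⟨fun τ => F τ.1 τ.2, fun τ => ⟨(f1 _ _).1, fun a ha => a1 _ ((f1 _ _).2 ha).1⟩,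
    fun p hp => ?_⟩
  let S : Set ι := {i | ∀ G ⊆ p i, ¬ Atm B G}
  have H : ∀ i, ∃ n, i ∉ S → Atm B (g n) ∧ ∀ j, (B j ∩ g n).Nonempty → (B j ∩ p i).Nonempty :=
    fun i => by
      by_cases hi : i ∈ S
      · exact ⟨0, fun h => absurd hi h⟩
      · simp only [S, mem_setOf_eq, not_forall, not_not] at hi
        obtain ⟨G, h1, h2⟩ := hi
        obtain ⟨n, h3, h4⟩ := hg G h2
        exact ⟨n, fun _ => ⟨h3, fun j hj => (h4 j hj).mono (inter_subset_inter_right _ h1)⟩⟩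
  choose t ht using H
  obtain ⟨q, q1, q2, q3⟩ := meet_all (fun p q : ι → Set X => ∀ l, q l ⊆ p l)
    (fun _ _ => Subset.rfl) (fun _ _ _ h h' l => (h' l).trans (h l))
    (fun q => ∀ i, IsOpen (q i) ∧ (q i).Nonempty ∧ q i ⊆ p i)
    (fun (s : ι × ι) q => ∃ x y, q s.1 ⊆ side B x ∧ q s.2 ⊆ side B y ∧ Disjoint (side B x) (side B y))
    (toFinite {s : ι × ι | s.1 ∈ S ∧ s.1 ≠ s.2}) (fun ⟨i, i'⟩ hs q hq => by
      have key : ∀ x y, (q i ∩ side B x).Nonempty → (q i' ∩ side B y).Nonempty →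
          Disjoint (side B x) (side B y) → ∃ q' : ι → Set X,
            (∀ i, IsOpen (q' i) ∧ (q' i).Nonempty ∧ q' i ⊆ p i) ∧ (∀ l, q' l ⊆ q l) ∧
            ∃ x y, q' i ⊆ side B x ∧ q' i' ⊆ side B y ∧ Disjoint (side B x) (side B y) := by
        intro x y h1 h2 h3
        refine ⟨fun l => if l = i then q i ∩ side B x else if l = i' then q i' ∩ side B y else q l,
          fun l => ?_, fun l => ?_, x, y, ?_, ?_, h3⟩
        · dsimp only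
          split_ifs with h4 h5
          · exact ⟨(hq i).1.inter (side_open hB1 x), h1, h4 ▸ inter_subset_left.trans (hq l).2.2⟩
          · exact ⟨(hq i').1.inter (side_open hB1 y), h2, h5 ▸ inter_subset_left.trans (hq l).2.2⟩
          · exact hq l
        · dsimp only
          split_ifs with h4 h5
          exacts [h4 ▸ inter_subset_left, h5 ▸ inter_subset_left, Subset.rfl]
        · simp only [if_true]
          exact inter_subset_right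
        · simp only [if_neg (Ne.symm hs.2), if_true]
          exact inter_subset_right
      obtain ⟨j, h1, h2⟩ := split (hq i).1 (hq i).2.1 (hs.1 _ (hq i).2.2)
      by_cases h3 : (q i' ∩ side B (j, true)).Nonempty
      · exact key _ _ h2 h3 (side_disj B j).symm
      · obtain ⟨x, hx⟩ := (hq i').2.1
        exact key _ (j, false) h1 ⟨x, hx, disjoint_left.1 (Disjoint.closure_right
          (not_not.1 (mt not_disjoint_iff_nonempty_inter.1 h3)) (hq i').1) hx⟩ (side_disj B j))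
    (fun s p q ⟨x, y, h1, h2, h3⟩ h => ⟨x, y, (h _).trans h1, (h _).trans h2, h3⟩)
    p fun i => ⟨(hp i).1, (hp i).2.1, Subset.rfl⟩
  choose! x y h1 h2 h3 using q3
  let R := {s : ι × ι | s.1 ∈ S ∧ s.1 ≠ s.2}
  let π : ι → Finset (ℕ × Bool) := fun i =>
    (toFinite (x '' {s ∈ R | s.1 = i} ∪ y '' {s ∈ R | s.2 = i})).toFinset
  obtain ⟨a, h4, h5⟩ := f2 (S, t, π) ⟨fun ⟨i, hi⟩ => hS.sel' (W := p i) ⟨(hp i).1, (hp i).2.1,
      fun G g1 g2 g3 => by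
        obtain ⟨j, h1, h2⟩ := split g2 g3 (hi G g1)
        exact ⟨_, _, inter_subset_left, inter_subset_left, g2.inter (side_open hB1 _),
          g2.inter (side_open hB1 _), h1, h2,
          (side_disj B j).mono inter_subset_right inter_subset_right⟩⟩,
    fun i i' hii => by
      have hR : (i.1, i'.1) ∈ R := ⟨i.2, fun e => hii (Subtype.ext e)⟩
      exact (h3 _ hR).mono
        (biInter_subset_of_mem ((Finite.mem_toFinset _).2 (Or.inl ⟨_, ⟨hR, rfl⟩, rfl⟩)))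
        (biInter_subset_of_mem ((Finite.mem_toFinset _).2 (Or.inr ⟨_, ⟨hR, rfl⟩, rfl⟩))),
    fun i hi => (ht i hi).1⟩ (fun i => q i) fun i => ⟨(q1 i).1, (q1 i).2.1,
      subset_iInter₂ fun z hz => by
        rcases (Finite.mem_toFinset _).1 hz with ⟨s, ⟨h4, h5⟩, rfl⟩ | ⟨s, ⟨h4, h5⟩, rfl⟩
        exacts [h5 ▸ h1 s h4, h5 ▸ h2 s h4]⟩
  obtain ⟨n, hn⟩ := mem_iUnion.1 h4
  refine ⟨a, mem_iUnion.2 ⟨((S, t, π), n), hn⟩, fun i => ?_⟩
  by_cases hi : i ∈ S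
  · exact (h5 ⟨i, hi⟩).mono (inter_subset_inter_right _ (q2 i))
  · obtain ⟨h6, h7⟩ := (f1 _ n).2 hn
    obtain ⟨j, hj⟩ := hB2 _ a h6 i
    exact hj ▸ (ht i hi).2 j (hj ▸ h7 i hi)

end Pool.Agent.H30.Do
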