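import Pool.Agent.H30.DoB
import Pool.Agent.H30.DiaB

set_option autoImplicit false

namespace Pool.Agent.H30.Do

open Set Filter Topology Function Cardinal Pool.Agent.H30.Spl Pool.Agent.H30.Dia

/-- Martin's axiom for `ℵ₁` many dense sets. -/
def MA1 : Prop :=
  ∀ (P : Type) [PartialOrder P] [Nonempty P],
    (∀ A : Set P, (A.Pairwise fun p q => ¬ ∃ r, r ≤ p ∧ r ≤ q) → A.Countable) →
    ∀ 𝒟 : Set (Set P), #𝒟 ≤ ℵ₁ → (∀ D ∈ 𝒟, ∀ p, ∃ q ∈ D, q ≤ p) →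
      ∃ G : Set P, IsUpperSet G ∧ (∀ p ∈ G, ∀ q ∈ G, ∃ r ∈ G, r ≤ p ∧ r ≤ q) ∧
        ∀ D ∈ 𝒟, (G ∩ D).Nonempty

section
variable {X Y : Type*} [TopologicalSpace X] [TopologicalSpace Y] {b : Prop}

lemma Ccc.idx {I : Type*} (h : Ccc X) {S : Set I} {A : I → Set X}
    (h1 : ∀ i ∈ S, IsOpen (A i) ∧ (A i).Nonempty) (h2 : S.PairwiseDisjoint A) : S.Countable := by
  have hi : InjOn A S := fun i hi j hj e => by_contra fun hn =>
    (h1 i hi).2.ne_empty (by simpa [onFun, e] using h2 hi hj hn)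
  refine countable_of_injective_of_countable_image hi (h _ ?_ (hi.pairwiseDisjoint_image.2 h2))
  rintro _ ⟨i, hi, rfl⟩
  exact h1 i hi

lemma Ccc.homeo (h : Ccc X) (e : X ≃ₜ Y) : Ccc Y := fun _ h1 h2 =>
  h.idx (A := fun U => e ⁻¹' U) (fun U hU => ⟨(h1 U hU).1.preimage e.continuous,
    (h1 U hU).2.preimage e.surjective⟩) fun _ hU _ hV hn => (h2 hU hV hn).preimage e

lemma sel_pow (hS : Sel b X) (hc : ∀ k, Ccc (Fin k → X)) (m : ℕ) : Sel b (Fin m → X) := by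
  intro 𝒰 h𝒰
  refine reindex (ℕ × ℕ) 𝒰 _ fun e => ?_
  have H : ∀ j : ℕ, ∃ F : ℕ → Set (Set (Fin m → X) × (Fin j × Fin m → Set X)),
      (∀ n, Sm b (F n) ∧ F n ⊆ {z | z.1 ∈ 𝒰 (e (j, n)) ∧ (∀ i, IsOpen (z.2 i)) ∧
        ∀ l, pi univ (fun i => z.2 (l, i)) ⊆ z.1}) ∧ Pd (fun _ => univ) Prod.snd (⋃ n, F n) :=
    fun j => sel_box hS ((hc (j * m)).homeo
      (Homeomorph.piCongrLeft (Y := fun _ => X) finProdFinEquiv).symm)
      (fun _ _ h => h.2.1) fun n p hp => by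
        have h0 : ∀ l, IsOpen (pi univ fun i => p (l, i)) := fun l => box_open fun i => (hp _).1
        obtain ⟨U, h1, h2⟩ := (h𝒰 (e (j, n))).2.2 (range fun l => pi univ fun i => p (l, i))
          (finite_range _) (by
            rintro _ ⟨l, rfl⟩
            exact ⟨h0 l, univ_pi_nonempty_iff.2 fun i => (hp _).2.1⟩)
        choose q q1 q2 using fun l => exists_box (((h𝒰 _).1.1 U h1).inter (h0 l)) (h2 _ ⟨l, rfl⟩)
        refine ⟨(U, fun i => q i.1 i.2), ⟨h1, fun i => (q1 _ _).1,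
          fun l => (q2 l).trans inter_subset_left⟩, fun i => ?_⟩
        obtain ⟨x, hx⟩ := univ_pi_nonempty_iff.2 fun k => (q1 i.1 k).2
        exact ⟨x i.2, hx _ trivial, (q2 _ hx).2 _ trivial⟩
  choose F f1 f2 using H
  refine ⟨fun τ => Prod.fst '' F τ.1 τ.2, fun τ => ⟨(f1 _ _).1.image _,
    image_subset_iff.2 fun z hz => ((f1 _ _).2 hz).1⟩, fun W w1 w2 => ?_⟩
  obtain ⟨j, f, -, rfl⟩ := w1.fin_param
  choose q q1 q2 using fun l => exists_box (w2 _ ⟨l, rfl⟩).1 (w2 _ ⟨l, rfl⟩).2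
  obtain ⟨z, h1, h2⟩ := f2 j (fun i => q i.1 i.2) fun i => ⟨(q1 _ _).1, (q1 _ _).2, subset_univ _⟩
  obtain ⟨n, hn⟩ := mem_iUnion.1 h1
  refine ⟨z.1, mem_iUnion.2 ⟨(j, n), z, hn, rfl⟩, ?_⟩
  rintro _ ⟨l, rfl⟩
  exact (box_meet.2 fun i => h2 (l, i)).mono (inter_subset_inter (((f1 _ _).2 hn).2.2 l) (q2 l))

end

lemma W1_unc {S : Set W1} (h : ∀ a, ∃ b ∈ S, a ≤ b) : ¬ S.Countable := fun hS => by
  obtain ⟨i, hi⟩ := W1_bdd hS
  obtain ⟨b, h1, h2⟩ := h i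
  exact (hi b h1).not_ge h2

variable {X Y : Type} [TopologicalSpace X] [TopologicalSpace Y]

lemma knaster (hM : MA1) (hX : Ccc X) {U : W1 → Set X} (hU : ∀ i, IsOpen (U i) ∧ (U i).Nonempty) :
    ∃ S : Set W1, ¬ S.Countable ∧ ∀ i ∈ S, ∀ j ∈ S, (U i ∩ U j).Nonempty := by
  have H : ∃ W0, IsOpen W0 ∧ W0.Nonempty ∧ ∀ W ⊆ W0, IsOpen W → W.Nonempty →
      ∀ a, ∃ c, a ≤ c ∧ (W ∩ U c).Nonempty := by
    by_contra hc
    push Not at hc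
    obtain ⟨𝒜, h1, h2, h3⟩ := maximal_disj (X := X) fun W => ∃ a, ∀ c, a ≤ c → W ∩ U c = ∅
    choose! f hf using fun W hW => (h1 W hW).2.2
    obtain ⟨i, hi⟩ := W1_bdd ((hX 𝒜 (fun W hW => ⟨(h1 W hW).1, (h1 W hW).2.1⟩) h2).image f)
    obtain ⟨W, h4, h5, h6, h7⟩ := hc _ (hU i).1 (hU i).2
    obtain ⟨A, h8, h9⟩ := h3 W h5 h6 h7
    exact (h9.mono (inter_subset_inter_right _ h4)).ne_empty
      (hf A h8 i (hi _ (mem_image_of_mem f h8)).le)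
  obtain ⟨W0, h1, h2, h3⟩ := H
  let P := {W : Set X // IsOpen W ∧ W.Nonempty ∧ W ⊆ W0}
  have : Nonempty P := ⟨⟨W0, h1, h2, Subset.rfl⟩⟩
  obtain ⟨G, -, g1, g2⟩ := hM P (fun A hA => hX.idx (A := Subtype.val)
      (fun W _ => ⟨W.2.1, W.2.2.1⟩) fun V hV W hW hn => by_contra fun h => hA hV hW hn
        ⟨⟨V.1 ∩ W.1, V.2.1.inter W.2.1, not_disjoint_iff_nonempty_inter.1 h,
          inter_subset_left.trans V.2.2.2⟩, inter_subset_left, inter_subset_right⟩)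
    (range fun a : W1 => {W : P | ∃ c, a ≤ c ∧ W.1 ⊆ U c}) (mk_range_le.trans mk_W1.le) (by
      rintro _ ⟨a, rfl⟩ W
      obtain ⟨c, h4, h5⟩ := h3 W.1 W.2.2.2 W.2.1 W.2.2.1 a
      exact ⟨⟨W.1 ∩ U c, W.2.1.inter (hU c).1, h5, inter_subset_left.trans W.2.2.2⟩,
        ⟨c, h4, inter_subset_right⟩, inter_subset_left⟩)
  refine ⟨{c | ∃ W ∈ G, W.1 ⊆ U c}, W1_unc fun a => ?_, fun i ⟨V, hV, h4⟩ j ⟨W, hW, h5⟩ => ?_⟩
  · obtain ⟨W, h4, c, h5, h6⟩ := g2 _ ⟨a, rfl⟩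
    exact ⟨c, ⟨W, h4, h6⟩, h5⟩
  · obtain ⟨r, -, h6, h7⟩ := g1 V hV W hW
    exact r.2.2.1.mono (subset_inter (Subset.trans h6 h4) (Subset.trans h7 h5))

lemma Ccc.prod (hM : MA1) (hX : Ccc X) (hY : Ccc Y) : Ccc (X × Y) := by
  intro 𝒜 h1 h2
  by_contra hc
  obtain ⟨A⟩ : Nonempty (W1 ↪ 𝒜) := by
    rw [← Cardinal.le_def, mk_W1]
    exact not_lt.1 (mt (countable_iff_lt_aleph_one _).2 hc)
  have H : ∀ i, ∃ U V, (IsOpen U ∧ U.Nonempty) ∧ (IsOpen V ∧ V.Nonempty) ∧ U ×ˢ V ⊆ (A i).1 :=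
    fun i => by
      obtain ⟨h3, ⟨x, y⟩, h4⟩ := h1 _ (A i).2
      obtain ⟨U, V, a1, a2, a3, a4, a5⟩ := isOpen_prod_iff.1 h3 x y h4
      exact ⟨U, V, ⟨a1, x, a3⟩, ⟨a2, y, a4⟩, a5⟩
  choose U V u1 u2 u3 using H
  obtain ⟨S, h3, h4⟩ := knaster hM hX u1
  refine h3 (hY.idx (fun i _ => u2 i) fun i hi j hj hn => disjoint_left.2 fun y h5 h6 => ?_)
  obtain ⟨x, h7, h8⟩ := h4 i hi j hj
  exact disjoint_left.1 (h2 (A i).2 (A j).2 fun e => hn (A.injective (Subtype.ext e)))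
    (u3 i (mk_mem_prod h7 h5)) (u3 j (mk_mem_prod h8 h6))

lemma Ccc.pow (hM : MA1) (hX : Ccc X) (k : ℕ) : Ccc (Fin k → X) := by
  induction k with
  | zero => exact fun _ _ _ => to_countable _
  | succ k ih => exact ((ih.prod hM (hX.homeo (Homeomorph.funUnique (Fin 1) X).symm)).homeo
      (Fin.appendHomeomorph k 1))

variable {t : Lv}

lemma tr_sel (h : Tr False t) : Sel True (Sp t) := by
  classical
  intro 𝒰 h𝒰
  choose δ hδ using fun n => h.G {d | ∃ U ∈ 𝒰 n, ∀ y ∈ d, cone t y ⊆ U} fun u _ => by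
    obtain ⟨U, h1, h2⟩ := (h𝒰 n).2.2 (cone t '' u) (u.finite_toSet.image _) (by
      rintro _ ⟨x, -, rfl⟩
      exact ⟨(cone_clopen t x).isOpen, _, pt_mem t x⟩)
    choose! y hy using fun x (hx : x ∈ u) => h.pi' (((h𝒰 n).1.1 U h1).inter (cone_clopen t x).isOpen)
      (h2 _ ⟨x, hx, rfl⟩)
    refine ⟨u.image y, ⟨U, h1, fun z hz => ?_⟩, fun x hx =>
      ⟨y x, Finset.mem_image_of_mem _ hx, mem_cone.1 (hy x hx (pt_mem t _)).2⟩⟩
    obtain ⟨x, hx, rfl⟩ := Finset.mem_image.1 hz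
    exact (hy x hx).trans inter_subset_left
  obtain ⟨γ, hγ⟩ := W1_bdd (countable_range δ)
  obtain ⟨en, hen⟩ := exists_surjective_nat (Finset ℕ)
  choose d d1 d2 d3 using fun n => hδ n ((en n).image fun l => (γ, l)) False.elim fun y hy => by
    obtain ⟨l, -, rfl⟩ := Finset.mem_image.1 hy
    exact (hγ _ ⟨n, rfl⟩).le
  choose U u1 u2 using d1
  refine ⟨fun n => {U n}, fun n => ⟨⟨finite_singleton _, fun _ => subsingleton_singleton⟩,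
    singleton_subset_iff.2 (u1 n)⟩, fun W w1 w2 => ?_⟩
  have H : ∀ V ∈ W, ∃ l z, Le t (γ, l) z ∧ pt t z ∈ V := fun V hV => by
    obtain ⟨x, hx⟩ := h.pi' (w2 V hV).1 (w2 V hV).2
    rcases le_total x.1 γ with h1 | h1
    · obtain ⟨l, hl⟩ := h.E x γ h1
      exact ⟨l, _, Le.refl _ _, hx (mem_cone.2 hl)⟩
    · obtain ⟨l, hl⟩ := h.R x γ h1
      exact ⟨l, x, hl, hx (pt_mem t x)⟩
  choose! l z h1 h2 using H
  obtain ⟨n, hn⟩ := hen (w1.image l).toFinset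
  refine ⟨U n, mem_iUnion.2 ⟨n, rfl⟩, fun V hV => ?_⟩
  obtain ⟨x, h3, h4⟩ := d3 n (γ, l V) (Finset.mem_image_of_mem _
    (hn ▸ (Finite.mem_toFinset _).2 (mem_image_of_mem l hV)))
  exact ⟨_, u2 n x h3 (mem_cone.2 (h4.trans (h1 V hV))), h2 V hV⟩

lemma tr_not_ccc {sp : Prop} (h : Tr sp t) : ¬ Ccc (Fin 2 → Sp t) := fun hc => by
  choose r r1 r2 r3 using h.rep
  have key : ∀ a b : W1, a < b → Disjoint (pi univ fun i : Fin 2 => cone t (r (a, 0) i))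
      (pi univ fun i : Fin 2 => cone t (r (b, 0) i)) := fun a b hab => disjoint_left.2 fun x h1 h2 => by
    have H : ∀ i : Fin 2, t b 0 (sc a) = i := fun i => by
      obtain ⟨y, hy⟩ := pt_surj (x i)
      have e1 := mem_cone.1 (hy ▸ h1 i trivial)
      have e2 := (r2 _ _).trans (mem_cone.1 (hy ▸ h2 i trivial))
      rw [e2.2 _ (sc_le hab), ← r3 (a, 0) i, e1.2 _ le_rfl, r1]
    exact absurd ((H 0).symm.trans (H 1)) (by decide)
  refine W1_unc (S := univ) (fun a => ⟨a, trivial, le_rfl⟩) (hc.idx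
    (A := fun a => pi univ fun i : Fin 2 => cone t (r (a, 0) i)) (fun a _ =>
      ⟨box_open fun i => (cone_clopen t _).isOpen, univ_pi_nonempty_iff.2 fun i => ⟨_, pt_mem t _⟩⟩)
    fun a _ b _ hn => ?_)
  rcases lt_or_gt_of_ne hn with h1 | h1
  exacts [key a b h1, (key b a h1).symm]

end Pool.Agent.H30.Do
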