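import Pool.Agent.H30.TowA

set_option autoImplicit false

open Set Filter Topology Cardinal

namespace Pool.Agent.H30.Dow

open Pool.Agent.H30.Spl Pool.Agent.H30.Dia Pool.Agent.H30.Tow Pool.Agent.H30.Moo

lemma fin_idx {α : Type} {S : Set α} {ι : α → ℕ} (hι : ∀ a ∈ S, ∀ b, ι b = ι a → b = a) (k : ℕ) :
    {β | β ∈ S ∧ ι β ≤ k}.Finite :=
  Finite.of_finite_image (f := ι) ((finite_Iic k).subset (by rintro _ ⟨β, h, rfl⟩; exact h.2))
    fun a ha b _ h => (hι a ha.1 b h.symm).symm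

theorem exists_strict : ∃ x : W1 → Set ℕ, (∀ β α, β ≤ α → (x α \ x β).Finite) ∧
    ∀ β α, β < α → (x β \ x α).Infinite := by
  classical
  obtain ⟨x, hx⟩ := wf_rec (T := W1) (β := Set ℕ) (fun α x y =>
    (∀ β < α, (x β).Infinite) → (∀ β < α, ∀ γ < α, γ ≤ β → (x β \ x γ).Finite) →
      y.Infinite ∧ ∀ β < α, (y \ x β).Finite ∧ (x β \ y).Infinite)
    (fun α x => by
      by_cases h : (∀ β < α, (x β).Infinite) ∧ ∀ β < α, ∀ γ < α, γ ≤ β → (x β \ x γ).Finite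
      swap
      · exact ⟨∅, fun h1 h2 => (h ⟨h1, h2⟩).elim⟩
      obtain ⟨ι, hι⟩ := idx (W1_Iio α)
      have hf := fin_idx hι
      obtain ⟨a, h1, h2, -⟩ := pseudo (Y := fun k => ⋂ β ∈ {β | β ∈ Iio α ∧ ι β ≤ k}, x β) (fun k => by
        rcases ({β | β ∈ Iio α ∧ ι β ≤ k}).eq_empty_or_nonempty with h0 | h0
        · rw [h0]; simpa using infinite_univ
        obtain ⟨β, hβ, hm⟩ := exists_max_image _ id (hf k) h0
        refine ((h.1 β hβ.1).sdiff ((hf k).biUnion fun γ hγ => h.2 β hβ.1 γ hγ.1 (hm γ hγ))).mono ?_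
        intro i hi
        refine mem_iInter₂.2 fun γ hγ => by_contra fun hc => hi.2 ?_
        exact mem_iUnion₂.2 ⟨γ, hγ, hi.1, hc⟩) id
      refine ⟨range fun k => a (2 * k), fun _ _ => ⟨infinite_range_of_injective fun i j h => by
        have := h1.injective h
        omega, fun β hβ => ⟨?_, ?_⟩⟩⟩
      · refine ((finite_Iio (ι β)).image a).subset ?_
        rintro _ ⟨⟨k, rfl⟩, hk⟩
        refine ⟨2 * k, by_contra fun hc => hk ?_, rfl⟩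
        exact mem_iInter₂.1 (h2 _) β ⟨hβ, not_lt.1 hc⟩
      · refine infinite_of_injective_forall_mem (f := fun k => a (2 * (k + ι β) + 1)) (fun i j h => by
          have := h1.injective h
          omega) fun k => ⟨mem_iInter₂.1 (h2 _) β ⟨hβ, by omega⟩, ?_⟩
        rintro ⟨j, hj⟩
        have := h1.injective hj
        omega)
    (fun α x y b hxy H h1 h2 => by
      obtain ⟨h3, h4⟩ := H (fun β hβ => hxy β hβ ▸ h1 β hβ)
        (fun β hβ γ hγ h => by rw [hxy β hβ, hxy γ hγ]; exact h2 β hβ γ hγ h)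
      exact ⟨h3, fun β hβ => hxy β hβ ▸ h4 β hβ⟩)
  have key : ∀ α, (x α).Infinite ∧ (∀ β ≤ α, (x α \ x β).Finite) ∧ ∀ β < α, (x β \ x α).Infinite := by
    intro α
    induction α using WellFoundedLT.induction with
    | ind α ih =>
      obtain ⟨h1, h2⟩ := hx α (fun β hβ => (ih β hβ).1) fun β hβ γ _ h => (ih β hβ).2.1 γ h
      refine ⟨h1, fun β hβ => ?_, fun β hβ => (h2 β hβ).2⟩
      rcases hβ.eq_or_lt with rfl | hβ
      · simp
      · exact (h2 β hβ).1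
  exact ⟨x, fun β α h => (key α).2.1 β h, fun β α h => (key α).2.2 β h⟩

lemma dia2 (h : Diamond) : ∃ A B : W1 → Set W1, ∀ (S T : Set W1) (c : W1 → Set W1),
    (∀ s, (c s).Countable) → ∃ δ, (∃ a, a < δ) ∧ (∀ s < δ, c s ⊆ Iio δ) ∧
      (∀ a < δ, a ∈ A δ ↔ a ∈ S) ∧ ∀ a < δ, a ∈ B δ ↔ a ∈ T := by
  classical
  obtain ⟨A, -, hA⟩ := h
  obtain ⟨φ⟩ : Nonempty (W1 × Bool ↪ W1) := by
    rw [← Cardinal.le_def, mk_prod, mk_W1]
    simp only [lift_id, mk_bool]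
    exact mul_le_of_le aleph0_lt_aleph_one.le le_rfl ((natCast_le_aleph0 (n := 2)).trans aleph0_lt_aleph_one.le)
  refine ⟨fun δ => {a | φ (a, true) ∈ A δ}, fun δ => {a | φ (a, false) ∈ A δ}, fun S T c hc => ?_⟩
  let c' : W1 → Set W1 := fun s => insert (φ (s, true)) (insert (φ (s, false)) (c s))
  obtain ⟨δ, ⟨h0, hδ⟩, hS⟩ := hA (φ '' (S ×ˢ {true} ∪ T ×ˢ {false}))
    {δ | (∃ a, a < δ) ∧ ∀ s < δ, c' s ⊆ Iio δ} (by
      refine ⟨fun a => ?_, fun δ h1 h2 => ⟨h1, fun s hs => ?_⟩⟩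
      · obtain ⟨b, h1, h2⟩ := club isRegular_aleph_one aleph0_lt_aleph_one mk_W1.ge
          (fun i => (Cardinal.countable_iff_lt_aleph_one _).1 (W1_Iio i))
          (c := fun s => ⋃ i ∈ s, c' i) (fun s => (Cardinal.countable_iff_lt_aleph_one _).1
            (s.countable_toSet.biUnion fun i _ => ((hc i).insert _).insert _)) a
        exact ⟨b, ⟨⟨a, h1⟩, fun s hs => by simpa using h2 {s} (by simpa using hs)⟩, h1⟩
      · obtain ⟨e, he, h3, h4⟩ := h2 s hs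
        exact (he.2 s h3).trans (Iio_subset_Iio h4.le))
  refine ⟨δ, h0, fun s hs x hx => hδ s hs (Or.inr (Or.inr hx)), fun a ha => ?_, fun a ha => ?_⟩
  · have h1 : φ (a, true) < δ := hδ a ha (Or.inl rfl)
    simp [← hS, h1, φ.injective.mem_set_image]
  · have h1 : φ (a, false) < δ := hδ a ha (Or.inr (Or.inl rfl))
    simp [← hS, h1, φ.injective.mem_set_image]

abbrev D : Type := Set ℕ × (ℕ → Set W1)

def Gd (T : Set ℕ) (A B : Set W1) (α : W1) (f : W1 → D) : Prop :=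
  ∃ a : ℕ → W1, StrictMono a ∧ (∀ i, a i < α) ∧ (∀ γ < α, ∃ i, γ < a i) ∧
    (∀ k, ∃ i ≥ k, a i ∈ A) ∧ (∀ k, ∃ i ≥ k, a i ∈ B) ∧
    ∃ E : Set ℕ, (E \ T).Finite ∧ ∀ n ∉ E, ∃ k, ∀ i ≥ k, n ∉ (f (a i)).1

structure St (T : Set ℕ) (A B : Set W1) (α : W1) (f : W1 → D) (b : D) : Prop where
  p0 : ∀ k, α ∈ b.2 k
  p1 : ∀ k, b.2 k ⊆ Iic α
  p2 : Antitone b.2
  p3 : ∀ k, ∀ β < α, β ∈ b.2 k → ∃ j, (f β).2 j ⊆ b.2 k
  p4 : ∀ k, ∀ β < α, β ∉ b.2 k → ∃ j, Disjoint ((f β).2 j) (b.2 k)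
  p5 : ∀ γ < α, ∃ k, b.2 k ⊆ Ioi γ
  p6 : ∀ n ∉ b.1, ∃ k, ∀ β < α, β ∈ b.2 k → n ∉ (f β).1
  p7 : T ⊆ b.1 ∧ (b.1 \ T).Finite
  p8 : Gd T A B α f → ∀ k, (∃ y < α, y ∈ b.2 k ∧ y ∈ A) ∧ ∃ y < α, y ∈ b.2 k ∧ y ∈ B

lemma St.loc {T : Set ℕ} {A B : Set W1} {α : W1} {f g : W1 → D} {b : D} (h : St T A B α f b)
    (e : ∀ η < α, f η = g η) : St T A B α g b := by
  refine ⟨h.p0, h.p1, h.p2, fun k β hβ => e β hβ ▸ h.p3 k β hβ, fun k β hβ => e β hβ ▸ h.p4 k β hβ,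
    h.p5, fun n hn => ?_, h.p7, fun ⟨a, h1, h2, h3, h4, h5, E, h6, h7⟩ =>
      h.p8 ⟨a, h1, h2, h3, h4, h5, E, h6, fun n hn => ?_⟩⟩
  · obtain ⟨k, hk⟩ := h.p6 n hn
    exact ⟨k, fun β hβ => e β hβ ▸ hk β hβ⟩
  · obtain ⟨k, hk⟩ := h7 n hn
    exact ⟨k, fun i hi => (e _ (h2 i)).symm ▸ hk i hi⟩

variable {T : W1 → Set ℕ} {A B : W1 → Set W1} {f : W1 → D}

lemma St.op {α : W1} (h : St (T α) (A α) (B α) α f (f α)) {k : ℕ} {β : W1} (hβ : β ∈ (f α).2 k) :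
    ∃ j, (f β).2 j ⊆ (f α).2 k := by
  rcases (show β ≤ α from h.p1 k hβ).eq_or_lt with rfl | h1
  · exact ⟨k, Subset.rfl⟩
  · exact h.p3 k β h1 hβ

lemma St.cl {α β : W1} (h : St (T α) (A α) (B α) α f (f α)) (h' : St (T β) (A β) (B β) β f (f β))
    {k : ℕ} (hβ : β ∉ (f α).2 k) : ∃ j, Disjoint ((f β).2 j) ((f α).2 k) := by
  rcases lt_trichotomy β α with h1 | rfl | h1
  · exact h.p4 k β h1 hβ
  · exact absurd (h.p0 k) hβ
  · obtain ⟨j, hj⟩ := h'.p5 α h1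
    exact ⟨j, disjoint_left.2 fun x h2 h3 => (show α < x from hj h2).not_ge (h.p1 k h3)⟩

lemma St.ty {α : W1} (h : St (T α) (A α) (B α) α f (f α)) {n : ℕ} (hn : n ∉ (f α).1) :
    ∃ k, ∀ β ∈ (f α).2 k, n ∉ (f β).1 := by
  obtain ⟨k, hk⟩ := h.p6 n hn
  refine ⟨k, fun β hβ => ?_⟩
  rcases (show β ≤ α from h.p1 k hβ).eq_or_lt with rfl | h1
  · exact hn
  · exact hk β h1 hβ

lemma st_step (α : W1) (ih : ∀ β < α, St (T β) (A β) (B β) β f (f β)) :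
    ∃ b, St (T α) (A α) (B α) α f b := by
  by_cases hg : Gd (T α) (A α) (B α) α f
  swap
  · refine ⟨(T α, fun _ => {α}), fun _ => rfl, fun _ _ h => h.le, fun _ _ _ => le_rfl,
      fun _ β h1 h2 => absurd h2 h1.ne, fun _ β h1 _ => ⟨0, disjoint_singleton_right.2 fun h =>
        h1.not_ge ((ih β h1).p1 0 h)⟩, fun γ h => ⟨0, fun _ e => e ▸ h⟩,
      fun _ _ => ⟨0, fun β h1 h2 => absurd h2 h1.ne⟩, ⟨Subset.rfl, by simp⟩, fun h => absurd h hg⟩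
  obtain ⟨a, h1, h2, h3, h4, h5, E, h6, h7⟩ := hg
  have key : ∀ i, ∃ j, (∀ m < i, (f (a i)).2 j ⊆ Ioi (a m)) ∧
      ∀ n < i, n ∉ (f (a i)).1 → ∀ β ∈ (f (a i)).2 j, n ∉ (f β).1 := fun i => by
    have hi := ih _ (h2 i)
    have : ∀ m, ∃ j, m < i → (f (a i)).2 j ⊆ Ioi (a m) ∧
        (m ∉ (f (a i)).1 → ∀ β ∈ (f (a i)).2 j, m ∉ (f β).1) := fun m => by
      by_cases hm : m < i
      swap
      · exact ⟨0, fun h => absurd h hm⟩
      obtain ⟨j, hj⟩ := hi.p5 _ (h1 hm)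
      by_cases hm' : m ∈ (f (a i)).1
      · exact ⟨j, fun _ => ⟨hj, fun h => absurd hm' h⟩⟩
      obtain ⟨k, hk⟩ := hi.ty hm'
      exact ⟨max j k, fun _ => ⟨(hi.p2 (le_max_left _ _)).trans hj,
        fun _ β hβ => hk β (hi.p2 (le_max_right _ _) hβ)⟩⟩
    choose j hj using this
    obtain ⟨M, hM⟩ := ((finite_Iio i).image j).bddAbove
    exact ⟨M, fun m hm => Subset.trans (hi.p2 (hM ⟨m, hm, rfl⟩)) (hj m hm).1,
      fun n hn h β hβ => (hj n hn).2 h β (hi.p2 (hM ⟨n, hn, rfl⟩) hβ)⟩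
  choose j k1 k2 using key
  refine ⟨(T α ∪ E, fun k => insert α (⋃ i ∈ Ici k, (f (a i)).2 (j i))), fun _ => Or.inl rfl,
    fun k => insert_subset self_mem_Iic (iUnion₂_subset fun i _ =>
      ((ih _ (h2 i)).p1 _).trans (Iic_subset_Iic.2 (h2 i).le)),
    fun k l h => insert_subset_insert (biUnion_subset_biUnion_left (Ici_subset_Ici.2 h)),
    fun k β hβ h => ?_, fun k β hβ h => ?_, fun γ hγ => ?_, fun n hn => ?_,
    ⟨subset_union_left, h6.subset fun x hx => ⟨hx.1.resolve_left hx.2, hx.2⟩⟩, fun _ k => ⟨?_, ?_⟩⟩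
  · obtain ⟨i, h8, h9⟩ := mem_iUnion₂.1 (h.resolve_left hβ.ne)
    obtain ⟨l, hl⟩ := (ih _ (h2 i)).op h9
    exact ⟨l, hl.trans ((subset_biUnion_of_mem (u := fun i => (f (a i)).2 (j i)) h8).trans
      (subset_insert _ _))⟩
  · obtain ⟨m, hm⟩ := h3 β hβ
    have : ∀ i, ∃ l, k ≤ i → Disjoint ((f β).2 l) ((f (a i)).2 (j i)) := fun i => by
      by_cases hi : k ≤ i
      · obtain ⟨l, hl⟩ := (ih _ (h2 i)).cl (ih β hβ) fun h8 => h (Or.inr (mem_biUnion hi h8))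
        exact ⟨l, fun _ => hl⟩
      · exact ⟨0, fun h => absurd h hi⟩
    choose l hl using this
    obtain ⟨M, hM⟩ := ((finite_Iic m).image l).bddAbove
    refine ⟨M, disjoint_left.2 fun x h8 h9 => ?_⟩
    have h10 : x ≤ β := (ih β hβ).p1 _ h8
    obtain ⟨i, h11, h12⟩ := mem_iUnion₂.1 (h9.resolve_left (h10.trans_lt hβ).ne)
    rcases le_or_gt i m with h13 | h13
    · exact disjoint_left.1 (hl i h11) ((ih β hβ).p2 (hM ⟨i, h13, rfl⟩) h8) h12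
    · exact (h10.trans_lt hm).not_gt (k1 i m h13 h12)
  · obtain ⟨m, hm⟩ := h3 γ hγ
    exact ⟨m + 1, insert_subset hγ (iUnion₂_subset fun i hi =>
      (k1 i m hi).trans (Ioi_subset_Ioi hm.le))⟩
  · obtain ⟨k, hk⟩ := h7 n fun h => hn (Or.inr h)
    refine ⟨max k (n + 1), fun β hβ h => ?_⟩
    obtain ⟨i, h8, h9⟩ := mem_iUnion₂.1 (h.resolve_left hβ.ne)
    exact k2 i n ((le_max_right k (n + 1)).trans h8) (hk i ((le_max_left _ _).trans h8)) β h9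
  · obtain ⟨i, h8, h9⟩ := h4 k
    exact ⟨a i, h2 i, Or.inr (mem_biUnion h8 ((ih _ (h2 i)).p0 _)), h9⟩
  · obtain ⟨i, h8, h9⟩ := h5 k
    exact ⟨a i, h2 i, Or.inr (mem_biUnion h8 ((ih _ (h2 i)).p0 _)), h9⟩

lemma exists_st (T : W1 → Set ℕ) (A B : W1 → Set W1) :
    ∃ f : W1 → D, ∀ α, St (T α) (A α) (B α) α f (f α) := by
  obtain ⟨f, hf⟩ := wf_rec (T := W1) (β := D) (fun α f b =>
    (∀ β < α, St (T β) (A β) (B β) β f (f β)) → St (T α) (A α) (B α) α f b)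
    (fun α f => by
      by_cases h : ∀ β < α, St (T β) (A β) (B β) β f (f β)
      · obtain ⟨b, hb⟩ := st_step α h
        exact ⟨b, fun _ => hb⟩
      · exact ⟨default, fun h' => absurd h' h⟩)
    (fun α f g b e H h => (H fun β hβ => by
      rw [e β hβ]
      exact (h β hβ).loc fun η hη => (e η (hη.trans hβ)).symm).loc e)
  refine ⟨f, fun α => ?_⟩
  induction α using WellFoundedLT.induction with
  | ind α ih => exact hf α ih

lemma cond (τ : W1 → Set ℕ) {S : Set W1} (hS : ¬ S.Countable) :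
    ∃ a ∈ S, ∀ m γ, ∃ b ∈ S, γ < b ∧ ∀ n < m, n ∈ τ b → n ∈ τ a := by
  classical
  by_contra hc
  push Not at hc
  choose! m γ h using hc
  suffices H : ∀ q : Finset ℕ × ℕ,
      {a : W1 | a ∈ S ∧ m a = q.2 ∧ ∀ n < q.2, (n ∈ τ a ↔ n ∈ q.1)}.Countable from
    hS ((countable_iUnion H).mono fun a ha => by
      refine mem_iUnion.2 ⟨((Finset.range (m a)).filter (· ∈ τ a), m a), ?_⟩
      exact ⟨ha, rfl, fun n (hn : n < m a) => by simp [hn]⟩)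
  intro q
  rcases ({a : W1 | a ∈ S ∧ m a = q.2 ∧ ∀ n < q.2, (n ∈ τ a ↔ n ∈ q.1)}).eq_empty_or_nonempty with h0 | ⟨a, ha⟩
  · rw [h0]; exact countable_empty
  refine (W1_Iic (γ a)).mono fun b hb => (not_lt.1 fun h1 => ?_ : b ≤ γ a)
  obtain ⟨n, h2, h3, h4⟩ := h a ha.1 b hb.1 h1
  rw [ha.2.1] at h2
  exact h4 ((ha.2.2 n h2).2 ((hb.2.2 n h2).1 h3))

structure Ost (f : W1 → D) : Prop where
  st : ∃ T A B : W1 → Set _, ∀ α, St (T α) (A α) (B α) α f (f α)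
  tw : ∀ β α, β < α → ¬ (f α).1 ⊆ (f β).1
  two : ∀ S S' : Set W1, ¬ S.Countable → ¬ S'.Countable →
    ∃ α, ∀ k, ((f α).2 k ∩ S).Nonempty ∧ ((f α).2 k ∩ S').Nonempty

theorem exists_ost (h : Diamond) : ∃ f, Ost f := by
  obtain ⟨x, x1, x2⟩ := exists_strict
  obtain ⟨A, B, hAB⟩ := dia2 h
  obtain ⟨f, hf⟩ := exists_st (fun α => (x α)ᶜ) A B
  refine ⟨f, ⟨_, A, B, hf⟩, fun β α h1 h2 => x2 β α h1 ((hf β).p7.2.subset fun n hn =>
    ⟨h2 ((hf α).p7.1 hn.2), not_not.2 hn.1⟩), fun S S' h1 h2 => ?_⟩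
  obtain ⟨s, -, hs⟩ := cond (fun α => (f α).1) h1
  obtain ⟨s', -, hs'⟩ := cond (fun α => (f α).1) h2
  choose w w1 w2 w3 using hs
  choose v v1 v2 v3 using hs'
  obtain ⟨δ, ⟨a0, h0⟩, h3, h4, h5⟩ := hAB S S'
    (fun γ => insert s (insert s' (range (w · γ) ∪ range (v · γ))))
    fun γ => (((countable_range _).union (countable_range _)).insert _).insert _
  obtain ⟨e, he⟩ := (W1_Iio δ).exists_eq_range ⟨a0, h0⟩
  have he' : ∀ k, e k < δ := fun k => he.ge ⟨k, rfl⟩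
  let u : ℕ → W1 → W1 := fun m γ => if Even m then w m γ else v m γ
  have u1 : ∀ m γ, γ < u m γ := fun m γ => by
    simp only [u]
    split_ifs
    · exact w2 m γ
    · exact v2 m γ
  have u2 : ∀ m γ, γ < δ → u m γ < δ := fun m γ hγ => by
    simp only [u]
    split_ifs
    · exact h3 γ hγ (Or.inr (Or.inr (Or.inl ⟨m, rfl⟩)))
    · exact h3 γ hγ (Or.inr (Or.inr (Or.inr ⟨m, rfl⟩)))
  let a : ℕ → W1 := fun k => Nat.rec a0 (fun k c => u (k + 1) (max c (e k))) k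
  have a1 : ∀ k, a (k + 1) = u (k + 1) (max (a k) (e k)) := fun _ => rfl
  have a2 : ∀ k, a k < δ := fun k => by
    induction k with
    | zero => exact h0
    | succ k ih => exact u2 _ _ (max_lt ih (he' k))
  have h6 := (hf δ).p8 ⟨a, strictMono_nat_of_lt_succ fun k => (le_max_left _ _).trans_lt (u1 _ _), a2,
    fun γ hγ => by
      obtain ⟨k, rfl⟩ : γ ∈ range e := he.le hγ
      exact ⟨k + 1, (le_max_right _ _).trans_lt (u1 _ _)⟩,
    fun k => ⟨2 * k + 1 + 1, by omega, (h4 _ (a2 (2 * k + 1 + 1))).2 (by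
      rw [a1]
      simp only [u, if_pos (show Even (2 * k + 1 + 1) from ⟨k + 1, by omega⟩)]
      exact w1 _ _)⟩,
    fun k => ⟨2 * k + 1, by omega, (h5 _ (a2 (2 * k + 1))).2 (by
      rw [a1]
      simp only [u, if_neg (show ¬ Even (2 * k + 1) by simp)]
      exact v1 _ _)⟩,
    (f s).1 ∪ (f s').1, by
      have key : ∀ t < δ, ((f t).1 \ (x δ)ᶜ).Finite := fun t ht =>
        ((hf t).p7.2.union (x1 t δ ht.le)).subset fun n hn => by
          by_cases h : n ∈ x t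
          · exact Or.inl ⟨hn.1, not_not.2 h⟩
          · exact Or.inr ⟨not_not.1 hn.2, h⟩
      rw [union_diff_distrib]
      exact (key s (h3 a0 h0 (Or.inl rfl))).union (key s' (h3 a0 h0 (Or.inr (Or.inl rfl)))),
    fun n hn => ⟨n + 1, fun i hi h => by
      obtain ⟨i, rfl⟩ : ∃ j, i = j + 1 := ⟨i - 1, by omega⟩
      rw [a1] at h
      simp only [u] at h
      split_ifs at h
      · exact hn (Or.inl (w3 _ _ n hi h))
      · exact hn (Or.inr (v3 _ _ n hi h))⟩⟩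
  refine ⟨δ, fun k => ?_⟩
  obtain ⟨⟨y, h7, h8, h9⟩, z, h10, h11, h12⟩ := h6 k
  exact ⟨⟨y, h8, (h4 y h7).1 h9⟩, z, h11, (h5 z h10).1 h12⟩

def Sp (_ : W1 → D) : Type := W1

instance (f : W1 → D) : TopologicalSpace (Sp f) where
  IsOpen U := ∀ x ∈ U, ∃ k, ∀ y : W1, (∀ j ≤ k, y ∈ (f x).2 j) → y ∈ U
  isOpen_univ := fun _ _ => ⟨0, fun _ _ => trivial⟩
  isOpen_inter := fun U V hU hV x hx => by
    obtain ⟨k, h1⟩ := hU x hx.1
    obtain ⟨l, h2⟩ := hV x hx.2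
    exact ⟨max k l, fun y hy => ⟨h1 y fun j hj => hy j (hj.trans (le_max_left _ _)),
      h2 y fun j hj => hy j (hj.trans (le_max_right _ _))⟩⟩
  isOpen_sUnion := fun S hS x ⟨U, h1, h2⟩ => by
    obtain ⟨k, h3⟩ := hS U h1 x h2
    exact ⟨k, fun y hy => ⟨U, h1, h3 y hy⟩⟩

lemma Ost.open_iff (h : Ost f) {U : Set (Sp f)} :
    IsOpen U ↔ ∀ x ∈ U, ∃ k, ∀ y ∈ (f x).2 k, y ∈ U := by
  obtain ⟨T, A, B, h⟩ := h.st
  refine forall₂_congr fun x _ => exists_congr fun k => ⟨fun H y hy => H y fun j hj => (h x).p2 hj hy,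
    fun H y hy => H y (hy k le_rfl)⟩

lemma Ost.clopen (h : Ost f) (α : W1) (k : ℕ) : IsClopen (X := Sp f) ((f α).2 k) := by
  obtain ⟨T, A, B, h'⟩ := h.st
  refine ⟨⟨h.open_iff.2 fun x hx => ?_⟩, h.open_iff.2 fun x hx => (h' α).op hx⟩
  obtain ⟨j, hj⟩ := (h' α).cl (h' x) hx
  exact ⟨j, fun y hy => disjoint_left.1 hj hy⟩

lemma Ost.iic (h : Ost f) (α : W1) : IsClopen (X := Sp f) (Iic α : Set W1) := by
  obtain ⟨T, A, B, h'⟩ := h.st
  refine ⟨⟨h.open_iff.2 fun x hx => ?_⟩, h.open_iff.2 fun x hx =>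
    ⟨0, fun y hy => le_trans (α := W1) ((h' x).p1 0 hy) hx⟩⟩
  obtain ⟨j, hj⟩ := (h' x).p5 α (not_le.1 hx)
  exact ⟨j, fun y hy => LT.lt.not_ge (α := W1) (hj hy)⟩

lemma Ost.t2 (h : Ost f) : T2Space (Sp f) := by
  have key : ∀ x y : W1, x < y → ∃ u v : Set (Sp f), IsOpen u ∧ IsOpen v ∧ x ∈ u ∧ y ∈ v ∧
      Disjoint u v := fun x y hxy =>
    ⟨_, _, (h.iic x).2, (h.iic x).1.isOpen_compl, le_refl x, not_le.2 hxy, disjoint_compl_right⟩
  refine ⟨fun x y hxy => ?_⟩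
  rcases lt_or_gt_of_ne (α := W1) hxy with h1 | h1
  · exact key x y h1
  · obtain ⟨u, v, a, b, c, d, e⟩ := key y x h1
    exact ⟨v, u, b, a, d, c, e.symm⟩

lemma Ost.meet (h : Ost f) {S S' : Set (Sp f)} (h1 : IsClosed S) (h2 : IsClosed S')
    (h3 : Disjoint S S') : S.Countable ∨ S'.Countable := by
  by_contra hc
  push Not at hc
  obtain ⟨α, hα⟩ := h.two S S' hc.1 hc.2
  have key : ∀ Y : Set (Sp f), IsClosed Y → (∀ k, ((f α).2 k ∩ Y).Nonempty) → α ∈ Y := fun Y a b => by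
    by_contra hn
    obtain ⟨k, hk⟩ := h.open_iff.1 a.isOpen_compl α hn
    obtain ⟨y, c, d⟩ := b k
    exact hk y c d
  exact disjoint_left.1 h3 (key S h1 fun k => (hα k).1) (key S' h2 fun k => (hα k).2)

lemma Ost.cov (h : Ost f) {S S' C : Set (Sp f)} (h2 : IsClosed S') (h3 : Disjoint S S')
    (hC : IsClopen C) (h4 : Disjoint C S') (h5 : (S \ C).Countable) : HasSeparatingCover S S' := by
  obtain ⟨T, A, B, h'⟩ := h.st
  have : ∀ x : Sp f, ∃ u, IsClopen u ∧ Disjoint u S' ∧ (x ∈ S → x ∈ u) := fun x => by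
    by_cases hx : x ∈ S
    · obtain ⟨k, hk⟩ := h.open_iff.1 h2.isOpen_compl x (disjoint_left.1 h3 hx)
      exact ⟨_, h.clopen x k, disjoint_left.2 hk, fun _ => (h' x).p0 k⟩
    · exact ⟨∅, isClopen_empty, empty_disjoint _, fun h => absurd h hx⟩
  choose u a b c using this
  obtain ⟨e, he⟩ := (h5.insert (⊥ : W1)).exists_eq_range (insert_nonempty _ _)
  refine ⟨fun n => u (e n) ∪ C, fun x hx => ?_, fun n => ⟨((a _).union hC).2, ?_⟩⟩
  · by_cases h6 : x ∈ C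
    · exact mem_iUnion.2 ⟨0, Or.inr h6⟩
    · obtain ⟨n, rfl⟩ : x ∈ range e := he.le (Or.inr ⟨hx, h6⟩)
      exact mem_iUnion.2 ⟨n, Or.inl (c _ hx)⟩
  · rw [((a _).union hC).1.closure_eq]
    exact (b _).union_left h4

lemma Ost.normal (h : Ost f) : NormalSpace (Sp f) := by
  have key : ∀ S S' : Set (Sp f), IsClosed S → IsClosed S' → Disjoint S S' → S.Countable →
      SeparatedNhds S S' := fun S S' h1 h2 h3 h4 => by
    obtain ⟨α, hα⟩ := W1_bdd h4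
    exact hasSeparatingCovers_iff_separatedNhds.1 ⟨h.cov h2 h3 isClopen_empty (empty_disjoint _)
      (h4.mono diff_subset), h.cov h1 h3.symm (h.iic α).compl
        (disjoint_left.2 fun x a b => a (hα x b).le) ((W1_Iic α).mono fun x hx => not_not.1 hx.2)⟩
  refine ⟨fun S S' h1 h2 h3 => ?_⟩
  rcases h.meet h1 h2 h3 with h4 | h4
  · exact key S S' h1 h2 h3 h4
  · exact (key S' S h2 h1 h3.symm h4).symm

lemma Ost.fc (h : Ost f) {g : Sp f → ℝ} (hg : Continuous g) : (range g).Countable := by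
  let Z : Set (Sp f) := (⋃ p ∈ {p : ℚ | (g ⁻¹' Iic p).Countable}, g ⁻¹' Iic p) ∪
    ⋃ p ∈ {p : ℚ | (g ⁻¹' Ici p).Countable}, g ⁻¹' Ici p
  have hZ : Z.Countable :=
    (Countable.biUnion (s := {p : ℚ | (g ⁻¹' Iic p).Countable}) (to_countable _) fun _ h => h).union
    (Countable.biUnion (s := {p : ℚ | (g ⁻¹' Ici p).Countable}) (to_countable _) fun _ h => h)
  have key : ∀ x ∉ Z, ∀ y ∉ Z, ¬ g x < g y := fun x hx y hy hxy => by
    obtain ⟨p, h1, h2⟩ := exists_rat_btwn hxy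
    obtain ⟨q, h3, h4⟩ := exists_rat_btwn h2
    rcases h.meet (isClosed_Iic (a := (p : ℝ)).preimage hg) (isClosed_Ici (a := (q : ℝ)).preimage hg)
      (disjoint_left.2 fun z a b => h3.not_ge (le_trans b a)) with h5 | h5
    · exact hx (Or.inl (mem_biUnion h5 h1.le))
    · exact hy (Or.inr (mem_biUnion h5 h4.le))
  have h1 : (g '' Zᶜ).Subsingleton := by
    rintro _ ⟨x, hx, rfl⟩ _ ⟨y, hy, rfl⟩
    exact le_antisymm (not_lt.1 (key y hy x hx)) (not_lt.1 (key x hx y hy))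
  rw [← image_univ, ← union_compl_self Z, image_union]
  exact (hZ.image g).union h1.countable

lemma Ost.fst (h : Ost f) : FirstCountableTopology (Sp f) := by
  obtain ⟨T, A, B, h'⟩ := h.st
  refine ⟨fun x => HasCountableBasis.isCountablyGenerated (p := fun _ : ℕ => True)
    (s := fun k => (f x).2 k) ⟨⟨fun U => ⟨fun hU => ?_, fun ⟨k, _, hk⟩ =>
      mem_of_superset ((h.clopen x k).2.mem_nhds ((h' x).p0 k)) hk⟩⟩, to_countable _⟩⟩
  obtain ⟨V, h1, h2, h3⟩ := mem_nhds_iff.1 hU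
  obtain ⟨k, hk⟩ := h.open_iff.1 h2 x h3
  exact ⟨k, trivial, fun y hy => h1 (hk y hy)⟩

lemma Ost.not_es (h : Ost f) : ∃ F : Set (Set (Sp f)), F.Countable ∧ (∀ s ∈ F, IsClosed s) ∧
    ¬ ∃ A : Set (Sp f), A.Countable ∧ ∀ G ⊆ F, (⋂₀ G).Nonempty → (A ∩ ⋂₀ G).Nonempty := by
  obtain ⟨T, A, B, h'⟩ := h.st
  refine ⟨range fun n => {α | n ∈ (f α).1}, countable_range _, ?_, ?_⟩
  · rintro _ ⟨n, rfl⟩
    exact ⟨h.open_iff.2 fun x hx => (h' x).ty hx⟩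
  rintro ⟨A, h1, h2⟩
  obtain ⟨β, hβ⟩ := W1_bdd h1
  obtain ⟨a, h3, h4⟩ := h2 ((fun n => {α | n ∈ (f α).1}) '' (f β).1) (image_subset_range _ _)
    ⟨β, by rintro _ ⟨n, hn, rfl⟩; exact hn⟩
  exact h.tw a β (hβ a h3) fun n hn => h4 _ ⟨n, hn, rfl⟩

end Pool.Agent.H30.Dow
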