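import Mathlib

set_option autoImplicit false

namespace Pool.Agent.H30

open Finset

/-- A parity lemma on a grid. -/
lemma grid (s ν : ℕ → ℕ → ZMod 2) (n k : ℕ)
    (hc : ∀ i < n, ∀ j < k, (s i j = s (i + 1) j ∧ s i j = s i (j + 1) ∧ s i j = s (i + 1) (j + 1)) ∨
      (ν i j = ν (i + 1) j ∧ ν i j = ν i (j + 1)))
    (hl : ∀ j < k, (s 0 j + s 0 (j + 1)) * ν 0 j = 0)
    (hr : ∀ j < k, (s n j + s n (j + 1)) * ν n j = 0) :
    ∑ i ∈ range n, (s i k + s (i + 1) k) * ν i k = ∑ i ∈ range n, (s i 0 + s (i + 1) 0) * ν i 0 := by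
  induction k with
  | zero => rfl
  | succ k ih =>
    rw [← ih (fun i hi j hj => hc i hi j (by omega)) (fun j hj => hl j (by omega))
      fun j hj => hr j (by omega), ← sub_eq_zero, ← sum_sub_distrib]
    have := sum_range_sub (fun i => (s i k + s i (k + 1)) * ν i k) n
    rw [hl k (by omega), hr k (by omega), sub_zero] at this
    rw [← this]
    refine sum_congr rfl fun i hi => ?_
    have key : ∀ a b c d x y z : ZMod 2, ((a = b ∧ a = c ∧ a = d) ∨ (x = y ∧ x = z)) →
        (c + d) * z - (a + b) * x = (b + d) * y - (a + c) * x := by decide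
    exact key _ _ _ _ _ _ _ (hc i (mem_range.1 hi) k (by omega))

end Pool.Agent.H30
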