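import Pool.Agent.Lead.Gro1
import Pool.Agent.H30.D2a

set_option autoImplicit false

namespace Pool.Agent.H30.GroP

open Set Filter Topology Cardinal Pool.Agent.Lead.Gro D2

theorem cc_groth {X : Type} [TopologicalSpace X] [Nonempty X]
    (hX : ∀ s : ℕ → X, ∃ y, MapClusterPt y atTop s) : Groth X := by
  refine groth_iff.2 fun W hW A hA hR g hg => ?_
  have h1 : ∀ l : List A, ∃ d : ℕ → X, ∀ x, ∀ ε > 0, ∃ j, |g (d j) - g x| < ε ∧
      ∀ f ∈ l, |f.1 (d j) - f.1 x| < ε := fun l => by
    let Φ : X → ℝ × (Fin l.length → ℝ) := fun x => (g x, fun i => (l.get i).1 x)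
    obtain ⟨u, hu⟩ := TopologicalSpace.exists_dense_seq (range Φ)
    choose d hd using fun j => (u j).2
    refine ⟨d, fun x ε h => ?_⟩
    obtain ⟨j, hj⟩ := Metric.denseRange_iff.1 hu ⟨_, x, rfl⟩ ε h
    rw [Subtype.dist_eq, ← hd, dist_comm, Prod.dist_eq, max_lt_iff, dist_pi_lt_iff h] at hj
    refine ⟨j, hj.1, fun f k => ?_⟩
    obtain ⟨i, rfl⟩ := List.get_of_mem k
    exact hj.2 i
  choose d hd using h1
  have h2 : ∀ l : List A, ∃ a : A, ∀ m ∈ l.tails, ∀ j < l.length,
      |a.1 (d m j) - g (d m j)| < 1 / ((l.length : ℝ) + 1) := fun l => by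
    have : ∀ᶠ a in 𝓝 g, ∀ m ∈ {m | m ∈ l.tails}, ∀ j ∈ Iio l.length,
        |a (d m j) - g (d m j)| < 1 / ((l.length : ℝ) + 1) :=
      (eventually_all_finite l.tails.finite_toSet).2 fun m _ => (eventually_all_finite (finite_Iio _)).2
        fun j _ => (isOpen_lt (by fun_prop) continuous_const).mem_nhds (by simp; positivity)
    obtain ⟨a, a1, a2⟩ := mem_closure_iff_nhds.1 hg _ this
    exact ⟨⟨a, a2⟩, a1⟩
  choose nx hn using h2
  let L : ℕ → List A := fun n => Nat.rec [] (fun _ l => nx l :: l) n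
  have len : ∀ n, (L n).length = n := fun n => by induction n <;> simp_all [L]
  have suf : ∀ i n, i ≤ n → L i <:+ L n := fun i n h => by
    induction h with
    | refl => exact List.suffix_refl _
    | step _ ih => exact ih.trans (List.suffix_cons _ _)
  obtain ⟨f, f1, f2⟩ := hR (fun n => (nx (L n)).1) fun n => (nx _).2
  have e : ∀ i j, f (d (L i) j) = g (d (L i) j) := fun i j => by
    refine eq_of_forall_dist_le fun ε h => cluster_mem_closed f2 (C := {a | dist (a (d (L i) j)) _ ≤ ε})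
      (isClosed_le (by fun_prop) continuous_const) ?_
    filter_upwards [eventually_ge_atTop i, eventually_gt_atTop j,
      tendsto_one_div_add_atTop_nhds_zero_nat.eventually (gt_mem_nhds h)] with n a b c
    have := hn (L n) (L i) ((List.mem_tails _ _).2 (suf i n a)) j (by rwa [len])
    rw [len] at this
    exact (this.trans c).le
  suffices f = g from this ▸ f1
  funext x
  choose j j1 j2 using fun n : ℕ => hd (L n) x _ (Nat.one_div_pos_of_nat (α := ℝ) (n := n))
  obtain ⟨y, hy⟩ := hX fun n => d (L n) (j n)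
  have k : ∀ (φ : X → ℝ) c, Continuous φ → (∀ᶠ n : ℕ in atTop, |φ (d (L n) (j n)) - c| < 1 / ((n : ℝ) + 1)) →
      φ y = c := fun φ c h1 h2 => by
    refine eq_of_forall_dist_le fun ε h => cluster_mem_closed hy (C := {a | dist (φ a) c ≤ ε})
      (isClosed_le (by fun_prop) continuous_const) ?_
    filter_upwards [h2, tendsto_one_div_add_atTop_nhds_zero_nat.eventually (gt_mem_nhds h)] with n a b
    exact (a.trans b).le
  rw [← k f (g x) (hW f1) (Eventually.of_forall fun n => e _ _ ▸ j1 n)]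
  refine cluster_mem_closed f2 (C := {a | a x = a y}) (isClosed_eq (by fun_prop) (by fun_prop))
    (Eventually.of_forall fun n => (k _ _ (hW (hA (nx _).2)) ?_).symm)
  exact (eventually_gt_atTop n).mono fun m h => j2 m _ ((suf _ _ h).subset List.mem_cons_self)

lemma many : 𝔠 < #(Ultrafilter ℕ) := by
  classical
  have : Dense (range fun σ : Q => σ.1) := fun g => by
    refine mem_closure_iff_nhds.2 fun U hU => ?_
    obtain ⟨I, t, h1, h2⟩ := (nhds_pi (A := fun _ : C => Fin 3) ▸ mem_pi').1 hU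
    suffices ∃ σ : Q, ∀ r ∈ I, σ.1 r = g r from
      this.elim fun σ h => ⟨σ.1, h2 fun r k => by rw [h r k]; exact mem_of_mem_nhds (h1 r), σ, rfl⟩
    clear h2
    induction I using Finset.induction_on with
    | empty => exact ⟨cst 0, by simp⟩
    | insert t I h ih =>
      obtain ⟨σ, k⟩ := ih
      obtain ⟨n, hn⟩ := ((eventually_all_finset I).2 fun r a => A_ne (r := r) (s := t)
        fun e => h (e ▸ a)).exists
      exact ⟨md σ t n (g t), Finset.forall_mem_insert _ _ _ |>.2 ⟨md_in (A.refl _ _),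
        fun r a => (md_out (hn r a)).trans (k r a)⟩⟩
  obtain ⟨e, he⟩ := exists_surjective_nat Q
  have : ∀ g : C → Fin 3, ∃ u : Ultrafilter ℕ, Tendsto (fun n => (e n).1) u (𝓝 g) := fun g => by
    have : (comap (fun n => (e n).1) (𝓝 g)).NeBot := comap_neBot fun U hU => by
      obtain ⟨_, a, σ, rfl⟩ := mem_closure_iff_nhds.1 (this g) U hU
      obtain ⟨n, rfl⟩ := he σ
      exact ⟨n, a⟩
    exact ⟨.of _, tendsto_iff_comap.2 (Ultrafilter.of_le _)⟩
  choose u hu using this
  refine lt_of_lt_of_le ?_ (mk_le_of_injective (f := u) fun g h e =>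
    tendsto_nhds_unique (hu g) (e ▸ hu h))
  simpa using (cantor 𝔠).trans_le (power_le_power_right (by norm_num))

abbrev B := Ultrafilter C

lemma cl (s : ℕ → B) (u : Ultrafilter ℕ) : Tendsto s u (𝓝 (u.bind s)) :=
  ultrafilter_converges_iff (u := u.map s) |>.2 rfl

lemma big (s : ℕ → B) (h : (range s).Infinite) (R : Set B) (hR : #R ≤ 𝔠) :
    ∃ y ∉ R, MapClusterPt y atTop s := by
  have := h.to_subtype
  obtain ⟨U, u1, u2, u3⟩ := exists_seq_infinite_isOpen_pairwise_disjoint (range s)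
  choose x hx using fun n => (u1 n).nonempty
  have : ∀ n, ∃ T ∈ (x n).1, ∀ m, m ≠ n → T ∉ (x m).1 := fun n => by
    obtain ⟨V, v1, v2⟩ := isOpen_induced_iff.1 (u2 n)
    obtain ⟨_, ⟨T, rfl⟩, h1, h2⟩ := ultrafilterBasis_is_basis.exists_subset_of_mem_open
      (v2.ge (hx n)) v1
    exact ⟨T, h1, fun m k a => disjoint_left.1 (u3 k) (hx m) (v2.le (h2 a))⟩
  choose T t1 t2 using this
  have t3 : ∀ n, disjointed T n ∈ (x n).1 := fun n => by
    rw [disjointed_eq_inter_compl]
    exact inter_mem (t1 n) ((biInter_mem (finite_Iio n)).2 fun m k =>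
      Ultrafilter.compl_mem_iff_notMem.2 (t2 m n (ne_of_gt k)))
  have inj : Function.Injective fun u : Ultrafilter ℕ => u.bind fun n => (x n).1 := by
    have : ∀ (u : Ultrafilter ℕ) (S : Set ℕ), (⋃ n ∈ S, disjointed T n) ∈ (u.bind fun n => (x n).1) ↔
        S ∈ u := fun u S => by
      refine Iff.trans (b := {n | (⋃ n ∈ S, disjointed T n) ∈ (x n).1} ∈ u) mem_bind' (iff_of_eq ?_)
      congr 1
      ext n
      refine ⟨fun a => ?_, fun a => mem_of_superset (t3 n) (subset_biUnion_of_mem (u := disjointed T) a)⟩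
      obtain ⟨z, z1, z2⟩ := Ultrafilter.nonempty_of_mem (inter_mem a (t3 n))
      obtain ⟨m, m1, m2⟩ := mem_iUnion₂.1 z1
      by_contra c
      exact disjoint_left.1 (disjoint_disjointed T (fun e : m = n => c (e ▸ m1))) m2 z2
    exact fun u v e => Ultrafilter.ext fun S => by rw [← this, ← this, show u.bind _ = _ from e]
  obtain ⟨u, hu⟩ : ∃ u : Ultrafilter ℕ, (u.bind fun n => (x n).1) ∉ R ∪ range s := by
    by_contra! k
    exact many.not_ge ((mk_le_of_injective (f := fun u => (⟨_, k u⟩ : ↥(R ∪ range s))) fun u v e =>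
      inj (congrArg Subtype.val e)).trans ((mk_union_le _ _).trans ((add_le_add hR
        ((countable_range s).le_aleph0.trans aleph0_le_continuum)).trans (by simp))))
  refine ⟨_, fun a => hu (.inl a), mapClusterPt_iff_frequently.2 fun V hV => frequently_atTop.2
    fun N => ?_⟩
  have : ∀ᶠ z in 𝓝 (u.bind fun n => (x n).1), z ∉ s '' Iio N :=
    ((finite_Iio N).image s).isClosed.isOpen_compl.mem_nhds fun a => hu (.inr (image_subset_range _ _ a))
  obtain ⟨n, n1, n2⟩ := ((cl _ u).eventually (this.and hV)).exists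
  obtain ⟨m, hm⟩ := (x n).2
  exact ⟨m, not_lt.1 fun c => n1 ⟨m, c, hm⟩, hm ▸ n2⟩

def ar : Option C → Type
  | none => ℕ
  | some _ => Empty

noncomputable def ev : WType ar → B
  | .mk none f => (hyperfilter ℕ).bind fun n => ev (f n)
  | .mk (some a) _ => pure a

lemma card : #(range ev) ≤ 𝔠 := mk_range_le.trans (WType.cardinalMk_le_of_le
  ((sum_le_sum _ (fun _ => 𝔠) (by rintro (_ | _) <;> simp [ar, Cardinal.one_le_iff_ne_zero,
    continuum_ne_zero])).trans (by simp [add_one_eq aleph0_le_continuum])))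

lemma supp : ∀ w, ∃ S ∈ ev w, S.Countable
  | .mk none f => by
    choose S h1 h2 using fun n : ℕ => supp (f n)
    exact ⟨⋃ n, S n, mem_bind'.2 (Eventually.of_forall fun n =>
      mem_of_superset (h1 n) (subset_iUnion _ n)), countable_iUnion h2⟩
  | .mk (some a) _ => ⟨{a}, rfl, countable_singleton a⟩

instance : (cocountable : Filter C).NeBot := ⟨fun e => not_countable_univ (α := C) (by
  simpa using mem_cocountable.1 (e ▸ mem_bot : (∅ : Set C) ∈ cocountable))⟩

noncomputable def p : B := .of cocountable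

lemma hp {S : Set C} (h : S.Countable) : Sᶜ ∈ p := Ultrafilter.of_le cocountable (by simpa)

def X : Set B := insert p (range ev)
def Y : Set B := (range ev)ᶜ ∪ range pure

lemma pX (a : C) : pure a ∈ X := .inr ⟨.mk (some a) Empty.elim, rfl⟩
lemma pY : p ∈ Y := .inl fun ⟨w, e⟩ => let ⟨_, h1, h2⟩ := supp w
  Ultrafilter.compl_mem_iff_notMem.1 (hp h2) (e ▸ h1)

lemma sub {Z : Set B} (h : ∀ s : ℕ → B, (∀ n, s n ∈ Z) → ∃ y ∈ Z, MapClusterPt y atTop s) (s : ℕ → Z) :
    ∃ y, MapClusterPt y atTop s :=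
  let ⟨y, h1, h2⟩ := h (fun n => (s n).1) fun n => (s n).2
  ⟨⟨y, h1⟩, (IsInducing.subtypeVal.mapClusterPt_iff (l := map s atTop)).1 h2⟩

lemma gX : Groth X := by
  classical
  have : Nonempty X := ⟨⟨p, .inl rfl⟩⟩
  refine cc_groth (sub fun s h => ?_)
  by_cases c : ∃ᶠ n in atTop, s n = p
  · exact ⟨p, .inl rfl, mapClusterPt_iff_frequently.2 fun V k => c.mono fun n e =>
      e ▸ mem_of_mem_nhds k⟩
  have : ∀ n, ∃ w, s n ≠ p → ev w = s n := fun n => (h n).elim
    (fun e => ⟨.mk (some fun _ => true) Empty.elim, fun k => (k e).elim⟩) fun ⟨w, e⟩ => ⟨w, fun _ => e⟩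
  choose w hw using this
  refine ⟨ev (.mk none w), .inr ⟨_, rfl⟩, MapClusterPt.mono (Tendsto.mapClusterPt (F := hyperfilter ℕ)
    ((cl _ _).congr' ?_)) Nat.hyperfilter_le_atTop⟩
  exact ((not_frequently.1 c).filter_mono Nat.hyperfilter_le_atTop).mono hw

lemma gY : Groth Y := by
  have : Nonempty Y := ⟨⟨p, pY⟩⟩
  refine cc_groth (sub fun s h => ?_)
  by_cases c : (range s).Finite
  · obtain ⟨_, ⟨n, rfl⟩, k⟩ := c.isCompact.exists_mapClusterPt_of_frequently (l := atTop) (f := s)
      (Frequently.of_forall mem_range_self)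
    exact ⟨_, h n, k⟩
  · exact (big s c _ card).imp fun y a => ⟨.inl a.1, a.2⟩

def Δ (S : Set C) : Set (X × Y) := {z | ∃ a ∈ S, z.1.1 = pure a ∧ z.2.1 = pure a}

lemma clop {S : Set C} (h : S.Countable) : IsClopen (Δ S) := by
  have o : ∀ T : Set C, IsOpen {z : X × Y | T ∈ z.1.1} ∧ IsOpen {z : X × Y | T ∈ z.2.1} := fun T =>
    ⟨(ultrafilter_isOpen_basic T).preimage (by fun_prop), (ultrafilter_isOpen_basic T).preimage (by fun_prop)⟩
  constructor
  · rw [← isOpen_compl_iff]
    convert (isOpen_ne_fun (f := fun z : X × Y => z.1.1) (g := fun z => z.2.1) (by fun_prop)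
      (by fun_prop)).union (o Sᶜ).1
    ext ⟨⟨x, hx⟩, y, hy⟩
    refine ⟨fun k => (em (x = y)).elim (fun e => .inr ?_) .inl, ?_⟩
    · subst e
      rcases hx with rfl | hx
      · exact hp h
      obtain ⟨a, rfl⟩ := hy.resolve_left (not_not.2 hx)
      exact fun b => k ⟨a, b, rfl, rfl⟩
    · rintro (k | k) ⟨a, b, ⟨⟩, ⟨⟩⟩
      exacts [k rfl, k b]
  · convert isOpen_biUnion (s := S) fun a _ => (o {a}).1.inter (o {a}).2
    ext z
    have : ∀ (u : B) a, u = pure a ↔ {a} ∈ u := fun u a =>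
      Ultrafilter.coe_le_coe.symm.trans le_pure_iff
    simp only [Δ, this, mem_iUnion, mem_inter_iff, mem_ofPred_eq, exists_prop]

open Classical in
noncomputable def Φ (χ : C → Bool) (z : X × Y) : ℝ := if z ∈ Δ {a | χ a} then 1 else 0

lemma Φ_pt (χ : C → Bool) (a : C) : Φ χ (⟨_, pX a⟩, ⟨_, .inr ⟨a, rfl⟩⟩) = if χ a then 1 else 0 := by
  simp [Φ, Δ, Ultrafilter.pure_injective.eq_iff]

lemma Φ_cont : Continuous Φ := continuous_pi fun z => by
  by_cases c : ∃ a, z = (⟨_, pX a⟩, ⟨_, .inr ⟨a, rfl⟩⟩)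
  · obtain ⟨a, rfl⟩ := c
    simp only [Φ_pt]
    exact (continuous_of_discreteTopology (f := fun b : Bool => if b then (1 : ℝ) else 0)).comp
      (continuous_apply a)
  · exact (continuous_const (y := 0)).congr fun χ => (if_neg fun ⟨a, _, h1, h2⟩ =>
      c ⟨a, Prod.ext (Subtype.ext h1) (Subtype.ext h2)⟩).symm

theorem not_wg : ¬ WeaklyGroth (X × Y) := fun h => by
  classical
  have ct : ∀ χ : C → Bool, {a | χ a}.Countable → Continuous (Φ χ) := fun χ k =>
    ((clop k).continuous_indicator (continuous_const (y := (1 : ℝ)))).congr fun z => by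
      simp [Φ, indicator]
  have := wg_iff.1 h (Φ '' {χ | {a | χ a}.Countable}) (by rintro _ ⟨χ, k, rfl⟩; exact ct χ k)
    (fun s hs => by
      choose χ h1 h2 using hs
      obtain ⟨ψ, k1, k2⟩ := (isClosed_iInter (f := fun a : {a // ∀ n, χ n a = false} =>
        {y : C → Bool | y a.1 = false}) fun a => isClosed_eq
        (continuous_apply a.1) continuous_const).isCompact.exists_mapClusterPt
          (f := atTop) (u := χ) (tendsto_principal.2 (Eventually.of_forall fun n => mem_iInter.2 fun a => a.2 n))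
      refine ⟨Φ ψ, ct ψ ((countable_iUnion h1).mono fun a b => by_contra fun c => ?_),
        funext h2 ▸ k2.continuousAt_comp Φ_cont.continuousAt⟩
      simpa [show ψ a = true from b] using mem_iInter.1 k1 ⟨a, by simpa using c⟩)
    (image_closure_subset_closure_image Φ_cont ⟨fun _ => true, mem_closure_iff_nhds.2 fun U hU => by
      obtain ⟨I, t, h1, h2⟩ := (nhds_pi (A := fun _ : C => Bool) ▸ mem_pi').1 hU
      exact ⟨fun a => decide (a ∈ I), h2 fun a k => by
        simpa [show a ∈ I from k] using mem_of_mem_nhds (h1 a), by simpa using I.countable_toSet⟩, rfl⟩)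
  have k : Tendsto (fun a => ((⟨_, pX a⟩, ⟨_, .inr ⟨a, rfl⟩⟩) : X × Y)) p
      (𝓝 (⟨p, .inl rfl⟩, ⟨p, pY⟩)) := (tendsto_subtype_rng.2 p.tendsto_pure_self).prodMk_nhds
    (tendsto_subtype_rng.2 p.tendsto_pure_self)
  have e := tendsto_nhds_unique ((this.tendsto _).comp k)
    ((tendsto_const_nhds (x := 1)).congr fun a => by simp [Φ_pt])
  simp only [Φ, ite_eq_left_iff, zero_ne_one, imp_false, not_not] at e
  obtain ⟨a, -, e, -⟩ := e
  simpa [show p = pure a from e] using hp (countable_singleton a)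

end Pool.Agent.H30.GroP
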