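import Mathlib

set_option autoImplicit false

open Set Filter Topology

namespace Pool.Agent.H30.Tal

abbrev Cp (Z : Type) [TopologicalSpace Z] := {f : Z → ℝ // Continuous f}

def PP (T : Type) [TopologicalSpace T] : Prop :=
  ∃ (P : Type) (_ : TopologicalSpace P) (_ : PolishSpace P) (π : T → P), IsProperMap π

lemma PP.prod {T : Type} [TopologicalSpace T] (h : PP T) (D : Type) [TopologicalSpace D]
    [PolishSpace D] : PP (T × D) := by
  obtain ⟨P, _, _, π, hπ⟩ := h
  exact ⟨P × D, inferInstance, inferInstance, Prod.map π id, hπ.prodMap isProperMap_id⟩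

lemma PP.seq {T : Type} [TopologicalSpace T] (h : PP T) : PP (ℕ → T) := by
  obtain ⟨P, _, _, π, hπ⟩ := h
  exact ⟨ℕ → P, inferInstance, inferInstance, fun s n => π (s n), IsProperMap.pi_map fun _ => hπ⟩

lemma PP.sub {T : Type} [TopologicalSpace T] (h : PP T) {C : Set T} (hC : IsClosed C) : PP C := by
  obtain ⟨P, _, _, π, hπ⟩ := h
  exact ⟨P, inferInstance, inferInstance, fun x => π x, hπ.restrict hC⟩

def KA (Z : Type) [TopologicalSpace Z] : Prop :=
  ∃ F : (ℕ → ℕ) → Set Z, (∀ s, IsCompact (F s)) ∧ (∀ z, ∃ s, z ∈ F s) ∧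
    ∀ U : Set Z, IsOpen U → IsOpen {s | F s ⊆ U}

lemma ka_of {Z T : Type} [TopologicalSpace Z] [TopologicalSpace T] [Nonempty Z] (h : PP T)
    {g : T → Z} (hg : Continuous g) (hs : Function.Surjective g) : KA Z := by
  obtain ⟨P, _, _, π, hπ⟩ := h
  obtain ⟨t0, -⟩ := hs (Classical.arbitrary Z)
  haveI : Nonempty P := ⟨π t0⟩
  obtain ⟨e, he, hes⟩ := PolishSpace.exists_nat_nat_continuous_surjective P
  refine ⟨fun s => g '' (π ⁻¹' {e s}), fun s => (hπ.isCompact_preimage isCompact_singleton).image hg,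
    fun z => ?_, fun U hU => ?_⟩
  · obtain ⟨t, rfl⟩ := hs z
    obtain ⟨s, hs⟩ := hes (π t)
    exact ⟨s, t, hs.symm, rfl⟩
  · have h1 : IsClosed (π '' (g ⁻¹' Uᶜ)) := hπ.isClosedMap _ (hU.isClosed_compl.preimage hg)
    have h2 : {s | g '' (π ⁻¹' {e s}) ⊆ U} = e ⁻¹' (π '' (g ⁻¹' Uᶜ))ᶜ := by
      ext s
      constructor
      · rintro hs ⟨t, ht, h⟩
        exact ht (hs ⟨t, h, rfl⟩)
      · rintro hs _ ⟨t, ht, rfl⟩
        by_contra hc
        exact hs ⟨t, hc, ht⟩
    rw [h2]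
    exact h1.isOpen_compl.preimage he

lemma of_ka {Z : Type} [TopologicalSpace Z] [T2Space Z] (h : KA Z) :
    ∃ (T : Type) (_ : TopologicalSpace T), PP T ∧ ∃ g : T → Z, Continuous g ∧ Function.Surjective g := by
  obtain ⟨F, hF, hc, hu⟩ := h
  refine ⟨{p : (ℕ → ℕ) × Z // p.2 ∈ F p.1}, inferInstance,
    ⟨ℕ → ℕ, inferInstance, inferInstance, fun p => p.1.1, ?_⟩, fun p => p.1.2, by fun_prop, fun z => ?_⟩
  · rw [isProperMap_iff_ultrafilter]
    refine ⟨by fun_prop, fun 𝒰 s hs => ?_⟩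
    have h1 : ∃ z ∈ F s, (𝒰.map fun p => p.1.2 : Filter Z) ≤ 𝓝 z := by
      by_contra hcon
      push Not at hcon
      have h2 : ∀ z ∈ F s, ∃ V, IsOpen V ∧ z ∈ V ∧ Vᶜ ∈ (𝒰.map fun p => p.1.2) := by
        intro z hz
        have h3 := hcon z hz
        rw [(nhds_basis_opens z).ge_iff] at h3
        push Not at h3
        obtain ⟨V, hV, hV2⟩ := h3
        exact ⟨V, hV.2, hV.1, Ultrafilter.compl_mem_iff_notMem.2 hV2⟩
      choose! V hV1 hV2 hV3 using h2
      obtain ⟨t, ht, hcov⟩ := (hF s).elim_nhds_subcover V fun z hz => (hV1 z hz).mem_nhds (hV2 z hz)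
      have h4 : IsOpen (⋃ z ∈ t, V z) := isOpen_biUnion fun z hz => hV1 z (ht z hz)
      have h5 : ∀ᶠ p in (𝒰 : Filter {p : (ℕ → ℕ) × Z // p.2 ∈ F p.1}), F p.1.1 ⊆ ⋃ z ∈ t, V z :=
        hs ((hu _ h4).mem_nhds hcov)
      have h6 : ∀ᶠ p in (𝒰 : Filter {p : (ℕ → ℕ) × Z // p.2 ∈ F p.1}), ∀ z ∈ t, p.1.2 ∉ V z :=
        (Filter.eventually_all_finset t).2 fun z hz => hV3 z (ht z hz)
      obtain ⟨p, hp1, hp2⟩ := (h5.and h6).exists
      obtain ⟨z, hz, hz2⟩ := mem_iUnion₂.1 (hp1 p.2)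
      exact hp2 z hz hz2
    obtain ⟨z, hz, hz2⟩ := h1
    refine ⟨⟨(s, z), hz⟩, rfl, ?_⟩
    rw [nhds_subtype_eq_comap, ← Filter.map_le_iff_le_comap, nhds_prod_eq, Filter.le_prod]
    exact ⟨hs, hz2⟩
  · obtain ⟨s, hs⟩ := hc z
    exact ⟨⟨(s, z), hs⟩, rfl⟩

def DK (Z : Type) [TopologicalSpace Z] : Prop :=
  ∃ (T : Type) (_ : TopologicalSpace T), PP T ∧ Nonempty T ∧ ∃ g : T → Z, Continuous g ∧ DenseRange g

def QQ (W : Type) [TopologicalSpace W] : Prop :=
  ∃ (T : Type) (_ : TopologicalSpace T), PP T ∧ Nonempty T ∧ ∃ φ : T → W → ℝ,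
    (∀ t, Continuous (φ t)) ∧ (∀ w, Continuous fun t => φ t w) ∧
      ∀ w w', (∀ t, φ t w = φ t w') → w = w'

lemma DK.map {Z Z' : Type} [TopologicalSpace Z] [TopologicalSpace Z'] (h : DK Z) (e : Z ≃ₜ Z') :
    DK Z' := by
  obtain ⟨T, _, h1, h2, g, hg, hd⟩ := h
  exact ⟨T, inferInstance, h1, h2, e ∘ g, e.continuous.comp hg,
    e.surjective.denseRange.comp hd e.continuous⟩

lemma QQ.comap {W W' : Type} [TopologicalSpace W] [TopologicalSpace W'] (h : QQ W) {j : W' → W}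
    (hj : Continuous j) (hi : Function.Injective j) : QQ W' := by
  obtain ⟨T, _, h1, h2, φ, h3, h4, h5⟩ := h
  exact ⟨T, inferInstance, h1, h2, fun t w => φ t (j w), fun t => (h3 t).comp hj, fun w => h4 _,
    fun w w' h => hi (h5 _ _ h)⟩

lemma DK.cp {Z : Type} [TopologicalSpace Z] (h : DK Z) : QQ (Cp Z) := by
  obtain ⟨T, _, h1, h2, g, hg, hd⟩ := h
  refine ⟨T, inferInstance, h1, h2, fun t f => f.1 (g t),
    fun t => (continuous_apply (g t)).comp continuous_subtype_val, fun f => f.2.comp hg,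
    fun f f' h => Subtype.ext ?_⟩
  exact hd.equalizer f.2 f'.2 (funext h)

lemma QQ.approx {W : Type} [TopologicalSpace W] (h : QQ W) :
    ∃ (T : Type) (_ : TopologicalSpace T), PP T ∧ Nonempty T ∧ ∃ g : T → Cp W, Continuous g ∧
      ∀ (f : Cp W) (K : Set W), IsCompact K → ∀ ε : ℝ, 0 < ε → ∃ t, ∀ x ∈ K, |(g t).1 x - f.1 x| < ε := by
  obtain ⟨T, _, h1, ⟨t0⟩, φ, h3, h4, h5⟩ := h
  let Φ : T × (ℝ × ℝ) → C(W, ℝ) := fun q => ⟨fun w => q.2.1 * φ q.1 w + q.2.2, by
    have := h3 q.1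
    fun_prop⟩
  have hΦ : ∀ w, Continuous fun q => Φ q w := by
    intro w
    show Continuous fun q : T × (ℝ × ℝ) => q.2.1 * φ q.1 w + q.2.2
    have := (h4 w).comp (continuous_fst : Continuous (Prod.fst : T × (ℝ × ℝ) → T))
    exact ((continuous_fst.comp continuous_snd).mul this).add (continuous_snd.comp continuous_snd)
  have hcount : Countable (MvPolynomial ℕ ℤ) := by
    rw [← Cardinal.mk_le_aleph0_iff]
    refine MvPolynomial.cardinalMk_le_max.trans ?_
    simp
  obtain ⟨e, he⟩ := exists_surjective_nat (MvPolynomial ℕ ℤ)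
  let G : (ℕ → T × (ℝ × ℝ)) → MvPolynomial ℕ ℤ → C(W, ℝ) := fun s p =>
    MvPolynomial.aeval (fun i => Φ (s i)) p
  have hG : ∀ p w, Continuous fun s => G s p w := by
    intro p w
    induction p using MvPolynomial.induction_on with
    | C a =>
      simp only [G, MvPolynomial.aeval_C]
      exact continuous_const
    | add p q hp hq =>
      simp only [G, map_add, ContinuousMap.add_apply]
      exact hp.add hq
    | mul_X p i hp =>
      simp only [G, map_mul, ContinuousMap.mul_apply, MvPolynomial.aeval_X]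
      exact hp.mul ((hΦ w).comp (continuous_apply i))
  have hmerge : ∀ s p s' p', ∃ u q q', G u q = G s p ∧ G u q' = G s' p' := by
    intro s p s' p'
    refine ⟨fun n => if n % 2 = 0 then s (n / 2) else s' (n / 2), MvPolynomial.rename (fun i => 2 * i) p,
      MvPolynomial.rename (fun i => 2 * i + 1) p', ?_, ?_⟩
    · simp only [G, MvPolynomial.aeval_rename]
      congr 2
      funext i
      simp
    · simp only [G, MvPolynomial.aeval_rename]
      congr 2
      funext i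
      have h1 : (2 * i + 1) / 2 = i := by omega
      simp [h1]
  have hadj : ∀ a ∈ Algebra.adjoin ℝ (range Φ), ∃ s p, G s p = a := by
    intro a ha
    induction ha using Algebra.adjoin_induction with
    | mem x hx =>
      obtain ⟨q, rfl⟩ := hx
      exact ⟨fun _ => q, MvPolynomial.X 0, by simp [G]⟩
    | algebraMap r =>
      refine ⟨fun _ => (t0, 0, r), MvPolynomial.X 0, ?_⟩
      ext w
      simp [G, Φ]
    | add x y _ _ hx hy =>
      obtain ⟨s, p, rfl⟩ := hx
      obtain ⟨s', p', rfl⟩ := hy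
      obtain ⟨u, q, q', h, h'⟩ := hmerge s p s' p'
      exact ⟨u, q + q', by rw [← h, ← h']; simp [G]⟩
    | mul x y _ _ hx hy =>
      obtain ⟨s, p, rfl⟩ := hx
      obtain ⟨s', p', rfl⟩ := hy
      obtain ⟨u, q, q', h, h'⟩ := hmerge s p s' p'
      exact ⟨u, q * q', by rw [← h, ← h']; simp [G]⟩
  have hsep : (Algebra.adjoin ℝ (range Φ)).SeparatesPoints := by
    intro w w' hne
    by_contra hcon
    apply hne
    apply h5
    intro t
    by_contra h6
    refine hcon ⟨Φ (t, 1, 0), ⟨Φ (t, 1, 0), Algebra.subset_adjoin ⟨_, rfl⟩, rfl⟩, ?_⟩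
    simpa [Φ] using h6
  refine ⟨(ℕ → T × (ℝ × ℝ)) × ℕ, inferInstance, ((h1.prod (ℝ × ℝ)).seq).prod ℕ,
    ⟨(fun _ => (t0, 0, 0), 0)⟩, fun q => ⟨G q.1 (e q.2), (G q.1 (e q.2)).continuous⟩, ?_, ?_⟩
  · refine Continuous.subtype_mk (continuous_pi fun w => ?_) _
    exact continuous_prod_of_discrete_right.2 fun n => hG (e n) w
  · intro f K hK ε hε
    obtain ⟨a, ha, h⟩ :=
      ContinuousMap.exists_mem_subalgebra_near_continuous_of_isCompact_of_separatesPoints hsep
        ⟨f.1, f.2⟩ hK hε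
    obtain ⟨s, p, rfl⟩ := hadj a ha
    obtain ⟨n, rfl⟩ := he p
    exact ⟨(s, n), fun x hx => h x hx⟩

lemma QQ.dk {W : Type} [TopologicalSpace W] (h : QQ W) : DK (Cp W) := by
  obtain ⟨T, _, h1, h2, g, hg, hap⟩ := h.approx
  refine ⟨T, inferInstance, h1, h2, g, hg, fun f => ?_⟩
  rw [mem_closure_iff_nhds]
  intro U hU
  rw [nhds_subtype_eq_comap, Filter.mem_comap] at hU
  obtain ⟨V, hV, hVU⟩ := hU
  rw [nhds_pi, Filter.mem_pi] at hV
  obtain ⟨I, hI, S, hS, hSV⟩ := hV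
  have h3 : ∀ x, ∃ ε > 0, Metric.ball (f.1 x) ε ⊆ S x := fun x => Metric.mem_nhds_iff.1 (hS x)
  choose ε hε hb using h3
  obtain ⟨δ, hδ, hδε⟩ : ∃ δ > 0, ∀ x ∈ I, δ ≤ ε x := by
    rcases I.eq_empty_or_nonempty with rfl | hne
    · exact ⟨1, one_pos, by simp⟩
    · obtain ⟨x, hx, hmin⟩ := Set.exists_min_image I ε hI hne
      exact ⟨ε x, hε x, hmin⟩
  obtain ⟨t, ht⟩ := hap f I hI.isCompact δ hδ
  refine ⟨g t, hVU (hSV fun x hx => hb x ?_), t, rfl⟩
  rw [Metric.mem_ball, Real.dist_eq]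
  exact lt_of_lt_of_le (ht x hx) (hδε x hx)

lemma cont_lim {α : Type} [TopologicalSpace α] (u : ℕ → α → ℝ) (hu : ∀ n, Continuous (u n))
    (L : α → ℝ) (h : ∀ n a, |u n a - L a| ≤ 1 / ((n : ℝ) + 1)) : Continuous L := by
  refine TendstoUniformly.continuous (F := u) (p := atTop) ?_ (Frequently.of_forall hu)
  rw [Metric.tendstoUniformly_iff]
  intro ε hε
  filter_upwards [(tendsto_one_div_add_atTop_nhds_zero_nat (𝕜 := ℝ)).eventually (gt_mem_nhds hε)]
    with n hn a
  rw [dist_comm, Real.dist_eq]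
  exact lt_of_le_of_lt (h n a) hn

lemma QQ.ka {W : Type} [TopologicalSpace W] [CompactSpace W] (h : QQ W) : KA (Cp W) := by
  obtain ⟨T, _, h1, h2, g, hg, hap⟩ := h.approx
  have hgw : ∀ w, Continuous fun t => (g t).1 w := fun w =>
    (continuous_apply w).comp (continuous_subtype_val.comp hg)
  let C : Set (ℕ → T) := {s | ∀ n m : ℕ, ∀ w,
    |(g (s n)).1 w - (g (s m)).1 w| ≤ 1 / ((n : ℝ) + 1) + 1 / ((m : ℝ) + 1)}
  have hC : IsClosed C := by
    simp only [C, setOf_forall]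
    refine isClosed_iInter fun n => isClosed_iInter fun m => isClosed_iInter fun w => ?_
    exact isClosed_le ((((hgw w).comp (continuous_apply n)).sub
      ((hgw w).comp (continuous_apply m))).abs) continuous_const
  have h0 := tendsto_one_div_add_atTop_nhds_zero_nat (𝕜 := ℝ)
  have hL : ∀ s : C, ∀ w, ∃ L : ℝ, ∀ n : ℕ, |(g (s.1 n)).1 w - L| ≤ 1 / ((n : ℝ) + 1) := by
    intro s w
    have hc : CauchySeq fun n => (g (s.1 n)).1 w := by
      refine cauchySeq_of_le_tendsto_0 (fun N : ℕ => 1 / ((N : ℝ) + 1) + 1 / ((N : ℝ) + 1))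
        (fun n m N hn hm => ?_) (by simpa using h0.add h0)
      rw [Real.dist_eq]
      refine (s.2 n m w).trans (add_le_add ?_ ?_)
      · exact Nat.one_div_le_one_div hn
      · exact Nat.one_div_le_one_div hm
    obtain ⟨L, hL⟩ := cauchySeq_tendsto_of_complete hc
    refine ⟨L, fun n => ?_⟩
    have h3 : Tendsto (fun m => |(g (s.1 n)).1 w - (g (s.1 m)).1 w|) atTop (𝓝 |(g (s.1 n)).1 w - L|) :=
      (tendsto_const_nhds.sub hL).abs
    have h4 : Tendsto (fun m : ℕ => 1 / ((n : ℝ) + 1) + 1 / ((m : ℝ) + 1)) atTop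
        (𝓝 (1 / ((n : ℝ) + 1) + 0)) := tendsto_const_nhds.add h0
    rw [add_zero] at h4
    exact le_of_tendsto_of_tendsto' h3 h4 fun m => s.2 n m w
  choose L hL using hL
  haveI : Nonempty (Cp W) := ⟨⟨fun _ => 0, continuous_const⟩⟩
  refine ka_of (h1.seq.sub hC) (g := fun s => ⟨L s, cont_lim (fun n => (g (s.1 n)).1)
    (fun n => (g (s.1 n)).2) _ fun n w => hL s w n⟩) ?_ ?_
  · refine Continuous.subtype_mk (continuous_pi fun w => ?_) _
    exact cont_lim (fun n (s : C) => (g (s.1 n)).1 w)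
      (fun n => (hgw w).comp ((continuous_apply n).comp continuous_subtype_val)) _ fun n s => hL s w n
  · intro f
    have h5 : ∀ n : ℕ, ∃ t, ∀ x ∈ (univ : Set W), |(g t).1 x - f.1 x| < 1 / ((n : ℝ) + 1) :=
      fun n => hap f univ isCompact_univ _ Nat.one_div_pos_of_nat
    choose s hs using h5
    have hsC : s ∈ C := by
      intro n m w
      have h6 := abs_lt.1 (hs n w trivial)
      have h7 := abs_lt.1 (hs m w trivial)
      rw [abs_le]
      constructor <;> linarith [h6.1, h6.2, h7.1, h7.2]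
    refine ⟨⟨s, hsC⟩, Subtype.ext (funext fun w => ?_)⟩
    show L ⟨s, hsC⟩ w = f.1 w
    have h8 : Tendsto (fun n : ℕ => 1 / ((n : ℝ) + 1) + 1 / ((n : ℝ) + 1)) atTop (𝓝 0) := by
      simpa using h0.add h0
    have h9 : |L ⟨s, hsC⟩ w - f.1 w| ≤ 0 := by
      refine ge_of_tendsto' h8 fun n => ?_
      have h6 := abs_lt.1 (hs n w trivial)
      have h7 := abs_le.1 (hL ⟨s, hsC⟩ w n)
      rw [abs_le]
      constructor <;> linarith [h6.1, h6.2, h7.1, h7.2]
    exact sub_eq_zero.1 (abs_nonpos_iff.1 h9)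

def FH (W : Type) [TopologicalSpace W] : Prop :=
  ∀ w w' : W, (∀ f : Cp W, f.1 w = f.1 w') → w = w'

lemma fh_compact (W : Type) [TopologicalSpace W] [CompactSpace W] [T2Space W] : FH W := by
  intro w w' h
  by_contra hne
  obtain ⟨f, h0, h1, -⟩ := exists_continuous_zero_one_of_isClosed (isClosed_singleton (x := w))
    (isClosed_singleton (x := w')) (Set.disjoint_singleton.2 hne)
  have h2 := h ⟨f, f.continuous⟩
  have h3 : f w = 0 := h0 rfl
  have h4 : f w' = 1 := h1 rfl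
  have h5 : f w = f w' := h2
  rw [h3, h4] at h5
  exact zero_ne_one h5

lemma FH.comap {W W' : Type} [TopologicalSpace W] [TopologicalSpace W'] (h : FH W) (e : W' ≃ₜ W) :
    FH W' := fun w w' hw => e.injective (h _ _ fun f => hw ⟨f.1 ∘ e, f.2.comp e.continuous⟩)

lemma fh_cp (W : Type) [TopologicalSpace W] : FH (Cp W) := fun f g h =>
  Subtype.ext (funext fun w => h ⟨fun u => u.1 w, (continuous_apply w).comp continuous_subtype_val⟩)

lemma qq_of_ka {X : Type} [TopologicalSpace X] (hX : FH X) (h : KA (Cp X)) : QQ X := by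
  obtain ⟨T, _, h1, g, hg, hs⟩ := of_ka h
  obtain ⟨t0, -⟩ := hs ⟨fun _ => 0, continuous_const⟩
  refine ⟨T, inferInstance, h1, ⟨t0⟩, fun t => (g t).1, fun t => (g t).2,
    fun w => (continuous_apply w).comp (continuous_subtype_val.comp hg), fun w w' h => hX w w' fun f => ?_⟩
  obtain ⟨t, rfl⟩ := hs f
  exact h t

lemma qq_down {W W1 W2 : Type} [TopologicalSpace W] [TopologicalSpace W1] [TopologicalSpace W2]
    (hW : FH W) (e1 : W1 ≃ₜ Cp W) (e2 : W2 ≃ₜ Cp W1) (h : QQ W2) : QQ W := by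
  refine h.comap (j := fun x => e2.symm ⟨fun b => (e1 b).1 x,
    (continuous_apply x).comp (continuous_subtype_val.comp e1.continuous)⟩) ?_ ?_
  · refine e2.symm.continuous.comp (Continuous.subtype_mk (continuous_pi fun b => (e1 b).2) _)
  · intro x y hxy
    have h1 := congrArg Subtype.val (e2.symm.injective hxy)
    refine hW x y fun f => ?_
    have h2 := congrFun h1 (e1.symm f)
    simpa using h2

theorem main (X Y : Type) [TopologicalSpace X] [TopologicalSpace Y]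
    [CompactSpace X] [T2Space X] [CompactSpace Y] [T2Space Y]
    (n : ℕ) (A B : ℕ → Type) [∀ k, TopologicalSpace (A k)] [∀ k, TopologicalSpace (B k)]
    (hA0 : Nonempty (A 0 ≃ₜ X)) (hA : ∀ k, Nonempty (A (k + 1) ≃ₜ Cp (A k)))
    (hB0 : Nonempty (B 0 ≃ₜ Y)) (hB : ∀ k, Nonempty (B (k + 1) ≃ₜ Cp (B k)))
    (hn : Nonempty (A n ≃ₜ B n)) (h : KA (Cp X)) : KA (Cp Y) := by
  obtain ⟨a0⟩ := hA0
  obtain ⟨b0⟩ := hB0
  obtain ⟨e⟩ := hn
  have a := fun k => (hA k).some
  have b := fun k => (hB k).some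
  have hQA : ∀ k, QQ (A (2 * k)) := by
    intro k
    induction k with
    | zero => exact (qq_of_ka (fh_compact X) h).comap a0.continuous a0.injective
    | succ k ih =>
      exact ((ih.dk.map (a (2 * k)).symm).cp).comap (a (2 * k + 1)).continuous (a (2 * k + 1)).injective
  have hFB : ∀ k, FH (B k) := by
    intro k
    cases k with
    | zero => exact (fh_compact Y).comap b0
    | succ k => exact (fh_cp _).comap (b k)
  have hQB : ∀ k, QQ (B (2 * k)) → QQ (B 0) := by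
    intro k
    induction k with
    | zero => exact id
    | succ k ih => exact fun h => ih (qq_down (hFB _) (b (2 * k)) (b (2 * k + 1)) h)
  have h1 : QQ (B 0) := by
    obtain ⟨k, rfl | rfl⟩ := Nat.even_or_odd' n
    · exact hQB k ((hQA k).comap e.symm.continuous e.symm.injective)
    · exact hQB (k + 1) (((((hQA k).dk.map (a (2 * k)).symm).map e).cp).comap
        (b (2 * k + 1)).continuous (b (2 * k + 1)).injective)
  exact (h1.comap b0.symm.continuous b0.symm.injective).ka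

end Pool.Agent.H30.Tal
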