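import Pool.Agent.H30.SplE
import Pool.Agent.H30.Tal

set_option autoImplicit false

open Set Filter Topology

namespace Pool.Agent.H30.Gul

open Pool.Agent.H30.Tal (Cp cont_lim fh_compact)

def PP (T : Type) [TopologicalSpace T] : Prop :=
  ∃ (P : Type) (_ : TopologicalSpace P) (_ : SecondCountableTopology P) (π : T → P), IsProperMap π

lemma PP.prod {T : Type} [TopologicalSpace T] (h : PP T) (D : Type) [TopologicalSpace D]
    [SecondCountableTopology D] : PP (T × D) := by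
  obtain ⟨P, _, _, π, hπ⟩ := h
  exact ⟨P × D, inferInstance, inferInstance, Prod.map π id, hπ.prodMap isProperMap_id⟩

lemma PP.seq {T : Type} [TopologicalSpace T] (h : PP T) : PP (ℕ → T) := by
  obtain ⟨P, _, _, π, hπ⟩ := h
  exact ⟨ℕ → P, inferInstance, inferInstance, fun s n => π (s n), IsProperMap.pi_map fun _ => hπ⟩

lemma PP.sub {T : Type} [TopologicalSpace T] (h : PP T) {C : Set T} (hC : IsClosed C) : PP C := by
  obtain ⟨P, _, _, π, hπ⟩ := h
  exact ⟨P, inferInstance, inferInstance, fun x => π x, hπ.restrict hC⟩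

lemma PP.pi {T : ℕ → Type} [∀ n, TopologicalSpace (T n)] (h : ∀ n, PP (T n)) : PP (∀ n, T n) := by
  choose P tP sP π hπ using h
  exact ⟨∀ n, P n, inferInstance, inferInstance, fun s n => π n (s n), IsProperMap.pi_map hπ⟩

def NW (Z : Type) [TopologicalSpace Z] : Prop :=
  ∃ N : ℕ → Set Z, ∀ z, ∃ C : Set Z, IsCompact C ∧ z ∈ C ∧
    ∀ U : Set Z, IsOpen U → C ⊆ U → ∃ n, C ⊆ N n ∧ N n ⊆ U

lemma fib_nbhd {T P : Type} [TopologicalSpace T] [TopologicalSpace P] [SecondCountableTopology P]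
    {π : T → P} (hπ : IsProperMap π) {E : Set T} (hE : IsClosed E) {p : P} (h : ∀ t ∈ E, π t ≠ p) :
    ∃ B ∈ TopologicalSpace.countableBasis P, p ∈ B ∧ ∀ t ∈ E, π t ∉ B := by
  obtain ⟨B, hB, h1, h2⟩ := (TopologicalSpace.isBasis_countableBasis P).exists_subset_of_mem_open
    (show p ∈ (π '' E)ᶜ from fun ⟨t, ht, h1⟩ => h t ht h1) (hπ.isClosedMap _ hE).isOpen_compl
  exact ⟨B, hB, h1, fun t ht h3 => h2 h3 ⟨t, ht, rfl⟩⟩

lemma nw_of {Z T : Type} [TopologicalSpace Z] [TopologicalSpace T] (h : PP T)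
    {g : T → Z} (hg : Continuous g) (hs : Function.Surjective g) : NW Z := by
  obtain ⟨P, _, _, π, hπ⟩ := h
  obtain ⟨b, hb⟩ := ((TopologicalSpace.countable_countableBasis P).insert ∅).exists_eq_range
    (insert_nonempty _ _)
  refine ⟨fun n => g '' (π ⁻¹' b n), fun z => ?_⟩
  obtain ⟨t, rfl⟩ := hs z
  refine ⟨g '' (π ⁻¹' {π t}), (hπ.isCompact_preimage isCompact_singleton).image hg, ⟨t, rfl, rfl⟩,
    fun U hU hC => ?_⟩
  obtain ⟨B, hB, h1, h2⟩ := fib_nbhd hπ (hU.isClosed_compl.preimage hg) (p := π t)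
    fun u hu h3 => hu (hC ⟨u, h3, rfl⟩)
  obtain ⟨n, rfl⟩ : B ∈ range b := hb ▸ mem_insert_of_mem _ hB
  refine ⟨n, image_mono fun u hu => ?_, ?_⟩
  · rw [mem_preimage, show π u = π t from hu]
    exact h1
  · rintro _ ⟨u, hu, rfl⟩
    by_contra h3
    exact h2 u h3 hu

lemma graph_proper {P Z : Type} [TopologicalSpace P] [TopologicalSpace Z] (F : P → Set Z)
    (hF : ∀ s, IsCompact (F s)) (hu : ∀ U : Set Z, IsOpen U → IsOpen {s | F s ⊆ U}) :
    IsProperMap fun p : {p : P × Z // p.2 ∈ F p.1} => p.1.1 := by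
  rw [isProperMap_iff_ultrafilter]
  refine ⟨by fun_prop, fun 𝒰 s hs => ?_⟩
  have h1 : ∃ z ∈ F s, (𝒰.map fun p => p.1.2 : Filter Z) ≤ 𝓝 z := by
    by_contra hcon
    push Not at hcon
    have h2 : ∀ z ∈ F s, ∃ V, IsOpen V ∧ z ∈ V ∧ Vᶜ ∈ (𝒰.map fun p => p.1.2) := by
      intro z hz
      have h3 := hcon z hz
      rw [(nhds_basis_opens z).ge_iff] at h3
      push Not at h3
      obtain ⟨V, hV, hV2⟩ := h3
      exact ⟨V, hV.2, hV.1, Ultrafilter.compl_mem_iff_notMem.2 hV2⟩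
    choose! V hV1 hV2 hV3 using h2
    obtain ⟨t, ht, hcov⟩ := (hF s).elim_nhds_subcover V fun z hz => (hV1 z hz).mem_nhds (hV2 z hz)
    have h4 : IsOpen (⋃ z ∈ t, V z) := isOpen_biUnion fun z hz => hV1 z (ht z hz)
    have h5 : ∀ᶠ p in (𝒰 : Filter {p : P × Z // p.2 ∈ F p.1}), F p.1.1 ⊆ ⋃ z ∈ t, V z :=
      hs ((hu _ h4).mem_nhds hcov)
    have h6 : ∀ᶠ p in (𝒰 : Filter {p : P × Z // p.2 ∈ F p.1}), ∀ z ∈ t, p.1.2 ∉ V z :=
      (Filter.eventually_all_finset t).2 fun z hz => hV3 z (ht z hz)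
    obtain ⟨p, hp1, hp2⟩ := (h5.and h6).exists
    obtain ⟨z, hz, hz2⟩ := mem_iUnion₂.1 (hp1 p.2)
    exact hp2 z hz hz2
  obtain ⟨z, hz, hz2⟩ := h1
  refine ⟨⟨(s, z), hz⟩, rfl, ?_⟩
  rw [nhds_subtype_eq_comap, ← Filter.map_le_iff_le_comap, nhds_prod_eq, Filter.le_prod]
  exact ⟨hs, hz2⟩

theorem of_nw {Z : Type} [TopologicalSpace Z] [T1Space Z] (h : NW Z) :
    ∃ (M : Set (ℕ → Bool)) (F : M → Set Z), (∀ s, (F s).Nonempty) ∧ (∀ z, ∃ s, z ∈ F s) ∧
      IsProperMap fun p : {p : M × Z // p.2 ∈ F p.1} => p.1.1 := by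
  classical
  obtain ⟨N, hN⟩ := h
  choose C hC1 hC2 hC3 using hN
  let σ : Z → ℕ → Bool := fun z n => decide (C z ⊆ N n)
  have h1 : ∀ z, {y | ∀ n, σ z n = true → y ∈ N n} = C z := by
    intro z
    refine Subset.antisymm (fun y hy => ?_) fun y hy n hn => of_decide_eq_true hn hy
    by_contra h2
    obtain ⟨n, h3, h4⟩ := hC3 z {y}ᶜ isOpen_compl_singleton fun u hu h5 => h2 (h5 ▸ hu)
    exact h4 (hy n (decide_eq_true h3)) rfl
  refine ⟨range σ, fun s => {y | ∀ n, s.1 n = true → y ∈ N n}, ?_,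
    fun z => ⟨⟨σ z, z, rfl⟩, show z ∈ {y | ∀ n, σ z n = true → y ∈ N n} from (h1 z).symm ▸ hC2 z⟩,
    graph_proper (fun s : range σ => {y | ∀ n, s.1 n = true → y ∈ N n}) ?_
      fun U hU => isOpen_iff_mem_nhds.2 ?_⟩
  · rintro ⟨_, z, rfl⟩
    exact ⟨z, show z ∈ {y | ∀ n, σ z n = true → y ∈ N n} from (h1 z).symm ▸ hC2 z⟩
  · rintro ⟨_, z, rfl⟩
    exact show IsCompact {y | ∀ n, σ z n = true → y ∈ N n} from (h1 z).symm ▸ hC1 z
  · rintro ⟨_, z, rfl⟩ hz
    obtain ⟨n, h3, h4⟩ := hC3 z U hU (h1 z ▸ hz)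
    have h5 : IsOpen {s : range σ | s.1 n = true} :=
      (isOpen_discrete ({true} : Set Bool)).preimage (f := fun s : range σ => s.1 n)
        ((continuous_apply (A := fun _ : ℕ => Bool) n).comp continuous_subtype_val)
    exact mem_of_superset (h5.mem_nhds (decide_eq_true h3)) fun s hs y hy => h4 (hy n hs)

lemma of_nw' {Z : Type} [TopologicalSpace Z] [T1Space Z] (h : NW Z) :
    ∃ (T : Type) (_ : TopologicalSpace T), PP T ∧ ∃ g : T → Z, Continuous g ∧ Function.Surjective g := by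
  obtain ⟨M, F, -, h1, h2⟩ := of_nw h
  refine ⟨_, inferInstance, ⟨M, inferInstance, inferInstance, _, h2⟩, fun p => p.1.2, by fun_prop,
    fun z => ?_⟩
  obtain ⟨s, hs⟩ := h1 z
  exact ⟨⟨(s, z), hs⟩, rfl⟩

def QQ (W : Type) [TopologicalSpace W] : Prop :=
  ∃ (T : Type) (_ : TopologicalSpace T), PP T ∧ Nonempty T ∧ ∃ φ : T → W → ℝ,
    (∀ t, Continuous (φ t)) ∧ (∀ w, Continuous fun t => φ t w) ∧
      ∀ w w', (∀ t, φ t w = φ t w') → w = w'

lemma QQ.comap {W W' : Type} [TopologicalSpace W] [TopologicalSpace W'] (h : QQ W) {j : W' → W}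
    (hj : Continuous j) (hi : Function.Injective j) : QQ W' := by
  obtain ⟨T, _, h1, h2, φ, h3, h4, h5⟩ := h
  exact ⟨T, inferInstance, h1, h2, fun t w => φ t (j w), fun t => (h3 t).comp hj, fun w => h4 _,
    fun w w' h => hi (h5 _ _ h)⟩

lemma QQ.approx {W : Type} [TopologicalSpace W] (h : QQ W) :
    ∃ (T : Type) (_ : TopologicalSpace T), PP T ∧ Nonempty T ∧ ∃ g : T → Cp W, Continuous g ∧
      ∀ (f : Cp W) (K : Set W), IsCompact K → ∀ ε : ℝ, 0 < ε → ∃ t, ∀ x ∈ K, |(g t).1 x - f.1 x| < ε := by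
  obtain ⟨T, _, h1, ⟨t0⟩, φ, h3, h4, h5⟩ := h
  let Φ : T × (ℝ × ℝ) → C(W, ℝ) := fun q => ⟨fun w => q.2.1 * φ q.1 w + q.2.2, by
    have := h3 q.1
    fun_prop⟩
  have hΦ : ∀ w, Continuous fun q => Φ q w := by
    intro w
    show Continuous fun q : T × (ℝ × ℝ) => q.2.1 * φ q.1 w + q.2.2
    have := (h4 w).comp (continuous_fst : Continuous (Prod.fst : T × (ℝ × ℝ) → T))
    exact ((continuous_fst.comp continuous_snd).mul this).add (continuous_snd.comp continuous_snd)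
  have hcount : Countable (MvPolynomial ℕ ℤ) := by
    rw [← Cardinal.mk_le_aleph0_iff]
    refine MvPolynomial.cardinalMk_le_max.trans ?_
    simp
  obtain ⟨e, he⟩ := exists_surjective_nat (MvPolynomial ℕ ℤ)
  let G : (ℕ → T × (ℝ × ℝ)) → MvPolynomial ℕ ℤ → C(W, ℝ) := fun s p =>
    MvPolynomial.aeval (fun i => Φ (s i)) p
  have hG : ∀ p w, Continuous fun s => G s p w := by
    intro p w
    induction p using MvPolynomial.induction_on with
    | C a =>
      simp only [G, MvPolynomial.aeval_C]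
      exact continuous_const
    | add p q hp hq =>
      simp only [G, map_add, ContinuousMap.add_apply]
      exact hp.add hq
    | mul_X p i hp =>
      simp only [G, map_mul, ContinuousMap.mul_apply, MvPolynomial.aeval_X]
      exact hp.mul ((hΦ w).comp (continuous_apply i))
  have hmerge : ∀ s p s' p', ∃ u q q', G u q = G s p ∧ G u q' = G s' p' := by
    intro s p s' p'
    refine ⟨fun n => if n % 2 = 0 then s (n / 2) else s' (n / 2), MvPolynomial.rename (fun i => 2 * i) p,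
      MvPolynomial.rename (fun i => 2 * i + 1) p', ?_, ?_⟩
    · simp only [G, MvPolynomial.aeval_rename]
      congr 2
      funext i
      simp
    · simp only [G, MvPolynomial.aeval_rename]
      congr 2
      funext i
      have h1 : (2 * i + 1) / 2 = i := by omega
      simp [h1]
  have hadj : ∀ a ∈ Algebra.adjoin ℝ (range Φ), ∃ s p, G s p = a := by
    intro a ha
    induction ha using Algebra.adjoin_induction with
    | mem x hx =>
      obtain ⟨q, rfl⟩ := hx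
      exact ⟨fun _ => q, MvPolynomial.X 0, by simp [G]⟩
    | algebraMap r =>
      refine ⟨fun _ => (t0, 0, r), MvPolynomial.X 0, ?_⟩
      ext w
      simp [G, Φ]
    | add x y _ _ hx hy =>
      obtain ⟨s, p, rfl⟩ := hx
      obtain ⟨s', p', rfl⟩ := hy
      obtain ⟨u, q, q', h, h'⟩ := hmerge s p s' p'
      exact ⟨u, q + q', by rw [← h, ← h']; simp [G]⟩
    | mul x y _ _ hx hy =>
      obtain ⟨s, p, rfl⟩ := hx
      obtain ⟨s', p', rfl⟩ := hy
      obtain ⟨u, q, q', h, h'⟩ := hmerge s p s' p'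
      exact ⟨u, q * q', by rw [← h, ← h']; simp [G]⟩
  have hsep : (Algebra.adjoin ℝ (range Φ)).SeparatesPoints := by
    intro w w' hne
    by_contra hcon
    apply hne
    apply h5
    intro t
    by_contra h6
    refine hcon ⟨Φ (t, 1, 0), ⟨Φ (t, 1, 0), Algebra.subset_adjoin ⟨_, rfl⟩, rfl⟩, ?_⟩
    simpa [Φ] using h6
  refine ⟨(ℕ → T × (ℝ × ℝ)) × ℕ, inferInstance, ((h1.prod (ℝ × ℝ)).seq).prod ℕ,
    ⟨(fun _ => (t0, 0, 0), 0)⟩, fun q => ⟨G q.1 (e q.2), (G q.1 (e q.2)).continuous⟩, ?_, ?_⟩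
  · refine Continuous.subtype_mk (continuous_pi fun w => ?_) _
    exact continuous_prod_of_discrete_right.2 fun n => hG (e n) w
  · intro f K hK ε hε
    obtain ⟨a, ha, h⟩ :=
      ContinuousMap.exists_mem_subalgebra_near_continuous_of_isCompact_of_separatesPoints hsep
        ⟨f.1, f.2⟩ hK hε
    obtain ⟨s, p, rfl⟩ := hadj a ha
    obtain ⟨n, rfl⟩ := he p
    exact ⟨(s, n), fun x hx => h x hx⟩

lemma QQ.nw {W : Type} [TopologicalSpace W] [CompactSpace W] (h : QQ W) : NW (Cp W) := by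
  obtain ⟨T, _, h1, h2, g, hg, hap⟩ := h.approx
  have hgw : ∀ w, Continuous fun t => (g t).1 w := fun w =>
    (continuous_apply w).comp (continuous_subtype_val.comp hg)
  let C : Set (ℕ → T) := {s | ∀ n m : ℕ, ∀ w,
    |(g (s n)).1 w - (g (s m)).1 w| ≤ 1 / ((n : ℝ) + 1) + 1 / ((m : ℝ) + 1)}
  have hC : IsClosed C := by
    simp only [C, setOf_forall]
    refine isClosed_iInter fun n => isClosed_iInter fun m => isClosed_iInter fun w => ?_
    exact isClosed_le ((((hgw w).comp (continuous_apply n)).sub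
      ((hgw w).comp (continuous_apply m))).abs) continuous_const
  have h0 := tendsto_one_div_add_atTop_nhds_zero_nat (𝕜 := ℝ)
  have hL : ∀ s : C, ∀ w, ∃ L : ℝ, ∀ n : ℕ, |(g (s.1 n)).1 w - L| ≤ 1 / ((n : ℝ) + 1) := by
    intro s w
    have hc : CauchySeq fun n => (g (s.1 n)).1 w := by
      refine cauchySeq_of_le_tendsto_0 (fun N : ℕ => 1 / ((N : ℝ) + 1) + 1 / ((N : ℝ) + 1))
        (fun n m N hn hm => ?_) (by simpa using h0.add h0)
      rw [Real.dist_eq]
      refine (s.2 n m w).trans (add_le_add ?_ ?_)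
      · exact Nat.one_div_le_one_div hn
      · exact Nat.one_div_le_one_div hm
    obtain ⟨L, hL⟩ := cauchySeq_tendsto_of_complete hc
    refine ⟨L, fun n => ?_⟩
    have h3 : Tendsto (fun m => |(g (s.1 n)).1 w - (g (s.1 m)).1 w|) atTop (𝓝 |(g (s.1 n)).1 w - L|) :=
      (tendsto_const_nhds.sub hL).abs
    have h4 : Tendsto (fun m : ℕ => 1 / ((n : ℝ) + 1) + 1 / ((m : ℝ) + 1)) atTop
        (𝓝 (1 / ((n : ℝ) + 1) + 0)) := tendsto_const_nhds.add h0
    rw [add_zero] at h4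
    exact le_of_tendsto_of_tendsto' h3 h4 fun m => s.2 n m w
  choose L hL using hL
  refine nw_of (h1.seq.sub hC) (g := fun s => ⟨L s, cont_lim (fun n => (g (s.1 n)).1)
    (fun n => (g (s.1 n)).2) _ fun n w => hL s w n⟩) ?_ ?_
  · refine Continuous.subtype_mk (continuous_pi fun w => ?_) _
    exact cont_lim (fun n (s : C) => (g (s.1 n)).1 w)
      (fun n => (hgw w).comp ((continuous_apply n).comp continuous_subtype_val)) _ fun n s => hL s w n
  · intro f
    have h5 : ∀ n : ℕ, ∃ t, ∀ x ∈ (univ : Set W), |(g t).1 x - f.1 x| < 1 / ((n : ℝ) + 1) :=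
      fun n => hap f univ isCompact_univ _ Nat.one_div_pos_of_nat
    choose s hs using h5
    have hsC : s ∈ C := by
      intro n m w
      have h6 := abs_lt.1 (hs n w trivial)
      have h7 := abs_lt.1 (hs m w trivial)
      rw [abs_le]
      constructor <;> linarith [h6.1, h6.2, h7.1, h7.2]
    refine ⟨⟨s, hsC⟩, Subtype.ext (funext fun w => ?_)⟩
    show L ⟨s, hsC⟩ w = f.1 w
    have h8 : Tendsto (fun n : ℕ => 1 / ((n : ℝ) + 1) + 1 / ((n : ℝ) + 1)) atTop (𝓝 0) := by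
      simpa using h0.add h0
    have h9 : |L ⟨s, hsC⟩ w - f.1 w| ≤ 0 := by
      refine ge_of_tendsto' h8 fun n => ?_
      have h6 := abs_lt.1 (hs n w trivial)
      have h7 := abs_le.1 (hL ⟨s, hsC⟩ w n)
      rw [abs_le]
      constructor <;> linarith [h6.1, h6.2, h7.1, h7.2]
    exact sub_eq_zero.1 (abs_nonpos_iff.1 h9)

lemma qq_of {X T : Type} [TopologicalSpace X] [CompactSpace X] [T2Space X] [TopologicalSpace T]
    (h1 : PP T) {g : T → Cp X} (hg : Continuous g) (hs : Function.Surjective g) : QQ X := by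
  obtain ⟨t0, -⟩ := hs ⟨fun _ => 0, continuous_const⟩
  refine ⟨T, inferInstance, h1, ⟨t0⟩, fun t => (g t).1, fun t => (g t).2,
    fun w => (continuous_apply w).comp (continuous_subtype_val.comp hg),
    fun w w' h => fh_compact X w w' fun f => ?_⟩
  obtain ⟨t, rfl⟩ := hs f
  exact h t

lemma qq_of_nw {X : Type} [TopologicalSpace X] [CompactSpace X] [T2Space X] (h : NW (Cp X)) : QQ X := by
  obtain ⟨T, _, h1, g, hg, hs⟩ := of_nw' h
  exact qq_of h1 hg hs

end Pool.Agent.H30.Gul
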