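import Pool.Agent.H30.GulA

set_option autoImplicit false

open Set Filter Topology

namespace Pool.Agent.H30.Gul

open Pool.Agent.H30.Tal (Cp cont_lim fh_compact)
open Pool.Agent.H30.Spl

variable {X : Type} [TopologicalSpace X]

lemma dec_of_pp {T : Type} [TopologicalSpace T] (hT : PP T) {ψ : T → X → ℝ} (h1 : ∀ t, Continuous (ψ t))
    (h2 : ∀ x, Continuous fun t => ψ t x) {A : Set X}
    (hA : ∀ y y', (∀ t, ψ t y = ψ t y') → (y ∈ A ↔ y' ∈ A)) : ∃ Φ, Dec A Φ := by
  obtain ⟨P, _, _, π, hπ⟩ := hT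
  choose S hS1 hS2 hS3 using sel ψ
  refine ⟨fun F => (fun t => ⟨ψ t, h1 t⟩) '' ⋃ B ∈ TopologicalSpace.countableBasis P, S (π ⁻¹' B) F,
    fun F => ((TopologicalSpace.countable_countableBasis P).biUnion fun B _ => hS2 _ F).image _,
    fun D y hy y' hy' h => hA y y' fun t0 => ?_⟩
  have hC : IsClosed {t | ψ t y = ψ t y'} := isClosed_eq (h2 y) (h2 y')
  obtain ⟨t, ht, h3⟩ := exact_of_approx ψ ((hπ.isCompact_preimage (isCompact_singleton (x := π t0))).inter_right hC)
    (H := D) (fun d _ => h2 d) (ψ t0) (by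
      intro E hE ε hε
      by_contra hcon
      have h4 : IsClosed ({t | ψ t y = ψ t y'} ∩ {t | ∀ d ∈ E, |ψ t d - ψ t0 d| ≤ ε / 2}) := by
        refine hC.inter ?_
        simp only [setOf_forall]
        exact isClosed_iInter fun d => isClosed_iInter fun _ =>
          isClosed_le ((h2 d).sub continuous_const).abs continuous_const
      obtain ⟨B, hB, h5, h6⟩ := fib_nbhd hπ h4 (p := π t0) fun t ht h5 =>
        hcon ⟨t, ⟨h5, ht.1⟩, fun d hd => lt_of_le_of_lt (ht.2 d hd) (half_lt_self hε)⟩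
      obtain ⟨t, ht, h7⟩ := hS3 (π ⁻¹' B) E t0 h5 _ (half_pos hε)
      exact h6 t ⟨h E hE _ ⟨t, mem_biUnion hB ht, rfl⟩, fun d hd => (h7 d hd).le⟩ (hS1 _ E ht))
  have h4 : EqOn (ψ t) (ψ t0) (closure D) := EqOn.closure h3 (h1 t) (h1 t0)
  rw [← h4 hy, ← h4 hy']
  exact ht.2

lemma qq_joint {Y : ℕ → Type} [∀ n, TopologicalSpace (Y n)] (h : ∀ n, QQ (Y n)) (f : ∀ n, X → Y n)
    (hf : ∀ n, Continuous (f n)) (hi : ∀ x y, (∀ n, f n x = f n y) → x = y) : QQ X := by
  choose T tT h1 h2 φ h3 h4 h5 using h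
  refine ⟨(∀ n, T n) × ℕ, inferInstance, (PP.pi h1).prod ℕ, inferInstance,
    fun q x => φ q.2 (q.1 q.2) (f q.2 x), fun q => (h3 _ _).comp (hf _),
    fun x => continuous_prod_of_discrete_right.2 fun n => (h4 n (f n x)).comp (continuous_apply n),
    fun x y hxy => hi x y fun n => h5 n _ _ fun t => ?_⟩
  classical
  simpa using hxy (Function.update (fun n => Classical.arbitrary (T n)) n t, n)

theorem qq_of_split [CompactSpace X] [T2Space X]
    (h : ∀ A : Set X, ∃ (Y : Type) (_ : TopologicalSpace Y), QQ Y ∧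
      ∃ f : X → Y, Continuous f ∧ f ⁻¹' (f '' A) = A) : QQ X := by
  choose Y tY hY f hf hA using h
  have h1 : Cor X := cor_of_spl fun A => by
    obtain ⟨T, _, h1, -, φ, h3, h4, h5⟩ := hY A
    exact dec_of_pp h1 (ψ := fun t x => φ t (f A x)) (fun t => (h3 t).comp (hf A)) (fun x => h4 _)
      fun y y' h => iff_of_split (hA A) (h5 _ _ h)
  obtain ⟨A, hA⟩ := joint_inj h1 (fun A x y => f A x = f A y)
    (fun A => ⟨fun _ => rfl, Eq.symm, Eq.trans⟩) (fun A x => by
      obtain ⟨T, _, -, -, φ, h3, -, h5⟩ := hY A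
      have h6 : {y | f A x = f A y} = ⋂ t, {y | φ t (f A x) = φ t (f A y)} := by
        ext y
        simp only [mem_setOf_eq, mem_iInter]
        exact ⟨fun h t => by rw [h], h5 _ _⟩
      rw [h6]
      exact isClosed_iInter fun t => isClosed_eq continuous_const ((h3 t).comp (hf A)))
    fun A x y h => iff_of_split (hA A) h
  exact qq_joint (fun n => hY (A n)) (fun n => f (A n)) (fun n => hf _) hA

lemma QQ.sq (h : QQ X) : QQ (X × X) := by
  refine qq_joint (Y := fun _ => X) (fun _ => h) (fun n p => if n = 0 then p.1 else p.2) (fun n => ?_)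
    fun x y hxy => Prod.ext (by simpa using hxy 0) (by simpa using hxy 1)
  by_cases hn : n = 0
  · simp only [if_pos hn]
    exact continuous_fst
  · simp only [if_neg hn]
    exact continuous_snd

lemma QQ.image [CompactSpace X] (h : QQ X) {Z : Type} [TopologicalSpace Z] [T2Space Z] {g : X → Z}
    (hg : Continuous g) (hs : Function.Surjective g) : QQ Z := by
  have : CompactSpace Z := ⟨by rw [← hs.range_eq]; exact isCompact_range hg⟩
  obtain ⟨T, _, h1, G, hG, hGs⟩ := of_nw' h.nw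
  have hq : IsQuotientMap g := (hg.isClosedMap).isQuotientMap hg hs
  have hGc : ∀ x, Continuous fun t => (G t).1 x := fun x =>
    (continuous_apply x).comp (continuous_subtype_val.comp hG)
  have hC : IsClosed {t | ∀ x x', g x = g x' → (G t).1 x = (G t).1 x'} := by
    simp only [setOf_forall]
    exact isClosed_iInter fun x => isClosed_iInter fun x' => isClosed_iInter fun _ =>
      isClosed_eq (hGc x) (hGc x')
  choose σ hσ using hs
  refine qq_of (h1.sub hC) (g := fun t => ⟨fun z => (G t.1).1 (σ z), hq.continuous_iff.2 ?_⟩) ?_ fun f => ?_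
  · have h2 : (fun z => (G t.1).1 (σ z)) ∘ g = (G t.1).1 := funext fun x => t.2 _ _ (hσ _)
    rw [h2]
    exact (G t.1).2
  · exact Continuous.subtype_mk (continuous_pi fun z => (hGc _).comp continuous_subtype_val) _
  · obtain ⟨t, ht⟩ := hGs ⟨f.1 ∘ g, f.2.comp hg⟩
    refine ⟨⟨t, fun x x' hx => ?_⟩, Subtype.ext (funext fun z => ?_)⟩
    · simp only [ht, Function.comp, hx]
    · simp only [ht, Function.comp, hσ]

lemma nw_of_cnt {Z : Type} [TopologicalSpace Z] {𝓕 : Set (Set Z)} (h1 : 𝓕.Countable)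
    (h2 : ∀ z, ∃ K : Set Z, IsCompact K ∧ z ∈ K ∧
      ∀ U : Set Z, IsOpen U → K ⊆ U → ∃ F ∈ 𝓕, K ⊆ F ∧ F ⊆ U) : NW Z := by
  obtain ⟨b, hb⟩ := (h1.insert ∅).exists_eq_range (insert_nonempty _ _)
  refine ⟨b, fun z => ?_⟩
  obtain ⟨K, hK, hz, h3⟩ := h2 z
  refine ⟨K, hK, hz, fun U hU hKU => ?_⟩
  obtain ⟨F, hF, h4⟩ := h3 U hU hKU
  obtain ⟨n, rfl⟩ : F ∈ range b := hb ▸ mem_insert_of_mem _ hF
  exact ⟨n, h4⟩

end Pool.Agent.H30.Gul
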