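import Pool.Agent.H30.GulB

set_option autoImplicit false

open Set Filter Topology

namespace Pool.Agent.H30.Gul

open Pool.Agent.H30.Tal (Cp)

/-- Lindelof Sigma: a continuous image of a Tychonoff space that admits a perfect map onto a
separable metrizable space. -/
def LindSigma (Z : Type) [TopologicalSpace Z] : Prop :=
  ∃ (T : Type) (_ : TopologicalSpace T) (_ : T35Space T) (M : Type) (_ : TopologicalSpace M)
    (_ : TopologicalSpace.MetrizableSpace M) (_ : TopologicalSpace.SeparableSpace M)
    (p : T → M) (g : T → Z),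
    Continuous p ∧ IsClosedMap p ∧ (∀ m, IsCompact (p ⁻¹' {m})) ∧ Function.Surjective p ∧
      Continuous g ∧ Function.Surjective g

/-- Gul'ko compact: compact Hausdorff, and the continuous real functions with the pointwise
topology form a Lindelof Sigma space. -/
def Gulko (K : Type) [TopologicalSpace K] : Prop :=
  CompactSpace K ∧ T2Space K ∧ LindSigma {f : K → ℝ // Continuous f}

/-- Splittable over the class of Gul'ko compact spaces. -/
def SplitGulko (X : Type) [TopologicalSpace X] : Prop :=
  ∀ A : Set X, ∃ (Y : Type) (_ : TopologicalSpace Y), Gulko Y ∧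
    ∃ f : X → Y, Continuous f ∧ f ⁻¹' (f '' A) = A

lemma Gulko.qq {K : Type} [TopologicalSpace K] (h : Gulko K) : QQ K := by
  obtain ⟨_, _, T, _, _, M, _, _, _, p, g, h1, h2, h3, -, h5, h6⟩ := h
  letI := TopologicalSpace.metrizableSpaceMetric M
  exact qq_of ⟨M, inferInstance, UniformSpace.secondCountable_of_separable M, p,
    isProperMap_iff_isClosedMap_and_compact_fibers.2 ⟨h1, h2, h3⟩⟩ h5 h6

lemma QQ.gulko {K : Type} [TopologicalSpace K] [CompactSpace K] [T2Space K] (h : QQ K) : Gulko K := by
  obtain ⟨M, F, h1, h2, h3⟩ := of_nw h.nw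
  obtain ⟨h4, h5, h6⟩ := isProperMap_iff_isClosedMap_and_compact_fibers.1 h3
  refine ⟨inferInstance, inferInstance, _, inferInstance, inferInstance, M, inferInstance, inferInstance,
    inferInstance, _, fun p => p.1.2, h4, h5, h6, fun s => ?_, by fun_prop, fun z => ?_⟩
  · obtain ⟨z, hz⟩ := h1 s
    exact ⟨⟨(s, z), hz⟩, rfl⟩
  · obtain ⟨s, hs⟩ := h2 z
    exact ⟨⟨(s, z), hs⟩, rfl⟩

lemma SplitGulko.qq {X : Type} [TopologicalSpace X] [CompactSpace X] [T2Space X] (h : SplitGulko X) :
    QQ X := qq_of_split fun A => by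
  obtain ⟨Y, tY, h1, h2⟩ := h A
  exact ⟨Y, tY, h1.qq, h2⟩

end Pool.Agent.H30.Gul
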