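import Pool.Agent.H30.GulC

set_option autoImplicit false

open Set Filter Topology

namespace Pool.Agent.H30.Gul

open Pool.Agent.H30.Spl

variable {X : Type} [TopologicalSpace X]

lemma max_fam (good : Set X → Prop) (U : Set X) (h0 : ∀ V, good V → IsOpen V ∧ V.Nonempty)
    (h : ∀ W, IsOpen W → W.Nonempty → W ⊆ U → ∃ V, good V ∧ V ⊆ W) :
    ∃ 𝒱 : Set (Set X), (∀ V ∈ 𝒱, good V) ∧ 𝒱.PairwiseDisjoint id ∧
      ∀ W, IsOpen W → W.Nonempty → W ⊆ U → ∃ V ∈ 𝒱, (V ∩ W).Nonempty := by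
  obtain ⟨𝒱, h1⟩ := zorn_subset {𝒱 : Set (Set X) | (∀ V ∈ 𝒱, good V) ∧ 𝒱.PairwiseDisjoint id} (by
    intro c hc hch
    refine ⟨⋃₀ c, ⟨fun V ⟨t, ht, hV⟩ => (hc ht).1 V hV, ?_⟩, fun s hs => subset_sUnion_of_mem hs⟩
    exact (Set.pairwiseDisjoint_sUnion hch.directedOn).2 fun t ht => (hc ht).2)
  refine ⟨𝒱, h1.prop.1, h1.prop.2, fun W hW hne hWU => ?_⟩
  by_contra hcon
  obtain ⟨V, hV, hVW⟩ := h W hW hne hWU
  have h2 : ∀ V' ∈ 𝒱, Disjoint V V' := fun V' hV' => Set.disjoint_left.2 fun x hx hx' =>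
    hcon ⟨V', hV', x, hx', hVW hx⟩
  have h3 : V ∈ 𝒱 := h1.le_of_ge (y := insert V 𝒱) ⟨by
      rintro V' (rfl | hV')
      · exact hV
      · exact h1.prop.1 V' hV', h1.prop.2.insert fun V' hV' _ => h2 V' hV'⟩ (subset_insert _ _)
    (mem_insert _ _)
  obtain ⟨x, hx⟩ := (h0 V hV).2
  exact Set.disjoint_left.1 (h2 V h3) hx hx

lemma decide_fin [RegularSpace X] {𝒞 : Set (Set X)} (hf : 𝒞.Finite) (hc : ∀ C ∈ 𝒞, IsClosed C) :
    ∀ W : Set X, IsOpen W → W.Nonempty → ∃ V, IsOpen V ∧ V.Nonempty ∧ closure V ⊆ W ∧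
      ∀ C ∈ 𝒞, V ⊆ C ∨ Disjoint V C := by
  induction 𝒞, hf using Set.Finite.induction_on with
  | empty =>
    rintro W hW ⟨x, hx⟩
    obtain ⟨t, ht, htc, htW⟩ := exists_mem_nhds_isClosed_subset (hW.mem_nhds hx)
    exact ⟨interior t, isOpen_interior, ⟨x, mem_interior_iff_mem_nhds.2 ht⟩,
      (closure_minimal interior_subset htc).trans htW, by simp⟩
  | @insert C 𝒞 _ _ ih =>
    intro W hW hne
    by_cases h : W ⊆ C
    · obtain ⟨V, h1, h2, h3, h4⟩ := ih (fun C hC => hc C (mem_insert_of_mem _ hC)) W hW hne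
      refine ⟨V, h1, h2, h3, ?_⟩
      rintro C' (rfl | hC')
      · exact Or.inl (subset_closure.trans (h3.trans h))
      · exact h4 C' hC'
    · obtain ⟨V, h1, h2, h3, h4⟩ := ih (fun C hC => hc C (mem_insert_of_mem _ hC)) (W \ C)
        (hW.sdiff (hc C (mem_insert _ _))) (diff_nonempty.2 h)
      refine ⟨V, h1, h2, h3.trans diff_subset, ?_⟩
      rintro C' (rfl | hC')
      · exact Or.inr (Set.disjoint_left.2 fun x hx => (h3 (subset_closure hx)).2)
      · exact h4 C' hC'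

theorem dense_metr [CompactSpace X] [T2Space X] (𝒞 : Finset X → ℕ → Set X)
    (hc : ∀ F j, IsClosed (𝒞 F j))
    (h : ∀ (S : Set X), ∀ a ∈ closure S, ∀ x, x ≠ a → ∃ F : Finset X, ↑F ⊆ S ∧ ∃ j, a ∈ 𝒞 F j ∧ x ∉ 𝒞 F j) :
    ∃ D : Set X, Dense D ∧ TopologicalSpace.MetrizableSpace D := by
  classical
  rcases isEmpty_or_nonempty X with he | hne
  · exact ⟨univ, dense_univ, inferInstance⟩
  let good : ℕ → Set X × Finset X → Set X → Prop := fun k ν V => IsOpen V ∧ V.Nonempty ∧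
    closure V ⊆ ν.1 ∧ ∀ F ⊆ ν.2, ∀ j ≤ k, V ⊆ 𝒞 F j ∨ Disjoint V (𝒞 F j)
  choose ch hch1 hch2 hch3 using fun (k : ℕ) (ν : Set X × Finset X) => max_fam (good k ν) ν.1
    (fun V hV => ⟨hV.1, hV.2.1⟩) (by
      intro W hW hne hWU
      obtain ⟨V, h1, h2, h3, h4⟩ := decide_fin
        (𝒞 := (fun q : Finset X × ℕ => 𝒞 q.1 q.2) '' (↑ν.2.powerset ×ˢ Iic k))
        (((Finset.finite_toSet _).prod (finite_Iic k)).image _) (by rintro _ ⟨q, -, rfl⟩; exact hc _ _)
        W hW hne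
      exact ⟨V, ⟨h1, h2, h3.trans hWU, fun F hF j hj =>
        h4 _ ⟨(F, j), ⟨Finset.mem_coe.2 (Finset.mem_powerset.2 hF), hj⟩, rfl⟩⟩, subset_closure.trans h3⟩)
  have hpt : ∀ V : Set X, ∃ p, V.Nonempty → p ∈ V := fun V => by
    by_cases hV : V.Nonempty
    · exact ⟨hV.some, fun _ => hV.some_mem⟩
    · exact ⟨Classical.arbitrary X, fun h => (hV h).elim⟩
  choose pt hpt using hpt
  let ν : ℕ → X → Set X × Finset X := fun k => Nat.rec (fun _ => (univ, ∅))
    (fun k μ x => if h : ∃ V ∈ ch k (μ x), x ∈ V then (h.choose, insert (pt h.choose) (μ x).2)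
      else (∅, ∅)) k
  have hν : ∀ k x V, V ∈ ch k (ν k x) → x ∈ V → ν (k + 1) x = (V, insert (pt V) (ν k x).2) := by
    intro k x V hV hx
    have h1 : ∃ V ∈ ch k (ν k x), x ∈ V := ⟨V, hV, hx⟩
    have h2 : h1.choose = V := (hch2 k _).elim_set h1.choose_spec.1 hV x h1.choose_spec.2 hx
    show (if h : ∃ V ∈ ch k (ν k x), x ∈ V then (h.choose, insert (pt h.choose) (ν k x).2)
      else (∅, ∅)) = _
    rw [dif_pos h1, h2]
  have hν2 : ∀ k x, x ∈ (ν (k + 1) x).1 → ∃ V ∈ ch k (ν k x), x ∈ V := by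
    intro k x hx
    by_contra h1
    have h2 : ν (k + 1) x = (∅, ∅) := dif_neg h1
    rw [h2] at hx
    exact hx
  have hP : ∀ k x, x ∈ (ν k x).1 → IsOpen (ν k x).1 ∧ ∀ y ∈ (ν k x).1, ν k y = ν k x := by
    intro k
    induction k with
    | zero => exact fun x _ => ⟨isOpen_univ, fun y _ => rfl⟩
    | succ k ih =>
      intro x hx
      obtain ⟨V, hV, hxV⟩ := hν2 k x hx
      have h1 := hch1 k _ V hV
      rw [hν k x V hV hxV]
      refine ⟨h1.1, fun y hy => ?_⟩
      have h2 := (ih x (h1.2.2.1 (subset_closure hxV))).2 y (h1.2.2.1 (subset_closure hy))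
      rw [hν k y V (h2 ▸ hV) hy, h2]
  have hO : ∀ k, IsOpen {x | x ∈ (ν k x).1} := fun k => isOpen_iff_mem_nhds.2 fun x hx =>
    mem_of_superset ((hP k x hx).1.mem_nhds hx) fun y hy => by
      show y ∈ (ν k y).1
      rw [(hP k x hx).2 y hy]
      exact hy
  have hD : ∀ k, Dense {x | x ∈ (ν k x).1} := by
    intro k
    induction k with
    | zero => exact dense_univ
    | succ k ih =>
      rw [dense_iff_inter_open] at ih ⊢
      intro W hW hne
      obtain ⟨x, hxW, hx⟩ := ih W hW hne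
      obtain ⟨V, hV, y, hyV, hy⟩ := hch3 k (ν k x) (W ∩ (ν k x).1) (hW.inter (hP k x hx).1) ⟨x, hxW, hx⟩
        inter_subset_right
      have h2 := (hP k x hx).2 y hy.2
      refine ⟨y, hy.1, ?_⟩
      show y ∈ (ν (k + 1) y).1
      rw [hν k y V (h2 ▸ hV) hyV]
      exact hyV
  refine ⟨⋂ k, {x | x ∈ (ν k x).1}, dense_iInter_of_isOpen hO hD, ?_⟩
  have key : ∀ x, (∀ k, x ∈ (ν k x).1) → ∀ O, IsOpen O → x ∈ O → ∃ k, (ν k x).1 ⊆ O := by
    intro x hx O hO hxO
    have h1 : ∀ k, good k (ν k x) (ν (k + 1) x).1 ∧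
        (ν (k + 1) x).2 = insert (pt (ν (k + 1) x).1) (ν k x).2 := by
      intro k
      obtain ⟨V, hV, hxV⟩ := hν2 k x (hx (k + 1))
      rw [hν k x V hV hxV]
      exact ⟨hch1 k _ V hV, rfl⟩
    have h2 : Antitone fun k => (ν k x).1 :=
      antitone_nat_of_succ_le fun k => subset_closure.trans (h1 k).1.2.2.1
    have h3 : Monotone fun k => (ν k x).2 :=
      monotone_nat_of_le_succ fun k => by rw [(h1 k).2]; exact Finset.subset_insert _ _
    obtain ⟨a, ha⟩ := IsCompact.nonempty_iInter_of_sequence_nonempty_isCompact_isClosed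
      (fun k => closure ((fun i => pt (ν (i + 1) x).1) '' Ici k))
      (fun k => closure_mono (image_mono (Ici_subset_Ici.2 (Nat.le_succ k))))
      (fun k => ⟨_, subset_closure ⟨k, mem_Ici.2 le_rfl, rfl⟩⟩) isClosed_closure.isCompact fun k => isClosed_closure
    have h4 : ∀ k, a ∈ (ν k x).1 := by
      intro k
      refine (h1 k).1.2.2.1 (closure_mono ?_ (mem_iInter.1 ha k))
      rintro _ ⟨i, hi, rfl⟩
      exact h2 (Nat.succ_le_succ hi) (hpt _ (h1 i).1.2.1)
    have h5 : ∀ y, (∀ k, y ∈ (ν k x).1) → y = a := by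
      intro y hy
      by_contra hne
      obtain ⟨F, hF, j, h6, h7⟩ := h _ a (mem_iInter.1 ha 0) y hne
      have h8 : ∀ b ∈ F, ∃ i, b ∈ (ν i x).2 := by
        intro b hb
        obtain ⟨i, -, rfl⟩ := hF hb
        exact ⟨i + 1, by rw [(h1 i).2]; exact Finset.mem_insert_self _ _⟩
      choose! n hn using h8
      rcases (h1 (max (F.sup n) j)).1.2.2.2 F (fun b hb => h3 ((Finset.le_sup (f := n) hb).trans
        (le_max_left _ _)) (hn b hb)) j (le_max_right _ _) with h9 | h9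
      · exact h7 (h9 (hy (max (F.sup n) j + 1)))
      · exact Set.disjoint_left.1 h9 (h4 (max (F.sup n) j + 1)) h6
    by_contra hcon
    obtain ⟨y, hy⟩ := IsCompact.nonempty_iInter_of_sequence_nonempty_isCompact_isClosed
      (fun k => closure (ν (k + 1) x).1 \ O)
      (fun k => diff_subset_diff_left (closure_mono (h2 (Nat.le_succ _))))
      (fun k => diff_nonempty.2 fun h6 => hcon ⟨k + 1, subset_closure.trans h6⟩)
      (isClosed_closure.sdiff hO).isCompact fun k => isClosed_closure.sdiff hO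
    have h6 := h5 y fun k => (h1 k).1.2.2.1 (mem_iInter.1 hy k).1
    exact (mem_iInter.1 hy 0).2 (by rw [h6, ← h5 x hx]; exact hxO)
  letI : TopologicalSpace (Set X × Finset X) := ⊥
  haveI : DiscreteTopology (Set X × Finset X) := ⟨rfl⟩
  have hind : IsInducing fun (x : ↥(⋂ k, {x | x ∈ (ν k x).1})) (k : ℕ) => ν k x.1 := by
    rw [isInducing_iff_nhds]
    intro x
    have hx : ∀ k, x.1 ∈ (ν k x.1).1 := fun k => mem_iInter.1 x.2 k
    apply le_antisymm
    · rw [← map_le_iff_le_comap]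
      refine tendsto_pi_nhds.2 fun k => tendsto_const_nhds.congr' ?_
      filter_upwards [continuous_subtype_val.continuousAt.preimage_mem_nhds
        ((hP k _ (hx k)).1.mem_nhds (hx k))] with y hy
      exact ((hP k _ (hx k)).2 y.1 hy).symm
    · intro O hO
      obtain ⟨O', hO', h1⟩ := (mem_nhds_subtype _ _ _).1 hO
      obtain ⟨k, hk⟩ := key x.1 hx (interior O') isOpen_interior (mem_interior_iff_mem_nhds.2 hO')
      refine mem_comap.2 ⟨{s | s k = ν k x.1}, IsOpen.mem_nhds ((isOpen_discrete {ν k x.1}).preimage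
        (continuous_apply (A := fun _ : ℕ => Set X × Finset X) k)) rfl, fun y hy => h1 (show y.1 ∈ O' from interior_subset (hk ?_))⟩
      have h2 : ν k y.1 = ν k x.1 := hy
      rw [← h2]
      exact mem_iInter.1 y.2 k
  exact hind.isEmbedding.metrizableSpace

theorem QQ.dense_metr [CompactSpace X] [T2Space X] (h : QQ X) :
    ∃ D : Set X, Dense D ∧ TopologicalSpace.MetrizableSpace D := by
  obtain ⟨T, _, ⟨P, _, _, π, hπ⟩, -, φ, h1, h2, h3⟩ := h
  have h4 : ∀ F : Finset X, ∃ b : ℕ → Set (P × (F → ℝ)) × ℚ × ℚ,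
      (insert ∅ (TopologicalSpace.countableBasis (P × (F → ℝ)))) ×ˢ univ = range b := fun F =>
    (((TopologicalSpace.countable_countableBasis _).insert ∅).prod countable_univ).exists_eq_range
      ((insert_nonempty _ _).prod univ_nonempty)
  choose b hb using h4
  refine Gul.dense_metr (fun F j => {x | ∀ t, (π t, fun d : F => φ t d.1) ∈ (b F j).1 →
    ((b F j).2.1 : ℝ) ≤ φ t x ∧ φ t x ≤ (b F j).2.2}) (fun F j => ?_) fun S a ha x hx => ?_
  · simp only [setOf_forall]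
    exact isClosed_iInter fun t => isClosed_iInter fun _ =>
      (isClosed_le continuous_const (h1 t)).inter (isClosed_le (h1 t) continuous_const)
  · obtain ⟨t0, ht0⟩ : ∃ t0, φ t0 x ≠ φ t0 a := by
      by_contra hcon
      exact hx (h3 _ _ fun t => not_not.1 fun h => hcon ⟨t, h⟩)
    have hε : 0 < |φ t0 x - φ t0 a| := abs_pos.2 (sub_ne_zero.2 ht0)
    obtain ⟨r, hr1, hr2⟩ := exists_rat_btwn (show φ t0 a - |φ t0 x - φ t0 a| < φ t0 a by linarith)
    obtain ⟨r', hr1', hr2'⟩ := exists_rat_btwn (show φ t0 a < φ t0 a + |φ t0 x - φ t0 a| by linarith)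
    have hE : IsClosed {t | φ t a ≤ r ∨ r' ≤ φ t a} :=
      (isClosed_le (h2 a) continuous_const).union (isClosed_le continuous_const (h2 a))
    obtain ⟨F, hF, δ, hδ, h5⟩ := box_sep φ
      ((hπ.isCompact_preimage (isCompact_singleton (x := π t0))).inter_right hE) (H := S)
      (fun d _ => h2 d) (φ t0) (by
        intro t ht h5
        have h6 : φ t a = φ t0 a := EqOn.closure h5 (h1 t) (h1 t0) ha
        rcases ht.2 with h7 | h7 <;> linarith)
    have hpr : IsProperMap fun t => (π t, fun d : F => φ t d.1) := by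
      refine isProperMap_iff_ultrafilter.2 ⟨hπ.continuous.prodMk (continuous_pi fun d => h2 _),
        fun 𝒰 y hy => ?_⟩
      obtain ⟨t, ht, h6⟩ := (isProperMap_iff_ultrafilter.1 hπ).2 ((continuous_fst.tendsto y).comp hy)
      refine ⟨t, Prod.ext ht (tendsto_nhds_unique ?_ ((continuous_snd.tendsto y).comp hy)), h6⟩
      exact ((continuous_pi fun d : F => h2 d.1).tendsto t).mono_left h6
    obtain ⟨B, hB, h6, h7⟩ := fib_nbhd hpr hE (p := (π t0, fun d : F => φ t0 d.1)) fun t ht h6 =>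
      h5 t ⟨congrArg Prod.fst h6, ht⟩ fun d hd => by
        rw [show φ t d = φ t0 d from congrFun (congrArg Prod.snd h6) ⟨d, hd⟩, sub_self, abs_zero]
        exact hδ
    obtain ⟨j, hj⟩ : (B, r, r') ∈ range (b F) := hb F ▸ ⟨mem_insert_of_mem _ hB, trivial⟩
    refine ⟨F, hF, j, fun t ht => ?_, fun h8 => ?_⟩
    · rw [hj] at ht ⊢
      by_contra h8
      exact h7 t (by
        by_contra h9
        simp only [mem_setOf_eq, not_or, not_le] at h9
        exact h8 ⟨h9.1.le, h9.2.le⟩) ht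
    · have h9 := h8 t0 (by rw [hj]; exact h6)
      rw [hj] at h9
      have h10 : |φ t0 x - φ t0 a| < |φ t0 x - φ t0 a| :=
        abs_lt.2 ⟨by linarith [h9.1], by linarith [h9.2]⟩
      exact lt_irrefl _ h10

lemma qq_weak {E : Type} [NormedAddCommGroup E] [NormedSpace ℝ E] : QQ (WeakSpace ℝ E) := by
  have h1 := WeakDual.isCompact_closedBall (0 : StrongDual ℝ E) 1
  have h2 := isCompact_iff_compactSpace.1 h1
  refine ⟨↥(WeakDual.toStrongDual ⁻¹' Metric.closedBall (0 : StrongDual ℝ E) 1), inferInstance,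
    ⟨Unit, inferInstance, inferInstance, fun _ => (), isProperMap_const _⟩, ⟨⟨0, by simp⟩⟩,
    fun t w => t.1 ((toWeakSpace ℝ E).symm w), fun t => ?_,
    fun w => (WeakDual.eval_continuous _).comp continuous_subtype_val, fun w w' h => ?_⟩
  · exact WeakBilin.eval_continuous (topDualPairing ℝ E).flip (WeakDual.toStrongDual t.1)
  · obtain ⟨g, hg1, hg2⟩ := exists_dual_vector'' ℝ ((toWeakSpace ℝ E).symm w - (toWeakSpace ℝ E).symm w')
    have h3 := h ⟨StrongDual.toWeakDual g, by simpa using hg1⟩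
    simp only [StrongDual.toWeakDual_apply] at h3
    rw [map_sub, h3, sub_self] at hg2
    exact (toWeakSpace ℝ E).symm.injective (sub_eq_zero.1 (norm_eq_zero.1 (by exact_mod_cast hg2.symm)))

end Pool.Agent.H30.Gul
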