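import Pool.Agent.H30.Cont

set_option autoImplicit false

namespace Pool.Agent.H30.HSp

open Set Filter Topology TopologicalSpace

/-- `C(X)`: nonempty compact connected subsets, with the Hausdorff metric. -/
abbrev CX (X : Type) [MetricSpace X] : Type := {A : NonemptyCompacts X // IsPreconnected (A : Set X)}

variable {X : Type} [MetricSpace X]

/-- Collapse `C(p,X)` to a point. -/
def rel (p : X) : Setoid (CX X) :=
  ⟨fun A B => A = B ∨ (p ∈ (A.1 : Set X) ∧ p ∈ (B.1 : Set X)), fun _ => Or.inl rfl,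
    fun h => h.imp Eq.symm And.symm, fun {A B C} h h' => by
      rcases h with rfl | h
      · exact h'
      rcases h' with rfl | h'
      exacts [Or.inr h, Or.inr ⟨h.1, h'.2⟩]⟩

/-- `HS(p,X) = C(X)/C(p,X)` with the quotient topology. -/
abbrev HS (p : X) : Type := Quotient (rel p)

/-- `Y` is aposyndetic at `x` with respect to `y`. -/
def ApoAt {Y : Type} [TopologicalSpace Y] (x y : Y) : Prop :=
  ∃ M : Set Y, IsCompact M ∧ IsConnected M ∧ x ∈ interior M ∧ y ∉ M

lemma opn (p : X) {O : Set (CX X)} (hO : IsOpen O) (h : ∀ A ∈ O, ∀ B : CX X, p ∈ (A.1 : Set X) →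
    p ∈ (B.1 : Set X) → B ∈ O) : IsOpen (Quotient.mk (rel p) '' O) := by
  rw [← (isQuotientMap_quotient_mk' (s := rel p)).isOpen_preimage]
  convert hO
  refine Set.ext fun B => ⟨fun ⟨A, a1, a2⟩ => ?_, fun hB => ⟨B, hB, rfl⟩⟩
  rcases Quotient.exact a2 with rfl | e
  exacts [a1, h A a1 B e.1 e.2]

instance [CompactSpace X] : CompactSpace (CX X) := isCompact_iff_compactSpace.1 (IsClosed.isCompact (by
  rw [← isOpen_compl_iff, isOpen_iff_forall_mem_open]
  intro A hA
  replace hA : ¬ IsPreconnected (A : Set X) := hA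
  simp only [isPreconnected_iff_subset_of_disjoint_closed, not_forall, not_or] at hA
  obtain ⟨u, v, hu, hv, e1, e2, e3, e4⟩ := hA
  obtain ⟨U, V, u1, v1, u2, v2, e⟩ := normal_separation (A.isCompact.isClosed.inter hu) (A.isCompact.isClosed.inter hv)
    (disjoint_left.2 fun x h1 h2 => e2.subset ⟨h1.1, h1.2, h2.2⟩)
  obtain ⟨x, x1, x2⟩ := not_subset.1 e3
  obtain ⟨y, y1, y2⟩ := not_subset.1 e4
  refine ⟨_, fun B hB hc => ?_, (NonemptyCompacts.isOpen_subsets_of_isOpen (u1.union v1)).inter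
    ((NonemptyCompacts.isOpen_inter_nonempty_of_isOpen u1).inter (NonemptyCompacts.isOpen_inter_nonempty_of_isOpen v1)),
    fun z hz => (e1 hz).imp (fun h => u2 ⟨hz, h⟩) fun h => v2 ⟨hz, h⟩, ⟨y, y1, u2 ⟨y1, (e1 y1).resolve_right y2⟩⟩,
    x, x1, v2 ⟨x1, (e1 x1).resolve_left x2⟩⟩
  obtain ⟨z, -, hz⟩ := hc U V u1 v1 hB.1 hB.2.1 hB.2.2
  exact disjoint_left.1 e hz.1 hz.2))

lemma cl (D : CX X) : IsClosed {E : CX X | D ≤ E} := by
  have : {E : CX X | D ≤ E} = ⋂ x ∈ (D.1 : Set X), Subtype.val ⁻¹' {E : NonemptyCompacts X | ((E : Set X) ∩ {x}).Nonempty} :=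
    Set.ext fun E => by simp only [mem_iInter, mem_preimage, mem_setOf_eq, inter_singleton_nonempty]; rfl
  rw [this]
  exact isClosed_biInter fun x _ =>
    (NonemptyCompacts.isClosed_inter_nonempty_of_isClosed isClosed_singleton).preimage continuous_subtype_val

variable [CompactSpace X] [ConnectedSpace X]

def tp : CX X := ⟨⟨⟨univ, isCompact_univ⟩, univ_nonempty⟩, isPreconnected_univ⟩

lemma key (D : CX X) {u v : Set (CX X)} (hu : IsClosed u) (hv : IsClosed v) (h1 : {E | D ≤ E} ⊆ u ∪ v)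
    (h2 : {E | D ≤ E} ∩ (u ∩ v) = ∅) {E : CX X} (hE : E ∈ {E | D ≤ E} ∩ u) : tp ∈ u := by
  obtain ⟨m, -, m1, m2⟩ := zorn_le_nonempty₀ ({E | D ≤ E} ∩ u) (fun c c1 c2 y hy => by
    have : Nonempty c := ⟨⟨y, hy⟩⟩
    obtain ⟨b, hb⟩ := IsCompact.nonempty_iInter_of_directed_nonempty_isCompact_isClosed
      (fun z : c => ({E | D ≤ E} ∩ u) ∩ {E | z.1 ≤ E}) (fun a b => by
        rcases c2.total a.2 b.2 with e | e
        exacts [⟨b, fun w hw => ⟨hw.1, e.trans hw.2⟩, Subset.rfl⟩, ⟨a, Subset.rfl, fun w hw => ⟨hw.1, e.trans hw.2⟩⟩])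
      (fun z => ⟨z, c1 z.2, le_refl z.1⟩) (fun z => (((cl D).inter hu).inter (cl _)).isCompact)
      fun z => ((cl D).inter hu).inter (cl _)
    exact ⟨b, (mem_iInter.1 hb ⟨y, hy⟩).1, fun z hz => (mem_iInter.1 hb ⟨z, hz⟩).2⟩) E hE
  by_cases e : ∀ y, y ∈ (m.1 : Set X)
  · exact (show m = tp from Subtype.ext (NonemptyCompacts.ext (eq_univ_of_forall e))) ▸ m1.2
  obtain ⟨y, hy⟩ := not_forall.1 e
  obtain ⟨ε, e0, e1⟩ := Metric.isOpen_iff.1 hv.isOpen_compl m fun h => h2.subset ⟨m1.1, m1.2, h⟩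
  have e2 := (m.1.isCompact.isClosed.notMem_iff_infDist_pos m.1.nonempty).1 hy
  obtain ⟨x, hx⟩ := m.1.nonempty
  have c1 : Continuous fun w => -Metric.infDist w (m.1 : Set X) := (Metric.continuous_infDist_pt _).neg
  have d0 : 0 < min (ε / 2) (Metric.infDist y (m.1 : Set X)) := by positivity
  have d1 := min_le_left (ε / 2) (Metric.infDist y (m.1 : Set X))
  have d2 := min_le_right (ε / 2) (Metric.infDist y (m.1 : Set X))
  generalize min (ε / 2) (Metric.infDist y (m.1 : Set X)) = δ at d0 d1 d2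
  have s1 : (m.1 : Set X) ⊆ univ ∩ {w | -δ ≤ -Metric.infDist w (m.1 : Set X)} := fun w hw =>
    ⟨trivial, by simp [Metric.infDist_zero_of_mem hw, d0.le]⟩
  obtain ⟨z, z1, z2⟩ := bump isCompact_univ isPreconnected_univ c1 (δ := -δ) (mem_univ x) (mem_univ y) (s1 hx).2
    (neg_le_neg d2)
  let F : CX X := ⟨⟨⟨_, isCompact_componentIn (isCompact_univ.inter_right (isClosed_le continuous_const c1)) x⟩,
    z, z1⟩, isPreconnected_connectedComponentIn⟩
  have f1 : m ≤ F := m.2.subset_connectedComponentIn hx s1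
  have f2 : F ∈ Metric.ball m ε := by
    rw [Metric.mem_ball, Subtype.dist_eq, Metric.NonemptyCompacts.dist_eq]
    exact (Metric.hausdorffDist_le_of_infDist d0.le (fun w hw => neg_le_neg_iff.1
      (connectedComponentIn_subset _ _ hw).2) fun w hw => (Metric.infDist_zero_of_mem (f1 hw)).trans_le d0.le).trans_lt
      (by linarith)
  have f3 := m2 (y := F) ⟨m1.1.trans f1, (h1 (m1.1.trans f1)).resolve_right (e1 f2)⟩ f1 z1
  rw [Metric.infDist_zero_of_mem f3] at z2
  exact absurd z2 (by linarith)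

lemma up (D : CX X) : IsPreconnected {E : CX X | D ≤ E} :=
  isPreconnected_iff_subset_of_disjoint_closed.2 fun u v hu hv h1 h2 => by_contra fun h => by
    obtain ⟨⟨a, a1, a2⟩, b, b1, b2⟩ := (not_or.1 h).imp not_subset.1 not_subset.1
    exact h2.subset ⟨show D ≤ tp from subset_univ _, key D hu hv h1 h2 ⟨b1, (h1 b1).resolve_right b2⟩,
      key D hv hu (union_comm u v ▸ h1) (inter_comm u v ▸ h2) ⟨a1, (h1 a1).resolve_left a2⟩⟩

lemma apo (p : X) {A B : CX X} (h1 : p ∉ (B.1 : Set X)) (h2 : ¬ A ≤ B) :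
    ApoAt (Quotient.mk (rel p) A) (Quotient.mk (rel p) B) := by
  obtain ⟨x, x1, x2⟩ := not_subset.1 h2
  obtain ⟨U, u1, u2, u3⟩ := normal_exists_closure_subset (toFinite {p, x}).isClosed
    B.1.isCompact.isClosed.isOpen_compl (pair_subset h1 x2)
  refine ⟨Quotient.mk _ '' {D | ((D.1 : Set X) ∩ closure U).Nonempty}, ((NonemptyCompacts.isClosed_inter_nonempty_of_isClosed
    isClosed_closure).preimage continuous_subtype_val).isCompact.image continuous_quotient_mk',
    IsConnected.image (s := {D : CX X | ((D.1 : Set X) ∩ closure U).Nonempty}) ⟨⟨A, x, x1, subset_closure (u2 (by simp))⟩, isPreconnected_of_forall tp fun D hD =>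
      ⟨{E | D ≤ E}, fun E hE => hD.mono (inter_subset_inter_left _ hE), show D ≤ tp from subset_univ _, le_refl D, up D⟩⟩ _
      continuous_quotient_mk'.continuousOn, interior_maximal (image_mono fun D hD => hD.mono
      (inter_subset_inter_right _ subset_closure)) (opn p ((NonemptyCompacts.isOpen_inter_nonempty_of_isOpen u1).preimage
      continuous_subtype_val) fun _ _ E _ h => ⟨p, h, u2 (by simp)⟩) ⟨A, ⟨x, x1, u2 (by simp)⟩, rfl⟩,
    fun ⟨D, ⟨z, z1, z2⟩, e⟩ => ?_⟩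
  rcases Quotient.exact e with rfl | e
  exacts [u3 z2 z1, h1 e.2]

end Pool.Agent.H30.HSp
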