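import Pool.Agent.H30.TowA

set_option autoImplicit false

open Set Filter Topology Cardinal

namespace Pool.Agent.H30.Hec

open Pool.Agent.H30.Spl

def pre (f : ℕ → ℕ) (n : ℕ) : List ℕ := (List.range n).map f

@[simp] lemma pre_len (f : ℕ → ℕ) (n : ℕ) : (pre f n).length = n := by simp [pre]

lemma pre_succ (f : ℕ → ℕ) (n : ℕ) : pre f (n + 1) = pre f n ++ [f n] := by
  simp [pre, List.range_succ]

lemma pre_eq {f g : ℕ → ℕ} {n : ℕ} : pre f n = pre g n ↔ ∀ k < n, f k = g k := by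
  simp [pre, List.map_inj_left]

lemma pre_take (f : ℕ → ℕ) {m n : ℕ} (h : m ≤ n) : (pre f n).take m = pre f m := by
  simp [pre, ← List.map_take, List.take_range, min_eq_left h]

lemma pre_getD (f : ℕ → ℕ) (n k : ℕ) : (pre f n).getD k 0 = if k < n then f k else 0 := by
  by_cases h : k < n <;> simp [pre, List.getD, h]

def cyl (s : List ℕ) : Set (ℕ → ℕ) := {f | pre f s.length = s}

def O (s : List ℕ) (g : List ℕ → ℕ) : Set (ℕ → ℕ) :=
  {f | pre f s.length = s ∧ ∀ n, s.length ≤ n → g (pre f n) ≤ f n}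

lemma mem_cyl {f y : ℕ → ℕ} {n : ℕ} : y ∈ cyl (pre f n) ↔ ∀ k < n, y k = f k := by
  simp [cyl, pre_eq]

lemma mem_O {f y : ℕ → ℕ} {n : ℕ} {g : List ℕ → ℕ} :
    y ∈ O (pre f n) g ↔ (∀ k < n, y k = f k) ∧ ∀ k, n ≤ k → g (pre y k) ≤ y k := by
  simp [O, pre_eq]

lemma O_zero (s : List ℕ) : O s 0 = cyl s := by
  ext f; simp [O, cyl]

lemma O_sub (s : List ℕ) (g : List ℕ → ℕ) : O s g ⊆ cyl s := fun _ h => h.1

lemma O_ne (s : List ℕ) (g : List ℕ → ℕ) : (O s g).Nonempty := by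
  let L : ℕ → List ℕ := fun n => Nat.rec [] (fun n l => l ++ [if n < s.length then s.getD n 0 else g l]) n
  let f : ℕ → ℕ := fun n => if n < s.length then s.getD n 0 else g (L n)
  have h : ∀ n, pre f n = L n := fun n => by
    induction n with
    | zero => rfl
    | succ n ih => rw [pre_succ, ih]
  refine ⟨f, List.ext_getElem (by simp) fun i h1 h2 => ?_, fun n hn => ?_⟩
  · simp [pre, f, h2]
  · rw [h]; simp [f, not_lt.2 hn]

lemma O_mono {s : List ℕ} {g g' : List ℕ → ℕ} (h : ∀ u, g u ≤ g' u) : O s g' ⊆ O s g :=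
  fun _ hf => ⟨hf.1, fun n hn => (h _).trans (hf.2 n hn)⟩

lemma O_int (s : List ℕ) (g g' : List ℕ → ℕ) : (O s g ∩ O s g').Nonempty :=
  (O_ne s fun u => max (g u) (g' u)).mono
    (subset_inter (O_mono fun _ => le_max_left _ _) (O_mono fun _ => le_max_right _ _))

lemma O_up {s : List ℕ} {g : List ℕ → ℕ} {f : ℕ → ℕ} (hf : f ∈ O s g) {n : ℕ} (hn : s.length ≤ n) :
    f ∈ O (pre f n) g ∧ O (pre f n) g ⊆ O s g := by
  refine ⟨mem_O.2 ⟨fun _ _ => rfl, fun k hk => hf.2 k (hn.trans hk)⟩, fun y hy => ?_⟩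
  obtain ⟨h1, h2⟩ := mem_O.1 hy
  refine ⟨(pre_eq.2 fun k hk => h1 k (hk.trans_le hn)).trans hf.1, fun k hk => ?_⟩
  rcases lt_or_ge k n with h | h
  · rw [h1 k h, pre_eq.2 fun j hj => h1 j (hj.trans h)]
    exact hf.2 k hk
  · exact h2 k h

lemma O_out {s : List ℕ} {g : List ℕ → ℕ} {f : ℕ → ℕ} (hf : f ∉ O s g) :
    ∃ n, Disjoint (cyl (pre f n)) (O s g) := by
  by_cases h : pre f s.length = s
  · have : ∃ n, s.length ≤ n ∧ f n < g (pre f n) := by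
      by_contra hc
      push Not at hc
      exact hf ⟨h, hc⟩
    obtain ⟨n, h1, h2⟩ := this
    refine ⟨n + 1, disjoint_left.2 fun y hy hy' => ?_⟩
    have h3 := hy'.2 n h1
    rw [mem_cyl] at hy
    rw [hy n (by omega), pre_eq.2 fun j hj => hy j (by omega)] at h3
    omega
  · exact ⟨s.length, disjoint_left.2 fun y hy hy' => h ((pre_eq.2 (mem_cyl.1 hy)).symm.trans hy'.1)⟩

def Op (U : Set (ℕ → ℕ)) : Prop := ∀ f ∈ U, ∃ n g, f ∈ O (pre f n) g ∧ O (pre f n) g ⊆ U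

lemma Op.inter {U V : Set (ℕ → ℕ)} (hU : Op U) (hV : Op V) : Op (U ∩ V) := by
  intro f hf
  obtain ⟨n, g, h1, h2⟩ := hU f hf.1
  obtain ⟨m, g', h3, h4⟩ := hV f hf.2
  have a := O_up h1 (n := max n m) (by simp)
  have b := O_up h3 (n := max n m) (by simp)
  refine ⟨max n m, fun u => max (g u) (g' u), ⟨a.1.1, fun k hk => max_le (a.1.2 k hk) (b.1.2 k hk)⟩,
    subset_inter (((O_mono fun _ => le_max_left _ _).trans a.2).trans h2)
      (((O_mono fun _ => le_max_right _ _).trans b.2).trans h4)⟩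

lemma O_op (s : List ℕ) (g : List ℕ → ℕ) : Op (O s g) := fun _ hf =>
  ⟨s.length, g, O_up hf le_rfl⟩

lemma Oc_op (s : List ℕ) (g : List ℕ → ℕ) : Op (O s g)ᶜ := fun f hf => by
  obtain ⟨n, hn⟩ := O_out hf
  exact ⟨n, 0, by rw [O_zero]; exact mem_cyl.2 fun _ _ => rfl, by
    rw [O_zero]; exact hn.subset_compl_right⟩

lemma Op.iUnion {ι : Sort*} {U : ι → Set (ℕ → ℕ)} (hU : ∀ i, Op (U i)) : Op (⋃ i, U i) := fun f hf => by
  obtain ⟨i, hi⟩ := mem_iUnion.1 hf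
  obtain ⟨n, g, h1, h2⟩ := hU i f hi
  exact ⟨n, g, h1, h2.trans (subset_iUnion U i)⟩

def Dn (U : Set (ℕ → ℕ)) : Prop := ∀ s g, (O s g ∩ U).Nonempty

lemma baire {G : ℕ → Set (ℕ → ℕ)} (h1 : ∀ k, Op (G k)) (h2 : ∀ k, Dn (G k)) : Dn (⋂ k, G k) := by
  intro s g
  have step : ∀ (k : ℕ) (p : List ℕ × (List ℕ → ℕ)), ∃ q : List ℕ × (List ℕ → ℕ),
      O q.1 q.2 ⊆ O p.1 p.2 ∩ G k ∧ k < q.1.length := fun k p => by
    obtain ⟨f, hf⟩ := h2 k p.1 p.2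
    obtain ⟨n, g', h3, h4⟩ := (O_op _ _).inter (h1 k) f hf
    exact ⟨(pre f (max n (k + 1)), g'), (O_up h3 (by simp)).2.trans h4, by simp⟩
  choose nx a b using step
  let p : ℕ → List ℕ × (List ℕ → ℕ) := fun k => Nat.rec (s, g) (fun k q => nx k q) k
  have hp : Antitone fun k => O (p k).1 (p k).2 :=
    antitone_nat_of_succ_le fun k => (a k (p k)).trans inter_subset_left
  choose y hy using fun k => O_ne (p k).1 (p k).2
  have hl : ∀ k, k < (p (k + 1)).1.length := fun k => b k (p k)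
  have hc : ∀ i j, i + 1 ≤ j → y j i = y (i + 1) i := fun i j h =>
    pre_eq.1 ((hp h (hy j)).1.trans (hy (i + 1)).1.symm) i (hl i)
  have key : ∀ k, (fun i => y (i + 1) i) ∈ O (p k).1 (p k).2 := fun k => by
    by_contra h
    obtain ⟨n, hn⟩ := O_out h
    exact disjoint_left.1 hn (mem_cyl.2 fun i hi => hc i (max n k) (by omega))
      (hp (le_max_right n k) (hy _))
  exact ⟨_, key 0, mem_iInter.2 fun k => (a k (p k) (key (k + 1))).2⟩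

abbrev Cd : Type := List ℕ × (List ℕ → ℕ)

lemma ccc {P : Set Cd} (hP : ∀ s g, ∃ q ∈ P, O q.1 q.2 ⊆ O s g) :
    ∃ J : ℕ → Cd, (∀ k, J k ∈ P) ∧ Dn (⋃ k, O (J k).1 (J k).2) := by
  obtain ⟨J, hJ⟩ := zorn_subset {J : Set Cd | J ⊆ P ∧ J.PairwiseDisjoint fun q => O q.1 q.2}
    (fun c hc h => ⟨⋃₀ c, ⟨sUnion_subset fun J hJ => (hc hJ).1,
      (pairwiseDisjoint_sUnion h.directedOn).2 fun J hJ => (hc hJ).2⟩, fun J hJ => subset_sUnion_of_mem hJ⟩)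
  have hd : ∀ s g, ∃ q ∈ J, (O s g ∩ O q.1 q.2).Nonempty := fun s g => by
    by_contra hc
    push Not at hc
    obtain ⟨q, h1, h2⟩ := hP s g
    have h3 : ∀ r ∈ J, Disjoint (O q.1 q.2) (O r.1 r.2) := fun r hr =>
      (disjoint_iff_inter_eq_empty.2 (hc r hr)).mono_left h2
    have h4 : q ∈ J := hJ.2 (y := insert q J)
      ⟨insert_subset h1 hJ.1.1, hJ.1.2.insert fun r hr _ => h3 r hr⟩ (subset_insert _ _) (mem_insert _ _)
    exact (O_ne q.1 q.2).ne_empty (disjoint_self.1 (h3 q h4))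
  have hc : J.Countable := MapsTo.countable_of_injOn (f := Prod.fst) (mapsTo_univ _ _)
    (fun a ha b hb e => by
      by_contra h
      have := hJ.1.2 ha hb h
      simp only [Function.onFun, e] at this
      exact (O_int _ _ _).ne_empty (disjoint_iff_inter_eq_empty.1 this)) countable_univ
  obtain ⟨q, hq, -⟩ := hd [] 0
  obtain ⟨e, he⟩ := hc.exists_eq_range ⟨q, hq⟩
  refine ⟨e, fun k => hJ.1.1 (he ▸ ⟨k, rfl⟩), fun s g => ?_⟩
  obtain ⟨r, hr, y, h1, h2⟩ := hd s g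
  obtain ⟨k, rfl⟩ : r ∈ range e := he ▸ hr
  exact ⟨y, h1, mem_iUnion.2 ⟨k, h2⟩⟩

/-- A dense Lusin set for the dominating topology. -/
structure Lu (X : Set (ℕ → ℕ)) : Prop where
  dn : Dn X
  lus : ∀ G, Op G → Dn G → (X \ G).Countable

theorem exists_lu (hc : (𝔠 : Cardinal.{0}) = ℵ₁) : ∃ X, Lu X := by
  classical
  have c1 : #Cd = 𝔠 := by simp
  obtain ⟨e1, he1⟩ := enum (S := (Set.univ : Set (ℕ → Cd))) (T := W1) (P := Set.univ) (by
    simp [mk_W1, c1, ← hc])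
  obtain ⟨e2, he2⟩ := enum (S := (Set.univ : Set Cd)) (T := W1) (P := Set.univ) (by
    simp [mk_W1, c1, ← hc])
  have h1 : ∀ α : W1, ∃ f ∈ O (e2 α).1 (e2 α).2, ∀ β < α,
      Dn (⋃ k, O (e1 β k).1 (e1 β k).2) → f ∈ ⋃ k, O (e1 β k).1 (e1 β k).2 := fun α => by
    obtain ⟨b, hb⟩ := ((W1_Iio α).insert α).exists_eq_range (insert_nonempty _ _)
    obtain ⟨f, h1, h2⟩ := baire (G := fun j => if Dn (⋃ k, O (e1 (b j) k).1 (e1 (b j) k).2) then
      ⋃ k, O (e1 (b j) k).1 (e1 (b j) k).2 else O [] 0) (fun j => by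
        split_ifs
        · exact Op.iUnion fun _ => O_op _ _
        · exact O_op _ _) (fun j => by
        split_ifs with h
        · exact h
        · exact fun s g => (O_ne s g).mono fun y hy => ⟨hy, rfl, fun _ _ => Nat.zero_le _⟩)
      (e2 α).1 (e2 α).2
    refine ⟨f, h1, fun β hβ h => ?_⟩
    obtain ⟨j, rfl⟩ : β ∈ range b := hb ▸ Or.inr hβ
    have := mem_iInter.1 h2 j
    rwa [if_pos h] at this
  choose x h1 h2 using h1
  refine ⟨range x, fun s g => ?_, fun G h3 h4 => ?_⟩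
  · obtain ⟨α, -, hα⟩ := he2 (mem_univ (s, g))
    exact ⟨x α, by simpa [hα] using h1 α, α, rfl⟩
  · obtain ⟨J, h5, h6⟩ := ccc (P := {q | O q.1 q.2 ⊆ G}) fun s g => by
      obtain ⟨f, hf⟩ := h4 s g
      obtain ⟨n, g', -, h⟩ := (O_op s g).inter h3 f hf
      exact ⟨(_, g'), h.trans inter_subset_right, h.trans inter_subset_left⟩
    obtain ⟨β, -, rfl⟩ := he1 (mem_univ J)
    refine ((Moo.W1_Iic β).image x).mono ?_
    rintro _ ⟨⟨α, rfl⟩, h⟩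
    exact ⟨α, not_lt.1 fun h7 => h (iUnion_subset h5 (h2 α β h7 h6)), rfl⟩

def Sp (X : Set (ℕ → ℕ)) : Type := ↥X

instance (X : Set (ℕ → ℕ)) : TopologicalSpace (Sp X) where
  IsOpen U := ∀ x ∈ U, ∃ n g, x.1 ∈ O (pre x.1 n) g ∧ ∀ y : Sp X, y.1 ∈ O (pre x.1 n) g → y ∈ U
  isOpen_univ := fun x _ => ⟨0, 0, ⟨rfl, fun _ _ => Nat.zero_le _⟩, fun _ _ => trivial⟩
  isOpen_inter := fun U V hU hV x hx => by
    obtain ⟨n, g, h1, h2⟩ := hU x hx.1
    obtain ⟨m, g', h3, h4⟩ := hV x hx.2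
    obtain ⟨k, g'', h5, h6⟩ := (O_op _ _).inter (O_op _ _) x.1 ⟨h1, h3⟩
    exact ⟨k, g'', h5, fun y hy => ⟨h2 y (h6 hy).1, h4 y (h6 hy).2⟩⟩
  isOpen_sUnion := fun S hS x ⟨U, h1, h2⟩ => by
    obtain ⟨n, g, h3, h4⟩ := hS U h1 x h2
    exact ⟨n, g, h3, fun y hy => ⟨U, h1, h4 y hy⟩⟩

lemma Op.isOpen {X U : Set (ℕ → ℕ)} (h : Op U) : IsOpen {x : Sp X | x.1 ∈ U} := fun x hx => by
  obtain ⟨n, g, h1, h2⟩ := h x.1 hx
  exact ⟨n, g, h1, fun y hy => h2 hy⟩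

instance (X : Set (ℕ → ℕ)) : RegularSpace (Sp X) :=
  RegularSpace.of_exists_mem_nhds_isClosed_subset fun x s hs => by
    obtain ⟨U, h1, h2, h3⟩ := mem_nhds_iff.1 hs
    obtain ⟨n, g, h4, h5⟩ := h2 x h3
    exact ⟨{y | y.1 ∈ O (pre x.1 n) g}, (O_op _ _).isOpen.mem_nhds h4,
      ⟨(Oc_op _ _).isOpen⟩, fun y hy => h1 (h5 y hy)⟩

instance (X : Set (ℕ → ℕ)) : T1Space (Sp X) :=
  t1Space_iff_exists_open.2 fun x y h => by
    have : ∃ k, x.1 k ≠ y.1 k := by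
      by_contra hc
      push Not at hc
      exact h (Subtype.ext (funext hc))
    obtain ⟨k, hk⟩ := this
    exact ⟨_, (O_op (pre x.1 (k + 1)) 0).isOpen, mem_O.2 ⟨fun _ _ => rfl, fun _ _ => Nat.zero_le _⟩,
      fun h => hk ((mem_O.1 h).1 k (by omega)).symm⟩

theorem Lu.lind {X : Set (ℕ → ℕ)} (h : Lu X) : LindelofSpace (Sp X) := by
  refine ⟨isLindelof_of_countable_subcover fun {ι} U hU hs => ?_⟩
  obtain ⟨J, h1, h2⟩ := ccc (P := {q | ∃ i, ∀ y : Sp X, y.1 ∈ O q.1 q.2 → y ∈ U i}) fun s g => by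
    obtain ⟨f, hf, hX⟩ := h.dn s g
    obtain ⟨i, hi⟩ := mem_iUnion.1 (hs (mem_univ ⟨f, hX⟩))
    obtain ⟨n, g', h1, h2⟩ := hU i _ hi
    obtain ⟨k, g'', -, h4⟩ := (O_op _ _).inter (O_op _ _) f ⟨hf, h1⟩
    exact ⟨(_, g''), ⟨i, fun y hy => h2 y (h4 hy).2⟩, h4.trans inter_subset_left⟩
  choose a ha using h1
  choose b hb using fun x : Sp X => mem_iUnion.1 (hs (mem_univ x))
  refine ⟨range a ∪ b '' (Subtype.val ⁻¹' (X \ ⋃ k, O (J k).1 (J k).2)), (countable_range a).union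
    (((h.lus _ (Op.iUnion fun _ => O_op _ _) h2).preimage Subtype.val_injective).image b), fun x _ => ?_⟩
  by_cases hx : x.1 ∈ ⋃ k, O (J k).1 (J k).2
  · obtain ⟨k, hk⟩ := mem_iUnion.1 hx
    exact mem_biUnion (Or.inl ⟨k, rfl⟩) (ha k x hk)
  · exact mem_biUnion (Or.inr ⟨x, ⟨x.2, hx⟩, rfl⟩) (hb x)

theorem Lu.not_menger {X : Set (ℕ → ℕ)} (h : Lu X) : ∃ U : ℕ → Set (Set (Sp X)),
    (∀ n, ∀ s ∈ U n, IsOpen s) ∧ (∀ n, ⋃₀ U n = Set.univ) ∧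
    ¬ ∃ A : ℕ → Set (Set (Sp X)), (∀ n, A n ⊆ U n ∧ (A n).Finite) ∧ (⋃ n, ⋃₀ A n) = Set.univ := by
  refine ⟨fun n => range fun k => {x | x.1 n = k}, ?_, fun n => eq_univ_of_forall fun x =>
    ⟨_, ⟨x.1 n, rfl⟩, rfl⟩, ?_⟩
  · rintro n _ ⟨k, rfl⟩ x hx
    exact ⟨n + 1, 0, mem_O.2 ⟨fun _ _ => rfl, fun _ _ => Nat.zero_le _⟩,
      fun y hy => ((mem_O.1 hy).1 n (by omega)).trans hx⟩
  rintro ⟨A, h1, h2⟩
  have : ∀ n, ∃ b, ∀ x ∈ ⋃₀ A n, x.1 n < b := fun n => by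
    choose k hk using fun s : A n => (h1 n).1 s.2
    have := (h1 n).2.to_subtype
    obtain ⟨b, hb⟩ := (finite_range k).bddAbove
    refine ⟨b + 1, fun x ⟨s, h3, h4⟩ => ?_⟩
    have h5 : x ∈ {x : Sp X | x.1 n = k ⟨s, h3⟩} := (hk ⟨s, h3⟩).ge h4
    exact Nat.lt_succ_of_le (h5.le.trans (hb ⟨_, rfl⟩))
  choose b hb using this
  obtain ⟨f, hf, hX⟩ := h.dn [] fun u => b u.length
  obtain ⟨n, hn⟩ := mem_iUnion.1 (h2.ge (mem_univ ⟨f, hX⟩))
  have h3 := hf.2 n (Nat.zero_le _)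
  have h4 : f n < b n := hb n _ hn
  simp only [pre_len] at h3
  omega

end Pool.Agent.H30.Hec
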