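import Pool.Agent.H30.HecA

set_option autoImplicit false

open Set Filter Topology Cardinal

namespace Pool.Agent.H30.Hec

open Pool.Agent.H30.Spl

def Act (G : List ℕ → Set (ℕ → ℕ)) (t : List ℕ) : Prop :=
  ∀ m : Fin t.length, Act G (t.take m) → Disjoint (cyl t) (G (t.take m))
termination_by t.length
decreasing_by
  rw [List.length_take]
  exact (min_le_left _ _).trans_lt m.2

lemma act_iff {G : List ℕ → Set (ℕ → ℕ)} {f : ℕ → ℕ} {n : ℕ} : Act G (pre f n) ↔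
    ∀ m < n, Act G (pre f m) → Disjoint (cyl (pre f n)) (G (pre f m)) := by
  rw [Act]
  constructor
  · intro h m hm
    have := h ⟨m, by simpa using hm⟩
    rwa [pre_take f hm.le] at this
  · intro h m
    have hm : m.1 < n := by simpa using m.2
    rw [pre_take f hm.le]
    exact h m hm

lemma cyl_up (f : ℕ → ℕ) {m n : ℕ} (h : m ≤ n) : cyl (pre f n) ⊆ cyl (pre f m) :=
  fun _ hy => mem_cyl.2 fun k hk => mem_cyl.1 hy k (hk.trans_le h)

lemma cyl_self (f : ℕ → ℕ) (n : ℕ) : f ∈ cyl (pre f n) := mem_cyl.2 fun _ _ => rfl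

lemma cyl_op (s : List ℕ) : Op (cyl s) := O_zero s ▸ O_op s 0

lemma inf_act {G : List ℕ → Set (ℕ → ℕ)}
    (hcl : ∀ a f, f ∉ G a → ∃ n, Disjoint (cyl (pre f n)) (G a)) {f : ℕ → ℕ}
    (hf : ∀ n, Act G (pre f n) → f ∉ G (pre f n)) (N : ℕ) : ∃ n, N ≤ n ∧ Act G (pre f n) := by
  by_contra hc
  push Not at hc
  have : ∀ m, ∃ k, Act G (pre f m) → Disjoint (cyl (pre f k)) (G (pre f m)) := fun m => by
    by_cases h : Act G (pre f m)
    · obtain ⟨k, hk⟩ := hcl _ f (hf m h)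
      exact ⟨k, fun _ => hk⟩
    · exact ⟨0, fun h' => (h h').elim⟩
  choose k hk using this
  obtain ⟨M, hM⟩ := ((finite_Iio N).image k).bddAbove
  refine hc (max N M) (le_max_left _ _) (act_iff.2 fun m _ h => ?_)
  have h1 : m < N := not_le.1 fun h2 => hc m h2 h
  exact (hk m h).mono_left (cyl_up f ((hM ⟨m, h1, rfl⟩).trans (le_max_right _ _)))

def Cap (G : List ℕ → Set (ℕ → ℕ)) : Set (ℕ → ℕ) := {f | ∃ n, Act G (pre f n) ∧ f ∈ G (pre f n)}

lemma cap_op {G : List ℕ → Set (ℕ → ℕ)} (hop : ∀ a, Op (G a)) : Op (Cap G) := by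
  rintro f ⟨n, h1, h2⟩
  obtain ⟨m, g, h3, h4⟩ := (cyl_op (pre f n)).inter (hop _) f ⟨cyl_self f n, h2⟩
  refine ⟨m, g, h3, fun y hy => ⟨n, ?_⟩⟩
  rw [pre_eq.2 (mem_cyl.1 (h4 hy).1)]
  exact ⟨h1, (h4 hy).2⟩

lemma cap_dn {G : List ℕ → Set (ℕ → ℕ)}
    (hcl : ∀ a f, f ∉ G a → ∃ n, Disjoint (cyl (pre f n)) (G a)) {N : ℕ}
    (hit : ∀ a g, N ≤ a.length → (G a ∩ O a g).Nonempty) : Dn (Cap G) := by
  intro s g
  obtain ⟨f, hf⟩ := O_ne s g
  by_cases h : f ∈ Cap G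
  · exact ⟨f, hf, h⟩
  obtain ⟨n, h1, h2⟩ := inf_act hcl (fun n h1 h2 => h ⟨n, h1, h2⟩) (max N s.length)
  obtain ⟨y, h3, h4⟩ := hit (pre f n) g (by simpa using (le_max_left _ _).trans h1)
  refine ⟨y, (O_up hf ((le_max_right _ _).trans h1)).2 h4, n, ?_⟩
  rw [pre_eq.2 (mem_O.1 h4).1]
  exact ⟨h2, h3⟩

variable {X : Set (ℕ → ℕ)} {B : Set (Set (Sp X))}

abbrev Pc (X : Set (ℕ → ℕ)) : Type := Set (Sp X) × Cd

structure Fam (B : Set (Set (Sp X))) (A : Set (ℕ → ℕ)) (u : List ℕ) (C : Set (Pc X)) : Prop where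
  mem : ∀ p ∈ C, p.1 ∈ B
  sub : ∀ p ∈ C, ∀ y : Sp X, y.1 ∈ O p.2.1 p.2.2 → y ∈ p.1
  ins : ∀ p ∈ C, ∀ y ∈ p.1, y.1 ∈ A
  lf : ∀ f, ∃ n, {p ∈ C | ∃ y ∈ p.1, y.1 ∈ cyl (pre f n)}.Finite
  hit : ∀ g, ∃ p ∈ C, (O p.2.1 p.2.2 ∩ O u g).Nonempty

lemma piece (hB : TopologicalSpace.IsTopologicalBasis B) (x : Sp X) {A : Set (ℕ → ℕ)} (hA : Op A)
    (hx : x.1 ∈ A) (N : ℕ) : ∃ p : Pc X, p.1 ∈ B ∧ (∀ y : Sp X, y.1 ∈ O p.2.1 p.2.2 → y ∈ p.1) ∧
      (∀ y ∈ p.1, y.1 ∈ A) ∧ x.1 ∈ O p.2.1 p.2.2 ∧ ∃ m, N ≤ m ∧ p.2.1 = pre x.1 m := by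
  obtain ⟨U, h1, h2, h3⟩ := hB.exists_subset_of_mem_open hx hA.isOpen
  obtain ⟨n, g, h4, h5⟩ := hB.isOpen h1 x h2
  have h6 := O_up h4 (n := max n N) (by simp)
  exact ⟨(U, pre x.1 (max n N), g), h1, fun y hy => h5 y (h6.2 hy), h3, h6.1, _, le_max_right _ _, rfl⟩

def Z (s u : List ℕ) : Set (ℕ → ℕ) :=
  O s fun w => if s.length < w.length then u.getD (w.length - 1) 0 else 0

lemma step {s u : List ℕ} (hs : s.length ≤ u.length)
    (h : ∀ N, ∃ b, N ≤ b ∧ ∃ C, Fam B (Z s (u ++ [b])) (u ++ [b]) C) : ∃ C, Fam B (Z s u) u C := by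
  choose b hb C hC using h
  refine ⟨⋃ N, C N, fun p hp => ?_, fun p hp => ?_, fun p hp y hy => ?_, fun f => ?_, fun g => ?_⟩
  · obtain ⟨N, hN⟩ := mem_iUnion.1 hp
    exact (hC N).mem p hN
  · obtain ⟨N, hN⟩ := mem_iUnion.1 hp
    exact (hC N).sub p hN
  · obtain ⟨N, hN⟩ := mem_iUnion.1 hp
    refine O_mono (fun w => ?_) ((hC N).ins p hN y hy)
    split_ifs
    · rcases lt_or_ge (w.length - 1) u.length with h | h
      · rw [List.getD_append _ _ _ _ h]
      · rw [List.getD_eq_default _ _ h]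
        exact Nat.zero_le _
    · exact le_rfl
  · choose n hn using fun N => (hC N).lf f
    obtain ⟨M, hM⟩ := ((finite_Iic (f (u.length + 1))).image n).bddAbove
    refine ⟨max M (u.length + 2), ((finite_Iic (f (u.length + 1))).biUnion fun N _ => hn N).subset ?_⟩
    rintro p ⟨hp, y, h1, h2⟩
    obtain ⟨N, hN⟩ := mem_iUnion.1 hp
    have h3 := ((hC N).ins p hN y h1).2 (u.length + 1) (by omega)
    simp only [pre_len, if_pos (show s.length < u.length + 1 by omega), add_tsub_cancel_right,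
      List.getD_append_right _ _ _ _ le_rfl, tsub_self, List.getD_cons_zero] at h3
    rw [mem_cyl.1 h2 _ (by omega)] at h3
    have h4 : N ≤ f (u.length + 1) := (hb N).trans h3
    exact mem_biUnion h4 ⟨hN, y, h1, cyl_up f ((hM ⟨N, h4, rfl⟩).trans (le_max_left _ _)) h2⟩
  · obtain ⟨p, hp, y, h1, h2⟩ := (hC (g u)).hit g
    refine ⟨p, mem_iUnion.2 ⟨_, hp⟩, y, h1, ?_⟩
    have h3 := h2.1
    rw [List.length_append, List.length_singleton, pre_succ] at h3
    obtain ⟨h4, h5⟩ := List.append_inj h3 (by simp)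
    refine ⟨h4, fun k hk => ?_⟩
    rcases hk.eq_or_lt with rfl | hk
    · rw [h4, List.singleton_inj.1 h5]
      exact hb _
    · exact h2.2 k (by simpa using hk)

theorem exists_fam (h : Lu X) (hB : TopologicalSpace.IsTopologicalBasis B) (s : List ℕ) :
    ∃ C, Fam B (cyl s) s C := by
  by_contra hc
  have h1 : ∀ u : List ℕ, ∃ N, s.length ≤ u.length → (¬ ∃ C, Fam B (Z s u) u C) →
      ∀ b, N ≤ b → ¬ ∃ C, Fam B (Z s (u ++ [b])) (u ++ [b]) C := fun u => by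
    by_contra h2
    push Not at h2
    obtain ⟨h3, h4, -⟩ := h2 0
    obtain ⟨C, hC⟩ := step h3 fun N => (h2 N).2.2
    exact h4 C hC
  choose N hN using h1
  obtain ⟨x, hx, hX⟩ := h.dn s fun w => max (N w) (w.getD (w.length - 1) 0)
  have h2 : ∀ k, s.length ≤ k → ¬ ∃ C, Fam B (Z s (pre x k)) (pre x k) C := by
    intro k hk
    induction k, hk using Nat.le_induction with
    | base =>
      rw [hx.1]
      rintro ⟨C, hC⟩
      exact hc ⟨C, hC.mem, hC.sub, fun p hp y hy => O_sub _ _ (hC.ins p hp y hy), hC.lf, hC.hit⟩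
    | succ k hk ih =>
      rw [pre_succ]
      exact hN _ (by simpa using hk) ih _ ((le_max_left _ _).trans (hx.2 k hk))
  obtain ⟨p, a1, a2, a3, -, m, a5, a6⟩ := piece hB ⟨x, hX⟩
    (O_op s fun w => if s.length < w.length then x (w.length - 1) else 0) ⟨hx.1, fun k hk => by
      have := (le_max_right _ _).trans (hx.2 k hk)
      simp only [pre_len, pre_getD] at this ⊢
      split_ifs with h
      · rwa [if_pos (by omega)] at this
      · exact Nat.zero_le _⟩ s.length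
  refine h2 m a5 ⟨{p}, by simpa, by simpa, ?_, fun f => ⟨0, (finite_singleton p).subset fun _ h => h.1⟩,
    fun g => ⟨p, rfl, a6 ▸ O_int _ _ _⟩⟩
  rintro _ rfl y hy
  refine O_mono (fun w => ?_) (a3 y hy)
  rw [pre_getD]
  split_ifs <;> simp

def Un (C : Set (Pc X)) : Set (ℕ → ℕ) := ⋃ p ∈ C, O p.2.1 p.2.2

lemma un_op (C : Set (Pc X)) : Op (Un C) := Op.iUnion fun _ => Op.iUnion fun _ => O_op _ _

lemma Fam.cl (h : Lu X) {A : Set (ℕ → ℕ)} {u : List ℕ} {C : Set (Pc X)} (hC : Fam B A u C)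
    (f : ℕ → ℕ) (hf : f ∉ Un C) : ∃ n, Disjoint (cyl (pre f n)) (Un C) := by
  obtain ⟨n, hn⟩ := hC.lf f
  have : ∀ p : Pc X, ∃ k, p ∈ C → Disjoint (cyl (pre f k)) (O p.2.1 p.2.2) := fun p => by
    by_cases hp : p ∈ C
    · obtain ⟨k, hk⟩ := O_out fun h => hf (mem_biUnion hp h)
      exact ⟨k, fun _ => hk⟩
    · exact ⟨0, fun h => (hp h).elim⟩
  choose k hk using this
  obtain ⟨M, hM⟩ := (hn.image k).bddAbove
  refine ⟨max n M, disjoint_left.2 fun y h1 h2 => ?_⟩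
  obtain ⟨p, hp, h3⟩ := mem_iUnion₂.1 h2
  obtain ⟨j, g, -, h4⟩ := (cyl_op _).inter (O_op _ _) y ⟨cyl_up f (le_max_left _ _) h1, h3⟩
  obtain ⟨z, h5, hX⟩ := h.dn (pre y j) g
  have h6 := hM ⟨p, ⟨hp, ⟨z, hX⟩, hC.sub p hp _ (h4 h5).2, (h4 h5).1⟩, rfl⟩
  exact disjoint_left.1 (hk p hp) (cyl_up f (h6.trans (le_max_right _ _)) h1) h3

lemma Fam.hit' {A : Set (ℕ → ℕ)} {u : List ℕ} {C : Set (Pc X)} (hC : Fam B A u C)
    (g : List ℕ → ℕ) : (Un C ∩ O u g).Nonempty := by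
  obtain ⟨p, hp, y, h1, h2⟩ := hC.hit g
  exact ⟨y, mem_biUnion hp h1, h2⟩

lemma avoid (h : Lu X) (p : ℕ → ℕ → ℕ) : ∃ n : ℕ → ℕ, (∀ k, k < n k) ∧ ∀ x ∈ X, x ∉ range p →
    ∃ N, ∀ k m, N ≤ m → n k ≤ m → pre x m ≠ pre (p k) m := by
  have h1 := h.lus (⋃ s, O s fun w => p w.length w.length + 1) (Op.iUnion fun _ => O_op _ _)
    fun s g => (O_int s g _).mono (inter_subset_inter_right _ (subset_iUnion
      (fun s => O s fun w => p w.length w.length + 1) s))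
  obtain ⟨ι, hι⟩ := idx h1
  have h2 : ∀ x y : ℕ → ℕ, ∃ d, x ≠ y → x d ≠ y d := fun x y => by
    by_contra hc
    push Not at hc
    exact (hc 0).1 (funext fun d => (hc d).2)
  choose d hd using h2
  have h3 : ∀ k, ∃ n, k < n ∧ ∀ x ∈ X \ ⋃ s, O s fun w => p w.length w.length + 1,
      ι x ≤ k → d x (p k) < n := fun k => by
    have : {x ∈ X \ ⋃ s, O s fun w => p w.length w.length + 1 | ι x ≤ k}.Finite :=
      Finite.of_finite_image (f := ι) ((finite_Iic k).subset (by rintro _ ⟨β, h, rfl⟩; exact h.2))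
        fun a ha b _ h => (hι a ha.1 b h.symm).symm
    obtain ⟨M, hM⟩ := (this.image fun x => d x (p k)).bddAbove
    exact ⟨max k M + 1, by omega, fun x h1 h2 => by
      have := hM ⟨x, ⟨h1, h2⟩, rfl⟩
      simp only at this
      omega⟩
  choose n h3 h4 using h3
  refine ⟨n, h3, fun x hx hp => ?_⟩
  have h5 : ∃ K, ∀ k, K ≤ k → ∃ j < n k, x j ≠ p k j := by
    by_cases h6 : x ∈ ⋃ s, O s fun w => p w.length w.length + 1
    · obtain ⟨s, hs⟩ := mem_iUnion.1 h6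
      refine ⟨s.length, fun k hk => ⟨k, h3 k, ?_⟩⟩
      have := hs.2 k hk
      simp only [pre_len] at this
      omega
    · exact ⟨ι x, fun k hk => ⟨_, h4 k x ⟨hx, h6⟩ hk, hd _ _ fun h => hp ⟨k, h.symm⟩⟩⟩
  obtain ⟨K, hK⟩ := h5
  obtain ⟨M, hM⟩ := ((finite_Iio K).image fun k => d x (p k)).bddAbove
  refine ⟨M + 1, fun k m h6 h7 e => ?_⟩
  rcases lt_or_ge k K with h8 | h8
  · exact hd _ _ (fun h => hp ⟨k, h.symm⟩)
      (pre_eq.1 e _ (Nat.lt_of_succ_le ((Nat.succ_le_succ (hM ⟨k, h8, rfl⟩)).trans h6)))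
  · obtain ⟨j, h9, h10⟩ := hK k h8
    exact h10 (pre_eq.1 e j (h9.trans_le h7))

theorem Lu.tp (h : Lu X) (hB : TopologicalSpace.IsTopologicalBasis B) : ∃ C : Set (Set (Sp X)),
    C ⊆ B ∧ LocallyFinite (fun s : C => (s : Set (Sp X))) ∧ ⋃₀ C = Set.univ := by
  classical
  choose C hC using exists_fam h hB
  let G : ℕ → List ℕ → Set (ℕ → ℕ) := fun n a => if n ≤ a.length then Un (C a) else ∅
  have h1 : (⋃ n, X \ Cap (G n)).Countable := countable_iUnion fun n => h.lus _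
    (cap_op fun a => by
      simp only [G]
      split_ifs
      · exact un_op _
      · exact fun _ h => h.elim)
    (cap_dn (N := n) (fun a f hf => by
      simp only [G] at hf ⊢
      split_ifs at hf ⊢
      · exact (hC a).cl h f hf
      · exact ⟨0, disjoint_empty _⟩) fun a g ha => by
      simp only [G, if_pos ha]
      exact (hC a).hit' g)
  obtain ⟨x0, -, h0⟩ := h.dn [] 0
  obtain ⟨p, hp⟩ := (h1.insert x0).exists_eq_range (insert_nonempty _ _)
  have hpX : ∀ k, p k ∈ X := fun k => by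
    rcases (hp.ge ⟨k, rfl⟩ : p k ∈ insert x0 _) with h2 | h2
    · exact h2 ▸ h0
    · obtain ⟨n, hn⟩ := mem_iUnion.1 h2
      exact hn.1
  obtain ⟨n, hn, hav⟩ := avoid h p
  choose q q1 q2 q3 q4 q5 using fun k m => piece hB ⟨p k, hpX k⟩ (cyl_op _) (cyl_self (p k) m) 0
  let C' : List ℕ → Set (Pc X) := fun a => C a ∪
    (fun k => q k a.length) '' {k | n k ≤ a.length ∧ a = pre (p k) a.length}
  have hC' : ∀ a, Fam B (cyl a) a (C' a) := fun a => by
    refine ⟨?_, ?_, ?_, fun f => ?_, fun g => ?_⟩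
    · rintro _ (h | ⟨k, -, rfl⟩)
      · exact (hC a).mem _ h
      · exact q1 _ _
    · rintro _ (h | ⟨k, -, rfl⟩)
      · exact (hC a).sub _ h
      · exact q2 _ _
    · rintro _ (h | ⟨k, hk, rfl⟩)
      · exact (hC a).ins _ h
      · intro y hy
        rw [hk.2]
        exact q3 _ _ y hy
    · obtain ⟨m, hm⟩ := (hC a).lf f
      refine ⟨m, (hm.union (((finite_Iio a.length).subset fun k hk => (hn k).trans_le hk.1).image
        (s := {k | n k ≤ a.length ∧ a = pre (p k) a.length}) fun k => q k a.length)).subset ?_⟩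
      rintro r ⟨h | h, h2⟩
      · exact Or.inl ⟨h, h2⟩
      · exact Or.inr h
    · obtain ⟨r, h1, h2⟩ := (hC a).hit g
      exact ⟨r, Or.inl h1, h2⟩
  have cap : ∀ x ∈ X, x ∈ Cap fun a => Un (C' a) := by
    intro x hx
    by_contra hc
    have hi := inf_act (G := fun a => Un (C' a)) (fun a => (hC' a).cl h)
      (fun n h1 h2 => hc ⟨n, h1, h2⟩)
    by_cases h2 : x ∈ range p
    · obtain ⟨k, rfl⟩ := h2
      obtain ⟨m, h2, h3⟩ := hi (n k)
      exact hc ⟨m, h3, mem_biUnion (Or.inr ⟨k, ⟨by simpa using h2, by simp⟩, rfl⟩) (q4 _ _)⟩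
    obtain ⟨N, hN⟩ := hav x hx h2
    obtain ⟨m, h3, h4⟩ := hi N
    have e : ∀ j, m ≤ j → G m (pre x j) = Un (C' (pre x j)) := fun j hj => by
      have : {k | n k ≤ j ∧ pre x j = pre (p k) j} = ∅ :=
        eq_empty_of_forall_notMem fun k hk => hN k j (h3.trans hj) hk.1 hk.2
      simp only [G, C', pre_len, if_pos hj, this, image_empty, union_empty]
    have h5 : ∀ j, m ≤ j → Act (G m) (pre x j) → Act (fun a => Un (C' a)) (pre x j) := by
      have key : ∀ j, m ≤ j → (Act (G m) (pre x j) ↔ Act (fun a => Un (C' a)) (pre x j)) := by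
        intro j
        induction j using Nat.strong_induction_on with
        | _ j ih =>
          intro hj
          rw [act_iff, act_iff]
          refine ⟨fun H i hi ha => ?_, fun H i hi ha => ?_⟩
          · rcases lt_or_ge i m with h6 | h6
            · exact (act_iff.1 h4 i h6 ha).mono_left (cyl_up x hj)
            · rw [← e i h6]
              exact H i hi ((ih i hi h6).2 ha)
          · rcases lt_or_ge i m with h6 | h6
            · simp only [G, pre_len, if_neg h6.not_ge, disjoint_empty]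
            · rw [e i h6]
              exact H i hi ((ih i hi h6).1 ha)
      exact fun j hj => (key j hj).1
    have h6 : x ∈ Cap (G m) := by
      by_contra h6
      exact h2 (hp ▸ Or.inr (mem_iUnion.2 ⟨m, hx, h6⟩))
    obtain ⟨j, h7, h8⟩ := h6
    have h9 : m ≤ j := by
      by_contra h9
      simp only [G, pre_len, if_neg h9] at h8
      exact h8
    exact hc ⟨j, h5 j h9 h7, (e j h9).le h8⟩
  refine ⟨Prod.fst '' ⋃ a ∈ {a | Act (fun a => Un (C' a)) a}, C' a, ?_, fun x => ?_,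
    eq_univ_of_forall fun x => ?_⟩
  · rintro _ ⟨r, hr, rfl⟩
    obtain ⟨a, -, ha⟩ := mem_iUnion₂.1 hr
    exact (hC' a).mem r ha
  · obtain ⟨j, h2, h3⟩ := cap x.1 x.2
    choose m hm using fun i => (hC' (pre x.1 i)).lf x.1
    obtain ⟨M, hM⟩ := ((finite_Iic j).image m).bddAbove
    refine ⟨_, ((cyl_op (pre x.1 (max j M))).inter (un_op _)).isOpen.mem_nhds ⟨cyl_self _ _, h3⟩,
      Finite.of_finite_image (f := Subtype.val) ((((finite_Iic j).biUnion fun i _ => hm i).image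
        Prod.fst).subset ?_) Subtype.val_injective.injOn⟩
    rintro _ ⟨⟨_, r, hr, rfl⟩, ⟨y, h4, h5, h6⟩, rfl⟩
    obtain ⟨a, h7, h8⟩ := mem_iUnion₂.1 hr
    have h9 : pre y.1 a.length = a := (hC' a).ins r h8 y h4
    have h10 : ∀ i ≤ max j M, pre y.1 i = pre x.1 i := fun i hi =>
      pre_eq.2 fun k hk => mem_cyl.1 h5 k (hk.trans_le hi)
    have h11 : a.length ≤ j := by
      by_contra h11
      have h12 : Act (fun a => Un (C' a)) (pre y.1 a.length) := h9.symm ▸ h7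
      have h13 := act_iff.1 h12 j (not_le.1 h11)
      rw [h10 j (le_max_left _ _)] at h13
      exact disjoint_left.1 (h13 h2) (cyl_self _ _) h6
    rw [h10 _ (h11.trans (le_max_left _ _))] at h9
    refine ⟨r, mem_biUnion h11 ⟨by rw [h9]; exact h8, y, h4, cyl_up _ ?_ h5⟩, rfl⟩
    exact (hM ⟨_, h11, rfl⟩).trans (le_max_right _ _)
  · obtain ⟨j, h2, h3⟩ := cap x.1 x.2
    obtain ⟨r, h4, h5⟩ := mem_iUnion₂.1 h3
    exact ⟨r.1, ⟨r, mem_biUnion h2 h4, rfl⟩, (hC' _).sub r h4 x h5⟩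

end Pool.Agent.H30.Hec
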