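import Pool.Agent.H30.Grid

set_option autoImplicit false

namespace Pool.Agent.H30

open Set Metric Topology Filter

lemma ind_mono {n : ℕ} : ∀ {X Y : Type} [TopologicalSpace X] [TopologicalSpace Y] {f : Y → X},
    IsInducing f → HasSmallInductiveDimensionLT X n → HasSmallInductiveDimensionLT Y n := by
  induction n with
  | zero =>
    intro X Y _ _ f _ h
    rw [hasSmallInductiveDimensionLT_zero_iff] at h ⊢
    exact Function.isEmpty f
  | succ n ih =>
    intro X Y _ _ f hf h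
    cases h with
    | succ _ s hs h =>
      refine .succ n _ (hs.isInducing hf) ?_
      rintro _ ⟨U, hU, rfl⟩
      refine ih (f := fun y : frontier (f ⁻¹' U) =>
        (⟨f y, hf.continuous.frontier_preimage_subset U y.2⟩ : frontier U)) ?_ (h U hU)
      exact IsInducing.subtypeVal.of_comp_iff.1 (hf.comp IsInducing.subtypeVal)

lemma ind_subset {n : ℕ} {X : Type} [TopologicalSpace X] {A B : Set X} (h : A ⊆ B)
    (H : HasSmallInductiveDimensionLT B n) : HasSmallInductiveDimensionLT A n :=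
  ind_mono (IsEmbedding.inclusion h).isInducing H

lemma ind_of_local {n : ℕ} {X : Type} [TopologicalSpace X]
    (h : ∀ x : X, ∀ W ∈ 𝓝 x, ∃ U, IsOpen U ∧ x ∈ U ∧ U ⊆ W ∧
      HasSmallInductiveDimensionLT (frontier U) n) : HasSmallInductiveDimensionLT X (n + 1) := by
  refine .succ n {U | IsOpen U ∧ HasSmallInductiveDimensionLT (frontier U) n}
    (TopologicalSpace.isTopologicalBasis_of_isOpen_of_nhds (fun _ h => h.1) fun x W hx hW => ?_)
    fun _ h => h.2
  obtain ⟨U, h1, h2, h3, h4⟩ := h x W (hW.mem_nhds hx)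
  exact ⟨U, ⟨h1, h4⟩, h2, h3⟩

lemma ind_finite {X : Type} [TopologicalSpace X] [T1Space X] {A : Set X} (h : A.Finite) :
    HasSmallInductiveDimensionLT A 1 := by
  have := h.to_subtype
  refine ind_of_local fun x W hW => ⟨{x}, isOpen_discrete _, rfl,
    singleton_subset_iff.2 (mem_of_mem_nhds hW), ?_⟩
  rw [(isClopen_discrete _).frontier_eq]
  infer_instance

lemma fin_abs (a r : ℝ) : {x : ℝ | dist x a = r}.Finite := by
  refine (toFinite {a + r, a - r}).subset fun x hx => ?_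
  have hx' : |x - a| = r := hx
  rcases abs_cases (x - a) with h | h
  · left; linarith [h.1]
  · right; show x = a - r; linarith [h.1]

lemma sphere_cases {p q : ℝ × ℝ} {r : ℝ} (h : q ∈ sphere p r) :
    dist q.1 p.1 = r ∨ dist q.2 p.2 = r := by
  rw [mem_sphere, Prod.dist_eq] at h
  rcases max_choice (dist q.1 p.1) (dist q.2 p.2) with e | e
  · exact Or.inl (e ▸ h)
  · exact Or.inr (e ▸ h)

lemma ind_sphere (p : ℝ × ℝ) (r : ℝ) : HasSmallInductiveDimensionLT (sphere p r) 2 := by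
  refine ind_of_local fun x W hW => ?_
  obtain ⟨ε, hε, h⟩ := Metric.mem_nhds_iff.1 hW
  obtain ⟨ρ, h1, h2⟩ := ((Ioo_infinite hε).sdiff
    (((fin_abs p.1 r).image fun t => dist t x.1.1).union
      ((fin_abs p.2 r).image fun t => dist t x.1.2))).nonempty
  refine ⟨ball x ρ, isOpen_ball, mem_ball_self h1.1, (ball_subset_ball h1.2.le).trans h,
    ind_subset frontier_ball_subset_sphere (ind_finite ?_)⟩
  refine Finite.of_finite_image (f := Subtype.val) ?_ Subtype.val_injective.injOn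
  refine (((fin_abs p.1 r).prod (fin_abs x.1.2 ρ)).union
    ((fin_abs x.1.1 ρ).prod (fin_abs p.2 r))).subset ?_
  rintro _ ⟨q, hq, rfl⟩
  rcases sphere_cases q.2 with a | a <;> rcases sphere_cases (p := x.1) (q := q.1) hq with b | b
  · exact absurd (Or.inl ⟨_, a, b⟩) h2
  · exact Or.inl ⟨a, b⟩
  · exact Or.inr ⟨b, a⟩
  · exact absurd (Or.inr ⟨_, a, b⟩) h2

lemma ind_plane {X : Set (ℝ × ℝ)} (x : X) (W : Set X) (hW : W ∈ 𝓝 x) :
    ∃ U, IsOpen U ∧ x ∈ U ∧ U ⊆ W ∧ HasSmallInductiveDimensionLT (frontier U) 2 := by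
  obtain ⟨ε, hε, h⟩ := Metric.mem_nhds_iff.1 hW
  refine ⟨ball x ε, isOpen_ball, mem_ball_self hε, h, ind_subset frontier_ball_subset_sphere ?_⟩
  refine ind_mono (f := fun y : sphere x ε => (⟨y.1.1, y.2⟩ : sphere x.1 ε)) ?_ (ind_sphere _ _)
  exact IsInducing.subtypeVal.of_comp_iff.1
    ((IsInducing.subtypeVal (t := X)).comp (IsInducing.subtypeVal (t := sphere x ε)))

open unitInterval in
/-- A covering lemma for the square. -/
lemma square {P Q N M : Set (I × I)} (hP : IsOpen P) (hQ : IsOpen Q) (hN : IsOpen N)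
    (hM : IsOpen M) (hPQ : Disjoint P Q) (hNM : Disjoint N M)
    (hu : ∀ p, p ∈ P ∨ p ∈ Q ∨ p ∈ N ∨ p ∈ M) (hl : ∀ v, (0, v) ∈ P) (hr : ∀ v, (1, v) ∈ Q)
    (hb : ∀ u, (u, 0) ∉ M) (ht : ∀ u, (u, 1) ∉ N) : False := by
  classical
  obtain ⟨δ, hδ, H⟩ := lebesgue_number_lemma_of_metric_sUnion (s := (univ : Set (I × I)))
    (c := {P, Q, N, M}) isCompact_univ (by rintro _ (rfl | rfl | rfl | rfl) <;> assumption)
    (fun p _ => by simpa using hu p)
  obtain ⟨n, hn⟩ := exists_nat_one_div_lt hδ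
  let g : ℕ → I := fun i => projIcc 0 1 zero_le_one (i / (n + 1))
  have g0 : g 0 = 0 := by simp [g]
  have g1 : g (n + 1) = 1 := by
    have : (n : ℝ) + 1 ≠ 0 := by positivity
    simp [g, div_self this]
  have gd : ∀ i, dist (g (i + 1)) (g i) < δ := fun i => by
    refine ((LipschitzWith.projIcc zero_le_one).dist_le_mul _ _).trans_lt ?_
    rw [Real.dist_eq, ← sub_div]
    push_cast
    rw [add_sub_cancel_left, one_mul, abs_of_pos (by positivity)]
    exact hn
  have cell : ∀ i j, ∃ t ∈ ({P, Q, N, M} : Set (Set (I × I))), (g i, g j) ∈ t ∧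
      (g (i + 1), g j) ∈ t ∧ (g i, g (j + 1)) ∈ t ∧ (g (i + 1), g (j + 1)) ∈ t := fun i j => by
    obtain ⟨t, h1, h2⟩ := H (g i, g j) trivial
    exact ⟨t, h1, h2 (mem_ball_self hδ), h2 (by simp [Prod.dist_eq, gd]),
      h2 (by simp [Prod.dist_eq, gd]), h2 (by simp [Prod.dist_eq, gd])⟩
  let s : ℕ → ℕ → ZMod 2 := fun i j => if (g i, g j) ∈ P then 1 else 0
  let ν : ℕ → ℕ → ZMod 2 := fun i j => if (g i, g j) ∈ N then 1 else 0
  have q := fun p (h : p ∈ Q) => disjoint_right.1 hPQ h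
  have m := fun p (h : p ∈ M) => disjoint_right.1 hNM h
  have two : (1 + 1 : ZMod 2) = 0 := rfl
  have key := grid s ν (n + 1) (n + 1) (fun i _ j _ => by
      obtain ⟨t, h, b0, b1, b2, b3⟩ := cell i j
      rcases h with rfl | rfl | rfl | rfl
      · left; simp [s, b0, b1, b2, b3]
      · left; simp [s, q _ b0, q _ b1, q _ b2, q _ b3]
      · right; simp [ν, b0, b1, b2]
      · right; simp [ν, m _ b0, m _ b1, m _ b2])
    (fun j _ => by simp [s, g0, hl, two]) (fun j _ => by simp [s, g1, q _ (hr _)])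
  rw [Finset.sum_eq_zero fun i _ => by simp [ν, g1, ht],
    Finset.sum_congr rfl (g := fun i => s (i + 1) 0 - s i 0) fun i _ => ?_,
    Finset.sum_range_sub fun i => s i 0] at key
  · simp [s, g0, g1, hl, q _ (hr _)] at key
  · obtain ⟨t, h, b0, b1, -⟩ := cell i 0
    rcases h with rfl | rfl | rfl | rfl
    · simp [s, b0, b1, two]
    · simp [s, q _ b0, q _ b1]
    · have : ∀ a b : ZMod 2, a + b = b - a := by decide
      simp [ν, b0, this]
    · exact absurd b0 (g0 ▸ hb _)

open unitInterval in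
/-- A zero-dimensional frontier cannot cut a square. -/
lemma not_ind_one {X : Type} [MetricSpace X] [CompactSpace X] {U : Set X} (hU : IsOpen U)
    {φ : I × I → X} (hφ : Continuous φ) (hl : ∀ v, φ (0, v) ∈ U) (hr : ∀ v, φ (1, v) ∉ closure U)
    (hd : ∀ u u', φ (u, 0) ≠ φ (u', 1)) : ¬ HasSmallInductiveDimensionLT (frontier U) 1 := by
  intro h
  rw [hasSmallInductiveDimensionLT_one_iff] at h
  have hB : IsClosed (range fun u => φ (u, 0)) := (isCompact_range (by fun_prop)).isClosed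
  have hT : IsClosed (range fun u => φ (u, 1)) := (isCompact_range (by fun_prop)).isClosed
  have : CompactSpace (frontier U) := isCompact_iff_compactSpace.1 isClosed_frontier.isCompact
  obtain ⟨S, hS, h1, h2⟩ : ∃ S : Set (frontier U), IsClopen S ∧
      Subtype.val ⁻¹' range (fun u => φ (u, 0)) ⊆ S ∧
      S ⊆ (Subtype.val ⁻¹' range (fun u => φ (u, 1)))ᶜ := by
    refine (hB.preimage continuous_subtype_val).isCompact.induction_on
      ⟨∅, isClopen_empty, subset_rfl, empty_subset _⟩ ?_ ?_ fun x hx => ?_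
    · rintro s t h1 ⟨S, h2, h3, h4⟩
      exact ⟨S, h2, h1.trans h3, h4⟩
    · rintro s t ⟨S, h1, h2, h3⟩ ⟨S', h4, h5, h6⟩
      exact ⟨S ∪ S', h1.union h4, union_subset_union h2 h5, union_subset h3 h6⟩
    · obtain ⟨S, h1, h2, h3⟩ := h.exists_subset_of_mem_open (a := x)
        (u := (Subtype.val ⁻¹' range (fun u => φ (u, 1)))ᶜ)
        (by
          obtain ⟨u, hu⟩ := hx
          rintro ⟨u', hu'⟩
          exact hd u u' (hu.trans hu'.symm)) (hT.preimage continuous_subtype_val).isOpen_compl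
      exact ⟨S, mem_nhdsWithin_of_mem_nhds (h1.2.mem_nhds h2), S, h1, subset_rfl, h3⟩
  obtain ⟨N, M, hN, hM, h3, h4, h5⟩ := normal_separation
    (isClosed_frontier.isClosedMap_subtype_val _ hS.1)
    (isClosed_frontier.isClosedMap_subtype_val _ hS.compl.1)
    ((disjoint_image_iff Subtype.val_injective).2 disjoint_compl_right)
  refine square (hU.preimage hφ) (isClosed_closure.isOpen_compl.preimage hφ)
    ((hN.sdiff hT).preimage hφ) ((hM.sdiff hB).preimage hφ)
    ((disjoint_compl_right.mono_left subset_closure).preimage φ)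
    ((h5.mono sdiff_subset sdiff_subset).preimage φ) (fun p => ?_) hl hr
    (fun u h => h.2 ⟨u, rfl⟩) fun u h => h.2 ⟨u, rfl⟩
  by_cases a : φ p ∈ U
  · exact Or.inl a
  by_cases b : φ p ∈ closure U
  · have c : φ p ∈ frontier U := hU.frontier_eq ▸ ⟨b, a⟩
    by_cases d : (⟨φ p, c⟩ : frontier U) ∈ S
    · exact Or.inr (Or.inr (Or.inl ⟨h3 ⟨_, d, rfl⟩, h2 d⟩))
    · exact Or.inr (Or.inr (Or.inr ⟨h4 ⟨_, d, rfl⟩, fun e => d (h1 e)⟩))
  · exact Or.inr (Or.inl b)

end Pool.Agent.H30
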