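import Mathlib

set_option autoImplicit false

namespace Pool.Agent.H30.Kl

open Set Function
open scoped Classical

/-- Ultrametric spaces. -/
structure UMet where
  X : Type
  d : X → X → ℝ
  zero : ∀ x y, d x y = 0 ↔ x = y
  symm : ∀ x y, d x y = d y x
  ultra : ∀ x y z, d x y ≤ max (d x z) (d z y)

/-- A max-min measure of finite support `⋁ αᵢ ∧ δ(xᵢ)`, given by its coefficient function `α`
(value `-∞` off the finite support, maximum `+∞`). -/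
@[ext] structure J (A : UMet) where
  α : A.X → EReal
  fin : {x | α x ≠ ⊥}.Finite
  top : ∃ x, α x = ⊤

variable {A B C : UMet}

/-- The functional `μ(φ) = max min(αᵢ, φ(xᵢ))`. -/
noncomputable def ev (μ : J A) (φ : A.X → ℝ) : EReal := ⨆ x, min (μ.α x) (φ x)

/-- The ultrametric on max-min measures. -/
noncomputable def dhat (μ ν : J A) : ℝ :=
  sInf {r | 0 < r ∧ ∀ φ : A.X → ℝ, (∀ x y, A.d x y < r → φ y = φ x) → ev μ φ = ev ν φ}

/-- Morphisms of `UMET`: nonexpanding maps. -/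
def UHom (A B : UMet) : Type := {f : A.X → B.X // ∀ x y, B.d (f x) (f y) ≤ A.d x y}

/-- Morphisms of the Kleisli category: nonexpanding maps `A → J B`. -/
def KHom (A B : UMet) : Type := {f : A.X → J B // ∀ x y, dhat (f x) (f y) ≤ A.d x y}

lemma d0 (x y : A.X) : 0 ≤ A.d x y := by
  have := A.ultra x x y
  rwa [(A.zero x x).2 rfl, A.symm y x, max_self] at this

def Le (r : ℝ) (μ ν : J A) : Prop := ∀ y c, c < μ.α y → ∃ y', A.d y y' < r ∧ c < ν.α y'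

lemma ev_le {r : ℝ} {μ ν : J A} (h : Le r μ ν) (φ : A.X → ℝ) (hφ : ∀ x y, A.d x y < r → φ y = φ x) :
    ev μ φ ≤ ev ν φ := iSup_le fun x => le_of_forall_lt fun c hc => by
  obtain ⟨y, e1, e2⟩ := h x c (lt_min_iff.1 hc).1
  exact lt_iSup_iff.2 ⟨y, lt_min e2 (hφ x y e1 ▸ (lt_min_iff.1 hc).2)⟩

lemma le_ev {r : ℝ} (hr : 0 < r) {μ ν : J A}
    (h : ∀ φ : A.X → ℝ, (∀ x y, A.d x y < r → φ y = φ x) → ev μ φ = ev ν φ) : Le r μ ν := fun y c hc => by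
  obtain ⟨a, a1, a2⟩ := EReal.lt_iff_exists_real_btwn.1 hc
  obtain ⟨b, b1, b2⟩ := EReal.lt_iff_exists_real_btwn.1 a2
  have e : (a : EReal) < ev ν fun x => if A.d y x < r then b else a := by
    rw [← h _ fun x z e => if_congr ⟨fun e1 => (A.ultra y x z).trans_lt (max_lt e1 (A.symm x z ▸ e)),
      fun e1 => (A.ultra y z x).trans_lt (max_lt e1 e)⟩ rfl rfl]
    exact lt_iSup_iff.2 ⟨y, lt_min a2 (by simpa [(A.zero y y).2 rfl, hr] using b1)⟩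
  obtain ⟨x, hx⟩ := lt_iSup_iff.1 e
  exact ⟨x, by_contra fun e1 => by simp [e1] at hx, a1.trans (lt_min_iff.1 hx).1⟩

lemma Le.mono {r s : ℝ} {μ ν : J A} (h : Le r μ ν) (e : r ≤ s) : Le s μ ν := fun y c hc =>
  (h y c hc).imp fun _ h => ⟨h.1.trans_le e, h.2⟩

lemma le_ex (μ ν : J A) : ∃ r, Le r μ ν := by
  obtain ⟨y, hy⟩ := ν.top
  obtain ⟨r, hr⟩ := (μ.fin.image (A.d · y)).bddAbove
  exact ⟨r + 1, fun x c hc => ⟨y, (hr ⟨x, hc.ne_bot, rfl⟩).trans_lt (lt_add_one r), hy ▸ hc.trans_le le_top⟩⟩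

lemma dhat_le {μ ν : J A} {e : ℝ} (e0 : 0 ≤ e) : dhat μ ν ≤ e ↔ ∀ r, e < r → Le r μ ν ∧ Le r ν μ := by
  refine ⟨fun h r hr => ?_, fun h => le_of_forall_gt_imp_ge_of_dense fun r hr => csInf_le ⟨0, fun _ h => h.1.le⟩
    ⟨e0.trans_lt hr, fun φ hφ => (ev_le (h r hr).1 φ hφ).antisymm (ev_le (h r hr).2 φ hφ)⟩⟩
  obtain ⟨a, ha⟩ := le_ex μ ν
  obtain ⟨b, hb⟩ := le_ex ν μ
  obtain ⟨s, ⟨s1, s2⟩, s3⟩ := (exists_lt_of_csInf_lt · (h.trans_lt hr)) ⟨max 1 (max a b), by positivity, fun φ hφ =>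
    (ev_le (ha.mono (by simp)) φ hφ).antisymm (ev_le (hb.mono (by simp)) φ hφ)⟩
  exact ⟨(le_ev s1 s2).mono s3.le, (le_ev s1 fun φ hφ => (s2 φ hφ).symm).mono s3.le⟩

lemma ne_iff {f : A.X → J B} : (∀ x y, dhat (f x) (f y) ≤ A.d x y) ↔ ∀ x y r, A.d x y < r → Le r (f x) (f y) :=
  ⟨fun h x y r hr => ((dhat_le (d0 x y)).1 (h x y) r hr).1, fun h x y => (dhat_le (d0 x y)).2 fun r hr =>
    ⟨h x y r hr, h y x r (A.symm x y ▸ hr)⟩⟩

/-- The Dirac measure. -/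
noncomputable def dirac (x : A.X) : J A :=
  ⟨fun y => if y = x then ⊤ else ⊥, (finite_singleton x).subset fun y h => by_contra fun e => h (if_neg e),
    x, if_pos rfl⟩

/-- The functor `Φ` on morphisms: `f ↦ δ ∘ f`. -/
noncomputable def Phi (f : UHom A B) : KHom A B :=
  ⟨fun x => dirac (f.1 x), ne_iff.2 fun x y r hr z c hc => ⟨f.1 y, by
    obtain rfl : z = f.1 x := by_contra fun e => by simp [dirac, e] at hc
    exact (f.2 x y).trans_lt hr, (hc.trans_le le_top).trans_eq (if_pos rfl).symm⟩⟩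

/-- Kleisli composition `g * f = ξ ∘ J(g) ∘ f`: coefficients `⋁_y min(f(x)(y), g(y)(z))`. -/
noncomputable def comp (g : KHom B C) (f : KHom A B) : KHom A C :=
  ⟨fun x => ⟨fun z => ⨆ y, min ((f.1 x).α y) ((g.1 y).α z), ((f.1 x).fin.biUnion fun y _ => (g.1 y).fin).subset
    fun z hz => by
      obtain ⟨y, hy⟩ := lt_iSup_iff.1 (bot_lt_iff_ne_bot.2 hz)
      exact mem_biUnion (x := y) (lt_min_iff.1 hy).1.ne' (lt_min_iff.1 hy).2.ne', by
      obtain ⟨y, hy⟩ := (f.1 x).top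
      obtain ⟨z, hz⟩ := (g.1 y).top
      exact ⟨z, top_unique (le_iSup_of_le y (by simp [hy, hz]))⟩⟩,
   ne_iff.2 fun x x' r hr z c hc => by
    obtain ⟨y, hy⟩ := lt_iSup_iff.1 hc
    obtain ⟨y', e1, e2⟩ := ne_iff.1 f.2 x x' r hr y c (lt_min_iff.1 hy).1
    obtain ⟨z', e3, e4⟩ := ne_iff.1 g.2 y y' r e1 z c (lt_min_iff.1 hy).2
    exact ⟨z', e3, lt_iSup_iff.2 ⟨y', lt_min e2 e4⟩⟩⟩

/-- The orbit relation of the symmetric group on `Xⁿ⁺¹`. -/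
def orb (n : ℕ) (X : Type) : Setoid (Fin (n + 1) → X) :=
  ⟨fun x y => ∃ σ : Equiv.Perm (Fin (n + 1)), x = y ∘ σ, fun _ => ⟨1, rfl⟩,
    fun ⟨σ, e⟩ => ⟨σ⁻¹, by rw [e]; ext; simp⟩, fun ⟨σ, e⟩ ⟨τ, e'⟩ => ⟨τ * σ, by rw [e, e']; rfl⟩⟩

variable {n : ℕ}

/-- `min_σ max_i d(xᵢ, y_σ(i))`. -/
noncomputable def dP (x y : Fin (n + 1) → A.X) : ℝ :=
  Finset.univ.inf' Finset.univ_nonempty fun σ : Equiv.Perm (Fin (n + 1)) =>
    Finset.univ.sup' Finset.univ_nonempty fun i => A.d (x i) (y (σ i))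

lemma dP_le {x y : Fin (n + 1) → A.X} {r : ℝ} :
    dP x y ≤ r ↔ ∃ σ : Equiv.Perm (Fin (n + 1)), ∀ i, A.d (x i) (y (σ i)) ≤ r := by
  simp [dP, Finset.inf'_le_iff]

lemma dP_perm (x y : Fin (n + 1) → A.X) (a b : Equiv.Perm (Fin (n + 1))) : dP (x ∘ a) (y ∘ b) = dP x y :=
  eq_of_forall_ge_iff fun r => by
    rw [dP_le, dP_le]
    exact ⟨fun ⟨σ, h⟩ => ⟨b * σ * a⁻¹, fun i => by simpa using h (a⁻¹ i)⟩,
      fun ⟨σ, h⟩ => ⟨b⁻¹ * σ * a, fun i => by simpa using h (a i)⟩⟩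

/-- The symmetric power `SPⁿ⁺¹(A)` with its ultrametric. -/
noncomputable def SP (n : ℕ) (A : UMet) : UMet where
  X := Quotient (orb n A.X)
  d := Quotient.lift₂ dP fun _ _ x y ⟨a, e⟩ ⟨b, e'⟩ => by rw [e, e', dP_perm]
  zero := fun s t => Quotient.inductionOn₂ s t fun x y => ⟨fun h => by
      obtain ⟨σ, e⟩ := dP_le.1 h.le
      exact Quotient.sound ⟨σ, funext fun i => (A.zero _ _).1 ((e i).antisymm (d0 _ _))⟩, fun h => by
      rw [← h]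
      obtain ⟨σ, e⟩ := (dP_le (x := x) (y := x)).1 le_rfl
      exact (dP_le.2 ⟨1, fun i => ((A.zero _ _).2 rfl).le⟩).antisymm ((d0 _ _).trans (e 0))⟩
  symm := fun s t => Quotient.inductionOn₂ s t fun x y => by
    have e : ∀ x y : Fin (n + 1) → A.X, dP x y ≤ dP y x := fun x y => by
      obtain ⟨σ, e⟩ := (dP_le (x := y) (y := x)).1 le_rfl
      exact dP_le.2 ⟨σ⁻¹, fun i => by simpa [A.symm] using e (σ⁻¹ i)⟩
    exact (e x y).antisymm (e y x)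
  ultra := fun s t u => Quotient.inductionOn₃ s t u fun x y z => by
    obtain ⟨σ, e⟩ := (dP_le (x := x) (y := z)).1 le_rfl
    obtain ⟨τ, e'⟩ := (dP_le (x := z) (y := y)).1 le_rfl
    exact dP_le.2 ⟨τ * σ, fun i => (A.ultra _ _ _).trans (max_le_max (e i) (e' (σ i)))⟩

/-- `SPⁿ⁺¹` on maps. -/
noncomputable def SPmap (n : ℕ) (f : UHom A B) : UHom (SP n A) (SP n B) :=
  ⟨Quotient.map (f.1 ∘ ·) fun _ _ ⟨σ, e⟩ => ⟨σ, by rw [e]; rfl⟩, fun s t => Quotient.inductionOn₂ s t fun x y => by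
    obtain ⟨σ, e⟩ := (dP_le (x := x) (y := y)).1 le_rfl
    exact dP_le.2 ⟨σ, fun i => (f.2 _ _).trans (e i)⟩⟩

/-- The identity map. -/
def uid (A : UMet) : UHom A A := ⟨id, fun _ _ => le_rfl⟩

/-- An endofunctor of the Kleisli category extending `SPⁿ⁺¹`. -/
structure Extn (n : ℕ) where
  map : ∀ {A B : UMet}, KHom A B → KHom (SP n A) (SP n B)
  map_id : ∀ A : UMet, map (Phi (uid A)) = Phi (uid (SP n A))
  map_comp : ∀ {A B C : UMet} (g : KHom B C) (f : KHom A B), map (comp g f) = comp (map g) (map f)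
  map_Phi : ∀ {A B : UMet} (f : UHom A B), map (Phi f) = Phi (SPmap n f)

end Pool.Agent.H30.Kl
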