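import Mathlib

set_option autoImplicit false

namespace Pool.Agent.H30.LT

open Set FreeGroup

variable {X Γ : Type} [LinearOrder X] [WellFoundedLT X] [TopologicalSpace X] [Group Γ]

def pr (l : (X × ℕ) × Bool) : X × Bool := (l.1.1, l.2)

theorem sharp (p : X → Γ) (o : X) (ho : ∀ x, o ≤ x) (a : X → X ≃ₜ X) (ha : ∀ x, a x o = x)
    (T : X × ℕ → Γ) (hT : ∀ x z, z ≠ o → ∃ n, p (a x z) = T (x, n) * p z)
    (fresh : ∀ W : List ((X × ℕ) × Bool), IsReduced (W.map pr) → ∀ l ∈ W, ∀ u ≤ l.1.1,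
      ∀ v ≤ l.1.1, lift T (mk W) ≠ p v * (p u)⁻¹) :
    ∃ S : Set X, Function.Bijective fun g : FreeGroup S => lift (fun s : S => a s) g o := by
  classical
  obtain ⟨S, hS⟩ : ∃ S : X → Prop, ∀ x, S x ↔
      ¬ ∃ g ∈ Subgroup.closure (a '' {y | y < x ∧ S y}), g o = x := by
    refine ⟨(wellFounded_lt (α := X)).fix fun x ih =>
      ¬ ∃ g ∈ Subgroup.closure (a '' {y | ∃ h : y < x, ih y h}), g o = x, fun x => ?_⟩
    rw [WellFounded.fix_eq]; simp only [exists_prop]
  have So : ¬ S o := fun h => (hS o).1 h ⟨1, one_mem _, rfl⟩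
  have tr : ∀ M u, u < M → ∃ g ∈ Subgroup.closure (a '' {y | y < M ∧ S y}), g o = u := by
    intro M u h
    by_cases k : S u
    · exact ⟨a u, Subgroup.subset_closure ⟨u, ⟨h, k⟩, rfl⟩, ha u⟩
    · obtain ⟨g, h1, h2⟩ := not_not.1 (mt (hS u).2 k)
      exact ⟨g, Subgroup.closure_mono (image_mono fun y hy => And.intro (hy.1.trans h) hy.2) h1, h2⟩
  have mem : ∀ M (L : List (X × Bool)), (∀ l ∈ L, l.1 < M ∧ S l.1) →
      lift a (mk L) ∈ Subgroup.closure (a '' {y | y < M ∧ S y}) := by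
    intro M L h
    rw [lift_mk]
    refine Subgroup.list_prod_mem _ fun g hg => ?_
    obtain ⟨l, hl, rfl⟩ := List.mem_map.1 hg
    have := Subgroup.subset_closure (k := a '' {y | y < M ∧ S y}) ⟨_, h l hl, rfl⟩
    cases l.2
    · exact inv_mem this
    · exact this
  have fin : ∀ u v (W : List ((X × ℕ) × Bool)), IsReduced (W.map pr) → W ≠ [] →
      (∀ l ∈ W, S l.1.1) → (u = o ∨ S u) → (v = o ∨ S v) → lift a (mk (W.map pr)) u = v →
      p v = lift T (mk W) * p u → False := by
    intro u v W h1 h2 h3 hu hv h4 h5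
    obtain ⟨l, hl, hm⟩ := Set.exists_max_image {l | l ∈ W} (fun l => l.1.1) W.finite_toSet
      (List.exists_mem_of_ne_nil W h2)
    by_cases c : u ≤ l.1.1 ∧ v ≤ l.1.1
    · exact fresh W h1 l hl u c.1 v c.2 (by rw [h5]; simp)
    have lt : ∀ M, l.1.1 < M → lift a (mk (W.map pr)) ∈
        Subgroup.closure (a '' {y | y < M ∧ S y}) := fun M hM => mem M _ fun k hk => by
      obtain ⟨j, hj, rfl⟩ := List.mem_map.1 hk
      exact ⟨(hm j hj).trans_lt hM, h3 j hj⟩
    rcases lt_trichotomy u v with e | e | e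
    · obtain ⟨g, g1, g2⟩ := tr v u e
      refine (hS v).1 (hv.resolve_left ((ho u).trans_lt e).ne') ⟨_ * g, mul_mem (lt v ?_) g1, ?_⟩
      · exact not_le.1 fun k => c ⟨e.le.trans k, k⟩
      · rw [← h4, ← g2]; rfl
    · exact fresh W h1 l hl _ le_rfl _ le_rfl (by rw [e] at h5; simpa using h5.symm)
    · obtain ⟨g, g1, g2⟩ := tr u v e
      refine (hS u).1 (hu.resolve_left ((ho v).trans_lt e).ne')
        ⟨_ * g, mul_mem (inv_mem (lt u ?_)) g1, ?_⟩
      · exact not_le.1 fun k => c ⟨k, e.le.trans k⟩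
      · show (lift a (mk (W.map pr))).symm (g o) = u
        rw [g2, ← h4]; simp
  have cons : ∀ (l : X × Bool) L z, lift a (mk (l :: L)) z =
      (cond l.2 (a l.1) (a l.1)⁻¹) (lift a (mk L) z) := fun l L z => rfl
  have app : ∀ L L' z, lift a (mk (L ++ L')) z = lift a (mk L) (lift a (mk L') z) :=
    fun L L' z => by rw [← mul_mk, _root_.map_mul]; rfl
  have reg : ∀ (l : X × Bool) z, (l.2 = true → z ≠ o) → (cond l.2 (a l.1) (a l.1)⁻¹) z ≠ o ∨ l.2 →
      ∃ n, ∀ W, p ((cond l.2 (a l.1) (a l.1)⁻¹) z) * (p z)⁻¹ * lift T (mk W) =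
        lift T (mk (((l.1, n), l.2) :: W)) := by
    rintro ⟨x, b⟩ z h1 h2
    cases b
    · obtain ⟨n, hn⟩ := hT x _ (h2.resolve_right (by simp))
      refine ⟨n, fun W => ?_⟩
      have : a x ((a x)⁻¹ z) = z := (a x).apply_symm_apply z
      simp only [cond_false, this] at hn
      simp [lift_mk, hn]
    · obtain ⟨n, hn⟩ := hT x z (h1 rfl)
      exact ⟨n, fun W => by simp [lift_mk, hn]⟩
  have inv : ∀ L : List (X × Bool), (∀ L', L' <:+ L → L' ≠ [] → lift a (mk L') o ≠ o) →
      ∃ u W L', (u = o ∧ L' = [] ∨ L' = [(u, true)]) ∧ W.map pr ++ L' = L ∧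
        p (lift a (mk L) o) = lift T (mk W) * p u := by
    intro L
    induction L with
    | nil => exact fun _ => ⟨o, [], [], Or.inl ⟨rfl, rfl⟩, rfl, by simp [lift_mk]⟩
    | cons l L ih =>
      intro h
      by_cases c : L = [] ∧ l.2 = true
      · refine ⟨l.1, [], _, Or.inr rfl, ?_, ?_⟩
        · rw [c.1, ← c.2]; rfl
        · rw [cons, c.1, c.2]; simp [lift_mk, ha]
      obtain ⟨u, W, L', h1, h2, h3⟩ := ih fun L' k => h L' (k.trans (List.suffix_cons _ _))
      obtain ⟨n, hn⟩ := reg l (lift a (mk L) o)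
        (fun k => h L (List.suffix_cons _ _) fun e => c ⟨e, k⟩)
        (Or.inl (h _ List.suffix_rfl (by simp)))
      exact ⟨u, ((l.1, n), l.2) :: W, L', h1, congrArg (l :: ·) h2, by rw [← hn, h3, cons]; group⟩
  have main : ∀ N (L : List (X × Bool)), L.length < N → IsReduced L → (∀ l ∈ L, S l.1) → L ≠ [] →
      lift a (mk L) o ≠ o := by
    intro N
    induction N with
    | zero => simp
    | succ N ih =>
      rintro (_ | ⟨⟨x, b⟩, L⟩) h1 h2 h3 h4 h5
      · exact h4 rfl
      have ih' : ∀ L', L' <:+ L → L' ≠ [] → lift a (mk L') o ≠ o := fun L' k => by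
        refine ih L' (k.length_le.trans_lt (by simpa using h1)) ?_ fun l hl =>
          h3 l (List.mem_cons_of_mem _ (k.subset hl))
        obtain ⟨t, rfl⟩ := k
        exact List.IsChain.right_of_append (l₁ := _ :: t) h2
      obtain ⟨u, W, L', k1, k2, k3⟩ := inv L ih'
      have hx : S x := h3 _ List.mem_cons_self
      have hu : lift a (mk L') o = u := by
        rcases k1 with ⟨rfl, rfl⟩ | rfl
        · rfl
        · exact ha u
      have hu' : u = o ∨ S u := k1.imp And.left fun e => h3 (u, true) (by simp [← k2, e])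
      have hW : ∀ l ∈ W, S l.1.1 := fun l hl => h3 (pr l) (by
        rw [← k2]; exact List.mem_cons_of_mem _ (List.mem_append_left _ (List.mem_map_of_mem hl)))
      have hL : lift a (mk (W.map pr)) u = lift a (mk L) o := by rw [← k2, app, hu]
      subst k2
      cases b
      · have e : lift a (mk (W.map pr ++ L')) o = x := by
          exact ((Homeomorph.symm_apply_eq _).1 h5).trans (ha x)
        refine fin u x W (List.IsChain.left_of_append (List.IsChain.of_cons h2)) ?_ hW hu'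
          (Or.inr hx) (hL.trans e) (e ▸ k3)
        rintro rfl
        have e' : u = x := hL.trans e
        rcases k1 with ⟨rfl, rfl⟩ | rfl
        · exact So (e' ▸ hx)
        · simp [e', FreeGroup.IsReduced] at h2
      · have ne : lift a (mk (W.map pr ++ L')) o ≠ o := ih' _ List.suffix_rfl fun e => by
          rw [e] at h5
          exact So ((show x = o from (ha x).symm.trans h5) ▸ hx)
        obtain ⟨n, hn⟩ := reg (x, true) _ (fun _ => ne) (Or.inr rfl)
        refine fin u o (((x, n), true) :: W) (List.IsChain.left_of_append (l₂ := L') h2) (by simp)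
          (List.forall_mem_cons.2 ⟨hx, hW⟩) hu' (Or.inl rfl) ?_ ?_
        · rw [← h5, cons, ← hL]; rfl
        · rw [← hn, k3, ← cons, h5]; group
  refine ⟨{x | S x}, fun g g' e => ?_, fun x => ?_⟩
  · by_contra ne
    have e1 : lift (fun s : {x | S x} => a s) (mk (g'⁻¹ * g).toWord) o = o := by
      rw [mk_toWord, _root_.map_mul, _root_.map_inv]
      exact (Homeomorph.symm_apply_eq _).2 e
    refine main _ ((g'⁻¹ * g).toWord.map fun l => (l.1.1, l.2)) (Nat.lt_succ_self _) ?_ ?_ ?_ ?_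
    · exact (List.isChain_map _).2 (isReduced_toWord.imp fun _ _ h k => h (Subtype.ext k))
    · intro l hl
      obtain ⟨j, _, rfl⟩ := List.mem_map.1 hl
      exact j.1.2
    · simpa [inv_mul_eq_one] using Ne.symm ne
    · refine Eq.trans ?_ e1
      rw [lift_mk, lift_mk, List.map_map]; rfl
  · by_cases k : S x
    · exact ⟨of ⟨x, k⟩, by simp [ha]⟩
    obtain ⟨g, h1, h2⟩ := not_not.1 (mt (hS x).2 k)
    obtain ⟨w, rfl⟩ : g ∈ (lift fun s : {x | S x} => a s).range := by
      refine (Subgroup.closure_le _).2 ?_ h1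
      rintro _ ⟨y, hy, rfl⟩
      exact ⟨of ⟨y, hy.2⟩, by simp⟩
    exact ⟨w, h2⟩

end Pool.Agent.H30.LT
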