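import Mathlib

set_option autoImplicit false

namespace Pool.Agent.H30.LT

open Set Filter Topology

structure Nest {X : Type} [TopologicalSpace X] (D : ℕ → Set X) (x : X) : Prop where
  cl : ∀ n, IsClopen (D n)
  anti : Antitone D
  zero : D 0 = univ
  inter : ∀ z, (∀ n, z ∈ D n) ↔ z = x

theorem Nest.lev {X : Type} [TopologicalSpace X] {D : ℕ → Set X} {x : X} (h : Nest D x) {z : X}
    (hz : z ≠ x) : ∃ n, z ∈ D n \ D (n + 1) := by
  by_contra! k
  refine hz ((h.inter z).1 fun n => ?_)
  induction n with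
  | zero => simp [h.zero]
  | succ n ih => exact not_not.1 fun c => k n ⟨ih, c⟩

theorem Nest.uniq {X : Type} [TopologicalSpace X] {D : ℕ → Set X} {x : X} (h : Nest D x) {z : X}
    {m n : ℕ} (hm : z ∈ D m \ D (m + 1)) (hn : z ∈ D n \ D (n + 1)) : m = n :=
  le_antisymm (not_lt.1 fun k => hn.2 (h.anti k hm.1)) (not_lt.1 fun k => hm.2 (h.anti k hn.1))

theorem glue {X : Type} [TopologicalSpace X] [CompactSpace X] [T2Space X] {D E : ℕ → Set X}
    {x y : X} (hD : Nest D x) (hE : Nest E y) (f : ℕ → X → X)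
    (hc : ∀ n, ContinuousOn (f n) (D n \ D (n + 1)))
    (hb : ∀ n, BijOn (f n) (D n \ D (n + 1)) (E n \ E (n + 1))) :
    ∃ e : X ≃ₜ X, e x = y ∧ ∀ z ≠ x, ∃ n, e z = f n z := by
  classical
  let g : X → X := fun z => if h : z = x then y else f (hD.lev h).choose z
  have gx : g x = y := dif_pos rfl
  have nx : ∀ n, x ∉ D n \ D (n + 1) := fun n h => h.2 ((hD.inter x).2 rfl _)
  have ny : ∀ n, y ∉ E n \ E (n + 1) := fun n h => h.2 ((hE.inter y).2 rfl _)
  have gn : ∀ n, ∀ z ∈ D n \ D (n + 1), g z = f n z := fun n z hz => by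
    have h : z ≠ x := fun e => nx n (e ▸ hz)
    rw [← hD.uniq (hD.lev h).choose_spec hz]; exact dif_neg h
  have cont : Continuous g := continuous_iff_continuousAt.2 fun z => by
    by_cases h : z = x
    · intro V hV
      rw [h, gx] at hV
      obtain ⟨n, hn⟩ := exists_subset_nhds_of_compactSpace hE.anti.directed_ge
        (fun n => (hE.cl n).1) (U := V) fun w hw => (hE.inter w).1 (mem_iInter.1 hw) ▸ hV
      refine mem_map.2 <| mem_of_superset ((hD.cl n).2.mem_nhds ((hD.inter z).2 h n)) fun w hw => hn ?_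
      by_cases k : w = x
      · rw [k, gx]; exact (hE.inter y).2 rfl n
      obtain ⟨m, hm⟩ := hD.lev k
      rw [gn m w hm]
      exact hE.anti (not_lt.1 fun c => hm.2 (hD.anti c hw)) ((hb m).mapsTo hm).1
    obtain ⟨n, hn⟩ := hD.lev h
    have o := ((hD.cl n).diff (hD.cl (n + 1))).2.mem_nhds hn
    exact ((hc n).continuousAt o).congr (mem_of_superset o fun w hw => (gn n w hw).symm)
  have bij : Function.Bijective g := by
    refine ⟨fun z w e => ?_, fun w => ?_⟩
    · by_cases h : z = x <;> by_cases k : w = x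
      · rw [h, k]
      · obtain ⟨n, hn⟩ := hD.lev k
        rw [h, gx, gn n w hn] at e
        exact (ny n (e ▸ (hb n).mapsTo hn)).elim
      · obtain ⟨n, hn⟩ := hD.lev h
        rw [k, gx, gn n z hn] at e
        exact (ny n (e ▸ (hb n).mapsTo hn)).elim
      obtain ⟨n, hn⟩ := hD.lev k
      obtain ⟨m, hm⟩ := hD.lev h
      rw [gn n w hn, gn m z hm] at e
      obtain rfl := hE.uniq (e ▸ (hb m).mapsTo hm) ((hb n).mapsTo hn)
      exact (hb m).injOn hm hn e
    by_cases k : w = y
    · exact ⟨x, gx.trans k.symm⟩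
    obtain ⟨n, hn⟩ := hE.lev k
    obtain ⟨z, h1, h2⟩ := (hb n).surjOn hn
    exact ⟨z, (gn n z h1).trans h2⟩
  exact ⟨Continuous.homeoOfEquivCompactToT2 (f := Equiv.ofBijective g bij) cont, gx,
    fun z hz => (hD.lev hz).imp fun n hn => gn n z hn⟩

abbrev H := ℕ → Bool

abbrev L := {p : H × (H → Bool) // ∀ h, p.2 h = true → p.1 = h}

lemma cl2 (h : H) (b : Bool) : IsClopen {p : H × (H → Bool) | p.2 h = b} :=
  (isClopen_discrete {b}).preimage (f := fun p : H × (H → Bool) => p.2 h) (by fun_prop)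

instance : CompactSpace L := isCompact_iff_compactSpace.1 (IsClosed.isCompact (by
  show IsClosed {p : H × (H → Bool) | ∀ h, p.2 h = true → p.1 = h}
  simp only [ofPred_forall (p := fun h (p : H × (H → Bool)) => p.2 h = true → p.1 = h)]
  exact isClosed_iInter fun h => isClosed_imp (cl2 h _).2 (isClosed_eq (by fun_prop) (by fun_prop))))

open Classical in
noncomputable def iso (h : H) : L := ⟨(h, fun k => decide (h = k)), by simp⟩

lemma L.ext' {p q : L} (h1 : p.1.1 = q.1.1) (h2 : p.1.2 q.1.1 = q.1.2 q.1.1) : p = q := by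
  refine Subtype.ext (Prod.ext h1 (funext fun k => Bool.eq_iff_iff.2 ⟨fun h => ?_, fun h => ?_⟩))
  · have := p.2 k h
    rw [h1] at this; rw [← this, ← h2, this, h]
  · have := q.2 k h
    rw [← this, h2, this, h]

lemma iso_clopen (h : H) : IsClopen {iso h} := by
  convert (cl2 h true).preimage (continuous_subtype_val (p := fun p : H × (H → Bool) =>
    ∀ h, p.2 h = true → p.1 = h))
  ext p
  exact ⟨fun e => by simp [show p = _ from e, iso], fun e => L.ext' (p.2 h e) (by simpa [iso] using e)⟩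

lemma iso_dense : Dense (range iso) := fun p => by
  classical
  by_cases c : p.1.2 p.1.1 = true
  · exact subset_closure ⟨p.1.1, L.ext' rfl (by simp [iso, c])⟩
  have t : Tendsto (fun n => Function.update p.1.1 n (!p.1.1 n)) atTop (𝓝 p.1.1) :=
    tendsto_pi_nhds.2 fun k => tendsto_const_nhds.congr' ((eventually_ne_atTop k).mono
      fun n hn => (Function.update_of_ne hn.symm _ _).symm)
  refine mem_closure_of_tendsto (f := fun n => iso (Function.update p.1.1 n (!p.1.1 n)))
    (b := atTop) (tendsto_subtype_rng.2 (Tendsto.prodMk_nhds t (tendsto_pi_nhds.2 fun k => ?_)))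
    (Eventually.of_forall fun n => mem_range_self _)
  have : p.1.2 k = false := by
    by_contra e
    have := p.2 k (by simpa using e)
    rw [this] at c; simp_all
  rw [this]
  refine tendsto_const_nhds.congr' ?_
  by_cases e : p.1.1 = k
  · refine Eventually.of_forall fun n => (decide_eq_false fun h => ?_).symm
    simpa [← e] using congrFun h n
  · exact (t.eventually_ne e).mono fun n hn => (decide_eq_false hn).symm

abbrev Y := ℕ → L

instance : Nonempty L := ⟨iso fun _ => true⟩

def R (A B : Set Y) : Prop := ∃ f : Y → Y, ContinuousOn f A ∧ BijOn f A B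

lemma R.trans {A B C : Set Y} (h : R A B) (k : R B C) : R A C :=
  let ⟨f, f1, f2⟩ := h; let ⟨g, g1, g2⟩ := k
  ⟨g ∘ f, g1.comp f1 f2.mapsTo, g2.comp f2⟩

lemma R.symm {A B : Set Y} (h : R A B) (hA : IsClosed A) : R B A := by
  classical
  obtain ⟨f, f1, f2⟩ := h
  haveI := isCompact_iff_compactSpace.1 hA.isCompact
  let e := Continuous.homeoOfEquivCompactToT2 (f := f2.equiv f)
    ((continuousOn_iff_continuous_restrict.1 f1).subtype_mk _)
  refine ⟨Function.invFunOn f A, continuousOn_iff_continuous_restrict.2 ?_, f2.invOn_invFunOn.symm.bijOn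
    f2.surjOn.mapsTo_invFunOn f2.mapsTo⟩
  convert continuous_subtype_val.comp e.symm.continuous
  ext1 b
  exact f2.injOn (f2.surjOn.mapsTo_invFunOn b.2) (e.symm b).2
    ((f2.invOn_invFunOn.2 b.2).trans (congrArg Subtype.val (e.apply_symm_apply b)).symm)

lemma R.union {A B A' B' : Set Y} (h : R A B) (k : R A' B') (hA : IsClosed A) (hA' : IsClosed A')
    (d : Disjoint A A') (d' : Disjoint B B') : R (A ∪ A') (B ∪ B') := by
  classical
  obtain ⟨f, f1, f2⟩ := h
  obtain ⟨g, g1, g2⟩ := k
  have e1 : EqOn (A.piecewise f g) f A := piecewise_eqOn _ _ _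
  have e2 : EqOn (A.piecewise f g) g A' := fun z hz =>
    piecewise_eq_of_notMem _ _ _ (disjoint_right.1 d hz)
  refine ⟨A.piecewise f g, (f1.congr e1).union_of_isClosed (g1.congr e2) hA hA',
    (f2.congr e1.symm).union (g2.congr e2.symm) ?_⟩
  rintro a (ha | ha) b (hb | hb) e
  · exact f2.injOn ha hb (by rwa [e1 ha, e1 hb] at e)
  · rw [e1 ha, e2 hb] at e
    exact (disjoint_left.1 d' (f2.mapsTo ha) (e ▸ g2.mapsTo hb)).elim
  · rw [e2 ha, e1 hb] at e
    exact (disjoint_left.1 d' (f2.mapsTo hb) (e ▸ g2.mapsTo ha)).elim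
  · exact g2.injOn ha hb (by rwa [e2 ha, e2 hb] at e)

def cs (i : L) (y : Y) : Y := fun k => Nat.casesOn k i y

def tl (m : ℕ) (y : Y) : Y := fun k => y (k + m)

lemma tl_cont (m : ℕ) : Continuous (tl m) := by unfold tl; fun_prop

lemma cs_cont (i : L) : Continuous (cs i) := continuous_pi fun k => by
  cases k
  · exact continuous_const
  · exact continuous_apply _

lemma cs_inj (i : L) : Function.Injective (cs i) := fun _ _ e => funext fun k => congrFun e (k + 1)

lemma cyl (s : ℕ → H) (n : ℕ) : IsClopen {y : Y | ∀ k < n, y k = iso (s k)} := by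
  simp only [ofPred_forall]
  exact (finite_lt_nat n).isClopen_biInter fun k _ => (iso_clopen _).preimage (continuous_apply k)

lemma swindle {U : Set Y} (hU : IsClopen U) :
    ∃ V : Set Y, R U V ∧ R univ Vᶜ := by
  classical
  let i : H := fun _ => true
  let j : H := fun _ => false
  have ij : iso i ≠ iso j := fun e => by simpa [iso, i, j] using congrFun (congrArg (·.1.1) e) 0
  let V : ℕ → Set Y := fun m =>
    {y | ∀ k < m, y k = iso i} ∩ ((fun y => y m) ⁻¹' {iso j} ∩ tl (m + 1) ⁻¹' U)
  have cV : ∀ m, IsClopen (V m) := fun m => (cyl (fun _ => i) m).inter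
    (((iso_clopen j).preimage (continuous_apply m)).inter (hU.preimage (tl_cont _)))
  have b1 : BijOn (cs (iso i)) (⋃ m, V m) ((⋃ m, V m) \ V 0) := by
    refine ⟨fun y hy => ?_, (cs_inj _).injOn, fun y hy => ?_⟩
    · obtain ⟨m, h1, h2, h3⟩ := mem_iUnion.1 hy
      refine ⟨mem_iUnion.2 ⟨m + 1, fun k hk => ?_, h2, h3⟩, fun h => ij h.2.1⟩
      cases k
      · rfl
      · exact h1 _ (by omega)
    · obtain ⟨_ | m, h⟩ := mem_iUnion.1 hy.1
      · exact (hy.2 h).elim
      refine ⟨tl 1 y, mem_iUnion.2 ⟨m, fun k hk => h.1 _ (by omega), h.2.1, h.2.2⟩,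
        funext fun k => ?_⟩
      cases k
      · exact (h.1 0 (by omega)).symm
      · rfl
  refine ⟨V 0, ⟨cs (iso j), (cs_cont _).continuousOn, fun y hy => ⟨by simp, rfl, hy⟩,
    (cs_inj _).injOn, fun y hy => ⟨tl 1 y, hy.2.2, funext fun k => ?_⟩⟩,
    (⋃ m, V m).piecewise (cs (iso i)) id, Continuous.continuousOn ?_, ?_⟩
  · cases k
    · exact hy.2.1.symm
    · rfl
  · refine Continuous.piecewise (fun y hy => ?_) (cs_cont _) continuous_id
    rw [(isOpen_iUnion fun m => (cV m).2).frontier_eq] at hy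
    have : ∀ m, y m = iso i := fun m => by
      induction m using Nat.strong_induction_on with
      | _ m ih =>
        by_contra c
        obtain ⟨z, ⟨⟨h1, h2⟩, h3⟩, h4⟩ := mem_closure_iff.1 hy.1 _ ((((cyl (fun _ => i) m).inter
          ((iso_clopen i).preimage (f := fun y : Y => y m) (continuous_apply m)).compl).diff (cV m)).2)
          ⟨⟨ih, c⟩, fun h => hy.2 (mem_iUnion.2 ⟨m, h⟩)⟩
        obtain ⟨n, hn⟩ := mem_iUnion.1 h4
        rcases lt_trichotomy n m with e | e | e
        · exact ij ((h1 n e).symm.trans hn.2.1)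
        · exact h3 (e ▸ hn)
        · exact h2 (hn.1 m e)
    funext k
    cases k <;> simp [cs, this]
  · have := (b1.congr (piecewise_eqOn _ _ id).symm).union
      ((bijOn_id _).congr (piecewise_eqOn_compl (⋃ m, V m) (cs (iso i)) id).symm) ?_
    · convert this using 1
      · exact (union_compl_self _).symm
      · ext y
        have : y ∈ V 0 → y ∈ ⋃ m, V m := fun h => mem_iUnion.2 ⟨0, h⟩
        simp only [mem_compl_iff, mem_union, mem_diff]; tauto
    intro a _ b _ e
    by_cases ha : a ∈ ⋃ m, V m <;> by_cases hb : b ∈ ⋃ m, V m <;>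
      simp only [piecewise, ha, hb, if_true, if_false, id] at e
    · exact cs_inj _ e
    · exact (hb (e ▸ (b1.mapsTo ha).1)).elim
    · exact (ha (e ▸ (b1.mapsTo hb).1)).elim
    · exact e

lemma R_univ {V : Set Y} (hV : IsClopen V) (hn : V.Nonempty) : R V univ := by
  classical
  obtain ⟨y, hy, h⟩ := (dense_pi univ fun (_ : ℕ) _ => iso_dense).inter_open_nonempty V hV.2 hn
  choose s hs using fun k => h k trivial
  obtain ⟨I, u, h1, h2⟩ := isOpen_pi_iff.1 hV.2 y hy
  obtain ⟨n, hn⟩ := I.exists_nat_subset_range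
  have sub : {y : Y | ∀ k < n, y k = iso (s k)} ⊆ V := fun z hz => h2 fun k hk => by
    rw [hz k (Finset.mem_range.1 (hn hk)), hs]; exact (h1 k hk).2
  obtain ⟨W, w1, w2⟩ := swindle (hV.diff (cyl s n))
  have r : R {y : Y | ∀ k < n, y k = iso (s k)} univ := by
    refine ⟨tl n, (tl_cont n).continuousOn, mapsTo_univ _ _, fun a ha b hb e => funext fun k => ?_,
      fun z _ => ⟨fun k => if k < n then iso (s k) else z (k - n), fun k hk => if_pos hk,
        funext fun k => by simp [tl]⟩⟩
    by_cases c : k < n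
    · rw [ha k c, hb k c]
    · simpa [tl, Nat.sub_add_cancel (not_lt.1 c)] using congrFun e (k - n)
  have := w1.union (r.trans w2) (hV.diff (cyl s n)).1 (cyl s n).1 disjoint_sdiff_left
    disjoint_compl_right
  rwa [diff_union_of_subset sub, union_compl_self] at this

def D (y : Y) (n : ℕ) : Set Y :=
  {z | ∀ k < n, (∀ m < n, (z k).1.1 m = (y k).1.1 m) ∧ (z k).1.2 (y k).1.1 = (y k).1.2 (y k).1.1}

lemma D_nest (y : Y) : Nest (D y) y := by
  refine ⟨fun n => ?_, fun m n h z hz k hk => ⟨fun j hj => (hz k (hk.trans_le h)).1 j (hj.trans_le h),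
    (hz k (hk.trans_le h)).2⟩, by simp [D], fun z => ⟨fun h => funext fun k => L.ext'
    (funext fun m => (h (k + m + 1) k (by omega)).1 m (by omega)) (h _ k k.lt_succ_self).2,
    fun e => by simp [D, e]⟩⟩
  simp only [D, ofPred_forall, ofPred_and]
  refine (finite_lt_nat n).isClopen_biInter fun k _ => IsClopen.inter
    ((finite_lt_nat n).isClopen_biInter fun m _ => ?_) ?_
  · exact (isClopen_discrete {_}).preimage (f := fun z : Y => (z k).1.1 m) (by fun_prop)
  · exact (isClopen_discrete {_}).preimage (f := fun z : Y => (z k).1.2 _) (by fun_prop)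

lemma homog (x y : Y) : ∃ e : Y ≃ₜ Y, e x = y := by
  have ne : ∀ y n, (D y n \ D y (n + 1)).Nonempty := fun y n =>
    ⟨Function.update y n (iso fun m => !(y n).1.1 m), fun k hk => by
      simp [Function.update_of_ne hk.ne], fun h => by
      simpa [iso] using (h n n.lt_succ_self).1 0 n.succ_pos⟩
  have cl := fun y n => ((D_nest y).cl n).diff ((D_nest y).cl (n + 1))
  choose f f1 f2 using fun n =>
    (R_univ (cl x n) (ne x n)).trans ((R_univ (cl y n) (ne y n)).symm (cl y n).1)
  exact (glue (D_nest x) (D_nest y) f f1 f2).imp fun _ => And.left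

end Pool.Agent.H30.LT
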