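import Pool.Agent.H30.LTa
import Pool.Agent.H30.LTb

set_option autoImplicit false

namespace Pool.Agent.H30.LT

open Set Filter Topology FreeGroup Cardinal

def B (k : ℕ) : Set (FreeGroup (Fin k → Bool)) := mk '' {l | l.length ≤ k}

instance (k : ℕ) : Finite (B k) := ((List.finite_length_le _ k).image _).to_subtype

def F (k : ℕ) : Type := Equiv.Perm (B k)

noncomputable instance (k : ℕ) : Group (F k) := inferInstanceAs (Group (Equiv.Perm _))
instance (k : ℕ) : Finite (F k) := inferInstanceAs (Finite (Equiv.Perm _))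
instance (k : ℕ) : TopologicalSpace (F k) := ⊥
instance (k : ℕ) : DiscreteTopology (F k) := ⟨rfl⟩

lemma ex_perm (k : ℕ) (g : FreeGroup (Fin k → Bool)) :
    ∃ s : Equiv.Perm (B k), ∀ b c : B k, g * b = c → s b = c := by
  obtain ⟨s, hs⟩ := Equiv.Perm.exists_extending_pair (α := {b : B k // g * b ∈ B k})
    (fun b => b.1) (fun b => ⟨_, b.2⟩) Subtype.val_injective fun a b e => by
      simpa [Subtype.ext_iff] using e
  exact ⟨s, fun b c e => (hs ⟨b, e ▸ c.2⟩).trans (Subtype.ext e)⟩

noncomputable def σ (k : ℕ) (g : FreeGroup (Fin k → Bool)) : F k := (ex_perm k g).choose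

def ap {k : ℕ} (s : F k) : FreeGroup (Fin k → Bool) :=
  ((show Equiv.Perm (B k) from s) ⟨1, [], by simp, rfl⟩).1

lemma word {ι : Type} (k : ℕ) (f : ι → Fin k → Bool) (W : List (ι × Bool)) (h : W.length ≤ k) :
    ap (lift (fun i => σ k (of (f i))) (mk W)) = FreeGroup.map f (mk W) := by
  induction W with
  | nil => rfl
  | cons l W ih =>
    have ih := ih (Nat.le_of_succ_le h)
    let c : B k := ⟨FreeGroup.map f (mk (l :: W)), _, by simpa using h, map.mk.symm⟩
    obtain ⟨i, _ | _⟩ := l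
    · refine congrArg Subtype.val (show _ = c from (Equiv.symm_apply_eq _).2
        ((ex_perm k (of (f i))).choose_spec c _ (Eq.trans ?_ ih.symm)).symm)
      show of (f i) * FreeGroup.map f ((of i)⁻¹ * mk W) = _
      simp
    · refine congrArg Subtype.val (show _ = c from (ex_perm k (of (f i))).choose_spec _ c ?_)
      refine (congrArg (of (f i) * ·) ih).trans ?_
      show _ = FreeGroup.map f (of i * mk W)
      simp

abbrev Γ := ∀ k, F k

lemma free {ι : Type} [Nonempty ι] (j : ι ↪ H) (t : ι → Γ) (N : ι → ℕ)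
    (ht : ∀ i k, N i < k → t i k = σ k (of fun m => j i m)) : Function.Injective (lift t) := by
  refine (injective_iff_map_eq_one _).2 ?_
  rintro ⟨W⟩ h
  change lift t (mk W) = 1 at h
  change mk W = 1
  have e1 : ∀ᶠ k in atTop, ∀ l ∈ {l | l ∈ W}, ∀ l' ∈ {l | l ∈ W},
      (fun m : Fin k => j l.1 m) = (fun m : Fin k => j l'.1 m) → l.1 = l'.1 := by
    simp only [W.finite_toSet.eventually_all]
    intro l _ l' _
    by_cases c : l.1 = l'.1
    · exact Eventually.of_forall fun _ _ => c
    obtain ⟨m, hm⟩ := Function.ne_iff.1 (j.injective.ne c)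
    exact (eventually_gt_atTop m).mono fun k hk e => (hm (congrFun e ⟨m, hk⟩)).elim
  have e2 : ∀ᶠ k in atTop, ∀ l ∈ {l | l ∈ W}, N l.1 < k :=
    W.finite_toSet.eventually_all.2 fun l _ => eventually_gt_atTop _
  obtain ⟨k, ⟨k1, k2⟩, k3⟩ := ((e1.and e2).and (eventually_ge_atTop W.length)).exists
  have e3 := word k (fun i m => j i m) W k3
  have e4 : lift (fun i => σ k (of fun m : Fin k => j i m)) (mk W) = 1 := by
    have := congrFun h k
    rw [lift_mk, Pi.list_prod_apply, List.map_map] at this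
    rw [lift_mk]
    refine Eq.trans (congrArg List.prod (List.map_congr_left fun l hl => ?_)) this
    obtain ⟨i, _ | _⟩ := l <;> simp [ht _ _ (k2 _ hl)]
  have inj : InjOn (fun i (m : Fin k) => j i m) (Prod.fst '' {l | l ∈ W}) := by
    rintro _ ⟨l, hl, rfl⟩ _ ⟨l', hl', rfl⟩ e
    exact k1 l hl l' hl' e
  have := congrArg (FreeGroup.map (Function.invFunOn (fun i (m : Fin k) => j i m)
    (Prod.fst '' {l | l ∈ W}))) e3
  rw [e4, map.mk, map.mk, List.map_map] at this
  refine Eq.trans (congrArg FreeGroup.mk ?_) (this.symm.trans (_root_.map_one _))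
  refine (List.map_id _).symm.trans (List.map_congr_left fun l hl => ?_)
  exact Prod.ext (inj.leftInvOn_invFunOn ⟨l, hl, rfl⟩).symm rfl

abbrev X := Y × Γ

lemma card_X : #X ≤ 𝔠 := by
  have h1 : #L ≤ #(H × Bool) := mk_le_of_injective (f := fun p => (p.1.1, p.1.2 p.1.1))
    fun p q e => L.ext' (Prod.mk.inj e).1 ((Prod.mk.inj e).1 ▸ (Prod.mk.inj e).2)
  have h2 : #Y ≤ 𝔠 := by
    simpa using (power_le_power_right (c := ℵ₀) h1)
  have h3 : #Γ ≤ 𝔠 := by
    choose f hf using fun k => exists_injective_nat (F k)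
    simpa using mk_le_of_injective (f := fun (u : Γ) k => f k (u k))
      fun u v e => funext fun k => hf k (congrFun e k)
  simpa using mul_le_mul' h2 h3

def E (x : Y) (c : Γ) (e : Y ≃ₜ Y) (n : ℕ) : Set X := (e.symm ⁻¹' D x n) ×ˢ {u | ∀ k < n, u k = c k}

lemma E_nest (x : Y) (c : Γ) (e : Y ≃ₜ Y) : Nest (E x c e) (e x, c) := by
  have h := D_nest x
  refine ⟨fun n => ((h.cl n).preimage e.symm.continuous).prod ?_, fun m n k z hz =>
    ⟨h.anti k hz.1, fun i hi => hz.2 i (hi.trans_le k)⟩, by simp [E, h.zero], fun z =>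
    ⟨fun k => Prod.ext (e.symm_apply_eq.1 ((h.inter _).1 fun n => (k n).1))
      (funext fun i => (k _).2 i i.lt_succ_self), ?_⟩⟩
  · simp only [ofPred_forall]
    exact (finite_lt_nat n).isClopen_biInter fun k _ =>
      (isClopen_discrete {_}).preimage (continuous_apply k)
  · rintro rfl n
    exact ⟨by simpa using (h.inter x).2 rfl n, fun _ _ => rfl⟩

lemma move (o x : X) (T : ℕ → Γ) (hT : ∀ n, ∀ k ≤ n, T n k = x.2 k * (o.2 k)⁻¹) :
    ∃ a : X ≃ₜ X, a o = x ∧ ∀ z ≠ o, ∃ n, (a z).2 = T n * z.2 := by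
  obtain ⟨e, he⟩ := homog o.1 x.1
  have key : ∀ n m (z : X), m ≤ n + 1 → ((e z.1, T n * z.2) ∈ E o.1 x.2 e m ↔
      z ∈ E o.1 o.2 (Homeomorph.refl _) m) := fun n m z h => by
    simp only [E, mem_prod, mem_preimage, e.symm_apply_apply, mem_ofPred_eq]
    refine and_congr Iff.rfl (forall₂_congr fun k hk => ?_)
    rw [Pi.mul_apply, hT n k (by omega), mul_assoc, _root_.mul_eq_left, inv_mul_eq_one, eq_comm]
  obtain ⟨a, a1, a2⟩ := glue (E_nest o.1 o.2 (Homeomorph.refl _)) (E_nest o.1 x.2 e)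
    (fun n z => (e z.1, T n * z.2)) (fun n => Continuous.continuousOn ((e.continuous.comp
      continuous_fst).prodMk (continuous_pi fun k => (continuous_of_discreteTopology
      (f := fun v => T n k * v)).comp ((continuous_apply k).comp continuous_snd))))
    fun n => (e.toEquiv.prodCongr (Equiv.mulLeft (T n))).bijOn fun z =>
      and_congr (key n n z n.le_succ) (key n _ z le_rfl).not
  exact ⟨a, a1.trans (Prod.ext he rfl), fun z hz => (a2 z hz).imp fun n => congrArg Prod.snd⟩

theorem main : ∃ (S : Set X) (a : S → X ≃ₜ X) (o : X),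
    Function.Bijective fun g : FreeGroup S => lift a g o := by
  classical
  obtain ⟨_, _, hw⟩ := exists_ord_eq_type_lt X
  haveI : Nonempty X := ⟨(fun _ => iso fun _ => true, 1)⟩
  let o : X := wellFounded_lt.min univ univ_nonempty
  obtain ⟨j⟩ : Nonempty ((X × ℕ) × H ↪ H) := by
    rw [← Cardinal.le_def]
    simpa using mul_le_mul' (mul_le_mul' card_X aleph0_le_continuum) (le_refl 𝔠)
  let t : (X × ℕ) × H → Γ := fun i k =>
    if k ≤ i.1.2 then i.1.1.2 k * (o.2 k)⁻¹ else σ k (of fun m => j i m)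
  have fr := free j t (fun i => i.1.2) fun i k h => if_neg (not_le.2 h)
  have : ∀ q : X × ℕ, ∃ r : H, some (q, r) ∉ range fun s : Iic q.1 × Iic q.1 × ℕ =>
      ((Function.invFun (lift t) (s.2.1.1.2 * s.1.1.2⁻¹)).toWord[s.2.2]?).map Prod.fst := by
    intro q
    by_contra! h
    choose s hs using h
    have h1 := mk_le_of_injective (f := s) fun r r' e => by
      have := hs r
      rw [e, hs] at this; simpa using this.symm
    have h2 : #(Iic q.1) < 𝔠 := by
      rw [← Iio_insert]
      exact mk_insert_le.trans_lt (add_lt_of_lt aleph0_le_continuum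
        ((mk_Iio_lt _ hw).trans_le card_X) (one_lt_aleph0.trans aleph0_lt_continuum))
    refine h1.not_gt ?_
    simpa using mul_lt_of_lt aleph0_le_continuum h2 (mul_lt_of_lt aleph0_le_continuum h2
      aleph0_lt_continuum)
  choose r hr using this
  choose a a1 a2 using fun x => move o x (fun n => t ((x, n), r (x, n))) fun n k h => if_pos h
  obtain ⟨S, hS⟩ := sharp Prod.snd o (fun x => not_lt.1 (wellFounded_lt.not_lt_min univ (mem_univ x)))
    a a1 (fun q => t (q, r q)) a2 fun W h l hl u hu v hv e => by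
      have e1 : lift t (mk (W.map fun l => ((l.1, r l.1), l.2))) = v.2 * u.2⁻¹ := by
        rw [← e, lift_mk, lift_mk, List.map_map]; rfl
      obtain ⟨n, hn⟩ := List.mem_iff_getElem?.1 hl
      refine hr l.1 ⟨(⟨u, hu⟩, ⟨v, hv⟩, n), ?_⟩
      simp only [← e1, Function.leftInverse_invFun fr _, toWord_mk]
      rw [FreeGroup.IsReduced.reduce_eq]
      · simp [hn]
      exact (List.isChain_map _).2 (((List.isChain_map _).1 h).imp fun _ _ k e =>
        k (congrArg (·.1.1) e))
  exact ⟨S, _, o, hS⟩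

end Pool.Agent.H30.LT
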