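import Pool.Agent.H30.SplC

set_option autoImplicit false

namespace Pool.Agent.H30.Lad

open Set Filter Topology Function Pool.Agent.H30.Spl

lemma W1_Iic (i : W1) : (Iic i).Countable := Iio_insert (a := i) ▸ (W1_Iio i).insert i

lemma clos (h : W1 → W1) : ∃ δ, (∃ β, β < δ) ∧ ∀ β < δ, h β < δ := by
  choose b hb using fun a : W1 => W1_bdd ((W1_Iic a).image h)
  let c : ℕ → W1 := fun n => b^[n] (Classical.arbitrary _)
  have hc : ∀ n, c (n + 1) = b (c n) := fun n => iterate_succ_apply' _ _ _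
  obtain ⟨δ, h1, h2⟩ := wellFounded_lt.has_min {δ | ∀ n, c n < δ}
    (let ⟨i, hi⟩ := W1_bdd (countable_range c); ⟨i, fun n => hi _ ⟨n, rfl⟩⟩)
  refine ⟨δ, ⟨_, h1 0⟩, fun β hβ => ?_⟩
  obtain ⟨n, hn⟩ : ∃ n, β ≤ c n := by_contra fun e => h2 β (fun n => not_le.1 fun e' => e ⟨n, e'⟩) hβ
  exact (hb (c n) _ ⟨β, hn, rfl⟩).trans (hc n ▸ h1 (n + 1))

lemma ladder (γ : W1) : ∃ y : ℕ → W1, (∀ β < γ, ∀ᶠ k in atTop, β ≤ y k) ∧
    ((∃ β, β < γ) → ∀ k, y k < γ) := by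
  by_cases h : (Iio γ).Nonempty
  · obtain ⟨e, he⟩ := (W1_Iio γ).exists_eq_range h
    refine ⟨partialSups e, fun β hβ => ?_, fun _ k => ?_⟩
    · obtain ⟨j, rfl⟩ := he.subset hβ
      exact (eventually_ge_atTop j).mono fun k => le_partialSups_of_le e
    · exact (partialSups_iff_forall (· < γ) (fun {_ _} => max_lt_iff) ).2 fun j _ => he.symm.subset ⟨j, rfl⟩
  · exact ⟨fun _ => γ, fun β hβ => absurd ⟨β, hβ⟩ h, fun e => absurd e h⟩

lemma fin_bd {ι : Type} {F : Set ι} (hF : F.Finite) {δ : W1} (h0 : ∃ β, β < δ) {p : ι → W1 → Prop}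
    (hp : ∀ i a b, a ≤ b → p i a → p i b) (h : ∀ i ∈ F, ∃ β < δ, p i β) : ∃ β < δ, ∀ i ∈ F, p i β := by
  induction F, hF using Set.Finite.induction_on with
  | empty => simpa using h0
  | @insert z F _ _ ih =>
    obtain ⟨a, a1, a2⟩ := ih fun i hi => h i (Or.inr hi)
    obtain ⟨b, b1, b2⟩ := h z (Or.inl rfl)
    exact ⟨max a b, max_lt a1 b1, forall_mem_insert.2 ⟨hp _ _ _ (le_max_right a b) b2,
      fun i hi => hp _ _ _ (le_max_left a b) (a2 i hi)⟩⟩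

noncomputable def lad (γ : W1) : ℕ → W1 := (ladder γ).choose

def P : Type := {x : ℕ → WithTop W1 // {k | x k ≠ ⊤}.Finite ∨ ∃ γ, x = fun k => ↑(lad γ k)}

noncomputable def pt (γ : W1) : P := ⟨fun k => ↑(lad γ k), Or.inr ⟨γ, rfl⟩⟩

def N (x : P) (α : W1) : Set P := {z | ∀ k, (x.1 k ≠ ⊤ → z.1 k = x.1 k) ∧ (x.1 k = ⊤ → ↑α ≤ z.1 k)}

lemma mem_N (x : P) (α : W1) : x ∈ N x α := fun _ => ⟨fun _ => rfl, fun e => le_top.trans e.ge⟩

lemma N_anti (x : P) {α β : W1} (h : α ≤ β) : N x β ⊆ N x α := fun _ hz k =>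
  ⟨(hz k).1, fun e => (WithTop.coe_le_coe.2 h).trans ((hz k).2 e)⟩

lemma N_sub {x z : P} {α : W1} (h : z ∈ N x α) : N z α ⊆ N x α := fun w hw k =>
  ⟨fun e => ((hw k).1 ((h k).1 e ▸ e)).trans ((h k).1 e), fun e => by
    by_cases e' : z.1 k = ⊤
    exacts [(hw k).2 e', (hw k).1 e' ▸ (h k).2 e]⟩

instance : TopologicalSpace P where
  IsOpen U := ∀ x ∈ U, ∃ α, N x α ⊆ U
  isOpen_univ x _ := ⟨Classical.arbitrary _, subset_univ _⟩
  isOpen_inter U V h1 h2 x hx := let ⟨a, e1⟩ := h1 x hx.1; let ⟨b, e2⟩ := h2 x hx.2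
    ⟨max a b, subset_inter ((N_anti x (le_max_left a b)).trans e1) ((N_anti x (le_max_right a b)).trans e2)⟩
  isOpen_sUnion _ h x hx := let ⟨U, e1, e2⟩ := hx; let ⟨a, e3⟩ := h U e1 x e2
    ⟨a, e3.trans (subset_sUnion_of_mem e1)⟩

lemma gt (a : W1) : ∃ b, a < b := let ⟨b, h⟩ := W1_bdd (countable_singleton a); ⟨b, h a rfl⟩

lemma out {x z : P} {k : ℕ} (h : z.1 k ≠ x.1 k) {α : W1} (h' : ∀ a : W1, z.1 k = a → a < α) : z ∉ N x α :=
  fun e => by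
    by_cases e1 : x.1 k = ⊤
    · obtain ⟨a, e2⟩ := WithTop.ne_top_iff_exists.1 (e1 ▸ h)
      exact (h' a e2.symm).not_ge (WithTop.coe_le_coe.1 (e2 ▸ (e k).2 e1))
    · exact h ((e k).1 e1)

lemma big (w : WithTop W1) : ∃ α : W1, ∀ a : W1, w = a → a < α := by
  cases w with
  | top => exact ⟨Classical.arbitrary _, fun _ e => absurd e WithTop.top_ne_coe⟩
  | coe a => exact (gt a).imp fun b h c e => WithTop.coe_eq_coe.1 e ▸ h

lemma clopen_N (x : P) (α : W1) : IsClopen (N x α) := by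
  refine ⟨⟨fun z hz => ?_⟩, fun z hz => ⟨α, N_sub hz⟩⟩
  obtain ⟨k, hk⟩ := not_forall.1 hz
  obtain ⟨β, hβ⟩ := big (x.1 k)
  refine ⟨β, fun w h1 h2 => ?_⟩
  by_cases e : z.1 k = ⊤
  · have e1 : x.1 k ≠ ⊤ := fun e1 => hk ⟨fun e2 => absurd e1 e2, fun _ => le_top.trans e.ge⟩
    obtain ⟨a, e2⟩ := WithTop.ne_top_iff_exists.1 e1
    exact (hβ a e2.symm).not_ge (WithTop.coe_le_coe.1 (e2 ▸ (h2 k).1 e1 ▸ (h1 k).2 e))
  · exact hk ((h1 k).1 e ▸ h2 k)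

lemma sep1 {x z : P} (h : z ≠ x) : ∃ α, z ∉ N x α :=
  let ⟨k, hk⟩ := ne_iff.1 fun e => h (Subtype.ext e); let ⟨α, e⟩ := big (z.1 k); ⟨α, out hk e⟩

lemma sep {C : Set P} (hC : C.Countable) (x : P) : ∃ α, ∀ z ∈ C, z ∈ N x α → z = x := by
  choose! a ha using fun z (h : z ≠ x) => sep1 h
  obtain ⟨b, hb⟩ := W1_bdd (hC.image a)
  exact ⟨b, fun z hz e => by_contra fun e' => ha z e' (N_anti x (hb _ ⟨z, hz, rfl⟩).le e)⟩

lemma nb {x : P} (α : W1) : N x α ∈ 𝓝 x := (clopen_N x α).2.mem_nhds (mem_N x α)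

lemma closed_cnt {C : Set P} (hC : C.Countable) : IsClosed C :=
  ⟨fun x hx => let ⟨α, h⟩ := sep hC x; ⟨α, fun z e e' => hx (h z e' e ▸ e')⟩⟩

lemma disc_cnt {C : Set P} (hC : C.Countable) : DiscreteTopology C :=
  discreteTopology_iff_isOpen_singleton.2 fun x => let ⟨α, h⟩ := sep hC x.1
    ⟨N x.1 α, (clopen_N _ _).2, Set.ext fun z => ⟨fun e => Subtype.ext (h _ z.2 e),
      fun e => (show z = x from e) ▸ mem_N _ _⟩⟩

instance : T2Space P := ⟨fun x z h => let ⟨α, e⟩ := sep1 h.symm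
  ⟨_, _, (clopen_N x α).2, (clopen_N x α).compl.2, mem_N x α, e, disjoint_compl_right⟩⟩

instance : RegularSpace P := RegularSpace.of_exists_mem_nhds_isClosed_subset fun x s hs =>
  let ⟨U, e1, e2, e3⟩ := mem_nhds_iff.1 hs; let ⟨α, e4⟩ := e2 x e3
  ⟨_, nb α, (clopen_N x α).1, e4.trans e1⟩

lemma cnt (β : W1) : {x : P | {k | x.1 k ≠ ⊤}.Finite ∧ ∀ k, x.1 k ≠ ⊤ → x.1 k ≤ β}.Countable := by
  have nt : ∀ {w : WithTop W1} {a : W1}, w = a → w ≠ ⊤ := fun e => e ▸ WithTop.coe_ne_top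
  refine ((countable_setOf_finite_subset ((countable_univ (α := ℕ)).prod (W1_Iic β))).preimage_of_injOn
    (f := fun x : P => {p : ℕ × W1 | x.1 p.1 = p.2}) fun x _ y _ e => Subtype.ext (funext fun k => ?_)).mono
    fun x hx => And.intro ((hx.1.biUnion (t := fun k => {p : ℕ × W1 | p.1 = k ∧ x.1 k = p.2}) fun k _ =>
      Set.Subsingleton.finite fun p hp q hq => Prod.ext (hp.1.trans hq.1.symm)
        (WithTop.coe_eq_coe.1 (hp.2.symm.trans hq.2))).subset fun p hp =>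
      mem_iUnion₂.2 ⟨p.1, nt hp, rfl, hp⟩)
      fun p hp => ⟨trivial, WithTop.coe_le_coe.1 (Eq.trans_le (Eq.symm hp) (hx.2 p.1 (nt hp)))⟩
  have H : ∀ a : W1, x.1 k = a ↔ y.1 k = a := fun a => Set.ext_iff.1 e (k, a)
  cases e1 : x.1 k with
  | coe a => exact ((H a).1 e1).symm
  | top => cases e2 : y.1 k with
    | top => rfl
    | coe a => exact e1.symm.trans ((H a).2 e2)

lemma lin (α : P → W1) : ∃ C : Set P, C.Countable ∧ ∀ z, ∃ x ∈ C, z ∈ N x (α x) := by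
  classical
  choose h hh using fun β => W1_bdd ((cnt β).image α)
  obtain ⟨δ, h0, h1⟩ := clos h
  refine ⟨_, (cnt δ).union ((W1_Iic δ).image pt), fun z => ?_⟩
  by_cases e : z ∈ pt '' Iic δ
  · exact ⟨z, Or.inr e, mem_N _ _⟩
  have h2 : {k | (if z.1 k < δ then z.1 k else ⊤) ≠ ⊤}.Finite := by
    rcases z.2 with e1 | ⟨γ, e1⟩
    · exact e1.subset fun k hk e2 => hk (by simp [show z.1 k = ⊤ from e2])
    · have e2 : ∀ᶠ k in cofinite, δ ≤ lad γ k := Nat.cofinite_eq_atTop.symm ▸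
        (ladder γ).choose_spec.1 δ (not_le.1 fun e2 => e ⟨γ, e2, Subtype.ext e1.symm⟩)
      exact e2.subset fun k hk e3 => hk (if_neg (not_lt.2 (e1 ▸ WithTop.coe_le_coe.2 e3)))
  have h3 : ∀ k, (if z.1 k < δ then z.1 k else ⊤) ≠ ⊤ → z.1 k < δ := fun k hk =>
    by_contra fun e1 => hk (if_neg e1)
  obtain ⟨β, h4, h5⟩ := fin_bd h2 h0 (p := fun k β => z.1 k ≤ β)
    (fun k a b e1 e2 => e2.trans (WithTop.coe_le_coe.2 e1)) fun k hk =>
      let ⟨a, e1⟩ := WithTop.ne_top_iff_exists.1 (h3 k hk).ne_top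
      ⟨a, WithTop.coe_lt_coe.1 (e1 ▸ h3 k hk), e1.ge⟩
  refine ⟨⟨_, Or.inl h2⟩, Or.inl ⟨h2, fun k hk => (if_pos (h3 k hk)).trans_le (h3 k hk).le⟩, fun k =>
    ⟨fun hk => (if_pos (h3 k hk)).symm, fun hk => le_trans (WithTop.coe_le_coe.2 ((hh β _ ⟨⟨_, Or.inl h2⟩, ⟨h2,
      fun k hk => (if_pos (h3 k hk)).trans_le (h5 k hk)⟩, rfl⟩).trans (h1 β h4)).le) (not_lt.1 fun e1 => ?_)⟩⟩
  exact e1.ne_top ((if_pos e1).symm.trans hk)

theorem no_win (R : (ℕ → P → W1) → ℕ → Set P) (h1 : ∀ f g n, (∀ k ≤ n, f k = g k) → R f n = R g n)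
    (h2 : ∀ f n, (R f n).Finite) : ∃ f z, ∀ n, ∀ x ∈ R f n, z ∉ N x (f n x) := by
  classical
  let W : ℕ → (ℕ → P → W1) → (P → W1) → Set P := fun n f g => ⋃ x ∈ R (update f n g) n, N x (g x)
  let K : ℕ → (ℕ → P → W1) → Set P := fun n f => ⋂ g, W n f g
  have K1 : ∀ n f, (K n f).Finite := fun n f => by_contra fun e => by
    obtain ⟨C, e1, e3, e2⟩ := Set.Infinite.exists_subset_countable_infinite e
    choose g hg using sep e3
    exact e2 ((h2 (update f n g) n).subset fun z hz =>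
      let ⟨x, e4, e5⟩ := mem_iUnion₂.1 (mem_iInter.1 (e1 hz) g); hg x z hz e5 ▸ e4)
  have K2 : ∀ n f α, ∃ G : ℕ → P → W1, ∀ z, (∃ x ∈ K n f, z ∈ N x α) ∨ ∃ m, z ∉ W n f (G m) := fun n f α => by
    have H : ∀ z, ∃ q : W1 × (P → W1), (z ∈ K n f ∧ q.1 = α) ∨ N z q.1 ⊆ (W n f q.2)ᶜ := fun z => by
      by_cases e : z ∈ K n f
      · exact ⟨(α, fun _ => α), Or.inl ⟨e, rfl⟩⟩
      · obtain ⟨g, hg⟩ := not_forall.1 (mt mem_iInter.2 e)
        obtain ⟨β, hβ⟩ := ((h2 _ n).isClosed_biUnion fun x _ => (clopen_N x (g x)).1).isOpen_compl z hg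
        exact ⟨(β, g), Or.inr hβ⟩
    choose q hq using H
    obtain ⟨C, e1, e2⟩ := lin fun z => (q z).1
    obtain ⟨G, hG⟩ := ((e1.image fun z => (q z).2).insert fun _ => α).exists_eq_range (insert_nonempty _ _)
    refine ⟨G, fun z => ?_⟩
    obtain ⟨x, e3, e4⟩ := e2 z
    obtain ⟨m, hm⟩ := hG.subset (Or.inr ⟨x, e3, rfl⟩)
    rcases hq x with e | e
    exacts [Or.inl ⟨x, e.1, e.2 ▸ e4⟩, Or.inr ⟨m, hm ▸ e e4⟩]
  choose G hG using K2
  let pos : List (W1 × ℕ) → ℕ → P → W1 := fun c => List.rec (fun _ _ => Classical.arbitrary _)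
    (fun q c f => update f c.length (G c.length f q.1 q.2)) c
  have p1 : ∀ q c, pos (q :: c) = update (pos c) c.length (G c.length (pos c) q.1 q.2) := fun _ _ => rfl
  clear_value pos
  have H : ∀ β : W1, ∃ b, β < b ∧ ∀ c : List (W1 × ℕ), (∀ q ∈ c, q.1 ≤ β) →
      ∀ x ∈ K c.length (pos c), ∀ k (a : W1), x.1 k = a → a < b := fun β => by
    have := ((W1_Iic β).prod (countable_univ (α := ℕ))).to_subtype
    obtain ⟨b, hb⟩ := W1_bdd (((countable_range (List.map (Subtype.val : ↥(Iic β ×ˢ univ) → W1 × ℕ))).biUnion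
      fun c _ => (K1 c.length (pos c)).countable.biUnion fun x _ => countable_iUnion fun k =>
        Set.Subsingleton.countable (s := {a : W1 | x.1 k = a}) fun a e b e' =>
          WithTop.coe_eq_coe.1 (e.symm.trans e')).insert β)
    exact ⟨b, hb _ (Or.inl rfl), fun c hc x hx k a e => hb _ (Or.inr (mem_biUnion
      ⟨c.attachWith _ fun q hq => ⟨hc q hq, trivial⟩, List.attachWith_map_subtype_val _⟩ (mem_biUnion hx (mem_iUnion.2 ⟨k, e⟩))))⟩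
  choose h h3 h4 using H
  obtain ⟨δ, h0, h5⟩ := clos h
  have step : ∀ c : List (W1 × ℕ), ∃ q : W1 × ℕ, q.1 < δ ∧ ((∀ q ∈ c, q.1 < δ) →
      pt δ ∉ W c.length (pos c) (G c.length (pos c) q.1 q.2)) := fun c => by
    by_cases hc : ∀ q ∈ c, q.1 < δ
    swap
    · exact let ⟨β, e⟩ := h0; ⟨(β, 0), e, fun e => absurd e hc⟩
    obtain ⟨β, e1, e2⟩ := fin_bd c.finite_toSet h0 (p := fun q β => q.1 ≤ β)
      (fun _ _ _ e e' => e'.trans e) fun q hq => ⟨q.1, hc q hq, le_rfl⟩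
    obtain ⟨α, e3, e4⟩ := fin_bd (K1 c.length (pos c)) h0 (p := fun x α => pt δ ∉ N x α)
      (fun x _ _ e e' e'' => e' (N_anti x e e'')) fun x hx => by
        obtain ⟨k, hk⟩ := ((ladder δ).choose_spec.1 _ (h5 β e1)).exists
        refine ⟨_, h5 _ ((ladder δ).choose_spec.2 h0 k), out (k := k) (fun e => ?_) fun a e => ?_⟩
        · exact (h4 β c e2 x hx k _ e.symm).not_ge hk
        · exact WithTop.coe_eq_coe.1 e ▸ h3 _
    obtain ⟨m, hm⟩ := (hG c.length (pos c) α (pt δ)).resolve_left fun ⟨x, e, e'⟩ => e4 x e e'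
    exact ⟨(α, m), e3, fun _ => hm⟩
  choose q q1 q2 using step
  let c : ℕ → List (W1 × ℕ) := fun n => Nat.rec [] (fun _ c => q c :: c) n
  have c1 : ∀ n, c (n + 1) = q (c n) :: c n := fun _ => rfl
  have c2 : ∀ n, (c n).length = n ∧ ∀ q ∈ c n, q.1 < δ := fun n => by
    induction n with
    | zero => exact ⟨rfl, fun _ e => absurd e List.not_mem_nil⟩
    | succ n ih => exact ⟨by rw [c1, List.length_cons, ih.1], List.forall_mem_cons.2 ⟨q1 _, ih.2⟩⟩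
  have c3 : ∀ k n, k ≤ n → pos (c (k + 1)) k = pos (c (n + 1)) k := fun k n hk => by
    induction n, hk using Nat.le_induction with
    | base => rfl
    | succ n hk ih => rw [ih, c1 (n + 1), p1 _ (c (n + 1)), update_of_ne (by rw [(c2 (n + 1)).1]; omega)]
  refine ⟨fun n => pos (c (n + 1)) n, pt δ, fun n x hx e => q2 (c n) (c2 n).2 (mem_biUnion (x := x) ?_ ?_)⟩
  · rwa [← p1, ← c1, (c2 n).1, ← h1 _ _ n fun k => c3 k n]
  · simpa only [c1 n, p1, (c2 n).1, update_self] using e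

end Pool.Agent.H30.Lad
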