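import Mathlib

set_option autoImplicit false

namespace Pool.Agent.H30.Sk

open Set Filter Topology

/-- `r` is a retractional skeleton on `K` indexed by the partial order `Γ`. -/
structure Skel {K : Type*} [TopologicalSpace K] (Γ : Type*) [PartialOrder Γ] (r : Γ → K → K) :
    Prop where
  ne : Nonempty Γ
  dir : ∀ s t : Γ, ∃ u, s ≤ u ∧ t ≤ u
  sup : ∀ s : ℕ → Γ, Monotone s → ∃ t, IsLUB (range s) t
  cont : ∀ s, Continuous (r s)
  idem : ∀ s, r s ∘ r s = r s
  met : ∀ s, TopologicalSpace.MetrizableSpace (range (r s))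
  le : ∀ s t, s ≤ t → r s = r s ∘ r t ∧ r s = r t ∘ r s
  lim : ∀ s : ℕ → Γ, Monotone s → ∀ t, IsLUB (range s) t →
    ∀ x, Tendsto (fun n => r (s n) x) atTop (𝓝 (r t x))
  all : ∀ x, Tendsto (fun s => r s x) atTop (𝓝 x)

lemma fin_sub {α : Type*} {c : ℕ → Set α} (hc : Monotone c) {e : Set α} (he : e.Finite)
    (h : e ⊆ ⋃ n, c n) : ∃ n, e ⊆ c n := by
  induction e, he using Set.Finite.induction_on with
  | empty => exact ⟨0, empty_subset _⟩
  | @insert a s _ _ ih =>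
    obtain ⟨n, hn⟩ := ih ((subset_insert _ _).trans h)
    obtain ⟨m, hm⟩ := mem_iUnion.1 (h (mem_insert _ _))
    exact ⟨max n m, insert_subset (hc (le_max_right _ _) hm) (hn.trans (hc (le_max_left _ _)))⟩

lemma exhaust {α : Type*} {c : Set α} (hc : c.Countable) :
    ∃ e : ℕ → Set α, Monotone e ∧ (∀ n, (e n).Finite) ∧ ⋃ n, e n = c := by
  obtain ⟨f, hf⟩ := Set.countable_iff_exists_injOn.1 hc
  refine ⟨fun n => {x | x ∈ c ∧ f x < n}, fun n m h x hx => ⟨hx.1, hx.2.trans_le h⟩, fun n => ?_, ?_⟩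
  · exact Set.Finite.of_finite_image (f := f) ((Set.finite_lt_nat n).subset (by
      rintro _ ⟨x, hx, rfl⟩; exact hx.2)) (hf.mono fun x hx => hx.1)
  · ext x
    simp only [mem_iUnion, mem_setOf_eq]
    exact ⟨fun ⟨_, h, _⟩ => h, fun h => ⟨f x + 1, h, Nat.lt_succ_self _⟩⟩

lemma close {α : Type*} (J : Set α) (T : Set α → Set α) (hT : ∀ e, e.Finite → (T e).Countable)
    (hJ : ∀ e, T e ⊆ J) {a : Set α} (ha : a.Countable) (haJ : a ⊆ J) :
    ∃ b, a ⊆ b ∧ b.Countable ∧ b ⊆ J ∧ ∀ e ⊆ b, e.Finite → T e ⊆ b := by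
  let op : Set α → Set α := fun b => b ∪ ⋃ e ∈ {e : Set α | e.Finite ∧ e ⊆ b}, T e
  let c : ℕ → Set α := fun n => op^[n] a
  have hs : ∀ n, c (n + 1) = op (c n) := fun n => Function.iterate_succ_apply' _ _ _
  have hm : Monotone c := monotone_nat_of_le_succ fun n => by rw [hs]; exact subset_union_left
  have hc : ∀ n, (c n).Countable ∧ c n ⊆ J := fun n => by
    induction n with
    | zero => exact ⟨ha, haJ⟩
    | succ n ih =>
      rw [hs]
      exact ⟨ih.1.union ((Set.countable_setOf_finite_subset ih.1).biUnion fun e he => hT e he.1),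
        union_subset ih.2 (iUnion₂_subset fun e _ => hJ e)⟩
  refine ⟨⋃ n, c n, subset_iUnion c 0, countable_iUnion fun n => (hc n).1,
    iUnion_subset fun n => (hc n).2, fun e he hf => ?_⟩
  obtain ⟨n, hn⟩ := fin_sub hm hf he
  refine Subset.trans ?_ (subset_iUnion c (n + 1))
  rw [hs]
  exact (subset_biUnion_of_mem (u := T) (s := {e : Set α | e.Finite ∧ e ⊆ c n}) ⟨hf, hn⟩).trans
    subset_union_right

lemma exists_phi0 {Γ : Type*} [PartialOrder Γ] [Nonempty Γ] [IsDirectedOrder Γ] :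
    ∃ φ : Finset Γ → Γ, Monotone φ ∧ ∀ e, ∀ a ∈ e, a ≤ φ e := by
  classical
  choose ub hub using fun S : Finset Γ => S.exists_le
  let φ : Finset Γ → Γ := fun e => Finset.strongInduction
    (fun e IH => ub (e ∪ e.ssubsets.attach.image fun t => IH t.1 (Finset.mem_ssubsets.1 t.2))) e
  have hφ : ∀ e, φ e = ub (e ∪ e.ssubsets.attach.image fun t => φ t.1) := fun e => by
    simp only [φ]
    rw [Finset.strongInduction_eq]
  refine ⟨φ, fun e e' h => ?_, fun e a ha => ?_⟩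
  · rcases h.eq_or_lt with rfl | h
    · exact le_rfl
    · rw [hφ e']
      exact hub _ _ (Finset.mem_union_right _ (Finset.mem_image.2
        ⟨⟨e, Finset.mem_ssubsets.2 h⟩, Finset.mem_attach _ _, rfl⟩))
  · rw [hφ]
    exact hub _ _ (Finset.mem_union_left _ ha)

structure Phi {Γ : Type*} [PartialOrder Γ] (Φ : Set Γ → Γ) : Prop where
  mono : ∀ c d, c ⊆ d → d.Countable → Φ c ≤ Φ d
  mem : ∀ c, c.Countable → ∀ a ∈ c, a ≤ Φ c
  lub : ∀ c : ℕ → Set Γ, Monotone c → (∀ n, (c n).Countable) →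
    IsLUB (range fun n => Φ (c n)) (Φ (⋃ n, c n))

lemma exists_phi {Γ : Type*} [PartialOrder Γ] [Nonempty Γ] [IsDirectedOrder Γ]
    (sup : ∀ s : ℕ → Γ, Monotone s → ∃ t, IsLUB (range s) t) : ∃ Φ : Set Γ → Γ, Phi Φ := by
  obtain ⟨φ, hm, ha⟩ := exists_phi0 (Γ := Γ)
  have H : ∀ c : Set Γ, ∃ t, c.Countable → IsLUB (φ '' {e | ↑e ⊆ c}) t := fun c => by
    by_cases hc : c.Countable
    · obtain ⟨e, h1, h2, h3⟩ := exhaust hc
      obtain ⟨t, ht⟩ := sup (fun n => φ (h2 n).toFinset) fun n m h =>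
        hm (Finite.toFinset_subset_toFinset.2 (h1 h))
      refine ⟨t, fun _ => ⟨?_, fun u hu => ht.2 ?_⟩⟩
      · rintro _ ⟨e', he', rfl⟩
        obtain ⟨n, hn⟩ := fin_sub h1 e'.finite_toSet (h3 ▸ he')
        exact (hm fun x hx => (h2 n).mem_toFinset.2 (hn hx)).trans (ht.1 ⟨n, rfl⟩)
      · rintro _ ⟨n, rfl⟩
        exact hu ⟨_, by rw [mem_setOf_eq, Finite.coe_toFinset, ← h3]; exact subset_iUnion e n, rfl⟩
    · exact ⟨Classical.arbitrary _, fun h => absurd h hc⟩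
  choose Φ hΦ using H
  have mono : ∀ c d, c ⊆ d → d.Countable → Φ c ≤ Φ d := fun c d h hd =>
    (hΦ c (hd.mono h)).2 fun _ ⟨e, he, h'⟩ => (hΦ d hd).1 ⟨e, Subset.trans he h, h'⟩
  refine ⟨Φ, mono, fun c hc a h => (ha {a} a (Finset.mem_singleton_self _)).trans
    ((hΦ c hc).1 ⟨{a}, by simpa using h, rfl⟩), fun c h1 h2 => ⟨?_, fun u hu => ?_⟩⟩
  · rintro _ ⟨n, rfl⟩
    exact mono _ _ (subset_iUnion c n) (countable_iUnion h2)
  · refine (hΦ _ (countable_iUnion h2)).2 ?_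
    rintro _ ⟨e, he, rfl⟩
    obtain ⟨n, hn⟩ := fin_sub h1 e.finite_toSet he
    exact ((hΦ _ (h2 n)).1 ⟨e, hn, rfl⟩).trans (hu ⟨n, rfl⟩)

variable {K : Type*} [TopologicalSpace K] [CompactSpace K] [T2Space K] {Γ : Type*} [PartialOrder Γ]
  {r : Γ → K → K}

omit [CompactSpace K] [T2Space K] in
lemma Skel.l (h : Skel Γ r) {s t : Γ} (hst : s ≤ t) (x : K) : r s (r t x) = r s x :=
  (congrFun (h.le s t hst).1 x).symm

omit [CompactSpace K] [T2Space K] in
lemma Skel.u (h : Skel Γ r) {s t : Γ} (hst : s ≤ t) (x : K) : r t (r s x) = r s x :=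
  (congrFun (h.le s t hst).2 x).symm

lemma Skel.unif (h : Skel Γ r) {M : Type*} [PseudoMetricSpace M] {f : K → M} (hf : Continuous f)
    {s : ℕ → Γ} (hs : Monotone s) {t : Γ} (ht : IsLUB (range s) t) {ε : ℝ} (hε : 0 < ε) :
    ∃ n, ∀ m, n ≤ m → ∀ x, dist (f (r (s m) x)) (f (r t x)) < ε := by
  let E : ℕ → Set (K × K) := fun n => {p | r t p.1 = p.1} ∩ ({p | r t p.2 = p.2} ∩
    ({p | r (s n) p.1 = r (s n) p.2} ∩ {p | ε ≤ dist (f p.1) (f p.2)}))
  have hE : ∀ n, IsClosed (E n) := fun n =>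
    (isClosed_eq ((h.cont t).comp continuous_fst) continuous_fst).inter
      ((isClosed_eq ((h.cont t).comp continuous_snd) continuous_snd).inter
        ((isClosed_eq ((h.cont _).comp continuous_fst) ((h.cont _).comp continuous_snd)).inter
          (isClosed_le continuous_const (by fun_prop))))
  by_contra hc
  push Not at hc
  obtain ⟨p, hp⟩ := IsCompact.nonempty_iInter_of_sequence_nonempty_isCompact_isClosed E
    (fun n p hp => ⟨hp.1, hp.2.1, by
      have := congrArg (r (s n)) hp.2.2.1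
      rwa [h.l (hs n.le_succ), h.l (hs n.le_succ)] at this, hp.2.2.2⟩)
    (fun n => by
      obtain ⟨m, hm, x, hx⟩ := hc n
      exact ⟨(r (s m) x, r t x), h.u (ht.1 ⟨m, rfl⟩) x, h.l le_rfl x,
        (h.l (hs hm) x).trans (h.l (ht.1 ⟨n, rfl⟩) x).symm, hx⟩)
    (hE 0).isCompact hE
  have hp := mem_iInter.1 hp
  have h1 : r t p.1 = r t p.2 := tendsto_nhds_unique (h.lim s hs t ht p.1)
    ((h.lim s hs t ht p.2).congr fun n => (hp n).2.2.1.symm)
  have h2 : p.1 = p.2 := (hp 0).1.symm.trans (h1.trans (hp 0).2.1)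
  have h3 : ε ≤ dist (f p.1) (f p.2) := (hp 0).2.2.2
  rw [h2, dist_self] at h3
  linarith

lemma Skel.const (h : Skel Γ r) {Φ : Set Γ → Γ} (hΦ : Phi Φ) (s : Γ) (B : Set Γ) :
    ∃ c, c.Countable ∧ c ⊆ B ∧ ∀ d, d.Countable → c ⊆ d → d ⊆ B →
      ∀ x, r s (r (Φ d) x) = r s (r (Φ c) x) := by
  have := h.met s
  letI := TopologicalSpace.metrizableSpaceMetric (range (r s))
  let f : K → range (r s) := fun x => ⟨r s x, x, rfl⟩
  have hf : Continuous f := (h.cont s).subtype_mk _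
  have H : ∀ ε : ℝ, 0 < ε → ∃ c, c.Countable ∧ c ⊆ B ∧ ∀ d, d.Countable → c ⊆ d → d ⊆ B →
      ∀ x, dist (f (r (Φ d) x)) (f (r (Φ c) x)) ≤ ε := fun ε hε => by
    by_contra hc
    push Not at hc
    choose! g h1 h2 h3 h4 using hc
    let c : ℕ → Set Γ := fun n => g^[n] ∅
    have hs : ∀ n, c (n + 1) = g (c n) := fun n => Function.iterate_succ_apply' _ _ _
    have hc : ∀ n, (c n).Countable ∧ c n ⊆ B := fun n => by
      induction n with
      | zero => exact ⟨countable_empty, empty_subset _⟩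
      | succ n ih => rw [hs]; exact ⟨h1 _ ih.1 ih.2, h3 _ ih.1 ih.2⟩
    have hm : Monotone c := monotone_nat_of_le_succ fun n => by
      rw [hs]; exact h2 _ (hc n).1 (hc n).2
    obtain ⟨n, hn⟩ := h.unif hf (s := fun n => Φ (c n))
      (fun n m hnm => hΦ.mono _ _ (hm hnm) (hc m).1) (hΦ.lub c hm fun n => (hc n).1) (half_pos hε)
    obtain ⟨x, hx⟩ := h4 _ (hc n).1 (hc n).2
    have e1 := hn n le_rfl x
    have e2 := hn (n + 1) n.le_succ x
    rw [hs] at e2
    linarith [dist_triangle_right (f (r (Φ (g (c n))) x)) (f (r (Φ (c n)) x))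
      (f (r (Φ (⋃ n, c n)) x))]
  choose c h1 h2 h3 using fun k : ℕ => H (1 / ((k : ℝ) + 1)) Nat.one_div_pos_of_nat
  refine ⟨⋃ k, c k, countable_iUnion h1, iUnion_subset h2, fun d hd h4 h5 x => ?_⟩
  have : f (r (Φ d) x) = f (r (Φ (⋃ k, c k)) x) := by
    refine eq_of_forall_dist_le fun ε hε => ?_
    obtain ⟨k, hk⟩ := exists_nat_one_div_lt (half_pos hε)
    linarith [dist_triangle_right (f (r (Φ d) x)) (f (r (Φ (⋃ k, c k)) x)) (f (r (Φ (c k)) x)),
      h3 k d hd ((subset_iUnion c k).trans h4) h5 x,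
      h3 k _ (countable_iUnion h1) (subset_iUnion c k) (iUnion_subset h2) x]
  exact congrArg Subtype.val this

omit [T2Space K] in
lemma Skel.sep (h : Skel Γ r) (s : Γ) :
    ∃ S : Set K, S.Countable ∧ (∀ x ∈ S, r s x = x) ∧ ∀ x, r s x ∈ closure S := by
  have := h.met s
  have : CompactSpace (range (r s)) := isCompact_iff_compactSpace.1 (isCompact_range (h.cont s))
  letI := TopologicalSpace.metrizableSpaceMetric (range (r s))
  obtain ⟨S, h1, h2⟩ := TopologicalSpace.exists_countable_dense (range (r s))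
  refine ⟨Subtype.val '' S, h1.image _, ?_, fun x => ?_⟩
  · rintro _ ⟨⟨_, y, rfl⟩, _, rfl⟩
    exact h.l le_rfl y
  · exact image_closure_subset_closure_image continuous_subtype_val ⟨⟨_, x, rfl⟩, h2 _, rfl⟩

lemma Skel.away (h : Skel Γ r) {x : K} {U : Set K} (hU : IsOpen U) (hx : x ∈ U) :
    ∃ s, ∀ y, r s y = r s x → y ∈ U := by
  have := h.ne
  have : IsDirectedOrder Γ := ⟨h.dir⟩
  obtain ⟨s, hs⟩ := hU.isClosed_compl.isCompact.elim_directed_cover
    (fun s => {y | r s y = r s x}ᶜ)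
    (fun s => (isClosed_eq (h.cont s) continuous_const).isOpen_compl) (fun y hy => by
      by_contra hc
      simp only [mem_iUnion, mem_compl_iff, mem_setOf_eq, not_exists, not_not] at hc
      exact hy (tendsto_nhds_unique ((h.all x).congr fun s => (hc s).symm) (h.all y) ▸ hx))
    (Monotone.directed_le fun s t hst y hy (h' : r t y = r t x) => hy (by
      rw [mem_setOf_eq, ← h.l hst, h', h.l hst]))
  exact ⟨s, fun y hy => by_contra fun hc => hs hc hy⟩

end Pool.Agent.H30.Sk
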