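import Pool.Agent.H30.SplA
import Pool.Agent.H30.SkA

set_option autoImplicit false

namespace Pool.Agent.H30.Lam

open Set Filter Topology Function Pool.Agent.H30.Spl

variable {X Y Z : Type} [TopologicalSpace X] [TopologicalSpace Y] [TopologicalSpace Z]

/-- A large open cover: open sets, none equal to the space, each point in infinitely many. -/
def Large (𝒰 : Set (Set Z)) : Prop :=
  (∀ U ∈ 𝒰, IsOpen U) ∧ univ ∉ 𝒰 ∧ ∀ z, {U ∈ 𝒰 | z ∈ U}.Infinite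

/-- `Split(Λ, Λ)`. -/
def Split (Z : Type) [TopologicalSpace Z] : Prop :=
  ∀ 𝒰 : Set (Set Z), Large 𝒰 → ∃ 𝒱 𝒲, Disjoint 𝒱 𝒲 ∧ 𝒱 ∪ 𝒲 = 𝒰 ∧ Large 𝒱 ∧ Large 𝒲

/-- Menger's covering property. -/
def Menger (Y : Type) [TopologicalSpace Y] : Prop :=
  ∀ 𝒰 : ℕ → Set (Set Y), (∀ n, (∀ U ∈ 𝒰 n, IsOpen U) ∧ ⋃₀ 𝒰 n = univ) →
    ∃ F : ℕ → Set (Set Y), (∀ n, (F n).Finite ∧ F n ⊆ 𝒰 n) ∧ ⋃ n, ⋃₀ F n = univ

def ISplit (Z : Type) [TopologicalSpace Z] : Prop :=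
  ∀ U : ℕ → Set Z, (∀ n, IsOpen (U n)) → (∀ z, {n | z ∈ U n}.Infinite) →
    ∃ A : Set ℕ, ∀ z, ({n | z ∈ U n} ∩ A).Infinite ∧ ({n | z ∈ U n} \ A).Infinite

lemma cnt_split {R : Set (Set ℕ)} (hR : R.Countable) :
    ∃ A : Set ℕ, ∀ a ∈ R, a.Infinite → (a ∩ A).Infinite ∧ (a \ A).Infinite := by
  obtain ⟨a, ha⟩ := ((hR.mono (sep_subset R Set.Infinite)).insert univ).exists_eq_range
    (insert_nonempty _ _)
  have h1 : ∀ i, (a i).Infinite := fun i => by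
    rcases ha.symm.subset ⟨i, rfl⟩ with h | h
    exacts [h ▸ infinite_univ, h.2]
  choose F F1 F2 using fun i m => (h1 i).exists_gt m
  let p : ℕ → ℕ := fun m => Nat.rec (F 0 0) (fun m q => F ((m + 1) / 2).unpair.1 q) m
  have hp : StrictMono p := strictMono_nat_of_lt_succ fun m => F2 _ _
  have hp' : ∀ m, p m ∈ a (m / 2).unpair.1 := fun m => by
    cases m with
    | zero => exact F1 _ _
    | succ m => exact F1 _ _
  clear_value p
  refine ⟨range fun m => p (2 * m), fun b hb hi => ?_⟩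
  obtain ⟨i, rfl⟩ := ha.subset (mem_insert_of_mem _ ⟨hb, hi⟩)
  have hi : Injective fun k => Nat.pair i k := fun k l h => (Nat.pair_eq_pair.1 h).2
  refine ⟨infinite_of_injective_forall_mem (f := fun k => p (2 * Nat.pair i k))
    (fun k l h => hi (by have := hp.injective h; simp only; omega)) fun k => ⟨?_, _, rfl⟩,
    infinite_of_injective_forall_mem (f := fun k => p (2 * Nat.pair i k + 1))
    (fun k l h => hi (by beta_reduce at h; have := hp.injective h; simp only; omega))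
    fun k => ⟨?_, fun ⟨m, hm⟩ => by
      beta_reduce at hm; have := hp.injective hm; omega⟩⟩
  · simpa using hp' (2 * Nat.pair i k)
  · have := hp' (2 * Nat.pair i k + 1)
    rwa [show (2 * Nat.pair i k + 1) / 2 = Nat.pair i k by omega, Nat.unpair_pair] at this

lemma ISplit.split [SecondCountableTopology Z] (h : ISplit Z) : Split Z := by
  intro 𝒰 ⟨h1, h2, h3⟩
  rcases isEmpty_or_nonempty Z with hZ | ⟨⟨z0⟩⟩
  · exact ⟨𝒰, ∅, disjoint_empty _, union_empty _, ⟨h1, h2, h3⟩, by simp, by simp, fun z => isEmptyElim z⟩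
  have H : ∀ e : Set (Set Z), ∃ T, T.Countable ∧ T ⊆ 𝒰 \ e ∧ ⋃₀ T = ⋃₀ (𝒰 \ e) := fun e =>
    TopologicalSpace.isOpen_sUnion_countable _ fun U hU => h1 U hU.1
  choose T T1 T2 T3 using H
  obtain ⟨b, -, b1, b2, b3⟩ := Sk.close 𝒰 T (fun e _ => T1 e) (fun e => (T2 e).trans diff_subset)
    countable_empty (empty_subset _)
  have h4 : ∀ z, {U ∈ b | z ∈ U}.Infinite := fun z hf => by
    obtain ⟨U, h5, h6⟩ := (h3 z).exists_notMem_finite hf
    obtain ⟨V, h7, h8⟩ := (T3 {U ∈ b | z ∈ U}).symm.subset ⟨U, ⟨h5.1, h6⟩, h5.2⟩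
    exact (T2 _ h7).2 ⟨b3 _ (sep_subset _ _) hf h7, h8⟩
  have := b1.to_subtype
  have := ((h4 z0).mono (sep_subset _ _)).to_subtype
  obtain ⟨e⟩ := nonempty_equiv_of_countable (α := ℕ) (β := b)
  have hi : Injective fun n => (e n).1 := Subtype.val_injective.comp e.injective
  obtain ⟨A, hA⟩ := h (fun n => (e n).1) (fun n => h1 _ (b2 (e n).2)) fun z =>
    Infinite.of_image (fun n => (e n).1) ((h4 z).mono fun U hU =>
      ⟨e.symm ⟨U, hU.1⟩, by simpa using hU.2, by simp⟩)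
  have h5 : (fun n => (e n).1) '' A ⊆ 𝒰 := by rintro _ ⟨n, -, rfl⟩; exact b2 (e n).2
  refine ⟨_, 𝒰 \ (fun n => (e n).1) '' A, disjoint_sdiff_right, union_diff_cancel h5,
    ⟨fun U hU => h1 U (h5 hU), fun h => h2 (h5 h), fun z => ((hA z).1.image hi.injOn).mono ?_⟩,
    fun U hU => h1 U hU.1, fun h => h2 h.1, fun z => ((hA z).2.image hi.injOn).mono ?_⟩
  · rintro _ ⟨n, hn, rfl⟩
    exact ⟨⟨n, hn.2, rfl⟩, hn.1⟩
  · rintro _ ⟨n, hn, rfl⟩
    exact ⟨⟨b2 (e n).2, fun ⟨m, h6, h7⟩ => hn.2 (hi h7 ▸ h6)⟩, hn.1⟩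

lemma Split.isplit [T1Space Y] (h : Split Y) : ISplit Y := by
  intro D h1 h2
  rcases isEmpty_or_nonempty Y with hY | hY
  · exact ⟨∅, fun z => isEmptyElim z⟩
  let J : Set ℕ := {j | (D j).Infinite}
  let C : Set Y := {y | ({n | y ∈ D n} \ J).Infinite}
  have c0 : ∀ y ∈ C, ∃ j, y ∈ D j ∧ (D j).Finite := fun y hy =>
    let ⟨j, hj⟩ := hy.nonempty; ⟨j, hj.1, not_not.1 hj.2⟩
  have c1 : C.Countable := (countable_iUnion fun j : {j // (D j).Finite} => j.2.countable).mono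
    fun y hy => let ⟨j, h3, h4⟩ := c0 y hy; mem_iUnion.2 ⟨⟨j, h4⟩, h3⟩
  have c2 : IsOpen C := isOpen_iff_forall_mem_open.2 fun y hy => by
    obtain ⟨j, h3, h4⟩ := c0 y hy
    refine ⟨D j \ (D j \ {y}), fun x hx => ?_, (h1 j).sdiff h4.diff.isClosed, h3, fun h => h.2 rfl⟩
    rwa [show x = y from by_contra fun h => hx.2 ⟨hx.1, h⟩]
  obtain ⟨A0, hA0⟩ := cnt_split (c1.image fun y => {n | y ∈ D n} \ J)
  have c3 : ∀ y, y ∉ C → ({n | y ∈ D n} ∩ J).Infinite := fun y hy hf =>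
    h2 y (((not_not.1 hy : Set.Finite _).union hf).subset (by rw [diff_union_inter]))
  suffices H : ∃ A1 ⊆ J, ∀ y, y ∉ C →
      ({n | y ∈ D n} ∩ A1).Infinite ∧ (({n | y ∈ D n} ∩ J) \ A1).Infinite by
    obtain ⟨A1, h3, h4⟩ := H
    refine ⟨A1 ∪ A0 \ J, fun y => ?_⟩
    by_cases hy : y ∈ C
    · obtain ⟨h5, h6⟩ := hA0 _ ⟨y, hy, rfl⟩ hy
      exact ⟨h5.mono fun n hn => ⟨hn.1.1, Or.inr ⟨hn.2, hn.1.2⟩⟩, h6.mono fun n hn =>
        ⟨hn.1.1, fun h => h.elim (fun h => hn.1.2 (h3 h)) fun h => hn.2 h.1⟩⟩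
    · exact ⟨(h4 y hy).1.mono fun n hn => ⟨hn.1, Or.inl hn.2⟩, (h4 y hy).2.mono fun n hn =>
        ⟨hn.1.1, fun h => h.elim hn.2 fun h => h.2 hn.1.2⟩⟩
  by_cases hJ : J.Finite
  · exact ⟨∅, empty_subset _, fun y hy => absurd (hJ.inter_of_right _) (c3 y hy)⟩
  obtain ⟨p, hp⟩ := wf_rec (T := ℕ) (β := Y) (fun j p q => j ∈ J →
      ∀ i < j, p i ≠ q ∧ q ∈ D j ∪ C ∧ (D i ∪ C) \ {p i} ≠ (D j ∪ C) \ {q}) (fun j p => by
      by_cases hj : j ∈ J
      swap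
      · exact ⟨p 0, fun h => absurd h hj⟩
      have hf : {q ∈ D j ∪ C | (D j ∪ C) \ {q} ∈ (fun i => (D i ∪ C) \ {p i}) '' Iio j}.Finite :=
        Finite.of_finite_image (f := fun q => (D j ∪ C) \ {q}) (((finite_Iio j).image _).subset (by
          rintro _ ⟨q, hq, rfl⟩; exact hq.2)) fun q hq q' _ e => by_contra fun hn =>
            (e.symm.subset ⟨hq.1, hn⟩).2 rfl
      obtain ⟨q, h3, h4⟩ := (Set.Infinite.mono subset_union_left hj).exists_notMem_finite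
        (((finite_Iio j).image p).union hf)
      exact ⟨q, fun _ i hi => ⟨fun e => h4 (Or.inl ⟨i, hi, e⟩), h3,
        fun e => h4 (Or.inr ⟨h3, i, hi, e⟩)⟩⟩)
    fun j f g q e h hj i hi => e i hi ▸ h hj i hi
  let E : ℕ → Set Y := fun j => (D j ∪ C) \ {p j}
  have hE : InjOn E J := fun i hi j hj e => by
    rcases lt_trichotomy i j with h | h | h
    exacts [absurd e (hp j hj i h).2.2, h, absurd e.symm (hp i hi j h).2.2]
  have hpi : ∀ y, (J ∩ {j | p j = y}).Finite := fun y => Set.Subsingleton.finite fun i hi j hj => by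
    rcases lt_trichotomy i j with h | h | h
    exacts [absurd (hi.2.trans hj.2.symm) (hp j hj.1 i h).1, h,
      absurd (hj.2.trans hi.2.symm) (hp i hi.1 j h).1]
  obtain ⟨𝒱, 𝒲, h3, h4, h5, h6⟩ := h (E '' J) ⟨by
      rintro _ ⟨j, -, rfl⟩
      exact ((h1 j).union c2).sdiff isClosed_singleton,
    fun ⟨j, _, e⟩ => (e.symm.subset (mem_univ (p j))).2 rfl, fun y => by
      have : ((J ∩ {j | y ∈ D j ∪ C}) \ (J ∩ {j | p j = y})).Infinite := by
        refine Infinite.diff ?_ (hpi y)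
        by_cases hy : y ∈ C
        · exact Set.Infinite.mono (fun j hj => ⟨hj, Or.inr hy⟩) hJ
        · exact (c3 y hy).mono fun j hj => ⟨hj.2, Or.inl hj.1⟩
      refine (this.image (hE.mono fun j hj => hj.1.1)).mono ?_
      rintro _ ⟨j, hj, rfl⟩
      exact ⟨⟨j, hj.1.1, rfl⟩, hj.1.2, fun e => hj.2 ⟨hj.1.1, e.symm⟩⟩⟩
  refine ⟨{j ∈ J | E j ∈ 𝒱}, sep_subset _ _, fun y hy => ⟨Infinite.of_image E ((h5.2.2 y).mono
    fun U hU => ?_), Infinite.of_image E ((h6.2.2 y).mono fun U hU => ?_)⟩⟩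
  · obtain ⟨j, hj, rfl⟩ := h4.subset (Or.inl hU.1)
    exact ⟨j, ⟨hU.2.1.resolve_right hy, hj, hU.1⟩, rfl⟩
  · obtain ⟨j, hj, rfl⟩ := h4.subset (Or.inr hU.1)
    exact ⟨j, ⟨⟨hU.2.1.resolve_right hy, hj⟩, fun h => disjoint_left.1 h3 h.2 hU.1⟩, rfl⟩

lemma Menger.fn (h : Menger Y) {V : ℕ → ℕ → Set Y} (h1 : ∀ a c, IsOpen (V a c))
    (h2 : ∀ a, Monotone (V a)) (h3 : ∀ a y, ∃ c, y ∈ V a c) :
    ∃ g : ℕ → ℕ, Monotone g ∧ (∀ a, a < g a) ∧ ∀ y N, ∃ a, N ≤ a ∧ y ∈ V a (g a) := by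
  have H : ∀ N, ∃ g : ℕ → ℕ, ∀ y, ∃ a, y ∈ V (N + a) (g a) := fun N => by
    obtain ⟨F, f1, f2⟩ := h (fun a => range (V (N + a))) fun a => ⟨by
      rintro _ ⟨c, rfl⟩; exact h1 _ _, eq_univ_of_forall fun y =>
        let ⟨c, hc⟩ := h3 (N + a) y; ⟨_, ⟨c, rfl⟩, hc⟩⟩
    choose! c hc using fun a U (hU : U ∈ F a) => (f1 a).2 hU
    choose g hg using fun a => ((f1 a).1.image (c a)).bddAbove
    refine ⟨g, fun y => ?_⟩
    obtain ⟨a, U, h4, h5⟩ := mem_iUnion.1 (f2.symm.subset (mem_univ y))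
    exact ⟨a, h2 _ (hg a (mem_image_of_mem _ h4)) ((hc a U h4).symm.subset h5)⟩
  choose G hG using H
  let g : ℕ → ℕ := fun a => a + 1 + (Finset.range (a + 1) ×ˢ Finset.range (a + 1)).sup fun p => G p.1 p.2
  refine ⟨g, fun a b hab => Nat.add_le_add (by omega) (Finset.sup_mono (Finset.product_subset_product
    (Finset.range_mono (by omega)) (Finset.range_mono (by omega)))), fun a => by
      simp only [g]; omega, fun y N => ?_⟩
  obtain ⟨a, ha⟩ := hG N y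
  refine ⟨N + a, Nat.le_add_right _ _, h2 _ (le_add_left ?_) ha⟩
  exact Finset.le_sup (f := fun p : ℕ × ℕ => G p.1 p.2) (b := (N, a))
    (Finset.mem_product.2 ⟨Finset.mem_range.2 (by simp only; omega), Finset.mem_range.2 (by simp only; omega)⟩)

lemma ISplit.prod [CompactSpace X] (h : ISplit Y) (hM : Menger Y) : ISplit (X × Y) := by
  intro U h1 h2
  let W : ℕ → ℕ → Set Y := fun a b => {y | ∀ x, ∃ n ∈ Ico a b, (x, y) ∈ U n}
  have w1 : ∀ a b, IsOpen (W a b) := fun a b => by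
    have : W a b = (Prod.snd '' (⋃ n ∈ Ico a b, U n)ᶜ)ᶜ := by
      ext y
      simp [W]
      exact forall_congr' fun x => by simp [and_assoc]
    rw [this]
    exact (isClosedMap_snd_of_compactSpace _
      (isOpen_biUnion fun n _ => h1 n).isClosed_compl).isOpen_compl
  have w2 : ∀ {a b a' b'}, a' ≤ a → b ≤ b' → W a b ⊆ W a' b' := fun h h' y hy x =>
    let ⟨n, h3, h4⟩ := hy x; ⟨n, Ico_subset_Ico h h' h3, h4⟩
  have w3 : ∀ a y, ∃ b, y ∈ W a b := fun a y => by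
    obtain ⟨b, hb⟩ := isCompact_univ.elim_directed_cover
      (fun b => ⋃ n ∈ Ico a b, (fun x : X => (x, y)) ⁻¹' U n)
      (fun b => isOpen_biUnion fun n _ => (h1 n).preimage (by fun_prop)) (fun x _ => by
        obtain ⟨n, h3, h4⟩ := (h2 (x, y)).exists_gt a
        exact mem_iUnion.2 ⟨n + 1, mem_biUnion (x := n) ⟨h4.le, n.lt_succ_self⟩ h3⟩)
      (Monotone.directed_le fun b b' h => biUnion_subset_biUnion_left (Ico_subset_Ico le_rfl h))
    exact ⟨b, fun x => let ⟨n, h3, h4⟩ := mem_iUnion₂.1 (hb (mem_univ x)); ⟨n, h3, h4⟩⟩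
  obtain ⟨g, g1, g2, g3⟩ := hM.fn (V := fun a c => ⋃ b, W a b ∩ W b c)
    (fun a c => isOpen_iUnion fun b => (w1 _ _).inter (w1 _ _))
    (fun a c c' h => iUnion_mono fun b => inter_subset_inter_right _ (w2 le_rfl h)) fun a y => by
      obtain ⟨b, hb⟩ := w3 a y
      obtain ⟨c, hc⟩ := w3 b y
      exact ⟨c, mem_iUnion.2 ⟨b, hb, hc⟩⟩
  let t : ℕ → ℕ := fun j => g^[j] 0
  have ts : ∀ j, t (j + 1) = g (t j) := fun j => iterate_succ_apply' _ _ _
  have tm : StrictMono t := strictMono_nat_of_lt_succ fun j => by rw [ts]; exact g2 _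
  obtain ⟨A, hA⟩ := h (fun j => W (t j) (t (j + 1))) (fun j => w1 _ _) fun y =>
    infinite_of_forall_exists_gt fun N => by
      obtain ⟨a, h3, h4⟩ := g3 y (t (N + 1))
      obtain ⟨b, h5, h6⟩ := mem_iUnion.1 h4
      have hex : ∃ j, a < t (j + 1) := ⟨a, (Nat.lt_succ_self a).trans_le (tm.id_le _)⟩
      have h7 := Nat.find_spec hex
      have h8 : N < Nat.find hex := (Nat.lt_find_iff _ _).2 fun m hm =>
        not_lt.2 ((tm.monotone (by omega)).trans h3)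
      have h9 : t (Nat.find hex) ≤ a := by
        have := Nat.find_min hex (m := Nat.find hex - 1) (by omega)
        rwa [show Nat.find hex - 1 + 1 = Nat.find hex by omega, not_lt] at this
      rcases le_total b (t (Nat.find hex + 1)) with h10 | h10
      · exact ⟨_, w2 h9 h10 h5, h8⟩
      · exact ⟨Nat.find hex + 1, w2 h10 (by rw [ts (_ + 1)]; exact g1 h7.le) h6, by omega⟩
  have key : ∀ (z : X × Y) (B : Set ℕ), ({j | z.2 ∈ W (t j) (t (j + 1))} ∩ B).Infinite →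
      ({n | z ∈ U n} ∩ ⋃ j ∈ B, Ico (t j) (t (j + 1))).Infinite := fun z B hB =>
    infinite_of_forall_exists_gt fun N => by
      obtain ⟨j, h3, h4⟩ := hB.exists_gt N
      obtain ⟨n, h5, h6⟩ := h3.1 z.1
      exact ⟨n, ⟨h6, mem_biUnion h3.2 h5⟩, h4.trans_le ((tm.id_le j).trans h5.1)⟩
  refine ⟨⋃ j ∈ A, Ico (t j) (t (j + 1)), fun z => ⟨key z A (hA z.2).1,
    (key z Aᶜ (hA z.2).2).mono fun n hn => ⟨hn.1, fun h3 => ?_⟩⟩⟩
  obtain ⟨i, h4, h5⟩ := mem_iUnion₂.1 hn.2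
  obtain ⟨j, h6, h7⟩ := mem_iUnion₂.1 h3
  have e1 := tm.lt_iff_lt.1 (h5.1.trans_lt h7.2)
  have e2 := tm.lt_iff_lt.1 (h7.1.trans_lt h5.2)
  exact h4 ((show i = j by omega) ▸ h6)

end Pool.Agent.H30.Lam
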