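import Pool.Agent.H30.LamA
import Pool.Agent.H30.HecA

set_option autoImplicit false

namespace Pool.Agent.H30.Lam

open Set Filter Topology Function Cardinal Pool.Agent.H30.Spl Pool.Agent.H30.Hec

variable {Y : Type} [TopologicalSpace Y]

lemma dom_of_not_menger [TopologicalSpace.MetrizableSpace Y] [SecondCountableTopology Y]
    (h : ¬ Menger Y) : ∃ f : ℕ → C(Y, ℝ), ∀ g : ℕ → ℕ, ∃ y, ∀ n, (g n : ℝ) < f n y := by
  by_contra hc
  push Not at hc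
  refine h fun 𝒰 h𝒰 => ?_
  let _ := TopologicalSpace.metrizableSpaceMetric Y
  choose T T1 T2 T3 using fun n => TopologicalSpace.isOpen_sUnion_countable _ (h𝒰 n).1
  choose V hV using fun n => ((T1 n).insert ∅).exists_eq_range (insert_nonempty _ _)
  have V1 : ∀ n m, IsOpen (V n m) := fun n m => by
    rcases (hV n).symm.subset ⟨m, rfl⟩ with h | h
    exacts [h ▸ isOpen_empty, (h𝒰 n).1 _ (T2 n h)]
  have H : ∀ n, ∃ f : C(Y, ℝ), ∀ y, f y ∈ {r : ℝ | ∃ m : ℕ, y ∈ V n m ∧ (m : ℝ) ≤ r} := fun n =>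
    exists_continuous_forall_mem_convex_of_local_const (fun y => OrdConnected.convex
      (IsUpperSet.ordConnected fun a b hab ⟨m, h1, h2⟩ => ⟨m, h1, h2.trans hab⟩)) fun y => by
      obtain ⟨U, h1, h2⟩ := ((T3 n).trans (h𝒰 n).2).symm.subset (mem_univ y)
      obtain ⟨m, rfl⟩ := (hV n).subset (mem_insert_of_mem _ h1)
      exact ⟨m, mem_of_superset ((V1 n m).mem_nhds h2) fun z hz => ⟨m, hz, le_rfl⟩⟩
  choose f hf using H
  obtain ⟨g, hg⟩ := hc f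
  refine ⟨fun n => V n '' Iic (g n) ∩ 𝒰 n, fun n => ⟨((finite_Iic _).image _).inter_of_left _,
    inter_subset_right⟩, eq_univ_of_forall fun y => ?_⟩
  obtain ⟨n, hn⟩ := hg y
  obtain ⟨m, h1, h2⟩ := hf n y
  refine mem_iUnion.2 ⟨n, V n m, ⟨⟨m, Nat.cast_le.1 (h2.trans hn), rfl⟩, ?_⟩, h1⟩
  rcases (hV n).symm.subset ⟨m, rfl⟩ with h | h
  exacts [absurd h1 (h ▸ notMem_empty y), T2 n h]

lemma not_split {f : ℕ → C(Y, ℝ)} (hf : ∀ g : ℕ → ℕ, ∃ y, ∀ᶠ n in atTop, (g n : ℝ) < f n y) :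
    ¬ Split ((ℕ → unitInterval) × Y) := fun h => by
  let v : ℕ → (ℕ → unitInterval) × Y → ℝ := fun n z => z.1 (n + 1) * |f n z.2| + n
  let U : ℕ → Set ((ℕ → unitInterval) × Y) := fun k =>
    {z | (z.1 0 : ℝ) = 1 / ((k : ℝ) + 1)}ᶜ ∩ ({z | 0 < (z.1 0 : ℝ)} ∪ ⋃ n, {z | |v n z - k| < 1})
  obtain ⟨y0, -⟩ := hf 0
  have hp : ∀ k : ℕ, 0 < 1 / ((k : ℝ) + 1) := fun k => Nat.one_div_pos_of_nat
  let p : ℕ → (ℕ → unitInterval) × Y := fun k => (fun _ => ⟨1 / ((k : ℝ) + 1), (hp k).le,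
    (div_le_one (Nat.cast_add_one_pos k)).2 (by linarith [Nat.cast_nonneg (α := ℝ) k])⟩, y0)
  have hi : Injective fun k : ℕ => 1 / ((k : ℝ) + 1) := fun k l h => by simpa using h
  have hU : Injective U := fun k l e => by_contra fun hn =>
    (e.subset (show p l ∈ U k from ⟨fun h => hn (hi h).symm, Or.inl (hp l)⟩)).1 rfl
  obtain ⟨𝒱, 𝒲, h1, h2, h3, h4⟩ := h (range U) ⟨by
      rintro _ ⟨k, rfl⟩
      exact (isClosed_eq (by fun_prop) continuous_const).isOpen_compl.inter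
        ((isOpen_lt continuous_const (by fun_prop)).union (isOpen_iUnion fun n =>
          isOpen_lt (by fun_prop) continuous_const)),
    fun ⟨k, e⟩ => (e.symm.subset (mem_univ (p k))).1 rfl, fun z => by
      have : {k | z ∈ U k}.Infinite := infinite_of_forall_exists_gt fun N => by
        rcases (z.1 0).2.1.eq_or_lt with h0 | h0
        · have h5 : ((N + 1 : ℕ) : ℝ) ≤ v (N + 1) z :=
            le_add_of_nonneg_left (mul_nonneg (z.1 _).2.1 (abs_nonneg _))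
          refine ⟨⌊v (N + 1) z⌋₊, ⟨fun h => (hp _).ne (h0.trans h), Or.inr (mem_iUnion.2 ⟨N + 1,
            abs_sub_lt_iff.2 ⟨sub_lt_iff_lt_add'.2 (Nat.lt_floor_add_one _), (sub_nonpos.2
              (Nat.floor_le ((Nat.cast_nonneg _).trans h5))).trans_lt one_pos⟩⟩)⟩, Nat.le_floor h5⟩
        · by_cases h5 : (z.1 0 : ℝ) = 1 / (((N + 1 : ℕ) : ℝ) + 1)
          · exact ⟨N + 2, ⟨fun h => by have := hi (h5.symm.trans h); omega, Or.inl h0⟩, by omega⟩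
          · exact ⟨N + 1, ⟨h5, Or.inl h0⟩, by omega⟩
      refine (this.image hU.injOn).mono ?_
      rintro _ ⟨k, hk, rfl⟩
      exact ⟨⟨k, rfl⟩, hk⟩⟩
  have hA : {k | U k ∈ 𝒱}.Infinite := Infinite.of_image U ((h3.2.2 (p 0)).mono fun V hV =>
    let ⟨k, hk⟩ := h2.subset (Or.inl hV.1); ⟨k, show U k ∈ 𝒱 from hk ▸ hV.1, hk⟩)
  choose a a1 a2 using hA.exists_gt
  obtain ⟨y, hy⟩ := hf a
  obtain ⟨N, hN⟩ := eventually_atTop.1 hy
  have H : ∀ n, ∃ t : unitInterval, t * |f n y| + n = ((if n < N then n else a n : ℕ) : ℝ) := fun n => by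
    split_ifs with h5
    · exact ⟨0, by simp⟩
    have h6 := (hN n (not_lt.1 h5)).trans_le (le_abs_self _)
    have h7 : (n : ℝ) < a n := Nat.cast_lt.2 (a2 n)
    have h8 : (0 : ℝ) ≤ n := Nat.cast_nonneg n
    have h9 : 0 < |f n y| := by linarith
    exact ⟨⟨(a n - n) / |f n y|, div_nonneg (by linarith) h9.le, (div_le_one h9).2 (by linarith)⟩, by
      simp only [div_mul_cancel₀ _ h9.ne', sub_add_cancel]⟩
  choose t ht using H
  refine h4.2.2 (fun n => Nat.casesOn n 0 t, y) (((finite_lt_nat N).image U).subset fun V hV => ?_)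
  obtain ⟨k, rfl⟩ := h2.subset (Or.inr hV.1)
  obtain ⟨n, hn⟩ := mem_iUnion.1 (hV.2.2.resolve_left (lt_irrefl (0 : ℝ)))
  have h5 : |((if n < N then n else a n : ℕ) : ℝ) - k| < 1 := ht n ▸ hn
  have h6 : (if n < N then n else a n) = k := by
    rw [abs_sub_lt_iff] at h5
    have e1 : (if n < N then n else a n) < k + 1 := by exact_mod_cast sub_lt_iff_lt_add'.1 h5.1
    have e2 : k < (if n < N then n else a n) + 1 := by exact_mod_cast sub_lt_iff_lt_add'.1 h5.2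
    omega
  split_ifs at h6 with h7
  · exact ⟨k, h6 ▸ h7, rfl⟩
  · exact absurd hV.1 (disjoint_left.1 h1 (h6 ▸ a1 n))

def Uc (c : ℕ → Set (List ℕ)) (n : ℕ) : Set (ℕ → ℕ) := ⋃ s ∈ c n, cyl s

def Gc (c : ℕ → Set (List ℕ)) (A : Set ℕ) (N : ℕ) : Set (ℕ → ℕ) := ⋃ n ∈ A ∩ Ici N, Uc c n

lemma Gc_op (c : ℕ → Set (List ℕ)) (A : Set ℕ) (N : ℕ) : Op (Gc c A N) :=
  Op.iUnion fun _ => Op.iUnion fun _ => Op.iUnion fun s => Op.iUnion fun _ => O_zero s ▸ O_op s 0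

def Fav (c : ℕ → Set (List ℕ)) (t : List ℕ) : Set ℕ := {n | ∀ g, (O t g ∩ Uc c n).Nonempty}

lemma O_step {t : List ℕ} {g : List ℕ → ℕ} {k : ℕ} (h : g t ≤ k) : O (t ++ [k]) g ⊆ O t g :=
  fun y hy => by
    have h1 := hy.1
    rw [List.length_append, List.length_singleton, pre_succ] at h1
    obtain ⟨h2, h3⟩ := List.append_inj' h1 rfl
    refine ⟨h2, fun n hn => ?_⟩
    rcases hn.eq_or_lt with rfl | hn
    · rw [h2, List.singleton_inj.1 h3]; exact h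
    · exact hy.2 n (by simpa using hn)

lemma fav_step {c : ℕ → Set (List ℕ)} {t : List ℕ} {n : ℕ} (h : n ∈ Fav c t) (m : ℕ) :
    ∃ k, m ≤ k ∧ n ∈ Fav c (t ++ [k]) := by
  by_contra hc
  simp only [Fav, mem_setOf_eq, not_exists, not_and, not_forall] at hc
  choose! g hg using hc
  obtain ⟨y, h1, h2⟩ := h fun w => if w.length = t.length then m else g (w.getD t.length 0) w
  refine hg (y t.length) (by simpa using h1.2 _ le_rfl) ⟨y, ⟨by simp [pre_succ, h1.1], fun j hj => ?_⟩, h2⟩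
  have h3 : t.length < j := by simpa using hj
  have := h1.2 j h3.le
  simp only [pre_len, if_neg h3.ne', pre_getD, if_pos h3] at this
  exact this

def Zs (c : ℕ → Set (List ℕ)) (p : List ℕ × ℕ) : Set ℕ := ⋃ k ∈ Ici p.2, Fav c (p.1 ++ [k])

lemma dn_of_split {c : ℕ → Set (List ℕ)} (h : ∀ N, Dn (Gc c univ N)) {A : Set ℕ}
    (hA : ∀ p, (Zs c p).Infinite → (Zs c p ∩ A).Infinite) (N : ℕ) : Dn (Gc c A N) := by
  intro s g
  suffices H : ∃ t, O t g ⊆ O s g ∧ (Zs c (t, g t)).Infinite by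
    obtain ⟨t, h1, h2⟩ := H
    obtain ⟨n, ⟨h3, h4⟩, h5⟩ := (hA _ h2).exists_gt N
    obtain ⟨k, h6, h7⟩ := mem_iUnion₂.1 h3
    exact (h7 g).mono (inter_subset_inter ((O_step h6).trans h1)
      (subset_biUnion_of_mem (u := Uc c) (show n ∈ A ∩ Ici N from ⟨h4, h5.le⟩)))
  by_contra hc
  simp only [not_exists, not_and, not_infinite] at hc
  obtain ⟨M, hM⟩ := (hc s Subset.rfl).bddAbove
  have H : ∀ t, O t g ⊆ O s g → (∀ n ∈ Fav c t, n ≤ M) →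
      ∃ m, g t ≤ m ∧ ∀ k, m ≤ k → ∀ n ∈ Fav c (t ++ [k]), n ≤ M := fun t h1 h2 => by
    have h3 : ∀ n, M < n → ∃ g', ¬ (O t g' ∩ Uc c n).Nonempty := fun n hn =>
      not_forall.1 fun h => (h2 n h).not_gt hn
    choose! G hG using h3
    obtain ⟨m, hm⟩ := ((hc t h1).image fun n => G n t).bddAbove
    refine ⟨max (g t) m, le_max_left _ _, fun k hk n hn => not_lt.1 fun h4 => hG n h4
      ((hn _).mono (inter_subset_inter_left _ (O_step ?_)))⟩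
    exact (hm ⟨n, mem_biUnion ((le_max_left _ _).trans hk) hn, rfl⟩).trans ((le_max_right _ _).trans hk)
  choose! m m1 m2 using H
  obtain ⟨y, h1, h2⟩ := h (M + 1) s m
  have key : ∀ j, s.length ≤ j → O (pre y j) g ⊆ O s g ∧ ∀ n ∈ Fav c (pre y j), n ≤ M := by
    intro j hj
    induction j, hj using Nat.le_induction with
    | base =>
      rw [h1.1]
      exact ⟨Subset.rfl, fun n hn => let ⟨k, h3, h4⟩ := fav_step hn (g s); hM (mem_biUnion h3 h4)⟩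
    | succ j hj ih =>
      rw [pre_succ]
      exact ⟨(O_step ((m1 _ ih.1 ih.2).trans (h1.2 j hj))).trans ih.1, m2 _ ih.1 ih.2 _ (h1.2 j hj)⟩
  obtain ⟨n, h3, h4⟩ := mem_iUnion₂.1 h2
  obtain ⟨u, h5, h6⟩ := mem_iUnion₂.1 h4
  refine ((key _ (le_max_left _ u.length)).2 n fun g' => (O_ne _ g').mono fun z hz =>
    ⟨hz, mem_biUnion h5 ?_⟩).not_gt h3.2
  rw [← show pre y u.length = u from h6]
  exact mem_cyl.2 fun k hk => mem_cyl.1 (O_sub _ _ hz) k (hk.trans_le (le_max_right _ _))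

lemma pick {𝒢 : Set (Set (ℕ → ℕ))} (hc : 𝒢.Countable) (ho : ∀ G ∈ 𝒢, Op G) (s : List ℕ)
    (g : List ℕ → ℕ) : ∃ y ∈ O s g, ∀ G ∈ 𝒢, Dn G → y ∈ G := by
  obtain ⟨G, hG⟩ := ((hc.mono (sep_subset 𝒢 Dn)).insert Set.univ).exists_eq_range (insert_nonempty _ _)
  have H : ∀ j, Op (G j) ∧ Dn (G j) := fun j => by
    rcases hG.symm.subset ⟨j, rfl⟩ with h | h
    · rw [h]
      exact ⟨fun f _ => ⟨0, 0, ⟨rfl, fun _ _ => Nat.zero_le _⟩, subset_univ _⟩,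
        fun s g => by simpa using O_ne s g⟩
    · exact ⟨ho _ h.1, h.2⟩
  obtain ⟨y, h1, h2⟩ := baire (fun j => (H j).1) (fun j => (H j).2) s g
  refine ⟨y, h1, fun V h3 h4 => ?_⟩
  obtain ⟨j, rfl⟩ := hG.subset (mem_insert_of_mem _ ⟨h3, h4⟩)
  exact mem_iInter.1 h2 j

theorem exists_ch (hc : (𝔠 : Cardinal.{0}) = ℵ₁) : ∃ D : Set (ℕ → ℕ),
    (∀ g : ℕ → ℕ, ∃ f ∈ D, ∀ᶠ n in atTop, g n ≤ f n) ∧ ISplit D := by
  obtain ⟨e1, he1⟩ := enum (S := (univ : Set (ℕ → Set (List ℕ)))) (T := W1) (P := univ) (by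
    simp [mk_W1, ← hc])
  obtain ⟨e2, he2⟩ := enum (S := (univ : Set (ℕ → ℕ))) (T := W1) (P := univ) (by
    simp [mk_W1, ← hc])
  obtain ⟨F, hF⟩ := wf_rec (T := W1) (β := (ℕ → ℕ) × Set ℕ) (fun α F q =>
    (∀ a ∈ range (Zs (e1 α)) ∪ (fun β => {n | (F β).1 ∈ Uc (e1 α) n}) '' Iio α, a.Infinite →
      (a ∩ q.2).Infinite ∧ (a \ q.2).Infinite) ∧
    (∀ G ∈ (range (Gc (e1 α) q.2) ∪ range (Gc (e1 α) q.2ᶜ)) ∪ ⋃ β ∈ Iio α,
      (range (Gc (e1 β) (F β).2) ∪ range (Gc (e1 β) (F β).2ᶜ)), Dn G → q.1 ∈ G) ∧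
    (∀ᶠ n in atTop, e2 α n ≤ q.1 n) ∧
    ((∀ N, q.1 ∈ Gc (e1 α) univ N) → ∀ N, Dn (Gc (e1 α) univ N))) (fun α F => by
      obtain ⟨A, hA⟩ := cnt_split ((countable_range (Zs (e1 α))).union
        ((W1_Iio α).image fun β => {n | (F β).1 ∈ Uc (e1 α) n}))
      have H : ∃ s g, (∃ y ∈ O s g, ∀ N, y ∈ Gc (e1 α) univ N) → ∀ N, Dn (Gc (e1 α) univ N) := by
        by_cases h : ∀ N, Dn (Gc (e1 α) univ N)
        · exact ⟨[], 0, fun _ => h⟩
        · simp only [Dn, not_forall] at h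
          obtain ⟨N, s, g, h⟩ := h
          exact ⟨s, g, fun ⟨y, h1, h2⟩ => absurd ⟨y, h1, h2 N⟩ h⟩
      obtain ⟨s, g, h1⟩ := H
      obtain ⟨y, h2, h3⟩ := pick ((((countable_range (Gc (e1 α) A)).union
        (countable_range (Gc (e1 α) Aᶜ))).union ((W1_Iio α).biUnion fun β _ =>
          (countable_range (Gc (e1 β) (F β).2)).union (countable_range (Gc (e1 β) (F β).2ᶜ)))).insert
          (⋃ s, O s fun w => e2 α w.length)) (by
        simp only [mem_insert_iff, mem_union, mem_iUnion]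
        rintro _ (rfl | (⟨N, rfl⟩ | ⟨N, rfl⟩) | ⟨β, -, ⟨N, rfl⟩ | ⟨N, rfl⟩⟩)
        exacts [Op.iUnion fun _ => O_op _ _, Gc_op _ _ _, Gc_op _ _ _, Gc_op _ _ _, Gc_op _ _ _]) s g
      obtain ⟨u, hu⟩ := mem_iUnion.1 (h3 _ (mem_insert _ _) fun s g =>
        (O_int s g _).mono (inter_subset_inter_right _ (subset_iUnion _ s)))
      exact ⟨(y, A), hA, fun G hG => h3 G (mem_insert_of_mem _ hG),
        eventually_atTop.2 ⟨u.length, fun n hn => by simpa using hu.2 n hn⟩, fun h => h1 ⟨y, h2, h⟩⟩)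
    fun α f g q e h => by
      rw [image_congr (g := fun β => {n | (f β).1 ∈ Uc (e1 α) n}) fun β hβ => by rw [e β hβ],
        iUnion₂_congr (t := fun β _ => range (Gc (e1 β) (f β).2) ∪ range (Gc (e1 β) (f β).2ᶜ))
          fun β hβ => by rw [e β hβ]]
      exact h
  refine ⟨range fun α => (F α).1, fun g => ?_, fun U h1 h2 => ?_⟩
  · obtain ⟨α, -, rfl⟩ := he2 (mem_univ g)
    exact ⟨_, ⟨α, rfl⟩, (hF α).2.2.1⟩
  choose V V1 V2 using fun n => isOpen_induced_iff.1 (h1 n)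
  obtain ⟨α, -, hα⟩ := he1 (mem_univ fun n => {s | cyl s ⊆ V n})
  have h3 : ∀ β n, (⟨_, β, rfl⟩ : range fun α => (F α).1) ∈ U n ↔ (F β).1 ∈ Uc (e1 α) n := fun β n => by
    rw [← V2, hα]
    refine ⟨fun h => ?_, fun h => let ⟨s, h4, h5⟩ := mem_iUnion₂.1 h; h4 h5⟩
    obtain ⟨I, u, h4, h5⟩ := isOpen_pi_iff.1 (V1 n) _ h
    refine mem_biUnion (x := pre (F β).1 (I.sup id + 1)) (fun z hz => h5 fun i hi => ?_)
      (mem_cyl.2 fun _ _ => rfl)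
    rw [mem_cyl.1 hz i (Nat.lt_succ_of_le (Finset.le_sup (f := id) hi))]
    exact (h4 i hi).2
  have h4 := (hF α).2.2.2 fun N => by
    obtain ⟨n, h4, h5⟩ := (h2 ⟨_, α, rfl⟩).exists_gt N
    exact mem_biUnion (x := n) ⟨trivial, h5.le⟩ ((h3 α n).1 h4)
  have d1 := dn_of_split h4 fun p hp => ((hF α).1 _ (Or.inl ⟨p, rfl⟩) hp).1
  have d2 := dn_of_split h4 (A := (F α).2ᶜ) fun p hp => ((hF α).1 _ (Or.inl ⟨p, rfl⟩) hp).2
  refine ⟨(F α).2, ?_⟩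
  rintro ⟨_, β, rfl⟩
  have h5 := h2 ⟨_, β, rfl⟩
  simp only [h3] at h5 ⊢
  have key : ∀ A : Set ℕ, (∀ N, (F β).1 ∈ Gc (e1 α) A N) →
      ({n | (F β).1 ∈ Uc (e1 α) n} ∩ A).Infinite := fun A h => infinite_of_forall_exists_gt fun N =>
    let ⟨n, h6, h7⟩ := mem_iUnion₂.1 (h (N + 1)); ⟨n, ⟨h7, h6.1⟩, h6.2⟩
  rcases lt_trichotomy β α with h | rfl | h
  · exact (hF α).1 _ (Or.inr ⟨β, h, rfl⟩) h5
  · exact ⟨key _ fun N => (hF β).2.1 _ (Or.inl (Or.inl ⟨N, rfl⟩)) (d1 N),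
      key _ fun N => (hF β).2.1 _ (Or.inl (Or.inr ⟨N, rfl⟩)) (d2 N)⟩
  · exact ⟨key _ fun N => (hF β).2.1 _ (Or.inr (mem_biUnion h (Or.inl ⟨N, rfl⟩))) (d1 N),
      key _ fun N => (hF β).2.1 _ (Or.inr (mem_biUnion h (Or.inr ⟨N, rfl⟩))) (d2 N)⟩

end Pool.Agent.H30.Lam
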