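import Mathlib

set_option autoImplicit false

namespace Pool.Agent.H30.LinL

open Set Filter Topology

universe u v

lemma box {X : Type u} [TopologicalSpace X] {V : Set C(X, ℝ)}
    (h : V ∈ comap (fun (f : C(X, ℝ)) (x : X) => f x) (𝓝 0)) :
    ∃ P : Set X, P.Finite ∧ ∀ f : C(X, ℝ), (∀ x ∈ P, f x = 0) → f ∈ V := by
  obtain ⟨W, h1, h2⟩ := h
  rw [nhds_pi, Filter.mem_pi] at h1
  obtain ⟨P, k1, t, k2, k3⟩ := h1
  exact ⟨P, k1, fun f hf => h2 (k3 fun x hx => show f x ∈ _ from hf x hx ▸ mem_of_mem_nhds (k2 x))⟩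

lemma zero {r : ℝ} (h : ∀ c : ℝ, c * r < 1) : r = 0 := by
  by_contra k
  simpa [k] using h r⁻¹

variable {X : Type u} {Y : Type v} [TopologicalSpace X] [TopologicalSpace Y]

lemma ev (x : X) : {f : C(X, ℝ) | f x < 1} ∈ comap (fun (f : C(X, ℝ)) (x : X) => f x) (𝓝 0) :=
  preimage_mem_comap (t := {f : X → ℝ | f x < 1})
    ((isOpen_lt (continuous_apply x) continuous_const).mem_nhds (by simp))

lemma suppP (φ : C(Y, ℝ) →ₗ[ℝ] C(X, ℝ)) (h : Continuous[TopologicalSpace.induced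
    (fun (f : C(Y, ℝ)) (y : Y) => f y) inferInstance, TopologicalSpace.induced
    (fun (f : C(X, ℝ)) (x : X) => f x) inferInstance] φ) (x : X) :
    ∃ P : Set Y, P.Finite ∧ ∀ f g : C(Y, ℝ), EqOn f g P → φ f x = φ g x := by
  have := @Continuous.tendsto _ _ (TopologicalSpace.induced _ _) (TopologicalSpace.induced _ _) _ h 0
  rw [nhds_induced, nhds_induced, map_zero] at this
  obtain ⟨P, h1, h2⟩ := box (this (ev x))
  refine ⟨P, h1, fun f g e => sub_eq_zero.1 (zero fun c => ?_)⟩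
  simpa using h2 (c • (f - g)) fun q hq => by simp [e hq]

lemma suppQ (φ : C(Y, ℝ) →ₗ[ℝ] C(X, ℝ)) (h : @IsInducing _ _ (TopologicalSpace.induced
    (fun (f : C(Y, ℝ)) (y : Y) => f y) inferInstance) (TopologicalSpace.induced
    (fun (f : C(X, ℝ)) (x : X) => f x) inferInstance) φ) (y : Y) :
    ∃ Q : Set X, Q.Finite ∧ ∀ f : C(Y, ℝ), (∀ x ∈ Q, φ f x = 0) → f y = 0 := by
  have := @IsInducing.nhds_eq_comap _ _ _ (TopologicalSpace.induced _ _)
    (TopologicalSpace.induced _ _) h 0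
  rw [nhds_induced, nhds_induced, map_zero] at this
  obtain ⟨V, h1, h2⟩ := (le_of_eq this.symm) (ev y)
  obtain ⟨Q, k1, k2⟩ := box h1
  refine ⟨Q, k1, fun f hf => zero fun c => ?_⟩
  simpa using h2 (a := c • f) (k2 _ fun x hx => by simpa using Or.inr (hf x hx))

end Pool.Agent.H30.LinL
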