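import Pool.Agent.H30.LinL

set_option autoImplicit false

namespace Pool.Agent.H30.LinL

open Set Filter Topology Cardinal

universe u

lemma sm_bU {I J : Type u} {κ : Cardinal.{u}} (hκ : ℵ₀ ≤ κ) {C : Set J} {f : J → Set I}
    (h : #C ≤ κ) (h' : ∀ c ∈ C, #(f c) ≤ κ) : #(⋃ c ∈ C, f c : Set I) ≤ κ := by
  rw [biUnion_eq_iUnion]
  exact (mk_iUnion_le _).trans ((mul_le_mul' h (ciSup_le' fun c : C => h' c c.2)).trans
    (mul_eq_self hκ).le)

lemma sm_U {I : Type u} {κ : Cardinal.{u}} (hκ : ℵ₀ ≤ κ) {A B : Set I} (h : #A ≤ κ) (h' : #B ≤ κ) :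
    #(A ∪ B : Set I) ≤ κ := (mk_union_le _ _).trans ((add_le_add h h').trans (add_eq_self hκ).le)

lemma sm_cU {I : Type u} {J : Type*} [Countable J] {κ : Cardinal.{u}} (hκ : ℵ₀ ≤ κ) {f : J → Set I}
    (h' : ∀ c, #(f c) ≤ κ) : #(⋃ c, f c : Set I) ≤ κ := by
  obtain ⟨e, he⟩ := exists_injective_nat J
  refine (mk_le_mk_of_subset fun y hy => ?_).trans (sm_bU (J := ULift ℕ) (C := univ)
    (f := fun n => ⋃ c ∈ {c | e c = n.down}, f c) hκ (mk_le_aleph0.trans hκ) fun n _ => ?_)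
  · obtain ⟨c, hc⟩ := mem_iUnion.1 hy
    exact mem_biUnion (mem_univ ⟨e c⟩) (mem_biUnion rfl hc)
  by_cases k : ∃ c, e c = n.down
  · obtain ⟨c, hc⟩ := k
    refine (mk_le_mk_of_subset (iUnion₂_subset fun d hd => ?_)).trans (h' c)
    rw [he (hd.trans hc.symm)]
  · simp [not_exists.1 k]

variable {I Y : Type u} [LinearOrder I] [WellFoundedLT I] [TopologicalSpace Y] {κ : Cardinal.{u}}

lemma recu (hκ : ℵ₀ ≤ κ) (hI : ∀ i : I, #(Iic i) ≤ κ) (S : Set I) (r : Set I → Set I)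
    (h : ∀ C ⊆ S, #C ≤ κ → ¬ #(S \ r C : Set I) ≤ κ) :
    ∃ W ⊆ S, ¬ #W ≤ κ ∧ ∀ i ∈ W, i ∉ r (W ∩ Iio i) := by
  obtain ⟨W, hW⟩ : ∃ W : I → Prop, ∀ i, W i ↔ i ∈ S ∧ i ∉ r (Iio i ∩ {j | W j}) := by
    refine ⟨(wellFounded_lt (α := I)).fix fun i ih => i ∈ S ∧ i ∉ r {j | ∃ h : j < i, ih j h},
      fun i => ?_⟩
    rw [WellFounded.fix_eq]; simp only [exists_prop]; rfl
  refine ⟨{j | W j}, fun i hi => ((hW i).1 hi).1, fun k => ?_, fun i hi => inter_comm _ _ ▸ ((hW i).1 hi).2⟩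
  refine h {j | W j} (fun i hi => ((hW i).1 hi).1) k ((mk_le_mk_of_subset fun i hi => ?_).trans
    (sm_bU hκ k fun c _ => hI c))
  by_contra c
  have l : ∀ j, W j → j < i := fun j hj => not_le.1 fun e => c (mem_biUnion hj e)
  exact (l i ((hW i).2 ⟨hi.1, by rw [inter_eq_right.2 (show {j | W j} ⊆ Iio i from l)]; exact hi.2⟩)).false

lemma core [NormalSpace Y] [T1Space Y] (hκ : ℵ₀ ≤ κ) (hI : ∀ i : I, #(Iic i) ≤ κ) (S : Set I)
    (hS : ¬ #S ≤ κ) (E : I → Set Y) (cl : ∀ T ⊆ S, IsClosed (⋃ y ∈ T, E y))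
    (dj : S.PairwiseDisjoint E) (h : I → Y) (hh : ∀ y ∈ S, h y ∉ E y) :
    ∃ T ⊆ S, ¬ #T ≤ κ ∧ ∀ y ∈ T, Disjoint (closure (h '' T)) (E y) := by
  by_contra! c
  have s1 : ∀ A ⊆ S, ∀ B ⊆ S, Disjoint A B → ∃ N : Set I, #N ≤ κ ∧
      ∀ y ∈ A, Disjoint (closure (h '' (B \ N))) (E y) := fun A hA B hB d => by
    obtain ⟨U, V, hU, hV, h1, h2, h3⟩ := normal_separation (cl A hA) (cl B hB) (by
      simp only [disjoint_iUnion_left, disjoint_iUnion_right]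
      exact fun b hb a ha => dj (hA ha) (hB hb) (d.ne_of_mem ha hb))
    refine ⟨{y | y ∈ B ∧ h y ∉ V}, not_lt.1 fun k => ?_, fun y hy => ?_⟩
    · obtain ⟨y, y1, y2⟩ := c _ (fun y hy => hB hy.1) k
      refine y2 (Disjoint.mono_right ((subset_biUnion_of_mem y1.1).trans h2)
        (Disjoint.closure_left (disjoint_left.2 ?_) hV))
      rintro _ ⟨w, hw, rfl⟩
      exact hw.2
    · refine Disjoint.mono_right ((subset_biUnion_of_mem hy).trans h1)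
        (Disjoint.closure_left (h3.symm.mono_left ?_) hU)
      rintro _ ⟨w, hw, rfl⟩
      exact not_not.1 fun k => hw.2 ⟨hw.1, k⟩
  have s2 : ∀ y, ∃ N : Set I, #N ≤ κ ∧ (y ∈ S → Disjoint (closure (h '' (S \ N))) (E y)) := fun y => by
    by_cases k : y ∈ S
    · obtain ⟨N, h1, h2⟩ := s1 {y} (by simpa) (S \ {y}) diff_subset disjoint_sdiff_right
      refine ⟨N, h1, fun _ => Disjoint.mono_left (closure_mono (t := h '' ((S \ {y}) \ N) ∪ {h y}) ?_) ?_⟩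
      · rintro _ ⟨w, hw, rfl⟩
        by_cases e : w = y
        · exact Or.inr (congrArg h e)
        · exact Or.inl ⟨w, ⟨⟨hw.1, e⟩, hw.2⟩, rfl⟩
      · rw [closure_union, closure_singleton]
        exact disjoint_union_left.2 ⟨h2 y rfl, disjoint_singleton_left.2 (hh y k)⟩
    · exact ⟨∅, by simp, fun e => (k e).elim⟩
  choose N N1 N2 using s2
  have s3 : ∀ i, ∃ C ⊆ S \ Iic i, #C ≤ κ ∧
      #{y | y ∈ S ∧ Disjoint (closure (h '' C)) (E y)} ≤ κ := fun i => by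
    by_contra! k
    obtain ⟨W, w1, w2, w3⟩ := recu hκ hI (S \ Iic i) (fun C =>
      {y | ¬ Disjoint (closure (h '' C)) (E y)} ∪ ⋃ j ∈ C, N j) fun C h1 h2 h3 =>
      (k C h1 h2).not_ge ((mk_le_mk_of_subset fun y hy => by
        by_contra n
        simp only [mem_union, mem_diff, not_or] at n
        exact n.1 ⟨⟨hy.1, n.2.1⟩, fun e => e hy.2, n.2.2⟩).trans
        (sm_U hκ h3 (sm_U hκ (hI i) (sm_bU hκ h2 fun j _ => N1 j))))
    · obtain ⟨y, y1, y2⟩ := c W (w1.trans diff_subset) (not_le.1 w2)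
      refine y2 (Disjoint.mono_left (closure_mono
        (t := h '' (W ∩ Iio y) ∪ ({h y} ∪ h '' (S \ N y))) ?_) ?_)
      · rintro _ ⟨w, hw, rfl⟩
        rcases lt_trichotomy w y with e | e | e
        · exact Or.inl ⟨w, ⟨hw, e⟩, rfl⟩
        · exact Or.inr (Or.inl (congrArg h e))
        · exact Or.inr (Or.inr ⟨w, ⟨(w1 hw).1, fun n => w3 w hw
            (Or.inr (mem_biUnion (x := y) ⟨y1, e⟩ n))⟩, rfl⟩)
      · rw [closure_union, closure_union, closure_singleton]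
        exact disjoint_union_left.2 ⟨not_not.1 fun n => w3 y y1 (Or.inl n), disjoint_union_left.2
          ⟨disjoint_singleton_left.2 (hh y (w1 y1).1), N2 y (w1 y1).1⟩⟩
  choose C C1 C2 C3 using s3
  obtain ⟨W, w1, w2, w3⟩ := recu hκ hI S (fun A => ⋃ j ∈ A, C j) fun A h1 h2 h3 =>
    hS ((mk_le_mk_of_subset (subset_diff_union _ _)).trans
      (sm_U hκ h3 (sm_bU hκ h2 fun j _ => C2 j)))
  obtain ⟨M, m1, m2⟩ := s1 W w1 (⋃ j ∈ W, C j)
    (iUnion₂_subset fun j _ => (C1 j).trans diff_subset) (disjoint_left.2 fun y hy n => by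
      obtain ⟨j, j1, j2⟩ := mem_iUnion₂.1 n
      exact w3 y hy (mem_biUnion (x := j) ⟨j1, not_le.1 (C1 j j2).2⟩ j2))
  obtain ⟨i, i1, i2⟩ := not_subset.1 fun k : W ⊆ ⋃ m ∈ M, Iic m =>
    w2 ((mk_le_mk_of_subset k).trans (sm_bU hκ m1 fun m _ => hI m))
  refine w2 ((mk_le_mk_of_subset fun y hy => ?_).trans (C3 i))
  exact ⟨w1 hy, (m2 y hy).mono_left (closure_mono (image_mono fun w hw => mem_diff_of_mem
    (mem_biUnion i1 hw) fun n => i2 (mem_biUnion n (not_le.1 (C1 i hw).2).le)))⟩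

omit [LinearOrder I] [WellFoundedLT I] in
lemma Esc.fin {S : Set I} {z : I → Y} (h : Esc (cofinite ⊓ 𝓟 S) z) (p : Y) :
    ∃ U ∈ 𝓝 p, {y | y ∈ S ∧ z y ∈ U}.Finite := by
  simpa [mapClusterPt_iff_frequently, eventually_inf_principal] using h p

omit [LinearOrder I] [WellFoundedLT I] in
lemma Esc.cd [T1Space Y] {S T : Set I} {z : I → Y} (h : Esc (cofinite ⊓ 𝓟 S) z) (hT : T ⊆ S) :
    IsClosed (z '' T) ∧ IsDiscrete (z '' T) := isClosed_and_discrete_iff.2 fun p => by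
  obtain ⟨U, h1, h2⟩ := h.fin p
  refine disjoint_principal_right.2 (mem_nhdsWithin_iff_exists_mem_nhds_inter.2
    ⟨U \ (z '' {y | y ∈ S ∧ z y ∈ U} \ {p}), diff_mem h1
      (((h2.image z).diff).isClosed.isOpen_compl.mem_nhds (by simp)), ?_⟩)
  rintro _ hy ⟨y, c, rfl⟩
  exact hy.1.2 ⟨⟨y, ⟨hT c, hy.1.1⟩, rfl⟩, hy.2⟩

lemma sepN [NormalSpace Y] [T1Space Y] (hκ : ℵ₀ ≤ κ) (hI : ∀ i : I, #(Iic i) ≤ κ) {K : Type}
    [Finite K] (z : K → I → Y) (S₀ : Set I) (h₀ : ¬ #S₀ ≤ κ) :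
    ∃ T ⊆ S₀, ¬ #T ≤ κ ∧ ∃ F : C(Y, ℝ), ∀ y ∈ T, ∀ k, (Esc (cofinite ⊓ 𝓟 T) (z k) → F (z k y) = 1) ∧
      (¬ Esc (cofinite ⊓ 𝓟 T) (z k) → F (z k y) = 0) := by
  obtain ⟨_, ⟨S, hS, rfl⟩, hm⟩ := (toFinite ((fun S => {k | Esc (cofinite ⊓ 𝓟 S) (z k)}) ''
    {S | S ⊆ S₀ ∧ ¬ #S ≤ κ})).exists_maximal ⟨_, S₀, ⟨subset_rfl, h₀⟩, rfl⟩
  have st : ∀ T ⊆ S, ¬ #T ≤ κ → ∀ k, Esc (cofinite ⊓ 𝓟 T) (z k) ↔ Esc (cofinite ⊓ 𝓟 S) (z k) :=
    fun T hT hT' k => by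
      have l : cofinite ⊓ 𝓟 T ≤ cofinite ⊓ 𝓟 S := inf_le_inf_left _ (principal_mono.2 hT)
      exact ⟨fun h => hm ⟨_, ⟨hT.trans hS.1, hT'⟩, rfl⟩ (fun k h => Esc.mono h l) h, fun h => h.mono l⟩
  let E : I → Set Y := fun y => (z · y) '' {k | Esc (cofinite ⊓ 𝓟 S) (z k)}
  have cl : ∀ T ⊆ S, IsClosed (⋃ y ∈ T, E y) := fun T hT => by
    convert (toFinite {k | Esc (cofinite ⊓ 𝓟 S) (z k)}).isClosed_biUnion
      fun k hk => (Esc.cd hk hT).1
    ext; simp only [E, mem_iUnion, mem_image]; tauto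
  have sj : ∀ j, #{y | y ∈ S ∧ ¬ Disjoint (E y) (E j)} ≤ κ := fun j => by
    refine (mk_le_mk_of_subset (t := ⋃ k, ⋃ l, {y | y ∈ S ∧
      Esc (cofinite ⊓ 𝓟 S) (z k) ∧ z k y = z l j}) fun y hy => ?_).trans
      (sm_cU hκ fun k => sm_cU hκ fun l => ?_)
    · obtain ⟨_, ⟨k, hk, rfl⟩, l, -, e⟩ := not_disjoint_iff.1 hy.2
      exact mem_iUnion₂.2 ⟨k, l, hy.1, hk, e.symm⟩
    by_cases c : Esc (cofinite ⊓ 𝓟 S) (z k)
    · obtain ⟨U, u1, u2⟩ := c.fin (z l j)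
      refine (u2.subset fun y hy => ?_).lt_aleph0.le.trans hκ
      exact ⟨hy.1, hy.2.2 ▸ mem_of_mem_nhds u1⟩
    · simp [c]
  obtain ⟨W, w1, w2, w3⟩ := recu hκ hI S (fun A => ⋃ j ∈ A, {y | y ∈ S ∧ ¬ Disjoint (E y) (E j)})
    fun A h1 h2 h3 => hS.2 ((mk_le_mk_of_subset (subset_diff_union _ _)).trans
      (sm_U hκ h3 (sm_bU hκ h2 fun j _ => sj j)))
  have dj : W.PairwiseDisjoint E := fun a ha b hb ne => by
    by_contra n
    rcases lt_or_gt_of_ne ne with e | e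
    · exact w3 b hb (mem_biUnion (x := a) ⟨ha, e⟩ ⟨w1 hb, fun d => n d.symm⟩)
    · exact w3 a ha (mem_biUnion (x := b) ⟨hb, e⟩ ⟨w1 ha, n⟩)
  have : ∀ J : Set K, J.Finite → ∃ T ⊆ W, ¬ #T ≤ κ ∧ ∀ j ∈ J, ¬ Esc (cofinite ⊓ 𝓟 S) (z j) →
      ∀ y ∈ T, Disjoint (closure (z j '' T)) (E y) := by
    intro J hJ
    induction J, hJ using Set.Finite.induction_on with
    | empty => exact ⟨W, subset_rfl, w2, by simp⟩
    | @insert j J _ _ ih =>
      obtain ⟨T, h1, h2, h3⟩ := ih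
      by_cases c : Esc (cofinite ⊓ 𝓟 S) (z j)
      · exact ⟨T, h1, h2, forall_mem_insert.2 ⟨fun n => (n c).elim, h3⟩⟩
      have sm : #(⋃ k, {y | y ∈ S ∧ Esc (cofinite ⊓ 𝓟 S) (z k) ∧ z k y = z j y} : Set I) ≤ κ :=
        sm_cU hκ fun k => by
          by_contra n
          have e : Esc (cofinite ⊓ 𝓟 S) (z k) := by
            by_contra e
            simp [e] at n
          refine c ((st _ (fun y hy => hy.1) n j).1 fun p hp => (st _ (fun y hy => hy.1) n k).2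
            e p (hp.congrFun (mem_inf_of_right fun y hy => ?_)))
          exact hy.2.2.symm
      obtain ⟨T', t1, t2, t3⟩ := core hκ hI (T \ _) (fun n => h2 ((mk_le_mk_of_subset
        (subset_diff_union _ _)).trans (sm_U hκ n sm))) E
        (fun A hA => cl A (hA.trans (diff_subset.trans (h1.trans w1))))
        (dj.subset (diff_subset.trans h1)) (z j) fun y hy ⟨k, k1, k2⟩ =>
          hy.2 (mem_iUnion.2 ⟨k, w1 (h1 hy.1), k1, k2⟩)
      exact ⟨T', t1.trans (diff_subset.trans h1), t2, forall_mem_insert.2 ⟨fun _ => t3,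
        fun k hk hk' y hy => (h3 k hk hk' y (t1 hy).1).mono_left
          (closure_mono (image_mono (t1.trans diff_subset)))⟩⟩
  obtain ⟨T, h1, h2, h3⟩ := this univ (toFinite _)
  obtain ⟨F, f0, f1, -⟩ := exists_continuous_zero_one_of_isClosed ((toFinite
    {k | ¬ Esc (cofinite ⊓ 𝓟 S) (z k)}).isClosed_biUnion fun k _ => isClosed_closure (s := z k '' T))
    (cl T (h1.trans w1)) (by
      simp only [disjoint_iUnion_left, disjoint_iUnion_right]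
      exact fun y hy k hk => h3 k trivial hk y hy)
  refine ⟨T, h1.trans (w1.trans hS.1), h2, F, fun y hy k => ?_⟩
  rw [st T (h1.trans w1) h2]
  exact ⟨fun hk => f1 (mem_biUnion hy ⟨k, hk, rfl⟩),
    fun hk => f0 (mem_biUnion (x := k) hk (subset_closure ⟨y, hy, rfl⟩))⟩

theorem mainE {X : Type u} [TopologicalSpace X] [T1Space X] [NormalSpace Y] [T1Space Y]
    (hκ : ℵ₀ ≤ κ) (u : C(Y, ℝ) → C(X, ℝ)) (u0 : u 0 = 0)
    (hP : ∀ x, ∃ P : Set Y, P.Finite ∧ ∀ f g : C(Y, ℝ), EqOn f g P → u f x = u g x)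
    (hQ : ∀ y, ∃ Q : Set X, Q.Finite ∧ ∀ f : C(Y, ℝ), (∀ x ∈ Q, u f x = 0) → f y = 0)
    (hX : ∀ D : Set X, IsClosed D → IsDiscrete D → #D ≤ κ) (D : Set Y) (d1 : IsClosed D)
    (d2 : IsDiscrete D) : #D ≤ κ := by
  by_contra hD
  obtain ⟨d⟩ : Nonempty ((Order.succ κ).ord.ToType ↪ D) := by
    rw [← Cardinal.le_def]; simpa using hD
  set I := (Order.succ κ).ord.ToType
  have hI : ∀ i : I, #(Iic i) ≤ κ := fun i => by
    rw [← Iio_union_right]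
    exact sm_U hκ (Order.lt_succ_iff.1 (mk_Iio_toType_ord_lt i)) (by simpa using one_le_aleph0.trans hκ)
  have big : ¬ #(univ : Set I) ≤ κ := by simp [I]
  choose P P1 P2 using hP
  choose Q Q1 Q2 using hQ
  obtain ⟨y₀, -⟩ := nonempty_iff_ne_empty.2 fun e : D = ∅ => hD (by simp [e])
  have : Nonempty Y := ⟨y₀⟩
  have : Nonempty X := by
    by_contra! h
    simpa using Q2 y₀ 1 fun x => h.elim x
  obtain ⟨m, z, hz⟩ := enum P P1
  obtain ⟨n, x, hx⟩ := enum Q Q1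
  obtain ⟨N, hN⟩ : ∃ N, ¬ #{y : I | n (d y) ≤ N ∧ ∀ i < n (d y), m (x i (d y)) ≤ N} ≤ κ := by
    by_contra! h
    refine big ((mk_le_mk_of_subset fun y _ => ?_).trans (sm_cU hκ h))
    obtain ⟨M, hM⟩ := ((finite_lt_nat (n (d y))).image fun i => m (x i (d y))).bddAbove
    exact mem_iUnion.2 ⟨max (n (d y)) M, le_max_left _ _,
      fun i hi => (hM (mem_image_of_mem _ hi)).trans (le_max_right _ _)⟩
  let w : Option (Fin N × Fin N) → I → Y := fun k y => k.elim (d y) fun k => z k.2 (x k.1 (d y))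
  obtain ⟨T, b, h1, F, h2⟩ := sepN hκ hI w _ hN
  have key : ∀ (i : Fin N) (r : ℕ),
      #{y | y ∈ T ∧ i < n (d y) ∧ 1 / (r + 1) ≤ |u F (x i (d y))|} ≤ κ := by
    intro i r
    by_contra c
    obtain ⟨a, ha⟩ : ∃ a, MapClusterPt a (cofinite ⊓ 𝓟 {y | y ∈ T ∧ i < n (d y) ∧
        1 / (r + 1) ≤ |u F (x i (d y))|}) fun y => x i (d y) := by
      by_contra! k
      have := Esc.cd k subset_rfl
      set A := {y | y ∈ T ∧ i < n (d y) ∧ 1 / (r + 1) ≤ |u F (x i (d y))|}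
      refine c ((mk_le_mk_of_subset fun y hy => ?_).trans
        (sm_bU (f := fun t => {y | y ∈ A ∧ x i (d y) = t}) hκ (hX _ this.1 this.2) fun t _ => ?_))
      · exact mem_biUnion (mem_image_of_mem _ hy) ⟨hy, rfl⟩
      obtain ⟨U, u1, u2⟩ := Esc.fin k t
      refine (u2.subset fun y hy => ?_).lt_aleph0.le.trans hκ
      exact ⟨hy.1, hy.2 ▸ mem_of_mem_nhds u1⟩
    obtain ⟨h, k1, k2⟩ := bump2 (cofinite ⊓ 𝓟 T) w (P1 a)
    have e : u (F * h) a = 0 := by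
      rw [P2 a (F * h) 0 fun q hq => by simp [k1 q hq], u0]; rfl
    have o : ∀ᶠ t in 𝓝 a, |u (F * h) t| < 1 / (r + 1) :=
      (u (F * h)).continuous.abs.continuousAt.eventually_lt continuousAt_const
        (by rw [e, abs_zero]; positivity)
    obtain ⟨y, y1, y3, y2, hi, y5⟩ := ((mapClusterPt_iff_frequently.1 ha _ o).and_eventually
      ((k2.filter_mono (inf_le_inf_left _ (principal_mono.2 fun y hy => hy.1))).and
        (mem_inf_of_right (mem_principal_self _)))).exists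
    refine y5.not_gt ?_
    rw [← P2 _ (F * h) F fun q hq => ?_]
    · exact y1
    obtain ⟨j, hj, rfl⟩ := hz _ q hq
    let k : Option (Fin N × Fin N) := some (i, ⟨j, hj.trans_le ((b y2).2 i hi)⟩)
    by_cases c : Esc (cofinite ⊓ 𝓟 T) (w k)
    · simp [show h (z j (x i (d y))) = 1 from y3 k c]
    · simp [show F (z j (x i (d y))) = 0 from (h2 y y2 k).2 c]
  obtain ⟨y, y1, y2⟩ := not_subset.1 fun k => h1 ((mk_le_mk_of_subset k).trans
    (sm_cU hκ fun i => sm_cU hκ (key i)))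
  have := (h2 y y1 none).1 fun p c => by
    obtain ⟨U, u1, u2⟩ := mem_nhdsWithin_iff_exists_mem_nhds_inter.1
      (disjoint_principal_right.1 (isClosed_and_discrete_iff.1 ⟨d1, d2⟩ p))
    refine frequently_cofinite_iff_infinite.1 ((mapClusterPt_iff_frequently.1 c U u1).filter_mono
      inf_le_left) (Subsingleton.finite fun s hs t ht => d.injective (Subtype.ext ?_))
    exact (not_not.1 fun e => u2 ⟨hs, e⟩ (d s).2).trans (not_not.1 fun e => u2 ⟨ht, e⟩ (d t).2 : _ = p).symm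
  refine one_ne_zero (this.symm.trans (Q2 _ F fun t ht => ?_))
  obtain ⟨i, hi, rfl⟩ := hx _ t ht
  by_contra c
  obtain ⟨r, hr⟩ := exists_nat_one_div_lt (abs_pos.2 c)
  exact y2 (mem_iUnion₂.2 ⟨⟨i, hi.trans_le (b y1).1⟩, r, y1, hi, hr.le⟩)

end Pool.Agent.H30.LinL
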