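import Mathlib

set_option autoImplicit false

namespace Pool.Agent.H30.LinL

open Set Filter Topology

universe u v

variable {X : Type u} {Y : Type v} [TopologicalSpace X] [TopologicalSpace Y]

lemma bump [CompletelyRegularSpace Y] (p : Y) {U : Set Y} (hU : U ∈ 𝓝 p) :
    ∃ h : C(Y, ℝ), (∀ᶠ q in 𝓝 p, h q = 0) ∧ ∀ q ∉ U, h q = 1 := by
  obtain ⟨f, f1, f2, f3⟩ := CompletelyRegularSpace.completely_regular p (interior U)ᶜ
    isOpen_interior.isClosed_compl (by simpa using mem_interior_iff_mem_nhds.2 hU)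
  have c : Continuous fun q => 2 * (f q : ℝ) - 1 := by fun_prop
  refine ⟨⟨fun q => max (2 * (f q : ℝ) - 1) 0, by fun_prop⟩, ((c.tendsto p).eventually
    (gt_mem_nhds (a := 0) (by simp [f2]))).mono fun q hq => max_eq_right hq.le, fun q hq => ?_⟩
  simp [f3 fun h => hq (interior_subset h)]; norm_num

def Esc {I : Type*} (G : Filter I) (z : I → Y) : Prop := ∀ p, ¬ MapClusterPt p G z

lemma Esc.mono {I : Type*} {G G' : Filter I} {z : I → Y} (h : Esc G z) (k : G' ≤ G) : Esc G' z :=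
  fun p c => h p (ClusterPt.mono c (map_mono k))

lemma bump1 [CompletelyRegularSpace Y] {I K : Type*} [Finite K] (G : Filter I) (z : K → I → Y)
    (p : Y) : ∃ h : C(Y, ℝ), (∀ᶠ q in 𝓝 p, h q = 0) ∧
      ∀ᶠ y in G, ∀ k, Esc G (z k) → h (z k y) = 1 := by
  have : ∀ k, ∃ U ∈ 𝓝 p, Esc G (z k) → ∀ᶠ y in G, z k y ∉ U := fun k => by
    by_cases c : Esc G (z k)
    · simpa [c, mapClusterPt_iff_frequently] using c p
    · exact ⟨univ, univ_mem, fun h => (c h).elim⟩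
  choose U U1 U2 using this
  obtain ⟨h, h1, h2⟩ := bump p (iInter_mem.2 U1)
  refine ⟨h, h1, eventually_all.2 fun k => ?_⟩
  by_cases c : Esc G (z k)
  · exact (U2 k c).mono fun y hy _ => h2 _ fun e => hy (mem_iInter.1 e k)
  · exact Eventually.of_forall fun _ e => (c e).elim

lemma bump2 [CompletelyRegularSpace Y] {I K : Type*} [Finite K] (G : Filter I) (z : K → I → Y)
    {P : Set Y} (hP : P.Finite) : ∃ h : C(Y, ℝ), (∀ q ∈ P, h q = 0) ∧
      ∀ᶠ y in G, ∀ k, Esc G (z k) → h (z k y) = 1 := by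
  induction P, hP using Set.Finite.induction_on with
  | empty => exact ⟨1, by simp, by simp⟩
  | @insert p _ _ _ ih =>
    obtain ⟨h, h1, h2⟩ := ih
    obtain ⟨g, g1, g2⟩ := bump1 G z p
    exact ⟨g * h, forall_mem_insert.2 ⟨by simp [g1.self_of_nhds], fun q hq => by simp [h1 q hq]⟩,
      (h2.and g2).mono fun y hy k hk => by simp [hy.1 k hk, hy.2 k hk]⟩

lemma sep [CompletelyRegularSpace Y] {I K : Type*} [Finite K] (G : Filter I) [G.NeBot]
    (z : K → I → Y) : ∃ (S : Set I) (F : C(Y, ℝ)), (G ⊓ 𝓟 S).NeBot ∧ ∀ᶠ y in G ⊓ 𝓟 S, ∀ k,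
      (Esc (G ⊓ 𝓟 S) (z k) → F (z k y) = 1) ∧ (¬ Esc (G ⊓ 𝓟 S) (z k) → F (z k y) = 0) := by
  obtain ⟨_, ⟨S, hS, rfl⟩, hm⟩ := (toFinite ((fun S => {k | Esc (G ⊓ 𝓟 S) (z k)}) ''
    {S | (G ⊓ 𝓟 S).NeBot})).exists_maximal ⟨_, univ, by simpa, rfl⟩
  have st : ∀ T, (G ⊓ 𝓟 (S ∩ T)).NeBot → ∀ k, Esc (G ⊓ 𝓟 (S ∩ T)) (z k) ↔ Esc (G ⊓ 𝓟 S) (z k) :=
    fun T hT k => by
      have l : G ⊓ 𝓟 (S ∩ T) ≤ G ⊓ 𝓟 S := inf_le_inf_left _ (principal_mono.2 inter_subset_left)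
      exact ⟨fun h => hm ⟨_, hT, rfl⟩ (fun k h => Esc.mono h l) h, fun h => h.mono l⟩
  have : ∀ J : Set K, J.Finite → ∃ (T : Set I) (F : C(Y, ℝ)), (G ⊓ 𝓟 (S ∩ T)).NeBot ∧
      ∀ᶠ y in G ⊓ 𝓟 (S ∩ T), ∀ k, (Esc (G ⊓ 𝓟 S) (z k) → F (z k y) = 1) ∧
        (k ∈ J → ¬ Esc (G ⊓ 𝓟 S) (z k) → F (z k y) = 0) := by
    intro J hJ
    induction J, hJ using Set.Finite.induction_on with
    | empty => exact ⟨univ, 1, by simpa using hS, by simp⟩
    | @insert j J _ _ ih =>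
      obtain ⟨T, F, h1, h2⟩ := ih
      by_cases c : Esc (G ⊓ 𝓟 S) (z j)
      · refine ⟨T, F, h1, h2.mono fun y hy k => ⟨(hy k).1, fun hk hk' => ?_⟩⟩
        exact hk.elim (fun e => (hk' (e ▸ c)).elim) fun hk => (hy k).2 hk hk'
      obtain ⟨p, hp⟩ := not_forall.1 (mt (st T h1 j).1 c)
      obtain ⟨g, g1, g2⟩ := bump1 (G ⊓ 𝓟 S) z p
      have e : G ⊓ 𝓟 (S ∩ (T ∩ {y | g (z j y) = 0})) = G ⊓ 𝓟 (S ∩ T) ⊓ 𝓟 {y | g (z j y) = 0} := by
        rw [inf_assoc, inf_principal, inter_assoc]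
      refine ⟨T ∩ {y | g (z j y) = 0}, g * F, e ▸ frequently_iff_neBot.1
        (mapClusterPt_iff_frequently.1 (not_not.1 hp) _ g1), ?_⟩
      rw [e]
      filter_upwards [mem_inf_of_left h2, mem_inf_of_right (mem_principal_self _), mem_inf_of_left
        (inf_le_inf_left G (principal_mono.2 inter_subset_left) g2)] with y h3 h4 h5 k
      refine ⟨fun hk => by simp [(h3 k).1 hk, h5 k hk], fun hk hk' => ?_⟩
      rcases hk with rfl | hk
      · simp [show g (z k y) = 0 from h4]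
      · simp [(h3 k).2 hk hk']
  obtain ⟨T, F, h1, h2⟩ := this univ (toFinite _)
  exact ⟨_, F, h1, h2.mono fun y hy k => by simpa [st T h1] using hy k⟩

lemma enum {A B : Type*} [Nonempty B] (P : A → Set B) (h : ∀ a, (P a).Finite) :
    ∃ (n : A → ℕ) (e : ℕ → A → B), ∀ a, ∀ b ∈ P a, ∃ i < n a, e i a = b := by
  have : ∀ a, ∃ (n : ℕ) (e : ℕ → B), ∀ b ∈ P a, ∃ i < n, e i = b := fun a => by
    obtain ⟨l, hl⟩ : ∃ l : List B, ∀ b ∈ P a, b ∈ l := ⟨(h a).toFinset.toList, by simp⟩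
    refine ⟨l.length, fun i => l.getD i (Classical.arbitrary B), fun b hb => ?_⟩
    obtain ⟨i, hi, rfl⟩ := List.getElem_of_mem (hl b hb)
    exact ⟨i, hi, by simp [hi]⟩
  choose n e h using this
  exact ⟨n, fun i a => e a i, h⟩

theorem main [CompletelyRegularSpace Y] [LindelofSpace X] (u : C(Y, ℝ) → C(X, ℝ)) (u0 : u 0 = 0)
    (hP : ∀ x, ∃ P : Set Y, P.Finite ∧ ∀ f g : C(Y, ℝ), EqOn f g P → u f x = u g x)
    (hQ : ∀ y, ∃ Q : Set X, Q.Finite ∧ ∀ f : C(Y, ℝ), (∀ x ∈ Q, u f x = 0) → f y = 0) :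
    LindelofSpace Y := by
  refine ⟨fun G _ _ _ => ?_⟩
  by_contra! hG
  choose P P1 P2 using hP
  choose Q Q1 Q2 using hQ
  have : Nonempty Y := G.nonempty_of_neBot
  have : Nonempty X := by
    by_contra! h
    simpa using Q2 (Classical.arbitrary Y) 1 fun x => h.elim x
  obtain ⟨m, z, hz⟩ := enum P P1
  obtain ⟨n, x, hx⟩ := enum Q Q1
  obtain ⟨N, hN⟩ : ∃ N, ∃ᶠ y in G, n y ≤ N ∧ ∀ i < n y, m (x i y) ≤ N := by
    by_contra! h
    obtain ⟨y, hy⟩ := (eventually_countable_forall.2 h).exists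
    obtain ⟨M, hM⟩ := ((finite_lt_nat (n y)).image fun i => m (x i y)).bddAbove
    obtain ⟨i, h1, h2⟩ := hy (max (n y) M) (le_max_left _ _)
    exact h2.not_ge ((hM (mem_image_of_mem _ h1)).trans (le_max_right _ _))
  have := frequently_iff_neBot.1 hN
  let w : Option (Fin N × Fin N) → Y → Y := fun k y => k.elim y fun k => z k.2 (x k.1 y)
  obtain ⟨S, F, h1, h2⟩ := sep (G ⊓ 𝓟 {y | n y ≤ N ∧ ∀ i < n y, m (x i y) ≤ N}) w
  set G' := G ⊓ 𝓟 {y | n y ≤ N ∧ ∀ i < n y, m (x i y) ≤ N} ⊓ 𝓟 S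
  have b : ∀ᶠ y in G', n y ≤ N ∧ ∀ i < n y, m (x i y) ≤ N :=
    mem_inf_of_left (mem_inf_of_right (mem_principal_self _))
  have key : ∀ (i : Fin N) (r : ℕ), ∀ᶠ y in G', i < n y → |u F (x i y)| < 1 / (r + 1) := by
    intro i r
    by_contra c
    have := frequently_iff_neBot.1 (not_eventually.1 c)
    obtain ⟨a, -, ha⟩ := isLindelof_univ (f := map (x i) (G' ⊓ 𝓟 {y | ¬ (i < n y →
      |u F (x i y)| < 1 / (r + 1))})) (by simp)
    obtain ⟨h, k1, k2⟩ := bump2 G' w (P1 a)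
    have e : u (F * h) a = 0 := by
      rw [P2 a (F * h) 0 fun q hq => by simp [k1 q hq], u0]; rfl
    have o : ∀ᶠ t in 𝓝 a, |u (F * h) t| < 1 / (r + 1) :=
      (u (F * h)).continuous.abs.continuousAt.eventually_lt continuousAt_const
        (by rw [e, abs_zero]; positivity)
    obtain ⟨y, y1, ⟨⟨y2, y3⟩, y4⟩, y5⟩ := ((mapClusterPt_iff_frequently.1 ha _ o).and_eventually
      ((((h2.and k2).and b).filter_mono inf_le_left).and
        (mem_inf_of_right (mem_principal_self _)))).exists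
    refine y5 fun hi => ?_
    rw [← P2 _ (F * h) F fun q hq => ?_]
    · exact y1
    obtain ⟨j, hj, rfl⟩ := hz _ q hq
    let k : Option (Fin N × Fin N) := some (i, ⟨j, hj.trans_le (y4.2 i hi)⟩)
    by_cases d : Esc G' (w k)
    · simp [show h (z j (x i y)) = 1 from y3 k d]
    · simp [show F (z j (x i y)) = 0 from (y2 k).2 d]
  obtain ⟨y, ⟨y1, y2⟩, y3⟩ := (((eventually_all.2 fun i => eventually_countable_forall.2
    (key i)).and b).and h2).exists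
  have := (y3 none).1 fun p c => hG p trivial
    (ClusterPt.mono c ((map_id (f := G')).le.trans (inf_le_left.trans inf_le_left)))
  refine one_ne_zero (this.symm.trans (Q2 y F fun t ht => ?_))
  obtain ⟨i, hi, rfl⟩ := hx y t ht
  by_contra c
  obtain ⟨r, hr⟩ := exists_nat_one_div_lt (abs_pos.2 c)
  exact (y1 ⟨i, hi.trans_le y2.1⟩ r hi).not_gt hr

end Pool.Agent.H30.LinL
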