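import Pool.Agent.H30.DiaB

set_option autoImplicit false

open Set Filter Topology

namespace Pool.Agent.H30.Moo

open Pool.Agent.H30.Spl Pool.Agent.H30.Dia

noncomputable instance : OrderBot W1 := WellFoundedLT.toOrderBot W1

lemma exists_C (β : W1) : ∃ C : Set W1, (∀ c ∈ C, c < β) ∧ (∀ ξ < β, ∃ c ∈ C, ξ ≤ c) ∧
    ∀ ξ < β, (C ∩ Iio ξ).Finite := by
  classical
  rcases (Iio β).eq_empty_or_nonempty with h | h
  · have h1 : ∀ ξ, ¬ ξ < β := fun ξ hξ => (h.le (mem_Iio.2 hξ) : ξ ∈ (∅ : Set W1))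
    exact ⟨∅, by simp, fun ξ hξ => absurd hξ (h1 ξ), fun ξ hξ => absurd hξ (h1 ξ)⟩
  obtain ⟨f, hf⟩ := (W1_Iio β).exists_eq_range h
  refine ⟨f '' {n | ∀ m < n, f m < f n}, ?_, fun ξ hξ => ?_, fun ξ hξ => ?_⟩
  · rintro _ ⟨n, -, rfl⟩
    exact hf.ge (mem_range_self n)
  · obtain ⟨n0, rfl⟩ := hf.le (mem_Iio.2 hξ)
    have h1 : ∃ n, f n0 ≤ f n := ⟨n0, le_rfl⟩
    exact ⟨_, ⟨Nat.find h1, fun m hm => (not_le.1 (Nat.find_min h1 hm)).trans_le (Nat.find_spec h1),
      rfl⟩, Nat.find_spec h1⟩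
  · obtain ⟨n0, rfl⟩ := hf.le (mem_Iio.2 hξ)
    refine ((finite_Iic n0).image f).subset ?_
    rintro _ ⟨⟨n, hn, rfl⟩, h1⟩
    exact ⟨n, not_lt.1 fun h2 => lt_asymm (hn n0 h2) h1, rfl⟩

noncomputable def C (β : W1) : Set W1 := (exists_C β).choose

lemma C_lt {β c : W1} (h : c ∈ C β) : c < β := (exists_C β).choose_spec.1 c h

lemma C_cof {β ξ : W1} (h : ξ < β) : ∃ c ∈ C β, ξ ≤ c := (exists_C β).choose_spec.2.1 ξ h

lemma C_fin {β ξ : W1} (h : ξ < β) : (C β ∩ Iio ξ).Finite := (exists_C β).choose_spec.2.2 ξ h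

lemma exists_nx (α β : W1) : ∃ c, α < β → c ∈ C β ∧ α ≤ c ∧ ∀ d ∈ C β, α ≤ d → c ≤ d := by
  by_cases h : α < β
  · obtain ⟨c, hc, hmin⟩ := (wellFounded_lt (α := W1)).has_min {c | c ∈ C β ∧ α ≤ c} (C_cof h)
    exact ⟨c, fun _ => ⟨hc.1, hc.2, fun d h1 h2 => not_lt.1 (hmin d ⟨h1, h2⟩)⟩⟩
  · exact ⟨α, fun h' => absurd h' h⟩

noncomputable def nx (α β : W1) : W1 := (exists_nx α β).choose

lemma nx_mem {α β : W1} (h : α < β) : nx α β ∈ C β := ((exists_nx α β).choose_spec h).1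

lemma le_nx {α β : W1} (h : α < β) : α ≤ nx α β := ((exists_nx α β).choose_spec h).2.1

lemma nx_le {α β d : W1} (h : α < β) (h1 : d ∈ C β) (h2 : α ≤ d) : nx α β ≤ d :=
  ((exists_nx α β).choose_spec h).2.2 d h1 h2

lemma nx_lt {α β : W1} (h : α < β) : nx α β < β := C_lt (nx_mem h)

open Classical in
noncomputable def sm (s : Set W1) : W1 := if h : s.Finite then h.toFinset.sup id else ⊥

noncomputable def mx (α β : W1) : W1 := sm (C β ∩ Iio α)

lemma le_mx {α β c : W1} (h : α < β) (h1 : c ∈ C β) (h2 : c < α) : c ≤ mx α β := by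
  rw [mx, sm, dif_pos (C_fin h)]
  exact Finset.le_sup (f := id) ((C_fin h).mem_toFinset.2 ⟨h1, h2⟩)

lemma mx_lt {α β : W1} (h : α < β) (h0 : ⊥ < α) : mx α β < α := by
  rw [mx, sm, dif_pos (C_fin h), Finset.sup_lt_iff h0]
  exact fun c hc => ((C_fin h).mem_toFinset.1 hc).2

lemma mx_congr {α δ β : W1} (h : C β ∩ Iio α = C β ∩ Iio δ) : mx α β = mx δ β := by
  rw [mx, mx, h]

noncomputable def ls (α β m : W1) : List W1 :=
  if h : α < β then max m (mx α β) :: ls α (nx α β) (max m (mx α β)) else []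
termination_by β
decreasing_by exact nx_lt h

noncomputable def lm (α β m : W1) : W1 :=
  if h : α < β then lm α (nx α β) (max m (mx α β)) else m
termination_by β
decreasing_by exact nx_lt h

noncomputable def rho (α β : W1) : ℕ :=
  if h : α < β then max (C β ∩ Iio α).ncard (rho α (nx α β)) else 0
termination_by β
decreasing_by exact nx_lt h

lemma ls_pos {α β : W1} (h : α < β) (m : W1) :
    ls α β m = max m (mx α β) :: ls α (nx α β) (max m (mx α β)) := by rw [ls, dif_pos h]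

lemma ls_neg {α β : W1} (h : ¬ α < β) (m : W1) : ls α β m = [] := by rw [ls, dif_neg h]

lemma lm_pos {α β : W1} (h : α < β) (m : W1) : lm α β m = lm α (nx α β) (max m (mx α β)) := by
  rw [lm, dif_pos h]

lemma lm_neg {α β : W1} (h : ¬ α < β) (m : W1) : lm α β m = m := by rw [lm, dif_neg h]

lemma rho_pos {α β : W1} (h : α < β) : rho α β = max (C β ∩ Iio α).ncard (rho α (nx α β)) := by
  rw [rho, dif_pos h]

lemma rho_neg {α β : W1} (h : ¬ α < β) : rho α β = 0 := by rw [rho, dif_neg h]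

lemma le_lm (α β m : W1) : m ≤ lm α β m := by
  induction β using WellFoundedLT.induction generalizing m with
  | ind β ih =>
    by_cases h : α < β
    · rw [lm_pos h]
      exact (le_max_left _ _).trans (ih _ (nx_lt h) _)
    · rw [lm_neg h]

lemma lm_lt {α : W1} (β : W1) {m : W1} (hm : m < α) : lm α β m < α := by
  induction β using WellFoundedLT.induction generalizing m with
  | ind β ih =>
    by_cases h : α < β
    · rw [lm_pos h]
      exact ih _ (nx_lt h) (max_lt hm (mx_lt h (bot_le.trans_lt hm)))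
    · rwa [lm_neg h]

lemma mem_ls {α β m x : W1} (hx : x ∈ ls α β m) : m ≤ x ∧ mx α β ≤ x ∧ x ≤ lm α β m := by
  induction β using WellFoundedLT.induction generalizing m with
  | ind β ih =>
    by_cases h : α < β
    · rw [ls_pos h] at hx
      rw [lm_pos h]
      rcases List.mem_cons.1 hx with rfl | hx
      · exact ⟨le_max_left _ _, le_max_right _ _, le_lm _ _ _⟩
      · obtain ⟨h1, -, h2⟩ := ih _ (nx_lt h) hx
        exact ⟨(le_max_left _ _).trans h1, (le_max_right _ _).trans h1, h2⟩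
    · rw [ls_neg h] at hx
      exact absurd hx List.not_mem_nil

lemma walk {α δ : W1} (hα : α ≤ δ) (β : W1) (hβ : δ ≤ β) (m : W1) (hm : lm δ β m < α) :
    ls α β m = ls δ β m ++ ls α δ (lm δ β m) ∧ rho α β = max (rho δ β) (rho α δ) := by
  induction β using WellFoundedLT.induction generalizing m with
  | ind β ih =>
    rcases hβ.eq_or_lt with rfl | h
    · rw [ls_neg (lt_irrefl _), lm_neg (lt_irrefl _), rho_neg (lt_irrefl δ)]
      simp
    have h' : α < β := hα.trans_lt h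
    rw [lm_pos h] at hm
    have h1 : ∀ c ∈ C β, c < δ → c < α := fun c hc hc' =>
      ((le_mx h hc hc').trans ((le_max_right _ _).trans (le_lm _ _ _))).trans_lt hm
    have h2 : C β ∩ Iio α = C β ∩ Iio δ :=
      Subset.antisymm (inter_subset_inter_right _ (Iio_subset_Iio hα)) fun c hc => ⟨hc.1, h1 c hc.1 hc.2⟩
    have h3 : nx α β = nx δ β := le_antisymm (nx_le h' (nx_mem h) (hα.trans (le_nx h)))
      (nx_le h (nx_mem h') (not_lt.1 fun h3 => absurd (h1 _ (nx_mem h') h3) (not_lt.2 (le_nx h'))))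
    obtain ⟨e1, e2⟩ := ih _ (nx_lt h) (le_nx h) _ hm
    rw [ls_pos h', ls_pos h, lm_pos h, rho_pos h', rho_pos h, mx_congr h2, h3, e1, e2, h2]
    exact ⟨rfl, (max_assoc _ _ _).symm⟩

lemma rho_fin (β : W1) (n : ℕ) : {ξ | ξ < β ∧ rho ξ β ≤ n}.Finite := by
  induction β using WellFoundedLT.induction with
  | ind β ih =>
    have h1 : {η | η ∈ C β ∧ (C β ∩ Iio η).ncard ≤ n}.Finite := by
      refine Finite.of_finite_image (f := fun η => (C β ∩ Iio η).ncard)
        ((finite_Iic n).subset (image_subset_iff.2 fun η hη => hη.2)) ?_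
      refine StrictMonoOn.injOn fun η hη η' hη' h => ncard_lt_ncard ⟨inter_subset_inter_right _
        (Iio_subset_Iio h.le), fun h2 => ?_⟩ (C_fin (C_lt hη'.1))
      exact lt_irrefl _ (mem_Iio.1 (h2 ⟨hη.1, h⟩).2)
    refine (h1.biUnion fun η hη => (ih η (C_lt hη.1)).insert η).subset fun ξ hξ => ?_
    obtain ⟨h2, h3⟩ := hξ
    rw [rho_pos h2, max_le_iff] at h3
    have h4 : C β ∩ Iio (nx ξ β) = C β ∩ Iio ξ := Subset.antisymm
      (fun c hc => ⟨hc.1, not_le.1 fun h => absurd (nx_le h2 hc.1 h) (not_le.2 hc.2)⟩)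
      (inter_subset_inter_right _ (Iio_subset_Iio (le_nx h2)))
    refine mem_biUnion (x := nx ξ β) ⟨nx_mem h2, by rw [h4]; exact h3.1⟩ ?_
    rcases (le_nx h2).eq_or_lt with h5 | h5
    · exact Or.inl h5
    · exact Or.inr ⟨h5, h3.2⟩

lemma fin_bd {δ : W1} (h0 : ⊥ < δ) {s : Set W1} (hs : s.Finite) (h : ∀ x ∈ s, x < δ) :
    ∃ η < δ, ∀ x ∈ s, x ≤ η :=
  ⟨hs.toFinset.sup id, (Finset.sup_lt_iff h0).2 fun x hx => h x (hs.mem_toFinset.1 hx),
    fun x hx => Finset.le_sup (f := id) (hs.mem_toFinset.2 hx)⟩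

lemma tail {δ β : W1} (h0 : ⊥ < δ) (hβ : δ ≤ β) : ∃ η < δ, ∀ ξ, η < ξ → ξ < δ → rho ξ β = rho ξ δ := by
  obtain ⟨η, h1, h2⟩ := fin_bd h0 (rho_fin δ (rho δ β)) fun x hx => hx.1
  refine ⟨max η (lm δ β ⊥), max_lt h1 (lm_lt β h0), fun ξ h3 h4 => ?_⟩
  rw [(walk h4.le β hβ ⊥ ((le_max_right _ _).trans_lt h3)).2]
  refine max_eq_right (not_lt.1 fun h5 => ?_)
  exact absurd (h2 ξ ⟨h4, h5.le⟩) (not_le.2 ((le_max_left _ _).trans_lt h3))

lemma coh {β γ : W1} (h : β ≤ γ) : {ξ | ξ < β ∧ rho ξ β ≠ rho ξ γ}.Finite := by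
  suffices H : ∀ δ ≤ β, {ξ | ξ < δ ∧ rho ξ β ≠ rho ξ γ}.Finite from H β le_rfl
  intro δ
  induction δ using WellFoundedLT.induction with
  | ind δ ih =>
    intro hδ
    rcases (bot_le (a := δ)).eq_or_lt with rfl | h0
    · exact finite_empty.subset fun ξ hξ => not_lt_bot hξ.1
    obtain ⟨η1, a1, a2⟩ := tail h0 hδ
    obtain ⟨η2, b1, b2⟩ := tail h0 (hδ.trans h)
    have h1 : max η1 η2 < δ := max_lt a1 b1
    refine ((ih _ h1 (h1.le.trans hδ)).insert (max η1 η2)).subset fun ξ hξ => ?_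
    rcases lt_trichotomy ξ (max η1 η2) with h2 | h2 | h2
    · exact Or.inr ⟨h2, hξ.2⟩
    · exact Or.inl h2
    · exact absurd ((a2 ξ ((le_max_left _ _).trans_lt h2) hξ.1).trans
        (b2 ξ ((le_max_right _ _).trans_lt h2) hξ.1).symm) hξ.2

noncomputable def pat (γ β : W1) : W1 → ℕ := fun ξ => if ξ ≤ γ then rho ξ β else 0

lemma pat_eq {γ β β' : W1} (h : pat γ β = pat γ β') {ξ : W1} (hξ : ξ ≤ γ) : rho ξ β = rho ξ β' := by
  simpa only [pat, if_pos hξ] using congrFun h ξ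

lemma W1_Iic (γ : W1) : (Iic γ).Countable := by
  rw [← Iio_insert]
  exact (W1_Iio γ).insert γ

lemma pat_cnt (γ : W1) : (pat γ '' Ioi γ).Countable := by
  have h1 : ∀ F : Set W1, F.Finite → {f : W1 → ℕ | ∀ ξ, ξ ∉ F → f ξ = pat γ (sc γ) ξ}.Countable := by
    intro F hF
    have := hF.to_subtype
    refine countable_of_injective_of_countable_image (f := fun f (x : F) => f x) ?_ (to_countable _)
    intro f hf g hg h
    funext ξ
    by_cases hξ : ξ ∈ F
    · exact congrFun h ⟨ξ, hξ⟩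
    · exact (hf ξ hξ).trans (hg ξ hξ).symm
  refine ((countable_setOf_finite_subset (W1_Iic γ)).biUnion fun F hF => h1 F hF.1).mono ?_
  rintro _ ⟨β, hβ, rfl⟩
  refine mem_biUnion (x := {ξ | ξ < sc γ ∧ rho ξ (sc γ) ≠ rho ξ β})
    ⟨coh (sc_le hβ), fun ξ hξ => not_lt.1 fun h => absurd (sc_le h) (not_le.2 hξ.1)⟩ fun ξ hξ => ?_
  by_cases h : ξ ≤ γ
  · simp only [pat, if_pos h]
    by_contra h2
    exact hξ ⟨h.trans_lt (lt_sc γ), fun h3 => h2 h3.symm⟩
  · simp only [pat, if_neg h]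

end Pool.Agent.H30.Moo
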