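import Pool.Agent.H30.MooA

set_option autoImplicit false

open Set Filter Topology

namespace Pool.Agent.H30.Moo

open Pool.Agent.H30.Spl Pool.Agent.H30.Dia

def cnt : List Bool → ℕ
  | [] => 0
  | [_] => 0
  | x :: y :: l => (if x = true ∧ y = false then 1 else 0) + cnt (y :: l)

lemma cnt_mid (l : List Bool) (x : Bool) (r : List Bool) :
    cnt (l ++ x :: r) = cnt (l ++ [x]) + cnt (x :: r) := by
  induction l with
  | nil => simp [cnt]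
  | cons y l ih =>
    cases l with
    | nil => simp [cnt]
    | cons z l =>
      simp only [List.cons_append, cnt] at ih ⊢
      rw [ih, add_assoc]

lemma cnt_true (x : Bool) (r : List Bool) (h : ∀ y ∈ r, y = true) : cnt (x :: r) = 0 := by
  induction r generalizing x with
  | nil => rfl
  | cons y r ih =>
    have h1 := h y List.mem_cons_self
    simp [cnt, h1, ih true fun z hz => h z (List.mem_cons_of_mem _ hz)]

lemma cnt_false (r : List Bool) (h : ∀ y ∈ r, y = false) : cnt (false :: r) = 0 := by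
  induction r with
  | nil => rfl
  | cons y r ih =>
    have h1 := h y List.mem_cons_self
    simp [cnt, h1, ih fun z hz => h z (List.mem_cons_of_mem _ hz)]

def EndT (l : List Bool) : Prop := ∃ l0, l = l0 ++ [true]

lemma EndT.app {l : List Bool} (h : EndT l) (r : List Bool) : cnt (l ++ r) = cnt l + cnt (true :: r) := by
  obtain ⟨l0, rfl⟩ := h
  rw [List.append_assoc, List.singleton_append, cnt_mid]

lemma endT_app (l : List Bool) {r : List Bool} (h0 : r ≠ []) (h : ∀ y ∈ r, y = true) : EndT (l ++ r) :=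
  ⟨l ++ r.dropLast, by
    rw [List.append_assoc, ← h _ (List.getLast_mem h0), List.dropLast_append_getLast]⟩

lemma EndT.two {l : List Bool} (h : EndT l) {r s : List Bool} (h0 : r ≠ []) (h1 : ∀ y ∈ r, y = false)
    (h2 : ∀ y ∈ s, y = true) : cnt (l ++ r ++ s) = cnt l + 1 := by
  rw [List.append_assoc, h.app]
  obtain ⟨r0, hr⟩ : ∃ r0, r = r0 ++ [false] :=
    ⟨r.dropLast, by rw [← h1 _ (List.getLast_mem h0), List.dropLast_append_getLast]⟩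
  have h3 : cnt (true :: r) = 1 := by
    cases r with
    | nil => exact absurd rfl h0
    | cons y r =>
      have h3 := h1 y List.mem_cons_self
      simp [cnt, h3, cnt_false r fun z hz => h1 z (List.mem_cons_of_mem _ hz)]
  have h4 := cnt_mid (true :: r0) false s
  rw [cnt_true false s h2] at h4
  rw [hr] at h3 ⊢
  simp only [List.cons_append, List.append_assoc, List.nil_append, add_zero] at h3 h4 ⊢
  rw [h4, h3]

noncomputable def cmp (α β ξ : W1) : Bool := decide (rho ξ α ≤ rho ξ β)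

noncomputable def osc (α β : W1) : ℕ := cnt ((ls α β ⊥).map (cmp α β))

variable {ι : Type}

def Unb (S : Set (ι → W1)) : Prop := ∀ ε, ∃ a ∈ S, ∀ i, ε < a i

lemma nu [Finite ι] {S : Set (ι → W1)} (hS : Unb S) : ∃ ν, ∀ (n : ℕ) (L : List W1), (∀ ξ ∈ L, ν < ξ) →
    ∀ ε, ∃ a ∈ S, (∀ i, ε < a i) ∧ ∀ i, ∀ ξ ∈ L, n < rho ξ (a i) := by
  have h1 : ∀ n : ℕ, ∃ ν, ∀ L : List W1, (∀ ξ ∈ L, ν < ξ) →
      ∀ ε, ∃ a ∈ S, (∀ i, ε < a i) ∧ ∀ i, ∀ ξ ∈ L, n < rho ξ (a i) := by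
    intro n
    by_contra h
    push Not at h
    choose L h1 ε h2 using h
    choose u hu using fun ν => W1_bdd (L ν).finite_toSet.countable
    let v : ℕ → W1 := fun j => u^[j] ⊥
    have hv : ∀ j, v (j + 1) = u (v j) := fun j => Function.iterate_succ_apply' _ _ _
    obtain ⟨e, he⟩ := W1_bdd ((countable_range fun j => ε (v j)).union (countable_range v))
    obtain ⟨a, ha, h3⟩ := hS e
    choose i ξ h4 h5 using fun j => h2 (v j) a ha fun i => (he _ (Or.inl ⟨j, rfl⟩)).trans (h3 i)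
    have h6 : ∀ j, ξ j < v (j + 1) := fun j => by
      rw [hv]
      exact hu _ _ (h4 j)
    have h7 : StrictMono ξ := strictMono_nat_of_lt_succ fun j => (h6 j).trans (h1 _ _ (h4 (j + 1)))
    refine (infinite_range_of_injective h7.injective)
      ((finite_iUnion fun i => rho_fin (a i) n).subset ?_)
    rintro _ ⟨j, rfl⟩
    exact mem_iUnion.2 ⟨i j, ((h6 j).trans (he _ (Or.inr ⟨_, rfl⟩))).trans (h3 _), h5 j⟩
  choose ν hν using h1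
  obtain ⟨e, he⟩ := W1_bdd (countable_range ν)
  exact ⟨e, fun n L hL => hν n L fun ξ hξ => (he _ ⟨n, rfl⟩).trans (hL ξ hξ)⟩

lemma bd {P : Type} (Q : W1 → Set P) (hQ : ∀ γ, (Q γ).Countable) (f : W1 → P → W1) :
    ∃ H : W1 → W1, ∀ γ, ∀ p ∈ Q γ, f γ p < H γ := by
  choose H hH using fun γ => W1_bdd ((hQ γ).image (f γ))
  exact ⟨H, fun γ p hp => hH γ _ (mem_image_of_mem _ hp)⟩

lemma list_cnt (γ : W1) : {l : List W1 | ∀ x ∈ l, x ≤ γ}.Countable := by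
  have := (W1_Iic γ).to_subtype
  refine (countable_range (List.map Subtype.val : List (Iic γ) → List W1)).mono fun l hl => ?_
  exact ⟨l.attachWith _ hl, by simp⟩

lemma pat_mono {γ γ' β β' : W1} (h : pat γ' β = pat γ' β') (hγ : γ ≤ γ') : pat γ β = pat γ β' := by
  funext ξ
  by_cases hξ : ξ ≤ γ
  · simp only [pat, if_pos hξ, pat_eq h (hξ.trans hγ)]
  · simp only [pat, if_neg hξ]

def Phi (A : Set (ι → W1)) (B : Set W1) (γ : W1)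
    (p : W1 × List W1 × (ι → W1 → ℕ) × (W1 → ℕ)) (δ : W1) : Prop :=
  ∃ a ∈ A, (∀ i, δ ≤ a i) ∧ ∃ b ∈ B, δ ≤ b ∧ (∀ i, pat γ (a i) = p.2.2.1 i) ∧ pat γ b = p.2.2.2 ∧
    ls δ b ⊥ = p.2.1 ∧ lm δ b ⊥ ≤ p.1 ∧ (∃ c ∈ C δ, p.1 < c ∧ c ≤ γ) ∧
    ∀ ξ, p.1 < ξ → ξ < δ → ∀ i, rho ξ (a i) = rho ξ b

def Step (A : Set (ι → W1)) (B : Set W1) (δ : W1) (R : ℕ → ℕ → Prop) : Prop :=
  ∀ a ∈ A, (∀ i, δ ≤ a i) → ∀ b ∈ B, δ ≤ b → ∀ γ < δ, lm δ b ⊥ ≤ γ →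
    ∃ a' ∈ A, (∀ i, δ ≤ a' i) ∧ ∃ b' ∈ B, δ ≤ b' ∧ (∀ i, pat γ (a' i) = pat γ (a i)) ∧
      pat γ b' = pat γ b ∧ ∃ L : List W1, L ≠ [] ∧ ls δ b' ⊥ = ls δ b ⊥ ++ L ∧
        ∀ ξ ∈ L, γ < ξ ∧ ∀ i, R (rho ξ (a' i)) (rho ξ b')

lemma good [Finite ι] (A : Set (ι → W1)) (B : Set W1) (h : W1 → W1) : ∃ δ, ⊥ < δ ∧
    (∀ ξ < δ, h ξ < δ) ∧ (∀ ξ < δ, sc ξ < δ) ∧ Step A B δ (· = ·) ∧ Step A B δ (· > ·) ∧
    ∀ a ∈ A, (∀ i, δ ≤ a i) → ∀ γ < δ, ∃ a' ∈ A, ∀ i, γ < a' i ∧ a' i < δ ∧ pat γ (a' i) = pat γ (a i) := by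
  classical
  have h1 : ∀ γ p, ∃ e, (∀ ε, ∃ δ, ε < δ ∧ Phi A B γ p δ) ∨ ∀ δ, Phi A B γ p δ → δ ≤ e := by
    intro γ p
    by_cases h1 : ∀ ε, ∃ δ, ε < δ ∧ Phi A B γ p δ
    · exact ⟨⊥, Or.inl h1⟩
    · push Not at h1
      obtain ⟨e, he⟩ := h1
      exact ⟨e, Or.inr fun δ hδ => not_lt.1 fun h2 => he δ h2 hδ⟩
  choose f1 hf1 using h1
  have h2 : ∀ (γ : W1) (s : ι → W1 → ℕ), ∃ ν,
      (∀ a ∈ A, (∀ i, pat γ (a i) = s i) → ∃ i, a i ≤ ν) ∨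
      ((∀ (n : ℕ) (L : List W1), (∀ ξ ∈ L, ν < ξ) → ∀ ε, ∃ a ∈ {a ∈ A | ∀ i, pat γ (a i) = s i},
        (∀ i, ε < a i) ∧ ∀ i, ∀ ξ ∈ L, n < rho ξ (a i)) ∧
        ∃ a ∈ A, ∀ i, γ < a i ∧ a i ≤ ν ∧ pat γ (a i) = s i) := by
    intro γ s
    by_cases h2 : Unb {a ∈ A | ∀ i, pat γ (a i) = s i}
    · obtain ⟨ν, hν⟩ := nu h2
      obtain ⟨a, ha, h3⟩ := h2 γ
      obtain ⟨e, he⟩ := W1_bdd ((countable_range a).insert ν)
      exact ⟨e, Or.inr ⟨fun n L hL => hν n L fun ξ hξ => (he _ (mem_insert _ _)).trans (hL ξ hξ),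
        a, ha.1, fun i => ⟨h3 i, (he _ (Or.inr ⟨i, rfl⟩)).le, ha.2 i⟩⟩⟩
    · simp only [Unb, not_forall, not_exists, not_and, not_lt] at h2
      obtain ⟨e, he⟩ := h2
      exact ⟨e, Or.inl fun a ha h3 => he a ⟨ha, h3⟩⟩
  choose f2 hf2 using h2
  have c1 : ∀ γ, (Set.univ.pi fun _ : ι => pat γ '' Ioi γ).Countable := fun γ =>
    countable_univ_pi fun _ => pat_cnt γ
  obtain ⟨H1, hH1⟩ := bd (fun γ => Iic γ ×ˢ {l : List W1 | ∀ x ∈ l, x ≤ γ} ×ˢ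
    (Set.univ.pi fun _ : ι => pat γ '' Ioi γ) ×ˢ (pat γ '' Ioi γ))
    (fun γ => (W1_Iic γ).prod ((list_cnt γ).prod ((c1 γ).prod (pat_cnt γ)))) f1
  obtain ⟨H2, hH2⟩ := bd _ c1 f2
  obtain ⟨δ, h0, hδ⟩ := club Cardinal.isRegular_aleph_one Cardinal.aleph0_lt_aleph_one mk_W1.ge
    (fun i => (Cardinal.countable_iff_lt_aleph_one _).1 (W1_Iio i))
    (c := fun s => ⋃ x ∈ s, {h x, sc x, H1 x, H2 x})
    (fun s => (Cardinal.countable_iff_lt_aleph_one _).1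
      (s.countable_toSet.biUnion fun x _ => (toFinite _).countable)) ⊥
  have hδ' : ∀ ξ < δ, ∀ y ∈ ({h ξ, sc ξ, H1 ξ, H2 ξ} : Set W1), y < δ := fun ξ hξ y hy =>
    hδ {ξ} (by simpa using hξ) (by simpa using hy)
  have d1 : ∀ ξ < δ, sc ξ < δ := fun ξ hξ => hδ' ξ hξ _ (by simp)
  have d2 : ∀ a ∈ A, (∀ i, δ ≤ a i) → ∀ γ < δ, ∃ ν < δ,
      (∀ (n : ℕ) (L : List W1), (∀ ξ ∈ L, ν < ξ) → ∀ ε, ∃ a' ∈ {a' ∈ A | ∀ i, pat γ (a' i) = pat γ (a i)},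
        (∀ i, ε < a' i) ∧ ∀ i, ∀ ξ ∈ L, n < rho ξ (a' i)) ∧
        ∃ a' ∈ A, ∀ i, γ < a' i ∧ a' i ≤ ν ∧ pat γ (a' i) = pat γ (a i) := by
    intro a ha h1 γ hγ
    have h2 : f2 γ (fun i => pat γ (a i)) < δ :=
      (hH2 γ _ fun i _ => ⟨a i, hγ.trans_le (h1 i), rfl⟩).trans (hδ' γ hγ _ (by simp))
    refine ⟨_, h2, (hf2 γ _).resolve_left fun h3 => ?_⟩
    obtain ⟨i, hi⟩ := h3 a ha fun _ => rfl
    exact absurd (h1 i) (not_le.2 (hi.trans_lt h2))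
  have d3 : Step A B δ (· = ·) := by
    intro a ha h1 b hb h2 γ hγ h3
    choose η hη1 hη2 using fun i => tail h0 (h1 i)
    obtain ⟨η', h4, h5⟩ := tail h0 h2
    obtain ⟨γ0, h6, h7⟩ := fin_bd h0 (((finite_range η).insert η').insert γ) (by
      rintro _ (rfl | rfl | ⟨i, rfl⟩)
      exacts [hγ, h4, hη1 i])
    have h8 : γ ≤ γ0 := h7 _ (mem_insert _ _)
    obtain ⟨c, hc, h9⟩ := C_cof (d1 γ0 h6)
    have h10 : γ0 < c := (lt_sc _).trans_le h9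
    have hcδ := C_lt hc
    have h11 : Phi A B c (γ0, ls δ b ⊥, fun i => pat c (a i), pat c b) δ :=
      ⟨a, ha, h1, b, hb, h2, fun _ => rfl, rfl, rfl, h3.trans h8, ⟨c, hc, h10, le_rfl⟩, fun ξ e1 e2 i =>
        (hη2 i ξ ((h7 _ (Or.inr (Or.inr ⟨i, rfl⟩))).trans_lt e1) e2).trans
          (h5 ξ ((h7 _ (Or.inr (Or.inl rfl))).trans_lt e1) e2).symm⟩
    have h12 : f1 c (γ0, ls δ b ⊥, fun i => pat c (a i), pat c b) < δ :=
      (hH1 c (γ0, ls δ b ⊥, fun i => pat c (a i), pat c b) ⟨h10.le, fun x hx => ((mem_ls hx).2.2.trans (h3.trans h8)).trans h10.le,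
        fun i _ => ⟨a i, hcδ.trans_le (h1 i), rfl⟩, b, hcδ.trans_le h2, rfl⟩).trans (hδ' c hcδ _ (by simp))
    obtain ⟨δ', e0, a', e1, e2, b', e3, e4, e5, e6, e7, e8, ⟨c', e9, e10, e11⟩, e12⟩ :=
      (hf1 c _).resolve_right (fun h => absurd (h δ h11) (not_le.2 h12)) δ
    simp only at e5 e6 e7 e8 e10 e12
    have e13 : lm δ' b' ⊥ < δ := e8.trans_lt h6
    refine ⟨a', e1, fun i => e0.le.trans (e2 i), b', e3, e0.le.trans e4,
      fun i => pat_mono (e5 i) (h8.trans h10.le), pat_mono e6 (h8.trans h10.le),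
      ls δ δ' (lm δ' b' ⊥), by rw [ls_pos e0]; simp, by rw [(walk e0.le b' e4 ⊥ e13).1, e7],
      fun ξ hξ => ?_⟩
    obtain ⟨-, g1, g2⟩ := mem_ls hξ
    have g3 : γ0 < ξ := e10.trans_le ((le_mx e0 e9 (e11.trans_lt hcδ)).trans g1)
    exact ⟨h8.trans_lt g3, e12 ξ g3 ((g2.trans_lt (lm_lt _ e13)).trans e0)⟩
  refine ⟨δ, h0, fun ξ hξ => hδ' ξ hξ _ (by simp), d1, d3, fun a ha h1 b hb h2 γ hγ h3 => ?_,
    fun a ha h1 γ hγ => ?_⟩
  · obtain ⟨ν, h4, h5, -⟩ := d2 a ha h1 γ hγ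
    obtain ⟨a0, -, -, b', e1, e2, -, e3, L, e4, e5, e6⟩ :=
      d3 a ha h1 b hb h2 (max γ ν) (max_lt hγ h4) (h3.trans (le_max_left _ _))
    obtain ⟨n, hn⟩ := (L.finite_toSet.image fun ξ => rho ξ b').bddAbove
    obtain ⟨a', g1, g2, g3⟩ := h5 n L (fun ξ hξ => (le_max_right _ _).trans_lt (e6 ξ hξ).1) δ
    exact ⟨a', g1.1, fun i => (g2 i).le, b', e1, e2, g1.2, pat_mono e3 (le_max_left _ _), L, e4, e5,
      fun ξ hξ => ⟨(le_max_left _ _).trans_lt (e6 ξ hξ).1,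
        fun i => (hn (mem_image_of_mem _ hξ)).trans_lt (g3 i ξ hξ)⟩⟩
  · obtain ⟨ν, h4, -, a', h5, h6⟩ := d2 a ha h1 γ hγ
    exact ⟨a', h5, fun i => ⟨(h6 i).1, (h6 i).2.1.trans_lt h4, (h6 i).2.2⟩⟩

lemma map_cmp {γ α α' β β' : W1} (h1 : pat γ α = pat γ α') (h2 : pat γ β = pat γ β') {l : List W1}
    (hl : ∀ x ∈ l, x ≤ γ) : l.map (cmp α β) = l.map (cmp α' β') :=
  List.map_congr_left fun x hx => by rw [cmp, cmp, pat_eq h1 (hl x hx), pat_eq h2 (hl x hx)]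

theorem osc_thm [Finite ι] {A : Set (ι → W1)} (hA : Unb A) {B : Set W1} (hB : ∀ ε, ∃ b ∈ B, ε < b)
    (h : W1 → W1) (N : ℕ) : ∃ δ, (∀ ξ < δ, h ξ < δ) ∧ ∃ a ∈ A, (∀ i, a i < δ) ∧ ∃ b : ℕ → W1,
      ∀ m ≤ N, b m ∈ B ∧ δ ≤ b m ∧ ∀ i, osc (a i) (b m) = osc (a i) (b 0) + m := by
  classical
  obtain ⟨δ, h0, h1, h2, h3, h4, h5⟩ := good A B h
  have key : ∀ N : ℕ, ∃ a ∈ A, (∀ i, δ ≤ a i) ∧ ∃ b : ℕ → W1, ∀ m ≤ N, b m ∈ B ∧ δ ≤ b m ∧
      ∀ i, EndT ((ls δ (b m) ⊥).map (cmp (a i) (b m))) ∧ cnt ((ls δ (b m) ⊥).map (cmp (a i) (b m))) =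
        cnt ((ls δ (b 0) ⊥).map (cmp (a i) (b 0))) + m := by
    intro N
    induction N with
    | zero =>
      obtain ⟨a, ha, e1⟩ := hA δ
      obtain ⟨b, hb, e2⟩ := hB δ
      obtain ⟨a', g1, g2, b', g3, g4, -, -, L, g5, g6, g7⟩ :=
        h3 a ha (fun i => (e1 i).le) b hb e2.le _ (lm_lt b h0) le_rfl
      refine ⟨a', g1, g2, fun _ => b', fun m hm => ⟨g3, g4, fun i => ⟨?_, by simpa using hm⟩⟩⟩
      rw [g6, List.map_append]
      refine endT_app _ (by simpa using g5) fun y hy => ?_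
      obtain ⟨ξ, hξ, rfl⟩ := List.mem_map.1 hy
      exact decide_eq_true ((g7 ξ hξ).2 i).le
    | succ N ih =>
      obtain ⟨a, ha, e1, b, e2⟩ := ih
      obtain ⟨γ, e3, e4⟩ := fin_bd h0 ((finite_Iic N).image fun m => lm δ (b m) ⊥) (by
        rintro _ ⟨m, -, rfl⟩
        exact lm_lt _ h0)
      have e5 : ∀ m ≤ N, lm δ (b m) ⊥ ≤ γ := fun m hm => e4 _ ⟨m, hm, rfl⟩
      obtain ⟨a1, g1, g2, b1, g3, g4, g5, g6, L1, g7, g8, g9⟩ :=
        h4 a ha e1 (b N) (e2 N le_rfl).1 (e2 N le_rfl).2.1 γ e3 (e5 N le_rfl)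
      obtain ⟨a2, k1, k2, b2, k3, k4, k5, k6, L2, k7, k8, k9⟩ :=
        h3 a1 g1 g2 b1 g3 g4 (max γ (lm δ b1 ⊥)) (max_lt e3 (lm_lt _ h0)) (le_max_right _ _)
      have m1 : ∀ i, pat γ (a2 i) = pat γ (a i) := fun i =>
        (pat_mono (k5 i) (le_max_left _ _)).trans (g5 i)
      have m2 : ∀ m ≤ N, ∀ i, (ls δ (b m) ⊥).map (cmp (a2 i) (b m)) =
          (ls δ (b m) ⊥).map (cmp (a i) (b m)) := fun m hm i =>
        map_cmp (m1 i) rfl fun x hx => (mem_ls hx).2.2.trans (e5 m hm)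
      refine ⟨a2, k1, k2, fun m => if m ≤ N then b m else b2, fun m hm => ?_⟩
      simp only [if_pos (Nat.zero_le N)]
      by_cases hm' : m ≤ N
      · simp only [if_pos hm']
        refine ⟨(e2 m hm').1, (e2 m hm').2.1, fun i => ?_⟩
        rw [m2 m hm', m2 0 (Nat.zero_le N)]
        exact (e2 m hm').2.2 i
      · simp only [if_neg hm']
        obtain rfl : m = N + 1 := by omega
        refine ⟨k3, k4, fun i => ?_⟩
        have m3 : ∀ y ∈ L2.map (cmp (a2 i) b2), y = true := fun y hy => by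
          obtain ⟨ξ, hξ, rfl⟩ := List.mem_map.1 hy
          exact decide_eq_true ((k9 ξ hξ).2 i).le
        rw [k8, List.map_append]
        refine ⟨endT_app _ (by simpa using k7) m3, ?_⟩
        rw [map_cmp (k5 i) k6 fun x hx => (mem_ls hx).2.2.trans (le_max_right _ _), g8, List.map_append,
          map_cmp (g5 i) g6 fun x hx => (mem_ls hx).2.2.trans (e5 N le_rfl),
          ((e2 N le_rfl).2.2 i).1.two (by simpa using g7) (fun y hy => ?_) m3, ((e2 N le_rfl).2.2 i).2,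
          m2 0 (Nat.zero_le N), add_assoc]
        obtain ⟨ξ, hξ, rfl⟩ := List.mem_map.1 hy
        exact decide_eq_false (not_le.2 ((g9 ξ hξ).2 i))
  obtain ⟨a, ha, e1, b, e2⟩ := key N
  have e3 : ∀ m, ∃ η < δ, m ≤ N → ∀ ξ, η < ξ → ξ < δ → rho ξ (b m) = rho ξ δ := fun m => by
    by_cases hm : m ≤ N
    · obtain ⟨η, e3, e4⟩ := tail h0 (e2 m hm).2.1
      exact ⟨η, e3, fun _ => e4⟩
    · exact ⟨⊥, h0, fun h => absurd h hm⟩
  choose η e3 e4 using e3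
  obtain ⟨γ, e5, e6⟩ := fin_bd h0 ((finite_Iic N).image fun m => max (η m) (lm δ (b m) ⊥)) (by
    rintro _ ⟨m, -, rfl⟩
    exact max_lt (e3 m) (lm_lt _ h0))
  have e7 : ∀ m ≤ N, η m ≤ γ ∧ lm δ (b m) ⊥ ≤ γ := fun m hm => max_le_iff.1 (e6 _ ⟨m, hm, rfl⟩)
  obtain ⟨c, hc, e8⟩ := C_cof (h2 γ e5)
  have e9 : γ < c := (lt_sc _).trans_le e8
  obtain ⟨a', g1, g2⟩ := h5 a ha e1 c (C_lt hc)
  have g3 : ∀ m ≤ N, ∀ i, osc (a' i) (b m) = cnt ((ls δ (b m) ⊥).map (cmp (a i) (b m))) +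
      cnt (true :: (ls (a' i) δ ⊥).map (cmp (a' i) δ)) := by
    intro m hm i
    obtain ⟨g3, g4, g5⟩ := g2 i
    have g6 : c ≤ mx (a' i) δ := le_mx g4 hc g3
    have g7 : ls (a' i) δ (lm δ (b m) ⊥) = ls (a' i) δ ⊥ := by
      rw [ls_pos g4, ls_pos g4, max_eq_right bot_le,
        max_eq_right (((e7 m hm).2.trans e9.le).trans g6)]
    rw [osc, (walk g4.le _ (e2 m hm).2.1 ⊥ (((e7 m hm).2.trans_lt e9).trans g3)).1, g7, List.map_append,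
      map_cmp g5 rfl fun x hx => ((mem_ls hx).2.2.trans (e7 m hm).2).trans e9.le,
      ((e2 m hm).2.2 i).1.app]
    congr 3
    refine List.map_congr_left fun x hx => ?_
    obtain ⟨-, g8, g9⟩ := mem_ls hx
    rw [cmp, cmp, e4 m hm x (((e7 m hm).1.trans_lt e9).trans_le (g6.trans g8))
      ((g9.trans_lt (lm_lt _ (bot_le.trans_lt g3))).trans g4)]
  refine ⟨δ, h1, a', g1, fun i => (g2 i).2.1, b, fun m hm => ⟨(e2 m hm).1, (e2 m hm).2.1, fun i => ?_⟩⟩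
  rw [g3 m hm, g3 0 (Nat.zero_le N), ((e2 m hm).2.2 i).2]
  ring

end Pool.Agent.H30.Moo
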