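import Pool.Agent.H30.MooB

set_option autoImplicit false

open Set Filter Topology

namespace Pool.Agent.H30.Moo

open Pool.Agent.H30.Spl Pool.Agent.H30.Dia

def Q : ℕ → ℕ
  | 0 => 1
  | j + 1 => Q j * (2 * (j + 1))

lemma lt_Q (j : ℕ) : j < Q j := by
  induction j with
  | zero => exact one_pos
  | succ j ih =>
    rw [Q]
    nlinarith

lemma Q_pos (j : ℕ) : 0 < Q j := (Nat.zero_le j).trans_lt (lt_Q j)

lemma Q_dvd {j p : ℕ} (h : j < p) : ∃ w, Q p = Q j * (2 * (j + 1)) * w := by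
  induction h with
  | refl => exact ⟨1, by rw [Q, mul_one]⟩
  | step _ ih =>
    obtain ⟨w, hw⟩ := ih
    exact ⟨_, by rw [Q, hw, mul_assoc]⟩

def Safe (x p : ℕ) : Prop := ¬ 2 * (p + 1) ∣ x / Q p + 1

lemma div_lo {j p : ℕ} (h : j < p) (x t : ℕ) : ∃ u, (x + t * Q p) / Q j = x / Q j + 2 * (j + 1) * u := by
  obtain ⟨w, hw⟩ := Q_dvd h
  refine ⟨w * t, ?_⟩
  rw [hw, show t * (Q j * (2 * (j + 1)) * w) = Q j * (2 * (j + 1) * (w * t)) by ring,
    Nat.add_mul_div_left _ _ (Q_pos j)]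

lemma div_hi {j p x : ℕ} (h : p < j) (hx : Safe x p) : (x + Q p) / Q j = x / Q j := by
  obtain ⟨w, hw⟩ := Q_dvd h
  have e : ∀ y, y / Q j = y / Q p / (2 * (p + 1)) / w := fun y => by
    rw [hw, Nat.div_div_eq_div_mul, Nat.div_div_eq_div_mul, mul_assoc]
  rw [e, e, Nat.add_div_right _ (Q_pos p), Nat.succ_div, if_neg hx, add_zero]

lemma safe_lo {j p x : ℕ} (h : j < p) (hx : Safe x j) (t : ℕ) : Safe (x + t * Q p) j := by
  obtain ⟨u, hu⟩ := div_lo h x t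
  intro h1
  rw [hu, add_right_comm] at h1
  exact hx ((Nat.dvd_add_left (dvd_mul_right _ _)).1 h1)

lemma safe_add {j p x : ℕ} (h : j ≠ p) (hj : Safe x j) (hp : Safe x p) : Safe (x + Q p) j := by
  rcases h.lt_or_gt with h | h
  · simpa using safe_lo h hj 1
  · rwa [Safe, div_hi h hp]

lemma phase1 {ι : Type} [Fintype ι] (P : Finset ℕ) (hP : ∀ p ∈ P, Fintype.card ι < 2 * (p + 1)) :
    ∃ N, ∀ x : ι → ℕ, ∃ m ≤ N, ∀ p ∈ P, ∀ i, Safe (x i + m) p := by
  induction P using Finset.induction_on_max with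
  | empty => exact ⟨0, fun x => ⟨0, le_rfl, by simp⟩⟩
  | insert p P hp ih =>
    obtain ⟨N, hN⟩ := ih fun q hq => hP q (Finset.mem_insert_of_mem hq)
    refine ⟨N + 2 * (p + 1) * Q p, fun x => ?_⟩
    obtain ⟨m, h1, h2⟩ := hN x
    obtain ⟨t, h3, h4⟩ : ∃ t < 2 * (p + 1), ∀ i, ¬ 2 * (p + 1) ∣ (x i + m) / Q p + t + 1 := by
      by_contra h
      push Not at h
      choose f hf using fun t : Fin (2 * (p + 1)) => h t t.2
      refine absurd (Fintype.card_le_of_injective f fun a b hab => ?_)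
        (by simpa using hP p (Finset.mem_insert_self _ _))
      have e1 := hf a
      have e2 := hf b
      rw [← hab] at e2
      have e3 : (a : ℕ) ≡ b [MOD 2 * (p + 1)] := by
        have e4 := ((Nat.modEq_zero_iff_dvd.2 e1).trans (Nat.modEq_zero_iff_dvd.2 e2).symm)
        exact Nat.ModEq.add_left_cancel' _ (Nat.ModEq.add_right_cancel' 1 e4)
      exact Fin.ext (Nat.ModEq.eq_of_lt_of_lt e3 a.2 b.2)
    refine ⟨m + t * Q p, add_le_add h1 (Nat.mul_le_mul_right _ h3.le), fun q hq i => ?_⟩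
    rw [← add_assoc]
    rcases Finset.mem_insert.1 hq with rfl | hq
    · rw [Safe, Nat.add_mul_div_right _ _ (Q_pos q)]
      exact h4 i
    · exact safe_lo (hp q hq) (h2 q hq i) t

open Classical in
noncomputable def T (J : Set ℕ) (x M : ℕ) : ZMod 2 :=
  ∑ j ∈ Finset.range M, if j ∈ J then ((x / Q j : ℕ) : ZMod 2) else 0

lemma T_stab (J : Set ℕ) {x M : ℕ} (h : x < M) : T J x M = T J x (x + 1) := by
  refine (Finset.sum_subset (Finset.range_mono h) fun j _ hj => ?_).symm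
  rw [Nat.div_eq_of_lt (lt_of_lt_of_le (by simpa using hj) (lt_Q j).le)]
  simp

open Classical in
lemma T_step (J : Set ℕ) {x p M : ℕ} (hx : Safe x p) (hp : p < M) :
    T J (x + Q p) M = T J x M + if p ∈ J then 1 else 0 := by
  have h1 : ∀ j, (((x + Q p) / Q j : ℕ) : ZMod 2) = (x / Q j : ℕ) + if j = p then 1 else 0 := by
    intro j
    rcases lt_trichotomy j p with h | rfl | h
    · obtain ⟨u, hu⟩ := div_lo h x 1
      rw [one_mul] at hu
      rw [hu, if_neg h.ne]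
      push_cast
      rw [show (2 : ZMod 2) = 0 from rfl]
      ring
    · rw [Nat.add_div_right _ (Q_pos j), if_pos rfl]
      push_cast
      rfl
    · rw [div_hi h hx, if_neg h.ne', add_zero]
  have h2 : (if p ∈ J then 1 else 0 : ZMod 2) =
      ∑ j ∈ Finset.range M, if j = p then (if j ∈ J then 1 else 0) else 0 := by
    rw [Finset.sum_ite_eq', if_pos (Finset.mem_range.2 hp)]
  rw [h2, T, T, ← Finset.sum_add_distrib]
  refine Finset.sum_congr rfl fun j _ => ?_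
  rw [h1]
  split_ifs <;> simp

open Classical in
lemma phase2 (J : Set ℕ) (M : ℕ) (E : Finset ℕ) : ∀ x, (∀ p ∈ E, Safe x p ∧ p < M) →
    T J (x + ∑ p ∈ E, Q p) M = T J x M + ∑ p ∈ E, if p ∈ J then 1 else 0 := by
  induction E using Finset.induction_on with
  | empty => simp
  | insert p E hp ih =>
    intro x hx
    have h1 := hx p (Finset.mem_insert_self _ _)
    rw [Finset.sum_insert hp, Finset.sum_insert hp, ← add_assoc, ih, T_step J h1.1 h1.2, add_assoc]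
    intro q hq
    have h2 := hx q (Finset.mem_insert_of_mem hq)
    exact ⟨safe_add (fun h => hp (h ▸ hq)) h2.1 h1.1, h2.2⟩

lemma digits {ι : Type} [Fintype ι] (j : ι → ℕ) (hj : ∀ i, Fintype.card ι ≤ j i) :
    ∃ N, ∀ J : ι → Set ℕ, (∀ i i', j i ∈ J i' ↔ i = i') → ∀ (x : ι → ℕ) (π : ι → ZMod 2),
      ∃ m ≤ N, ∀ i, T (J i) (x i + m) (x i + m + 1) = π i := by
  classical
  obtain ⟨N, hN⟩ := phase1 (ι := ι) (Finset.univ.image j) fun p hp => by
    obtain ⟨i, -, rfl⟩ := Finset.mem_image.1 hp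
    have := hj i
    omega
  refine ⟨N + ∑ p ∈ Finset.univ.image j, Q p, fun J hJ x π => ?_⟩
  obtain ⟨m, h1, h2⟩ := hN x
  let I : Finset ι := Finset.univ.filter fun i => T (J i) (x i + m) (x i + m + 1) ≠ π i
  have h3 : I.image j ⊆ Finset.univ.image j := Finset.image_subset_image (Finset.subset_univ _)
  refine ⟨m + ∑ p ∈ I.image j, Q p, add_le_add h1 (Finset.sum_le_sum_of_subset h3), fun i => ?_⟩
  let M := x i + m + ∑ p ∈ I.image j, Q p + 1
  have h4 : ∀ p ∈ I.image j, p < M := fun p hp =>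
    (lt_Q p).trans_le ((Finset.single_le_sum (f := Q) (fun _ _ => Nat.zero_le _) hp).trans (by omega))
  rw [← add_assoc, phase2 _ _ _ _ fun p hp => ⟨h2 p (h3 hp) i, h4 p hp⟩, T_stab _ (by omega),
    Finset.sum_image fun a _ b _ hab => (hJ a b).1 (by
      rw [show j a = j b from hab]
      exact (hJ b b).2 rfl)]
  simp only [hJ, Finset.sum_ite_eq']
  by_cases h5 : i ∈ I
  · rw [if_pos h5]
    have h6 := (Finset.mem_filter.1 h5).2
    revert h6
    generalize T (J i) (x i + m) (x i + m + 1) = u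
    generalize π i = v
    revert u v
    decide
  · rw [if_neg h5, add_zero]
    simpa [I] using h5

lemma exists_J : ∃ J : W1 → Set ℕ, (∀ α, (J α).Infinite) ∧ ∀ α β, α ≠ β → (J α ∩ J β).Finite := by
  obtain ⟨r⟩ : Nonempty (W1 ↪ (ℕ → Bool)) := by
    rw [← Cardinal.le_def, mk_W1]
    simpa using Cardinal.aleph_one_le_continuum
  have h1 : ∀ (f g : ℕ → Bool) (n m : ℕ), Encodable.encode ((List.range n).map f) =
      Encodable.encode ((List.range m).map g) → n = m ∧ ∀ i < n, f i = g i := by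
    intro f g n m h
    have h2 := Encodable.encode_injective h
    obtain rfl : n = m := by simpa using congrArg List.length h2
    exact ⟨rfl, fun i hi => List.map_inj_left.1 h2 i (List.mem_range.2 hi)⟩
  refine ⟨fun α => range fun n => Encodable.encode ((List.range n).map (r α)),
    fun α => infinite_range_of_injective fun n m h => (h1 _ _ n m h).1, fun α β h => ?_⟩
  obtain ⟨i, hi⟩ := Function.ne_iff.1 (r.injective.ne h)
  refine ((finite_Iic i).image fun n => Encodable.encode ((List.range n).map (r α))).subset ?_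
  rintro _ ⟨⟨n, rfl⟩, m, hm⟩
  exact ⟨n, not_lt.1 fun h2 => hi ((h1 _ _ n m hm.symm).2 i h2), rfl⟩

noncomputable def J : W1 → Set ℕ := exists_J.choose

lemma priv {ι : Type} [Finite ι] {a : ι → W1} (ha : Function.Injective a) (K : ℕ) :
    ∃ j : ι → ℕ, (∀ i, K ≤ j i) ∧ ∀ i i', j i ∈ J (a i') ↔ i = i' := by
  have h1 : ∀ i, ∃ j, K ≤ j ∧ ∀ i', j ∈ J (a i') ↔ i = i' := by
    intro i
    obtain ⟨j, h1, h2⟩ := ((exists_J.choose_spec.1 (a i)).sdiff (finite_iUnion fun i' : {i' // i ≠ i'} =>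
      exists_J.choose_spec.2 _ _ (ha.ne i'.2))).exists_gt K
    refine ⟨j, h2.le, fun i' => ⟨fun h => by_contra fun h3 => ?_, fun h => h ▸ h1.1⟩⟩
    exact h1.2 (mem_iUnion.2 ⟨⟨i', h3⟩, h1.1, h⟩)
  choose j h1 h2 using h1
  exact ⟨j, h1, h2⟩

noncomputable def col (α β : W1) : Bool := decide (T (J α) (osc α β) (osc α β + 1) = 1)

theorem fd_fin {k : ℕ} {A : Set (Fin k → W1)} (hA : Unb A) (hi : ∀ a ∈ A, Function.Injective a)
    (π : Fin k → Bool) {B : Set W1} (hB : ∀ ε, ∃ b ∈ B, ε < b) (h : W1 → W1) :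
    ∃ δ, (∀ ξ < δ, h ξ < δ) ∧ ∃ a ∈ A, (∀ i, a i < δ) ∧ ∃ b ∈ B, δ ≤ b ∧ ∀ i, col (a i) b = π i := by
  have h1 : ∃ j : Fin k → ℕ, (∀ i, k ≤ j i) ∧ Unb {a ∈ A | ∀ i i', j i ∈ J (a i') ↔ i = i'} := by
    by_contra h1
    simp only [Unb, not_exists, not_and, not_forall] at h1
    choose! e he using h1
    obtain ⟨ε, hε⟩ := W1_bdd (countable_range e)
    obtain ⟨a, ha, h2⟩ := hA ε
    obtain ⟨j, h3, h4⟩ := priv (hi a ha) k
    obtain ⟨i, hi⟩ := he j h3 a ⟨ha, h4⟩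
    exact hi ((hε _ ⟨j, rfl⟩).trans (h2 i))
  obtain ⟨j, h1, h2⟩ := h1
  obtain ⟨N, hN⟩ := digits j (by simpa using h1)
  obtain ⟨δ, h3, a, ha, h4, b, h5⟩ := osc_thm h2 hB h N
  obtain ⟨m, h6, h7⟩ := hN (fun i => J (a i)) ha.2 (fun i => osc (a i) (b 0))
    fun i => if π i then 1 else 0
  refine ⟨δ, h3, a, ha.1, h4, b m, (h5 m h6).1, (h5 m h6).2.1, fun i => ?_⟩
  rw [col, (h5 m h6).2.2 i, h7 i]
  cases π i <;> simp

theorem fd {A : Set (Finset W1 × (W1 → Bool))} (hA : ∀ ε, ∃ a ∈ A, ∀ ξ ∈ a.1, ε < ξ)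
    {B : Set W1} (hB : ∀ ε, ∃ b ∈ B, ε < b) (h : W1 → W1) :
    ∃ δ, (∀ ξ < δ, h ξ < δ) ∧ ∃ a ∈ A, (∀ ξ ∈ a.1, ξ < δ) ∧ ∃ b ∈ B, δ ≤ b ∧
      ∀ ξ ∈ a.1, col ξ b = a.2 ξ := by
  let S : (Σ k : ℕ, Fin k → Bool) → Set (Finset W1 × (W1 → Bool)) := fun p =>
    {a ∈ A | ∃ e : Fin p.1 → W1, Function.Injective e ∧ range e = a.1 ∧ ∀ i, a.2 (e i) = p.2 i}
  have h1 : ∃ p, ∀ ε, ∃ a ∈ S p, ∀ ξ ∈ a.1, ε < ξ := by
    by_contra h1
    push Not at h1
    choose e he using h1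
    obtain ⟨ε, hε⟩ := W1_bdd (countable_range e)
    obtain ⟨a, ha, h2⟩ := hA ε
    obtain ⟨ξ, h3, h4⟩ := he ⟨a.1.card, fun i => a.2 (a.1.orderEmbOfFin rfl i)⟩ a
      ⟨ha, a.1.orderEmbOfFin rfl, (a.1.orderEmbOfFin rfl).injective, Finset.range_orderEmbOfFin _ _,
        fun _ => rfl⟩
    exact absurd ((hε _ ⟨_, rfl⟩).trans (h2 ξ h3)) (not_lt.2 h4)
  obtain ⟨⟨k, π⟩, h1⟩ := h1
  obtain ⟨δ, h2, e, ⟨he, a, ha, h3, h4⟩, h5, b, hb, h6, h7⟩ := fd_fin
    (A := {e | Function.Injective e ∧ ∃ a ∈ A, range e = a.1 ∧ ∀ i, a.2 (e i) = π i}) (fun ε => by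
      obtain ⟨a, ⟨ha, e, e1, e2, e3⟩, h2⟩ := h1 ε
      exact ⟨e, ⟨e1, a, ha, e2, e3⟩, fun i => h2 _ (e2.le (mem_range_self i))⟩) (fun _ h => h.1) π hB h
  refine ⟨δ, h2, a, ha, fun ξ hξ => ?_, b, hb, h6, fun ξ hξ => ?_⟩
  · obtain ⟨i, rfl⟩ := h3.ge (Finset.mem_coe.2 hξ)
    exact h5 i
  · obtain ⟨i, rfl⟩ := h3.ge (Finset.mem_coe.2 hξ)
    exact (h7 i).trans (h4 i).symm

end Pool.Agent.H30.Moo
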