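import Pool.Agent.H30.MooC

set_option autoImplicit false

open Set Filter Topology

namespace Pool.Agent.H30.Moo

open Pool.Agent.H30.Spl Pool.Agent.H30.Dia

lemma mem_cl {X : Set (W1 → Bool)} {S : Set X} {z : X} :
    z ∈ closure S ↔ ∀ I : Finset W1, ∃ w ∈ S, ∀ ξ ∈ I, w.1 ξ = z.1 ξ := by
  refine ⟨fun h I => ?_, fun h => mem_closure_iff_nhds.2 fun U hU => ?_⟩
  · have ho : IsOpen {w : X | ∀ ξ ∈ I, w.1 ξ = z.1 ξ} := by
      simp only [Set.ofPred_forall]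
      exact isOpen_biInter_finset fun ξ _ =>
        (isOpen_discrete {z.1 ξ}).preimage (f := fun w : X => w.1 ξ)
          ((continuous_apply ξ).comp continuous_subtype_val)
    obtain ⟨w, h1, h2⟩ := mem_closure_iff.1 h _ ho fun _ _ => rfl
    exact ⟨w, h2, h1⟩
  · obtain ⟨V, hV, hU'⟩ := (mem_nhds_induced _ _ _).1 hU
    rw [nhds_pi, Filter.mem_pi] at hV
    obtain ⟨I, hI, s, hs, hsV⟩ := hV
    obtain ⟨w, h1, h2⟩ := h hI.toFinset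
    refine ⟨w, hU' (hsV fun ξ hξ => ?_), h1⟩
    rw [h2 ξ (hI.mem_toFinset.2 hξ)]
    exact mem_of_mem_nhds (hs ξ)

open Classical in
noncomputable def px (α β : W1) (F : Finset ℕ) : W1 → Bool :=
  fun ξ => if ξ < α then col ξ β else decide (∃ j ∈ F, j ∈ J ξ)

def XX : Set (W1 → Bool) := {f | ∃ α β F, α ≤ β ∧ f = px α β F}

lemma ext_alt (Y : Set XX) (s : Finset W1) (π : W1 → Bool) : ∃ ν,
    (∀ α β F, ∀ w ∈ Y, α ≤ β → w.1 = px α β F → (∀ ξ ∈ s, w.1 ξ = π ξ) → α ≤ ν) ∨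
    ∀ (s' : Finset W1) (π' : W1 → Bool), (∀ ξ ∈ s', ν < ξ) →
      ∃ w ∈ Y, (∀ ξ ∈ s, w.1 ξ = π ξ) ∧ ∀ ξ ∈ s', w.1 ξ = π' ξ := by
  by_contra h
  simp only [not_exists, not_or, not_forall, not_le, not_and] at h
  choose α β F w h1 h2 h3 h4 h5 using fun ν => (h ν).1
  obtain ⟨δ, e1, a, e2, e3, _, ⟨ε, rfl⟩, e4, e5⟩ := fd
    (A := {a | ∀ w ∈ Y, (∀ ξ ∈ s, w.1 ξ = π ξ) → ∃ ξ, ∃ _ : ξ ∈ a.1, ¬ w.1 ξ = a.2 ξ}) (fun ε => by
      obtain ⟨s', π', e1, e2⟩ := (h ε).2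
      exact ⟨(s', π'), e2, e1⟩) (B := range β) (fun ε => ⟨_, ⟨ε, rfl⟩, (h5 ε).trans_le (h2 ε)⟩) β
  obtain ⟨ξ, e6, e7⟩ := e2 _ (h1 ε) (h4 ε)
  have e8 : δ ≤ ε := not_lt.1 fun e8 => absurd (e1 ε e8) (not_lt.2 e4)
  refine e7 ?_
  rw [h3, px, if_pos (((e3 ξ e6).trans_le e8).trans (h5 ε))]
  exact e5 ξ e6

theorem closed_sep (Y : Set XX) (hY : IsClosed Y) : ∃ D ⊆ Y, Y ⊆ closure D ∧ D.Countable := by
  classical
  choose ν hν using fun s t : Finset W1 => ext_alt Y s fun ξ => decide (ξ ∈ t)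
  obtain ⟨γ, -, hγ⟩ := club Cardinal.isRegular_aleph_one Cardinal.aleph0_lt_aleph_one mk_W1.ge
    (fun i => (Cardinal.countable_iff_lt_aleph_one _).1 (W1_Iio i))
    (c := fun s => ν s '' {t | ↑t ⊆ (s : Set W1)})
    (fun s => (Cardinal.countable_iff_lt_aleph_one _).1 ((cnt_finsets s.countable_toSet).image _)) ⊥
  have h0 : ∀ (s : Finset W1) (y : W1 → Bool), ∀ ξ ∈ s,
      y ξ = decide (ξ ∈ s.filter fun ξ => y ξ = true) := fun s y ξ hξ => by simp [hξ]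
  have h1 : ∀ p : W1 × Finset ℕ × Finset W1 × Finset W1, ∃ S : Set XX, S.Countable ∧ S ⊆ Y ∧
      ∀ β, ∀ w ∈ Y, w.1 = px p.1 β p.2.1 → (∀ ξ ∈ p.2.2.1, w.1 ξ = decide (ξ ∈ p.2.2.2)) →
        ∃ w' ∈ S, ∃ β', w'.1 = px p.1 β' p.2.1 ∧ ∀ ξ ∈ p.2.2.1, w'.1 ξ = decide (ξ ∈ p.2.2.2) := by
    intro p
    by_cases h1 : ∃ β, ∃ w ∈ Y, w.1 = px p.1 β p.2.1 ∧ ∀ ξ ∈ p.2.2.1, w.1 ξ = decide (ξ ∈ p.2.2.2)
    · obtain ⟨β, w, e1, e2, e3⟩ := h1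
      exact ⟨{w}, countable_singleton _, singleton_subset_iff.2 e1,
        fun _ _ _ _ _ => ⟨w, rfl, β, e2, e3⟩⟩
    · exact ⟨∅, countable_empty, empty_subset _, fun β w a b c => absurd ⟨β, w, a, b, c⟩ h1⟩
  choose S s1 s2 s3 using h1
  let P : Set (W1 × Finset ℕ × Finset W1 × Finset W1) :=
    Iic γ ×ˢ Set.univ ×ˢ {s : Finset W1 | ↑s ⊆ Iic γ} ×ˢ {s : Finset W1 | ↑s ⊆ Iic γ}
  have hP : P.Countable := (W1_Iic γ).prod (countable_univ.prod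
    ((cnt_finsets (W1_Iic γ)).prod (cnt_finsets (W1_Iic γ))))
  have h2 : ∀ w ∈ Y, ∀ α β F, α ≤ γ → w.1 = px α β F → w ∈ closure (⋃ p ∈ P, S p) := by
    intro w hw α β F hα e
    refine mem_cl.2 fun I => ?_
    let s := I.filter (· < α)
    have e1 : (s : Set W1) ⊆ Iic γ := fun ξ hξ => (Finset.mem_filter.1 hξ).2.le.trans hα
    obtain ⟨w', e2, β', e3, e4⟩ := s3 (α, F, s, s.filter fun ξ => w.1 ξ = true) β w hw e (h0 s w.1)
    refine ⟨w', mem_biUnion (x := (α, F, s, s.filter fun ξ => w.1 ξ = true))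
      ⟨hα, mem_univ _, e1, (Finset.coe_subset.2 (Finset.filter_subset _ _)).trans e1⟩ e2, fun ξ hξ => ?_⟩
    by_cases h : ξ < α
    · have e5 : ξ ∈ s := Finset.mem_filter.2 ⟨hξ, h⟩
      exact (e4 ξ e5).trans (h0 s w.1 ξ e5).symm
    · rw [e3, e]
      simp only [px, if_neg h]
  refine ⟨⋃ p ∈ P, S p, iUnion₂_subset fun p _ => s2 p, fun y hy => ?_, hP.biUnion fun p _ => s1 p⟩
  obtain ⟨α, β, F, hαβ, e⟩ := y.2
  rcases le_total α γ with hα | hα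
  · exact h2 y hy α β F hα e
  have h3 : ∀ F', (⟨px γ β F', γ, β, F', hα.trans hαβ, rfl⟩ : XX) ∈ Y := by
    intro F'
    refine hY.closure_subset (mem_cl.2 fun I => ?_)
    let s := I.filter (· < γ)
    have e1 : ν s (s.filter fun ξ => y.1 ξ = true) < γ :=
      hγ s (fun ξ hξ => (Finset.mem_filter.1 hξ).2)
        ⟨_, Finset.coe_subset.2 (Finset.filter_subset _ _), rfl⟩
    obtain ⟨w, e2, e3, e4⟩ := (hν s _).resolve_left
      (fun h => absurd (h α β F y hy hαβ e (h0 s y.1)) (not_le.2 (e1.trans_le hα)))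
      (I.filter (γ ≤ ·)) (px γ β F') fun ξ hξ => e1.trans_le (Finset.mem_filter.1 hξ).2
    refine ⟨w, e2, fun ξ hξ => ?_⟩
    rcases lt_or_ge ξ γ with h | h
    · have e5 : ξ ∈ s := Finset.mem_filter.2 ⟨hξ, h⟩
      rw [e3 ξ e5, ← h0 s y.1 ξ e5, e]
      simp only [px, if_pos h, if_pos (h.trans_le hα)]
    · exact e4 ξ (Finset.mem_filter.2 ⟨hξ, h⟩)
  refine closure_minimal (s := range fun F' => (⟨px γ β F', γ, β, F', hα.trans hαβ, rfl⟩ : XX))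
    (range_subset_iff.2 fun F' => h2 _ (h3 F') γ β F' le_rfl rfl) isClosed_closure
    (mem_cl.2 fun I => ?_)
  obtain ⟨j, -, hj⟩ := priv (a := (Subtype.val : I → W1)) Subtype.val_injective 0
  refine ⟨_, ⟨(Finset.univ.filter fun i : I => y.1 i = true).image j, rfl⟩, fun ξ hξ => ?_⟩
  by_cases h : ξ < γ
  · rw [e]
    simp only [px, if_pos h, if_pos (h.trans_le hα)]
  · simp only [px, if_neg h]
    rw [Bool.eq_iff_iff, decide_eq_true_iff]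
    constructor
    · rintro ⟨_, h4, h5⟩
      obtain ⟨i, hi, rfl⟩ := Finset.mem_image.1 h4
      rw [(hj i ⟨ξ, hξ⟩).1 h5] at hi
      exact (Finset.mem_filter.1 hi).2
    · exact fun h4 => ⟨_, Finset.mem_image_of_mem _ (Finset.mem_filter.2
        ⟨Finset.mem_univ (⟨ξ, hξ⟩ : I), h4⟩), (hj ⟨ξ, hξ⟩ ⟨ξ, hξ⟩).2 rfl⟩

theorem not_sep_Z {D : Set XX} (hD : D ⊆ {z | ∃ β, z.1 = px β β ∅}) (hc : D.Countable) :
    ¬ {z : XX | ∃ β, z.1 = px β β ∅} ⊆ closure D := by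
  intro h
  choose! β hβ using hD
  obtain ⟨ε, hε⟩ := W1_bdd (hc.image β)
  obtain ⟨δ, -, _, ⟨ξ, h1, rfl⟩, h2, b, -, h3, h4⟩ := fd
    (A := (fun ξ => ({ξ}, fun _ => true)) '' Ioi ε) (fun e => ⟨_, ⟨sc (max ε e),
      (le_max_left _ _).trans_lt (lt_sc _), rfl⟩, by simpa using (le_max_right ε e).trans_lt (lt_sc _)⟩)
    (B := Set.univ) (fun e => ⟨_, mem_univ _, lt_sc e⟩) id
  obtain ⟨w, h5, h6⟩ := mem_cl.1 (h (a := ⟨px b b ∅, b, b, ∅, le_rfl, rfl⟩) ⟨b, rfl⟩) {ξ}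
  have h7 := h6 ξ (by simp)
  rw [hβ h5] at h7
  simp only [px, if_neg (not_lt.2 ((hε _ (mem_image_of_mem _ h5)).trans h1).le),
    if_pos ((h2 ξ (by simp)).trans_le h3), h4 ξ (by simp)] at h7
  simp at h7

end Pool.Agent.H30.Moo
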