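import Pool.Agent.H30.SplB

set_option autoImplicit false

namespace Pool.Agent.H30.Mt

open Set Filter Topology Function Cardinal

/-- `H < K` for nonempty finite sets of naturals. -/
def Lt (H K : Finset ℕ) : Prop := H.Nonempty ∧ K.Nonempty ∧ ∀ i ∈ H, ∀ j ∈ K, i < j

def fill (E : Finset ℕ) (n : ℕ) : Finset ℕ := E ∪ Finset.Ioc (E.sup id) n

lemma le_sup {E : Finset ℕ} {i : ℕ} (h : i ∈ E) : i ≤ E.sup id := Finset.le_sup (f := id) h

lemma fill_union {E K : Finset ℕ} (h : E.sup id ≤ K.sup id) (n : ℕ) :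
    fill (E ∪ K) n = E ∪ fill K n := by
  rw [fill, fill, Finset.sup_union, sup_eq_right.2 h, Finset.union_assoc]

lemma sup_fill {E : Finset ℕ} {n : ℕ} (h : E.sup id ≤ n) : (fill E n).sup id = n := by
  refine le_antisymm (Finset.sup_le fun i hi => ?_) ?_
  · rcases Finset.mem_union.1 hi with h1 | h1
    exacts [(le_sup h1).trans h, (Finset.mem_Ioc.1 h1).2]
  · rcases h.eq_or_lt with h1 | h1
    · exact h1.ge.trans (Finset.sup_mono Finset.subset_union_left)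
    · exact le_sup (Finset.mem_union_right _ (Finset.mem_Ioc.2 ⟨h1, le_rfl⟩))

lemma fill_fill {E : Finset ℕ} {n m : ℕ} (h : E.sup id ≤ n) (h' : n ≤ m) :
    fill (fill E n) m = fill E m := by
  rw [fill, sup_fill h, fill, fill, Finset.union_assoc, Finset.Ioc_union_Ioc_eq_Ioc h h']

def Far (q : Ultrafilter (Finset ℕ)) : Prop :=
  ∀ n, ∀ᶠ H : Finset ℕ in q, H.Nonempty ∧ ∀ i ∈ H, n < i

lemma Far.sup {q : Ultrafilter (Finset ℕ)} (h : Far q) (n : ℕ) :
    ∀ᶠ H : Finset ℕ in q, n ≤ H.sup id :=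
  (h n).mono fun _ ⟨⟨i, hi⟩, h2⟩ => (h2 i hi).le.trans (le_sup hi)

lemma hge (a : ℕ) : ∀ᶠ n : ℕ in hyperfilter ℕ, a ≤ n :=
  Nat.hyperfilter_le_atTop (eventually_ge_atTop a)

lemma exists_q : ∃ q : Ultrafilter (Finset ℕ), Far q ∧
    (∀ P ∈ q, ∀ᶠ H in q, ∀ᶠ n in hyperfilter ℕ, fill H n ∈ P) ∧
    ∀ P ∈ q, ∀ᶠ H in q, ∀ᶠ K in q, H ∪ K ∈ P := by
  letI sg : Semigroup (Finset ℕ) := { mul := (· ∪ ·), mul_assoc := Finset.union_assoc }
  letI := @Ultrafilter.semigroup _ sg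
  have hm : ∀ (U V : Ultrafilter (Finset ℕ)) (p : Finset ℕ → Prop),
      (∀ᶠ m in ↑(U * V), p m) ↔ ∀ᶠ m in U, ∀ᶠ m' in V, p (m ∪ m') := fun _ _ _ => Iff.rfl
  obtain ⟨q, ⟨h1, h2⟩, h3⟩ := exists_idempotent_in_compact_subsemigroup
    (M := Ultrafilter (Finset ℕ)) (fun r => Ultrafilter.continuous_mul_left r)
    {q | Far q ∧ ∀ P ∈ q, ∀ᶠ H in q, ∀ᶠ n in hyperfilter ℕ, fill H n ∈ P} (by
      refine ⟨(hyperfilter ℕ).bind fun a => (hyperfilter ℕ).map fun b => fill {a} b, fun n => ?_,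
        fun P hP => ?_⟩
      · change ∀ᶠ a in hyperfilter ℕ, ∀ᶠ b in hyperfilter ℕ, (fill {a} b).Nonempty ∧ ∀ i ∈ fill {a} b, n < i
        refine (hge (n + 1)).mono fun a ha => Eventually.of_forall fun b =>
          ⟨⟨a, Finset.mem_union_left _ (Finset.mem_singleton_self a)⟩, fun i hi => ?_⟩
        simp only [fill, Finset.mem_union, Finset.mem_singleton, Finset.sup_singleton, id,
          Finset.mem_Ioc] at hi
        omega
      · change ∀ᶠ a in hyperfilter ℕ, ∀ᶠ b in hyperfilter ℕ, fill {a} b ∈ P at hP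
        change ∀ᶠ a in hyperfilter ℕ, ∀ᶠ b in hyperfilter ℕ, ∀ᶠ n in hyperfilter ℕ,
          fill (fill {a} b) n ∈ P
        refine hP.mono fun a ha => (hge a).mono fun b hb => (ha.and (hge b)).mono fun n hn => ?_
        rw [fill_fill (by simpa using hb) hn.2]
        exact hn.1) (by
      refine IsClosed.isCompact ?_
      simp only [Far, setOf_and, setOf_forall]
      refine (isClosed_iInter fun n => ultrafilter_isClosed_basic _).inter
        (isClosed_iInter fun P => ?_)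
      have := (ultrafilter_isOpen_basic P).isClosed_compl.union (ultrafilter_isClosed_basic
        {H | ∀ᶠ n in hyperfilter ℕ, fill H n ∈ P})
      convert this using 1
      ext q
      simp only [mem_setOf_eq, mem_union, mem_compl_iff, imp_iff_not_or]
      rfl) (by
      rintro x ⟨h1, h2⟩ y ⟨h3, h4⟩
      refine ⟨fun n => (hm _ _ _).2 ((h1 n).mono fun H hH => (h3 n).mono fun K hK =>
        ⟨hH.1.mono Finset.subset_union_left, fun i hi => (Finset.mem_union.1 hi).elim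
          (hH.2 i) (hK.2 i)⟩), fun P hP => (hm _ _ _).2 (((hm _ _ (· ∈ P)).1 hP).mono fun H hH =>
          ((h4 _ hH).and (h3.sup (H.sup id))).mono fun K hK => ?_)⟩
      simp only [fill_union hK.2]
      exact hK.1)
  exact ⟨q, h1, h2, fun P hP => (hm _ _ (· ∈ P)).1 (h3.symm ▸ hP)⟩

def St (q : Ultrafilter (Finset ℕ)) (P : Set (Finset ℕ)) : Set (Finset ℕ) :=
  {E | (E ∈ P ∧ ∀ᶠ K in q, E ∪ K ∈ P) ∧
    ∀ᶠ n in hyperfilter ℕ, fill E n ∈ P ∧ ∀ᶠ K in q, fill E n ∪ K ∈ P}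

lemma exists_q' : ∃ q : Ultrafilter (Finset ℕ), Far q ∧ (∀ P ∈ q, St q P ∈ q) ∧
    (∀ P, ∀ E ∈ St q P, ∀ᶠ K in q, E ∪ K ∈ St q P) ∧
    ∀ P, ∀ E ∈ St q P, ∀ᶠ n in hyperfilter ℕ, fill E n ∈ St q P := by
  obtain ⟨q, h1, h2, h3⟩ := exists_q
  have h4 : ∀ P ∈ q, St q P ∈ q := fun P hP =>
    have : {E | E ∈ P ∧ ∀ᶠ K in q, E ∪ K ∈ P} ∈ q := inter_mem hP (h3 P hP)
    inter_mem this (h2 _ this)
  refine ⟨q, h1, h4, fun P E hE => ?_, fun P E hE => ?_⟩
  · filter_upwards [h4 _ hE.1.2, h1.sup (E.sup id)] with K hK h5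
    refine ⟨by simp only [Finset.union_assoc]; exact hK.1, hK.2.mono fun n hn => ?_⟩
    rw [fill_union h5]
    simp only [Finset.union_assoc]
    exact hn
  · filter_upwards [hE.2, hge (E.sup id)] with n hn h5
    refine ⟨hn, ?_⟩
    filter_upwards [hE.2, hge n] with m hm h6
    rwa [fill_fill h5 h6]

/-- A Milliken-Taylor theorem with filled gaps. -/
lemma mt {C : Type} [Finite C] (c : Finset ℕ → Finset ℕ → C) :
    ∃ (H : ℕ → Finset ℕ) (N : ℕ → ℕ) (i : C),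
      (∀ t, (H t).Nonempty ∧ ∀ j ∈ H t, N t < j ∧ j < N (t + 1)) ∧
      ∀ τ : ℕ → ℕ, StrictMono τ → ∀ I J, Lt I J →
        c (I.biUnion fun k => fill (H (τ k)) (N (τ (k + 1))))
          (J.biUnion fun k => fill (H (τ k)) (N (τ (k + 1)))) = i := by
  classical
  obtain ⟨q, h1, h2, h3, h4⟩ := exists_q'
  obtain ⟨i, hi⟩ : ∃ i, ∀ᶠ E in q, ∀ᶠ K in q, c E K = i := by
    have H : ∀ E, ∃ i, ∀ᶠ K in q, c E K = i := fun E =>
      let ⟨i, hi⟩ := (q.map (c E)).eq_pure_of_finite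
      ⟨i, show {i} ∈ q.map (c E) from hi ▸ Ultrafilter.mem_pure.2 rfl⟩
    choose d hd using H
    obtain ⟨i, hi⟩ := (q.map d).eq_pure_of_finite
    have : ∀ᶠ E in q, d E = i := show {i} ∈ q.map d from hi ▸ Ultrafilter.mem_pure.2 rfl
    exact ⟨i, this.mono fun E hE => hE ▸ hd E⟩
  let P : Finset ℕ → Set (Finset ℕ) := fun E =>
    if E = ∅ then {E | ∀ᶠ K in q, c E K = i} else {K | c E K = i}
  have fin : ∀ n, {E : Finset ℕ | E.sup id ≤ n}.Finite := fun n =>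
    (Finset.range (n + 1)).powerset.finite_toSet.subset fun E hE =>
      Finset.mem_coe.2 (Finset.mem_powerset.2 fun j hj =>
        Finset.mem_range.2 (Nat.lt_succ_of_le ((le_sup hj).trans hE)))
  have s1 : ∀ n, ∃ H : Finset ℕ, (H.Nonempty ∧ ∀ j ∈ H, n < j) ∧ ∀ E : Finset ℕ, E.sup id ≤ n →
      (P E ∈ q → H ∈ St q (P E)) ∧ ∀ K : Finset ℕ, K.sup id ≤ n → K ∈ St q (P E) →
        K ∪ H ∈ St q (P E) := fun n =>
    ((h1 n).and ((eventually_all_finite (fin n)).2 fun E _ => Eventually.and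
      (eventually_imp_distrib_left.2 (h2 _)) ((eventually_all_finite (fin n)).2 fun K _ =>
        eventually_imp_distrib_left.2 (h3 _ K)))).exists
  have s2 : ∀ n, ∃ m, n + 1 ≤ m ∧ ∀ E : Finset ℕ, E.sup id ≤ n → ∀ K : Finset ℕ, K.sup id ≤ n →
      K ∈ St q (P E) → fill K m ∈ St q (P E) := fun n =>
    ((hge _).and ((eventually_all_finite (fin n)).2 fun E _ =>
      (eventually_all_finite (fin n)).2 fun K _ => eventually_imp_distrib_left.2 (h4 _ K))).exists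
  choose G G1 G2 using s1
  choose M M1 M2 using s2
  let N : ℕ → ℕ := fun t => Nat.rec 0 (fun _ n => M ((G n).sup id)) t
  have N1 : ∀ t, N (t + 1) = M ((G (N t)).sup id) := fun _ => rfl
  clear_value N
  have N2 : ∀ t, N t < (G (N t)).sup id := fun t =>
    let ⟨j, hj⟩ := (G1 (N t)).1; ((G1 _).2 j hj).trans_le (le_sup hj)
  have N3 : ∀ t, (G (N t)).sup id < N (t + 1) := fun t => N1 t ▸ M1 _
  have N4 : StrictMono N := strictMono_nat_of_lt_succ fun t => (N2 t).trans (N3 t)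
  refine ⟨fun t => G (N t), N, i, fun t => ⟨(G1 _).1, fun j hj => ⟨(G1 _).2 j hj,
    (le_sup hj).trans_lt (N3 t)⟩⟩, fun τ hτ => ?_⟩
  set K : ℕ → Finset ℕ := fun k => fill (G (N (τ k))) (N (τ (k + 1))) with hK
  have K1 : ∀ k, (K k).sup id = N (τ (k + 1)) := fun k =>
    sup_fill ((N3 _).le.trans (N4.monotone (hτ k.lt_succ_self)))
  have K2 : ∀ (J : Finset ℕ) k, (∀ j ∈ J, j < k) → (J.biUnion K).sup id ≤ N (τ k) := fun J k h => by
    rw [Finset.sup_biUnion]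
    exact Finset.sup_le fun j hj => (K1 j).trans_le (N4.monotone (hτ.monotone (h j hj)))
  have key : ∀ E k, E.sup id ≤ N (τ k) → P E ∈ q → ∀ J : Finset ℕ, J.Nonempty → (∀ j ∈ J, k ≤ j) →
      J.biUnion K ∈ St q (P E) := fun E k e1 e2 J => by
    induction J using Finset.induction_on_max with
    | empty => exact fun h => absurd h Finset.not_nonempty_empty
    | insert l J hl ih =>
      intro _ h5
      have e3 : E.sup id ≤ N (τ l) :=
        e1.trans (N4.monotone (hτ.monotone (h5 l (Finset.mem_insert_self _ _))))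
      have e4 := K2 J l hl
      have e5 : J.biUnion K ∪ G (N (τ l)) ∈ St q (P E) := by
        rcases J.eq_empty_or_nonempty with rfl | h
        · simpa using (G2 _ E e3).1 e2
        · exact (G2 _ E e3).2 _ e4 (ih h fun j hj => h5 j (Finset.mem_insert_of_mem hj))
      have e0 : τ l < τ (l + 1) := hτ l.lt_succ_self
      obtain ⟨t, ht⟩ : ∃ t, τ (l + 1) = t + 1 := ⟨τ (l + 1) - 1, by omega⟩
      have e6 : (G (N (τ l))).sup id ≤ (G (N t)).sup id := by
        rcases (show τ l ≤ t by omega).eq_or_lt with h | h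
        exacts [h ▸ le_rfl, (N3 _).le.trans ((N4.monotone h).trans (N2 t).le)]
      have e7 := M2 _ E (e3.trans ((N2 _).le.trans e6)) _ (by
        rw [Finset.sup_union]; exact sup_le (e4.trans ((N2 _).le.trans e6)) e6) e5
      rwa [← N1, ← ht, fill_union (e4.trans (N2 _).le), Finset.union_comm,
        ← Finset.biUnion_insert (t := K)] at e7
  intro I J ⟨h5, h6, h7⟩
  have e1 := (key ∅ 0 (by simp) (by simp only [P, if_true]; exact hi) I h5 (by simp)).1.1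
  have e2 : I.biUnion K ≠ ∅ := fun h => by
    obtain ⟨k, hk⟩ := h5
    obtain ⟨j, hj⟩ := (G1 (N (τ k))).1
    exact Finset.notMem_empty j (h ▸ Finset.mem_biUnion.2 ⟨k, hk, Finset.mem_union_left _ hj⟩)
  simpa [P, e2] using (key _ (J.min' h6) (K2 I _ fun j hj => h7 j hj _ (J.min'_mem h6))
    (by simp only [P, if_true, if_neg e2] at e1 ⊢; exact e1) J h6 fun j hj => J.min'_le j hj).1.1

/-- A block sequence whose sumgraph is monochromatic. -/
def Mono {C : Type} (c : Finset ℕ → Finset ℕ → C) (K : ℕ → Finset ℕ) : Prop :=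
  (∀ k l, k < l → Lt (K k) (K l)) ∧ ∃ i, ∀ I J, Lt I J → c (I.biUnion K) (J.biUnion K) = i

theorem hit {C : Type} [Finite C] (c : Finset ℕ → Finset ℕ → C) {R : Set (Set ℕ)} (hR : #R < 𝔠) :
    ∃ K, Mono c K ∧ ∀ y ∈ R, y.Infinite → (y ∩ ⋃ k, K k).Infinite := by
  obtain ⟨H, N, i, h1, h2⟩ := mt c
  have N1 : StrictMono N := strictMono_nat_of_lt_succ fun t =>
    let ⟨j, hj⟩ := (h1 t).1; ((h1 t).2 j hj).1.trans ((h1 t).2 j hj).2
  have N2 : ∀ t, N t < (H t).sup id ∧ (H t).sup id < N (t + 1) := fun t =>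
    let ⟨j, hj, e⟩ := Finset.exists_mem_eq_sup _ (h1 t).1 id; e ▸ (h1 t).2 j hj
  let τ : (ℕ → ℕ) → ℕ → ℕ := fun r k => Nat.rec 0 (fun k p => Nat.pair p (r k) + 1) k
  have t1 : ∀ r, StrictMono (τ r) := fun r => strictMono_nat_of_lt_succ fun k =>
    Nat.lt_succ_of_le (Nat.left_le_pair _ _)
  have t2 : ∀ r r' k k', τ r k = τ r' k' → k = k' ∧ ∀ j < k, r j = r' j := fun r r' k => by
    induction k with
    | zero => rintro (_ | k') h; exacts [by simp, absurd h (Nat.succ_ne_zero _).symm]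
    | succ k ih =>
      rintro (_ | k') h
      · exact absurd h (Nat.succ_ne_zero _)
      obtain ⟨h3, h4⟩ := Nat.pair_eq_pair.1 (Nat.succ_injective h)
      obtain ⟨rfl, h5⟩ := ih k' h3
      exact ⟨rfl, fun j hj => (Nat.lt_succ_iff_lt_or_eq.1 hj).elim (h5 j) fun e => e ▸ h4⟩
  have t0 : ∀ r, τ r 0 = 0 := fun _ => rfl
  clear_value τ
  let K : (ℕ → ℕ) → ℕ → Finset ℕ := fun r k => fill (H (τ r k)) (N (τ r (k + 1)))
  have K1 : ∀ r j, N 0 < j → j ∉ ⋃ k, (K r k : Set ℕ) → ∃ k, N (τ r k) < j ∧ j ≤ N (τ r k + 1) := by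
    intro r j h3 h4
    have h5 : ∃ k, j ≤ N (τ r (k + 1)) :=
      ⟨j, (Nat.le_succ j).trans ((t1 r).le_apply.trans N1.le_apply)⟩
    refine ⟨Nat.find h5, ?_, not_lt.1 fun h => h4 (mem_iUnion.2 ⟨Nat.find h5, Finset.mem_union_right _
      (Finset.mem_Ioc.2 ⟨(N2 _).2.trans h, Nat.find_spec h5⟩)⟩)⟩
    rcases h : Nat.find h5 with _ | k
    · rwa [t0]
    · exact not_le.1 (Nat.find_min h5 (h ▸ k.lt_succ_self))
  by_contra hc
  have H3 : ∀ r, ∃ y : R, y.1.Infinite ∧ (y.1 ∩ ⋃ k, K r k).Finite := fun r => by_contra fun h =>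
    hc ⟨K r, ⟨fun k l hkl => ⟨(h1 _).1.mono Finset.subset_union_left,
      (h1 _).1.mono Finset.subset_union_left, fun a ha b hb => by
        have e1 : a ≤ N (τ r (k + 1)) := (le_sup ha).trans_eq
          (sup_fill ((N2 _).2.le.trans (N1.monotone (t1 r k.lt_succ_self))))
        refine (e1.trans (N1.monotone ((t1 r).monotone hkl))).trans_lt ?_
        rcases Finset.mem_union.1 hb with h | h
        exacts [((h1 _).2 b h).1, (N2 _).1.trans (Finset.mem_Ioc.1 h).1]⟩, i, h2 _ (t1 r)⟩,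
      fun y hy h3 h4 => h ⟨⟨y, hy⟩, h3, h4⟩⟩
  choose y y1 y2 using H3
  refine hR.not_ge ((mk_le_of_injective (f := y) fun r r' e => funext fun j => ?_).trans_eq' (by simp))
  obtain ⟨a, ⟨h3, h4⟩, h5⟩ := ((y1 r).diff ((y2 r).union (e ▸ y2 r'))).exists_gt (N (τ r j + 1))
  have h6 : N 0 < a := (N1.monotone (Nat.zero_le _)).trans_lt h5
  obtain ⟨k, k1, k2⟩ := K1 r a h6 fun h => h4 (Or.inl ⟨h3, h⟩)
  obtain ⟨l, l1, l2⟩ := K1 r' a h6 fun h => h4 (Or.inr ⟨h3, h⟩)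
  have e1 := N1.lt_iff_lt.1 (k1.trans_le l2)
  have e2 := N1.lt_iff_lt.1 (l1.trans_le k2)
  have e3 := N1.lt_iff_lt.1 (h5.trans_le k2)
  exact (t2 r r' k l (by omega)).2 j ((t1 r).lt_iff_lt.1 (by omega))

end Pool.Agent.H30.Mt
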