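import Pool.Agent.H30.MtA
import Pool.Agent.H30.LamB

set_option autoImplicit false

namespace Pool.Agent.H30.Mt

open Set Filter Topology Function Pool.Agent.H30.Spl Pool.Agent.H30.Hec Pool.Agent.H30.Lam
open Cardinal hiding univ

variable {X : Type} [TopologicalSpace X]

/-- An open cover by nonempty proper subsets. -/
def Cover (𝒰 : Set (Set X)) : Prop :=
  (∀ U ∈ 𝒰, IsOpen U ∧ U.Nonempty ∧ U ≠ univ) ∧ ⋃₀ 𝒰 = univ

/-- A large open cover. -/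
def LargeCover (𝒰 : Set (Set X)) : Prop := Cover 𝒰 ∧ ∀ x, {U ∈ 𝒰 | x ∈ U}.Infinite

/-- Menger's property. -/
def IsMenger (X : Type) [TopologicalSpace X] : Prop :=
  ∀ 𝒰 : ℕ → Set (Set X), (∀ n, Cover (𝒰 n)) →
    ∃ F : ℕ → Set (Set X), (∀ n, (F n).Finite ∧ F n ⊆ 𝒰 n) ∧ Cover (⋃ n, F n)

/-- `V_H`, where `V n` is the union of the family `F n`. -/
def VH (F : ℕ → Set (Set X)) (H : Finset ℕ) : Set X := ⋃ n ∈ H, ⋃₀ F n

/-- Property `(*)`, for large covers with no finite subcover. -/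
def HasStar (X : Type) [TopologicalSpace X] : Prop :=
  ∀ 𝒰 : Set (Set X), LargeCover 𝒰 → (∀ F ⊆ 𝒰, F.Finite → ⋃₀ F ≠ univ) →
    ∀ (k : ℕ) (χ : Sym2 (Set X) → Fin k), ∃ F : ℕ → Set (Set X),
      (∀ n, (F n).Finite ∧ (F n).Nonempty ∧ F n ⊆ 𝒰) ∧ Pairwise (Disjoint on F) ∧
      LargeCover (⋃ n, F n) ∧ (∀ H K, Lt H K → VH F H ≠ VH F K) ∧
      ∃ i, ∀ H K, Lt H K → χ s(VH F H, VH F K) = i

def Hit (X : Type) [TopologicalSpace X] : Prop :=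
  ∀ (k : ℕ) (c : Finset ℕ → Finset ℕ → Option (Fin k)) (U : ℕ → Set X), (∀ n, IsOpen (U n)) →
    (∀ z, {n | z ∈ U n}.Infinite) → ∃ K, Mono c K ∧ ∀ z, ({n | z ∈ U n} ∩ ⋃ k, K k).Infinite

lemma IsMenger.menger (h : IsMenger X) : Menger X := fun 𝒰 h𝒰 => by
  by_cases hc : ∃ n, univ ∈ 𝒰 n
  · obtain ⟨n, hn⟩ := hc
    exact ⟨fun m => 𝒰 m ∩ {univ}, fun m => ⟨(finite_singleton _).inter_of_right _, inter_subset_left⟩,
      eq_univ_of_forall fun x => mem_iUnion.2 ⟨n, univ, ⟨hn, rfl⟩, trivial⟩⟩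
  obtain ⟨F, h1, h2⟩ := h (fun n => 𝒰 n \ {∅}) fun n => ⟨fun U hU => ⟨(h𝒰 n).1 U hU.1,
    nonempty_iff_ne_empty.2 hU.2, fun e => hc ⟨n, e ▸ hU.1⟩⟩, by rw [sUnion_diff_singleton_empty, (h𝒰 n).2]⟩
  exact ⟨F, fun n => ⟨(h1 n).1, (h1 n).2.trans diff_subset⟩, by rw [← sUnion_iUnion, h2.2]⟩

lemma not_menger {D : Set (ℕ → ℕ)} (h : ∀ g : ℕ → ℕ, ∃ f ∈ D, ∀ᶠ n in atTop, g n ≤ f n) :
    D.Infinite ∧ ¬ IsMenger D := by
  refine ⟨fun hf => ?_, fun hM => ?_⟩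
  · obtain ⟨g, hg⟩ := hf.bddAbove
    obtain ⟨f, h1, h2⟩ := h fun n => g n + 1
    obtain ⟨n, hn⟩ := h2.exists
    exact hn.not_gt (Nat.lt_succ_of_le (hg h1 n))
  obtain ⟨g, -, -, hg⟩ := hM.menger.fn (V := fun a c => {y | y.1 a ≤ c}) (fun a c =>
    show IsOpen ((fun y : D => y.1 a) ⁻¹' Iic c) from (isOpen_discrete _).preimage
      ((continuous_apply a).comp continuous_subtype_val))
    (fun a c d hcd y hy => le_trans hy hcd) fun a y => ⟨y.1 a, le_refl (y.1 a)⟩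
  obtain ⟨f, h1, h2⟩ := h fun n => g n + 1
  obtain ⟨N, hN⟩ := eventually_atTop.1 h2
  obtain ⟨a, h3, h4⟩ := hg ⟨f, h1⟩ N
  exact (hN a h3).not_gt (Nat.lt_succ_of_le h4)

lemma Hit.star [SecondCountableTopology X] [Nonempty X] (h : Hit X) : HasStar X := by
  classical
  intro 𝒰 ⟨⟨h1, _⟩, h3⟩ h2 k χ
  have H : ∀ e : Set (Set X), ∃ T, T.Countable ∧ T ⊆ 𝒰 \ e ∧ ⋃₀ T = ⋃₀ (𝒰 \ e) := fun e =>
    TopologicalSpace.isOpen_sUnion_countable _ fun U hU => (h1 U hU.1).1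
  choose T T1 T2 T3 using H
  obtain ⟨b, -, b1, b2, b3⟩ := Sk.close 𝒰 T (fun e _ => T1 e) (fun e => (T2 e).trans diff_subset)
    countable_empty (empty_subset _)
  have h4 : ∀ z, {U ∈ b | z ∈ U}.Infinite := fun z hf => by
    obtain ⟨U, h5, h6⟩ := (h3 z).exists_notMem_finite hf
    obtain ⟨V, h7, h8⟩ := (T3 {U ∈ b | z ∈ U}).symm.subset ⟨U, ⟨h5.1, h6⟩, h5.2⟩
    exact (T2 _ h7).2 ⟨b3 _ (sep_subset _ _) hf h7, h8⟩
  have := b1.to_subtype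
  have := ((h4 (Classical.arbitrary X)).mono (sep_subset _ _)).to_subtype
  obtain ⟨e⟩ := nonempty_equiv_of_countable (α := ℕ) (β := b)
  obtain ⟨U, hi, u1, u2⟩ : ∃ U : ℕ → Set X, Injective U ∧ (∀ n, U n ∈ 𝒰) ∧ ∀ z, {n | z ∈ U n}.Infinite :=
    ⟨fun n => (e n).1, Subtype.val_injective.comp e.injective, fun n => b2 (e n).2, fun z =>
      Infinite.of_image (fun n => (e n).1) ((h4 z).mono fun U hU =>
        ⟨e.symm ⟨U, hU.1⟩, by simpa using hU.2, by simp⟩)⟩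
  let W : Finset ℕ → Set X := fun E => ⋃₀ (U '' E)
  obtain ⟨K, ⟨k1, i, k2⟩, k3⟩ := h k (fun E E' => if W E = W E' then none else some (χ s(W E, W E')))
    U (fun n => (h1 _ (u1 n)).1) u2
  have e1 : ∀ I, VH (fun n => U '' K n) I = W (I.biUnion K) := fun I => by
    simp [VH, W, image_iUnion, sUnion_iUnion]
  have e2 : ∀ z, {V ∈ ⋃ n, U '' K n | z ∈ V}.Infinite := fun z =>
    ((k3 z).image hi.injOn).mono (by
      rintro _ ⟨n, ⟨h5, h6⟩, rfl⟩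
      obtain ⟨l, hl⟩ := mem_iUnion.1 h6
      exact ⟨mem_iUnion.2 ⟨l, n, hl, rfl⟩, h5⟩)
  have e3 : ∀ n, U '' K n ⊆ 𝒰 := fun n => image_subset_iff.2 fun m _ => u1 m
  obtain ⟨j, rfl⟩ : ∃ j, i = some j := Option.ne_none_iff_exists'.1 fun hn =>
    h2 _ (e3 0) ((K 0).finite_toSet.image U) (eq_univ_of_forall fun z => by
      obtain ⟨V, h5, h6⟩ := (e2 z).nonempty
      obtain ⟨l, hl⟩ := mem_iUnion.1 h5
      have h7 : z ∈ W (K l) := ⟨V, hl, h6⟩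
      rcases l.eq_zero_or_pos with rfl | h8
      · exact h7
      have := k2 {0} {l} ⟨by simp, by simp, by simpa using h8⟩
      simp only [hn, Finset.singleton_biUnion, ite_eq_left_iff, reduceCtorEq, imp_false, not_not] at this
      exact this.symm.subset h7)
  have e4 : ∀ I J, Lt I J → W (I.biUnion K) ≠ W (J.biUnion K) := fun I J hIJ e => by
    simpa [e] using k2 I J hIJ
  refine ⟨fun n => U '' K n, fun n => ⟨(K n).finite_toSet.image U,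
    (Finset.coe_nonempty.2 (k1 n _ n.lt_succ_self).1).image U, e3 n⟩, ?_,
    ⟨⟨fun V hV => let ⟨n, hn⟩ := mem_iUnion.1 hV; h1 V (e3 n hn), eq_univ_of_forall fun z =>
      let ⟨V, h5⟩ := (e2 z).nonempty; ⟨V, h5⟩⟩, e2⟩, fun I J hIJ => ?_, j, fun I J hIJ => ?_⟩
  · exact (pairwise_disjoint_on _).2 fun m n hmn => (disjoint_image_iff hi).2
      (disjoint_left.2 fun a h5 h6 => lt_irrefl a ((k1 m n hmn).2.2 a h5 a h6))
  · rw [e1, e1]; exact e4 I J hIJ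
  · rw [e1, e1]; simpa [e4 I J hIJ] using k2 I J hIJ

theorem exists_hit (hc : (𝔠 : Cardinal.{0}) = ℵ₁) {J : Type} [Nonempty J] (hJ : #J ≤ 𝔠)
    (𝒜 : J → Set (Set ℕ)) (h𝒜 : ∀ j, ∀ R : Set (Set ℕ), R.Countable →
      ∃ A ∈ 𝒜 j, ∀ a ∈ R, a.Infinite → (a ∩ A).Infinite) : ∃ D : Set (ℕ → ℕ),
    (∀ g : ℕ → ℕ, ∃ f ∈ D, ∀ᶠ n in atTop, g n ≤ f n) ∧ ∀ j, ∀ U : ℕ → Set D, (∀ n, IsOpen (U n)) →
      (∀ z, {n | z ∈ U n}.Infinite) → ∃ A ∈ 𝒜 j, ∀ z, ({n | z ∈ U n} ∩ A).Infinite := by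
  obtain ⟨e0, he1⟩ := enum (S := (univ : Set ((ℕ → Set (List ℕ)) × J))) (T := W1) (P := univ) (by
    simpa [mk_W1, ← hc] using (mul_le_mul_right hJ 𝔠).trans_eq continuum_mul_self)
  let e1 : W1 → ℕ → Set (List ℕ) := fun α => (e0 α).1
  obtain ⟨e2, he2⟩ := enum (S := (univ : Set (ℕ → ℕ))) (T := W1) (P := univ) (by
    simp [mk_W1, ← hc])
  obtain ⟨F, hF⟩ := wf_rec (T := W1) (β := (ℕ → ℕ) × Set ℕ) (fun α F q =>
    (q.2 ∈ 𝒜 (e0 α).2 ∧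
    ∀ a ∈ range (Zs (e1 α)) ∪ (fun β => {n | (F β).1 ∈ Uc (e1 α) n}) '' Iio α, a.Infinite →
      (a ∩ q.2).Infinite) ∧
    (∀ G ∈ range (Gc (e1 α) q.2) ∪ ⋃ β ∈ Iio α, range (Gc (e1 β) (F β).2), Dn G → q.1 ∈ G) ∧
    (∀ᶠ n in atTop, e2 α n ≤ q.1 n) ∧
    ((∀ N, q.1 ∈ Gc (e1 α) univ N) → ∀ N, Dn (Gc (e1 α) univ N))) (fun α F => by
      obtain ⟨A, hA⟩ := h𝒜 (e0 α).2 _ ((countable_range (Zs (e1 α))).union
        ((W1_Iio α).image fun β => {n | (F β).1 ∈ Uc (e1 α) n}))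
      have H : ∃ s g, (∃ y ∈ O s g, ∀ N, y ∈ Gc (e1 α) univ N) → ∀ N, Dn (Gc (e1 α) univ N) := by
        by_cases h : ∀ N, Dn (Gc (e1 α) univ N)
        · exact ⟨[], 0, fun _ => h⟩
        · simp only [Dn, not_forall] at h
          obtain ⟨N, s, g, h⟩ := h
          exact ⟨s, g, fun ⟨y, h1, h2⟩ => absurd ⟨y, h1, h2 N⟩ h⟩
      obtain ⟨s, g, h1⟩ := H
      obtain ⟨y, h2, h3⟩ := pick (((countable_range (Gc (e1 α) A)).union ((W1_Iio α).biUnion fun β _ =>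
          countable_range (Gc (e1 β) (F β).2))).insert (⋃ s, O s fun w => e2 α w.length)) (by
        simp only [mem_insert_iff, mem_union, mem_iUnion]
        rintro _ (rfl | ⟨N, rfl⟩ | ⟨β, -, N, rfl⟩)
        exacts [Op.iUnion fun _ => O_op _ _, Gc_op _ _ _, Gc_op _ _ _]) s g
      obtain ⟨u, hu⟩ := mem_iUnion.1 (h3 _ (mem_insert _ _) fun s g =>
        (O_int s g _).mono (inter_subset_inter_right _ (subset_iUnion _ s)))
      exact ⟨(y, A), hA, fun G hG => h3 G (mem_insert_of_mem _ hG),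
        eventually_atTop.2 ⟨u.length, fun n hn => by simpa using hu.2 n hn⟩, fun h => h1 ⟨y, h2, h⟩⟩)
    fun α f g q e h => by
      rw [image_congr (g := fun β => {n | (f β).1 ∈ Uc (e1 α) n}) fun β hβ => by rw [e β hβ],
        iUnion₂_congr (t := fun β _ => range (Gc (e1 β) (f β).2)) fun β hβ => by rw [e β hβ]]
      exact h
  refine ⟨range fun α => (F α).1, fun g => ?_, fun j U h1 h2 => ?_⟩
  · obtain ⟨α, -, rfl⟩ := he2 (mem_univ g)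
    exact ⟨_, ⟨α, rfl⟩, (hF α).2.2.1⟩
  choose V V1 V2 using fun n => isOpen_induced_iff.1 (h1 n)
  obtain ⟨α, -, hα0⟩ := he1 (mem_univ (fun n => {s | cyl s ⊆ V n}, j))
  have hα : e1 α = fun n => {s | cyl s ⊆ V n} := congrArg Prod.fst hα0
  have h3 : ∀ β n, (⟨_, β, rfl⟩ : range fun α => (F α).1) ∈ U n ↔ (F β).1 ∈ Uc (e1 α) n := fun β n => by
    rw [← V2, hα]
    refine ⟨fun h => ?_, fun h => let ⟨s, h4, h5⟩ := mem_iUnion₂.1 h; h4 h5⟩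
    obtain ⟨I, u, h4, h5⟩ := isOpen_pi_iff.1 (V1 n) _ h
    refine mem_biUnion (x := pre (F β).1 (I.sup id + 1)) (fun z hz => h5 fun i hi => ?_)
      (mem_cyl.2 fun _ _ => rfl)
    rw [mem_cyl.1 hz i (Nat.lt_succ_of_le (Finset.le_sup (f := id) hi))]
    exact (h4 i hi).2
  have h4 := (hF α).2.2.2 fun N => by
    obtain ⟨n, h4, h5⟩ := (h2 ⟨_, α, rfl⟩).exists_gt N
    exact mem_biUnion (x := n) ⟨trivial, h5.le⟩ ((h3 α n).1 h4)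
  have d1 := dn_of_split h4 fun p hp => (hF α).1.2 _ (Or.inl ⟨p, rfl⟩) hp
  refine ⟨(F α).2, (show (e0 α).2 = j from congrArg Prod.snd hα0) ▸ (hF α).1.1, ?_⟩
  rintro ⟨_, β, rfl⟩
  have h5 := h2 ⟨_, β, rfl⟩
  simp only [h3] at h5 ⊢
  have key : ∀ A : Set ℕ, (∀ N, (F β).1 ∈ Gc (e1 α) A N) →
      ({n | (F β).1 ∈ Uc (e1 α) n} ∩ A).Infinite := fun A h => infinite_of_forall_exists_gt fun N =>
    let ⟨n, h6, h7⟩ := mem_iUnion₂.1 (h (N + 1)); ⟨n, ⟨h7, h6.1⟩, h6.2⟩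
  rcases lt_trichotomy β α with h | rfl | h
  · exact (hF α).1.2 _ (Or.inr ⟨β, h, rfl⟩) h5
  · exact key _ fun N => (hF β).2.1 _ (Or.inl ⟨N, rfl⟩) (d1 N)
  · exact key _ fun N => (hF β).2.1 _ (Or.inr (mem_biUnion h ⟨N, rfl⟩)) (d1 N)

lemma hit_of_lt (h : #X < 𝔠) : Hit X := fun _ c U _ h2 =>
  let ⟨K, h3, h4⟩ := hit c (R := range fun z => {n | z ∈ U n}) (mk_range_le.trans_lt h)
  ⟨K, h3, fun z => h4 _ ⟨z, rfl⟩ (h2 z)⟩

lemma hit_of_ch (hc : (𝔠 : Cardinal.{0}) = ℵ₁) : ∃ D : Set (ℕ → ℕ),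
    (∀ g : ℕ → ℕ, ∃ f ∈ D, ∀ᶠ n in atTop, g n ≤ f n) ∧ Hit D := by
  obtain ⟨D, h1, h2⟩ := exists_hit hc (J := Finset ℕ → Finset ℕ → ℕ) (by simp)
    (fun c => {A | (range (uncurry c)).Finite → ∃ K, Mono c K ∧ A = ⋃ k, K k}) fun c R hR => by
      by_cases h : (range (uncurry c)).Finite
      · have := h.to_subtype
        obtain ⟨K, ⟨h3, i, h4⟩, h5⟩ := hit (C := range (uncurry c)) (fun E E' => ⟨c E E', (E, E'), rfl⟩)
          ((le_aleph0_iff_set_countable.2 hR).trans_lt aleph0_lt_continuum)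
        exact ⟨_, fun _ => ⟨K, ⟨h3, i.1, fun I J hIJ => congrArg Subtype.val (h4 I J hIJ)⟩, rfl⟩, h5⟩
      · exact ⟨univ, fun h' => absurd h' h, fun a _ ha => by simpa⟩
  refine ⟨D, h1, fun k c U h3 h4 => ?_⟩
  obtain ⟨A, h5, h6⟩ := h2 (fun E E' => Encodable.encode (c E E')) U h3 h4
  obtain ⟨K, ⟨h7, i, h8⟩, rfl⟩ := h5 ((finite_range Encodable.encode).subset (by
    rintro _ ⟨p, rfl⟩; exact ⟨_, rfl⟩))
  have h9 : Lt {0} {1} := ⟨by simp, by simp, by simp⟩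
  exact ⟨K, ⟨h7, _, fun I J hIJ => Encodable.encode_injective ((h8 I J hIJ).trans (h8 _ _ h9).symm)⟩, h6⟩

end Pool.Agent.H30.Mt
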