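import Pool.Agent.H30.MtB

set_option autoImplicit false

namespace Pool.Agent.H30.Mt

open Set Filter Topology Function Pool.Agent.H30.Lam
open Cardinal hiding univ

variable {X : Type} [TopologicalSpace X]

/-- Groupwise dense families of infinite subsets of `ℕ`. -/
def GD (𝒢 : Set (Set ℕ)) : Prop :=
  (∀ a ∈ 𝒢, a.Infinite) ∧ (∀ a ∈ 𝒢, ∀ b : Set ℕ, b.Infinite → (b \ a).Finite → b ∈ 𝒢) ∧
    ∀ p : ℕ → ℕ, StrictMono p → ∃ S : Set ℕ, S.Infinite ∧ (⋃ n ∈ S, Ico (p n) (p (n + 1))) ∈ 𝒢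

/-- The groupwise density number `𝔤`. -/
noncomputable def gNum : Cardinal.{0} :=
  sInf {κ | ∃ 𝔊 : Set (Set (Set ℕ)), (∀ 𝒢 ∈ 𝔊, GD 𝒢) ∧ ⋂₀ 𝔊 = ∅ ∧ #𝔊 = κ}

/-- The ultrafilter number `𝔲`. -/
noncomputable def uNum : Cardinal.{0} :=
  sInf {κ | ∃ (U : Ultrafilter ℕ) (B : Set (Set ℕ)), (∀ a ∈ U, a.Infinite) ∧ (∀ b ∈ B, b ∈ U) ∧
    (∀ a ∈ U, ∃ b ∈ B, b ⊆ a) ∧ #B = κ}

/-- The dominating number `𝔡`. -/
noncomputable def dNum : Cardinal.{0} :=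
  sInf {κ | ∃ D : Set (ℕ → ℕ), (∀ g : ℕ → ℕ, ∃ f ∈ D, ∀ᶠ n in atTop, g n ≤ f n) ∧ #D = κ}

lemma of_ug (h : uNum < gNum) : ∃ (U : Ultrafilter ℕ) (B : Set (Set ℕ)), (∀ a ∈ U, a.Infinite) ∧
    (∀ b ∈ B, b ∈ U) ∧ (∀ a ∈ U, ∃ b ∈ B, b ⊆ a) ∧
      ∀ 𝒢 : B → Set (Set ℕ), (∀ b, GD (𝒢 b)) → ∃ Z, ∀ b, Z ∈ 𝒢 b := by
  obtain ⟨U, B, h1, h2, h3, h4⟩ : uNum ∈ _ := csInf_mem ⟨_, hyperfilter ℕ, {a | a ∈ hyperfilter ℕ},
    fun _ ha hf => hf.notMem_hyperfilter ha, fun _ h => h, fun a ha => ⟨a, ha, Subset.rfl⟩, rfl⟩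
  refine ⟨U, B, h1, h2, h3, fun 𝒢 h5 => by_contra fun hc => h.not_ge ?_⟩
  exact le_trans (b := #(range 𝒢)) (csInf_le' ⟨range 𝒢, forall_mem_range.2 h5,
    eq_empty_of_forall_notMem fun Z hZ => hc ⟨Z, fun b => hZ _ ⟨b, rfl⟩⟩, rfl⟩) (mk_range_le.trans_eq h4)

lemma blk_inf {p : ℕ → ℕ} (hp : StrictMono p) {S : Set ℕ} (hS : S.Infinite) :
    (⋃ n ∈ S, Ico (p n) (p (n + 1))).Infinite :=
  (hS.image hp.injective.injOn).mono (by
    rintro _ ⟨n, hn, rfl⟩; exact mem_biUnion hn ⟨le_rfl, hp n.lt_succ_self⟩)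

lemma gd_gap (g : ℕ → ℕ) : GD {Z | Z.Infinite ∧ ∀ N, ∃ n, N ≤ n ∧ ∀ z ∈ Z, n ≤ z → g n ≤ z} := by
  refine ⟨fun _ h => h.1, fun a ha b h1 h2 => ⟨h1, fun N => ?_⟩, fun p hp => ?_⟩
  · obtain ⟨M, hM⟩ := h2.bddAbove
    obtain ⟨n, h3, h4⟩ := ha.2 (N + M + 1)
    exact ⟨n, by omega, fun z hz h5 => h4 z (by_contra fun h => by have := hM ⟨hz, h⟩; omega) h5⟩
  let s : ℕ → ℕ := fun k => Nat.rec 0 (fun _ q => q + 1 + g (p (q + 1))) k
  have s1 : ∀ k, s (k + 1) = s k + 1 + g (p (s k + 1)) := fun _ => rfl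
  clear_value s
  have s2 : StrictMono s := strictMono_nat_of_lt_succ fun k => by rw [s1]; omega
  have s3 := infinite_range_of_injective s2.injective
  refine ⟨_, s3, blk_inf hp s3, fun N => ⟨p (s N + 1), ((s2.le_apply).trans (Nat.le_succ _)).trans
    hp.le_apply, fun z hz h1 => ?_⟩⟩
  obtain ⟨_, ⟨l, rfl⟩, h2⟩ := mem_iUnion₂.1 hz
  have h3 : N < l := s2.lt_iff_lt.1 (by have := hp.lt_iff_lt.1 (h1.trans_lt h2.2); omega)
  have h4 := s2.monotone (show N + 1 ≤ l from h3)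
  have h5 : s l ≤ p (s l) := hp.le_apply
  have := h2.1
  rw [s1] at h4
  omega

lemma bound {U : Ultrafilter ℕ} {B : Set (Set ℕ)} (h1 : ∀ a ∈ U, a.Infinite) (h2 : ∀ b ∈ B, b ∈ U)
    (h3 : ∀ a ∈ U, ∃ b ∈ B, b ⊆ a)
    (h4 : ∀ 𝒢 : B → Set (Set ℕ), (∀ b, GD (𝒢 b)) → ∃ Z, ∀ b, Z ∈ 𝒢 b) {ι : Type} {y : ι → Set ℕ}
    (hy : ∀ G : ℕ → ℕ, ∃ A : Set ℕ, (∀ x, (y x ∩ A).Infinite) ∧
      {a | ∀ b ∈ A, a < b → G a < b}.Infinite) :
    ∃ Φ : B → ℕ → ℕ, ∀ x, ∃ b, ∀ t, ∃ i ∈ y x, t < i ∧ i < Φ b t := by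
  classical
  obtain ⟨Z, hZ⟩ := h4 (fun b => {Z | Z.Infinite ∧ ∃ A : Set ℕ, (∀ x, (y x ∩ A).Infinite) ∧ ∃ N,
    ∀ z ∈ Z, ∀ a ∈ A, N ≤ z → z ≤ a → ∃ c ∈ b.1, z ≤ c ∧ c ≤ a}) fun b => by
      refine ⟨fun _ h => h.1, fun a ⟨_, A, h5, N, h6⟩ a' h7 h8 => ⟨h7, A, h5, ?_⟩, fun p hp => ?_⟩
      · obtain ⟨M, hM⟩ := h8.bddAbove
        exact ⟨N + M + 1, fun z hz e he h9 => h6 z (by_contra fun h => by
          have := hM ⟨hz, h⟩; omega) e he (by omega)⟩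
      choose c c1 c2 using (h1 _ (h2 _ b.2)).exists_gt
      obtain ⟨A, h5, h6⟩ := hy fun a => c (p (a + 1 + 1))
      have h7 := h6.image (f := (· + 1)) (add_left_injective 1).injOn
      refine ⟨_, h7, blk_inf hp h7, A, h5, 0, fun z hz e he _ h8 => ?_⟩
      obtain ⟨_, ⟨a, ha, rfl⟩, h9⟩ := mem_iUnion₂.1 hz
      exact ⟨_, c1 _, (h9.2.trans (c2 _)).le, (ha e he ((hp.le_apply.trans h9.1).trans h8)).le⟩
  obtain ⟨b0, hb0, -⟩ := h3 univ univ_mem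
  choose nx n1 n2 using (hZ ⟨b0, hb0⟩).1.exists_gt
  have H : ∀ (b : B) t, ∃ c ∈ b.1, nx t < c := fun b t => (h1 _ (h2 _ b.2)).exists_gt _
  choose c c1 c2 using H
  refine ⟨fun b t => nx (c b t), fun x => ?_⟩
  obtain ⟨b, hb, h5⟩ := h3 {c | ∃ i ∈ y x, ∀ z ∈ Z, z ≤ i ↔ z ≤ c} (by
    refine by_contra fun hc => ?_
    obtain ⟨b, hb, h5⟩ := h3 _ (Ultrafilter.compl_mem_iff_notMem.2 hc)
    obtain ⟨-, A, h6, N, h7⟩ := hZ ⟨b, hb⟩
    obtain ⟨a, h8, h9⟩ := (h6 x).exists_gt (nx N)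
    have e1 := Nat.findGreatest_spec (P := (· ∈ Z)) h9.le (n1 N)
    obtain ⟨e, e2, e3, e4⟩ := h7 _ e1 a h8.2 ((n2 N).le.trans (Nat.le_findGreatest h9.le (n1 N)))
      (Nat.findGreatest_le a)
    exact h5 e2 ⟨a, h8.1, fun z hz => ⟨fun h => (Nat.le_findGreatest h hz).trans e3,
      fun h => h.trans e4⟩⟩)
  refine ⟨⟨b, hb⟩, fun t => ?_⟩
  obtain ⟨i, h6, h7⟩ := h5 (c1 ⟨b, hb⟩ t)
  exact ⟨i, h6, (n2 t).trans_le ((h7 _ (n1 t)).2 (c2 _ t).le),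
    not_le.1 fun h => ((h7 _ (n1 _)).1 h).not_gt (n2 _)⟩

lemma HasStar.lindelof (h : HasStar X) : LindelofSpace X := by
  classical
  refine ⟨isLindelof_of_countable_subcover fun {ι} U h1 h2 => ?_⟩
  by_cases hf : ∃ t : Finset ι, ⋃ i ∈ t, U i = univ
  · obtain ⟨t, ht⟩ := hf
    exact ⟨t, t.countable_toSet, ht.ge⟩
  let W : Finset ι → Set X := fun t => ⋃ i ∈ t, U i
  have W1 : ∀ F ⊆ range W \ {∅}, F.Finite → ∃ t, ⋃₀ F ⊆ W t := fun F h3 h4 => by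
    choose! t ht using fun V (hV : V ∈ F) => (h3 hV).1
    refine ⟨h4.toFinset.biUnion t, sUnion_subset fun V hV x hx => ?_⟩
    obtain ⟨i, h5, h6⟩ := mem_iUnion₂.1 ((ht V hV).symm.subset hx)
    exact mem_iUnion₂.2 ⟨i, Finset.mem_biUnion.2 ⟨V, h4.mem_toFinset.2 hV, h5⟩, h6⟩
  have W2 : ∀ x t, ∃ t', W t ⊆ W t' ∧ x ∈ W t' := fun x t =>
    let ⟨i, hi⟩ := mem_iUnion.1 (h2 (mem_univ x))
    ⟨insert i t, biUnion_subset_biUnion_left (Finset.subset_insert i t),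
      mem_iUnion₂.2 ⟨i, Finset.mem_insert_self i t, hi⟩⟩
  obtain ⟨F, h3, -, ⟨⟨-, h4⟩, -⟩, -⟩ := h (range W \ {∅}) ⟨⟨fun V ⟨⟨t, ht⟩, hV⟩ =>
    ⟨ht ▸ isOpen_biUnion fun i _ => h1 i, nonempty_iff_ne_empty.2 hV, fun e => hf ⟨t, ht.trans e⟩⟩,
    eq_univ_of_forall fun x => let ⟨t, _, ht⟩ := W2 x ∅; ⟨_, ⟨⟨t, rfl⟩, Nonempty.ne_empty ⟨x, ht⟩⟩, ht⟩⟩,
    fun x hx => by
      obtain ⟨t, ht⟩ := W1 _ (sep_subset _ _) hx
      obtain ⟨z, hz⟩ := (ne_univ_iff_exists_notMem (W t)).1 fun e => hf ⟨t, e⟩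
      obtain ⟨t1, -, h3⟩ := W2 x ∅
      obtain ⟨t2, h4, h5⟩ := W2 z t1
      exact hz (ht ⟨_, ⟨⟨⟨t2, rfl⟩, Nonempty.ne_empty ⟨z, h5⟩⟩, h4 h3⟩, h5⟩)⟩
    (fun F h3 h4 e => let ⟨t, ht⟩ := W1 F h3 h4; hf ⟨t, univ_subset_iff.1 (e ▸ ht)⟩) 1 0
  choose t ht using fun n => W1 _ (h3 n).2.2 (h3 n).1
  refine ⟨⋃ n, t n, countable_iUnion fun n => (t n).countable_toSet, fun x _ => ?_⟩
  obtain ⟨V, h5, h6⟩ := h4.symm.subset (mem_univ x)
  obtain ⟨n, hn⟩ := mem_iUnion.1 h5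
  obtain ⟨i, h7, h8⟩ := mem_iUnion₂.1 (ht n ⟨V, hn, h6⟩)
  exact mem_biUnion (mem_iUnion.2 ⟨n, h7⟩) h8

lemma dom_fn [CompletelyRegularSpace X] [LindelofSpace X] [Nonempty X] (h : ¬ IsMenger X) :
    ∃ f : ℕ → X → ℝ, (∀ n, Continuous (f n)) ∧ (∀ n x, 0 ≤ f n x) ∧ (∀ x, Monotone (f · x)) ∧
      ∀ g : ℕ → ℕ, ∃ x, ∀ n, (g n : ℝ) < f n x := by
  simp only [IsMenger, not_forall] at h
  obtain ⟨𝒰, h𝒰, h⟩ := h
  have H : ∀ n, ∃ (V : ℕ → Set X) (u : ℕ → X → unitInterval), (∀ j, V j ∈ 𝒰 n ∧ Continuous (u j) ∧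
      ∀ x, u j x < 1 → x ∈ V j) ∧ ∀ x, ∃ j, u j x < 1 := fun n => by
    choose V V1 V2 using fun x => (h𝒰 n).2.symm.subset (mem_univ x)
    choose u u1 u2 u3 using fun x => CompletelyRegularSpace.completely_regular x (V x)ᶜ
      ((h𝒰 n).1 _ (V1 x)).1.isClosed_compl (not_not.2 (V2 x))
    obtain ⟨s, s1, s2⟩ := isLindelof_univ.elim_countable_subcover (fun x => {z | u x z < 1})
      (fun x => isOpen_lt (u1 x) continuous_const) fun x _ => mem_iUnion.2 ⟨x, by simp [u2]⟩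
    obtain ⟨e, he⟩ := (s1.insert (Classical.arbitrary X)).exists_eq_range (insert_nonempty _ _)
    refine ⟨fun j => V (e j), fun j => u (e j), fun j => ⟨V1 _, u1 _, fun x hx =>
      by_contra fun hc => hx.ne (u3 _ hc)⟩, fun x => ?_⟩
    obtain ⟨z, h1, h2⟩ := mem_iUnion₂.1 (s2 (mem_univ x))
    obtain ⟨j, rfl⟩ := he.subset (mem_insert_of_mem _ h1)
    exact ⟨j, h2⟩
  choose V u h1 h2 using H
  let φ : X → ℕ × ℕ → unitInterval := fun x p => u p.1 p.2 x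
  have hφ : Continuous φ := continuous_pi fun p => (h1 _ _).2.1
  obtain ⟨f, hf⟩ := dom_of_not_menger (Y := range φ) fun hM => by
    obtain ⟨g, -, -, hg⟩ := hM.fn (V := fun a c => ⋃ j ∈ Iic c, {y | y.1 (a, j) < 1})
      (fun a c => isOpen_biUnion fun j _ => isOpen_lt
        ((continuous_apply _).comp continuous_subtype_val) continuous_const)
      (fun a c d hcd => biUnion_subset_biUnion_left (Iic_subset_Iic.2 hcd)) (by
        rintro a ⟨_, x, rfl⟩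
        obtain ⟨j, hj⟩ := h2 a x
        exact ⟨j, mem_biUnion (le_refl j) hj⟩)
    have e : ∀ n, V n '' Iic (g n) ⊆ 𝒰 n := fun n => image_subset_iff.2 fun j _ => (h1 n j).1
    refine h ⟨fun n => V n '' Iic (g n), fun n => ⟨(finite_Iic _).image _, e n⟩, fun W hW =>
      let ⟨n, hn⟩ := mem_iUnion.1 hW; (h𝒰 n).1 W (e n hn), eq_univ_of_forall fun x => ?_⟩
    obtain ⟨a, -, ha⟩ := hg ⟨_, x, rfl⟩ 0
    obtain ⟨j, h3, h4⟩ := mem_iUnion₂.1 ha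
    exact ⟨_, mem_iUnion.2 ⟨a, j, h3, rfl⟩, (h1 a j).2.2 x h4⟩
  refine ⟨fun n x => ∑ i ∈ Finset.range (n + 1), |f i ⟨φ x, x, rfl⟩|, fun n => continuous_finset_sum _
    fun i _ => ((f i).continuous.comp (hφ.subtype_mk _)).abs, fun n x => Finset.sum_nonneg fun _ _ =>
      abs_nonneg _, fun x m n hmn => Finset.sum_le_sum_of_subset_of_nonneg
        (Finset.range_mono (Nat.succ_le_succ hmn)) fun _ _ _ => abs_nonneg _, fun g => ?_⟩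
  obtain ⟨⟨_, x, rfl⟩, hx⟩ := hf g
  exact ⟨x, fun n => (hx n).trans_le ((le_abs_self _).trans (Finset.single_le_sum
    (f := fun i => |f i ⟨φ x, x, rfl⟩|) (fun _ _ => abs_nonneg _) (Finset.self_mem_range_succ n)))⟩

lemma HasStar.gap (h : HasStar X) {U : ℕ → Set X} (u1 : ∀ i, IsOpen (U i)) (u2 : ∀ x, {i | x ∈ U i}.Infinite)
    {d : ℕ → ℕ → X} (u3 : ∀ i j k, d j k ∈ U i ↔ j = i ∨ k ≤ i) (G : ℕ → ℕ) :
    ∃ A : Set ℕ, (∀ x, ({i | x ∈ U i} ∩ A).Infinite) ∧ {a | ∀ b ∈ A, a < b → G a < b}.Infinite := by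
  classical
  let dec : Set X → Set ℕ := fun V => {j | ∀ k, d j k ∈ V}
  have d1 : ∀ H : Set ℕ, H.Finite → dec (⋃₀ (U '' H)) = H := fun H hH => by
    refine Subset.antisymm (fun j hj => ?_) fun j hj k => ⟨_, ⟨j, hj, rfl⟩, (u3 _ _ _).2 (Or.inl rfl)⟩
    obtain ⟨M, hM⟩ := hH.bddAbove
    obtain ⟨_, ⟨i, h1, rfl⟩, h2⟩ := hj (M + 1)
    rcases (u3 _ _ _).1 h2 with rfl | h3
    exacts [h1, absurd (hM h1) (by omega)]
  have hU : Injective U := fun i j e => ((u3 j i (j + 1)).1 (e ▸ (u3 i i _).2 (Or.inl rfl))).resolve_right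
    (by omega)
  have d2 : ∀ F ⊆ range U, U '' (U ⁻¹' F) = F := fun F hF => image_preimage_eq_of_subset hF
  have d3 : ∀ F ⊆ range U, F.Finite → ⋃₀ F ≠ univ := fun F h1 h2 e => by
    have h3 := d1 _ (h2.preimage hU.injOn)
    rw [d2 F h1, e] at h3
    exact infinite_univ ((h2.preimage hU.injOn).subset fun j _ => h3.subset fun _ => trivial)
  let Rl : Set X → Set X → Prop := fun V W => ∀ a ∈ dec V, ∀ b ∈ dec W, a + G a < b
  obtain ⟨F, h1, h2, ⟨-, h3⟩, -, i, h4⟩ := h (range U) ⟨⟨forall_mem_range.2 fun i => ⟨u1 i,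
    ⟨_, (u3 i i 0).2 (Or.inl rfl)⟩, by simpa using d3 {U i} (by simp) (finite_singleton _)⟩,
    eq_univ_of_forall fun x => let ⟨i, hi⟩ := (u2 x).nonempty; ⟨_, ⟨i, rfl⟩, hi⟩⟩, fun x =>
    ((u2 x).image hU.injOn).mono (by rintro _ ⟨i, hi, rfl⟩; exact ⟨⟨i, rfl⟩, hi⟩)⟩ d3 2
    (Sym2.lift ⟨fun V W => if Rl V W ∨ Rl W V then 1 else 0, fun V W => by simp only [or_comm]⟩)
  let H : ℕ → Set ℕ := fun n => U ⁻¹' F n
  have H1 : ∀ n, (H n).Finite := fun n => (h1 n).1.preimage hU.injOn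
  have H2 : ∀ n, dec (VH F {n}) = H n := fun n => by
    rw [← d1 _ (H1 n), d2 _ (h1 n).2.2]; simp [VH]
  have H3 : ∀ m n, m ≠ n → ∀ a ∈ H m, a ∉ H n := fun m n hmn a h5 h6 => disjoint_left.1 (h2 hmn) h5 h6
  have H4 : ∀ n, ∃ a ∈ H n, ∀ b ∈ H n, b ≤ a := fun n => by
    obtain ⟨V, hV⟩ := (h1 n).2.1
    obtain ⟨a, rfl⟩ := (h1 n).2.2 hV
    exact exists_max_image _ id (H1 n) ⟨a, hV⟩
  choose a a1 a2 using H4
  have H5 : ∀ m n, m < n → (if (∀ a ∈ H m, ∀ b ∈ H n, a + G a < b) ∨ ∀ a ∈ H n, ∀ b ∈ H m, a + G a < b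
      then (1 : Fin 2) else 0) = i := fun m n hmn => by
    simpa only [Sym2.lift_mk, Rl, H2] using h4 {m} {n} ⟨by simp, by simp, by simpa using hmn⟩
  obtain ⟨M, hM⟩ := ((H1 0).image fun a => a + G a).bddAbove
  have H6 : {n | ∃ b ∈ H n, b ≤ M}.Finite := ((finite_le_nat M).biUnion fun b _ =>
    (show {n | b ∈ H n}.Subsingleton from fun m h5 n h6 => by_contra fun e => H3 m n e b h5 h6).finite).subset
      fun n ⟨b, h5, h6⟩ => mem_biUnion h6 h5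
  obtain ⟨n0, h5, h6⟩ := H6.infinite_compl.exists_gt 0
  have H7 := H5 0 n0 h6
  rw [if_pos (Or.inl fun e he b hb => (hM ⟨e, he, rfl⟩).trans_lt (not_le.1 fun h7 => h5 ⟨b, hb, h7⟩))] at H7
  have H8 : ∀ m n, m ≠ n → (∀ a ∈ H m, ∀ b ∈ H n, a + G a < b) ∨ ∀ a ∈ H n, ∀ b ∈ H m, a + G a < b :=
    fun m n hmn => by
      rcases hmn.lt_or_gt with h7 | h7
      · exact by_contra fun hc => by simpa [if_neg hc, ← H7] using H5 m n h7
      · exact (by_contra fun hc => by simpa [if_neg hc, ← H7] using H5 n m h7 : _ ∨ _).symm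
  refine ⟨⋃ n, H n, fun x => Infinite.of_image U ((h3 x).mono fun V hV => ?_),
    infinite_of_injective_forall_mem (f := a) (fun m n e => by_contra fun hc =>
      H3 m n hc _ (a1 m) (e ▸ a1 n)) fun n b hb h7 => ?_⟩
  · obtain ⟨n, hn⟩ := mem_iUnion.1 hV.1
    obtain ⟨j, rfl⟩ := (h1 n).2.2 hn
    exact ⟨j, ⟨hV.2, mem_iUnion.2 ⟨n, hn⟩⟩, rfl⟩
  obtain ⟨m, hm⟩ := mem_iUnion.1 hb
  rcases H8 n m (fun e => (a2 n b (e ▸ hm)).not_gt h7) with h8 | h8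
  · have := h8 _ (a1 n) b hm; omega
  · have := h8 b hm _ (a1 n); omega

theorem HasStar.menger [T35Space X] [Nonempty X] (hug : uNum < gNum) (h : HasStar X) : IsMenger X := by
  by_contra hM
  have := h.lindelof
  obtain ⟨f, f1, f2, f3, f4⟩ := dom_fn hM
  obtain ⟨𝒰, B, h1, h2, h3, h4⟩ := of_ug hug
  choose p hp using fun r : ℕ => f4 fun _ => r
  let d : ℕ → X := fun j => Nat.rec (p 0) (fun _ x => p (⌈f 0 x⌉₊ + 2)) j
  have d1 : ∀ j, f 0 (d j) + 2 < f 0 (d (j + 1)) := fun j => by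
    have := hp (⌈f 0 (d j)⌉₊ + 2) 0
    push_cast at this
    exact (add_le_add_left (Nat.le_ceil _) 2).trans_lt this
  clear_value d
  have d2 : ∀ j k, j < k → f 0 (d j) + 2 < f 0 (d k) := fun j k hjk => (d1 j).trans_le
    (monotone_nat_of_le_succ (f := fun j => f 0 (d j)) (fun j => by linarith [d1 j]) hjk)
  have d3 : ∀ x j k, |f 0 x - f 0 (d j)| < 1 → |f 0 x - f 0 (d k)| < 1 → j = k := fun x j k e1 e2 => by
    rw [abs_lt] at e1 e2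
    rcases lt_trichotomy j k with h | h | h
    exacts [by linarith [d2 _ _ h], h, by linarith [d2 _ _ h]]
  have d4 : IsClosed (range d) := by
    rw [← iUnion_singleton_eq_range]
    refine LocallyFinite.isClosed_iUnion (fun x => ⟨{z | |f 0 z - f 0 x| < 1 / 2},
      (isOpen_lt (((f1 0).sub continuous_const).abs) continuous_const).mem_nhds (by simp),
      Subsingleton.finite fun j hj k hk => d3 x j k ?_ ?_⟩) fun _ => isClosed_singleton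
    · have := singleton_inter_nonempty.1 hj
      rw [abs_sub_comm]; exact lt_trans this (by norm_num)
    · have := singleton_inter_nonempty.1 hk
      rw [abs_sub_comm]; exact lt_trans this (by norm_num)
  let N : ℕ → ℕ → Set X := fun i j =>
    {x | |f 0 x - f 0 (d j)| < 1} ∩ ⋂ n ∈ Iic i, {x | f n x < f n (d j) + 1}
  let U : ℕ → Set X := fun i => ({x | |f i.unpair.1 x - i.unpair.2| < 1} \ range d) ∪
    ⋃ j ∈ {j : ℕ | j.unpair.1 = i ∨ j.unpair.2 ≤ i}, N i j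
  have u3 : ∀ i j, d j ∈ U i ↔ j.unpair.1 = i ∨ j.unpair.2 ≤ i := fun i j => by
    refine ⟨fun hj => ?_, fun hj => Or.inr (mem_biUnion hj ⟨by simp, mem_iInter₂.2 fun _ _ => by simp⟩)⟩
    obtain ⟨k, e1, e2⟩ := mem_iUnion₂.1 (hj.resolve_left fun e => e.2 ⟨j, rfl⟩)
    exact d3 (d j) k j e2.1 (by simp) ▸ e1
  obtain ⟨Φ, hΦ⟩ := bound h1 h2 h3 h4 (h.gap (U := U) (d := fun j k => d (Nat.pair j k)) (fun i =>
    ((isOpen_lt (((f1 _).sub continuous_const).abs) continuous_const).sdiff d4).union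
      (isOpen_biUnion fun j _ => (isOpen_lt (((f1 0).sub continuous_const).abs) continuous_const).inter
        ((finite_Iic i).isOpen_biInter fun n _ => isOpen_lt (f1 n) continuous_const)))
    (fun x => infinite_of_forall_exists_gt fun t => by
      by_cases hx : x ∈ range d
      · obtain ⟨j, rfl⟩ := hx
        exact ⟨j.unpair.2 + t + 1, (u3 _ _).2 (Or.inr (by omega)), by omega⟩
      · refine ⟨Nat.pair (t + 1) ⌊f (t + 1) x⌋₊, Or.inl ⟨?_, hx⟩, Nat.left_le_pair _ _⟩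
        simp only [Nat.unpair_pair, mem_setOf_eq, abs_lt]
        exact ⟨by linarith [Nat.floor_le (f2 (t + 1) x)], by linarith [Nat.lt_floor_add_one (f (t + 1) x)]⟩)
    fun i j k => by rw [u3, Nat.unpair_pair])
  let g : B → ℕ → ℕ → ℕ := fun b j n =>
    Nat.rec 0 (fun n q => Φ b (Nat.pair n q + n) + ⌈f n (d j)⌉₊ + 1) n
  have g1 : ∀ b j n, g b j (n + 1) = Φ b (Nat.pair n (g b j n) + n) + ⌈f n (d j)⌉₊ + 1 := fun _ _ _ => rfl
  clear_value g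
  obtain ⟨Z, hZ⟩ := h4 _ fun b => gd_gap fun n => (Finset.range (n + 1)).sup fun j => g b j (n + 1)
  obtain ⟨b0, hb0, -⟩ := h3 univ univ_mem
  choose nx n1 n2 using (hZ ⟨b0, hb0⟩).1.exists_gt
  obtain ⟨x, hx⟩ := f4 nx
  obtain ⟨b, hb⟩ := hΦ x
  obtain ⟨j, hj⟩ : ∃ j, ∀ k, |f 0 x - f 0 (d k)| < 1 → k = j := by
    by_cases hc : ∃ j, |f 0 x - f 0 (d j)| < 1
    · exact let ⟨j, hj⟩ := hc; ⟨j, fun k hk => d3 x k j hk hj⟩
    · exact ⟨0, fun k hk => absurd ⟨k, hk⟩ hc⟩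
  have key : ∀ n, ∀ m < n, f m x < g b j n := fun n => by
    induction n with
    | zero => exact fun m hm => absurd hm (Nat.not_lt_zero m)
    | succ n ih =>
      refine fun m hm => (f3 x (Nat.lt_succ_iff.1 hm)).trans_lt ?_
      obtain ⟨i, e1, e2, e3⟩ := hb (Nat.pair n (g b j n) + n)
      have e4 : (0 : ℝ) ≤ ⌈f n (d j)⌉₊ := Nat.cast_nonneg _
      rw [g1]
      push_cast
      rcases e1 with e1 | e1
      · have e5 := abs_lt.1 (show |f i.unpair.1 x - i.unpair.2| < 1 from e1.1)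
        rcases lt_or_ge i.unpair.1 n with e6 | e6
        · have e7 : i.unpair.2 < g b j n + 1 := by
            have := ih _ e6
            exact_mod_cast (by linarith [e5.1] : (i.unpair.2 : ℝ) < g b j n + 1)
          have e8 := Nat.pair_lt_pair_left i.unpair.2 e6
          rw [Nat.pair_unpair] at e8
          have e9 : Nat.pair n i.unpair.2 ≤ Nat.pair n (g b j n) := by
            rcases (Nat.lt_succ_iff.1 e7).eq_or_lt with h | h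
            exacts [h ▸ le_rfl, (Nat.pair_lt_pair_right n h).le]
          omega
        · have e7 : (i.unpair.2 : ℝ) < Φ b (Nat.pair n (g b j n) + n) :=
            Nat.cast_lt.2 ((Nat.unpair_right_le i).trans_lt e3)
          have e8 : f n x ≤ f i.unpair.1 x := f3 x e6
          linarith [e5.2]
      · obtain ⟨k, -, e5, e6⟩ := mem_iUnion₂.1 e1
        obtain rfl := hj k e5
        have e7 : f n x < f n (d k) + 1 := mem_iInter₂.1 e6 n (show n ≤ i by omega)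
        have e8 : (0 : ℝ) ≤ Φ b (Nat.pair n (g b k n) + n) := Nat.cast_nonneg _
        linarith [Nat.le_ceil (f n (d k))]
  obtain ⟨n, e1, e2⟩ := (hZ b).2 j
  have e3 := (Finset.le_sup (f := fun j => g b j (n + 1)) (Finset.mem_range.2 (Nat.lt_succ_of_le e1))).trans
    (e2 _ (n1 n) (n2 n).le)
  exact ((hx n).trans (key _ n n.lt_succ_self)).not_ge (Nat.cast_le.2 e3)

lemma exists_dom : ∃ D : Set (ℕ → ℕ), (∀ g : ℕ → ℕ, ∃ f ∈ D, ∀ᶠ n in atTop, g n ≤ f n) ∧ #D = dNum :=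
  (csInf_mem ⟨_, univ, fun g => ⟨g, trivial, Eventually.of_forall fun _ => le_rfl⟩, rfl⟩ : dNum ∈ _)

end Pool.Agent.H30.Mt
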