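import Mathlib
import Pool.Agent.H30.DL
import Pool.Agent.H30.ND

set_option autoImplicit false

namespace Pool.Agent.H30.NW

open Set Filter Topology Cardinal Pool.Agent.H30.DL

lemma hullc {α : Type} (op : ∀ S : Set ℕ, (S → α) → α) :
    ∃ M : Set α, #M ≤ 𝔠 ∧ ∀ S f, (∀ n, f n ∈ M) → op S f ∈ M := by
  let ev : WType (fun S : Set ℕ => S) → α := WType.elim α fun p => op p.1 p.2
  refine ⟨range ev, mk_range_le.trans (WType.cardinalMk_le_of_le ?_), fun S f h => ?_⟩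
  · refine (sum_le_sum _ (fun _ => 𝔠) fun S => ?_).trans ?_
    · exact (power_le_power_left continuum_ne_zero mk_le_aleph0).trans_eq continuum_power_aleph0
    · simp
  · choose w hw using h
    exact ⟨⟨S, w⟩, by rw [← funext hw]; rfl⟩

abbrev Λ := WithTop (T 0)

def U (β : Λ) : Prop := ∀ S : Set Λ, S.Countable → S ⊆ Iio β → ∃ α < β, ∀ s ∈ S, s < α

def Cont (x : Λ → Bool × Bool) : Prop :=
  (∀ a b, (x a).1 = true → (x b).1 = true → a = b) ∧
    ∀ β, U β → ∃ η < β, ∀ α, η < α → α ≤ β → (x α).2 = (x β).2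

abbrev X := {x // Cont x}

noncomputable def c (M : Set Λ) (α : Λ) : Λ :=
  wellFounded_lt.min (insert ⊤ M ∩ Ici α) ⟨⊤, Or.inl rfl, mem_Ici.2 le_top⟩

lemma c_mem' (M : Set Λ) (α : Λ) : c M α ∈ insert ⊤ M ∩ Ici α := WellFounded.min_mem _ _ _

lemma c_ge (M : Set Λ) (α : Λ) : α ≤ c M α := (c_mem' M α).2

lemma c_le {M : Set Λ} {α m : Λ} (h : m ∈ M) (h' : α ≤ m) : c M α ≤ m :=
  not_lt.1 (WellFounded.not_lt_min _ (insert ⊤ M ∩ Ici α) ⟨Or.inr h, h'⟩)

lemma c_mem {M : Set Λ} (h : ⊤ ∈ M) (α : Λ) : c M α ∈ M := (c_mem' M α).1.elim (fun e => e ▸ h) id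

lemma c_eq {M : Set Λ} {α : Λ} (h : α ∈ M) : c M α = α := (c_le h le_rfl).antisymm (c_ge _ _)

open Classical in
noncomputable def red (M : Set Λ) (hM : M.Countable) (z : Λ → Bool × Bool)
    (hz : ∀ a b, (z a).1 = true → (z b).1 = true → a = b) : X :=
  ⟨fun α => (if α ∈ M then (z α).1 else false, (z (c M α)).2), fun a b ha hb => hz a b
    (by simp at ha; exact ha.2) (by simp at hb; exact hb.2), fun β hβ => by
    obtain ⟨η, h1, h2⟩ := hβ (M ∩ Iio β) (hM.mono inter_subset_left) inter_subset_right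
    refine ⟨η, h1, fun α h3 h4 => ?_⟩
    have : insert ⊤ M ∩ Ici α = insert ⊤ M ∩ Ici β := by
      ext m
      exact and_congr_right fun hm => ⟨fun h => mem_Ici.2 (not_lt.1 fun k =>
        lt_asymm (h2 m ⟨hm.resolve_left k.ne_top, k⟩) (h3.trans_le h)), fun h => h4.trans h⟩
    simp only [c, this]⟩

lemma nb {W : Set X} (hW : IsOpen W) {x : X} (hx : x ∈ W) :
    ∃ F : Finset Λ, ∀ y : X, (∀ α ∈ F, y.1 α = x.1 α) → y ∈ W := by
  obtain ⟨W', hW', rfl⟩ := isOpen_induced_iff.1 hW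
  obtain ⟨F, u, h1, h2⟩ := isOpen_pi_iff.1 hW' _ hx
  exact ⟨F, fun y h => h2 fun α hα => (h α hα).symm ▸ (h1 α hα).2⟩

lemma cl {A : Set X} {z : Λ → Bool × Bool} (h : z ∈ closure (Subtype.val '' A)) (F : Finset Λ) :
    ∃ a ∈ A, ∀ α ∈ F, a.1 α = z α := by
  obtain ⟨_, h1, a, h2, rfl⟩ := mem_closure_iff.1 h _ (isOpen_set_pi F.finite_toSet
    (s := fun α => {z α}) fun _ _ => isOpen_discrete _) fun _ _ => rfl
  exact ⟨a, h2, h1⟩

lemma wit (a : X) (β : Λ) : ∃ S : Set Λ, S.Countable ∧ (∀ α, (a.1 α).1 = true → α ∈ S) ∧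
    ∀ α < β, (∀ s ∈ S, s < β → s < α) → (a.1 α).2 = (a.1 β).2 := by
  have h0 : {α | (a.1 α).1 = true}.Countable := Set.Subsingleton.countable fun x hx y hy =>
    a.2.1 x y hx hy
  by_cases h : U β
  · obtain ⟨η, h1, h2⟩ := a.2.2 β h
    exact ⟨insert η _, h0.insert η, fun α h => Or.inr h, fun α k1 k2 =>
      h2 α (k2 η (Or.inl rfl) h1) k1.le⟩
  · simp only [U, not_forall, not_exists, not_and] at h
    obtain ⟨S, h1, h2, h3⟩ := h
    refine ⟨S ∪ _, h1.union h0, fun α h => Or.inr h, fun α k1 k2 => ?_⟩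
    obtain ⟨s, hs, k⟩ := h3 α k1
    exact absurd (k2 s (Or.inl hs) (h2 hs)) k

instance : NormalSpace X := ⟨fun A B hA hB hAB => by
  classical
  refine ((normal_separation isClosed_closure isClosed_closure (disjoint_left.2
    fun z h1 h2 => ?_)).preimage continuous_subtype_val).mono
    (fun x hx => subset_closure (s := Subtype.val '' A) ⟨x, hx, rfl⟩)
    fun x hx => subset_closure (s := Subtype.val '' B) ⟨x, hx, rfl⟩
  choose a a1 a2 using cl h1
  choose b b1 b2 using cl h2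
  choose S s1 s2 s3 using wit
  obtain ⟨M, hM, hc⟩ := ND.hull (fun F E => insert ⊤ (⋃ β ∈ insert ⊤ (E : Set Λ), S (a F) β ∪ S (b F) β))
    fun F E => ((E.countable_toSet.insert ⊤).biUnion fun _ _ => (s1 _ _).union (s1 _ _)).insert _
  have ht : ⊤ ∈ M := hc ∅ ∅ (by simp) (by simp) (Or.inl rfl)
  have hz : ∀ p q, (z p).1 = true → (z q).1 = true → p = q := fun p q hp hq =>
    (a {p, q}).2.1 p q (by rwa [a2 _ p (by simp)]) (by rwa [a2 _ q (by simp)])
  have key : ∀ (A : Set X) (a : Finset Λ → X), IsClosed A → (∀ F, a F ∈ A) →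
      (∀ F, ∀ α ∈ F, (a F).1 α = z α) → (∀ F : Finset Λ, ↑F ⊆ M → ∀ β ∈ M, S (a F) β ⊆ M) →
      red M hM z hz ∈ A := fun A a hA a1 a2 a3 => by
    by_contra hn
    obtain ⟨H, hH⟩ := nb hA.isOpen_compl hn
    have hF : ↑(H.filter (· ∈ M) ∪ H.image (c M)) ⊆ M := by
      intro x hx
      rcases Finset.mem_union.1 hx with h | h
      · exact (Finset.mem_filter.1 h).2
      · obtain ⟨y, -, rfl⟩ := Finset.mem_image.1 h; exact c_mem ht y
    refine hH _ (fun α hα => Prod.ext ?_ ?_) (a1 (H.filter (· ∈ M) ∪ H.image (c M)))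
    · by_cases h : α ∈ M
      · rw [a2 _ α (by simp [hα, h])]; simp [red, h]
      · simp only [red, h, if_false]
        exact Bool.eq_false_iff.2 fun k => h (a3 _ hF ⊤ ht (s2 _ _ α k))
    · simp only [red]
      rw [← a2 _ (c M α) (Finset.mem_union_right _ (Finset.mem_image_of_mem _ hα))]
      rcases (c_ge M α).eq_or_lt with h | h
      · rw [← h]
      · exact s3 _ _ α h fun s hs k => not_le.1 fun k' =>
          absurd (c_le (a3 _ hF _ (c_mem ht α) hs) k') (not_le.2 k)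
  exact disjoint_left.1 hAB
    (key A a hA a1 a2 fun F hF β hβ s hs => hc F {β} hF (by simpa) (Or.inr
      (mem_biUnion (x := β) (by simp) (Or.inl hs))))
    (key B b hB b1 b2 fun F hF β hβ s hs => hc F {β} hF (by simpa) (Or.inr
      (mem_biUnion (x := β) (by simp) (Or.inr hs))))⟩

lemma wl (𝒰 : Set (Set X)) (h1 : ∀ W ∈ 𝒰, IsOpen W) (h2 : ⋃₀ 𝒰 = Set.univ) :
    ∃ 𝒱 ⊆ 𝒰, 𝒱.Countable ∧ Dense (⋃₀ 𝒱) := by
  classical
  choose W w1 w2 using fun x : X => mem_sUnion.1 (h2.ge (mem_univ x))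
  choose F hF using fun x => nb (h1 _ (w1 x)) (w2 x)
  haveI : Nonempty X := ⟨red ∅ countable_empty (fun _ => (false, false)) (by simp)⟩
  let r : Finset Λ → X → X := fun G x => red G G.countable_toSet x.1 x.2.1
  have r1 : ∀ G x, ∀ α ∈ G, (r G x).1 α = x.1 α := fun G x α hα => by
    simp [r, red, hα, c_eq (M := ↑G) hα]
  have r2 : ∀ G, (range (r G)).Finite := fun G => by
    obtain ⟨g, hg⟩ := (Function.factorsThrough_iff (f := fun (x : X) (i : (insert ⊤ G : Finset Λ)) =>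
      x.1 i) (r G)).1 fun x y h => Subtype.ext (funext fun α => by
        have e : ∀ α ∈ (insert ⊤ ↑G : Set Λ), x.1 α = y.1 α := fun α hα =>
          congrFun h ⟨α, by simpa using hα⟩
        simp only [r, red, e _ (c_mem' _ α).1]
        split_ifs with k
        · rw [e α (Or.inr k)]
        · rfl)
    rw [hg]; exact (finite_range g).subset (range_comp_subset_range _ _)
  obtain ⟨M, hM, hc⟩ := ND.hull (fun G _ => ⋃ x ∈ range (r G), ↑(F x))
    fun G _ => (r2 G).countable.biUnion fun _ _ => Finset.countable_toSet _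
  refine ⟨W '' ⋃ G ∈ {G : Finset Λ | ↑G ⊆ M}, range (r G), by rintro _ ⟨x, -, rfl⟩; exact w1 x,
    ((ND.cf hM).biUnion fun G _ => (r2 G).countable).image _, dense_iff_inter_open.2 ?_⟩
  rintro O hO ⟨w, hw⟩
  obtain ⟨H, hH⟩ := nb hO hw
  let G := H.filter (· ∈ M)
  have hG : ↑G ⊆ M := fun x hx => (Finset.mem_filter.1 hx).2
  have hx : ↑(F (r G w)) ⊆ M := fun s hs => hc G ∅ hG (by simp) (mem_biUnion ⟨w, rfl⟩ hs)
  let z : Λ → Bool × Bool := fun α => if α ∈ H then w.1 α else (false, ((r G w).1 α).2)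
  have hz : ∀ p q, (z p).1 = true → (z q).1 = true → p = q := fun p q hp hq => w.2.1 p q
    (by by_cases h : p ∈ H <;> simp_all [z]) (by by_cases h : q ∈ H <;> simp_all [z])
  have e : ∀ α ∈ H ∪ F (r G w), (red _ (H ∪ F (r G w)).countable_toSet z hz).1 α = z α :=
    fun α hα => by simp only [red, c_eq (M := ↑(H ∪ F (r G w))) hα, Finset.mem_coe.2 hα, if_true]
  refine ⟨red _ (H ∪ F (r G w)).countable_toSet z hz, hH _ fun α hα => ?_,
    _, ⟨r G w, mem_biUnion hG ⟨w, rfl⟩, rfl⟩, hF _ _ fun α hα => ?_⟩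
  · rw [e α (Finset.mem_union_left _ hα)]; simp [z, hα]
  · rw [e α (Finset.mem_union_right _ hα)]
    by_cases h : α ∈ H
    · rw [r1 G w α (Finset.mem_filter.2 ⟨h, hx hα⟩)]; simp [z, h]
    · simp [z, h, r, red, G]

lemma U_top : U ⊤ := fun S h1 h2 => by
  obtain ⟨b, hb⟩ := bdd 0 (WithTop.some ⁻¹' S) ((le_aleph0_iff_set_countable.2
    (h1.preimage WithTop.coe_injective)).trans (al 0))
  refine ⟨b, WithTop.coe_lt_top b, fun s hs => ?_⟩
  obtain ⟨a, rfl⟩ := WithTop.ne_top_iff_exists.1 (mem_Iio.1 (h2 hs)).ne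
  exact WithTop.coe_lt_coe.2 (hb a hs)

def O (β : T 0) : Set X := {x | x.1 β = (true, true) ∧ (x.1 ⊤).2 = false}

lemma opn (α : Λ) (s : Set (Bool × Bool)) : IsOpen {x : X | x.1 α ∈ s} :=
  ((isOpen_discrete s).preimage (f := fun x : Λ → Bool × Bool => x α) (by fun_prop)).preimage
    continuous_subtype_val

lemma ncl : ∃ 𝒰 : Set (Set X), (∀ U ∈ 𝒰, IsOpen U ∧ U.Nonempty) ∧ 𝒰.PairwiseDisjoint id ∧
    ∀ L : Set X, IsLindelof L → ∃ U ∈ 𝒰, Disjoint U L := by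
  classical
  refine ⟨range O, ?_, ?_, fun L hL => ?_⟩
  · rintro _ ⟨β, rfl⟩
    refine ⟨(opn β {(true, true)}).inter (opn ⊤ {p | p.2 = false}), red {↑β, ⊤} (by simp)
      (fun α => if α = β then (true, true) else (false, false)) fun a b ha hb => ?_, ?_⟩
    · by_cases h : a = β <;> by_cases k : b = β <;> simp_all
    · simp [O, red, c_eq]
  · rintro _ ⟨β, rfl⟩ _ ⟨γ, rfl⟩ h
    exact disjoint_left.2 fun x hx hx' => h (congrArg O (WithTop.coe_injective
      (x.2.1 _ _ (by rw [hx.1]) (by rw [hx'.1]))))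
  have hL' := hL.inter_right (isOpen_compl_iff.1 (opn ⊤ {p | p.2 = false}ᶜ))
  have : ∀ ξ : T 0, ∃ C : Set (T 0), C.Countable ∧ (∀ γ ∈ C, ξ < γ) ∧
      ∀ x ∈ L, (x.1 ⊤).2 = false → ∃ γ ∈ C, (x.1 γ).2 = false := fun ξ => by
    obtain ⟨C, h1, h2, h3⟩ := hL'.elim_countable_subcover_image (b := Ioi ξ)
      (c := fun γ : T 0 => {x : X | x.1 γ ∈ {p | p.2 = false}}) (fun γ _ => opn _ _) fun x hx => by
        obtain ⟨η, k1, k2⟩ := x.2.2 ⊤ U_top
        obtain ⟨α, k3, k4⟩ := U_top {η, ↑ξ} (by simp) (by simp [insert_subset_iff, k1])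
        obtain ⟨a, rfl⟩ := WithTop.ne_top_iff_exists.1 k3.ne
        exact mem_biUnion (x := a) (WithTop.coe_lt_coe.1 (k4 ξ (by simp)))
          ((k2 a (k4 η (by simp)) le_top).trans hx.2)
    exact ⟨C, h2, h1, fun x hx k => by simpa using h3 ⟨hx, k⟩⟩
  choose C c1 c2 c3 using this
  choose op hop using fun (S : Set ℕ) (f : S → T 0) => bdd 0 (⋃ n, insert (f n) (C (f n)))
    ((le_aleph0_iff_set_countable.2 (countable_iUnion fun n => (c1 _).insert _)).trans (al 0))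
  obtain ⟨M, m1, m2⟩ := hullc op
  obtain ⟨β, b1, b2⟩ := wellFounded_lt.has_min {b | ∀ a ∈ M, a < b} (bdd 0 M m1)
  have m3 : ∀ s : Λ, s < β → ∃ m ∈ M, s ≤ ↑m := fun s hs => by
    obtain ⟨a, rfl⟩ := WithTop.ne_top_iff_exists.1 hs.ne_top
    by_contra! h
    exact b2 a (fun m hm => WithTop.coe_lt_coe.1 (h m hm)) (WithTop.coe_lt_coe.1 hs)
  have hU : U β := fun S h1 h2 => by
    choose! m k1 k2 using m3
    obtain ⟨g, hg⟩ := countable_iff_exists_injective _ |>.1 h1.to_subtype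
    let f : range g → T 0 := fun n => m n.2.choose
    refine ⟨op _ f, WithTop.coe_lt_coe.2 (b1 _ (m2 _ f fun n => k1 _ (h2 n.2.choose.2))),
      fun s hs => (k2 s (h2 hs)).trans_lt (WithTop.coe_lt_coe.2 (hop _ f _ (mem_iUnion.2
        ⟨⟨_, ⟨s, hs⟩, rfl⟩, Or.inl ?_⟩)))⟩
    simp only [f]
    rw [hg (mem_range_self (f := g) ⟨s, hs⟩).choose_spec]
  refine ⟨_, ⟨β, rfl⟩, disjoint_left.2 fun x hx hx' => ?_⟩
  obtain ⟨η, h1, h2⟩ := x.2.2 β hU
  obtain ⟨m, h3, h4⟩ := m3 η h1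
  obtain ⟨γ, h5, h6⟩ := c3 m x hx' hx.2
  have : γ < β := (hop univ (fun _ => m) γ (mem_iUnion.2 ⟨⟨0, trivial⟩, Or.inr h5⟩)).trans
    (b1 _ (m2 _ _ fun _ => h3))
  rw [h2 γ (h4.trans_lt (WithTop.coe_lt_coe.2 (c2 _ _ h5))) (WithTop.coe_le_coe.2 this.le), hx.1] at h6
  simp at h6

end Pool.Agent.H30.NW
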