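import Mathlib

set_option autoImplicit false

namespace Pool.Agent.H30.NoSeq

open Set Filter Topology

lemma noseq {α : Type*} {y : ℕ → Ultrafilter α} {q : Ultrafilter α} (hy : Tendsto y atTop (𝓝 q))
    (hne : ∀ n, y n ≠ q) : False := by
  classical
  have ev : ∀ A ∈ q, ∀ᶠ n in atTop, A ∈ y n := fun A hA =>
    hy.eventually ((ultrafilter_isOpen_basic A).mem_nhds hA)
  have : ∀ n, ∃ B ∈ y n, B ∉ q := fun n => by
    by_contra hh
    push Not at hh
    exact hne n (Ultrafilter.coe_le_coe.1 (show (q : Filter α) ≤ y n from hh)).symm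
  choose B h1 h2 using this
  obtain ⟨φ, -, hφ⟩ := exists_seq_of_forall_finset_exists (fun _ : ℕ => True)
    (fun m n => m < n ∧ (B m)ᶜ ∈ y n) fun s _ => by
      have : ∀ᶠ n in atTop, ∀ m ∈ s, m < n ∧ (B m)ᶜ ∈ y n := (Finset.eventually_all s).2 fun m _ =>
        (eventually_gt_atTop m).and (ev _ (Ultrafilter.compl_mem_iff_notMem.2 (h2 m)))
      exact this.exists.imp fun n hn => ⟨trivial, hn⟩
  have hm : StrictMono φ := fun m n h => (hφ m n h).1
  let A : ℕ → Set α := fun k => B (φ k) ∩ ⋂ j ∈ Iio k, (B (φ j))ᶜ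
  have hA : ∀ k, A k ∈ y (φ k) := fun k =>
    inter_mem (h1 _) ((biInter_mem (finite_Iio k)).2 fun j hj => (hφ j k hj).2)
  have hd : ∀ j k a, a ∈ A j → a ∈ A k → j = k := fun j k a hj hk => by
    rcases lt_trichotomy j k with h | h | h
    · exact absurd hj.1 (mem_iInter₂.1 hk.2 j h)
    · exact h
    · exact absurd hk.1 (mem_iInter₂.1 hj.2 k h)
  rcases q.mem_or_compl_mem (⋃ k, A (2 * k)) with h | h
  · obtain ⟨N, hN⟩ := eventually_atTop.1 (hm.tendsto_atTop.eventually (ev _ h))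
    obtain ⟨a, a1, a2⟩ := Ultrafilter.nonempty_of_mem (inter_mem (hN (2 * N + 1) (by omega)) (hA _))
    obtain ⟨k, hk⟩ := mem_iUnion.1 a1
    have := hd _ _ a hk a2
    omega
  · obtain ⟨N, hN⟩ := eventually_atTop.1 (hm.tendsto_atTop.eventually (ev _ h))
    obtain ⟨a, a1, a2⟩ := Ultrafilter.nonempty_of_mem (inter_mem (hN (2 * N) (by omega)) (hA _))
    exact a1 (mem_iUnion.2 ⟨N, a2⟩)

end Pool.Agent.H30.NoSeq
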