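import Mathlib

set_option autoImplicit false

namespace Pool.Agent.H30.Oll

open Finset SimpleGraph Filter Topology

/-- The `L¹` transport distance between the uniform measures on `A` and `B` for the cost `d`. -/
noncomputable def W1 {V : Type} (d : V → V → ℝ) (A B : Finset V) : ℝ :=
  sInf {c | ∃ π : V → V → ℝ, (∀ a b, 0 ≤ π a b) ∧ (∀ a ∈ A, ∑ b ∈ B, π a b = 1 / A.card) ∧
    (∀ b ∈ B, ∑ a ∈ A, π a b = 1 / B.card) ∧ c = ∑ a ∈ A, ∑ b ∈ B, π a b * d a b}

open Classical in
/-- Ollivier-Ricci curvature of a pair of vertices of the Cayley graph of `(G, S)`. -/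
noncomputable def kappa {G : Type} [Group G] (S : Finset G) (x y : G) : ℝ :=
  1 - W1 (fun a b => ((mulCayley (S : Set G)).dist a b : ℝ)) (S.image (x * ·)) (S.image (y * ·)) /
    ((mulCayley (S : Set G)).dist x y : ℝ)

lemma dual {V : Type} {d : V → V → ℝ} {A B : Finset V} (hA : A.Nonempty) (hB : B.Nonempty)
    (f g : V → ℝ) (h : ∀ a ∈ A, ∀ b ∈ B, g b - f a ≤ d a b) :
    (∑ b ∈ B, g b) / B.card - (∑ a ∈ A, f a) / A.card ≤ W1 d A B := by
  have a0 : (A.card : ℝ) ≠ 0 := by simpa using hA.ne_empty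
  have b0 : (B.card : ℝ) ≠ 0 := by simpa using hB.ne_empty
  refine le_csInf ⟨_, fun _ _ => 1 / A.card * (1 / B.card), fun _ _ => by positivity,
    fun _ _ => by simp; field_simp, fun _ _ => by simp; field_simp, rfl⟩ ?_
  rintro _ ⟨π, h0, h1, h2, rfl⟩
  refine le_of_eq_of_le ?_ (sum_le_sum fun a ha => sum_le_sum fun b hb =>
    mul_le_mul_of_nonneg_left (h a ha b hb) (h0 a b))
  simp only [mul_sub, sum_sub_distrib]
  rw [sum_comm, sum_div, sum_div]
  congr 1 <;> refine sum_congr rfl fun x hx => ?_ <;> rw [← sum_mul]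
  · rw [h2 x hx]; ring
  · rw [h1 x hx]; ring

variable {G : Type} [Group G] {S : Finset G}

lemma adj (h1 : 1 ∉ S) (x : G) {s : G} (hs : s ∈ S) : (mulCayley (S : Set G)).Adj x (x * s) :=
  (mulCayley_adj' _ _ _).2 ⟨fun e => h1 (left_eq_mul.1 e ▸ hs), s, hs, Or.inl rfl⟩

lemma reach (h1 : 1 ∉ S) (hg : Subgroup.closure (S : Set G) = ⊤) (x y : G) :
    (mulCayley (S : Set G)).Reachable x y := by
  obtain ⟨g, rfl⟩ : ∃ g, y = x * g := ⟨x⁻¹ * y, by simp⟩
  refine Subgroup.closure_induction (p := fun g _ => ∀ x, (mulCayley (S : Set G)).Reachable x (x * g))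
    (fun s hs x => (adj h1 x hs).reachable) (fun x => by simp)
    (fun a b _ _ ha hb x => (ha x).trans (mul_assoc x a b ▸ hb (x * a)))
    (fun a _ ha x => by simpa using (ha (x * a⁻¹)).symm) (hg.ge (Subgroup.mem_top g)) x

lemma core (h1 : 1 ∉ S) (hs : ∀ s ∈ S, s⁻¹ ∈ S) (hg : Subgroup.closure (S : Set G) = ⊤)
    (hk : ∀ s ∈ S, 0 ≤ kappa S 1 s) (ω : G → G → ℝ) (c : G → ℝ)
    (ha : ∀ g h k, ω (g * h) k = ω g k + ω h k) (hn : ∀ g h, ω g h = -ω h g)
    (hc : ∀ g h, c (g * h) = c g + c h + ω g h) (g h : G) : ω g h = 0 := by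
  classical
  have o1 : ∀ k, ω 1 k = 0 := fun k => by simpa using ha 1 1 k
  have oi : ∀ g k, ω g⁻¹ k = -ω g k := fun g k => by
    have := ha g⁻¹ g k
    rw [inv_mul_cancel, o1] at this
    linarith
  have ext : ∀ a b, (∀ t ∈ S, ω t a = ω t b) → ∀ g, ω g a = ω g b := fun a b H g =>
    Subgroup.closure_induction (p := fun g _ => ω g a = ω g b) H (by rw [o1, o1])
      (fun x y _ _ hx hy => by rw [ha, ha, hx, hy]) (fun x _ hx => by rw [oi, oi, hx])
      (hg.ge (Subgroup.mem_top g))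
  have o2 : ∀ g, ω g 1 = 0 := fun g => by rw [hn, o1, neg_zero]
  by_contra hne
  obtain ⟨t₀, ht₀, t₁, ht₁, h01⟩ : ∃ a ∈ S, ∃ b ∈ S, ω a b ≠ 0 := by
    by_contra H
    push Not at H
    refine hne ((ext h 1 (fun t ht => ?_) g).trans (o2 g))
    rw [hn t h, hn t 1, ext t 1 (fun a ha => (H a ha t ht).trans (o2 a).symm) h, o2, o1]
  obtain ⟨s₀, hs₀, m₀⟩ := S.exists_max_image (fun a => ∑ t ∈ S, ω a t ^ 2) ⟨t₀, ht₀⟩
  obtain ⟨s, hs', m₁⟩ := (S.filter fun a => ∀ t ∈ S, ω t a = ω t s₀).exists_max_image c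
    ⟨s₀, by simpa using hs₀⟩
  obtain ⟨hS, e₀⟩ := mem_filter.1 hs'
  set N := ∑ t ∈ S, ω s t ^ 2 with hN
  have m : ∀ a ∈ S, ∑ t ∈ S, ω a t ^ 2 ≤ N := fun a h => (m₀ a h).trans_eq
    (sum_congr rfl fun t ht => by rw [hn s₀, hn s, e₀ t ht])
  have N0 : 0 < N := lt_of_lt_of_le (sum_pos' (fun _ _ => sq_nonneg _) ⟨t₁, ht₁, by positivity⟩)
    (m t₀ ht₀)
  let l : G → ℝ := fun g => (∑ t ∈ S, ω g t * ω s t) / N
  have la : ∀ g h, l (g * h) = l g + l h := fun g h => by
    simp only [l, ha, add_mul, sum_add_distrib, add_div]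
  have ls : l s = 1 := by simp only [l, ← sq]; exact div_self N0.ne'
  have sqr : ∀ a ∈ S, ∑ t ∈ S, (ω a t - ω s t) ^ 2 ≤ 2 * N * (1 - l a) := fun a h => by
    have : ∑ t ∈ S, (ω a t - ω s t) ^ 2 = ∑ t ∈ S, ω a t ^ 2 + N - 2 * ∑ t ∈ S, ω a t * ω s t := by
      rw [hN, mul_sum, ← sum_add_distrib, ← sum_sub_distrib]
      exact sum_congr rfl fun _ _ => by ring
    rw [this, mul_sub, mul_assoc 2 N (l a), mul_div_cancel₀ _ N0.ne']
    linarith [m a h]
  have l1 : ∀ a ∈ S, l a ≤ 1 := fun a h => sub_nonneg.1 (nonneg_of_mul_nonneg_right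
    ((sum_nonneg fun _ _ => sq_nonneg _).trans (sqr a h)) (by linarith))
  let F : G → ℝ := fun g => c g - (c s + ω g s) * l g
  have oss : ω s s = 0 := by linarith [hn s s]
  have step : ∀ a ∈ S, l a = 1 → ∀ g, ω (g * a) s = ω g s ∧ F (g * a) ≤ F g := fun a h e g => by
    have e1 : ∀ t ∈ S, ω t a = ω t s := fun t ht => by
      have := (single_le_sum (f := fun t => (ω a t - ω s t) ^ 2) (fun _ _ => sq_nonneg _) ht).trans
        (sqr a h)
      rw [e, sub_self, mul_zero] at this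
      rw [hn t, hn t s, sub_eq_zero.1 (pow_eq_zero_iff two_ne_zero |>.1
        (this.antisymm (sq_nonneg _)))]
    have e2 : ω a s = 0 := by rw [hn, ext a s e1, oss, neg_zero]
    have e3 := m₁ a (mem_filter.2 ⟨h, fun t ht => (e1 t ht).trans (e₀ t ht)⟩)
    refine ⟨by rw [ha, e2, add_zero], ?_⟩
    simp only [F, hc, ha, la, e, e2, ext a s e1]
    linarith
  have walk : ∀ {x y : G} (p : (mulCayley (S : Set G)).Walk x y), l y - l x ≤ p.length ∧
      (l y - l x = p.length → ω y s = ω x s ∧ F y ≤ F x) := by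
    intro x y p
    induction p with
    | nil => simp
    | @cons x z y h p ih =>
      obtain ⟨a, a1, rfl⟩ : ∃ a ∈ S, z = x * a := by
        refine ⟨x⁻¹ * z, ?_, by simp⟩
        rcases ((mulCayley_adj _ _ _).1 h).2 with h | h
        · exact h
        · simpa using hs _ h
      have := l1 a a1
      rw [la] at ih
      simp only [Walk.length_cons, Nat.cast_add, Nat.cast_one]
      refine ⟨by linarith [ih.1], fun e => ?_⟩
      obtain ⟨b1, b2⟩ := ih.2 (by linarith [ih.1])
      obtain ⟨b3, b4⟩ := step a a1 (by linarith [ih.1]) x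
      exact ⟨b1.trans b3, b2.trans b4⟩
  let w : G → ℝ := fun g => max (-ω g s) 0
  have key : ∀ᶠ ε in 𝓝[>] (0:ℝ), ∀ a ∈ S, ∀ b ∈ S,
      l (s * b) + ε * (w b * F b) - (l a + ε * (w a * F a - w a ^ 2)) ≤
        (mulCayley (S : Set G)).dist a (s * b) := by
    refine (eventually_all_finset _).2 fun a _ => (eventually_all_finset _).2 fun b _ => ?_
    obtain ⟨p, hp⟩ := (reach h1 hg a (s * b)).exists_walk_length_eq_dist
    rw [← hp]
    rcases (walk p).1.eq_or_lt with e | e
    · obtain ⟨b1, b2⟩ := (walk p).2 e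
      rw [ha, oss, zero_add] at b1
      have b3 : F (s * b) = F b - 2 * ω b s := by
        simp only [F, hc, ha, la, ls, oss, hn s b]
        ring
      have b4 : w b = w a := by simp only [w, b1]
      have b5 : w a * ω a s = -w a ^ 2 := by
        rcases le_total (ω a s) 0 with h | h <;> simp [w, h, sq]
      have b6 : w a * (F b - 2 * ω a s) ≤ w a * F a :=
        mul_le_mul_of_nonneg_left (by rw [← b1, ← b3]; exact b2) (le_max_right _ _)
      filter_upwards [self_mem_nhdsWithin] with ε hε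
      have : ε * (w a * F b - w a * F a + w a ^ 2) ≤ 0 :=
        mul_nonpos_of_nonneg_of_nonpos (le_of_lt hε) (by nlinarith [sq_nonneg (w a)])
      rw [b4]
      linarith
    · refine eventually_nhdsWithin_of_eventually_nhds (ContinuousAt.eventually_lt
        (by fun_prop) continuousAt_const (by simpa using e) |>.mono fun _ h => h.le)
  obtain ⟨ε, hε, ε0⟩ := (key.and self_mem_nhdsWithin).exists
  have k1 := dual (d := fun a b => ((mulCayley (S : Set G)).dist a b : ℝ)) (A := S.image (1 * ·))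
    (B := S.image (s * ·)) (Nonempty.image ⟨s, hS⟩ _) (Nonempty.image ⟨s, hS⟩ _)
    (fun a => l a + ε * (w a * F a - w a ^ 2)) (fun y => l y + ε * (w (s⁻¹ * y) * F (s⁻¹ * y))) (by
      simpa only [one_mul, image_id', forall_mem_image, inv_mul_cancel_left] using hε)
  have k2 := hk s hS
  have k3 := dist_eq_one_iff_adj.2 (adj h1 1 hS)
  rw [one_mul] at k3
  rw [kappa, k3, Nat.cast_one, div_one, sub_nonneg] at k2
  have k4 := k1.trans (by convert k2)
  have l0 : ∑ a ∈ S, l a = 0 := sum_involution (fun a _ => a⁻¹) (fun a _ => by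
      rw [← la]; simp [l, o1]) (fun a _ h e => h (by
        have := la a a⁻¹
        rw [mul_inv_cancel, e] at this
        simp only [l, o1, zero_mul, sum_const_zero, zero_div] at this ⊢
        linarith)) hs fun _ _ => inv_inv _
  rw [sum_image (mul_right_injective s).injOn, card_image_of_injective _ (mul_right_injective s)]
    at k4
  simp only [one_mul, image_id', inv_mul_cancel_left, la, ls, sum_add_distrib, l0, mul_sub,
    sum_sub_distrib, sum_const, nsmul_eq_mul, mul_one, ← mul_sum] at k4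
  have c0 : (0 : ℝ) < S.card := by simpa using card_pos.2 ⟨s, hS⟩
  rw [← sub_div, div_le_one c0] at k4
  have k5 : ∀ a ∈ S, 0 ≤ ω a s := fun a h => by
    have := (single_le_sum (f := fun a => w a ^ 2) (fun _ _ => sq_nonneg _) h).trans
      (nonpos_of_mul_nonpos_right (show ε * _ ≤ 0 by linarith) ε0)
    have h2 : w a = 0 := pow_eq_zero_iff two_ne_zero |>.1 (this.antisymm (sq_nonneg _))
    linarith [le_max_left (-ω a s) 0]
  refine N0.ne' (sum_eq_zero fun t ht => ?_)
  have := k5 _ (hs t ht)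
  rw [oi] at this
  rw [hn, show ω t s = 0 by linarith [k5 t ht]]
  simp

end Pool.Agent.H30.Oll
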