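import Mathlib

set_option autoImplicit false

namespace Pool.Agent.H30.Plank

open Set Ordinal Filter Topology

abbrev L := Set.Iic (Ordinal.omega.{0} 1)
abbrev R := Set.Iic (Ordinal.omega0.{0})

noncomputable def topL : L := ⟨Ordinal.omega 1, mem_Iic.2 le_rfl⟩
noncomputable def topR : R := ⟨Ordinal.omega0, mem_Iic.2 le_rfl⟩

lemma sep {G H : Set (L × R)} (hG : IsOpen G) (hH : IsOpen H)
    (h1 : ∀ y : R, y ≠ topR → (topL, y) ∈ G) (h2 : ∀ x : L, x ≠ topL → (x, topR) ∈ H) :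
    ∃ z, z ∈ G ∧ z ∈ H := by
  have hn : ∀ n : ℕ, ∃ l : Ordinal.{0}, l < Ordinal.omega 1 ∧ ∀ x : L, l < x.1 →
      (x, (⟨n, mem_Iic.2 (natCast_lt_omega0 n).le⟩ : R)) ∈ G := by
    intro n
    have hc : Continuous (fun x : L => (x, (⟨n, mem_Iic.2 (natCast_lt_omega0 n).le⟩ : R))) := by
      fun_prop
    have ho := hG.preimage hc
    have hm := ho.mem_nhds (x := topL) (h1 _ (fun e => (natCast_lt_omega0 n).ne (congrArg Subtype.val e)))
    obtain ⟨l, hl, hs⟩ := exists_Ioc_subset_of_mem_nhds hm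
      ⟨⟨0, mem_Iic.2 (by simp)⟩, (omega_pos 1 : (0 : Ordinal.{0}) < _)⟩
    exact ⟨l.1, hl, fun x hx => hs ⟨hx, x.2⟩⟩
  choose l hl hG' using hn
  have hs : iSup l < Ordinal.omega 1 := Ordinal.iSup_lt_omega_one hl
  have hs' : Order.succ (iSup l) < Ordinal.omega 1 := (Cardinal.isSuccLimit_omega 1).succ_lt hs
  set a : L := ⟨Order.succ (iSup l), mem_Iic.2 hs'.le⟩ with ha
  have hc : Continuous (fun y : R => (a, y)) := by fun_prop
  have hm := (hH.preimage hc).mem_nhds (x := topR) (h2 a (fun e => hs'.ne (congrArg Subtype.val e)))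
  obtain ⟨m, hm', hs2⟩ := exists_Ioc_subset_of_mem_nhds hm
      ⟨⟨0, mem_Iic.2 (by simp)⟩, (omega0_pos : (0 : Ordinal.{0}) < _)⟩
  obtain ⟨k, hk⟩ := lt_omega0.1 (show m.1 < omega0 from hm')
  refine ⟨(a, ⟨(k + 1 : ℕ), mem_Iic.2 (natCast_lt_omega0 _).le⟩), hG' _ a ?_, hs2 ⟨?_, ?_⟩⟩
  · exact (Ordinal.le_iSup l (k + 1)).trans_lt (Order.lt_succ _)
  · show m.1 < ((k + 1 : ℕ) : Ordinal.{0})
    rw [hk]; exact_mod_cast Nat.lt_succ_self k
  · exact (natCast_lt_omega0 _).le

theorem core : ∃ (A : Set (L × R)) (f : A → Set (L × R)), IsClosed A ∧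
    (∀ a, (f a).Nonempty ∧ IsClosed (f a)) ∧ (∀ U, IsOpen U → IsOpen {a | f a ⊆ U}) ∧
    ¬ ∃ F : L × R → Set (L × R), (∀ x, (F x).Nonempty ∧ IsClosed (F x)) ∧
      (∀ U, IsOpen U → IsOpen {x | F x ⊆ U}) ∧ ∀ a : A, F a = f a := by
  classical
  let p : L × R := (topL, topR)
  let q : L × R := (⟨0, mem_Iic.2 (by simp)⟩, topR)
  have hpq : p ≠ q := fun e => (omega_pos 1).ne' (congrArg (fun z : L × R => z.1.1) e)
  let A : Set (L × R) := {z | z.1 = topL} ∪ {z | z.2 = topR}
  let g : L × R → Set (L × R) := fun z => {w | (w = p ∧ z.1 = topL) ∨ (w = q ∧ z.2 = topR)}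
  have c1 : IsClosed {z : L × R | z.1 = topL} := isClosed_eq continuous_fst continuous_const
  have c2 : IsClosed {z : L × R | z.2 = topR} := isClosed_eq continuous_snd continuous_const
  refine ⟨A, fun a => g a, c1.union c2, fun a => ⟨?_, ?_⟩, fun U _ => ?_, ?_⟩
  · rcases a.2 with h | h
    · exact ⟨p, Or.inl ⟨rfl, h⟩⟩
    · exact ⟨q, Or.inr ⟨rfl, h⟩⟩
  · apply Set.Finite.isClosed
    apply (toFinite ({p, q} : Set (L × R))).subset
    rintro w (h | h)
    · exact Or.inl h.1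
    · exact Or.inr h.1
  · have e : {a : A | g a ⊆ U} = Subtype.val ⁻¹'
        ({z | p ∉ U → z.1 ≠ topL} ∩ {z | q ∉ U → z.2 ≠ topR}) := by
      ext a
      constructor
      · intro h
        exact ⟨fun hp e => hp (h (Or.inl ⟨rfl, e⟩)), fun hq e => hq (h (Or.inr ⟨rfl, e⟩))⟩
      · rintro ⟨h1, h2⟩ w (h | h)
        · by_contra hh
          exact h1 (h.1 ▸ hh) h.2
        · by_contra hh
          exact h2 (h.1 ▸ hh) h.2
    rw [e]
    refine (IsOpen.inter ?_ ?_).preimage continuous_subtype_val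
    · by_cases h : p ∈ U
      · simp [h]
      · simp only [h, not_false_eq_true, forall_const]; exact c1.isOpen_compl
    · by_cases h : q ∈ U
      · simp [h]
      · simp only [h, not_false_eq_true, forall_const]; exact c2.isOpen_compl
  · rintro ⟨F, hF, hu, he⟩
    obtain ⟨U, V, hU, hV, hp, hq, hd⟩ := t2_separation hpq
    obtain ⟨z, h1, h2⟩ := sep (hu U hU) (hu V hV) (fun y hy => by
        have := he ⟨(topL, y), Or.inl rfl⟩
        show F (topL, y) ⊆ U
        rw [show F (topL, y) = g (topL, y) from this]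
        rintro w (h | h)
        · exact h.1 ▸ hp
        · exact absurd h.2 hy) (fun x hx => by
        have := he ⟨(x, topR), Or.inr rfl⟩
        show F (x, topR) ⊆ V
        rw [show F (x, topR) = g (x, topR) from this]
        rintro w (h | h)
        · exact absurd h.2 hx
        · exact h.1 ▸ hq)
    obtain ⟨w, hw⟩ := (hF z).1
    exact disjoint_left.1 hd (h1 hw) (h2 hw)

lemma compactL : CompactSpace L := by
  have : IsCompact (Set.Iic (Ordinal.omega.{0} 1)) := by
    rw [← Set.Icc_bot]; exact isCompact_Icc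
  exact isCompact_iff_compactSpace.1 this

lemma compactR : CompactSpace R := by
  have : IsCompact (Set.Iic (Ordinal.omega0.{0})) := by
    rw [← Set.Icc_bot]; exact isCompact_Icc
  exact isCompact_iff_compactSpace.1 this

end Pool.Agent.H30.Plank
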