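import Mathlib

set_option autoImplicit false

namespace Pool.Agent.H30.Plas

open Set Filter Topology Cardinal TopologicalSpace

abbrev P := ℝ × ℝ

lemma lt_mul {a b : Cardinal.{0}} (ha : a < 𝔠) (hb : b < 𝔠) : a * b < 𝔠 := mul_lt_of_lt aleph0_le_continuum ha hb

lemma line (F : P → P) (hF : Continuous F) (W : Set P) (hW : #W < 𝔠) (h : ∀ x ∉ W, ∃ n : ℤ, F x - n • x ∈ W)
    (l : P →L[ℝ] ℝ) (hl : Function.Surjective l) (e : P) (he : l e = 0) (x : P) : l (F (x + e)) = l (F x) := by
  have d : Dense (l '' W)ᶜ := dense_of_exists_between fun a b ab => by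
    by_contra! k
    refine ((mk_image_le (f := l)).trans_lt hW).not_ge ((mk_Ioo_real ab).ge.trans (mk_le_mk_of_subset fun c hc => ?_))
    exact by_contra fun e => k c e hc
  refine congrFun (Continuous.ext_on (d.preimage (l.isOpenMap hl)) (f := fun x => l (F (x + e)))
    (g := fun x => l (F x)) (by fun_prop) (by fun_prop) fun x hx => ?_) x
  have c : #(range fun t : ℝ => l (F (x + t • e))) < 𝔠 := by
    refine (mk_le_mk_of_subset (t := range fun z : ℤ × W => z.1 • l x + l z.2) ?_).trans_lt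
      (mk_range_le.trans_lt (by simpa using lt_mul aleph0_lt_continuum hW))
    rintro _ ⟨t, rfl⟩
    obtain ⟨n, hn⟩ := h (x + t • e) fun e1 => hx ⟨_, e1, by simp [he]⟩
    exact ⟨(n, ⟨_, hn⟩), by simp only [map_sub, map_zsmul, map_add, map_smul, he, smul_zero, add_zero]; abel⟩
  have p : IsPreconnected (range fun t : ℝ => l (F (x + t • e))) := isPreconnected_range (by fun_prop)
  by_contra k
  rcases lt_or_gt_of_ne k with k | k
  · exact c.not_ge ((mk_Icc_real k).ge.trans (mk_le_mk_of_subset (p.Icc_subset ⟨1, by simp⟩ ⟨0, by simp⟩)))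
  · exact c.not_ge ((mk_Icc_real k).ge.trans (mk_le_mk_of_subset (p.Icc_subset ⟨0, by simp⟩ ⟨1, by simp⟩)))

lemma key (F : P → P) (hF : Continuous F) (W : Set P) (hW : #W < 𝔠) (h : ∀ x ∉ W, ∃ n : ℤ, F x - n • x ∈ W) :
    ∃ (n : ℤ) (g : P), ∀ x, F x = n • x + g := by
  have a1 : ∀ s t, (F (s, t)).1 = (F (s, 0)).1 := fun s t => by
    simpa using line F hF W hW h (.fst ℝ ℝ ℝ) Prod.fst_surjective (0, t) rfl (s, 0)
  have a2 : ∀ s t, (F (s, t)).2 = (F (0, t)).2 := fun s t => by
    simpa using line F hF W hW h (.snd ℝ ℝ ℝ) Prod.snd_surjective (s, 0) rfl (0, t)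
  have a3 : ∀ s t, (F (s + t, 0)).1 - (F (0, t)).2 = (F (s, 0)).1 - (F (0, 0)).2 := fun s t => by
    rw [← a1 _ t, ← a2 (s + t), ← a2 s]
    simpa using line F hF W hW h (.fst ℝ ℝ ℝ - .snd ℝ ℝ ℝ) (fun y => ⟨(y, 0), by simp⟩) (t, t) (by simp) (s, 0)
  let δ : ℝ →+ ℝ := .mk' (fun t => (F (t, 0)).1 - (F (0, 0)).1) fun s t => by
    have := a3 0 t; rw [zero_add] at this; linarith [a3 s t]
  have a4 : ∀ t, (F (t, 0)).1 - (F (0, 0)).1 = t * δ 1 := fun t => by
    have := map_real_smul δ (show Continuous fun t => (F (t, 0)).1 - (F (0, 0)).1 by fun_prop) t 1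
    rw [smul_eq_mul, mul_one] at this
    exact this
  generalize δ 1 = m at a4
  have a5 : ∀ x, F x = m • x + F (0, 0) := fun ⟨s, t⟩ => Prod.ext (by simp; linarith [a1 s t, a4 s]) (by
    have := a3 0 t; rw [zero_add] at this; simp; linarith [a2 s t, a4 t])
  by_contra! k
  have a6 : ∀ n : ℤ, m - n ≠ 0 := fun n e => (k n (F (0, 0))).elim fun x hx => hx (by
    rw [a5 x, sub_eq_zero.1 e, Int.cast_smul_eq_zsmul])
  refine (add_lt_of_lt aleph0_le_continuum hW (mk_range_le.trans_lt (show #(ℤ × W) < 𝔠 by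
    simpa using lt_mul aleph0_lt_continuum hW) : #(range fun z : ℤ × W => (m - z.1)⁻¹ • (z.2.1 - F (0, 0))) < 𝔠)).not_ge
    (le_trans (by simp [mk_real]) ((mk_le_mk_of_subset (s := univ) fun x _ => ?_).trans (mk_union_le _ _)))
  refine or_iff_not_imp_left.2 fun hx => (h x hx).elim fun n hn => ⟨(n, ⟨_, hn⟩), ?_⟩
  show (m - n)⁻¹ • (F x - n • x - F (0, 0)) = x
  rw [a5 x, ← Int.cast_smul_eq_zsmul ℝ, add_sub_right_comm, add_sub_cancel_right, ← sub_smul, inv_smul_smul₀ (a6 n)]

lemma span_lt {s : Set P} (hs : #s < 𝔠) : #(Submodule.span ℚ s) < 𝔠 := by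
  rw [Finsupp.span_eq_range_linearCombination]
  refine (mk_range_le (f := Finsupp.linearCombination ℚ ((↑) : s → P))).trans_lt ?_
  rcases isEmpty_or_nonempty s with e | e
  · simpa using one_lt_aleph0.trans aleph0_lt_continuum
  · simp [hs, aleph0_lt_continuum]

theorem main0 (I : Type) (hI : #I ≤ 𝔠) (φ : I → P → P) (hc : ∀ i, Continuous (φ i))
    (hn : ∀ i, ¬ ∃ (n : ℤ) (g : P), ∀ x, φ i x = n • x + g) :
    ∃ G : AddSubgroup P, Dense (G : Set P) ∧ ∀ i, ¬ MapsTo (φ i) G G := by
  obtain ⟨_, _, hw⟩ := exists_ord_eq_type_lt I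
  let W : ∀ i : I, (∀ j, j < i → P) → Submodule ℚ P := fun i g => Submodule.span ℚ (range (denseSeq P) ∪
    (range (fun j : Iio i => g j j.2) ∪ range fun j : Iio i => φ j (g j j.2)))
  have : ∀ i g, ∃ x ∉ W i g, ∀ n : ℤ, φ i x - n • x ∉ W i g := fun i g => by
    by_contra! k
    have e := (mk_Iio_lt i hw).trans_le hI
    exact hn i (key _ (hc i) (W i g) (span_lt ((mk_union_le _ _).trans_lt (add_lt_of_lt aleph0_le_continuum
      (mk_range_le.trans_lt (by simpa using aleph0_lt_continuum)) ((mk_union_le _ _).trans_lt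
      (add_lt_of_lt aleph0_le_continuum (mk_range_le.trans_lt e) (mk_range_le.trans_lt e)))))) k)
  choose S S1 S2 using this
  obtain ⟨x, e⟩ : ∃ x : I → P, ∀ i, x i = S i fun j _ => x j :=
    ⟨(wellFounded_lt (α := I)).fix S, fun i => WellFounded.fix_eq _ _ _⟩
  let V : I → Submodule ℚ P := fun i => W i fun j _ => x j
  have V1 : ∀ i, x i ∉ V i := fun i => by have := S1 i fun j _ => x j; rwa [← e i] at this
  have V2 : ∀ i (n : ℤ), φ i (x i) - n • x i ∉ V i := fun i => by have := S2 i fun j _ => x j; rwa [← e i] at this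
  have V3 : ∀ i j, j < i → x j ∈ V i ∧ φ j (x j) ∈ V i := fun i j h =>
    ⟨Submodule.subset_span (Or.inr (Or.inl ⟨⟨j, h⟩, rfl⟩)), Submodule.subset_span (Or.inr (Or.inr ⟨⟨j, h⟩, rfl⟩))⟩
  have V4 : ∀ i (T : Set I), (∀ j ∈ T, j < i) → AddSubgroup.closure (range (denseSeq P) ∪ x '' T) ≤ (V i).toAddSubgroup :=
    fun i T h => (AddSubgroup.closure_le _).2 (union_subset (fun _ h => Submodule.subset_span (Or.inl h))
      (image_subset_iff.2 fun j hj => (V3 i j (h j hj)).1))
  clear_value V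
  have K : ∀ i (T : Finset I), φ i (x i) ∉ AddSubgroup.closure (range (denseSeq P) ∪ x '' T) := fun i T => by
    induction T using Finset.induction_on_max with
    | empty => exact fun h => V2 i 0 (by simpa using V4 i ((∅ : Finset I) : Set I) (by simp) h)
    | insert a T ha ih =>
      rw [Finset.coe_insert, image_insert_eq, union_insert, insert_eq, AddSubgroup.closure_union]
      intro h
      obtain ⟨_, u1, u, u2, e1⟩ := AddSubgroup.mem_sup.1 h
      obtain ⟨n, rfl⟩ := AddSubgroup.mem_closure_singleton.1 u1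
      rcases lt_trichotomy a i with c | rfl | c
      · have := (V i).add_mem ((V i).toAddSubgroup.zsmul_mem (V3 i a c).1 n) (V4 i T (fun j hj => (ha j hj).trans c) u2)
        rw [e1] at this
        exact V2 i 0 (by simpa using this)
      · exact V2 a n (by rw [← e1, add_sub_cancel_left]; exact V4 a T ha u2)
      rcases eq_or_ne n 0 with rfl | n0
      · exact ih (by simpa [← e1] using u2)
      have := (V a).sub_mem (V3 a i c).2 (V4 a T ha u2)
      rw [← e1, add_sub_cancel_right, ← Int.cast_smul_eq_zsmul ℚ] at this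
      exact V1 a (((V a).smul_mem_iff (Int.cast_ne_zero.2 n0)).1 this)
  refine ⟨AddSubgroup.closure (range (denseSeq P) ∪ range x), (denseRange_denseSeq P).mono
    (subset_union_left.trans AddSubgroup.subset_closure), fun i h => ?_⟩
  have H : ∀ v ∈ AddSubgroup.closure (range (denseSeq P) ∪ range x),
      ∃ T : Finset I, v ∈ AddSubgroup.closure (range (denseSeq P) ∪ x '' T) := fun v hv => by
    classical
    have m : ∀ S T : Finset I, S ⊆ T → AddSubgroup.closure (range (denseSeq P) ∪ x '' S) ≤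
      AddSubgroup.closure (range (denseSeq P) ∪ x '' T) := fun S T h =>
        AddSubgroup.closure_mono (union_subset_union_right _ (image_mono h))
    induction hv using AddSubgroup.closure_induction with
    | mem v hv =>
      rcases hv with hv | ⟨i, rfl⟩
      exacts [⟨∅, AddSubgroup.subset_closure (Or.inl hv)⟩, ⟨{i}, AddSubgroup.subset_closure (Or.inr (by simp))⟩]
    | zero => exact ⟨∅, zero_mem _⟩
    | add u v _ _ hu hv =>
      obtain ⟨S, hS⟩ := hu
      obtain ⟨T, hT⟩ := hv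
      exact ⟨S ∪ T, add_mem (m _ _ Finset.subset_union_left hS) (m _ _ Finset.subset_union_right hT)⟩
    | neg u _ hu => exact hu.imp fun _ => neg_mem
  obtain ⟨T, hT⟩ := H _ (h (AddSubgroup.subset_closure (Or.inr ⟨i, rfl⟩)))
  exact K _ T hT

theorem main : ∃ G : AddSubgroup P, Dense (G : Set P) ∧ ∀ F : P → P, Continuous F → MapsTo F G G →
    ∃ (n : ℤ) (g : P), ∀ x, F x = n • x + g := by
  obtain ⟨G, g1, g2⟩ := main0 {F : C(P, P) // ¬ ∃ (n : ℤ) (g : P), ∀ x, F x = n • x + g}
    ((mk_le_of_injective (f := fun F n => F.1 (denseSeq P n)) fun F G e =>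
    Subtype.ext (ContinuousMap.ext (congrFun (Continuous.ext_on (denseRange_denseSeq P) F.1.2 G.1.2
      (forall_mem_range.2 (congrFun e)))))).trans (by simp [mk_real])) (fun F => F.1) (fun F => F.1.2) fun F => F.2
  exact ⟨G, g1, fun F hF h => by_contra fun k => g2 ⟨⟨F, hF⟩, k⟩ h⟩

end Pool.Agent.H30.Plas
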