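import Pool.Agent.H30.TauG
import Pool.Agent.H30.MtC

set_option autoImplicit false

namespace Pool.Agent.H30.Tau

open Set Filter Topology Function Pool.Agent.H30.Mt
open Cardinal hiding univ

variable {Z Z' : Type} [TopologicalSpace Z] [TopologicalSpace Z']

/-- The polarized partition relation for open `ω`-covers, for every number of colours. -/
def Pol (Z : Type) [TopologicalSpace Z] : Prop :=
  ∀ (k : ℕ) (𝒰 𝒲 : Set (Set Z)), Om 𝒰 → Om 𝒲 → ∀ f : Set Z → Set Z → Fin k,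
    ∃ 𝒰' ⊆ 𝒰, ∃ 𝒲' ⊆ 𝒲, Om 𝒰' ∧ Om 𝒲' ∧ (image2 f 𝒰' 𝒲').ncard < 3

lemma Pol.tr (h : Z ≃ₜ Z') (h1 : Pol Z) : Pol Z' := fun k 𝒰 𝒲 h2 h3 f => by
  obtain ⟨𝒰', e1, 𝒲', e2, e3, e4, e5⟩ := h1 k _ _ (nt_om _ _ h 𝒰 h2) (nt_om _ _ h 𝒲 h3)
    fun U W => f (h.symm ⁻¹' U) (h.symm ⁻¹' W)
  exact ⟨_, im_sub h e1, _, im_sub h e2, nt_om _ _ h.symm _ e3, nt_om _ _ h.symm _ e4, by
    rwa [image2_image_left, image2_image_right]⟩

lemma lt_d {ι : Type} (h : #ι < dNum) (ψ : ι → ℕ → ℕ) :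
    ∃ g : ℕ → ℕ, StrictMono g ∧ ∀ i, {n | ψ i (g n) ≤ g (n + 1)}.Infinite := by
  let env : (ℕ → ℕ) → ℕ → ℕ := fun f k => (Finset.range (k + 1)).sup f
  have e1 : ∀ f, Monotone (env f) := fun f a b h => Finset.sup_mono (Finset.range_mono (by omega))
  have e2 : ∀ f k, f k ≤ env f k := fun f k => Finset.le_sup (Finset.self_mem_range_succ k)
  clear_value env
  obtain ⟨G, hG⟩ : ∃ G : ℕ → ℕ, ∀ i, ¬ ∀ᶠ n in atTop, G n ≤ env (ψ i) (env (ψ i) n) := by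
    by_contra hc
    simp only [not_exists, not_forall, not_not] at hc
    exact h.not_ge (le_trans (b := #(range fun i n => env (ψ i) (env (ψ i) n))) (csInf_le'
      ⟨range fun i n => env (ψ i) (env (ψ i) n), fun g => (hc g).elim fun i hi => ⟨_, ⟨i, rfl⟩, hi⟩, rfl⟩)
      mk_range_le)
  let g : ℕ → ℕ := fun n => Nat.rec 0 (fun _ q => env G q + q + 1) n
  have g1 : ∀ n, g (n + 1) = env G (g n) + g n + 1 := fun _ => rfl
  have g0 : g 0 = 0 := rfl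
  clear_value g
  have g2 : StrictMono g := strictMono_nat_of_lt_succ fun n => by rw [g1]; omega
  refine ⟨g, g2, fun i hf => hG i ?_⟩
  obtain ⟨M, hM⟩ := hf.bddAbove
  refine (eventually_ge_atTop (g (M + 1))).mono fun k hk => not_lt.1 fun h1 => ?_
  have h2 : ∃ n, k < g (n + 1) := ⟨k, k.lt_succ_self.trans_le g2.le_apply⟩
  obtain ⟨n, h3, h4⟩ : ∃ n, k < g (n + 1) ∧ g n ≤ k := ⟨Nat.find h2, Nat.find_spec h2, by
    rcases e : Nat.find h2 with _ | n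
    exacts [g0.trans_le k.zero_le, not_lt.1 (Nat.find_min h2 (e ▸ n.lt_succ_self))]⟩
  have h5 := g2.lt_iff_lt.1 (hk.trans_lt h3)
  have h6 : g (n + 1) < ψ i (g n) := not_le.1 fun e => by have := hM e; omega
  have h7 : g (n + 1 + 1) < ψ i (g (n + 1)) := not_le.1 fun e => by have := hM e; omega
  have h8 := (e2 _ _).trans (e1 (ψ i) ((h6.le.trans (e2 _ _)).trans (e1 (ψ i) h4)))
  have h9 := (e2 G k).trans (e1 G h3.le)
  rw [g1] at h7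
  omega

lemma uf_of {ι : Type} [Nonempty ι] {S : ι → Set ℕ} (h1 : ∀ i, (S i).Nonempty)
    (h2 : Directed (· ⊇ ·) S) : ∃ 𝒰 : Ultrafilter ℕ, ∀ i, S i ∈ 𝒰 :=
  have : (⨅ i, 𝓟 (S i)).NeBot := iInf_neBot_of_directed' (fun i j => let ⟨k, h3, h4⟩ := h2 i j
    ⟨k, principal_mono.2 h3, principal_mono.2 h4⟩) fun i => principal_neBot_iff.2 (h1 i)
  ⟨Ultrafilter.of (⨅ i, 𝓟 (S i)), fun i => Ultrafilter.of_le _ (mem_iInf_of_mem i (mem_principal_self _))⟩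

lemma lt_u {ι : Type} [Nonempty ι] (h : #ι < uNum) {S : ι → Set ℕ} (h1 : ∀ i, (S i).Infinite)
    (h2 : Directed (· ⊇ ·) S) : ∃ B : Set ℕ, ∀ i, (S i ∩ B).Nonempty ∧ (S i ∩ Bᶜ).Nonempty := by
  by_contra hc
  simp only [not_exists, not_forall, not_and_or, not_nonempty_iff_eq_empty] at hc
  obtain ⟨𝒰, h3⟩ := uf_of (fun i => (h1 i).nonempty) h2
  have h4 : ∀ a ∈ 𝒰, ∃ b ∈ range S, b ⊆ a := fun a ha => let ⟨i, hi⟩ := hc a
    ⟨_, ⟨i, rfl⟩, hi.elim (fun e => absurd (e ▸ inter_mem (h3 i) ha) 𝒰.empty_notMem)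
      fun e x hx => by_contra fun e' => e.subset ⟨hx, e'⟩⟩
  exact h.not_ge (le_trans (b := #(range S)) (csInf_le' ⟨𝒰, _, fun a ha => let ⟨_, ⟨i, e⟩, e'⟩ := h4 a ha
    (e ▸ h1 i).mono e', forall_mem_range.2 h3, h4, rfl⟩) mk_range_le)

lemma uf_lim {α C : Type} [Finite C] (q : Ultrafilter α) (d : α → C) : ∃ i, ∀ᶠ a in q, d a = i :=
  let ⟨i, hi⟩ := (q.map d).eq_pure_of_finite
  ⟨i, show {i} ∈ q.map d from hi ▸ Ultrafilter.mem_pure.2 rfl⟩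

lemma dir_fin (V : ℕ → Set Z) : Directed (· ⊇ ·) fun F : Finset Z => {n | ↑F ⊆ V n} := by
  classical
  exact fun F G => ⟨F ∪ G, fun n hn => (Finset.coe_subset.2 Finset.subset_union_left).trans hn,
    fun n hn => (Finset.coe_subset.2 Finset.subset_union_right).trans hn⟩

theorem pol_of [SecondCountableTopology Z] (H : Infinite Z → ∀ (U W : ℕ → Set Z) (R T : ℕ → Set ℕ),
    (∀ a, IsOpen (U a)) → (∀ a, IsOpen (W a)) → (∀ (F : Finset Z) m, ∃ a, ↑F ⊆ U a ∧ a ∈ R m) →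
    (∀ (F : Finset Z) m, ∃ a, ↑F ⊆ W a ∧ a ∈ T m) → ∃ N : ℕ → ℕ, StrictMono N ∧ ∃ B : Set ℕ,
    ∀ F : Finset Z, (∃ n ∈ B, ∃ a < N (n + 1), a ∈ R (N n) ∧ (F : Set Z) ⊆ U a) ∧
      ∃ n ∈ Bᶜ, ∃ a < N (n + 1), a ∈ T (N n) ∧ (F : Set Z) ⊆ W a) : Pol Z := by
  classical
  intro k 𝒰 𝒲 h1 h2 f
  have : Infinite Z := not_finite_iff_infinite.1 fun _ =>
    let ⟨_, e1, e2⟩ := h1.2 univ (toFinite _); h1.1.2.1 (univ_subset_iff.1 e2 ▸ e1)
  obtain ⟨U, U1, U2⟩ := cnt_om h1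
  obtain ⟨W, W1, W2⟩ := cnt_om h2
  obtain ⟨p, hp⟩ := uf_of (fun F : Finset Z => U2 _ F.finite_toSet) (dir_fin U)
  obtain ⟨q, hq⟩ := uf_of (fun F : Finset Z => W2 _ F.finite_toSet) (dir_fin W)
  choose g hg using fun a => uf_lim q fun b => f (U a) (W b)
  choose h hh using fun b => uf_lim p fun a => f (U a) (W b)
  obtain ⟨i, hi⟩ := uf_lim p g
  obtain ⟨j, hj⟩ := uf_lim q h
  let R : ℕ → Set ℕ := fun m => {a | g a = i ∧ ∀ b ∈ Iio m, f (U a) (W b) = h b}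
  let T : ℕ → Set ℕ := fun m => {b | h b = j ∧ ∀ a ∈ Iio m, f (U a) (W b) = g a}
  obtain ⟨N, N1, B, hB⟩ := H this U W R T (fun a => h1.1.1 _ (U1 a)) (fun a => h2.1.1 _ (W1 a))
    (fun F m => (Eventually.and (hp F) (hi.and
      ((eventually_all_finite (finite_Iio m)).2 fun b _ => hh b))).exists)
    fun F m => (Eventually.and (hq F) (hj.and
      ((eventually_all_finite (finite_Iio m)).2 fun a _ => hg a))).exists
  have s1 : U '' {a | ∃ n ∈ B, a < N (n + 1) ∧ a ∈ R (N n)} ⊆ 𝒰 := image_subset_iff.2 fun a _ => U1 a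
  have s2 : W '' {a | ∃ n ∈ Bᶜ, a < N (n + 1) ∧ a ∈ T (N n)} ⊆ 𝒲 := image_subset_iff.2 fun a _ => W1 a
  refine ⟨_, s1, _, s2, om_of (fun V hV => h1.1.1 V (s1 hV)) (fun e => h1.1.2.1 (s1 e)) fun F hF => ?_,
    om_of (fun V hV => h2.1.1 V (s2 hV)) (fun e => h2.1.2.1 (s2 e)) fun F hF => ?_,
    (ncard_le_ncard (t := {i, j}) ?_ (toFinite _)).trans_lt
      ((ncard_insert_le _ _).trans_lt (by simp))⟩
  · obtain ⟨n, e4, a, e1, e2, e3⟩ := (hB hF.toFinset).1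
    exact ⟨_, ⟨a, ⟨n, e4, e1, e2⟩, rfl⟩, by simpa using e3⟩
  · obtain ⟨n, e4, a, e1, e2, e3⟩ := (hB hF.toFinset).2
    exact ⟨_, ⟨a, ⟨n, e4, e1, e2⟩, rfl⟩, by simpa using e3⟩
  rintro _ ⟨_, ⟨a, ⟨n, e1, e2, e3⟩, rfl⟩, _, ⟨b, ⟨m, e4, e5, e6⟩, rfl⟩, rfl⟩
  rcases lt_or_gt_of_ne (show n ≠ m from fun e => e4 (e ▸ e1)) with e | e
  · exact Or.inl ((e6.2 a (e2.trans_le (N1.monotone e))).trans e3.1)
  · exact Or.inr ((e3.2 b (e5.trans_le (N1.monotone e))).trans e6.1)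

theorem pol_of_lt [SecondCountableTopology Z] (hd : #Z < dNum) (hu : #Z < uNum) : Pol Z := by
  classical
  refine pol_of fun _ U W R T _ _ hR hT => ?_
  choose r r1 r2 using hR
  choose t t1 t2 using hT
  obtain ⟨N, N1, N2⟩ := lt_d ((mk_finset_of_infinite Z).trans_lt hd) fun F m => r F m + t F m + 1
  obtain ⟨B, hB⟩ := lt_u ((mk_finset_of_infinite Z).trans_lt hu) (S := fun F : Finset Z =>
    {n | (∃ a < N (n + 1), a ∈ R (N n) ∧ (F : Set Z) ⊆ U a) ∧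
      ∃ b < N (n + 1), b ∈ T (N n) ∧ (F : Set Z) ⊆ W b})
    (fun F => (N2 F).mono fun n (hn : r F (N n) + t F (N n) + 1 ≤ N (n + 1)) =>
      ⟨⟨r F (N n), by omega, r2 _ _, r1 _ _⟩, t F (N n), by omega, t2 _ _, t1 _ _⟩)
    fun F G => ⟨F ∪ G, fun n ⟨⟨a, e1, e2, e3⟩, b, e4, e5, e6⟩ =>
      ⟨⟨a, e1, e2, (Finset.coe_subset.2 Finset.subset_union_left).trans e3⟩, b, e4, e5,
        (Finset.coe_subset.2 Finset.subset_union_left).trans e6⟩, fun n ⟨⟨a, e1, e2, e3⟩, b, e4, e5, e6⟩ =>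
      ⟨⟨a, e1, e2, (Finset.coe_subset.2 Finset.subset_union_right).trans e3⟩, b, e4, e5,
        (Finset.coe_subset.2 Finset.subset_union_right).trans e6⟩⟩
  exact ⟨N, N1, B, fun F => ⟨let ⟨n, e, e'⟩ := (hB F).1; ⟨n, e', e.1⟩,
    let ⟨n, e, e'⟩ := (hB F).2; ⟨n, e', e.2⟩⟩⟩

lemma cpt_bd [CompactSpace Z] {U : ℕ → Set Z} (hU : ∀ a, IsOpen (U a)) {R : Set ℕ}
    (h : ∀ F : Finset Z, ∃ a, ↑F ⊆ U a ∧ a ∈ R) (m : ℕ) :
    ∃ M, ∀ x : Fin m → Z, ∃ a < M, a ∈ R ∧ range x ⊆ U a := by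
  classical
  obtain ⟨t, ht⟩ := isCompact_univ.elim_finite_subcover (fun a : R => univ.pi fun _ : Fin m => U a)
    (fun a => isOpen_set_pi finite_univ fun _ _ => hU a) fun x _ =>
      let ⟨a, e1, e2⟩ := h (Finset.univ.image x)
      mem_iUnion.2 ⟨⟨a, e2⟩, fun i _ => e1 (by simp)⟩
  refine ⟨t.sup Subtype.val + 1, fun x => ?_⟩
  obtain ⟨a, e1, e2⟩ := mem_iUnion₂.1 (ht (mem_univ x))
  exact ⟨a, Nat.lt_succ_of_le (Finset.le_sup e1), a.2, range_subset_iff.2 fun i => e2 i trivial⟩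

theorem pol_cpt [SecondCountableTopology Z] [CompactSpace Z] : Pol Z := by
  refine pol_of fun _ U W R T hU hW hR hT => ?_
  choose r hr using fun m => cpt_bd hU (fun F => hR F m) m
  choose t ht using fun m => cpt_bd hW (fun F => hT F m) m
  let N : ℕ → ℕ := fun n => Nat.rec 0 (fun _ q => r q + t q + q + 1) n
  have N1 : ∀ n, N (n + 1) = r (N n) + t (N n) + N n + 1 := fun _ => rfl
  clear_value N
  have N2 : StrictMono N := strictMono_nat_of_lt_succ fun n => by rw [N1]; omega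
  have H : ∀ (F : Finset Z) n, F.card ≤ n → ∃ x : Fin (N n) → Z, ↑F ⊆ range x := fun F n hn => by
    obtain ⟨e⟩ : Nonempty (F ↪ Fin (N n)) := Function.Embedding.nonempty_of_card_le
      (by simpa using hn.trans N2.le_apply)
    exact ⟨extend e Subtype.val fun _ => Classical.arbitrary Z, fun y hy =>
      ⟨e ⟨y, hy⟩, e.injective.extend_apply _ _ _⟩⟩
  refine ⟨N, N2, {n | Even n}, fun F => ⟨?_, ?_⟩⟩
  · obtain ⟨x, hx⟩ := H F (2 * F.card) (by omega)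
    obtain ⟨a, e1, e2, e3⟩ := hr _ x
    exact ⟨_, even_two_mul F.card, a, by rw [N1]; omega, e2, hx.trans e3⟩
  · obtain ⟨x, hx⟩ := H F (2 * F.card + 1) (by omega)
    obtain ⟨a, e1, e2, e3⟩ := ht _ x
    exact ⟨2 * F.card + 1, by simp, a, by rw [N1]; omega, e2, hx.trans e3⟩

lemma Pol.three (h : Pol Z) {U : ℕ → Set Z} (h1 : Om (range U)) (c : ℕ → ℕ → Fin 3) :
    ∃ A B : Set ℕ, Om (U '' A) ∧ Om (U '' B) ∧ ∃ i, ∀ a ∈ A, ∀ b ∈ B, c a b ≠ i := by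
  let e := invFun U
  obtain ⟨𝒰, e1, 𝒲, e2, e3, e4, e5⟩ := h 3 _ _ h1 h1 fun V W => c (e V) (e W)
  have H : ∀ 𝒱 ⊆ range U, U '' (e '' 𝒱) = 𝒱 := fun 𝒱 h => by
    rw [image_image, image_congr fun V hV => invFun_eq (h hV), image_id']
  refine ⟨e '' 𝒰, e '' 𝒲, by rwa [H _ e1], by rwa [H _ e2], by_contra fun hc => e5.not_ge ?_⟩
  simp only [not_exists, not_forall, not_not] at hc
  rw [eq_univ_of_forall (s := image2 _ 𝒰 𝒲) fun i => let ⟨_, ⟨V, h2, e6⟩, _, ⟨W, h3, e7⟩, h4⟩ := hc i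
    ⟨V, h2, W, h3, by rw [← h4, ← e6, ← e7]⟩]
  simp [ncard_univ]

lemma Om.far {U : ℕ → Set Z} {A : Set ℕ} (h : Om (U '' A)) {F : Set Z} (hF : F.Finite) {E : Set ℕ}
    (hE : E.Finite) : ∃ a ∈ A, a ∉ E ∧ F ⊆ U a :=
  let ⟨_, ⟨a, h1, e⟩, h2, h3⟩ := h.diff (hE.image U) hF; ⟨a, h1, fun h => h2 ⟨a, h, e⟩, e ▸ h3⟩

lemma not_pol_u : ∃ X : Set (ℕ → ℕ), #X ≤ uNum ∧ ¬ Pol X := by
  classical
  obtain ⟨𝒰, B, h1, h2, h3, h4⟩ : uNum ∈ _ := csInf_mem ⟨_, hyperfilter ℕ, {a | a ∈ hyperfilter ℕ},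
    fun _ ha hf => hf.notMem_hyperfilter ha, fun _ h => h, fun a ha => ⟨a, ha, Subset.rfl⟩, rfl⟩
  have h5 : ∀ n, ∃ b ∈ B, n ∉ b := fun n => let ⟨b, e1, e2⟩ := h3 {n}ᶜ (Ultrafilter.compl_mem_iff_notMem.2
    fun h => h1 _ h (finite_singleton n)); ⟨b, e1, fun h => e2 h rfl⟩
  let X := (fun b : Set ℕ => b.indicator (1 : ℕ → ℕ)) '' B
  refine ⟨X, mk_image_le.trans_eq h4, fun h => ?_⟩
  have H : ∀ A : Set ℕ, Om ((fun n => {x : X | x.1 n = 1}) '' A) → A ∈ 𝒰 := fun A hA => by_contra fun hc => by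
    obtain ⟨b, e1, e2⟩ := h3 _ (Ultrafilter.compl_mem_iff_notMem.2 hc)
    obtain ⟨_, ⟨a, e3, rfl⟩, e4⟩ := hA.2 {⟨_, b, e1, rfl⟩} (finite_singleton _)
    exact e2 (by simpa [indicator] using e4 rfl) e3
  obtain ⟨A, A', e1, e2, i, hi⟩ := h.three (U := fun n => {x | x.1 n = 1}) (om_of (forall_mem_range.2 fun n =>
      IsOpen.preimage (f := fun x : X => x.1 n) ((continuous_apply n).comp continuous_subtype_val)
        (isOpen_discrete {1})) (fun ⟨n, e⟩ => let ⟨b, e1, e2⟩ := h5 n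
      by simpa [e2] using e.symm.subset (mem_univ ⟨_, b, e1, rfl⟩)) fun F hF => by
      choose b b1 b2 using fun x : X => x.2
      obtain ⟨n, hn⟩ := Ultrafilter.nonempty_of_mem ((biInter_mem hF).2 fun x _ => h2 _ (b1 x))
      exact ⟨_, ⟨n, rfl⟩, fun x hx => by simp [← b2 x, mem_iInter₂.1 hn x hx]⟩)
    fun a b => if a < b then 0 else if b < a then 1 else 2
  obtain ⟨a, a1, a2⟩ := Ultrafilter.nonempty_of_mem (inter_mem (H A e1) (H A' e2))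
  obtain ⟨b, b1, b2⟩ := (h1 _ (H A e1)).exists_gt a
  obtain ⟨c, c1, c2⟩ := (h1 _ (H A' e2)).exists_gt a
  have := hi a a1 a a2
  have := hi a a1 c c1
  have := hi b b1 a a2
  fin_cases i <;> simp_all [b2.not_gt]

lemma not_pol_d : ∃ X : Set (ℕ → ℕ), #X ≤ dNum ∧ ¬ Pol X := by
  obtain ⟨D, h1, h2⟩ := exists_dom
  refine ⟨D, h2.le, fun h => ?_⟩
  have := (not_menger h1).1.to_subtype
  let z := Infinite.natEmbedding D
  let U : ℕ → Set D := fun p => {x | x.1 p.unpair.1 ≤ p.unpair.2} \ {z p.unpair.1}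
  obtain ⟨A, A', e1, e2, i, hi⟩ := h.three (U := U) (om_of (forall_mem_range.2 fun n =>
      (IsOpen.preimage (f := fun x : D => x.1 n.unpair.1) ((continuous_apply _).comp continuous_subtype_val)
        (isOpen_discrete (Iic _))).sdiff isClosed_singleton)
      (fun ⟨n, e⟩ => (e.symm.subset (mem_univ (z n.unpair.1))).2 rfl) fun F hF => by
      obtain ⟨n, hn⟩ := (hF.preimage z.injective.injOn).infinite_compl.nonempty
      obtain ⟨m, hm⟩ := (hF.image fun x => x.1 n).bddAbove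
      exact ⟨_, ⟨Nat.pair n m, rfl⟩, fun x hx => ⟨by simpa using hm ⟨x, hx, rfl⟩,
        fun e => hn (show z n ∈ F from (show x = z n by simpa using e) ▸ hx)⟩⟩)
    fun a b => if a < b.unpair.1 then 0 else if b < a.unpair.1 then 1 else 2
  have H : ∀ A : Set ℕ, Om (U '' A) → ∀ (x : D) n, ∃ a ∈ A, n < a.unpair.1 ∧ x ∈ U a := fun A hA x n =>
    let ⟨a, a1, _, a2⟩ := hA.far (((finite_Iic n).image z).insert x) finite_empty
    ⟨a, a1, not_le.1 fun e => (a2 (Or.inr ⟨_, e, rfl⟩)).2 rfl, a2 (Or.inl rfl)⟩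
  obtain ⟨a, a1, -⟩ := H A e1 (z 0) 0
  obtain ⟨b, b1, b2, -⟩ := H A' e2 (z 0) a
  obtain ⟨c, c1, c2, -⟩ := H A e1 (z 0) b
  have e3 := hi a a1 b b1
  have e4 := hi c c1 b b1
  rw [if_pos b2] at e3
  rw [if_neg (by have := Nat.unpair_left_le b; have := Nat.unpair_left_le c; omega), if_pos c2] at e4
  obtain rfl : i = 2 := by fin_cases i <;> simp_all
  choose β β1 β2 _ using H A' e2 (z 0)
  obtain ⟨f, f1, f2⟩ := h1 β
  obtain ⟨N, hN⟩ := eventually_atTop.1 f2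
  obtain ⟨d, d1, d2, d3⟩ := H A e1 ⟨f, f1⟩ N
  have e5 := hi d d1 _ (β1 d.unpair.1)
  have e6 := (hN _ d2.le).trans d3.1
  have := Nat.unpair_right_le d
  have := Nat.unpair_left_le (β d.unpair.1)
  have := β2 d.unpair.1
  exact e5 (by rw [if_neg (by omega), if_neg (by omega)])

end Pool.Agent.H30.Tau
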