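import Mathlib

set_option autoImplicit false

namespace Pool.Agent.H30.Ponag

open Set Filter Topology Cardinal

abbrev T := Set (Set ℕ)

inductive Y
  | a (n : ℕ)
  | b (f : ℕ → ℕ)
  | i (n : ℕ) (f : ℕ → ℕ) (t : T)

def Small (S : Set T) : Prop := #S ≤ 𝔠

lemma Small.union {S S' : Set T} (h : Small S) (h' : Small S') : Small (S ∪ S') :=
  (mk_union_le _ _).trans ((add_le_add h h').trans (by simp))

lemma Small.mono {S S' : Set T} (h : Small S') (h' : S ⊆ S') : Small S :=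
  (mk_le_mk_of_subset h').trans h

lemma Small.ex {S : Set T} (h : Small S) : ∃ t, t ∉ S := by
  by_contra hh
  push Not at hh
  rw [Small, eq_univ_of_forall hh] at h
  simp only [mk_univ, mk_set, mk_nat, two_power_aleph0] at h
  exact absurd h (not_le.2 (cantor _))

lemma small0 : Small ∅ := by simp [Small]

instance : TopologicalSpace Y where
  IsOpen U := (∀ n, Y.a n ∈ U → ∃ k S, Small S ∧ ∀ f t, k ≤ f n → t ∉ S → Y.i n f t ∈ U) ∧
    ∀ f, Y.b f ∈ U → ∃ m S, Small S ∧ ∀ n t, m ≤ n → t ∉ S → Y.i n f t ∈ U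
  isOpen_univ := ⟨fun _ _ => ⟨0, ∅, small0, by simp⟩, fun _ _ => ⟨0, ∅, small0, by simp⟩⟩
  isOpen_inter := fun s t hs ht => ⟨fun n h => by
    obtain ⟨k, S, a, b⟩ := hs.1 n h.1
    obtain ⟨k', S', a', b'⟩ := ht.1 n h.2
    exact ⟨max k k', S ∪ S', a.union a', fun f t h1 h2 => ⟨b f t (by omega) fun h => h2 (Or.inl h),
      b' f t (by omega) fun h => h2 (Or.inr h)⟩⟩, fun n h => by
    obtain ⟨k, S, a, b⟩ := hs.2 n h.1
    obtain ⟨k', S', a', b'⟩ := ht.2 n h.2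
    exact ⟨max k k', S ∪ S', a.union a', fun f t h1 h2 => ⟨b f t (by omega) fun h => h2 (Or.inl h),
      b' f t (by omega) fun h => h2 (Or.inr h)⟩⟩⟩
  isOpen_sUnion := fun S hS => ⟨fun n ⟨W, hW, h⟩ => ((hS W hW).1 n h).imp fun _ h => h.imp
    fun _ h => ⟨h.1, fun f t a b => ⟨W, hW, h.2 f t a b⟩⟩, fun n ⟨W, hW, h⟩ => ((hS W hW).2 n h).imp
    fun _ h => h.imp fun _ h => ⟨h.1, fun f t a b => ⟨W, hW, h.2 f t a b⟩⟩⟩

lemma clopen_a (n k : ℕ) {S : Set T} (hS : Small S) :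
    IsClopen {y | y = Y.a n ∨ ∃ f t, k ≤ f n ∧ t ∉ S ∧ y = Y.i n f t} := by
  refine ⟨⟨⟨fun m hm => ⟨0, ∅, small0, ?_⟩, fun f _ => ⟨n + 1, ∅, small0, ?_⟩⟩⟩,
    ⟨fun m hm => ?_, by simp⟩⟩
  · rintro f t - - (h | ⟨f', t', -, -, h⟩)
    · cases h
    · cases h; simp at hm
  · rintro m t hm - (h | ⟨f', t', -, -, h⟩)
    · cases h
    · cases h; omega
  · have : m = n := by simpa using hm
    subst this
    exact ⟨k, S, hS, fun f t a b => Or.inr ⟨f, t, a, b, rfl⟩⟩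

lemma clopen_b (f : ℕ → ℕ) (m : ℕ) {S : Set T} (hS : Small S) :
    IsClopen {y | y = Y.b f ∨ ∃ n t, m ≤ n ∧ t ∉ S ∧ y = Y.i n f t} := by
  refine ⟨⟨⟨fun n _ => ⟨f n + 1, ∅, small0, ?_⟩, fun g hg => ⟨0, ∅, small0, ?_⟩⟩⟩,
    ⟨by simp, fun g hg => ?_⟩⟩
  · rintro g t hm - (h | ⟨f', t', -, -, h⟩)
    · cases h
    · cases h; omega
  · rintro n t - - (h | ⟨f', t', -, -, h⟩)
    · cases h
    · cases h; simp at hg
  · have : g = f := by simpa using hg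
    subst this
    exact ⟨m, S, hS, fun f t a b => Or.inr ⟨f, t, a, b, rfl⟩⟩

lemma small_closed {D : Set Y} (hD : #D ≤ 𝔠) : IsClosed D := by
  let p : Y → T := fun y => match y with
    | Y.i _ _ t => t
    | _ => ∅
  have : Small (p '' D) := mk_image_le.trans hD
  exact ⟨⟨fun _ _ => ⟨0, _, this, fun f t _ h h' => h ⟨_, h', rfl⟩⟩,
    fun _ _ => ⟨0, _, this, fun f t _ h h' => h ⟨_, h', rfl⟩⟩⟩⟩

lemma open_i (n : ℕ) (f : ℕ → ℕ) (t : T) : IsOpen {Y.i n f t} := ⟨by simp, by simp⟩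

instance : T1Space Y := ⟨fun y => small_closed ((countable_singleton y).le_aleph0.trans aleph0_le_continuum)⟩

lemma base {U : Set Y} (hU : IsOpen U) {y : Y} (hy : y ∈ U) : ∃ C, IsClopen C ∧ y ∈ C ∧ C ⊆ U := by
  cases y with
  | a n =>
    obtain ⟨k, S, h1, h2⟩ := hU.1 n hy
    refine ⟨_, clopen_a n k h1, Or.inl rfl, ?_⟩
    rintro _ (rfl | ⟨f, t, a, b, rfl⟩)
    exacts [hy, h2 f t a b]
  | b f =>
    obtain ⟨k, S, h1, h2⟩ := hU.2 f hy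
    refine ⟨_, clopen_b f k h1, Or.inl rfl, ?_⟩
    rintro _ (rfl | ⟨f, t, a, b, rfl⟩)
    exacts [hy, h2 f t a b]
  | i n f t => exact ⟨_, ⟨isClosed_singleton, open_i n f t⟩, rfl, singleton_subset_iff.2 hy⟩

instance : RegularSpace Y := RegularSpace.of_exists_mem_nhds_isClosed_subset fun y s hs => by
  obtain ⟨U, h1, h2, h3⟩ := mem_nhds_iff.1 hs
  obtain ⟨C, a, b, c⟩ := base h2 h3
  exact ⟨C, a.isOpen.mem_nhds b, a.isClosed, c.trans h1⟩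

instance : T3Space Y := ⟨⟩

instance : Infinite Y := Infinite.of_injective Y.a fun _ _ h => by cases h; rfl

lemma not_tp : ∃ B : Set (Set Y), TopologicalSpace.IsTopologicalBasis B ∧ ∀ C ⊆ B, ⋃₀ C = Set.univ →
    ¬ ∀ y : Y, ∃ N ∈ 𝓝 y, {U ∈ C | (U ∩ N).Nonempty}.Finite := by
  refine ⟨{U | IsOpen U ∧ ∀ n m, Y.a n ∈ U → Y.a m ∈ U → n = m},
    TopologicalSpace.isTopologicalBasis_of_isOpen_of_nhds (fun U h => h.1) fun y U hy hU => ?_,
    fun C hC hc h => ?_⟩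
  · refine ⟨U \ (range Y.a \ {y}), ⟨hU.sdiff (small_closed ?_), fun n m h1 h2 => ?_⟩,
      ⟨hy, fun h => h.2 rfl⟩, sdiff_subset⟩
    · exact ((countable_range _).mono sdiff_subset).le_aleph0.trans aleph0_le_continuum
    · have e1 : Y.a n = y := by_contra fun h => h1.2 ⟨⟨n, rfl⟩, h⟩
      have e2 : Y.a m = y := by_contra fun h => h2.2 ⟨⟨m, rfl⟩, h⟩
      exact Y.a.inj (e1.trans e2.symm)
  · choose U h1 h2 using fun n => eq_univ_iff_forall.1 hc (Y.a n)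
    choose k S h3 h4 using fun n => (hC (h1 n)).1.1 n (h2 n)
    obtain ⟨N, hN, hf⟩ := h (Y.b k)
    obtain ⟨V, a, b, c⟩ := mem_nhds_iff.1 hN
    obtain ⟨m, S', d, e⟩ := b.2 k c
    have hi : Function.Injective U := fun n n' h => (hC (h1 n)).2 n n' (h2 n) (h ▸ h2 n')
    refine (Ici_infinite m).mono (fun n hn => ?_) (hf.preimage hi.injOn)
    obtain ⟨t, ht⟩ := ((h3 n).union d).ex
    exact ⟨h1 n, _, h4 n k t le_rfl fun h => ht (Or.inl h), a (e n t hn fun h => ht (Or.inr h))⟩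

def Z : Set Y := range Y.a ∪ range Y.b

lemma cardZ : #Z ≤ 𝔠 := (mk_union_le _ _).trans ((add_le_add (b := 𝔠) (d := 𝔠)
  (mk_range_le.trans (by simp [aleph0_le_continuum])) (mk_range_le.trans (by simp))).trans (by simp))

open Classical in
noncomputable def bob0 (m : Set Y × (Y → Set Y)) : Set Y :=
  m.1 ∩ range fun z : Z => if h : ∃ x ∈ m.1, z.1 ∈ m.2 x then h.choose else z.1

lemma bob0_card (m : Set Y × (Y → Set Y)) : #(bob0 m) ≤ 𝔠 :=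
  (mk_le_mk_of_subset inter_subset_right).trans (mk_range_le.trans cardZ)

lemma bob0_cd (m : Set Y × (Y → Set Y)) : IsClosed (bob0 m) ∧ DiscreteTopology (bob0 m) := by
  refine ⟨small_closed (bob0_card m), isDiscrete_iff_discreteTopology.1
    (isDiscrete_iff_forall_mem_exists_isOpen.2 fun y hy => ⟨(bob0 m \ {y})ᶜ,
      (small_closed ((mk_le_mk_of_subset sdiff_subset).trans (bob0_card m))).isOpen_compl, ?_⟩)⟩
  ext z
  by_cases e : z = y <;> simp [e, hy]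

lemma bob0_cov (m : Set Y × (Y → Set Y)) (h : Set.univ ⊆ ⋃ x ∈ m.1, m.2 x) :
    Z ⊆ ⋃ x ∈ bob0 m, m.2 x := by
  intro z hz
  have h' : ∃ x ∈ m.1, z ∈ m.2 x := by simpa using h (mem_univ z)
  exact mem_biUnion (show h'.choose ∈ bob0 m from ⟨h'.choose_spec.1, ⟨z, hz⟩, dif_pos h'⟩)
    h'.choose_spec.2

lemma later {O D : Set Y} (hO : IsOpen O) (hZ : Z ⊆ O) (hD : D ⊆ Oᶜ) :
    IsClosed D ∧ DiscreteTopology D := by
  refine ⟨⟨⟨fun n _ => (hO.1 n (hZ (Or.inl ⟨n, rfl⟩))).imp fun _ h => h.imp fun _ h =>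
    ⟨h.1, fun f t a b c => hD c (h.2 f t a b)⟩, fun n _ => (hO.2 n (hZ (Or.inr ⟨n, rfl⟩))).imp
    fun _ h => h.imp fun _ h => ⟨h.1, fun f t a b c => hD c (h.2 f t a b)⟩⟩⟩,
    isDiscrete_iff_discreteTopology.1 (isDiscrete_iff_forall_mem_exists_isOpen.2 fun y hy =>
      ⟨{y}, ?_, by simp [hy]⟩)⟩
  cases y with
  | a n => exact absurd (hZ (Or.inl ⟨n, rfl⟩)) (hD hy)
  | b n => exact absurd (hZ (Or.inr ⟨n, rfl⟩)) (hD hy)
  | i n f t => exact open_i n f t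

/-- Bob's answer in round `n`. -/
noncomputable def bob (n : ℕ) (m : Set Y × (Y → Set Y)) : Set Y := if n = 0 then bob0 m else m.1

lemma play (A : ℕ → Set Y × (Y → Set Y)) (D : ℕ → Set Y) (n : ℕ) (hD : ∀ k ≤ n, D k = bob k (A k))
    (h : ∀ k ≤ n, (∀ x ∈ (A k).1, IsOpen ((A k).2 x)) ∧
      (A k).1 ⊆ (⋃ j < k, ⋃ x ∈ D j, (A j).2 x)ᶜ ∧
      (⋃ j < k, ⋃ x ∈ D j, (A j).2 x)ᶜ ⊆ ⋃ x ∈ (A k).1, (A k).2 x) :
    (D n ⊆ (A n).1 ∧ IsClosed (D n) ∧ DiscreteTopology (D n)) ∧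
      (0 < n → ⋃ j, ⋃ x ∈ D j, (A j).2 x = Set.univ) := by
  rw [hD n le_rfl]
  by_cases hn : n = 0
  · subst hn
    exact ⟨⟨inter_subset_left, bob0_cd _⟩, by simp⟩
  have e0 : D 0 = bob0 (A 0) := hD 0 (Nat.zero_le _)
  rw [bob, if_neg hn]
  refine ⟨⟨Subset.rfl, later (O := ⋃ x ∈ D 0, (A 0).2 x) (isOpen_biUnion fun x hx =>
    (h 0 (Nat.zero_le _)).1 x (e0 ▸ hx).1) (e0 ▸ bob0_cov _ (by simpa using (h 0 (Nat.zero_le _)).2.2))
    ((h n le_rfl).2.1.trans (compl_subset_compl.2 (subset_biUnion_of_mem (u := fun j => ⋃ x ∈ D j, (A j).2 x)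
      (Nat.pos_of_ne_zero hn))))⟩, fun _ => eq_univ_of_forall fun y => ?_⟩
  by_cases hy : y ∈ ⋃ j < n, ⋃ x ∈ D j, (A j).2 x
  · obtain ⟨j, -, hj⟩ := mem_iUnion₂.1 hy
    exact mem_iUnion.2 ⟨j, hj⟩
  · refine mem_iUnion.2 ⟨n, ?_⟩
    rw [hD n le_rfl, bob, if_neg hn]
    exact (h n le_rfl).2.2 hy

end Pool.Agent.H30.Ponag
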