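import Pool.Agent.H30.SplB

set_option autoImplicit false

open Set Filter Topology Cardinal Metric

namespace Pool.Agent.H30.Prz

lemma para_of_cls {Y : Type} [TopologicalSpace Y] [RegularSpace Y] (c : Y → Set Y)
    (h1 : ∀ x, x ∈ c x) (h2 : ∀ x, IsOpen (c x)) (h3 : ∀ x, IsLindelof (c x))
    (h4 : ∀ x, ∀ y ∈ c x, c y = c x) : ParacompactSpace Y := by
  classical
  refine ⟨fun α s ho hu => ?_⟩
  have : ∀ x, ∃ a V, IsOpen V ∧ x ∈ V ∧ closure V ⊆ s a := fun x => by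
    obtain ⟨a, ha⟩ := iUnion_eq_univ_iff.1 hu x
    obtain ⟨t, ht, h5, h6⟩ := exists_mem_nhds_isClosed_subset ((ho a).mem_nhds ha)
    exact ⟨a, interior t, isOpen_interior, mem_interior_iff_mem_nhds.2 ht,
      (closure_minimal interior_subset h5).trans h6⟩
  choose a V hV1 hV2 hV3 using this
  have : ∀ C : range c, ∃ e : ℕ → Y, C.1 ⊆ ⋃ n, V (e n) := by
    rintro ⟨_, x, rfl⟩
    obtain ⟨r, hr, h5⟩ := (h3 x).elim_countable_subcover V hV1 fun y _ => mem_iUnion.2 ⟨y, hV2 y⟩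
    obtain ⟨e, he⟩ := (hr.insert x).exists_eq_range (insert_nonempty _ _)
    refine ⟨e, fun y hy => ?_⟩
    obtain ⟨z, h6, h7⟩ := mem_iUnion₂.1 (h5 hy)
    obtain ⟨n, rfl⟩ : z ∈ range e := he.le (Or.inr h6)
    exact mem_iUnion.2 ⟨n, h7⟩
  choose e he using this
  refine ⟨range c × ℕ, fun b => (b.1.1 ∩ s (a (e b.1 b.2))) \ ⋃ j ∈ Iio b.2, closure (V (e b.1 j)),
    ?_, eq_univ_of_forall fun x => ?_, fun x => ?_, fun b => ⟨_, fun _ h => h.1.2⟩⟩
  · rintro ⟨⟨_, x, rfl⟩, n⟩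
    exact ((h2 x).inter (ho _)).sdiff ((finite_Iio n).isClosed_biUnion fun _ _ => isClosed_closure)
  · have hx : ∃ n, x ∈ s (a (e ⟨_, x, rfl⟩ n)) := by
      obtain ⟨n, hn⟩ := mem_iUnion.1 (he ⟨_, x, rfl⟩ (h1 x))
      exact ⟨n, hV3 _ (subset_closure hn)⟩
    refine mem_iUnion.2 ⟨(⟨_, x, rfl⟩, Nat.find hx), ⟨h1 x, Nat.find_spec hx⟩, fun h => ?_⟩
    obtain ⟨j, h5, h6⟩ := mem_iUnion₂.1 h
    exact Nat.find_min hx h5 (hV3 _ h6)
  · obtain ⟨n, hn⟩ := mem_iUnion.1 (he ⟨_, x, rfl⟩ (h1 x))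
    refine ⟨_, ((h2 x).inter (hV1 _)).mem_nhds ⟨h1 x, hn⟩,
      ((finite_singleton (⟨_, x, rfl⟩ : range c)).prod (finite_Iic n)).subset ?_⟩
    rintro ⟨⟨_, z, rfl⟩, k⟩ ⟨y, ⟨h5, h6⟩, h7, h8⟩
    have h9 : (⟨_, z, rfl⟩ : range c) = ⟨_, x, rfl⟩ :=
      Subtype.ext ((h4 z y h5.1).symm.trans (h4 x y h7))
    refine ⟨h9, (not_lt.1 fun h : n < k => h6 (mem_biUnion h ?_) : k ≤ n)⟩
    rw [h9]
    exact subset_closure h8

section
variable {Y : Type} [MetricSpace Y] [ProperSpace Y] {l : ℕ → Y → ℝ}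

def Sm (l : ℕ → Y → ℝ) (S : Set Y) : Prop := ∃ W : Set ℝ, W.Countable ∧ ∀ x ∈ S, ∃ j, l j x ∈ W

lemma kernel {F : Set Y} (h : ¬ Sm l F) : ∃ K ⊆ F, K.Nonempty ∧
    ∀ U, IsOpen U → (U ∩ K).Nonempty → ¬ Sm l (U ∩ K) := by
  obtain ⟨T, h1, h2, h3⟩ := TopologicalSpace.isOpen_sUnion_countable
    {U | IsOpen U ∧ Sm l (U ∩ F)} fun _ h => h.1
  have key : ∀ S ⊆ F, Sm l (S \ ⋃₀ T) → Sm l S := fun S hS ⟨W, a, b⟩ => by
    choose W' c d using fun t : T => (h2 t.2).2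
    have := h1.to_subtype
    refine ⟨W ∪ ⋃ t, W' t, a.union (countable_iUnion c), fun x hx => ?_⟩
    by_cases h4 : x ∈ ⋃₀ T
    · obtain ⟨t, h5, h6⟩ := h4
      obtain ⟨j, hj⟩ := d ⟨t, h5⟩ x ⟨h6, hS hx⟩
      exact ⟨j, Or.inr (mem_iUnion.2 ⟨_, hj⟩)⟩
    · obtain ⟨j, hj⟩ := b x ⟨hx, h4⟩
      exact ⟨j, Or.inl hj⟩
  refine ⟨F \ ⋃₀ T, sdiff_subset, nonempty_iff_ne_empty.2 fun h4 => h (key F Subset.rfl ?_),
    fun U hU ⟨x, h4, h5⟩ h6 => h5.2 ?_⟩
  · rw [h4]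
    exact ⟨∅, countable_empty, fun _ h => h.elim⟩
  · rw [h3]
    exact ⟨U, ⟨hU, key _ inter_subset_right (by rwa [inter_diff_assoc])⟩, h4⟩

lemma pick {K : Set Y} (hK : ∀ U, IsOpen U → (U ∩ K).Nonempty → ¬ Sm l (U ∩ K)) {σ : Type}
    (U : σ → Set Y) (h1 : ∀ s, IsOpen (U s)) (h2 : ∀ s, (U s ∩ K).Nonempty) (T : Finset σ) :
    ∃ y : σ → Y, (∀ s, y s ∈ U s ∩ K) ∧ ∀ j, ∀ s ∈ T, ∀ t ∈ T, s ≠ t → l j (y s) ≠ l j (y t) := by
  classical
  induction T using Finset.induction_on with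
  | empty =>
    choose y hy using h2
    exact ⟨y, hy, by simp⟩
  | insert a T ha ih =>
    obtain ⟨y, h3, h4⟩ := ih
    have h5 := hK _ (h1 a) (h2 a)
    simp only [Sm, not_exists, not_and, not_forall] at h5
    obtain ⟨z, h6, h7⟩ := h5 (⋃ j, l j '' (y '' T))
      (countable_iUnion fun j => (T.countable_toSet.image y).image _)
    have h8 : ∀ j, ∀ t ∈ T, l j z ≠ l j (Function.update y a z t) := fun j t ht e => by
      rw [Function.update_of_ne (ne_of_mem_of_not_mem ht ha)] at e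
      exact h7 j (mem_iUnion.2 ⟨j, _, ⟨t, ht, rfl⟩, e.symm⟩)
    refine ⟨Function.update y a z, fun s => ?_, fun j s hs t ht hst => ?_⟩
    · rcases eq_or_ne s a with rfl | h
      · rwa [Function.update_self]
      · rw [Function.update_of_ne h]
        exact h3 s
    · rcases Finset.mem_insert.1 hs with rfl | hs'
      · rw [Function.update_self]
        exact h8 j t ((Finset.mem_insert.1 ht).resolve_left hst.symm)
      rcases Finset.mem_insert.1 ht with rfl | ht'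
      · rw [Function.update_self]
        exact (h8 j s hs').symm
      rw [Function.update_of_ne (ne_of_mem_of_not_mem hs' ha),
        Function.update_of_ne (ne_of_mem_of_not_mem ht' ha)]
      exact h4 j s hs' t ht' hst

theorem perf (hl : ∀ j, Continuous (l j)) {F : Set Y} (hF : IsClosed F) (h : ¬ Sm l F) :
    ∃ φ : (ℕ → Bool) → Y, (∀ x, φ x ∈ F) ∧ ∀ j, Function.Injective fun x => l j (φ x) := by
  classical
  obtain ⟨K, h1, ⟨y0, h0⟩, hK⟩ := kernel h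
  have step : ∀ (n : ℕ) (p : {p : ((Fin n → Bool) → Y) × ℝ // (∀ s, p.1 s ∈ K) ∧ 0 < p.2}),
      ∃ q : {p : ((Fin (n + 1) → Bool) → Y) × ℝ // (∀ s, p.1 s ∈ K) ∧ 0 < p.2},
        (∀ s, closedBall (q.1.1 s) q.1.2 ⊆ closedBall (p.1.1 (Fin.init s)) p.1.2) ∧
        ∀ j ≤ n, ∀ s t, s ≠ t → ∀ y ∈ closedBall (q.1.1 s) q.1.2, ∀ z ∈ closedBall (q.1.1 t) q.1.2,
          l j y ≠ l j z := by
    rintro n ⟨⟨c, r⟩, hc, hr⟩
    obtain ⟨y, h2, h3⟩ := pick hK (fun s : Fin (n + 1) → Bool => ball (c (Fin.init s)) r)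
      (fun _ => isOpen_ball) (fun s => ⟨_, mem_ball_self hr, hc _⟩) Finset.univ
    have e1 : ∀ᶠ ρ in 𝓝[>] (0 : ℝ), ∀ s, closedBall (y s) ρ ⊆ ball (c (Fin.init s)) r :=
      eventually_all.2 fun s => (eventually_closedBall_subset
        (isOpen_ball.mem_nhds (h2 s).1)).filter_mono nhdsWithin_le_nhds
    have e2 : ∀ᶠ ρ in 𝓝[>] (0 : ℝ), ∀ j : Fin (n + 1), ∀ s t, s ≠ t →
        closedBall (y s, y t) ρ ⊆ {w : Y × Y | l j w.1 ≠ l j w.2} :=
      eventually_all.2 fun j => eventually_all.2 fun s => eventually_all.2 fun t =>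
        eventually_all.2 fun hst => (eventually_closedBall_subset
          ((isOpen_ne_fun ((hl j).comp continuous_fst) ((hl j).comp continuous_snd)).mem_nhds
            (h3 j s (Finset.mem_univ _) t (Finset.mem_univ _) hst))).filter_mono nhdsWithin_le_nhds
    obtain ⟨ρ, ⟨h4, h5⟩, h6⟩ := ((e1.and e2).and self_mem_nhdsWithin).exists
    refine ⟨⟨(y, ρ), fun s => (h2 s).2, h6⟩, fun s => (h4 s).trans ball_subset_closedBall,
      fun j hj s t hst u hu v hv => h5 ⟨j, by omega⟩ s t hst (show (u, v) ∈ _ from ?_)⟩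
    rw [← closedBall_prod_same]
    exact ⟨hu, hv⟩
  choose nx a b using step
  let p : ∀ n : ℕ, {p : ((Fin n → Bool) → Y) × ℝ // (∀ s, p.1 s ∈ K) ∧ 0 < p.2} := fun n =>
    Nat.rec ⟨(fun _ => y0, 1), fun _ => h0, one_pos⟩ nx n
  have : ∀ x : ℕ → Bool, (⋂ n, closedBall ((p n).1.1 fun i => x i) (p n).1.2 ∩ F).Nonempty := fun x =>
    IsCompact.nonempty_iInter_of_sequence_nonempty_isCompact_isClosed _
      (fun n => inter_subset_inter_left _ (a n (p n) fun i => x i))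
      (fun n => ⟨_, mem_closedBall_self (p n).2.2.le, h1 ((p n).2.1 _)⟩)
      ((isCompact_closedBall _ _).inter_right hF) fun n => isClosed_closedBall.inter hF
  choose φ hφ using this
  refine ⟨φ, fun x => (mem_iInter.1 (hφ x) 0).2, fun j x y e => funext fun k => by_contra fun hk => ?_⟩
  refine b (max j k) (p _) j (le_max_left _ _) (fun i => x i) (fun i => y i)
    (fun h => hk (congrFun h ⟨k, by omega⟩)) _ (mem_iInter.1 (hφ x) (max j k + 1)).1 _
    (mem_iInter.1 (hφ y) (max j k + 1)).1 e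

theorem psl (hl : ∀ j, Continuous (l j)) {F : Set Y} (hF : IsClosed F) {W : Set ℝ} (hW : #W < 𝔠)
    (h : ∀ x ∈ F, ∃ j, l j x ∈ W) : Sm l F := by
  by_contra hc
  obtain ⟨φ, h1, h2⟩ := perf hl hF hc
  choose j hj using fun x => h _ (h1 x)
  have h3 := mk_le_of_injective (f := fun x => ((j x, ⟨_, hj x⟩) : ℕ × W)) fun x y e => by
    have e1 : j x = j y := congrArg Prod.fst e
    have e2 : l (j x) (φ x) = l (j y) (φ y) := congrArg (fun q => q.2.1) e
    exact h2 (j x) (by simp only; rw [e2, e1])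
  simp only [mk_pi, prod_const, mk_bool, lift_id, mk_nat, two_power_aleph0, mk_prod] at h3
  exact h3.not_gt (mul_lt_of_lt aleph0_le_continuum aleph0_lt_continuum hW)

end

lemma span_small {S : Set ℝ} (h : #S < 𝔠) : #(Submodule.span ℚ S) < 𝔠 := by
  have h1 : (Submodule.span ℚ S : Set ℝ) ⊆
      range (Finsupp.linearCombination ℚ (Subtype.val : ↥(insert 0 S) → ℝ)) := by
    rw [← LinearMap.coe_range, Finsupp.range_linearCombination, Subtype.range_val]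
    exact Submodule.span_mono (subset_insert _ _)
  refine ((mk_le_mk_of_subset h1).trans mk_range_le).trans_lt ?_
  have : Nonempty ↥(insert 0 S) := ⟨⟨0, Or.inl rfl⟩⟩
  rw [mk_finsupp_of_infinite']
  refine max_lt (mk_insert_le.trans_lt (add_lt_of_lt aleph0_le_continuum h
    (one_lt_aleph0.trans aleph0_lt_continuum))) (by simpa using aleph0_lt_continuum)

noncomputable def fm {n : ℕ} (q : Fin n → ℚ) (x : Fin n → ℝ) : ℝ := ∑ i, q i • x i

theorem psl' {n : ℕ} {F : Set (Fin n → ℝ)} (hF : IsClosed F) {W : Set ℝ} (hW : #W < 𝔠)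
    (h : ∀ x ∈ F, ∃ q ≠ 0, fm q x ∈ W) :
    ∃ W' : Set ℝ, W'.Countable ∧ ∀ x ∈ F, ∃ q ≠ 0, fm q x ∈ W' := by
  rcases F.eq_empty_or_nonempty with rfl | ⟨x0, h0⟩
  · exact ⟨∅, countable_empty, fun _ h => h.elim⟩
  obtain ⟨q0, hq, -⟩ := h x0 h0
  obtain ⟨e, he⟩ := (to_countable {q : Fin n → ℚ | q ≠ 0}).exists_eq_range ⟨q0, hq⟩
  obtain ⟨W', h1, h2⟩ := psl (l := fun j => fm (e j)) (fun j => by unfold fm; fun_prop) hF hW
    fun x hx => by
      obtain ⟨q, h1, h2⟩ := h x hx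
      obtain ⟨j, rfl⟩ : q ∈ range e := he.le h1
      exact ⟨j, h2⟩
  refine ⟨W', h1, fun x hx => ?_⟩
  obtain ⟨j, hj⟩ := h2 x hx
  exact ⟨e j, he.ge ⟨j, rfl⟩, hj⟩

lemma gen_ex (n : ℕ) {W : Submodule ℚ ℝ} (hW : #W < 𝔠) :
    ∃ x : Fin n → ℝ, ∀ q, fm q x ∈ W → q = 0 := by
  induction n generalizing W with
  | zero => exact ⟨0, fun q _ => Subsingleton.elim _ _⟩
  | succ n ih =>
    obtain ⟨y, hy⟩ : ∃ y : ℝ, y ∉ W := by
      by_contra h
      push Not at h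
      have : (W : Set ℝ) = Set.univ := eq_univ_of_forall h
      have h2 : #(W : Set ℝ) < 𝔠 := hW
      rw [this, mk_univ, mk_real] at h2
      exact lt_irrefl _ h2
    obtain ⟨x, hx⟩ := ih (W := Submodule.span ℚ (insert y W)) (span_small
      (mk_insert_le.trans_lt (add_lt_of_lt aleph0_le_continuum hW
        (one_lt_aleph0.trans aleph0_lt_continuum))))
    refine ⟨Fin.cons y x, fun q hq => ?_⟩
    have e : fm q (Fin.cons y x) = q 0 • y + fm (Fin.tail q) x := by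
      simp [fm, Fin.sum_univ_succ, Fin.tail]
    have h1 : Fin.tail q = 0 := hx _ (by
      rw [← add_sub_cancel_left (q 0 • y) (fm (Fin.tail q) x), ← e]
      exact Submodule.sub_mem _ (Submodule.subset_span (Or.inr hq))
        (Submodule.smul_mem _ _ (Submodule.subset_span (Or.inl rfl))))
    have h2 : q 0 = 0 := by
      by_contra h
      rw [e, h1] at hq
      simp only [fm, Pi.zero_apply, zero_smul, Finset.sum_const_zero, add_zero] at hq
      exact hy ((W.smul_mem_iff h).1 hq)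
    funext i
    exact Fin.cases h2 (fun i => congrFun h1 i) i

lemma blk_ex (n : ℕ) {W : Submodule ℚ ℝ} (hW : #W < 𝔠) :
    ∃ x : Fin n → ℝ, ∑ i, x i = 0 ∧ ∀ q, fm q x ∈ W → ∀ i j, q i = q j := by
  cases n with
  | zero => exact ⟨0, rfl, fun _ _ i => i.elim0⟩
  | succ n =>
    obtain ⟨x, hx⟩ := gen_ex n hW
    refine ⟨Fin.cons (-∑ i, x i) x, by simp [Fin.sum_univ_succ], fun q hq => ?_⟩
    have h1 := hx (fun i => q i.succ - q 0) (by
      convert hq using 1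
      simp only [fm, Fin.sum_univ_succ, Fin.cons_zero, Fin.cons_succ, sub_smul,
        Finset.sum_sub_distrib, smul_neg, Finset.smul_sum]
      ring)
    have h2 : ∀ i, q i = q 0 := Fin.cases rfl fun i => sub_eq_zero.1 (congrFun h1 i)
    exact fun i j => (h2 i).trans (h2 j).symm

end Pool.Agent.H30.Prz
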