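import Pool.Agent.H30.PrzA

set_option autoImplicit false

open Set Filter Topology Cardinal Metric

namespace Pool.Agent.H30.Prz

open Pool.Agent.H30.Spl

structure Fam {I : Type} (p : I → ℝ) {k : ℕ} (K : Set (Fin k → I)) : Prop where
  inj : ∀ t ∈ K, Function.Injective t
  sum : ∀ t ∈ K, ∑ j, p (t j) = 0
  one : ∀ x, {t | t ∈ K ∧ x ∈ range t}.Subsingleton
  unc : ¬ K.Countable ∨ k = 0

structure Sys {I : Type} (p : I → ℝ) (B : Set I) {k m : ℕ} (K : Set (Fin k → I))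
    (M : Set (Fin m → I)) : Prop where
  fk : Fam p K
  fm' : Fam p M
  ind : ∀ f : I →₀ ℚ, Finsupp.linearCombination ℚ p f = 0 → ∀ x, f x ≠ 0 →
    (∃ t ∈ K, x ∈ range t ∧ ∀ j, f (t j) = f x) ∨ ∃ t ∈ M, x ∈ range t ∧ ∀ j, f (t j) = f x
  kB : ∀ t ∈ K, ∀ j, t j ∈ B
  mB : ∀ t ∈ M, ∀ j, t j ∈ B ↔ j.1 = 0
  dis : ∀ t ∈ K, ∀ s ∈ M, ∀ i j, t i ≠ s j
  ber : ∀ n (F : Set (Fin n → ℝ)), IsClosed F → (∀ a : Fin n → I, (∀ i, a i ∉ B) → p ∘ a ∉ F) →
    ∃ W : Set ℝ, W.Countable ∧ ∀ x ∈ F, ∃ q ≠ 0, fm q x ∈ W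

abbrev Om : Type := (𝔠 : Cardinal.{0}).ord.ToType

abbrev Tk : Type := (Σ n : ℕ, ℕ → Fin n → ℝ) ⊕ ℝ ⊕ ℝ

def sz (k m : ℕ) : Tk → ℕ
  | .inl s => s.1
  | .inr (.inl _) => k
  | .inr (.inr _) => m

def Rq (k m : ℕ) (W : Submodule ℚ ℝ) (b : ℕ → ℝ) (τ : Tk) : Prop :=
  (∀ q : Fin (sz k m τ) → ℚ, fm q (fun i => b i) ∈ W → q = 0 ∨
    ((∃ r, τ = .inr r) ∧ ∀ i j, q i = q j)) ∧
  ((∃ r, τ = .inr r) → ∑ i : Fin (sz k m τ), b i = 0) ∧
  ∀ n s, τ = .inl ⟨n, s⟩ → (∃ x ∈ closure (range s), ∀ q, fm q x ∈ W → q = 0) →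
    (fun i : Fin n => b i) ∈ closure (range s)

lemma ext_fin {n : ℕ} (x : Fin n → ℝ) : ∃ b : ℕ → ℝ, (fun i : Fin n => b i) = x :=
  ⟨fun i => if h : i < n then x ⟨i, h⟩ else 0, funext fun i => by simp⟩

lemma rq_ex (k m : ℕ) {W : Submodule ℚ ℝ} (hW : #W < 𝔠) (τ : Tk) : ∃ b, Rq k m W b τ := by
  rcases τ with ⟨n, s⟩ | r
  · have : ∃ x : Fin n → ℝ, (∀ q, fm q x ∈ W → q = 0) ∧
        ((∃ x ∈ closure (range s), ∀ q, fm q x ∈ W → q = 0) → x ∈ closure (range s)) := by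
      by_cases h : ∃ x ∈ closure (range s), ∀ q, fm q x ∈ W → q = 0
      · obtain ⟨x, h1, h2⟩ := h
        exact ⟨x, h2, fun _ => h1⟩
      · obtain ⟨x, hx⟩ := gen_ex n hW
        exact ⟨x, hx, fun h' => absurd h' h⟩
    obtain ⟨x, h1, h2⟩ := this
    obtain ⟨b, rfl⟩ := ext_fin x
    refine ⟨b, fun q hq => Or.inl (h1 q hq), by simp, fun n' s' e => ?_⟩
    cases e
    exact h2
  · obtain ⟨x, h1, h2⟩ := blk_ex (sz k m (.inr r)) hW
    obtain ⟨b, rfl⟩ := ext_fin x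
    exact ⟨b, fun q hq => Or.inr ⟨⟨r, rfl⟩, h2 q hq⟩, fun _ => h1, fun _ _ e => by cases e⟩

theorem exists_sys (k m : ℕ) : ∃ (I : Type) (p : I → ℝ) (B : Set I) (K : Set (Fin k → I))
    (M : Set (Fin m → I)), Sys p B K M := by
  classical
  obtain ⟨e, he⟩ := enum (S := (Set.univ : Set Tk)) (T := Om) (P := Set.univ) (by
    simp only [mk_univ, mk_ord_toType, mk_sum, lift_id, mk_real, mk_sigma]
    refine add_le_of_le aleph0_le_continuum ?_ (by simp)
    refine (sum_le_lift_mk_mul_iSup _).trans ?_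
    simp only [mk_nat, lift_aleph0]
    refine mul_le_of_le aleph0_le_continuum aleph0_le_continuum (ciSup_le' fun n => ?_)
    simp only [mk_pi, prod_const, lift_id, mk_nat, mk_fin, mk_real, ← power_mul]
    exact (power_le_power_left continuum_ne_zero (mul_le_of_le le_rfl natCast_le_aleph0 le_rfl)).trans
      continuum_power_aleph0.le)
  have he' : Function.Surjective e := fun τ => by simpa using he (mem_univ τ)
  let W : Om → (Om → ℕ → ℝ) → Submodule ℚ ℝ := fun ξ g =>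
    Submodule.span ℚ (range fun x : Iio ξ × ℕ => g x.1 x.2)
  have hW : ∀ ξ g, #(W ξ g) < 𝔠 := fun ξ g => span_small (mk_range_le.trans_lt (by
    simp only [mk_prod, lift_id, mk_nat]
    exact mul_lt_of_lt aleph0_le_continuum (mk_Iio_toType_ord_lt ξ) aleph0_lt_continuum))
  obtain ⟨g, hg⟩ := wf_rec (T := Om) (β := ℕ → ℝ) (fun ξ g b => Rq k m (W ξ g) b (e ξ))
    (fun ξ g => rq_ex k m (hW ξ g) _) fun ξ f g b h H => by
      have : W ξ g = W ξ f := by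
        simp only [W]
        congr 2
        funext x
        rw [h _ x.1.2]
      rwa [this]
  let I := {x : Om × ℕ // x.2 < sz k m (e x.1)}
  let p : I → ℝ := fun x => g x.1.1 x.1.2
  have key : ∀ (N : ℕ) (f : I →₀ ℚ), f.support.card ≤ N → Finsupp.linearCombination ℚ p f = 0 →
      ∀ x, f x ≠ 0 → (∃ r, e x.1.1 = .inr r) ∧ ∀ y : I, y.1.1 = x.1.1 → f y = f x := by
    intro N
    induction N with
    | zero =>
      intro f h _ x hx
      rw [Nat.le_zero, Finset.card_eq_zero, Finsupp.support_eq_empty] at h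
      simp [h] at hx
    | succ N ih =>
      intro f h1 h2 x hx
      obtain ⟨z, h3, h4⟩ := f.support.exists_max_image (fun y => y.1.1) ⟨x, Finsupp.mem_support_iff.2 hx⟩
      let ι : Fin (sz k m (e z.1.1)) → I := fun i => ⟨(z.1.1, i), i.2⟩
      have hι : ∀ y : I, y.1.1 = z.1.1 → ∃ i, ι i = y := fun y hy =>
        ⟨⟨y.1.2, hy ▸ y.2⟩, Subtype.ext (Prod.ext hy.symm rfl)⟩
      have hι' : Function.Injective ι := fun i j h => Fin.ext (congrArg (fun y : I => y.1.2) h)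
      let f2 : I →₀ ℚ := f - ∑ i, Finsupp.single (ι i) (f (ι i))
      have a1 : ∀ y : I, y.1.1 = z.1.1 → f2 y = 0 := fun y hy => by
        obtain ⟨i, rfl⟩ := hι y hy
        simp [f2, Finsupp.finsetSum_apply, Finsupp.single_apply, hι'.eq_iff]
      have a2 : ∀ y : I, y.1.1 ≠ z.1.1 → f2 y = f y := fun y hy => by
        have : ∀ i, ι i ≠ y := fun i h => hy (h ▸ rfl)
        simp [f2, Finsupp.finsetSum_apply, Finsupp.single_apply, this]
      have a3 : Finsupp.linearCombination ℚ p f2 = - fm (fun i => f (ι i)) fun i => g z.1.1 i := by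
        simp [f2, h2, fm, p, ι]
      have a4 : Finsupp.linearCombination ℚ p f2 ∈ W z.1.1 g := by
        rw [Finsupp.linearCombination_apply]
        refine Submodule.sum_mem _ fun y hy => Submodule.smul_mem _ _ (Submodule.subset_span ?_)
        have h5 : y.1.1 ≠ z.1.1 := fun h => Finsupp.mem_support_iff.1 hy (a1 y h)
        exact ⟨(⟨y.1.1, lt_of_le_of_ne (h4 y (Finsupp.mem_support_iff.2
          (a2 y h5 ▸ Finsupp.mem_support_iff.1 hy))) h5⟩, y.1.2), rfl⟩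
      rw [a3, Submodule.neg_mem_iff] at a4
      obtain ⟨i0, hi0⟩ := hι z rfl
      obtain ⟨h5, h6⟩ := ((hg z.1.1).1 _ a4).resolve_left fun h =>
        Finsupp.mem_support_iff.1 h3 (hi0 ▸ congrFun h i0)
      by_cases h7 : x.1.1 = z.1.1
      · refine ⟨h7 ▸ h5, fun y hy => ?_⟩
        obtain ⟨i, rfl⟩ := hι x h7
        obtain ⟨j, rfl⟩ := hι y hy
        exact h6 j i
      obtain ⟨h8, h9⟩ := ih f2 (by
        refine Nat.le_of_lt_succ ((Finset.card_lt_card ⟨fun y hy => ?_, fun h => ?_⟩).trans_le h1)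
        · have h5 : y.1.1 ≠ z.1.1 := fun h => Finsupp.mem_support_iff.1 hy (a1 y h)
          exact Finsupp.mem_support_iff.2 (a2 y h5 ▸ Finsupp.mem_support_iff.1 hy)
        · exact Finsupp.mem_support_iff.1 (h h3) (a1 z rfl)) (by
        rw [a3, neg_eq_zero, fm, Finset.sum_congr rfl fun i _ => by rw [h6 i i0], ← Finset.smul_sum,
          (hg z.1.1).2.1 h5, smul_zero]) x (by rwa [a2 x h7])
      exact ⟨h8, fun y hy => by rw [← a2 x h7, ← a2 y (hy ▸ h7), h9 y hy]⟩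
  have fam : ∀ (n : ℕ) (c : ℝ → Tk), (∀ r, sz k m (c r) = n) → (∀ r, ∃ r', c r = .inr r') →
      Function.Injective c →
      Fam p {t : Fin n → I | ∃ ξ r, e ξ = c r ∧ ∀ j, (t j).1 = (ξ, j.1)} := by
    intro n c h1 h2 h3
    refine ⟨?_, ?_, ?_, ?_⟩
    · rintro t ⟨ξ, r, -, h⟩ i j hij
      have := (h i).symm.trans ((congrArg Subtype.val hij).trans (h j))
      exact Fin.ext (congrArg Prod.snd this)
    · rintro t ⟨ξ, r, h4, h⟩
      have h5 := (hg ξ).2.1 (h4 ▸ h2 r)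
      rw [h4, h1] at h5
      rw [← h5]
      exact Finset.sum_congr rfl fun j _ => by simp only [p, h j]
    · rintro x t ⟨⟨ξ, r, -, h⟩, i, hi⟩ t' ⟨⟨ξ', r', -, h'⟩, i', hi'⟩
      have : ξ = ξ' := congrArg Prod.fst ((h i).symm.trans
        ((congrArg Subtype.val (hi.trans hi'.symm)).trans (h' i')))
      exact funext fun j => Subtype.ext ((h j).trans (this ▸ (h' j).symm))
    · rcases n.eq_zero_or_pos with h | h
      · exact Or.inr h
      refine Or.inl fun hc => not_countable_univ (α := ℝ) ?_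
      choose ξ hξ using fun r => he' (c r)
      refine MapsTo.countable_of_injOn
        (f := fun r (j : Fin n) => (⟨(ξ r, j), by rw [hξ, h1]; exact j.2⟩ : I))
        (fun r _ => by exact ⟨ξ r, r, hξ r, fun _ => rfl⟩) (fun r _ r' _ e' => h3 ?_) hc
      have : ξ r = ξ r' := congrArg (fun t : Fin n → I => (t ⟨0, h⟩).1.1) e'
      rw [← hξ, this, hξ]
  refine ⟨I, p, {x | (∃ r, e x.1.1 = .inr (.inl r)) ∨ (∃ r, e x.1.1 = .inr (.inr r)) ∧ x.1.2 = 0},
    _, _, fam k (fun r => .inr (.inl r)) (fun _ => rfl) (fun _ => ⟨_, rfl⟩) fun _ _ h => by simpa using h,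
    fam m (fun r => .inr (.inr r)) (fun _ => rfl) (fun _ => ⟨_, rfl⟩) fun _ _ h => by simpa using h,
    fun f hf x hx => ?_, ?_, ?_, ?_, fun n F h1 h2 => ?_⟩
  · obtain ⟨⟨r, h1⟩, h2⟩ := key _ f le_rfl hf x hx
    have h3 := x.2
    rcases r with r | r
    · exact Or.inl ⟨fun j => ⟨(x.1.1, j), by rw [h1]; exact j.2⟩, ⟨_, r, h1, fun _ => rfl⟩,
        ⟨⟨x.1.2, by rwa [h1] at h3⟩, rfl⟩, fun j => h2 _ rfl⟩
    · exact Or.inr ⟨fun j => ⟨(x.1.1, j), by rw [h1]; exact j.2⟩, ⟨_, r, h1, fun _ => rfl⟩,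
        ⟨⟨x.1.2, by rwa [h1] at h3⟩, rfl⟩, fun j => h2 _ rfl⟩
  · rintro t ⟨ξ, r, h1, h2⟩ j
    exact Or.inl ⟨r, by rw [h2, h1]⟩
  · rintro t ⟨ξ, r, h1, h2⟩ j
    simp [h2, h1]
  · rintro t ⟨ξ, r, h1, h2⟩ s ⟨ξ', r', h3, h4⟩ i j e'
    have : ξ = ξ' := congrArg Prod.fst ((h2 i).symm.trans ((congrArg Subtype.val e').trans (h4 j)))
    rw [this, h3] at h1
    cases h1
  · rcases F.eq_empty_or_nonempty with rfl | h0
    · exact ⟨∅, countable_empty, fun _ h => h.elim⟩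
    obtain ⟨c, c1, c2, c3⟩ := (TopologicalSpace.IsSeparable.of_separableSpace F).exists_countable_dense_subset
    obtain ⟨s, rfl⟩ := c2.exists_eq_range (closure_nonempty_iff.1 (h0.mono c3))
    have h3 : closure (range s) = F := (closure_minimal c1 h1).antisymm c3
    obtain ⟨ξ, hξ⟩ := he' (.inl ⟨n, s⟩)
    refine psl' h1 (hW ξ g) fun x hx => by_contra fun hc => ?_
    push Not at hc
    have h4 := (hg ξ).2.2 n s hξ ⟨x, h3 ▸ hx, fun q hq => by_contra fun h => hc q h hq⟩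
    exact h2 (fun i => ⟨(ξ, i), by rw [hξ]; exact i.2⟩) (fun i => by simp [hξ]) (h3 ▸ h4)

end Pool.Agent.H30.Prz
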