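import Pool.Agent.H30.PrzB

set_option autoImplicit false

open Set Filter Topology Cardinal Metric

namespace Pool.Agent.H30.Prz

variable {I : Type} {p : I → ℝ} {B : Set I} {k m : ℕ} {K : Set (Fin k → I)} {M : Set (Fin m → I)}

def Sp (_ : I → ℝ) (_ : Set I) : Type := I

open Classical in
noncomputable def emb (p : I → ℝ) (B : Set I) (x : Sp p B) : ℝ × (B → Bool) :=
  (p x, fun b => decide (x = b.1))

noncomputable instance (p : I → ℝ) (B : Set I) : TopologicalSpace (Sp p B) :=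
  .induced (emb p B) inferInstance

lemma emb_ind (p : I → ℝ) (B : Set I) : IsInducing (emb p B) := ⟨rfl⟩

instance (p : I → ℝ) (B : Set I) : RegularSpace (Sp p B) := (emb_ind p B).regularSpace

lemma p_cont (p : I → ℝ) (B : Set I) : Continuous (X := Sp p B) p :=
  continuous_fst.comp (emb_ind p B).continuous

lemma iso {b : Sp p B} (hb : b ∈ B) : IsOpen {b} := by
  have := (isOpen_discrete {true}).preimage
    ((continuous_apply (⟨b, hb⟩ : B)).comp (continuous_snd.comp (emb_ind p B).continuous))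
  convert this using 1
  ext x
  simp [emb]

lemma iso' {n : ℕ} {b : Sp p B} (hb : b ∈ B) (i : Fin n) : IsOpen {y : Fin n → Sp p B | y i = b} :=
  (iso hb).preimage (f := fun y : Fin n → Sp p B => y i) (continuous_apply i)

lemma Sys.peq' (h : Sys p B K M) {x y : I} (e : p x = p y) (hxy : x ≠ y) :
    (∃ t ∈ K, x ∈ range t) ∨ ∃ t ∈ M, x ∈ range t ∧ ∀ j, t j = x := by
  classical
  have h1 : ∀ z, (Finsupp.single x 1 - Finsupp.single y 1 : I →₀ ℚ) z = 1 → z = x := fun z hz => by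
    by_contra h2
    simp only [Finsupp.sub_apply, Finsupp.single_apply, if_neg (Ne.symm h2)] at hz
    split_ifs at hz <;> norm_num at hz
  have h2 : (Finsupp.single x 1 - Finsupp.single y 1 : I →₀ ℚ) x = 1 := by simp [hxy.symm]
  exact (h.ind (Finsupp.single x 1 - Finsupp.single y 1) (by simp [e]) x (by simp [h2])).imp
    (fun ⟨t, a, b, _⟩ => ⟨t, a, b⟩) fun ⟨t, a, b, c⟩ => ⟨t, a, b, fun j => h1 _ ((c j).trans h2)⟩

lemma Sys.peq (h : Sys p B K M) {x y : I} (e : p x = p y) (hxy : x ≠ y) : x ∈ B := by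
  rcases h.peq' e hxy with ⟨t, h3, j, rfl⟩ | ⟨t, h3, ⟨j, -⟩, h4⟩
  · exact h.kB t h3 j
  · rw [← h4 ⟨0, j.pos⟩]
    exact (h.mB t h3 _).2 rfl

lemma Sys.t3 (h : Sys p B K M) : T3Space (Sp p B) := by
  refine IsEmbedding.t3Space (f := emb p B) ⟨emb_ind p B, fun x y e => by_contra fun hxy => ?_⟩
  have := congrFun (congrArg Prod.snd e) ⟨x, h.peq (congrArg Prod.fst e) hxy⟩
  simp only [emb, decide_true, true_eq_decide_iff] at this
  exact hxy this.symm

lemma Sys.nb (h : Sys p B K M) {a : Sp p B} (ha : a ∉ B) {U : Set (Sp p B)} (hU : U ∈ 𝓝 a) :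
    ∃ ε > 0, ∀ y : Sp p B, dist (p y) (p a) < ε → y ∈ U := by
  have key : ∀ᶠ r in 𝓝 (p a), ∀ y : Sp p B, p y = r → y ∈ U := by
    rw [nhds_induced, mem_comap] at hU
    obtain ⟨V, hV, hVU⟩ := hU
    rw [emb, nhds_prod_eq, nhds_pi] at hV
    obtain ⟨V1, h1, V2, h2, h3⟩ := mem_prod_iff.1 hV
    obtain ⟨J, hJ, t, ht, htV⟩ := Filter.mem_pi.1 h2
    have h4 : ∀ᶠ r in 𝓝 (p a), ∀ b ∈ J, r ≠ p b.1 := (eventually_all_finite hJ).2 fun b _ =>
      isOpen_ne.mem_nhds fun e => ha (h.peq e fun e' => ha (e' ▸ b.2))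
    filter_upwards [h1, h4] with r h5 h6 y hy
    refine hVU (h3 ⟨(show p y ∈ V1 from hy ▸ h5), htV fun b hb => ?_⟩)
    have h7 := mem_of_mem_nhds (ht b)
    have h8 : y ≠ b.1 := fun e => h6 b hb (e ▸ hy.symm)
    have h9 : a ≠ b.1 := fun e => ha (e ▸ b.2)
    simp only [emb, h8, h9] at h7 ⊢
    exact h7
  obtain ⟨ε, h1, h2⟩ := Metric.eventually_nhds_iff.1 key
  exact ⟨ε, h1, fun y hy => h2 hy y rfl⟩

lemma Sys.nbn (h : Sys p B K M) {n : ℕ} {a : Fin n → Sp p B} {U : Set (Fin n → Sp p B)}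
    (hU : U ∈ 𝓝 a) : ∃ ε > 0, ∀ y : Fin n → Sp p B, (∀ i, a i ∈ B → y i = a i) →
      (∀ i, dist (p (y i)) (p (a i)) < ε) → y ∈ U := by
  rw [nhds_pi, Filter.mem_pi] at hU
  obtain ⟨J, -, t, ht, htU⟩ := hU
  have : ∀ i, ∃ ε > 0, ∀ y : Sp p B, (a i ∈ B → y = a i) → dist (p y) (p (a i)) < ε → y ∈ t i :=
    fun i => by
      by_cases hi : a i ∈ B
      · exact ⟨1, one_pos, fun y hy _ => hy hi ▸ mem_of_mem_nhds (ht i)⟩
      · obtain ⟨ε, h1, h2⟩ := h.nb hi (ht i)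
        exact ⟨ε, h1, fun y _ => h2 y⟩
  choose ε h1 h2 using this
  obtain ⟨δ, h3, h4⟩ := ((eventually_all.2 fun i => eventually_lt_nhds (h1 i)).filter_mono
    (nhdsWithin_le_nhds (s := Ioi 0))).and self_mem_nhdsWithin |>.exists
  exact ⟨δ, h4, fun y h5 h6 => htU fun i _ => h2 i _ (h5 i) ((h6 i).trans (h3 i))⟩

lemma Sys.sumZ (h : Sys p B K M) {n : ℕ} {x : Fin n → I} (hx : ∑ i, p (x i) = 0) (i : Fin n) :
    (∃ t ∈ K, x i ∈ range t ∧ range t ⊆ range x) ∨ ∃ t ∈ M, x i ∈ range t ∧ range t ⊆ range x := by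
  classical
  have h1 : ∀ z, (∑ i, Finsupp.single (x i) 1 : I →₀ ℚ) z ≠ 0 ↔ z ∈ range x := fun z => by
    simp [Finsupp.single_apply, Finset.filter_eq_empty_iff]
  have h2 := (h1 _).2 ⟨i, rfl⟩
  refine (h.ind (∑ i, Finsupp.single (x i) 1) (by simp [hx]) (x i) h2).imp ?_ ?_ <;>
    exact fun ⟨t, a, b, c⟩ => ⟨t, a, b, range_subset_iff.2 fun j => (h1 _).1 (c j ▸ h2)⟩

lemma Sys.hyp (h : Sys p B K M) {n : ℕ} {q : Fin n → ℚ} (hq : q ≠ 0) (c : ℝ) :
    ∃ Z : Set I, Z.Finite ∧ ∀ x : Fin n → I, Function.Injective x → fm q (p ∘ x) = c →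
      (∃ i, x i ∈ Z) ∨ (∃ t ∈ K, (range t).Nonempty ∧ range t ⊆ range x) ∨
        ∃ t ∈ M, (range t).Nonempty ∧ range t ⊆ range x := by
  classical
  by_cases h0 : ∃ y : Fin n → I, fm q (p ∘ y) = c
  swap
  · exact ⟨∅, finite_empty, fun x _ e => absurd ⟨x, e⟩ h0⟩
  obtain ⟨y, hy⟩ := h0
  obtain ⟨i, hi⟩ := Function.ne_iff.1 hq
  refine ⟨range y ∪ ((⋃ j, ⋃ t ∈ {t | t ∈ K ∧ y j ∈ range t}, range t) ∪
    ⋃ j, ⋃ t ∈ {t | t ∈ M ∧ y j ∈ range t}, range t), (finite_range y).union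
      ((finite_iUnion fun j => (h.fk.one _).finite.biUnion fun t _ => finite_range t).union
      (finite_iUnion fun j => (h.fm'.one _).finite.biUnion fun t _ => finite_range t)),
    fun x hx e => or_iff_not_imp_left.2 fun hc => ?_⟩
  simp only [not_exists, mem_union, not_or] at hc
  let f : I →₀ ℚ := ∑ i, Finsupp.single (x i) (q i) - ∑ i, Finsupp.single (y i) (q i)
  have h1 : f (x i) ≠ 0 := by
    have : ∀ j, y j ≠ x i := fun j e => (hc i).1 ⟨j, e⟩
    simpa [f, Finsupp.single_apply, hx.eq_iff, this] using hi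
  have h2 : ∀ z, f z ≠ 0 → z ∈ range x ∨ z ∈ range y := fun z hz => by
    by_contra h3
    simp only [mem_range, not_or, not_exists] at h3
    simp [f, Finsupp.single_apply, h3.1, h3.2] at hz
  refine (h.ind f (by
    have e1 : ∑ i, q i • p (x i) = c := e
    have e2 : ∑ i, q i • p (y i) = c := hy
    simp [f, e1, e2]) (x i) h1).imp ?_ ?_
  · rintro ⟨t, a, b, d⟩
    refine ⟨t, a, ⟨_, b⟩, range_subset_iff.2 fun j => (h2 _ (d j ▸ h1)).resolve_right ?_⟩
    rintro ⟨l, hl⟩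
    exact (hc i).2.1 (mem_iUnion.2 ⟨l, mem_biUnion (x := t) ⟨a, j, hl.symm⟩ b⟩)
  · rintro ⟨t, a, b, d⟩
    refine ⟨t, a, ⟨_, b⟩, range_subset_iff.2 fun j => (h2 _ (d j ▸ h1)).resolve_right ?_⟩
    rintro ⟨l, hl⟩
    exact (hc i).2.2 (mem_iUnion.2 ⟨l, mem_biUnion (x := t) ⟨a, j, hl.symm⟩ b⟩)

lemma Fam.le (h : Fam p K) {n : ℕ} {t : Fin k → I} (ht : t ∈ K) {x : Fin n → I}
    (h1 : (range t).Nonempty) (h2 : range t ⊆ range x) : k ≠ 0 ∧ k ≤ n := by
  choose σ hσ using fun j => h2 ⟨j, rfl⟩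
  obtain ⟨_, j, -⟩ := h1
  refine ⟨j.pos.ne', ?_⟩
  simpa using Fintype.card_le_of_injective σ fun a b e => h.inj t ht (by rw [← hσ, ← hσ, e])

def cls (p : I → ℝ) (B : Set I) (k : ℕ) {n : ℕ} (x : Fin n → Sp p B) : Set (Fin n → Sp p B) :=
  {y | ∀ σ : Fin k → Fin n, ∑ j, p (x (σ j)) = 0 ∨ ∑ j, p (y (σ j)) = 0 → ∀ j, y (σ j) = x (σ j)}

lemma cls_self {n : ℕ} (x : Fin n → Sp p B) : x ∈ cls p B k x := fun _ _ _ => rfl

lemma cls_eq {n : ℕ} (x : Fin n → Sp p B) {y : Fin n → Sp p B} (hy : y ∈ cls p B k x) :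
    cls p B k y = cls p B k x := by
  have key : ∀ x y : Fin n → Sp p B, y ∈ cls p B k x → cls p B k y ⊆ cls p B k x := by
    intro x y hy z hz σ h j
    rcases h with h | h
    · have h1 := hy σ (Or.inl h)
      rw [hz σ (Or.inl (by simpa only [h1] using h)) j, h1]
    · have h1 := hz σ (Or.inr h)
      rw [h1, hy σ (Or.inr (by simpa only [h1] using h)) j]
  exact (key x y hy).antisymm (key y x fun σ h j => (hy σ h.symm j).symm)

lemma Sys.zB (h : Sys p B K M) {n : ℕ} (hn : m = 0 ∨ n < m) {x : Fin n → I} {σ : Fin k → Fin n}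
    (hx : ∑ j, p (x (σ j)) = 0) (j : Fin k) : x (σ j) ∈ B := by
  rcases h.sumZ (x := x ∘ σ) hx j with ⟨t, a, ⟨l, b⟩, -⟩ | ⟨t, a, b, c⟩
  · exact (show t l = x (σ j) from b) ▸ h.kB t a l
  · have := h.fm'.le a ⟨_, b⟩ (c.trans (range_comp_subset_range σ x))
    omega

lemma sum_cont {n l : ℕ} (σ : Fin l → Fin n) :
    Continuous fun y : Fin n → Sp p B => ∑ j, p (y (σ j)) :=
  continuous_finsetSum _ fun j _ => (p_cont p B).comp (continuous_apply (σ j))

lemma Sys.cls_open (h : Sys p B K M) {n : ℕ} (hn : m = 0 ∨ n < m) (x : Fin n → Sp p B) :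
    IsOpen (cls p B k x) := by
  refine isOpen_iff_mem_nhds.2 fun y hy => ?_
  rw [← cls_eq x hy]
  refine eventually_all.2 fun σ => ?_
  by_cases h1 : ∑ j, p (y (σ j)) = 0
  · exact (eventually_all.2 fun j => (iso' (h.zB hn h1 j) (σ j)).mem_nhds rfl).mono fun _ h _ => h
  · filter_upwards [(isOpen_ne_fun (sum_cont σ) continuous_const).mem_nhds h1] with z hz h2
    exact absurd (h2.resolve_left h1) hz

lemma Sys.cls_closed (h : Sys p B K M) {n : ℕ} (hn : m = 0 ∨ n < m) (x : Fin n → Sp p B) :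
    IsClosed (cls p B k x) := by
  refine ⟨isOpen_iff_mem_nhds.2 fun y hy => mem_of_superset
    ((h.cls_open hn y).mem_nhds (cls_self y)) fun z h1 h2 => hy ?_⟩
  rw [← cls_eq x h2, cls_eq y h1]
  exact cls_self y

theorem Sys.cls_lind (h : Sys p B K M) (n : ℕ) (hn : m = 0 ∨ n < m) (x : Fin n → Sp p B) :
    IsLindelof (cls p B k x) := by
  induction n with
  | zero => exact (toFinite _).isLindelof
  | succ n ih =>
    have sub : ∀ (i : Fin (n + 1)) (r : (Fin n → Sp p B) → Sp p B), Continuous r →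
        ∃ L ⊆ cls p B k x, IsLindelof L ∧ ∀ y ∈ cls p B k x, y i = r (i.removeNth y) → y ∈ L := by
      intro i r hr
      refine ⟨_, inter_subset_left, ((ih (by omega) (i.removeNth x)).image
        (Continuous.finInsertNth (A := fun _ => Sp p B) i hr continuous_id)).inter_left
        (h.cls_closed hn x), fun y h1 h2 => ⟨h1, i.removeNth y, fun σ => h1 (i.succAbove ∘ σ), ?_⟩⟩
      simp only [id, ← h2]
      exact Fin.insertNth_self_removeNth i y
    by_cases c1 : ∃ (σ : Fin k → Fin (n + 1)) (_ : Fin k), ∑ j, p (x (σ j)) = 0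
    · obtain ⟨σ, j, hσ⟩ := c1
      obtain ⟨L, h1, h2, h3⟩ := sub (σ j) (fun _ => x (σ j)) continuous_const
      rwa [h1.antisymm fun y hy => h3 y hy (hy σ (Or.inl hσ) j)] at h2
    refine isLindelof_of_countable_subcover fun {ι} U hU hs => ?_
    obtain ⟨T, a1, a2, a3⟩ := TopologicalSpace.isOpen_sUnion_countable
      {O : Set (Fin (n + 1) → ℝ) | IsOpen O ∧ ∃ a, ∀ y : Fin (n + 1) → Sp p B, p ∘ y ∈ O → y ∈ U a}
      fun _ h => h.1
    obtain ⟨W, b1, b2⟩ := h.ber _ (⋃₀ T)ᶜ (isOpen_sUnion fun t ht => (a2 ht).1).isClosed_compl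
      fun a ha hc => by
        obtain ⟨j, hj⟩ := mem_iUnion.1 (hs (show a ∈ cls p B k x from fun σ h1 j =>
          (h1.elim (fun h2 => c1 ⟨σ, j, h2⟩) fun h2 => ha _ (h.zB hn h2 j)).elim))
        obtain ⟨ε, h1, h2⟩ := h.nbn ((hU j).mem_nhds hj)
        rw [a3] at hc
        exact hc ⟨ball (p ∘ a) ε, ⟨isOpen_ball, j, fun y hy => h2 y (fun i hi => absurd hi (ha i))
          fun i => (dist_pi_lt_iff h1).1 hy i⟩, mem_ball_self h1⟩
    choose Z c2 c3 using fun (q : {q : Fin (n + 1) → ℚ // q ≠ 0}) c => h.hyp q.2 c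
    choose L1 d1 d2 d3 using fun q : Fin (n + 1) × Sp p B => sub q.1 (fun _ => q.2) continuous_const
    choose L2 e1 e2 e3 using fun q : Fin (n + 1) × Fin n => sub q.1 (fun w => w q.2) (continuous_apply _)
    have hZ : (Set.univ ×ˢ ⋃ q, ⋃ c ∈ W, Z q c : Set (Fin (n + 1) × Sp p B)).Countable :=
      countable_univ.prod (countable_iUnion fun q => b1.biUnion fun c _ => (c2 q c).countable)
    obtain ⟨r, f1, f2⟩ := ((hZ.isLindelof_biUnion fun q _ => d2 q).union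
      (isLindelof_iUnion e2)).elim_countable_subcover U hU
      ((union_subset (iUnion₂_subset fun q _ => d1 q) (iUnion_subset e1)).trans hs)
    choose a ha using fun t : T => (a2 t.2).2
    have := a1.to_subtype
    refine ⟨r ∪ range a, f1.union (countable_range a), fun y hy => ?_⟩
    by_cases g1 : p ∘ y ∈ ⋃₀ T
    · obtain ⟨t, h1, h2⟩ := g1
      exact mem_biUnion (Or.inr ⟨⟨t, h1⟩, rfl⟩) (ha ⟨t, h1⟩ y h2)
    refine biUnion_subset_biUnion_left subset_union_left (f2 ?_)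
    by_cases g2 : Function.Injective y
    · obtain ⟨q, h1, h2⟩ := b2 _ g1
      rcases c3 ⟨q, h1⟩ _ y g2 rfl with ⟨i, hi⟩ | ⟨t, h3, ⟨_, j, -⟩, h4⟩ | ⟨t, h3, h4, h5⟩
      · exact Or.inl (mem_biUnion (x := (i, y i))
          ⟨mem_univ _, mem_iUnion.2 ⟨_, mem_biUnion h2 hi⟩⟩ (d3 _ y hy rfl))
      · choose σ hσ using fun j => h4 ⟨j, rfl⟩
        have h5 : ∑ j, p (y (σ j)) = 0 := by simpa only [hσ] using h.fk.sum t h3
        exact absurd ⟨σ, j, by simpa only [hy σ (Or.inr h5)] using h5⟩ c1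
      · have := h.fm'.le h3 h4 h5
        omega
    · simp only [Function.Injective, not_forall] at g2
      obtain ⟨i, i', h3, h4⟩ := g2
      obtain ⟨j, rfl⟩ := Fin.exists_succAbove_eq (Ne.symm h4)
      exact Or.inr (mem_iUnion.2 ⟨(i, j), e3 _ y hy h3⟩)

theorem Sys.para (h : Sys p B K M) {n : ℕ} (hn : m = 0 ∨ n < m) :
    ParacompactSpace (Fin n → Sp p B) :=
  para_of_cls (cls p B k) cls_self (h.cls_open hn) (h.cls_lind n hn) fun x _ => cls_eq x

theorem Sys.lind (h : Sys p B K M) {n : ℕ} (hn : m = 0 ∨ n < m) (hk : n < k) :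
    LindelofSpace (Fin n → Sp p B) := by
  rcases isEmpty_or_nonempty (Fin n → Sp p B) with h0 | ⟨⟨x⟩⟩
  · exact ⟨(toFinite _).isLindelof⟩
  have key : ∀ (y : Fin n → Sp p B) (σ : Fin k → Fin n), ∑ j, p (y (σ j)) ≠ 0 := fun y σ e => by
    rcases h.sumZ (x := y ∘ σ) e ⟨0, by omega⟩ with ⟨t, a, b, c⟩ | ⟨t, a, b, c⟩
    · have := h.fk.le a ⟨_, b⟩ (c.trans (range_comp_subset_range σ y))
      omega
    · have := h.fm'.le a ⟨_, b⟩ (c.trans (range_comp_subset_range σ y))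
      omega
  have := h.cls_lind n hn x
  rw [show cls p B k x = Set.univ from eq_univ_of_forall fun y σ e =>
    (e.elim (key x σ) (key y σ)).elim] at this
  exact ⟨this⟩

theorem Sys.not_lind (h : Sys p B K M) (hk : k ≠ 0) : ¬ LindelofSpace (Fin k → Sp p B) := by
  intro H
  obtain ⟨r, h1, h2⟩ := (isClosed_eq (sum_cont (p := p) (B := B) (id : Fin k → Fin k))
    (continuous_const (y := 0))).isLindelof.elim_countable_subcover
    (fun b : B => ⋃ i, {y : Fin k → Sp p B | y i = b.1})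
    (fun b => isOpen_iUnion fun i => iso' b.2 i) fun x hx => by
      have : ∃ b ∈ B, b ∈ range x := by
        rcases h.sumZ hx ⟨0, by omega⟩ with ⟨t, a, ⟨j, -⟩, c⟩ | ⟨t, a, ⟨j, -⟩, c⟩
        · exact ⟨_, h.kB t a j, c ⟨j, rfl⟩⟩
        · exact ⟨_, (h.mB t a ⟨0, j.pos⟩).2 rfl, c ⟨_, rfl⟩⟩
      obtain ⟨b, h1, i, hi⟩ := this
      exact mem_iUnion.2 ⟨⟨b, h1⟩, mem_iUnion.2 ⟨i, hi⟩⟩
  refine h.fk.unc.resolve_right hk ((h1.biUnion fun b _ => (h.fk.one b.1).countable).mono fun t ht => ?_)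
  obtain ⟨b, h3, h4⟩ := mem_iUnion₂.1 (h2 (h.fk.sum t ht))
  obtain ⟨i, hi⟩ := mem_iUnion.1 h4
  exact mem_biUnion h3 ⟨ht, i, hi⟩

lemma Sys.bern (h : Sys p B K M) {F : Set ℝ} (h1 : IsClosed F) (h2 : ¬ F.Countable) :
    ∃ a ∉ B, p a ∈ F := by
  by_contra hc
  push Not at hc
  obtain ⟨W, h3, h4⟩ := h.ber 1 ((fun x => x 0) ⁻¹' F) (h1.preimage (continuous_apply 0))
    fun a ha => hc _ (ha 0)
  refine h2 ((countable_iUnion fun q : ℚ => h3.image fun w => q • w).mono fun x hx => ?_)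
  obtain ⟨q, h5, h6⟩ := h4 (fun _ => x) hx
  have h7 : q 0 ≠ 0 := fun e => h5 (funext fun i => by rw [Subsingleton.elim i 0, e]; rfl)
  refine mem_iUnion.2 ⟨(q 0)⁻¹, _, h6, ?_⟩
  simp [fm, smul_smul, h7]

theorem Sys.not_normal (h : Sys p B K M) (hm : 2 ≤ m) : ¬ NormalSpace (Fin m → Sp p B) := by
  classical
  intro H
  let o : Fin m := ⟨0, by omega⟩
  obtain ⟨U, V, hU, hV, h1, h2, h3⟩ := normal_separation
    (isClosed_eq (sum_cont (p := p) (B := B) (id : Fin m → Fin m)) (continuous_const (y := 0)))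
    (t := {y | ∀ i, y i ∉ B}) (by
      simp only [Set.ofPred_forall]
      refine isClosed_iInter fun i => ⟨isOpen_iff_mem_nhds.2 fun y hy => mem_of_superset
        ((iso' (not_not.1 hy) i).mem_nhds rfl) fun z hz => ?_⟩
      have : z i = y i := hz
      simpa [this] using hy)
    (disjoint_left.2 fun x hx hx' => by
      rcases h.sumZ hx o with ⟨t, a, ⟨j, b⟩, -⟩ | ⟨t, a, -, c⟩
      · exact hx' o (b ▸ h.kB t a j)
      · obtain ⟨i, hi⟩ := c ⟨o, rfl⟩
        exact hx' i ((show x i = t o from hi) ▸ (h.mB t a o).2 rfl))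
  have h4 : ∀ t ∈ M, ∃ q : ℕ × (Fin m → ℚ), ∀ y : Fin m → Sp p B, y o = t o →
      (∀ i ≠ o, dist (p (y i)) (q.2 i) ≤ 1 / (q.1 + 1 : ℝ)) → y ∈ U := fun t ht => by
    obtain ⟨ε, h4, h5⟩ := h.nbn (hU.mem_nhds (h1 (h.fm'.sum t ht)))
    obtain ⟨j, hj⟩ := exists_nat_one_div_lt (half_pos h4)
    choose q hq using fun i => Rat.denseRange_cast.exists_dist_lt (p (t i)) (half_pos h4)
    refine ⟨(j, q), fun y a b => h5 y (fun i hi => ?_) fun i => ?_⟩
    · rwa [show i = o from Fin.ext ((h.mB t ht i).1 hi)]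
    · rcases eq_or_ne i o with rfl | hi
      · rwa [a, dist_self]
      · linarith [dist_triangle_right (p (y i)) (p (t i)) (q i), b i hi, hq i]
  choose! q hq using h4
  obtain ⟨q0, h5⟩ : ∃ q0, ¬ {t ∈ M | q t = q0}.Countable := by
    by_contra hc
    push Not at hc
    exact h.fm'.unc.resolve_right (by omega)
      ((countable_iUnion hc).mono fun t ht => mem_iUnion.2 ⟨q t, by exact ⟨ht, rfl⟩⟩)
  obtain ⟨a0, h6, h7⟩ := h.bern (F := closure ((fun t => p (t o)) '' {t ∈ M | q t = q0}))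
    isClosed_closure fun hc => h5 (countable_of_injective_of_countable_image
      (fun t ht t' ht' e => by
        by_cases e' : t o = t' o
        · exact h.fm'.one (t o) ⟨ht.1, o, rfl⟩ ⟨ht'.1, o, e'.symm⟩
        · rcases h.peq' e e' with ⟨s, a, i, b⟩ | ⟨s, a, -, b⟩
          · exact absurd b (h.dis s a t ht.1 i o)
          · exact absurd (h.fm'.inj s a ((b o).trans (b ⟨1, by omega⟩).symm)) (by simp [o])) (hc.mono subset_closure))
  have h8 : ∀ i, ∃ a ∉ B, p a ∈ closedBall (q0.2 i : ℝ) (1 / (q0.1 + 1 : ℝ)) := fun i =>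
    h.bern isClosed_closedBall (by
      rw [Real.closedBall_eq_Icc, ← Cardinal.le_aleph0_iff_set_countable, mk_Icc_real
        (by linarith [Nat.one_div_pos_of_nat (α := ℝ) (n := q0.1)])]
      exact aleph0_lt_continuum.not_ge)
  choose a h8 h9 using h8
  have h10 : ∀ i, Function.update a o a0 i ∉ B := fun i => by
    rcases eq_or_ne i o with rfl | hi
    · rwa [Function.update_self]
    · rw [Function.update_of_ne hi]
      exact h8 i
  obtain ⟨δ, h11, h12⟩ := h.nbn (hV.mem_nhds (h2 h10))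
  obtain ⟨_, ⟨t, ht, rfl⟩, h13⟩ := Metric.mem_closure_iff.1 h7 δ h11
  refine disjoint_left.1 h3 (hq t ht.1 (Function.update a o (t o)) (Function.update_self _ _ _)
    fun i hi => ?_) (h12 _ (fun i hi => absurd hi (h10 i)) fun i => ?_)
  · rw [Function.update_of_ne hi, ht.2]
    exact h9 i
  · rcases eq_or_ne i o with rfl | hi
    · rwa [Function.update_self, Function.update_self, dist_comm]
    · rwa [Function.update_of_ne hi, Function.update_of_ne hi, dist_self]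

end Pool.Agent.H30.Prz
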