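import Pool.Agent.H30.SplF

set_option autoImplicit false

open Set Filter Topology Cardinal

namespace Pool.Agent.H30.Spl

def Eb {Γ : Type} (K : Set (Γ → ℝ)) : Prop :=
  IsCompact K ∧ ∀ y ∈ K, ∀ ε : ℝ, 0 < ε → {γ | ε ≤ |y γ|}.Finite

lemma flat {T Γ : Type} [TopologicalSpace T] [CompactSpace T] [T2Space T] (v : T → Γ → ℝ)
    (hv : ∀ γ, Continuous fun t => v t γ) {ε : ℝ} (hf : ∀ t, {γ | ε < |v t γ|}.Finite) {V : Set T}
    (hV : IsOpen V) (hne : V.Nonempty) :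
    ∃ V' ⊆ V, IsOpen V' ∧ V'.Nonempty ∧ ∃ E : Finset Γ, ∀ t ∈ V', ∀ γ, γ ∉ E → |v t γ| ≤ ε := by
  classical
  have ho : ∀ E : Finset Γ, IsOpen {t | ∀ γ ∈ E, ε < |v t γ|} := fun E => by
    simp only [setOf_forall]
    exact isOpen_biInter_finset fun γ _ => isOpen_lt continuous_const (hv γ).abs
  have h1 : Dense (⋃ m : ℕ, interior {t | ∀ E : Finset Γ, (∀ γ ∈ E, ε < |v t γ|) → E.card ≤ m}) := by
    refine dense_iUnion_interior_of_closed (fun m => ?_) (eq_univ_of_forall fun t => mem_iUnion.2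
      ⟨(hf t).toFinset.card, fun E hE => Finset.card_le_card fun γ hγ => (hf t).mem_toFinset.2 (hE γ hγ)⟩)
    rw [← isOpen_compl_iff, isOpen_iff_mem_nhds]
    intro t ht
    simp only [mem_compl_iff, mem_setOf_eq, not_forall] at ht
    obtain ⟨E, hE, h2⟩ := ht
    exact mem_of_superset ((ho E).mem_nhds hE) fun u hu h3 => h2 (h3 E hu)
  obtain ⟨t0, ht0, h2⟩ := h1.inter_open_nonempty V hV hne
  obtain ⟨m, hm⟩ := mem_iUnion.1 h2
  let W := V ∩ interior {t | ∀ E : Finset Γ, (∀ γ ∈ E, ε < |v t γ|) → E.card ≤ m}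
  obtain ⟨t, ht, hmax⟩ := Set.Finite.exists_maximalFor' (fun t => (hf t).toFinset.card) W
    ((finite_le_nat m).subset (by
      rintro _ ⟨t, ht, rfl⟩
      exact interior_subset ht.2 _ fun γ hγ => (hf t).mem_toFinset.1 hγ)) ⟨t0, ht0, hm⟩
  refine ⟨W ∩ {u | ∀ γ ∈ (hf t).toFinset, ε < |v u γ|}, fun u hu => hu.1.1,
    (hV.inter isOpen_interior).inter (ho _), ⟨t, ht, fun γ hγ => (hf t).mem_toFinset.1 hγ⟩,
    (hf t).toFinset, fun u hu γ hγ => ?_⟩
  by_contra h3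
  have h4 : (hf t).toFinset ⊆ (hf u).toFinset := fun δ hδ => (hf u).mem_toFinset.2 (hu.2 δ hδ)
  have h5 := Finset.eq_of_subset_of_card_le h4 (hmax hu.1 (Finset.card_le_card h4))
  exact hγ (h5 ▸ (hf u).mem_toFinset.2 (not_le.1 h3))

lemma ps_core {Γ : Type} {K B : Set (Γ → ℝ)} (hK : Eb K) (hB : B ⊆ K) {y : Γ → ℝ} (hy : y ∈ closure B) :
    ∃ V : ℕ → Set (Γ → ℝ), (∀ n, IsOpen (V n)) ∧ (∀ n, (V n ∩ B).Nonempty) ∧
      ∀ γ, ∃ N, ∀ n ≥ N, ∀ x ∈ V n ∩ B, |x γ - y γ| ≤ 2 * (1 / ((n : ℝ) + 1)) := by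
  classical
  have hcl : closure B ⊆ K := closure_minimal hB hK.1.isClosed
  have : CompactSpace (closure B) := isCompact_iff_compactSpace.1 (hK.1.of_isClosed_subset isClosed_closure hcl)
  have h1 : ∀ (n : ℕ) (E : Finset Γ), ∃ (V : Set (Γ → ℝ)) (E' : Finset Γ), IsOpen V ∧ (V ∩ B).Nonempty ∧
      ∀ x ∈ V ∩ B, (∀ γ ∈ E, |x γ - y γ| < 1 / ((n : ℝ) + 1)) ∧ ∀ γ, γ ∉ E' → |x γ| ≤ 1 / ((n : ℝ) + 1) := by
    intro n E
    have hp : (0 : ℝ) < 1 / ((n : ℝ) + 1) := Nat.one_div_pos_of_nat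
    obtain ⟨V', h2, h3, ⟨t, ht⟩, E', h4⟩ := flat (fun (t : closure B) γ => t.1 γ)
      (fun γ => (continuous_apply γ).comp continuous_subtype_val) (ε := 1 / ((n : ℝ) + 1))
      (fun t => (hK.2 _ (hcl t.2) _ hp).subset fun γ hγ =>
        mem_setOf.2 (le_of_lt (mem_setOf.1 hγ)))
      (V := {t | ∀ γ ∈ E, |t.1 γ - y γ| < 1 / ((n : ℝ) + 1)}) (by
        simp only [setOf_forall]
        exact isOpen_biInter_finset fun γ _ => isOpen_lt
          (((continuous_apply γ).comp continuous_subtype_val).sub continuous_const).abs continuous_const)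
      ⟨⟨y, hy⟩, fun γ _ => by simpa using hp⟩
    obtain ⟨V, hV, rfl⟩ := isOpen_induced_iff.1 h3
    exact ⟨V, E', hV, mem_closure_iff.1 t.2 V hV ht, fun x hx =>
      ⟨h2 (show (⟨x, subset_closure hx.2⟩ : closure B) ∈ Subtype.val ⁻¹' V from hx.1),
        h4 ⟨x, subset_closure hx.2⟩ hx.1⟩⟩
  choose V E' h2 h3 h4 using h1
  let E : ℕ → Finset Γ := fun n => Nat.rec ∅ (fun n s => s ∪ E' n s ∪
    (hK.2 y (hcl hy) _ (Nat.one_div_pos_of_nat (n := n))).toFinset) n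
  have hE : Monotone E := monotone_nat_of_le_succ fun n =>
    Finset.subset_union_left.trans Finset.subset_union_left
  refine ⟨fun n => V n (E n), fun n => h2 _ _, fun n => h3 _ _, fun γ => ?_⟩
  rcases em (∃ N, γ ∈ E N) with ⟨N, hN⟩ | h5
  · refine ⟨N, fun n hn x hx => ?_⟩
    have h6 := (h4 n (E n) x hx).1 γ (hE hn hN)
    have hp : (0 : ℝ) < 1 / ((n : ℝ) + 1) := Nat.one_div_pos_of_nat
    linarith
  · refine ⟨0, fun n _ x hx => ?_⟩
    have h6 := (h4 n (E n) x hx).2 γ fun h => h5 ⟨n + 1, Finset.mem_union_left _ (Finset.mem_union_right _ h)⟩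
    have h7 : |y γ| < 1 / ((n : ℝ) + 1) := not_le.1 fun h =>
      h5 ⟨n + 1, Finset.mem_union_right _ ((Set.Finite.mem_toFinset _).2 h)⟩
    linarith [abs_sub (x γ) (y γ)]

lemma two_div : Tendsto (fun n : ℕ => 2 * (1 / ((n : ℝ) + 1))) atTop (𝓝 0) := by
  simpa using (tendsto_one_div_add_atTop_nhds_zero_nat (𝕜 := ℝ)).const_mul 2

variable {X : Type} [TopologicalSpace X]

def FC (X : Type) [TopologicalSpace X] : Prop :=
  ∀ W : ℕ → Set X, (∀ n, IsOpen (W n)) → (∀ n, (W n).Nonempty) → ∃ x, ∀ N, x ∈ closure (⋃ n ≥ N, W n)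

lemma fc_of_pseudo [T35Space X] (h : ∀ f : X → ℝ, Continuous f → ∃ M : ℝ, ∀ x, |f x| ≤ M) : FC X := by
  intro W hW hne
  by_contra hcon
  simp only [not_exists, not_forall] at hcon
  choose p hp using hne
  choose φ h1 h2 h3 using fun n => CompletelyRegularSpace.completely_regular_isOpen (p n) (W n) (hW n) (hp n)
  have h4 : LocallyFinite fun n : ℕ => Function.support fun x => (n : ℝ) * (1 - (φ n x : ℝ)) := by
    intro x
    obtain ⟨N, hN⟩ := hcon x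
    refine ⟨_, isClosed_closure.isOpen_compl.mem_nhds hN, (finite_lt_nat N).subset ?_⟩
    rintro n ⟨u, hu, hu2⟩
    by_contra h5
    refine hu2 (subset_closure (mem_biUnion (show n ≥ N from not_lt.1 h5) ?_))
    by_contra h6
    exact hu (by simp [h3 n h6])
  obtain ⟨M, hM⟩ := h _ (continuous_finsum (fun n => continuous_const.mul
    (continuous_const.sub (continuous_subtype_val.comp (h1 n)))) h4)
  obtain ⟨n, hn⟩ := exists_nat_gt M
  have h5 := single_le_finsum n (f := fun m : ℕ => (m : ℝ) * (1 - (φ m (p n) : ℝ)))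
    (h4.point_finite (p n)) fun m => mul_nonneg (Nat.cast_nonneg m) (sub_nonneg.2 (φ m (p n)).2.2)
  have h6 := (le_abs_self _).trans (hM (p n))
  simp only [h2 n, Icc.coe_zero, sub_zero, mul_one] at h5
  exact absurd (h5.trans h6) (not_le.2 hn)

lemma ps (hX : FC X) {Γ : Type} {K : Set (Γ → ℝ)} (hK : Eb K) {f : X → Γ → ℝ} (hf : Continuous f)
    (hfK : ∀ x, f x ∈ K) {U : Set X} (hU : IsOpen U) {y : Γ → ℝ} (hy : y ∈ closure (f '' U)) :
    ∃ x ∈ closure U, f x = y := by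
  obtain ⟨V, h1, h2, h3⟩ := ps_core hK (by rintro _ ⟨x, -, rfl⟩; exact hfK x) hy
  obtain ⟨x, hx⟩ := hX (fun n => U ∩ f ⁻¹' V n) (fun n => hU.inter ((h1 n).preimage hf)) fun n => by
    obtain ⟨_, h4, x, hx, rfl⟩ := h2 n
    exact ⟨x, hx, h4⟩
  refine ⟨x, closure_mono (iUnion₂_subset fun n _ => inter_subset_left) (hx 0), funext fun γ => ?_⟩
  obtain ⟨N, hN⟩ := h3 γ
  have h4 : |f x γ - y γ| ≤ 0 := by
    refine ge_of_tendsto two_div (eventually_atTop.2 ⟨N, fun m hm => ?_⟩)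
    refine closure_minimal (t := {u | |f u γ - y γ| ≤ 2 * (1 / ((m : ℝ) + 1))})
      (iUnion₂_subset fun n hn u hu => ?_)
      (isClosed_le (((continuous_apply γ).comp hf).sub continuous_const).abs continuous_const) (hx m)
    exact (hN n (le_trans hm hn) _ ⟨hu.2, u, hu.1, rfl⟩).trans
      (mul_le_mul_of_nonneg_left (Nat.one_div_le_one_div hn) zero_le_two)
  exact sub_eq_zero.1 (abs_nonpos_iff.1 h4)

lemma eb_diag {Γ : ℕ → Type} {K : ∀ n, Set (Γ n → ℝ)} (hK : ∀ n, Eb (K n)) :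
    ∃ G : (∀ n, Γ n → ℝ) → (Σ n, Γ n) → ℝ, Continuous G ∧ Function.Injective G ∧ Eb (G '' univ.pi K) := by
  have hp : ∀ n : ℕ, (0 : ℝ) < (n : ℝ) + 1 := fun n => by positivity
  have hc : Continuous fun (y : ∀ n, Γ n → ℝ) (q : Σ n, Γ n) => cut (y q.1 q.2) / ((q.1 : ℝ) + 1) :=
    continuous_pi fun q => (cut_cont.comp ((continuous_apply q.2).comp (continuous_apply q.1))).div_const _
  refine ⟨_, hc, fun x y hxy => funext fun n => funext fun γ =>
    cut_inj ((div_left_inj' (hp n).ne').1 (congrFun hxy ⟨n, γ⟩)),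
    (isCompact_univ_pi fun n => (hK n).1).image hc, ?_⟩
  rintro _ ⟨y, hy, rfl⟩ ε hε
  obtain ⟨N, hN⟩ := exists_nat_one_div_lt hε
  refine ((finite_lt_nat N).biUnion fun n _ => ((hK n).2 _ (hy n trivial) ε hε).image
    fun γ => (⟨n, γ⟩ : Σ n : ℕ, Γ n)).subset ?_
  rintro ⟨n, γ⟩ hq
  simp only [mem_setOf_eq, abs_div, abs_of_pos (hp n)] at hq
  refine mem_biUnion (x := n) ?_ ⟨γ, ?_, rfl⟩
  · by_contra h3
    have h4 : (1 : ℝ) / ((n : ℝ) + 1) ≤ 1 / ((N : ℝ) + 1) := Nat.one_div_le_one_div (not_lt.1 h3)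
    have h5 : |cut (y n γ)| / ((n : ℝ) + 1) ≤ 1 / ((n : ℝ) + 1) :=
      div_le_div_of_nonneg_right (cut_le_one _) (hp n).le
    linarith
  · exact le_trans hq ((div_le_self (abs_nonneg _)
      (by linarith [(Nat.cast_nonneg n : (0 : ℝ) ≤ n)])).trans (cut_le _))

def SE (X : Type) [TopologicalSpace X] : Prop :=
  ∀ A : Set X, ∃ (Γ : Type) (K : Set (Γ → ℝ)) (f : X → Γ → ℝ), Eb K ∧ Continuous f ∧ (∀ x, f x ∈ K) ∧
    ∀ x y, f x = f y → (x ∈ A ↔ y ∈ A)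

lemma SE.sub (h : SE X) (Y : Set X) : SE Y := by
  intro A
  obtain ⟨Γ, K, f, h1, h2, h3, h4⟩ := h (Subtype.val '' A)
  exact ⟨Γ, K, fun y => f y.1, h1, h2.comp continuous_subtype_val, fun y => h3 _,
    fun x y hxy => by simpa using h4 _ _ hxy⟩

lemma loc_base [RegularSpace X] (hX : FC X) {Γ : Type} {K : Set (Γ → ℝ)} (hK : Eb K) {f : X → Γ → ℝ}
    (hf : Continuous f) (hfK : ∀ x, f x ∈ K) {x : X} (hx : ∀ y, f y = f x → y = x) :
    comap f (𝓝 (f x)) ≤ 𝓝 x := by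
  intro O hO
  obtain ⟨C, hC, h1, h2⟩ := exists_mem_nhds_isClosed_subset hO
  refine mem_comap.2 ⟨(closure (f '' Cᶜ))ᶜ, isClosed_closure.isOpen_compl.mem_nhds fun h3 => ?_,
    fun u hu => h2 ?_⟩
  · obtain ⟨u, hu, h4⟩ := ps hX hK hf hfK h1.isOpen_compl h3
    rw [hx u h4, closure_compl] at hu
    exact hu (mem_interior_iff_mem_nhds.2 hC)
  · by_contra h3
    exact hu (subset_closure ⟨u, h3, rfl⟩)

lemma frechet [RegularSpace X] (hX : FC X) (hS : SE X) {A : Set X} {x : X} (hx : x ∈ closure A) :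
    ∃ a : ℕ → X, (∀ n, a n ∈ A) ∧ Tendsto a atTop (𝓝 x) := by
  obtain ⟨Γ, K, f, h1, h2, h3, h4⟩ := hS {x}
  obtain ⟨V, -, h5, h6⟩ := ps_core h1 (B := f '' A) (by rintro _ ⟨x, -, rfl⟩; exact h3 x)
    (image_closure_subset_closure_image h2 ⟨x, hx, rfl⟩)
  have h7 : ∀ n, ∃ a ∈ A, f a ∈ V n := fun n => by
    obtain ⟨_, h7, a, ha, rfl⟩ := h5 n
    exact ⟨a, ha, h7⟩
  choose a ha1 ha2 using h7
  refine ⟨a, ha1, Tendsto.mono_right (tendsto_comap_iff.2 (tendsto_pi_nhds.2 fun γ => ?_))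
    (loc_base hX h1 h2 h3 fun y hy => (h4 y x hy).2 rfl)⟩
  obtain ⟨N, hN⟩ := h6 γ
  rw [tendsto_iff_dist_tendsto_zero]
  exact squeeze_zero' (Eventually.of_forall fun n => dist_nonneg)
    (eventually_atTop.2 ⟨N, fun n hn => hN n hn _ ⟨ha2 n, a n, ha1 n, rfl⟩⟩) two_div

lemma ultra [RegularSpace X] (hX : FC X) (hS : SE X) (hn : ¬ CompactSpace X) :
    ∃ 𝒰 : Ultrafilter X, (∀ x, ¬ (𝒰 : Filter X) ≤ 𝓝 x) ∧ (∀ A ∈ 𝒰, ∃ F ∈ 𝒰, IsClosed F ∧ F ⊆ A) ∧
      ∀ A : ℕ → Set X, (∀ n, A n ∈ 𝒰) → (⋂ n, A n) ∈ 𝒰 := by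
  classical
  rw [← isCompact_univ_iff, isCompact_iff_ultrafilter_le_nhds] at hn
  simp only [principal_univ, le_top, mem_univ, true_and, forall_const, not_forall, not_exists] at hn
  obtain ⟨𝒲, h𝒲⟩ := hn
  choose Γ K f h1 h2 h3 h4 using hS
  choose y hy1 hy2 using fun A => (h1 A).1.ultrafilter_le_nhds (𝒲.map (f A))
    (le_principal_iff.2 (Filter.mem_map.2 (Eventually.of_forall (h3 A))))
  have key : ∀ A : ℕ → Set X, ∃ x, ∀ n, f (A n) x = y (A n) := by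
    intro A
    obtain ⟨G, hG1, hG2, hG3⟩ := eb_diag fun n => h1 (A n)
    obtain ⟨x, -, hx⟩ := ps hX hG3 (f := fun x => G fun n => f (A n) x)
      (hG1.comp (continuous_pi fun n => h2 _)) (fun x => ⟨_, fun n _ => h3 _ x, rfl⟩) isOpen_univ
      (y := G fun n => y (A n)) (mem_closure_of_tendsto (b := (𝒲 : Filter X))
        ((hG1.tendsto _).comp (tendsto_pi_nhds.2 fun n => hy2 (A n)))
        (Eventually.of_forall fun x => ⟨x, trivial, rfl⟩))
    exact ⟨x, congrFun (hG2 hx)⟩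
  obtain ⟨𝒰, h𝒰⟩ := Ultrafilter.exists_ultrafilter_of_finite_inter_nonempty
    (range fun A => {x | f A x = y A}) (by
      intro T hT
      choose A hA using fun t : T => hT t.2
      obtain ⟨e, he⟩ := exists_surjective_nat (Option T)
      obtain ⟨x, hx⟩ := key fun n => (e n).elim ∅ A
      refine ⟨x, fun t ht => ?_⟩
      obtain ⟨n, hn⟩ := he (some ⟨t, ht⟩)
      have h5 := hx n
      rw [hn] at h5
      have h6 := hA ⟨t, ht⟩
      simp only at h6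
      rw [← h6]
      exact h5)
  have h5 : ∀ A, {x | f A x = y A} ∈ 𝒰 := fun A => h𝒰 ⟨A, rfl⟩
  have h6 : ∀ A ∈ 𝒰, {x | f A x = y A} ⊆ A := by
    intro A hA x hx
    obtain ⟨u, hu1, hu2⟩ := Ultrafilter.nonempty_of_mem (inter_mem hA (h5 A))
    exact (h4 A u x (hu2.trans hx.symm)).1 hu1
  refine ⟨𝒰, fun x hx => h𝒲 x ?_, fun A hA => ⟨_, h5 A, isClosed_eq (h2 A) continuous_const, h6 A hA⟩,
    fun A hA => ?_⟩
  · have h7 : f {x} x = y {x} :=
      IsClosed.mem_of_tendsto (s := {u | f {x} u = y {x}}) (b := (𝒰 : Filter X)) (f := id)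
        (isClosed_eq (h2 {x}) continuous_const) hx (h5 {x})
    refine le_trans ?_ (loc_base hX (h1 {x}) (h2 _) (h3 _) fun u hu => (h4 {x} u x hu).2 rfl)
    rw [← map_le_iff_le_comap, h7]
    exact hy2 {x}
  · by_contra h7
    obtain ⟨x, hx⟩ := key fun n => Nat.casesOn n (⋂ n, A n)ᶜ A
    exact h6 _ (Ultrafilter.compl_mem_iff_notMem.2 h7) (hx 0) (mem_iInter.2 fun n => h6 _ (hA n) (hx (n + 1)))

lemma small_compact [RegularSpace X] (hX : FC X) (hS : SE X) (h : #X ≤ 𝔠) : CompactSpace X := by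
  by_contra hn
  obtain ⟨𝒰, h1, -, h3⟩ := ultra hX hS hn
  obtain ⟨j⟩ := (Cardinal.le_def _ _).1 (h.trans mk_code.ge)
  have h4 : ∀ n, ∃ b, {x | j x n = b} ∈ 𝒰 := by
    intro n
    by_cases h5 : {x | j x n = true} ∈ 𝒰
    · exact ⟨true, h5⟩
    · refine ⟨false, mem_of_superset (Ultrafilter.compl_mem_iff_notMem.2 h5) fun x hx => ?_⟩
      simpa using hx
  choose b hb using h4
  obtain ⟨x, hx⟩ := Ultrafilter.nonempty_of_mem (h3 _ hb)
  refine h1 x fun O hO => mem_of_superset (h3 _ hb) fun u hu => ?_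
  rw [j.injective (funext fun n => (mem_iInter.1 hu n).trans (mem_iInter.1 hx n).symm)]
  exact mem_of_mem_nhds hO

end Pool.Agent.H30.Spl
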