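import Pool.Agent.H30.PsA

set_option autoImplicit false

open Set Filter Topology Cardinal

namespace Pool.Agent.H30.Spl

lemma hull2 {Ω : Type} [Nonempty Ω] (c : Set Ω → Set Ω) (hc : ∀ S : Set Ω, S.Countable → #(c S) ≤ 𝔠)
    {W : Set Ω} (hW : #W ≤ 𝔠) :
    ∃ Y, W ⊆ Y ∧ #Y ≤ 𝔠 ∧ ∀ S ⊆ Y, S.Countable → S.Nonempty → c S ⊆ Y := by
  obtain ⟨w, hw⟩ := enum (P := (univ : Set ℝ)) (S := W) (by rwa [mk_univ, mk_real])
  choose e he using fun s : ℕ → Ω => enum (P := (univ : Set ℝ)) (S := c (range s))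
    (by rw [mk_univ, mk_real]; exact hc _ (countable_range s))
  let β : ℝ ⊕ ℝ → Type := Sum.elim (fun _ => Empty) fun _ => ℕ
  let ev : WType β → Ω := WType.elim Ω fun q => match q with
    | ⟨Sum.inl r, _⟩ => w r
    | ⟨Sum.inr r, s⟩ => e s r
  refine ⟨range ev, fun x hx => ?_, mk_range_le.trans (WType.cardinalMk_le_of_le ?_), fun S hS h1 h2 x hx => ?_⟩
  · obtain ⟨r, -, rfl⟩ := hw hx
    exact ⟨⟨Sum.inl r, fun b => b.elim⟩, rfl⟩
  · refine (sum_le_sum _ (fun _ => 𝔠) ?_).trans (by simp [mk_real])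
    rintro (r | r)
    · simpa [β] using one_lt_aleph0.le.trans aleph0_le_continuum
    · simp [β]
  · obtain ⟨s, rfl⟩ := h1.exists_eq_range h2
    choose τ hτ using fun n => hS (mem_range_self n)
    obtain ⟨r, -, rfl⟩ := he s hx
    refine ⟨⟨Sum.inr r, τ⟩, ?_⟩
    show e (fun n => ev (τ n)) r = e s r
    rw [funext hτ]

variable {X : Type} [TopologicalSpace X]

lemma mk_seq {α : Type} {S : Set α} (hS : S.Countable) : #(ℕ → S) ≤ 𝔠 := by
  simp only [mk_pi, prod_const, lift_id, mk_nat]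
  calc _ ≤ 𝔠 ^ ℵ₀ := power_le_power_right
        ((Cardinal.le_aleph0_iff_set_countable.2 hS).trans aleph0_le_continuum)
    _ = 𝔠 := continuum_power_aleph0

theorem omega_bdd [T3Space X] (hX : FC X) (hS : SE X) {D : Set X} (hD : D.Countable) :
    IsCompact (closure D) := by
  classical
  rcases isEmpty_or_nonempty X with he | hne
  · exact (Set.subsingleton_of_subsingleton).isCompact
  have h1 : ∀ y : X, ∃ Ψ : Set C(X, ℝ), (∀ z, {g | g ∈ Ψ ∧ g z ≠ 0}.Countable) ∧ ∀ O ∈ 𝓝 y,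
      ∃ E : Finset C(X, ℝ), ↑E ⊆ Ψ ∧ ∃ k : ℕ, {x | ∀ g ∈ E, |g x - g y| < 1 / ((k : ℝ) + 1)} ⊆ O := by
    intro y
    obtain ⟨Γ, K, f, h1, h2, h3, h4⟩ := hS {y}
    let p : Γ → C(X, ℝ) := fun γ => ⟨fun x => f x γ, (continuous_apply γ).comp h2⟩
    refine ⟨range p, fun z => ((c0_cnt (u := f z) fun ε hε => (h1.2 _ (h3 z) ε hε).subset fun γ hγ =>
      mem_setOf.2 (le_of_lt (mem_setOf.1 hγ))).image p).mono ?_, fun O hO => ?_⟩
    · rintro _ ⟨⟨γ, rfl⟩, h5⟩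
      exact ⟨γ, h5, rfl⟩
    · obtain ⟨V, hV, hVO⟩ := mem_comap.1 (loc_base hX h1 h2 h3 (fun u hu => (h4 u y hu).2 rfl) hO)
      rw [nhds_pi, Filter.mem_pi] at hV
      obtain ⟨I, hI, T, hT, hTV⟩ := hV
      have h5 : ∀ γ, ∃ k : ℕ, Metric.ball (f y γ) (1 / ((k : ℝ) + 1)) ⊆ T γ := fun γ => by
        obtain ⟨ε, hε, h5⟩ := Metric.mem_nhds_iff.1 (hT γ)
        obtain ⟨k, hk⟩ := exists_nat_one_div_lt hε
        exact ⟨k, (Metric.ball_subset_ball hk.le).trans h5⟩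
      choose k hk using h5
      refine ⟨hI.toFinset.image p, by simp, hI.toFinset.sup k, fun x hx => hVO (hTV fun γ hγ => hk γ ?_)⟩
      exact lt_of_lt_of_le (hx (p γ) (Finset.mem_image_of_mem p (hI.mem_toFinset.2 hγ)))
        (Nat.one_div_le_one_div (Finset.le_sup (f := k) (hI.mem_toFinset.2 hγ)))
  choose Ψ hΨ1 hΨ2 using h1
  let 𝔅 : Set X → Set (Set X) := fun S => ⋃ y ∈ S,
    ⋃ E ∈ {E : Finset C(X, ℝ) | ↑E ⊆ ⋃ z ∈ S, {g | g ∈ Ψ y ∧ g z ≠ 0}},
      range fun k : ℕ => {x | ∀ g ∈ E, |g x - g y| < 1 / ((k : ℝ) + 1)}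
  have hB1 : ∀ S : Set X, S.Countable → (𝔅 S).Countable := fun S hS => hS.biUnion fun y _ =>
    (cnt_finsets (hS.biUnion fun z _ => hΨ1 y z)).biUnion fun E _ => countable_range _
  have hB2 : ∀ S, ∀ B ∈ 𝔅 S, IsOpen B ∧ B.Nonempty := by
    intro S B hB
    simp only [𝔅, mem_iUnion, mem_range] at hB
    obtain ⟨y, -, E, -, k, rfl⟩ := hB
    refine ⟨?_, y, fun g _ => by simpa using (Nat.one_div_pos_of_nat (α := ℝ) (n := k))⟩
    simp only [setOf_forall]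
    exact isOpen_biInter_finset fun g _ => isOpen_lt (g.continuous.sub continuous_const).abs continuous_const
  have hB3 : Monotone 𝔅 := fun S S' h => iUnion₂_mono' fun y hy => ⟨y, h hy, iUnion₂_mono' fun E hE =>
    ⟨E, Subset.trans hE (biUnion_subset_biUnion_left h), Subset.rfl⟩⟩
  have hB4 : ∀ Y : Set X, ∀ y ∈ Y, ∀ O ∈ 𝓝 y, ∃ S ⊆ Y, S.Countable ∧ S.Nonempty ∧
      ∃ B ∈ 𝔅 S, y ∈ B ∧ B ∩ Y ⊆ O := by
    intro Y y hy O hO
    obtain ⟨E, hE, k, hk⟩ := hΨ2 y O hO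
    have h1 : ∀ g : C(X, ℝ), ∃ z ∈ Y, (∃ z ∈ Y, g z ≠ 0) → g z ≠ 0 := fun g => by
      by_cases h : ∃ z ∈ Y, g z ≠ 0
      · obtain ⟨z, hz, h⟩ := h
        exact ⟨z, hz, fun _ => h⟩
      · exact ⟨y, hy, fun h' => (h h').elim⟩
    choose z hz1 hz2 using h1
    refine ⟨insert y (z '' E), insert_subset hy (by rintro _ ⟨g, -, rfl⟩; exact hz1 g),
      ((Finset.countable_toSet E).image z).insert y, insert_nonempty _ _,
      {x | ∀ g ∈ E.filter fun g => ∃ z ∈ Y, g z ≠ 0, |g x - g y| < 1 / ((k : ℝ) + 1)},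
      mem_biUnion (mem_insert _ _) (mem_biUnion (x := E.filter fun g => ∃ z ∈ Y, g z ≠ 0)
        (fun g hg => ?_) ⟨k, rfl⟩), fun g _ => by simpa using (Nat.one_div_pos_of_nat (α := ℝ) (n := k)),
      fun x hx => hk fun g hg => ?_⟩
    · have h2 := Finset.mem_filter.1 hg
      exact mem_biUnion (x := z g) (Or.inr ⟨g, h2.1, rfl⟩) ⟨hE h2.1, hz2 g h2.2⟩
    · by_cases h2 : ∃ z ∈ Y, g z ≠ 0
      · exact hx.1 g (Finset.mem_filter.2 ⟨hg, h2⟩)
      · have h3 : ∀ z ∈ Y, g z = 0 := fun z hz => not_not.1 fun h => h2 ⟨z, hz, h⟩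
        rw [h3 x hx.2, h3 y hy]
        simpa using (Nat.one_div_pos_of_nat (α := ℝ) (n := k))
  have h2 : ∀ W : ℕ → Set X, ∃ x, (∀ n, IsOpen (W n) ∧ (W n).Nonempty) →
      ∀ N, x ∈ closure (⋃ n ≥ N, W n) := fun W => by
    by_cases h : ∀ n, IsOpen (W n) ∧ (W n).Nonempty
    · obtain ⟨x, hx⟩ := hX W (fun n => (h n).1) fun n => (h n).2
      exact ⟨x, fun _ => hx⟩
    · exact ⟨Classical.arbitrary X, fun h' => (h h').elim⟩
  choose acc hacc using h2
  have h3 : ∀ V : Set X, ∃ p, V.Nonempty → p ∈ V := fun V => by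
    by_cases hV : V.Nonempty
    · exact ⟨hV.some, fun _ => hV.some_mem⟩
    · exact ⟨Classical.arbitrary X, fun h => (hV h).elim⟩
  choose pt hpt using h3
  obtain ⟨Y, hY1, hY2, hY3⟩ := hull2 (fun S : Set X => (range fun s : ℕ → S => limUnder atTop fun n => (s n).1) ∪
      ((range fun W : ℕ → 𝔅 S => acc fun n => (W n).1) ∪ range fun W : ℕ → 𝔅 S => pt ((W 0).1 ∩ (W 1).1)))
    (fun S hS => (mk_union_le _ _).trans (add_le_of_le aleph0_le_continuum (mk_range_le.trans (mk_seq hS))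
      ((mk_union_le _ _).trans (add_le_of_le aleph0_le_continuum (mk_range_le.trans (mk_seq (hB1 S hS)))
        (mk_range_le.trans (mk_seq (hB1 S hS)))))))
    ((Cardinal.le_aleph0_iff_set_countable.2 hD).trans aleph0_le_continuum)
  have h4 : IsClosed Y := by
    rw [← closure_subset_iff_isClosed]
    intro x hx
    obtain ⟨a, ha1, ha2⟩ := frechet hX hS hx
    exact hY3 (range a) (by rintro _ ⟨n, rfl⟩; exact ha1 n) (countable_range a) (range_nonempty a)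
      (Or.inl ⟨fun n => ⟨a n, n, rfl⟩, ha2.limUnder_eq⟩)
  have h5 : FC Y := by
    intro W hW hne
    choose y hy using hne
    choose O hO1 hO2 using fun n => isOpen_induced_iff.1 (hW n)
    choose S hS1 hS2 hS3 B hB5 hB6 hB7 using fun n => hB4 Y (y n).1 (y n).2 (O n)
      ((hO1 n).mem_nhds (show y n ∈ Subtype.val ⁻¹' O n from (hO2 n).symm ▸ hy n))
    have h6 : ∀ n, B n ∈ 𝔅 (⋃ n, S n) := fun n => hB3 (subset_iUnion S n) (hB5 n)
    have h7 : acc B ∈ Y := hY3 (⋃ n, S n) (iUnion_subset hS1) (countable_iUnion hS2)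
      ((hS3 0).mono (subset_iUnion S 0)) (Or.inr (Or.inl ⟨fun n => ⟨B n, h6 n⟩, rfl⟩))
    refine ⟨⟨acc B, h7⟩, fun N => mem_closure_iff_nhds.2 fun U hU => ?_⟩
    obtain ⟨U', hU', h8⟩ := (mem_nhds_subtype _ _ _).1 hU
    obtain ⟨S', h9, h10, h11, B', h12, h13, h14⟩ := hB4 Y _ h7 U' hU'
    obtain ⟨u, hu1, hu2⟩ := mem_closure_iff.1 (hacc B (fun n => hB2 _ _ (hB5 n)) N) B' (hB2 _ _ h12).1 h13
    obtain ⟨n, hn, hu2⟩ := mem_iUnion₂.1 hu2
    have h15 : pt (B' ∩ B n) ∈ Y := hY3 (S' ∪ S n) (union_subset h9 (hS1 n)) (h10.union (hS2 n))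
      (h11.mono subset_union_left) (Or.inr (Or.inr ⟨fun m => Nat.casesOn m ⟨B', hB3 subset_union_left h12⟩
        fun _ => ⟨B n, hB3 subset_union_right (hB5 n)⟩, rfl⟩))
    have h16 := hpt (B' ∩ B n) ⟨u, hu1, hu2⟩
    refine ⟨⟨_, h15⟩, h8 (h14 ⟨h16.1, h15⟩), mem_biUnion hn ?_⟩
    rw [← hO2 n]
    exact hB7 n ⟨h16.2, h15⟩
  exact (isCompact_iff_compactSpace.2 (small_compact h5 (hS.sub Y) hY2)).of_isClosed_subset isClosed_closure
    (closure_minimal hY1 h4)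

lemma fc_of_omega (h : ∀ D : Set X, D.Countable → IsCompact (closure D)) {Y : Set X} (hY : IsClosed Y) :
    FC Y := by
  intro W _ hne
  choose y hy using hne
  obtain ⟨a, ha⟩ := IsCompact.nonempty_iInter_of_sequence_nonempty_isCompact_isClosed
    (fun k => closure ((fun i => (y i).1) '' Ici k))
    (fun k => closure_mono (image_mono (Ici_subset_Ici.2 (Nat.le_succ k))))
    (fun k => ⟨_, subset_closure ⟨k, mem_Ici.2 le_rfl, rfl⟩⟩) (h _ ((to_countable _).image _))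
    fun k => isClosed_closure
  refine ⟨⟨a, closure_minimal (by rintro _ ⟨n, -, rfl⟩; exact (y n).2) hY (mem_iInter.1 ha 0)⟩, fun N => ?_⟩
  rw [IsEmbedding.subtypeVal.closure_eq_preimage_closure_image]
  refine closure_mono ?_ (mem_iInter.1 ha N)
  rintro _ ⟨n, hn, rfl⟩
  exact ⟨y n, mem_biUnion hn (hy n), rfl⟩

lemma nat_const {α : Type} {𝒰 : Ultrafilter α} (h : ∀ A : ℕ → Set α, (∀ n, A n ∈ 𝒰) → (⋂ n, A n) ∈ 𝒰)
    (g : α → ℕ) : ∃ n, {x | g x = n} ∈ 𝒰 := by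
  by_contra hcon
  obtain ⟨x, hx⟩ := Ultrafilter.nonempty_of_mem (h (fun n => {x | g x = n}ᶜ)
    fun n => Ultrafilter.compl_mem_iff_notMem.2 fun h1 => hcon ⟨n, h1⟩)
  exact mem_iInter.1 hx (g x) rfl

lemma sigma_case [T3Space X] (hX : FC X) (hS : SE X) (K : ℕ → Set X) (hK : ∀ n, IsCompact (K n))
    (hd : Dense (⋃ n, K n)) : CompactSpace X := by
  by_contra hn
  obtain ⟨𝒰, h1, -, h3⟩ := ultra hX hS hn
  choose a ha1 ha2 using fun z => frechet hX hS (hd z)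
  choose m hm1 using fun z k => mem_iUnion.1 (ha1 z k)
  choose μ hμ using fun k => nat_const h3 fun z => m z k
  choose w hw1 hw2 using fun k => (hK (μ k)).ultrafilter_le_nhds (𝒰.map fun z => a z k)
    (le_principal_iff.2 (Filter.mem_map.2 (mem_of_superset (hμ k) fun z hz => by
      have h4 := hm1 z k
      rw [show m z k = μ k from hz] at h4
      exact h4)))
  obtain ⟨p, hp⟩ := IsCompact.nonempty_iInter_of_sequence_nonempty_isCompact_isClosed
    (fun k => closure (w '' Ici k))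
    (fun k => closure_mono (image_mono (Ici_subset_Ici.2 (Nat.le_succ k))))
    (fun k => ⟨_, subset_closure ⟨k, mem_Ici.2 le_rfl, rfl⟩⟩) (omega_bdd hX hS ((to_countable _).image _))
    fun k => isClosed_closure
  refine h1 p fun O hO => ?_
  by_contra h4
  obtain ⟨C, hC, h5, h6⟩ := exists_mem_nhds_isClosed_subset hO
  have h7 : ∀ z, ∃ n, z ∉ O → ∀ k ≥ n, a z k ∈ Cᶜ := fun z => by
    by_cases hz : z ∈ O
    · exact ⟨0, fun h => (h hz).elim⟩
    · obtain ⟨n, hn⟩ := eventually_atTop.1 (ha2 z (h5.isOpen_compl.mem_nhds fun h => hz (h6 h)))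
      exact ⟨n, fun _ => hn⟩
  choose ν hν using h7
  obtain ⟨n, hn⟩ := nat_const h3 ν
  have h8 : closure (w '' Ici n) ⊆ closure Cᶜ := by
    refine closure_minimal ?_ isClosed_closure
    rintro _ ⟨k, hk, rfl⟩
    refine mem_closure_of_tendsto (b := (𝒰 : Filter X)) (f := fun z => a z k) (hw2 k) ?_
    filter_upwards [hn, Ultrafilter.compl_mem_iff_notMem.2 h4] with z hz1 hz2
    exact hν z hz2 k (hz1 ▸ hk)
  have h9 := h8 (mem_iInter.1 hp n)
  rw [closure_compl] at h9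
  exact h9 (mem_interior_iff_mem_nhds.2 hC)

lemma club_om {I : Type} [LinearOrder I] [WellFoundedLT I] {κ : Cardinal.{0}} (hκ : κ.IsRegular)
    (h0 : ℵ₀ < κ) (hI : κ ≤ #I) (hI2 : ∀ i : I, #(Iio i) < κ) {c : Finset I → Set I}
    (hc : ∀ s, #(c s) < κ) : ∃ δ, (∀ s : Finset I, ↑s ⊆ Iio δ → c s ⊆ Iio δ) ∧
      ∃ β : ℕ → I, (∀ n, β n < δ) ∧ ∀ ξ < δ, ∃ n, ξ ≤ β n := by
  have hne : Nonempty I := mk_ne_zero_iff.1 ((aleph0_pos.trans h0).trans_le hI).ne'
  choose nx h1 h2 using club hκ h0 hI hI2 hc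
  let b : ℕ → I := fun n => nx^[n + 1] (Classical.arbitrary I)
  have hb : ∀ n, b (n + 1) = nx (b n) := fun n => Function.iterate_succ_apply' _ _ _
  have hm : StrictMono b := strictMono_nat_of_lt_succ fun n => by rw [hb]; exact h1 _
  obtain ⟨u, -, hu⟩ := club hκ h0 hI hI2 (c := fun _ => range b)
    (fun _ => mk_range_le.trans_lt (by simpa using h0)) (b 0)
  obtain ⟨δ, hδ, hmin⟩ := (wellFounded_lt (α := I)).has_min {γ | ∀ n, b n < γ}
    ⟨u, fun n => hu ∅ (by simp) ⟨n, rfl⟩⟩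
  have h3 : ∀ ξ < δ, ∃ n, ξ ≤ b n := fun ξ hξ => by
    by_contra h3
    exact hmin ξ (fun n => not_le.1 fun h => h3 ⟨n, h⟩) hξ
  refine ⟨δ, fun s hs => ?_, b, hδ, h3⟩
  choose! n hn using h3
  have h4 : (s : Set I) ⊆ Iio (nx (b (s.sup n))) := fun x hx =>
    lt_of_le_of_lt ((hn x (hs hx)).trans (hm.monotone (Finset.le_sup (f := n) hx))) (h1 _)
  refine (h2 _ s h4).trans (Iio_subset_Iio ?_)
  rw [← hb]
  exact (hδ _).le

lemma chain_case [T3Space X] (hX : FC X) (hS : SE X) {I : Type} [LinearOrder I] [WellFoundedLT I]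
    {κ : Cardinal.{0}} (hκ : κ.IsRegular) (h0 : ℵ₀ < κ) (hI : κ ≤ #I) (hI2 : ∀ i : I, #(Iio i) < κ)
    (L : I → Set X) (hL : ∀ i, IsCompact (L i)) (hm : Monotone L) (hc : ∀ x, ∃ i, x ∈ L i) :
    CompactSpace X := by
  classical
  by_contra hn
  obtain ⟨𝒰, h1, h2, h3⟩ := ultra hX hS hn
  have h4 : ∀ i, (L i)ᶜ ∈ 𝒰 := fun i => Ultrafilter.compl_mem_iff_notMem.2 fun h => by
    obtain ⟨x, -, hx⟩ := (hL i).ultrafilter_le_nhds' 𝒰 h
    exact h1 x hx
  choose N hN1 hN2 hN3 using fun i => h2 _ (h4 i)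
  choose r hr1 hr2 using fun x => (wellFounded_lt (α := I)).has_min {i | x ∈ L i} (hc x)
  have h5 : ∀ V : Set I, ∃ ρ : Finset I → I, r ⁻¹' V ∈ 𝒰 → ∀ δ, (∀ s : Finset I, ↑s ⊆ Iio δ → ρ s < δ) →
      (∃ β : ℕ → I, (∀ n, β n < δ) ∧ ∀ ξ < δ, ∃ n, ξ ≤ β n) → δ ∈ V := by
    intro V
    by_cases hV : r ⁻¹' V ∈ 𝒰
    swap
    · obtain ⟨x, -⟩ := Ultrafilter.nonempty_of_mem (univ_mem : Set.univ ∈ (𝒰 : Filter X))
      exact ⟨fun _ => r x, fun h => (hV h).elim⟩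
    obtain ⟨F, hF1, hF2, hF3⟩ := h2 _ hV
    choose x hx using fun s : Finset I => Ultrafilter.nonempty_of_mem
      (inter_mem hF1 ((biInter_finset_mem s).2 fun i _ => hN1 i))
    refine ⟨fun s => r (x s), fun _ δ hδ ⟨β, hβ1, hβ2⟩ => ?_⟩
    obtain ⟨p, hp⟩ := IsCompact.nonempty_iInter_of_sequence_nonempty_isCompact_isClosed
      (fun k => L δ ∩ (F ∩ ⋂ i ∈ (Finset.range k).image β, N i))
      (fun k => inter_subset_inter_right _ (inter_subset_inter_right _ (biInter_subset_biInter_left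
        (Finset.image_subset_image (Finset.range_mono (Nat.le_succ k))))))
      (fun k => ⟨x _, hm (hδ _ (by
        intro i hi
        obtain ⟨n, -, rfl⟩ := Finset.mem_image.1 hi
        exact hβ1 n)).le (hr1 _), hx _⟩)
      ((hL δ).inter_right (hF2.inter (isClosed_biInter fun i _ => hN2 i)))
      fun k => (hL δ).isClosed.inter (hF2.inter (isClosed_biInter fun i _ => hN2 i))
    have h6 : r p = δ := by
      refine le_antisymm (not_lt.1 (hr2 p δ (mem_iInter.1 hp 0).1)) (not_lt.1 fun h => ?_)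
      obtain ⟨n, hn⟩ := hβ2 _ h
      exact hN3 _ (mem_iInter₂.1 (mem_iInter.1 hp (n + 1)).2.2 (β n)
        (Finset.mem_image_of_mem β (Finset.self_mem_range_succ n))) (hm hn (hr1 p))
    rw [← h6]
    exact hF3 (mem_iInter.1 hp 0).2.1
  choose ρ hρ using h5
  have h6 : ∀ V : I → Set I, (∀ η, r ⁻¹' V η ∈ 𝒰) → ∃ δ, (∃ β : ℕ → I, (∀ n, β n < δ) ∧
      ∀ ξ < δ, ∃ n, ξ ≤ β n) ∧ ∀ η < δ, δ ∈ V η := by
    intro V hV
    obtain ⟨δ, h6, h7⟩ := club_om hκ h0 hI hI2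
      (c := fun s => ↑((s ×ˢ s.powerset).image fun q => ρ (V q.1) q.2))
      fun s => (Finset.finite_toSet _).lt_aleph0.trans h0
    refine ⟨δ, h7, fun η hη => hρ _ (hV η) δ (fun s hs => h6 (insert η s) ?_ ?_) h7⟩
    · rw [Finset.coe_insert]
      exact insert_subset hη hs
    · exact Finset.mem_image.2 ⟨(η, s), Finset.mem_product.2 ⟨Finset.mem_insert_self _ _,
        Finset.mem_powerset.2 (Finset.subset_insert _ _)⟩, rfl⟩
  have h7 : ∀ δ : I, ∃ β : ℕ → I, (∃ β : ℕ → I, (∀ n, β n < δ) ∧ ∀ ξ < δ, ∃ n, ξ ≤ β n) →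
      (∀ n, β n < δ) ∧ ∀ ξ < δ, ∃ n, ξ ≤ β n := fun δ => by
    by_cases h : ∃ β : ℕ → I, (∀ n, β n < δ) ∧ ∀ ξ < δ, ∃ n, ξ ≤ β n
    · exact ⟨h.choose, fun _ => h.choose_spec⟩
    · exact ⟨fun _ => δ, fun h' => (h h').elim⟩
  choose l hl using h7
  have h8 : r ⁻¹' {δ | ∃ β : ℕ → I, (∀ n, β n < δ) ∧ ∀ ξ < δ, ∃ n, ξ ≤ β n} ∈ 𝒰 := by
    by_contra h8
    obtain ⟨δ, h9, h10⟩ := h6 (fun _ => {δ | ∃ β : ℕ → I, (∀ n, β n < δ) ∧ ∀ ξ < δ, ∃ n, ξ ≤ β n}ᶜ)
      fun _ => Ultrafilter.compl_mem_iff_notMem.2 h8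
    exact h10 _ ((hl δ h9).1 0) h9
  have h9 : ∀ n, ∃ η, r ⁻¹' {δ | l δ n = η} ∈ 𝒰 := by
    intro n
    by_contra h9
    obtain ⟨δ, h10, h11⟩ := h6 (fun η => {δ | l δ n = η}ᶜ)
      fun η => Ultrafilter.compl_mem_iff_notMem.2 fun h => h9 ⟨η, h⟩
    exact h11 _ ((hl δ h10).1 n) rfl
  choose η hη using h9
  obtain ⟨x, hx1, hx2⟩ := Ultrafilter.nonempty_of_mem (inter_mem h8 (h3 _ hη))
  obtain ⟨y, ⟨hy1, hy2⟩, hy3⟩ := Ultrafilter.nonempty_of_mem (inter_mem (inter_mem h8 (h3 _ hη)) (h4 (r x)))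
  have h10 : r x < r y := not_le.1 fun h => hy3 (hm h (hr1 y))
  obtain ⟨n, hn⟩ := (hl _ hy1).2 _ h10
  have h11 := (hl _ hx1).1 n
  rw [show l (r x) n = η n from mem_iInter.1 hx2 n, ← show l (r y) n = η n from mem_iInter.1 hy2 n] at h11
  exact absurd hn (not_le.2 h11)

theorem fam_compact [T3Space X] (hX : FC X) (hS : SE X) (κ : Cardinal.{0}) : ∀ (ι : Type) (K : ι → Set X),
    #ι = κ → (∀ i, IsCompact (K i)) → IsCompact (closure (⋃ i, K i)) := by
  induction κ using WellFoundedLT.induction with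
  | ind κ ih =>
    intro ι K hι hK
    have hY := fc_of_omega (fun D hD => omega_bdd hX hS hD) (isClosed_closure (s := ⋃ i, K i))
    have hpre : ∀ C : Set X, IsCompact C → IsCompact (Subtype.val ⁻¹' C : Set (closure (⋃ i, K i))) :=
      fun C hC => isClosed_closure.isClosedEmbedding_subtypeVal.isCompact_preimage hC
    rcases le_or_gt κ ℵ₀ with h0 | h0
    · have : Countable ι := mk_le_aleph0_iff.1 (hι.le.trans h0)
      obtain ⟨e, he⟩ := exists_surjective_nat (Option ι)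
      refine isCompact_iff_compactSpace.2 (sigma_case hY (hS.sub _)
        (fun n => Subtype.val ⁻¹' (e n).elim ∅ K) (fun n => hpre _ ?_) fun y => ?_)
      · cases e n with
        | none => exact isCompact_empty
        | some i => exact hK i
      · rw [IsEmbedding.subtypeVal.closure_eq_preimage_closure_image]
        refine closure_mono (fun x hx => ?_) y.2
        obtain ⟨i, hi⟩ := mem_iUnion.1 hx
        obtain ⟨n, hn⟩ := he (some i)
        refine ⟨⟨x, subset_closure hx⟩, mem_iUnion.2 ⟨n, ?_⟩, rfl⟩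
        rw [hn]
        exact hi
    obtain ⟨e⟩ := Cardinal.eq.1 ((mk_ord_toType κ).trans hι.symm)
    have hL : ∀ α : κ.ord.ToType, IsCompact (closure (⋃ β : Iio α, K (e β.1))) := fun α =>
      ih _ (mk_Iio_toType_ord_lt α) _ _ rfl fun β => hK _
    have := Cardinal.noMaxOrder h0.le
    by_cases hκ : κ.IsRegular
    · refine isCompact_iff_compactSpace.2 (chain_case hY (hS.sub _) hκ h0 (mk_ord_toType κ).ge
        (fun i => mk_Iio_toType_ord_lt i) (fun α => Subtype.val ⁻¹' closure (⋃ β : Iio α, K (e β.1)))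
        (fun α => hpre _ (hL α)) (fun α α' h => preimage_mono (closure_mono
          (iUnion_mono' fun β => ⟨⟨β.1, lt_of_lt_of_le β.2 h⟩, Subset.rfl⟩))) fun y => ?_)
      obtain ⟨a, ha1, ha2⟩ := frechet hX hS y.2
      choose i hi using fun n => mem_iUnion.1 (ha1 n)
      obtain ⟨u, -, hu⟩ := club hκ h0 (mk_ord_toType κ).ge (fun i => mk_Iio_toType_ord_lt i)
        (c := fun _ => range fun n => e.symm (i n)) (fun _ => mk_range_le.trans_lt (by simpa using h0))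
        (e.symm (i 0))
      refine ⟨u, mem_closure_of_tendsto ha2 (Eventually.of_forall fun n => mem_iUnion.2
        ⟨⟨_, hu ∅ (by simp) ⟨n, rfl⟩⟩, ?_⟩)⟩
      simpa using hi n
    · obtain ⟨s, hs1, hs2⟩ := Order.exists_cof_eq κ.ord.ToType
      have hs3 : #s < κ := by
        rw [hs2, Ordinal.cof_toType]
        by_contra h
        exact hκ ⟨h0.le, not_lt.1 h⟩
      refine (ih _ hs3 s _ rfl fun j => hL j.1).of_isClosed_subset isClosed_closure
        (closure_mono fun x hx => ?_)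
      obtain ⟨i, hi⟩ := mem_iUnion.1 hx
      obtain ⟨l, hl⟩ := exists_gt (e.symm i)
      obtain ⟨j, hj, h1⟩ := hs1 l
      refine mem_iUnion.2 ⟨⟨j, hj⟩, subset_closure (mem_iUnion.2 ⟨⟨_, lt_of_lt_of_le hl h1⟩, ?_⟩)⟩
      simpa using hi

theorem compact_of_se [T3Space X] (hX : FC X) (hS : SE X) : CompactSpace X := by
  have h := fam_compact hX hS _ X (fun x => {x}) rfl fun x => isCompact_singleton
  rw [iUnion_of_singleton, closure_univ] at h
  exact ⟨h⟩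

end Pool.Agent.H30.Spl
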