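import Mathlib

set_option autoImplicit false

namespace Pool.Agent.H30.Rect

open Set Filter Topology

variable {X : Type} [TopologicalSpace X]

structure Good (V : ℕ → X → Set X) : Prop where
  symm : ∀ n x y, y ∈ V n x → x ∈ V n y
  nhds : ∀ n x, V n x ∈ 𝓝 x
  anti : ∀ m n x, m ≤ n → V n x ⊆ V m x
  lim : ∀ {ι : Type} (𝓕 : Ultrafilter ι) (x y : ι → X) (a : X), Tendsto x 𝓕 (𝓝 a) →
    (∀ m, ∀ᶠ i in 𝓕, y i ∈ V m (x i)) → ∃ b, Tendsto y 𝓕 (𝓝 b) ∧ ∀ m, b ∈ V m a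

def C (V : ℕ → X → Set X) (x : X) : Set X := {y | ∃ w, (∀ m, w ∈ V m x) ∧ ∀ m, y ∈ V m w}

def B (V : ℕ → X → Set X) (n : ℕ) (x : X) : Set X := {y | ∃ w ∈ V n x, y ∈ V n w}

variable {V : ℕ → X → Set X}

lemma cover (h : Good V) (O : X → Set X) (hO : ∀ x, O x ∈ 𝓝 x) (W : ℕ → Set X)
    (hW : ∀ n, ∀ x ∈ W n, W n ∈ 𝓝 x) (mW : Monotone W) (x : X) :
    ∃ (n : ℕ) (F : Finset X), (∀ y ∈ F, y ∈ C V x \ W n) ∧ B V n x ⊆ W n ∪ ⋃ y ∈ F, O y := by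
  classical
  by_contra! k
  have : ∀ q : ℕ × Finset X, ∃ w y, w ∈ V q.1 x ∧ y ∈ V q.1 w ∧ y ∉ W q.1 ∧
      ∀ z ∈ q.2, z ∈ C V x \ ⋃ n, W n → y ∉ O z := fun q => by
    obtain ⟨y, ⟨w, h1, h2⟩, h3⟩ := not_subset.1 (k q.1 (q.2.filter (· ∈ C V x \ ⋃ n, W n))
      fun y hy => ⟨(Finset.mem_filter.1 hy).2.1, fun c =>
        (Finset.mem_filter.1 hy).2.2 (mem_iUnion.2 ⟨_, c⟩)⟩)
    exact ⟨w, y, h1, h2, fun c => h3 (Or.inl c), fun z hz hz' c =>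
      h3 (Or.inr (mem_biUnion (Finset.mem_filter.2 ⟨hz, hz'⟩) c))⟩
  choose w y h1 h2 h3 h4 using this
  obtain ⟨𝓕, hF⟩ := Ultrafilter.exists_le (atTop : Filter (ℕ × Finset X))
  have e : ∀ q, ∀ᶠ i in (𝓕 : Filter (ℕ × Finset X)), q ≤ i := fun q => hF (eventually_ge_atTop q)
  obtain ⟨a, a1, a2⟩ := h.lim 𝓕 (fun _ => x) w x tendsto_const_nhds fun m =>
    (e (m, ∅)).mono fun i hi => h.anti _ _ _ hi.1 (h1 i)
  obtain ⟨b, b1, b2⟩ := h.lim 𝓕 w y a a1 fun m =>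
    (e (m, ∅)).mono fun i hi => h.anti _ _ _ hi.1 (h2 i)
  by_cases c : b ∈ ⋃ n, W n
  · obtain ⟨n, hn⟩ := mem_iUnion.1 c
    obtain ⟨i, i1, i2⟩ := ((e (n, ∅)).and (b1 (hW n b hn))).exists
    exact h3 i (mW i1.1 i2)
  · obtain ⟨i, i1, i2⟩ := ((e (0, {b})).and (b1 (hO b))).exists
    exact h4 i b (i1.2 (Finset.mem_singleton_self b)) ⟨⟨a, a2, b2⟩, c⟩ i2

lemma stage (h : Good V) (O : X → Set X) (W : Set X) (n : ℕ) : ∃ D : Set X, D ⊆ Wᶜ ∧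
    (∀ z, ∃ U ∈ 𝓝 z, (U ∩ D).Finite) ∧ ∀ x (F : Finset X), (∀ y ∈ F, y ∈ C V x \ W) →
      B V n x ⊆ W ∪ ⋃ y ∈ F, O y → x ∈ W ∪ ⋃ y ∈ D, O y := by
  have rf : ∀ x, x ∈ V n x := fun x => mem_of_mem_nhds (h.nhds n x)
  obtain ⟨S, hS⟩ := zorn_subset {S : Set (X × Finset X) | (∀ s ∈ S, (∀ y ∈ s.2, y ∈ C V s.1 \ W) ∧
      B V n s.1 ⊆ W ∪ ⋃ y ∈ s.2, O y) ∧ S.Pairwise fun s t => t.1 ∉ B V n s.1} fun c hc hch =>
    ⟨⋃₀ c, ⟨fun s ⟨t, ht, hs⟩ => (hc ht).1 s hs,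
      (pairwise_sUnion hch.directedOn).2 fun t ht => (hc ht).2⟩, fun t => subset_sUnion_of_mem⟩
  refine ⟨⋃ s ∈ S, s.2, iUnion₂_subset fun s hs y hy => ((hS.1.1 s hs).1 y hy).2, fun z => ?_,
    fun x F h1 h2 => ?_⟩
  · by_contra! k
    have : (𝓝 z ⊓ 𝓟 (⋃ s ∈ S, s.2) ⊓ cofinite).NeBot := by
      refine inf_neBot_iff.2 fun U hU T hT => ?_
      obtain ⟨U', h1, h2⟩ := mem_inf_principal'.1 hU |> fun h => (⟨_, h, subset_rfl⟩ :
        ∃ U' ∈ 𝓝 z, U' ⊆ (⋃ s ∈ S, (s.2 : Set X))ᶜ ∪ U)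
      obtain ⟨y, y1, y2⟩ := ((k U' h1).diff hT).nonempty
      exact ⟨y, (h2 y1.1).resolve_left fun c => c y1.2, not_not.1 y2⟩
    obtain ⟨𝓕, hF⟩ := Ultrafilter.exists_le (𝓝 z ⊓ 𝓟 (⋃ s ∈ S, s.2) ⊓ cofinite)
    have : ∀ y, ∃ (s : X × Finset X) (w : X), y ∈ (⋃ s ∈ S, s.2 : Set X) →
        s ∈ S ∧ y ∈ s.2 ∧ (∀ m, w ∈ V m s.1) ∧ ∀ m, y ∈ V m w := fun y => by
      by_cases c : y ∈ (⋃ s ∈ S, s.2 : Set X)
      · obtain ⟨s, hs, hy⟩ := mem_iUnion₂.1 c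
        obtain ⟨w, hw⟩ := ((hS.1.1 s hs).1 y hy).1
        exact ⟨s, w, fun _ => ⟨hs, hy, hw⟩⟩
      · exact ⟨(y, ∅), y, fun h => (c h).elim⟩
    choose s w hs using this
    have e := Eventually.mono (le_principal_iff.1 (hF.trans (inf_le_left.trans inf_le_right))) hs
    obtain ⟨a, a1, -⟩ := h.lim 𝓕 id w z (hF.trans (inf_le_left.trans inf_le_left)) fun m =>
      e.mono fun i hi => h.symm _ _ _ (hi.2.2.2 m)
    obtain ⟨b, b1, -⟩ := h.lim 𝓕 w (fun y => (s y).1) a a1 fun m =>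
      e.mono fun i hi => h.symm _ _ _ (hi.2.2.1 m)
    have e' := e.and (b1 (h.nhds n b))
    obtain ⟨y, hy⟩ := e'.exists
    obtain ⟨u, hu, hu'⟩ := (e'.and (hF.trans inf_le_right
      (s y).2.finite_toSet.compl_mem_cofinite)).exists
    refine hS.1.2 hy.1.1 hu.1.1 (fun c => hu' ?_) ⟨b, h.symm _ _ _ hy.2, hu.2⟩
    rw [c]; exact hu.1.2.1
  have sub : ∀ s ∈ S, B V n s.1 ⊆ W ∪ ⋃ y ∈ (⋃ s ∈ S, s.2 : Set X), O y := fun s hs =>
    (hS.1.1 s hs).2.trans (union_subset_union_right _ (biUnion_subset_biUnion_left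
      (subset_biUnion_of_mem (u := fun s : X × Finset X => (s.2 : Set X)) hs)))
  by_contra k
  refine k (sub (x, F) (hS.mem_of_prop_insert ⟨forall_mem_insert.2 ⟨⟨h1, h2⟩, hS.1.1⟩,
    hS.1.2.insert fun t ht _ => ⟨fun ⟨w, w1, w2⟩ => k (sub t ht ⟨w, h.symm _ _ _ w2,
      h.symm _ _ _ w1⟩), fun c => k (sub t ht c)⟩⟩) ⟨x, rf x, rf x⟩)

theorem dspace [T1Space X] (h : Good V) (N : X → Set X) (hN : ∀ x, N x ∈ 𝓝 x) :
    ∃ D : Set X, IsClosed D ∧ DiscreteTopology D ∧ (⋃ x ∈ D, N x) = univ := by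
  choose D D1 D2 D3 using stage h fun x => interior (N x)
  let W : ℕ → Set X := fun n => Nat.rec ∅ (fun n W => W ∪ ⋃ y ∈ D W n, interior (N y)) n
  have mW : Monotone W := monotone_nat_of_le_succ fun n => subset_union_left
  have oW : ∀ n, IsOpen (W n) := fun n => by
    induction n with
    | zero => exact isOpen_empty
    | succ n ih => exact ih.union (isOpen_biUnion fun _ _ => isOpen_interior)
  have all : ∀ x, ∃ n, x ∈ W n := fun x => by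
    obtain ⟨n, F, h1, h2⟩ := cover h _ (fun x => interior_mem_nhds.2 (hN x)) W
      (fun n x => (oW n).mem_nhds) mW x
    exact ⟨n + 1, D3 _ n x F h1 h2⟩
  have lf : ∀ z, ∃ U ∈ 𝓝 z, (U ∩ ⋃ n, D (W n) n).Finite := fun z => by
    obtain ⟨n, hn⟩ := all z
    choose U U1 U2 using fun m => D2 (W m) m z
    refine ⟨W n ∩ ⋂ m < n, U m, inter_mem ((oW n).mem_nhds hn)
      ((biInter_mem (finite_lt_nat n)).2 fun m _ => U1 m),
      ((finite_lt_nat n).biUnion fun m _ => U2 m).subset fun y hy => ?_⟩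
    obtain ⟨m, hm⟩ := mem_iUnion.1 hy.2
    have : m < n := not_le.1 fun c => D1 _ _ hm (mW c hy.1.1)
    exact mem_biUnion this ⟨mem_iInter₂.1 hy.1.2 m this, hm⟩
  have := isClosed_and_discrete_iff (S := ⋃ n, D (W n) n).2 fun z => by
    obtain ⟨U, h1, h2⟩ := lf z
    refine disjoint_principal_right.2 (mem_nhdsWithin_iff_exists_mem_nhds_inter.2
      ⟨U \ ((U ∩ ⋃ n, D (W n) n) \ {z}), diff_mem h1
        ((h2.diff).isClosed.isOpen_compl.mem_nhds (by simp)), fun y hy c => ?_⟩)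
    exact hy.1.2 ⟨⟨hy.1.1, c⟩, hy.2⟩
  refine ⟨_, this.1, this.2.to_subtype, eq_univ_of_forall fun x => ?_⟩
  obtain ⟨n, hn⟩ := all x
  induction n with
  | zero => exact hn.elim
  | succ n ih =>
    refine hn.elim ih fun c => ?_
    obtain ⟨y, y1, y2⟩ := mem_iUnion₂.1 c
    exact mem_biUnion (mem_iUnion.2 ⟨n, y1⟩) (interior_subset y2)

theorem good [T35Space X] (e : X) (φ : X × X ≃ₜ X × X) (f1 : ∀ p : X × X, (φ p).1 = p.1)
    (h2 : ∀ x, φ (x, x) = (x, e)) (γ : ℕ → Set (Set (StoneCech X)))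
    (g1 : ∀ n, ∀ U ∈ γ n, IsOpen U) (g2 : ∀ n, ∀ x : X, ∃ U ∈ γ n, stoneCechUnit x ∈ U)
    (g3 : ∀ x : X, (⋂ n, ⋃₀ {U | U ∈ γ n ∧ stoneCechUnit x ∈ U}) ⊆ range stoneCechUnit) :
    ∃ V : ℕ → X → Set X, Good V := by
  have pq : ∀ x y, (φ.symm (x, (φ (x, y)).2)).2 = y := fun x y =>
    congrArg Prod.snd (show φ.symm (x, (φ (x, y)).2) = (x, y) from
      φ.symm_apply_eq.2 (Prod.ext (f1 (x, y)).symm rfl))
  choose G G1 G2 using fun n => g2 n e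
  choose T T1 T2 T3 using fun n => exists_mem_nhds_isClosed_subset ((g1 n _ (G1 n)).mem_nhds (G2 n))
  let P : ℕ → Set X := fun n => stoneCechUnit ⁻¹' ⋂ i ≤ n, T i
  have P1 : ∀ n, IsClosed (P n) := fun n =>
    (isClosed_biInter fun i _ => T2 i).preimage continuous_stoneCechUnit
  have P2 : Antitone P := fun m n h =>
    preimage_mono (biInter_subset_biInter_left fun i hi => le_trans hi h)
  have P3 : ∀ n, P n ∈ 𝓝 e := fun n =>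
    continuous_stoneCechUnit.continuousAt ((biInter_mem (finite_le_nat n)).2 fun i _ => T1 i)
  refine ⟨fun n x => {y | (φ (x, y)).2 ∈ P n ∧ (φ (y, x)).2 ∈ P n}, fun _ _ _ => And.symm,
    fun n x => inter_mem (s := {y | (φ (x, y)).2 ∈ P n}) ?_ ?_,
    fun m n x h y hy => ⟨P2 h hy.1, P2 h hy.2⟩, fun 𝓕 x y a h1 h3 => ?_⟩
  · exact (by fun_prop : Continuous fun y => (φ (x, y)).2).continuousAt (by simpa [h2] using P3 n)
  · exact (by fun_prop : Continuous fun y => (φ (y, x)).2).continuousAt (x := x)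
      (show P n ∈ _ by simpa [h2] using P3 n)
  obtain ⟨z, -, hz⟩ := isCompact_univ.ultrafilter_le_nhds
    (𝓕.map fun i => stoneCechUnit (φ (x i, y i)).2) (by simp)
  obtain ⟨u, rfl⟩ := g3 e (a := z) (mem_iInter.2 fun n => mem_sUnion.2 ⟨G n, ⟨G1 n, G2 n⟩, T3 n
    ((T2 n).mem_of_tendsto (f := fun i => stoneCechUnit (φ (x i, y i)).2) hz
    ((h3 n).mono fun i hi => mem_iInter₂.1 hi.1 n le_rfl))⟩)
  have hu : Tendsto (fun i => (φ (x i, y i)).2) 𝓕 (𝓝 u) :=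
    isEmbedding_stoneCechUnit.tendsto_nhds_iff.2 hz
  have hb : Tendsto y 𝓕 (𝓝 (φ.symm (a, u)).2) := by
    simpa [Function.comp_def, pq] using
      ((continuous_snd.comp φ.symm.continuous).tendsto (a, u)).comp (h1.prodMk_nhds hu)
  exact ⟨_, hb, fun m => ⟨(P1 m).mem_of_tendsto (((continuous_snd.comp φ.continuous).tendsto _).comp
    (h1.prodMk_nhds hb)) ((h3 m).mono fun i hi => hi.1), (P1 m).mem_of_tendsto
    (((continuous_snd.comp φ.continuous).tendsto _).comp (hb.prodMk_nhds h1))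
    ((h3 m).mono fun i hi => hi.2)⟩⟩

end Pool.Agent.H30.Rect
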