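import Mathlib

set_option autoImplicit false

namespace Pool.Agent.H30.Refine

open Finset

section defs
variable {E F : Type*} [AddCommGroup E] [Module ℝ E] [AddCommGroup F] [Module ℝ F]

/-- The convex-form space of `C`: affine functions on `C` with values in `[0,1]`. -/
def Forms (C : Set E) : Set (C → ℝ) :=
  {w | (∃ A : E →ᵃ[ℝ] ℝ, ∀ x : C, w x = A x) ∧ ∀ x : C, 0 ≤ w x ∧ w x ≤ 1}

/-- `h` with domain `D` is an onto affine map from a convex part `D` of `X` onto `Y`. -/
def PAO (X : Set E) (Y : Set F) (D : Set E) (h : E → F) : Prop :=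
  D ⊆ X ∧ (∀ a ∈ D, ∀ b ∈ D, ∀ t : ℝ, 0 ≤ t → t ≤ 1 →
    t • a + (1 - t) • b ∈ D ∧ h (t • a + (1 - t) • b) = t • h a + (1 - t) • h b) ∧ h '' D = Y

/-- `T` is a `k`-dimensional simplex. -/
def IsSimplex (T : Set E) (k : ℕ) : Prop :=
  ∃ v : Fin (k + 1) → E, AffineIndependent ℝ v ∧ T = convexHull ℝ (Set.range v)

/-- `C` is a polytope: the convex hull of a finite set. -/
def IsPolytope (C : Set E) : Prop :=
  ∃ S : Set E, S.Finite ∧ C = convexHull ℝ S

/-- `(T, ΩT, f, g)` refines `(C, ΩC)`; `D` is the domain of `f` and `W` the domain of `g`. -/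
def Refines (C : Set E) (T : Set F) (D : Set F) (f : F → E) (W : Set (T → ℝ))
    (g : (T → ℝ) → (C → ℝ)) : Prop :=
  PAO T C D f ∧ PAO (Forms T) (Forms C) W g ∧
    ∀ (x : T) (y : C), x.1 ∈ D → y.1 = f x.1 → ∀ w ∈ W, g w y = w x

end defs

section general
variable {E : Type*} [AddCommGroup E] [Module ℝ E]

lemma forms_comb (C : Set E) {a b : C → ℝ} (ha : a ∈ Forms C) (hb : b ∈ Forms C) {t : ℝ}
    (h0 : 0 ≤ t) (h1 : t ≤ 1) : t • a + (1 - t) • b ∈ Forms C := by
  obtain ⟨⟨A, hA⟩, ha⟩ := ha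
  obtain ⟨⟨B, hB⟩, hb⟩ := hb
  refine ⟨⟨t • A + (1 - t) • B, fun x => ?_⟩, fun x => ?_⟩
  · simp [hA, hB]
  · have := ha x
    have := hb x
    simp only [Pi.add_apply, Pi.smul_apply, smul_eq_mul]
    constructor <;> nlinarith

lemma build {ι κ : Type*} [Fintype ι] (c : κ → E) (x : κ → ι → ℝ)
    (hx : ∀ k, x k ∈ stdSimplex ℝ ι) (L : (ι → ℝ) →ₗ[ℝ] E) (hL : ∀ k, L (x k) = c k)
    (H : ∀ A : E →ᵃ[ℝ] ℝ, (∀ k, 0 ≤ A (c k) ∧ A (c k) ≤ 1) →
      ∃ w : ι → ℝ, (∀ i, 0 ≤ w i ∧ w i ≤ 1) ∧ ∀ k, ∑ i, w i * x k i = A (c k)) :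
    ∃ W g, Refines (convexHull ℝ (Set.range c)) (stdSimplex ℝ ι) (convexHull ℝ (Set.range x))
      L W g := by
  classical
  have hDT : convexHull ℝ (Set.range x) ⊆ stdSimplex ℝ ι :=
    convexHull_min (by rintro _ ⟨k, rfl⟩; exact hx k) (convex_stdSimplex ℝ ι)
  have him : L '' convexHull ℝ (Set.range x) = convexHull ℝ (Set.range c) := by
    rw [LinearMap.image_convexHull, ← Set.range_comp]
    congr 2
    funext k
    exact hL k
  have hpre : ∀ y : convexHull ℝ (Set.range c), ∃ z : stdSimplex ℝ ι,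
      z.1 ∈ convexHull ℝ (Set.range x) ∧ L z.1 = y.1 := by
    intro y
    have : y.1 ∈ L '' convexHull ℝ (Set.range x) := by rw [him]; exact y.2
    obtain ⟨z, hz, hzy⟩ := this
    exact ⟨⟨z, hDT hz⟩, hz, hzy⟩
  choose pre hpre1 hpre2 using hpre
  refine ⟨{w | w ∈ Forms (stdSimplex ℝ ι) ∧ (fun y => w (pre y)) ∈ Forms _ ∧
      ∀ (z : stdSimplex ℝ ι) (y : convexHull ℝ (Set.range c)),
        z.1 ∈ convexHull ℝ (Set.range x) → y.1 = L z.1 → w (pre y) = w z},
    fun w y => w (pre y), ⟨hDT, ?_, him⟩, ⟨fun w hw => hw.1, ?_, ?_⟩, ?_⟩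
  · intro a ha b hb t h0 h1
    refine ⟨convex_convexHull ℝ _ ha hb h0 (by linarith) (by ring), by simp⟩
  · intro a ha b hb t h0 h1
    refine ⟨⟨forms_comb _ ha.1 hb.1 h0 h1, forms_comb _ ha.2.1 hb.2.1 h0 h1, ?_⟩, rfl⟩
    intro z y hz hy
    simp only [Pi.add_apply, Pi.smul_apply, ha.2.2 z y hz hy, hb.2.2 z y hz hy]
  · apply Set.Subset.antisymm
    · rintro _ ⟨w, hw, rfl⟩
      exact hw.2.1
    · intro φ hφ
      obtain ⟨⟨A, hA⟩, hφ1⟩ := hφ
      obtain ⟨w, hw, hwk⟩ := H A (fun k => by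
        have := hφ1 ⟨c k, subset_convexHull ℝ _ ⟨k, rfl⟩⟩
        rwa [hA] at this)
      let ℓ : (ι → ℝ) →ₗ[ℝ] ℝ :=
        { toFun := fun z => ∑ i, w i * z i
          map_add' := fun a b => by simp [mul_add, sum_add_distrib]
          map_smul' := fun r a => by simp [mul_sum, mul_left_comm] }
      have key : ∀ z ∈ convexHull ℝ (Set.range x), ℓ z = A (L z) := by
        apply convexHull_min (t := {z | ℓ z = A (L z)})
        · rintro _ ⟨k, rfl⟩
          show ∑ i, w i * x k i = A (L (x k))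
          rw [hL, hwk]
        · intro a ha b hb s t hs ht hst
          have ha' : ℓ a = A (L a) := ha
          have hb' : ℓ b = A (L b) := hb
          show ℓ (s • a + t • b) = A (L (s • a + t • b))
          rw [map_add, map_smul, map_smul, map_add, map_smul, map_smul,
            Convex.combo_affine_apply hst, ha', hb']
      have hval : (fun y => ℓ (pre y).1) = φ := by
        funext y
        rw [key _ (hpre1 y), hpre2, hA]
      refine ⟨fun z => ℓ z.1, ⟨⟨⟨ℓ.toAffineMap, fun _ => rfl⟩, fun z => ?_⟩, ?_, ?_⟩, hval⟩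
      · obtain ⟨hz0, hz1⟩ := z.2
        constructor
        · exact sum_nonneg fun i _ => mul_nonneg (hw i).1 (hz0 i)
        · show ∑ i, w i * z.1 i ≤ 1
          rw [← hz1]
          exact sum_le_sum fun i _ => by nlinarith [(hw i).2, hz0 i]
      · show (fun y => ℓ (pre y).1) ∈ Forms _
        rw [hval]
        exact ⟨⟨A, hA⟩, hφ1⟩
      · intro z y hz hy
        show ℓ (pre y).1 = ℓ z.1
        rw [key _ (hpre1 y), key _ hz, hpre2, hy]
  · intro z y hz hy w hw
    exact hw.2.2 z y hz hy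

lemma extreme_of {κ : Type*} (c : κ → E) (k : κ) (ψ : E →ₗ[ℝ] ℝ)
    (h : ∀ j, j ≠ k → ψ (c j) < ψ (c k)) :
    c k ∈ (convexHull ℝ (Set.range c)).extremePoints ℝ := by
  have hS : ∀ y ∈ convexHull ℝ (Set.range c), ψ y < ψ (c k) ∨ y = c k := by
    apply convexHull_min (t := {y | ψ y < ψ (c k) ∨ y = c k})
    · rintro _ ⟨j, rfl⟩
      by_cases hj : j = k
      · exact Or.inr (by rw [hj])
      · exact Or.inl (h j hj)
    · intro a ha b hb s t hs ht hst
      show ψ (s • a + t • b) < ψ (c k) ∨ s • a + t • b = c k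
      rw [map_add, map_smul, map_smul, smul_eq_mul, smul_eq_mul]
      have e : ψ (c k) = s * ψ (c k) + t * ψ (c k) := by rw [← add_mul, hst, one_mul]
      rcases ha with ha | ha <;> rcases hb with hb | hb
      · left
        rcases hs.eq_or_lt with h0 | h0
        · have : t = 1 := by linarith
          rw [← h0, this]; linarith
        · nlinarith
      · rcases hs.eq_or_lt with h0 | h0
        · right
          have : t = 1 := by linarith
          rw [← h0, this, hb]; simp
        · left; rw [hb]; nlinarith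
      · rcases ht.eq_or_lt with h0 | h0
        · right
          have : s = 1 := by linarith
          rw [← h0, this, ha]; simp
        · left; rw [ha]; nlinarith
      · right
        rw [ha, hb, ← add_smul, hst, one_smul]
  refine ⟨subset_convexHull ℝ _ ⟨k, rfl⟩, ?_⟩
  intro y hy z hz ⟨s, t, hs, ht, hst, e⟩
  have e' : s * ψ y + t * ψ z = ψ (c k) := by
    rw [← e, map_add, map_smul, map_smul, smul_eq_mul, smul_eq_mul]
  have e2 : ψ (c k) = s * ψ (c k) + t * ψ (c k) := by rw [← add_mul, hst, one_mul]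
  rcases hS y hy with h1 | h1
  · exfalso
    rcases hS z hz with h2 | h2
    · nlinarith
    · rw [h2] at e'; nlinarith
  · exact h1

lemma extreme_eq {κ : Type*} [Fintype κ] (c : κ → E)
    (h : ∀ k, ∃ ψ : E →ₗ[ℝ] ℝ, ∀ j, j ≠ k → ψ (c j) < ψ (c k)) :
    (convexHull ℝ (Set.range c)).extremePoints ℝ = Set.range c ∧ Function.Injective c ∧
      ((convexHull ℝ (Set.range c)).extremePoints ℝ).ncard = Fintype.card κ := by
  have h1 : (convexHull ℝ (Set.range c)).extremePoints ℝ = Set.range c := by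
    apply Set.Subset.antisymm extremePoints_convexHull_subset
    rintro _ ⟨k, rfl⟩
    obtain ⟨ψ, hψ⟩ := h k
    exact extreme_of c k ψ hψ
  have h2 : Function.Injective c := by
    intro j k hjk
    by_contra hne
    obtain ⟨ψ, hψ⟩ := h k
    have := hψ j hne
    rw [hjk] at this
    exact lt_irrefl _ this
  refine ⟨h1, h2, ?_⟩
  rw [h1, Set.ncard_range_of_injective h2, Nat.card_eq_fintype_card]

lemma simplex_ext_le {T : Set E} {k : ℕ} (h : IsSimplex T k) :
    (T.extremePoints ℝ).ncard ≤ k + 1 := by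
  obtain ⟨v, hv, rfl⟩ := h
  calc _ ≤ (Set.range v).ncard :=
        Set.ncard_le_ncard extremePoints_convexHull_subset (Set.finite_range v)
    _ = k + 1 := by rw [Set.ncard_range_of_injective hv.injective]; simp

lemma simplex_dim_le [FiniteDimensional ℝ E] {T : Set E} {k : ℕ} (h : IsSimplex T k) :
    k ≤ Module.finrank ℝ E := by
  obtain ⟨v, hv, -⟩ := h
  have h1 := hv.card_le_finrank_succ
  have h2 := Submodule.finrank_le (vectorSpan ℝ (Set.range v))
  simp only [Fintype.card_fin] at h1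
  omega

lemma std_aff {ι : Type*} [Fintype ι] [DecidableEq ι] {k : ℕ} (e : Fin (k + 1) ≃ ι) :
    AffineIndependent ℝ (fun j => (Pi.single (e j) 1 : ι → ℝ)) ∧
      stdSimplex ℝ ι = convexHull ℝ (Set.range fun j => (Pi.single (e j) 1 : ι → ℝ)) := by
  constructor
  · apply LinearIndependent.affineIndependent
    have := (Pi.basisFun ℝ ι).linearIndependent.comp e e.injective
    have e2 : (fun j => (Pi.single (e j) 1 : ι → ℝ)) = ⇑(Pi.basisFun ℝ ι) ∘ ⇑e := by
      funext j
      simp
    rw [e2]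
    exact this
  · rw [← convexHull_basis_eq_stdSimplex]
    congr 1
    ext z
    constructor
    · rintro ⟨i, rfl⟩
      refine ⟨e.symm i, ?_⟩
      funext j
      simp [Pi.single_apply, eq_comm]
    · rintro ⟨i, rfl⟩
      refine ⟨e i, ?_⟩
      funext j
      simp [Pi.single_apply, eq_comm]

/-- No onto affine map from part of a simplex in `ι → ℝ` to a simplex with more vertices. -/
lemma no_pao {ι : Type*} [Fintype ι] {m : ℕ} (hm : Fintype.card ι < m + 1) {T0 : Set E}
    (h0 : IsSimplex T0 m) (D : Set (ι → ℝ)) (f : (ι → ℝ) → E) :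
    ¬ PAO (stdSimplex ℝ ι) T0 D f := by
  rintro ⟨hD, hc, him⟩
  obtain ⟨v, hv, rfl⟩ := h0
  have : ∀ j, ∃ y ∈ D, f y = v j := fun j => by
    have : v j ∈ f '' D := him ▸ subset_convexHull ℝ _ ⟨j, rfl⟩
    exact this
  choose y hy hfy using this
  have hG : Convex ℝ {p : (ι → ℝ) × E | p.1 ∈ D ∧ f p.1 = p.2} := by
    intro a ha b hb s t hs ht hst
    have : t = 1 - s := by linarith
    subst this
    obtain ⟨h1, h2⟩ := hc a.1 ha.1 b.1 hb.1 s hs (by linarith)
    refine ⟨h1, ?_⟩
    show f (s • a.1 + (1 - s) • b.1) = s • a.2 + (1 - s) • b.2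
    rw [h2, ha.2, hb.2]
  have hsum : ∀ l : Fin (m + 1) → ℝ, (∀ j, 0 ≤ l j) → ∑ j, l j = 1 →
      f (∑ j, l j • y j) = ∑ j, l j • v j := by
    intro l hl0 hl1
    have := hG.sum_mem (t := univ) (w := l) (z := fun j => (y j, v j)) (fun j _ => hl0 j) hl1
      (fun j _ => ⟨hy j, hfy j⟩)
    have h2 := this.2
    simpa [Prod.fst_sum, Prod.snd_sum] using h2
  have hdep : ¬ LinearIndependent ℝ y := by
    intro hli
    have := hli.fintype_card_le_finrank
    simp at this
    omega
  rw [Fintype.not_linearIndependent_iff] at hdep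
  obtain ⟨a, ha, j0, hj0⟩ := hdep
  have ha0 : ∑ j, a j = 0 := by
    have : ∑ i, (∑ j, a j • y j) i = 0 := by rw [ha]; simp
    simp only [Finset.sum_apply, Pi.smul_apply, smul_eq_mul] at this
    rw [sum_comm] at this
    simp only [← mul_sum, (hD (hy _)).2, mul_one] at this
    exact this
  set B : ℝ := ∑ j, |a j| with hB
  have hBpos : 0 < B := lt_of_lt_of_le (abs_pos.2 hj0)
    (single_le_sum (f := fun j => |a j|) (fun j _ => abs_nonneg _) (mem_univ j0))
  have hm1 : (0 : ℝ) < m + 1 := by positivity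
  have e1 := hsum (fun _ => 1 / (m + 1 : ℝ)) (fun _ => by positivity) (by simp; field_simp)
  have e2 := hsum (fun j => 1 / (m + 1 : ℝ) + (1 / ((m + 1) * B)) * a j) (fun j => by
      have h1 : |a j| ≤ B := single_le_sum (f := fun j => |a j|) (fun j _ => abs_nonneg _)
        (mem_univ j)
      have h2 := neg_abs_le (a j)
      have : 1 / (m + 1 : ℝ) + (1 / ((m + 1) * B)) * a j = (B + a j) / ((m + 1) * B) := by
        field_simp
      rw [this]
      apply div_nonneg (by linarith) (by positivity))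
    (by rw [sum_add_distrib, ← mul_sum, ha0]; simp; field_simp)
  simp only [add_smul, sum_add_distrib, mul_smul, ← smul_sum, ha, smul_zero, add_zero] at e1 e2
  rw [e1] at e2
  have e3 : (1 / ((m + 1) * B) : ℝ) • ∑ j, a j • v j = 0 := by
    have := e2
    rwa [left_eq_add] at this
  have e4 : ∑ j, a j • v j = 0 := by
    rcases smul_eq_zero.1 e3 with h | h
    · exact absurd h (by positivity)
    · exact h
  exact hj0 (affineIndependent_iff.1 hv univ a ha0 e4 j0 (mem_univ _))

end general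

section family
variable (d : ℕ)

abbrev I := (Fin d × Bool) ⊕ Option (Fin d)
abbrev K := (Fin d → Bool) ⊕ Option (Fin d)
abbrev V := (Fin d → ℝ) × ℝ

def bv (b : Bool) : ℝ := if b then 1 else 0

def cc : K d → V d
  | Sum.inl s => (fun i => bv (s i), 1)
  | Sum.inr none => (0, 0)
  | Sum.inr (some i) => (Pi.single i (2 * d : ℝ), 0)

noncomputable def xx : K d → I d → ℝ
  | Sum.inl s => Sum.elim (fun p => if s p.1 = p.2 then 1 / (d : ℝ) else 0) (fun _ => 0)
  | Sum.inr o => Pi.single (Sum.inr o) 1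

def LL : (I d → ℝ) →ₗ[ℝ] V d where
  toFun z := (fun i => d * z (Sum.inl (i, true)) + 2 * d * z (Sum.inr (some i)),
    ∑ p : Fin d × Bool, z (Sum.inl p))
  map_add' a b := by
    ext i
    · simp; ring
    · simp [sum_add_distrib]
  map_smul' r a := by
    ext i
    · simp; ring
    · simp [mul_sum]

variable {d}

lemma sum_xx (hd : 0 < d) (s : Fin d → Bool) (u : Fin d × Bool → ℝ) :
    ∑ p : Fin d × Bool, u p * (if s p.1 = p.2 then 1 / (d : ℝ) else 0)
      = (1 / d) * ∑ i, u (i, s i) := by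
  rw [Fintype.sum_prod_type, mul_sum]
  refine sum_congr rfl fun i _ => ?_
  cases h : s i <;> simp [mul_comm, h]

lemma xx_mem (hd : 0 < d) (k : K d) : xx d k ∈ stdSimplex ℝ (I d) := by
  have hd' : (d : ℝ) ≠ 0 := by positivity
  rcases k with s | o
  · constructor
    · rintro (p | o)
      · simp only [xx, Sum.elim_inl]; split_ifs <;> positivity
      · simp [xx]
    · have := sum_xx hd s (fun _ => 1)
      simp only [one_mul] at this
      simp only [xx, Fintype.sum_sum_type, Sum.elim_inl, Sum.elim_inr, this]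
      simp [hd']
  · exact single_mem_stdSimplex ℝ _

lemma LL_xx (hd : 0 < d) (k : K d) : LL d (xx d k) = cc d k := by
  have hd' : (d : ℝ) ≠ 0 := by positivity
  rcases k with s | _ | i
  · ext i
    · cases h : s i <;> simp [LL, xx, cc, bv, h, hd']
    · have := sum_xx hd s (fun _ => 1)
      simp only [one_mul] at this
      simp only [LL, xx, cc, LinearMap.coe_mk, AddHom.coe_mk, Sum.elim_inl, this]
      simp [hd']
  · ext i <;> simp [LL, xx, cc]
  · ext j <;> simp [LL, xx, cc, Pi.single_apply]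

lemma aff_dec (A : V d →ᵃ[ℝ] ℝ) : ∃ (α : Fin d → ℝ) (β γ : ℝ),
    ∀ p : V d, A p = ∑ i, α i * p.1 i + β * p.2 + γ := by
  refine ⟨fun i => A.linear (Pi.single i 1, 0), A.linear (0, 1), A 0, fun p => ?_⟩
  have e : p = ∑ i, p.1 i • ((Pi.single i 1, 0) : V d) + p.2 • ((0, 1) : V d) := by
    ext i
    · simp [Prod.fst_sum, Finset.sum_apply, Pi.single_apply]
    · simp [Prod.snd_sum]
  have : A p = A.linear p + A 0 := by
    have := A.map_vadd 0 p
    simpa using this
  rw [this]
  congr 1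
  conv_lhs => rw [e]
  simp only [map_add, map_sum, map_smul, smul_eq_mul, mul_comm]

lemma hH (hd : 0 < d) (A : V d →ᵃ[ℝ] ℝ) (hA : ∀ k, 0 ≤ A (cc d k) ∧ A (cc d k) ≤ 1) :
    ∃ w : I d → ℝ, (∀ i, 0 ≤ w i ∧ w i ≤ 1) ∧ ∀ k, ∑ i, w i * xx d k i = A (cc d k) := by
  have hd' : (0 : ℝ) < d := by positivity
  obtain ⟨α, β, γ, hdec⟩ := aff_dec A
  have hγ : 0 ≤ γ ∧ γ ≤ 1 := by simpa [hdec, cc] using hA (Sum.inr none)
  have hα : ∀ i, -(1 / 2) ≤ d * α i ∧ d * α i ≤ 1 / 2 := by
    intro i
    have := hA (Sum.inr (some i))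
    simp [hdec, cc, Pi.single_apply] at this
    constructor <;> nlinarith [this.1, this.2, hγ.1, hγ.2]
  have main : ∀ s0 : Fin d → Bool,
      (∀ i b, 0 ≤ A (cc d (Sum.inl s0)) + d * α i * (bv b - bv (s0 i)) ∧
        A (cc d (Sum.inl s0)) + d * α i * (bv b - bv (s0 i)) ≤ 1) →
      ∃ w : I d → ℝ, (∀ i, 0 ≤ w i ∧ w i ≤ 1) ∧ ∀ k, ∑ i, w i * xx d k i = A (cc d k) := by
    intro s0 h
    refine ⟨Sum.elim (fun p => A (cc d (Sum.inl s0)) + d * α p.1 * (bv p.2 - bv (s0 p.1)))
      (fun o => A (cc d (Sum.inr o))), ?_, ?_⟩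
    · rintro (p | o)
      · exact h p.1 p.2
      · exact hA _
    · rintro (s | o)
      · simp only [xx, Fintype.sum_sum_type, Sum.elim_inl, Sum.elim_inr, mul_zero, sum_const_zero,
          add_zero]
        rw [sum_xx hd s]
        simp only [sum_add_distrib, sum_const, card_univ, Fintype.card_fin, nsmul_eq_mul, hdec, cc,
          mul_assoc, ← mul_sum, mul_sub, sum_sub_distrib]
        field_simp
        ring
      · simp [xx, Pi.single_apply]
  set lo : Fin d → Bool := fun i => decide (α i < 0) with hlo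
  set hi : Fin d → Bool := fun i => decide (0 ≤ α i) with hhi
  have hcmp : A (cc d (Sum.inl lo)) ≤ A (cc d (Sum.inl hi)) := by
    simp only [hdec, cc]
    refine add_le_add_left (add_le_add_left (sum_le_sum fun i _ => ?_) _) _
    by_cases h : α i < 0
    · simp [hlo, hhi, bv, h, not_le.2 h, h.le]
    · simp [hlo, hhi, bv, h, not_lt.1 h]
  by_cases hc : A (cc d (Sum.inl lo)) ≤ 1 / 2
  · apply main lo
    intro i b
    have h0 := (hA (Sum.inl lo)).1
    have := hα i
    by_cases h : α i < 0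
    · have : d * α i < 0 := by nlinarith
      cases b <;> simp [hlo, bv, h] <;> constructor <;> linarith
    · have : 0 ≤ d * α i := by nlinarith
      cases b <;> simp [hlo, bv, h] <;> constructor <;> linarith
  · apply main hi
    intro i b
    have h0 := (hA (Sum.inl hi)).2
    have := hα i
    by_cases h : α i < 0
    · have : d * α i < 0 := by nlinarith
      cases b <;> simp [hhi, bv, not_le.2 h] <;> constructor <;> linarith
    · have : 0 ≤ d * α i := by nlinarith
      cases b <;> simp [hhi, bv, not_lt.1 h] <;> constructor <;> linarith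

lemma refines (hd : 0 < d) : ∃ W g, Refines (convexHull ℝ (Set.range (cc d))) (stdSimplex ℝ (I d))
    (convexHull ℝ (Set.range (xx d))) (LL d) W g :=
  build (cc d) (xx d) (xx_mem hd) (LL d) (LL_xx hd) (hH hd)

def lf (α : Fin d → ℝ) (β : ℝ) : V d →ₗ[ℝ] ℝ where
  toFun p := ∑ i, α i * p.1 i + β * p.2
  map_add' a b := by simp [mul_add, sum_add_distrib]; ring
  map_smul' r a := by simp [mul_add, mul_sum, mul_left_comm]

lemma exposed (hd : 0 < d) (k : K d) :
    ∃ ψ : V d →ₗ[ℝ] ℝ, ∀ j, j ≠ k → ψ (cc d j) < ψ (cc d k) := by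
  have hd' : (1 : ℝ) ≤ d := by exact_mod_cast hd
  have hb0 : ∀ b, 0 ≤ bv b := fun b => by cases b <;> simp [bv]
  have hb1 : ∀ b, bv b ≤ 1 := fun b => by cases b <;> simp [bv]
  rcases k with s | _ | i
  · refine ⟨lf (fun i => 2 * bv (s i) - 1) (2 * d + 1), ?_⟩
    have hs : 0 ≤ ∑ i, (2 * bv (s i) - 1) * bv (s i) :=
      sum_nonneg fun i _ => by cases s i <;> norm_num [bv]
    rintro (t | _ | j) hj
    · simp only [lf, cc, LinearMap.coe_mk, AddHom.coe_mk, add_lt_add_iff_right]
      have : ∃ i, t i ≠ s i := by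
        by_contra hh
        push Not at hh
        exact hj (by rw [funext hh])
      obtain ⟨i0, hi0⟩ := this
      apply sum_lt_sum
      · intro i _
        cases s i <;> cases t i <;> norm_num [bv]
      · refine ⟨i0, mem_univ _, ?_⟩
        revert hi0
        cases s i0 <;> cases t i0 <;> norm_num [bv]
    · simp only [lf, cc, LinearMap.coe_mk, AddHom.coe_mk]
      simp
      linarith
    · simp only [lf, cc, LinearMap.coe_mk, AddHom.coe_mk]
      simp [Pi.single_apply]
      nlinarith [hb1 (s j)]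
  · refine ⟨lf (fun _ => -1) (-1), ?_⟩
    rintro (t | _ | j) hj
    · simp only [lf, cc, LinearMap.coe_mk, AddHom.coe_mk]
      have : 0 ≤ ∑ i, bv (t i) := sum_nonneg fun i _ => hb0 _
      simp
      linarith
    · exact absurd rfl hj
    · simp only [lf, cc, LinearMap.coe_mk, AddHom.coe_mk]
      simp [Pi.single_apply]
      exact hd
  · refine ⟨lf (Pi.single i 1) 0, ?_⟩
    rintro (t | _ | j) hj
    · simp only [lf, cc, LinearMap.coe_mk, AddHom.coe_mk]
      simp [Pi.single_apply]
      linarith [hb1 (t i)]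
    · simp only [lf, cc, LinearMap.coe_mk, AddHom.coe_mk]
      simp [Pi.single_apply]
      exact hd
    · have : j ≠ i := fun h => hj (by rw [h])
      simp only [lf, cc, LinearMap.coe_mk, AddHom.coe_mk]
      simp [Pi.single_apply, this]
      exact hd

lemma ncard_ext (hd : 0 < d) :
    ((convexHull ℝ (Set.range (cc d))).extremePoints ℝ).ncard = 2 ^ d + d + 1 := by
  rw [(extreme_eq (cc d) (exposed hd)).2.2]
  simp [add_assoc]

lemma not_simplex (hd : 0 < d) (k : ℕ) : ¬ IsSimplex (convexHull ℝ (Set.range (cc d))) k := by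
  intro h
  have h1 := simplex_ext_le h
  have h2 := simplex_dim_le h
  rw [ncard_ext hd] at h1
  simp at h2
  have : 2 ≤ 2 ^ d := by
    calc 2 = 2 ^ 1 := by norm_num
      _ ≤ 2 ^ d := Nat.pow_le_pow_right (by norm_num) hd
  omega

lemma card_I : Fintype.card (I d) = 3 * d + 1 := by simp; ring

lemma std_simplex : IsSimplex (stdSimplex ℝ (I d)) (3 * d) :=
  ⟨_, std_aff (Fintype.equivFinOfCardEq card_I).symm⟩

end family

end Pool.Agent.H30.Refine
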