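import Mathlib

set_option autoImplicit false

open Set Filter Topology

namespace Pool.Agent.H30.SLc

abbrev B := ℕ → ℝ

def cyl (x : B) (n : ℕ) : Set B := {y | ∀ i < n, y i = x i}

lemma self_cyl (x : B) (n : ℕ) : x ∈ cyl x n := fun _ _ => rfl

lemma cyl_eq {x y : B} {n : ℕ} (h : y ∈ cyl x n) : cyl y n = cyl x n := by
  ext z
  constructor
  · intro hz i hi
    rw [hz i hi, h i hi]
  · intro hz i hi
    rw [hz i hi, h i hi]

lemma cyl_anti (x : B) {n m : ℕ} (h : n ≤ m) : cyl x m ⊆ cyl x n :=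
  fun _ hy i hi => hy i (lt_of_lt_of_le hi h)

def ND (N : Set B) : Prop := ∀ x n, ∃ m, n ≤ m ∧ ∃ y ∈ cyl x n, Disjoint (cyl y m) N

noncomputable def ell (N : Set B) (x : B) (n : ℕ) : ℕ :=
  sInf {m | n ≤ m ∧ ∃ y ∈ cyl x n, Disjoint (cyl y m) N}

lemma ell_spec {N : Set B} (hN : ND N) (x : B) (n : ℕ) :
    n ≤ ell N x n ∧ ∃ y ∈ cyl x n, Disjoint (cyl y (ell N x n)) N :=
  Nat.sInf_mem (s := {m | n ≤ m ∧ ∃ y ∈ cyl x n, Disjoint (cyl y m) N}) (hN x n)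

lemma ell_congr (N : Set B) {x y : B} {n : ℕ} (h : y ∈ cyl x n) : ell N y n = ell N x n := by
  unfold ell
  rw [cyl_eq h]

noncomputable def dd (N : Set B) (x : B) : ℕ → ℕ
  | 0 => 0
  | j + 1 => (Finset.range (dd N x j + 1)).sup (ell N x)

lemma le_dd (N : Set B) (x : B) {j m : ℕ} (h : m ≤ dd N x j) : ell N x m ≤ dd N x (j + 1) := by
  show ell N x m ≤ (Finset.range (dd N x j + 1)).sup (ell N x)
  exact Finset.le_sup (f := ell N x) (Finset.mem_range.2 (Nat.lt_succ_of_le h))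

lemma dd_succ {N : Set B} (hN : ND N) (x : B) (j : ℕ) : dd N x j ≤ dd N x (j + 1) :=
  le_trans (ell_spec hN x _).1 (le_dd N x le_rfl)

lemma dd_mono {N : Set B} (hN : ND N) (x : B) : Monotone (dd N x) :=
  monotone_nat_of_le_succ (dd_succ hN x)

lemma dd_congr {N : Set B} (hN : ND N) {x y : B} :
    ∀ j, y ∈ cyl x (dd N x j) → dd N y j = dd N x j := by
  intro j
  induction j with
  | zero => intro _; rfl
  | succ j ih =>
    intro h
    have h1 : y ∈ cyl x (dd N x j) := cyl_anti x (dd_succ hN x j) h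
    show (Finset.range (dd N y j + 1)).sup (ell N y) = (Finset.range (dd N x j + 1)).sup (ell N x)
    rw [ih h1]
    apply Finset.sup_congr rfl
    intro m hm
    exact ell_congr N (cyl_anti x (Nat.lt_succ_iff.1 (Finset.mem_range.1 hm)) h1)

def FF (N : Set B) (j : ℕ) : Set B := {x | Disjoint (cyl x (dd N x j)) N}

lemma FF_congr {N : Set B} (hN : ND N) {x y : B} {j : ℕ} (h : y ∈ cyl x (dd N x j)) :
    y ∈ FF N j ↔ x ∈ FF N j := by
  show Disjoint (cyl y (dd N y j)) N ↔ Disjoint (cyl x (dd N x j)) N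
  rw [dd_congr hN j h, cyl_eq h]

lemma FF_not {N : Set B} {x : B} {j : ℕ} (h : x ∈ N) : x ∉ FF N j := fun h' =>
  Set.disjoint_left.1 h' (self_cyl x _) h

lemma FF_mono {N : Set B} (hN : ND N) {i j : ℕ} (h : i ≤ j) : FF N i ⊆ FF N j := fun x hx =>
  Set.disjoint_of_subset_left (cyl_anti x (dd_mono hN x h)) hx

lemma inter_FF : ∀ (r : ℕ) (A : Finset (Set B)), A.card = r → (∀ N ∈ A, ND N) →
    ∀ (x : B) (n i : ℕ), (∀ N ∈ A, ∀ y ∈ cyl x n, n ≤ dd N y i) →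
      ∃ y ∈ cyl x n, ∀ N ∈ A, y ∈ FF N (i + r) := by
  classical
  intro r
  induction r with
  | zero =>
    intro A hA _ x n i _
    refine ⟨x, self_cyl x n, fun N hN => ?_⟩
    rw [Finset.card_eq_zero.1 hA] at hN
    simp at hN
  | succ r ih =>
    intro A hA hND x n i hd
    have hne : A.Nonempty := Finset.card_pos.1 (by omega)
    obtain ⟨N0, hN0, hmin⟩ := A.exists_min_image (fun N => ell N x n) hne
    obtain ⟨hle, x1, hx1, hdis⟩ := ell_spec (hND N0 hN0) x n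
    have hsub : cyl x1 (ell N0 x n) ⊆ cyl x n := by
      rw [← cyl_eq hx1]
      exact cyl_anti x1 hle
    have key : ∀ N ∈ A, ∀ y ∈ cyl x1 (ell N0 x n), ell N0 x n ≤ dd N y (i + 1) := by
      intro N hN y hy
      have h1 := le_dd N y (hd N hN y (hsub hy))
      rw [ell_congr N (hsub hy)] at h1
      exact le_trans (hmin N hN) h1
    obtain ⟨y, hy, hyF⟩ := ih (A.erase N0) (by rw [Finset.card_erase_of_mem hN0]; omega)
      (fun N hN => hND N (Finset.mem_of_mem_erase hN)) x1 (ell N0 x n) (i + 1)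
      (fun N hN => key N (Finset.mem_of_mem_erase hN))
    refine ⟨y, hsub hy, fun N hN => ?_⟩
    by_cases h : N = N0
    · subst h
      have h2 : ell N x n ≤ dd N y (i + (r + 1)) :=
        le_trans (key N hN y hy) (dd_mono (hND N hN) y (by omega))
      refine Set.disjoint_of_subset_left ?_ hdis
      rw [← cyl_eq hy]
      exact cyl_anti y h2
    · have := hyF N (Finset.mem_erase.2 ⟨h, hN⟩)
      rwa [show i + 1 + r = i + (r + 1) by omega] at this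

abbrev H := ℕ × B

def Big (A : Set H) : Prop :=
  ∃ (a : Finset (ℕ → Set B)) (m : ℕ), (∀ N ∈ a, ∀ n, ND (N n)) ∧
    ∀ n, m ≤ n → ∀ x, (∀ N ∈ a, x ∈ FF (N n) n) → (n, x) ∈ A

lemma Big.mono {A A' : Set H} (h : Big A) (hs : A ⊆ A') : Big A' := by
  obtain ⟨a, m, h1, h2⟩ := h
  exact ⟨a, m, h1, fun n hn x hx => hs (h2 n hn x hx)⟩

lemma Big.inter {A A' : Set H} (h : Big A) (h' : Big A') : Big (A ∩ A') := by
  classical
  obtain ⟨a, m, h1, h2⟩ := h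
  obtain ⟨a', m', h1', h2'⟩ := h'
  refine ⟨a ∪ a', max m m', fun N hN => ?_, fun n hn x hx => ⟨?_, ?_⟩⟩
  · rcases Finset.mem_union.1 hN with h | h
    · exact h1 N h
    · exact h1' N h
  · exact h2 n (le_trans (le_max_left _ _) hn) x fun N hN => hx N (Finset.mem_union_left _ hN)
  · exact h2' n (le_trans (le_max_right _ _) hn) x fun N hN => hx N (Finset.mem_union_right _ hN)

lemma big_ne (n : ℕ) : Big {p : H | p.1 ≠ n} :=
  ⟨∅, n + 1, by simp, fun k hk x _ => by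
    show k ≠ n
    omega⟩

lemma big_univ : Big (univ : Set H) := (big_ne 0).mono (subset_univ _)

lemma big_FF {N : ℕ → Set B} (hN : ∀ n, ND (N n)) : Big {p : H | p.2 ∈ FF (N p.1) p.1} :=
  ⟨{N}, 0, by simpa using hN, fun n _ x hx => hx N (Finset.mem_singleton_self N)⟩

lemma Big.nonempty {A : Set H} (h : Big A) : A.Nonempty := by
  classical
  obtain ⟨a, m, h1, h2⟩ := h
  set n := max m a.card with hn
  obtain ⟨y, -, hy⟩ := inter_FF _ (a.image fun N => N n) rfl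
    (by
      intro N hN
      obtain ⟨M, hM, rfl⟩ := Finset.mem_image.1 hN
      exact h1 M hM n) (fun _ => 0) 0 0 (fun _ _ _ _ => Nat.zero_le _)
  refine ⟨(n, y), h2 n (le_max_left _ _) y fun N hN => ?_⟩
  refine FF_mono (h1 N hN n) ?_ (hy (N n) (Finset.mem_image.2 ⟨N, hN, rfl⟩))
  have := Finset.card_image_le (s := a) (f := fun N : ℕ → Set B => N n)
  have h3 : a.card ≤ n := le_max_right _ _
  omega

abbrev K := Set H

inductive X : Type
  | h : H → X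
  | k : K → X
  | i : K → H → X

instance : TopologicalSpace X where
  IsOpen U := (∀ n x, X.h (n, x) ∈ U → ∃ m, ∃ S : Set K, S.Finite ∧
      ∀ y ∈ cyl x m, X.h (n, y) ∈ U ∧ ∀ c, c ∉ S → X.i c (n, y) ∈ U) ∧
    (∀ c, X.k c ∈ U → Big {p | X.i c p ∈ U})
  isOpen_univ := ⟨fun _ _ _ => ⟨0, ∅, finite_empty, fun _ _ => ⟨trivial, fun _ _ => trivial⟩⟩,
    fun _ _ => big_univ.mono fun _ _ => trivial⟩
  isOpen_inter := by
    rintro s t ⟨hs1, hs2⟩ ⟨ht1, ht2⟩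
    refine ⟨fun n x hx => ?_, fun c hc => ((hs2 c hc.1).inter (ht2 c hc.2)).mono fun p hp => hp⟩
    obtain ⟨m, S, hS, h⟩ := hs1 n x hx.1
    obtain ⟨m', S', hS', h'⟩ := ht1 n x hx.2
    refine ⟨max m m', S ∪ S', hS.union hS', fun y hy => ?_⟩
    have h1 := h y (cyl_anti x (le_max_left _ _) hy)
    have h2 := h' y (cyl_anti x (le_max_right _ _) hy)
    exact ⟨⟨h1.1, h2.1⟩, fun c hc => ⟨h1.2 c fun hh => hc (Or.inl hh), h2.2 c fun hh => hc (Or.inr hh)⟩⟩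
  isOpen_sUnion := by
    intro s hs
    refine ⟨fun n x hx => ?_, fun c hc => ?_⟩
    · obtain ⟨t, ht, hx⟩ := hx
      obtain ⟨m, S, hS, h⟩ := (hs t ht).1 n x hx
      exact ⟨m, S, hS, fun y hy => ⟨⟨t, ht, (h y hy).1⟩, fun c hc => ⟨t, ht, (h y hy).2 c hc⟩⟩⟩
    · obtain ⟨t, ht, hc⟩ := hc
      exact ((hs t ht).2 c hc).mono fun p hp => ⟨t, ht, hp⟩

lemma isOpen_iff (U : Set X) : IsOpen U ↔ (∀ n x, X.h (n, x) ∈ U → ∃ m, ∃ S : Set K, S.Finite ∧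
      ∀ y ∈ cyl x m, X.h (n, y) ∈ U ∧ ∀ c, c ∉ S → X.i c (n, y) ∈ U) ∧
    (∀ c, X.k c ∈ U → Big {p | X.i c p ∈ U}) := Iff.rfl

def O (n : ℕ) (C : Set B) (S : Set K) : Set X := fun z =>
  match z with
  | X.h p => p.1 = n ∧ p.2 ∈ C
  | X.k _ => False
  | X.i c p => c ∉ S ∧ p.1 = n ∧ p.2 ∈ C

def P (c : K) (A : Set H) : Set X := fun z =>
  match z with
  | X.h _ => False
  | X.k c' => c' = c
  | X.i c' p => c' = c ∧ p ∈ A

@[simp] lemma h_O {n C S p} : X.h p ∈ O n C S ↔ p.1 = n ∧ p.2 ∈ C := Iff.rfl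
@[simp] lemma k_O {n C S c} : X.k c ∈ O n C S ↔ False := Iff.rfl
@[simp] lemma i_O {n C S c p} : X.i c p ∈ O n C S ↔ c ∉ S ∧ p.1 = n ∧ p.2 ∈ C := Iff.rfl
@[simp] lemma h_P {c A p} : X.h p ∈ P c A ↔ False := Iff.rfl
@[simp] lemma k_P {c A c'} : X.k c' ∈ P c A ↔ c' = c := Iff.rfl
@[simp] lemma i_P {c A c' p} : X.i c' p ∈ P c A ↔ c' = c ∧ p ∈ A := Iff.rfl

lemma open_O (n : ℕ) (x : B) (m : ℕ) {S : Set K} (hS : S.Finite) : IsOpen (O n (cyl x m) S) := by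
  refine ⟨fun n' y hy => ⟨m, S, hS, fun z hz => ?_⟩, fun c hc => hc.elim⟩
  have hz' : z ∈ cyl x m := by rwa [← cyl_eq hy.2]
  exact ⟨⟨hy.1, hz'⟩, fun c hc => ⟨hc, hy.1, hz'⟩⟩

lemma closed_O (n : ℕ) (x : B) (m : ℕ) (S : Set K) : IsClosed (O n (cyl x m) S) := by
  rw [← isOpen_compl_iff]
  refine ⟨fun n' y hy => ⟨m, ∅, finite_empty, fun z hz => ?_⟩,
    fun c _ => (big_ne n).mono fun p hp hq => hp hq.2.1⟩
  have h1 : ¬ (n' = n ∧ z ∈ cyl x m) := by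
    rintro ⟨h1, h2⟩
    apply hy
    refine ⟨h1, ?_⟩
    show y ∈ cyl x m
    rw [← cyl_eq h2, cyl_eq hz]
    exact self_cyl y m
  exact ⟨h1, fun c _ hc => h1 hc.2⟩

lemma open_P (c : K) {A : Set H} (hA : Big A) : IsOpen (P c A) := by
  refine ⟨fun n y hy => hy.elim, fun c' hc => hA.mono fun p hp => ⟨hc, hp⟩⟩

lemma closed_P (c : K) (A : Set H) : IsClosed (P c A) := by
  rw [← isOpen_compl_iff]
  refine ⟨fun n y _ => ⟨0, {c}, finite_singleton c, fun z _ => ⟨fun hh => hh, fun c' hc hh => hc hh.1⟩⟩,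
    fun c' hc => big_univ.mono fun p _ hh => hc hh.1⟩

lemma open_i (c : K) (p : H) : IsOpen ({X.i c p} : Set X) :=
  ⟨fun n y hy => by simp at hy, fun c' hc => by simp at hc⟩

lemma closed_i (c : K) (p : H) : IsClosed ({X.i c p} : Set X) := by
  rw [← isOpen_compl_iff]
  refine ⟨fun n y _ => ⟨0, {c}, finite_singleton c, fun z _ => ⟨by simp, fun c' hc hh => ?_⟩⟩,
    fun c' _ => (big_ne p.1).mono fun q hq hh => ?_⟩
  · simp only [mem_singleton_iff, X.i.injEq] at hh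
    exact hc hh.1
  · simp only [mem_singleton_iff, X.i.injEq] at hh
    exact hq (by rw [hh.2])

lemma nh_h {U : Set X} {n : ℕ} {x : B} (hU : U ∈ 𝓝 (X.h (n, x))) :
    ∃ m, ∃ S : Set K, S.Finite ∧ O n (cyl x m) S ⊆ U := by
  obtain ⟨V, hVU, hV, hx⟩ := mem_nhds_iff.1 hU
  obtain ⟨m, S, hS, h⟩ := hV.1 n x hx
  refine ⟨m, S, hS, fun z hz => hVU ?_⟩
  rcases z with ⟨n', y⟩ | c | ⟨c, n', y⟩
  · obtain ⟨rfl, h2⟩ := hz
    exact (h y h2).1
  · exact hz.elim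
  · obtain ⟨h1, rfl, h2⟩ := hz
    exact (h y h2).2 c h1

lemma nh_k {U : Set X} {c : K} (hU : U ∈ 𝓝 (X.k c)) : ∃ A, Big A ∧ P c A ⊆ U := by
  obtain ⟨V, hVU, hV, hx⟩ := mem_nhds_iff.1 hU
  refine ⟨_, hV.2 c hx, fun z hz => hVU ?_⟩
  rcases z with p | c' | ⟨c', p⟩
  · exact hz.elim
  · obtain rfl : c' = c := hz
    exact hx
  · obtain ⟨rfl, h2⟩ := hz
    exact h2

instance : RegularSpace X := by
  apply RegularSpace.of_exists_mem_nhds_isClosed_subset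
  intro z s hs
  rcases z with ⟨n, x⟩ | c | ⟨c, p⟩
  · obtain ⟨m, S, hS, h⟩ := nh_h hs
    exact ⟨_, (open_O n x m hS).mem_nhds ⟨rfl, self_cyl x m⟩, closed_O n x m S, h⟩
  · obtain ⟨A, hA, h⟩ := nh_k hs
    exact ⟨_, (open_P c hA).mem_nhds rfl, closed_P c A, h⟩
  · exact ⟨_, (open_i c p).mem_nhds rfl, closed_i c p, singleton_subset_iff.2 (mem_of_mem_nhds hs)⟩

instance : T1Space X := by
  refine ⟨fun z => ?_⟩
  rcases z with ⟨n, x⟩ | c | ⟨c, p⟩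
  · rw [← isOpen_compl_iff]
    refine ⟨fun n' y hy => ?_, fun c _ => big_univ.mono fun p _ => by simp⟩
    by_cases hn : n' = n
    · have hxy : y ≠ x := by
        rintro rfl
        exact hy (by simp [hn])
      obtain ⟨j, hj⟩ := Function.ne_iff.1 hxy
      refine ⟨j + 1, ∅, finite_empty, fun z hz => ⟨?_, fun c _ => by simp⟩⟩
      intro hh
      simp only [mem_singleton_iff, X.h.injEq, Prod.mk.injEq] at hh
      apply hj
      rw [← hh.2]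
      exact (hz j (Nat.lt_succ_self j)).symm
    · exact ⟨0, ∅, finite_empty, fun z _ => ⟨by simp [hn], fun c _ => by simp⟩⟩
  · have : ({X.k c} : Set X) = P c ∅ := by
      ext z
      rcases z with p | c' | ⟨c', p⟩ <;> simp
    rw [this]
    exact closed_P c ∅
  · exact closed_i c p

instance : T3Space X := {}

lemma part (R : ℕ → Set B → Prop) (hR : ∀ n x, ∃ m, R n (cyl x m)) :
    ∃ μ : ℕ → B → ℕ, (∀ n x, R n (cyl x (μ n x))) ∧
      ∀ n x y, y ∈ cyl x (μ n x) → μ n y = μ n x := by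
  classical
  refine ⟨fun n x => Nat.find (hR n x), fun n x => Nat.find_spec (hR n x), fun n x y hy => ?_⟩
  rw [Nat.find_eq_iff]
  refine ⟨by rw [cyl_eq hy]; exact Nat.find_spec (hR n x), fun m hm => ?_⟩
  rw [cyl_eq (cyl_anti x hm.le hy)]
  exact Nat.find_min (hR n x) hm

lemma sel (Q : Set X → Prop) (hQ : ∀ U V, Q U → V ⊆ U → Q V) (hloc : ∀ z, ∃ U ∈ 𝓝 z, Q U) :
    ∃ G : X → Set X, (∀ z, IsOpen (G z) ∧ z ∈ G z ∧ Q (G z)) ∧
      (∀ c p, G (X.i c p) = {X.i c p}) ∧ (∀ c, G (X.k c) ⊆ P c univ) ∧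
      (∀ p q u, u ∈ G (X.h p) → u ∈ G (X.h q) → G (X.h p) = G (X.h q)) := by
  classical
  obtain ⟨μ, hμ, hμ2⟩ := part (fun n C => ∃ S : Set K, S.Finite ∧ Q (O n C S)) (by
    intro n x
    obtain ⟨U, hU, hq⟩ := hloc (X.h (n, x))
    obtain ⟨m, S, hS, h⟩ := nh_h hU
    exact ⟨m, S, hS, hQ _ _ hq h⟩)
  have h1 : ∀ n (C : Set B), ∃ S : Set K, (∃ S : Set K, S.Finite ∧ Q (O n C S)) →
      S.Finite ∧ Q (O n C S) := by
    intro n C
    by_cases h : ∃ S : Set K, S.Finite ∧ Q (O n C S)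
    · obtain ⟨S, hS⟩ := h
      exact ⟨S, fun _ => hS⟩
    · exact ⟨∅, fun h' => (h h').elim⟩
  choose Sf hSf using h1
  have h2 : ∀ c : K, ∃ A, Big A ∧ Q (P c A) := by
    intro c
    obtain ⟨U, hU, hq⟩ := hloc (X.k c)
    obtain ⟨A, hA, h⟩ := nh_k hU
    exact ⟨A, hA, hQ _ _ hq h⟩
  choose A hA using h2
  let G : X → Set X := fun z =>
    match z with
    | X.h p => O p.1 (cyl p.2 (μ p.1 p.2)) (Sf p.1 (cyl p.2 (μ p.1 p.2)))
    | X.k c => P c (A c)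
    | X.i c p => {X.i c p}
  refine ⟨G, fun z => ?_, fun c p => rfl, fun c z hz => ?_, ?_⟩
  · rcases z with ⟨n, x⟩ | c | ⟨c, p⟩
    · exact ⟨open_O _ _ _ (hSf _ _ (hμ n x)).1, ⟨rfl, self_cyl _ _⟩, (hSf _ _ (hμ n x)).2⟩
    · exact ⟨open_P c (hA c).1, rfl, (hA c).2⟩
    · obtain ⟨U, hU, hq⟩ := hloc (X.i c p)
      exact ⟨open_i c p, rfl, hQ _ _ hq (singleton_subset_iff.2 (mem_of_mem_nhds hU))⟩
  · rcases z with p | c' | ⟨c', p⟩
    · exact hz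
    · exact hz
    · exact ⟨hz.1, trivial⟩
  · rintro ⟨n, x⟩ ⟨n', y⟩ u hu hu'
    have h3 : ∃ w : B, n' = n ∧ w ∈ cyl x (μ n x) ∧ w ∈ cyl y (μ n' y) := by
      rcases u with p | c' | ⟨c', p⟩
      · exact ⟨p.2, hu'.1.symm.trans hu.1, hu.2, hu'.2⟩
      · exact hu.elim
      · exact ⟨p.2, hu'.2.1.symm.trans hu.2.1, hu.2.2, hu'.2.2⟩
    obtain ⟨w, rfl, hw, hw'⟩ := h3
    have h4 : cyl x (μ n' x) = cyl y (μ n' y) := by
      rw [← cyl_eq hw, ← cyl_eq hw', ← hμ2 _ _ _ hw, ← hμ2 _ _ _ hw']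
    show O n' (cyl x (μ n' x)) (Sf n' (cyl x (μ n' x))) = O n' (cyl y (μ n' y)) (Sf n' (cyl y (μ n' y)))
    rw [h4]

def kk : X → K
  | X.h _ => ∅
  | X.k c => c
  | X.i c _ => c

lemma kk_P {c : K} {A : Set H} {z : X} (h : z ∈ P c A) : kk z = c := by
  rcases z with p | c' | ⟨c', p⟩
  · exact h.elim
  · exact h
  · exact h.1

theorem metac (𝒰 : Set (Set X)) (hU : ∀ U ∈ 𝒰, IsOpen U) (hc : ⋃₀ 𝒰 = Set.univ) :
    ∃ 𝒱 : Set (Set X), (∀ V ∈ 𝒱, IsOpen V) ∧ ⋃₀ 𝒱 = Set.univ ∧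
      (∀ V ∈ 𝒱, ∃ U ∈ 𝒰, V ⊆ U) ∧ ∀ x : X, {V : Set X | V ∈ 𝒱 ∧ x ∈ V}.Finite := by
  obtain ⟨G, hG, hGi, hGk, hGh⟩ := sel (fun V => ∃ U ∈ 𝒰, V ⊆ U)
    (fun U V ⟨W, hW, h⟩ h' => ⟨W, hW, h'.trans h⟩) (by
      intro z
      obtain ⟨U, hU', hz⟩ : z ∈ ⋃₀ 𝒰 := hc ▸ mem_univ z
      exact ⟨U, (hU U hU').mem_nhds hz, U, hU', Subset.rfl⟩)
  refine ⟨range G, ?_, ?_, ?_, fun z => ?_⟩
  · rintro _ ⟨z, rfl⟩
    exact (hG z).1
  · exact eq_univ_of_forall fun z => ⟨G z, ⟨z, rfl⟩, (hG z).2.1⟩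
  · rintro _ ⟨z, rfl⟩
    exact (hG z).2.2
  · have h1 : ({V | ∃ p, V = G (X.h p) ∧ z ∈ V} : Set (Set X)).Subsingleton := by
      rintro _ ⟨p, rfl, hp⟩ _ ⟨q, rfl, hq⟩
      exact hGh p q z hp hq
    refine ((h1.finite.insert {z}).insert (G (X.k (kk z)))).subset ?_
    rintro _ ⟨⟨w, rfl⟩, hw⟩
    rcases w with p | c | ⟨c, p⟩
    · exact Or.inr (Or.inr ⟨p, rfl, hw⟩)
    · left
      rw [kk_P (hGk c hw)]
    · right; left
      rw [hGi] at hw ⊢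
      rw [hw]

lemma lind {F : Set X} (hF : IsLindelof F) (n : ℕ) (x : B) (m : ℕ) :
    ∃ y ∈ cyl x m, ∀ z ∈ cyl y (m + 1), X.h (n, z) ∉ F := by
  let U0 : Set X := {z | ∀ y ∈ cyl x m, z ≠ X.h (n, y)}
  have hU0 : IsOpen U0 := by
    refine ⟨fun n' y hy => ⟨m, ∅, finite_empty, fun z hz => ⟨?_, fun c _ w _ => by simp⟩⟩,
      fun c _ => big_univ.mono fun p _ w _ => by simp⟩
    intro w hw hh
    simp only [X.h.injEq, Prod.mk.injEq] at hh
    obtain ⟨rfl, rfl⟩ := hh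
    refine hy y ?_ rfl
    rw [← cyl_eq hw, cyl_eq hz]
    exact self_cyl y m
  obtain ⟨r, hr, hsub⟩ := hF.elim_countable_subcover
    (fun b : ℝ => U0 ∪ O n (cyl (Function.update x m b) (m + 1)) ∅)
    (fun b => hU0.union (open_O _ _ _ finite_empty)) (by
      intro z _
      by_cases hz : z ∈ U0
      · exact mem_iUnion.2 ⟨0, Or.inl hz⟩
      · simp only [U0, mem_setOf_eq, not_forall, not_not] at hz
        obtain ⟨y, hy, rfl⟩ := hz
        refine mem_iUnion.2 ⟨y m, Or.inr ⟨rfl, fun i hi => ?_⟩⟩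
        by_cases him : i = m
        · subst him
          simp
        · rw [Function.update_of_ne him]
          exact hy i (by omega))
  obtain ⟨b, hb⟩ : ∃ b : ℝ, b ∉ r := by
    by_contra hcon
    push Not at hcon
    exact Cardinal.not_countable_real (hr.mono fun b _ => hcon b)
  have hbx : Function.update x m b ∈ cyl x m := fun i hi => Function.update_of_ne (by omega) _ _
  refine ⟨Function.update x m b, hbx, fun z hz hzF => ?_⟩
  obtain ⟨b', hb', hz'⟩ := mem_iUnion₂.1 (hsub hzF)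
  rcases hz' with hz' | hz'
  · refine hz' z ?_ rfl
    rw [← cyl_eq hbx]
    exact cyl_anti _ (Nat.le_succ m) hz
  · have h1 := hz'.2 m (Nat.lt_succ_self m)
    have h2 := hz m (Nat.lt_succ_self m)
    simp only [Function.update_self] at h1 h2
    exact hb (by rw [← h2, h1]; exact hb')

theorem slc (𝓕 : Set (Set X)) (h𝓕 : ∀ F ∈ 𝓕, IsClosed F ∧ IsLindelof F)
    (hd : ∀ x : X, ∃ N ∈ nhds x, {F : Set X | F ∈ 𝓕 ∧ (F ∩ N).Nonempty}.Subsingleton) :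
    ∃ U : Set X → Set X, (∀ F ∈ 𝓕, IsOpen (U F) ∧ F ⊆ U F) ∧
      (∀ F ∈ 𝓕, ∀ G ∈ 𝓕, F ≠ G → Disjoint (U F) (U G)) := by
  classical
  obtain ⟨G, hG, hGi, hGk, hGh⟩ := sel
    (fun V => {F : Set X | F ∈ 𝓕 ∧ (F ∩ V).Nonempty}.Subsingleton)
    (fun U V h h' => h.anti fun F hF => ⟨hF.1, hF.2.mono (inter_subset_inter_right _ h')⟩) hd
  let N : ℕ → Set B := fun n => {x | ∃ F ∈ 𝓕, X.h (n, x) ∈ F}
  have hN : ∀ n, ND (N n) := by
    intro n x m
    obtain ⟨m1, S, -, hO⟩ := nh_h ((hG (X.h (n, x))).1.mem_nhds (hG _).2.1)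
    by_cases hex : ∃ F ∈ 𝓕, (F ∩ G (X.h (n, x))).Nonempty
    · obtain ⟨F, hF, hne⟩ := hex
      obtain ⟨y, hy, hy2⟩ := lind (h𝓕 F hF).2 n x (max m m1)
      refine ⟨max m m1 + 1, by omega, y, cyl_anti x (le_max_left _ _) hy,
        Set.disjoint_left.2 fun z hz ⟨F', hF', hz'⟩ => ?_⟩
      have hz1 : z ∈ cyl x m1 := by
        apply cyl_anti x (le_max_right m m1)
        rw [← cyl_eq hy]
        exact cyl_anti y (Nat.le_succ _) hz
      have : F' = F := (hG (X.h (n, x))).2.2 ⟨hF', _, hz', hO ⟨rfl, hz1⟩⟩ ⟨hF, hne⟩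
      exact hy2 z hz (this ▸ hz')
    · refine ⟨max m m1, le_max_left _ _, x, self_cyl _ _,
        Set.disjoint_left.2 fun z hz ⟨F', hF', hz'⟩ => hex ⟨F', hF', _, hz', hO ⟨rfl, ?_⟩⟩⟩
      exact cyl_anti x (le_max_right m m1) hz
  let W : Set X := fun z =>
    match z with
    | X.h p => p.2 ∉ FF (N p.1) p.1
    | X.k _ => False
    | X.i _ p => p.2 ∉ FF (N p.1) p.1
  have hW : IsOpen W := by
    refine ⟨fun n x hx => ⟨dd (N n) x n, ∅, finite_empty, fun y hy => ?_⟩, fun c hc => hc.elim⟩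
    have : y ∉ FF (N n) n := fun h => hx ((FF_congr (hN n) hy).1 h)
    exact ⟨this, fun _ _ => this⟩
  have hW' : IsOpen Wᶜ := by
    refine ⟨fun n x hx => ⟨dd (N n) x n, ∅, finite_empty, fun y hy => ?_⟩,
      fun c _ => (big_FF hN).mono fun p hp hh => hh hp⟩
    have hx' : x ∈ FF (N n) n := not_not.1 hx
    have : y ∈ FF (N n) n := (FF_congr (hN n) hy).2 hx'
    exact ⟨fun h => h this, fun _ _ h => h this⟩
  let T : X → Set X := fun z => if z ∈ W then W else Wᶜ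
  have hT : ∀ z, IsOpen (T z) ∧ z ∈ T z := by
    intro z
    by_cases hz : z ∈ W
    · simp only [T, if_pos hz]
      exact ⟨hW, hz⟩
    · simp only [T, if_neg hz]
      exact ⟨hW', hz⟩
  refine ⟨fun F => ⋃ z ∈ F, G z ∩ T z, fun F _ => ⟨?_, fun z hz => ?_⟩, fun F hF F' hF' hne => ?_⟩
  · exact isOpen_biUnion fun z _ => (hG z).1.inter (hT z).1
  · exact mem_biUnion hz ⟨(hG z).2.1, (hT z).2⟩
  · have key : ∀ E ∈ 𝓕, ∀ E' ∈ 𝓕, ∀ z ∈ E, ∀ w ∈ E', w ∈ G z → E = E' :=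
      fun E hE E' hE' z hz w hw h => (hG z).2.2 ⟨hE, z, hz, (hG z).2.1⟩ ⟨hE', w, hw, h⟩
    have mix : ∀ E ∈ 𝓕, ∀ p c, X.h p ∈ E → ∀ u, u ∈ T (X.h p) → u ∈ T (X.k c) → False := by
      intro E hE p c hp u h1 h2
      have h3 : X.h p ∈ W := FF_not ⟨E, hE, hp⟩
      have h4 : X.k c ∉ W := fun h => h
      simp only [T, if_pos h3] at h1
      simp only [T, if_neg h4] at h2
      exact h2 h1
    refine Set.disjoint_left.2 fun u hu hu' => hne ?_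
    obtain ⟨z, hz, hu1, hu2⟩ := mem_iUnion₂.1 hu
    obtain ⟨w, hw, hu1', hu2'⟩ := mem_iUnion₂.1 hu'
    rcases w with q | c | ⟨c, q⟩
    · rcases z with p | c' | ⟨c', p⟩
      · exact key F hF F' hF' _ hz _ hw (hGh p q u hu1 hu1' ▸ (hG _).2.1)
      · exact (mix F' hF' q c' hw u hu2' hu2).elim
      · rw [hGi] at hu1
        exact (key F' hF' F hF _ hw _ hz (hu1 ▸ hu1')).symm
    · rcases z with p | c' | ⟨c', p⟩
      · exact (mix F hF p c hz u hu2 hu2').elim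
      · have : c' = c := (kk_P (hGk _ hu1)).symm.trans (kk_P (hGk _ hu1'))
        subst this
        exact key F hF F' hF' _ hz _ hw (hG _).2.1
      · rw [hGi] at hu1
        exact (key F' hF' F hF _ hw _ hz (hu1 ▸ hu1')).symm
    · rw [hGi] at hu1'
      exact key F hF F' hF' _ hz _ hw (hu1' ▸ hu1)

lemma fib (f : K → H) : ∃ p, ¬ (f ⁻¹' {p}).Countable := by
  by_contra hcon
  push Not at hcon
  have h1 : ∀ p, ∃ g : K → ℕ, InjOn g (f ⁻¹' {p}) := fun p => countable_iff_exists_injOn.1 (hcon p)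
  choose g hg using h1
  let e : K → H := fun c => ((Nat.pair (f c).1 (g (f c) c)), (f c).2)
  apply Function.cantor_injective e
  intro c c' h
  simp only [e, Prod.mk.injEq, Nat.pair_eq_pair] at h
  have h2 : f c = f c' := Prod.ext h.1.1 h.2
  refine hg (f c) rfl h2.symm ?_
  rw [h.1.2, h2]

theorem nopl : ¬ (∀ 𝒰 : Set (Set X), (∀ U ∈ 𝒰, IsOpen U) → ⋃₀ 𝒰 = Set.univ →
    ∃ 𝒱 : Set (Set X), (∀ V ∈ 𝒱, IsOpen V) ∧ ⋃₀ 𝒱 = Set.univ ∧
      (∀ V ∈ 𝒱, ∃ U ∈ 𝒰, V ⊆ U) ∧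
      ∀ x : X, ∃ N ∈ nhds x, {V : Set X | V ∈ 𝒱 ∧ (V ∩ N).Nonempty}.Countable) := by
  intro h
  obtain ⟨𝒱, hV1, hV2, hV3, hV4⟩ := h (insert {z | ∀ c, z ≠ X.k c} (range fun c => P c univ)) (by
    rintro U (rfl | ⟨c, rfl⟩)
    · exact ⟨fun n x _ => ⟨0, ∅, finite_empty, fun y _ => ⟨fun c => by simp, fun _ _ c => by simp⟩⟩,
        fun c hc => (hc c rfl).elim⟩
    · exact open_P c big_univ) (by
    refine eq_univ_of_forall fun z => ?_
    rcases z with p | c | ⟨c, p⟩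
    · exact ⟨_, Or.inl rfl, fun c => by simp⟩
    · exact ⟨_, Or.inr ⟨c, rfl⟩, rfl⟩
    · exact ⟨_, Or.inl rfl, fun c => by simp⟩)
  have h1 : ∀ c : K, ∃ V ∈ 𝒱, V ⊆ P c univ ∧ X.k c ∈ V ∧ ∃ p, X.i c p ∈ V := by
    intro c
    obtain ⟨V, hV, hc⟩ : X.k c ∈ ⋃₀ 𝒱 := hV2 ▸ mem_univ _
    refine ⟨V, hV, ?_, hc, ((hV1 V hV).2 c hc).nonempty⟩
    obtain ⟨U, hU, hVU⟩ := hV3 V hV
    rcases hU with rfl | ⟨c', rfl⟩
    · exact (hVU hc c rfl).elim
    · obtain rfl : c = c' := hVU hc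
      exact hVU
  choose V hV hVP hVk f hf using h1
  obtain ⟨⟨n, x⟩, hp⟩ := fib f
  obtain ⟨N, hN, hc⟩ := hV4 (X.h (n, x))
  obtain ⟨m, S, hS, hO⟩ := nh_h hN
  apply hp
  have hinj : Function.Injective V := fun c c' hh => hVP c' (hh ▸ hVk c)
  refine ((hc.preimage_of_injOn (f := V) hinj.injOn).union hS.countable).mono fun c hc' => ?_
  by_cases hcS : c ∈ S
  · exact Or.inr hcS
  · left
    have h2 : f c = (n, x) := hc'
    exact ⟨hV c, _, hf c, hO ⟨hcS, by rw [h2], by rw [h2]; exact self_cyl x m⟩⟩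

end Pool.Agent.H30.SLc
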