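import Mathlib

set_option autoImplicit false

namespace Pool.Agent.H30.SepG

open Set Filter Topology TopologicalSpace

variable {X : Type} (c : X → ℕ → ZMod 2)

def ag (m : ℕ) (x y : X) : Prop := ∀ k < m, c x k = c y k

open Classical in
noncomputable def deg (y : X) (m : ℕ) : (X →₀ ZMod 2) →+ ZMod 2 :=
  Finsupp.liftAddHom fun x => if ag c m x y then AddMonoidHom.id _ else 0

open Classical in
lemma deg_single (y x : X) (m : ℕ) (r : ZMod 2) : deg c y m (Finsupp.single x r) = if ag c m x y then r else 0 := by
  simp only [deg, Finsupp.liftAddHom_apply_single]; split_ifs <;> rfl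

lemma deg_congr {y z : X} {m : ℕ} (h : ag c m y z) : deg c y m = deg c z m := by
  classical
  have : ∀ x, ag c m x y ↔ ag c m x z := fun x => forall₂_congr fun k hk => by rw [h k hk]
  ext x r
  simp only [AddMonoidHom.comp_apply, Finsupp.singleAddHom_apply, deg_single]
  exact if_congr (this x) rfl rfl

def A (w : X →₀ ZMod 2) (y : X) : Prop := ∀ m, deg c y m w = 1

variable {c}

lemma sep (i : Function.Injective c) (s : X →₀ ZMod 2) (p : X) :
    ∃ n, ∀ m ≥ n, ∀ x, ag c n x p → ∃ r, deg c x m s = r * s p ∧ (x = p → r = 1) := by
  classical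
  have : ∀ y, ∃ n, y ≠ p → ¬ag c n y p := fun y => by
    by_cases e : y = p
    · exact ⟨0, fun h => (h e).elim⟩
    · obtain ⟨k, hk⟩ := Function.ne_iff.1 (i.ne e)
      exact ⟨k + 1, fun _ h => hk (h k k.lt_succ_self)⟩
  choose n hn using this
  refine ⟨s.support.sup n, fun m hm x hx => ⟨if ag c m p x then 1 else 0, ?_, fun e => if_pos fun _ _ => by rw [e]⟩⟩
  conv_lhs => rw [← s.sum_single, Finsupp.sum, map_sum]
  rw [Finset.sum_eq_single p (fun y hy e => ?_) fun h => by simp [Finsupp.notMem_support_iff.1 h], deg_single]
  · split_ifs <;> simp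
  · rw [deg_single, if_neg fun h => hn y e fun k hk => ?_]
    have := hk.trans_le (Finset.le_sup (f := n) hy)
    exact (h k (this.trans_le hm)).trans (hx k this)

lemma uniq (i : Function.Injective c) {w : X →₀ ZMod 2} {x y : X} (hx : A c w x) (hy : A c w y) : x = y := by
  classical
  refine i (funext fun n => ?_)
  induction n using Nat.strong_induction_on with
  | _ n ih =>
  by_contra e
  have : deg c x n = deg c x (n + 1) + deg c y (n + 1) := by
    ext z r
    have a : ∀ u, ag c (n + 1) z u ↔ ag c n z u ∧ c z n = c u n := fun u => Nat.forall_lt_succ_right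
    have b : ag c n z y ↔ ag c n z x := forall₂_congr fun k hk => by rw [ih k hk]
    simp only [AddMonoidHom.comp_apply, Finsupp.singleAddHom_apply, AddMonoidHom.add_apply, deg_single, a, b]
    by_cases q : ag c n z x
    · simp only [q, true_and]
      revert e
      generalize c z n = u, c x n = v, c y n = t
      rw [if_pos trivial]
      revert u v t r; decide
    · simp [q]
  have h := hx n
  rw [this, AddMonoidHom.add_apply, hx, hy] at h
  exact absurd h (by decide)

open Classical in
noncomputable def f (c : X → ℕ → ZMod 2) (x0 : X) (w : X →₀ ZMod 2) : X := if h : ∃ y, A c w y then h.choose else x0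

lemma f_eq (i : Function.Injective c) (x0 : X) {w : X →₀ ZMod 2} {x : X} (h : A c w x) : f c x0 w = x := by
  rw [f, dif_pos ⟨x, h⟩]; exact uniq i (Exists.choose_spec ⟨x, h⟩) h

lemma rf (m : ℕ) (x : X) : ag c m x x := fun _ _ => rfl

lemma cont [TopologicalSpace X] (i : Function.Injective c) (o : ∀ n p, IsOpen {x | c x n = c p n}) (x0 : X)
    (s : X →₀ ZMod 2) : Continuous fun x => f c x0 (Finsupp.single x 1 + s) := by
  classical
  refine continuous_iff_continuousAt.2 fun p => ?_
  obtain ⟨n, hn⟩ := sep i s p
  have V : ∀ᶠ x in 𝓝 p, ag c n x p := (eventually_all_finite (finite_lt_nat n)).2 fun k _ => (o k p).mem_nhds rfl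
  have l : ∀ x, ag c n x p → ∀ m ≤ n, deg c x m (Finsupp.single x 1 + s) = deg c p m (Finsupp.single p 1 + s) :=
    fun x hx m hm => by
      rw [map_add, map_add, deg_single, deg_single, if_pos (rf _ _), if_pos (rf _ _),
        deg_congr c fun k hk => hx k (hk.trans_le hm)]
  by_cases Z : ∀ m ≤ n, deg c p m (Finsupp.single p 1 + s) = 1
  · refine continuousAt_id.congr (V.mono fun x hx => (f_eq i x0 (x := x) fun m => ?_).symm)
    rcases le_total m n with h | h
    · rw [l x hx m h, Z m h]
    · obtain ⟨r, r1, r2⟩ := hn n le_rfl p (rf _ _)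
      have := Z n le_rfl
      rw [map_add, deg_single, if_pos (rf _ _), r1, r2 rfl, one_mul, add_eq_left] at this
      obtain ⟨r, r1, -⟩ := hn m h x hx
      rw [map_add, deg_single, if_pos (rf _ _), r1, this, mul_zero, add_zero]
  · refine (continuousAt_const (y := f c x0 (Finsupp.single p 1 + s))).congr (V.mono fun x hx => ?_)
    have : A c (Finsupp.single p 1 + s) = A c (Finsupp.single x 1 + s) := funext fun y => propext <| by
      by_cases q : ag c n y p
      · refine iff_of_false (fun h => Z fun m hm => ?_) fun h => Z fun m hm => ?_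
        · rw [← deg_congr c fun k hk => q k (hk.trans_le hm), h]
        · rw [← l x hx m hm, deg_congr c (z := y) fun k hk => (hx k (hk.trans_le hm)).trans (q k (hk.trans_le hm)).symm, h]
      · refine forall_congr' fun m => ?_
        have : ag c m p y ↔ ag c m x y := by
          rcases le_total m n with h | h
          · exact forall₂_congr fun k hk => by rw [hx k (hk.trans_le h)]
          · exact iff_of_false (fun e => q fun k hk => (e k (hk.trans_le h)).symm)
              fun e => q fun k hk => (e k (hk.trans_le h)).symm.trans (hx k hk)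
        rw [map_add, map_add, deg_single, deg_single, this]
    show f c x0 (Finsupp.single p 1 + s) = f c x0 (Finsupp.single x 1 + s)
    simp only [f, this]

theorem grp [TopologicalSpace X] [RegularSpace X] [SeparableSpace X] [Nontrivial X] (i : Function.Injective c)
    (o : ∀ n p, IsOpen {x | c x n = c p n}) (h : ¬CompletelyRegularSpace X) :
    ∃ (G : Type) (_ : AddCommGroup G) (_ : TopologicalSpace G), (∀ a : G, Continuous (a + ·)) ∧ (∀ a : G, -a = a) ∧
      T3Space G ∧ SeparableSpace G ∧ ¬CompletelyRegularSpace G := by
  classical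
  have : T0Space X := ⟨fun x y e => i (funext fun n => (e.mem_open_iff (o n y)).2 rfl)⟩
  have : T3Space X := ⟨⟩
  obtain ⟨x0, x1, ne⟩ := exists_pair_ne X
  have ng : ∀ a : X →₀ ZMod 2, -a = a := fun a => Finsupp.ext fun x => ZMod.neg_eq_self_mod_two _
  have s1 : ∀ x, f c x0 (Finsupp.single x 1) = x := fun x => f_eq i x0 fun m => by rw [deg_single, if_pos (rf _ _)]
  let F : (X →₀ ZMod 2) → (X →₀ ZMod 2) → X := fun w s => f c x0 (w + s)
  have iF : Function.Injective F := fun w v e => by
    by_contra q
    have : ∃ y ≠ x0, ¬A c (Finsupp.single y 1 + (v - w)) y := by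
      by_cases z : ∃ y ≠ x0, (v - w) y ≠ 0
      · obtain ⟨y, y1, y2⟩ := z
        refine ⟨y, y1, fun a => y2 ?_⟩
        obtain ⟨n, hn⟩ := sep i (v - w) y
        obtain ⟨r, r1, r2⟩ := hn n le_rfl y (rf _ _)
        have := a n
        rwa [map_add, deg_single, if_pos (rf _ _), r1, r2 rfl, one_mul, add_eq_left] at this
      · push Not at z
        have u : v - w = Finsupp.single x0 ((v - w) x0) := Finsupp.ext fun y => by
          by_cases t : y = x0
          · simp [t]
          · rw [z y t, Finsupp.single_eq_of_ne t]
        refine ⟨x1, ne.symm, fun a => q (sub_eq_zero.1 ?_).symm⟩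
        have := a 0
        rw [u, map_add, deg_single, deg_single, if_pos (rf _ _), if_pos (show ag c 0 x0 x1 from fun _ h => by omega), add_eq_left] at this
        rw [u, this, Finsupp.single_zero]
    obtain ⟨y, y1, y2⟩ := this
    have e := congrFun e (Finsupp.single y 1 - w)
    simp only [F, add_sub_cancel, s1] at e
    rw [show v + (Finsupp.single y 1 - w) = Finsupp.single y 1 + (v - w) by abel, f] at e
    split_ifs at e with t
    · have t2 := t.choose_spec
      rw [← e] at t2
      exact y2 t2
    · exact y1 e
  let τ : TopologicalSpace (X →₀ ZMod 2) := .induced F inferInstance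
  have ca : ∀ a : X →₀ ZMod 2, Continuous (a + ·) := fun a => continuous_induced_rng.2 (continuous_pi fun s =>
    ((continuous_apply (a + s)).comp (continuous_induced_dom (f := F))).congr fun w => by
      simp only [F, Function.comp, add_left_comm w, add_assoc])
  have cs : Continuous fun x : X => Finsupp.single x (1 : ZMod 2) :=
    continuous_induced_rng.2 (continuous_pi fun s => cont i o x0 s)
  refine ⟨X →₀ ZMod 2, inferInstance, τ, ca, ng, iF.isEmbedding_induced.t3Space, ?_, fun q => h ?_⟩
  · obtain ⟨D, d1, d2⟩ := exists_countable_dense X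
    let H := Finsupp.supported (ZMod 2) (ZMod 2) D
    have := d1.to_subtype
    have a : ∀ u ∈ closure (H : Set (X →₀ ZMod 2)), ∀ v ∈ closure (H : Set (X →₀ ZMod 2)),
        u + v ∈ closure (H : Set (X →₀ ZMod 2)) := fun u hu v hv =>
      closure_minimal (t := (u + ·) ⁻¹' closure H) (fun v hv => by
        rw [mem_preimage, add_comm]
        exact map_mem_closure (ca v) hu fun u hu => H.add_mem hv hu) (isClosed_closure.preimage (ca u)) hv
    refine ⟨H, countable_coe_iff.1 (Finsupp.supportedEquivFinsupp (R := ZMod 2) D).injective.countable, fun w => ?_⟩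
    induction w using Finsupp.induction_linear with
    | zero => exact subset_closure H.zero_mem
    | add u v hu hv => exact a u hu v hv
    | single x r =>
      rcases (by decide : ∀ r : ZMod 2, r = 0 ∨ r = 1) r with rfl | rfl
      · rw [Finsupp.single_zero]; exact subset_closure H.zero_mem
      · exact map_mem_closure (f := fun x : X => Finsupp.single x (1 : ZMod 2)) cs (d2 x) fun y hy =>
          Finsupp.single_mem_supported _ _ hy
  · exact (IsInducing.of_comp cs ((continuous_apply 0).comp continuous_induced_dom) (by
      have : ((fun g => g 0) ∘ F) ∘ (fun x : X => Finsupp.single x (1 : ZMod 2)) = id := funext fun x => by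
        simp [F, s1]
      rw [this]; exact .id)).completelyRegularSpace

end Pool.Agent.H30.SepG
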