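import Mathlib

set_option autoImplicit false

namespace Pool.Agent.H30.Sin

open Set Filter Topology Real

def T : Set (ℝ × ℝ) := {p | p.1 ∈ Icc 0 1 ∧ p.2 ∈ Icc (-1) 1 ∧ (0 < p.1 → p.2 = sin p.1⁻¹)}

noncomputable def gr (x : ℝ) : ℝ × ℝ := (x, sin x⁻¹)

lemma gr_cont {x : ℝ} (hx : x ≠ 0) : ContinuousAt gr x :=
  continuousAt_id.prodMk (continuous_sin.continuousAt.comp (continuousAt_inv₀ hx))

lemma isCompact_T : IsCompact T := by
  have h1 : IsOpen ({p : ℝ × ℝ | 0 < p.1} ∩ (fun p : ℝ × ℝ => p.2 - sin p.1⁻¹) ⁻¹' {0}ᶜ) := by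
    refine ContinuousOn.isOpen_inter_preimage ?_ (isOpen_lt continuous_const continuous_fst)
      isOpen_compl_singleton
    intro p hp
    exact (continuousAt_snd.sub (continuous_sin.continuousAt.comp
      (continuousAt_fst.inv₀ (ne_of_gt hp)))).continuousWithinAt
  have h2 := ((isCompact_Icc (a := (0:ℝ)) (b := 1)).prod
    (isCompact_Icc (a := (-1:ℝ)) (b := 1))).inter_right h1.isClosed_compl
  convert h2 using 1
  ext p
  simp only [T, mem_setOf_eq, mem_inter_iff, mem_prod, mem_compl_iff, mem_preimage,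
    mem_singleton_iff, not_and, not_not, sub_eq_zero, and_assoc]

lemma exists_small {y : ℝ} (hy : y ∈ Icc (-1:ℝ) 1) {a : ℝ} (ha : 0 < a) :
    ∃ x ∈ Ioo 0 a, sin x⁻¹ = y := by
  obtain ⟨k, hk⟩ := exists_nat_gt (a⁻¹)
  have h1 := neg_pi_div_two_le_arcsin y
  have h2 := pi_gt_three
  have h3 : 0 < a⁻¹ := inv_pos.2 ha
  have h4 : a⁻¹ < arcsin y + ((k + 1 : ℕ) : ℝ) * (2 * π) := by
    push_cast
    nlinarith
  refine ⟨(arcsin y + ((k + 1 : ℕ) : ℝ) * (2 * π))⁻¹, ⟨inv_pos.2 (h3.trans h4), ?_⟩, ?_⟩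
  · exact (inv_lt_comm₀ (h3.trans h4) ha).2 h4
  · rw [inv_inv, sin_add_nat_mul_two_pi, sin_arcsin' hy]

lemma mem_clos {a b : ℝ} (ha : 0 ≤ a) (hab : a < b) {p : ℝ × ℝ} (hp : p ∈ T) (h1 : a ≤ p.1)
    (h2 : p.1 ≤ b) : p ∈ closure (gr '' Ioo a b) := by
  rcases hp.1.1.eq_or_lt with h | h
  · have ha0 : a = 0 := le_antisymm (h ▸ h1) ha
    subst ha0
    refine Metric.mem_closure_iff.2 fun ε hε => ?_
    obtain ⟨x, hx, hs⟩ := exists_small hp.2.1 (lt_min hab hε)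
    refine ⟨gr x, ⟨x, ⟨hx.1, hx.2.trans_le (min_le_left _ _)⟩, rfl⟩, ?_⟩
    rw [Prod.dist_eq, max_lt_iff]
    refine ⟨?_, ?_⟩
    · show dist p.1 x < ε
      rw [← h, Real.dist_eq, zero_sub, abs_neg, abs_of_pos hx.1]
      exact hx.2.trans_le (min_le_right _ _)
    · show dist p.2 (sin x⁻¹) < ε
      rw [hs, dist_self]; exact hε
  · have : p = gr p.1 := Prod.ext rfl (hp.2.2 h)
    rw [this]
    refine mem_closure_image (gr_cont h.ne') ?_
    rw [closure_Ioo hab.ne]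
    exact ⟨h1, h2⟩

lemma pre_gr {a b : ℝ} (ha : 0 ≤ a) : IsPreconnected (gr '' Ioo a b) :=
  isPreconnected_Ioo.image _ fun _ hx => (gr_cont (ha.trans_lt hx.1).ne').continuousWithinAt

lemma isConnected_T : IsConnected T := by
  refine ⟨⟨(0, 0), by simp [T]⟩, (pre_gr (a := 0) (b := 1) le_rfl).subset_closure ?_ ?_⟩
  · rintro _ ⟨x, hx, rfl⟩
    exact ⟨⟨hx.1.le, hx.2.le⟩, sin_mem_Icc _, fun _ => rfl⟩
  · exact fun p hp => mem_clos le_rfl zero_lt_one hp hp.1.1 hp.1.2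

lemma cut {X : Type*} [TopologicalSpace X] {C : Set X} (hC : IsPreconnected C) {φ : X → ℝ}
    (hφ : Continuous φ) {p u v : X} (hp : p ∈ C) (hu : u ∈ C) (hv : v ∈ C)
    (h : ∀ q ∈ C, φ q = φ p → q = p) (h1 : φ u < φ p) (h2 : φ p < φ v) :
    p ∈ C ∧ ∃ V : Set X, IsOpen V ∧ p ∈ V ∧
      ¬ IsPreconnected (connectedComponentIn (V ∩ C) p \ {p}) := by
  refine ⟨hp, univ, isOpen_univ, trivial, ?_⟩
  rw [univ_inter, hC.connectedComponentIn hp]
  intro hc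
  obtain ⟨q, hq, hq'⟩ := hc.intermediate_value (a := u) (b := v)
    ⟨hu, fun e => h1.ne (congrArg φ e)⟩ ⟨hv, fun e => h2.ne' (congrArg φ e)⟩ hφ.continuousOn
    ⟨h1.le, h2.le⟩
  exact hq.2 (h q hq.1 hq')

lemma no_path (f : ℝ → ℝ × ℝ) (hf : Continuous f) (hT : ∀ t, f t ∈ T) (h0 : (f 0).1 = 0)
    (h1 : (f 1).1 = 1) : False := by
  have hx : Continuous fun t => (f t).1 := continuous_fst.comp hf
  have hK : IsCompact (Icc (0:ℝ) 1 ∩ (fun t => (f t).1) ⁻¹' {0}) :=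
    isCompact_Icc.inter_right (isClosed_singleton.preimage hx)
  obtain ⟨t₀, ht₀, hmax⟩ := hK.exists_isGreatest ⟨0, ⟨le_rfl, zero_le_one⟩, h0⟩
  have ht0 : (f t₀).1 = 0 := ht₀.2
  have hlt : t₀ < 1 := lt_of_le_of_ne ht₀.1.2 fun e => by
    rw [e, h1] at ht0; exact one_ne_zero ht0
  obtain ⟨δ, hδ, ht⟩ := Metric.continuous_iff.1 (continuous_snd.comp hf) t₀ 1 one_pos
  set t₁ := min (t₀ + δ / 2) 1 with ht₁
  have h2 : t₀ < t₁ := lt_min (by linarith) hlt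
  have h3 : t₁ ≤ t₀ + δ / 2 := min_le_left _ _
  have ha : 0 < (f t₁).1 := lt_of_le_of_ne (hT t₁).1.1 fun e =>
    (hmax ⟨⟨ht₀.1.1.trans h2.le, min_le_right _ _⟩, e.symm⟩).not_gt h2
  have key : ∀ y ∈ Icc (-1:ℝ) 1, dist y (f t₀).2 < 1 := by
    intro y hy
    obtain ⟨x, hx', hs⟩ := exists_small hy ha
    obtain ⟨t, ht', e⟩ := intermediate_value_Icc h2.le hx.continuousOn
      (show x ∈ Icc (f t₀).1 (f t₁).1 from ⟨ht0 ▸ hx'.1.le, hx'.2.le⟩)
    have e' : (f t).1 = x := e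
    have := ht t (by rw [Real.dist_eq, abs_lt]; constructor <;> linarith [ht'.1, ht'.2])
    have e2 : (f t).2 = y := by rw [(hT t).2.2 (e' ▸ hx'.1), e', hs]
    simpa [e2] using this
  have k1 := key 1 (by norm_num)
  have k2 := key (-1) (by norm_num)
  rw [Real.dist_eq, abs_lt] at k1 k2
  linarith [k1.2, k2.1]

end Pool.Agent.H30.Sin
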