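import Pool.Agent.H30.SkA

set_option autoImplicit false

namespace Pool.Agent.H30.Sk

open Set Filter Topology

variable {K : Type*} [TopologicalSpace K] [CompactSpace K] [T2Space K] {Γ : Type*} [PartialOrder Γ]
  {r : Γ → K → K}

def Bel (r : Γ → K → K) (s t : Γ) : Prop :=
  (∀ x, r s (r t x) = r s x) ∧ ∀ x, r t (r s x) = r s x

omit [TopologicalSpace K] [CompactSpace K] [T2Space K] [PartialOrder Γ] in
lemma exists_J (r : Γ → K → K) (Φ : Set Γ → Γ) : ∃ J : Set Γ, ∀ a, a ∈ J ↔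
    ¬ ∃ c : Set Γ, c.Countable ∧ c ⊆ {b | b ∈ J ∧ WellOrderingRel b a} ∧ Bel r a (Φ c) := by
  have wf : WellFounded (WellOrderingRel (α := Γ)) := IsWellFounded.wf
  let J : Γ → Prop := wf.fix fun a IH => ¬ ∃ c : Set Γ, c.Countable ∧
    (∀ b ∈ c, ∃ h : WellOrderingRel b a, IH b h) ∧ Bel r a (Φ c)
  refine ⟨{a | J a}, fun a => ?_⟩
  rw [mem_setOf_eq]
  simp only [J]
  rw [WellFounded.fix_eq]
  refine not_congr (exists_congr fun c => and_congr_right fun _ => and_congr_left fun _ => ?_)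
  exact ⟨fun H b hb => let ⟨h1, h2⟩ := H b hb; ⟨h2, h1⟩, fun H b hb => ⟨(H hb).2, (H hb).1⟩⟩

lemma Skel.point (h : Skel Γ r) {Φ : Set Γ → Γ} (hΦ : Phi Φ) (B : Set Γ) (a : Γ)
    (ha : ¬ ∃ c : Set Γ, c.Countable ∧ c ⊆ B ∧ Bel r a (Φ c)) :
    ∃ x, ∃ e : Set Γ, e.Countable ∧ e ⊆ B ∧ r (Φ (insert a e)) x = x ∧
      ∀ c : Set Γ, c.Countable → c ⊆ B → r (Φ c) x ≠ x := by
  by_contra hc
  push Not at hc
  have H : ∀ e : Set Γ, e.Countable → e ⊆ B → ∃ c : Set Γ, c.Countable ∧ c ⊆ B ∧ e ⊆ c ∧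
      ∀ x, r (Φ c) (r (Φ (insert a e)) x) = r (Φ (insert a e)) x := fun e he heB => by
    obtain ⟨S, h1, h2, h3⟩ := h.sep (Φ (insert a e))
    choose! c c1 c2 c3 using fun x (hx : x ∈ S) => hc x e he heB (h2 x hx)
    have hcc : (e ∪ ⋃ x ∈ S, c x).Countable := he.union (h1.biUnion c1)
    refine ⟨_, hcc, union_subset heB (iUnion₂_subset c2), subset_union_left, fun x => ?_⟩
    refine closure_minimal (t := {y | r (Φ (e ∪ ⋃ x ∈ S, c x)) y = y}) (fun y hy => ?_)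
      (isClosed_eq (h.cont _) continuous_id) (h3 x)
    rw [mem_setOf_eq, ← c3 y hy]
    exact h.u (hΦ.mono _ _ ((subset_biUnion_of_mem (u := c) hy).trans subset_union_right) hcc) y
  choose! g h1 h2 h3 h4 using H
  let c : ℕ → Set Γ := fun n => g^[n] ∅
  have hs : ∀ n, c (n + 1) = g (c n) := fun n => Function.iterate_succ_apply' _ _ _
  have hc : ∀ n, (c n).Countable ∧ c n ⊆ B := fun n => by
    induction n with
    | zero => exact ⟨countable_empty, empty_subset _⟩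
    | succ n ih => rw [hs]; exact ⟨h1 _ ih.1 ih.2, h2 _ ih.1 ih.2⟩
  have hm : Monotone c := monotone_nat_of_le_succ fun n => by
    rw [hs]; exact h3 _ (hc n).1 (hc n).2
  have hC : (⋃ n, c n).Countable := countable_iUnion fun n => (hc n).1
  have hm' : Monotone fun n => insert a (c n) := fun n m hnm => insert_subset_insert (hm hnm)
  have hl := hΦ.lub _ hm' fun n => (hc n).1.insert a
  rw [← insert_iUnion] at hl
  have key : ∀ x, r (Φ (insert a (⋃ n, c n))) x = r (Φ (⋃ n, c n)) x := fun x => by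
    rw [← h.l (hΦ.mono _ _ (subset_insert a _) (hC.insert a)) x]
    refine ((isClosed_eq (h.cont (Φ (⋃ n, c n))) continuous_id).mem_of_tendsto
      (h.lim _ (fun n m hnm => hΦ.mono _ _ (hm' hnm) ((hc m).1.insert a)) _ hl x)
      (Eventually.of_forall fun n => ?_)).symm
    rw [mem_setOf_eq, id, ← h4 _ (hc n).1 (hc n).2, ← hs]
    exact h.u (hΦ.mono _ _ (subset_iUnion c _) hC) _
  have ha' := hΦ.mem _ (hC.insert a) a (mem_insert _ _)
  exact ha ⟨_, hC, iUnion_subset fun n => (hc n).2, fun x => by rw [← key, h.l ha'],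
    fun x => by rw [← key, h.u ha']⟩

/-- A club of countable index sets on which the ranges determine the index sets monotonically. -/
lemma Skel.club (h : Skel Γ r) : ∃ (Φ : Set Γ → Γ) (C : Set (Set Γ)), Phi Φ ∧
    (∀ b ∈ C, b.Countable) ∧ (∀ a ∈ C, ∀ b ∈ C, ∃ c ∈ C, a ⊆ c ∧ b ⊆ c) ∧
    (∀ b : ℕ → Set Γ, Monotone b → (∀ n, b n ∈ C) → ⋃ n, b n ∈ C) ∧
    (∀ s, ∃ c ∈ C, Bel r s (Φ c)) ∧
    ∀ a ∈ C, ∀ b ∈ C, range (r (Φ a)) ⊆ range (r (Φ b)) → a ⊆ b := by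
  have := h.ne
  have : IsDirectedOrder Γ := ⟨h.dir⟩
  obtain ⟨Φ, hΦ⟩ := exists_phi h.sup
  obtain ⟨J, hJ⟩ := exists_J r Φ
  let B : Γ → Set Γ := fun a => {b | b ∈ J ∧ WellOrderingRel b a}
  have H : ∀ a, ∃ e : Set Γ, e.Countable ∧ e ⊆ B a ∧ (a ∈ J → ∃ x, r (Φ (insert a e)) x = x ∧
      ∀ c : Set Γ, c.Countable → c ⊆ B a → r (Φ c) x ≠ x) := fun a => by
    by_cases ha : a ∈ J
    · obtain ⟨x, e, h1, h2, h3⟩ := h.point hΦ (B a) a ((hJ a).1 ha)
      exact ⟨e, h1, h2, fun _ => ⟨x, h3⟩⟩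
    · exact ⟨∅, countable_empty, empty_subset _, fun h => absurd h ha⟩
  choose e e1 e2 e3 using H
  choose c c1 c2 c3 using fun s a => h.const hΦ s (B a)
  let T : Set Γ → Set Γ := fun d => ⋃ a ∈ d, (e a ∪ c (Φ d) a)
  have cl := fun a => close J T (fun d hd => hd.countable.biUnion fun a _ => (e1 a).union (c1 _ a))
    (fun d => iUnion₂_subset fun a _ => union_subset (fun x hx => (e2 a hx).1)
      fun x hx => (c2 _ a hx).1) (a := a)
  refine ⟨Φ, {b | b.Countable ∧ b ⊆ J ∧ ∀ d ⊆ b, d.Finite → T d ⊆ b}, hΦ, fun b hb => hb.1,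
    fun a ha b hb => ?_, fun b hm hb => ⟨countable_iUnion fun n => (hb n).1,
      iUnion_subset fun n => (hb n).2.1, fun d hd hf => ?_⟩, fun s => ?_, fun a ha b hb hab => ?_⟩
  · obtain ⟨d, h1, h2⟩ := cl _ (ha.1.union hb.1) (union_subset ha.2.1 hb.2.1)
    exact ⟨d, h2, subset_union_left.trans h1, subset_union_right.trans h1⟩
  · obtain ⟨n, hn⟩ := fin_sub hm hf hd
    exact ((hb n).2.2 d hn hf).trans (subset_iUnion b n)
  · have : ∃ d : Set Γ, d.Countable ∧ d ⊆ J ∧ Bel r s (Φ d) := by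
      by_cases hs : s ∈ J
      · have := hΦ.mem {s} (countable_singleton s) s rfl
        exact ⟨{s}, countable_singleton s, singleton_subset_iff.2 hs, h.l this, h.u this⟩
      · obtain ⟨d, h1, h2, h3⟩ := not_not.1 (mt (hJ s).2 hs)
        exact ⟨d, h1, fun x hx => (h2 hx).1, h3⟩
    obtain ⟨d, h1, h2, h3⟩ := this
    obtain ⟨d', h4, h5⟩ := cl d h1 h2
    have hle := hΦ.mono _ _ h4 h5.1
    exact ⟨d', h5, fun x => by rw [← h3.1, h.l hle, h3.1], fun x => by rw [← h3.2, h.u hle]⟩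
  intro α hα
  by_contra hαb
  obtain ⟨x, hx1, hx2⟩ := e3 α (ha.2.1 hα)
  have he : e α ⊆ a := fun y hy => ha.2.2 {α} (singleton_subset_iff.2 hα) (finite_singleton α)
    (mem_biUnion (mem_singleton α) (Or.inl hy))
  have hxb : r (Φ b) x = x := by
    obtain ⟨y, hy⟩ := hab ⟨x, rfl⟩
    have : r (Φ a) x = x := by
      rw [← hx1]; exact h.u (hΦ.mono _ _ (insert_subset hα he) ha.1) x
    rw [this] at hy
    rw [← hy, h.l le_rfl]
  have tri : ∀ γ ∈ b, ¬ WellOrderingRel α γ → γ ∈ B α := fun γ hγ hn =>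
    ⟨hb.2.1 hγ, by
      rcases trichotomous_of WellOrderingRel γ α with h | rfl | h
      exacts [h, absurd hγ hαb, absurd h hn]⟩
  have wf : WellFounded (WellOrderingRel (α := Γ)) := IsWellFounded.wf
  by_cases hβ : {β | β ∈ b ∧ WellOrderingRel α β}.Nonempty
  · obtain ⟨β, ⟨hβ1, hβ2⟩, hβ3⟩ := wf.has_min _ hβ
    let b' : Set Γ := {γ | γ ∈ b ∧ WellOrderingRel γ β}
    have hb' : b'.Countable := hb.1.mono fun _ h => h.1
    refine hx2 b' hb' (fun γ hγ => tri γ hγ.1 fun hn => hβ3 γ ⟨hγ.1, hn⟩ hγ.2) ?_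
    obtain ⟨d, d1, d2, d3⟩ := exhaust hb.1
    have hm' : Monotone fun n => insert β (d n) := fun n m hnm => insert_subset_insert (d1 hnm)
    have hl := hΦ.lub _ hm' fun n => ((d2 n).insert β).countable
    rw [← insert_iUnion, d3, insert_eq_of_mem hβ1] at hl
    have hlim := h.lim _ (fun n m hnm => hΦ.mono _ _ (hm' hnm) ((d2 m).insert β).countable) _ hl
    have hD : (b' ∪ insert α (e α)).Countable := hb'.union ((e1 α).insert α)
    rw [← h.u (hΦ.mono b' b (fun _ h => h.1) hb.1) x]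
    refine (tendsto_nhds_unique (hlim _) ((hlim x).congr fun n => ?_)).trans hxb
    have hc : c (Φ (insert β (d n))) β ⊆ b' := fun y hy => ⟨hb.2.2 _
      (insert_subset hβ1 (d3 ▸ subset_iUnion d n)) ((d2 n).insert β)
      (mem_biUnion (mem_insert _ _) (Or.inr hy)), (c2 _ _ hy).2⟩
    have hb'' : b' ⊆ B β := fun y hy => ⟨hb.2.1 hy.1, hy.2⟩
    rw [c3 _ β b' hb' hc hb'', ← c3 _ β _ hD (hc.trans subset_union_left) (union_subset hb''
      (insert_subset ⟨ha.2.1 hα, hβ2⟩ fun y hy => ⟨(e2 α hy).1, _root_.trans (e2 α hy).2 hβ2⟩)),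
      ← hx1, h.u (hΦ.mono _ _ subset_union_right hD)]
  · exact hx2 b hb.1 (fun γ hγ => tri γ hγ fun hn => hβ ⟨γ, hγ, hn⟩) hxb

end Pool.Agent.H30.Sk
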