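import Mathlib

set_option autoImplicit false

namespace Pool.Agent.H30.Sn

open Set Filter Topology Function TopologicalSpace
open scoped ENNReal

/-- Covering dimension at most `n`: every finite open cover has a finite open refinement in which
each point lies in at most `n + 1` members. -/
def DimLe (X : Type) [TopologicalSpace X] (n : ℕ) : Prop :=
  ∀ 𝒰 : Set (Set X), 𝒰.Finite → (∀ U ∈ 𝒰, IsOpen U) → ⋃₀ 𝒰 = univ →
    ∃ 𝒱 : Set (Set X), 𝒱.Finite ∧ (∀ V ∈ 𝒱, IsOpen V ∧ ∃ U ∈ 𝒰, V ⊆ U) ∧ ⋃₀ 𝒱 = univ ∧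
      ∀ x, {V ∈ 𝒱 | x ∈ V}.ncard ≤ n + 1

variable {X : Type}

lemma color [MetricSpace X] {n : ℕ} (h : DimLe X n) (A B : Fin (n + 1) → Set X) (hA : ∀ i, IsClosed (A i))
    (hB : ∀ i, IsClosed (B i)) (hd : ∀ i, Disjoint (A i) (B i)) :
    ∃ U : Fin (n + 1) × Bool → Set X, (∀ p, IsOpen (U p)) ∧ ⋃ p, U p = univ ∧ ∀ i,
      Disjoint (U (i, true)) (U (i, false)) ∧ Disjoint (U (i, true)) (B i) ∧ Disjoint (U (i, false)) (A i) := by
  classical
  obtain ⟨𝒱, h1, h2, h3, h4⟩ := h (range fun s : Fin (n + 1) → Bool => ⋂ i, (cond (s i) (B i) (A i))ᶜ)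
    (finite_range _) (forall_mem_range.2 fun s => isOpen_iInter_of_finite fun i => by
      cases s i; exacts [(hA i).isOpen_compl, (hB i).isOpen_compl])
    (eq_univ_of_forall fun x => ⟨_, ⟨fun i => decide (x ∈ A i), rfl⟩, mem_iInter.2 fun i => by
      by_cases e : x ∈ A i <;> simp [e]
      exact disjoint_left.1 (hd i) e⟩)
  let φ : Set X → X → ℝ≥0∞ := fun V x => Metric.infEDist x Vᶜ
  have φ1 : ∀ V, Continuous (φ V) := fun V => Metric.continuous_infEDist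
  have φ2 : ∀ V ∈ 𝒱, ∀ x, 0 < φ V x ↔ x ∈ V := fun V hV x => by
    rw [pos_iff_ne_zero, Ne, ← Metric.mem_iff_infEDist_zero_of_closed (h2 V hV).1.isClosed_compl]; simp
  let O : Set (Set X) → Set X := fun S => ⋂ V ∈ S, ({x | 0 < φ V x} ∩ ⋂ W ∈ 𝒱 \ S, {x | φ W x < φ V x})
  have O1 : ∀ S ⊆ 𝒱, IsOpen (O S) := fun S hS => (h1.subset hS).isOpen_biInter fun V _ =>
    (isOpen_lt continuous_const (φ1 V)).inter (h1.diff.isOpen_biInter fun W _ => isOpen_lt (φ1 W) (φ1 V))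
  have O2 : ∀ S ⊆ 𝒱, ∀ T ⊆ 𝒱, S.ncard = T.ncard → ∀ x ∈ O S, x ∈ O T → S = T := fun S hS T hT e x e1 e2 =>
    by_contra fun e3 => by
      obtain ⟨V, v1, v2⟩ := not_subset.1 fun e4 => e3 (eq_of_subset_of_ncard_le e4 e.ge (h1.subset hT))
      obtain ⟨W, w1, w2⟩ := not_subset.1 fun e4 => e3 (eq_of_subset_of_ncard_le e4 e.le (h1.subset hS)).symm
      exact lt_asymm (show φ W x < φ V x from mem_iInter₂.1 (mem_iInter₂.1 e1 V v1).2 W ⟨hT w1, w2⟩)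
        (show φ V x < φ W x from mem_iInter₂.1 (mem_iInter₂.1 e2 W w1).2 V ⟨hS v1, v2⟩)
  refine ⟨fun p => ⋃ S ∈ {S ⊆ 𝒱 | S.ncard = p.1 + 1 ∧ (Disjoint (O S) (A p.1) ↔ p.2 = false)}, O S,
    fun p => isOpen_biUnion fun S hS => O1 S hS.1, eq_univ_of_forall fun x => ?_, fun i => ⟨?_, ?_, ?_⟩⟩
  · obtain ⟨V0, v1, v2⟩ := h3.symm.subset (mem_univ x)
    obtain ⟨V, e1, e2⟩ := exists_max_image 𝒱 (φ · x) h1 ⟨V0, v1⟩
    have e3 := ((φ2 V0 v1 x).2 v2).trans_le (e2 V0 v1)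
    let S := {W ∈ 𝒱 | φ W x = φ V x}
    have e4 : S.ncard ≤ n + 1 := (ncard_le_ncard (t := {V ∈ 𝒱 | x ∈ V}) (fun W hW => ⟨hW.1, (φ2 W hW.1 x).1 (e3.trans_eq hW.2.symm)⟩)
      (h1.subset fun _ h => h.1)).trans (h4 x)
    have e5 : 0 < S.ncard := (ncard_pos (h1.subset fun _ h => h.1)).2 ⟨V, e1, rfl⟩
    refine mem_iUnion.2 ⟨(⟨S.ncard - 1, by omega⟩, !decide (Disjoint (O S) (A ⟨S.ncard - 1, by omega⟩))),
      mem_biUnion (x := S) ⟨fun _ h => h.1, by simp; omega, by simp⟩ (mem_iInter₂.2 fun W hW =>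
        ⟨e3.trans_eq hW.2.symm, mem_iInter₂.2 fun W' hW' => ?_⟩)⟩
    exact ((e2 W' hW'.1).lt_of_ne fun e => hW'.2 ⟨hW'.1, e⟩).trans_eq hW.2.symm
  · refine disjoint_left.2 fun x e1 e2 => ?_
    obtain ⟨S, s1, s2⟩ := mem_iUnion₂.1 e1
    obtain ⟨T, t1, t2⟩ := mem_iUnion₂.1 e2
    obtain rfl := O2 S s1.1 T t1.1 (s1.2.1.trans t1.2.1.symm) x s2 t2
    simpa using s1.2.2.1 (t1.2.2.2 rfl)
  · refine disjoint_iUnion₂_left.2 fun S hS => ?_
    obtain ⟨V, hV⟩ := nonempty_of_ncard_ne_zero (hS.2.1.trans_ne (Nat.succ_ne_zero _))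
    obtain ⟨_, ⟨s, rfl⟩, e⟩ := (h2 V (hS.1 hV)).2
    have e1 : O S ⊆ (cond (s i) (B i) (A i))ᶜ := fun x hx =>
      mem_iInter.1 (e ((φ2 V (hS.1 hV) x).1 (mem_iInter₂.1 hx V hV).1)) i
    cases e2 : s i <;> rw [e2] at e1
    · simpa using hS.2.2.1 (subset_compl_iff_disjoint_right.1 e1)
    · exact subset_compl_iff_disjoint_right.1 e1
  · exact disjoint_iUnion₂_left.2 fun S hS => hS.2.2.2 rfl

lemma sepcl [TopologicalSpace X] [NormalSpace X] {C D : Set X} (hC : IsClosed C) (hD : IsClosed D)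
    (h : Disjoint C D) : ∃ P Q, IsOpen P ∧ IsOpen Q ∧ C ⊆ P ∧ D ⊆ Q ∧ Disjoint (closure P) (closure Q) := by
  obtain ⟨P, e1, e2, e3⟩ := normal_exists_closure_subset hC hD.isOpen_compl h.subset_compl_right
  obtain ⟨Q, e4, e5, e6⟩ := normal_exists_closure_subset hD isClosed_closure.isOpen_compl
    (subset_compl_comm.1 e3)
  exact ⟨P, Q, e1, e4, e2, e5, disjoint_right.2 e6⟩

def Gd [TopologicalSpace X] (p : Set X × Set X) : Prop :=
  IsOpen p.1 ∧ IsOpen p.2 ∧ Disjoint (closure p.1) (closure p.2)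

lemma step [MetricSpace X] {n : ℕ} (h : DimLe X n) (p : Fin (n + 1) → Set X × Set X) (hp : ∀ i, Gd (p i)) :
    ∃ q : Fin (n + 1) → Set X × Set X, (∀ i, Gd (q i) ∧ p i ≤ q i) ∧ ∀ x, ∃ i, x ∈ (q i).1 ∪ (q i).2 := by
  obtain ⟨U, U1, U2, U3⟩ := color h (fun i => closure (p i).1) (fun i => closure (p i).2)
    (fun _ => isClosed_closure) (fun _ => isClosed_closure) fun i => (hp i).2.2
  obtain ⟨v, v1, v2, v3⟩ := exists_iUnion_eq_closure_subset U1 (fun _ => toFinite _) U2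
  choose P Q e1 e2 e3 e4 e5 using fun i => sepcl (C := closure (p i).1 ∪ closure (v (i, true)))
    (D := closure (p i).2 ∪ closure (v (i, false))) (isClosed_closure.union isClosed_closure)
    (isClosed_closure.union isClosed_closure) (disjoint_union_left.2 ⟨disjoint_union_right.2
      ⟨(hp i).2.2, ((U3 i).2.2.mono_left (v3 _)).symm⟩, disjoint_union_right.2
      ⟨(U3 i).2.1.mono_left (v3 _), (U3 i).1.mono (v3 _) (v3 _)⟩⟩)
  refine ⟨fun i => (P i, Q i), fun i => ⟨⟨e1 i, e2 i, e5 i⟩, subset_closure.trans (subset_union_left.trans (e3 i)),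
    subset_closure.trans (subset_union_left.trans (e4 i))⟩, fun x => ?_⟩
  obtain ⟨⟨i, _ | _⟩, hx⟩ := mem_iUnion.1 (v1.symm.subset (mem_univ x))
  exacts [⟨i, Or.inr (e4 i (Or.inr (subset_closure hx)))⟩, ⟨i, Or.inl (e3 i (Or.inr (subset_closure hx)))⟩]

lemma bases [MetricSpace X] {n : ℕ} (h : DimLe X n) (p : ℕ → Set X × Set X) (hp : ∀ k, Gd (p k)) :
    ∃ G : Fin (n + 1) → ℕ → Set X, (∀ i k, IsOpen (G i k) ∧ (p k).1 ⊆ G i k ∧ G i k ⊆ (p k).2ᶜ) ∧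
      ∀ x, ∃ i, ∀ k, G i k ∈ 𝓝 x ∨ (G i k)ᶜ ∈ 𝓝 x := by
  classical
  obtain ⟨e, he⟩ := exists_surjective_nat (Fin (n + 1) → ℕ)
  have H : ∀ (s : {s : Fin (n + 1) → ℕ → Set X × Set X // ∀ i k, Gd (s i k)}) (m : ℕ),
      ∃ t : {s : Fin (n + 1) → ℕ → Set X × Set X // ∀ i k, Gd (s i k)}, s.1 ≤ t.1 ∧
        ∀ x, ∃ i, x ∈ (t.1 i (e m i)).1 ∪ (t.1 i (e m i)).2 := fun s m => by
    obtain ⟨q, q1, q2⟩ := step h (fun i => s.1 i (e m i)) fun i => s.2 _ _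
    exact ⟨⟨fun i => update (s.1 i) (e m i) (q i), fun i => forall_update_iff _ (fun _ => Gd) |>.2
      ⟨(q1 i).1, fun k _ => s.2 i k⟩⟩, fun i => le_update_self_iff.2 (q1 i).2, by simpa using q2⟩
  choose F F1 F2 using H
  let s : ℕ → {s : Fin (n + 1) → ℕ → Set X × Set X // ∀ i k, Gd (s i k)} := fun m =>
    Nat.rec ⟨fun _ => p, fun _ => hp⟩ (fun m s => F s m) m
  have mono : Monotone fun m => (s m).1 := monotone_nat_of_le_succ fun m => F1 (s m) m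
  have dj : ∀ i k a b, ((s a).1 i k).1 ⊆ ((s b).1 i k).2ᶜ := fun i k a b x e1 e2 =>
    disjoint_left.1 ((s (max a b)).2 i k).2.2 (subset_closure ((mono (le_max_left a b) i k).1 e1))
      (subset_closure ((mono (le_max_right a b) i k).2 e2))
  refine ⟨fun i k => ⋃ m, ((s m).1 i k).1, fun i k => ⟨isOpen_iUnion fun m => ((s m).2 i k).1,
    subset_iUnion (fun m => ((s m).1 i k).1) 0, iUnion_subset fun m => dj i k m 0⟩, fun x => by_contra fun hc => ?_⟩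
  simp only [not_exists, not_forall, not_or] at hc
  choose k k1 k2 using hc
  obtain ⟨m, rfl⟩ := he k
  obtain ⟨i, e1 | e1⟩ := F2 (s m) m x
  · exact k1 i (mem_of_superset (((s (m + 1)).2 i _).1.mem_nhds e1)
      (subset_iUnion (fun a => ((s a).1 i (e m i)).1) (m + 1)))
  · exact k2 i (mem_of_superset (((s (m + 1)).2 i _).2.1.mem_nhds e1)
      (subset_compl_comm.1 (iUnion_subset fun a => dj i _ a (m + 1))))

end Pool.Agent.H30.Sn
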