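import Pool.Agent.H30.SnA

set_option autoImplicit false

namespace Pool.Agent.H30.Sn

open Set Filter Topology Function TopologicalSpace
open scoped ENNReal Classical

variable {X ι : Type} [Fintype ι]

lemma hit (A : ι → Set X) (k : ℕ) (hA : ∀ x, (Finset.univ.filter fun j => x ∈ A j).card ≤ k) (m : ℕ) :
    ∀ F : Filter X, (∀ Q : Finset ι, Q.card < m → (⋃ j ∈ Q, A j) ∉ F) →
      (Finset.univ.filter fun Q : Finset ι => Q.card = m ∧ (⋃ j ∈ Q, A j) ∈ F).card ≤ k ^ m := by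
  induction m with
  | zero => exact fun F _ => Finset.card_le_one.2 fun a ha b hb => by simp_all
  | succ m ih =>
    intro F hF
    have : F.NeBot := ⟨fun e => hF ∅ (by simp) (by simp [e])⟩
    let G := Ultrafilter.of F
    let T := Finset.univ.filter fun j => A j ∈ G
    have hT : T.card ≤ k := by
      obtain ⟨x, hx⟩ := G.nonempty_of_mem ((Finset.iInter_mem_sets T).2 fun j hj => (Finset.mem_filter.1 hj).2)
      exact (Finset.card_le_card fun j hj => Finset.mem_filter.2 ⟨Finset.mem_univ _, mem_iInter₂.1 hx j hj⟩).trans (hA x)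
    have e1 : ∀ j (Q : Finset ι), (⋃ i ∈ Q, A i) ∈ F ⊓ 𝓟 (A j)ᶜ ↔ (⋃ i ∈ insert j Q, A i) ∈ F := fun j Q => by
      rw [mem_inf_principal, Finset.set_biUnion_insert]
      refine iff_of_eq (congrArg (· ∈ F) (Set.ext fun x => ?_))
      simp only [mem_setOf_eq, mem_compl_iff, mem_union]; tauto
    calc _ ≤ (T.biUnion fun j => (Finset.univ.filter fun Q : Finset ι => Q.card = m ∧
          (⋃ i ∈ Q, A i) ∈ F ⊓ 𝓟 (A j)ᶜ).image (insert j)).card := Finset.card_le_card fun Q hQ => by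
            obtain ⟨q1, q2⟩ := (Finset.mem_filter.1 hQ).2
            obtain ⟨j, j1, j2⟩ := (Ultrafilter.finite_biUnion_mem_iff Q.finite_toSet).1 (Ultrafilter.of_le F q2)
            refine Finset.mem_biUnion.2 ⟨j, Finset.mem_filter.2 ⟨Finset.mem_univ _, j2⟩, Finset.mem_image.2
              ⟨Q.erase j, Finset.mem_filter.2 ⟨Finset.mem_univ _, by rw [Finset.card_erase_of_mem j1, q1]; rfl,
                (e1 _ _).2 (by rwa [Finset.insert_erase j1])⟩, Finset.insert_erase j1⟩⟩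
      _ ≤ T.card * k ^ m := Finset.card_biUnion_le_card_mul _ _ _ fun j _ => Finset.card_image_le.trans
          (ih _ fun Q hQ e => hF _ ((Finset.card_insert_le _ _).trans_lt (by omega)) ((e1 j Q).1 e))
      _ ≤ k ^ (m + 1) := by rw [pow_succ']; exact Nat.mul_le_mul_right _ hT

lemma star [MetricSpace X] [Nonempty X] (A : ι → Set X) (k : ℕ)
    (hA : ∀ x, (Finset.univ.filter fun j => x ∈ A j).card ≤ k)
    (hS : ∀ x, (⋃ j ∈ Finset.univ.filter fun j => x ∈ A j, A j) ∈ 𝓝 x) (U : ι → Set X) (hU : ∀ j, IsOpen (U j))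
    (hc : ∀ j, closure (A j) ⊆ U j) :
    ∃ 𝒱 : Set (Set X), 𝒱.Finite ∧ (∀ V ∈ 𝒱, IsOpen V ∧ ∃ j, V ⊆ U j) ∧ ⋃₀ 𝒱 = univ ∧
      ∀ x, {V ∈ 𝒱 | x ∈ V}.ncard ≤ (k + 1) * ((k + 1) ^ k + 1) := by
  have H : ∀ x, ∃ m, ∃ Q : Finset ι, Q.card = m ∧ (⋃ j ∈ Q, A j) ∈ 𝓝 x := fun x => ⟨_, _, rfl, hS x⟩
  let m : X → ℕ := fun x => Nat.find (H x)
  have m1 : ∀ x (Q : Finset ι), Q.card < m x → (⋃ j ∈ Q, A j) ∉ 𝓝 x := fun x Q e1 e2 =>
    Nat.find_min (H x) e1 ⟨Q, rfl, e2⟩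
  have m2 : ∀ x, m x ≤ k := fun x => (Nat.find_min' (H x) ⟨_, rfl, hS x⟩).trans (hA x)
  let q : X → Finset (Finset ι) := fun x => Finset.univ.filter fun Q => Q.card = m x ∧ (⋃ j ∈ Q, A j) ∈ 𝓝 x
  let s : X → (ℕ × ℕ) × Finset (Finset ι) := fun x => ((m x, (q x).card), q x)
  have s1 : (range s).Finite := ((finite_le_nat k).prod (finite_le_nat (Fintype.card (Finset ι))) |>.prod
    finite_univ).subset (forall_mem_range.2 fun x => ⟨⟨m2 x, Finset.card_le_univ _⟩, trivial⟩)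
  have s2 : ∀ x b, b ≠ s x → b.1 = (s x).1 → x ∉ closure (s ⁻¹' {b}) := fun x b e1 e2 e3 => by
    obtain ⟨y, y1, rfl⟩ := mem_closure_iff_nhds.1 e3 _ ((Finset.iInter_mem_sets (q x)).2 fun Q hQ =>
      interior_mem_nhds.2 (Finset.mem_filter.1 hQ).2.2)
    refine e1 (Prod.ext e2 (Finset.eq_of_subset_of_card_le (fun Q hQ => Finset.mem_filter.2 ⟨Finset.mem_univ _,
      (Finset.mem_filter.1 hQ).2.1.trans (congrArg Prod.fst e2).symm,
      mem_interior_iff_mem_nhds.1 (mem_iInter₂.1 y1 Q hQ)⟩) (congrArg Prod.snd e2).le).symm)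
  have s3 : ∀ x, ∃ j, s ⁻¹' {s x} ⊆ U j := fun x => by
    obtain ⟨Q, q1, q2⟩ := Nat.find_spec (H x)
    obtain ⟨j, hj, -⟩ := mem_iUnion₂.1 (mem_of_mem_nhds q2)
    refine ⟨j, fun y hy => hc j (by_contra fun e => ?_)⟩
    have e1 : Q ∈ q y := by
      rw [show q y = q x from congrArg Prod.snd hy]; exact Finset.mem_filter.2 ⟨Finset.mem_univ _, q1, q2⟩
    obtain ⟨e2, e3⟩ := (Finset.mem_filter.1 e1).2
    refine m1 y (Q.erase j) (e2 ▸ Finset.card_erase_lt_of_mem hj) ?_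
    filter_upwards [e3, isClosed_closure.isOpen_compl.mem_nhds e] with z z1 z2
    obtain ⟨i, i1, i2⟩ := mem_iUnion₂.1 z1
    exact mem_iUnion₂.2 ⟨i, Finset.mem_erase.2 ⟨fun e => z2 (subset_closure (e ▸ i2)), i1⟩, i2⟩
  have s4 : ∀ a, ∃ j, a ∈ range s → s ⁻¹' {a} ⊆ U j := fun a => by
    by_cases e : a ∈ range s
    · obtain ⟨x, rfl⟩ := e
      exact (s3 x).imp fun _ h _ => h
    · exact (s3 (Classical.arbitrary X)).imp fun _ _ h => (e h).elim
  choose j hj using s4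
  let φ : _ → X → ℝ≥0∞ := fun a x => Metric.infEDist x (s ⁻¹' {a})
  let O : _ → Set X := fun a => U (j a) ∩ ⋂ b ∈ {b ∈ range s | b ≠ a ∧ b.1 = a.1}, {x | φ a x < φ b x}
  refine ⟨O '' range s, s1.image _, forall_mem_image.2 fun a _ => ⟨(hU _).inter ((s1.subset fun _ h => h.1).isOpen_biInter
    fun b _ => isOpen_lt Metric.continuous_infEDist Metric.continuous_infEDist), _, inter_subset_left⟩,
    eq_univ_of_forall fun x => ⟨_, ⟨_, ⟨x, rfl⟩, rfl⟩, hj _ ⟨x, rfl⟩ rfl, mem_iInter₂.2 fun b hb => ?_⟩, fun x => ?_⟩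
  · show φ (s x) x < φ b x
    rw [show φ (s x) x = 0 from Metric.infEDist_zero_of_mem rfl, pos_iff_ne_zero]
    exact fun e => s2 x b hb.2.1 hb.2.2 (Metric.mem_closure_iff_infEDist_zero.2 e)
  have f1 : {a ∈ range s | x ∈ O a}.Finite := s1.subset fun _ h => h.1
  calc _ ≤ (O '' {a ∈ range s | x ∈ O a}).ncard := ncard_le_ncard (fun V hV => hV.1.elim fun a ha => ⟨a, ⟨ha.1, ha.2.symm ▸ hV.2⟩, ha.2⟩)
        (f1.image _)
    _ ≤ {a ∈ range s | x ∈ O a}.ncard := ncard_image_le f1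
    _ ≤ ((Finset.range (k + 1) ×ˢ Finset.range ((k + 1) ^ k + 1) : Finset (ℕ × ℕ)) : Set (ℕ × ℕ)).ncard :=
        ncard_le_ncard_of_injOn Prod.fst (fun a ha => by
          obtain ⟨⟨y, rfl⟩, -⟩ := ha
          simp only [Finset.coe_product, Finset.coe_range, mem_prod, mem_Iio, s, Nat.lt_succ_iff]
          exact ⟨m2 y, (hit A k hA _ _ (m1 y)).trans ((Nat.pow_le_pow_left k.le_succ _).trans
            (Nat.pow_le_pow_right k.succ_pos (m2 y)))⟩)
          fun a ha b hb e => by_contra fun e1 => lt_asymm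
            (show φ a x < φ b x from mem_iInter₂.1 ha.2.2 b ⟨hb.1, Ne.symm e1, e.symm⟩)
            (show φ b x < φ a x from mem_iInter₂.1 hb.2.2 a ⟨ha.1, e1, e⟩)
    _ = _ := by rw [ncard_coe_finset]; simp

end Pool.Agent.H30.Sn
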