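import Pool.Agent.H30.SplF

set_option autoImplicit false

open Set Filter Topology Cardinal

namespace Pool.Agent.H30.Spl

lemma idx {α : Type} {S : Set α} (hS : S.Countable) : ∃ ι : α → ℕ, ∀ a ∈ S, ∀ b, ι b = ι a → b = a := by
  classical
  obtain ⟨f, hf⟩ := Set.countable_iff_exists_injOn.1 hS
  refine ⟨fun a => if a ∈ S then f a + 1 else 0, fun a ha b h => ?_⟩
  by_cases hb : b ∈ S
  · simp only [if_pos ha, if_pos hb, add_left_inj] at h
    exact hf hb ha h
  · simp [if_pos ha, if_neg hb] at h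

lemma farm_inner {X Γ I : Type} {n : ℕ} (e : X → Γ → ℝ) {δ ε : ℝ} (hδ : 0 < δ)
    (he : ∀ x, {γ | δ ≤ |e x γ|}.Finite) (ψ : I → X → ℝ) (hψ : ∀ y, {h | ψ h y ≠ 0}.Countable)
    (v : I → Fin n → Γ)
    (hv : ∀ h x y, (∀ i, |e x (v h i) - e y (v h i)| < 2 * δ) → |ψ h x - ψ h y| < ε) :
    ∃ col : I → Finset (Fin n) → ℕ × (Fin n → ℕ), ∀ c x, {h | col h = c ∧ ε ≤ |ψ h x|}.Finite := by
  classical
  choose S hS1 hS2 hS3 using sel e univ
  choose ι hι using fun ρ : Finset Γ => idx ((hS2 ρ).biUnion fun y _ => hψ y)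
  choose κ hκ using fun ρ : Finset Γ => idx ((hS2 ρ).biUnion fun y _ => (he y).countable)
  refine ⟨fun h P => (ι (P.image (v h)) h, fun i => κ (P.image (v h)) (v h i)), fun c x => ?_⟩
  by_contra hinf
  have hJ := Set.Infinite.to_subtype hinf
  let J := ↥{h | (fun P : Finset (Fin n) => (ι (P.image (v h)) h, fun i => κ (P.image (v h)) (v h i))) = c ∧
    ε ≤ |ψ h x|}
  let 𝒰 : Ultrafilter J := hyperfilter J
  let P : Finset (Fin n) := Finset.univ.filter fun i => ∃ γ, ∀ᶠ h in (𝒰 : Filter J), v h.1 i = γ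
  have h1 : ∀ i, i ∉ P → ∀ γ, ∀ᶠ h in (𝒰 : Filter J), v h.1 i ≠ γ := by
    intro i hi γ
    exact Ultrafilter.eventually_not.2 fun h => hi (Finset.mem_filter.2 ⟨Finset.mem_univ _, γ, h⟩)
  have h2 : ∃ ρ : Finset Γ, ∀ᶠ h in (𝒰 : Filter J), P.image (v h.1) = ρ := by
    have h3 : ∀ i : P, ∃ γ, ∀ᶠ h in (𝒰 : Filter J), v h.1 i.1 = γ := fun i => (Finset.mem_filter.1 i.2).2
    choose w hw using h3
    refine ⟨Finset.univ.image w, ?_⟩
    filter_upwards [eventually_all.2 hw] with h hh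
    ext γ
    simp only [Finset.mem_image, Finset.mem_univ, true_and]
    exact ⟨fun ⟨i, hi, h4⟩ => ⟨⟨i, hi⟩, (hh ⟨i, hi⟩).symm.trans h4⟩, fun ⟨i, h4⟩ => ⟨i.1, i.2, (hh i).trans h4⟩⟩
  obtain ⟨ρ, hρ⟩ := h2
  have h3 : ∀ᶠ h in (𝒰 : Filter J), ∀ i, i ∉ P → ∀ γ ∈ {γ | δ ≤ |e x γ|}, v h.1 i ≠ γ :=
    eventually_all.2 fun i => eventually_all.2 fun hi => (eventually_all_finite (he x)).2 fun γ _ => h1 i hi γ
  obtain ⟨h0, h4, h5⟩ := (hρ.and h3).exists
  obtain ⟨y, hy, h6⟩ := hS3 ρ x trivial δ hδ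
  have h7 : ∀ h : J, P.image (v h.1) = ρ → (ι ρ h.1, fun i => κ ρ (v h.1 i)) = c P := fun h hh => by
    rw [← hh]
    exact congrFun h.2.1 P
  by_cases h8 : ∃ i, i ∉ P ∧ δ ≤ |e y (v h0.1 i)|
  · obtain ⟨i, hi, h9⟩ := h8
    obtain ⟨h, h10, h11⟩ := (hρ.and (h1 i hi (v h0.1 i))).exists
    exact h11 (hκ ρ _ (mem_biUnion hy h9) _
      (congrFun (congrArg Prod.snd ((h7 h h10).trans (h7 h0 h4).symm)) i))
  · have h9 : ψ h0.1 y ≠ 0 := by
      intro h10
      have h11 := hv h0.1 x y fun i => by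
        by_cases hi : i ∈ P
        · have h12 := h6 _ (h4 ▸ Finset.mem_image_of_mem (v h0.1) hi)
          rw [abs_sub_comm]
          linarith
        · have h12 : |e y (v h0.1 i)| < δ := not_le.1 fun h => h8 ⟨i, hi, h⟩
          have h13 : |e x (v h0.1 i)| < δ := not_le.1 fun h => h5 i hi _ h rfl
          linarith [abs_sub (e x (v h0.1 i)) (e y (v h0.1 i))]
      rw [h10, sub_zero] at h11
      exact absurd h0.2.2 (not_le.2 h11)
    have h10 : ∀ᶠ h in (𝒰 : Filter J), h ≠ h0 :=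
      hyperfilter_le_cofinite (finite_singleton h0).compl_mem_cofinite
    obtain ⟨h, h11, h12⟩ := (hρ.and h10).exists
    exact h12 (Subtype.ext (hι ρ _ (mem_biUnion hy h9) _
      (congrArg Prod.fst ((h7 h h11).trans (h7 h0 h4).symm))))

lemma farm {X Γ I : Type} [TopologicalSpace X] [CompactSpace X] (e : X → Γ → ℝ) (he1 : Continuous e)
    (he2 : Function.Injective e) (he : ∀ x, ∀ δ : ℝ, 0 < δ → {γ | δ < |e x γ|}.Finite)
    (ψ : I → X → ℝ) (hψ1 : ∀ h, Continuous (ψ h)) (hψ : ∀ y, {h | ψ h y ≠ 0}.Countable) {ε : ℝ}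
    (hε : 0 < ε) : ∃ col : I → ℕ, ∀ c x, {h | col h = c ∧ ε ≤ |ψ h x|}.Finite := by
  have h1 : ∀ h, ∃ q : ℕ × ℕ, ∃ v : Fin q.1 → Γ, ∀ x y,
      (∀ i, |e x (v i) - e y (v i)| < 2 * (1 / ((q.2 : ℝ) + 1))) → |ψ h x - ψ h y| < ε := by
    intro h
    have hK : IsCompact {p : X × X | ε ≤ |ψ h p.1 - ψ h p.2|} :=
      (isClosed_le continuous_const (((hψ1 h).comp continuous_fst).sub
        ((hψ1 h).comp continuous_snd)).abs).isCompact
    obtain ⟨E, -, δ, hδ, h2⟩ := box_sep (fun (p : X × X) γ => e p.1 γ - e p.2 γ) hK (H := univ)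
      (fun γ _ => ((continuous_apply γ).comp (he1.comp continuous_fst)).sub
        ((continuous_apply γ).comp (he1.comp continuous_snd))) (fun _ => 0) (by
        intro p hp h2
        have h3 : p.1 = p.2 := he2 (funext fun γ => sub_eq_zero.1 (h2 γ trivial))
        have h4 : ε ≤ |ψ h p.1 - ψ h p.2| := hp
        rw [h3, sub_self, abs_zero] at h4
        exact absurd h4 (not_le.2 hε))
    obtain ⟨m, hm⟩ := exists_nat_one_div_lt (half_pos hδ)
    refine ⟨(E.card, m), fun i => (E.equivFin.symm i).1, fun x y h3 => ?_⟩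
    by_contra h4
    refine h2 (x, y) (not_lt.1 h4) fun γ hγ => ?_
    have h5 := h3 (E.equivFin ⟨γ, hγ⟩)
    simp only [Equiv.symm_apply_apply] at h5
    rw [sub_zero]
    linarith
  choose q hq using h1
  have h2 : ∀ p : ℕ × ℕ, ∃ col : {h // q h = p} → ℕ, ∀ c x, {h | col h = c ∧ ε ≤ |ψ h.1 x|}.Finite := by
    intro p
    have h3 : ∀ h : {h // q h = p}, ∃ v : Fin p.1 → Γ, ∀ x y,
        (∀ i, |e x (v i) - e y (v i)| < 2 * (1 / ((p.2 : ℝ) + 1))) → |ψ h.1 x - ψ h.1 y| < ε := by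
      rintro ⟨h, rfl⟩
      exact hq h
    choose v hv using h3
    have hp : (0 : ℝ) < 1 / ((p.2 : ℝ) + 1) := Nat.one_div_pos_of_nat
    obtain ⟨col, hcol⟩ := farm_inner e hp (fun x => (he x _ (half_pos hp)).subset fun γ hγ =>
      lt_of_lt_of_le (half_lt_self hp) hγ) (fun h : {h // q h = p} => ψ h.1)
      (fun y => (hψ y).preimage Subtype.val_injective) v hv
    obtain ⟨j, hj⟩ := exists_injective_nat (Finset (Fin p.1) → ℕ × (Fin p.1 → ℕ))
    refine ⟨fun h => j (col h), fun c x => ?_⟩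
    by_cases h4 : ∃ c', j c' = c
    · obtain ⟨c', rfl⟩ := h4
      exact (hcol c' x).subset fun h hh => ⟨hj hh.1, hh.2⟩
    · exact finite_empty.subset fun h hh => h4 ⟨_, hh.1⟩
  choose col hcol using h2
  obtain ⟨j, hj⟩ := exists_injective_nat ((ℕ × ℕ) × ℕ)
  refine ⟨fun h => j (q h, col (q h) ⟨h, rfl⟩), fun c x => ?_⟩
  by_cases h4 : ∃ c', j c' = c
  · obtain ⟨⟨p, c'⟩, rfl⟩ := h4
    refine ((hcol p c' x).image Subtype.val).subset fun h hh => ?_
    have h5 := hj hh.1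
    simp only [Prod.mk.injEq] at h5
    obtain ⟨rfl, rfl⟩ := h5
    exact ⟨⟨h, rfl⟩, ⟨rfl, hh.2⟩, rfl⟩
  · exact finite_empty.subset fun h hh => h4 ⟨_, hh.1⟩

noncomputable def tau (a t : ℝ) : ℝ := t - max (-a) (min t a)

lemma tau_cont (a : ℝ) : Continuous (tau a) := by
  unfold tau
  fun_prop

lemma tau_zero {a t : ℝ} (h : |t| < a) : tau a t = 0 := by
  have := abs_lt.1 h
  rw [tau, min_eq_left this.2.le, max_eq_right this.1.le, sub_self]

lemma tau_near {a : ℝ} (ha : 0 ≤ a) (t : ℝ) : |tau a t - t| ≤ a := by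
  rw [tau, sub_sub_cancel_left, abs_neg, abs_le]
  exact ⟨le_max_left _ _, max_le (by linarith) (min_le_right _ _)⟩

theorem brw {X Γ : Type} [TopologicalSpace X] [CompactSpace X] (e : X → Γ → ℝ) (he1 : IsEmbedding e)
    (he : ∀ x, ∀ δ : ℝ, 0 < δ → {γ | δ < |e x γ|}.Finite) {Z : Type} [TopologicalSpace Z] [T2Space Z]
    {g : X → Z} (hg : Continuous g) (hs : Function.Surjective g) :
    ∃ (Δ : Type) (u : Z → Δ → ℝ), IsEmbedding u ∧ ∀ z, ∀ ε : ℝ, 0 < ε → {γ | ε ≤ |u z γ|}.Finite := by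
  have : CompactSpace Z := ⟨by rw [← hs.range_eq]; exact isCompact_range hg⟩
  have : T2Space X := he1.t2Space
  have h1 : Cor X := cor_of_spl fun A => dec_of_sigma he1.continuous (fun x => c0_cnt (he x))
    fun y y' h => by rw [he1.injective h]
  obtain ⟨I, ψ, hψ1, hψ2⟩ := (h1.image hg hs).embed
  have hψc : ∀ h, Continuous fun z => ψ z h := fun h => (continuous_apply h).comp hψ1.continuous
  choose col hcol using fun k : ℕ => farm e he1.continuous he1.injective he (fun h x => ψ (g x) h)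
    (fun h => (hψc h).comp hg) (fun y => hψ2 (g y)) (Nat.one_div_pos_of_nat (n := k))
  have hp : ∀ n : ℕ, (0 : ℝ) < (n : ℝ) + 1 := fun n => by positivity
  refine ⟨ℕ × I, fun z q => cut (tau (1 / ((q.1 : ℝ) + 1)) (ψ z q.2)) / (((q.1 + col q.1 q.2 : ℕ) : ℝ) + 1),
    ?_, fun z ε hε => ?_⟩
  · refine IsClosedEmbedding.isEmbedding (Continuous.isClosedEmbedding (continuous_pi fun q => ?_)
      fun x y hxy => hψ1.injective (funext fun h => ?_))
    · exact (cut_cont.comp ((tau_cont _).comp (hψc _))).div_const _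
    · have h0 := tendsto_one_div_add_atTop_nhds_zero_nat (𝕜 := ℝ)
      have h8 : Tendsto (fun n : ℕ => 1 / ((n : ℝ) + 1) + 1 / ((n : ℝ) + 1)) atTop (𝓝 0) := by
        simpa using h0.add h0
      have h9 : |ψ x h - ψ y h| ≤ 0 := by
        refine ge_of_tendsto' h8 fun k => ?_
        have h2 := cut_inj ((div_left_inj' (hp _).ne').1 (congrFun hxy (k, h)))
        have h3 := abs_le.1 (tau_near (Nat.one_div_pos_of_nat (n := k)).le (ψ x h))
        have h4 := abs_le.1 (tau_near (Nat.one_div_pos_of_nat (n := k)).le (ψ y h))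
        simp only at h2
        rw [abs_le]
        constructor <;> linarith [h3.1, h3.2, h4.1, h4.2]
      exact sub_eq_zero.1 (abs_nonpos_iff.1 h9)
  · obtain ⟨x, rfl⟩ := hs z
    obtain ⟨N, hN⟩ := exists_nat_one_div_lt hε
    refine ((finite_lt_nat N).biUnion fun k _ => (finite_lt_nat N).biUnion fun c _ =>
      (hcol k c x).image fun h => (k, h)).subset ?_
    rintro ⟨k, h⟩ hq
    simp only [mem_setOf_eq, abs_div, abs_of_pos (hp _)] at hq
    have h2 : k + col k h < N := by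
      by_contra h3
      have h4 : (1 : ℝ) / (((k + col k h : ℕ) : ℝ) + 1) ≤ 1 / ((N : ℝ) + 1) :=
        Nat.one_div_le_one_div (not_lt.1 h3)
      have h5 := div_le_div_of_nonneg_right (cut_le_one (tau (1 / ((k : ℝ) + 1)) (ψ (g x) h)))
        (hp (k + col k h)).le
      linarith
    refine mem_biUnion (x := k) (show k < N by omega) (mem_biUnion (x := col k h)
      (show col k h < N by omega) ⟨h, ⟨rfl, ?_⟩, rfl⟩)
    by_contra h3
    rw [tau_zero (not_le.1 h3)] at hq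
    simp only [cut, zero_div, abs_zero] at hq
    exact absurd hq (not_le.2 hε)

end Pool.Agent.H30.Spl
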