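import Pool.Agent.H30.ChA
import Pool.Agent.H30.SplG

set_option autoImplicit false

open Set Filter Topology Cardinal

namespace Pool.Agent.H30.Tow

open Pool.Agent.H30.Spl Pool.Agent.H30.Moo

lemma pseudo {Y : ℕ → Set ℕ} (hY : ∀ k, (Y k).Infinite) (f : ℕ → ℕ) :
    ∃ a : ℕ → ℕ, StrictMono a ∧ (∀ k, a k ∈ Y k) ∧ ∀ k, ∀ n ≤ a k, f n ≤ a (k + 1) := by
  have : ∀ k c, ∃ b ∈ Y k, c < b ∧ ∀ n ≤ c, f n ≤ b := fun k c => by
    obtain ⟨b, hb, h⟩ := (hY k).exists_gt (max c ((Finset.range (c + 1)).sup f))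
    refine ⟨b, hb, (le_max_left _ _).trans_lt h, fun n hn => ?_⟩
    exact ((Finset.le_sup (f := f) (Finset.mem_range.2 (by omega))).trans (le_max_right _ _)).trans h.le
  choose nx h1 h2 h3 using this
  let a : ℕ → ℕ := fun k => Nat.rec (nx 0 0) (fun k c => nx (k + 1) c) k
  refine ⟨a, strictMono_nat_of_lt_succ fun k => h2 (k + 1) (a k), fun k => ?_,
    fun k => h3 (k + 1) (a k)⟩
  cases k with
  | zero => exact h1 0 0
  | succ k => exact h1 (k + 1) (a k)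

structure Tw (x : W1 → Set ℕ) : Prop where
  inf : ∀ α, (x α).Infinite
  dec : ∀ β α, β ≤ α → (x α \ x β).Finite
  gap : ∀ h : ℕ → ℕ, ∃ α, ∀ k, ∃ m ≥ k, ∀ i ∈ x α, i < m ∨ h m ≤ i

/-- There is an unbounded family of at most `ℵ₁` functions (the bounding number is `ℵ₁`). -/
def SmallB : Prop :=
  ∃ F : Set (ℕ → ℕ), #F ≤ ℵ₁ ∧ ∀ g : ℕ → ℕ, ∃ f ∈ F, ∃ᶠ n in atTop, g n < f n

lemma smallB_of_CH (h : (continuum : Cardinal.{0}) = ℵ₁) : SmallB :=
  ⟨univ, by simp [← h], fun g => ⟨fun n => g n + 1, trivial,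
    Eventually.frequently (Eventually.of_forall fun n => Nat.lt_succ_self _)⟩⟩

theorem exists_tw (hb : SmallB) : ∃ x, Tw x := by
  classical
  obtain ⟨F, hF, hu⟩ := hb
  obtain ⟨e, he⟩ := enum (S := F) (T := W1) (P := Set.univ) (by simpa [mk_W1] using hF)
  obtain ⟨x, hx⟩ := wf_rec (T := W1) (β := Set ℕ) (fun α x y =>
    (∀ β < α, (x β).Infinite) → (∀ β < α, ∀ γ < α, γ ≤ β → (x β \ x γ).Finite) →
      y.Infinite ∧ (∀ β < α, (y \ x β).Finite) ∧ ∀ a ∈ y, ∀ b ∈ y, a < b → ∀ n ≤ a, e α n ≤ b)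
    (fun α x => by
      by_cases h : (∀ β < α, (x β).Infinite) ∧ ∀ β < α, ∀ γ < α, γ ≤ β → (x β \ x γ).Finite
      swap
      · exact ⟨∅, fun h1 h2 => (h ⟨h1, h2⟩).elim⟩
      obtain ⟨ι, hι⟩ := idx (W1_Iio α)
      have hf : ∀ k, {β | β < α ∧ ι β ≤ k}.Finite := fun k =>
        Finite.of_finite_image (f := ι) ((finite_Iic k).subset (by rintro _ ⟨β, h, rfl⟩; exact h.2))
          fun a ha b _ h => (hι a ha.1 b h.symm).symm
      obtain ⟨a, h1, h2, h3⟩ := pseudo (Y := fun k => ⋂ β ∈ {β | β < α ∧ ι β ≤ k}, x β) (fun k => by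
        rcases ({β | β < α ∧ ι β ≤ k}).eq_empty_or_nonempty with h0 | h0
        · rw [h0]; simpa using infinite_univ
        obtain ⟨β, hβ, hm⟩ := exists_max_image _ id (hf k) h0
        refine ((h.1 β hβ.1).diff ((hf k).biUnion fun γ hγ => h.2 β hβ.1 γ hγ.1 (hm γ hγ))).mono ?_
        intro i hi
        refine mem_iInter₂.2 fun γ hγ => by_contra fun hc => hi.2 ?_
        exact mem_iUnion₂.2 ⟨γ, hγ, hi.1, hc⟩) (e α)
      refine ⟨range a, fun _ _ => ⟨infinite_range_of_injective h1.injective, fun β hβ => ?_, ?_⟩⟩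
      · refine ((finite_Iio (ι β)).image a).subset ?_
        rintro _ ⟨⟨k, rfl⟩, hk⟩
        refine ⟨k, by_contra fun hc => hk ?_, rfl⟩
        exact mem_iInter₂.1 (h2 k) β ⟨hβ, not_lt.1 hc⟩
      · rintro _ ⟨i, rfl⟩ _ ⟨j, rfl⟩ hij n hn
        exact (h3 i n hn).trans (h1.monotone (h1.lt_iff_lt.1 hij)))
    (fun α x y b hxy H h1 h2 => by
      obtain ⟨h3, h4, h5⟩ := H (fun β hβ => hxy β hβ ▸ h1 β hβ)
        (fun β hβ γ hγ h => by rw [hxy β hβ, hxy γ hγ]; exact h2 β hβ γ hγ h)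
      exact ⟨h3, fun β hβ => hxy β hβ ▸ h4 β hβ, h5⟩)
  have key : ∀ α, (x α).Infinite ∧ (∀ β ≤ α, (x α \ x β).Finite) ∧
      ∀ a ∈ x α, ∀ b ∈ x α, a < b → ∀ n ≤ a, e α n ≤ b := by
    intro α
    induction α using WellFoundedLT.induction with
    | ind α ih =>
      obtain ⟨h1, h2, h3⟩ := hx α (fun β hβ => (ih β hβ).1) fun β hβ γ _ h => (ih β hβ).2.1 γ h
      refine ⟨h1, fun β hβ => ?_, h3⟩
      rcases hβ.eq_or_lt with rfl | hβ
      · simp
      · exact h2 β hβ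
  refine ⟨x, fun α => (key α).1, fun β α h => (key α).2.1 β h, fun h => ?_⟩
  obtain ⟨f, hf, hg⟩ := hu fun n => max (h n) (h (max n (h n)))
  obtain ⟨α, -, rfl⟩ := he hf
  refine ⟨α, fun k => ?_⟩
  obtain ⟨n, hn, hlt⟩ := (frequently_atTop.1 hg) k
  by_contra hc
  push Not at hc
  obtain ⟨a, ha, h1, h2⟩ := hc n hn
  obtain ⟨b, hb, h3, h4⟩ := hc (max n (h n)) (hn.trans (le_max_left _ _))
  have := (key α).2.2 a ha b hb (by omega) n h1
  omega

def Sp (x : W1 → Set ℕ) : Type := ↥(range x ∪ {s : Set ℕ | s.Finite})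

open Classical in
noncomputable def emb (x : W1 → Set ℕ) (y : Sp x) : ℕ ⊕ W1 → Bool :=
  Sum.elim (fun n => decide (n ∈ y.1)) fun α => decide (y.1 = x α)

noncomputable instance (x : W1 → Set ℕ) : TopologicalSpace (Sp x) := .induced (emb x) inferInstance

lemma emb_emb (x : W1 → Set ℕ) : IsEmbedding (emb x) :=
  ⟨⟨rfl⟩, fun a b h => Subtype.ext (Set.ext fun n => by
    have := congrFun h (.inl n)
    simpa [emb] using this)⟩

instance (x : W1 → Set ℕ) : T35Space (Sp x) := (emb_emb x).t35Space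

lemma cont_co (x : W1 → Set ℕ) (i : ℕ ⊕ W1) : Continuous fun y => emb x y i :=
  (continuous_apply i).comp (emb_emb x).continuous

lemma nb_fin {x : W1 → Set ℕ} (hx : Tw x) {s : Sp x} (hs : s.1.Finite) {U : Set (Sp x)}
    (hU : U ∈ 𝓝 s) : ∃ m : ℕ, ∀ y : Sp x, (∀ n < m, n ∈ y.1 ↔ n ∈ s.1) → y ∈ U := by
  classical
  rw [nhds_induced, nhds_pi, mem_comap] at hU
  obtain ⟨V, hV, hVU⟩ := hU
  obtain ⟨I, hI, t, ht, htV⟩ := Filter.mem_pi.1 hV
  have : ∀ i : ℕ ⊕ W1, ∃ m : ℕ, ∀ y : Sp x, (∀ n < m, n ∈ y.1 ↔ n ∈ s.1) → emb x y i = emb x s i := by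
    rintro (n | α)
    · exact ⟨n + 1, fun y hy => by simp [emb, hy n (Nat.lt_succ_self n)]⟩
    · obtain ⟨n, h1, h2⟩ := (hx.inf α).exists_notMem_finite hs
      refine ⟨n + 1, fun y hy => ?_⟩
      have h3 : y.1 ≠ x α := fun h => h2 ((hy n (Nat.lt_succ_self n)).1 (h ▸ h1))
      have h4 : s.1 ≠ x α := fun h => h2 (h ▸ h1)
      simp [emb, h3, h4]
  choose m hm using this
  obtain ⟨M, hM⟩ := (hI.image m).bddAbove
  refine ⟨M, fun y hy => hVU (htV fun i hi => ?_)⟩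
  rw [hm i y fun n hn => hy n (hn.trans_le (hM ⟨i, hi, rfl⟩))]
  exact mem_of_mem_nhds (ht i)

abbrev Cp (X : Type) [TopologicalSpace X] : Type := {f : X → ℝ // Continuous f}

lemma cl_near {X : Type} [TopologicalSpace X] {A : Set (Cp X)} {f : Cp X} (hf : f ∈ closure A)
    {F : Set X} (hF : F.Finite) {ε : ℝ} (hε : 0 < ε) : ∃ g ∈ A, ∀ y ∈ F, |g.1 y - f.1 y| < ε := by
  have ho : IsOpen {g : Cp X | ∀ y ∈ F, |g.1 y - f.1 y| < ε} := by
    simp only [Set.ofPred_forall]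
    refine hF.isOpen_biInter fun y _ => isOpen_lt ?_ continuous_const
    exact (((continuous_apply y).comp continuous_subtype_val).sub continuous_const).abs
  obtain ⟨g, h1, h2⟩ := mem_closure_iff.1 hf _ ho (fun y _ => by simpa using hε)
  exact ⟨g, h2, h1⟩

theorem Tw.fu {x : W1 → Set ℕ} (hx : Tw x) : FrechetUrysohnSpace (Cp (Sp x)) := by
  classical
  refine ⟨fun A f hf => ?_⟩
  let p : W1 → Sp x := fun α => ⟨x α, Or.inl ⟨α, rfl⟩⟩
  have step : ∀ (F : Finset W1) (m : ℕ), ∃ g ∈ A, ∃ m' : ℕ,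
      (∀ α ∈ F, |g.1 (p α) - f.1 (p α)| < 1 / (m + 1 : ℝ)) ∧
      ∀ y : Sp x, (∀ i ∈ y.1, i < m ∨ m' ≤ i) → |g.1 y - f.1 y| < 1 / (m + 1 : ℝ) := by
    intro F m
    have hP : {s : Sp x | s.1 ⊆ Iio m}.Finite :=
      Finite.preimage Subtype.val_injective.injOn (finite_Iio m).finite_subsets
    obtain ⟨g, hg, h1⟩ := cl_near hf ((F.finite_toSet.image p).union hP)
      (Nat.one_div_pos_of_nat (n := m))
    have h2 : ∀ s : Sp x, ∃ k : ℕ, s.1 ⊆ Iio m → ∀ y : Sp x, (∀ n < k, n ∈ y.1 ↔ n ∈ s.1) →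
        |g.1 y - f.1 y| < 1 / (m + 1 : ℝ) := fun s => by
      by_cases hs : s.1 ⊆ Iio m
      · obtain ⟨k, hk⟩ := nb_fin hx ((finite_Iio m).subset hs)
          ((isOpen_lt (g.2.sub f.2).abs continuous_const).mem_nhds (h1 s (Or.inr hs)))
        exact ⟨k, fun _ => hk⟩
      · exact ⟨0, fun h => (hs h).elim⟩
    choose k hk using h2
    obtain ⟨M, hM⟩ := (hP.image k).bddAbove
    refine ⟨g, hg, M, fun α hα => h1 _ (Or.inl ⟨α, hα, rfl⟩), fun y hy => ?_⟩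
    let s : Sp x := ⟨y.1 ∩ Iio m, Or.inr ((finite_Iio m).inter_of_right _)⟩
    have hs : s.1 ⊆ Iio m := inter_subset_right
    refine hk s hs y fun n hn => ⟨fun h => ⟨h, ?_⟩, fun h => h.1⟩
    have := hM ⟨s, hs, rfl⟩
    have := hy n h
    simp only [mem_Iio]
    omega
  choose g hgA h hg1 hg2 using step
  choose φ hφ using fun F => hx.gap (h F)
  obtain ⟨α, -, hα⟩ := club (I := W1) isRegular_aleph_one aleph0_lt_aleph_one mk_W1.ge
    (fun i => (countable_iff_lt_aleph_one _).1 (W1_Iio i)) (c := fun F => {φ F})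
    (fun _ => by simpa using one_lt_aleph0.trans aleph0_lt_aleph_one) ⊥
  obtain ⟨ι, hι⟩ := idx (W1_Iio α)
  have hf' : ∀ k, {β | β < α ∧ ι β ≤ k}.Finite := fun k =>
    Finite.of_finite_image (f := ι) ((finite_Iic k).subset (by rintro _ ⟨β, h, rfl⟩; exact h.2))
      fun a ha b _ h => (hι a ha.1 b h.symm).symm
  have sel : ∀ k : ℕ, ∃ m ≥ k, ∀ i ∈ x α, i < m ∨ h (hf' k).toFinset m ≤ i := fun k => by
    have h1 : φ (hf' k).toFinset < α :=
      hα _ (fun β hβ => ((hf' k).mem_toFinset.1 hβ).1) rfl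
    obtain ⟨M, hM⟩ := (hx.dec _ _ h1.le).bddAbove
    obtain ⟨m, hm, h2⟩ := hφ (hf' k).toFinset (max k (M + 1))
    refine ⟨m, (le_max_left _ _).trans hm, fun i hi => ?_⟩
    by_cases h3 : i ∈ x (φ (hf' k).toFinset)
    · exact h2 i h3
    · have := hM ⟨hi, h3⟩
      left; omega
  choose m hm1 hm2 using sel
  refine ⟨fun k => g (hf' k).toFinset (m k), fun k => hgA _ _, ?_⟩
  rw [tendsto_subtype_rng, tendsto_pi_nhds]
  intro y
  have ev : ∀ᶠ k in atTop, |(g (hf' k).toFinset (m k)).1 y - f.1 y| < 1 / (m k + 1 : ℝ) := by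
    have fin : (y.1 \ x α).Finite → ∀ᶠ k in atTop,
        |(g (hf' k).toFinset (m k)).1 y - f.1 y| < 1 / (m k + 1 : ℝ) := fun hy => by
      obtain ⟨M, hM⟩ := hy.bddAbove
      filter_upwards [eventually_gt_atTop M] with k hk
      refine hg2 _ _ y fun i hi => ?_
      by_cases h3 : i ∈ x α
      · exact hm2 k i h3
      · have := hM ⟨hi, h3⟩
        have := hm1 k
        left; omega
    rcases y.2 with ⟨β, hβ⟩ | hy
    · rcases lt_or_ge β α with h1 | h1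
      · filter_upwards [eventually_ge_atTop (ι β)] with k hk
        have : y = p β := Subtype.ext hβ.symm
        rw [this]
        exact hg1 _ _ β ((hf' k).mem_toFinset.2 ⟨h1, hk⟩)
      · exact fin (hβ ▸ hx.dec _ _ h1)
    · exact fin (Finite.diff hy)
  rw [tendsto_iff_norm_sub_tendsto_zero]
  refine squeeze_zero' (Eventually.of_forall fun _ => norm_nonneg _) ?_
    (tendsto_one_div_add_atTop_nhds_zero_nat (𝕜 := ℝ))
  filter_upwards [ev] with k hk
  refine hk.le.trans (one_div_le_one_div_of_le (by positivity) ?_)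
  have : (k : ℝ) ≤ m k := by exact_mod_cast hm1 k
  linarith

theorem sep (x : W1 → Set ℕ) : TopologicalSpace.SeparableSpace (Cp (Sp x)) := by
  classical
  let d : (Σ m : ℕ, (Fin m → Bool) → ℚ) → Cp (Sp x) := fun q =>
    ⟨fun y => (q.2 fun i => emb x y (.inl i) : ℝ),
      (continuous_of_discreteTopology (f := fun b : Fin q.1 → Bool => (q.2 b : ℝ))).comp
        (continuous_pi fun i => cont_co x _)⟩
  refine ⟨range d, countable_range d, fun f => ?_⟩
  rw [mem_closure_iff_nhds]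
  intro U hU
  rw [nhds_induced, nhds_pi, mem_comap] at hU
  obtain ⟨V, hV, hVU⟩ := hU
  obtain ⟨I, hI, t, ht, htV⟩ := Filter.mem_pi.1 hV
  have h1 : ∀ a b : Sp x, ∃ n : ℕ, emb x a (.inl n) = emb x b (.inl n) → a = b := fun a b => by
    by_contra hc
    push Not at hc
    exact (hc 0).2 (Subtype.ext (Set.ext fun n => by simpa [emb] using (hc n).1))
  choose n hn using h1
  obtain ⟨M, hM⟩ := ((hI.prod hI).image fun p => n p.1 p.2).bddAbove
  have h2 : ∀ y, ∃ r : ℚ, (r : ℝ) ∈ t y := fun y => by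
    obtain ⟨r, hr⟩ := Rat.denseRange_cast.mem_nhds (ht y)
    exact ⟨r, hr⟩
  choose r hr using h2
  refine ⟨d ⟨M + 1, fun b => if h : ∃ y ∈ I, b = fun i : Fin (M + 1) => emb x y (.inl i) then
    r h.choose else 0⟩, hVU (htV fun y hy => ?_), ⟨_, rfl⟩⟩
  have h3 : ∃ z ∈ I, (fun i : Fin (M + 1) => emb x y (.inl i)) =
      fun i : Fin (M + 1) => emb x z (.inl i) := ⟨y, hy, rfl⟩
  simp only [d, dif_pos h3]
  have h4 : y = h3.choose := hn _ _ (congrFun h3.choose_spec.2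
    ⟨n y h3.choose, Nat.lt_succ_of_le (hM ⟨(y, h3.choose), ⟨hy, h3.choose_spec.1⟩, rfl⟩)⟩)
  rw [← h4]
  exact hr y

lemma Tw.unc {x : W1 → Set ℕ} (hx : Tw x) : ¬ (range x).Countable := by
  intro h
  obtain ⟨e, he⟩ := h.exists_eq_range (range_nonempty x)
  have : ∀ k m, ∃ i ∈ e k, m ≤ i := fun k m => by
    obtain ⟨α, hα⟩ : e k ∈ range x := he ▸ ⟨k, rfl⟩
    obtain ⟨i, h1, h2⟩ := (hx.inf α).exists_gt m
    exact ⟨i, hα ▸ h1, h2.le⟩
  choose i h1 h2 using this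
  obtain ⟨α, hα⟩ := hx.gap fun m => (Finset.range (m + 1)).sup (fun k => i k m) + 1
  obtain ⟨k, hk⟩ : x α ∈ range e := he ▸ ⟨α, rfl⟩
  obtain ⟨m, hm, h3⟩ := hα k
  have h4 := h3 (i k m) (hk ▸ h1 k m)
  have h5 := h2 k m
  have h6 := Finset.le_sup (f := fun k => i k m) (Finset.mem_range.2 (show k < m + 1 by omega))
  omega

theorem Tw.not_hs {x : W1 → Set ℕ} (hx : Tw x) :
    ¬ ∀ S : Set (Cp (Sp x)), TopologicalSpace.SeparableSpace S := by
  classical
  intro H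
  let c : W1 → Cp (Sp x) := fun α => ⟨fun y => if emb x y (.inr α) = true then 1 else 0,
    (continuous_of_discreteTopology (f := fun b : Bool => if b = true then (1 : ℝ) else 0)).comp
      (cont_co x _)⟩
  obtain ⟨D, hD, hd⟩ := (H (range c)).exists_countable_dense
  choose a ha using fun d : range c => d.2
  have h1 : ¬ range x ⊆ (fun d => x (a d)) '' D := fun h => hx.unc ((hD.image _).mono h)
  obtain ⟨_, ⟨α, rfl⟩, h2⟩ := not_subset.1 h1
  have h3 : c α ∈ closure (Subtype.val '' D) :=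
    image_closure_subset_closure_image continuous_subtype_val ⟨⟨c α, α, rfl⟩, hd _, rfl⟩
  obtain ⟨_, ⟨d, hd', rfl⟩, h4⟩ := cl_near h3 (finite_singleton ⟨x α, Or.inl ⟨α, rfl⟩⟩) one_pos
  have h5 := h4 _ rfl
  have h6 : x α ≠ x (a d) := fun h => h2 ⟨d, hd', h.symm⟩
  rw [← ha d] at h5
  simp [c, emb, h6] at h5

end Pool.Agent.H30.Tow
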