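import Pool.Agent.H30.ChB
import Pool.Agent.H30.TowA

set_option autoImplicit false

open Set Filter Topology Cardinal

namespace Pool.Agent.H30.Sor

open Pool.Agent.H30.Spl Pool.Agent.H30.Ch Pool.Agent.H30.Tow

abbrev C : Type := ℕ → Bool

/-- Mutually generic points of the Cantor space. -/
def Lus (y : W1 → C) : Prop := ∀ (n : ℕ) (G : Set (Fin n → C)), IsOpen G → Dense G →
  ∃ δ, ∀ b : Fin n → W1, Function.Injective b → (∀ i, δ ≤ b i) → y ∘ b ∈ G

theorem exists_lus (hc : (𝔠 : Cardinal.{0}) = ℵ₁) : ∃ y, Lus y := by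
  classical
  obtain ⟨x, hx⟩ := exists_gen hc
  have := inf_W1
  let c := Infinite.natEmbedding W1
  refine ⟨fun α => x α ∘ c, fun n G h1 h2 => ?_⟩
  have ho : IsOpenMap fun (w : Fin n → K) i => w i ∘ c := by
    refine IsOpenMap.of_sections fun w => ⟨fun v i => Function.extend c (v i) (w i), ?_, ?_, ?_⟩
    · refine (continuous_pi fun i => continuous_pi fun ξ => ?_).continuousAt
      by_cases h : ∃ k, c k = ξ
      · obtain ⟨k, rfl⟩ := h
        simp only [c.injective.extend_apply]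
        fun_prop
      · simp only [Function.extend_apply' _ _ _ h]
        fun_prop
    · funext i ξ
      by_cases h : ∃ k, c k = ξ
      · obtain ⟨k, rfl⟩ := h
        simp only [c.injective.extend_apply, Function.comp]
      · simp only [Function.extend_apply' _ _ _ h]
    · intro v
      funext i k
      simp only [Function.comp, c.injective.extend_apply]
  exact hx.lus n _ (h1.preimage (by fun_prop)) (h2.preimage ho)

lemma lt_iff {u v : C} : toLex u < toLex v ↔ ∃ n, (∀ k < n, u k = v k) ∧ u n < v n := Iff.rfl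

lemma cyl_open (u : C) (m : ℕ) : IsOpen {v : C | ∀ k < m, v k = u k} := by
  simp only [Set.ofPred_forall]
  exact (finite_Iio m).isOpen_biInter fun k _ =>
    (isOpen_discrete {u k}).preimage (f := fun w : C => w k) (continuous_apply k)

lemma cyl_nb {u : C} {U : Set C} (h : U ∈ 𝓝 u) : ∃ m, ∀ v : C, (∀ k < m, v k = u k) → v ∈ U := by
  rw [nhds_pi, Filter.mem_pi] at h
  obtain ⟨I, hI, s, hs, hsV⟩ := h
  obtain ⟨m, hm⟩ := hI.bddAbove
  refine ⟨m + 1, fun v hv => hsV fun k hk => ?_⟩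
  rw [hv k (Nat.lt_succ_of_le (hm hk))]
  exact mem_of_mem_nhds (hs k)

lemma lt_cyl {u v : C} (h : toLex u < toLex v) : ∃ m, ∀ u' v' : C, (∀ k < m, u' k = u k) →
    (∀ k < m, v' k = v k) → toLex u' < toLex v' := by
  obtain ⟨n, h1, h2⟩ := lt_iff.1 h
  refine ⟨n + 1, fun u' v' a b => lt_iff.2 ⟨n, fun k hk => ?_, ?_⟩⟩
  · rw [a k (by omega), b k (by omega), h1 k hk]
  · rwa [a n (by omega), b n (by omega)]

lemma gt_open (u : C) : IsOpen {v : C | toLex u < toLex v} := by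
  refine isOpen_iff_mem_nhds.2 fun v hv => ?_
  obtain ⟨m, hm⟩ := lt_cyl hv
  exact mem_of_superset ((cyl_open v m).mem_nhds fun _ _ => rfl) fun w hw => hm u w (fun _ _ => rfl) hw

lemma Lus.one {y : W1 → C} (h : Lus y) {G : ℕ → Set C} (h1 : ∀ k, IsOpen (G k))
    (h2 : ∀ k, Dense (G k)) : ∃ δ, ∀ β, δ ≤ β → ∀ k, y β ∈ G k := by
  choose δ hδ using fun k => h 1 ((fun w => w 0) ⁻¹' G k) ((h1 k).preimage (continuous_apply 0))
    ((h2 k).preimage (isOpenMap_eval 0))
  obtain ⟨ε, hε⟩ := W1_bdd (countable_range δ)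
  exact ⟨ε, fun β hβ k => hδ k (fun _ => β) (Function.injective_of_subsingleton _)
    fun _ => (hε _ ⟨k, rfl⟩).le.trans hβ⟩

lemma upd_dense {G : Set C} (h : ∀ (u : C) m, ∃ v ∈ G, ∀ k < m, v k = u k) : Dense G := by
  intro u
  rw [mem_closure_iff_nhds]
  intro U hU
  obtain ⟨m, hm⟩ := cyl_nb hU
  obtain ⟨v, h1, h2⟩ := h u m
  exact ⟨v, hm v h2, h1⟩

lemma Lus.unc {y : W1 → C} (h : Lus y) : ¬ (range y).Countable := by
  intro hc
  obtain ⟨e, he⟩ := hc.exists_eq_range (range_nonempty y)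
  obtain ⟨δ, hδ⟩ := h.one (G := fun k => {e k}ᶜ) (fun k => isOpen_compl_singleton) fun k =>
    upd_dense fun u m => ⟨Function.update u m (!(e k m)), fun h => by
      have := congrFun h m
      simp at this, fun j hj => Function.update_of_ne hj.ne _ _⟩
  obtain ⟨k, hk⟩ : y δ ∈ range e := he ▸ ⟨δ, rfl⟩
  exact hδ δ le_rfl k hk.symm

theorem Lus.coin {y : W1 → C} (h : Lus y) (n : ℕ) : ∀ S : Set (Fin n → W1), ∃ T ⊆ S, T.Countable ∧
    ∀ b ∈ S, ∃ a ∈ T, ∀ i, toLex (y (a i)) ≤ toLex (y (b i)) := by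
  obtain ⟨δ0, h0⟩ := h.one (G := fun m => {v | ∃ k ≥ m, v k = false}) (fun m => by
      refine isOpen_iff_mem_nhds.2 fun v ⟨k, h1, h2⟩ => mem_of_superset
        ((cyl_open v (k + 1)).mem_nhds fun _ _ => rfl) fun w hw =>
          ⟨k, h1, (hw k (Nat.lt_succ_self k)).trans h2⟩)
    fun m => upd_dense fun u j => ⟨Function.update u (max m j) false, ⟨max m j, le_max_left _ _, by simp⟩,
      fun k hk => Function.update_of_ne (by omega) _ _⟩
  induction n with
  | zero =>
    intro S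
    exact ⟨S, Subset.rfl, (toFinite S).countable, fun b hb => ⟨b, hb, fun _ => le_rfl⟩⟩
  | succ n ih =>
    intro S
    have sub : ∀ (i : Fin (n + 1)) (P : Set (Fin (n + 1) → W1)), ∃ T ⊆ S ∩ P, T.Countable ∧
        ∀ b ∈ S ∩ P, ∃ a ∈ T, ∀ j, toLex (y (a (i.succAbove j))) ≤ toLex (y (b (i.succAbove j))) := by
      intro i P
      obtain ⟨T, h1, h2, h3⟩ := ih (i.removeNth '' (S ∩ P))
      choose g h4 h5 using fun t : T => h1 t.2
      have := h2.to_subtype
      refine ⟨range g, range_subset_iff.2 h4, countable_range g, fun b hb => ?_⟩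
      obtain ⟨a, ha, h6⟩ := h3 _ ⟨b, hb, rfl⟩
      refine ⟨g ⟨a, ha⟩, ⟨_, rfl⟩, fun j => ?_⟩
      have := congrFun (h5 ⟨a, ha⟩) j
      simp only [Fin.removeNth] at this
      rw [this]
      exact h6 j
    let Q : S → Set (Fin (n + 1) → C) := fun s => {w | ∀ i, toLex (y (s.1 i)) < toLex (w i)}
    have hQ : ∀ s, IsOpen (Q s) := fun s => by
      simp only [Q, Set.ofPred_forall]
      exact isOpen_iInter_of_finite fun i => (gt_open (y (s.1 i))).preimage (f := fun w : Fin (n + 1) → C => w i)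
        (continuous_apply i)
    obtain ⟨t, h1, h2⟩ := TopologicalSpace.isOpen_iUnion_countable Q hQ
    obtain ⟨δ, hδ⟩ := h _ ((⋃ s, Q s) ∪ (closure (⋃ s, Q s))ᶜ)
      ((isOpen_iUnion hQ).union isClosed_closure.isOpen_compl) (fun z => by
        by_cases hz : z ∈ closure (⋃ s, Q s)
        · exact closure_mono subset_union_left hz
        · exact subset_closure (Or.inr hz))
    choose t1 a1 a2 a3 using fun p : Fin (n + 1) × W1 => sub p.1 {b | b p.1 = p.2}
    choose t2 b1 b2 b3 using fun p : Fin (n + 1) × Fin n => sub p.1 {b | b p.1 = b (p.1.succAbove p.2)}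
    refine ⟨Subtype.val '' t ∪ ((⋃ p ∈ Set.univ ×ˢ Iio (max δ δ0), t1 p) ∪ ⋃ p, t2 p), ?_,
      (h1.image _).union (((countable_univ.prod (W1_Iio _)).biUnion fun p _ => a2 p).union
        (countable_iUnion b2)), fun b hb => ?_⟩
    · refine union_subset (by rintro _ ⟨s, -, rfl⟩; exact s.2) (union_subset
        (iUnion₂_subset fun p _ => (a1 p).trans inter_subset_left)
        (iUnion_subset fun p => (b1 p).trans inter_subset_left))
    by_cases c1 : ∃ i, b i < max δ δ0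
    · obtain ⟨i, hi⟩ := c1
      obtain ⟨a, h3, h4⟩ := a3 (i, b i) b ⟨hb, rfl⟩
      refine ⟨a, Or.inr (Or.inl (mem_biUnion (x := (i, b i)) ⟨mem_univ _, hi⟩ h3)), fun j => ?_⟩
      refine i.succAboveCases ?_ h4 j
      rw [show a i = b i from (a1 _ h3).2]
    push Not at c1
    by_cases c2 : Function.Injective b
    · rcases hδ b c2 (fun i => (le_max_left _ _).trans (c1 i)) with h3 | h3
      · rw [← h2] at h3
        obtain ⟨s, h4, h5⟩ := mem_iUnion₂.1 h3
        exact ⟨s.1, Or.inl ⟨s, h4, rfl⟩, fun i => (h5 i).le⟩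
      · refine absurd (closure_mono (subset_iUnion Q ⟨b, hb⟩) ?_) h3
        rw [show Q ⟨b, hb⟩ = Set.univ.pi fun i => {v | toLex (y (b i)) < toLex v} by
          ext w; simp [Q], closure_pi_set]
        intro i _
        rw [mem_closure_iff_nhds]
        intro U hU
        obtain ⟨m, hm⟩ := cyl_nb hU
        obtain ⟨k, h4, h5⟩ := h0 (b i) ((le_max_right _ _).trans (c1 i)) m
        refine ⟨Function.update (y (b i)) k true, hm _ fun j hj => Function.update_of_ne (by omega) _ _,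
          lt_iff.2 ⟨k, fun j hj => (Function.update_of_ne hj.ne _ _).symm, ?_⟩⟩
        simp [h5]
    · simp only [Function.Injective, not_forall] at c2
      obtain ⟨i, i', h3, h4⟩ := c2
      obtain ⟨j, rfl⟩ := Fin.exists_succAbove_eq (Ne.symm h4)
      obtain ⟨a, h5, h6⟩ := b3 (i, j) b ⟨hb, h3⟩
      refine ⟨a, Or.inr (Or.inr (mem_iUnion.2 ⟨_, h5⟩)), fun k => ?_⟩
      refine i.succAboveCases ?_ h6 k
      rw [show a i = a (i.succAbove j) from (b1 _ h5).2, h3]
      exact h6 j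

def So (y : W1 → C) : Type := ↥(range y)

open Classical in
noncomputable def emb (y : W1 → C) (z : So y) : ℕ ⊕ W1 → Bool :=
  Sum.elim z.1 fun α => decide (toLex (y α) ≤ toLex z.1)

noncomputable instance (y : W1 → C) : TopologicalSpace (So y) := .induced (emb y) inferInstance

lemma emb_emb (y : W1 → C) : IsEmbedding (emb y) :=
  ⟨⟨rfl⟩, fun _ _ h => Subtype.ext (funext fun n => congrFun h (.inl n))⟩

instance (y : W1 → C) : T35Space (So y) := (emb_emb y).t35Space

lemma cont_co (y : W1 → C) (i : ℕ ⊕ W1) : Continuous fun z => emb y z i :=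
  (continuous_apply i).comp (emb_emb y).continuous

lemma nb {y : W1 → C} {s : So y} {U : Set (So y)} (hU : U ∈ 𝓝 s) :
    ∃ m : ℕ, ∀ z : So y, (∀ k < m, z.1 k = s.1 k) → toLex s.1 ≤ toLex z.1 → z ∈ U := by
  classical
  rw [nhds_induced, nhds_pi, mem_comap] at hU
  obtain ⟨V, hV, hVU⟩ := hU
  obtain ⟨I, hI, t, ht, htV⟩ := Filter.mem_pi.1 hV
  have : ∀ i : ℕ ⊕ W1, ∃ m : ℕ, ∀ z : So y, (∀ k < m, z.1 k = s.1 k) → toLex s.1 ≤ toLex z.1 →
      emb y z i = emb y s i := by
    rintro (n | α)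
    · exact ⟨n + 1, fun z hz _ => hz n (Nat.lt_succ_self n)⟩
    · rcases le_or_gt (toLex (y α)) (toLex s.1) with h | h
      · exact ⟨0, fun z _ hz => by simp [emb, h, h.trans hz]⟩
      · obtain ⟨m, hm⟩ := lt_cyl h
        refine ⟨m, fun z hz _ => ?_⟩
        simp [emb, h.not_ge, (hm _ _ hz fun _ _ => rfl).not_ge]
  choose m hm using this
  obtain ⟨M, hM⟩ := (hI.image m).bddAbove
  refine ⟨M, fun z h1 h2 => hVU (htV fun i hi => ?_)⟩
  rw [hm i z (fun n hn => h1 n (hn.trans_le (hM ⟨i, hi, rfl⟩))) h2]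
  exact mem_of_mem_nhds (ht i)

theorem Lus.hl {y : W1 → C} (h : Lus y) (n : ℕ) : HereditarilyLindelofSpace (Fin n → So y) := by
  refine ⟨fun s _ => isLindelof_of_countable_subcover fun {ι} U hU hs => ?_⟩
  let p : (Fin n → W1) → Fin n → So y := fun b i => ⟨y (b i), b i, rfl⟩
  choose T h1 h2 h3 using fun q : Σ m : ℕ, Fin n → Fin m → Bool => h.coin n
    {b | (∀ i k, y (b i) k.1 = q.2 i k) ∧ ∃ a, ∀ z : Fin n → So y,
      (∀ i k, (z i).1 k.1 = q.2 i k) → (∀ i, toLex (y (b i)) ≤ toLex (z i).1) → z ∈ U a}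
  choose a ha using fun q (b : T q) => (h1 q b.2).2
  refine ⟨⋃ q, range (a q), countable_iUnion fun q => ?_, fun z hz => ?_⟩
  · have := (h2 q).to_subtype
    exact countable_range _
  choose b hb using fun i => (z i).2
  obtain ⟨j, hj⟩ := mem_iUnion.1 (hs hz)
  have h4 := (hU j).mem_nhds hj
  rw [nhds_pi, Filter.mem_pi] at h4
  obtain ⟨I, -, t, ht, htU⟩ := h4
  choose m hm using fun i => nb (ht i)
  obtain ⟨M, hM⟩ := (finite_range m).bddAbove
  obtain ⟨c, h5, h6⟩ := h3 ⟨M, fun i k => (z i).1 k⟩ b ⟨fun i k => by rw [hb], j, fun w h7 h8 =>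
    htU fun i _ => hm i (w i) (fun k hk => h7 i ⟨k, hk.trans_le (hM ⟨i, rfl⟩)⟩) (hb i ▸ h8 i)⟩
  refine mem_biUnion (mem_iUnion.2 ⟨_, ⟨c, h5⟩, rfl⟩) (ha _ ⟨c, h5⟩ z (fun _ _ => rfl) fun i => ?_)
  rw [← hb i]
  exact h6 i

lemma bad_cnt {y : W1 → C} {f : So y → ℝ} (hf : Continuous f) :
    {z : So y | ¬ ∀ ε > 0, ∃ m, ∀ w : So y, (∀ k < m, w.1 k = z.1 k) → |f w - f z| < ε}.Countable := by
  have key : ∀ ε > (0 : ℝ),
      {z : So y | ¬ ∃ m, ∀ w : So y, (∀ k < m, w.1 k = z.1 k) → |f w - f z| < ε}.Countable := by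
    intro ε hε
    have h1 : ∀ z : So y, ∃ m : ℕ, ∀ w : So y, (∀ k < m, w.1 k = z.1 k) → toLex z.1 ≤ toLex w.1 →
        |f w - f z| < ε / 2 := fun z =>
      nb ((isOpen_lt (hf.sub continuous_const).abs continuous_const).mem_nhds
        (show |f z - f z| < ε / 2 by simpa using hε))
    choose m hm using h1
    have h2 : ∀ a b : So y, m a = m b → (∀ k < m a, a.1 k = b.1 k) → toLex a.1 < toLex b.1 →
        ∃ m, ∀ w : So y, (∀ k < m, w.1 k = b.1 k) → |f w - f b| < ε := by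
      intro a b _ e hab
      obtain ⟨M, hM⟩ := lt_cyl hab
      refine ⟨max M (m a), fun w hw => ?_⟩
      have h3 := hm a w (fun k hk => (hw k (by omega)).trans (e k hk).symm)
        (hM _ _ (fun _ _ => rfl) fun k hk => hw k (by omega)).le
      have h4 := hm a b (fun k hk => (e k hk).symm) hab.le
      rw [abs_lt] at *
      constructor <;> linarith [h3.1, h3.2, h4.1, h4.2]
    refine MapsTo.countable_of_injOn
      (f := fun z : So y => (⟨m z, fun k => z.1 k⟩ : Σ m : ℕ, Fin m → Bool)) (mapsTo_univ _ _) ?_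
      countable_univ
    intro a ha b hb e
    have e1 : m a = m b := congrArg Sigma.fst e
    have e2 : ∀ k < m a, a.1 k = b.1 k := fun k hk => by
      have := congrArg (fun q : Σ m : ℕ, Fin m → Bool => if h : k < q.1 then q.2 ⟨k, h⟩ else false) e
      simpa [hk, e1 ▸ hk] using this
    rcases lt_trichotomy (toLex a.1) (toLex b.1) with h | h | h
    · exact absurd (h2 a b e1 e2 h) hb
    · exact Subtype.ext (toLex.injective h)
    · exact absurd (h2 b a e1.symm (fun k hk => (e2 k (e1 ▸ hk)).symm) h) ha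
  refine (countable_iUnion fun j : ℕ => key (1 / (j + 1 : ℝ)) Nat.one_div_pos_of_nat).mono ?_
  intro z hz
  by_contra hc
  refine hz fun ε hε => ?_
  obtain ⟨j, hj⟩ := exists_nat_one_div_lt hε
  obtain ⟨m, hm⟩ := not_not.1 fun h => hc (mem_iUnion.2 ⟨j, h⟩)
  exact ⟨m, fun w hw => (hm w hw).trans hj⟩

theorem Lus.hss {y : W1 → C} (h : Lus y) (S : Set (Cp (So y))) : ∃ D ⊆ S, D.Countable ∧
    ∀ f ∈ S, ∃ u : ℕ → Cp (So y), (∀ k, u k ∈ D) ∧ Tendsto u atTop (𝓝 f) := by
  classical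
  let P := (Σ m : ℕ, Fin m → Bool) × ℚ × ℚ
  let sat : Cp (So y) → P → Prop := fun f π =>
    ∀ z : So y, (∀ k, z.1 k.1 = π.1.2 k) → (π.2.1 : ℝ) < f.1 z ∧ f.1 z < π.2.2
  choose D h1 h2 h3 using fun T : Finset P => cp_hs h.hl {f ∈ S | ∀ π ∈ T, sat f π}
  refine ⟨⋃ T, D T, iUnion_subset fun T f hf => (h1 T hf).1, countable_iUnion h2, fun f hf => ?_⟩
  obtain ⟨ι, hι⟩ := idx (bad_cnt f.2)
  obtain ⟨κ, hκ⟩ := exists_injective_nat P
  have f1 : ∀ k, {π | κ π ≤ k ∧ sat f π}.Finite := fun k =>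
    (Finite.preimage hκ.injOn (finite_Iic k)).subset fun _ h => h.1
  have f2 : ∀ k, {z | (¬ ∀ ε > 0, ∃ m, ∀ w : So y, (∀ k < m, w.1 k = z.1 k) → |f.1 w - f.1 z| < ε) ∧
      ι z ≤ k}.Finite := fun k =>
    Finite.of_finite_image (f := ι) ((finite_Iic k).subset (by rintro _ ⟨β, h, rfl⟩; exact h.2))
      fun a ha b _ h => (hι a ha.1 b h.symm).symm
  choose u h4 h5 using fun k : ℕ => cl_near (h3 (f1 k).toFinset ⟨hf, fun π hπ =>
    ((f1 k).mem_toFinset.1 hπ).2⟩) (f2 k) (Nat.one_div_pos_of_nat (n := k))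
  refine ⟨u, fun k => mem_iUnion.2 ⟨_, h4 k⟩, ?_⟩
  rw [tendsto_subtype_rng, tendsto_pi_nhds]
  intro z
  rw [Metric.tendsto_atTop]
  intro ε hε
  by_cases hz : ∀ ε > 0, ∃ m, ∀ w : So y, (∀ k < m, w.1 k = z.1 k) → |f.1 w - f.1 z| < ε
  · obtain ⟨m, hm⟩ := hz (ε / 2) (half_pos hε)
    obtain ⟨p, p1, p2⟩ := exists_rat_btwn (show f.1 z - ε < f.1 z - ε / 2 by linarith)
    obtain ⟨q, q1, q2⟩ := exists_rat_btwn (show f.1 z + ε / 2 < f.1 z + ε by linarith)
    refine ⟨κ (⟨m, fun k => z.1 k⟩, p, q), fun k hk => ?_⟩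
    have h6 := (h1 _ (h4 k)).2 (⟨m, fun k => z.1 k⟩, p, q) ((f1 k).mem_toFinset.2 ⟨hk, fun w hw => by
      have := abs_lt.1 (hm w fun k hk => hw ⟨k, hk⟩)
      constructor <;> linarith [this.1, this.2]⟩) z fun _ => rfl
    rw [Real.dist_eq, abs_lt]
    constructor <;> linarith [h6.1, h6.2]
  · obtain ⟨j, hj⟩ := exists_nat_one_div_lt hε
    refine ⟨max j (ι z), fun k hk => (h5 k z ⟨hz, (le_max_right _ _).trans hk⟩).trans_le ?_⟩
    refine le_trans (one_div_le_one_div_of_le (by positivity) ?_) hj.le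
    have : (j : ℝ) ≤ k := by exact_mod_cast (le_max_left _ _).trans hk
    linarith

theorem Lus.no_net {y : W1 → C} (h : Lus y) {N : Set (Set (So y → ℝ))} (hN : N.Countable)
    (H : ∀ f : So y → ℝ, Continuous f → ∀ U : Set (So y → ℝ), IsOpen U → f ∈ U →
      ∃ n ∈ N, f ∈ n ∧ n ⊆ U) : False := by
  classical
  let c : So y → So y → ℝ := fun z w => if emb y w (.inr z.2.choose) = true then 1 else 0
  have hc : ∀ z w : So y, c z w = if toLex z.1 ≤ toLex w.1 then 1 else 0 := fun z w => by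
    simp [c, emb, z.2.choose_spec]
  choose n h1 h2 h3 using fun z : So y => H (c z)
    ((continuous_of_discreteTopology (f := fun b : Bool => if b = true then (1 : ℝ) else 0)).comp
      (cont_co y _)) {g | 0 < g z} (isOpen_lt continuous_const (continuous_apply z)) (by simp [hc])
  have h4 : ∀ a b, n a = n b → toLex b.1 ≤ toLex a.1 := fun a b e => by
    have := h3 a (e ▸ h2 b)
    by_contra h5
    simp [hc, h5] at this
  refine h.unc (countable_coe_iff.1 (countable_univ_iff.1 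
    (MapsTo.countable_of_injOn (f := n) (fun z _ => h1 z) ?_ hN)))
  exact fun a _ b _ e => Subtype.ext (toLex.injective ((h4 b a e.symm).antisymm (h4 a b e)))

end Pool.Agent.H30.Sor
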