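import Mathlib

set_option autoImplicit false

open Set Filter Topology Cardinal

namespace Pool.Agent.H30.Spl

inductive Hull {Ω : Type} (c : Finset Ω → Set Ω) (W : Set Ω) : Ω → Prop
  | base {x : Ω} : x ∈ W → Hull c W x
  | step {s : Finset Ω} {x : Ω} : (∀ y ∈ s, Hull c W y) → x ∈ c s → Hull c W x

lemma fin_bound {α β : Type} {Φ : Finset α → Set β} (hΦ : Monotone Φ) {D : Set α} (E : Finset β)
    (h : ∀ b ∈ E, ∃ F : Finset α, ↑F ⊆ D ∧ b ∈ Φ F) : ∃ F : Finset α, ↑F ⊆ D ∧ ↑E ⊆ Φ F := by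
  classical
  choose! F hF1 hF2 using h
  refine ⟨E.biUnion F, fun a ha => ?_, fun b hb => hΦ (Finset.subset_biUnion_of_mem F hb) (hF2 b hb)⟩
  obtain ⟨b, hb, ha⟩ := Finset.mem_biUnion.1 ha
  exact hF1 b hb ha

lemma Hull.mono {Ω : Type} {c : Finset Ω → Set Ω} {W W' : Set Ω} (h : W ⊆ W') {x : Ω}
    (hx : Hull c W x) : Hull c W' x := by
  induction hx with
  | base hx => exact Hull.base (h hx)
  | step _ hx ih => exact Hull.step ih hx

lemma Hull.fin {Ω : Type} {c : Finset Ω → Set Ω} {W : Set Ω} {x : Ω} (hx : Hull c W x) :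
    ∃ F : Finset Ω, ↑F ⊆ W ∧ Hull c ↑F x := by
  induction hx with
  | @base x hx => exact ⟨{x}, by simpa using hx, Hull.base (by simp)⟩
  | @step s x _ hx ih =>
    obtain ⟨F, hF, h⟩ := fin_bound (Φ := fun F : Finset Ω => {y | Hull c ↑F y})
      (fun F F' hh y hy => Hull.mono (Finset.coe_subset.2 hh) hy) s ih
    exact ⟨F, hF, Hull.step (fun y hy => h hy) hx⟩

lemma mk_finsets {Ω : Type} (W : Set Ω) : #{s : Finset Ω | ↑s ⊆ W} ≤ max #W ℵ₀ := by
  classical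
  have h1 : #{s : Finset Ω | ↑s ⊆ W} ≤ #(List W) := by
    refine mk_le_of_surjective (f := fun l : List W =>
      (⟨(l.map Subtype.val).toFinset, fun x hx => ?_⟩ : {s : Finset Ω | ↑s ⊆ W})) ?_
    · simp only [List.coe_toFinset, List.mem_map, mem_setOf_eq] at hx
      obtain ⟨y, -, rfl⟩ := hx
      exact y.2
    · rintro ⟨s, hs⟩
      refine ⟨s.attach.toList.map fun y => ⟨y.1, hs y.2⟩, Subtype.ext ?_⟩
      ext x
      simp
  exact h1.trans ((mk_list_le_max W).trans (max_comm _ _).le)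

lemma hull_small {Ω : Type} {κ : Cardinal.{0}} (hκ : κ.IsRegular) (h0 : ℵ₀ < κ)
    {c : Finset Ω → Set Ω} (hc : ∀ s, #(c s) < κ) {W : Set Ω} (hW : #W < κ) :
    #{x | Hull c W x} < κ := by
  let V : ℕ → Set Ω := fun n => Nat.rec W (fun _ U => U ∪ ⋃ s ∈ {s : Finset Ω | ↑s ⊆ U}, c s) n
  have hV : ∀ n : ℕ, #↥(V n) < κ := by
    intro n
    induction n with
    | zero => exact hW
    | succ n ih =>
      refine (mk_union_le _ _).trans_lt (add_lt_of_lt hκ.aleph0_le ih ?_)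
      exact (card_biUnion_lt_iff_forall_of_isRegular hκ
        ((mk_finsets _).trans_lt (max_lt ih h0))).2 fun s _ => hc s
  have hm : Monotone V := monotone_nat_of_le_succ fun n => subset_union_left
  have h1 : {x | Hull c W x} ⊆ ⋃ n, V n := by
    intro x hx
    induction hx with
    | base hx => exact mem_iUnion.2 ⟨0, hx⟩
    | @step s x _ hx ih =>
      have h2 : ∀ y ∈ s, ∃ n, y ∈ V n := fun y hy => mem_iUnion.1 (ih y hy)
      choose! n hn using h2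
      refine mem_iUnion.2 ⟨s.sup n + 1, Or.inr (mem_biUnion (x := s) (fun y hy => ?_) hx)⟩
      exact hm (Finset.le_sup (f := n) hy) (hn y hy)
  refine (mk_le_mk_of_subset h1).trans_lt ?_
  exact (card_iUnion_lt_iff_forall_of_isRegular hκ (by simpa using h0)).2 hV

lemma hull_cnt {Ω : Type} {c : Finset Ω → Set Ω} (hc : ∀ s, (c s).Countable) {W : Set Ω}
    (hW : W.Countable) : {x | Hull c W x}.Countable := by
  rw [Cardinal.countable_iff_lt_aleph_one] at hW ⊢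
  exact hull_small isRegular_aleph_one aleph0_lt_aleph_one
    (fun s => (Cardinal.countable_iff_lt_aleph_one _).1 (hc s)) hW

lemma cnt_finsets {Ω : Type} {W : Set Ω} (hW : W.Countable) : {s : Finset Ω | ↑s ⊆ W}.Countable := by
  rw [← Cardinal.le_aleph0_iff_set_countable] at hW ⊢
  exact (mk_finsets W).trans (max_le hW le_rfl)

lemma mk_fin_union {α β : Type} {Φ : Finset α → Set β} (hΦ : ∀ F, (Φ F).Countable) {D : Set α}
    {κ : Cardinal.{0}} (hκ : ℵ₀ ≤ κ) (hD : #D ≤ κ) : #(⋃ F ∈ {s : Finset α | ↑s ⊆ D}, Φ F) ≤ κ := by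
  refine (mk_biUnion_le _ _).trans (mul_le_of_le hκ ((mk_finsets D).trans (max_le hD hκ)) ?_)
  exact ciSup_le' fun F => (Cardinal.le_aleph0_iff_set_countable.2 (hΦ F)).trans hκ

lemma sel {T Γ : Type} (v : T → Γ → ℝ) (S : Set T) (s : Finset Γ) :
    ∃ S' ⊆ S, S'.Countable ∧ ∀ t ∈ S, ∀ ε : ℝ, 0 < ε → ∃ t' ∈ S', ∀ γ ∈ s, |v t' γ - v t γ| < ε := by
  let w : T → (s → ℝ) := fun t γ => v t γ
  obtain ⟨U, hU1, hU2, hU3⟩ :=
    (TopologicalSpace.IsSeparable.of_separableSpace (w '' S)).exists_countable_dense_subset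
  have h1 : ∀ u : U, ∃ t ∈ S, w t = u := fun u => hU1 u.2
  choose τ hτ1 hτ2 using h1
  haveI := hU2.to_subtype
  refine ⟨range τ, by rintro _ ⟨u, rfl⟩; exact hτ1 u, countable_range τ, fun t ht ε hε => ?_⟩
  obtain ⟨u, hu, hd⟩ := Metric.mem_closure_iff.1 (hU3 ⟨t, ht, rfl⟩) ε hε
  refine ⟨τ ⟨u, hu⟩, ⟨_, rfl⟩, fun γ hγ => ?_⟩
  have h2 := lt_of_le_of_lt (dist_le_pi_dist (w t) u ⟨γ, hγ⟩) hd
  rw [Real.dist_eq, abs_sub_comm] at h2
  have h3 : v (τ ⟨u, hu⟩) γ = u ⟨γ, hγ⟩ := congrFun (hτ2 ⟨u, hu⟩) ⟨γ, hγ⟩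
  rw [h3]
  exact h2

lemma exact_of_approx {T Γ : Type} [TopologicalSpace T] (v : T → Γ → ℝ) {K : Set T}
    (hK : IsCompact K) {H : Set Γ} (hv : ∀ γ ∈ H, Continuous fun t => v t γ) (a : Γ → ℝ)
    (h : ∀ E : Finset Γ, ↑E ⊆ H → ∀ ε : ℝ, 0 < ε → ∃ t ∈ K, ∀ γ ∈ E, |v t γ - a γ| < ε) :
    ∃ t ∈ K, ∀ γ ∈ H, v t γ = a γ := by
  classical
  obtain ⟨t, ht, h1⟩ := hK.inter_iInter_nonempty
    (fun q : H × ℕ => {t | |v t q.1 - a q.1| ≤ 1 / ((q.2 : ℝ) + 1)})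
    (fun q => isClosed_le ((hv _ q.1.2).sub continuous_const).abs continuous_const) (by
      intro u
      obtain ⟨t, ht, h2⟩ := h (u.image fun q => q.1.1) (by
        intro γ hγ
        obtain ⟨q, -, rfl⟩ := Finset.mem_image.1 hγ
        exact q.1.2) (1 / (((u.sup fun q => q.2 : ℕ) : ℝ) + 1)) Nat.one_div_pos_of_nat
      refine ⟨t, ht, mem_iInter₂.2 fun q hq => ?_⟩
      exact (h2 _ (Finset.mem_image_of_mem _ hq)).le.trans
        (Nat.one_div_le_one_div (Finset.le_sup (f := fun q : H × ℕ => q.2) hq)))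
  refine ⟨t, ht, fun γ hγ => ?_⟩
  have h2 : |v t γ - a γ| ≤ 0 :=
    ge_of_tendsto' (tendsto_one_div_add_atTop_nhds_zero_nat (𝕜 := ℝ))
      fun n => mem_iInter.1 h1 (⟨γ, hγ⟩, n)
  exact sub_eq_zero.1 (abs_nonpos_iff.1 h2)

lemma approx_of_closure {T Γ : Type} [TopologicalSpace T] (v : T → Γ → ℝ) {A : Set T} {x : T}
    (hx : x ∈ closure A) (E : Finset Γ) (hv : ∀ γ ∈ E, Continuous fun t => v t γ) {ε : ℝ}
    (hε : 0 < ε) : ∃ a ∈ A, ∀ γ ∈ E, |v a γ - v x γ| < ε := by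
  have h1 : IsOpen (⋂ γ ∈ E, {t | |v t γ - v x γ| < ε}) :=
    isOpen_biInter_finset fun γ hγ => isOpen_lt ((hv γ hγ).sub continuous_const).abs continuous_const
  obtain ⟨a, ha1, ha2⟩ := mem_closure_iff.1 hx _ h1 (mem_iInter₂.2 fun γ _ => by simpa using hε)
  exact ⟨a, ha2, fun γ hγ => mem_iInter₂.1 ha1 γ hγ⟩

lemma wf_rec {T β : Type} [LinearOrder T] [WellFoundedLT T] [Nonempty β]
    (Q : T → (T → β) → β → Prop) (hQ : ∀ ξ f, ∃ b, Q ξ f b)
    (hloc : ∀ ξ f g b, (∀ η < ξ, f η = g η) → Q ξ f b → Q ξ g b) : ∃ f, ∀ ξ, Q ξ f (f ξ) := by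
  classical
  choose q hq using hQ
  let F : ∀ ξ : T, (∀ η, η < ξ → β) → β := fun ξ r =>
    q ξ fun η => if h : η < ξ then r η h else Classical.arbitrary β
  let f : T → β := (wellFounded_lt (α := T)).fix F
  refine ⟨f, fun ξ => ?_⟩
  have h1 : f ξ = F ξ fun η _ => f η := WellFounded.fix_eq _ F ξ
  rw [h1]
  exact hloc ξ _ _ _ (fun η hη => by simp [hη]) (hq ξ _)

variable {X : Type} [TopologicalSpace X]

def Sep (H : Set C(X, ℝ)) (Y : Set X) : Prop :=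
  ∀ y ∈ Y, ∀ y' ∈ Y, (∀ h ∈ H, h y = h y') → y = y'

def Dec (A : Set X) (Φ : Finset X → Set C(X, ℝ)) : Prop :=
  (∀ F, (Φ F).Countable) ∧ ∀ D : Set X, ∀ y ∈ closure D, ∀ y' ∈ closure D,
    (∀ F : Finset X, ↑F ⊆ D → ∀ h ∈ Φ F, h y = h y') → (y ∈ A ↔ y' ∈ A)

def Spl (X : Type) [TopologicalSpace X] : Prop := ∀ A : Set X, ∃ Φ, Dec A Φ

def Cor (X : Type) [TopologicalSpace X] : Prop :=
  ∃ G : Set C(X, ℝ), Sep G univ ∧ ∀ x, {g | g ∈ G ∧ g x ≠ 0}.Countable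

def Tight (X : Type) [TopologicalSpace X] : Prop :=
  ∀ (A : Set X) (x : X), x ∈ closure A → ∃ B ⊆ A, B.Countable ∧ x ∈ closure B

lemma Dec.mono {A : Set X} {Φ : Finset X → Set C(X, ℝ)} (h : Dec A Φ) :
    ∃ Ψ, Dec A Ψ ∧ Monotone Ψ := by
  refine ⟨fun s => ⋃ F ∈ s.powerset, Φ F, ⟨fun s => (Finset.countable_toSet _).biUnion fun F _ => h.1 F,
    fun D y hy y' hy' hh => h.2 D y hy y' hy' fun F hF g hg => hh F hF g ?_⟩, fun s t hst g hg => ?_⟩
  · exact mem_biUnion (Finset.mem_powerset_self F) hg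
  · obtain ⟨F, hF, hg⟩ := mem_iUnion₂.1 hg
    exact mem_biUnion (Finset.powerset_mono.2 hst hF) hg

lemma tight_of (hS : ∀ x : X, ∃ Φ, Dec {x} Φ)
    (hc : ∀ B : Set X, B.Countable → IsCompact (closure B)) : Tight X := by
  classical
  intro A x hx
  obtain ⟨Φ0, hΦ0⟩ := hS x
  obtain ⟨Φ, hΦ, hm⟩ := hΦ0.mono
  choose S hS1 hS2 hS3 using fun E : Finset C(X, ℝ) => sel (fun (t : X) (h : C(X, ℝ)) => h t) A E
  let c : Finset X → Set X := fun s => ⋃ E ∈ {E : Finset C(X, ℝ) | ↑E ⊆ Φ (insert x s)}, S E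
  have hc1 : ∀ s, (c s).Countable := fun s => (cnt_finsets (hΦ.1 _)).biUnion fun E _ => hS2 E
  let B : Set X := {y | Hull c ∅ y}
  have hB : B.Countable := hull_cnt hc1 countable_empty
  have hBA : B ⊆ A := by
    intro y hy
    induction hy with
    | base h => exact h.elim
    | step _ hy _ =>
      obtain ⟨E, -, hy⟩ := mem_iUnion₂.1 hy
      exact hS1 E hy
  obtain ⟨z, hz, hz2⟩ := exact_of_approx (fun (t : X) (h : C(X, ℝ)) => h t) (hc B hB)
    (H := {h | ∃ F : Finset X, ↑F ⊆ B ∧ h ∈ Φ (insert x F)}) (fun h _ => h.continuous) (fun h => h x) (by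
      intro E hE ε hε
      obtain ⟨F, hF, hEF⟩ := fin_bound (Φ := fun F => Φ (insert x F))
        (fun F F' hh => hm (Finset.insert_subset_insert x hh)) E fun b hb => hE hb
      obtain ⟨a, ha, ha2⟩ := approx_of_closure (fun (t : X) (h : C(X, ℝ)) => h t) hx E
        (fun h _ => h.continuous) (half_pos hε)
      obtain ⟨b, hb, hb2⟩ := hS3 E a ha _ (half_pos hε)
      refine ⟨b, subset_closure (Hull.step (fun y hy => hF hy) (mem_biUnion hEF hb)), fun g hg => ?_⟩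
      have h1 := abs_lt.1 (ha2 g hg)
      have h2 := abs_lt.1 (hb2 g hg)
      rw [abs_lt]
      constructor <;> linarith [h1.1, h1.2, h2.1, h2.2])
  refine ⟨B, hBA, hB, ?_⟩
  have h3 : z ∈ ({x} : Set X) := by
    refine (hΦ.2 (insert x B) z (closure_mono (subset_insert _ _) hz) x
      (subset_closure (mem_insert _ _)) fun F hF g hg => hz2 g ⟨F.erase x, fun y hy => ?_, ?_⟩).2 rfl
    · have h4 := Finset.mem_erase.1 hy
      exact (hF h4.2).resolve_left h4.1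
    · exact hm (Finset.subset_insert_iff.2 (Finset.Subset.refl _)) hg
  rw [← h3]
  exact hz

lemma weight (hS : Spl X) {κ : Cardinal.{0}} (hκ : ℵ₀ ≤ κ) {D : Set X} (hD : #D ≤ κ) :
    ∃ H : Set C(X, ℝ), #H ≤ κ ∧ Sep H (closure D) := by
  classical
  have h1 : ∀ A : Set X, ∃ S : Set C(X, ℝ), #S ≤ κ ∧ ∀ y ∈ closure D, ∀ y' ∈ closure D,
      (∀ h ∈ S, h y = h y') → (y ∈ A ↔ y' ∈ A) := by
    intro A
    obtain ⟨Φ, hΦ⟩ := hS A
    exact ⟨_, mk_fin_union hΦ.1 hκ hD, fun y hy y' hy' h =>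
      hΦ.2 D y hy y' hy' fun F hF g hg => h g (mem_biUnion hF hg)⟩
  choose S hS1 hS2 using h1
  have h2 : ∀ x : X, ∃ u : κ.out → C(X, ℝ), S {x} ⊆ range u := by
    intro x
    obtain ⟨j⟩ : Nonempty (S {x} ↪ κ.out) := by
      rw [← Cardinal.le_def, mk_out]
      exact hS1 _
    refine ⟨fun t => if h : ∃ s, j s = t then h.choose.1 else 0, fun g hg => ⟨j ⟨g, hg⟩, ?_⟩⟩
    have h3 : ∃ s, j s = j ⟨g, hg⟩ := ⟨_, rfl⟩
    simp only [dif_pos h3]
    rw [j.injective h3.choose_spec]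
  choose u hu using h2
  have h4 : #(closure D) ≤ #(Set κ.out) := by
    have h5 : #(closure D) ≤ #(κ.out → (D → ℝ) × ℝ) := by
      refine mk_le_of_injective (f := fun x t => (fun d => u x.1 t d.1, u x.1 t x.1)) ?_
      intro x y hxy
      apply Subtype.ext
      refine ((hS2 {x.1} y.1 y.2 x.1 x.2 fun g hg => ?_).2 rfl).symm
      obtain ⟨t, rfl⟩ := hu _ hg
      have h6 := congrFun hxy t
      simp only [Prod.mk.injEq] at h6
      have h7 : EqOn (u x.1 t) (u y.1 t) (closure D) :=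
        EqOn.closure (fun d hd => congrFun h6.1 ⟨d, hd⟩) (u x.1 t).continuous (u y.1 t).continuous
      rw [h7 y.2, h6.2]
    refine h5.trans ?_
    simp only [mk_pi, prod_const, lift_id, mk_prod, mk_real, mk_out, mk_set]
    have h8 : 𝔠 ^ #D ≤ 2 ^ κ := by
      calc 𝔠 ^ #D ≤ 𝔠 ^ κ := power_le_power_left continuum_ne_zero hD
        _ = 2 ^ κ := by
          rw [← two_power_aleph0, ← power_mul, mul_eq_right hκ hκ aleph0_ne_zero]
    have h9 : 𝔠 ≤ 2 ^ κ := by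
      rw [← two_power_aleph0]
      exact power_le_power_left two_ne_zero hκ
    have h10 : ℵ₀ ≤ 2 ^ κ := hκ.trans (cantor κ).le
    calc (𝔠 ^ #D * 𝔠) ^ κ ≤ (2 ^ κ) ^ κ := power_le_power_right (mul_le_of_le h10 h8 h9)
      _ = 2 ^ κ := by rw [← power_mul, mul_eq_self hκ]
  obtain ⟨j⟩ := (Cardinal.le_def _ _).1 h4
  let A : κ.out → Set X := fun t => {x | ∃ h : x ∈ closure D, t ∈ j ⟨x, h⟩}
  refine ⟨⋃ t, S (A t), (mk_iUnion_le _).trans (mul_le_of_le hκ (mk_out κ).le (ciSup_le' fun t => hS1 _)),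
    fun y hy y' hy' h => ?_⟩
  have h11 : j ⟨y, hy⟩ = j ⟨y', hy'⟩ := by
    ext t
    have h12 := hS2 (A t) y hy y' hy' fun g hg => h g (mem_iUnion.2 ⟨t, hg⟩)
    exact ⟨fun hh => (h12.1 ⟨hy, hh⟩).2, fun hh => (h12.2 ⟨hy', hh⟩).2⟩
  exact congrArg Subtype.val (j.injective h11)

lemma determ [CompactSpace X] {H : Set C(X, ℝ)} (hH : Sep H univ) (g : C(X, ℝ)) :
    ∃ S ⊆ H, S.Countable ∧ ∀ y y', (∀ h ∈ S, h y = h y') → g y = g y' := by
  have h1 : ∀ n : ℕ, ∃ E : Finset H, ∀ y y', (∀ h ∈ E, h.1 y = h.1 y') →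
      |g y - g y'| < 1 / ((n : ℝ) + 1) := by
    intro n
    have hK : IsCompact {p : X × X | 1 / ((n : ℝ) + 1) ≤ |g p.1 - g p.2|} :=
      (isClosed_le continuous_const (by fun_prop)).isCompact
    obtain ⟨E, hE⟩ := hK.elim_finite_subcover (fun h : H => {p : X × X | h.1 p.1 ≠ h.1 p.2})
      (fun h => isOpen_ne_fun (by fun_prop) (by fun_prop)) (by
        intro p hp
        by_contra hcon
        have h2 : p.1 = p.2 := hH _ trivial _ trivial fun h hh => by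
          by_contra h3
          exact hcon (mem_iUnion.2 ⟨⟨h, hh⟩, h3⟩)
        have h4 : 1 / ((n : ℝ) + 1) ≤ |g p.1 - g p.2| := hp
        rw [h2, sub_self, abs_zero] at h4
        exact absurd h4 (not_le.2 Nat.one_div_pos_of_nat))
    refine ⟨E, fun y y' h => ?_⟩
    by_contra hcon
    obtain ⟨k, hk, h5⟩ := mem_iUnion₂.1 (hE (show (y, y') ∈ _ from not_lt.1 hcon))
    exact h5 (h k hk)
  choose E hE using h1
  refine ⟨⋃ n, Subtype.val '' (E n : Set H), ?_,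
    countable_iUnion fun n => (Finset.countable_toSet _).image _, fun y y' h => ?_⟩
  · intro k hk
    obtain ⟨n, k', -, rfl⟩ := mem_iUnion.1 hk
    exact k'.2
  · have h2 : |g y - g y'| ≤ 0 :=
      ge_of_tendsto' (tendsto_one_div_add_atTop_nhds_zero_nat (𝕜 := ℝ))
        fun n => (hE n y y' fun k hk => h k.1 (mem_iUnion.2 ⟨n, k, hk, rfl⟩)).le
    exact sub_eq_zero.1 (abs_nonpos_iff.1 h2)

end Pool.Agent.H30.Spl
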