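import Pool.Agent.H30.SplA

set_option autoImplicit false

open Set Filter Topology Cardinal

namespace Pool.Agent.H30.Spl

variable {X : Type} [TopologicalSpace X]

lemma retr [T2Space X] {Y : Set X} (hY : IsCompact Y) {H : Set C(X, ℝ)} (hs : Sep H Y)
    (hd : ∀ x, ∃ z ∈ Y, ∀ h ∈ H, h z = h x) :
    ∃ r : C(X, X), ∀ x, r x ∈ Y ∧ ∀ h ∈ H, h (r x) = h x := by
  choose r hr1 hr2 using hd
  refine ⟨⟨r, continuous_iff_ultrafilter.2 fun x 𝒰 h𝒰 => ?_⟩, fun x => ⟨hr1 x, hr2 x⟩⟩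
  obtain ⟨z, hz, hle⟩ := hY.ultrafilter_le_nhds (𝒰.map r)
    (le_principal_iff.2 (Filter.mem_map.2 (Eventually.of_forall hr1)))
  have h1 : z = r x := hs z hz _ (hr1 x) fun h hh => by
    have h2 : Tendsto (fun u => h (r u)) 𝒰 (𝓝 (h z)) := (h.continuous.tendsto z).comp hle
    have h3 : Tendsto (fun u => h (r u)) 𝒰 (𝓝 (h x)) := by
      simp only [hr2 _ h hh]
      exact (h.continuous.tendsto x).mono_left h𝒰
    rw [tendsto_nhds_unique h2 h3, hr2 x h hh]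
  rw [← h1]
  exact hle

lemma unc_init {I : Type} [LinearOrder I] [WellFoundedLT I] {T : Set I} (hT : ¬ T.Countable) :
    ∃ T' ⊆ T, ∀ B ⊆ T', B.Countable → ∃ i ∈ T', ∀ b ∈ B, b < i := by
  refine ⟨{i | i ∈ T ∧ (T ∩ Iio i).Countable}, fun i hi => hi.1, fun B hB hc => ?_⟩
  have h1 : (⋃ b ∈ B, T ∩ Iic b).Countable := hc.biUnion fun b hb => by
    refine (((hB hb).2).insert b).mono ?_
    rintro j ⟨hj, hj2⟩
    rcases eq_or_lt_of_le (mem_Iic.1 hj2) with h | h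
    · exact Or.inl h
    · exact Or.inr ⟨hj, h⟩
  have hne : (T \ ⋃ b ∈ B, T ∩ Iic b).Nonempty := by
    by_contra h
    exact hT (h1.mono (diff_eq_empty.1 (not_nonempty_iff_eq_empty.1 h)))
  obtain ⟨m, hm, hmin⟩ := (wellFounded_lt (α := I)).has_min _ hne
  refine ⟨m, ⟨hm.1, h1.mono fun j hj => ?_⟩, fun b hb => ?_⟩
  · by_contra h
    exact hmin j ⟨hj.1, h⟩ hj.2
  · by_contra h
    exact hm.2 (mem_biUnion hb ⟨hm.1, not_lt.1 h⟩)

theorem chain [CompactSpace X] [T2Space X] (ht : Tight X) {I : Type} [LinearOrder I] [WellFoundedLT I]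
    (Y : I → Set X) (H : I → Set C(X, ℝ)) (hYc : ∀ i, IsClosed (Y i)) (hY : Monotone Y)
    (hH : Monotone H) (hs : ∀ i, Sep (H i) (Y i)) (hd : ∀ i x, ∃ z ∈ Y i, ∀ h ∈ H i, h z = h x)
    (hc : ∀ i, (∀ j, i ≤ j) ∨ (∃ j < i, ∀ k < i, k ≤ j) ∨ ∀ h ∈ H i, ∃ j < i, h ∈ H j)
    (tot : Sep (⋃ i, H i) univ) (G : I → Set C(X, ℝ)) (hG : ∀ i, Sep (G i) (Y i))
    (hGc : ∀ i, ∀ y ∈ Y i, {g | g ∈ G i ∧ g y ≠ 0}.Countable) : Cor X := by
  classical
  choose r hr using fun i => retr (hYc i).isCompact (hs i) (hd i)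
  have hr1 : ∀ i j x, j ≤ i → r j (r i x) = r j x := fun i j x hji =>
    hs j _ (hr j _).1 _ (hr j _).1 fun h hh => by
      rw [(hr j _).2 h hh, (hr j _).2 h hh, (hr i _).2 h (hH hji hh)]
  have hr2 : ∀ i, ∀ y ∈ Y i, r i y = y := fun i y hy => hs i _ (hr i _).1 _ hy (hr i y).2
  let p : I → I := fun i => if h : ∃ j < i, ∀ k < i, k ≤ j then h.choose else i
  have hp : ∀ i, p i ≤ i := by
    intro i
    by_cases h : ∃ j < i, ∀ k < i, k ≤ j
    · simp only [p, dif_pos h]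
      exact h.choose_spec.1.le
    · simp only [p, dif_neg h, le_refl]
  have hp2 : ∀ i, (∃ j < i, ∀ k < i, k ≤ j) → p i < i := by
    intro i h
    simp only [p, dif_pos h]
    exact h.choose_spec.1
  have hp3 : ∀ i, p i ≠ i → ∀ k < i, k ≤ p i := by
    intro i hi
    by_cases h : ∃ j < i, ∀ k < i, k ≤ j
    · simp only [p, dif_pos h]
      exact h.choose_spec.2
    · simp only [p, dif_neg h] at hi
      exact (hi rfl).elim
  have hT : ∀ x, {i | r (p i) x ≠ r i x}.Countable := by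
    intro x
    by_contra hcon
    obtain ⟨T, hT1, hT2⟩ := unc_init hcon
    obtain ⟨i0, hi0, -⟩ := hT2 ∅ (empty_subset _) countable_empty
    haveI : Nonempty T := ⟨⟨i0, hi0⟩⟩
    obtain ⟨w, hw⟩ := IsCompact.nonempty_iInter_of_directed_nonempty_isCompact_isClosed
      (fun i : T => closure ((fun j => r j x) '' {j | j ∈ T ∧ i.1 ≤ j}))
      (directed_of_isDirected_le fun i j hij => closure_mono (image_mono fun k hk => ⟨hk.1, le_trans hij hk.2⟩))
      (fun i => ⟨_, subset_closure ⟨i.1, ⟨i.2, le_rfl⟩, rfl⟩⟩) (fun i => isClosed_closure.isCompact)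
      fun i => isClosed_closure
    have h1 : ∀ i ∈ T, r i w = r i x := by
      intro i hi
      refine closure_minimal (t := {u | r i u = r i x}) ?_
        (isClosed_eq (r i).continuous continuous_const) (mem_iInter.1 hw ⟨i, hi⟩)
      rintro _ ⟨j, hj, rfl⟩
      exact hr1 j i x hj.2
    obtain ⟨B, hB1, hB2, hB3⟩ := ht _ w (mem_iInter.1 hw ⟨i0, hi0⟩)
    have h2 : ∀ b : B, ∃ j ∈ T, r j x = b := fun b => by
      obtain ⟨j, hj, h⟩ := hB1 b.2
      exact ⟨j, hj.1, h⟩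
    choose τ hτ1 hτ2 using h2
    haveI := hB2.to_subtype
    obtain ⟨i1, hi1, h3⟩ := hT2 (range τ) (by rintro _ ⟨b, rfl⟩; exact hτ1 b) (countable_range τ)
    have h4 : w ∈ Y i1 := by
      refine closure_minimal (fun b hb => ?_) (hYc i1) hB3
      have := hY (h3 _ ⟨⟨b, hb⟩, rfl⟩).le (hr (τ ⟨b, hb⟩) x).1
      rwa [hτ2] at this
    obtain ⟨i2, hi2, h5⟩ := hT2 {i1} (by simpa using hi1) (countable_singleton _)
    have h6 : i1 < i2 := h5 i1 rfl
    have h7 : r (p i2) x ≠ r i2 x := hT1 hi2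
    have h8 : i1 ≤ p i2 := hp3 i2 (fun h => h7 (by rw [h])) i1 h6
    apply h7
    rw [← hr1 i2 (p i2) x (hp i2), ← h1 i2 hi2, hr2 i2 w (hY h6.le h4), hr2 _ w (hY h8 h4)]
  refine ⟨{φ | ∃ i, ∃ g ∈ G i, φ = g.comp (r i) - g.comp (r (p i))} ∪
    {φ | ∃ i, (∀ j, i ≤ j) ∧ ∃ g ∈ G i, φ = g.comp (r i)}, fun x _ y _ h => ?_, fun x => ?_⟩
  · have h1 : ∀ i, r i x = r i y := by
      intro i
      induction i using WellFoundedLT.induction with
      | ind i ih =>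
        rcases hc i with h2 | h2 | h2
        · exact hG i _ (hr i x).1 _ (hr i y).1 fun g hg => h _ (Or.inr ⟨i, h2, g, hg, rfl⟩)
        · refine hG i _ (hr i x).1 _ (hr i y).1 fun g hg => ?_
          have h3 := h _ (Or.inl ⟨i, g, hg, rfl⟩)
          simp only [ContinuousMap.sub_apply, ContinuousMap.comp_apply] at h3
          rw [ih _ (hp2 i h2)] at h3
          linarith
        · refine hs i _ (hr i x).1 _ (hr i y).1 fun g hg => ?_
          obtain ⟨j, hj, hg2⟩ := h2 g hg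
          rw [(hr i x).2 g hg, (hr i y).2 g hg, ← (hr j x).2 g hg2, ← (hr j y).2 g hg2, ih j hj]
    refine tot x trivial y trivial fun g hg => ?_
    obtain ⟨i, hg⟩ := mem_iUnion.1 hg
    rw [← (hr i x).2 g hg, ← (hr i y).2 g hg, h1]
  · have h1 : {i : I | ∀ j, i ≤ j}.Countable :=
      Set.Subsingleton.countable fun i hi j hj => le_antisymm (hi j) (hj i)
    refine (((hT x).biUnion fun i _ => ((hGc i _ (hr i x).1).union
      (hGc i _ (hY (hp i) (hr (p i) x).1))).image fun g => g.comp (r i) - g.comp (r (p i))).union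
      (h1.biUnion fun i _ => (hGc i _ (hr i x).1).image fun g => g.comp (r i))).mono ?_
    rintro φ ⟨⟨i, g, hg, rfl⟩ | ⟨i, hi, g, hg, rfl⟩, h2⟩
    · simp only [ContinuousMap.sub_apply, ContinuousMap.comp_apply] at h2
      refine Or.inl (mem_biUnion (x := i) (fun h3 => h2 (by rw [h3, sub_self])) ⟨g, ?_, rfl⟩)
      by_contra h3
      simp only [mem_union, mem_setOf_eq, hg, true_and, not_or, not_not] at h3
      exact h2 (by rw [h3.1, h3.2, sub_self])
    · exact Or.inr (mem_biUnion hi ⟨g, ⟨hg, h2⟩, rfl⟩)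

lemma Spl.sub (hS : Spl X) {Y : Set X} : Spl Y := by
  classical
  intro A
  obtain ⟨Φ, hΦ⟩ := hS (Subtype.val '' A)
  refine ⟨fun F => (fun h : C(X, ℝ) => h.restrict Y) '' Φ (F.image Subtype.val),
    fun F => (hΦ.1 _).image _, fun D y hy y' hy' h => ?_⟩
  have h1 := hΦ.2 (Subtype.val '' D) y.1 (image_closure_subset_closure_image continuous_subtype_val
    ⟨y, hy, rfl⟩) y'.1 (image_closure_subset_closure_image continuous_subtype_val ⟨y', hy', rfl⟩) (by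
      intro F hF g hg
      obtain ⟨F', hF', rfl⟩ := Finset.subset_set_image_iff.1 hF
      exact h F' hF' _ ⟨g, hg, rfl⟩)
  simpa using h1

lemma Cor.ext [CompactSpace X] [T2Space X] {Y : Set X} (hY : IsClosed Y) (h : Cor Y) :
    ∃ G : Set C(X, ℝ), Sep G Y ∧ ∀ y ∈ Y, {g | g ∈ G ∧ g y ≠ 0}.Countable := by
  obtain ⟨G, hG, hc⟩ := h
  choose e he using fun g : C(Y, ℝ) => g.exists_restrict_eq hY
  have h1 : ∀ g (y : Y), e g y = g y := fun g y => by
    conv_rhs => rw [← he g]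
    rfl
  refine ⟨e '' G, fun y hy y' hy' h => congrArg Subtype.val
    (hG ⟨y, hy⟩ trivial ⟨y', hy'⟩ trivial fun g hg => ?_), fun y hy => ((hc ⟨y, hy⟩).image e).mono ?_⟩
  · rw [← h1, ← h1]
    exact h _ ⟨g, hg, rfl⟩
  · rintro _ ⟨⟨g, hg, rfl⟩, h2⟩
    exact ⟨g, ⟨hg, by rwa [← h1]⟩, rfl⟩

lemma club {I : Type} [LinearOrder I] [WellFoundedLT I] {κ : Cardinal.{0}} (hκ : κ.IsRegular)
    (h0 : ℵ₀ < κ) (hI : κ ≤ #I) (hI2 : ∀ i : I, #(Iio i) < κ) {c : Finset I → Set I}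
    (hc : ∀ s, #(c s) < κ) (a : I) : ∃ b, a < b ∧ ∀ s : Finset I, ↑s ⊆ Iio b → c s ⊆ Iio b := by
  let c' : Finset I → Set I := fun s => c s ∪ ⋃ i ∈ s, Iio i
  have h1 : #{x | Hull c' {a} x} < κ := by
    refine hull_small hκ h0 (fun s => (mk_union_le _ _).trans_lt (add_lt_of_lt hκ.aleph0_le (hc s) ?_))
      (by simpa using one_lt_aleph0.trans h0)
    exact (card_biUnion_lt_iff_forall_of_isRegular (s := (s : Set I)) (t := fun i _ => Iio i) hκ
      ((Finset.finite_toSet s).lt_aleph0.trans h0)).2 fun i _ => hI2 i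
  have hne : {x | Hull c' {a} x}ᶜ.Nonempty := by
    by_contra h
    rw [not_nonempty_iff_eq_empty, compl_empty_iff] at h
    rw [h, mk_univ] at h1
    exact absurd hI (not_le.2 h1)
  obtain ⟨b, hb, hmin⟩ := (wellFounded_lt (α := I)).has_min _ hne
  have h2 : ∀ x, Hull c' {a} x → x < b := by
    intro x hx
    by_contra h
    rcases eq_or_lt_of_le (not_lt.1 h) with h3 | h3
    · exact hb (h3 ▸ hx)
    · exact hb (Hull.step (s := {x}) (by simpa using hx) (Or.inr (by simpa using h3)))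
  refine ⟨b, h2 a (Hull.base rfl), fun s hs x hx => h2 x (Hull.step (fun y hy => ?_) (Or.inl hx))⟩
  by_contra h
  exact hmin y h (hs hy)

lemma club_cont {I : Type} [LinearOrder I] [WellFoundedLT I] (c : Finset I → Set I)
    (i : {b : I // ∀ s : Finset I, ↑s ⊆ Iio b → c s ⊆ Iio b}) :
    (∀ j, i ≤ j) ∨ (∃ j < i, ∀ k < i, k ≤ j) ∨
      ∀ ξ < i.1, ∃ j : {b : I // ∀ s : Finset I, ↑s ⊆ Iio b → c s ⊆ Iio b}, j < i ∧ ξ < j.1 := by
  by_contra hcon
  simp only [not_or, not_forall, not_exists, not_and, not_le, not_lt] at hcon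
  obtain ⟨⟨j0, hj0⟩, h2, ξ, hξ, h3⟩ := hcon
  obtain ⟨δ, hδ, hmin⟩ := (wellFounded_lt (α := I)).has_min
    {γ | ∀ j : {b : I // ∀ s : Finset I, (s : Set I) ⊆ Iio b → c s ⊆ Iio b}, j < i → j.1 ≤ γ}
    ⟨ξ, fun j hj => h3 j hj⟩
  have hδξ : δ ≤ ξ := not_lt.1 (hmin ξ h3)
  have h4 : ∀ s : Finset I, ↑s ⊆ Iio δ → c s ⊆ Iio δ := by
    intro s hs
    have h5 : ∃ j : {b : I // ∀ s : Finset I, ↑s ⊆ Iio b → c s ⊆ Iio b}, j < i ∧ ↑s ⊆ Iio j.1 := by
      rcases s.eq_empty_or_nonempty with rfl | hne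
      · exact ⟨j0, hj0, by simp⟩
      · have h6 : s.max' hne < δ := hs (s.max'_mem hne)
        have h7 := fun h => hmin _ h h6
        simp only [mem_setOf_eq, not_forall, not_le, imp_false] at h7
        obtain ⟨j, hj, h8⟩ := h7
        exact ⟨j, hj, fun y hy => lt_of_le_of_lt (s.le_max' y hy) h8⟩
    obtain ⟨j, hj, h6⟩ := h5
    exact (j.2 s h6).trans (Iio_subset_Iio (hδ j hj))
  obtain ⟨k, hk, h5⟩ := h2 ⟨δ, h4⟩ (show δ < i.1 from lt_of_le_of_lt hδξ hξ)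
  exact absurd (hδ k hk) (not_le.2 h5)

lemma den_of [CompactSpace X] {D : Set X} (hD : Dense D) {S : Finset C(X, ℝ) → Set X}
    (hS : ∀ E, ∀ t ∈ D, ∀ ε : ℝ, 0 < ε → ∃ t' ∈ S E, ∀ g ∈ E, |g t' - g t| < ε)
    {D' : Set X} {H : Set C(X, ℝ)} (h : ∀ E : Finset C(X, ℝ), ↑E ⊆ H → S E ⊆ D') (x : X) :
    ∃ z ∈ closure D', ∀ g ∈ H, g z = g x := by
  refine exact_of_approx (fun (t : X) (h : C(X, ℝ)) => h t) isClosed_closure.isCompact
    (fun h _ => h.continuous) (fun h => h x) fun E hE ε hε => ?_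
  obtain ⟨a, ha, ha2⟩ := approx_of_closure (fun (t : X) (h : C(X, ℝ)) => h t) (hD x) E
    (fun h _ => h.continuous) (half_pos hε)
  obtain ⟨b, hb, hb2⟩ := hS E a ha _ (half_pos hε)
  refine ⟨b, subset_closure (h E hE hb), fun g hg => ?_⟩
  have h1 := abs_lt.1 (ha2 g hg)
  have h2 := abs_lt.1 (hb2 g hg)
  rw [abs_lt]
  constructor <;> linarith [h1.1, h1.2, h2.1, h2.2]

lemma enum {α T : Type} [Nonempty α] {S : Set α} {P : Set T} (h : #S ≤ #P) :
    ∃ e : T → α, S ⊆ e '' P := by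
  classical
  obtain ⟨j⟩ := (Cardinal.le_def _ _).1 h
  refine ⟨fun t => if h : ∃ s, (j s).1 = t then h.choose.1 else Classical.arbitrary α,
    fun g hg => ⟨j ⟨g, hg⟩, (j ⟨g, hg⟩).2, ?_⟩⟩
  have h3 : ∃ s, (j s).1 = (j ⟨g, hg⟩).1 := ⟨_, rfl⟩
  simp only [dif_pos h3]
  rw [j.injective (Subtype.ext h3.choose_spec)]

theorem regular_case [CompactSpace X] [T2Space X] [Nonempty X] (hS : Spl X) (ht : Tight X)
    {κ : Cardinal.{0}} (hκ : κ.IsRegular) (h0 : ℵ₀ < κ) {D : Set X} (hD : Dense D) (hDκ : #D ≤ κ)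
    (ih : ∀ D' : Set X, #D' < κ → ∃ G : Set C(X, ℝ), Sep G (closure D') ∧
      ∀ y ∈ closure D', {g | g ∈ G ∧ g y ≠ 0}.Countable) : Cor X := by
  classical
  let I := κ.ord.ToType
  have hI : #I = κ := mk_ord_toType κ
  obtain ⟨H, hH1, hH2⟩ := weight hS hκ.aleph0_le hDκ
  rw [hD.closure_eq] at hH2
  obtain ⟨d, hd⟩ := enum (P := (univ : Set I)) (S := D) (by rwa [mk_univ, hI])
  obtain ⟨h, hh⟩ := enum (P := (univ : Set I)) (S := H) (by rwa [mk_univ, hI])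
  rw [image_univ] at hd hh
  have hD' : Dense (range d) := hD.mono hd
  have hH' : Sep (range h) univ := fun y hy y' hy' h1 => hH2 y hy y' hy' fun g hg => h1 g (hh hg)
  have h1 : ∀ α : I, ∃ q : X × X, ¬ Sep (h '' Iio α) (closure (d '' Iio α)) →
      q.1 ∈ closure (d '' Iio α) ∧ q.2 ∈ closure (d '' Iio α) ∧ (∀ g ∈ h '' Iio α, g q.1 = g q.2) ∧
        q.1 ≠ q.2 := by
    intro α
    by_cases hs : Sep (h '' Iio α) (closure (d '' Iio α))
    · exact ⟨Classical.arbitrary _, fun h => (h hs).elim⟩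
    · simp only [Sep, not_forall] at hs
      obtain ⟨y, hy, y', hy', h2, h3⟩ := hs
      exact ⟨(y, y'), fun _ => ⟨hy, hy', h2, h3⟩⟩
  choose q hq using h1
  let Fr : Set I := {α | (q α).1 ≠ (q α).2 ∧ ∀ β < α, (q α).1 ≠ (q β).1 ∧ (q α).1 ≠ (q β).2 ∧
    (q α).2 ≠ (q β).1 ∧ (q α).2 ≠ (q β).2}
  let As : Set X := (fun α => (q α).1) '' Fr
  choose Φ0 hΦ0 using hS
  choose Φ hΦ hΦm using fun A => (hΦ0 A).mono
  have h2 : ∀ g : C(X, ℝ), ∃ J : Set I, J.Countable ∧ ∀ y y', (∀ i ∈ J, h i y = h i y') → g y = g y' := by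
    intro g
    obtain ⟨S, hS1, hS2, hS3⟩ := determ hH' g
    choose τ hτ using fun s : S => hS1 s.2
    haveI := hS2.to_subtype
    refine ⟨range τ, countable_range τ, fun y y' h3 => hS3 y y' fun k hk => ?_⟩
    have := h3 _ ⟨⟨k, hk⟩, rfl⟩
    rwa [hτ] at this
  choose J hJ1 hJ2 using h2
  choose S hS1 hS2 hS3 using fun E : Finset C(X, ℝ) =>
    sel (fun (t : X) (h : C(X, ℝ)) => h t) (range d) E
  have h3 : ∀ E : Finset C(X, ℝ), ∃ L : Set I, L.Countable ∧ S E ⊆ d '' L := by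
    intro E
    choose τ hτ using fun s : S E => hS1 E s.2
    haveI := (hS2 E).to_subtype
    exact ⟨range τ, countable_range τ, fun s hs => ⟨_, ⟨⟨s, hs⟩, rfl⟩, hτ _⟩⟩
  choose L hL1 hL2 using h3
  let c : Finset I → Set I := fun s => L (s.image h) ∪
    ⋃ A ∈ insert As ((fun β => {(q β).1}) '' (s : Set I) ∪ (fun β => {(q β).2}) '' (s : Set I)),
      ⋃ g ∈ Φ A (s.image d), J g
  have hc : ∀ s, (c s).Countable := fun s => (hL1 _).union
    (((((Finset.countable_toSet s).image _).union ((Finset.countable_toSet s).image _)).insert _).biUnion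
      fun A _ => ((hΦ A).1 _).biUnion fun g _ => hJ1 g)
  have hgood : ∀ b : I, (∀ s : Finset I, ↑s ⊆ Iio b → c s ⊆ Iio b) →
      Sep (h '' Iio b) (closure (d '' Iio b)) := by
    intro b hb
    by_contra hcon
    obtain ⟨hq1, hq2, hq3, hq4⟩ := hq b hcon
    have key : ∀ (A : Set X) (t : Finset I), ↑t ⊆ Iio b →
        A ∈ insert As ((fun β => {(q β).1}) '' (t : Set I) ∪ (fun β => {(q β).2}) '' (t : Set I)) →
        ((q b).1 ∈ A ↔ (q b).2 ∈ A) := by
      intro A t ht hA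
      refine (hΦ A).2 _ _ hq1 _ hq2 fun F hF g hg => hJ2 g _ _ fun i hi => hq3 _ ⟨i, ?_, rfl⟩
      obtain ⟨s, hs, rfl⟩ := Finset.subset_set_image_iff.1 hF
      refine hb (s ∪ t) (by simpa using ⟨hs, ht⟩) (Or.inr (mem_biUnion (x := A) ?_
        (mem_biUnion (hΦm A (Finset.image_subset_image Finset.subset_union_left) hg) hi)))
      rcases hA with h4 | ⟨β, hβ, h4⟩ | ⟨β, hβ, h4⟩
      · exact Or.inl h4
      · exact Or.inr (Or.inl ⟨β, Finset.mem_union_right s hβ, h4⟩)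
      · exact Or.inr (Or.inr ⟨β, Finset.mem_union_right s hβ, h4⟩)
    by_cases hfr : b ∈ Fr
    · obtain ⟨γ, hγ, h4⟩ := (key As ∅ (by simp) (Or.inl rfl)).1 ⟨b, hfr, rfl⟩
      rcases lt_trichotomy γ b with h5 | h5 | h5
      · exact (hfr.2 γ h5).2.2.1 h4.symm
      · exact hq4 (h5 ▸ h4)
      · exact (hγ.2 b h5).2.1 h4
    · apply hfr
      refine ⟨hq4, fun β hβ => ?_⟩
      have k1 := key {(q β).1} {β} (by simpa using hβ) (Or.inr (Or.inl ⟨β, by simp, rfl⟩))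
      have k2 := key {(q β).2} {β} (by simpa using hβ) (Or.inr (Or.inr ⟨β, by simp, rfl⟩))
      simp only [mem_singleton_iff] at k1 k2
      exact ⟨fun h => hq4 (h.trans (k1.1 h).symm), fun h => hq4 (h.trans (k2.1 h).symm),
        fun h => hq4 ((k1.2 h).trans h.symm), fun h => hq4 ((k2.2 h).trans h.symm)⟩
  have hsm : ∀ b : I, #(d '' Iio b) < κ := fun b => mk_image_le.trans_lt (mk_Iio_toType_ord_lt b)
  choose G hG1 hG2 using fun b : I => ih _ (hsm b)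
  refine chain ht (I := {b : I // ∀ s : Finset I, ↑s ⊆ Iio b → c s ⊆ Iio b})
    (fun b => closure (d '' Iio b.1)) (fun b => h '' Iio b.1) (fun _ => isClosed_closure)
    (fun a b hab => closure_mono (image_mono (Iio_subset_Iio hab)))
    (fun a b hab => image_mono (Iio_subset_Iio hab)) (fun b => hgood b.1 b.2)
    (fun b => den_of hD' hS3 fun E hE => ?_) (fun i => ?_) ?_ (fun b => G b.1) (fun b => hG1 b.1)
    fun b => hG2 b.1
  · obtain ⟨s, hs, rfl⟩ := Finset.subset_set_image_iff.1 hE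
    exact (hL2 _).trans (image_mono (subset_union_left.trans (b.2 s hs)))
  · rcases club_cont c i with h4 | h4 | h4
    · exact Or.inl h4
    · exact Or.inr (Or.inl h4)
    · refine Or.inr (Or.inr ?_)
      rintro _ ⟨ξ, hξ, rfl⟩
      obtain ⟨j, hj, h5⟩ := h4 ξ hξ
      exact ⟨j, hj, ξ, h5, rfl⟩
  · refine fun y hy y' hy' h4 => hH' y hy y' hy' ?_
    rintro _ ⟨ξ, rfl⟩
    obtain ⟨b, hb1, hb2⟩ := club hκ h0 hI.ge (fun i => mk_Iio_toType_ord_lt i)
      (fun s => (Cardinal.le_aleph0_iff_set_countable.2 (hc s)).trans_lt h0) ξ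
    exact h4 _ (mem_iUnion.2 ⟨⟨b, hb2⟩, ξ, hb1, rfl⟩)

end Pool.Agent.H30.Spl
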