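import Pool.Agent.H30.SplB

set_option autoImplicit false

open Set Filter Topology Cardinal

namespace Pool.Agent.H30.Spl

abbrev W1 : Type := (ℵ₁ : Cardinal.{0}).ord.ToType

lemma mk_W1 : #W1 = ℵ₁ := mk_ord_toType _

lemma W1_Iio (i : W1) : (Iio i).Countable :=
  (Cardinal.countable_iff_lt_aleph_one _).2 (mk_Iio_toType_ord_lt i)

lemma W1_bdd {B : Set W1} (hB : B.Countable) : ∃ i, ∀ b ∈ B, b < i := by
  have h1 : (⋃ b ∈ B, Iic b).Countable := hB.biUnion fun b _ => by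
    rw [← Iio_insert]
    exact (W1_Iio b).insert b
  have h2 : (⋃ b ∈ B, Iic b)ᶜ.Nonempty := by
    by_contra h
    rw [not_nonempty_iff_eq_empty, compl_empty_iff] at h
    rw [h, Cardinal.countable_iff_lt_aleph_one, mk_univ, mk_W1] at h1
    exact lt_irrefl _ h1
  obtain ⟨i, hi⟩ := h2
  refine ⟨i, fun b hb => ?_⟩
  by_contra h
  exact hi (mem_biUnion hb (not_lt.1 h))

instance : Nonempty W1 := by
  rw [← mk_ne_zero_iff, mk_W1]
  exact (aleph_pos 1).ne'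

lemma matrix {Ω I J : Type} [Nonempty Ω] (P : I → Set J) (B : I → Set Ω) (N : Set Ω → Set Ω)
    (hN : ∀ W, #(N W) ≤ max #W ℵ₀) (hP1 : ∀ i, ℵ₁ ≤ #(P i)) (hP2 : ∀ i, #I ≤ #(P i))
    (hB : ∀ i, #(B i) ≤ #(P i)) :
    ∃ R : J → Set Ω, (∀ i, #↥(B i ∪ ⋃ t ∈ P i, R t) ≤ #(P i)) ∧
      ∀ i, ∀ C ⊆ B i ∪ ⋃ t ∈ P i, R t, C.Countable →
        ∃ W, C ⊆ W ∧ W ⊆ B i ∪ ⋃ t ∈ P i, R t ∧ N W ⊆ B i ∪ ⋃ t ∈ P i, R t := by
  have h0 : ∀ i, ℵ₀ ≤ #(P i) := fun i => aleph0_lt_aleph_one.le.trans (hP1 i)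
  have hsz : ∀ (f : W1 → I → J → Ω) i, #↥(B i ∪ ⋃ η, ⋃ k, f η k '' P i) ≤ #(P i) := by
    intro f i
    refine (mk_union_le _ _).trans (add_le_of_le (h0 i) (hB i) ?_)
    refine (mk_iUnion_le _).trans (mul_le_of_le (h0 i) (mk_W1.le.trans (hP1 i)) (ciSup_le' fun η => ?_))
    exact (mk_iUnion_le _).trans (mul_le_of_le (h0 i) (hP2 i) (ciSup_le' fun k => mk_image_le))
  obtain ⟨f, hf⟩ := wf_rec (T := W1) (β := I → J → Ω)
    (fun ξ f b => ∀ i, N (B i ∪ ⋃ η ∈ Iio ξ, ⋃ k, f η k '' P i) ⊆ b i '' P i) (by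
      intro ξ f
      have h1 : ∀ i, ∃ e : J → Ω, N (B i ∪ ⋃ η ∈ Iio ξ, ⋃ k, f η k '' P i) ⊆ e '' P i := by
        intro i
        refine enum ((hN _).trans (max_le ((mk_le_mk_of_subset ?_).trans (hsz f i)) (h0 i)))
        exact union_subset_union_right _ (iUnion_mono fun η => iUnion_subset fun _ => Subset.rfl)
      choose e he using h1
      exact ⟨e, he⟩) (by
      intro ξ f g b hfg h i
      have h1 : (⋃ η ∈ Iio ξ, ⋃ k, g η k '' P i) = ⋃ η ∈ Iio ξ, ⋃ k, f η k '' P i :=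
        iUnion₂_congr fun η hη => by rw [hfg η hη]
      rw [h1]
      exact h i)
  have hR : ∀ i, (⋃ t ∈ P i, range fun q : W1 × I => f q.1 q.2 t) = ⋃ η, ⋃ k, f η k '' P i := by
    intro i
    ext x
    simp only [mem_iUnion, mem_range, mem_image, Prod.exists, exists_prop]
    constructor
    · rintro ⟨t, ht, η, k, h⟩
      exact ⟨η, k, t, ht, h⟩
    · rintro ⟨η, k, t, ht, h⟩
      exact ⟨t, ht, η, k, h⟩
  refine ⟨fun t => range fun q : W1 × I => f q.1 q.2 t, fun i => ?_, fun i C hC hc => ?_⟩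
  · rw [hR]
    exact hsz f i
  · rw [hR] at hC ⊢
    have h1 : ∀ x : C, ∃ η, x.1 ∈ B i ∪ ⋃ k, f η k '' P i := by
      intro x
      rcases hC x.2 with h | h
      · exact ⟨Classical.arbitrary _, Or.inl h⟩
      · obtain ⟨η, h⟩ := mem_iUnion.1 h
        exact ⟨η, Or.inr h⟩
    choose τ hτ using h1
    have := hc.to_subtype
    obtain ⟨ξ, hξ⟩ := W1_bdd (countable_range τ)
    refine ⟨B i ∪ ⋃ η ∈ Iio ξ, ⋃ k, f η k '' P i, fun x hx => ?_,
      union_subset_union_right _ (iUnion_mono fun η => iUnion_subset fun _ => Subset.rfl),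
      (hf ξ i).trans fun x hx => Or.inr (mem_iUnion.2 ⟨ξ, mem_iUnion.2 ⟨i, hx⟩⟩)⟩
    rcases hτ ⟨x, hx⟩ with h | h
    · exact Or.inl h
    · exact Or.inr (mem_biUnion (hξ _ ⟨⟨x, hx⟩, rfl⟩) h)

variable {X : Type} [TopologicalSpace X]

theorem singular_case [CompactSpace X] [T2Space X] [Nonempty X] (hS : Spl X) (ht : Tight X)
    {κ : Cardinal.{0}} (hκ : ¬ κ.IsRegular) (h0 : ℵ₀ < κ) {D : Set X} (hD : Dense D) (hDκ : #D ≤ κ)
    (ih : ∀ D' : Set X, #D' < κ → ∃ G : Set C(X, ℝ), Sep G (closure D') ∧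
      ∀ y ∈ closure D', {g | g ∈ G ∧ g y ≠ 0}.Countable) : Cor X := by
  classical
  let L := κ.ord.ToType
  have hL : #L = κ := mk_ord_toType κ
  have h1κ : ℵ₁ < κ := by
    refine lt_of_le_of_ne ?_ fun h => hκ (h ▸ isRegular_aleph_one)
    rw [← succ_aleph0]
    exact Order.succ_le_of_lt h0
  obtain ⟨s, hs1, hs2⟩ := Order.exists_cof_eq L
  have hs3 : #s < κ := by
    rw [hs2, Ordinal.cof_toType]
    by_contra h
    exact hκ ⟨h0.le, not_lt.1 h⟩
  obtain ⟨H, hH1, hH2⟩ := weight hS h0.le hDκ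
  rw [hD.closure_eq] at hH2
  obtain ⟨d, hd⟩ := enum (P := (univ : Set L)) (S := D) (by rwa [mk_univ, hL])
  obtain ⟨h, hh⟩ := enum (P := (univ : Set L)) (S := H) (by rwa [mk_univ, hL])
  choose S hS1 hS2 hS3 using fun E : Finset C(X, ℝ) => sel (fun (t : X) (h : C(X, ℝ)) => h t) D E
  choose Q hQ1 hQ2 using fun D' : Set X => weight hS (le_max_right #D' ℵ₀) (le_max_left #D' ℵ₀)
  let J : s → Set L := fun i => {l | ∃ j : s, j < i ∧ l ≤ j.1}
  have hJ : ∀ i, #(J i) < κ := fun i =>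
    (mk_le_mk_of_subset (t := Iio i.1) fun l (hl : ∃ j : s, j < i ∧ l ≤ j.1) =>
      lt_of_le_of_lt hl.choose_spec.2 hl.choose_spec.1).trans_lt
      (mk_Iio_toType_ord_lt i.1)
  let P : s → Set (L ⊕ (s ⊕ W1)) := fun i => Sum.inl '' J i ∪ range Sum.inr
  have hP0 : ∀ i, #(s ⊕ W1) ≤ #(P i) := fun i =>
    (mk_range_eq _ Sum.inr_injective).ge.trans (mk_le_mk_of_subset subset_union_right)
  have hP1 : ∀ i, ℵ₁ ≤ #(P i) := fun i =>
    mk_W1.ge.trans ((mk_le_of_injective Sum.inr_injective).trans (hP0 i))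
  have hP2 : ∀ i, #(P i) < κ := fun i => by
    refine (mk_union_le _ _).trans_lt (add_lt_of_lt h0.le (mk_image_le.trans_lt (hJ i))
      (mk_range_le.trans_lt ?_))
    simp only [mk_sum, lift_id, mk_W1]
    exact add_lt_of_lt h0.le hs3 h1κ
  let B : s → Set (X ⊕ C(X, ℝ)) := fun i => Sum.inl '' (d '' J i) ∪ Sum.inr '' (h '' J i)
  let N : Set (X ⊕ C(X, ℝ)) → Set (X ⊕ C(X, ℝ)) := fun W => Sum.inr '' Q (Sum.inl ⁻¹' W) ∪
    Sum.inl '' ⋃ E ∈ {E : Finset C(X, ℝ) | ↑E ⊆ Sum.inr ⁻¹' W}, S E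
  obtain ⟨R, hR1, hR2⟩ := matrix P B N (by
      intro W
      refine (mk_union_le _ _).trans (add_le_of_le (le_max_right _ _) (mk_image_le.trans ((hQ1 _).trans
        (max_le_max_right _ (mk_preimage_of_injective _ _ Sum.inl_injective)))) (mk_image_le.trans ?_))
      exact mk_fin_union hS2 (le_max_right _ _)
        ((mk_preimage_of_injective _ _ Sum.inr_injective).trans (le_max_left _ _)))
    hP1 (fun i => (mk_le_of_injective Sum.inl_injective).trans (hP0 i)) (by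
      intro i
      have h1 : #(J i) ≤ #(P i) :=
        (mk_image_eq Sum.inl_injective).ge.trans (mk_le_mk_of_subset subset_union_left)
      exact (mk_union_le _ _).trans (add_le_of_le (aleph0_lt_aleph_one.le.trans (hP1 i))
        (mk_image_le.trans (mk_image_le.trans h1)) (mk_image_le.trans (mk_image_le.trans h1))))
  let W : s → Set (X ⊕ C(X, ℝ)) := fun i => B i ∪ ⋃ t ∈ P i, R t
  have hJm : Monotone J := fun i i' hi l ⟨j, hj, hl⟩ => ⟨j, lt_of_lt_of_le hj hi, hl⟩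
  have hWm : Monotone W := fun i i' hi => union_subset_union
    (union_subset_union (image_mono (image_mono (hJm hi))) (image_mono (image_mono (hJm hi))))
    (biUnion_subset_biUnion_left (union_subset_union_left _ (image_mono (hJm hi))))
  choose G hG1 hG2 using fun i : s => ih (Sum.inl ⁻¹' W i)
    ((mk_preimage_of_injective _ _ Sum.inl_injective).trans_lt ((hR1 i).trans_lt (hP2 i)))
  refine chain ht (I := s) (fun i => closure (Sum.inl ⁻¹' W i)) (fun i => Sum.inr ⁻¹' W i)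
    (fun _ => isClosed_closure) (fun a b hab => closure_mono (preimage_mono (hWm hab)))
    (fun a b hab => preimage_mono (hWm hab)) (fun i y hy y' hy' h1 => ?_)
    (fun i => den_of hD hS3 fun E hE => ?_) (fun i => ?_) ?_ G hG1 hG2
  · obtain ⟨C, hC1, hC2, hC3⟩ := ht _ y hy
    obtain ⟨C', hC1', hC2', hC3'⟩ := ht _ y' hy'
    obtain ⟨V, hV1, -, hV3⟩ := hR2 i (Sum.inl '' (C ∪ C'))
      (image_subset_iff.2 (union_subset hC1 hC1')) ((hC2.union hC2').image _)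
    have h2 : C ∪ C' ⊆ Sum.inl ⁻¹' V := image_subset_iff.1 hV1
    exact hQ2 _ y (closure_mono (subset_union_left.trans h2) hC3) y'
      (closure_mono (subset_union_right.trans h2) hC3') fun g hg => h1 g (hV3 (Or.inl ⟨g, hg, rfl⟩))
  · obtain ⟨V, hV1, -, hV3⟩ := hR2 i (Sum.inr '' (E : Set C(X, ℝ))) (image_subset_iff.2 hE)
      ((Finset.countable_toSet E).image _)
    exact fun x hx => hV3 (Or.inr ⟨x, mem_biUnion (image_subset_iff.1 hV1) hx, rfl⟩)
  · by_cases h1 : ∀ j, i ≤ j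
    · exact Or.inl h1
    by_cases h2 : ∃ j < i, ∀ k < i, k ≤ j
    · exact Or.inr (Or.inl h2)
    refine Or.inr (Or.inr fun g hg => ?_)
    simp only [not_forall, not_exists, not_and] at h1 h2
    obtain ⟨j0, hj0⟩ := h1
    have h3 : ∀ l ∈ J i, ∃ j < i, l ∈ J j := by
      rintro l ⟨j, hj, hl⟩
      obtain ⟨k, hk, h4⟩ := h2 j hj
      exact ⟨k, hk, j, not_le.1 h4, hl⟩
    rcases hg with (⟨_, -, h4⟩ | ⟨_, ⟨l, hl, rfl⟩, h4⟩) | h4
    · exact absurd h4 Sum.inl_ne_inr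
    · obtain ⟨j, hj, h5⟩ := h3 l hl
      exact ⟨j, hj, Or.inl (Or.inr ⟨_, ⟨l, h5, rfl⟩, h4⟩)⟩
    · obtain ⟨t, ⟨l, hl, rfl⟩ | h5, h6⟩ := mem_iUnion₂.1 h4
      · obtain ⟨j, hj, h5⟩ := h3 l hl
        exact ⟨j, hj, Or.inr (mem_biUnion (Or.inl ⟨l, h5, rfl⟩) h6)⟩
      · exact ⟨j0, not_le.1 hj0, Or.inr (mem_biUnion (Or.inr h5) h6)⟩
  · refine fun y hy y' hy' h4 => hH2 y hy y' hy' fun g hg => ?_
    obtain ⟨l, -, rfl⟩ := hh hg
    obtain ⟨j, hj, h5⟩ := hs1 l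
    have := Cardinal.noMaxOrder h0.le
    obtain ⟨l', hl'⟩ := exists_gt j
    obtain ⟨i, hi, h6⟩ := hs1 l'
    exact h4 _ (mem_iUnion.2 ⟨⟨i, hi⟩, Or.inl (Or.inr ⟨_, ⟨l, ⟨⟨j, hj⟩, show j < i from lt_of_lt_of_le hl' h6, h5⟩, rfl⟩, rfl⟩)⟩)

theorem cor_of_spl_aux (κ : Cardinal.{0}) : ∀ (X : Type) [TopologicalSpace X] [CompactSpace X]
    [T2Space X], Spl X → ∀ D : Set X, Dense D → #D ≤ κ → Cor X := by
  induction κ using WellFoundedLT.induction with
  | ind κ ih =>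
    intro X _ _ _ hS D hD hDκ
    rcases isEmpty_or_nonempty X with he | hne
    · exact ⟨∅, fun y => he.elim y, fun x => he.elim x⟩
    rcases le_or_gt κ ℵ₀ with h0 | h0
    · obtain ⟨H, hH1, hH2⟩ := weight hS le_rfl (hDκ.trans h0)
      rw [hD.closure_eq] at hH2
      exact ⟨H, hH2, fun x => (Cardinal.le_aleph0_iff_set_countable.1 hH1).mono fun g hg => hg.1⟩
    have ht : Tight X := tight_of (fun x => hS {x}) fun B _ => isClosed_closure.isCompact
    have ih' : ∀ D' : Set X, #D' < κ → ∃ G : Set C(X, ℝ), Sep G (closure D') ∧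
        ∀ y ∈ closure D', {g | g ∈ G ∧ g y ≠ 0}.Countable := by
      intro D' hD'
      have : CompactSpace (closure D') := isCompact_iff_compactSpace.1 isClosed_closure.isCompact
      refine Cor.ext isClosed_closure (ih _ hD' _ hS.sub (Subtype.val ⁻¹' D') ?_
        (mk_preimage_of_injective _ _ Subtype.val_injective))
      intro y
      rw [IsEmbedding.subtypeVal.closure_eq_preimage_closure_image, Subtype.image_preimage_coe,
        inter_eq_right.2 subset_closure]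
      exact y.2
    by_cases hκ : κ.IsRegular
    · exact regular_case hS ht hκ h0 hD hDκ ih'
    · exact singular_case hS ht hκ h0 hD hDκ ih'

theorem cor_of_spl [CompactSpace X] [T2Space X] (hS : Spl X) : Cor X :=
  cor_of_spl_aux _ X hS univ dense_univ le_rfl

end Pool.Agent.H30.Spl
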