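import Pool.Agent.H30.SplC

set_option autoImplicit false

open Set Filter Topology Cardinal

namespace Pool.Agent.H30.Spl

variable {X : Type} [TopologicalSpace X]

lemma dec_of_sigma {Γ : Type} {f : X → Γ → ℝ} (hf : Continuous f)
    (hc : ∀ x, {γ | f x γ ≠ 0}.Countable) {A : Set X} (hA : ∀ y y', f y = f y' → (y ∈ A ↔ y' ∈ A)) :
    ∃ Φ, Dec A Φ := by
  let p : Γ → C(X, ℝ) := fun γ => ⟨fun x => f x γ, (continuous_apply γ).comp hf⟩
  refine ⟨fun F => p '' ⋃ x ∈ F, {γ | f x γ ≠ 0},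
    fun F => ((Finset.countable_toSet F).biUnion fun x _ => hc x).image _,
    fun D y hy y' hy' h => hA y y' (funext fun γ => ?_)⟩
  by_cases h1 : ∃ d ∈ D, f d γ ≠ 0
  · obtain ⟨d, hd, h2⟩ := h1
    exact h {d} (by simpa using hd) (p γ) ⟨γ, by simpa using h2, rfl⟩
  · have h2 : closure D ⊆ {x | f x γ = 0} := closure_minimal (fun d hd => by
      by_contra h3
      exact h1 ⟨d, hd, h3⟩) (isClosed_eq (p γ).continuous continuous_const)
    exact (h2 hy).trans (h2 hy').symm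

lemma iff_of_split {Y : Type} {f : X → Y} {A : Set X} (h : f ⁻¹' (f '' A) = A) {y y' : X}
    (hy : f y = f y') : y ∈ A ↔ y' ∈ A :=
  ⟨fun h1 => h ▸ ⟨y, h1, hy⟩, fun h1 => h ▸ ⟨y', h1, hy.symm⟩⟩

lemma Cor.embed [CompactSpace X] (h : Cor X) :
    ∃ (Γ : Type) (e : X → Γ → ℝ), IsEmbedding e ∧ ∀ x, {γ | e x γ ≠ 0}.Countable := by
  obtain ⟨G, hG, hc⟩ := h
  refine ⟨G, fun x g => g.1 x, (Continuous.isClosedEmbedding (continuous_pi fun g => g.1.continuous)
    fun x y hxy => hG x trivial y trivial fun g hg => congrFun hxy ⟨g, hg⟩).isEmbedding, fun x => ?_⟩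
  refine ((hc x).preimage_of_injOn (f := Subtype.val) Subtype.val_injective.injOn).mono ?_
  intro g hg
  exact ⟨g.2, hg⟩

lemma Cor.prod {Y : Type} [TopologicalSpace Y] (h : Cor X) (h' : Cor Y) : Cor (X × Y) := by
  obtain ⟨G, hG, hc⟩ := h
  obtain ⟨G', hG', hc'⟩ := h'
  refine ⟨(fun g => g.comp ContinuousMap.fst) '' G ∪ (fun g => g.comp ContinuousMap.snd) '' G',
    fun x _ y _ h => Prod.ext (hG _ trivial _ trivial fun g hg => h _ (Or.inl ⟨g, hg, rfl⟩))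
      (hG' _ trivial _ trivial fun g hg => h _ (Or.inr ⟨g, hg, rfl⟩)), fun x => ?_⟩
  refine (((hc x.1).image fun g => g.comp ContinuousMap.fst).union
    ((hc' x.2).image fun g => g.comp ContinuousMap.snd)).mono ?_
  rintro _ ⟨⟨g, hg, rfl⟩ | ⟨g, hg, rfl⟩, h⟩
  · exact Or.inl ⟨g, ⟨hg, h⟩, rfl⟩
  · exact Or.inr ⟨g, ⟨hg, h⟩, rfl⟩

lemma retr_lemma {T Γ : Type} [TopologicalSpace T] (v : T → Γ → ℝ) (hv : ∀ γ, Continuous fun t => v t γ)
    {K : Set T} (hK : IsCompact K) (hc : ∀ t ∈ K, {γ | v t γ ≠ 0}.Countable) :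
    ∃ c : Finset Γ → Set Γ, (∀ E, (c E).Countable) ∧ ∀ Γ' : Set Γ, (∀ E : Finset Γ, ↑E ⊆ Γ' → c E ⊆ Γ') →
      ∀ t ∈ K, ∃ t' ∈ K, (∀ γ ∈ Γ', v t' γ = v t γ) ∧ ∀ γ, γ ∉ Γ' → v t' γ = 0 := by
  choose S hS1 hS2 hS3 using sel v K
  refine ⟨fun E => ⋃ t ∈ S E, {γ | v t γ ≠ 0}, fun E => (hS2 E).biUnion fun t ht => hc t (hS1 E ht),
    fun Γ' h t ht => ?_⟩
  have h1 : IsClosed {t | ∀ γ, γ ∉ Γ' → v t γ = 0} := by
    simp only [setOf_forall]
    exact isClosed_iInter fun γ => isClosed_iInter fun _ => isClosed_eq (hv γ) continuous_const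
  obtain ⟨t', ht', h2⟩ := exact_of_approx v (hK.inter_right h1) (H := Γ') (fun γ _ => hv γ) (v t) (by
    intro E hE ε hε
    obtain ⟨t', ht', h2⟩ := hS3 E t ht ε hε
    refine ⟨t', ⟨hS1 E ht', fun γ hγ => ?_⟩, h2⟩
    by_contra h3
    exact hγ (h E hE (mem_biUnion ht' h3)))
  exact ⟨t', ht'.1, h2, ht'.2⟩

lemma box_sep {T Γ : Type} [TopologicalSpace T] (v : T → Γ → ℝ) {K : Set T} (hK : IsCompact K)
    {H : Set Γ} (hv : ∀ γ ∈ H, Continuous fun t => v t γ) (a : Γ → ℝ)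
    (h : ∀ t ∈ K, ¬ ∀ γ ∈ H, v t γ = a γ) :
    ∃ E : Finset Γ, ↑E ⊆ H ∧ ∃ ε : ℝ, 0 < ε ∧ ∀ t ∈ K, ¬ ∀ γ ∈ E, |v t γ - a γ| < ε := by
  by_contra hcon
  obtain ⟨t, ht, h1⟩ := exact_of_approx v hK hv a (by
    intro E hE ε hε
    by_contra h2
    exact hcon ⟨E, hE, ε, hε, fun t ht h3 => h2 ⟨t, ht, h3⟩⟩)
  exact h t ht h1

theorem Cor.image [CompactSpace X] (h : Cor X) {Z : Type} [TopologicalSpace Z] [T2Space Z] {g : X → Z}
    (hg : Continuous g) (hs : Function.Surjective g) : Cor Z := by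
  classical
  obtain ⟨Γ, e, he, hc⟩ := h.embed
  have : CompactSpace Z := ⟨by rw [← hs.range_eq]; exact isCompact_range hg⟩
  have hec : ∀ γ, Continuous fun x => e x γ := fun γ => (continuous_apply γ).comp he.continuous
  let v : X × X → Γ ⊕ Γ → ℝ := fun p => Sum.elim (e p.1) (e p.2)
  have hv : ∀ γ, Continuous fun t => v t γ := by
    rintro (γ | γ)
    · exact (hec γ).comp continuous_fst
    · exact (hec γ).comp continuous_snd
  have hR : IsCompact {p : X × X | g p.1 = g p.2} :=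
    (isClosed_eq (hg.comp continuous_fst) (hg.comp continuous_snd)).isCompact
  obtain ⟨c, hc1, hc2⟩ := retr_lemma v hv hR (fun t _ => (((hc t.1).image Sum.inl).union
    ((hc t.2).image Sum.inr)).mono (by
      rintro (γ | γ) hγ
      · exact Or.inl ⟨γ, hγ, rfl⟩
      · exact Or.inr ⟨γ, hγ, rfl⟩))
  let c' : Finset Γ → Set Γ := fun E => ⋃ E' ∈ (E.disjSum E).powerset, Sum.elim id id '' c E'
  have hc' : ∀ E, (c' E).Countable := fun E => (Finset.countable_toSet _).biUnion fun E' _ => (hc1 E').image _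
  choose σ hσ using hs
  let Gm : Set Z → Set Γ := fun D => {γ | Hull c' (⋃ d ∈ D, {γ | e (σ d) γ ≠ 0}) γ}
  let bx : Finset Γ → Z → ℕ → Set X := fun E d n => {x | ∀ γ ∈ E, |e x γ - e (σ d) γ| ≤ 1 / ((n : ℝ) + 1)}
  have hbx : ∀ E d n, IsClosed (g '' bx E d n) := by
    intro E d n
    refine (IsClosed.isCompact ?_).image hg |>.isClosed
    simp only [bx, setOf_forall]
    exact isClosed_iInter fun γ => isClosed_iInter fun _ =>
      isClosed_le ((hec γ).sub continuous_const).abs continuous_const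
  have h1 : ∀ (E : Finset Γ) (d d' : Z) (n : ℕ), ∃ φ : C(Z, ℝ), Disjoint (g '' bx E d n) (g '' bx E d' n) →
      EqOn φ 0 (g '' bx E d n) ∧ EqOn φ 1 (g '' bx E d' n) := by
    intro E d d' n
    by_cases hd : Disjoint (g '' bx E d n) (g '' bx E d' n)
    · obtain ⟨φ, h2, h3, -⟩ := exists_continuous_zero_one_of_isClosed (hbx E d n) (hbx E d' n) hd
      exact ⟨φ, fun _ => ⟨h2, h3⟩⟩
    · exact ⟨0, fun h => (hd h).elim⟩
  choose φ hφ using h1
  refine cor_of_spl fun A => ⟨fun F => ⋃ E ∈ {E : Finset Γ | ↑E ⊆ Gm ↑F}, ⋃ d ∈ F, ⋃ d' ∈ F,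
    range (φ E d d'), fun F => (cnt_finsets (hull_cnt hc' ((Finset.countable_toSet F).biUnion
      fun d _ => hc _))).biUnion fun E _ => (Finset.countable_toSet F).biUnion fun d _ =>
        (Finset.countable_toSet F).biUnion fun d' _ => countable_range _, fun D y hy y' hy' h => ?_⟩
  suffices h2 : y = y' by rw [h2]
  have hcl : closure D ⊆ g '' closure (σ '' D) := closure_minimal
    (fun d hd => ⟨σ d, subset_closure ⟨d, hd, rfl⟩, hσ d⟩) (isClosed_closure.isCompact.image hg).isClosed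
  obtain ⟨x, hx, rfl⟩ := hcl hy
  obtain ⟨x', hx', rfl⟩ := hcl hy'
  have hsupp : ∀ x ∈ closure (σ '' D), ∀ γ, γ ∉ Gm D → e x γ = 0 := by
    intro x hx γ hγ
    refine closure_minimal (t := {x | e x γ = 0}) ?_ (isClosed_eq (hec γ) continuous_const) hx
    rintro _ ⟨d, hd, rfl⟩
    by_contra h3
    exact hγ (Hull.base (mem_biUnion hd h3))
  by_contra hne
  let H : Set (Γ ⊕ Γ) := {γ | Sum.elim id id γ ∈ Gm D}
  obtain ⟨E', hE', ε, hε, h3⟩ := box_sep v hR (H := H) (fun γ _ => hv γ) (v (x, x')) (by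
    intro t ht h2
    obtain ⟨t', ht', h3, h4⟩ := hc2 H (by
      intro E hE γ hγ
      refine Hull.step (s := E.image (Sum.elim id id)) (fun δ hδ => ?_)
        (mem_biUnion (x := E) ?_ ⟨γ, hγ, rfl⟩)
      · obtain ⟨δ', hδ', rfl⟩ := Finset.mem_image.1 hδ
        exact hE hδ'
      · refine Finset.mem_powerset.2 ?_
        rintro (δ | δ) hδ
        · exact Finset.inl_mem_disjSum.2 (Finset.mem_image_of_mem _ hδ)
        · exact Finset.inr_mem_disjSum.2 (Finset.mem_image_of_mem _ hδ)) t ht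
    have h5 : t'.1 = x := he.injective (funext fun γ => by
      by_cases hγ : γ ∈ Gm D
      · exact (h3 (Sum.inl γ) hγ).trans (h2 (Sum.inl γ) hγ)
      · exact (h4 (Sum.inl γ) hγ).trans (hsupp x hx γ hγ).symm)
    have h6 : t'.2 = x' := he.injective (funext fun γ => by
      by_cases hγ : γ ∈ Gm D
      · exact (h3 (Sum.inr γ) hγ).trans (h2 (Sum.inr γ) hγ)
      · exact (h4 (Sum.inr γ) hγ).trans (hsupp x' hx' γ hγ).symm)
    exact hne (by rw [← h5, ← h6]; exact ht'))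
  let E : Finset Γ := E'.image (Sum.elim id id)
  obtain ⟨n, hn⟩ := exists_nat_one_div_lt (half_pos hε)
  obtain ⟨_, ⟨d, hd, rfl⟩, h4⟩ := approx_of_closure e hx E (fun γ _ => hec γ)
    (Nat.one_div_pos_of_nat (n := n))
  obtain ⟨_, ⟨d', hd', rfl⟩, h5⟩ := approx_of_closure e hx' E (fun γ _ => hec γ)
    (Nat.one_div_pos_of_nat (n := n))
  have h6 : Disjoint (g '' bx E d n) (g '' bx E d' n) := by
    rw [Set.disjoint_left]
    rintro _ ⟨u, hu, rfl⟩ ⟨u', hu', h6⟩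
    refine h3 (u, u') h6.symm ?_
    rintro (γ | γ) hγ
    · have h7 := abs_le.1 (hu γ (Finset.mem_image_of_mem _ hγ))
      have h8 := abs_lt.1 (h4 γ (Finset.mem_image_of_mem _ hγ))
      simp only [v, Sum.elim_inl]
      rw [abs_lt]
      constructor <;> linarith [h7.1, h7.2, h8.1, h8.2]
    · have h7 := abs_le.1 (hu' γ (Finset.mem_image_of_mem _ hγ))
      have h8 := abs_lt.1 (h5 γ (Finset.mem_image_of_mem _ hγ))
      simp only [v, Sum.elim_inr]
      rw [abs_lt]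
      constructor <;> linarith [h7.1, h7.2, h8.1, h8.2]
  have hm : Monotone fun F : Finset Z => Gm ↑F := fun F F' hF γ hγ =>
    Hull.mono (biUnion_subset_biUnion_left (Finset.coe_subset.2 hF)) hγ
  obtain ⟨F, hF1, hF2⟩ := fin_bound (D := D) hm E (by
    intro b hb
    obtain ⟨δ, hδ, rfl⟩ := Finset.mem_image.1 hb
    obtain ⟨W, hW1, hW2⟩ := Hull.fin (hE' hδ)
    obtain ⟨F, hF1, hF2⟩ := fin_bound (D := D) (Φ := fun F : Finset Z => ⋃ d ∈ (F : Set Z), {γ | e (σ d) γ ≠ 0})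
      (fun F F' hF => biUnion_subset_biUnion_left (Finset.coe_subset.2 hF)) W (by
        intro γ hγ
        obtain ⟨z, hz, h7⟩ := mem_iUnion₂.1 (hW1 hγ)
        exact ⟨{z}, by simpa using hz, by simpa using h7⟩)
    exact ⟨F, hF1, Hull.mono hF2 hW2⟩)
  have h7 := h (insert d (insert d' F)) (by simp [insert_subset_iff, hd, hd', hF1]) (φ E d d' n)
    (mem_biUnion (x := E) (hF2.trans (hm ((Finset.subset_insert _ _).trans (Finset.subset_insert _ _))))
      (mem_biUnion (x := d) (by simp) (mem_biUnion (x := d') (by simp) ⟨n, rfl⟩)))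
  rw [(hφ E d d' n h6).1 ⟨x, fun γ hγ => by rw [abs_sub_comm]; exact (h4 γ hγ).le, rfl⟩,
    (hφ E d d' n h6).2 ⟨x', fun γ hγ => by rw [abs_sub_comm]; exact (h5 γ hγ).le, rfl⟩] at h7
  simp at h7

theorem cor_of_split [CompactSpace X] [T2Space X]
    (h : ∀ A : Set X, ∃ (Y : Type) (_ : TopologicalSpace Y),
      (∃ (κ : Type) (e : Y → κ → ℝ), IsEmbedding e ∧ ∀ y, {i : κ | e y i ≠ 0}.Countable) ∧
      ∃ f : X → Y, Continuous f ∧ f ⁻¹' (f '' A) = A) : Cor X := by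
  refine cor_of_spl fun A => ?_
  obtain ⟨Y, _, ⟨κ, e, he, hc⟩, f, hf, hA⟩ := h A
  exact dec_of_sigma (f := e ∘ f) (he.continuous.comp hf) (fun x => hc (f x))
    fun y y' h => iff_of_split hA (he.injective h)

end Pool.Agent.H30.Spl
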