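import Pool.Agent.H30.SplD

set_option autoImplicit false

open Set Filter Topology Cardinal

namespace Pool.Agent.H30.Spl

def Col (Γ : Type) : Prop :=
  ∃ c : Set Γ → ℕ → Bool, ∀ a b : Set Γ, b.Countable → a ⊆ b → c a = c b → a = b

lemma mk_code : #(ℕ → Bool) = 𝔠 := by simp

lemma col_of {Γ C : Type} (hC : #C ≤ 𝔠) (c : Set Γ → C)
    (h : ∀ a b : Set Γ, b.Countable → a ⊆ b → c a = c b → a = b) : Col Γ := by
  obtain ⟨j⟩ := (Cardinal.le_def _ _).1 (hC.trans mk_code.ge)
  exact ⟨fun a => j (c a), fun a b hb hab h1 => h a b hb hab (j.injective h1)⟩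

lemma ot_code (Γ : Type) [LinearOrder Γ] [WellFoundedLT Γ] : ∃ o : Set Γ → W1, ∀ a b : Set Γ,
    b.Countable → a ⊆ b → o a = o b → ∀ β ∈ b, ∃ x ∈ a, β ≤ x := by
  classical
  have h1 : ∀ a : Set Γ, a.Countable → Ordinal.type ((· < ·) : a → a → Prop) < (ℵ₁ : Cardinal.{0}).ord := by
    intro a ha
    rw [Cardinal.lt_ord, Ordinal.card_type]
    exact (Cardinal.countable_iff_lt_aleph_one a).1 ha
  refine ⟨fun a => if h : a.Countable then Ordinal.ToType.mk ⟨_, mem_Iio.2 (h1 a h)⟩ else Classical.arbitrary _,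
    fun a b hb hab h β hβ => ?_⟩
  simp only [dif_pos hb, dif_pos (hb.mono hab)] at h
  have h2 := congrArg Subtype.val (Ordinal.ToType.mk.injective h)
  obtain ⟨φ⟩ := Ordinal.type_eq.1 h2
  have h3 : StrictMono fun x : b => (⟨(φ.symm x).1, hab (φ.symm x).2⟩ : b) :=
    fun x y hxy => φ.symm.map_rel_iff.2 hxy
  exact ⟨_, (φ.symm ⟨β, hβ⟩).2, h3.le_apply (x := ⟨β, hβ⟩)⟩

lemma col_aux (κ : Cardinal.{0}) : ∀ Γ : Type, #Γ = κ → Col Γ := by
  induction κ using WellFoundedLT.induction with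
  | ind κ ih =>
    intro Γ hΓ
    rcases le_or_gt κ ℵ₀ with h0 | h0
    · refine col_of ?_ id fun a b _ _ h => h
      rw [mk_set, ← two_power_aleph0]
      exact power_le_power_left two_ne_zero (hΓ.le.trans h0)
    let L := κ.ord.ToType
    suffices h : Col L by
      obtain ⟨c, hc⟩ := h
      obtain ⟨e⟩ := Cardinal.eq.1 (hΓ.trans (mk_ord_toType κ).symm)
      exact ⟨fun a => c (e '' a), fun a b hb hab h =>
        e.injective.image_injective (hc _ _ (hb.image e) (image_mono hab) h)⟩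
    have h1 : ∀ i : L, ∃ c : Set L → ℕ → Bool, ∀ a b : Set L, b.Countable → a ⊆ b → c a = c b →
        ∀ x ∈ b, x < i → x ∈ a := by
      intro i
      obtain ⟨c, hc⟩ := ih _ (mk_Iio_toType_ord_lt i) (Iio i) rfl
      refine ⟨fun a => c (Subtype.val ⁻¹' a), fun a b hb hab h x hx hi => ?_⟩
      have h2 := hc _ _ (hb.preimage Subtype.val_injective) (preimage_mono hab) h
      exact show (⟨x, hi⟩ : Iio i) ∈ Subtype.val ⁻¹' a from h2 ▸ hx
    choose c hc using h1
    have := Cardinal.noMaxOrder h0.le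
    by_cases h2 : ∀ a : Set L, a.Countable → ∃ i, ∀ x ∈ a, x < i
    · obtain ⟨o, ho⟩ := ot_code L
      have h3 : ∀ a : Set L, ∃ i, a.Countable → (∀ x ∈ a, x < i) ∧ ∀ j, (∀ x ∈ a, x < j) → i ≤ j := by
        intro a
        by_cases ha : a.Countable
        · obtain ⟨i, hi, hmin⟩ := (wellFounded_lt (α := L)).has_min {i | ∀ x ∈ a, x < i} (h2 a ha)
          exact ⟨i, fun _ => ⟨hi, fun j hj => not_lt.1 (hmin j hj)⟩⟩
        · obtain ⟨i, -⟩ := h2 ∅ countable_empty
          exact ⟨i, fun h => (ha h).elim⟩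
      choose σ hσ using h3
      refine col_of (C := W1 × (ℕ → Bool)) ?_ (fun a => (o a, c (σ a) a)) fun a b hb hab h => ?_
      · simp only [mk_prod, lift_id, mk_W1, mk_code]
        exact mul_le_of_le aleph0_le_continuum aleph_one_le_continuum le_rfl
      · simp only [Prod.mk.injEq] at h
        have ha := hb.mono hab
        have h4 : σ a = σ b := by
          refine le_antisymm ((hσ a ha).2 _ fun x hx => (hσ b hb).1 x (hab hx)) ((hσ b hb).2 _ fun x hx => ?_)
          obtain ⟨y, hy, h5⟩ := ho a b hb hab h.1 x hx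
          exact lt_of_le_of_lt h5 ((hσ a ha).1 y hy)
        rw [h4] at h
        exact Subset.antisymm hab fun x hx => hc _ a b hb hab h.2 x hx ((hσ b hb).1 x hx)
    · simp only [not_forall, not_exists] at h2
      obtain ⟨s, hs, h3⟩ := h2
      refine col_of (C := s → ℕ → Bool) ?_ (fun a i => c i a) fun a b hb hab h => ?_
      · simp only [mk_pi, prod_const, lift_id]
        calc _ ≤ 𝔠 ^ ℵ₀ := by
              simpa using power_le_power_left continuum_ne_zero (Cardinal.le_aleph0_iff_set_countable.2 hs)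
          _ = 𝔠 := continuum_power_aleph0
      · refine Subset.antisymm hab fun x hx => ?_
        obtain ⟨x', hx'⟩ := exists_gt x
        obtain ⟨i, hi, h4⟩ := h3 x'
        exact hc i a b hb hab (congrFun h ⟨i, hi⟩) x hx (lt_of_lt_of_le hx' (not_lt.1 h4))

lemma col (Γ : Type) : Col Γ := col_aux _ Γ rfl

variable {X : Type} [TopologicalSpace X]

lemma mono_small {Γ : Type} {e : X → Γ → ℝ} (he : Continuous e) (hi : Function.Injective e)
    (hc : ∀ x, {γ | e x γ ≠ 0}.Countable) :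
    ∃ c : X → ℕ → Bool, ∀ K : Set X, IsCompact K → (∀ x ∈ K, ∀ y ∈ K, c x = c y) → #K ≤ 𝔠 := by
  obtain ⟨c, hcol⟩ := col Γ
  refine ⟨fun x => c {γ | e x γ ≠ 0}, fun K hK h => ?_⟩
  obtain ⟨s, hs1, hs2⟩ := retr_lemma e (fun γ => (continuous_apply γ).comp he) hK fun t _ => hc t
  let Γ' : Set Γ := {γ | Hull s ∅ γ}
  have h1 : Γ'.Countable := hull_cnt hs1 countable_empty
  have h2 : ∀ x ∈ K, ∀ γ, γ ∉ Γ' → e x γ = 0 := by
    intro x hx γ hγ
    obtain ⟨x', hx', h3, h4⟩ := hs2 Γ' (fun E hE δ hδ => Hull.step (fun y hy => hE hy) hδ) x hx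
    have h5 : {γ | e x' γ ≠ 0} = {γ | e x γ ≠ 0} := by
      refine hcol _ _ (hc x) (fun δ hδ => ?_) (h x' hx' x hx)
      by_cases h6 : δ ∈ Γ'
      · exact fun h7 => hδ ((h3 δ h6).trans h7)
      · exact (hδ (h4 δ h6)).elim
    by_contra h6
    exact (show γ ∈ {γ | e x' γ ≠ 0} from h5 ▸ h6) (h4 γ hγ)
  have h3 : #K ≤ #(Γ' → ℝ) := by
    refine mk_le_of_injective (f := fun x γ => e x.1 γ.1) fun x y hxy => Subtype.ext (hi (funext fun γ => ?_))
    by_cases hγ : γ ∈ Γ'
    · exact congrFun hxy ⟨γ, hγ⟩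
    · rw [h2 _ x.2 γ hγ, h2 _ y.2 γ hγ]
  refine h3.trans ?_
  simp only [mk_pi, prod_const, lift_id, mk_real]
  calc _ ≤ 𝔠 ^ ℵ₀ := power_le_power_left continuum_ne_zero (Cardinal.le_aleph0_iff_set_countable.2 h1)
    _ = 𝔠 := continuum_power_aleph0

theorem joint_inj [CompactSpace X] (h : Cor X) (r : Set X → X → X → Prop)
    (hr : ∀ A, Equivalence (r A)) (hcl : ∀ A x, IsClosed {y | r A x y})
    (hA : ∀ A x y, r A x y → (x ∈ A ↔ y ∈ A)) :
    ∃ A : ℕ → Set X, ∀ x y, (∀ n, r (A n) x y) → x = y := by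
  classical
  obtain ⟨Γ, e, he, hc⟩ := h.embed
  obtain ⟨c, hcol⟩ := mono_small he.continuous he.injective hc
  let A : ℕ → Set X := fun n => {x | c x n = true}
  let cl : X → Set X := fun x => {y | ∀ n, r (A n) x y}
  have h1 : ∀ x, #(cl x) ≤ #(ℕ → Bool) := by
    intro x
    rw [mk_code]
    refine hcol _ (IsClosed.isCompact ?_) fun y hy z hz => funext fun n => ?_
    · simp only [cl, setOf_forall]
      exact isClosed_iInter fun n => hcl _ x
    · exact Bool.eq_iff_iff.2 (hA (A n) y z ((hr _).trans ((hr _).symm (hy n)) (hz n)))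
  have h2 : ∀ S : Set X, ∃ j : X → ℕ → Bool, #S ≤ #(ℕ → Bool) → InjOn j S := by
    intro S
    by_cases hS : #S ≤ #(ℕ → Bool)
    · obtain ⟨j⟩ := (Cardinal.le_def _ _).1 hS
      refine ⟨fun x => if h : x ∈ S then j ⟨x, h⟩ else fun _ => true, fun _ x hx y hy hxy => ?_⟩
      simp only [dif_pos hx, dif_pos hy] at hxy
      exact congrArg Subtype.val (j.injective hxy)
    · exact ⟨fun _ _ => true, fun h => (hS h).elim⟩
  choose j hj using h2
  let B : ℕ → Set X := fun n => {x | j (cl x) x n = true}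
  refine ⟨fun n => if n % 2 = 0 then A (n / 2) else B (n / 2), fun x y hxy => ?_⟩
  have h3 : y ∈ cl x := fun n => by
    have h4 := hxy (2 * n)
    simpa using h4
  have h4 : cl y = cl x := by
    ext z
    exact ⟨fun hz n => (hr _).trans (h3 n) (hz n), fun hz n => (hr _).trans ((hr _).symm (h3 n)) (hz n)⟩
  refine hj (cl x) (h1 x) (fun n => (hr _).refl x) h3 (funext fun n => ?_)
  have h5 := hxy (2 * n + 1)
  have h6 : (2 * n + 1) % 2 ≠ 0 := by omega
  have h7 : (2 * n + 1) / 2 = n := by omega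
  simp only [if_neg h6, h7] at h5
  have h8 := hA _ _ _ h5
  simp only [B, mem_setOf_eq, h4] at h8
  exact Bool.eq_iff_iff.2 h8

end Pool.Agent.H30.Spl
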