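import Pool.Agent.H30.SplE

set_option autoImplicit false

open Set Filter Topology Cardinal

namespace Pool.Agent.H30.Spl

variable {X : Type} [TopologicalSpace X]

lemma c0_cnt {Γ : Type} {u : Γ → ℝ} (h : ∀ ε : ℝ, 0 < ε → {γ | ε < |u γ|}.Finite) :
    {γ | u γ ≠ 0}.Countable := by
  refine (countable_iUnion fun n : ℕ => (h (1 / ((n : ℝ) + 1)) Nat.one_div_pos_of_nat).countable).mono ?_
  intro γ hγ
  obtain ⟨n, hn⟩ := exists_nat_one_div_lt (abs_pos.2 hγ)
  exact mem_iUnion.2 ⟨n, hn⟩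

noncomputable def cut (t : ℝ) : ℝ := t / (1 + |t|)

lemma cut_cont : Continuous cut :=
  continuous_id.div (continuous_const.add continuous_abs) fun t => by positivity

lemma cut_abs (t : ℝ) : |cut t| = |t| / (1 + |t|) := by
  rw [cut, abs_div, abs_of_pos (show 0 < 1 + |t| by positivity)]

lemma cut_le_one (t : ℝ) : |cut t| ≤ 1 := by
  rw [cut_abs, div_le_one (by positivity)]
  linarith

lemma cut_le (t : ℝ) : |cut t| ≤ |t| := by
  rw [cut_abs]
  exact div_le_self (abs_nonneg t) (by linarith [abs_nonneg t])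

lemma cut_inj : Function.Injective cut := by
  intro s t h
  have h1 : |s| = |t| := by
    have h2 := congrArg abs h
    rw [cut_abs, cut_abs, div_eq_div_iff (by positivity) (by positivity)] at h2
    linarith
  rw [cut, cut, h1] at h
  exact (div_left_inj' (by positivity)).1 h

theorem eb_of_split [CompactSpace X] [T2Space X]
    (h : ∀ A : Set X, ∃ (Γ : Type) (f : X → Γ → ℝ), Continuous f ∧
      (∀ x, ∀ ε : ℝ, 0 < ε → {γ | ε < |f x γ|}.Finite) ∧ ∀ x y, f x = f y → (x ∈ A ↔ y ∈ A)) :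
    ∃ (Γ : Type) (e : X → Γ → ℝ), IsEmbedding e ∧ (∀ x γ, |e x γ| ≤ 1) ∧
      ∀ x, ∀ ε : ℝ, 0 < ε → {γ : Γ | ε < |e x γ|}.Finite := by
  choose Γ f hf1 hf2 hf3 using h
  have h1 : Cor X := cor_of_spl fun A => dec_of_sigma (hf1 A) (fun x => c0_cnt (hf2 A x)) (hf3 A)
  obtain ⟨A, hA⟩ := joint_inj h1 (fun A x y => f A x = f A y)
    (fun A => ⟨fun _ => rfl, Eq.symm, Eq.trans⟩) (fun A x => isClosed_eq continuous_const (hf1 A)) hf3
  have hp : ∀ n : ℕ, (0 : ℝ) < (n : ℝ) + 1 := fun n => by positivity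
  have h2 : ∀ (n : ℕ) (t : ℝ), |cut t / ((n : ℝ) + 1)| = |cut t| / ((n : ℝ) + 1) := fun n t => by
    rw [abs_div, abs_of_pos (hp n)]
  refine ⟨Σ n : ℕ, Γ (A n), fun x q => cut (f (A q.1) x q.2) / ((q.1 : ℝ) + 1),
    ?_, fun x q => ?_, fun x ε hε => ?_⟩
  · refine IsClosedEmbedding.isEmbedding (Continuous.isClosedEmbedding (continuous_pi fun q => ?_)
      fun x y hxy => hA x y fun n => funext fun γ => ?_)
    · exact (cut_cont.comp ((continuous_apply q.2).comp (hf1 _))).div_const _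
    · exact cut_inj ((div_left_inj' (hp n).ne').1 (congrFun hxy ⟨n, γ⟩))
  · rw [h2]
    exact (div_le_self (abs_nonneg _) (by linarith [(Nat.cast_nonneg q.1 : (0 : ℝ) ≤ q.1)])).trans
      (cut_le_one _)
  · obtain ⟨N, hN⟩ := exists_nat_one_div_lt hε
    refine ((finite_lt_nat N).biUnion fun n _ => (hf2 (A n) x ε hε).image
      fun γ => (⟨n, γ⟩ : Σ n : ℕ, Γ (A n))).subset ?_
    rintro ⟨n, γ⟩ hq
    simp only [mem_setOf_eq, h2] at hq
    refine mem_biUnion (x := n) ?_ ⟨γ, ?_, rfl⟩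
    · by_contra h3
      have h4 : (1 : ℝ) / ((n : ℝ) + 1) ≤ 1 / ((N : ℝ) + 1) := Nat.one_div_le_one_div (not_lt.1 h3)
      have h5 : |cut (f (A n) x γ)| / ((n : ℝ) + 1) ≤ 1 / ((n : ℝ) + 1) :=
        div_le_div_of_nonneg_right (cut_le_one _) (hp n).le
      linarith
    · exact lt_of_lt_of_le hq ((div_le_self (abs_nonneg _)
        (by linarith [(Nat.cast_nonneg n : (0 : ℝ) ≤ n)])).trans (cut_le _))

end Pool.Agent.H30.Spl
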