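import Pool.Agent.H30.StA
import Pool.Agent.H30.Bern

set_option autoImplicit false

namespace Pool.Agent.H30.Sta

open Set Filter Topology Cardinal TopologicalSpace

lemma stackel_of {Z : Type} [TopologicalSpace Z] [T2Space Z] (A : Set Z)
    (h : ∀ C, IsClosed C → C.Infinite → (C ∩ A).Nonempty ∧ (C \ A).Nonempty) : Stackel Z := by
  classical
  obtain ⟨r, wf⟩ := exists_wellOrder Z
  let e : Z → Z ⊕ₗ Zᵒᵈ := fun x => toLex (if x ∈ A then Sum.inl x else Sum.inr (OrderDual.toDual x))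
  have he : Function.Injective e := fun x y hxy => by
    have := toLex.injective hxy
    split_ifs at this <;> simpa using this
  refine ⟨inferInstance, LinearOrder.lift' e he, fun C hC hne => ?_⟩
  change (∃ a ∈ C, ∀ x ∈ C, e a ≤ e x) ∧ ∃ b ∈ C, ∀ x ∈ C, e x ≤ e b
  by_cases hf : C.Finite
  · exact ⟨Set.exists_min_image C e hf hne, Set.exists_max_image C e hf hne⟩
  obtain ⟨h1, h2⟩ := h C hC hf
  obtain ⟨a, ha, ha'⟩ := wf.wf.has_min _ h1
  obtain ⟨b, hb, hb'⟩ := wf.wf.has_min _ h2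
  refine ⟨⟨a, ha.1, fun x hx => ?_⟩, b, hb.1, fun x hx => ?_⟩
  · by_cases hx' : x ∈ A
    · simp only [e, if_pos ha.2, if_pos hx']
      exact Sum.Lex.inl_le_inl_iff.2 (not_lt.1 (ha' x ⟨hx, hx'⟩))
    · simp only [e, if_pos ha.2, if_neg hx']
      exact Sum.Lex.inl_le_inr _ _
  · by_cases hx' : x ∈ A
    · simp only [e, if_neg hb.2, if_pos hx']
      exact Sum.Lex.inl_le_inr _ _
    · simp only [e, if_neg hb.2, if_neg hx']
      exact Sum.Lex.inr_le_inr_iff.2 (not_lt.1 (hb' x ⟨hx, hx'⟩))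

lemma posp : (2 : Cardinal.{0}) ^ (𝔠 : Cardinal.{0}) ≤ #(Ultrafilter (Clopens (ℕ → Bool))) := by
  classical
  have H : ∀ h : Set (ℕ → Bool), ∃ u : Ultrafilter (Clopens (ℕ → Bool)),
      ∀ t, {U | t ∈ U ↔ t ∈ h} ∈ u := fun h => by
    obtain ⟨u, hu⟩ := Ultrafilter.exists_ultrafilter_of_finite_inter_nonempty
      ((fun t => {U : Clopens (ℕ → Bool) | t ∈ U ↔ t ∈ h}) '' univ) fun T hT => by
        obtain ⟨T', -, rfl⟩ := Finset.subset_set_image_iff.1 hT
        obtain ⟨V, h1, h2, h3⟩ := exists_clopen_of_closed_subset_open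
          (T'.finite_toSet.inter_of_left h).isClosed
          (T'.finite_toSet.diff (t := h)).isClosed.isOpen_compl fun x hx hx' => hx'.2 hx.2
        refine ⟨⟨V, h1⟩, ?_⟩
        simp only [Finset.coe_image, sInter_image, mem_iInter]
        exact fun t ht => ⟨fun hV => by_contra fun hn => h3 hV ⟨ht, hn⟩, fun hh => h2 ⟨ht, hh⟩⟩
    exact ⟨u, fun t => hu ⟨t, trivial, rfl⟩⟩
  choose u hu using H
  refine le_trans (by simp) (mk_le_of_injective (f := u) fun h h' e => Set.ext fun t => ?_)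
  obtain ⟨U, h1, h2⟩ := (u h).nonempty_of_mem (inter_mem (hu h t) (e ▸ hu h' t))
  exact h1.symm.trans h2

/-- Ultrafilters containing a countable set. -/
abbrev Cu (D : Type) : Type := {u : Ultrafilter D // ∃ N ∈ u, N.Countable}

variable {D : Type}

lemma Cu_big {S : Set (Cu D)} (hS : S.Infinite) : (2 : Cardinal.{0}) ^ (𝔠 : Cardinal.{0}) ≤ #(closure S) := by
  have := hS.to_subtype
  obtain ⟨U, h1, h2, h3⟩ := exists_seq_infinite_isOpen_pairwise_disjoint S
  choose x hx using fun n => (h1 n).nonempty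
  have H : ∀ n, ∃ B ∈ (x n).1.1, ∀ m, m ≠ n → B ∉ (x m).1.1 := fun n => by
    obtain ⟨V, hV, e⟩ := (IsInducing.subtypeVal.comp IsInducing.subtypeVal).isOpen_iff.1 (h2 n)
    obtain ⟨_, ⟨B, rfl⟩, h4, h5⟩ := ultrafilterBasis_is_basis.exists_subset_of_mem_open
      (show (x n).1.1 ∈ V from e.symm.subset (hx n)) hV
    exact ⟨B, h4, fun m hm h6 => disjoint_left.1 (h3 hm) (hx m) (e.subset (h5 h6))⟩
  choose B B1 B2 using H
  let A : ℕ → Set D := fun n => B n ∩ ⋂ m ∈ Iio n, (B m)ᶜ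
  have A1 : ∀ n, A n ∈ (x n).1.1 := fun n => inter_mem (B1 n) ((biInter_mem (finite_Iio n)).2
    fun m hm => Ultrafilter.compl_mem_iff_notMem.2 (B2 m n (ne_of_gt hm)))
  have A2 : ∀ n m, ∀ d ∈ A n, d ∈ A m → n = m := fun n m d hn hm => by
    rcases lt_trichotomy n m with h | h | h
    exacts [absurd hn.1 (mem_iInter₂.1 hm.2 n h), h, absurd hm.1 (mem_iInter₂.1 hn.2 m h)]
  have : Countable (Clopens (ℕ → Bool)) := Clopens.countable_iff_secondCountable.2 inferInstance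
  obtain ⟨e, he⟩ := exists_injective_nat (Clopens (ℕ → Bool))
  choose N N1 N2 using fun n => (x n).1.2
  let Φ : Ultrafilter (Clopens (ℕ → Bool)) → Cu D := fun w => ⟨w.bind fun i => (x (e i)).1.1,
    ⋃ n, N n, Filter.mem_bind'.2 (univ_mem' fun i => mem_of_superset (N1 _) (subset_iUnion N _)),
    countable_iUnion N2⟩
  have hΦ : ∀ w, Φ w ∈ closure S := fun w => by
    rw [IsInducing.subtypeVal.closure_eq_preimage_closure_image]
    refine ultrafilterBasis_is_basis.mem_closure_iff.2 ?_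
    rintro _ ⟨s, rfl⟩ hs
    obtain ⟨i, hi⟩ := w.nonempty_of_mem (Filter.mem_bind'.1 hs)
    exact ⟨_, hi, _, (x (e i)).2, rfl⟩
  refine posp.trans (mk_le_of_injective (f := fun w => (⟨Φ w, hΦ w⟩ : closure S))
    fun w w' h => Ultrafilter.eq_of_le fun T hT => ?_)
  have h' : Φ w = Φ w' := congrArg Subtype.val h
  have h4 : (⋃ i ∈ T, A (e i)) ∈ (Φ w').1 := Filter.mem_bind'.2 (mem_of_superset hT fun i hi =>
    mem_of_superset (A1 _) (subset_biUnion_of_mem (u := fun i => A (e i)) hi))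
  rw [← h'] at h4
  refine mem_of_superset (Filter.mem_bind'.1 h4) fun i hi => ?_
  obtain ⟨d, h5, h6⟩ := (x (e i)).1.1.nonempty_of_mem (inter_mem hi (A1 _))
  obtain ⟨j, hj, h7⟩ := mem_iUnion₂.1 h5
  exact he (A2 _ _ d h7 h6) ▸ hj

lemma Cu_small (hD : #D ≤ (2 : Cardinal.{0}) ^ (𝔠 : Cardinal.{0})) :
    #(ℕ → Cu D) ≤ (2 : Cardinal.{0}) ^ (𝔠 : Cardinal.{0}) := by
  have key : ∀ a : Cardinal.{0}, a ≤ 2 ^ (𝔠 : Cardinal.{0}) → a ^ ℵ₀ ≤ 2 ^ (𝔠 : Cardinal.{0}) :=
    fun a ha => (power_le_power_right ha).trans (by rw [← power_mul, continuum_mul_aleph0])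
  have h1 : #(Ultrafilter ℕ) ≤ (2 : Cardinal.{0}) ^ (𝔠 : Cardinal.{0}) :=
    (mk_le_of_injective (f := fun u : Ultrafilter ℕ => (u : Filter ℕ).sets) fun u v h =>
      Ultrafilter.coe_injective (Filter.filter_eq h)).trans (by simp)
  have h2 : #(Cu D) ≤ #((ℕ → D) × Ultrafilter ℕ) := by
    refine mk_le_of_surjective (f := fun p => ⟨p.2.map p.1, range p.1,
      Ultrafilter.mem_map.2 (by rw [preimage_range]; exact univ_mem), countable_range _⟩) ?_
    rintro ⟨u, N, h3, h4⟩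
    obtain ⟨g, rfl⟩ := h4.exists_eq_range (u.nonempty_of_mem h3)
    have := Filter.comap_neBot_iff_frequently.2 (Eventually.frequently (f := (u : Filter D)) h3)
    exact ⟨⟨g, Ultrafilter.of (comap g u)⟩, Subtype.ext (Ultrafilter.eq_of_le
      ((map_mono (Ultrafilter.of_le _)).trans map_comap_le))⟩
  have h5 : ℵ₀ ≤ (2 : Cardinal.{0}) ^ (𝔠 : Cardinal.{0}) := aleph0_le_continuum.trans (cantor _).le
  simp only [mk_pi, prod_const, lift_id, mk_nat]
  refine key _ (h2.trans ?_)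
  simp only [mk_prod, mk_pi, prod_const, lift_id, mk_nat]
  exact mul_le_of_le h5 (key _ hD) h1

lemma Cu_stackel (hD : #D ≤ (2 : Cardinal.{0}) ^ (𝔠 : Cardinal.{0})) : Stackel (Cu D) := by
  have h5 : ℵ₀ ≤ (2 : Cardinal.{0}) ^ (𝔠 : Cardinal.{0}) := aleph0_le_continuum.trans (cantor _).le
  obtain ⟨f, h1, h2⟩ := Bern.inj_choice
    (fun p : {x : ℕ → Cu D // Function.Injective x} × Bool => closure (range p.1.1)) fun p => by
      refine le_trans ?_ (Cu_big (infinite_range_of_injective p.1.2))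
      simp only [mk_prod, lift_id]
      exact mul_le_of_le h5 ((mk_subtype_le _).trans (Cu_small hD)) ((lt_aleph0_of_finite _).le.trans h5)
  refine stackel_of (range fun x => f (x, true)) fun C hC hi => ?_
  let x : {x : ℕ → Cu D // Function.Injective x} := ⟨fun n => hi.natEmbedding C n,
    Subtype.val_injective.comp (hi.natEmbedding C).injective⟩
  have : closure (range x.1) ⊆ C := closure_minimal (by
    rintro _ ⟨n, rfl⟩; exact (hi.natEmbedding C n).2) hC
  refine ⟨⟨_, this (h2 (x, true)), x, rfl⟩, _, this (h2 (x, false)), fun ⟨y, hy⟩ => ?_⟩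
  simpa using congrArg Prod.snd (h1 hy)

lemma onto {Y : Type} [TopologicalSpace Y] [RegularSpace Y] [T2Space Y]
    (h : ∀ u : Ultrafilter Y, ∀ N : Set Y, N.Countable → N ∈ u → ∃ y, (u : Filter Y) ≤ 𝓝 y) :
    ∃ f : Cu Y → Y, Continuous f ∧ Function.Surjective f := by
  choose f hf using fun u : Cu Y => let ⟨N, h1, h2⟩ := u.2; h u.1 N h2 h1
  refine ⟨f, continuous_iff_continuousAt.2 fun u => (closed_nhds_basis _).tendsto_right_iff.2
    fun V hV => ?_, fun y => ⟨⟨pure y, {y}, rfl, countable_singleton y⟩, ?_⟩⟩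
  · refine mem_of_superset (((ultrafilter_isOpen_basic V).preimage continuous_subtype_val).mem_nhds
      (hf u hV.1)) fun v hv => ?_
    exact (hV.2.mem_of_tendsto (f := id) (hf v) hv : f v ∈ V)
  · exact tendsto_nhds_unique (f := id) (hf _) (pure_le_nhds y)

end Pool.Agent.H30.Sta
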