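import Mathlib

set_option autoImplicit false

open Set Filter Topology

namespace Pool.Agent.H30.SubAn

abbrev Cp (Z : Type) [TopologicalSpace Z] := {f : Z → ℝ // Continuous f}

abbrev R := ℕ → ℝ

def B0 (b : Σ m : ℕ, Fin m → ℕ) : Set R := {z | ∀ i : Fin b.1, |z i - b.2 i| < 1 / ((b.1 : ℝ) + 3)}

def B (x : ℕ → ℕ) (n : ℕ) : Set R := {z | ∀ i < n, |z i - x i| < 1 / ((n : ℝ) + 3)}

lemma B_eq (x : ℕ → ℕ) (n : ℕ) : B0 ⟨n, fun i => x i⟩ = B x n := by
  ext z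
  exact ⟨fun h i hi => h ⟨i, hi⟩, fun h i => h i i.2⟩

lemma B_congr {x y : ℕ → ℕ} {n : ℕ} (h : ∀ i < n, y i = x i) : B y n = B x n := by
  ext z
  constructor
  · intro hz i hi
    rw [← h i hi]
    exact hz i hi
  · intro hz i hi
    rw [h i hi]
    exact hz i hi

lemma B_open (x : ℕ → ℕ) (n : ℕ) : IsOpen (B x n) := by
  have : B x n = ⋂ i ∈ Finset.range n, {z : R | |z i - x i| < 1 / ((n : ℝ) + 3)} := by
    ext z
    simp [B]
  rw [this]
  exact isOpen_biInter_finset fun i _ => isOpen_lt (by fun_prop) continuous_const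

lemma B_self (x : ℕ → ℕ) (n : ℕ) : (fun i => (x i : ℝ)) ∈ B x n := by
  intro i _
  simp only [sub_self, abs_zero]
  positivity

lemma B_anti (x : ℕ → ℕ) {n m : ℕ} (h : n ≤ m) : B x m ⊆ B x n := by
  intro z hz i hi
  refine lt_of_lt_of_le (hz i (lt_of_lt_of_le hi h)) ?_
  apply one_div_le_one_div_of_le (by positivity)
  have : (n : ℝ) ≤ m := by exact_mod_cast h
  linarith

lemma B_sep (x : ℕ → ℕ) {z : R} (hz : z ≠ fun i => (x i : ℝ)) : ∃ m, z ∉ B x m := by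
  obtain ⟨i, hi⟩ := Function.ne_iff.1 hz
  have h1 : 0 < |z i - x i| := abs_pos.2 (sub_ne_zero.2 hi)
  obtain ⟨n, hn⟩ := exists_nat_one_div_lt h1
  refine ⟨max n (i + 1), fun h => ?_⟩
  have h2 := h i (lt_of_lt_of_le (Nat.lt_succ_self i) (le_max_right _ _))
  have h3 : 1 / (((max n (i + 1) : ℕ) : ℝ) + 3) ≤ 1 / ((n : ℝ) + 1) := by
    apply one_div_le_one_div_of_le (by positivity)
    have : (n : ℝ) ≤ ((max n (i + 1) : ℕ) : ℝ) := by exact_mod_cast le_max_left _ _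
    linarith
  linarith

lemma B_small {x : ℕ → ℕ} {n k : ℕ} {z : R} (h : z ∈ B (Function.update x n k) (n + 1)) :
    |z n - k| < 1 / 2 := by
  have h1 := h n (Nat.lt_succ_self n)
  rw [Function.update_self] at h1
  refine lt_of_lt_of_le h1 (one_div_le_one_div_of_le (by norm_num) ?_)
  have : (0 : ℝ) ≤ ((n + 1 : ℕ) : ℝ) := Nat.cast_nonneg _
  linarith

lemma nhds_cyl {p : ℕ → ℕ} {U : Set (ℕ → ℕ)} (hU : U ∈ 𝓝 p) :
    ∃ n, ∀ q : ℕ → ℕ, (∀ i < n, q i = p i) → q ∈ U := by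
  rw [nhds_pi, Filter.mem_pi] at hU
  obtain ⟨I, hI, S, hS, h⟩ := hU
  obtain ⟨n, hn⟩ := hI.bddAbove
  refine ⟨n + 1, fun q hq => h fun i hi => ?_⟩
  rw [hq i (Nat.lt_succ_of_le (hn hi))]
  exact mem_of_mem_nhds (hS i)

lemma cyl_nhds (p : ℕ → ℕ) (n : ℕ) : {q : ℕ → ℕ | ∀ i < n, q i = p i} ∈ 𝓝 p := by
  have : {q : ℕ → ℕ | ∀ i < n, q i = p i} = ⋂ i ∈ Finset.range n, {q : ℕ → ℕ | q i = p i} := by
    ext z
    simp
  rw [this]
  refine (isOpen_biInter_finset fun i _ => ?_).mem_nhds (by simp)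
  exact (isOpen_discrete ({p i} : Set ℕ)).preimage (continuous_apply (A := fun _ : ℕ => ℕ) i)

def Big (N : List ℕ → Set (Cp R)) (C : Set R) (s : List ℕ) (x : ℕ → ℕ) (n : ℕ) : Prop :=
  ∀ V : Cp R, (∀ z, z ∉ B x n → V.1 z = 0) →
    ∃ V' ∈ N s, (∀ z ∈ B x n, V'.1 z = V.1 z) ∧ ∀ z, z ∉ C → V'.1 z = 0

lemma big_step {N : List ℕ → Set (Cp R)} (hN : ∀ s, ∀ V ∈ N s, ∃ k, V ∈ N (k :: s)) {C : Set R}
    {s : List ℕ} {x : ℕ → ℕ} {n : ℕ} (h : Big N C s x n) {m : ℕ} (hm : n ≤ m) :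
    ∃ k, Big N C (k :: s) (Function.update x m k) (m + 1) := by
  by_contra hcon
  simp only [Big, not_exists, not_forall] at hcon
  choose V hV1 hV2 using hcon
  have hsub : ∀ k, B (Function.update x m k) (m + 1) ⊆ B x n := by
    intro k
    refine (B_anti _ (hm.trans (Nat.le_succ m))).trans (B_congr fun i hi => ?_).subset
    exact Function.update_of_ne (by omega) _ _
  have hsupp : ∀ k z, (V k).1 z ≠ 0 → z ∈ B (Function.update x m k) (m + 1) := by
    intro k z hz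
    by_contra hh
    exact hz (hV1 k z hh)
  have hlf : LocallyFinite fun k => Function.support (V k).1 := by
    intro z
    refine ⟨{y | y m < z m + 1}, (isOpen_lt (continuous_apply m) continuous_const).mem_nhds (by simp), ?_⟩
    refine (Set.finite_le_nat ⌈z m + 2⌉₊).subset ?_
    rintro k ⟨y, hy1, hy2⟩
    have h1 := abs_lt.1 (B_small (hsupp k y hy1))
    have h2 : y m < z m + 1 := hy2
    have h3 : (k : ℝ) ≤ ⌈z m + 2⌉₊ := le_trans (by linarith [h1.1]) (Nat.le_ceil _)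
    exact_mod_cast h3
  obtain ⟨V', hV', h1, h2⟩ := h ⟨fun z => ∑ᶠ k, (V k).1 z, continuous_finsum (fun k => (V k).2) hlf⟩ (by
    intro z hz
    refine finsum_eq_zero_of_forall_eq_zero fun k => ?_
    by_contra hh
    exact hz (hsub k (hsupp k z hh)))
  obtain ⟨k, hk⟩ := hN s V' hV'
  refine hV2 k V' ⟨hk, fun z hz => ?_, h2⟩
  rw [h1 z (hsub k hz)]
  refine finsum_eq_single _ k fun j hj => ?_
  by_contra hh
  have h3 := abs_lt.1 (B_small (hsupp j z hh))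
  have h4 := abs_lt.1 (B_small hz)
  have h5 : (j : ℝ) < k + 1 := by linarith [h3.1, h4.2]
  have h6 : (k : ℝ) < j + 1 := by linarith [h3.2, h4.1]
  have h7 : j < k + 1 := by exact_mod_cast h5
  have h8 : k < j + 1 := by exact_mod_cast h6
  omega

lemma big_congr {N : List ℕ → Set (Cp R)} {C : Set R} {s : List ℕ} {x y : ℕ → ℕ} {n : ℕ}
    (h : Big N C s x n) (hy : ∀ i < n, y i = x i) : Big N C s y n := by
  unfold Big
  rw [B_congr hy]
  exact h

lemma generic {N : List ℕ → Set (Cp R)} (hN : ∀ s, ∀ V ∈ N s, ∃ k, V ∈ N (k :: s)) :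
    ∃ x : ℕ → ℕ, ∀ (b : Σ m : ℕ, Fin m → ℕ) (s : List ℕ), (∃ n, Big N (B0 b) s x n) →
      ∃ k n, Big N (B0 b) (k :: s) x n := by
  let D : (Σ m : ℕ, Fin m → ℕ) → List ℕ → Set (ℕ → ℕ) := fun b s => {x | ∃ n, Big N (B0 b) s x n}
  have hD : ∀ b s, IsOpen (D b s) := by
    intro b s
    refine isOpen_iff_mem_nhds.2 fun x ⟨n, hn⟩ => ?_
    exact mem_of_superset (cyl_nhds x n) fun y hy => ⟨n, big_congr hn hy⟩
  have hd : Dense (⋂ i : (Σ m : ℕ, Fin m → ℕ) × List ℕ,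
      ((closure (D i.1 i.2))ᶜ ∪ ⋃ k, D i.1 (k :: i.2))) := by
    refine dense_iInter_of_isOpen (fun i => isClosed_closure.isOpen_compl.union
      (isOpen_iUnion fun k => hD _ _)) fun i => ?_
    rw [dense_iff_inter_open]
    rintro U hU ⟨x, hx⟩
    by_cases hc : x ∈ closure (D i.1 i.2)
    · obtain ⟨y, hyU, n, hn⟩ := mem_closure_iff.1 hc U hU hx
      obtain ⟨m, hm⟩ := nhds_cyl (hU.mem_nhds hyU)
      obtain ⟨k, hk⟩ := big_step hN hn (le_max_left n m)
      refine ⟨Function.update y (max n m) k, hm _ fun i hi => Function.update_of_ne ?_ _ _,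
        Or.inr (mem_iUnion.2 ⟨k, _, hk⟩)⟩
      have := le_max_right n m
      omega
    · exact ⟨x, hx, Or.inl hc⟩
  obtain ⟨x, hx⟩ := hd.nonempty
  refine ⟨x, fun b s hs => ?_⟩
  rcases mem_iInter.1 hx (b, s) with h | h
  · exact (h (subset_closure hs)).elim
  · exact mem_iUnion.1 h

theorem main {W Y : Type} [TopologicalSpace W] [TopologicalSpace Y] [RegularSpace Y]
    (π : W → R) (hπ : Continuous π) (hl : ∀ x : ℕ → ℕ, ∃ w, π w = fun i => (x i : ℝ))
    (g : (ℕ → ℕ) → Y) (hg : Continuous g) (hs : Function.Surjective g)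
    (e : Cp W → Y) (he : IsEmbedding e) : False := by
  let T : Cp R → Cp W := fun V => ⟨V.1 ∘ π, V.2.comp hπ⟩
  let N : List ℕ → Set (Cp R) := fun s => {V | ∃ p, PiNat.res p s.length = s ∧ g p = e (T V)}
  have hN : ∀ s, ∀ V ∈ N s, ∃ k, V ∈ N (k :: s) := by
    rintro s V ⟨p, hp, h⟩
    exact ⟨p s.length, p, by simp [hp], h⟩
  obtain ⟨x, hx⟩ := generic hN
  obtain ⟨w, hw⟩ := hl x
  have hO : IsOpen {F : Cp W | F.1 w < 1 / 2} :=
    isOpen_lt ((continuous_apply w).comp continuous_subtype_val) continuous_const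
  obtain ⟨O, hO1, hO2⟩ := he.isInducing.isOpen_iff.1 hO
  let z0 : Cp W := ⟨fun _ => 0, continuous_const⟩
  have hz0 : e z0 ∈ O := by
    have : z0 ∈ e ⁻¹' O := by
      rw [hO2]
      show (0 : ℝ) < 1 / 2
      norm_num
    exact this
  obtain ⟨C, hC1, hC2, hC3⟩ := exists_mem_nhds_isClosed_subset (hO1.mem_nhds hz0)
  have h1 : e ⁻¹' C ∈ 𝓝 z0 := he.continuous.continuousAt hC1
  rw [nhds_subtype_eq_comap, Filter.mem_comap] at h1
  obtain ⟨U, hU, hUC⟩ := h1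
  rw [nhds_pi, Filter.mem_pi] at hU
  obtain ⟨a, ha, S, hS, hSU⟩ := hU
  have h2 : ∀ u : W, ∃ m, π u ≠ (fun i => (x i : ℝ)) → π u ∉ B x m := by
    intro u
    by_cases hu : π u = fun i => (x i : ℝ)
    · exact ⟨0, fun h => (h hu).elim⟩
    · obtain ⟨m, hm⟩ := B_sep x hu
      exact ⟨m, fun _ => hm⟩
  choose μ hμ using h2
  obtain ⟨m, hm⟩ := (ha.image μ).bddAbove
  let b : Σ m : ℕ, Fin m → ℕ := ⟨m, fun i => x i⟩
  have hb : B0 b = B x m := B_eq x m
  have h3 : ∀ s, ∃ k, (∃ n, Big N (B0 b) s x n) → ∃ n, Big N (B0 b) (k :: s) x n := by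
    intro s
    by_cases h : ∃ n, Big N (B0 b) s x n
    · obtain ⟨k, hk⟩ := hx b s h
      exact ⟨k, fun _ => hk⟩
    · exact ⟨0, fun h' => (h h').elim⟩
  choose κ hκ using h3
  let L : ℕ → List ℕ := fun j => Nat.rec [] (fun _ s => κ s :: s) j
  let p : ℕ → ℕ := fun j => κ (L j)
  have hL : ∀ j, PiNat.res p j = L j := by
    intro j
    induction j with
    | zero => rfl
    | succ j ih => rw [PiNat.res_succ, ih]
  have hbig : ∀ j, ∃ n, Big N (B0 b) (L j) x n := by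
    intro j
    induction j with
    | zero =>
      refine ⟨m, fun V hV => ⟨V, ?_, fun _ _ => rfl, fun z hz => hV z (hb ▸ hz)⟩⟩
      obtain ⟨q, hq⟩ := hs (e (T V))
      exact ⟨q, rfl, hq⟩
    | succ j ih => exact hκ _ ih
  have hnb : ∀ G ∈ 𝓝 (g p), ∃ j, ∀ V ∈ N (L j), e (T V) ∈ G := by
    intro G hG
    obtain ⟨j, hj⟩ := nhds_cyl (hg.continuousAt hG)
    refine ⟨j, ?_⟩
    rintro V ⟨q, hq, hq2⟩
    rw [← hq2]
    rw [← hL j, PiNat.res_length, PiNat.res_eq_res] at hq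
    exact hj q fun i hi => hq hi
  by_cases hy : g p ∈ C
  · obtain ⟨j, hj⟩ := hnb O (hO1.mem_nhds (hC3 hy))
    obtain ⟨n, hn⟩ := hbig j
    obtain ⟨f, hf0, hf1, -⟩ := exists_continuous_zero_one_of_isClosed (B_open x n).isClosed_compl
      (isClosed_singleton (x := fun i => (x i : ℝ)))
      (Set.disjoint_singleton_right.2 fun h => h (B_self x n))
    obtain ⟨V', hV', h4, -⟩ := hn ⟨f, f.continuous⟩ fun z hz => hf0 hz
    have h5 : T V' ∈ e ⁻¹' O := hj V' hV'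
    rw [hO2] at h5
    have h6 : V'.1 (π w) < 1 / 2 := h5
    rw [hw, h4 _ (B_self x n)] at h6
    have h7 : f (fun i => (x i : ℝ)) = 1 := hf1 rfl
    have h8 : f (fun i => (x i : ℝ)) < 1 / 2 := h6
    linarith
  · obtain ⟨j, hj⟩ := hnb Cᶜ (hC2.isOpen_compl.mem_nhds hy)
    obtain ⟨n, hn⟩ := hbig j
    obtain ⟨V', hV', h4, h5⟩ := hn ⟨fun _ => 0, continuous_const⟩ fun _ _ => rfl
    refine hj V' hV' (hUC (hSU fun u hu => ?_))
    have h6 : V'.1 (π u) = 0 := by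
      by_cases hu2 : π u = fun i => (x i : ℝ)
      · rw [hu2]
        exact h4 _ (B_self x n)
      · refine h5 _ fun h => hμ u hu2 (B_anti x (hm ⟨u, hu, rfl⟩) (hb ▸ h))
    show V'.1 (π u) ∈ S u
    rw [h6]
    exact mem_of_mem_nhds (hS u)

theorem final : ¬ (∃ (Y : Type) (_ : TopologicalSpace Y),
      T35Space Y ∧ MeasureTheory.AnalyticSet (Set.univ : Set Y) ∧
      ∃ e : {g : {f : {x : ℝ // Irrational x} → ℝ // Continuous f} → ℝ // Continuous g} → Y,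
        Topology.IsEmbedding e) := by
  rintro ⟨Y, _, _, hA, e, he⟩
  rw [MeasureTheory.AnalyticSet] at hA
  rcases hA with hA | ⟨g, hg, hr⟩
  · have : e ⟨fun _ => 0, continuous_const⟩ ∈ (univ : Set Y) := trivial
    rw [hA] at this
    exact this
  · refine main (W := Cp {x : ℝ // Irrational x})
      (fun f i => f.1 ⟨√2 + i, irrational_sqrt_two.add_natCast i⟩) ?_ ?_ g hg (range_eq_univ.1 hr) e he
    · exact continuous_pi fun i => (continuous_apply _).comp continuous_subtype_val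
    · intro x
      obtain ⟨h, hh⟩ := ContinuousMap.exists_extension' Nat.isClosedEmbedding_coe_real
        (⟨fun i : ℕ => (x i : ℝ), continuous_of_discreteTopology⟩ : C(ℕ, ℝ))
      refine ⟨⟨fun y => h (y.1 - √2), by fun_prop⟩, funext fun i => ?_⟩
      simpa using congrFun hh i

end Pool.Agent.H30.SubAn
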