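import Pool.Agent.H30.SubAn

set_option autoImplicit false

open Set Filter Topology

namespace Pool.Agent.H30.SubAn

abbrev Irr := {x : ℝ // Irrational x}

lemma irr_fract {y : ℝ} (hy : Irrational y) : Irrational (Int.fract y⁻¹) := by
  unfold Int.fract
  exact hy.inv.sub_intCast _

noncomputable def gs (y : Irr) : Irr := ⟨Int.fract y.1⁻¹, irr_fract y.2⟩

lemma inv_cont : Continuous fun y : Irr => y.1⁻¹ :=
  continuous_subtype_val.inv₀ fun y => y.2.ne_zero

lemma gs_cont : Continuous gs := by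
  refine Continuous.subtype_mk (continuous_iff_continuousAt.2 fun y => ?_) _
  refine ContinuousAt.comp (f := fun y : Irr => y.1⁻¹) (continuousAt_fract ?_) inv_cont.continuousAt
  exact y.2.inv.ne_int _

lemma cf_fin : ∀ (n : ℕ) (x : ℕ → ℕ), ∃ t : ℕ → ℝ, (∀ i, t i ∈ Icc (0 : ℝ) 1) ∧
    ∀ i < n, t i * (x i + 1 + t (i + 1)) = 1 := by
  intro n
  induction n with
  | zero => exact fun _ => ⟨fun _ => 0, fun _ => ⟨le_rfl, zero_le_one⟩, fun i hi => by omega⟩
  | succ n ih =>
    intro x
    obtain ⟨t, ht, h⟩ := ih fun i => x (i + 1)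
    have h0 : (1 : ℝ) ≤ x 0 + 1 + t 0 := by
      have := (ht 0).1
      have : (0 : ℝ) ≤ x 0 := Nat.cast_nonneg _
      linarith
    refine ⟨fun i => Nat.casesOn i (x 0 + 1 + t 0)⁻¹ t, fun i => ?_, fun i hi => ?_⟩
    · cases i with
      | zero => exact ⟨inv_nonneg.2 (by linarith), inv_le_one_of_one_le₀ h0⟩
      | succ i => exact ht i
    · cases i with
      | zero => exact inv_mul_cancel₀ (by linarith)
      | succ i => exact h i (by omega)

lemma cf (x : ℕ → ℕ) : ∃ t : ℕ → ℝ, (∀ i, t i ∈ Icc (0 : ℝ) 1) ∧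
    ∀ i, t i * (x i + 1 + t (i + 1)) = 1 := by
  let K : ℕ → Set (ℕ → ℝ) := fun n => {t | (∀ i, t i ∈ Icc (0 : ℝ) 1) ∧
    ∀ i < n, t i * (x i + 1 + t (i + 1)) = 1}
  have hc : ∀ n, IsClosed (K n) := by
    intro n
    have : K n = (⋂ i, {t : ℕ → ℝ | t i ∈ Icc (0 : ℝ) 1}) ∩
        ⋂ i, ⋂ (_ : i < n), {t : ℕ → ℝ | t i * (x i + 1 + t (i + 1)) = 1} := by
      ext t
      simp [K]
    rw [this]
    refine (isClosed_iInter fun i => isClosed_Icc.preimage (continuous_apply i)).inter
      (isClosed_iInter fun i => isClosed_iInter fun _ => isClosed_eq (by fun_prop) continuous_const)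
  obtain ⟨t, ht⟩ := IsCompact.nonempty_iInter_of_sequence_nonempty_isCompact_isClosed K
    (fun n t ht => ⟨ht.1, fun i hi => ht.2 i (by omega)⟩) (fun n => cf_fin n x)
    ((isCompact_univ_pi fun _ => (isCompact_Icc : IsCompact (Icc (0 : ℝ) 1))).of_isClosed_subset (hc 0)
      fun t ht i _ => ht.1 i) hc
  have h := mem_iInter.1 ht
  exact ⟨t, (h 0).1, fun i => (h (i + 1)).2 i (Nat.lt_succ_self i)⟩

lemma lift (x : ℕ → ℕ) : ∃ y : Irr, ∀ i, (gs^[i] y).1⁻¹ - (gs^[i + 1] y).1 - 1 = x i := by
  obtain ⟨t, ht, h⟩ := cf x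
  have hpos : ∀ i, 0 < t i := by
    intro i
    refine lt_of_le_of_ne (ht i).1 fun h0 => ?_
    have := h i
    rw [← h0] at this
    simp at this
  have hinv : ∀ i, (t i)⁻¹ = x i + 1 + t (i + 1) := fun i => (eq_inv_of_mul_eq_one_right (h i)).symm
  have hlt : ∀ i, t i < 1 := by
    intro i
    have h1 : (0 : ℝ) ≤ x i := Nat.cast_nonneg _
    have h2 := hpos (i + 1)
    have h3 := hpos i
    have h4 := h i
    nlinarith
  have hirr : ∀ (q : ℕ) (i : ℕ) (p : ℕ), t i * q ≠ p ∨ q = 0 := by
    intro q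
    induction q using Nat.strong_induction_on with
    | _ q ih =>
      intro i p
      by_contra hcon
      push Not at hcon
      obtain ⟨h1, h2⟩ := hcon
      have hq : (0 : ℝ) < q := by exact_mod_cast Nat.pos_of_ne_zero h2
      have h3 : (p : ℝ) < q := by
        rw [← h1]
        nlinarith [hlt i]
      have h4 : (0 : ℝ) < p := by
        rw [← h1]
        exact mul_pos (hpos i) hq
      have h5 : t (i + 1) * p = q - (x i + 1) * p := by
        have := h i
        rw [← h1]
        linear_combination (q : ℝ) * this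
      have h6 : (x i + 1) * p ≤ q := by
        have : ((x i + 1 : ℝ)) * p ≤ q := by nlinarith [mul_pos (hpos (i + 1)) h4]
        exact_mod_cast this
      rcases ih p (by exact_mod_cast h3) (i + 1) (q - (x i + 1) * p) with h7 | h7
      · apply h7
        rw [h5]
        push_cast [h6]
        ring
      · rw [h7] at h4
        simp at h4
  have hI : ∀ i, Irrational (t i) := by
    rintro i ⟨r, hr⟩
    have h1 : 0 < r := by
      have := hpos i
      rw [← hr] at this
      exact_mod_cast this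
    rcases hirr r.den i r.num.toNat with h2 | h2
    · apply h2
      rw [← hr]
      have h3 : ((r.num.toNat : ℕ) : ℤ) = r.num := Int.toNat_of_nonneg (Rat.num_pos.2 h1).le
      have h4 : ((r.num.toNat : ℕ) : ℝ) = (r.num : ℝ) := by exact_mod_cast h3
      rw [h4]
      exact_mod_cast Rat.mul_den_eq_num r
    · exact r.den_nz h2
  have hit : ∀ i, (gs^[i] ⟨t 0, hI 0⟩).1 = t i := by
    intro i
    induction i with
    | zero => rfl
    | succ i ih =>
      rw [Function.iterate_succ_apply']
      show Int.fract (gs^[i] ⟨t 0, hI 0⟩).1⁻¹ = t (i + 1)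
      rw [ih, hinv, Int.fract_eq_iff]
      exact ⟨(hpos _).le, hlt _, x i + 1, by push_cast; ring⟩
  refine ⟨⟨t 0, hI 0⟩, fun i => ?_⟩
  rw [hit, hit, hinv]
  ring

theorem final2 : ¬ (∃ (Y : Type) (_ : TopologicalSpace Y), T35Space Y ∧
      (∃ g : {x : ℝ // Irrational x} → Y, Continuous g ∧ Function.Surjective g) ∧
      ∃ e : {f : {x : ℝ // Irrational x} → ℝ // Continuous f} → Y,
        Topology.IsEmbedding e) := by
  rintro ⟨Y, _, _, ⟨g, hg, hs⟩, e, he⟩
  have hA : MeasureTheory.AnalyticSet {x : ℝ | Irrational x} :=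
    IsGδ.setOf_irrational.measurableSet.analyticSet
  rw [MeasureTheory.AnalyticSet] at hA
  rcases hA with hA | ⟨f, hf, hr⟩
  · have : √2 ∈ {x : ℝ | Irrational x} := irrational_sqrt_two
    rw [hA] at this
    exact this
  · have h1 : ∀ p, Irrational (f p) := fun p => by
      have : f p ∈ range f := ⟨p, rfl⟩
      rwa [hr] at this
    refine main (W := Irr) (fun y i => (gs^[i] y).1⁻¹ - (gs^[i + 1] y).1 - 1) ?_ ?_
      (fun p => g ⟨f p, h1 p⟩) (hg.comp (hf.subtype_mk _)) ?_ e he
    · refine continuous_pi fun i => Continuous.sub (Continuous.sub ?_ ?_) continuous_const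
      · exact inv_cont.comp (gs_cont.iterate i)
      · exact continuous_subtype_val.comp (gs_cont.iterate (i + 1))
    · intro x
      obtain ⟨y, hy⟩ := lift x
      exact ⟨y, funext hy⟩
    · intro y
      obtain ⟨u, rfl⟩ := hs y
      have : u.1 ∈ range f := by
        rw [hr]
        exact u.2
      obtain ⟨p, hp⟩ := this
      exact ⟨p, congrArg g (Subtype.ext hp)⟩

end Pool.Agent.H30.SubAn
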