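import Mathlib

set_option autoImplicit false

namespace Pool.Agent.H30.Sym

open Metric Pointwise

/-- The class `B`: nonempty compact convex sets, with nonempty interior when `body` is true. -/
def InB {n : ℕ} (body : Bool) (K : Set (EuclideanSpace ℝ (Fin n))) : Prop :=
  K.Nonempty ∧ IsCompact K ∧ Convex ℝ K ∧ (body = true → (interior K).Nonempty)

/-- The `H`-symmetric spherical cylinder `D_r(x) + s (B^n ∩ H^⊥)`. -/
def cyl {n : ℕ} (H : Submodule ℝ (EuclideanSpace ℝ (Fin n))) (x : EuclideanSpace ℝ (Fin n))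
    (r s : ℝ) : Set (EuclideanSpace ℝ (Fin n)) :=
  (closedBall x r ∩ (H : Set (EuclideanSpace ℝ (Fin n)))) +
    s • (closedBall (0 : EuclideanSpace ℝ (Fin n)) 1 ∩ (Hᗮ : Set (EuclideanSpace ℝ (Fin n))))

lemma mem_cyl {n : ℕ} (H : Submodule ℝ (EuclideanSpace ℝ (Fin n))) (x : EuclideanSpace ℝ (Fin n))
    (r : ℝ) {s : ℝ} (hs : 0 < s) (y : EuclideanSpace ℝ (Fin n)) :
    y ∈ cyl H x r s ↔ ‖H.starProjection y - x‖ ≤ r ∧ ‖y - H.starProjection y‖ ≤ s := by
  constructor
  · rintro ⟨a, ⟨ha, haH⟩, _, ⟨b, ⟨hb, hbH⟩, rfl⟩, rfl⟩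
    have e : H.starProjection (a + s • b) = a :=
      Submodule.eq_starProjection_of_mem_orthogonal' haH (Submodule.smul_mem _ s hbH) rfl
    simp only [e, add_sub_cancel_left, norm_smul, Real.norm_eq_abs, abs_of_pos hs]
    rw [mem_closedBall, dist_eq_norm] at ha
    rw [mem_closedBall, dist_zero_right] at hb
    exact ⟨ha, mul_le_of_le_one_right hs.le hb⟩
  · rintro ⟨h1, h2⟩
    refine ⟨H.starProjection y, ⟨by rwa [mem_closedBall, dist_eq_norm],
      H.starProjection_apply_mem y⟩, y - H.starProjection y,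
      ⟨s⁻¹ • (y - H.starProjection y), ⟨?_,
        Submodule.smul_mem _ _ (H.sub_starProjection_mem_orthogonal y)⟩, ?_⟩, by simp⟩
    · rw [mem_closedBall, dist_zero_right, norm_smul, Real.norm_eq_abs, abs_of_pos (inv_pos.2 hs),
        inv_mul_le_iff₀ hs]
      simpa using h2
    · simp only [smul_smul, mul_inv_cancel₀ hs.ne', one_smul]

lemma norm_sub_le' {n : ℕ} (H : Submodule ℝ (EuclideanSpace ℝ (Fin n)))
    (y : EuclideanSpace ℝ (Fin n)) : ‖y - H.starProjection y‖ ≤ 2 * ‖y‖ := by
  have := norm_sub_le y (H.starProjection y)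
  have := H.norm_starProjection_apply_le y
  linarith

lemma cyl_mem {n : ℕ} (body : Bool) (H : Submodule ℝ (EuclideanSpace ℝ (Fin n)))
    {x : EuclideanSpace ℝ (Fin n)} (hx : x ∈ H) {r s : ℝ} (hr : 0 < r) (hs : 0 < s) :
    InB body (cyl H x r s) := by
  have hx' : H.starProjection x = x := Submodule.starProjection_eq_self_iff.2 hx
  have hball : ball x (min r (s / 2)) ⊆ cyl H x r s := by
    intro y hy
    rw [mem_ball, dist_eq_norm, lt_min_iff] at hy
    rw [mem_cyl H x r hs]
    constructor
    · have := H.norm_starProjection_apply_le (y - x)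
      rw [map_sub, hx'] at this
      linarith [hy.1]
    · have := norm_sub_le' H (y - x)
      rw [map_sub, hx', sub_sub_sub_cancel_right] at this
      linarith [hy.2]
  have hpos : 0 < min r (s / 2) := lt_min hr (by linarith)
  refine ⟨⟨x, hball (mem_ball_self hpos)⟩, ?_, ?_, fun _ => ⟨x, ?_⟩⟩
  · exact ((isCompact_closedBall x r).inter_right H.closed_of_finiteDimensional).add
      (((isCompact_closedBall 0 1).inter_right Hᗮ.closed_of_finiteDimensional).smul s)
  · exact ((convex_closedBall x r).inter H.convex).add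
      (((convex_closedBall 0 1).inter Hᗮ.convex).smul s)
  · exact interior_maximal hball isOpen_ball (mem_ball_self hpos)

theorem proj_inv (n : ℕ) (H : Submodule ℝ (EuclideanSpace ℝ (Fin n))) (body : Bool)
    (S : Set (EuclideanSpace ℝ (Fin n)) → Set (EuclideanSpace ℝ (Fin n)))
    (hS : ∀ K, InB body K → InB body (S K))
    (mono : ∀ K L, InB body K → InB body L → K ⊆ L → S K ⊆ S L)
    (inv : ∀ x ∈ H, ∀ r s : ℝ, 0 < r → 0 < s → S (cyl H x r s) = cyl H x r s)
    (K : Set (EuclideanSpace ℝ (Fin n))) (hK : InB body K) :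
    H.starProjection '' S K = H.starProjection '' K := by
  have key : ∀ L, InB body L → ∀ x ∈ H, ∀ r : ℝ, 0 < r →
      (∀ y ∈ L, ‖H.starProjection y - x‖ ≤ r) → ∀ y ∈ S L, ‖H.starProjection y - x‖ ≤ r := by
    intro L hL x hx r hr h y hy
    obtain ⟨M, hM0, hM⟩ := hL.2.1.isBounded.exists_pos_norm_le
    have hs : 0 < 2 * M := by linarith
    have hsub : L ⊆ cyl H x r (2 * M) := fun z hz =>
      (mem_cyl H x r hs z).2 ⟨h z hz, by linarith [norm_sub_le' H z, hM z hz]⟩
    have := mono L _ hL (cyl_mem body H hx hr hs) hsub hy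
    rw [inv x hx r _ hr hs, mem_cyl H x r hs] at this
    exact this.1
  apply Set.Subset.antisymm
  · rintro _ ⟨y, hy, rfl⟩
    set z := H.starProjection y with hz
    have hPc : IsCompact (H.starProjection '' K) := hK.2.1.image H.starProjection.continuous
    have hPv : Convex ℝ (H.starProjection '' K) :=
      hK.2.2.1.is_linear_image H.starProjection.toLinearMap.isLinear
    obtain ⟨w, hw, hmin⟩ := exists_norm_eq_iInf_of_complete_convex (hK.1.image _)
      hPc.isComplete hPv z
    have hin := (norm_eq_iInf_iff_real_inner_le_zero hPv hw).1 hmin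
    by_contra hzn
    have hd : 0 < ‖z - w‖ := norm_pos_iff.2 (sub_ne_zero.2 fun h => hzn (h ▸ hw))
    obtain ⟨M, hM0, hM⟩ := (hPc.isBounded.sub (Bornology.isBounded_singleton (x := w))).exists_pos_norm_le
    set d := ‖z - w‖ with hdd
    set T : ℝ := M ^ 2 / d ^ 2 with hT
    have hT0 : 0 < T := by positivity
    have hTd : T * d ^ 2 = M ^ 2 := by rw [hT]; field_simp
    have hwH : w ∈ H := by obtain ⟨k, -, rfl⟩ := hw; exact H.starProjection_apply_mem k
    have hzH : z ∈ H := H.starProjection_apply_mem y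
    have hc : w - T • (z - w) ∈ H := H.sub_mem hwH (H.smul_mem _ (H.sub_mem hzH hwH))
    have hr : 0 < M ^ 2 + T ^ 2 * d ^ 2 := by positivity
    have := key K hK _ hc (√(M ^ 2 + T ^ 2 * d ^ 2)) (Real.sqrt_pos.2 hr) (fun k hk => by
      apply Real.le_sqrt_of_sq_le
      have e : H.starProjection k - (w - T • (z - w)) = (H.starProjection k - w) + T • (z - w) := by
        abel
      rw [e, norm_add_sq_real, inner_smul_right, norm_smul, mul_pow, Real.norm_eq_abs, sq_abs,
        real_inner_comm]
      have h1 := hin _ ⟨k, hk, rfl⟩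
      have h2 := hM _ ⟨_, ⟨k, hk, rfl⟩, w, rfl, rfl⟩
      have h3 : ‖H.starProjection k - w‖ ^ 2 ≤ M ^ 2 := pow_le_pow_left₀ (norm_nonneg _) h2 2
      nlinarith) y hy
    have e : z - (w - T • (z - w)) = (1 + T) • (z - w) := by
      rw [add_smul, one_smul]; abel
    rw [← hz, e, norm_smul, Real.norm_eq_abs, abs_of_pos (by linarith)] at this
    have h2 := pow_le_pow_left₀ (by positivity) this 2
    rw [Real.sq_sqrt hr.le] at h2
    nlinarith [sq_pos_of_pos hd, sq_pos_of_pos hM0]
  · rintro _ ⟨k, hk, rfl⟩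
    have hcl : IsClosed (H.starProjection '' S K) :=
      ((hS K hK).2.1.image H.starProjection.continuous).isClosed
    rw [← hcl.closure_eq, Metric.mem_closure_iff]
    intro ε hε
    have hL : InB body (K ∩ closedBall k (ε / 2)) := by
      refine ⟨⟨k, hk, mem_closedBall_self (by linarith)⟩, hK.2.1.inter_right isClosed_closedBall,
        hK.2.2.1.inter (convex_closedBall _ _), fun hb => ?_⟩
      have h1 : k ∈ closure (interior K) := by
        rw [hK.2.2.1.closure_interior_eq_closure_of_nonempty_interior (hK.2.2.2 hb)]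
        exact subset_closure hk
      obtain ⟨u, hu, hd⟩ := Metric.mem_closure_iff.1 h1 (ε / 2) (by linarith)
      refine ⟨u, ?_⟩
      rw [interior_inter]
      exact ⟨hu, ball_subset_interior_closedBall (by rwa [mem_ball, dist_comm])⟩
    obtain ⟨y, hy⟩ := (hS _ hL).1
    have := key _ hL _ (H.starProjection_apply_mem k) (ε / 2) (by linarith) (fun u hu => by
      rw [← map_sub]
      refine (H.norm_starProjection_apply_le _).trans ?_
      have := hu.2
      rwa [mem_closedBall, dist_eq_norm] at this) y hy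
    refine ⟨_, ⟨y, mono _ _ hL hK Set.inter_subset_left hy, rfl⟩, ?_⟩
    rw [dist_comm, dist_eq_norm]
    linarith

end Pool.Agent.H30.Sym
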