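import Pool.Agent.H30.SplB
import Pool.Agent.H30.SkA

set_option autoImplicit false

namespace Pool.Agent.H30.Tau

open Set Filter Topology Function

variable {Z : Type} [TopologicalSpace Z]

/-- Open covers that do not contain the whole space. -/
def Oc (𝒰 : Set (Set Z)) : Prop := (∀ U ∈ 𝒰, IsOpen U) ∧ univ ∉ 𝒰 ∧ ⋃₀ 𝒰 = univ

/-- Open `ω`-covers. -/
def Om (𝒰 : Set (Set Z)) : Prop := Oc 𝒰 ∧ ∀ F : Set Z, F.Finite → ∃ U ∈ 𝒰, F ⊆ U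

/-- Open `γ`-covers. -/
def Ga (𝒰 : Set (Set Z)) : Prop := Oc 𝒰 ∧ 𝒰.Infinite ∧ ∀ x, {U ∈ 𝒰 | x ∉ U}.Finite

/-- Open `τ`-covers. -/
def Ta (𝒰 : Set (Set Z)) : Prop := Oc 𝒰 ∧ (∀ x, {U ∈ 𝒰 | x ∈ U}.Infinite) ∧
  ∀ x y, {U ∈ 𝒰 | x ∈ U ∧ y ∉ U}.Finite ∨ {U ∈ 𝒰 | y ∈ U ∧ x ∉ U}.Finite

/-- `S₁(A, B)`. -/
def S1 (A B : Set (Set Z) → Prop) : Prop :=
  ∀ 𝒰 : ℕ → Set (Set Z), (∀ n, A (𝒰 n)) → ∃ f : ℕ → Set Z, (∀ n, f n ∈ 𝒰 n) ∧ B (range f)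

/-- `S_fin(A, B)`. -/
def Sfin (A B : Set (Set Z) → Prop) : Prop :=
  ∀ 𝒰 : ℕ → Set (Set Z), (∀ n, A (𝒰 n)) →
    ∃ F : ℕ → Set (Set Z), (∀ n, (F n).Finite ∧ F n ⊆ 𝒰 n) ∧ B (⋃ n, F n)

/-- `U_fin(A, B)`. -/
def Ufin (A B : Set (Set Z) → Prop) : Prop :=
  ∀ 𝒰 : ℕ → Set (Set Z), (∀ n, A (𝒰 n)) → (∀ n, ∀ F ⊆ 𝒰 n, F.Finite → ⋃₀ F ≠ univ) →
    ∃ F : ℕ → Set (Set Z), (∀ n, (F n).Finite ∧ F n ⊆ 𝒰 n) ∧ B (range fun n => ⋃₀ F n)

/-- Every cover in `A` has a subfamily in `B`. -/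
def Ch (A B : Set (Set Z) → Prop) : Prop := ∀ 𝒰, A 𝒰 → ∃ 𝒱 ⊆ 𝒰, B 𝒱

lemma oc_of {𝒰 : Set (Set Z)} (h1 : ∀ U ∈ 𝒰, IsOpen U) (h2 : univ ∉ 𝒰)
    (h3 : ∀ x, {U ∈ 𝒰 | x ∈ U}.Infinite) : Oc 𝒰 :=
  ⟨h1, h2, eq_univ_of_forall fun x => let ⟨U, h⟩ := (h3 x).nonempty; ⟨U, h⟩⟩

lemma Ga.ta {𝒰 : Set (Set Z)} (h : Ga 𝒰) : Ta 𝒰 :=
  ⟨h.1, fun x => (h.2.1.diff (h.2.2 x)).mono fun _ hU => ⟨hU.1, by_contra fun e => hU.2 ⟨hU.1, e⟩⟩,
    fun _ y => Or.inl ((h.2.2 y).subset fun _ hU => ⟨hU.1, hU.2.2⟩)⟩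

lemma chain_min {α β : Type} {a : α → Set β} {F : Set α} (hF : F.Finite) (h0 : F.Nonempty)
    (h : ∀ x y, (a x \ a y).Finite ∨ (a y \ a x).Finite) : ∃ x ∈ F, ∀ y ∈ F, (a x \ a y).Finite := by
  induction F, hF using Set.Finite.induction_on with
  | empty => exact absurd h0 not_nonempty_empty
  | @insert z F _ _ ih =>
    rcases F.eq_empty_or_nonempty with rfl | h1
    · exact ⟨z, by simp⟩
    obtain ⟨x, h2, h3⟩ := ih h1
    rcases h x z with h4 | h4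
    · exact ⟨x, Or.inr h2, forall_mem_insert.2 ⟨h4, h3⟩⟩
    · exact ⟨z, Or.inl rfl, forall_mem_insert.2 ⟨by simp, fun y hy => (h4.union (h3 y hy)).subset
        fun i hi => by by_cases e : i ∈ a x; exacts [Or.inr ⟨e, hi.2⟩, Or.inl ⟨hi.1, e⟩]⟩⟩

lemma chain_inf {α β : Type} [Infinite β] {a : α → Set β} (h1 : ∀ x, (a x).Infinite)
    (h : ∀ x y, (a x \ a y).Finite ∨ (a y \ a x).Finite) {F : Set α} (hF : F.Finite) :
    (⋂ x ∈ F, a x).Infinite := by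
  rcases F.eq_empty_or_nonempty with rfl | h0
  · simpa using infinite_univ
  obtain ⟨x, -, h2⟩ := chain_min hF h0 h
  exact ((h1 x).diff (hF.biUnion h2)).mono fun i hi => mem_iInter₂.2 fun y hy =>
    by_contra fun e => hi.2 (mem_biUnion hy ⟨hi.1, e⟩)

lemma Ta.om [Nonempty Z] {𝒰 : Set (Set Z)} (h : Ta 𝒰) : Om 𝒰 := by
  refine ⟨h.1, fun F hF => ?_⟩
  obtain ⟨z⟩ := ‹Nonempty Z›
  have := infinite_univ_iff.1 ((h.2.1 z).mono (subset_univ _))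
  obtain ⟨U, hU⟩ := (chain_inf (a := fun x => {U ∈ 𝒰 | x ∈ U}) h.2.1 (fun x y => (h.2.2 x y).imp
    (fun e => e.subset fun U hU => ⟨hU.1.1, hU.1.2, fun e => hU.2 ⟨hU.1.1, e⟩⟩)
    (fun e => e.subset fun U hU => ⟨hU.1.1, hU.1.2, fun e => hU.2 ⟨hU.1.1, e⟩⟩)) (hF.insert z)).nonempty
  exact ⟨U, (mem_iInter₂.1 hU z (Or.inl rfl)).1, fun x hx => (mem_iInter₂.1 hU x (Or.inr hx)).2⟩

lemma ga_of_seq {f : ℕ → Set Z} (h1 : ∀ n, IsOpen (f n)) (h2 : ∀ n, f n ≠ univ)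
    (h3 : ∀ x, ∀ᶠ n in atTop, x ∈ f n) : Ga (range f) := by
  refine ⟨⟨forall_mem_range.2 h1, fun ⟨n, h⟩ => h2 n h, eq_univ_of_forall fun x =>
    let ⟨n, hn⟩ := (h3 x).exists; ⟨_, ⟨n, rfl⟩, hn⟩⟩, fun hf => ?_, fun x => ?_⟩
  · choose z hz using fun n => (ne_univ_iff_exists_notMem _).1 (h2 n)
    choose! n hn using fun U (h : U ∈ range f) => h
    obtain ⟨m, hm⟩ := ((eventually_all_finite hf).2 fun U _ => h3 (z (n U))).exists
    exact hz _ ((hn _ ⟨m, rfl⟩).symm.subset (hm _ ⟨m, rfl⟩))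
  · obtain ⟨N, hN⟩ := eventually_atTop.1 (h3 x)
    refine ((finite_lt_nat N).image f).subset ?_
    rintro _ ⟨⟨n, rfl⟩, h⟩
    exact ⟨n, not_le.1 fun e => h (hN n e), rfl⟩

lemma Ga.seq {𝒰 : Set (Set Z)} (h : Ga 𝒰) : ∃ f : ℕ → Set Z, (∀ n, f n ∈ 𝒰) ∧
    ∀ x, ∀ᶠ n in atTop, x ∈ f n :=
  ⟨fun n => h.2.1.natEmbedding _ n, fun n => (h.2.1.natEmbedding _ n).2, fun x => by
    rw [← Nat.cofinite_eq_atTop]
    exact ((h.2.2 x).preimage (Subtype.val_injective.comp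
      (h.2.1.natEmbedding _).injective).injOn).subset fun n hn => ⟨(h.2.1.natEmbedding _ n).2, hn⟩⟩

lemma two {A : Set (Set Z) → Prop} (h : S1 A Ta) {K : Bool → Set Z} (hK : Disjoint (K true) (K false))
    (U : Bool → ℕ → ℕ → Set Z) (hA : ∀ i n E, E.Finite → (∀ m, ¬ K i ⊆ U i n m) →
      A (range (fun m => U i n m ∪ (K i)ᶜ) \ E)) :
    ∃ i, ∃ g : ℕ → ℕ, ∀ x ∈ K i, ∀ᶠ n in atTop, x ∈ U i n (g n) := by
  classical
  by_contra hc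
  have H0 : ∀ i, ∃ n, ∀ m, ¬ K i ⊆ U i n m := fun i => by_contra fun h0 => by
    simp only [not_exists, not_forall, not_not] at h0
    choose g hg using h0
    exact hc ⟨i, g, fun x hx => Eventually.of_forall fun n => hg n hx⟩
  choose n0 hn0 using H0
  let r : Bool → ℕ → ℕ := fun i n => if ∀ m, ¬ K i ⊆ U i n m then n else n0 i
  have hr : ∀ i n m, ¬ K i ⊆ U i (r i n) m := fun i n => by
    simp only [r]; split_ifs with e; exacts [e, hn0 i]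
  let W : Bool → ℕ → Set Z := fun i p => U i p.unpair.1 p.unpair.2 ∪ (K i)ᶜ
  obtain ⟨f, f1, -, -, f2⟩ := h (fun n => range (fun m => U n.bodd (r n.bodd n.div2) m ∪ (K n.bodd)ᶜ) \
    W n.bodd '' Iio n.div2) fun n => hA _ _ _ ((finite_Iio _).image _) (hr _ _)
  choose g hg using fun n => (f1 n).1
  have H : ∀ i, ∃ x ∈ K i, {V ∈ range f | (K i)ᶜ ⊆ V ∧ x ∉ V}.Infinite := fun i => by_contra fun h0 => by
    simp only [not_exists, not_and, not_infinite] at h0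
    have h1 : ∀ n, ∃ m, (r i n = n ∧ m = g (Nat.bit i n)) ∨ K i ⊆ U i n m := fun n => by
      by_cases e : ∀ m, ¬ K i ⊆ U i n m
      · exact ⟨_, Or.inl ⟨if_pos e, rfl⟩⟩
      · simp only [not_forall, not_not] at e
        exact e.imp fun _ => Or.inr
    choose g' hg' using h1
    refine hc ⟨i, g', fun x hx => ?_⟩
    have h2 : ∀ V ∈ {V ∈ range f | (K i)ᶜ ⊆ V ∧ x ∉ V}, ∀ᶠ n in atTop, f (Nat.bit i n) ≠ V := fun V _ => by
      by_cases e : ∃ p, W i p = V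
      · obtain ⟨p, rfl⟩ := e
        exact (eventually_gt_atTop p).mono fun n hn e => (f1 (Nat.bit i n)).2 ⟨p, by simpa, by simp [e]⟩
      · exact Eventually.of_forall fun n e' => e ⟨Nat.pair (r i n) (g (Nat.bit i n)), by
          simpa [W, e'] using hg (Nat.bit i n)⟩
    refine ((eventually_all_finite (h0 x hx)).2 h2).mono fun n hn => ?_
    refine (hg' n).elim (fun ⟨e1, e2⟩ => by_contra fun e3 => ?_) fun e => e hx
    have e4 : f (Nat.bit i n) = U i n (g' n) ∪ (K i)ᶜ := by simpa [e1, e2] using (hg (Nat.bit i n)).symm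
    exact hn _ ⟨⟨_, rfl⟩, e4 ▸ subset_union_right, e4 ▸ fun e => e.elim e3 (· hx)⟩ rfl
  obtain ⟨x, x1, x2⟩ := H true
  obtain ⟨y, y1, y2⟩ := H false
  exact (f2 x y).elim (fun e => y2 (e.subset fun V hV => ⟨hV.1, hV.2.1 (disjoint_left.1 hK x1), hV.2.2⟩))
    fun e => x2 (e.subset fun V hV => ⟨hV.1, hV.2.1 (disjoint_right.1 hK y1), hV.2.2⟩)

lemma decomp [SecondCountableTopology Z] [T25Space Z] {P : Set Z → Prop} (h0 : ∀ S : Set Z, S.Subsingleton → P S)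
    (h : ∀ K : Bool → Set Z, (∀ i, IsClosed (K i)) → Disjoint (K true) (K false) → ∃ i, P (K i)) :
    ∃ K : ℕ → Set Z, (∀ k, P (K k)) ∧ ∀ x, ∃ k, x ∈ K k := by
  obtain ⟨T, T1, T2, T3⟩ := TopologicalSpace.isOpen_sUnion_countable
    {U | IsOpen U ∧ P (closure U)} fun _ h => h.1
  have h1 : (⋃₀ T)ᶜ.Subsingleton := fun x hx y hy => by_contra fun e => by
    obtain ⟨s, s1, t, t1, h2⟩ := exists_nhds_disjoint_closure e
    have h3 := h2.mono (closure_mono (interior_subset (s := s))) (closure_mono (interior_subset (s := t)))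
    obtain ⟨_ | _, h4⟩ := h (fun i => cond i (closure (interior s)) (closure (interior t)))
      (by rintro (_ | _) <;> exact isClosed_closure) h3
    · exact hy (T3.symm.subset ⟨_, ⟨isOpen_interior, h4⟩, mem_interior_iff_mem_nhds.2 t1⟩)
    · exact hx (T3.symm.subset ⟨_, ⟨isOpen_interior, h4⟩, mem_interior_iff_mem_nhds.2 s1⟩)
  obtain ⟨K, hK⟩ := ((T1.image closure).insert (⋃₀ T)ᶜ).exists_eq_range (insert_nonempty _ _)
  refine ⟨K, fun k => ?_, fun x => ?_⟩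
  · rcases hK.symm.subset ⟨k, rfl⟩ with e | ⟨U, h2, e⟩
    exacts [e ▸ h0 _ h1, e ▸ (T2 h2).2]
  · by_cases e : x ∈ ⋃₀ T
    · obtain ⟨U, h2, h3⟩ := e
      obtain ⟨k, hk⟩ := hK.subset (Or.inr ⟨U, h2, rfl⟩)
      exact ⟨k, hk ▸ subset_closure h3⟩
    · obtain ⟨k, hk⟩ := hK.subset (Or.inl rfl)
      exact ⟨k, hk ▸ e⟩

def GG (K : Set Z) : Prop := ∀ U : ℕ → ℕ → Set Z, (∀ n m, IsOpen (U n m)) →
  (∀ n, ∀ x ∈ K, ∀ᶠ m in atTop, x ∈ U n m) → ∃ g : ℕ → ℕ, ∀ x ∈ K, ∀ᶠ n in atTop, x ∈ U n (g n)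

lemma GG.union {K : ℕ → Set Z} (h : ∀ k, GG (K k)) : GG (⋃ k, K k) := fun U h1 h2 => by
  have H : ∀ k (e : ℕ → ℕ → ℕ), ∃ g : ℕ → ℕ → ℕ, (∀ n j, j ≤ g n j) ∧ ((∀ n j, j ≤ e n j) →
      ∀ x ∈ K k, ∀ᶠ n in atTop, ∀ j, x ∈ U n (e n (g n j))) := fun k e => by
    by_cases he : ∀ n j, j ≤ e n j
    swap
    · exact ⟨fun _ j => j, fun _ _ => le_rfl, fun h => absurd h he⟩
    obtain ⟨g, hg⟩ := h k (fun p m => U p.unpair.1 (e p.unpair.1 (p + m))) (fun _ _ => h1 _ _) fun p x hx =>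
      (tendsto_atTop_mono (fun m => (Nat.le_add_left m p).trans (he _ _)) tendsto_id).eventually
        (h2 _ x (mem_iUnion.2 ⟨k, hx⟩))
    refine ⟨fun n j => Nat.pair n j + g (Nat.pair n j), fun n j =>
      (Nat.right_le_pair n j).trans (Nat.le_add_right _ _), fun _ x hx => ?_⟩
    obtain ⟨N, hN⟩ := eventually_atTop.1 (hg x hx)
    exact eventually_atTop.2 ⟨N, fun n hn j => by simpa using hN _ (hn.trans (Nat.left_le_pair n j))⟩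
  choose G G1 G2 using H
  let e : ℕ → ℕ → ℕ → ℕ := fun k => Nat.rec (fun _ j => j) (fun k e n j => e n (G k e n j)) k
  have e1 : ∀ k n j, e (k + 1) n j = e k n (G k (e k) n j) := fun _ _ _ => rfl
  have e2 : ∀ k n j, j ≤ e k n j := fun k => by
    induction k with
    | zero => exact fun _ _ => le_rfl
    | succ k ih => exact fun n j => (G1 _ _ n j).trans (ih n _)
  clear_value e
  have e3 : ∀ k l, k ≤ l → ∀ n j, ∃ j', e l n j = e k n j' := fun k l hkl => by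
    induction l, hkl using Nat.le_induction with
    | base => exact fun n j => ⟨j, rfl⟩
    | succ l _ ih => exact fun n j => e1 l n j ▸ ih n _
  refine ⟨fun n => e n n 0, fun x hx => ?_⟩
  obtain ⟨k, hk⟩ := mem_iUnion.1 hx
  filter_upwards [G2 k (e k) (e2 k) x hk, eventually_gt_atTop k] with n h3 h4
  obtain ⟨j, hj⟩ := e3 (k + 1) n h4 n 0
  rw [hj, e1]
  exact h3 j

lemma GG.sub {K : Set Z} (h : K.Subsingleton) : GG K := fun U _ h2 => by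
  rcases h.eq_empty_or_singleton with rfl | ⟨z, rfl⟩
  · exact ⟨0, by simp⟩
  · choose g hg using fun n => (h2 n z rfl).exists
    exact ⟨g, by rintro _ rfl; exact Eventually.of_forall hg⟩

lemma GG.s1 (h : GG (univ : Set Z)) : S1 (Z := Z) Ga Ga := fun 𝒰 h1 => by
  choose U U1 U2 using fun n => (h1 n).seq
  obtain ⟨g, hg⟩ := h U (fun n m => (h1 n).1.1 _ (U1 n m)) fun n x _ => U2 n x
  exact ⟨_, fun n => U1 n (g n), ga_of_seq (fun n => (h1 n).1.1 _ (U1 n _))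
    (fun n e => (h1 n).1.2.1 (e ▸ U1 n _)) fun x => hg x trivial⟩

lemma Ga.diff {𝒰 E : Set (Set Z)} (h : Ga 𝒰) (hE : E.Finite) : Ga (𝒰 \ E) :=
  have h1 := h.2.1.diff hE
  have h2 : ∀ x, {U ∈ 𝒰 \ E | x ∉ U}.Finite := fun x => (h.2.2 x).subset fun _ hU => ⟨hU.1.1, hU.2⟩
  ⟨oc_of (fun U hU => h.1.1 U hU.1) (fun e => h.1.2.1 e.1) fun x => (h1.diff (h2 x)).mono fun _ hU =>
    ⟨hU.1, by_contra fun e => hU.2 ⟨hU.1, e⟩⟩, h1, h2⟩

lemma gg_closed (h : S1 (Z := Z) Ga Ta) (K : Bool → Set Z) (h1 : ∀ i, IsClosed (K i))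
    (h2 : Disjoint (K true) (K false)) : ∃ i, GG (K i) := by
  by_contra hc
  simp only [GG, not_exists, not_forall] at hc
  choose U U1 U2 U3 using hc
  obtain ⟨i, g, hg⟩ := two h h2 U fun i n E hE h3 => (ga_of_seq (fun m => (U1 i n m).union
    (h1 i).isOpen_compl) (fun m e => h3 m fun x hx => (e.symm.subset (mem_univ x)).resolve_right (· hx))
      fun x => by
        by_cases e : x ∈ K i
        exacts [(U2 i n x e).mono fun _ => Or.inl, Eventually.of_forall fun _ => Or.inr e]).diff hE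
  obtain ⟨x, hx, e⟩ := U3 i g
  exact e (hg x hx)

theorem gg_of [SecondCountableTopology Z] [T25Space Z] (h : S1 (Z := Z) Ga Ta) : GG (univ : Set Z) :=
  let ⟨_, h1, h2⟩ := decomp (fun _ => GG.sub) (gg_closed h)
  (eq_univ_of_forall fun x => mem_iUnion.2 (h2 x)) ▸ GG.union h1

lemma S1.mono {A A' B B' : Set (Set Z) → Prop} (h : S1 A B) (h1 : ∀ 𝒰, A' 𝒰 → A 𝒰)
    (h2 : ∀ 𝒰, B 𝒰 → B' 𝒰) : S1 A' B' := fun 𝒰 h3 =>
  let ⟨f, h4, h5⟩ := h 𝒰 fun n => h1 _ (h3 n); ⟨f, h4, h2 _ h5⟩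

lemma S1.ch {A B : Set (Set Z) → Prop} (h : S1 A B) : Ch A B := fun 𝒰 h1 =>
  let ⟨_, h2, h3⟩ := h (fun _ => 𝒰) fun _ => h1; ⟨_, range_subset_iff.2 h2, h3⟩

lemma Ch.s1 {A B C : Set (Set Z) → Prop} (h : Ch A B) (h' : S1 B C) : S1 A C := fun 𝒰 h1 => by
  choose 𝒱 h2 h3 using fun n => h _ (h1 n)
  exact let ⟨f, h4, h5⟩ := h' 𝒱 h3; ⟨f, fun n => h2 n (h4 n), h5⟩

lemma pseudo {a : ℕ → Set ℕ} (h : ∀ n, (⋂ k ∈ Iic n, a k).Infinite) :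
    ∃ g : ℕ → ℕ, (∀ n, n ≤ g n) ∧ ∀ k, ∀ᶠ n in atTop, g n ∈ a k := by
  choose g g1 g2 using fun n => (h n).exists_gt n
  exact ⟨g, fun n => (g2 n).le, fun k => (eventually_ge_atTop k).mono fun n hn => mem_iInter₂.1 (g1 n) k hn⟩

lemma cnt_large [SecondCountableTopology Z] [Nonempty Z] {𝒰 : Set (Set Z)} (h1 : ∀ U ∈ 𝒰, IsOpen U)
    (h3 : ∀ z, {U ∈ 𝒰 | z ∈ U}.Infinite) :
    ∃ U : ℕ → Set Z, Injective U ∧ (∀ n, U n ∈ 𝒰) ∧ ∀ z, {n | z ∈ U n}.Infinite := by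
  have H : ∀ e : Set (Set Z), ∃ T, T.Countable ∧ T ⊆ 𝒰 \ e ∧ ⋃₀ T = ⋃₀ (𝒰 \ e) := fun e =>
    TopologicalSpace.isOpen_sUnion_countable _ fun U hU => h1 U hU.1
  choose T T1 T2 T3 using H
  obtain ⟨b, -, b1, b2, b3⟩ := Sk.close 𝒰 T (fun e _ => T1 e) (fun e => (T2 e).trans diff_subset)
    countable_empty (empty_subset _)
  have h4 : ∀ z, {U ∈ b | z ∈ U}.Infinite := fun z hf => by
    obtain ⟨U, h5, h6⟩ := (h3 z).exists_notMem_finite hf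
    obtain ⟨V, h7, h8⟩ := (T3 {U ∈ b | z ∈ U}).symm.subset ⟨U, ⟨h5.1, h6⟩, h5.2⟩
    exact (T2 _ h7).2 ⟨b3 _ (sep_subset _ _) hf h7, h8⟩
  have := b1.to_subtype
  have := ((h4 (Classical.arbitrary Z)).mono (sep_subset _ _)).to_subtype
  obtain ⟨e⟩ := nonempty_equiv_of_countable (α := ℕ) (β := b)
  exact ⟨fun n => (e n).1, Subtype.val_injective.comp e.injective, fun n => b2 (e n).2, fun z =>
    Infinite.of_image (fun n => (e n).1) ((h4 z).mono fun U hU =>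
      ⟨e.symm ⟨U, hU.1⟩, by simpa using hU.2, by simp⟩)⟩

lemma lin_union {α : Type} {a : α → Set ℕ} (h1 : ∀ x, (a x).Infinite)
    (h : ∀ x y, (a x \ a y).Finite ∨ (a y \ a x).Finite) {K : ℕ → Set α} (h2 : ∀ x, ∃ k, x ∈ K k)
    (h3 : ∀ k, ∃ g : ℕ → ℕ, (∀ n, n ≤ g n) ∧ ∀ x ∈ K k, ∀ᶠ n in atTop, g n ∈ a x) :
    ∃ g : ℕ → ℕ, (∀ n, n ≤ g n) ∧ ∀ x, ∀ᶠ n in atTop, g n ∈ a x := by
  have H : ∀ {g : ℕ → ℕ} {x y}, (∀ n, n ≤ g n) → (a x \ a y).Finite → (∀ᶠ n in atTop, g n ∈ a x) →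
      ∀ᶠ n in atTop, g n ∈ a y := fun {g x y} e1 e2 e3 => by
    obtain ⟨M, hM⟩ := e2.bddAbove
    filter_upwards [e3, eventually_gt_atTop M] with n e4 e5
    exact by_contra fun e => (hM ⟨e4, e⟩).not_gt (e5.trans_le (e1 n))
  by_cases hc : ∃ k, ∀ y, ∃ x ∈ K k, (a x \ a y).Finite
  · obtain ⟨k, hk⟩ := hc
    obtain ⟨g, g1, g2⟩ := h3 k
    exact ⟨g, g1, fun y => let ⟨x, e1, e2⟩ := hk y; H g1 e2 (g2 x e1)⟩
  simp only [not_exists, not_forall, not_and] at hc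
  choose y hy using hc
  obtain ⟨g, g1, g2⟩ := pseudo (a := fun k => a (y k)) fun n => by
    simpa using chain_inf h1 h ((finite_Iic n).image y)
  exact ⟨g, g1, fun x => let ⟨k, hk⟩ := h2 x; H g1 ((h _ _).resolve_left (hy k x hk)) (g2 k)⟩

lemma Ta.seq [SecondCountableTopology Z] [Nonempty Z] {𝒰 : Set (Set Z)} (h : Ta 𝒰) :
    ∃ U : ℕ → Set Z, (∀ n, U n ∈ 𝒰) ∧ (∀ z, {n | z ∈ U n}.Infinite) ∧
      ∀ x y, ({n | x ∈ U n} \ {n | y ∈ U n}).Finite ∨ ({n | y ∈ U n} \ {n | x ∈ U n}).Finite :=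
  let ⟨U, h1, h2, h3⟩ := cnt_large h.1.1 h.2.1
  ⟨U, h2, h3, fun x y => (h.2.2 x y).imp (fun e => (e.preimage h1.injOn).subset fun n hn => ⟨h2 n, hn⟩)
    fun e => (e.preimage h1.injOn).subset fun n hn => ⟨h2 n, hn⟩⟩

lemma ta_of_seq {U : ℕ → Set Z} (h1 : ∀ n, IsOpen (U n)) (h2 : ∀ n, U n ≠ univ)
    (h3 : ∀ z, {n | z ∈ U n}.Infinite)
    (h4 : ∀ x y, ({n | x ∈ U n} \ {n | y ∈ U n}).Finite ∨ ({n | y ∈ U n} \ {n | x ∈ U n}).Finite)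
    {E : Set (Set Z)} (hE : E.Finite) : Ta (range U \ E) := by
  have h5 : ∀ x, {V ∈ range U \ E | x ∈ V}.Infinite := fun x hf => by
    choose z hz using fun n => (ne_univ_iff_exists_notMem _).1 (h2 n)
    choose! n hn using fun V (h : V ∈ range U) => h
    obtain ⟨m, hm⟩ := (chain_inf h3 h4 (((hf.union hE).image fun V => z (n V)).insert x)).nonempty
    refine hz _ ((hn _ ⟨m, rfl⟩).symm.subset (mem_iInter₂.1 hm _ (Or.inr ⟨U m, ?_, rfl⟩)))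
    exact or_iff_not_imp_right.2 fun e => ⟨⟨⟨m, rfl⟩, e⟩, mem_iInter₂.1 hm x (Or.inl rfl)⟩
  refine ⟨oc_of (fun _ ⟨⟨n, e⟩, _⟩ => e ▸ h1 n) (fun ⟨⟨n, e⟩, _⟩ => h2 n e) h5, h5, fun x y =>
    (h4 x y).imp (fun e => (e.image U).subset ?_) fun e => (e.image U).subset ?_⟩ <;>
  · rintro _ ⟨⟨⟨n, rfl⟩, -⟩, e⟩
    exact ⟨n, e, rfl⟩

theorem ch_of [SecondCountableTopology Z] [T25Space Z] (h : S1 (Z := Z) Ta Ta) : Ch (Z := Z) Ta Ga := by
  rcases isEmpty_or_nonempty Z with hZ | hZ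
  · obtain ⟨_, h1, _⟩ := h (fun _ => ∅) fun _ => by simp [Ta, Oc, eq_empty_of_isEmpty]
    exact absurd (h1 0) id
  intro 𝒰 h1
  obtain ⟨U, U1, U2, U3⟩ := h1.seq
  obtain ⟨K, K1, K2⟩ := decomp (P := fun K => ∃ g : ℕ → ℕ, (∀ n, n ≤ g n) ∧
    ∀ x ∈ K, ∀ᶠ n in atTop, g n ∈ {n | x ∈ U n}) (fun S hS => by
      rcases hS.eq_empty_or_singleton with rfl | ⟨z, rfl⟩
      · exact ⟨id, fun _ => le_rfl, by simp⟩
      · choose g g1 g2 using (U2 z).exists_gt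
        exact ⟨g, fun n => (g2 n).le, by rintro _ rfl; exact Eventually.of_forall g1⟩) fun K h2 h3 => by
      obtain ⟨i, g, hg⟩ := two h h3 (fun _ n m => U (n + m)) fun i n E hE h4 => ta_of_seq
        (fun m => (h1.1.1 _ (U1 _)).union (h2 i).isOpen_compl)
        (fun m e => h4 m fun x hx => (e.symm.subset (mem_univ x)).resolve_right (· hx)) (fun z =>
          infinite_of_forall_exists_gt fun N => let ⟨m, e1, e2⟩ := (U2 z).exists_gt (n + N)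
            ⟨m - n, Or.inl (by rwa [show n + (m - n) = m by omega]), by omega⟩) (fun x y => by
          by_cases hx : x ∈ K i
          swap
          · exact Or.inr (finite_empty.subset fun m hm => hm.2 (Or.inr hx))
          by_cases hy : y ∈ K i
          swap
          · exact Or.inl (finite_empty.subset fun m hm => hm.2 (Or.inr hy))
          exact (U3 x y).imp (fun e => (e.preimage (add_right_injective n).injOn).subset fun m hm =>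
            ⟨hm.1.resolve_right (· hx), fun e => hm.2 (Or.inl e)⟩) fun e =>
            (e.preimage (add_right_injective n).injOn).subset fun m hm =>
            ⟨hm.1.resolve_right (· hy), fun e => hm.2 (Or.inl e)⟩) hE
      exact ⟨i, fun n => n + g n, fun n => Nat.le_add_right _ _, hg⟩
  obtain ⟨g, -, hg⟩ := lin_union U2 U3 K2 K1
  exact ⟨_, range_subset_iff.2 fun n => U1 (g n), ga_of_seq (fun n => h1.1.1 _ (U1 _))
    (fun n e => h1.1.2.1 (e ▸ U1 _)) hg⟩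

theorem s1_GT [SecondCountableTopology Z] [T25Space Z] (h : S1 (Z := Z) Ga Ta) : S1 (Z := Z) Ga Ga :=
  (gg_of h).s1

theorem s1_TT [SecondCountableTopology Z] [T25Space Z] (h : S1 (Z := Z) Ta Ta) : S1 (Z := Z) Ta Ga :=
  (ch_of h).s1 (s1_GT (h.mono (fun _ => Ga.ta) fun _ => id))

theorem s1_OT [SecondCountableTopology Z] [T25Space Z] (h : S1 (Z := Z) Om Ta) : S1 (Z := Z) Om Ga := by
  rcases isEmpty_or_nonempty Z with hZ | hZ
  · exact fun 𝒰 h1 => let ⟨U, h2, _⟩ := (h1 0).2 ∅ finite_empty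
      absurd (Subsingleton.elim U univ ▸ h2) (h1 0).1.2.1
  exact h.ch.s1 (s1_TT (h.mono (fun _ => Ta.om) fun _ => id))

lemma GG.hur [SecondCountableTopology Z] (h : GG (univ : Set Z)) (𝒰 : ℕ → Set (Set Z))
    (h1 : ∀ n, (∀ V ∈ 𝒰 n, IsOpen V) ∧ ⋃₀ 𝒰 n = univ) : ∃ F : ℕ → Set (Set Z),
      (∀ n, (F n).Finite ∧ F n ⊆ 𝒰 n) ∧ ∀ x, ∀ᶠ n in atTop, x ∈ ⋃₀ F n := by
  choose T T1 T2 T3 using fun n => TopologicalSpace.isOpen_sUnion_countable _ (h1 n).1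
  choose V hV using fun n => ((T1 n).insert ∅).exists_eq_range (insert_nonempty _ _)
  obtain ⟨g, hg⟩ := h (fun n m => ⋃₀ (V n '' Iic m ∩ 𝒰 n)) (fun n m => isOpen_sUnion fun U hU =>
    (h1 n).1 U hU.2) fun n x _ => by
      obtain ⟨U, e1, e2⟩ := ((T3 n).trans (h1 n).2).symm.subset (mem_univ x)
      obtain ⟨m, rfl⟩ := (hV n).subset (Or.inr e1)
      exact (eventually_ge_atTop m).mono fun k hk => ⟨_, ⟨⟨m, hk, rfl⟩, T2 n e1⟩, e2⟩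
  exact ⟨_, fun n => ⟨((finite_Iic _).image _).inter_of_left _, inter_subset_right⟩, fun x => hg x trivial⟩

lemma GG.ufin [SecondCountableTopology Z] (h : GG (univ : Set Z)) : Ufin (Z := Z) Ga Ga := fun 𝒰 h1 h2 =>
  let ⟨F, h3, h4⟩ := h.hur 𝒰 fun n => ⟨(h1 n).1.1, (h1 n).1.2.2⟩
  ⟨F, h3, ga_of_seq (fun n => isOpen_sUnion fun U hU => (h1 n).1.1 U ((h3 n).2 hU))
    (fun n => h2 n _ (h3 n).2 (h3 n).1) h4⟩

end Pool.Agent.H30.Tau
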