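import Pool.Agent.H30.TauA

set_option autoImplicit false

namespace Pool.Agent.H30.Tau

open Set Filter Topology Function

variable {Z : Type} [TopologicalSpace Z]

lemma GG.lift {W K : Set Z} (h : GG (univ : Set K)) (hK : K ⊆ W) : GG (Subtype.val ⁻¹' K : Set W) :=
  fun U h1 h2 =>
    let ⟨g, hg⟩ := h (fun n m => inclusion hK ⁻¹' U n m) (fun n m => (h1 n m).preimage
      (continuous_inclusion hK)) fun n x _ => h2 n _ x.2
    ⟨g, fun x hx => hg ⟨x, hx⟩ trivial⟩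

lemma gg_iUnion {X : ℕ → Set Z} (h : ∀ k, GG (univ : Set (X k))) : GG (univ : Set (⋃ k, X k)) :=
  (eq_univ_of_forall fun x : (⋃ k, X k) => mem_iUnion.2 (mem_iUnion.1 x.2 :) :
    ⋃ k, (Subtype.val ⁻¹' X k : Set (⋃ k, X k)) = univ) ▸ GG.union fun k => (h k).lift (subset_iUnion X k)

lemma Ch.seq (h : Ch (Z := Z) Ta Ga) {U : ℕ → Set Z} (h1 : ∀ n, IsOpen (U n))
    (h3 : ∀ z, {n | z ∈ U n}.Infinite)
    (h4 : ∀ x y, ({n | x ∈ U n} \ {n | y ∈ U n}).Finite ∨ ({n | y ∈ U n} \ {n | x ∈ U n}).Finite) :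
    ∃ g : ℕ → ℕ, (∀ n, n ≤ g n) ∧ ∀ x, ∀ᶠ n in atTop, x ∈ U (g n) := by
  by_cases h2 : {n | U n = univ}.Infinite
  · choose g g1 g2 using h2.exists_gt
    exact ⟨g, fun n => (g2 n).le, fun x => Eventually.of_forall fun n => (g1 n).symm.subset trivial⟩
  obtain ⟨M, hM⟩ := (not_infinite.1 h2).bddAbove
  obtain ⟨𝒱, h5, h6⟩ := h _ (ta_of_seq (U := fun n => U (M + 1 + n)) (fun _ => h1 _)
    (fun n e => by have := hM e; omega) (fun z => infinite_of_forall_exists_gt fun N =>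
      let ⟨m, e1, e2⟩ := (h3 z).exists_gt (M + 1 + N)
      ⟨m - (M + 1), by rwa [mem_setOf_eq, show M + 1 + (m - (M + 1)) = m by omega], by omega⟩)
    (fun x y => (h4 x y).elim (fun e => Or.inl (e.preimage (add_right_injective (M + 1)).injOn :))
      fun e => Or.inr (e.preimage (add_right_injective (M + 1)).injOn :)) finite_empty)
  have h7 : {n | U n ∈ 𝒱}.Infinite := Infinite.of_image U (h6.2.1.mono fun V hV =>
    let ⟨n, hn⟩ := (h5 hV).1; ⟨M + 1 + n, mem_of_eq_of_mem (s := 𝒱) hn hV, hn⟩)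
  have H : ∀ n, ∃ m, n ≤ m ∧ U m ∈ 𝒱 ∧ U m ∉ U '' Iio n := fun n => by
    obtain ⟨V, e1, e2⟩ := h6.2.1.exists_notMem_finite ((finite_Iio n).image U)
    obtain ⟨m, rfl⟩ := (h5 e1).1
    exact ⟨_, not_lt.1 fun e => e2 ⟨_, e, rfl⟩, e1, e2⟩
  choose g g1 g2 g3 using H
  refine ⟨g, g1, fun x => ?_⟩
  have : ∀ V ∈ {V ∈ 𝒱 | x ∉ V}, ∀ᶠ n in atTop, U (g n) ≠ V := fun V hV =>
    let ⟨m, hm⟩ := (h5 hV.1).1
    (eventually_gt_atTop (M + 1 + m)).mono fun n hn e => g3 n ⟨_, hn, hm.trans e.symm⟩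
  exact ((eventually_all_finite (h6.2.2 x)).2 this).mono fun n hn => by_contra fun e => hn _ ⟨g2 n, e⟩ rfl

lemma ch_iUnion [SecondCountableTopology Z] {X : ℕ → Set Z} (h0 : (⋃ k, X k).Nonempty)
    (h : ∀ k, Ch (Z := X k) Ta Ga ∨ X k = ∅) : Ch (Z := ⋃ k, X k) Ta Ga := fun 𝒰 h1 => by
  have := h0.to_subtype
  obtain ⟨U, U1, U2, U3⟩ := h1.seq
  obtain ⟨g, -, hg⟩ := lin_union U2 U3 (K := fun k => Subtype.val ⁻¹' X k)
    (fun x => (mem_iUnion.1 x.2 :)) fun k => by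
      rcases h k with e | e
      · obtain ⟨g, g1, g2⟩ := e.seq (U := fun n => inclusion (subset_iUnion X k) ⁻¹' U n) (fun n =>
          (h1.1.1 _ (U1 n)).preimage (continuous_inclusion _)) (fun z => U2 _) fun x y => U3 _ _
        exact ⟨g, g1, fun x hx => g2 ⟨x, hx⟩⟩
      · exact ⟨id, fun _ => le_rfl, by simp [e]⟩
  exact ⟨_, range_subset_iff.2 fun n => U1 (g n), ga_of_seq (fun n => h1.1.1 _ (U1 _))
    (fun n e => h1.1.2.1 (e ▸ U1 _)) hg⟩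

lemma S1.ne (h : S1 (Z := Z) Ta Ta) : Nonempty Z := by
  by_contra h0
  have := not_nonempty_iff.1 h0
  obtain ⟨_, h1, _⟩ := h (fun _ => ∅) fun _ => by simp [Ta, Oc, eq_empty_of_isEmpty]
  exact absurd (h1 0) id

end Pool.Agent.H30.Tau
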