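import Pool.Agent.H30.TauB

set_option autoImplicit false

namespace Pool.Agent.H30.Tau

open Set Filter Topology Function

variable {Z Z' : Type} [TopologicalSpace Z] [TopologicalSpace Z']

lemma cnt_om [SecondCountableTopology Z] {𝒰 : Set (Set Z)} (h : Om 𝒰) :
    ∃ U : ℕ → Set Z, (∀ n, U n ∈ 𝒰) ∧ ∀ F : Set Z, F.Finite → ∃ n, F ⊆ U n := by
  obtain ⟨b, b1, -, b2⟩ := TopologicalSpace.exists_countable_basis Z
  obtain ⟨U0, h0, -⟩ := h.2 ∅ finite_empty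
  have H : ∀ t : Set (Set Z), ∃ U ∈ 𝒰, (∃ U ∈ 𝒰, ⋃₀ t ⊆ U) → ⋃₀ t ⊆ U := fun t => by
    by_cases e : ∃ U ∈ 𝒰, ⋃₀ t ⊆ U
    exacts [let ⟨U, e1, e2⟩ := e; ⟨U, e1, fun _ => e2⟩, ⟨U0, h0, fun e' => absurd e' e⟩]
  choose W W1 W2 using H
  obtain ⟨t, ht⟩ := (countable_setOf_finite_subset b1).exists_eq_range ⟨∅, finite_empty, empty_subset _⟩
  refine ⟨fun n => W (t n), fun n => W1 _, fun F hF => ?_⟩
  obtain ⟨U, h1, h2⟩ := h.2 F hF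
  choose! B B1 B2 B3 using fun x (hx : x ∈ F) => b2.exists_subset_of_mem_open (h2 hx) (h.1.1 U h1)
  obtain ⟨n, hn⟩ := ht.subset (show B '' F ∈ _ from ⟨hF.image B, image_subset_iff.2 B1⟩)
  exact ⟨n, fun x hx => W2 _ ⟨U, h1, hn ▸ sUnion_subset (forall_mem_image.2 B3)⟩
    (hn ▸ ⟨_, ⟨x, hx, rfl⟩, B2 x hx⟩)⟩

lemma om_of {𝒰 : Set (Set Z)} (h1 : ∀ U ∈ 𝒰, IsOpen U) (h2 : univ ∉ 𝒰)
    (h3 : ∀ F : Set Z, F.Finite → ∃ U ∈ 𝒰, F ⊆ U) : Om 𝒰 :=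
  ⟨⟨h1, h2, eq_univ_of_forall fun x => let ⟨U, h4, h5⟩ := h3 {x} (finite_singleton x)
    ⟨U, h4, h5 rfl⟩⟩, h3⟩

lemma Ch.gg [T1Space Z] (h : Ch (Z := Z) Om Ga) : GG (univ : Set Z) := by
  rcases finite_or_infinite Z with hZ | hZ
  · obtain ⟨e, he⟩ := ((countable_range fun z : Z => ({z} : Set Z)).insert ∅).exists_eq_range
      (insert_nonempty _ _)
    have : ⋃ k, e k = univ := eq_univ_of_forall fun x =>
      let ⟨k, hk⟩ := he.subset (Or.inr ⟨x, rfl⟩); mem_iUnion.2 ⟨k, hk.symm.subset rfl⟩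
    refine this ▸ GG.union fun k => GG.sub ?_
    rcases he.symm.subset ⟨k, rfl⟩ with e1 | ⟨z, e1⟩
    exacts [e1 ▸ subsingleton_empty, e1 ▸ subsingleton_singleton]
  intro U h1 h2
  let z := Infinite.natEmbedding Z
  obtain ⟨𝒱, h3, h4⟩ := h (range fun p : ℕ × ℕ => (⋂ k ∈ Iic p.1, U k p.2) \ {z p.1}) (om_of
    (forall_mem_range.2 fun p => ((finite_Iic _).isOpen_biInter fun k _ => h1 k _).sdiff isClosed_singleton)
    (fun ⟨p, e⟩ => (e.symm.subset (mem_univ (z p.1))).2 rfl) fun F hF => by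
      obtain ⟨n, hn⟩ := (hF.preimage z.injective.injOn).infinite_compl.nonempty
      obtain ⟨m, hm⟩ := ((eventually_all_finite hF).2 fun x _ =>
        (eventually_all_finite (finite_Iic n)).2 fun k _ => h2 k x trivial).exists
      exact ⟨_, ⟨(n, m), rfl⟩, fun x hx => ⟨mem_iInter₂.2 (hm x hx), fun e => hn (show z n ∈ F from e ▸ hx)⟩⟩)
  obtain ⟨f, f1, f2⟩ := h4.seq
  choose j j1 j2 using fun N => ((eventually_ge_atTop N).and ((eventually_all_finite (finite_Iio N)).2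
    fun n _ => f2 (z n))).exists
  choose p hp using fun N => h3 (f1 (j N))
  refine ⟨fun N => (p N).2, fun x _ => ((tendsto_atTop_mono j1 tendsto_id).eventually (f2 x)).mono
    fun N hN => mem_iInter₂.1 ((hp N).symm.subset hN).1 N (mem_Iic.2 (not_lt.1 fun e => ?_))⟩
  exact ((hp N).symm.subset (j2 N _ e)).2 rfl

lemma Ch.s1og [T1Space Z] (h : Ch (Z := Z) Om Ga) : S1 (Z := Z) Om Ga := h.s1 h.gg.s1

lemma Ch.pow [T1Space Z] (h : Ch (Z := Z) Om Ga) (k : ℕ) : Ch (Z := Fin k → Z) Om Ga := fun 𝒰 h1 => by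
  obtain ⟨𝒱, h2, h3⟩ := h {V | IsOpen V ∧ ∃ U ∈ 𝒰, pi univ (fun _ => V) ⊆ U} (om_of (fun _ h => h.1)
    (fun ⟨_, U, e1, e2⟩ => h1.1.2.1 (univ_subset_iff.1 (by simpa using e2) ▸ e1)) fun F hF => by
      obtain ⟨U, e1, e2⟩ := h1.2 _ (Finite.pi' fun _ : Fin k => hF)
      have e3 : ∀ x ∈ {f : Fin k → Z | ∀ i, f i ∈ F}, ∃ u : Fin k → Set Z,
          (∀ i, IsOpen (u i) ∧ x i ∈ u i) ∧ pi univ u ⊆ U := fun x hx =>
        isOpen_pi_iff'.1 (h1.1.1 U e1) x (e2 hx)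
      choose! u u1 u2 using e3
      let W : Z → Set Z := fun a => ⋂ x ∈ {f : Fin k → Z | ∀ i, f i ∈ F}, ⋂ i ∈ {i | x i = a}, u x i
      refine ⟨⋃ a ∈ F, W a, ⟨isOpen_biUnion fun a _ => (Finite.pi' fun _ => hF).isOpen_biInter fun x hx =>
        (toFinite _).isOpen_biInter fun i _ => (u1 x hx i).1, U, e1, fun y hy => ?_⟩, fun a ha =>
        mem_biUnion ha (mem_iInter₂.2 fun x hx => mem_iInter₂.2 fun i hi => hi ▸ (u1 x hx i).2)⟩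
      choose a a1 a2 using fun i => mem_iUnion₂.1 (hy i trivial)
      exact u2 a a1 fun i _ => mem_iInter₂.1 (mem_iInter₂.1 (a2 i) a a1) i rfl)
  obtain ⟨f, f1, f2⟩ := h3.seq
  choose U U1 U2 using fun n => (h2 (f1 n)).2
  exact ⟨_, range_subset_iff.2 U1, ga_of_seq (fun n => h1.1.1 _ (U1 n)) (fun n e => h1.1.2.1 (e ▸ U1 n))
    fun x => (eventually_all.2 fun i => f2 (x i)).mono fun n hn => U2 n fun i _ => hn i⟩

/-- Classes of covers invariant under homeomorphisms. -/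
def Nt (A : ∀ (Z : Type) [TopologicalSpace Z], Set (Set Z) → Prop) : Prop :=
  ∀ (Z Z' : Type) [TopologicalSpace Z] [TopologicalSpace Z'] (h : Z ≃ₜ Z') (𝒰 : Set (Set Z')),
    A Z' 𝒰 → A Z (preimage h '' 𝒰)

lemma nt_oc : Nt @Oc := fun _ _ _ _ h 𝒰 h1 =>
  ⟨forall_mem_image.2 fun U hU => (h1.1 U hU).preimage h.continuous, fun ⟨U, e1, e2⟩ =>
    h1.2.1 (h.surjective.preimage_injective (e2.trans preimage_univ.symm) ▸ e1), eq_univ_of_forall fun x =>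
    let ⟨U, e1, e2⟩ := h1.2.2.symm.subset (mem_univ (h x)); ⟨_, ⟨U, e1, rfl⟩, e2⟩⟩

lemma sep_im (h : Z ≃ₜ Z') (𝒰 : Set (Set Z')) (p : Set Z → Prop) :
    {U ∈ preimage h '' 𝒰 | p U} = preimage h '' {U ∈ 𝒰 | p (h ⁻¹' U)} := by
  ext U
  exact ⟨fun ⟨⟨V, e1, e2⟩, e3⟩ => ⟨V, ⟨e1, e2 ▸ e3⟩, e2⟩, fun ⟨V, e1, e2⟩ => ⟨⟨V, e1.1, e2⟩, e2 ▸ e1.2⟩⟩

lemma nt_om : Nt @Om := fun _ _ _ _ h 𝒰 h1 => ⟨nt_oc _ _ h 𝒰 h1.1, fun F hF =>
  let ⟨U, e1, e2⟩ := h1.2 _ (hF.image h); ⟨_, ⟨U, e1, rfl⟩, image_subset_iff.1 e2⟩⟩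

lemma nt_ga : Nt @Ga := fun _ _ _ _ h 𝒰 h1 => ⟨nt_oc _ _ h 𝒰 h1.1,
  h1.2.1.image h.surjective.preimage_injective.injOn, fun x => sep_im h 𝒰 _ ▸ (h1.2.2 (h x)).image _⟩

lemma nt_ta : Nt @Ta := fun _ _ _ _ h 𝒰 h1 => ⟨nt_oc _ _ h 𝒰 h1.1, fun x => sep_im h 𝒰 _ ▸
  (h1.2.1 (h x)).image h.surjective.preimage_injective.injOn, fun x y => by
    rw [sep_im, sep_im]; exact (h1.2.2 (h x) (h y)).imp (·.image _) (·.image _)⟩

variable {A B : ∀ (Z : Type) [TopologicalSpace Z], Set (Set Z) → Prop}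

lemma im_sub (h : Z ≃ₜ Z') {𝒰 : Set (Set Z')} {𝒱 : Set (Set Z)} (e : 𝒱 ⊆ preimage h '' 𝒰) :
    preimage h.symm '' 𝒱 ⊆ 𝒰 := by
  rintro _ ⟨V, hV, rfl⟩
  obtain ⟨U, hU, rfl⟩ := e hV
  simpa [preimage_preimage] using hU

lemma Ch.tr (hA : Nt A) (hB : Nt B) (h : Z ≃ₜ Z') (h1 : Ch (A Z) (B Z)) : Ch (A Z') (B Z') :=
  fun 𝒰 h2 => let ⟨_, e1, e2⟩ := h1 _ (hA _ _ h 𝒰 h2); ⟨_, im_sub h e1, hB _ _ h.symm _ e2⟩

lemma Sfin.tr (hA : Nt A) (hB : Nt B) (h : Z ≃ₜ Z') (h1 : Sfin (A Z) (B Z)) : Sfin (A Z') (B Z') :=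
  fun 𝒰 h2 => let ⟨F, e1, e2⟩ := h1 _ fun n => hA _ _ h _ (h2 n)
    ⟨fun n => preimage h.symm '' F n, fun n => ⟨(e1 n).1.image _, im_sub h (e1 n).2⟩,
      image_iUnion ▸ hB _ _ h.symm _ e2⟩

lemma S1.tr (hA : Nt A) (hB : Nt B) (h : Z ≃ₜ Z') (h1 : S1 (A Z) (B Z)) : S1 (A Z') (B Z') :=
  fun 𝒰 h2 => let ⟨f, e1, e2⟩ := h1 _ fun n => hA _ _ h _ (h2 n)
    ⟨fun n => h.symm ⁻¹' f n, fun n => im_sub h (singleton_subset_iff.2 (e1 n)) ⟨_, rfl, rfl⟩,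
      range_comp (preimage h.symm) f ▸ hB _ _ h.symm _ e2⟩

lemma exists_emb : ∃ e : (ℕ → ℕ) → ℝ, IsEmbedding e := by
  let j : (ℕ → ℕ) → ℕ → Bool := fun x p => decide (x p.unpair.1 = p.unpair.2)
  have hj : IsEmbedding j := by
    refine ⟨⟨le_antisymm (continuous_iff_le_induced.1 (continuous_pi fun p =>
      (continuous_of_discreteTopology (f := fun a : ℕ => decide (a = p.unpair.2))).comp
        (continuous_apply _))) (le_iInf fun n => ?_)⟩, fun x y h => funext fun n => by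
      simpa [j, eq_comm] using (congrFun h (Nat.pair n (x n))).symm⟩
    letI := TopologicalSpace.induced j inferInstance
    refine continuous_iff_le_induced.1 (continuous_discrete_rng.2 fun m => ⟨{w | w (Nat.pair n m) = true},
      IsOpen.preimage (f := fun w : ℕ → Bool => w (Nat.pair n m)) (continuous_apply _)
        (isOpen_discrete {true}), ?_⟩)
    ext x; simp [j]
  exact ⟨_, (IsEmbedding.subtypeVal.comp cantorSetHomeomorphNatToBool.symm.isEmbedding).comp hj⟩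

end Pool.Agent.H30.Tau
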