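import Pool.Agent.H30.TauC
import Pool.Agent.H30.LamB

set_option autoImplicit false

namespace Pool.Agent.H30.Tau

open Set Filter Topology Function Pool.Agent.H30.Spl
open Cardinal hiding univ

variable {Z : Type} [TopologicalSpace Z]

/-- Open `n`-covers. -/
def On (n : ℕ) (𝒰 : Set (Set Z)) : Prop := Oc 𝒰 ∧ ∀ F : Finset Z, F.card = n → ∃ U ∈ 𝒰, ↑F ⊆ U

/-- `S₁((O_n)_n, B)`. -/
def S1n (B : Set (Set Z) → Prop) : Prop :=
  ∀ 𝒰 : ℕ → Set (Set Z), (∀ n, On n (𝒰 n)) → ∃ f : ℕ → Set Z, (∀ n, f n ∈ 𝒰 n) ∧ B (range f)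

lemma code (hc : (𝔠 : Cardinal.{0}) = ℵ₁) (Z : Type) [TopologicalSpace Z] [SecondCountableTopology Z]
    (J : Type) [Nonempty J] (hJ : #J ≤ 𝔠) : ∃ (U : W1 → ℕ → Set Z) (j : W1 → J),
      (∀ α n, IsOpen (U α n)) ∧ ∀ V : ℕ → Set Z, (∀ n, IsOpen (V n)) → ∀ i, ∃ α, U α = V ∧ j α = i := by
  obtain ⟨b, b1, -, b2⟩ := TopologicalSpace.exists_countable_basis Z
  have := b1.to_subtype
  obtain ⟨e, he⟩ := enum (S := (univ : Set ((ℕ → Set b) × J))) (T := W1) (P := univ) (by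
    have : (2 : Cardinal.{0}) ^ #b ≤ 𝔠 := by
      rw [← two_power_aleph0]; exact power_le_power_left two_ne_zero mk_le_aleph0
    have h2 : ((2 : Cardinal.{0}) ^ #b) ^ ℵ₀ ≤ 𝔠 := (power_le_power_right this).trans_eq continuum_power_aleph0
    simpa [mk_W1, ← hc] using (mul_le_mul' h2 hJ).trans_eq continuum_mul_self)
  refine ⟨fun α n => ⋃₀ (Subtype.val '' (e α).1 n), fun α => (e α).2, fun α n => isOpen_sUnion
    (forall_mem_image.2 fun V _ => b2.isOpen V.2), fun V h1 i => ?_⟩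
  obtain ⟨α, -, hα⟩ := he (mem_univ (fun n => {W | W.1 ⊆ V n}, i))
  refine ⟨α, funext fun n => ?_, congrArg Prod.snd hα⟩
  simp only [hα]
  refine (sUnion_subset (forall_mem_image.2 fun W hW => hW)).antisymm fun x hx => ?_
  obtain ⟨W, h3, h4, h5⟩ := b2.exists_subset_of_mem_open hx (h1 n)
  exact ⟨W, ⟨⟨W, h3⟩, h5, rfl⟩, h4⟩

lemma nhds_pi {β : Type} [TopologicalSpace β] {W : Set (ℕ → β)} (h : IsOpen W) {x : ℕ → β} (hx : x ∈ W) :
    ∃ k, ∀ y : ℕ → β, (∀ i < k, y i = x i) → y ∈ W := by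
  obtain ⟨I, u, h4, h5⟩ := isOpen_pi_iff.1 h _ hx
  exact ⟨I.sup id + 1, fun y hy => h5 fun i hi => by
    rw [hy i (Nat.lt_succ_of_le (Finset.le_sup (f := id) hi))]; exact (h4 i hi).2⟩

lemma fin_pre (b : ℕ → ℕ) (n : ℕ) (p : ℕ → ℕ) : {x : ℕ → ℕ | x ≤ b ∧ ∀ j, n ≤ j → x j = p j}.Finite :=
  Finite.of_injOn (f := fun (x : ℕ → ℕ) (i : Fin n) => x i) (t := {f | ∀ i : Fin n, f i ∈ Iic (b i)})
    (fun x hx i => hx.1 i) (fun x hx y hy e => funext fun j =>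
      (lt_or_ge j n).elim (fun h => congrFun e ⟨j, h⟩) fun h => (hx.2 j h).trans (hy.2 j h).symm)
    (Finite.pi' fun _ => finite_Iic _)

def Md (b p : ℕ → ℕ) : Set (ℕ → ℕ) := {x | x ≤ b ∧ ∀ᶠ j in atTop, x j = p j}

lemma Md_cnt (b p : ℕ → ℕ) : (Md b p).Countable :=
  (countable_iUnion fun n => (fin_pre b n p).countable).mono fun _ hx =>
    let ⟨n, hn⟩ := eventually_atTop.1 hx.2; mem_iUnion.2 ⟨n, And.intro hx.1 hn⟩

lemma gm {b p : ℕ → ℕ} (hp : p ≤ b) {P : Set (ℕ → ℕ)} (h0 : Md b p ⊆ P) (hP : P.Countable)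
    {V : ℕ → Set (ℕ → ℕ)} (h1 : ∀ m, IsOpen (V m)) (h2 : ∀ F ⊆ P, F.Finite → ∃ m, F ⊆ V m)
    {B : ℕ → Set ℕ} (hB : ∀ k, (B k).Infinite) : ∃ (G : Set ℕ) (m u v : ℕ → ℕ),
      (∀ k, k ≤ u k ∧ k ≤ v k ∧ u k ∈ B k \ G ∧ v k ∈ B k ∩ G) ∧ (∀ x ∈ P, ∀ᶠ k in atTop, x ∈ V (m k)) ∧
      ∀ x ≤ b, (∀ᶠ j in atTop, j ∈ G → x j = p j) → ∀ᶠ k in atTop, x ∈ V (m k) := by
  obtain ⟨e, rfl⟩ := hP.exists_eq_range ⟨p, h0 ⟨hp, Eventually.of_forall fun _ => rfl⟩⟩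
  have H : ∀ k n, ∃ m c v u, (n ≤ v ∧ v < c ∧ c ≤ u ∧ v ∈ B k ∧ u ∈ B k) ∧ e '' Iic k ⊆ V m ∧
      ∀ x ≤ b, (∀ j, n ≤ j → j < c → x j = p j) → x ∈ V m := fun k n => by
    obtain ⟨m, hm⟩ := h2 _ (union_subset (image_subset_range _ _) fun x hx => h0 ⟨hx.1,
      eventually_atTop.2 ⟨n, hx.2⟩⟩) (((finite_Iic k).image e).union (fin_pre b n p))
    choose! c hc using fun x (hx : x ∈ {x : ℕ → ℕ | x ≤ b ∧ ∀ j, n ≤ j → x j = p j}) =>
      nhds_pi (h1 m) (hm (Or.inr hx))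
    obtain ⟨M, hM⟩ := ((fin_pre b n p).image c).bddAbove
    obtain ⟨v, v1, v2⟩ := (hB k).exists_gt n
    obtain ⟨u, u1, u2⟩ := (hB k).exists_gt (M + v + 1)
    refine ⟨m, M + v + 1, v, u, ⟨v2.le, by omega, u2.le, v1, u1⟩, subset_union_left.trans hm,
      fun x hx h3 => ?_⟩
    have h4 : (fun j => if j < n then x j else p j) ∈ {x : ℕ → ℕ | x ≤ b ∧ ∀ j, n ≤ j → x j = p j} :=
      ⟨fun j => by by_cases e : j < n <;> simp [e, hx j, hp j], fun j hj => if_neg hj.not_gt⟩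
    refine hc _ h4 x fun i hi => ?_
    have := hM ⟨_, h4, rfl⟩
    split_ifs with e
    exacts [rfl, h3 i (not_lt.1 e) (by omega)]
  choose m c v u h3 h4 h5 using H
  let n : ℕ → ℕ := fun k => Nat.rec 0 (fun k q => u k q + 1) k
  have n1 : ∀ k, n (k + 1) = u k (n k) + 1 := fun _ => rfl
  clear_value n
  have n2 : StrictMono n := strictMono_nat_of_lt_succ fun k => by have := h3 k (n k); rw [n1]; omega
  refine ⟨⋃ k, Ico (n k) (c k (n k)), fun k => m k (n k), fun k => u k (n k), fun k => v k (n k),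
    fun k => ?_, ?_, fun x hx h6 => ?_⟩
  · have e1 := h3 k (n k)
    have e2 : k ≤ n k := n2.le_apply
    beta_reduce
    refine ⟨by omega, by omega, ⟨e1.2.2.2.2, fun h => ?_⟩, e1.2.2.2.1, mem_iUnion.2 ⟨k, e1.1, e1.2.1⟩⟩
    obtain ⟨l, e3, e4⟩ := mem_iUnion.1 h
    have e5 := h3 l (n l)
    rcases lt_trichotomy l k with h | rfl | h
    · have := n2.monotone (show l + 1 ≤ k from h); rw [n1] at this; omega
    · omega
    · have := n2.monotone (show k + 1 ≤ l from h); rw [n1] at this; omega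
  · rintro _ ⟨i, rfl⟩
    exact (eventually_ge_atTop i).mono fun k hk => h4 k _ ⟨i, hk, rfl⟩
  · obtain ⟨N, hN⟩ := eventually_atTop.1 h6
    exact (eventually_ge_atTop N).mono fun k hk => h5 k _ x hx fun j e1 e2 =>
      hN j ((hk.trans n2.le_apply).trans e1) (mem_iUnion.2 ⟨k, e1, e2⟩)

lemma ch_amb {X : Set Z} [SecondCountableTopology Z] (h : ∀ V : ℕ → Set Z, (∀ m, IsOpen (V m)) →
    (∀ F ⊆ X, F.Finite → ∃ m, F ⊆ V m) → ∃ m : ℕ → ℕ, ∀ x ∈ X, ∀ᶠ k in atTop, x ∈ V (m k)) :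
    Ch (Z := X) Om Ga := fun 𝒰 h1 => by
  obtain ⟨U, U1, U2⟩ := cnt_om h1
  choose V V1 V2 using fun n => isOpen_induced_iff.1 (h1.1.1 _ (U1 n))
  obtain ⟨m, hm⟩ := h V V1 fun F hF h2 => let ⟨n, hn⟩ := U2 _ (h2.preimage Subtype.val_injective.injOn)
    ⟨n, fun x hx => (V2 n).symm.subset (hn (show (⟨x, hF hx⟩ : X) ∈ _ from hx))⟩
  exact ⟨_, range_subset_iff.2 fun k => U1 (m k), ga_of_seq (fun k => h1.1.1 _ (U1 _))
    (fun k e => h1.1.2.1 (e ▸ U1 _)) fun x => (hm x x.2).mono fun k hk => (V2 _).subset hk⟩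

lemma cnt_pseudo {ι : Type} {S : Set ι} (hS : S.Countable) {a : ι → Set ℕ}
    (h : ∀ F ⊆ S, F.Finite → (⋂ i ∈ F, a i).Infinite) :
    ∃ B : Set ℕ, B.Infinite ∧ ∀ i ∈ S, (B \ a i).Finite := by
  rcases S.eq_empty_or_nonempty with rfl | h0
  · exact ⟨univ, infinite_univ, by simp⟩
  obtain ⟨e, rfl⟩ := hS.exists_eq_range h0
  obtain ⟨g, g1, g2⟩ := pseudo (a := fun k => a (e k)) fun n => by
    simpa using h _ (image_subset_range e _) ((finite_Iic n).image e)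
  refine ⟨range g, infinite_of_forall_exists_gt fun n => ⟨_, ⟨n + 1, rfl⟩, g1 _⟩,
    forall_mem_range.2 fun k => ?_⟩
  obtain ⟨N, hN⟩ := eventually_atTop.1 (g2 k)
  refine ((finite_lt_nat N).image g).subset ?_
  rintro _ ⟨⟨n, rfl⟩, hn⟩
  exact ⟨n, not_le.1 fun e => hn (hN n e), rfl⟩

theorem exists_slalom (hc : (𝔠 : Cardinal.{0}) = ℵ₁) (b : ℕ → ℕ) : ∃ X : Set (ℕ → ℕ),
    Ch (Z := X) Om Ga ∧ Md b 0 ⊆ X ∧ (∀ x ∈ X, x ≤ b) ∧
      ∀ E : ℕ → Finset ℕ, (∀ j, (E j).card ≤ b j) → ∃ p, Md b p ⊆ X ∧ p ≤ b ∧ {j | p j ∉ E j}.Infinite := by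
  classical
  obtain ⟨V, E, V1, V2⟩ := code hc (ℕ → ℕ) (ℕ → Finset ℕ) (by simp)
  obtain ⟨F, hF⟩ := wf_rec (T := W1) (β := (ℕ → ℕ) × Set ℕ × Set ℕ) (fun α F q =>
    (∀ β < α, (F β).2.1.Infinite ∧ ∀ γ ≤ β, ((F β).2.1 ∩ (F γ).2.2).Finite) →
    (q.2.1.Infinite ∧ (q.2.1 ∩ q.2.2).Finite ∧ ∀ γ < α, (q.2.1 ∩ (F γ).2.2).Finite) ∧ q.1 ≤ b ∧
      (∀ γ < α, ∀ᶠ j in atTop, j ∈ (F γ).2.2 → q.1 j = 0) ∧
      ((∀ j, (E α j).card ≤ b j) → {j | q.1 j ∉ E α j}.Infinite) ∧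
      ((∀ S ⊆ Md b 0 ∪ (Md b q.1 ∪ ⋃ β ∈ Iio α, Md b (F β).1), S.Finite → ∃ m, S ⊆ V α m) →
        ∃ m : ℕ → ℕ, (∀ x ∈ Md b 0 ∪ (Md b q.1 ∪ ⋃ β ∈ Iio α, Md b (F β).1),
          ∀ᶠ k in atTop, x ∈ V α (m k)) ∧
          ∀ x ≤ b, (∀ᶠ j in atTop, j ∈ q.2.2 → x j = 0) → ∀ᶠ k in atTop, x ∈ V α (m k))) (fun α F => by
      by_cases h1 : ∀ β < α, (F β).2.1.Infinite ∧ ∀ γ ≤ β, ((F β).2.1 ∩ (F γ).2.2).Finite
      swap
      · exact ⟨F α, fun h => absurd h h1⟩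
      obtain ⟨B, B1, B2⟩ := cnt_pseudo (W1_Iio α) (a := fun γ => (F γ).2.2ᶜ) fun S h2 h3 => by
        rcases S.eq_empty_or_nonempty with rfl | h0
        · simpa using infinite_univ
        obtain ⟨β, h4, h5⟩ := exists_max_image S id h3 h0
        exact ((h1 β (h2 h4)).1.diff (h3.biUnion fun γ h => (h1 β (h2 h4)).2 γ (h5 γ h))).mono
          fun j hj => mem_iInter₂.2 fun γ h e => hj.2 (mem_biUnion h ⟨hj.1, e⟩)
      have H : ∀ j, ∃ i ≤ b j, (E α j).card ≤ b j → i ∉ E α j := fun j => by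
        by_cases e : (E α j).card ≤ b j
        · obtain ⟨i, e1, e2⟩ := Finset.exists_mem_notMem_of_card_lt_card
            (show (E α j).card < (Finset.range (b j + 1)).card by simpa using Nat.lt_succ_of_le e)
          exact ⟨i, Nat.lt_succ_iff.1 (Finset.mem_range.1 e1), fun _ => e2⟩
        · exact ⟨0, Nat.zero_le _, fun h => absurd h e⟩
      choose y y1 y2 using H
      let x : ℕ → ℕ := fun j => if j ∈ B then y j else 0
      have x1 : x ≤ b := fun j => by by_cases e : j ∈ B <;> simp [x, e, y1 j]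
      have x2 : ∀ γ < α, ∀ᶠ j in atTop, j ∈ (F γ).2.2 → x j = 0 := fun γ h => by
        rw [← Nat.cofinite_eq_atTop]
        exact (B2 γ h).subset fun j hj => ⟨by_contra fun e => hj fun _ => if_neg e, fun e => hj (absurd · e)⟩
      have x3 : (∀ j, (E α j).card ≤ b j) → {j | x j ∉ E α j}.Infinite := fun h =>
        B1.mono fun j hj => by simpa [x, hj] using y2 j (h j)
      have B3 : ∀ S ⊆ B, ∀ γ < α, (S ∩ (F γ).2.2).Finite := fun S h γ h' =>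
        (B2 γ h').subset fun j hj => ⟨h hj.1, not_not.2 hj.2⟩
      by_cases h2 : ∀ S ⊆ Md b 0 ∪ (Md b x ∪ ⋃ β ∈ Iio α, Md b (F β).1), S.Finite → ∃ m, S ⊆ V α m
      swap
      · exact ⟨(x, B, ∅), fun _ => ⟨⟨B1, by simp, B3 B Subset.rfl⟩, x1, x2, x3, fun h => absurd h h2⟩⟩
      obtain ⟨G, m, u, v, h3, h4, h5⟩ := gm (p := 0) (fun _ => Nat.zero_le _) subset_union_left ((Md_cnt _ _).union
        ((Md_cnt _ _).union ((W1_Iio α).biUnion fun _ _ => Md_cnt _ _))) (V1 α) h2 fun _ => B1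
      exact ⟨(x, B \ G, G), fun _ => ⟨⟨infinite_of_forall_exists_gt fun n => ⟨_, (h3 (n + 1)).2.2.1,
        (h3 _).1⟩, by simp, B3 _ diff_subset⟩, x1, x2, x3, fun _ => ⟨m, h4, h5⟩⟩⟩) fun α f g q e h => by
      rw [iUnion₂_congr (t := fun β _ => Md b (f β).1) fun β hβ => by rw [e β hβ]]
      intro h1
      obtain ⟨⟨e1, e2, e3⟩, e4, e5, e6⟩ := h fun β hβ => e β hβ ▸ ⟨(h1 β hβ).1, fun γ hγ =>
        e γ (hγ.trans_lt hβ) ▸ (h1 β hβ).2 γ hγ⟩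
      exact ⟨⟨e1, e2, fun γ hγ => e γ hγ ▸ e3 γ hγ⟩, e4, fun γ hγ => e γ hγ ▸ e5 γ hγ, e6⟩
  have key : ∀ β, (F β).2.1.Infinite ∧ ∀ γ ≤ β, ((F β).2.1 ∩ (F γ).2.2).Finite := fun β => by
    induction β using WellFoundedLT.induction with
    | ind β ih =>
      obtain ⟨e1, e2, e3⟩ := (hF β ih).1
      exact ⟨e1, fun γ h => h.eq_or_lt.elim (fun h => h ▸ e2) (e3 γ)⟩
  replace hF := fun α => (hF α fun β _ => key β).2
  refine ⟨Md b 0 ∪ ⋃ β, Md b (F β).1, ch_amb fun U h1 h2 => ?_, subset_union_left, fun x hx =>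
    hx.elim And.left fun h => let ⟨_, h⟩ := mem_iUnion.1 h; h.1, fun D hD => ?_⟩
  · obtain ⟨α, rfl, -⟩ := V2 U h1 fun _ => ∅
    obtain ⟨m, h3, h4⟩ := (hF α).2.2.2 fun S hS => h2 S (hS.trans (union_subset_union_right _
      (union_subset (subset_iUnion (fun β => Md b (F β).1) α) (iUnion₂_subset fun β _ =>
        subset_iUnion (fun β => Md b (F β).1) β))))
    refine ⟨m, fun x hx => hx.elim (fun h => h3 x (Or.inl h)) fun h => ?_⟩
    obtain ⟨β, hβ⟩ := mem_iUnion.1 h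
    rcases lt_trichotomy β α with e | rfl | e
    exacts [h3 x (Or.inr (Or.inr (mem_biUnion e hβ))), h3 x (Or.inr (Or.inl hβ)), h4 x hβ.1
      ((hβ.2.and ((hF β).2.1 α e)).mono fun j hj e => hj.1.trans (hj.2 e))]
  · obtain ⟨α, -, rfl⟩ := V2 (fun _ => ∅) (fun _ => isOpen_empty) D
    exact ⟨_, (subset_iUnion (fun β => Md b (F β).1) α).trans subset_union_right, (hF α).1,
      (hF α).2.2.1 hD⟩

lemma nt_on (n : ℕ) : Nt fun Z _ => On (Z := Z) n := fun _ _ _ _ h 𝒰 h1 => ⟨nt_oc _ _ h 𝒰 h1.1, fun F hF =>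
  let ⟨U, e1, e2⟩ := h1.2 (F.map h.toEquiv.toEmbedding) (by simpa using hF)
  ⟨_, ⟨U, e1, rfl⟩, fun x hx => e2 (Finset.mem_map_of_mem _ hx)⟩⟩

lemma S1n.tr {Z' : Type} [TopologicalSpace Z'] (h : Z ≃ₜ Z') (h1 : S1n (Z := Z) Ta) : S1n (Z := Z') Ta :=
  fun 𝒰 h2 => let ⟨f, e1, e2⟩ := h1 _ fun n => nt_on n _ _ h _ (h2 n)
    ⟨fun n => h.symm ⁻¹' f n, fun n => im_sub h (singleton_subset_iff.2 (e1 n)) ⟨_, rfl, rfl⟩,
      range_comp (preimage h.symm) f ▸ nt_ta _ _ h.symm _ e2⟩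

theorem exists_not_s1n (hc : (𝔠 : Cardinal.{0}) = ℵ₁) : ∃ X : Set (ℕ → ℕ),
    Ch (Z := X) Om Ga ∧ ¬ S1n (Z := X) Ta := by
  classical
  obtain ⟨X, h1, h2, h3, h4⟩ := exists_slalom hc fun j => 4 * j + 1
  refine ⟨X, h1, fun h => ?_⟩
  let W : ℕ → Finset ℕ → Set X := fun n E =>
    {x | x.1 0 ≠ n % 2 ∨ x.1 (n / 2 + 1) = 0 ∨ x.1 (n / 2 + 1) ∈ E}
  have md : ∀ (p : ℕ → ℕ) (i j a : ℕ), p ≤ (fun j => 4 * j + 1) → i ≤ 1 → a ≤ 4 * (j + 1) + 1 →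
      update (update p 0 i) (j + 1) a ∈ Md (fun j => 4 * j + 1) p := fun p i j a e1 e2 e3 =>
    ⟨update_le_iff.2 ⟨e3, fun k _ => update_le_iff.2 ⟨e2, fun k _ => e1 k⟩ k⟩,
      (eventually_gt_atTop (j + 1)).mono fun k hk => by rw [update_of_ne hk.ne', update_of_ne (by omega)]⟩
  have sep : ∀ n (E : Finset ℕ), E.card ≤ n + 1 → ∃ x : X, x ∉ W n E ∧ ∀ m D, m ≠ n → x ∈ W m D :=
    fun n E hE => by
      obtain ⟨a, e1, e2⟩ := Finset.exists_mem_notMem_of_card_lt_card (show (insert 0 E).card <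
        (Finset.range (n + 3)).card by simpa using (Finset.card_insert_le _ _).trans_lt (by omega))
      simp only [Finset.mem_range, Finset.mem_insert, not_or] at e1 e2
      refine ⟨⟨_, h2 (md 0 (n % 2) (n / 2) a (fun _ => Nat.zero_le _) (by omega) (by omega))⟩, by
        simp [W, e2], fun m D hm => ?_⟩
      by_cases e : m / 2 = n / 2
      · exact Or.inl (by simp; omega)
      · exact Or.inr (Or.inl (by simp [e]))
  have cov : ∀ n (F : Finset X), ∃ E : Finset ℕ, E.card ≤ F.card ∧ ↑F ⊆ W n E := fun n F =>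
    ⟨F.image fun x => x.1 (n / 2 + 1), Finset.card_image_le, fun x hx =>
      Or.inr (Or.inr (Finset.mem_image_of_mem _ hx))⟩
  obtain ⟨f, f1, -, -, f2⟩ := h (fun n => W n '' {E | E.card ≤ n + 1}) fun n => ⟨⟨by
      rintro _ ⟨E, -, rfl⟩
      exact IsOpen.preimage (f := fun x : X => (x.1 0, x.1 (n / 2 + 1))) (((continuous_apply _).comp
        continuous_subtype_val).prodMk ((continuous_apply _).comp continuous_subtype_val))
        (isOpen_discrete {q | q.1 ≠ n % 2 ∨ q.2 = 0 ∨ q.2 ∈ E}),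
      fun ⟨E, e1, e2⟩ => let ⟨x, e3, _⟩ := sep n E e1; e3 (e2.symm.subset trivial),
      eq_univ_of_forall fun x => let ⟨E, e1, e2⟩ := cov n {x}
        ⟨_, ⟨E, e1.trans (by simp), rfl⟩, e2 (by simp)⟩⟩,
    fun F hF => let ⟨E, e1, e2⟩ := cov n F; ⟨_, ⟨E, e1.trans (by omega), rfl⟩, e2⟩⟩
  choose E E1 E2 using f1
  have hf : Injective f := fun n m e => by_contra fun hn =>
    let ⟨x, e1, e2⟩ := sep n _ (E1 n); e1 (((E2 n).trans (e.trans (E2 m).symm)).symm.subset (e2 m _ (Ne.symm hn)))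
  obtain ⟨p, p1, p2, p3⟩ := h4 (fun j => if j = 0 then ∅ else insert 0 (E (2 * (j - 1)) ∪ E (2 * (j - 1) + 1)))
    fun j => by
      split_ifs with e
      · simp
      have e1 := mem_setOf_eq ▸ E1 (2 * (j - 1))
      have e2 := mem_setOf_eq ▸ E1 (2 * (j - 1) + 1)
      have := (Finset.card_insert_le 0 _).trans (Nat.succ_le_succ (Finset.card_union_le (E (2 * (j - 1)))
        (E (2 * (j - 1) + 1))))
      omega
  let x : ℕ → X := fun i => ⟨_, p1 (md p (i % 2) 0 (p 1) p2 (by omega) (p2 1))⟩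
  have key : ∀ i ≤ 1, {V ∈ range f | x (i + 1) ∈ V ∧ x i ∉ V}.Infinite := fun i hi => by
    refine (((p3.diff (finite_singleton 0)).image (f := fun j => 2 * (j - 1) + i) fun a ha b hb e => by
      have := ha.2; have := hb.2; simp only [mem_singleton_iff] at *; omega).image hf.injOn).mono ?_
    rintro _ ⟨_, ⟨j, ⟨h5, h6⟩, rfl⟩, rfl⟩
    obtain ⟨j, rfl⟩ := Nat.exists_eq_succ_of_ne_zero h6
    simp only [mem_setOf_eq, Nat.succ_ne_zero, if_false, Nat.succ_sub_one, Finset.mem_insert,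
      Finset.mem_union, not_or] at h5
    have e1 : (2 * j + i) / 2 = j := by omega
    have e2 : (x i).1 (j + 1) = p (j + 1) := by cases j <;> simp [x]
    refine ⟨⟨_, rfl⟩, ?_, ?_⟩ <;> simp only [Nat.succ_sub_one, ← E2, W, mem_setOf_eq, e1, e2]
    · exact Or.inl (by simp [x]; omega)
    · rintro (e | e | e)
      · exact e (by simp [x])
      · exact h5.1 e
      · obtain rfl | rfl : i = 0 ∨ i = 1 := by omega
        exacts [h5.2.1 e, h5.2.2 e]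
  exact (f2 (x 0) (x 1)).elim (key 1 le_rfl) (key 0 zero_le_one)

end Pool.Agent.H30.Tau
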