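import Pool.Agent.H30.TauD
import Pool.Agent.H30.MtA

set_option autoImplicit false

namespace Pool.Agent.H30.Tau

open Set Filter Topology Function Pool.Agent.H30.Spl Pool.Agent.H30.Mt
open Cardinal hiding univ

def Blk (D : ℕ → Finset ℕ) : Prop := ∀ k l, k < l → Lt (D k) (D l)

def Cond (E D : ℕ → Finset ℕ) : Prop := ∀ᶠ j in atTop, ∃ e : Finset ℕ, E j = e.biUnion D

def Sb (D : ℕ → Finset ℕ) (x : ℕ → ℕ) : Prop :=
  ∃ a : Set ℕ, a.Infinite ∧ ∀ᶠ i in atTop, x i = 1 ↔ ∃ k ∈ a, i ∈ D k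

open Classical in
noncomputable def top (D : ℕ → Finset ℕ) : ℕ → ℕ := fun i => if ∃ k, i ∈ D k then 1 else 0

def ind (s : Finset ℕ) : ℕ → ℕ := fun i => if i ∈ s then 1 else 0

lemma Blk.ge {D : ℕ → Finset ℕ} (h : Blk D) (k : ℕ) : ∀ i ∈ D k, k ≤ i := by
  induction k with
  | zero => exact fun _ _ => Nat.zero_le _
  | succ k ih =>
    obtain ⟨⟨j, hj⟩, -, h2⟩ := h k _ k.lt_succ_self
    exact fun i hi => (ih j hj).trans_lt (h2 j hj i hi)

lemma Cond.trans {D E F : ℕ → Finset ℕ} (hF : Blk F) (hE : Blk E) (h1 : Cond F E) (h2 : Cond E D) :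
    Cond F D := by
  obtain ⟨N, hN⟩ := eventually_atTop.1 h2
  choose! g hg using hN
  filter_upwards [h1, eventually_gt_atTop (((Finset.range N).biUnion E).sup id)] with j ⟨e, he⟩ hj
  refine ⟨e.biUnion g, ?_⟩
  rw [he, Finset.biUnion_biUnion]
  refine Finset.biUnion_congr rfl fun i hi => hg i (not_lt.1 fun h => ?_)
  obtain ⟨a, ha⟩ := (hE i _ i.lt_succ_self).1
  exact (hF.ge j a (he ▸ Finset.mem_biUnion.2 ⟨i, hi, ha⟩)).not_gt
    ((le_sup (Finset.mem_biUnion.2 ⟨i, Finset.mem_range.2 h, ha⟩)).trans_lt hj)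

lemma Sb.mono {D E : ℕ → Finset ℕ} (hE : Blk E) (h1 : Cond E D) {x : ℕ → ℕ} (h : Sb E x) : Sb D x := by
  obtain ⟨N, hN⟩ := eventually_atTop.1 h1
  choose! g hg using hN
  obtain ⟨a, a1, a2⟩ := h
  refine ⟨⋃ j ∈ a ∩ Ici N, g j, fun hf => ?_, ?_⟩
  · obtain ⟨j, j1, j2⟩ := a1.exists_gt (N + (hf.toFinset.biUnion D).sup id)
    obtain ⟨i, hi⟩ := (hE j _ j.lt_succ_self).1
    obtain ⟨k, k1, k2⟩ := Finset.mem_biUnion.1 (hg j (by omega) ▸ hi)
    have := le_sup (Finset.mem_biUnion.2 ⟨k, hf.mem_toFinset.2 (mem_biUnion (x := j) ⟨j1, show N ≤ j by omega⟩ k1), k2⟩)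
    have := hE.ge j i hi
    omega
  · filter_upwards [a2, eventually_gt_atTop (((Finset.range N).biUnion E).sup id)] with i h2 h3
    refine h2.trans ⟨fun ⟨j, j1, j2⟩ => ?_, fun ⟨k, k1, k2⟩ => ?_⟩
    · have e : N ≤ j := not_lt.1 fun h =>
        (le_sup (Finset.mem_biUnion.2 ⟨j, Finset.mem_range.2 h, j2⟩)).not_gt h3
      obtain ⟨k, k1, k2⟩ := Finset.mem_biUnion.1 (hg j e ▸ j2)
      exact ⟨k, mem_biUnion (x := j) ⟨j1, e⟩ k1, k2⟩
    · obtain ⟨j, j1, j2⟩ := mem_iUnion₂.1 k1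
      exact ⟨j, j1.1, hg j j1.2 ▸ Finset.mem_biUnion.2 ⟨k, j2, k2⟩⟩

lemma md_sb {D : ℕ → Finset ℕ} {x : ℕ → ℕ} (h : x ∈ Md 1 (top D)) : Sb D x :=
  ⟨univ, infinite_univ, h.2.mono fun i hi => by simp [hi, top]⟩

lemma build {q : Ultrafilter (Finset ℕ)} (hq : Far q) {D : ℕ → Finset ℕ} (hD : Blk D)
    {R : ℕ → Finset ℕ → Prop} (hR : ∀ n, ∀ᶠ e in q, R n e) (c : ℕ → Finset ℕ → ℕ) (n0 : ℕ) :
    ∃ (n : ℕ → ℕ) (e : ℕ → Finset ℕ), n 0 = n0 ∧ StrictMono n ∧ Blk (fun j => (e j).biUnion D) ∧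
      ∀ j, R (n j) (e j) ∧ c (n j) (e j) ≤ n (j + 1) ∧ ∀ i ∈ (e j).biUnion D, n j ≤ i ∧ i < n (j + 1) := by
  choose E E1 E2 using fun n => ((hR n).and (hq n)).exists
  let n : ℕ → ℕ := fun j => Nat.rec n0 (fun _ m => c m (E m) + ((E m).biUnion D).sup id + m + 1) j
  have n1 : ∀ j, n (j + 1) = c (n j) (E (n j)) + ((E (n j)).biUnion D).sup id + n j + 1 := fun _ => rfl
  have n2 : StrictMono n := strictMono_nat_of_lt_succ fun j => by rw [n1]; omega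
  have n3 : ∀ j, ∀ i ∈ (E (n j)).biUnion D, n j ≤ i ∧ i < n (j + 1) := fun j i hi => by
    obtain ⟨k, k1, k2⟩ := Finset.mem_biUnion.1 hi
    exact ⟨((E2 _).2 k k1).le.trans (hD.ge k i k2), by have := le_sup hi; rw [n1]; omega⟩
  have n4 : ∀ j, ((E (n j)).biUnion D).Nonempty := fun j =>
    let ⟨k, hk⟩ := (E2 (n j)).1; (hD k _ k.lt_succ_self).1.mono (Finset.subset_biUnion_of_mem D hk)
  exact ⟨n, fun j => E (n j), rfl, n2, fun k l h => ⟨n4 k, n4 l, fun a ha b hb =>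
    (n3 k a ha).2.trans_le ((n2.monotone h).trans (n3 l b hb).1)⟩, fun j => ⟨E1 _, by rw [n1]; beta_reduce; omega, n3 j⟩⟩

def lm (q : Ultrafilter (Finset ℕ)) (D : ℕ → Finset ℕ) (W : Set (Finset ℕ)) : Set (Finset ℕ) :=
  {s | ∀ᶠ e : Finset ℕ in q, s ∪ e.biUnion D ∈ W}

lemma lm_ev {q : Ultrafilter (Finset ℕ)} (hq : ∀ P ∈ q, ∀ᶠ H in q, ∀ᶠ K in q, H ∪ K ∈ P)
    (D : ℕ → Finset ℕ) (W : Set (Finset ℕ)) (s : Finset ℕ) : ∀ᶠ e : Finset ℕ in q,
    (s ∪ e.biUnion D ∈ W ↔ s ∈ lm q D W) ∧ (s ∪ e.biUnion D ∈ lm q D W ↔ s ∈ lm q D W) := by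
  have H : ∀ W, s ∈ lm q D W → ∀ᶠ e : Finset ℕ in q, s ∪ e.biUnion D ∈ W ∧ s ∪ e.biUnion D ∈ lm q D W :=
    fun W h => Eventually.and h ((hq _ h).mono fun e he => he.mono fun k hk => by
      rw [Finset.union_assoc, ← Finset.union_biUnion]; exact hk)
  by_cases h : s ∈ lm q D W
  · exact (H W h).mono fun e he => ⟨iff_of_true he.1 h, iff_of_true he.2 h⟩
  · exact (H Wᶜ (Ultrafilter.eventually_not.2 h)).mono fun e he => ⟨iff_of_false he.1 h,
      iff_of_false (Ultrafilter.eventually_not.1 he.2) h⟩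

lemma fin_sub (n : ℕ) : {s : Finset ℕ | s ⊆ Finset.range n}.Finite :=
  (Finset.range n).powerset.finite_toSet.subset fun _ h => Finset.mem_coe.2 (Finset.mem_powerset.2 h)

lemma pre_step {x : ℕ → ℕ} {a : Set ℕ} {n : ℕ → ℕ} (hn : StrictMono n) {d : ℕ → Finset ℕ}
    (hd : ∀ j, ∀ i ∈ d j, n j ≤ i ∧ i < n (j + 1)) {j : ℕ}
    (h : ∀ i, n j ≤ i → (x i = 1 ↔ ∃ k ∈ a, i ∈ d k)) [Decidable (j ∈ a)] :
    (Finset.range (n (j + 1))).filter (x · = 1) =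
      (Finset.range (n j)).filter (x · = 1) ∪ if j ∈ a then d j else ∅ := by
  ext i
  simp only [Finset.mem_filter, Finset.mem_range, Finset.mem_union]
  have e0 := hn j.lt_succ_self
  refine ⟨fun ⟨h1, h2⟩ => (lt_or_ge i (n j)).imp (⟨·, h2⟩) fun h3 => ?_, ?_⟩
  · obtain ⟨k, k1, k2⟩ := (h i h3).1 h2
    have e1 := hn.lt_iff_lt.1 ((hd k i k2).1.trans_lt h1)
    have e2 := hn.lt_iff_lt.1 (h3.trans_lt (hd k i k2).2)
    obtain rfl : k = j := by omega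
    rwa [if_pos k1]
  · rintro (⟨h1, h2⟩ | h1)
    · exact ⟨h1.trans e0, h2⟩
    · split_ifs at h1 with e
      exacts [⟨(hd j i h1).2, (h i (hd j i h1).1).2 ⟨j, e, h1⟩⟩, absurd h1 (Finset.notMem_empty i)]

lemma ind_pre {x : ℕ → ℕ} (hx : x ≤ 1) {n i : ℕ} (h : i < n) :
    ind ((Finset.range n).filter (x · = 1)) i = x i := by
  have := hx i
  simp only [ind, Finset.mem_filter, Finset.mem_range, h, true_and, Pi.one_apply] at this ⊢
  split_ifs <;> omega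

theorem tstep {D : ℕ → Finset ℕ} (hD : Blk D) (p : ℕ → ℕ → ℕ) {U : ℕ → Set (ℕ → ℕ)}
    (hU : ∀ m, IsOpen (U m)) (h1 : ∀ E, Blk E → Cond E D → ∀ F ⊆ range p ∪ Md 1 (top E), F.Finite →
      ∀ n, ∃ m : ℕ, n ≤ m.unpair.1 ∧ F ⊆ U m) :
    ∃ (E : ℕ → Finset ℕ) (m : ℕ → ℕ), Blk E ∧ Cond E D ∧ (∀ j, m j < (m (j + 1)).unpair.1) ∧
      (∀ i, ∀ᶠ j in atTop, p i ∈ U (m j)) ∧ ∀ x ≤ 1, Sb E x → (∀ᶠ j in atTop, x ∈ U (m j)) ∨
        ∀ᶠ j in atTop, x ∈ U (m j) ↔ ∀ i ∈ E j, x i = 1 := by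
  classical
  obtain ⟨q, q1, -, q2⟩ := exists_q
  let W : ℕ → Set (Finset ℕ) := fun m => {s | ind s ∈ U m}
  have G : ∀ n, ∀ᶠ e : Finset ℕ in q, ∃ m : ℕ, n ≤ m.unpair.1 ∧ p '' Iic n ⊆ U m ∧
      ∀ s ⊆ Finset.range n, s ∪ e.biUnion D ∈ W m := fun n => by
    by_contra hc
    let V : Set (Finset ℕ) := {t | ¬ ∃ m : ℕ, n ≤ m.unpair.1 ∧ p '' Iic n ⊆ U m ∧
      ∀ s ⊆ Finset.range n, s ∪ t ∈ W m}
    obtain ⟨N, e, N0, N1, N2, N3⟩ := build q1 hD (fun k => (eventually_all_finite (fin_sub k)).2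
      fun s _ => lm_ev q2 D V s) (fun _ _ => 0) n
    let y := top fun j => (e j).biUnion D
    let t : ℕ → Finset ℕ := fun j => (Finset.range (N j)).filter (y · = 1)
    have t1 : ∀ j, t (j + 1) = t j ∪ (e j).biUnion D := fun j => by
      simpa using pre_step (x := y) (a := univ) N1 (fun j => (N3 j).2.2) (j := j) fun i _ => by simp [y, top]
    have t0 : t 0 = ∅ := Finset.filter_eq_empty_iff.2 fun i hi h => by
      obtain ⟨k, hk⟩ : ∃ k, i ∈ (e k).biUnion D := by simpa [y, top] using h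
      exact (Finset.mem_range.1 hi).not_ge ((N1.monotone k.zero_le).trans ((N3 k).2.2 i hk).1)
    have t2 : ∀ j, t j ∈ lm q D V := fun j => by
      induction j with
      | zero => rw [t0]; simpa [lm, V] using Ultrafilter.eventually_not.2 hc
      | succ j ih => exact t1 j ▸ ((N3 j).1 _ (Finset.filter_subset _ _)).2.2 ih
    have y1 : y ≤ 1 := fun i => by simp only [y, top]; split_ifs <;> simp
    obtain ⟨m, m1, m2⟩ := h1 _ N2 (Eventually.of_forall fun j => ⟨_, rfl⟩) (p '' Iic n ∪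
      (fun s i => if i ∈ s then 1 else y i) '' {s | s ⊆ Finset.range n}) (union_subset_union
        (image_subset_range _ _) (image_subset_iff.2 fun s hs => ⟨fun i => by
          by_cases e : i ∈ s
          exacts [by simp [e], by simpa [e] using y1 i], (eventually_ge_atTop n).mono fun i hi =>
          if_neg fun e => (Finset.mem_range.1 (hs e)).not_ge hi⟩))
      (((finite_Iic n).image p).union ((fin_sub n).image _)) n
    choose! k hk using fun s hs => nhds_pi (hU m) (m2 (Or.inr ⟨s, hs, rfl⟩))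
    obtain ⟨M, hM⟩ := ((fin_sub n).image k).bddAbove
    refine ((N3 M).1 _ (Finset.filter_subset _ _)).1.2 (t2 M) ⟨m, m1, subset_union_left.trans m2,
      fun s hs => hk s hs _ fun i hi => ?_⟩
    have e1 : i < N (M + 1) := (hi.trans_le (hM ⟨s, hs, rfl⟩)).trans (M.lt_succ_self.trans_le N1.le_apply)
    rw [← t1]
    beta_reduce
    rw [← ind_pre y1 e1]
    by_cases e : i ∈ s <;> simp [ind, e, t]
  have G' : ∀ n (e : Finset ℕ), ∃ m : ℕ, (∃ m : ℕ, n ≤ m.unpair.1 ∧ p '' Iic n ⊆ U m ∧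
      ∀ s ⊆ Finset.range n, s ∪ e.biUnion D ∈ W m) → n ≤ m.unpair.1 ∧ p '' Iic n ⊆ U m ∧
      ∀ s ⊆ Finset.range n, s ∪ e.biUnion D ∈ W m := fun n e => by
    by_cases h : ∃ m : ℕ, n ≤ m.unpair.1 ∧ p '' Iic n ⊆ U m ∧ ∀ s ⊆ Finset.range n, s ∪ e.biUnion D ∈ W m
    exacts [h.imp fun _ h _ => h, ⟨0, fun h' => absurd h' h⟩]
  choose μ hμ using G'
  let T : ℕ → Set (Finset ℕ) := fun n => {s | ∀ᶠ e in q, s ∈ lm q D (W (μ n e))}
  let Y : Set (Finset ℕ) := {s | ∀ᶠ n in hyperfilter ℕ, s ∈ T n}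
  have uf : ∀ {α : Type} (r : Ultrafilter α) (P : α → Prop), ∀ᶠ a in r, P a ↔ ∀ᶠ a in r, P a :=
    fun r P => (em (∀ᶠ a in r, P a)).elim (fun h => h.mono fun a ha => iff_of_true ha h) fun h =>
      (Ultrafilter.eventually_not.2 h).mono fun a ha => iff_of_false ha h
  choose ν ν1 ν2 using fun n => ((hge n).and ((eventually_all_finite (fin_sub n)).2 fun s _ =>
    uf (hyperfilter ℕ) (s ∈ T ·))).exists
  have cy : ∀ k, ∃ c, ∀ s ⊆ Finset.range k, ∀ m ≤ k, s ∈ W m → ∀ x, (∀ i < c, x i = ind s i) → x ∈ U m :=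
    fun k => by
      choose! c hc using fun (r : Finset ℕ × ℕ) (h : r.1 ∈ W r.2) => nhds_pi (hU r.2) h
      obtain ⟨M, hM⟩ := (((fin_sub k).prod (finite_Iic k)).image c).bddAbove
      exact ⟨M, fun s h2 m h3 h4 x h5 => hc (s, m) h4 x fun i hi => h5 i (hi.trans_le (hM ⟨(s, m), ⟨h2, h3⟩, rfl⟩))⟩
  choose cy hcy using cy
  obtain ⟨n, e, -, N1, N2, N3⟩ := build q1 hD (fun n => (G (ν n)).and ((eventually_all_finite
    (fin_sub n)).2 fun s _ => (uf q fun e => s ∈ lm q D (W (μ (ν n) e))).and ((eventually_all_finite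
      (((finite_Iic n).image W).insert Y)).2 fun V _ => lm_ev q2 D V s)))
    (fun n e => μ (ν n) e + 1 + cy (μ (ν n) e + (e.biUnion D).sup id + n + 1)) 0
  have N4 := fun j => hμ _ _ (N3 j).1.1
  refine ⟨_, fun j => μ (ν (n j)) (e j), N2, Eventually.of_forall fun j => ⟨_, rfl⟩, fun j =>
    lt_of_lt_of_le (by have := (N3 j).2.1; beta_reduce; omega) ((ν1 _).trans (N4 (j + 1)).1), fun i =>
    (eventually_ge_atTop i).mono fun j hj => (N4 j).2.1 ⟨i, hj.trans (N1.le_apply.trans (ν1 _)), rfl⟩,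
    fun x hx ⟨a, a1, a2⟩ => ?_⟩
  obtain ⟨J, hJ⟩ := eventually_atTop.1 a2
  let s : ℕ → Finset ℕ := fun j => (Finset.range (n j)).filter (x · = 1)
  have s0 : ∀ j, s j ⊆ Finset.range (n j) := fun j => Finset.filter_subset _ _
  have s1 : ∀ j, J ≤ j → s (j + 1) = s j ∪ if j ∈ a then (e j).biUnion D else ∅ := fun j hj =>
    pre_step N1 (fun j => (N3 j).2.2) fun i hi => hJ i ((hj.trans N1.le_apply).trans hi)
  have s2 : ∀ j, J ≤ j → j ∈ a → s (j + 1) = s j ∪ (e j).biUnion D := fun j h h' => by rw [s1 j h, if_pos h']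
  have s3 : ∀ j, J ≤ j → j ∉ a → s (j + 1) = s j := fun j h h' => by simp [s1 j h, h']
  have F1 : ∀ j, J ≤ j → ∀ V ∈ insert Y (W '' Iic (n j)), ∀ l, j ≤ l → (s l ∈ lm q D V ↔ s j ∈ lm q D V) ∧
      (l ∈ a → (s (l + 1) ∈ V ↔ s j ∈ lm q D V)) := fun j hj V hV l hl => by
    have e1 : ∀ l, j ≤ l → V ∈ insert Y (W '' Iic (n l)) := fun l hl =>
      insert_subset_insert (image_mono (Iic_subset_Iic.2 (N1.monotone hl))) hV
    have e2 : s l ∈ lm q D V ↔ s j ∈ lm q D V := by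
      induction l, hl using Nat.le_induction with
      | base => rfl
      | succ l hl ih =>
        by_cases e : l ∈ a
        · rw [s2 l (hj.trans hl) e]; exact (((N3 l).1.2 _ (s0 l)).2 V (e1 l hl)).2.trans ih
        · rwa [s3 l (hj.trans hl) e]
    exact ⟨e2, fun e => by rw [s2 l (hj.trans hl) e]; exact (((N3 l).1.2 _ (s0 l)).2 V (e1 l hl)).1.trans e2⟩
  have F0 : ∀ l, J ≤ l → l ∈ a → ∀ m ≤ μ (ν (n l)) (e l) + n l, s (l + 1) ∈ W m → x ∈ U m :=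
    fun l h2 h3 m h4 h5 => hcy (μ (ν (n l)) (e l) + ((e l).biUnion D).sup id + n l + 1) _ (fun i hi => by
      rcases Finset.mem_union.1 (s2 l h2 h3 ▸ hi) with h | h
      exacts [Finset.mem_range.2 (by have := Finset.mem_range.1 (s0 l h); omega),
        Finset.mem_range.2 (by have := le_sup h; omega)]) m (by omega) h5 x fun i hi =>
      (ind_pre hx (by have := (N3 l).2.1; omega)).symm
  have F2 : ∀ j, J ≤ j → ∀ m ≤ n j, x ∈ U m ↔ s j ∈ lm q D (W m) := fun j hj m hm => by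
    refine ⟨fun h => ?_, fun h => ?_⟩
    · obtain ⟨k, hk⟩ := nhds_pi (hU m) h
      obtain ⟨l, l1, l2⟩ := a1.exists_gt (j + k)
      exact ((F1 j hj _ (Or.inr ⟨m, hm, rfl⟩) l (by omega)).2 l1).1 (hk _ fun i hi =>
        ind_pre hx (by have : l + 1 ≤ n (l + 1) := N1.le_apply; omega))
    · obtain ⟨l, l1, l2⟩ := a1.exists_gt j
      exact F0 l (by omega) l1 m (by have := N1 l2; omega) (((F1 j hj _ (Or.inr ⟨m, hm, rfl⟩) l l2.le).2 l1).2 h)
  have F3 : ∀ j, J ≤ j → j ∈ a → x ∈ U (μ (ν (n j)) (e j)) := fun j h2 h3 => F0 j h2 h3 _ (by omega)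
    (s2 j h2 h3 ▸ (N4 j).2.2 _ ((s0 j).trans (Finset.range_mono (ν1 _))))
  obtain ⟨j0, j1, j2⟩ := a1.exists_gt J
  have F4 : ∀ j, j0 + 1 ≤ j → (s j ∈ Y ↔ s J ∈ lm q D Y) := fun j hj => by
    induction j, hj using Nat.le_induction with
    | base => exact (F1 J le_rfl Y (Or.inl rfl) j0 j2.le).2 j1
    | succ l hl ih =>
      by_cases e : l ∈ a
      · exact (F1 J le_rfl Y (Or.inl rfl) l (by omega)).2 e
      · rwa [s3 l (by omega) e]
  have F5 : ∀ j, j0 + 1 ≤ j → j ∉ a → (x ∈ U (μ (ν (n j)) (e j)) ↔ s J ∈ lm q D Y) := fun j h2 h3 => by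
    rw [F2 (j + 1) (by omega) _ (by have := (N3 j).2.1; omega), s3 j (by omega) h3]
    exact (((N3 j).1.2 _ (s0 j)).1.trans (ν2 _ _ (s0 j))).trans (F4 j h2)
  refine (em (s J ∈ lm q D Y)).imp (fun h => (eventually_ge_atTop (j0 + 1)).mono fun j hj =>
    (em (j ∈ a)).elim (F3 j (by omega)) fun e => (F5 j hj e).2 h) fun h =>
    (eventually_ge_atTop (j0 + 1)).mono fun j hj => ?_
  have e0 : ∀ i ∈ (e j).biUnion D, J ≤ i := fun i hi =>
    (show J ≤ j by omega).trans (N1.le_apply.trans ((N3 j).2.2 i hi).1)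
  by_cases h2 : j ∈ a
  · exact iff_of_true (F3 j (by omega) h2) fun i hi => (hJ i (e0 i hi)).2 ⟨j, h2, hi⟩
  · refine iff_of_false (fun e => h ((F5 j hj h2).1 e)) fun h3 => ?_
    obtain ⟨i, hi⟩ := (N2 j _ j.lt_succ_self).1
    obtain ⟨k, k1, k2⟩ := (hJ i (e0 i hi)).1 (h3 i hi)
    rcases lt_trichotomy k j with h4 | rfl | h4
    exacts [lt_irrefl i ((N2 _ _ h4).2.2 i k2 i hi), h2 k1, lt_irrefl i ((N2 _ _ h4).2.2 i hi i k2)]

end Pool.Agent.H30.Tau
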