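import Pool.Agent.H30.TauE

set_option autoImplicit false

namespace Pool.Agent.H30.Tau

open Set Filter Topology Function Pool.Agent.H30.Spl Pool.Agent.H30.Mt
open Cardinal hiding univ

/-- `Split(A, B)`. -/
def Spl {Z : Type} (A B : Set (Set Z) → Prop) : Prop :=
  ∀ 𝒰, A 𝒰 → ∃ 𝒱 𝒲, Disjoint 𝒱 𝒲 ∧ 𝒱 ∪ 𝒲 = 𝒰 ∧ (∃ 𝒱' ⊆ 𝒱, B 𝒱') ∧ ∃ 𝒲' ⊆ 𝒲, B 𝒲'

lemma Cond.refl (D : ℕ → Finset ℕ) : Cond D D := Eventually.of_forall fun j => ⟨{j}, by simp⟩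

lemma blk_lim {F : W1 → ℕ → Finset ℕ} {α : W1} (h : ∀ β < α, Blk (F β) ∧ ∀ γ < β, Cond (F β) (F γ)) :
    ∃ D, Blk D ∧ ∀ β < α, Cond D (F β) := by
  rcases (Iio α).eq_empty_or_nonempty with h0 | h0
  · exact ⟨fun k => {k}, fun k l h => ⟨by simp, by simp, by simpa⟩, fun β hβ => absurd (h0.subset hβ) id⟩
  obtain ⟨e, he⟩ := (W1_Iio α).exists_eq_range h0
  have h1 : ∀ n, e n < α := fun n => he.symm.subset ⟨n, rfl⟩
  have H : ∀ n m, ∃ E : Finset ℕ, E.Nonempty ∧ (∀ i ∈ E, m < i) ∧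
      ∀ i ∈ Iic n, ∃ s : Finset ℕ, E = s.biUnion (F (e i)) := fun n m => by
    obtain ⟨k, -, hk⟩ := exists_max_image _ e (finite_Iic n) ⟨n, le_refl n⟩
    obtain ⟨j, j1, j2⟩ := ((eventually_gt_atTop m).and ((eventually_all_finite (finite_Iic n)).2 fun i hi =>
      show Cond (F (e k)) (F (e i)) from (hk i hi).eq_or_lt.elim (fun h => h ▸ Cond.refl _)
        ((h _ (h1 k)).2 _))).exists
    exact ⟨_, ((h _ (h1 k)).1 j _ j.lt_succ_self).1, fun i hi => j1.trans_le ((h _ (h1 k)).1.ge j i hi), j2⟩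
  choose G G1 G2 G3 using H
  let M : ℕ → ℕ := fun n => Nat.rec 0 (fun n m => (G n m).sup id) n
  have M1 : ∀ n, M (n + 1) = (G n (M n)).sup id := fun _ => rfl
  have M2 : Monotone M := monotone_nat_of_le_succ fun n =>
    let ⟨i, hi⟩ := G1 n (M n); (G2 _ _ i hi).le.trans (le_sup hi)
  refine ⟨fun n => G n (M n), fun k l hkl => ⟨G1 _ _, G1 _ _, fun a ha b hb =>
    ((le_sup ha).trans (M1 k ▸ M2 hkl)).trans_lt (G2 _ _ b hb)⟩, fun β hβ => ?_⟩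
  obtain ⟨i, rfl⟩ := he.subset hβ
  exact (eventually_ge_atTop i).mono fun n hn => G3 n _ i hn

def Gp (g x : ℕ → ℕ) : Prop := ∃ᶠ n in atTop, ∀ i, n ≤ i → i < g n → x i ≠ 1

lemma blk_gap {D : ℕ → Finset ℕ} (hD : Blk D) (g : ℕ → ℕ) :
    ∃ E, Blk E ∧ Cond E D ∧ ∀ x, Sb E x → Gp g x := by
  let s : ℕ → ℕ := fun j => Nat.rec 0 (fun _ k => k + 1 + g ((D k).sup id + 1)) j
  have s1 : ∀ j, s (j + 1) = s j + 1 + g ((D (s j)).sup id + 1) := fun _ => rfl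
  clear_value s
  have s2 : StrictMono s := strictMono_nat_of_lt_succ fun j => by rw [s1]; omega
  refine ⟨fun j => D (s j), fun k l h => hD _ _ (s2 h), Eventually.of_forall fun j => ⟨{s j}, by simp⟩,
    fun x ⟨a, _, a2⟩ => frequently_atTop.2 fun N => ?_⟩
  obtain ⟨M, hM⟩ := eventually_atTop.1 a2
  obtain ⟨b, hb⟩ := (hD (s (N + M)) _ (Nat.lt_succ_self _)).1
  have e1 := (s2.le_apply.trans (hD.ge _ b hb)).trans (le_sup hb)
  refine ⟨(D (s (N + M))).sup id + 1, by omega, fun i h1 h2 h3 => ?_⟩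
  obtain ⟨k, -, hk⟩ := (hM i (by omega)).1 h3
  rcases lt_trichotomy k (N + M) with h | rfl | h
  · have := ((hD _ _ (s2 h)).2.2 i hk b hb).trans_le (le_sup hb); omega
  · have := le_sup hk; beta_reduce at this; omega
  · have := (s2.monotone (show N + M + 1 ≤ k from h)).trans (hD.ge _ i hk); rw [s1] at this; omega

lemma blk_pair {E : ℕ → Finset ℕ} (h : Blk E) : Blk (fun j => E (2 * j) ∪ E (2 * j + 1)) ∧
    Cond (fun j => E (2 * j) ∪ E (2 * j + 1)) E :=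
  ⟨fun k l hkl => ⟨(h _ _ (Nat.lt_succ_self _)).1.mono Finset.subset_union_left,
    (h _ _ (Nat.lt_succ_self _)).1.mono Finset.subset_union_left, fun a ha b hb => by
      rcases Finset.mem_union.1 ha with e | e <;> rcases Finset.mem_union.1 hb with e' | e' <;>
        exact (h _ _ (by omega)).2.2 a e b e'⟩, Eventually.of_forall fun j => ⟨{2 * j, 2 * j + 1}, by simp⟩⟩

lemma Sb.fr {D : ℕ → Finset ℕ} (hD : Blk D) {x : ℕ → ℕ} (h : Sb D x) (N : ℕ) :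
    ∃ j, N ≤ j ∧ ∀ i ∈ D j, x i = 1 := by
  obtain ⟨a, a1, a2⟩ := h
  obtain ⟨M, hM⟩ := eventually_atTop.1 a2
  obtain ⟨j, j1, j2⟩ := a1.exists_gt (N + M)
  exact ⟨j, by omega, fun i hi => (hM i (by have := hD.ge j i hi; omega)).2 ⟨j, j1, hi⟩⟩

theorem exists_tower (hc : (𝔠 : Cardinal.{0}) = ℵ₁) : ∃ X : Set (ℕ → ℕ),
    (∀ x ∈ X, x ≤ 1 ∧ {i | x i = 1}.Infinite ∧ Md 1 x ⊆ X) ∧
    (∀ x ∈ X, ∀ y ∈ X, (∀ᶠ i in atTop, x i = 1 → y i = 1) ∨ ∀ᶠ i in atTop, y i = 1 → x i = 1) ∧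
    (∀ g, ∃ x ∈ X, Gp g x) ∧ ∀ U : ℕ → Set (ℕ → ℕ), (∀ m, IsOpen (U m)) →
      (∀ F ⊆ X, F.Finite → ∀ n, ∃ m : ℕ, n ≤ m.unpair.1 ∧ F ⊆ U m) → ∃ m : ℕ → ℕ,
        (∀ j, m j < (m (j + 1)).unpair.1) ∧ ∀ r < 2, (∀ x ∈ X, {j | x ∈ U (m (2 * j + r))}.Infinite) ∧
          ∀ x ∈ X, ∀ y ∈ X, ({j | x ∈ U (m (2 * j + r))} \ {j | y ∈ U (m (2 * j + r))}).Finite ∨
            ({j | y ∈ U (m (2 * j + r))} \ {j | x ∈ U (m (2 * j + r))}).Finite := by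
  obtain ⟨V, g, V1, V2⟩ := code hc (ℕ → ℕ) (ℕ → ℕ) (by simp)
  obtain ⟨F, hF⟩ := wf_rec (T := W1) (β := ℕ → Finset ℕ) (fun α F D =>
    (∀ β < α, Blk (F β) ∧ ∀ γ < β, Cond (F β) (F γ)) → (Blk D ∧ ∀ β < α, Cond D (F β)) ∧
      (∀ x, Sb D x → Gp (g α) x) ∧ ((∀ S ⊆ (Md 1 1 ∪ ⋃ β ∈ Iio α, Md 1 (top (F β))) ∪ Md 1 (top D),
        S.Finite → ∀ n, ∃ m : ℕ, n ≤ m.unpair.1 ∧ S ⊆ V α m) → ∃ (E : ℕ → Finset ℕ) (m : ℕ → ℕ), Blk E ∧
        (D = fun j => E (2 * j) ∪ E (2 * j + 1)) ∧ (∀ j, m j < (m (j + 1)).unpair.1) ∧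
        (∀ x ∈ Md 1 1 ∪ ⋃ β ∈ Iio α, Md 1 (top (F β)), ∀ᶠ j in atTop, x ∈ V α (m j)) ∧
        ∀ x ≤ 1, Sb E x → (∀ᶠ j in atTop, x ∈ V α (m j)) ∨
          ∀ᶠ j in atTop, x ∈ V α (m j) ↔ ∀ i ∈ E j, x i = 1)) (fun α F => by
      by_cases h1 : ∀ β < α, Blk (F β) ∧ ∀ γ < β, Cond (F β) (F γ)
      swap
      · exact ⟨F α, fun h => absurd h h1⟩
      obtain ⟨D0, d1, d2⟩ := blk_lim h1
      obtain ⟨D, d3, d4, d5⟩ := blk_gap d1 (g α)
      obtain ⟨p, hp⟩ := ((Md_cnt 1 1).union ((W1_Iio α).biUnion fun β _ => Md_cnt 1 (top (F β)))).exists_eq_range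
        ⟨1, Or.inl ⟨le_rfl, Eventually.of_forall fun _ => rfl⟩⟩
      rw [hp]
      have H : ∀ E, Blk E → Cond E D → (Blk E ∧ ∀ β < α, Cond E (F β)) ∧ ∀ x, Sb E x → Gp (g α) x :=
        fun E e1 e2 => ⟨⟨e1, fun β h => Cond.trans e1 d1 (Cond.trans e1 d3 e2 d4) (d2 β h)⟩,
          fun x hx => d5 x (hx.mono e1 e2)⟩
      by_cases h2 : ∀ E, Blk E → Cond E D → ∀ S ⊆ range p ∪ Md 1 (top E), S.Finite →
          ∀ n, ∃ m : ℕ, n ≤ m.unpair.1 ∧ S ⊆ V α m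
      · obtain ⟨E, m, e1, e2, e3, e4, e5⟩ := tstep d3 p (V1 α) h2
        have e6 := H _ (blk_pair e1).1 (Cond.trans (blk_pair e1).1 e1 (blk_pair e1).2 e2)
        exact ⟨_, fun _ => ⟨e6.1, e6.2, fun _ => ⟨E, m, e1, rfl, e3, forall_mem_range.2 e4, e5⟩⟩⟩
      · simp only [not_forall] at h2
        obtain ⟨E, e1, e2, h2⟩ := h2
        exact ⟨E, fun _ => ⟨(H E e1 e2).1, (H E e1 e2).2, fun h => by
          obtain ⟨S, s1, s2, n, s3⟩ := h2; exact absurd (h S s1 s2 n) s3⟩⟩) fun α f g q e h => by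
      rw [iUnion₂_congr (t := fun β _ => Md 1 (top (f β))) fun β hβ => by rw [e β hβ]]
      intro h1
      obtain ⟨⟨e1, e2⟩, e3⟩ := h fun β hβ => e β hβ ▸ ⟨(h1 β hβ).1, fun γ hγ =>
        e γ (hγ.trans hβ) ▸ (h1 β hβ).2 γ hγ⟩
      exact ⟨⟨e1, fun γ hγ => e γ hγ ▸ e2 γ hγ⟩, e3⟩
  have key : ∀ β, Blk (F β) ∧ ∀ γ < β, Cond (F β) (F γ) := fun β => by
    induction β using WellFoundedLT.induction with
    | ind β ih => exact (hF β ih).1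
  replace hF := fun α => (hF α fun β _ => key β).2
  have sb : ∀ α β, α ≤ β → ∀ x ∈ Md 1 (top (F β)), Sb (F α) x := fun α β h x hx =>
    h.eq_or_lt.elim (fun h => h ▸ md_sb (h ▸ hx)) fun h => (md_sb hx).mono (key β).1 ((key β).2 α h)
  have lin : ∀ x ∈ Md 1 1 ∪ ⋃ β, Md 1 (top (F β)), ∀ y ∈ Md 1 1 ∪ ⋃ β, Md 1 (top (F β)),
      (∀ᶠ i in atTop, x i = 1 → y i = 1) ∨ ∀ᶠ i in atTop, y i = 1 → x i = 1 := by
    have H : ∀ α β, α ≤ β → ∀ x ∈ Md 1 (top (F α)), ∀ y ∈ Md 1 (top (F β)),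
        ∀ᶠ i in atTop, y i = 1 → x i = 1 := fun α β h x hx y hy => by
      obtain ⟨a, -, ha⟩ := sb α β h y hy
      filter_upwards [ha, hx.2] with i h1 h2 h3
      obtain ⟨k, -, hk⟩ := h1.1 h3
      rw [h2, top, if_pos ⟨k, hk⟩]
    rintro x (hx | hx) y hy
    · exact Or.inr (hx.2.mono fun i hi _ => hi)
    rcases hy with hy | hy
    · exact Or.inl (hy.2.mono fun i hi _ => hi)
    obtain ⟨α, hx⟩ := mem_iUnion.1 hx
    obtain ⟨β, hy⟩ := mem_iUnion.1 hy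
    exact (le_total β α).imp (fun h => H β α h y hy x hx) fun h => H α β h x hx y hy
  have md : ∀ p, ∀ x ∈ Md 1 p, Md 1 x ⊆ Md 1 p := fun p x hx y hy =>
    ⟨hy.1, (hy.2.and hx.2).mono fun i hi => hi.1.trans hi.2⟩
  refine ⟨_, ?_, lin, fun g' => ?_, fun U h1 h2 => ?_⟩
  · rintro x (hx | hx)
    · exact ⟨hx.1, Nat.frequently_atTop_iff_infinite.1 hx.2.frequently, (md _ x hx).trans subset_union_left⟩
    obtain ⟨α, hx⟩ := mem_iUnion.1 hx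
    refine ⟨hx.1, infinite_of_forall_exists_gt fun N => ?_, (md _ x hx).trans
      ((subset_iUnion (fun β => Md 1 (top (F β))) α).trans subset_union_right)⟩
    obtain ⟨j, j1, j2⟩ := (md_sb hx).fr (key α).1 (N + 1)
    obtain ⟨i, hi⟩ := ((key α).1 j _ j.lt_succ_self).1
    exact ⟨i, j2 i hi, j1.trans ((key α).1.ge j i hi)⟩
  · obtain ⟨α, -, rfl⟩ := V2 (fun _ => ∅) (fun _ => isOpen_empty) g'
    have : top (F α) ∈ Md 1 (top (F α)) := ⟨fun i => by simp only [top]; split_ifs <;> simp,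
      Eventually.of_forall fun _ => rfl⟩
    exact ⟨_, Or.inr (mem_iUnion.2 ⟨α, this⟩), (hF α).1 _ (md_sb this)⟩
  obtain ⟨α, rfl, -⟩ := V2 U h1 0
  obtain ⟨E, m, e1, e2, e3, e4, e5⟩ := (hF α).2 fun S hS => h2 S (hS.trans (union_subset
    (union_subset_union_right _ (iUnion₂_subset fun β _ => subset_iUnion (fun β => Md 1 (top (F β))) β))
    ((subset_iUnion (fun β => Md 1 (top (F β))) α).trans subset_union_right)))
  refine ⟨m, e3, fun r hr => ?_⟩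
  have td : Tendsto (fun j => 2 * j + r) atTop atTop := tendsto_atTop_mono (fun j => by simp; omega) tendsto_id
  have H : ∀ x ∈ Md 1 1 ∪ ⋃ β, Md 1 (top (F β)), (∀ᶠ j in atTop, x ∈ V α (m (2 * j + r))) ∨
      ((∀ᶠ j in atTop, x ∈ V α (m (2 * j + r)) ↔ ∀ i ∈ E (2 * j + r), x i = 1) ∧
        ∀ N, ∃ j, N ≤ j ∧ ∀ i ∈ E (2 * j + r), x i = 1) := by
    rintro x (hx | hx)
    · exact Or.inl (td.eventually (e4 x (Or.inl hx)))
    obtain ⟨β, hx⟩ := mem_iUnion.1 hx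
    rcases lt_or_ge β α with h | h
    · exact Or.inl (td.eventually (e4 x (Or.inr (mem_biUnion h hx))))
    have h3 := sb α β h x hx
    refine (e5 x hx.1 ((e2 ▸ h3).mono (blk_pair e1).1 (blk_pair e1).2)).imp td.eventually
      fun h4 => ⟨td.eventually h4, fun N => (h3.fr (key α).1 N).imp fun j hj => ⟨hj.1, fun i hi => hj.2 i ?_⟩⟩
    obtain rfl | rfl : r = 0 ∨ r = 1 := by omega
    exacts [e2 ▸ Finset.mem_union_left _ hi, e2 ▸ Finset.mem_union_right _ hi]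
  have fin : ∀ {a b : Set ℕ}, (∀ᶠ j in atTop, j ∈ a → j ∈ b) → (a \ b).Finite := fun h => by
    rw [← Nat.cofinite_eq_atTop] at h
    exact h.subset fun j hj e => hj.2 (e hj.1)
  have H2 : ∀ x ∈ Md 1 1 ∪ ⋃ β, Md 1 (top (F β)), ∀ y ∈ Md 1 1 ∪ ⋃ β, Md 1 (top (F β)),
      (∀ᶠ i in atTop, x i = 1 → y i = 1) →
      ({j | x ∈ V α (m (2 * j + r))} \ {j | y ∈ V α (m (2 * j + r))}).Finite ∨
        ({j | y ∈ V α (m (2 * j + r))} \ {j | x ∈ V α (m (2 * j + r))}).Finite := fun x hx y hy h => by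
    rcases H x hx with h3 | h3
    · exact Or.inr (fin (h3.mono fun j hj _ => hj))
    rcases H y hy with h4 | h4
    · exact Or.inl (fin (h4.mono fun j hj _ => hj))
    obtain ⟨N, hN⟩ := eventually_atTop.1 h
    refine Or.inl (fin ?_)
    filter_upwards [h3.1, h4.1, eventually_ge_atTop N] with j h5 h6 h7 h8
    exact h6.2 fun i hi => hN i (by have := e1.ge _ i hi; omega) (h5.1 h8 i hi)
  refine ⟨fun x hx => (H x hx).elim (fun h => Nat.frequently_atTop_iff_infinite.1 h.frequently) fun h => ?_,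
    fun x hx y hy => (lin x hx y hy).elim (H2 x hx y hy) fun h => (H2 y hy x hx h).symm⟩
  obtain ⟨M, hM⟩ := eventually_atTop.1 h.1
  exact infinite_of_forall_exists_gt fun N => let ⟨j, j1, j2⟩ := h.2 (N + M + 1)
    ⟨j, (hM j (by omega)).2 j2, by omega⟩

end Pool.Agent.H30.Tau
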