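import Pool.Agent.H30.TauF

set_option autoImplicit false

namespace Pool.Agent.H30.Tau

open Set Filter Topology Function
open Cardinal hiding univ

variable {Z Z' : Type} [TopologicalSpace Z] [TopologicalSpace Z']
variable {A B : ∀ (Z : Type) [TopologicalSpace Z], Set (Set Z) → Prop}

lemma Spl.tr (hA : Nt A) (hB : Nt B) (h : Z ≃ₜ Z') (h1 : Spl (A Z) (B Z)) : Spl (A Z') (B Z') := fun 𝒰 h2 => by
  obtain ⟨𝒱, 𝒲, e1, e2, ⟨𝒱', e3, e4⟩, 𝒲', e5, e6⟩ := h1 _ (hA _ _ h 𝒰 h2)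
  refine ⟨preimage h.symm '' 𝒱, preimage h.symm '' 𝒲, (disjoint_image_iff
    h.symm.surjective.preimage_injective).2 e1, ?_, ⟨_, image_mono e3, hB _ _ h.symm _ e4⟩,
    _, image_mono e5, hB _ _ h.symm _ e6⟩
  simp [← image_union, e2, image_image, preimage_preimage]

lemma Ufin.tr (hA : Nt A) (hB : Nt B) (h : Z ≃ₜ Z') (h1 : Ufin (A Z) (B Z)) : Ufin (A Z') (B Z') :=
  fun 𝒰 h2 h3 => by
    obtain ⟨F, e1, e2⟩ := h1 _ (fun n => hA _ _ h _ (h2 n)) fun n F e1 e2 e3 => h3 n _ (im_sub h e1)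
      (e2.image _) (by rw [sUnion_image, ← preimage_iUnion₂, ← sUnion_eq_biUnion, e3, preimage_univ])
    refine ⟨fun n => preimage h.symm '' F n, fun n => ⟨(e1 n).1.image _, im_sub h (e1 n).2⟩, ?_⟩
    simpa only [← range_comp, comp_def, preimage_sUnion, sUnion_image] using hB _ _ h.symm _ e2

lemma Sfin.ch {A B : Set (Set Z) → Prop} (h : Sfin A B) : Ch A B := fun 𝒰 h1 =>
  let ⟨_, h2, h3⟩ := h (fun _ => 𝒰) fun _ => h1; ⟨_, iUnion_subset fun n => (h2 n).2, h3⟩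

lemma Spl.ch {A B : Set (Set Z) → Prop} (h : Spl A B) : Ch A B := fun 𝒰 h1 =>
  let ⟨_, _, _, h2, ⟨𝒱, h3, h4⟩, _⟩ := h 𝒰 h1; ⟨𝒱, h3.trans (h2 ▸ subset_union_left), h4⟩

lemma Om.diff {𝒰 E : Set (Set Z)} (h : Om 𝒰) (hE : E.Finite) {F : Set Z} (hF : F.Finite) :
    ∃ U ∈ 𝒰, U ∉ E ∧ F ⊆ U := by
  obtain ⟨U0, h0, -⟩ := h.2 ∅ finite_empty
  have : Nonempty Z := let ⟨z, _⟩ := (ne_univ_iff_exists_notMem U0).1 fun e => h.1.2.1 (e ▸ h0); ⟨z⟩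
  choose! z hz using fun U (hU : U ∈ 𝒰) => (ne_univ_iff_exists_notMem U).1 fun e => h.1.2.1 (e ▸ hU)
  obtain ⟨U, h1, h2⟩ := h.2 _ (hF.union (hE.image z))
  exact ⟨U, h1, fun e => hz U h1 (h2 (Or.inr ⟨U, e, rfl⟩)), subset_union_left.trans h2⟩

def Tw (Z : Type) [TopologicalSpace Z] : Prop := ∀ U : ℕ → Set Z, (∀ m, IsOpen (U m)) →
  (∀ F : Set Z, F.Finite → ∀ n, ∃ m : ℕ, n ≤ m.unpair.1 ∧ F ⊆ U m) → ∃ m : ℕ → ℕ,
    (∀ j, m j < (m (j + 1)).unpair.1) ∧ ∀ r < 2, (∀ x, {j | x ∈ U (m (2 * j + r))}.Infinite) ∧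
      ∀ x y, ({j | x ∈ U (m (2 * j + r))} \ {j | y ∈ U (m (2 * j + r))}).Finite ∨
        ({j | y ∈ U (m (2 * j + r))} \ {j | x ∈ U (m (2 * j + r))}).Finite

lemma Tw.sfin [SecondCountableTopology Z] (h : Tw Z) : Sfin (Z := Z) Om Ta := fun 𝒰 h1 => by
  choose V V1 V2 using fun n => cnt_om (h1 n)
  obtain ⟨m, m1, m2⟩ := h (fun m => V m.unpair.1 m.unpair.2) (fun m => (h1 _).1.1 _ (V1 _ _)) fun F hF n =>
    let ⟨k, hk⟩ := V2 n F hF; ⟨Nat.pair n k, by simp, by simpa⟩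
  have m3 : StrictMono fun j => (m j).unpair.1 := strictMono_nat_of_lt_succ fun j =>
    (Nat.unpair_left_le _).trans_lt (m1 j)
  let f : ℕ → Set Z := fun j => V (m (2 * j + 0)).unpair.1 (m (2 * j + 0)).unpair.2
  refine ⟨fun n => f '' {j | (m (2 * j + 0)).unpair.1 = n}, fun n => ⟨((finite_le_nat n).subset
    fun j hj => (show j ≤ 2 * j + 0 by omega).trans (m3.le_apply.trans_eq hj)).image f,
    image_subset_iff.2 fun j (hj : _ = n) => hj ▸ V1 _ _⟩, ?_⟩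
  have := ta_of_seq (U := f) (fun _ => (h1 _).1.1 _ (V1 _ _)) (fun n e => (h1 _).1.2.1 (mem_of_eq_of_mem e.symm (V1 _ _)))
    (m2 0 two_pos).1 (m2 0 two_pos).2 finite_empty
  convert this using 1
  rw [← image_iUnion, diff_empty, ← image_univ]
  exact congrArg _ (eq_univ_of_forall fun j => mem_iUnion.2 ⟨_, rfl⟩)

lemma Tw.spl [SecondCountableTopology Z] (h : Tw Z) : Spl (Z := Z) Om Ta := fun 𝒰 h1 => by
  classical
  obtain ⟨V, V1, V2⟩ := cnt_om h1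
  have h2 : Om (range V) := om_of (forall_mem_range.2 fun n => h1.1.1 _ (V1 n))
    (fun ⟨n, e⟩ => h1.1.2.1 (e ▸ V1 n)) fun F hF => let ⟨n, hn⟩ := V2 F hF; ⟨_, ⟨n, rfl⟩, hn⟩
  let U : ℕ → Set Z := fun m => if V m.unpair.2 ∈ V '' Iio m.unpair.1 then ∅ else V m.unpair.2
  have U1 : ∀ m, U m ≠ ∅ → U m = V m.unpair.2 ∧ U m ∉ V '' Iio m.unpair.1 := fun m => by
    simp only [U]; split_ifs with e; exacts [fun h => absurd rfl h, fun _ => ⟨rfl, e⟩]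
  have U2 : ∀ m, IsOpen (U m) := fun m => (em (U m = ∅)).elim (· ▸ isOpen_empty) fun e =>
    (U1 m e).1 ▸ h1.1.1 _ (V1 _)
  obtain ⟨m, m1, m2⟩ := h U U2 fun F hF n => by
    obtain ⟨_, ⟨k, rfl⟩, e1, e2⟩ := h2.diff ((finite_Iio n).image V) hF
    exact ⟨Nat.pair n k, by simp, by simpa [U, -mem_image, e1]⟩
  have m3 : StrictMono m := strictMono_nat_of_lt_succ fun j => (m1 j).trans_le (Nat.unpair_left_le _)
  have m4 : ∀ i j, i < j → U (m i) ≠ ∅ → U (m j) ≠ U (m i) := fun i j hij e1 e2 => by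
    obtain ⟨j, rfl⟩ := Nat.exists_eq_succ_of_ne_zero (Nat.ne_zero_of_lt hij)
    exact (U1 _ (e2 ▸ e1)).2 ⟨_, ((Nat.unpair_right_le _).trans (m3.monotone
      (Nat.lt_succ_iff.1 hij))).trans_lt (m1 j), (e2.trans (U1 _ e1).1).symm⟩
  obtain ⟨z, -⟩ := (ne_univ_iff_exists_notMem _).1 fun e => h1.1.2.1 (e ▸ V1 0)
  have T : ∀ r < 2, Ta (range (fun j => U (m (2 * j + r))) \ {∅}) := fun r hr => ta_of_seq (fun _ => U2 _)
    (fun n e => h1.1.2.1 ((e.symm.trans (U1 _ (ne_of_eq_of_ne e (Nonempty.ne_empty ⟨z, trivial⟩))).1) ▸ V1 _))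
    (m2 r hr).1 (m2 r hr).2 (finite_singleton _)
  have S : ∀ r, range (fun j => U (m (2 * j + r))) \ {∅} ⊆ 𝒰 := by
    rintro r _ ⟨⟨j, rfl⟩, e⟩
    exact mem_of_eq_of_mem (U1 _ e).1 (V1 _)
  refine ⟨_, 𝒰 \ _, disjoint_sdiff_right, union_diff_cancel (S 0), ⟨_, Subset.rfl, T 0 two_pos⟩, _,
    subset_diff.2 ⟨S 1, disjoint_left.2 ?_⟩, T 1 one_lt_two⟩
  rintro _ ⟨⟨j, rfl⟩, e⟩ ⟨⟨i, e'⟩, -⟩
  rcases lt_or_gt_of_ne (show 2 * i + 0 ≠ 2 * j + 1 by omega) with h | h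
  exacts [m4 _ _ h (ne_of_eq_of_ne e' e) e'.symm, m4 _ _ h e e']

theorem tower_nat (hc : (𝔠 : Cardinal.{0}) = ℵ₁) : ∃ X : Set (ℕ → ℕ), Tw X ∧ ¬ Ch (Z := X) Ta Ga ∧
    ¬ Ufin (Z := X) Ga Ga ∧ ¬ Ch (Z := Fin 2 → X) Om Ta := by
  classical
  obtain ⟨X, h1, h2, h3, h4⟩ := exists_tower hc
  have op : ∀ {W : Type} [TopologicalSpace W] {β : Type} [TopologicalSpace β] [DiscreteTopology β]
    {f : W → β} (_ : Continuous f) (s : Set β), IsOpen (f ⁻¹' s) := fun h s => (isOpen_discrete s).preimage h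
  have co : ∀ n, Continuous fun x : X => x.1 n := fun n => (continuous_apply n).comp continuous_subtype_val
  have md : ∀ x ∈ X, ∀ (s : Finset ℕ) (c : ℕ), c ≤ 1 → (fun i => if i ∈ s then c else x i) ∈ X :=
    fun x hx s c h => (h1 x hx).2.2 ⟨fun i => by
      by_cases e : i ∈ s
      exacts [by simp [e, h], by simpa [e] using (h1 x hx).1 i],
      (eventually_gt_atTop (s.sup id)).mono fun i hi => if_neg fun e => (Mt.le_sup e).not_gt hi⟩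
  have lin : ∀ x y : X, ({n | x.1 n = 1} \ {n | y.1 n = 1}).Finite ∨ ({n | y.1 n = 1} \ {n | x.1 n = 1}).Finite :=
    fun x y => (h2 x x.2 y y.2).imp (fun h => by
      rw [← Nat.cofinite_eq_atTop] at h; exact h.subset fun j hj e => hj.2 (e hj.1)) fun h => by
      rw [← Nat.cofinite_eq_atTop] at h; exact h.subset fun j hj e => hj.2 (e hj.1)
  have nb : ∀ B : Set ℕ, B.Infinite → ∃ x : X, (B \ {n | x.1 n = 1}).Infinite := fun B hB => by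
    choose g g1 g2 using hB.exists_gt
    obtain ⟨x, e1, e2⟩ := h3 fun n => g n + 1
    exact ⟨⟨x, e1⟩, infinite_of_forall_exists_gt fun N => let ⟨n, e3, e4⟩ := frequently_atTop.1 e2 N
      ⟨g n, ⟨g1 n, e4 _ (g2 n).le (Nat.lt_succ_self _)⟩, e3.trans_lt (g2 n)⟩⟩
  obtain ⟨x0, hx0, -⟩ := h3 0
  refine ⟨X, fun U U1 U2 => ?_, fun h => ?_, fun h => ?_, fun h => ?_⟩
  · choose V V1 V2 using fun n => isOpen_induced_iff.1 (U1 n)
    obtain ⟨m, m1, m2⟩ := h4 V V1 fun F hF h5 n => 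
      let ⟨m, e1, e2⟩ := U2 _ (h5.preimage Subtype.val_injective.injOn) n
      ⟨m, e1, fun x hx => (V2 m).symm.subset (e2 (show (⟨x, hF hx⟩ : X) ∈ _ from hx))⟩
    refine ⟨m, m1, fun r hr => ?_⟩
    simp only [← V2]
    exact ⟨fun x => (m2 r hr).1 x x.2, fun x y => (m2 r hr).2 x x.2 y y.2⟩
  · obtain ⟨g, g1, g2⟩ := h.seq (U := fun n => {x | x.1 n = 1}) (fun n => op (co n) {1})
      (fun x => (h1 x x.2).2.1) lin
    obtain ⟨x, hx⟩ := nb (range g) (infinite_of_forall_exists_gt fun n => ⟨_, ⟨n + 1, rfl⟩, g1 _⟩)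
    obtain ⟨N, hN⟩ := eventually_atTop.1 (g2 x)
    refine hx (((finite_lt_nat N).image g).subset ?_)
    rintro _ ⟨⟨n, rfl⟩, hn⟩
    exact ⟨n, not_le.1 fun e => hn (hN n e), rfl⟩
  · let O : ℕ → ℕ → Set X := fun n m => ⋃ i ∈ Ico n m, {x | x.1 i = 1}
    have O1 : ∀ n m, ∃ x : X, (∀ i < m, x.1 i = 0) ∧ x ∉ O n m := fun n m =>
      ⟨⟨_, md x0 hx0 (Finset.range m) 0 zero_le_one⟩, fun i hi => by simp [hi], fun e => by
        obtain ⟨i, e1, e2⟩ := mem_iUnion₂.1 e; simp [e1.2] at e2⟩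
    have O2 : ∀ n, ∀ F ⊆ range (O n), F.Finite → ∃ m, ⋃₀ F ⊆ O n m := fun n F e1 e2 => by
      choose! k hk using fun V (h : V ∈ F) => e1 h
      obtain ⟨M, hM⟩ := (e2.image k).bddAbove
      exact ⟨M, sUnion_subset fun V hV => hk V hV ▸ biUnion_subset_biUnion_left
        (Ico_subset_Ico_right (hM ⟨V, hV, rfl⟩))⟩
    obtain ⟨F, e1, e2⟩ := h (fun n => range (O n)) (fun n => ga_of_seq (fun m => isOpen_biUnion fun i _ =>
      op (co i) {1}) (fun m e => let ⟨x, _, hx⟩ := O1 n m; hx (e.symm.subset trivial)) fun x =>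
        let ⟨i, e1, e2⟩ := (h1 x x.2).2.1.exists_gt n
        (eventually_gt_atTop i).mono fun m hm => mem_biUnion (x := i) ⟨e2.le, hm⟩ e1) fun n F e1 e2 e3 =>
      let ⟨m, hm⟩ := O2 n F e1 e2; let ⟨x, _, hx⟩ := O1 n m; hx (hm (e3.symm.subset trivial))
    choose g hg using fun n => O2 n _ (e1 n).2 (e1 n).1
    have H : ∀ N, ∃ n, N ≤ n ∧ ⋃₀ F n ∉ (fun n => ⋃₀ F n) '' Iio N := fun N => by
      obtain ⟨_, ⟨n, rfl⟩, e⟩ := e2.2.1.exists_notMem_finite ((finite_Iio N).image fun n => ⋃₀ F n)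
      exact ⟨n, not_lt.1 fun e' => e ⟨n, e', rfl⟩, e⟩
    choose ν ν1 ν2 using H
    obtain ⟨x, e3, e4⟩ := h3 fun N => g (ν N)
    have e5 : ∀ V ∈ {V ∈ range fun n => ⋃₀ F n | (⟨x, e3⟩ : X) ∉ V}, ∀ᶠ N in atTop, ⋃₀ F (ν N) ≠ V :=
      fun V ⟨⟨k, hk⟩, _⟩ => (eventually_gt_atTop k).mono fun N hN e => ν2 N ⟨k, hN, hk.trans e.symm⟩
    obtain ⟨n, e6, e7⟩ := (e4.and_eventually ((eventually_all_finite (e2.2.2 ⟨x, e3⟩)).2 e5)).exists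
    refine e7 _ ⟨⟨_, rfl⟩, fun e => ?_⟩ rfl
    obtain ⟨i, e8, e9⟩ := mem_iUnion₂.1 (hg _ e)
    exact e6 i ((ν1 n).trans e8.1) e8.2 e9
  let U : ℕ → Set (Fin 2 → X) := fun n => {z | ((z 0).1 0 = 1 → (z 1).1 (n + 1) = 1) ∧
    ((z 0).1 0 ≠ 1 → ((z 0).1 (n + 1) = 1 ↔ (z 1).1 (n + 1) = 1))}
  let x1 : X := ⟨_, md x0 hx0 {0} 1 le_rfl⟩
  have U1 : ∀ (y : X) n, ![x1, y] ∈ U n ↔ y.1 (n + 1) = 1 := fun y n => by simp [U, x1]
  have hU : Injective U := fun n m e => by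
    simpa [eq_comm] using (U1 ⟨_, md _ (md x0 hx0 {m + 1} 0 zero_le_one) {n + 1} 1 le_rfl⟩ m).1
      (e ▸ (U1 _ n).2 (by simp))
  have co2 : ∀ i n, Continuous fun z : Fin 2 → X => (z i).1 n := fun i n => (co n).comp (continuous_apply i)
  obtain ⟨𝒱, v1, -, v2, v3⟩ := h (range U) (om_of (forall_mem_range.2 fun n => op (f := fun z : Fin 2 → X =>
      ((z 0).1 0, (z 0).1 (n + 1), (z 1).1 (n + 1))) ((co2 0 _).prodMk ((co2 0 _).prodMk (co2 1 _)))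
      {q | (q.1 = 1 → q.2.2 = 1) ∧ (q.1 ≠ 1 → (q.2.1 = 1 ↔ q.2.2 = 1))})
    (fun ⟨n, e⟩ => by simpa using (U1 ⟨_, md x0 hx0 {n + 1} 0 zero_le_one⟩ n).1 (e.symm.subset trivial))
    fun F hF => by
      obtain ⟨n, e1, e2⟩ := (chain_inf (fun x : X => (h1 x x.2).2.1) lin
        ((hF.image (· 0)).union (hF.image (· 1)))).exists_gt 0
      obtain ⟨n, rfl⟩ := Nat.exists_eq_succ_of_ne_zero e2.ne'
      exact ⟨_, ⟨n, rfl⟩, fun z hz => ⟨fun _ => mem_iInter₂.1 e1 _ (Or.inr ⟨z, hz, rfl⟩), fun _ =>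
        iff_of_true (mem_iInter₂.1 e1 _ (Or.inl ⟨z, hz, rfl⟩)) (mem_iInter₂.1 e1 _ (Or.inr ⟨z, hz, rfl⟩))⟩⟩)
  have nx : ∀ y : X, ∃ y' : X, {n | U n ∈ 𝒱 ∧ y.1 (n + 1) = 1 ∧ y'.1 (n + 1) ≠ 1}.Infinite ∧
      {n | y'.1 (n + 1) = 1 ∧ y.1 (n + 1) ≠ 1}.Finite := fun y => by
    obtain ⟨y', e1⟩ := nb _ ((Infinite.of_image U ((v2 ![x1, y]).mono fun V hV =>
      let ⟨n, hn⟩ := v1 hV.1
      ⟨n, show n ∈ {n | U n ∈ 𝒱 ∧ y.1 (n + 1) = 1} from ⟨hn ▸ hV.1, (U1 y n).1 (hn ▸ hV.2)⟩, hn⟩)).image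
        (add_left_injective 1).injOn)
    refine ⟨y', Infinite.of_image (· + 1) (e1.mono ?_), (((lin y y').resolve_left fun e => e1 (e.subset
      ?_)).preimage (add_left_injective 1).injOn :)⟩
    · rintro _ ⟨⟨n, e2, rfl⟩, e3⟩
      exact ⟨n, ⟨e2.1, e2.2, e3⟩, rfl⟩
    · rintro _ ⟨⟨n, e2, rfl⟩, e3⟩
      exact ⟨e2.2, e3⟩
  let z : X → X := fun y => ⟨_, md y y.2 {0} 0 zero_le_one⟩
  have U2 : ∀ (y y' : X) n, ![z y, y'] ∈ U n ↔ (y.1 (n + 1) = 1 ↔ y'.1 (n + 1) = 1) := fun y y' n => by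
    simp [U, z]
  obtain ⟨y1, e1, e2⟩ := nx x1
  obtain ⟨y2, e3, e4⟩ := nx y1
  refine (v3 ![z x1, y1] ![z y1, y2]).elim (fun e => e3 ((e2.union (e.preimage hU.injOn)).subset
    fun n hn => or_iff_not_imp_left.2 fun e' => ⟨hn.1, (U2 _ _ n).2 (iff_of_true (by_contra fun e'' =>
      e' ⟨hn.2.1, e''⟩) hn.2.1), fun e'' => hn.2.2 (((U2 _ _ n).1 e'').1 hn.2.1)⟩)) fun e =>
    e1 ((e4.union (e.preimage hU.injOn)).subset fun n hn => or_iff_not_imp_left.2 fun e' => ⟨hn.1,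
      (U2 _ _ n).2 (iff_of_false hn.2.2 fun e'' => e' ⟨e'', hn.2.2⟩),
      fun e'' => hn.2.2 (((U2 _ _ n).1 e'').1 hn.2.1)⟩)

theorem tower_real (hc : (𝔠 : Cardinal.{0}) = ℵ₁) : ∃ X : Set ℝ, Sfin (Z := X) Om Ta ∧
    Spl (Z := X) Om Ta ∧ ¬ Ch (Z := X) Ta Ga ∧ ¬ Ufin (Z := X) Ga Ga ∧ ¬ Ch (Z := Fin 2 → X) Om Ta := by
  obtain ⟨X, h1, h2, h3, h4⟩ := tower_nat hc
  obtain ⟨e, he⟩ := exists_emb
  let h := he.homeomorphImage X
  exact ⟨e '' X, h1.sfin.tr nt_om nt_ta h, h1.spl.tr nt_om nt_ta h, fun e => h2 (e.tr nt_ta nt_ga h.symm),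
    fun e => h3 (e.tr nt_ga nt_ga h.symm),
    fun e => h4 (e.tr nt_om nt_ta (Homeomorph.piCongrRight fun _ => h.symm))⟩

end Pool.Agent.H30.Tau
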