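import Pool.Agent.H30.TauD

set_option autoImplicit false

namespace Pool.Agent.H30.Tau

open Set Filter Topology Function

variable {Z : Type} [TopologicalSpace Z]

lemma Ch.bool (h : Ch (Z := Z) Om Ga) : Ch (Z := Z × Bool) Om Ga := fun 𝒰 h1 => by
  obtain ⟨𝒱, h2, h3⟩ := h {V | IsOpen V ∧ ∃ U ∈ 𝒰, Prod.fst ⁻¹' V ⊆ U} (om_of (fun _ h => h.1)
    (fun ⟨_, U, e1, e2⟩ => h1.1.2.1 (univ_subset_iff.1 (by simpa using e2) ▸ e1)) fun F hF => by
      obtain ⟨U, e1, e2⟩ := h1.2 _ (hF.prod (finite_univ (α := Bool)))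
      exact ⟨⋂ i, (fun x => (x, i)) ⁻¹' U, ⟨isOpen_iInter_of_finite fun i =>
        (h1.1.1 U e1).preimage (by fun_prop), U, e1, fun p hp => mem_iInter.1 hp p.2⟩,
        fun x hx => mem_iInter.2 fun i => e2 ⟨hx, trivial⟩⟩)
  obtain ⟨f, f1, f2⟩ := h3.seq
  choose U U1 U2 using fun n => (h2 (f1 n)).2
  exact ⟨_, range_subset_iff.2 U1, ga_of_seq (fun n => h1.1.1 _ (U1 n)) (fun n e => h1.1.2.1 (e ▸ U1 n))
    fun x => (f2 x.1).mono fun n hn => U2 n hn⟩

lemma On.le [Infinite Z] {k : ℕ} {𝒰 : Set (Set Z)} (h : On k 𝒰) (F : Finset Z) :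
    ∃ U ∈ 𝒰, F.card ≤ k → ↑F ⊆ U := by
  by_cases e : F.card ≤ k
  · obtain ⟨G, e1, e2⟩ := Infinite.exists_superset_card_eq F k e
    obtain ⟨U, e3, e4⟩ := h.2 G e2
    exact ⟨U, e3, fun _ => (Finset.coe_subset.2 e1).trans e4⟩
  · obtain ⟨G, e1⟩ := Infinite.exists_subset_card_eq Z k
    obtain ⟨U, e3, -⟩ := h.2 G e1
    exact ⟨U, e3, fun e' => absurd e' e⟩

theorem S1n.bool [T1Space Z] (H : S1n (Z := Z × Bool) Ta) : S1n (Z := Z) Ga := fun 𝒰 h => by
  classical
  have : Infinite Z := not_finite_iff_infinite.1 fun _ => by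
    have := Fintype.ofFinite Z
    obtain ⟨U, e1, e2⟩ := (h _).2 Finset.univ rfl
    exact (h _).1.2.1 (univ_subset_iff.1 (by simpa using e2) ▸ e1)
  let z := Infinite.natEmbedding Z
  let W : ℕ → (ℕ → Set Z) → ℕ → Set (Z × Bool) := fun n u b =>
    (Prod.snd ⁻¹' {n.bodd}ᶜ ∪ Prod.fst ⁻¹' (u (2 * n.div2 + 1) ∩ u (2 * n.div2 + 2))) ∩
      (Prod.snd ⁻¹' {n.bodd} ∪ Prod.fst ⁻¹' {z (Nat.pair n b)}ᶜ)
  have cov : ∀ n (F : Finset (Z × Bool)), F.card ≤ 2 * n.div2 + 1 →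
      ∃ u : ℕ → Set Z, (∀ k, u k ∈ 𝒰 k) ∧ ∃ b, ↑F ⊆ W n u b := fun n F hF => by
    choose u u1 u2 using fun k => (h k).le (F.image Prod.fst)
    obtain ⟨b, hb⟩ := ((F.image Prod.fst).finite_toSet.preimage (f := fun b => z (Nat.pair n b))
      fun a _ b _ e => by simpa using z.injective e).infinite_compl.nonempty
    have e : ∀ p ∈ F, p.1 ∈ F.image Prod.fst := fun p => Finset.mem_image_of_mem _
    exact ⟨u, u1, b, fun p hp => ⟨Or.inr ⟨u2 _ (Finset.card_image_le.trans hF) (e p hp),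
      u2 _ (Finset.card_image_le.trans (hF.trans (by omega))) (e p hp)⟩,
      Or.inr fun e' => hb (show z (Nat.pair n b) ∈ F.image Prod.fst from mem_singleton_iff.1 e' ▸ e p hp)⟩⟩
  have mk : ∀ n u b, (z (Nat.pair n b), !n.bodd) ∉ W n u b := fun n u b e => by simpa using e.2
  obtain ⟨f, f1, -, -, f2⟩ := H (fun n => {V | ∃ u : ℕ → Set Z, (∀ k, u k ∈ 𝒰 k) ∧ ∃ b, V = W n u b})
    fun n => ⟨⟨by
      rintro _ ⟨u, e, b, rfl⟩
      exact (((isOpen_discrete _).preimage continuous_snd).union ((((h _).1.1 _ (e _)).inter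
        ((h _).1.1 _ (e _))).preimage continuous_fst)).inter (((isOpen_discrete _).preimage
        continuous_snd).union (isOpen_compl_singleton.preimage continuous_fst)),
      fun ⟨u, _, b, e⟩ => mk n u b (e.subset trivial), eq_univ_of_forall fun p =>
        let ⟨u, e1, b, e2⟩ := cov n {p} (by simp); ⟨_, ⟨u, e1, b, rfl⟩, e2 (by simp)⟩⟩,
    fun F hF => let ⟨u, e1, b, e2⟩ := cov n F (by
      have := Nat.bodd_add_div2 n; have := Bool.toNat_le n.bodd; omega); ⟨_, ⟨u, e1, b, rfl⟩, e2⟩⟩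
  choose u u1 b hb using f1
  have key : ∀ i x y, (∃ᶠ m in atTop, x ∉ u (Nat.bit i m) (2 * m + 1) ∩ u (Nat.bit i m) (2 * m + 2)) →
      {V ∈ range f | (y, !i) ∈ V ∧ (x, i) ∉ V}.Infinite := fun i x y hx => by
    have inj : Injective fun m => z (Nat.pair (Nat.bit i m) (b (Nat.bit i m))) := fun m m' e => by
      simpa using congrArg Nat.div2 (Nat.pair_eq_pair.1 (z.injective e)).1
    refine (((Nat.frequently_atTop_iff_infinite.1 hx).diff ((finite_singleton y).preimage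
      inj.injOn)).image (f := fun m => f (Nat.bit i m)) fun m _ m' _ e => inj (by_contra fun e' => ?_)).mono ?_
    · refine mk _ (u _) _ ((hb (Nat.bit i m)).subset (e.symm.subset ((hb _).symm.subset ⟨Or.inl ?_, Or.inr e'⟩)))
      simp
    · rintro _ ⟨m, ⟨e1, e2⟩, rfl⟩
      refine ⟨⟨_, rfl⟩, (hb _).symm.subset ⟨Or.inl (by simp), Or.inr fun e => e2 (Eq.symm e)⟩, fun e => e1 ?_⟩
      simpa using ((hb _).subset e).1
  obtain ⟨i, hi⟩ : ∃ i, ∀ x, ∀ᶠ m in atTop, x ∈ u (Nat.bit i m) (2 * m + 1) ∩ u (Nat.bit i m) (2 * m + 2) := by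
    by_contra hc
    simp only [not_exists, not_forall, not_eventually] at hc
    obtain ⟨x, hx⟩ := hc true
    obtain ⟨y, hy⟩ := hc false
    exact (f2 (x, true) (y, false)).elim (key false y x hy) (key true x y hx)
  refine ⟨fun k => u (Nat.bit i ((k - 1) / 2)) k, fun k => u1 _ k, ga_of_seq (fun k => (h k).1.1 _ (u1 _ k))
    (fun k e => (h k).1.2.1 (e ▸ u1 _ k)) fun x => ?_⟩
  obtain ⟨N, hN⟩ := eventually_atTop.1 (hi x)
  refine eventually_atTop.2 ⟨2 * N + 1, fun k hk => ?_⟩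
  have e := hN ((k - 1) / 2) (by omega)
  rcases show k = 2 * ((k - 1) / 2) + 1 ∨ k = 2 * ((k - 1) / 2) + 2 by omega with e' | e'
  all_goals rw [← e'] at e
  exacts [e.1, e.2]

lemma emb_bool : ∃ e : ℝ × Bool → ℝ, IsEmbedding e := by
  let c : ℝ → ℝ := fun t => min (max (t - 1) 0) 1
  let j : Bool → ℝ := fun i => cond i 1 0
  have hj : IsEmbedding j := (continuous_of_discreteTopology.isClosedEmbedding (by
    rintro (_ | _) (_ | _) <;> simp [j])).isEmbedding
  have hs := Real.sigmoid_strictMono.isEmbedding_of_ordConnected (Real.range_sigmoid ▸ ordConnected_Ioo)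
  refine ⟨fun p => Real.sigmoid p.1 + 2 * j p.2, IsEmbedding.of_comp (g := fun t => (t - 2 * c t, c t))
    ((hs.continuous.comp continuous_fst).add (continuous_const.mul (hj.continuous.comp continuous_snd)))
    (by fun_prop) ?_⟩
  convert hs.prodMap hj using 1
  ext1 ⟨x, i⟩
  have e : c (Real.sigmoid x + 2 * j i) = j i := by
    have := Real.sigmoid_pos x
    have := Real.sigmoid_lt_one x
    cases i <;> simp only [c, j, cond]
    · rw [max_eq_right (by linarith), min_eq_left zero_le_one]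
    · rw [max_eq_left (by linarith), min_eq_right (by linarith)]
  simp [e]

end Pool.Agent.H30.Tau
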