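import Mathlib

set_option autoImplicit false

namespace Pool.Agent.H30.UF

open Set Filter Topology Cardinal

abbrev S : Type := Set ℝ

lemma reg : (Order.succ (𝔠 : Cardinal.{0})).IsRegular := isRegular_succ aleph0_le_continuum

instance : (cocardinal S reg).NeBot := by
  have := (cocardinal_inf_principal_neBot_iff (α := S) (hreg := reg) (s := univ)).2 (by
    rw [mk_univ, mk_set, mk_real]
    exact Order.succ_le_of_lt (cantor _))
  simpa using this

noncomputable def w : Ultrafilter S := Ultrafilter.of (cocardinal S reg)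

lemma compl_mem' {C : Set S} (hC : #C ≤ 𝔠) : Cᶜ ∈ w :=
  Ultrafilter.of_le (cocardinal S reg) (mem_cocardinal.2 (by
    rw [compl_compl]; exact Order.lt_succ_of_le hC))

lemma compl_mem {C : Set S} (hC : C.Countable) : Cᶜ ∈ w :=
  compl_mem' (hC.le_aleph0.trans aleph0_le_continuum)

def X : Type := {u : Ultrafilter S // (∃ C ∈ u, C.Countable) ∨ u = w}

instance : TopologicalSpace X := instTopologicalSpaceSubtype
instance : T35Space X := inferInstanceAs (T35Space (Subtype _))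

def hat (C : Set S) : Set X := {u | C ∈ u.1}

def L : Set (Set S) := {B | B.Countable ∨ B ∈ w}

lemma hat_clopen (C : Set S) : IsClopen (hat C) :=
  ⟨(ultrafilter_isClosed_basic C).preimage continuous_subtype_val,
    (ultrafilter_isOpen_basic C).preimage continuous_subtype_val⟩

def pt (a : S) : X := ⟨pure a, Or.inl ⟨{a}, rfl, countable_singleton a⟩⟩

noncomputable def ω : X := ⟨w, Or.inr rfl⟩

lemma supp {u : X} (hu : u ≠ ω) : ∃ C ∈ u.1, C.Countable :=
  u.2.resolve_right fun h => hu (Subtype.ext h)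

lemma exists_hat {U : Set X} (hU : IsOpen U) {u : X} (hu : u ∈ U) :
    ∃ C ∈ L, u ∈ hat C ∧ hat C ⊆ U := by
  obtain ⟨V, hV, rfl⟩ := isOpen_induced_iff.1 hU
  obtain ⟨_, ⟨s, rfl⟩, h1, h2⟩ := ultrafilterBasis_is_basis.exists_subset_of_mem_open hu hV
  rcases u.2 with ⟨C, hC, hC'⟩ | h
  · exact ⟨s ∩ C, Or.inl (hC'.mono inter_subset_right), inter_mem h1 hC,
      fun v hv => h2 (mem_of_superset hv inter_subset_left)⟩
  · exact ⟨s, Or.inr (h ▸ h1), h1, fun v hv => h2 hv⟩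

lemma basis : TopologicalSpace.IsTopologicalBasis (hat '' L) := by
  refine TopologicalSpace.isTopologicalBasis_of_isOpen_of_nhds ?_ fun u U hu hU => ?_
  · rintro _ ⟨C, -, rfl⟩
    exact (hat_clopen C).2
  · obtain ⟨C, h1, h2, h3⟩ := exists_hat hU hu
    exact ⟨_, ⟨C, h1, rfl⟩, h2, h3⟩

lemma tendsto_pt (u : X) : Tendsto pt u.1 (𝓝 u) := fun U hU => by
  obtain ⟨_, ⟨B, -, rfl⟩, h1, h2⟩ := basis.mem_nhds_iff.1 hU
  exact mem_of_superset h1 fun a ha => h2 ha

lemma closure_open {U : Set X} (hU : IsOpen U) : closure U = hat (pt ⁻¹' U) := by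
  refine Subset.antisymm (closure_minimal (fun u hu => ?_) (hat_clopen _).1) fun u hu => ?_
  · exact tendsto_pt u (hU.mem_nhds hu)
  · exact mem_closure_of_tendsto (tendsto_pt u) hu

lemma pretty (C D : Set (Set X)) (hC : C ⊆ hat '' L) (hc : C.Countable) (hD : D ⊆ hat '' L)
    (hd : ∀ U ∈ C, ∀ V ∈ D, Disjoint U V) :
    ∃ W ∈ hat '' L, (∀ U ∈ C, U ⊆ W) ∧ ∀ V ∈ D, Disjoint W V := by
  have hC' : ∀ c ∈ C, ∃ s ∈ L, hat s = c := fun c h => hC h
  choose! s hs hs' using hC'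
  refine ⟨hat (⋃ c ∈ C, s c), ⟨_, ?_, rfl⟩, fun c h u hu => ?_, fun d h => ?_⟩
  · by_cases h : ∀ c ∈ C, (s c).Countable
    · exact Or.inl (hc.biUnion h)
    · push Not at h
      obtain ⟨c, h1, h2⟩ := h
      exact Or.inr (mem_of_superset ((hs c h1).resolve_left h2) (subset_biUnion_of_mem h1))
  · rw [← hs' c h] at hu
    exact mem_of_superset hu (subset_biUnion_of_mem h)
  · obtain ⟨E, -, rfl⟩ := hD h
    refine disjoint_left.2 fun u h1 h2 => ?_
    obtain ⟨a, ha, ha'⟩ := u.1.nonempty_of_mem (inter_mem h1 h2)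
    obtain ⟨c, h3, h4⟩ := mem_iUnion₂.1 ha
    exact disjoint_left.1 (hd c h3 _ h) (show pt a ∈ c by rw [← hs' c h3]; exact h4) ha'

lemma cocompact : @CompactSpace X
    (TopologicalSpace.generateFrom ((fun B : Set X => (closure B)ᶜ) '' (hat '' L))) := by
  refine @CompactSpace.mk X (TopologicalSpace.generateFrom _)
    ((@isCompact_iff_ultrafilter_le_nhds X (TopologicalSpace.generateFrom _) _).2 fun f _ => ?_)
  simp only [TopologicalSpace.nhds_generateFrom, le_iInf_iff, le_principal_iff]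
  let u : Ultrafilter S := f.bind fun x => x.1
  obtain ⟨x, hx⟩ : ∃ x : X, ∀ B ∈ L, B ∈ u → B ∈ x.1 := by
    by_cases h : ∃ C ∈ u, C.Countable
    · exact ⟨⟨u, Or.inl h⟩, fun _ _ h => h⟩
    · exact ⟨ω, fun B hB h' => hB.resolve_left fun h1 => h ⟨B, h', h1⟩⟩
  refine ⟨x, trivial, ?_⟩
  rintro _ ⟨h3, _, ⟨B, hB, rfl⟩, rfl⟩
  simp only [(hat_clopen B).1.closure_eq] at h3 ⊢
  exact Ultrafilter.compl_mem_iff_notMem.2 fun h1 => h3 (hx B hB (mem_bind'.2 h1))

lemma supp_compact {K : Set X} (hK : IsCompact K) (h : ω ∉ K) :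
    ∃ C : Set S, C.Countable ∧ K ⊆ hat C := by
  refine hK.induction_on ⟨∅, countable_empty, empty_subset _⟩ ?_ ?_ ?_
  · rintro s t h1 ⟨C, h2, h3⟩
    exact ⟨C, h2, h1.trans h3⟩
  · rintro s t ⟨C, h1, h2⟩ ⟨D, h3, h4⟩
    exact ⟨C ∪ D, h1.union h3, union_subset (fun u hu => mem_of_superset (h2 hu) subset_union_left)
      fun u hu => mem_of_superset (h4 hu) subset_union_right⟩
  · intro u hu
    obtain ⟨C, h1, h2⟩ := supp (u := u) fun e => h (e ▸ hu)
    exact ⟨hat C, mem_nhdsWithin_of_mem_nhds ((hat_clopen C).2.mem_nhds h1), C, h2, subset_rfl⟩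

lemma supp_compact' {K : Set X} (hK : IsCompact K) :
    ∃ C : Set S, C.Countable ∧ K \ {ω} ⊆ hat C := by
  obtain ⟨M, hM⟩ := zorn_subset
    {M : Set (Set S) | (∀ C ∈ M, C.Countable ∧ ∃ u ∈ K, C ∈ u.1) ∧ M.PairwiseDisjoint id} (by
      intro c hc hch
      refine ⟨⋃₀ c, ⟨?_, ?_⟩, fun s hs => subset_sUnion_of_mem hs⟩
      · rintro C ⟨s, hs, h⟩
        exact (hc hs).1 C h
      · exact (pairwiseDisjoint_sUnion hch.directedOn).2 fun s hs => (hc hs).2)
  by_cases hMc : M.Countable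
  · refine ⟨⋃₀ M, hMc.sUnion fun C h => (hM.prop.1 C h).1, fun u hu => ?_⟩
    by_contra hn
    obtain ⟨C, h1, h2⟩ := supp hu.2
    have h3 : C \ ⋃₀ M ∈ u.1 := inter_mem h1 (Ultrafilter.compl_mem_iff_notMem.2 hn)
    have h4 : C \ ⋃₀ M ∈ M := by
      refine hM.mem_of_prop_insert ⟨?_, hM.prop.2.insert fun D hD _ => ?_⟩
      · rintro D (rfl | hD)
        · exact ⟨h2.mono sdiff_subset, u, hu.1, h3⟩
        · exact hM.prop.1 D hD
      · exact disjoint_left.2 fun a ha hb => ha.2 ⟨D, hD, hb⟩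
    obtain ⟨a, ha⟩ := u.1.nonempty_of_mem h3
    exact ha.2 ⟨_, h4, ha⟩
  · exfalso
    rw [countable_iff_lt_aleph_one, not_lt] at hMc
    obtain ⟨N, hN, hN'⟩ := le_mk_iff_exists_subset.1 hMc
    have h1 : #(⋃₀ N : Set S) ≤ 𝔠 := by
      refine (mk_sUnion_le N).trans ?_
      rw [← continuum_mul_aleph0, hN']
      exact mul_le_mul' aleph_one_le_continuum
        (ciSup_le' fun s => (hM.prop.1 s (hN s.2)).1.le_aleph0)
    obtain ⟨C, h2, h3⟩ := supp_compact (hK.inter_right (hat_clopen (⋃₀ N)).1)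
      fun h => w.compl_notMem_iff.2 h.2 (compl_mem' h1)
    have h4 : ∀ D ∈ N, ∃ a, a ∈ D ∧ a ∈ C := fun D hD => by
      obtain ⟨u, hu, h⟩ := (hM.prop.1 D (hN hD)).2
      exact u.1.nonempty_of_mem (inter_mem h
        (h3 ⟨hu, mem_of_superset h (subset_sUnion_of_mem hD)⟩))
    choose! a ha ha' using h4
    have h5 : N.Countable := by
      refine MapsTo.countable_of_injOn (f := a) ha' (fun D hD E hE e => ?_) h2
      exact hM.prop.2.elim_set (hN hD) (hN hE) (a D) (ha D hD) (e ▸ ha E hE)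
    rw [countable_iff_lt_aleph_one, hN'] at h5
    exact h5.false

lemma kclosed {K : Set X} (hK : IsCompact K) : IsClosed (K \ {ω}) := by
  obtain ⟨C, h1, h2⟩ := supp_compact' hK
  convert hK.isClosed.inter (hat_clopen C).1 using 1
  refine Subset.antisymm (subset_inter sdiff_subset h2) fun u hu => ⟨hu.1, fun e => ?_⟩
  have h3 : C ∈ u.1 := hu.2
  rw [show u = ω from e] at h3
  exact w.compl_notMem_iff.2 h3 (compl_mem h1)

lemma pt_ne (a : S) : pt a ≠ ω := fun e => by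
  have h : ({a}ᶜ : Set S) ∈ (pt a).1 := by rw [e]; exact compl_mem (countable_singleton a)
  exact h rfl

lemma mem_closure_diff {K : Set X} (hK : K ∈ 𝓝 ω) : ω ∈ closure (K \ {ω}) := by
  refine mem_closure_of_tendsto (tendsto_pt ω) ?_
  filter_upwards [mem_map.1 (tendsto_pt ω hK)] with a ha
  exact ⟨ha, pt_ne a⟩

end Pool.Agent.H30.UF
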